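import Pool.Agent.Dia.GDefs

/-!
# Module Lift: core sets of parts are core sets of the whole

`IsCore`, `torso`, `coreE` are invariant under graph isomorphisms (`core_iso`): transport of components,
attachment sets, 3-connectedness.

`lift1`: `V = V1 ∪ V2`, `V1 ∩ V2 ⊆ {c}`, no edges between.  Let `X ⊆ V1` be a core set of `E.induce V1`.
Components of `V \ X`: a component of `V1 \ X` which does not contain `c` is a component; the one which
contains `c` is enlarged by parts of `V2`, which have no neighbours in `X` (their neighbours in `V1` are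
only `c`, and `c ∉ X`): same attachment set.  If `c ∈ X` the components of `V2 \ {c}` have attachment sets
contained in `{c}`: they produce no edge of the torso.  If there are components of `V2` not connected to
`c` they have no attachments.  So the torso is the same.

`lift2`: `V1 ∩ V2 = {p, q}`, `p ≠ q`, and `p, q` are connected in `E.induce V2`.  Let `X ⊆ V1` be a core set of
`(E ⊔ edge p q).induce V1`.
(i) `p, q ∈ X`: the edge `p q` of the torso: either `E.Adj p q`, or the path from `p` to `q` in `V2` runs through a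
component of `V2 \ {p, q}`, whose attachment set in `E` is exactly `{p, q}`.  The other components of
`V2 \ {p, q}` have attachment sets inside `{p, q}`; if one of them is `{p, q}` nothing new.
(ii) `p ∈ X`, `q ∉ X`: the component `C` of `q` in `V1 \ X` (for `E ⊔ edge p q`, the same as for `E`, as the edge `p q`
is not inside the complement of `X`) has `p` in its attachment set because of the edge `p q`.  In `E` the
component of `q` in `V \ X` is `C` together with the parts of `V2 \ {p, q}` adjacent to `q`; `p` is adjacent to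
it (by the path in `V2`), and its other attachments are those of `C`.  Parts of `V2` adjacent only to
`p` have attachment set `{p}`.  (iii) `q ∈ X`, `p ∉ X`: the same.  (iv) `p, q ∉ X`: they are in one component, in
`E` because of the path in `V2`.
-/

set_option linter.unusedSectionVars false

namespace Dia
open PGr

/-! ### components outside `X` in terms of chains -/

section chains
variable {V W : Type}

/-- connected outside `X` -/
def RX (E : SimpleGraph V) (X : Set V) : V → V → Prop :=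
  Relation.ReflTransGen fun u v => E.Adj u v ∧ u ∉ X ∧ v ∉ X

/-- attachments of the component of `c` outside `X` -/
def AX (E : SimpleGraph V) (X : Set V) (c : V) : Set V :=
  {x | x ∈ X ∧ ∃ a, a ∉ X ∧ RX E X a c ∧ E.Adj x a}

theorem RX_symm {E : SimpleGraph V} {X : Set V} {a b : V} (h : RX E X a b) : RX E X b a := by
  unfold RX at h ⊢
  induction h with
  | refl => exact Relation.ReflTransGen.refl
  | tail _ h2 ih => exact ih.head ⟨h2.1.symm, h2.2.2, h2.2.1⟩

theorem AX_congr {E : SimpleGraph V} {X : Set V} {a b : V} (h : RX E X a b) :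
    AX E X a = AX E X b := by
  ext x
  constructor
  · rintro ⟨hx, u, hu, hR, hadj⟩
    exact ⟨hx, u, hu, hR.trans h, hadj⟩
  · rintro ⟨hx, u, hu, hR, hadj⟩
    exact ⟨hx, u, hu, hR.trans (RX_symm h), hadj⟩

theorem AX_sub {E : SimpleGraph V} {X : Set V} {c : V} : AX E X c ⊆ X := fun _ h => h.1

theorem Lift_reach {E : SimpleGraph V} {X : Set V} (a b : ↥(Xᶜ)) :
    (E.induce Xᶜ).Reachable a b ↔ RX E X a.1 b.1 := by
  rw [SimpleGraph.reachable_iff_reflTransGen]
  constructor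
  · intro h
    unfold RX
    induction h with
    | refl => exact Relation.ReflTransGen.refl
    | @tail u v _ h2 ih => exact ih.tail ⟨h2, u.2, v.2⟩
  · intro h
    have key : ∀ (x y : V), RX E X x y → ∀ (hx : x ∈ Xᶜ) (hy : y ∈ Xᶜ),
        Relation.ReflTransGen (E.induce Xᶜ).Adj ⟨x, hx⟩ ⟨y, hy⟩ := by
      intro x y h
      unfold RX at h
      induction h with
      | refl => intro hx hy; exact Relation.ReflTransGen.refl
      | tail _ hbc ih => intro hx hy; exact (ih hx hbc.2.1).tail hbc.1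
    exact key _ _ h a.2 b.2

theorem Lift_att {E : SimpleGraph V} {X : Set V} (c : ↥(Xᶜ)) (x : X) :
    x ∈ att E X ((E.induce Xᶜ).connectedComponentMk c) ↔ x.1 ∈ AX E X c.1 := by
  constructor
  · rintro ⟨a, ha, hadj⟩
    exact ⟨x.2, a.1, a.2, (Lift_reach a c).1 (SimpleGraph.ConnectedComponent.exact ha), hadj⟩
  · rintro ⟨_, a, ha, hR, hadj⟩
    exact ⟨⟨a, ha⟩, SimpleGraph.ConnectedComponent.sound ((Lift_reach ⟨a, ha⟩ c).2 hR), hadj⟩

theorem Lift_eq {E : SimpleGraph V} {X : Set V} (c : ↥(Xᶜ)) (x y : X) :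
    att E X ((E.induce Xᶜ).connectedComponentMk c) = {x, y} ↔ AX E X c.1 = {x.1, y.1} := by
  constructor
  · intro h
    ext z
    constructor
    · intro hz
      have h1 : (⟨z, hz.1⟩ : X) ∈ att E X ((E.induce Xᶜ).connectedComponentMk c) :=
        (Lift_att c ⟨z, hz.1⟩).2 hz
      rw [h] at h1
      rcases h1 with h1 | h1
      · exact Or.inl (congrArg Subtype.val h1)
      · exact Or.inr (congrArg Subtype.val h1)
    · rintro (rfl | rfl)
      · exact (Lift_att c x).1 (by rw [h]; exact Or.inl rfl)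
      · exact (Lift_att c y).1 (by rw [h]; exact Or.inr rfl)
  · intro h
    ext z
    rw [Lift_att, h]
    constructor
    · rintro (h1 | h1)
      · exact Or.inl (Subtype.ext h1)
      · exact Or.inr (Subtype.ext h1)
    · rintro (rfl | rfl)
      · exact Or.inl rfl
      · exact Or.inr rfl

theorem Lift_sub {E : SimpleGraph V} {X : Set V} (c : ↥(Xᶜ)) (x y : X) :
    att E X ((E.induce Xᶜ).connectedComponentMk c) ⊆ {x, y} ↔ AX E X c.1 ⊆ {x.1, y.1} := by
  constructor
  · intro h z hz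
    rcases h ((Lift_att c ⟨z, hz.1⟩).2 hz) with h1 | h1
    · exact Or.inl (congrArg Subtype.val h1)
    · exact Or.inr (congrArg Subtype.val h1)
  · intro h z hz
    rcases h ((Lift_att c z).1 hz) with h1 | h1
    · exact Or.inl (Subtype.ext h1)
    · exact Or.inr (Subtype.ext h1)

theorem Lift_torso {E : SimpleGraph V} {X : Set V} (x y : X) :
    (torso E X).Adj x y ↔ x ≠ y ∧ (E.Adj x.1 y.1 ∨ ∃ c, c ∉ X ∧ AX E X c = {x.1, y.1}) := by
  constructor
  · rintro ⟨h1, h2 | ⟨C, hC⟩⟩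
    · exact ⟨h1, Or.inl h2⟩
    · refine ⟨h1, Or.inr ?_⟩
      induction C using SimpleGraph.ConnectedComponent.ind with
      | h c => exact ⟨c.1, c.2, (Lift_eq c x y).1 hC⟩
  · rintro ⟨h1, h2 | ⟨c, hc, hC⟩⟩
    · exact ⟨h1, Or.inl h2⟩
    · exact ⟨h1, Or.inr ⟨_, (Lift_eq ⟨c, hc⟩ x y).2 hC⟩⟩

theorem Lift_core {E : SimpleGraph V} {X : Set V} :
    IsCore E X ↔ (∀ c, c ∉ X → ∃ x y, x ∈ X ∧ y ∈ X ∧ AX E X c ⊆ {x, y}) ∧
      ThreeConn (torso E X) := by
  constructor
  · intro h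
    refine ⟨fun c hc => ?_, h.three⟩
    obtain ⟨x, y, hxy⟩ := h.att2 ((E.induce Xᶜ).connectedComponentMk ⟨c, hc⟩)
    exact ⟨x.1, y.1, x.2, y.2, (Lift_sub ⟨c, hc⟩ x y).1 hxy⟩
  · rintro ⟨h1, h2⟩
    refine ⟨fun C => ?_, h2⟩
    induction C using SimpleGraph.ConnectedComponent.ind with
    | h c =>
      obtain ⟨x, y, hx, hy, hxy⟩ := h1 c.1 c.2
      exact ⟨⟨x, hx⟩, ⟨y, hy⟩, (Lift_sub c ⟨x, hx⟩ ⟨y, hy⟩).2 hxy⟩

theorem Lift_pick {E : SimpleGraph V} {X : Set V} {c u v : V} (hX : X.Nonempty)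
    (h : AX E X c ⊆ {u, v}) : ∃ x y, x ∈ X ∧ y ∈ X ∧ AX E X c ⊆ {x, y} := by
  obtain ⟨w, hw⟩ := hX
  by_cases hu : u ∈ X
  · by_cases hv : v ∈ X
    · exact ⟨u, v, hu, hv, h⟩
    · refine ⟨u, u, hu, hu, fun z hz => ?_⟩
      rcases h hz with h1 | h1
      · exact Or.inl h1
      · exact absurd (h1 ▸ hz.1) hv
  · by_cases hv : v ∈ X
    · refine ⟨v, v, hv, hv, fun z hz => ?_⟩
      rcases h hz with h1 | h1
      · exact absurd (h1 ▸ hz.1) hu
      · exact Or.inl h1
    · refine ⟨w, w, hw, hw, fun z hz => ?_⟩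
      rcases h hz with h1 | h1
      · exact absurd (h1 ▸ hz.1) hu
      · exact absurd (h1 ▸ hz.1) hv

/-! ### isomorphisms -/

theorem Lift_conn {K : SimpleGraph V} {K' : SimpleGraph W} (e : K ≃g K') (A : Set V) (B : Set W)
    (h : ∀ a, a ∈ A ↔ e a ∈ B) (hc : (K.induce A).Connected) : (K'.induce B).Connected := by
  have e' : K.induce A ≃g K'.induce B :=
    { toEquiv := e.toEquiv.subtypeEquiv h
      map_rel_iff' := by
        intro a b
        exact e.map_rel_iff }
  exact e'.connected_iff.1 hc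

theorem Lift_three {K : SimpleGraph V} {K' : SimpleGraph W} (e : K ≃g K') (h : ThreeConn K) :
    ThreeConn K' := by
  refine ⟨?_, fun S hS => ?_⟩
  · rw [← Nat.card_congr e.toEquiv]
    exact h.1
  · have h1 := h.2 (S.map e.symm.toEquiv.toEmbedding) (by rw [Finset.card_map]; exact hS)
    refine Lift_conn e _ _ (fun a => ?_) h1
    simp only [Set.mem_compl_iff, Finset.mem_coe, Finset.mem_map, not_exists, not_and]
    constructor
    · intro h2 h3
      exact h2 _ h3 (e.symm_apply_apply a)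
    · intro h2 b hb hba
      apply h2
      have : b = e a := by
        rw [← hba]
        exact (e.apply_symm_apply b).symm
      rwa [this] at hb

/-- transfer of the core property -/
theorem Lift_transfer {E : SimpleGraph V} {F : SimpleGraph W} (f : W → V)
    (hf : Function.Injective f) (X : Set W)
    (hadj : ∀ x y, x ∈ X → y ∈ X → x ≠ y →
      ((F.Adj x y ∨ ∃ c, c ∉ X ∧ AX F X c = {x, y}) ↔
        (E.Adj (f x) (f y) ∨ ∃ c, c ∉ f '' X ∧ AX E (f '' X) c = {f x, f y})))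
    (hatt : (∀ c, c ∉ X → ∃ x y, x ∈ X ∧ y ∈ X ∧ AX F X c ⊆ {x, y}) → X.Nonempty →
      ∀ c, c ∉ f '' X → ∃ x y, x ∈ f '' X ∧ y ∈ f '' X ∧ AX E (f '' X) c ⊆ {x, y}) :
    (IsCore F X → IsCore E (f '' X)) ∧ coreE E (f '' X) = coreE F X := by
  have e : torso F X ≃g torso E (f '' X) :=
    { toEquiv := Equiv.Set.image f X hf
      map_rel_iff' := by
        intro x y
        rw [Lift_torso, Lift_torso]
        have hne : (Equiv.Set.image f X hf) x ≠ (Equiv.Set.image f X hf) y ↔ x ≠ y :=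
          (Equiv.Set.image f X hf).injective.ne_iff
        rw [hne]
        constructor
        · rintro ⟨h1, h2⟩
          exact ⟨h1, (hadj x.1 y.1 x.2 y.2 (fun h => h1 (Subtype.ext h))).2 h2⟩
        · rintro ⟨h1, h2⟩
          exact ⟨h1, (hadj x.1 y.1 x.2 y.2 (fun h => h1 (Subtype.ext h))).1 h2⟩ }
  constructor
  · intro h
    rw [Lift_core] at h ⊢
    have hne : X.Nonempty := by
      have h4 := h.2.1
      by_contra hX
      rw [Set.not_nonempty_iff_eq_empty] at hX
      subst hX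
      simp at h4
    exact ⟨hatt h.1 hne, Lift_three e h.2⟩
  · unfold coreE
    exact (Nat.card_congr e.mapEdgeSet).symm

theorem Lift_image_pair {f : W → V} (hf : Function.Injective f) {S : Set W} {x y : W} :
    f '' S = {f x, f y} ↔ S = {x, y} := by
  rw [← Set.image_pair]
  exact ⟨fun h => (Set.image_injective.2 hf) h, fun h => by rw [h]⟩

theorem RX_iso {E : SimpleGraph V} {F : SimpleGraph W} (e : E ≃g F) {X : Set V} {a b : V}
    (h : RX E X a b) : RX F (e '' X) (e a) (e b) := by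
  unfold RX at h ⊢
  have hm : ∀ u, u ∉ X → e u ∉ e '' X := by
    rintro u hu ⟨v, hv, hvu⟩
    exact hu (e.injective hvu ▸ hv)
  induction h with
  | refl => exact Relation.ReflTransGen.refl
  | tail _ h2 ih => exact ih.tail ⟨e.map_adj_iff.2 h2.1, hm _ h2.2.1, hm _ h2.2.2⟩

theorem AX_iso_sub {E : SimpleGraph V} {F : SimpleGraph W} (e : E ≃g F) (X : Set V) (c : V) :
    e '' AX E X c ⊆ AX F (e '' X) (e c) := by
  rintro _ ⟨x, ⟨hx, a, ha, hR, hadj⟩, rfl⟩
  refine ⟨⟨x, hx, rfl⟩, e a, ?_, RX_iso e hR, e.map_adj_iff.2 hadj⟩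
  rintro ⟨v, hv, hva⟩
  exact ha (e.injective hva ▸ hv)

theorem Lift_symm_image {E : SimpleGraph V} {F : SimpleGraph W} (e : E ≃g F) (X : Set V) :
    e.symm '' (e '' X) = X := by
  rw [Set.image_image]
  simp

theorem AX_iso {E : SimpleGraph V} {F : SimpleGraph W} (e : E ≃g F) (X : Set V) (c : V) :
    AX F (e '' X) (e c) = e '' AX E X c := by
  refine Set.Subset.antisymm ?_ (AX_iso_sub e X c)
  have h := AX_iso_sub e.symm (e '' X) (e c)
  rw [Lift_symm_image, e.symm_apply_apply] at h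
  intro x hx
  refine ⟨e.symm x, h ⟨x, hx, rfl⟩, e.apply_symm_apply x⟩

theorem Lift_iso_one {E : SimpleGraph V} {F : SimpleGraph W} (e : E ≃g F) (X : Set V) :
    (IsCore E X → IsCore F (e '' X)) ∧ coreE F (e '' X) = coreE E X := by
  have hc : ∀ c, c ∉ e '' X → ∃ c', c' ∉ X ∧ e c' = c := by
    intro c hc
    exact ⟨e.symm c, fun h => hc ⟨_, h, e.apply_symm_apply c⟩, e.apply_symm_apply c⟩
  have hc2 : ∀ c, c ∉ X → e c ∉ e '' X := by
    rintro u hu ⟨v, hv, hvu⟩
    exact hu (e.injective hvu ▸ hv)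
  refine Lift_transfer (fun v => e v) e.injective X ?_ ?_
  · intro x y hx hy hxy
    constructor
    · rintro (h | ⟨c, hcX, h⟩)
      · exact Or.inl (e.map_adj_iff.2 h)
      · refine Or.inr ⟨e c, hc2 c hcX, ?_⟩
        show AX F (e '' X) (e c) = _
        rw [AX_iso, h, Set.image_pair]
    · rintro (h | ⟨c, hcX, h⟩)
      · exact Or.inl (e.map_adj_iff.1 h)
      · obtain ⟨c', hc', rfl⟩ := hc c hcX
        refine Or.inr ⟨c', hc', ?_⟩
        have h' : AX F (e '' X) (e c') = {e x, e y} := h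
        rw [AX_iso] at h'
        exact (Lift_image_pair e.injective).1 h'
  · intro h _ c hcX
    obtain ⟨c', hc', rfl⟩ := hc c hcX
    obtain ⟨x, y, hx, hy, hxy⟩ := h c' hc'
    refine ⟨e x, e y, ⟨x, hx, rfl⟩, ⟨y, hy, rfl⟩, ?_⟩
    show AX F (e '' X) (e c') ⊆ _
    rw [AX_iso, ← Set.image_pair]
    exact Set.image_mono hxy

/-! ### gluing at one vertex -/

theorem Lift_notmem {f : W → V} (hf : Function.Injective f) {X : Set W} {u : W} (h : u ∉ X) :
    f u ∉ f '' X := by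
  rintro ⟨v, hv, hvu⟩
  exact h (hf hvu ▸ hv)

theorem Lift_notmem' {f : W → V} {X : Set W} {u : W} (h : f u ∉ f '' X) : u ∉ X :=
  fun hu => h ⟨u, hu, rfl⟩

section one
variable {E : SimpleGraph V} {f : W → V} (hf : Function.Injective f) {V2 : Set V} {c₀ : V}
  (hc : Set.range f ∩ V2 ⊆ {c₀})
  (hE : ∀ x y, E.Adj x y → (x ∈ Set.range f ∧ y ∈ Set.range f) ∨ (x ∈ V2 ∧ y ∈ V2))
  (X : Set W)

include hc hE in
theorem Lift_exit {x a : V} (hx : x ∈ Set.range f) (ha : a ∉ Set.range f) (h : E.Adj x a) :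
    x = c₀ := by
  rcases hE x a h with h1 | h1
  · exact absurd h1.2 ha
  · exact hc ⟨hx, h1.1⟩

include hf hc hE in
theorem Lift1_a {c : W} {a : V} (h : RX E (f '' X) a (f c)) :
    (∀ w, a = f w → RX (E.comap f) X w c) ∧
      (a ∉ Set.range f → ∃ w, f w = c₀ ∧ w ∉ X ∧ RX (E.comap f) X w c) := by
  unfold RX at h
  induction h using Relation.ReflTransGen.head_induction_on with
  | refl =>
    refine ⟨fun w hw => ?_, fun hn => absurd ⟨c, rfl⟩ hn⟩
    rw [hf hw]
    exact Relation.ReflTransGen.refl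
  | @head a a' h1 _ ih =>
    obtain ⟨hadj, ha, ha'⟩ := h1
    constructor
    · rintro w rfl
      by_cases hr : a' ∈ Set.range f
      · obtain ⟨w', rfl⟩ := hr
        exact (ih.1 w' rfl).head ⟨hadj, Lift_notmem' ha, Lift_notmem' ha'⟩
      · obtain ⟨w0, hw0, _, hR⟩ := ih.2 hr
        have h2 := Lift_exit hc hE ⟨w, rfl⟩ hr hadj
        rw [hf (h2.trans hw0.symm)]
        exact hR
    · intro hn
      by_cases hr : a' ∈ Set.range f
      · obtain ⟨w', rfl⟩ := hr
        have h2 := Lift_exit hc hE ⟨w', rfl⟩ hn hadj.symm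
        exact ⟨w', h2, Lift_notmem' ha', ih.1 w' rfl⟩
      · exact ih.2 hr

include hf in
theorem Lift1_b {a c : W} (h : RX (E.comap f) X a c) : RX E (f '' X) (f a) (f c) := by
  unfold RX at h ⊢
  induction h with
  | refl => exact Relation.ReflTransGen.refl
  | tail _ h2 ih => exact ih.tail ⟨h2.1, Lift_notmem hf h2.2.1, Lift_notmem hf h2.2.2⟩

include hf hc hE in
theorem Lift1_c (c : W) : AX E (f '' X) (f c) = f '' AX (E.comap f) X c := by
  apply Set.Subset.antisymm
  · rintro x ⟨⟨x0, hx0, rfl⟩, a, ha, hR, hadj⟩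
    have hcl := Lift1_a hf hc hE X hR
    by_cases hr : a ∈ Set.range f
    · obtain ⟨w, rfl⟩ := hr
      exact ⟨x0, ⟨hx0, w, Lift_notmem' ha, hcl.1 w rfl, hadj⟩, rfl⟩
    · obtain ⟨w0, hw0, hw0X, _⟩ := hcl.2 hr
      have h2 := Lift_exit hc hE ⟨x0, rfl⟩ hr hadj
      exact absurd (hf (h2.trans hw0.symm) ▸ hx0) hw0X
  · rintro _ ⟨x, ⟨hx, a, ha, hR, hadj⟩, rfl⟩
    exact ⟨⟨x, hx, rfl⟩, f a, Lift_notmem hf ha, Lift1_b hf X hR, hadj⟩

include hc hE in
theorem Lift1_d {c a : V} (hcr : c ∉ Set.range f) (h : RX E (f '' X) a c)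
    (ha : a ∈ Set.range f) : ∃ w, w ∉ X ∧ f w = c₀ ∧ RX E (f '' X) (f w) c := by
  unfold RX at h
  induction h using Relation.ReflTransGen.head_induction_on with
  | refl => exact absurd ha hcr
  | @head a a' h1 h2 ih =>
    obtain ⟨hadj, haX, ha'X⟩ := h1
    by_cases hr : a' ∈ Set.range f
    · exact ih hr
    · obtain ⟨w, rfl⟩ := ha
      have h3 := Lift_exit hc hE ⟨w, rfl⟩ hr hadj
      exact ⟨w, Lift_notmem' haX, h3, Relation.ReflTransGen.head ⟨hadj, haX, ha'X⟩ h2⟩

include hc hE in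
theorem Lift1_e {c : V} (hcr : c ∉ Set.range f) :
    (∃ w, w ∉ X ∧ AX E (f '' X) c = AX E (f '' X) (f w)) ∨ AX E (f '' X) c ⊆ {c₀} := by
  by_cases h : ∃ w, w ∉ X ∧ f w = c₀ ∧ RX E (f '' X) (f w) c
  · obtain ⟨w, hw, _, hR⟩ := h
    exact Or.inl ⟨w, hw, (AX_congr hR).symm⟩
  · right
    rintro x ⟨⟨x0, hx0, rfl⟩, a, ha, hR, hadj⟩
    have hr : a ∉ Set.range f := fun hr => h (Lift1_d hc hE X hcr hR hr)
    exact Lift_exit hc hE ⟨x0, rfl⟩ hr hadj

include hf hc hE in
theorem Lift1 : (IsCore (E.comap f) X → IsCore E (f '' X)) ∧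
    coreE E (f '' X) = coreE (E.comap f) X := by
  refine Lift_transfer f hf X ?_ ?_
  · intro x y hx hy hxy
    constructor
    · rintro (h | ⟨c, hcX, h⟩)
      · exact Or.inl h
      · refine Or.inr ⟨f c, Lift_notmem hf hcX, ?_⟩
        rw [Lift1_c hf hc hE X, h, Set.image_pair]
    · rintro (h | ⟨c, hcX, h⟩)
      · exact Or.inl h
      · by_cases hr : c ∈ Set.range f
        · obtain ⟨w, rfl⟩ := hr
          rw [Lift1_c hf hc hE X] at h
          exact Or.inr ⟨w, Lift_notmem' hcX, (Lift_image_pair hf).1 h⟩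
        · rcases Lift1_e hc hE X hr with ⟨w, hw, h2⟩ | h2
          · rw [h2, Lift1_c hf hc hE X] at h
            exact Or.inr ⟨w, hw, (Lift_image_pair hf).1 h⟩
          · exfalso
            rw [h] at h2
            have e1 : f x = c₀ := h2 (Or.inl rfl)
            have e2 : f y = c₀ := h2 (Or.inr rfl)
            exact hxy (hf (e1.trans e2.symm))
  · intro h hne c hcX
    have key : ∀ w, w ∉ X → ∃ x y, x ∈ f '' X ∧ y ∈ f '' X ∧ AX E (f '' X) (f w) ⊆ {x, y} := by
      intro w hw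
      obtain ⟨x, y, hx, hy, hxy⟩ := h w hw
      refine ⟨f x, f y, ⟨x, hx, rfl⟩, ⟨y, hy, rfl⟩, ?_⟩
      rw [Lift1_c hf hc hE X, ← Set.image_pair]
      exact Set.image_mono hxy
    by_cases hr : c ∈ Set.range f
    · obtain ⟨w, rfl⟩ := hr
      exact key w (Lift_notmem' hcX)
    · rcases Lift1_e hc hE X hr with ⟨w, hw, h2⟩ | h2
      · rw [h2]
        exact key w hw
      · exact Lift_pick (hne.image f) (u := c₀) (v := c₀) (by simpa using h2)

end one

/-! ### gluing at two vertices -/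

section two
variable {E : SimpleGraph V} {f : W → V} (hf : Function.Injective f) {V2 : Set V} {p q : W}
  (hpq : p ≠ q) (hc : Set.range f ∩ V2 = {f p, f q})
  (hE : ∀ x y, E.Adj x y → (x ∈ Set.range f ∧ y ∈ Set.range f) ∨ (x ∈ V2 ∧ y ∈ V2))
  (X : Set W)

include hf hc hE in
theorem Lift_exit2 {x : W} {a : V} (ha : a ∉ Set.range f) (h : E.Adj (f x) a) :
    x = p ∨ x = q := by
  rcases hE _ a h with h1 | h1
  · exact absurd h1.2 ha
  · have h2 : f x ∈ Set.range f ∩ V2 := ⟨⟨x, rfl⟩, h1.1⟩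
    rw [hc] at h2
    rcases h2 with h2 | h2
    · exact Or.inl (hf h2)
    · exact Or.inr (hf h2)

theorem Lift_Fadj {u v : W} (hpq : p ≠ q) : (E.comap f ⊔ SimpleGraph.edge p q).Adj u v ↔
    E.Adj (f u) (f v) ∨ (u = p ∧ v = q) ∨ (u = q ∧ v = p) := by
  rw [SimpleGraph.sup_adj, SimpleGraph.edge_adj, SimpleGraph.comap_adj]
  constructor
  · rintro (h | ⟨h, _⟩)
    · exact Or.inl h
    · exact Or.inr h
  · rintro (h | h)
    · exact Or.inl h
    · refine Or.inr ⟨h, ?_⟩
      rcases h with ⟨rfl, rfl⟩ | ⟨rfl, rfl⟩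
      · exact hpq
      · exact hpq.symm

/-- a chain in `V2` -/
def CH (E : SimpleGraph V) (V2 : Set V) : V → V → Prop :=
  Relation.ReflTransGen fun u v => E.Adj u v ∧ u ∈ V2 ∧ v ∈ V2

theorem CH_symm {E : SimpleGraph V} {V2 : Set V} {a b : V} (h : CH E V2 a b) : CH E V2 b a := by
  unfold CH at h ⊢
  induction h with
  | refl => exact Relation.ReflTransGen.refl
  | tail _ h2 ih => exact ih.head ⟨h2.1.symm, h2.2.2, h2.2.1⟩

theorem CH_of {E : SimpleGraph V} {V2 : Set V} {a b : V} (ha : a ∈ V2) (hb : b ∈ V2)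
    (h : (E.induce V2).Reachable ⟨a, ha⟩ ⟨b, hb⟩) : CH E V2 a b := by
  rw [SimpleGraph.reachable_iff_reflTransGen] at h
  have key : ∀ u v : V2, Relation.ReflTransGen (E.induce V2).Adj u v → CH E V2 u.1 v.1 := by
    intro u v h
    unfold CH
    induction h with
    | refl => exact Relation.ReflTransGen.refl
    | @tail u v _ h2 ih => exact ih.tail ⟨h2, u.2, v.2⟩
  exact key _ _ h

include hc in
theorem Lift_in2 {u : V} (hu : u ∈ V2) (hX : u ∈ f '' X) : (u = f p ∧ u ∈ f '' X) ∨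
    (u = f q ∧ u ∈ f '' X) := by
  obtain ⟨w, _, rfl⟩ := id hX
  have h2 : f w ∈ Set.range f ∩ V2 := ⟨⟨w, rfl⟩, hu⟩
  rw [hc] at h2
  rcases h2 with h2 | h2
  · exact Or.inl ⟨h2, hX⟩
  · exact Or.inr ⟨h2, hX⟩

include hf hc in
theorem Lift2_p (hch : CH E V2 (f p) (f q)) (hp : p ∉ X) (hq : q ∉ X) :
    RX E (f '' X) (f p) (f q) := by
  have hm : ∀ u ∈ V2, u ∉ f '' X := by
    intro u hu hX
    rcases Lift_in2 hc X hu hX with ⟨h, h'⟩ | ⟨h, h'⟩
    · rw [h] at h'
      exact Lift_notmem hf hp h'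
    · rw [h] at h'
      exact Lift_notmem hf hq h'
  have key : ∀ v, CH E V2 (f p) v → RX E (f '' X) (f p) v := by
    intro v hv
    unfold CH at hv
    unfold RX
    induction hv with
    | refl => exact Relation.ReflTransGen.refl
    | tail _ h2 ih => exact ih.tail ⟨h2.1, hm _ h2.2.1, hm _ h2.2.2⟩
  exact key _ hch

include hf hc in
/-- `p ∈ X`, `q ∉ X`: a neighbour of `p` is connected with `q` -/
theorem Lift2_s {p' q' : W} (hpq' : (p' = p ∧ q' = q) ∨ (p' = q ∧ q' = p))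
    (hch : CH E V2 (f p') (f q')) (hp : p' ∈ X) (hq : q' ∉ X) :
    ∃ a, a ∉ f '' X ∧ E.Adj (f p') a ∧ RX E (f '' X) a (f q') := by
  have hqX : f q' ∉ f '' X := Lift_notmem hf hq
  have hm : ∀ u ∈ V2, u ∈ f '' X → u = f p' := by
    intro u hu hX
    rcases Lift_in2 hc X hu hX with ⟨h, h'⟩ | ⟨h, h'⟩
    · rcases hpq' with ⟨e1, _⟩ | ⟨_, e2⟩
      · rw [h, e1]
      · rw [h, ← e2] at h'
        exact absurd h' hqX
    · rcases hpq' with ⟨_, e2⟩ | ⟨e1, _⟩
      · rw [h, ← e2] at h'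
        exact absurd h' hqX
      · rw [h, e1]
  have key : ∀ v, CH E V2 v (f q') → (v ∉ f '' X ∧ RX E (f '' X) v (f q')) ∨
      ∃ a, a ∉ f '' X ∧ E.Adj (f p') a ∧ RX E (f '' X) a (f q') := by
    intro v hv
    unfold CH at hv
    induction hv using Relation.ReflTransGen.head_induction_on with
    | refl => exact Or.inl ⟨hqX, Relation.ReflTransGen.refl⟩
    | @head v v' h1 _ ih =>
      obtain ⟨hadj, hvV, hv'V⟩ := h1
      rcases ih with ⟨h2, h3⟩ | h2
      · by_cases hvX : v ∈ f '' X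
        · have e := hm v hvV hvX
          rw [e] at hadj
          exact Or.inr ⟨v', h2, hadj, h3⟩
        · exact Or.inl ⟨hvX, Relation.ReflTransGen.head ⟨hadj, hvX, h2⟩ h3⟩
      · exact Or.inr h2
  rcases key _ hch with ⟨h, _⟩ | h
  · exact absurd ⟨p', hp, rfl⟩ h
  · exact h

include hf hpq hc hE in
theorem Lift2_a {c : W} {a : V} (h : RX E (f '' X) a (f c)) :
    (∀ w, a = f w → RX (E.comap f ⊔ SimpleGraph.edge p q) X w c) ∧
      (a ∉ Set.range f → (p ∉ X ∧ RX (E.comap f ⊔ SimpleGraph.edge p q) X p c) ∨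
        (q ∉ X ∧ RX (E.comap f ⊔ SimpleGraph.edge p q) X q c)) := by
  unfold RX at h
  induction h using Relation.ReflTransGen.head_induction_on with
  | refl =>
    refine ⟨fun w hw => ?_, fun hn => absurd ⟨c, rfl⟩ hn⟩
    rw [hf hw]
    exact Relation.ReflTransGen.refl
  | @head a a' h1 _ ih =>
    obtain ⟨hadj, ha, ha'⟩ := h1
    constructor
    · rintro w rfl
      have hwX : w ∉ X := Lift_notmem' ha
      by_cases hr : a' ∈ Set.range f
      · obtain ⟨w', rfl⟩ := hr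
        exact (ih.1 w' rfl).head ⟨(Lift_Fadj hpq).2 (Or.inl hadj), hwX, Lift_notmem' ha'⟩
      · rcases Lift_exit2 hf hc hE hr hadj with e | e
        · subst e
          rcases ih.2 hr with ⟨_, hR⟩ | ⟨hqX, hR⟩
          · exact hR
          · exact hR.head ⟨(Lift_Fadj hpq).2 (Or.inr (Or.inl ⟨rfl, rfl⟩)), hwX, hqX⟩
        · subst e
          rcases ih.2 hr with ⟨hpX, hR⟩ | ⟨_, hR⟩
          · exact hR.head ⟨(Lift_Fadj hpq).2 (Or.inr (Or.inr ⟨rfl, rfl⟩)), hwX, hpX⟩
          · exact hR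
    · intro hn
      by_cases hr : a' ∈ Set.range f
      · obtain ⟨w', rfl⟩ := hr
        have hw'X : w' ∉ X := Lift_notmem' ha'
        rcases Lift_exit2 hf hc hE hn hadj.symm with e | e
        · subst e
          exact Or.inl ⟨hw'X, ih.1 w' rfl⟩
        · subst e
          exact Or.inr ⟨hw'X, ih.1 w' rfl⟩
      · exact ih.2 hr

include hf hpq hc in
theorem Lift2_b (hch : CH E V2 (f p) (f q)) {a c : W}
    (h : RX (E.comap f ⊔ SimpleGraph.edge p q) X a c) : RX E (f '' X) (f a) (f c) := by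
  unfold RX at h
  induction h with
  | refl => exact Relation.ReflTransGen.refl
  | tail _ h2 ih =>
    obtain ⟨hadj, hu, hv⟩ := h2
    refine ih.trans ?_
    rcases (Lift_Fadj hpq).1 hadj with h | ⟨rfl, rfl⟩ | ⟨rfl, rfl⟩
    · exact Relation.ReflTransGen.single ⟨h, Lift_notmem hf hu, Lift_notmem hf hv⟩
    · exact Lift2_p hf hc X hch hu hv
    · exact RX_symm (Lift2_p hf hc X hch hv hu)

include hf hpq hc hE in
theorem Lift2_c (hch : CH E V2 (f p) (f q)) (c : W) : AX E (f '' X) (f c) =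
    f '' AX (E.comap f ⊔ SimpleGraph.edge p q) X c := by
  apply Set.Subset.antisymm
  · rintro x ⟨⟨x0, hx0, rfl⟩, a, ha, hR, hadj⟩
    have hcl := Lift2_a hf hpq hc hE X hR
    by_cases hr : a ∈ Set.range f
    · obtain ⟨w, rfl⟩ := hr
      exact ⟨x0, ⟨hx0, w, Lift_notmem' ha, hcl.1 w rfl, (Lift_Fadj hpq).2 (Or.inl hadj)⟩, rfl⟩
    · rcases Lift_exit2 hf hc hE hr hadj with e | e
      · subst e
        rcases hcl.2 hr with ⟨h, _⟩ | ⟨h, hR'⟩
        · exact absurd hx0 h
        · exact ⟨x0, ⟨hx0, q, h, hR', (Lift_Fadj hpq).2 (Or.inr (Or.inl ⟨rfl, rfl⟩))⟩, rfl⟩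
      · subst e
        rcases hcl.2 hr with ⟨h, hR'⟩ | ⟨h, _⟩
        · exact ⟨x0, ⟨hx0, p, h, hR', (Lift_Fadj hpq).2 (Or.inr (Or.inr ⟨rfl, rfl⟩))⟩, rfl⟩
        · exact absurd hx0 h
  · rintro _ ⟨x, ⟨hx, a, ha, hR, hadj⟩, rfl⟩
    refine ⟨⟨x, hx, rfl⟩, ?_⟩
    have hR' := Lift2_b hf hpq hc X hch hR
    rcases (Lift_Fadj hpq).1 hadj with h | ⟨rfl, rfl⟩ | ⟨rfl, rfl⟩
    · exact ⟨f a, Lift_notmem hf ha, hR', h⟩
    · obtain ⟨b, hb, hb2, hb3⟩ := Lift2_s hf hc X (Or.inl ⟨rfl, rfl⟩) hch hx ha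
      exact ⟨b, hb, hb3.trans hR', hb2⟩
    · obtain ⟨b, hb, hb2, hb3⟩ := Lift2_s hf hc X (Or.inr ⟨rfl, rfl⟩) (CH_symm hch) hx ha
      exact ⟨b, hb, hb3.trans hR', hb2⟩

include hf hc hE in
theorem Lift2_d {c a : V} (hcr : c ∉ Set.range f) (h : RX E (f '' X) a c)
    (ha : a ∈ Set.range f) : ∃ w, w ∉ X ∧ (w = p ∨ w = q) ∧ RX E (f '' X) (f w) c := by
  unfold RX at h
  induction h using Relation.ReflTransGen.head_induction_on with
  | refl => exact absurd ha hcr
  | @head a a' h1 h2 ih =>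
    obtain ⟨hadj, haX, ha'X⟩ := h1
    by_cases hr : a' ∈ Set.range f
    · exact ih hr
    · obtain ⟨w, rfl⟩ := ha
      have h3 := Lift_exit2 hf hc hE hr hadj
      exact ⟨w, Lift_notmem' haX, h3, Relation.ReflTransGen.head ⟨hadj, haX, ha'X⟩ h2⟩

include hf hc hE in
theorem Lift2_e {c : V} (hcr : c ∉ Set.range f) :
    (∃ w, w ∉ X ∧ AX E (f '' X) c = AX E (f '' X) (f w)) ∨ AX E (f '' X) c ⊆ {f p, f q} := by
  by_cases h : ∃ w, w ∉ X ∧ (w = p ∨ w = q) ∧ RX E (f '' X) (f w) c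
  · obtain ⟨w, hw, _, hR⟩ := h
    exact Or.inl ⟨w, hw, (AX_congr hR).symm⟩
  · right
    rintro x ⟨⟨x0, hx0, rfl⟩, a, ha, hR, hadj⟩
    have hr : a ∉ Set.range f := fun hr => h (Lift2_d hf hc hE X hcr hR hr)
    rcases Lift_exit2 hf hc hE hr hadj with e | e
    · exact Or.inl (by rw [e])
    · exact Or.inr (by rw [e]; rfl)

include hf hpq hc hE in
theorem Lift2_f (hch : CH E V2 (f p) (f q)) (hp : p ∈ X) (hq : q ∈ X)
    (hn : ¬ E.Adj (f p) (f q)) : ∃ c, c ∉ f '' X ∧ AX E (f '' X) c = {f p, f q} := by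
  have hm : ∀ u ∈ V2, u ≠ f p → u ≠ f q → u ∉ f '' X := by
    intro u hu h1 h2 hX
    rcases Lift_in2 hc X hu hX with ⟨h, _⟩ | ⟨h, _⟩
    · exact h1 h
    · exact h2 h
  have hr : ∀ u ∈ V2, u ≠ f p → u ≠ f q → u ∉ Set.range f := by
    intro u hu h1 h2 hX
    have h3 : u ∈ Set.range f ∩ V2 := ⟨hX, hu⟩
    rw [hc] at h3
    rcases h3 with h3 | h3
    · exact h1 h3
    · exact h2 h3
  have key : ∀ v, CH E V2 v (f q) → v = f q ∨
      (v ∈ V2 ∧ v ≠ f p ∧ v ≠ f q ∧ ∃ a, a ∉ f '' X ∧ E.Adj (f q) a ∧ RX E (f '' X) v a) ∨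
      (∃ c, c ∈ V2 ∧ c ≠ f p ∧ c ≠ f q ∧ (∃ a, a ∉ f '' X ∧ E.Adj (f p) a ∧ RX E (f '' X) a c) ∧
        ∃ a, a ∉ f '' X ∧ E.Adj (f q) a ∧ RX E (f '' X) a c) := by
    intro v hv
    unfold CH at hv
    induction hv using Relation.ReflTransGen.head_induction_on with
    | refl => exact Or.inl rfl
    | @head v v' h1 _ ih =>
      obtain ⟨hadj, hvV, hv'V⟩ := h1
      by_cases hvq : v = f q
      · exact Or.inl hvq
      rcases ih with rfl | ⟨hv', n1, n2, a, ha, haq, haR⟩ | h3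
      · by_cases hvp : v = f p
        · rw [hvp] at hadj
          exact absurd hadj hn
        · exact Or.inr (Or.inl ⟨hvV, hvp, hvq, v, hm v hvV hvp hvq, hadj.symm,
            Relation.ReflTransGen.refl⟩)
      · by_cases hvp : v = f p
        · rw [hvp] at hadj
          exact Or.inr (Or.inr ⟨v', hv', n1, n2, ⟨v', hm v' hv' n1 n2, hadj,
            Relation.ReflTransGen.refl⟩, a, ha, haq, RX_symm haR⟩)
        · exact Or.inr (Or.inl ⟨hvV, hvp, hvq, a, ha, haq,
            Relation.ReflTransGen.head ⟨hadj, hm v hvV hvp hvq, hm v' hv' n1 n2⟩ haR⟩)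
      · exact Or.inr (Or.inr h3)
  rcases key _ hch with h | ⟨_, h, _⟩ | ⟨c, hcV, n1, n2, ⟨a, ha, hap, haR⟩, b, hb, hbq, hbR⟩
  · exact absurd (hf h) hpq
  · exact absurd rfl h
  · have hcr := hr c hcV n1 n2
    refine ⟨c, hm c hcV n1 n2, Set.Subset.antisymm ?_ ?_⟩
    · rcases Lift2_e hf hc hE X hcr with ⟨w, hw, _⟩ | h
      · -- `c` is not connected with a vertex of the first part
        rintro x ⟨⟨x0, hx0, rfl⟩, a', ha', hR, hadj⟩
        have hr' : a' ∉ Set.range f := by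
          intro hr'
          obtain ⟨w', hw', hw2, _⟩ := Lift2_d hf hc hE X hcr hR hr'
          rcases hw2 with e | e
          · rw [e] at hw'; exact hw' hp
          · rw [e] at hw'; exact hw' hq
        rcases Lift_exit2 hf hc hE hr' hadj with e | e
        · exact Or.inl (by rw [e])
        · exact Or.inr (by rw [e]; rfl)
      · exact h
    · rintro x (rfl | rfl)
      · exact ⟨⟨p, hp, rfl⟩, a, ha, haR, hap⟩
      · exact ⟨⟨q, hq, rfl⟩, b, hb, hbR, hbq⟩

include hf hpq hc hE in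
theorem Lift2 (hch : CH E V2 (f p) (f q)) :
    (IsCore (E.comap f ⊔ SimpleGraph.edge p q) X → IsCore E (f '' X)) ∧
    coreE E (f '' X) = coreE (E.comap f ⊔ SimpleGraph.edge p q) X := by
  refine Lift_transfer f hf X ?_ ?_
  · intro x y hx hy hxy
    constructor
    · rintro (h | ⟨c, hcX, h⟩)
      · rcases (Lift_Fadj hpq).1 h with h | ⟨rfl, rfl⟩ | ⟨rfl, rfl⟩
        · exact Or.inl h
        · by_cases hn : E.Adj (f x) (f y)
          · exact Or.inl hn
          · exact Or.inr (Lift2_f hf hpq hc hE X hch hx hy hn)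
        · by_cases hn : E.Adj (f y) (f x)
          · exact Or.inl hn.symm
          · obtain ⟨c, h1, h2⟩ := Lift2_f hf hpq hc hE X hch hy hx hn
            exact Or.inr ⟨c, h1, by rw [h2, Set.pair_comm]⟩
      · refine Or.inr ⟨f c, Lift_notmem hf hcX, ?_⟩
        rw [Lift2_c hf hpq hc hE X hch, h, Set.image_pair]
    · rintro (h | ⟨c, hcX, h⟩)
      · exact Or.inl ((Lift_Fadj hpq).2 (Or.inl h))
      · by_cases hr : c ∈ Set.range f
        · obtain ⟨w, rfl⟩ := hr
          rw [Lift2_c hf hpq hc hE X hch] at h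
          exact Or.inr ⟨w, Lift_notmem' hcX, (Lift_image_pair hf).1 h⟩
        · rcases Lift2_e hf hc hE X hr with ⟨w, hw, h2⟩ | h2
          · rw [h2, Lift2_c hf hpq hc hE X hch] at h
            exact Or.inr ⟨w, hw, (Lift_image_pair hf).1 h⟩
          · rw [h] at h2
            left
            rw [Lift_Fadj hpq]
            right
            have e1 : f x = f p ∨ f x = f q := h2 (Or.inl rfl)
            have e2 : f y = f p ∨ f y = f q := h2 (Or.inr rfl)
            rcases e1 with e1 | e1 <;> rcases e2 with e2 | e2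
            · exact absurd (hf (e1.trans e2.symm)) hxy
            · exact Or.inl ⟨hf e1, hf e2⟩
            · exact Or.inr ⟨hf e1, hf e2⟩
            · exact absurd (hf (e1.trans e2.symm)) hxy
  · intro h hne c hcX
    have key : ∀ w, w ∉ X → ∃ x y, x ∈ f '' X ∧ y ∈ f '' X ∧ AX E (f '' X) (f w) ⊆ {x, y} := by
      intro w hw
      obtain ⟨x, y, hx, hy, hxy⟩ := h w hw
      refine ⟨f x, f y, ⟨x, hx, rfl⟩, ⟨y, hy, rfl⟩, ?_⟩
      rw [Lift2_c hf hpq hc hE X hch, ← Set.image_pair]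
      exact Set.image_mono hxy
    by_cases hr : c ∈ Set.range f
    · obtain ⟨w, rfl⟩ := hr
      exact key w (Lift_notmem' hcX)
    · rcases Lift2_e hf hc hE X hr with ⟨w, hw, h2⟩ | h2
      · rw [h2]
        exact key w hw
      · exact Lift_pick (hne.image f) h2

end two

end chains

variable {V W : Type} [Finite V] [Finite W]

theorem core_iso {E : SimpleGraph V} {F : SimpleGraph W} (e : E ≃g F) (X : Set V) :
    (IsCore E X ↔ IsCore F (e '' X)) ∧ coreE E X = coreE F (e '' X) := by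
  refine ⟨⟨(Lift_iso_one e X).1, fun h => ?_⟩, (Lift_iso_one e X).2.symm⟩
  have h2 := (Lift_iso_one e.symm (e '' X)).1 h
  rwa [Lift_symm_image] at h2

theorem coreLt_iso {E : SimpleGraph V} {F : SimpleGraph W} (e : E ≃g F) (M : ℕ∞) :
    CoreLt M E ↔ CoreLt M F := by
  constructor
  · intro h X hX
    obtain ⟨h1, h2⟩ := core_iso e.symm X
    rw [h2]
    exact h _ (h1.1 hX)
  · intro h X hX
    obtain ⟨h1, h2⟩ := core_iso e X
    rw [h2]
    exact h _ (h1.1 hX)

theorem coreLt_top (E : SimpleGraph V) : CoreLt ⊤ E := fun _ _ => ENat.natCast_lt_top _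

/-- graphs with less than four vertices have no core sets -/
theorem coreLt_small (M : ℕ∞) (E : SimpleGraph V) (h : Nat.card V < 4) : CoreLt M E := by
  intro X hX
  exfalso
  have h1 := hX.three.1
  have h2 : Nat.card X ≤ Nat.card V :=
    Nat.card_le_card_of_injective Subtype.val Subtype.val_injective
  omega

theorem lift1 {E : SimpleGraph V} (V1 V2 : Set V) (c : V) (hV : V1 ∪ V2 = Set.univ)
    (hc : V1 ∩ V2 ⊆ {c}) (hE : ∀ x y, E.Adj x y → (x ∈ V1 ∧ y ∈ V1) ∨ (x ∈ V2 ∧ y ∈ V2))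
    (X : Set V1) (hX : IsCore (E.induce V1) X) :
    IsCore E (Subtype.val '' X) ∧ coreE E (Subtype.val '' X) = coreE (E.induce V1) X := by
  have hr : Set.range (Subtype.val : V1 → V) = V1 := Subtype.range_val
  have h := Lift1 (E := E) (f := (Subtype.val : V1 → V)) Subtype.val_injective (V2 := V2)
    (c₀ := c) (by rw [hr]; exact hc) (by rw [hr]; exact hE) X
  exact ⟨h.1 hX, h.2⟩

theorem Lift_induce_edge {E : SimpleGraph V} (V1 : Set V) (p q : V) (hp : p ∈ V1) (hq : q ∈ V1) :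
    (E ⊔ SimpleGraph.edge p q).induce V1 =
      E.comap (Subtype.val : V1 → V) ⊔ SimpleGraph.edge (⟨p, hp⟩ : V1) ⟨q, hq⟩ := by
  ext a b
  rw [SimpleGraph.comap_adj, SimpleGraph.sup_adj, SimpleGraph.sup_adj, SimpleGraph.edge_adj,
    SimpleGraph.edge_adj, SimpleGraph.comap_adj]
  simp only [Function.Embedding.subtype_apply, Subtype.ext_iff, ne_eq]

theorem lift2 {E : SimpleGraph V} (V1 V2 : Set V) (p q : V) (hpq : p ≠ q)
    (hV : V1 ∪ V2 = Set.univ) (hc : V1 ∩ V2 = {p, q})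
    (hE : ∀ x y, E.Adj x y → (x ∈ V1 ∧ y ∈ V1) ∨ (x ∈ V2 ∧ y ∈ V2))
    (hp : p ∈ V2) (hq : q ∈ V2) (hcon : (E.induce V2).Reachable ⟨p, hp⟩ ⟨q, hq⟩)
    (X : Set V1) (hX : IsCore ((E ⊔ SimpleGraph.edge p q).induce V1) X) :
    IsCore E (Subtype.val '' X) ∧
      coreE E (Subtype.val '' X) = coreE ((E ⊔ SimpleGraph.edge p q).induce V1) X := by
  have hr : Set.range (Subtype.val : V1 → V) = V1 := Subtype.range_val
  have hp1 : p ∈ V1 := by
    have : p ∈ V1 ∩ V2 := by rw [hc]; exact Or.inl rfl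
    exact this.1
  have hq1 : q ∈ V1 := by
    have : q ∈ V1 ∩ V2 := by rw [hc]; exact Or.inr rfl
    exact this.1
  have h := Lift2 (E := E) (f := (Subtype.val : V1 → V)) Subtype.val_injective (V2 := V2)
    (p := ⟨p, hp1⟩) (q := ⟨q, hq1⟩) (fun h => hpq (congrArg Subtype.val h))
    (by rw [hr]; exact hc) (by rw [hr]; exact hE) X (CH_of hp hq hcon)
  rw [Lift_induce_edge V1 p q hp1 hq1] at hX ⊢
  exact ⟨h.1 hX, h.2⟩

/-- `CoreLt` for a part glued at a vertex, in terms of an injective map -/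
theorem coreLt_part1 {E : SimpleGraph V} {M : ℕ∞} (hM : CoreLt M E) (f : W → V)
    (hf : Function.Injective f) (V2 : Set V) (c : V) (hV : Set.range f ∪ V2 = Set.univ)
    (hc : Set.range f ∩ V2 ⊆ {c})
    (hE : ∀ x y, E.Adj x y → (x ∈ Set.range f ∧ y ∈ Set.range f) ∨ (x ∈ V2 ∧ y ∈ V2)) :
    CoreLt M (E.comap f) := by
  intro X hX
  have h := Lift1 hf hc hE X
  rw [← h.2]
  exact hM _ (h.1 hX)

/-- `CoreLt` for a part glued at two vertices, in terms of an injective map -/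
theorem coreLt_part2 {E : SimpleGraph V} {M : ℕ∞} (hM : CoreLt M E) (f : W → V)
    (hf : Function.Injective f) (V2 : Set V) (p q : W) (hpq : p ≠ q)
    (hV : Set.range f ∪ V2 = Set.univ) (hc : Set.range f ∩ V2 = {f p, f q})
    (hE : ∀ x y, E.Adj x y → (x ∈ Set.range f ∧ y ∈ Set.range f) ∨ (x ∈ V2 ∧ y ∈ V2))
    (hp : f p ∈ V2) (hq : f q ∈ V2) (hcon : (E.induce V2).Reachable ⟨f p, hp⟩ ⟨f q, hq⟩) :
    CoreLt M (E.comap f ⊔ SimpleGraph.edge p q) := by
  intro X hX
  have h := Lift2 hf hpq hc hE X (CH_of hp hq hcon)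
  rw [← h.2]
  exact hM _ (h.1 hX)

end Dia
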