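import Pool.Agent.PGc.PlPlanar
import Pool.Agent.PGr.PlRestrict
import Pool.Agent.PGr.RetLib
import Pool.Agent.PGr.CutIso

/-!
# Module PlanA: subgraphs of planar graphs are planar

`IsPlanar G ↔ ∃ s, (cycles of s = vertices) ∧ Pl (dsymm G) s` (`PGr.planar_pl`, `PGr.pl_planar`; these need
`Fintype`, `DecidableEq`: use `Fintype.ofFinite`, `Classical.decEq`; `IsPlanar` itself does not mention
instances).

`planar_of_hom`: `f : W → V` injective, edges of `G` go to edges of `H`: the darts of `G` are in bijection
with the set `S` of the darts `(f x, f y)` of `H` with `G.Adj x y`, which is closed under the reversal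
(`Cl`).  `Pl.restrict` gives `Pl` for `S` with `ret s S`, whose cycles are the intersections of the cycles of
`s` with `S` (`PGr.sameCycle_ret`), i.e. the sets of darts of `S` with the same first vertex; transport
along the bijection (`Pl` is invariant under conjugation, see `CutIso.lean` or prove it).

`planar_of_cover`: if all edges of `H` come from edges of `G` (`f` injective), the darts of `H` are in
bijection with darts of a subgraph of `G`... precisely: choose for every dart of `H` the dart `(a, b)` of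
`G`; so `H.Dart` is in bijection with a subset of `G.Dart` closed under reversal, and first vertices
correspond (`f` injective).
-/

set_option linter.unusedSectionVars false

namespace Dia
open PGr

variable {V W : Type} [Finite V] [Finite W]

/-- The cycles of a conjugate permutation. -/
theorem PlanA_sameCycle {T T' : Type*} [Fintype T] [DecidableEq T] [Fintype T'] [DecidableEq T']
    (e : T ≃ T') {s : Equiv.Perm T} {s' : Equiv.Perm T'}
    (h : ∀ t, e (s t) = s' (e t)) (x y : T) : s'.SameCycle (e x) (e y) ↔ s.SameCycle x y := by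
  constructor
  · rintro ⟨i, hi⟩
    refine ⟨i, e.injective ?_⟩
    rw [CutIso.zpow e h, hi]
  · rintro ⟨i, hi⟩
    exact ⟨i, by rw [← CutIso.zpow e h, hi]⟩

/-- The basic transport: an injection of the darts of `G` into the darts of a planar graph, respecting
reversal and the relation having the same first vertex. -/
theorem PlanA_core {G : SimpleGraph W} {H : SimpleGraph V} (φ : G.Dart → H.Dart)
    (hi : Function.Injective φ) (hs : ∀ d : G.Dart, φ d.symm = (φ d).symm)
    (hf : ∀ d d' : G.Dart, (φ d).fst = (φ d').fst ↔ d.fst = d'.fst) (hH : IsPlanar H) :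
    IsPlanar G := by
  classical
  have := Fintype.ofFinite V
  have := Fintype.ofFinite W
  obtain ⟨s, hs1, hpl⟩ := planar_pl hH
  refine pl_planar ?_
  let S : Finset H.Dart := Finset.univ.map ⟨φ, hi⟩
  have hmem : ∀ x, x ∈ S ↔ ∃ d, φ d = x := by
    intro x
    simp [S]
  have hS : Cl (dsymm H) S := by
    intro t
    rw [hmem, hmem]
    constructor
    · rintro ⟨d, hd⟩
      refine ⟨d.symm, ?_⟩
      rw [hs, hd]
      exact t.symm_symm
    · rintro ⟨d, hd⟩
      refine ⟨d.symm, ?_⟩
      rw [hs, hd]
      rfl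
  let e : {x // x ∈ S} ≃ G.Dart := (Equiv.ofBijective (fun d : G.Dart =>
      (⟨φ d, (hmem _).2 ⟨d, rfl⟩⟩ : {x // x ∈ S}))
    ⟨fun d d' h => hi (congrArg Subtype.val h), fun x => by
      obtain ⟨d, hd⟩ := (hmem _).1 x.2
      exact ⟨d, Subtype.ext hd⟩⟩).symm
  have he : ∀ x : {x // x ∈ S}, φ (e x) = x.1 := by
    intro x
    have := (e.symm_apply_apply x)
    exact congrArg Subtype.val this
  let s' : Equiv.Perm G.Dart := e.permCongr (ret s S)
  have hs' : ∀ t, e (ret s S t) = s' (e t) := by
    intro t
    rw [Equiv.permCongr_apply, Equiv.symm_apply_apply]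
  have ha' : ∀ t, e (subA (dsymm H) S hS t) = dsymm G (e t) := by
    intro t
    apply hi
    rw [he, subA_val]
    show (t.1).symm = φ (e t).symm
    rw [hs, he]
  refine ⟨s', ?_, Pl_iso e ha' hs' (hpl.restrict (fun t => t.symm_symm) S hS)⟩
  intro d d'
  obtain ⟨x, rfl⟩ := e.surjective d
  obtain ⟨x', rfl⟩ := e.surjective d'
  rw [PlanA_sameCycle e hs', sameCycle_ret, hs1, ← hf, he, he]

theorem planar_of_hom {G : SimpleGraph W} {H : SimpleGraph V} (f : W → V) (hf : Function.Injective f)
    (h : ∀ x y, G.Adj x y → H.Adj (f x) (f y)) (hH : IsPlanar H) : IsPlanar G := by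
  refine PlanA_core (fun d => ⟨(f d.fst, f d.snd), h _ _ d.adj⟩) ?_ ?_ ?_ hH
  · intro d d' hd
    have h1 : (f d.fst, f d.snd) = (f d'.fst, f d'.snd) := congrArg SimpleGraph.Dart.toProd hd
    have h2 := hf (Prod.mk.inj h1).1
    have h3 := hf (Prod.mk.inj h1).2
    exact SimpleGraph.Dart.ext _ _ (Prod.ext h2 h3)
  · intro d
    rfl
  · intro d d'
    exact ⟨fun h => hf h, fun h => congrArg f h⟩

theorem planar_of_cover {G : SimpleGraph W} {H : SimpleGraph V} (f : W → V)
    (hf : Function.Injective f) (h : ∀ x y, H.Adj x y → ∃ a b, f a = x ∧ f b = y ∧ G.Adj a b)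
    (hG : IsPlanar G) : IsPlanar H := by
  choose A B hA hB hAB using fun d : H.Dart => h d.fst d.snd d.adj
  refine PlanA_core (fun d => ⟨(A d, B d), hAB d⟩) ?_ ?_ ?_ hG
  · intro d d' hd
    have h1 : (A d, B d) = (A d', B d') := congrArg SimpleGraph.Dart.toProd hd
    have h2 := congrArg f (Prod.mk.inj h1).1
    have h3 := congrArg f (Prod.mk.inj h1).2
    rw [hA, hA] at h2
    rw [hB, hB] at h3
    exact SimpleGraph.Dart.ext _ _ (Prod.ext h2 h3)
  · intro d
    apply SimpleGraph.Dart.ext
    refine Prod.ext ?_ ?_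
    · exact hf ((hA d.symm).trans (hB d).symm)
    · exact hf ((hB d.symm).trans (hA d).symm)
  · intro d d'
    constructor
    · intro h
      have := congrArg f h
      exact (hA d).symm.trans (this.trans (hA d'))
    · intro h
      exact hf ((hA d).trans (h.trans (hA d').symm))

theorem planar_mono {G H : SimpleGraph V} (h : G ≤ H) (hH : IsPlanar H) : IsPlanar G :=
  planar_of_hom id Function.injective_id (fun _ _ hxy => h hxy) hH

theorem planar_comap {G : SimpleGraph V} (f : W → V) (hf : Function.Injective f)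
    (hG : IsPlanar G) : IsPlanar (G.comap f) :=
  planar_of_hom f hf (fun _ _ hxy => hxy) hG

theorem planar_iso {G : SimpleGraph V} {H : SimpleGraph W} (e : G ≃g H) :
    IsPlanar G ↔ IsPlanar H :=
  ⟨fun h => planar_of_hom e.symm e.symm.injective (fun _ _ hxy => e.symm.map_adj_iff.2 hxy) h,
    fun h => planar_of_hom e e.injective (fun _ _ hxy => e.map_adj_iff.2 hxy) h⟩

theorem PlanA_one {G : SimpleGraph V} (h : ∀ d d' : G.Dart, d.fst = d'.fst → d = d') :
    IsPlanar G := by
  classical
  have := Fintype.ofFinite V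
  refine pl_planar ⟨1, ?_, ?_⟩
  · intro d d'
    rw [Equiv.Perm.sameCycle_one]
    exact ⟨fun h => h ▸ rfl, fun h' => h _ _ h'⟩
  · intro p q _
    refine ⟨fun _ => 0, fun _ => rfl, fun t => ?_⟩
    rw [Equiv.Perm.one_apply, add_zero]
    exact (CharTwo.add_self_eq_zero (p t)).symm

theorem planar_bot : IsPlanar (⊥ : SimpleGraph V) :=
  PlanA_one fun d => (SimpleGraph.bot_adj _ _).1 d.adj |>.elim

theorem planar_edge (x y : V) : IsPlanar (SimpleGraph.edge x y) := by
  refine PlanA_one fun d d' hd => ?_
  have h1 := (SimpleGraph.edge_adj x y d.fst d.snd).1 d.adj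
  have h2 := (SimpleGraph.edge_adj x y d'.fst d'.snd).1 d'.adj
  apply SimpleGraph.Dart.ext
  refine Prod.ext hd ?_
  obtain ⟨h1, h1'⟩ := h1
  obtain ⟨h2, h2'⟩ := h2
  show d.snd = d'.snd
  rcases h1 with ⟨a, b⟩ | ⟨a, b⟩ <;> rcases h2 with ⟨a', b'⟩ | ⟨a', b'⟩
  · rw [b, b']
  · exfalso; apply h1'; rw [hd, a', b]
  · exfalso; apply h1'; rw [hd, a', b]
  · rw [b, b']

end Dia
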