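import Pool.Agent.Dia.CountA
import Pool.Agent.Dia.Lift
import Pool.Agent.Dia.PlanA

/-!
# Classes with distances: definitions, and invariance of all classes

Distances are `SimpleGraph.dist`.
-/

set_option linter.unusedSectionVars false

namespace Dia
open PGr Finset Pool.Agent.DiamP

/-- some vertex has distance at least `L` from the root -/
def Far1 {A : Type} (L : ℕ) (G : SimpleGraph (Option A)) : Prop := ∃ a : A, L ≤ G.dist (some a) none

/-- some internal vertex has distance at least `L` from both poles -/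
def Far2 {A : Type} (L : ℕ) (G : SimpleGraph (A ⊕ Bool)) : Prop :=
  ∃ a : A, ∀ b : Bool, L ≤ G.dist (Sum.inl a) (Sum.inr b)

/-- distance of the poles -/
noncomputable def pd {A : Type} (G : SimpleGraph (A ⊕ Bool)) : ℕ :=
  G.dist (Sum.inr false) (Sum.inr true)

/-- the internal vertex `w` separates the poles (in a graph without the edge between the poles) -/
def Sep {A : Type} (G : SimpleGraph (A ⊕ Bool)) (w : A) : Prop :=
  ∀ C : ((G.comap Sum.inl).induce ({w}ᶜ : Set A)).ConnectedComponent,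
    ¬ ((∃ a ∈ C.supp, G.Adj (Sum.inl a.1) (Sum.inr false)) ∧
      ∃ a ∈ C.supp, G.Adj (Sum.inl a.1) (Sum.inr true))

/-- unshifted sequence of rooted connected planar graphs -/
noncomputable def rE (M : ℕ∞) : ℕ → ℝ := es1 fun _ G => RR G ∧ CoreLt M G

/-- far versions (all cores allowed) -/
noncomputable def rF (L : ℕ) : ℕ → ℝ := sh (es1 fun _ G => RR G ∧ Far1 L G)
noncomputable def rFE (L : ℕ) : ℕ → ℝ := es1 fun _ G => RR G ∧ Far1 L G
noncomputable def pF (L : ℕ) : ℕ → ℝ := es1 fun _ G => PP G ∧ Far1 L G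
noncomputable def qF (L : ℕ) : ℕ → ℝ := es2 fun _ G => QQ G ∧ Far2 L G
noncomputable def dF (L : ℕ) : ℕ → ℝ := es2 fun _ G => DD G ∧ Far2 L G
noncomputable def bF (L : ℕ) : ℕ → ℝ := es2 fun _ G => BB G ∧ Far2 L G

/-- two-pole graphs with pole distance larger than `l` -/
noncomputable def dP (l : ℕ) : ℕ → ℝ := es2 fun _ G => DD G ∧ l < pd G

/-- exponential moments of the pole distance -/
noncomputable def dT (θ : ℝ) (k : ℕ) : ℝ :=
  open Classical in
  (∑ G : SimpleGraph (Fin k ⊕ Bool), if DD G then Real.exp (θ * pd G) else 0) / k.factorial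

noncomputable def bT (θ : ℝ) (k : ℕ) : ℝ :=
  open Classical in
  (∑ G : SimpleGraph (Fin k ⊕ Bool), if BB G then Real.exp (θ * pd G) else 0) / k.factorial

noncomputable def qT (θ : ℝ) (k : ℕ) : ℝ :=
  open Classical in
  (∑ G : SimpleGraph (Fin k ⊕ Bool), if QQ G then Real.exp (θ * pd G) else 0) / k.factorial

/-- the classes `BB` with and without separating vertex -/
noncomputable def bS (M : ℕ∞) : ℕ → ℝ :=
  es2 fun A G => BB G ∧ CoreLt M (addp G) ∧ ∃ w : A, Sep G w
noncomputable def bRig (M : ℕ∞) : ℕ → ℝ :=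
  es2 fun A G => BB G ∧ CoreLt M (addp G) ∧ ¬ ∃ w : A, Sep G w

end Dia
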