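import Pool.Agent.Dia.TDefs

/-!
# Module TCrit: values at the critical point

`q = 1 - x`, `0 < x < 1`.  `CritW x w` is `G(w) = 0` for the polynomial `G` = left side minus right side;
`G(0) = -1 < 0`, `G(1) = 3 x (1 - q) = 3 x^2 > 0`: a root in `(0,1)` (`intermediate_value_Ioo`).
Power series in `u` with nonnegative coefficients and their sums at `0 ≤ u < 1`:
`P1 = 1 + q u + 3 x u/(1-u) = nW/(1-u)`, `P2 = nW/(1 - q u) = lW'`, `P3 = P2/(1-u) = lW`,
`PH = P1 P2 = nW^2/((1-u)(1-qu))` (geometric series, Cauchy products: `hasSum_coeff_mul`).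
Derivatives: `sum k p_k u^k = u f'(u)` for `u` in `[0,1)`, and `sum k^2 p_k u^k < ∞`: the coefficients
of `P1, P2` are bounded, those of `P3, PH, P3^2, ..` are bounded by polynomials in `k` (`coeff_bound`), so
`k^2 p_k u^k` is summable.
Mean: `sum k PH_k w^k = w PH'(w)`; the logarithmic derivative of `nW^2/((1-w)(1-qw))` is
`4 (x - q w)/nW + 1/(1-w) + q/(1 - q w)`; the equation `w PH'/PH = 1`, multiplied by
`nW (1-w)(1-qw)`, reads
`4 w (x - q w)(1-w)(1-qw) + w nW (1-qw) + q w nW (1-w) = nW (1-w)(1-qw)`,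
and the difference of the two sides is exactly the difference of the two sides of `CritW`
(`ring`, checked).  To get the sum of `k PH_k w^k` without derivatives: `k`-weighted Cauchy products:
`D(fg) = D(f) g + f D(g)` for `D f = sum k f_k u^k`, and `D` of the geometric series `sum k q^k u^k
= q u/(1 - q u)^2` (`tsum_coe_mul_geometric_of_norm_lt_one`).
-/

set_option linter.unusedSectionVars false

namespace Dia
open PowerSeries Finset

variable {x : ℝ}

theorem wc_spec (h0 : 0 < x) (h1 : x < 1) : 0 < wc x ∧ wc x < 1 ∧ CritW x (wc x) := by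
  have key : ∃ w : ℝ, 0 < w ∧ w < 1 ∧ CritW x w := by
    let G : ℝ → ℝ := fun w => 3 * x * w * (1 - (1 - x) * w) +
      (1 - x) * w * (1 - w) ^ 2 * (1 - (1 - x) * w) +
      x * (1 - x) * w ^ 2 * (1 - w) - (1 - w) * (1 - (1 - x) * w) ^ 2
    have hG : ContinuousOn G (Set.Icc 0 1) := by
      apply Continuous.continuousOn
      fun_prop
    have h := intermediate_value_Ioo (zero_le_one (α := ℝ)) hG
    have h2 : (0 : ℝ) ∈ Set.Ioo (G 0) (G 1) := by
      constructor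
      · simp only [G]; norm_num
      · simp only [G]; nlinarith
    obtain ⟨w, hw, hw2⟩ := h h2
    refine ⟨w, hw.1, hw.2, ?_⟩
    unfold CritW
    simp only [G] at hw2
    linarith
  unfold wc
  rw [dif_pos key]
  exact key.choose_spec

private theorem TCrit_q (h0 : 0 < x) (h1 : x < 1) {w : ℝ} (hw0 : 0 ≤ w) (hw1 : w < 1) :
    0 < 1 - (1 - x) * w := by
  nlinarith [mul_nonneg h0.le hw0]

theorem nW_pos (h0 : 0 < x) (h1 : x < 1) {w : ℝ} (hw0 : 0 ≤ w) (hw1 : w < 1) : 0 < nW x w := by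
  unfold nW
  have h2 : w ^ 2 ≤ 1 := by nlinarith
  have h3 : 0 ≤ w ^ 2 := sq_nonneg w
  nlinarith [mul_nonneg h0.le hw0, mul_nonneg h0.le h3]

theorem yc_pos (h0 : 0 < x) (h1 : x < 1) : 0 < yc x := by
  obtain ⟨hw0, hw1, -⟩ := wc_spec h0 h1
  have h2 := nW_pos h0 h1 hw0.le hw1
  have h3 := TCrit_q h0 h1 hw0.le hw1
  have h4 : 0 < 1 - wc x := by linarith
  unfold yc
  positivity

theorem alc_pos (h0 : 0 < x) (h1 : x < 1) : 0 < alc x := by
  obtain ⟨hw0, hw1, -⟩ := wc_spec h0 h1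
  have h3 := TCrit_q h0 h1 hw0.le hw1
  have h4 : 0 < 1 - wc x := by linarith
  unfold alc
  positivity

theorem bec_pos (h0 : 0 < x) (h1 : x < 1) : 0 < bec x := by
  obtain ⟨hw0, hw1, -⟩ := wc_spec h0 h1
  have h3 := TCrit_q h0 h1 hw0.le hw1
  have h4 : 0 < 1 - wc x := by linarith
  have h5 : 0 < 1 - x := by linarith
  unfold bec
  positivity

/-- criticality -/
theorem alc_bec (h0 : 0 < x) (h1 : x < 1) : 3 * alc x + bec x + alc x * bec x = 1 := by
  obtain ⟨hw0, hw1, hc⟩ := wc_spec h0 h1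
  have h3 := (TCrit_q h0 h1 hw0.le hw1).ne'
  have h4 : 1 - wc x ≠ 0 := by
    have : 0 < 1 - wc x := by linarith
    exact this.ne'
  unfold CritW at hc
  unfold alc bec
  obtain ⟨D, hD⟩ : ∃ D, D = 1 - (1 - x) * wc x := ⟨_, rfl⟩
  rw [← hD] at h3 hc ⊢
  field_simp
  linear_combination hc

theorem alc_eq (h0 : 0 < x) (h1 : x < 1) : alc x = yc x * (x * lW x (wc x) ^ 2) := by
  obtain ⟨hw0, hw1, hc⟩ := wc_spec h0 h1
  have h2 := (nW_pos h0 h1 hw0.le hw1).ne'
  have h3 := (TCrit_q h0 h1 hw0.le hw1).ne'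
  have h4 : 1 - wc x ≠ 0 := by
    have : 0 < 1 - wc x := by linarith
    exact this.ne'
  unfold alc yc lW
  field_simp

theorem alc_bec_eq (h0 : 0 < x) (h1 : x < 1) :
    alc x + bec x = yc x * (x * lW x (wc x) ^ 2 + (1 - x) * lW' x (wc x) ^ 2) := by
  obtain ⟨hw0, hw1, hc⟩ := wc_spec h0 h1
  have h2 := (nW_pos h0 h1 hw0.le hw1).ne'
  have h3 := (TCrit_q h0 h1 hw0.le hw1).ne'
  have h4 : 1 - wc x ≠ 0 := by
    have : 0 < 1 - wc x := by linarith
    exact this.ne'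
  rw [alc_eq h0 h1, mul_add]
  congr 1
  unfold bec yc lW'
  field_simp

/-- polynomially bounded nonnegative coefficients -/
def PB (P : PowerSeries ℝ) : Prop :=
  (∀ k, 0 ≤ coeff k P) ∧ ∃ (C : ℝ) (d : ℕ), ∀ k : ℕ, coeff k P ≤ C * ((k : ℝ) + 1) ^ d

theorem PB.mul {P Q : PowerSeries ℝ} (hP : PB P) (hQ : PB Q) : PB (P * Q) := by
  obtain ⟨hP0, C, d, hP⟩ := hP
  obtain ⟨hQ0, C', d', hQ⟩ := hQ
  have hC : 0 ≤ C := by
    have h1 := hP0 0
    have h2 := hP 0
    simp only [Nat.cast_zero, zero_add, one_pow, mul_one] at h2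
    linarith
  have hC' : 0 ≤ C' := by
    have h1 := hQ0 0
    have h2 := hQ 0
    simp only [Nat.cast_zero, zero_add, one_pow, mul_one] at h2
    linarith
  refine ⟨fun k => ?_, C * C', d + d' + 1, fun k => ?_⟩
  · rw [coeff_mul]
    exact sum_nonneg fun ij _ => mul_nonneg (hP0 _) (hQ0 _)
  · rw [coeff_mul]
    have h : ∀ ij ∈ antidiagonal k, coeff ij.1 P * coeff ij.2 Q ≤
        C * C' * ((k : ℝ) + 1) ^ (d + d') := by
      intro ij hij
      have hij := mem_antidiagonal.1 hij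
      have h1 : coeff ij.1 P ≤ C * ((k : ℝ) + 1) ^ d := by
        refine (hP _).trans (mul_le_mul_of_nonneg_left (pow_le_pow_left₀ (by positivity) ?_ _) hC)
        have : (ij.1 : ℝ) ≤ k := by exact_mod_cast (by omega : ij.1 ≤ k)
        linarith
      have h2 : coeff ij.2 Q ≤ C' * ((k : ℝ) + 1) ^ d' := by
        refine (hQ _).trans (mul_le_mul_of_nonneg_left (pow_le_pow_left₀ (by positivity) ?_ _) hC')
        have : (ij.2 : ℝ) ≤ k := by exact_mod_cast (by omega : ij.2 ≤ k)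
        linarith
      calc coeff ij.1 P * coeff ij.2 Q ≤ (C * ((k : ℝ) + 1) ^ d) * (C' * ((k : ℝ) + 1) ^ d') :=
            mul_le_mul h1 h2 (hQ0 _) (by positivity)
        _ = C * C' * ((k : ℝ) + 1) ^ (d + d') := by ring
    refine (sum_le_card_nsmul _ _ _ h).trans ?_
    rw [Finset.Nat.card_antidiagonal, nsmul_eq_mul]
    push_cast
    apply le_of_eq
    ring

theorem PB.add {P Q : PowerSeries ℝ} (hP : PB P) (hQ : PB Q) : PB (P + Q) := by
  obtain ⟨hP0, C, d, hP⟩ := hP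
  obtain ⟨hQ0, C', d', hQ⟩ := hQ
  have hC : 0 ≤ C := by
    have h1 := hP0 0
    have h2 := hP 0
    simp only [Nat.cast_zero, zero_add, one_pow, mul_one] at h2
    linarith
  have hC' : 0 ≤ C' := by
    have h1 := hQ0 0
    have h2 := hQ 0
    simp only [Nat.cast_zero, zero_add, one_pow, mul_one] at h2
    linarith
  refine ⟨fun k => ?_, C + C', d + d', fun k => ?_⟩
  · rw [map_add]
    exact add_nonneg (hP0 _) (hQ0 _)
  · rw [map_add, add_mul]
    have hk : (1 : ℝ) ≤ (k : ℝ) + 1 := by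
      have := Nat.cast_nonneg (α := ℝ) k
      linarith
    exact add_le_add
      ((hP k).trans (mul_le_mul_of_nonneg_left (pow_le_pow_right₀ hk (by omega)) hC))
      ((hQ k).trans (mul_le_mul_of_nonneg_left (pow_le_pow_right₀ hk (by omega)) hC'))

theorem PB.C {c : ℝ} (hc : 0 ≤ c) : PB (PowerSeries.C c) := by
  refine ⟨fun k => ?_, c, 0, fun k => ?_⟩
  · rw [coeff_C]; split_ifs <;> simp [hc]
  · rw [coeff_C]; split_ifs <;> simp [hc]

theorem PB.summable {P : PowerSeries ℝ} (hP : PB P) {w : ℝ} (h0 : 0 ≤ w) (h1 : w < 1) (j : ℕ) :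
    Summable fun k : ℕ => (k : ℝ) ^ j * (coeff k P * w ^ k) := by
  obtain ⟨hP0, C, d, hP⟩ := hP
  have hC : 0 ≤ C := by
    have h1 := hP0 0
    have h2 := hP 0
    simp only [Nat.cast_zero, zero_add, one_pow, mul_one] at h2
    linarith
  have hn : ‖w‖ < 1 := by rwa [Real.norm_of_nonneg h0]
  have hs : Summable fun k : ℕ => C * 2 ^ (j + d) * ((k : ℝ) ^ (j + d) * w ^ k + (k : ℝ) ^ 0 * w ^ k) :=
    ((summable_pow_mul_geometric_of_norm_lt_one (j + d) hn).add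
      (summable_pow_mul_geometric_of_norm_lt_one 0 hn)).mul_left _
  refine Summable.of_nonneg_of_le (fun k => ?_) (fun k => ?_) hs
  · have := hP0 k
    positivity
  · have hk : (k : ℝ) ^ j ≤ ((k : ℝ) + 1) ^ j := pow_le_pow_left₀ (by positivity) (by linarith) _
    have hb : ((k : ℝ) + 1) ^ (j + d) ≤ 2 ^ (j + d) * ((k : ℝ) ^ (j + d) + 1) := by
      rcases Nat.eq_zero_or_pos k with rfl | hk
      · simp only [Nat.cast_zero, zero_add, one_pow]
        have h2 : (1 : ℝ) ≤ 2 ^ (j + d) := one_le_pow₀ (by norm_num)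
        have h3 : (0 : ℝ) ≤ 0 ^ (j + d) := by positivity
        nlinarith
      · have h2 : (1 : ℝ) ≤ k := by exact_mod_cast hk
        have h3 : ((k : ℝ) + 1) ^ (j + d) ≤ (2 * k) ^ (j + d) :=
          pow_le_pow_left₀ (by positivity) (by linarith) _
        rw [mul_pow] at h3
        have h4 : (0 : ℝ) < 2 ^ (j + d) := by positivity
        nlinarith
    have hw : 0 ≤ w ^ k := pow_nonneg h0 k
    calc (k : ℝ) ^ j * (coeff k P * w ^ k)
        ≤ ((k : ℝ) + 1) ^ j * ((C * ((k : ℝ) + 1) ^ d) * w ^ k) := by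
          apply mul_le_mul hk (mul_le_mul_of_nonneg_right (hP k) hw)
            (mul_nonneg (hP0 k) hw) (by positivity)
      _ = C * (((k : ℝ) + 1) ^ (j + d) * w ^ k) := by ring
      _ ≤ C * ((2 ^ (j + d) * ((k : ℝ) ^ (j + d) + 1)) * w ^ k) :=
          mul_le_mul_of_nonneg_left (mul_le_mul_of_nonneg_right hb hw) hC
      _ = C * 2 ^ (j + d) * ((k : ℝ) ^ (j + d) * w ^ k + (k : ℝ) ^ 0 * w ^ k) := by ring

private theorem TCrit_PBmk {f : ℕ → ℝ} (hf : ∀ k, 0 ≤ f k) (hf1 : ∀ k, f k ≤ 1) :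
    PB (PowerSeries.mk f) :=
  ⟨fun k => by rw [coeff_mk]; exact hf k, 1, 0, fun k => by rw [coeff_mk]; simpa using hf1 k⟩

private theorem TCrit_PBone : PB (1 : PowerSeries ℝ) := by
  have h := PB.C (c := 1) zero_le_one
  rwa [map_one] at h

private theorem TCrit_PBX : PB (PowerSeries.X : PowerSeries ℝ) := by
  refine ⟨fun k => ?_, 1, 0, fun k => ?_⟩
  · rw [coeff_X]; split_ifs <;> simp
  · rw [coeff_X]; split_ifs <;> simp

private theorem TCrit_PBgeo {q : ℝ} (h0 : 0 ≤ q) (h1 : q ≤ 1) :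
    PB (PowerSeries.mk fun k => q ^ k) :=
  TCrit_PBmk (fun k => pow_nonneg h0 k) (fun k => pow_le_one₀ h0 h1)

private theorem TCrit_P1PB (h0 : 0 < x) (h1 : x < 1) : PB (P1 x) := by
  unfold P1
  exact (TCrit_PBone.add ((PB.C (by linarith)).mul TCrit_PBX)).add
    (((PB.C (by positivity)).mul TCrit_PBX).mul (TCrit_PBmk (fun _ => zero_le_one) fun _ => le_rfl))

private def TCrit_HS (P : PowerSeries ℝ) (w s : ℝ) : Prop :=
  HasSum (fun k : ℕ => coeff k P * w ^ k) s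

private def TCrit_HD (P : PowerSeries ℝ) (w s : ℝ) : Prop :=
  HasSum (fun k : ℕ => (k : ℝ) * (coeff k P * w ^ k)) s

private theorem TCrit_cauchy {f g h : ℕ → ℝ} (hf0 : ∀ k, 0 ≤ f k) (hg0 : ∀ k, 0 ≤ g k) {s t : ℝ}
    (hf : HasSum f s) (hg : HasSum g t) (hh : ∀ k, h k = ∑ ij ∈ antidiagonal k, f ij.1 * g ij.2) :
    HasSum h (s * t) := by
  have hn : Summable fun k : ℕ => ‖f k‖ :=
    (summable_congr fun k => (Real.norm_of_nonneg (hf0 k))).2 hf.summable
  have hn' : Summable fun k : ℕ => ‖g k‖ :=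
    (summable_congr fun k => (Real.norm_of_nonneg (hg0 k))).2 hg.summable
  have h3 := tsum_mul_tsum_eq_tsum_sum_antidiagonal_of_summable_norm hn hn'
  have h4 := (summable_norm_sum_mul_antidiagonal_of_summable_norm hn hn').of_norm.hasSum
  rw [← h3, hf.tsum_eq, hg.tsum_eq] at h4
  have h5 : h = fun k => ∑ ij ∈ antidiagonal k, f ij.1 * g ij.2 := funext hh
  rw [h5]
  exact h4

private theorem TCrit_HSmul {P Q : PowerSeries ℝ} (hP : PB P) (hQ : PB Q) {w s t : ℝ} (h0 : 0 ≤ w)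
    (hs : TCrit_HS P w s) (ht : TCrit_HS Q w t) : TCrit_HS (P * Q) w (s * t) := by
  refine TCrit_cauchy (fun k => mul_nonneg (hP.1 k) (pow_nonneg h0 k))
    (fun k => mul_nonneg (hQ.1 k) (pow_nonneg h0 k)) hs ht fun k => ?_
  rw [coeff_mul, sum_mul]
  refine sum_congr rfl fun ij hij => ?_
  rw [← mem_antidiagonal.1 hij, pow_add]
  ring

private theorem TCrit_HDmul {P Q : PowerSeries ℝ} (hP : PB P) (hQ : PB Q) {w s t s' t' : ℝ}
    (h0 : 0 ≤ w) (hs : TCrit_HS P w s) (ht : TCrit_HS Q w t) (hs' : TCrit_HD P w s')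
    (ht' : TCrit_HD Q w t') : TCrit_HD (P * Q) w (s' * t + s * t') := by
  have h1 : HasSum (fun k : ℕ => ∑ ij ∈ antidiagonal k,
      ((ij.1 : ℝ) * (coeff ij.1 P * w ^ ij.1)) * (coeff ij.2 Q * w ^ ij.2)) (s' * t) :=
    TCrit_cauchy (fun k => mul_nonneg (Nat.cast_nonneg k) (mul_nonneg (hP.1 k) (pow_nonneg h0 k)))
      (fun k => mul_nonneg (hQ.1 k) (pow_nonneg h0 k)) hs' ht fun k => rfl
  have h2 : HasSum (fun k : ℕ => ∑ ij ∈ antidiagonal k,
      (coeff ij.1 P * w ^ ij.1) * ((ij.2 : ℝ) * (coeff ij.2 Q * w ^ ij.2))) (s * t') :=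
    TCrit_cauchy (fun k => mul_nonneg (hP.1 k) (pow_nonneg h0 k))
      (fun k => mul_nonneg (Nat.cast_nonneg k) (mul_nonneg (hQ.1 k) (pow_nonneg h0 k))) hs ht'
      fun k => rfl
  unfold TCrit_HD
  have h3 : (fun k : ℕ => (k : ℝ) * (coeff k (P * Q) * w ^ k)) = fun k : ℕ =>
      (∑ ij ∈ antidiagonal k,
        ((ij.1 : ℝ) * (coeff ij.1 P * w ^ ij.1)) * (coeff ij.2 Q * w ^ ij.2)) +
      ∑ ij ∈ antidiagonal k,
        (coeff ij.1 P * w ^ ij.1) * ((ij.2 : ℝ) * (coeff ij.2 Q * w ^ ij.2)) := by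
    funext k
    rw [← sum_add_distrib, coeff_mul, sum_mul, mul_sum]
    refine sum_congr rfl fun ij hij => ?_
    rw [← mem_antidiagonal.1 hij, pow_add]
    push_cast
    ring
  rw [h3]
  exact h1.add h2

private theorem TCrit_HSadd {P Q : PowerSeries ℝ} {w s t : ℝ}
    (hs : TCrit_HS P w s) (ht : TCrit_HS Q w t) : TCrit_HS (P + Q) w (s + t) := by
  have h : (fun k : ℕ => coeff k (P + Q) * w ^ k) =
      fun k : ℕ => coeff k P * w ^ k + coeff k Q * w ^ k := by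
    funext k; rw [map_add]; ring
  unfold TCrit_HS
  rw [h]
  exact HasSum.add hs ht

private theorem TCrit_HDadd {P Q : PowerSeries ℝ} {w s t : ℝ}
    (hs : TCrit_HD P w s) (ht : TCrit_HD Q w t) : TCrit_HD (P + Q) w (s + t) := by
  have h : (fun k : ℕ => (k : ℝ) * (coeff k (P + Q) * w ^ k)) =
      fun k : ℕ => (k : ℝ) * (coeff k P * w ^ k) + (k : ℝ) * (coeff k Q * w ^ k) := by
    funext k; rw [map_add]; ring
  unfold TCrit_HD
  rw [h]
  exact HasSum.add hs ht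

private theorem TCrit_HSC (c w : ℝ) : TCrit_HS (PowerSeries.C c) w c := by
  unfold TCrit_HS
  have h := hasSum_single (f := fun k : ℕ => coeff k (PowerSeries.C c) * w ^ k) 0
    (fun k hk => by simp [coeff_C, hk])
  simpa using h

private theorem TCrit_HDC (c w : ℝ) : TCrit_HD (PowerSeries.C c) w 0 := by
  unfold TCrit_HD
  have h := hasSum_single (f := fun k : ℕ => (k : ℝ) * (coeff k (PowerSeries.C c) * w ^ k)) 0
    (fun k hk => by simp [coeff_C, hk])
  simpa using h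

private theorem TCrit_HSone (w : ℝ) : TCrit_HS 1 w 1 := by
  have h := TCrit_HSC 1 w
  rwa [map_one] at h

private theorem TCrit_HDone (w : ℝ) : TCrit_HD 1 w 0 := by
  have h := TCrit_HDC 1 w
  rwa [map_one] at h

private theorem TCrit_HSX (w : ℝ) : TCrit_HS PowerSeries.X w w := by
  unfold TCrit_HS
  have h := hasSum_single (f := fun k : ℕ => coeff k (PowerSeries.X : PowerSeries ℝ) * w ^ k) 1
    (fun k hk => by simp [coeff_X, hk])
  simpa using h

private theorem TCrit_HDX (w : ℝ) : TCrit_HD PowerSeries.X w w := by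
  unfold TCrit_HD
  have h := hasSum_single
    (f := fun k : ℕ => (k : ℝ) * (coeff k (PowerSeries.X : PowerSeries ℝ) * w ^ k)) 1
    (fun k hk => by simp [coeff_X, hk])
  simpa using h

private theorem TCrit_HSgeo {q w : ℝ} (h0 : 0 ≤ q * w) (h1 : q * w < 1) :
    TCrit_HS (PowerSeries.mk fun k => q ^ k) w (1 - q * w)⁻¹ := by
  unfold TCrit_HS
  have h := hasSum_geometric_of_lt_one h0 h1
  have h2 : (fun k : ℕ => coeff k (PowerSeries.mk fun k => q ^ k) * w ^ k) =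
      fun k : ℕ => (q * w) ^ k := by
    funext k; rw [coeff_mk, mul_pow]
  rw [h2]
  exact h

private theorem TCrit_HDgeo {q w : ℝ} (h0 : 0 ≤ q * w) (h1 : q * w < 1) :
    TCrit_HD (PowerSeries.mk fun k => q ^ k) w (q * w / (1 - q * w) ^ 2) := by
  unfold TCrit_HD
  have hn : ‖q * w‖ < 1 := by rwa [Real.norm_of_nonneg h0]
  have h := hasSum_coe_mul_geometric_of_norm_lt_one hn
  have h2 : (fun k : ℕ => (k : ℝ) * (coeff k (PowerSeries.mk fun k => q ^ k) * w ^ k)) =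
      fun k : ℕ => (k : ℝ) * (q * w) ^ k := by
    funext k; rw [coeff_mk, mul_pow]
  rw [h2]
  exact h

private theorem TCrit_ones : (PowerSeries.mk fun _ => (1 : ℝ)) =
    PowerSeries.mk fun k : ℕ => (1 : ℝ) ^ k := by
  ext k; simp

private theorem TCrit_HSones {w : ℝ} (h0 : 0 ≤ w) (h1 : w < 1) :
    TCrit_HS (PowerSeries.mk fun _ => 1) w (1 - w)⁻¹ := by
  have h := TCrit_HSgeo (q := 1) (w := w) (by simpa using h0) (by simpa using h1)
  rw [one_mul] at h
  rw [TCrit_ones]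
  exact h

private theorem TCrit_HDones {w : ℝ} (h0 : 0 ≤ w) (h1 : w < 1) :
    TCrit_HD (PowerSeries.mk fun _ => 1) w (w / (1 - w) ^ 2) := by
  have h := TCrit_HDgeo (q := 1) (w := w) (by simpa using h0) (by simpa using h1)
  rw [one_mul] at h
  rw [TCrit_ones]
  exact h

private theorem TCrit_PBones : PB (PowerSeries.mk fun _ => (1 : ℝ)) :=
  TCrit_PBmk (fun _ => zero_le_one) fun _ => le_rfl

private theorem TCrit_qw (h0 : 0 < x) (h1 : x < 1) {w : ℝ} (hw0 : 0 ≤ w) (hw1 : w < 1) :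
    0 ≤ (1 - x) * w ∧ (1 - x) * w < 1 :=
  ⟨mul_nonneg (by linarith) hw0, by nlinarith [mul_nonneg h0.le hw0]⟩

private theorem TCrit_P1HS (h0 : 0 < x) (h1 : x < 1) {w : ℝ} (hw0 : 0 ≤ w) (hw1 : w < 1) :
    TCrit_HS (P1 x) w (nW x w / (1 - w)) := by
  have h4 : 1 - w ≠ 0 := by
    have : 0 < 1 - w := by linarith
    exact this.ne'
  have hA := TCrit_HSadd (TCrit_HSadd (TCrit_HSone w)
    (TCrit_HSmul (PB.C (c := 1 - x) (by linarith)) TCrit_PBX hw0 (TCrit_HSC (1 - x) w)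
      (TCrit_HSX w)))
    (TCrit_HSmul ((PB.C (c := 3 * x) (by positivity)).mul TCrit_PBX) TCrit_PBones hw0
      (TCrit_HSmul (PB.C (c := 3 * x) (by positivity)) TCrit_PBX hw0 (TCrit_HSC (3 * x) w)
        (TCrit_HSX w)) (TCrit_HSones hw0 hw1))
  have he : 1 + (1 - x) * w + 3 * x * w * (1 - w)⁻¹ = nW x w / (1 - w) := by
    unfold nW
    field_simp
    ring
  rw [he] at hA
  exact hA

private theorem TCrit_P1HD (h0 : 0 < x) (h1 : x < 1) {w : ℝ} (hw0 : 0 ≤ w) (hw1 : w < 1) :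
    TCrit_HD (P1 x) w ((1 - x) * w + 3 * x * w / (1 - w) ^ 2) := by
  have h4 : 1 - w ≠ 0 := by
    have : 0 < 1 - w := by linarith
    exact this.ne'
  have hA := TCrit_HDadd (TCrit_HDadd (TCrit_HDone w)
    (TCrit_HDmul (PB.C (c := 1 - x) (by linarith)) TCrit_PBX hw0 (TCrit_HSC (1 - x) w)
      (TCrit_HSX w) (TCrit_HDC (1 - x) w) (TCrit_HDX w)))
    (TCrit_HDmul ((PB.C (c := 3 * x) (by positivity)).mul TCrit_PBX) TCrit_PBones hw0
      (TCrit_HSmul (PB.C (c := 3 * x) (by positivity)) TCrit_PBX hw0 (TCrit_HSC (3 * x) w)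
        (TCrit_HSX w)) (TCrit_HSones hw0 hw1)
      (TCrit_HDmul (PB.C (c := 3 * x) (by positivity)) TCrit_PBX hw0 (TCrit_HSC (3 * x) w)
        (TCrit_HSX w) (TCrit_HDC (3 * x) w) (TCrit_HDX w)) (TCrit_HDones hw0 hw1))
  have he : 0 + (0 * w + (1 - x) * w) +
      ((0 * w + 3 * x * w) * (1 - w)⁻¹ + 3 * x * w * (w / (1 - w) ^ 2)) =
      (1 - x) * w + 3 * x * w / (1 - w) ^ 2 := by
    field_simp
    ring
  rw [he] at hA
  exact hA

private theorem TCrit_P2HS (h0 : 0 < x) (h1 : x < 1) {w : ℝ} (hw0 : 0 ≤ w) (hw1 : w < 1) :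
    TCrit_HS (P2 x) w (lW' x w) := by
  have hq := TCrit_qw h0 h1 hw0 hw1
  have h4 : 1 - (1 - x) * w ≠ 0 := (TCrit_q h0 h1 hw0 hw1).ne'
  have hA := TCrit_HSadd (TCrit_HSadd (TCrit_HSone w) (TCrit_HSX w))
    (TCrit_HSmul ((PB.C (c := x) h0.le).mul TCrit_PBX)
      (TCrit_PBgeo (q := 1 - x) (by linarith) (by linarith)) hw0
      (TCrit_HSmul (PB.C (c := x) h0.le) TCrit_PBX hw0 (TCrit_HSC x w)
        (TCrit_HSX w)) (TCrit_HSgeo hq.1 hq.2))
  have he : 1 + w + x * w * (1 - (1 - x) * w)⁻¹ = lW' x w := by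
    unfold lW' nW
    obtain ⟨D, hD⟩ : ∃ D, D = 1 - (1 - x) * w := ⟨_, rfl⟩
    rw [← hD] at h4 ⊢
    field_simp
    rw [hD]
    ring
  rw [he] at hA
  exact hA

private theorem TCrit_P2HD (h0 : 0 < x) (h1 : x < 1) {w : ℝ} (hw0 : 0 ≤ w) (hw1 : w < 1) :
    TCrit_HD (P2 x) w (w + x * w / (1 - (1 - x) * w) ^ 2) := by
  have hq := TCrit_qw h0 h1 hw0 hw1
  have h4 : 1 - (1 - x) * w ≠ 0 := (TCrit_q h0 h1 hw0 hw1).ne'
  have hA := TCrit_HDadd (TCrit_HDadd (TCrit_HDone w) (TCrit_HDX w))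
    (TCrit_HDmul ((PB.C (c := x) h0.le).mul TCrit_PBX)
      (TCrit_PBgeo (q := 1 - x) (by linarith) (by linarith)) hw0
      (TCrit_HSmul (PB.C (c := x) h0.le) TCrit_PBX hw0 (TCrit_HSC x w)
        (TCrit_HSX w)) (TCrit_HSgeo hq.1 hq.2)
      (TCrit_HDmul (PB.C (c := x) h0.le) TCrit_PBX hw0 (TCrit_HSC x w)
        (TCrit_HSX w) (TCrit_HDC x w) (TCrit_HDX w)) (TCrit_HDgeo hq.1 hq.2))
  have he : 0 + w + ((0 * w + x * w) * (1 - (1 - x) * w)⁻¹ +
      x * w * ((1 - x) * w / (1 - (1 - x) * w) ^ 2)) =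
      w + x * w / (1 - (1 - x) * w) ^ 2 := by
    field_simp
    ring
  rw [he] at hA
  exact hA

theorem P2_PB (h0 : 0 < x) (h1 : x < 1) : PB (P2 x) := by
  unfold P2
  exact (TCrit_PBone.add TCrit_PBX).add
    (((PB.C h0.le).mul TCrit_PBX).mul (TCrit_PBgeo (by linarith) (by linarith)))

theorem P3_PB (h0 : 0 < x) (h1 : x < 1) : PB (P3 x) := by
  unfold P3
  exact (P2_PB h0 h1).mul (TCrit_PBmk (fun _ => zero_le_one) fun _ => le_rfl)

theorem PH_PB (h0 : 0 < x) (h1 : x < 1) : PB (PH x) := by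
  unfold PH
  exact (TCrit_P1PB h0 h1).mul (P2_PB h0 h1)

private theorem coeff_one_X_mul (P : PowerSeries ℝ) : coeff 1 (PowerSeries.X * P) = coeff 0 P :=
  coeff_succ_X_mul 0 P

theorem P2_coeff (h0 : 0 < x) (h1 : x < 1) : coeff 0 (P2 x) = 1 ∧ coeff 1 (P2 x) = 1 + x := by
  unfold P2
  constructor
  · simp [mul_assoc]
  · simp [mul_assoc, coeff_one, coeff_one_X_mul]

theorem P3_coeff (h0 : 0 < x) (h1 : x < 1) : coeff 0 (P3 x) = 1 ∧ coeff 1 (P3 x) = 2 + x := by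
  have h := P2_coeff h0 h1
  unfold P3
  constructor
  · rw [coeff_mul, Finset.Nat.antidiagonal_zero, sum_singleton, h.1, coeff_mk, mul_one]
  · rw [coeff_mul, Finset.Nat.antidiagonal_succ, sum_cons]
    simp only [Finset.Nat.antidiagonal_zero, map_singleton, sum_singleton]
    simp [h.2]
    simp [← coeff_zero_eq_constantCoeff_apply, h.1]
    ring

theorem PH_coeff (h0 : 0 < x) (h1 : x < 1) : coeff 0 (PH x) = 1 ∧ 0 < coeff 1 (PH x) := by
  have h := P2_coeff h0 h1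
  have h2 : coeff 0 (P1 x) = 1 := by
    unfold P1
    simp [mul_assoc]
  have h3 : coeff 1 (P1 x) = 1 - x + 3 * x := by
    unfold P1
    simp [mul_assoc, coeff_one, coeff_one_X_mul, coeff_one_X]
  unfold PH
  constructor
  · rw [coeff_mul, Finset.Nat.antidiagonal_zero, sum_singleton, h.1, h2, mul_one]
  · have h4 : coeff 1 (P1 x * P2 x) =
        coeff 0 (P1 x) * coeff 1 (P2 x) + coeff 1 (P1 x) * coeff 0 (P2 x) := by
      rw [coeff_mul, Finset.Nat.antidiagonal_succ, sum_cons]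
      simp
    rw [h4, h.1, h.2, h2, h3]
    nlinarith

theorem P2_sum (h0 : 0 < x) (h1 : x < 1) {w : ℝ} (hw0 : 0 ≤ w) (hw1 : w < 1) :
    HasSum (fun k : ℕ => coeff k (P2 x) * w ^ k) (lW' x w) := by
  exact TCrit_P2HS h0 h1 hw0 hw1

theorem P3_sum (h0 : 0 < x) (h1 : x < 1) {w : ℝ} (hw0 : 0 ≤ w) (hw1 : w < 1) :
    HasSum (fun k : ℕ => coeff k (P3 x) * w ^ k) (lW x w) := by
  have h := TCrit_HSmul (P2_PB h0 h1) TCrit_PBones hw0 (TCrit_P2HS h0 h1 hw0 hw1)
    (TCrit_HSones hw0 hw1)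
  have h3 := (TCrit_q h0 h1 hw0 hw1).ne'
  have h4 : 1 - w ≠ 0 := by
    have : 0 < 1 - w := by linarith
    exact this.ne'
  have he : lW' x w * (1 - w)⁻¹ = lW x w := by
    unfold lW' lW
    field_simp
  rw [he] at h
  exact h

theorem PH_sum (h0 : 0 < x) (h1 : x < 1) {w : ℝ} (hw0 : 0 ≤ w) (hw1 : w < 1) :
    HasSum (fun k : ℕ => coeff k (PH x) * w ^ k)
      (nW x w ^ 2 / ((1 - w) * (1 - (1 - x) * w))) := by
  have h := TCrit_HSmul (TCrit_P1PB h0 h1) (P2_PB h0 h1) hw0 (TCrit_P1HS h0 h1 hw0 hw1)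
    (TCrit_P2HS h0 h1 hw0 hw1)
  have h3 := (TCrit_q h0 h1 hw0 hw1).ne'
  have h4 : 1 - w ≠ 0 := by
    have : 0 < 1 - w := by linarith
    exact this.ne'
  have he : nW x w / (1 - w) * lW' x w = nW x w ^ 2 / ((1 - w) * (1 - (1 - x) * w)) := by
    unfold lW'
    field_simp
  rw [he] at h
  exact h

/-- the mean is one at the critical point -/
theorem PH_mean (h0 : 0 < x) (h1 : x < 1) :
    HasSum (fun k : ℕ => (k : ℝ) * (coeff k (PH x) * wc x ^ k))
      (nW x (wc x) ^ 2 / ((1 - wc x) * (1 - (1 - x) * wc x))) := by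
  obtain ⟨hw0, hw1, hc⟩ := wc_spec h0 h1
  have h := TCrit_HDmul (TCrit_P1PB h0 h1) (P2_PB h0 h1) hw0.le (TCrit_P1HS h0 h1 hw0.le hw1)
    (TCrit_P2HS h0 h1 hw0.le hw1) (TCrit_P1HD h0 h1 hw0.le hw1) (TCrit_P2HD h0 h1 hw0.le hw1)
  have h2 := (nW_pos h0 h1 hw0.le hw1).ne'
  have h3 := (TCrit_q h0 h1 hw0.le hw1).ne'
  have h4 : 1 - wc x ≠ 0 := by
    have : 0 < 1 - wc x := by linarith
    exact this.ne'
  have he : ((1 - x) * wc x + 3 * x * wc x / (1 - wc x) ^ 2) * lW' x (wc x) +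
      nW x (wc x) / (1 - wc x) * (wc x + x * wc x / (1 - (1 - x) * wc x) ^ 2) =
      nW x (wc x) ^ 2 / ((1 - wc x) * (1 - (1 - x) * wc x)) := by
    unfold lW'
    unfold CritW at hc
    have h5 : ((1 - x) * wc x * (1 - wc x) ^ 2 + 3 * x * wc x) * (1 - (1 - x) * wc x) +
        wc x * (1 - wc x) * ((1 - (1 - x) * wc x) ^ 2 + x) =
        nW x (wc x) * ((1 - wc x) * (1 - (1 - x) * wc x)) := by
      unfold nW
      linear_combination hc
    field_simp
    linear_combination h5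
  rw [he] at h
  exact h

end Dia
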