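import Pool.Agent.Dia.RotF
import Pool.Agent.Dia.DecDefs
import Pool.Agent.DiaC.CritV
import Pool.Agent.DiamP.HvMain

/-!
# Analysis of the counting sequences of planar graphs: definitions

All sequences are weighted: `wt f x k = f k x^k`.
-/

set_option linter.unusedSectionVars false

namespace Dia
open Finset PGr Pool.Agent.DiamP

/-- weighted sequence -/
noncomputable def wt (f : ℕ → ℝ) (x : ℝ) (k : ℕ) : ℝ := f k * x ^ k

/-- rigid part with the numbers `h v e` (`v` vertices with parts `r`, `e` edges with parts `d`; cores with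
less than `M` edges, the edge between the poles included) -/
noncomputable def Hc (h : ℕ → ℕ → ℝ) (M : ℕ∞) (r d : ℕ → ℝ) (k : ℕ) : ℝ :=
  ∑ v ∈ range (k + 1), ∑ e ∈ range ((k + 2) ^ 2),
    if ((e + 1 : ℕ) : ℕ∞) < M then
      h v e * cvL (List.replicate v r ++ List.replicate e d) k else 0

/-- The inequalities between the weighted counting sequences of planar graphs whose cores have less
than `M` edges; `x` is the weight of a vertex. -/
structure PSys (x : ℝ) (h : ℕ → ℕ → ℝ) (M : ℕ∞) (r e p q d b : ℕ → ℝ) : Prop where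
  r_nn : ∀ k, 0 ≤ r k
  e_nn : ∀ k, 0 ≤ e k
  p_nn : ∀ k, 0 ≤ p k
  q_nn : ∀ k, 0 ≤ q k
  d_nn : ∀ k, 0 ≤ d k
  b_nn : ∀ k, 0 ≤ b k
  r_zero : r 0 = 0
  e_zero : e 0 = 1
  p_zero : p 0 = 0
  q_zero : q 0 = 1
  d_zero : d 0 = 1
  b_zero : b 0 = 0
  hr : ∀ k, r (k + 1) = x * e k
  he : ∀ k : ℕ, (k : ℝ) * e k ≤ cv (fun j => (j : ℝ) * p j) e k
  hp : ∀ k, p k ≤ cv r q k
  hq : ∀ k : ℕ, (k : ℝ) * q k ≤ cv (fun j => (j : ℝ) * b j) q k
  hd : ∀ k, 1 ≤ k → d k = 2 * q k
  hb : ∀ k, b k ≤ cv r (cv d d) k + Hc h M r d k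

/-- the radius of convergence of the exponential generating function of the connected planar graphs -/
noncomputable def rho : ℝ := sSup {x : ℝ | 0 ≤ x ∧ Summable (wt (rN ⊤) x)}

/-- the value of the generating function of the vertex rooted connected planar graphs at the radius -/
noncomputable def R0 : ℝ := ∑' k, wt (rN ⊤) rho k

/-- the value of the generating function of the two-pole graphs `DD` at the radius -/
noncomputable def D0 : ℝ := ∑' k, wt (dN ⊤) rho k

/-- the value of the generating function of the planar graphs at the radius -/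
noncomputable def G0 : ℝ := ∑' k, wt (gN ⊤) rho k

/-- the laws of the sizes -/
noncomputable def rL (k : ℕ) : ℝ := wt (rN ⊤) rho k / R0
noncomputable def dL (k : ℕ) : ℝ := wt (dN ⊤) rho k / D0
noncomputable def gL (k : ℕ) : ℝ := wt (gN ⊤) rho k / G0

/-- weight of the rigid maps with `e` nonroot edges at the point `(R0, D0)` -/
noncomputable def tauG (P : PG2) (e : ℕ) : ℝ := ∑ v ∈ range (e + 1), gP P v e * R0 ^ v * D0 ^ e

end Dia
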