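import Pool.Agent.Dia.RigF
import Pool.Agent.DiaC.ExpM
import Pool.Agent.DiaC.FarE

/-!
# End statements of (6.9) and (6.10)
-/

set_option linter.unusedSectionVars false

namespace Dia
open Finset PGr Pool.Agent.DiamP

/-- (6.10): exponential moments of the distance of the poles -/
theorem exp_mom : ∃ θ Λ : ℝ, 0 < θ ∧ 1 ≤ Λ ∧ Summable (wt (dT θ) rho) ∧
    ∑' k, wt (dT θ) rho k ≤ Λ * D0 := exp_mom'

/-- (6.9): few attachments with a far vertex -/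
theorem far_tot : ∃ K : ℝ, 0 < K ∧ ∀ L : ℕ, 1 ≤ L →
    Summable (wt (rF L) rho) ∧ Summable (wt (dF L) rho) ∧
    ∑' k, wt (rF L) rho k ≤ K * (L : ℝ) ^ (-(24 / 5) : ℝ) ∧
    ∑' k, wt (dF L) rho k ≤ K * (L : ℝ) ^ (-(24 / 5) : ℝ) := far_tot'

end Dia
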