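import Pool.Agent.Dia.CntT
import Pool.Agent.DiamP.HvLocal

/-!
# The weighted sums over a fixed pair (core set, torso), without poles
-/

set_option linter.unusedSectionVars false

namespace Dia
open Finset PGr Pool.Agent.DiamP Pool.Agent.DiamP.Hv

/-! ### lists of laws as products of power series -/

theorem coeff_SL (L : List (ℕ → ℝ)) (r d g : ℕ → ℝ) (v e n : ℕ) :
    cvL (L ++ SL r d g v e) n = PowerSeries.coeff n ((L.map PowerSeries.mk).prod *
      (PowerSeries.mk r ^ v * (PowerSeries.mk d ^ e * PowerSeries.mk g))) := by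
  rw [← PowerSeries.coeff_mk n (cvL _), mk_cvLs]
  unfold SL
  rw [List.map_append, List.map_append, List.map_append, List.prod_append, List.prod_append,
    List.prod_append, List.map_replicate, List.map_replicate, List.prod_replicate,
    List.prod_replicate, List.map_singleton, List.prod_singleton]

/-- the shifts of `v` factors -/
theorem coeff_shift (S T : PowerSeries ℝ) (r : ℕ → ℝ) (v n : ℕ) (hv : v ≤ n) :
    PowerSeries.coeff n (S * (PowerSeries.mk (sh r) ^ v * T)) =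
      PowerSeries.coeff (n - v) (S * (PowerSeries.mk r ^ v * T)) := by
  have h : S * (PowerSeries.mk (sh r) ^ v * T) =
      PowerSeries.X ^ v * (S * (PowerSeries.mk r ^ v * T)) := by
    rw [mk_sh, mul_pow]
    ring
  rw [h, PowerSeries.coeff_X_pow_mul', if_pos hv]

theorem coeff_shift_zero (S T : PowerSeries ℝ) (r : ℕ → ℝ) (v n : ℕ) (hv : n < v) :
    PowerSeries.coeff n (S * (PowerSeries.mk (sh r) ^ v * T)) = 0 := by
  have h : S * (PowerSeries.mk (sh r) ^ v * T) =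
      PowerSeries.X ^ v * (S * (PowerSeries.mk r ^ v * T)) := by
    rw [mk_sh, mul_pow]
    ring
  rw [h, PowerSeries.coeff_X_pow_mul', if_neg (by omega)]

/-! ### weights -/

theorem ew0_one : ew0 (fun _ _ => 1) = gN ⊤ := by
  classical
  funext n
  unfold ew0 gN
  congr 1
  rw [finsum_const', mul_one]
  congr 1
  exact Nat.card_congr (Equiv.subtypeEquiv (Equiv.refl _) fun G =>
    ⟨fun h => ⟨h, coreLt_top _⟩, fun h => h.1⟩)

section UU
variable {n v e : ℕ}

/-- the product of the generating series of the parts -/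
noncomputable def prU (i : IXK (Fin n) v e)
    (wv : i.1.1 → ∀ B : Type, SimpleGraph (Option B) → ℝ)
    (we : i.2.1.edgeSet → ∀ B : Type, SimpleGraph (B ⊕ Bool) → ℝ)
    (w0 : ∀ B : Type, SimpleGraph B → ℝ) : PowerSeries ℝ :=
  open Classical in
  letI := Fintype.ofFinite i.1.1
  letI := Fintype.ofFinite i.2.1.edgeSet
  (∏ x : i.1.1, PowerSeries.mk (ew1 (wv x))) *
    ((∏ e : i.2.1.edgeSet, PowerSeries.mk (ew2 (we e))) * PowerSeries.mk (ew0 w0))

/-- the product of the weights of the parts -/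
noncomputable def prV (i : IXK (Fin n) v e)
    (wv : i.1.1 → ∀ B : Type, SimpleGraph (Option B) → ℝ)
    (we : i.2.1.edgeSet → ∀ B : Type, SimpleGraph (B ⊕ Bool) → ℝ)
    (w0 : ∀ B : Type, SimpleGraph B → ℝ)
    (f : ↥(i.1.1 : Set (Fin n))ᶜ → Idx i.2.1)
    (s : ∀ j, Str i.2.1 j {a // f a = j}) : ℝ :=
  letI := Fintype.ofFinite i.1.1
  letI := Fintype.ofFinite i.2.1.edgeSet
  (∏ x : i.1.1, wv x _ (s (.inl x)).1) * ((∏ e : i.2.1.edgeSet, we e _ (s (.inr (.inl e))).1) *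
    w0 _ (s (.inr (.inr ()))).1)

theorem card_compl' (i : IXK (Fin n) v e) : Nat.card ↥(i.1.1 : Set (Fin n))ᶜ = n - v := by
  have h : (i.1.1 : Set (Fin n))ᶜ.ncard = Nat.card (Fin n) - (i.1.1 : Set (Fin n)).ncard :=
    Set.ncard_compl _
  have h1 : (i.1.1 : Set (Fin n)).ncard = v := i.1.2
  rw [h1, Nat.card_fin] at h
  exact h

theorem UU_sum (i : IXK (Fin n) v e) {wv : i.1.1 → ∀ B : Type, SimpleGraph (Option B) → ℝ}
    {we : i.2.1.edgeSet → ∀ B : Type, SimpleGraph (B ⊕ Bool) → ℝ}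
    {w0 : ∀ B : Type, SimpleGraph B → ℝ} (hv : ∀ x, IW1 (wv x)) (he : ∀ e, IW2 (we e))
    (h0 : IW0 w0) :
    ∑ᶠ z : (Σ f : (↥(i.1.1 : Set (Fin n))ᶜ → Idx i.2.1), ∀ j, Str i.2.1 j {a // f a = j}),
      prV i wv we w0 z.1 z.2 =
      ((n - v).factorial : ℝ) * PowerSeries.coeff (n - v) (prU i wv we w0) := by
  classical
  let _ := Fintype.ofFinite i.1.1
  let _ := Fintype.ofFinite i.2.1.edgeSet
  have h := sum_fix (K := i.2.1) hv he h0 (fun _ => True) (fun _ h => absurd trivial h)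
    (fun _ h => absurd trivial h) (fun h => absurd trivial h)
  rw [card_compl' i] at h
  simp only [if_true] at h
  have h2 : prU i wv we w0 = (∏ x : i.1.1, PowerSeries.mk (ew1 (wv x))) *
    ((∏ e : i.2.1.edgeSet, PowerSeries.mk (ew2 (we e))) * PowerSeries.mk (ew0 w0)) := by
    unfold prU
    congr!
  rw [h2, ← h]
  refine finsum_eq_of_bijective (fun z => ⟨z, fun _ => trivial⟩)
    ⟨fun a b hab => congrArg Subtype.val hab, fun z => ⟨z.1, rfl⟩⟩ (fun z => ?_)
  unfold wF prV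
  rfl

theorem UU_le (i : IXK (Fin n) v e) (w : EK i.1.1 i.2.1 → ℝ)
    {wv : i.1.1 → ∀ B : Type, SimpleGraph (Option B) → ℝ}
    {we : i.2.1.edgeSet → ∀ B : Type, SimpleGraph (B ⊕ Bool) → ℝ}
    {w0 : ∀ B : Type, SimpleGraph B → ℝ} (hv : ∀ x, IW1 (wv x)) (he : ∀ e, IW2 (we e))
    (h0 : IW0 w0)
    (h : ∀ (E : EK i.1.1 i.2.1) (f : ↥(i.1.1 : Set (Fin n))ᶜ → Idx i.2.1)
      (s : ∀ j, Str i.2.1 j {a // f a = j}), Fits E.1 i.2.1 f →
      Conn3 E.1 i.2.1 f → IsIx E.1 i.2.1 f → Parts E.1 i.2.1 f s →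
      w E ≤ prV i wv we w0 f s) :
    ∑ᶠ E, w E ≤ ((n - v).factorial : ℝ) * PowerSeries.coeff (n - v) (prU i wv we w0) := by
  rw [← UU_sum i hv he h0]
  obtain ⟨F, hF⟩ := master i.2.1 i.2.2.1 i.2.2.2.1
  have h1 : ∑ᶠ E : EK i.1.1 i.2.1, prV i wv we w0 (F E).1 (F E).2 =
      ∑ᶠ z : (Σ f : (↥(i.1.1 : Set (Fin n))ᶜ → Idx i.2.1), ∀ j, Str i.2.1 j {a // f a = j}),
        prV i wv we w0 z.1 z.2 :=
    finsum_eq_of_bijective F F.bijective (fun E => rfl)
  rw [← h1]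
  exact finsum_le fun E => h E _ _ (hF E).1 (hF E).2.1 (hF E).2.2.1 (hF E).2.2.2

theorem UU_eq (i : IXK (Fin n) v e) (w : EK i.1.1 i.2.1 → ℝ)
    {wv : i.1.1 → ∀ B : Type, SimpleGraph (Option B) → ℝ}
    {we : i.2.1.edgeSet → ∀ B : Type, SimpleGraph (B ⊕ Bool) → ℝ}
    {w0 : ∀ B : Type, SimpleGraph B → ℝ} (hv : ∀ x, IW1 (wv x)) (he : ∀ e, IW2 (we e))
    (h0 : IW0 w0)
    (h : ∀ (E : EK i.1.1 i.2.1) (f : ↥(i.1.1 : Set (Fin n))ᶜ → Idx i.2.1)
      (s : ∀ j, Str i.2.1 j {a // f a = j}), Fits E.1 i.2.1 f →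
      Conn3 E.1 i.2.1 f → IsIx E.1 i.2.1 f → Parts E.1 i.2.1 f s →
      w E = prV i wv we w0 f s) :
    ∑ᶠ E, w E = ((n - v).factorial : ℝ) * PowerSeries.coeff (n - v) (prU i wv we w0) := by
  rw [← UU_sum i hv he h0]
  obtain ⟨F, hF⟩ := master i.2.1 i.2.2.1 i.2.2.2.1
  refine finsum_eq_of_bijective F F.bijective (fun E => ?_)
  exact h E _ _ (hF E).1 (hF E).2.1 (hF E).2.2.1 (hF E).2.2.2

/-- all families over the index -/
abbrev ZU (i : IXK (Fin n) v e) :=
  Σ f : (↥(i.1.1 : Set (Fin n))ᶜ → Idx i.2.1), ∀ j, Str i.2.1 j {a // f a = j}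

theorem UU_le' (i : IXK (Fin n) v e) (w : EK i.1.1 i.2.1 → ℝ) (g : ZU i → ℝ)
    (h : ∀ (E : EK i.1.1 i.2.1) (z : ZU i), Fits E.1 i.2.1 z.1 →
      Conn3 E.1 i.2.1 z.1 → IsIx E.1 i.2.1 z.1 → Parts E.1 i.2.1 z.1 z.2 → w E ≤ g z) :
    ∑ᶠ E, w E ≤ ∑ᶠ z, g z := by
  obtain ⟨F, hF⟩ := master i.2.1 i.2.2.1 i.2.2.2.1
  have h1 : ∑ᶠ E : EK i.1.1 i.2.1, g (F E) = ∑ᶠ z : ZU i, g z :=
    finsum_eq_of_bijective F F.bijective (fun E => rfl)
  rw [← h1]
  exact finsum_le fun E => h E _ (hF E).1 (hF E).2.1 (hF E).2.2.1 (hF E).2.2.2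

instance (i : IXK (Fin n) v e) : Finite (ZU i) := by
  obtain ⟨F, -⟩ := master i.2.1 i.2.2.1 i.2.2.2.1
  exact Finite.of_equiv _ F

/-- two kinds of vertex weights and two kinds of edge weights -/
theorem prU_two (i : IXK (Fin n) v e) (S : i.1.1 → Prop) (T : i.2.1.edgeSet → Prop)
    [DecidablePred S] [DecidablePred T] (wv wv' : ∀ B : Type, SimpleGraph (Option B) → ℝ)
    (we we' : ∀ B : Type, SimpleGraph (B ⊕ Bool) → ℝ) (w0 : ∀ B : Type, SimpleGraph B → ℝ) :
    prU i (fun x => if S x then wv' else wv) (fun y => if T y then we' else we) w0 =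
      (PowerSeries.mk (ew1 wv') ^ Nat.card {x // S x} *
        PowerSeries.mk (ew1 wv) ^ (v - Nat.card {x // S x})) *
      ((PowerSeries.mk (ew2 we') ^ Nat.card {x // T x} *
        PowerSeries.mk (ew2 we) ^ (e - Nat.card {x // T x})) * PowerSeries.mk (ew0 w0)) := by
  classical
  let _ := Fintype.ofFinite i.1.1
  let _ := Fintype.ofFinite i.2.1.edgeSet
  unfold prU
  have h1 : ∏ x : i.1.1, PowerSeries.mk (ew1 (if S x then wv' else wv)) =
      PowerSeries.mk (ew1 wv') ^ Nat.card {x // S x} *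
        PowerSeries.mk (ew1 wv) ^ (v - Nat.card {x // S x}) := by
    have h := prod_two (fun _ : i.1.1 => True) S (fun _ _ => trivial)
      (PowerSeries.mk (ew1 wv')) (PowerSeries.mk (ew1 wv))
    simp only [if_true] at h
    have h2 : Nat.card {x : i.1.1 // True} = v :=
      (Nat.card_congr (Equiv.subtypeUnivEquiv fun _ => trivial)).trans i.1.2
    rw [h2] at h
    rw [← h]
    refine Finset.prod_congr rfl fun x _ => ?_
    split_ifs <;> rfl
  have h3 : ∏ x : i.2.1.edgeSet, PowerSeries.mk (ew2 (if T x then we' else we)) =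
      PowerSeries.mk (ew2 we') ^ Nat.card {x // T x} *
        PowerSeries.mk (ew2 we) ^ (e - Nat.card {x // T x}) := by
    have h := prod_two (fun _ : i.2.1.edgeSet => True) T (fun _ _ => trivial)
      (PowerSeries.mk (ew2 we')) (PowerSeries.mk (ew2 we))
    simp only [if_true] at h
    have h2 : Nat.card {x : i.2.1.edgeSet // True} = e :=
      (Nat.card_congr (Equiv.subtypeUnivEquiv fun _ => trivial)).trans i.2.2.2.2
    rw [h2] at h
    rw [← h]
    refine Finset.prod_congr rfl fun x _ => ?_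
    split_ifs <;> rfl
  rw [h1, h3]

end UU

end Dia
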