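import Pool.Agent.PGc.PlPlanar
import Pool.Agent.PGc.PlGlue
import Pool.Agent.PGr.HookGood

/-!
# Minors of planar graphs are planar

* `Pl_contr`: contraction of an edge (the edge becomes an empty loop) preserves `Pl`;
* `PM_merge`: multiplication by a transposition merges two cycles;
* `PM_max`: contraction of all edges inside the classes of a partition;
* `planar_of_darts`: a graph is planar if its darts are embedded in a planar map;
* `planar_minor`: minors of planar graphs are planar.
-/

set_option linter.unusedSectionVars false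
set_option autoImplicit false

namespace Dia
open PGr Equiv Finset

section perm
variable {T : Type*} [Fintype T] [DecidableEq T]

/-- two different cycles are merged by a transposition -/
theorem PM_merge {s : Perm T} {x y : T} (h : ¬ s.SameCycle x y) :
    (s * swap x y).SameCycle x y := by
  by_contra hcon
  set s' : Perm T := s * swap x y with hs'
  have h1 : s' x = s y := by rw [hs', Perm.mul_apply, swap_apply_left]
  have h3 : ∀ t, t ≠ x → t ≠ y → s' t = s t := by
    intro t ht ht'
    rw [hs', Perm.mul_apply, swap_apply_of_ne_of_ne ht ht']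
  have hone : ∀ (σ : Perm T) (t : T), σ.SameCycle t (σ t) := fun σ t => ⟨1, by simp⟩
  have key : ∀ k : ℕ, s'.SameCycle x ((s ^ (k + 1)) y) := by
    intro k
    induction k with
    | zero =>
      have := hone s' x
      rw [h1] at this
      simpa using this
    | succ k ih =>
      have e1 : s' ((s ^ (k + 1)) y) = s ((s ^ (k + 1)) y) := by
        refine h3 _ ?_ ?_
        · intro e
          exact h (Perm.SameCycle.symm ⟨((k + 1 : ℕ) : ℤ), by rw [zpow_natCast]; exact e⟩)
        · intro e
          rw [e] at ih
          exact hcon ih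
      have e2 := ih.trans (hone s' _)
      rw [e1] at e2
      rw [pow_succ' s (k + 1), Perm.mul_apply]
      exact e2
  have h4 := key (orderOf s - 1)
  have h5 : orderOf s - 1 + 1 = orderOf s := Nat.succ_pred_eq_of_pos (orderOf_pos s)
  rw [h5, pow_orderOf_eq_one] at h4
  exact hcon h4

theorem PM_merge_sub {s : Perm T} {x y : T} (h : ¬ s.SameCycle x y) {t t' : T}
    (ht : s.SameCycle t t') : (s * swap x y).SameCycle t t' := by
  have hxy := PM_merge h
  set s' : Perm T := s * swap x y with hs'
  have h1 : s' x = s y := by rw [hs', Perm.mul_apply, swap_apply_left]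
  have h2 : s' y = s x := by rw [hs', Perm.mul_apply, swap_apply_right]
  have h3 : ∀ t, t ≠ x → t ≠ y → s' t = s t := by
    intro t ht ht'
    rw [hs', Perm.mul_apply, swap_apply_of_ne_of_ne ht ht']
  have hone : ∀ (σ : Perm T) (t : T), σ.SameCycle t (σ t) := fun σ t => ⟨1, by simp⟩
  have hstep : ∀ t, s'.SameCycle t (s t) := by
    intro t
    by_cases h4 : t = x
    · subst h4
      have := hxy.trans (hone s' y)
      rwa [h2] at this
    · by_cases h5 : t = y
      · subst h5
        have := hxy.symm.trans (hone s' x)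
        rwa [h1] at this
      · have := hone s' t
        rwa [h3 t h4 h5] at this
  have := PlGlue_inv (s := s) (f := fun x => (Quotient.mk (Perm.SameCycle.setoid s') x))
    (fun x => Quotient.sound (hstep x).symm) ht
  exact Quotient.exact this

/-- contraction of the edge of `d`: its darts become an empty loop -/
theorem Pl_contr {a s : Perm T} (hinv : ∀ t, a (a t) = t) (h : Pl a s) (d : T) (hd : a d ≠ d) :
    Pl a (s * swap d (s⁻¹ (a d))) := by
  by_cases hdt : d = s⁻¹ (a d)
  · rw [← hdt, swap_self]
    exact h
  intro p q hpq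
  set t' : T := s⁻¹ (a d) with ht'
  have hst : s t' = a d := s.apply_symm_apply _
  set s' : Perm T := s * swap d t' with hs'
  have e1 : s' d = a d := by rw [hs', Perm.mul_apply, swap_apply_left, hst]
  have e2 : s' t' = s d := by rw [hs', Perm.mul_apply, swap_apply_right]
  have e3 : ∀ t, t ≠ d → t ≠ t' → s' t = s t := by
    intro t h1 h2
    rw [hs', Perm.mul_apply, swap_apply_of_ne_of_ne h1 h2]
  have hpd : p d = p (a d) := by
    have := hpq d
    rw [e1] at this
    exact add_right_cancel this
  set δ : ZMod 2 := p (s d) + q (s d) + p d + q (a d) with hδ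
  let q' : T → ZMod 2 := fun t => if t = a d then q t + δ else q t
  have q1 : q' (a d) = q (a d) + δ := if_pos rfl
  have q2 : ∀ t, t ≠ a d → q' t = q t := fun t ht => if_neg ht
  have hsd : s d ≠ a d := by
    intro e
    exact hdt (by rw [ht', ← e]; exact (s.symm_apply_apply d).symm)
  obtain ⟨g, g1, g2⟩ := h p q' (by
    intro t
    by_cases h1 : t = d
    · subst h1
      rw [q1, q2 _ hsd, hδ]
      have e4 := PlGlue_self (q (a t))
      have e5 := PlGlue_self (p t)
      linear_combination e4 + e5
    · by_cases h2 : t = t'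
      · subst h2
        have h3 : a t' ≠ a d := fun e => h1 (a.injective e)
        have e4 := hpq t'
        rw [e2] at e4
        rw [hst, q1, q2 _ h3, e4, ← hpd, hδ]
        have e5 := PlGlue_self (q (a d))
        have e6 := PlGlue_self (p d)
        linear_combination (-1 : ZMod 2) * e5 - e6
      · have h3 : a t ≠ a d := fun e => h1 (a.injective e)
        have h4 : s t ≠ a d := fun e => h2 (by rw [ht', ← e]; exact (s.symm_apply_apply t).symm)
        rw [q2 _ h3, q2 _ h4]
        have := hpq t
        rwa [e3 t h1 h2] at this)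
  refine ⟨g, g1, ?_⟩
  intro t
  by_cases h1 : t = d
  · subst h1
    rw [e1, g1, ← hpd, PlGlue_self, PlGlue_self]
  · by_cases h2 : t = t'
    · rw [h2, e2]
      have e4 := g2 t'
      have e5 := g2 d
      rw [hst, g1, ← hpd] at e4
      have e6 := PlGlue_self (g d)
      have e7 := PlGlue_self (p d)
      linear_combination e4 + e5 - e6 + e7
    · rw [e3 t h1 h2]
      exact g2 t

/-- contraction of all edges inside the classes of `K` -/
theorem PM_max {X : Type*} {a s : Perm T} (hinv : ∀ t, a (a t) = t) (hfpf : ∀ t, a t ≠ t)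
    (h : Pl a s) (K : T → X) (hK : ∀ t, K (s t) = K t) :
    ∃ s' : Perm T, Pl a s' ∧ (∀ t, K (s' t) = K t) ∧
      (∀ t t', s.SameCycle t t' → s'.SameCycle t t') ∧
      ∀ d, K (a d) = K d → s'.SameCycle d (a d) := by
  classical
  let A : Finset (Perm T) := univ.filter fun σ => Pl a σ ∧ (∀ t, K (σ t) = K t) ∧
    (∀ t t', s.SameCycle t t' → σ.SameCycle t t')
  let m : Perm T → ℕ := fun σ => (univ.filter fun x : T × T => σ.SameCycle x.1 x.2).card
  have hA : A.Nonempty := ⟨s, mem_filter.2 ⟨mem_univ _, h, hK, fun _ _ e => e⟩⟩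
  obtain ⟨σ, hσ, hmax⟩ := Finset.exists_max_image A m hA
  obtain ⟨-, h1, h2, h3⟩ := mem_filter.1 hσ
  refine ⟨σ, h1, h2, h3, fun d hd => ?_⟩
  by_contra hcon
  set t' : T := σ⁻¹ (a d) with ht'
  have hst : σ t' = a d := σ.apply_symm_apply _
  have hcon' : ¬ σ.SameCycle d t' := by
    intro e
    refine hcon (e.trans ⟨1, ?_⟩)
    rw [zpow_one, hst]
  set σ' : Perm T := σ * swap d t' with hσ'
  have e1 : σ' d = a d := by rw [hσ', Perm.mul_apply, swap_apply_left, hst]
  have e2 : σ' t' = σ d := by rw [hσ', Perm.mul_apply, swap_apply_right]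
  have e3 : ∀ t, t ≠ d → t ≠ t' → σ' t = σ t := by
    intro t h1 h2
    rw [hσ', Perm.mul_apply, swap_apply_of_ne_of_ne h1 h2]
  have hmem : σ' ∈ A := by
    refine mem_filter.2 ⟨mem_univ _, Pl_contr hinv h1 d (hfpf d), ?_, fun t u htu =>
      PM_merge_sub hcon' (h3 t u htu)⟩
    intro t
    by_cases g1 : t = d
    · rw [g1, e1, hd]
    · by_cases g2 : t = t'
      · rw [g2, e2, h2]
        have := h2 t'
        rw [hst, hd] at this
        exact this
      · rw [e3 t g1 g2, h2]
  have hlt : m σ < m σ' := by
    refine Finset.card_lt_card ⟨?_, ?_⟩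
    · intro x hx
      rw [mem_filter] at hx ⊢
      exact ⟨mem_univ _, PM_merge_sub hcon' hx.2⟩
    · intro hsub
      have hx : (d, a d) ∈ univ.filter fun x : T × T => σ'.SameCycle x.1 x.2 := by
        rw [mem_filter]
        refine ⟨mem_univ _, ⟨1, ?_⟩⟩
        rw [zpow_one]
        exact e1
      exact hcon (mem_filter.1 (hsub hx)).2
  exact absurd (hmax σ' hmem) (not_le.2 hlt)

end perm

/-! ### graphs -/

/-- a graph is planar if its darts are embedded in a planar map -/
theorem planar_of_darts {T X : Type*} [Fintype T] [DecidableEq T] {a s : Perm T}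
    (hinv : ∀ t, a (a t) = t) (hpl : Pl a s) (K : T → X)
    (hK : ∀ t t', s.SameCycle t t' ↔ K t = K t') {W : Type} [Finite W] {H : SimpleGraph W}
    (φ : H.Dart → T) (hφ : Function.Injective φ) (hsym : ∀ d, φ (dsymm H d) = a (φ d))
    (hfst : ∀ d d' : H.Dart, K (φ d) = K (φ d') ↔ d.fst = d'.fst) : IsPlanar H := by
  classical
  let _ : Fintype W := Fintype.ofFinite W
  let S : Finset T := univ.image φ
  have hmem : ∀ d, φ d ∈ S := fun d => mem_image.2 ⟨d, mem_univ _, rfl⟩
  have hS : Cl a S := by
    intro t
    constructor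
    · intro ht
      obtain ⟨d, -, hd⟩ := mem_image.1 ht
      have : t = φ (dsymm H d) := by rw [hsym, hd, hinv]
      rw [this]
      exact hmem _
    · intro ht
      obtain ⟨d, -, hd⟩ := mem_image.1 ht
      rw [← hd, ← hsym]
      exact hmem _
  let e : H.Dart ≃ {x // x ∈ S} := Equiv.ofBijective (fun d => ⟨φ d, hmem d⟩) (by
    constructor
    · intro d d' hd
      exact hφ (congrArg Subtype.val hd)
    · rintro ⟨t, ht⟩
      obtain ⟨d, -, hd⟩ := mem_image.1 ht
      exact ⟨d, Subtype.ext hd⟩)
  have he : ∀ d, (e d).1 = φ d := fun d => rfl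
  obtain ⟨s', h1, h2⟩ := HookGood.planar hinv (inc := K) ⟨s, hK, hpl⟩ S hS e.symm (a' := dsymm H) (by
    intro x y hxy
    obtain ⟨d, rfl⟩ := e.surjective x
    rw [Equiv.symm_apply_apply, Equiv.symm_apply_eq]
    apply Subtype.ext
    rw [hxy, he, he, hsym])
  refine pl_planar ⟨s', fun d d' => ?_, h2⟩
  rw [h1, Equiv.symm_symm, he, he, hfst]

/-- **minors of planar graphs are planar**: `f x = some u` means that `x` is in the branch set of `u` -/
theorem planar_minor {V W : Type} [Finite V] [Finite W] {G : SimpleGraph V} (hG : IsPlanar G)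
    {H : SimpleGraph W} (f : V → Option W)
    (hf : ∀ (w : W) (x y : {x : V // f x = some w}), (G.induce {x : V | f x = some w}).Reachable x y)
    (hH : ∀ u v, H.Adj u v → ∃ x y, f x = some u ∧ f y = some v ∧ G.Adj x y) : IsPlanar H := by
  classical
  let _ : Fintype V := Fintype.ofFinite V
  let _ : Fintype W := Fintype.ofFinite W
  obtain ⟨s, hs, hp⟩ := planar_pl hG
  let key : V → V ⊕ W := fun x => match f x with
    | none => Sum.inl x
    | some w => Sum.inr w
  have key1 : ∀ x, f x = none → key x = Sum.inl x := by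
    intro x hx
    simp only [key, hx]
  have key2 : ∀ x w, f x = some w → key x = Sum.inr w := by
    intro x w hx
    simp only [key, hx]
  have hone : ∀ (σ : Perm G.Dart) (t : G.Dart), σ.SameCycle t (σ t) := fun σ t => ⟨1, by simp⟩
  obtain ⟨s', h1, h2, h3, h4⟩ := PM_max (PlanarPl_inv G) (PlanarPl_fpf G) hp
    (fun d => key d.fst) (fun t => by
      have : (s t).fst = t.fst := (hs _ _).1 (hone s t).symm
      simp only [this])
  -- cycles of s'
  have hcyc : ∀ t t' : G.Dart, s'.SameCycle t t' ↔ key t.fst = key t'.fst := by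
    intro t t'
    constructor
    · intro h
      exact PlGlue_inv (f := fun d : G.Dart => key d.fst) h2 h
    · intro h
      cases hx : f t.fst with
      | none =>
        rw [key1 _ hx] at h
        cases hy : f t'.fst with
        | none =>
          rw [key1 _ hy] at h
          exact h3 _ _ ((hs _ _).2 (Sum.inl.inj h))
        | some w' =>
          rw [key2 _ _ hy] at h
          exact absurd h (by simp)
      | some w =>
        rw [key2 _ _ hx] at h
        cases hy : f t'.fst with
        | none =>
          rw [key1 _ hy] at h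
          exact absurd h (by simp)
        | some w' =>
          rw [key2 _ _ hy] at h
          have hww : w = w' := Sum.inr.inj h
          subst hww
          have hwalk : ∀ (x y : {x : V // f x = some w})
              (p : (G.induce {x : V | f x = some w}).Walk x y) (t t' : G.Dart),
              t.fst = x.1 → t'.fst = y.1 → s'.SameCycle t t' := by
            intro x y p
            induction p with
            | nil => exact fun t t' e e' => h3 _ _ ((hs _ _).2 (e.trans e'.symm))
            | @cons x z y hadj p ih =>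
              intro t t' e e'
              have hxz : G.Adj x.1 z.1 := hadj
              let d : G.Dart := ⟨(x.1, z.1), hxz⟩
              have hd1 : s'.SameCycle t d := h3 _ _ ((hs _ _).2 e)
              have hd2 : s'.SameCycle d (dsymm G d) := by
                refine h4 d ?_
                show key z.1 = key x.1
                rw [key2 _ _ z.2, key2 _ _ x.2]
              exact (hd1.trans hd2).trans (ih _ _ rfl e')
          obtain ⟨p⟩ := hf w ⟨t.fst, hx⟩ ⟨t'.fst, hy⟩
          exact hwalk _ _ p t t' rfl rfl
  -- lift of the darts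
  have hlift : ∀ d : H.Dart, ∃ t : G.Dart, f t.fst = some d.fst ∧ f t.snd = some d.snd := by
    intro d
    obtain ⟨x, y, hx, hy, hxy⟩ := hH _ _ d.adj
    exact ⟨⟨(x, y), hxy⟩, hx, hy⟩
  choose c hc1 hc2 using hlift
  obtain ⟨n, ⟨e⟩⟩ : ∃ n, Nonempty (W ≃ Fin n) := ⟨_, ⟨Finite.equivFin W⟩⟩
  let φ : H.Dart → G.Dart := fun d =>
    if e d.fst < e d.snd then c d else dsymm G (c (dsymm H d))
  have hφ1 : ∀ d, f (φ d).fst = some d.fst := by
    intro d
    simp only [φ]
    split_ifs
    · exact hc1 d
    · exact hc2 (dsymm H d)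
  have hφ2 : ∀ d, f (φ d).snd = some d.snd := by
    intro d
    simp only [φ]
    split_ifs
    · exact hc2 d
    · exact hc1 (dsymm H d)
  refine planar_of_darts (PlanarPl_inv G) h1 (fun d => key d.fst) hcyc φ ?_ ?_ ?_
  · intro d d' h
    have e1 : some d.fst = some d'.fst := by rw [← hφ1, h, hφ1]
    have e2 : some d.snd = some d'.snd := by rw [← hφ2, h, hφ2]
    apply SimpleGraph.Dart.ext
    exact Prod.ext (Option.some.inj e1) (Option.some.inj e2)
  · intro d
    have hne : e d.fst ≠ e d.snd := fun h => d.adj.ne (e.injective h)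
    have e1 : (dsymm H d).fst = d.snd := rfl
    have e2 : (dsymm H d).snd = d.fst := rfl
    have e3 : dsymm H (dsymm H d) = d := PlanarPl_inv H d
    simp only [φ, e1, e2, e3]
    rcases lt_or_gt_of_ne hne with h | h
    · rw [if_neg (not_lt.2 h.le), if_pos h]
    · rw [if_pos h, if_neg (not_lt.2 h.le), PlanarPl_inv]
  · intro d d'
    rw [key2 _ _ (hφ1 d), key2 _ _ (hφ1 d')]
    exact ⟨fun h => Sum.inr.inj h, fun h => by rw [h]⟩

end Dia
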