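import Pool.Agent.Dia.PlanA
import Pool.Agent.Dia.PlMinor

/-!
# Module PlanB: a connected set outside `W` can be replaced by an edge

By `planar_minor`: contract `C j` to `p j`.
-/

set_option linter.unusedSectionVars false

namespace Dia
open PGr

variable {V : Type} [Finite V]

/-- several disjoint connected sets at once -/
theorem planar_shortcuts {G : SimpleGraph V} (hG : IsPlanar G) (W : Set V) {J : Type} [Finite J]
    (C : J → Set V) (hWC : ∀ j, Disjoint W (C j)) (hdis : ∀ i j, i ≠ j → Disjoint (C i) (C j))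
    (p q : J → W) (hpq : ∀ j, p j ≠ q j) (hC : ∀ j, (G.induce (C j)).Connected)
    (hp : ∀ j, ∃ a ∈ C j, G.Adj (p j).1 a) (hq : ∀ j, ∃ a ∈ C j, G.Adj (q j).1 a) :
    IsPlanar (G.induce W ⊔ ⨆ j, SimpleGraph.edge (p j) (q j)) := by
  classical
  let f : V → Option W := fun x => if h : x ∈ W then some ⟨x, h⟩ else
    if h : ∃ j, x ∈ C j then some (p h.choose) else none
  have f1 : ∀ w : W, f w.1 = some w := fun w => dif_pos w.2
  have f2 : ∀ j, ∀ x ∈ C j, f x = some (p j) := by
    intro j x hx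
    have h1 : x ∉ W := fun h => Set.disjoint_left.1 (hWC j) h hx
    have h2 : ∃ j, x ∈ C j := ⟨j, hx⟩
    have h3 : h2.choose = j := by
      by_contra hne
      exact Set.disjoint_left.1 (hdis _ _ hne) h2.choose_spec hx
    have h4 : f x = some (p h2.choose) := by
      simp only [f]
      rw [dif_neg h1, dif_pos h2]
    rw [h4, h3]
  have f3 : ∀ x w, f x = some w → x = w.1 ∨ ∃ j, x ∈ C j ∧ p j = w := by
    intro x w hx
    by_cases h1 : x ∈ W
    · have h2 := f1 ⟨x, h1⟩
      rw [hx] at h2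
      exact Or.inl (congrArg Subtype.val (Option.some.inj h2)).symm
    · by_cases h2 : ∃ j, x ∈ C j
      · obtain ⟨j, hj⟩ := h2
        have h3 := f2 j x hj
        rw [hx] at h3
        exact Or.inr ⟨j, hj, (Option.some.inj h3).symm⟩
      · have h3 : f x = none := by
          simp only [f]
          rw [dif_neg h1, dif_neg h2]
        rw [hx] at h3
        exact absurd h3 (by simp)
  have hreach : ∀ (w : W) (x : {x : V // f x = some w}),
      (G.induce {x : V | f x = some w}).Reachable x ⟨w.1, f1 w⟩ := by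
    rintro w ⟨x, hx⟩
    rcases f3 x w hx with h | ⟨j, hj, hjw⟩
    · have : (⟨x, hx⟩ : {x : V // f x = some w}) = ⟨w.1, f1 w⟩ := Subtype.ext h
      rw [this]
    · obtain ⟨b, hb, hadj⟩ := hp j
      let g : G.induce (C j) →g G.induce {x : V | f x = some w} :=
        { toFun := fun y => ⟨y.1, by rw [Set.mem_ofPred_eq, f2 j y.1 y.2, hjw]⟩
          map_rel' := fun h => h }
      have h1 : (G.induce {x : V | f x = some w}).Reachable ⟨x, hx⟩ ⟨b, by
          rw [Set.mem_ofPred_eq, f2 j b hb, hjw]⟩ :=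
        ((hC j).preconnected ⟨x, hj⟩ ⟨b, hb⟩).map g
      refine h1.trans (SimpleGraph.Adj.reachable ?_)
      show G.Adj b w.1
      rw [← hjw]
      exact hadj.symm
  refine planar_minor hG f (fun w x y => (hreach w x).trans (hreach w y).symm) ?_
  intro u v huv
  rw [SimpleGraph.sup_adj, SimpleGraph.iSup_adj] at huv
  rcases huv with h | ⟨j, h⟩
  · exact ⟨u.1, v.1, f1 u, f1 v, h⟩
  · rw [SimpleGraph.edge_adj] at h
    obtain ⟨b, hb, hadj⟩ := hq j
    rcases h.1 with ⟨rfl, rfl⟩ | ⟨rfl, rfl⟩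
    · exact ⟨b, (q j).1, f2 j b hb, f1 _, hadj.symm⟩
    · exact ⟨(q j).1, b, f1 _, f2 j b hb, hadj⟩

/-- `C` is a connected set outside `W` adjacent to `p` and `q` in `W` -/
theorem planar_shortcut {G : SimpleGraph V} (hG : IsPlanar G) (W C : Set V) (hWC : Disjoint W C)
    (p q : W) (hpq : p ≠ q) (hC : (G.induce C).Connected) (hp : ∃ a ∈ C, G.Adj p.1 a)
    (hq : ∃ a ∈ C, G.Adj q.1 a) : IsPlanar (G.induce W ⊔ SimpleGraph.edge p q) := by
  have h := planar_shortcuts hG W (J := Unit) (fun _ => C) (fun _ => hWC)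
    (fun i j hij => absurd (Subsingleton.elim i j) hij) (fun _ => p) (fun _ => q) (fun _ => hpq)
    (fun _ => hC) (fun _ => hp) (fun _ => hq)
  rwa [iSup_const] at h

end Dia
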