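import Pool.Agent.Dia.MDefs
import Pool.Agent.Dia.PlanB

/-!
# Module MEuler: planar graphs have at most `3 |V|` edges; the torso is planar

`edge_bound`.  Let `s` be as in `IsPlanar`, `φ = dsymm G * s`, i.e. `φ d = (s d).symm`; `s d` starts at the same vertex
as `d` (`s.SameCycle d (s d)`).
(a) `φ d ≠ d`: otherwise `s d = d.symm` starts at `d.snd ≠ d.fst`.
(b) if `φ (φ d) = d` then with `d' = φ d`: `s d = d'.symm`, `s d' = d.symm`, so `d'.snd = d.fst`, `d'.fst = d.snd`, so
`d' = d.symm`, `s d = d` and `s d.symm = d.symm`: `d` is the only dart at its first vertex and `d.symm` the only one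
at its first vertex: the component of `d` consists of this edge.
So all cycles of `φ` have at least two elements; those with exactly two elements are of the form
`{d, d.symm}`, and different ones are in different components.  Let `c2` be their number, `c` the number of
components with an edge, `c2 ≤ c`.  The number `2 |E|` of darts is the sum of the sizes of the cycles of `φ`, so
`2 |E| ≥ 3 nCyc φ - c2 ≥ 3 nCyc φ - c`.  With `nCyc s + nCyc φ = |E| + 2 c`:
`2 |E| ≥ 3 |E| + 6 c - 3 nCyc s - c`, i.e. `|E| ≤ 3 nCyc s - 5 c ≤ 3 nCyc s`, and `nCyc s ≤ |V|`: the map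
cycle ↦ first vertex is injective.

`torso_planar`: `planar_shortcuts` with `W = X`, `J` = set of the components `C` of `V \ X` such that
`att E X C = {x, y}` for some `x ≠ y` (choose them), `C j` = the set of the vertices of the component (connected
in `E`); the components are pairwise disjoint.  The graph obtained is `torso E X`.
-/

set_option linter.unusedSectionVars false

namespace Dia
open PGr

variable {V : Type} [Finite V] {E : SimpleGraph V}

/-- the structure of the cycles of length two -/
private theorem MEuler_two {s : Equiv.Perm E.Dart}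
    (hs : ∀ d d', s.SameCycle d d' ↔ d.fst = d'.fst) {d : E.Dart}
    (h : (dsymm E * s) ((dsymm E * s) d) = d) :
    (dsymm E * s) d = d.symm ∧ s d = d ∧ s d.symm = d.symm := by
  have hφ : ∀ d, (dsymm E * s) d = (s d).symm := fun _ => rfl
  have hf : ∀ d, (s d).fst = d.fst := fun d =>
    ((hs d (s d)).1 (Equiv.Perm.sameCycle_apply_right.2 (Equiv.Perm.SameCycle.refl _ _))).symm
  rw [hφ, hφ] at h
  have h1 : (s d).symm = d.symm := by
    -- s (s d).symm = d.symm
    have h2 : s (s d).symm = d.symm := by
      have h2' := congrArg SimpleGraph.Dart.symm h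
      rwa [SimpleGraph.Dart.symm_symm] at h2'
    have h3 := hf (s d).symm
    rw [h2] at h3
    -- d.snd = (s d).snd
    apply SimpleGraph.Dart.ext
    apply Prod.ext
    · exact h3.symm
    · exact hf d
  have h4 : s d = d := SimpleGraph.Dart.symm_involutive.injective h1
  refine ⟨by rw [hφ, h4], h4, ?_⟩
  rw [h4] at h
  have h5 := congrArg SimpleGraph.Dart.symm h
  rwa [SimpleGraph.Dart.symm_symm] at h5

/-- the component of an isolated edge -/
private theorem MEuler_comp {s : Equiv.Perm E.Dart}
    (hs : ∀ d d', s.SameCycle d d' ↔ d.fst = d'.fst) {d : E.Dart} (h1 : s d = d)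
    (h2 : s d.symm = d.symm) : ∀ (u v : V) (_ : E.Walk u v), (u = d.fst ∨ u = d.snd) →
      (v = d.fst ∨ v = d.snd) := by
  intro u v p
  induction p with
  | nil => exact id
  | @cons u w v hadj p ih =>
    intro hu
    apply ih
    rcases hu with hu | hu
    · have h3 : s.SameCycle d ⟨(u, w), hadj⟩ := (hs _ _).2 hu.symm
      have h4 := h3.eq_of_left h1
      right
      rw [h4]
    · have h3 : s.SameCycle d.symm ⟨(u, w), hadj⟩ := (hs _ _).2 hu.symm
      have h4 := h3.eq_of_left h2
      left
      have h5 := congrArg (fun e : E.Dart => e.snd) h4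
      exact h5.symm

theorem edge_bound (hE : IsPlanar E) : Nat.card E.edgeSet ≤ 3 * Nat.card V := by
  classical
  obtain ⟨s, hs, hcard⟩ := hE
  have hVf : Fintype V := Fintype.ofFinite V
  have hφ : ∀ d, (dsymm E * s) d = (s d).symm := fun _ => rfl
  have hf : ∀ d, (s d).fst = d.fst := fun d =>
    ((hs d (s d)).1 (Equiv.Perm.sameCycle_apply_right.2 (Equiv.Perm.SameCycle.refl _ _))).symm
  have hne : ∀ d, (dsymm E * s) d ≠ d := by
    intro d hd
    rw [hφ] at hd
    have h1 := congrArg (fun e : E.Dart => e.snd) hd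
    have h2 : (s d).fst = d.snd := h1
    rw [hf d] at h2
    exact d.fst_ne_snd h2
  generalize hψ : dsymm E * s = ψ at *
  -- the number of darts
  have hn : Nat.card E.Dart = 2 * Nat.card E.edgeSet := by
    have h := SimpleGraph.dart_card_eq_twice_card_edges (G := E)
    rw [SimpleGraph.edgeFinset_card, ← Nat.card_eq_fintype_card, ← Nat.card_eq_fintype_card] at h
    exact h
  -- cycles of s
  have h1 : nCyc s ≤ Nat.card V := by
    unfold nCyc
    refine Nat.card_le_card_of_injective (fun q : Quotient (Equiv.Perm.SameCycle.setoid s) =>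
      Quotient.lift (fun d : E.Dart => d.fst) (fun a b h => (hs a b).1 h) q) ?_
    intro q q' h
    induction q using Quotient.inductionOn with | _ d =>
    induction q' using Quotient.inductionOn with | _ d' =>
    exact Quotient.sound ((hs d d').2 h)
  -- cycles of ψ
  let Q := Quotient (Equiv.Perm.SameCycle.setoid ψ)
  have hQf : Fintype Q := Fintype.ofFinite _
  let mk : E.Dart → Q := Quotient.mk _
  have hmk : ∀ d, mk (ψ d) = mk d := fun d =>
    Quotient.sound (Equiv.Perm.sameCycle_apply_left.2 (Equiv.Perm.SameCycle.refl _ _))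
  let QA : Finset Q := Finset.univ.filter fun q => ∃ d, ψ (ψ d) = d ∧ mk d = q
  have h2 : 3 * Nat.card Q ≤ Nat.card E.Dart + QA.card := by
    have h3 : Nat.card E.Dart = ∑ q : Q, (Finset.univ.filter fun d => mk d = q).card := by
      rw [Nat.card_eq_fintype_card, ← Finset.card_univ]
      exact Finset.card_eq_sum_card_fiberwise (fun _ _ => Finset.mem_coe.2 (Finset.mem_univ _))
    have h4 : QA.card = ∑ q : Q, if q ∈ QA then 1 else 0 := by
      rw [← Finset.sum_filter, Finset.sum_const, smul_eq_mul, mul_one]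
      congr 1
      ext q
      simp
    rw [h3, h4, ← Finset.sum_add_distrib, Nat.card_eq_fintype_card, ← Finset.card_univ, mul_comm,
      ← smul_eq_mul, ← Finset.sum_const]
    refine Finset.sum_le_sum fun q _ => ?_
    induction q using Quotient.inductionOn with | _ d =>
    have h5 : d ∈ Finset.univ.filter fun d' => mk d' = mk d := by simp
    have h6 : ψ d ∈ Finset.univ.filter fun d' => mk d' = mk d := by
      simp [hmk]
    by_cases hd : (Quotient.mk _ d : Q) ∈ QA
    · rw [if_pos hd]
      have h7 : 1 < (Finset.univ.filter fun d' => mk d' = mk d).card :=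
        Finset.one_lt_card.2 ⟨_, h6, _, h5, hne d⟩
      show 3 ≤ (Finset.univ.filter fun d' => mk d' = mk d).card + 1
      omega
    · rw [if_neg hd]
      have h8 : ψ (ψ d) ≠ d := by
        intro h8
        exact hd (Finset.mem_filter.2 ⟨Finset.mem_univ _, d, h8, rfl⟩)
      have h9 : ψ (ψ d) ∈ Finset.univ.filter fun d' => mk d' = mk d := by
        simp [hmk]
      have h7 : 2 < (Finset.univ.filter fun d' => mk d' = mk d).card :=
        Finset.two_lt_card.2 ⟨_, h9, _, h6, _, h5, hne _, h8, hne d⟩
      show 3 ≤ (Finset.univ.filter fun d' => mk d' = mk d).card + 0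
      omega
  -- components
  have h3 : QA.card ≤
      Nat.card {c : E.ConnectedComponent // ∃ d : E.Dart, E.connectedComponentMk d.fst = c} := by
    have h4 : ∀ q : QA, ∃ d, ψ (ψ d) = d ∧ mk d = q := fun q =>
      (Finset.mem_filter.1 q.2).2
    choose D hD1 hD2 using h4
    have h5 : Nat.card QA ≤
        Nat.card {c : E.ConnectedComponent // ∃ d : E.Dart, E.connectedComponentMk d.fst = c} := by
      refine Nat.card_le_card_of_injective (fun q => ⟨E.connectedComponentMk (D q).fst, D q, rfl⟩) ?_
      intro q q' hqq'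
      have h6 : E.Reachable (D q).fst (D q').fst :=
        SimpleGraph.ConnectedComponent.eq.1 (congrArg Subtype.val hqq')
      obtain ⟨p⟩ := h6
      have h7 := hD1 q
      rw [← hψ] at h7
      obtain ⟨h8, h9, h10⟩ := MEuler_two hs h7
      have h11 := MEuler_comp hs h9 h10 _ _ p (Or.inl rfl)
      have h12 : mk (D q) = mk (D q') := by
        rcases h11 with h11 | h11
        · have h13 : s.SameCycle (D q) (D q') := (hs _ _).2 h11.symm
          rw [h13.eq_of_left h9]
        · have h13 : s.SameCycle (D q).symm (D q') := (hs _ _).2 h11.symm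
          rw [← h13.eq_of_left h10, ← h8, hψ, hmk]
      rw [hD2, hD2] at h12
      exact Subtype.ext h12
    rwa [Nat.card_eq_fintype_card, Fintype.card_coe] at h5
  have h4 : nCyc ψ = Nat.card Q := rfl
  rw [h4] at hcard
  omega

theorem torso_planar (hE : IsPlanar E) (X : Set V)
    (h2 : ∀ C : OutC E X, ∃ x y, att E X C ⊆ {x, y}) : IsPlanar (torso E X) := by
  classical
  let J := {C : OutC E X // ∃ x y, x ≠ y ∧ att E X C = {x, y}}
  choose p q hpq hatt using fun j : J => j.2
  let S : J → Set V := fun j => {v | ∃ h : v ∈ Xᶜ, (E.induce Xᶜ).connectedComponentMk ⟨v, h⟩ = j.1}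
  have hcon : ∀ j : J, (E.induce (S j)).Connected := by
    intro j
    have key : ∀ (u v : ↥Xᶜ) (_ : (E.induce Xᶜ).Walk u v)
        (hu : (E.induce Xᶜ).connectedComponentMk u = j.1)
        (hv : (E.induce Xᶜ).connectedComponentMk v = j.1),
        (E.induce (S j)).Reachable ⟨u.1, u.2, hu⟩ ⟨v.1, v.2, hv⟩ := by
      intro u v p
      induction p with
      | nil => exact fun _ _ => SimpleGraph.Reachable.refl _
      | @cons u w v hadj p ih =>
        intro hu hv
        have hw : (E.induce Xᶜ).connectedComponentMk w = j.1 := by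
          rw [← hu]
          exact SimpleGraph.ConnectedComponent.eq.2 hadj.symm.reachable
        have h1 : (E.induce (S j)).Adj ⟨u.1, u.2, hu⟩ ⟨w.1, w.2, hw⟩ := hadj
        exact h1.reachable.trans (ih hw hv)
    have hpre : (E.induce (S j)).Preconnected := by
      rintro ⟨u, hu, hu'⟩ ⟨v, hv, hv'⟩
      have h3 : (E.induce Xᶜ).Reachable ⟨u, hu⟩ ⟨v, hv⟩ :=
        SimpleGraph.ConnectedComponent.eq.1 (hu'.trans hv'.symm)
      obtain ⟨p⟩ := h3
      exact key _ _ p hu' hv'
    have hne : Nonempty (S j) := by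
      obtain ⟨⟨v, hv⟩, hv'⟩ := j.1.nonempty_supp
      exact ⟨⟨v, hv, hv'⟩⟩
    exact { preconnected := hpre, nonempty := hne }
  have hadj : ∀ (j : J) (x : X), x ∈ att E X j.1 → ∃ a ∈ S j, E.Adj x.1 a := by
    rintro j x ⟨a, ha, hxa⟩
    exact ⟨a.1, ⟨a.2, ha⟩, hxa⟩
  have h3 := planar_shortcuts hE X S (fun j => by
      rw [Set.disjoint_left]
      rintro v hv ⟨hv', -⟩
      exact hv' hv) (fun i j hij => by
      rw [Set.disjoint_left]
      rintro v ⟨hv, hv1⟩ ⟨hv', hv2⟩
      exact hij (Subtype.ext (hv1.symm.trans hv2))) p q hpq hcon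
      (fun j => hadj j (p j) (by rw [hatt]; simp)) (fun j => hadj j (q j) (by rw [hatt]; simp))
  have h4 : E.induce X ⊔ ⨆ j, SimpleGraph.edge (p j) (q j) = torso E X := by
    ext x y
    rw [SimpleGraph.sup_adj, SimpleGraph.iSup_adj]
    constructor
    · rintro (h5 | ⟨j, hj⟩)
      · exact ⟨h5.ne, Or.inl h5⟩
      · rw [SimpleGraph.edge_adj] at hj
        obtain ⟨(⟨rfl, rfl⟩ | ⟨rfl, rfl⟩), hne⟩ := hj
        · exact ⟨hne, Or.inr ⟨j.1, hatt j⟩⟩
        · exact ⟨hne, Or.inr ⟨j.1, by rw [hatt j, Set.pair_comm]⟩⟩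
    · rintro ⟨hne, h5 | ⟨C, hC⟩⟩
      · exact Or.inl h5
      · right
        refine ⟨⟨C, x, y, hne, hC⟩, ?_⟩
        rw [SimpleGraph.edge_adj]
        refine ⟨?_, hne⟩
        have h6 := hatt ⟨C, x, y, hne, hC⟩
        have h7 := hpq ⟨C, x, y, hne, hC⟩
        have h8 : ({x, y} : Set X) = {p ⟨C, x, y, hne, hC⟩, q ⟨C, x, y, hne, hC⟩} :=
          hC.symm.trans h6
        rcases Set.pair_eq_pair_iff.1 h8 with ⟨h9, h10⟩ | ⟨h9, h10⟩
        · exact Or.inl ⟨h9, h10⟩
        · exact Or.inr ⟨h9, h10⟩
  rwa [h4] at h3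

end Dia
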