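import Pool.Agent.Dia.MUniq
import Pool.Agent.Dia.MEuler

/-!
# Module MCount: a planar graph has at most `6 |V| / m` core sets with at least `m` edges

`n = |V|`, `72 n ≤ m ^ 2`.  Every core set `X` with `coreE E X ≥ m` has `3 |X| ≥ m` (`torso_planar`, `edge_bound`
for the graph `torso E X` on `X`).  Let `N` be the number of these sets and suppose `m N > 6 n`.  Then `m > 0`.  Let
`k = 6 n / m + 1` (floor), so `k ≤ N`, `k m > 6 n`, `(k - 1) m ≤ 6 n`.  Choose `k` different sets `X_1 .. X_k`.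
`n ≥ |X_1 ∪ .. ∪ X_k| ≥ sum_i (|X_i| - sum_(j < i) |X_i ∩ X_j|) ≥ sum_i (|X_i| - 2 (i - 1)) = sum |X_i| - k (k - 1)` by
`core_inter`.  (Induction over finite sets of core sets:
`|∪ T| + |T| (|T| - 1) ≥ sum_(X in T) |X|`.)
So `3 n + 3 k (k - 1) ≥ k m`.  From `(k - 1) m ≤ 6 n` and `72 n ≤ m ^ 2`: `72 (k - 1) m ≤ 6 * 72 n ≤ 6 m ^ 2`, so
`12 (k - 1) ≤ m`; then `12 n + 12 k (k - 1) ≤ 12 n + k m`, hence `4 k m ≤ 12 n + 12 k (k - 1) ≤ 12 n + k m`,
`3 k m ≤ 12 n`, `k m ≤ 4 n ≤ 6 n`: contradiction.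
-/

set_option linter.unusedSectionVars false

namespace Dia
open PGr

variable {V : Type} [Finite V] {E : SimpleGraph V}

theorem core_size (hE : IsPlanar E) {X : Set V} (hX : IsCore E X) : coreE E X ≤ 3 * X.ncard := by
  have h := edge_bound (torso_planar hE X hX.att2)
  rw [Nat.card_coe_set_eq] at h
  exact h

private theorem MCount_inter (a : Set V) (T : Finset (Set V))
    (h : ∀ X ∈ T, (a ∩ X).ncard ≤ 2) : (a ∩ ⋃ X ∈ T, X).ncard ≤ 2 * T.card := by
  classical
  induction T using Finset.induction_on with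
  | empty => simp
  | insert b T hb ih =>
    rw [Finset.set_biUnion_insert, Set.inter_union_distrib_left, Finset.card_insert_of_notMem hb]
    have h1 := Set.ncard_union_le (a ∩ b) (a ∩ ⋃ X ∈ T, X)
    have h2 := h b (Finset.mem_insert_self _ _)
    have h3 := ih fun X hX => h X (Finset.mem_insert_of_mem hX)
    omega

private theorem MCount_union (T : Finset (Set V)) (h : ∀ X ∈ T, IsCore E X) :
    ∑ X ∈ T, X.ncard + T.card ≤ (⋃ X ∈ T, X).ncard + T.card ^ 2 := by
  classical
  induction T using Finset.induction_on with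
  | empty => simp
  | insert b T hb ih =>
    rw [Finset.set_biUnion_insert, Finset.sum_insert hb, Finset.card_insert_of_notMem hb]
    have h1 := Set.ncard_union_add_ncard_inter b (⋃ X ∈ T, X)
    have h2 : (b ∩ ⋃ X ∈ T, X).ncard ≤ 2 * T.card := by
      refine MCount_inter b T fun X hX => ?_
      refine core_inter (h b (Finset.mem_insert_self _ _)) (h X (Finset.mem_insert_of_mem hX)) ?_
      rintro rfl
      exact hb hX
    have h3 := ih fun X hX => h X (Finset.mem_insert_of_mem hX)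
    have h4 : (T.card + 1) ^ 2 = T.card ^ 2 + 2 * T.card + 1 := by ring
    rw [h4]
    omega

theorem core_count (hE : IsPlanar E) (m : ℕ) (hm : 72 * Nat.card V ≤ m ^ 2) :
    m * Nat.card {X : Set V // IsCore E X ∧ m ≤ coreE E X} ≤ 6 * Nat.card V := by
  classical
  by_contra hcon
  rw [not_le] at hcon
  have hfin : ({X : Set V | IsCore E X ∧ m ≤ coreE E X}).Finite := Set.toFinite _
  have hN : Nat.card {X : Set V // IsCore E X ∧ m ≤ coreE E X} = hfin.toFinset.card := by
    rw [← Set.ncard_eq_toFinset_card _ hfin]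
    rfl
  rw [hN] at hcon
  have hm0 : 0 < m := by
    rcases Nat.eq_zero_or_pos m with h | h
    · exfalso
      have h0 : m * hfin.toFinset.card = 0 := Nat.mul_eq_zero.2 (Or.inl h)
      omega
    · exact h
  obtain ⟨n, hn⟩ : ∃ n, n = Nat.card V := ⟨_, rfl⟩
  rw [← hn] at hcon hm
  obtain ⟨k, hk⟩ : ∃ k, k = 6 * n / m := ⟨_, rfl⟩
  have hk1 : k * m ≤ 6 * n := by
    rw [hk]
    exact Nat.div_mul_le_self _ _
  have hk2 : 6 * n < (k + 1) * m := by
    rw [hk, Nat.mul_comm (6 * n / m + 1) m]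
    exact Nat.lt_mul_div_succ _ hm0
  have hk3 : k + 1 ≤ hfin.toFinset.card := by
    rw [hk]
    exact Nat.div_lt_of_lt_mul hcon
  obtain ⟨T, hT1, hT2⟩ := Finset.exists_subset_card_eq hk3
  have hT3 : ∀ X ∈ T, IsCore E X ∧ m ≤ coreE E X := by
    intro X hX
    exact (Set.Finite.mem_toFinset hfin).1 (hT1 hX)
  have h1 := MCount_union T fun X hX => (hT3 X hX).1
  have h2 : (⋃ X ∈ T, X).ncard ≤ n := by
    rw [hn]
    exact Set.ncard_le_card _
  have h3 : T.card * m ≤ 3 * ∑ X ∈ T, X.ncard := by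
    rw [Finset.mul_sum, ← smul_eq_mul]
    exact Finset.card_nsmul_le_sum T _ m fun X hX =>
      (hT3 X hX).2.trans (core_size hE (hT3 X hX).1)
  rw [hT2] at h1 h3
  have h4 : 12 * k ≤ m := by
    by_contra h5
    rw [not_le] at h5
    have h6 : m * m < 12 * k * m := Nat.mul_lt_mul_of_pos_right h5 hm0
    nlinarith
  have h5 : 12 * k * (k + 1) ≤ m * (k + 1) := Nat.mul_le_mul_right _ h4
  nlinarith

end Dia
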