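import Pool.Agent.Dia.MThree

/-!
# Module MDist: distances in the torso, in the whole graph and in the parts

`core_reach`: `torso E X` is connected (`three_conn`) and its edges join vertices which are connected in `E`
(`torso_adj`: an edge of `E`, or both adjacent to a component outside, `mem_att`).

`core_dist`: let `y : X` be fixed, `K = torso E X`.  Define `h : V → ℕ`: `h v = K.dist v y` for `v ∈ X`; for `v ∉ X` let
`h v` be the minimum of `K.dist x y` over the attachments `x` of the component of `v` (0 if there are none).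
If `E.Adj v w` then `h v ≤ h w + 1`: both in `X`: `K.Adj v w`.  `v ∈ X`, `w ∉ X`: `v` is an attachment of the component of
`w`; the minimum is attained at an attachment `x`, and all attachments are equal or adjacent in `K`:
either `v = x` or the attachment set is `{v, x}` (it has at most two elements) and `K.Adj v x`; so
`h v ≤ K.dist x y + 1`.  `v ∉ X`, `w ∈ X`: `w` is an attachment of the component of `v`, `h v ≤ h w`.  Both outside: same
component, `h v = h w`.  (For `K` connected: `K.dist v y ≤ 1 + K.dist x y` if `K.Adj v x`: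
`SimpleGraph.Connected.dist_triangle`, `dist_eq_one_iff_adj`.)  Hence `h x ≤ length of the walk` for every walk in `E`
from `x` to `y`, since `h y = 0`; use `Reachable.exists_walk_length_eq_dist` and `core_reach`.

`hom_dist`: map a shortest walk.  `part_dist1`, `part_dist2`: special cases (`comap` is the pull-back:
`SimpleGraph.Hom` from `E.comap g` to `E`).

`pole_reach`: `G ≠ ⊥` and `Att2 G`: the poles are connected in `G`: if there is an internal vertex, its component
is adjacent to both poles; otherwise the edge of `G` joins the poles.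
-/

set_option linter.unusedSectionVars false

namespace Dia
open PGr

section
variable {V : Type} [Finite V] {E : SimpleGraph V}

theorem MDist_adj_reach {X : Set V} {x y : X} (h : (torso E X).Adj x y) :
    E.Reachable x.1 y.1 := by
  obtain ⟨hne, h1 | ⟨C, hC⟩⟩ := h
  · exact h1.reachable
  · have hx : x ∈ att E X C := by rw [hC]; simp
    have hy : y ∈ att E X C := by rw [hC]; simp
    obtain ⟨a, ha, hxa⟩ := hx
    obtain ⟨b, hb, hyb⟩ := hy
    have hab : (E.induce Xᶜ).Reachable a b :=
      SimpleGraph.ConnectedComponent.exact (Eq.trans ha (Eq.symm hb))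
    have h2 : E.Reachable a.1 b.1 := hab.map (SimpleGraph.Embedding.induce Xᶜ).toHom
    exact hxa.reachable.trans (h2.trans hyb.symm.reachable)

theorem core_reach {X : Set V} (hX : IsCore E X) (x y : X) : E.Reachable x.1 y.1 := by
  obtain ⟨p⟩ := (three_conn hX.three).preconnected x y
  induction p with
  | nil => exact SimpleGraph.Reachable.refl _
  | cons h _ ih => exact (MDist_adj_reach h).trans ih

theorem MDist_att {X : Set V} (hX : IsCore E X) (C : OutC E X) {x u : X} (hx : x ∈ att E X C)
    (hu : u ∈ att E X C) (hne : u ≠ x) : (torso E X).Adj u x := by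
  refine ⟨hne, Or.inr ⟨C, ?_⟩⟩
  obtain ⟨x1, x2, h⟩ := hX.att2 C
  have hx' := h hx
  have hu' := h hu
  rw [Set.mem_insert_iff, Set.mem_singleton_iff] at hx' hu'
  apply Set.Subset.antisymm
  · intro z hz
    have hz' := h hz
    rw [Set.mem_insert_iff, Set.mem_singleton_iff] at hz' ⊢
    rcases hx' with hx' | hx' <;> rcases hu' with hu' | hu'
    · exact absurd (hu'.trans hx'.symm) hne
    · rcases hz' with hz' | hz'
      · exact Or.inr (hz'.trans hx'.symm)
      · exact Or.inl (hz'.trans hu'.symm)
    · rcases hz' with hz' | hz'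
      · exact Or.inl (hz'.trans hu'.symm)
      · exact Or.inr (hz'.trans hx'.symm)
    · exact absurd (hu'.trans hx'.symm) hne
  · rintro z (rfl | rfl)
    · exact hu
    · exact hx

theorem MDist_walk {X : Set V} (hX : IsCore E X) {v w : V} (p : E.Walk v w) (hw : w ∈ X) :
    (∀ hv : v ∈ X, (torso E X).dist ⟨v, hv⟩ ⟨w, hw⟩ ≤ p.length) ∧
    (∀ hv : v ∈ Xᶜ, ∃ x ∈ att E X ((E.induce Xᶜ).connectedComponentMk ⟨v, hv⟩),
      (torso E X).dist x ⟨w, hw⟩ ≤ p.length) := by
  induction p with
  | nil =>
    refine ⟨fun hv => ?_, fun hv => absurd hw hv⟩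
    rw [SimpleGraph.dist_self]
    exact Nat.zero_le _
  | @cons u v w h p ih =>
    obtain ⟨ih1, ih2⟩ := ih hw
    have hcon := three_conn hX.three
    rw [SimpleGraph.Walk.length_cons]
    constructor
    · intro hu
      by_cases hv : v ∈ X
      · have h1 : (torso E X).Adj ⟨u, hu⟩ ⟨v, hv⟩ :=
          ⟨fun h2 => h.ne (congrArg Subtype.val h2), Or.inl h⟩
        have h2 := ih1 hv
        have h3 := hcon.dist_triangle (u := ⟨u, hu⟩) (v := ⟨v, hv⟩) (w := ⟨w, hw⟩)
        rw [SimpleGraph.dist_eq_one_iff_adj.2 h1] at h3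
        omega
      · obtain ⟨x, hx, hx2⟩ := ih2 hv
        have hu' : (⟨u, hu⟩ : X) ∈ att E X ((E.induce Xᶜ).connectedComponentMk ⟨v, hv⟩) :=
          ⟨⟨v, hv⟩, rfl, h⟩
        by_cases hne : (⟨u, hu⟩ : X) = x
        · rw [hne]
          omega
        · have h1 := MDist_att hX _ hx hu' hne
          have h3 := hcon.dist_triangle (u := ⟨u, hu⟩) (v := x) (w := ⟨w, hw⟩)
          rw [SimpleGraph.dist_eq_one_iff_adj.2 h1] at h3
          omega
    · intro hu
      by_cases hv : v ∈ X
      · refine ⟨⟨v, hv⟩, ⟨⟨u, hu⟩, rfl, h.symm⟩, ?_⟩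
        have h2 := ih1 hv
        omega
      · obtain ⟨x, hx, hx2⟩ := ih2 hv
        refine ⟨x, ?_, by omega⟩
        have h1 : (E.induce Xᶜ).connectedComponentMk ⟨u, hu⟩ =
            (E.induce Xᶜ).connectedComponentMk ⟨v, hv⟩ :=
          SimpleGraph.ConnectedComponent.sound (SimpleGraph.Adj.reachable h)
        rw [h1]
        exact hx

theorem core_dist {X : Set V} (hX : IsCore E X) (x y : X) :
    (torso E X).dist x y ≤ E.dist x.1 y.1 := by
  obtain ⟨p, hp⟩ := (core_reach hX x y).exists_walk_length_eq_dist
  rw [← hp]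
  exact (MDist_walk hX p y.2).1 x.2

end

theorem hom_dist {U V : Type} {G : SimpleGraph U} {E : SimpleGraph V} (g : G →g E) {u v : U}
    (h : G.Reachable u v) : E.dist (g u) (g v) ≤ G.dist u v := by
  obtain ⟨p, hp⟩ := h.exists_walk_length_eq_dist
  rw [← hp, ← SimpleGraph.Walk.length_map g p]
  exact SimpleGraph.dist_le _

theorem MDist_inl {A : Type} {G : SimpleGraph (A ⊕ Bool)} (h : Att2 G) (a : A) (b : Bool) :
    G.Reachable (Sum.inl a) (Sum.inr b) := by
  obtain ⟨c, hc, hcb⟩ := h ((G.comap Sum.inl).connectedComponentMk a) b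
  have h1 : (G.comap Sum.inl).Reachable c a := SimpleGraph.ConnectedComponent.exact hc
  have h2 : G.Reachable (Sum.inl c) (Sum.inl a) := h1.map (SimpleGraph.Hom.comap Sum.inl G)
  exact h2.symm.trans hcb.reachable

theorem pole_reach {A : Type} {G : SimpleGraph (A ⊕ Bool)} (h0 : G ≠ ⊥) (h : Att2 G) :
    G.Reachable (Sum.inr false) (Sum.inr true) := by
  by_cases hA : Nonempty A
  · obtain ⟨a⟩ := hA
    exact (MDist_inl h a false).symm.trans (MDist_inl h a true)
  · have : ∃ u v, G.Adj u v := by
      by_contra hcon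
      push Not at hcon
      apply h0
      ext u v
      simp [hcon u v]
    obtain ⟨u, v, huv⟩ := this
    rcases u with a | b
    · exact absurd ⟨a⟩ hA
    · rcases v with a | b'
      · exact absurd ⟨a⟩ hA
      · cases b <;> cases b'
        · exact absurd rfl huv.ne
        · exact huv.reachable
        · exact huv.symm.reachable
        · exact absurd rfl huv.ne

section
variable {V : Type} [LinearOrder V] {E : SimpleGraph V} {X : Set V} {K : SimpleGraph X}

/-- distance to the root in the part at `x` -/
theorem part_dist1 {f : ↥Xᶜ → Idx K} (h : Conn3 E K f) (x : X) (a : {a // f a = .inl x}) :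
    E.dist a.1.1 x.1 ≤ (E.comap (emb1 f x)).dist (some a) none :=
  hom_dist (SimpleGraph.Hom.comap (emb1 f x) E) ((h.conn x).preconnected (some a) none)

/-- distance of the ends of an edge of the core -/
theorem part_dist2 {f : ↥Xᶜ → Idx K} (h : Conn3 E K f) (e : K.edgeSet) :
    E.dist (pole e.1 false).1 (pole e.1 true).1 ≤
      (E.comap (emb2 f e)).dist (Sum.inr false) (Sum.inr true) :=
  hom_dist (SimpleGraph.Hom.comap (emb2 f e) E) (pole_reach (h.ne e) (h.att2 e))

/-- distance of an internal vertex of an edge part to an end -/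
theorem part_dist3 {f : ↥Xᶜ → Idx K} (h : Conn3 E K f) (e : K.edgeSet)
    (a : {a // f a = .inr (.inl e)}) (b : Bool) :
    E.dist a.1.1 (pole e.1 b).1 ≤ (E.comap (emb2 f e)).dist (Sum.inl a) (Sum.inr b) :=
  hom_dist (SimpleGraph.Hom.comap (emb2 f e) E) (MDist_inl (h.att2 e) a b)

end

end Dia
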