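import Pool.Agent.Dia.RigF
import Pool.Agent.Dia.CntV
import Pool.Agent.Dia.MDist
import Pool.Agent.Dia.MCount

/-!
# Module Pairs: pairs (planar graph, core set) (consequences of the structure theorem)

`pair_K`: the structure theorem and `fib_card`.
`pair_far`: a vertex `u` which is connected to `X` and not in `X` is in a part attached to a vertex or to an edge of
the torso; its distance in the part is at least its distance in `E`.
`pair_rest`: the vertices not connected to `X` are the vertices of the last part.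
`pair_path`: for vertices `x`, `y` of the torso `K` with `K.dist x y = m` take a shortest path (`m` different
edges); `E.dist x y ≤ ∑ over the path of pd (part)`.  So if `κ (m + lam) < E.dist x y` then
`1 ≤ exp (- θ κ (m + lam)) ∏ exp (θ pd (part))`; sum over all `K`, `x`, `y` and attachments.
-/

set_option linter.unusedSectionVars false

namespace Dia
open Finset PGr Pool.Agent.DiamP Pool.Agent.DiamP.Hv

/-- number of pairs (planar graph on `Fin n`, core set) with `v` vertices and `e` edges in the core,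
with the property `Q`, divided by `n!` -/
noncomputable def pairN (n v e : ℕ) (Q : SimpleGraph (Fin n) → Set (Fin n) → Prop) : ℝ :=
  (Nat.card {p : SimpleGraph (Fin n) × Set (Fin n) // IsPlanar p.1 ∧ IsCore p.1 p.2 ∧
    Nat.card p.2 = v ∧ coreE p.1 p.2 = e ∧ Q p.1 p.2} : ℝ) / n.factorial

/-! ### lemmas on graphs -/

section graph
variable {V : Type} [LinearOrder V] {E : SimpleGraph V} {X : Set V} {K : SimpleGraph X}
  {f : ↥Xᶜ → Idx K}

private theorem Pairs_rest (h : Fits E K f) {u w : V} (hw : E.Reachable u w)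
    (hu : ∃ h : u ∈ Xᶜ, f ⟨u, h⟩ = .inr (.inr ())) : ∃ h : w ∈ Xᶜ, f ⟨w, h⟩ = .inr (.inr ()) := by
  obtain ⟨p⟩ := hw
  induction p with
  | nil => exact hu
  | @cons a b c hadj _ ih =>
    apply ih
    obtain ⟨ha, hfa⟩ := hu
    by_cases hb : b ∈ X
    · have h1 := h.mid ⟨a, ha⟩ ⟨b, hb⟩ hadj
      rw [hfa] at h1
      exact h1.elim
    · refine ⟨hb, ?_⟩
      rw [← h.out ⟨a, ha⟩ ⟨b, hb⟩ hadj, hfa]

private theorem Pairs_reach1 (h : Conn3 E K f) (x : X) (a : {a // f a = .inl x}) :
    E.Reachable a.1.1 x.1 := by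
  have h1 : (E.comap (emb1 f x)).Reachable (some a) none := (h.conn x).preconnected _ _
  exact h1.map (⟨emb1 f x, fun h => h⟩ : E.comap (emb1 f x) →g E)

private theorem Pairs_reach2 (h : Conn3 E K f) (e : K.edgeSet) (a : {a // f a = .inr (.inl e)})
    (b : Bool) : E.Reachable a.1.1 (pole e.1 b).1 := by
  obtain ⟨a', h1, h2⟩ := (att2_iff _).1 (h.att2 e) a b
  have h3 : (E.comap (emb2 f e)).Reachable (Sum.inl a') (Sum.inl a) :=
    h1.map (⟨Sum.inl, fun h => h⟩ : ((E.comap (emb2 f e)).comap Sum.inl) →g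
      (E.comap (emb2 f e)))
  have h4 : (E.comap (emb2 f e)).Reachable (Sum.inl a) (Sum.inr b) := h3.symm.trans h2.reachable
  exact h4.map (⟨emb2 f e, fun h => h⟩ : E.comap (emb2 f e) →g E)

private theorem Pairs_far (hf : Fits E K f) (hc : Conn3 E K f) {L : ℕ} (hL : 1 ≤ L)
    (h : ∃ u, (∃ x ∈ X, E.Reachable u x) ∧ ∀ x ∈ X, L ≤ E.dist u x) :
    (∃ x : X, Far1 L (E.comap (emb1 f x))) ∨ ∃ e : K.edgeSet, Far2 L (E.comap (emb2 f e)) := by
  obtain ⟨u, ⟨x0, hx0, hr⟩, hd⟩ := h
  have hu : u ∈ Xᶜ := by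
    intro hu
    have := hd u hu
    rw [SimpleGraph.dist_self] at this
    omega
  rcases hi : f ⟨u, hu⟩ with x | e | t
  · left
    refine ⟨x, ⟨⟨u, hu⟩, hi⟩, ?_⟩
    exact (hd x.1 x.2).trans (part_dist1 hc x ⟨⟨u, hu⟩, hi⟩)
  · right
    refine ⟨e, ⟨⟨u, hu⟩, hi⟩, fun b => ?_⟩
    exact (hd _ (pole e.1 b).2).trans (part_dist3 hc e ⟨⟨u, hu⟩, hi⟩ b)
  · exfalso
    obtain ⟨h1, -⟩ := Pairs_rest hf hr ⟨hu, hi⟩
    exact h1 hx0

private theorem Pairs_card_rest [Finite V] (hc : Conn3 E K f) :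
    Nat.card {u // ∀ x ∈ X, ¬ E.Reachable u x} ≤ Nat.card {a // f a = .inr (.inr ())} := by
  have h1 : ∀ u : {u // ∀ x ∈ X, ¬ E.Reachable u x}, ∃ h : u.1 ∈ Xᶜ,
      f ⟨u.1, h⟩ = .inr (.inr ()) := by
    rintro ⟨u, hu⟩
    have h2 : u ∈ Xᶜ := fun h => hu u h (SimpleGraph.Reachable.refl u)
    refine ⟨h2, ?_⟩
    rcases hi : f ⟨u, h2⟩ with x | e | t
    · exact absurd (Pairs_reach1 hc x ⟨⟨u, h2⟩, hi⟩) (hu x.1 x.2)
    · exact absurd (Pairs_reach2 hc e ⟨⟨u, h2⟩, hi⟩ true) (hu _ (pole e.1 true).2)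
    · rfl
  refine Nat.card_le_card_of_injective (fun u => ⟨⟨u.1, (h1 u).choose⟩, (h1 u).choose_spec⟩) ?_
  intro u u' h
  have h2 := congrArg Subtype.val (congrArg Subtype.val h)
  exact Subtype.ext h2

/-- pole distance of the part at an edge -/
private noncomputable def Pairs_pd (E : SimpleGraph V) (f : ↥Xᶜ → Idx K) (e : Sym2 X) : ℕ :=
  open Classical in if h : e ∈ K.edgeSet then pd (E.comap (emb2 f ⟨e, h⟩)) else 0

private theorem Pairs_tri {G : SimpleGraph V} {x y z : V} (h : G.Reachable x y) :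
    G.dist x z ≤ G.dist x y + G.dist y z := by
  by_cases h2 : G.Reachable y z
  · obtain ⟨p, hp⟩ := h.exists_walk_length_eq_dist
    obtain ⟨q, hq⟩ := h2.exists_walk_length_eq_dist
    have h3 := SimpleGraph.dist_le (p.append q)
    rw [SimpleGraph.Walk.length_append, hp, hq] at h3
    exact h3
  · have h3 : ¬ G.Reachable x z := fun h4 => h2 (h.symm.trans h4)
    rw [SimpleGraph.dist_eq_zero_of_not_reachable h3]
    exact Nat.zero_le _

private theorem Pairs_path [Finite V] (hX : IsCore E X) (hc : Conn3 E K f) {x y : X}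
    (p : K.Walk x y) : E.dist x.1 y.1 ≤ (p.edges.map (Pairs_pd E f)).sum := by
  induction p with
  | nil => simp
  | @cons a b c hadj q ih =>
    rw [SimpleGraph.Walk.edges_cons, List.map_cons, List.sum_cons]
    refine (Pairs_tri (core_reach hX a b)).trans (Nat.add_le_add ?_ ih)
    have h1 : s(a, b) ∈ K.edgeSet := hadj
    unfold Pairs_pd
    rw [dif_pos h1]
    have h2 := part_dist2 hc ⟨s(a, b), h1⟩
    refine le_trans (le_of_eq ?_) h2
    change E.dist a.1 b.1 = E.dist (a ⊓ b).1 (a ⊔ b).1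
    rcases le_total a b with h | h
    · rw [inf_eq_left.2 h, sup_eq_right.2 h]
    · rw [inf_eq_right.2 h, sup_eq_left.2 h, SimpleGraph.dist_comm]

end graph

/-! ### counting -/

theorem Pairs_card_finsum {α : Type} [Finite α] (P : α → Prop) [DecidablePred P] :
    (Nat.card {x : α // P x} : ℝ) = ∑ᶠ x : α, if P x then (1 : ℝ) else 0 := by
  have := Fintype.ofFinite α
  rw [finsum_eq_sum_of_fintype, ← Finset.sum_filter, Finset.sum_const, nsmul_eq_mul, mul_one,
    Nat.card_eq_fintype_card, Fintype.card_subtype]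

private theorem Pairs_inv0 : InvPG0 PGT0 := fun _ _ _ _ _ _ => trivial

/-- the number of all indices -/
private theorem Pairs_all {P : PG0} (hP : InvPG0 P) {n v e : ℕ} (hv : v ≤ n) (c : ℝ) :
    (Nat.card {i : IXK (Fin n) v e // P _ i.2.1} : ℝ) * (((n - v).factorial : ℝ) * c) =
      (n.factorial : ℝ) * (kP P v e * c) := by
  rw [ixk_card n v e hP]
  have h := Nat.choose_mul_factorial_mul_factorial hv
  have h' : ((n.choose v : ℕ) : ℝ) * v.factorial * (n - v).factorial = n.factorial := by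
    exact_mod_cast h
  rw [← h']
  ring

private theorem Pairs_all' {n v e : ℕ} (hv : v ≤ n) (c : ℝ) :
    (Nat.card (IXK (Fin n) v e) : ℝ) * (((n - v).factorial : ℝ) * c) =
      (n.factorial : ℝ) * (kP PGT0 v e * c) := by
  rw [← Pairs_all Pairs_inv0 hv c]
  congr 2
  exact Nat.card_congr ⟨fun i => ⟨i, trivial⟩, fun i => i.1, fun _ => rfl, fun _ => rfl⟩

private theorem Pairs_empty {n v e : ℕ} (hv : n < v) : IsEmpty (IXK (Fin n) v e) := by
  refine ⟨fun i => ?_⟩
  have h1 := i.1.2
  have h2 : Nat.card i.1.1 ≤ Nat.card (Fin n) :=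
    Nat.card_le_card_of_injective Subtype.val Subtype.val_injective
  rw [Nat.card_fin] at h2
  omega

/-- upper bounds by bounds for every index -/
private theorem Pairs_bound {n v e : ℕ} (Q : SimpleGraph (Fin n) → Set (Fin n) → Prop) (c : ℝ)
    (hc : n < v → 0 ≤ kP PGT0 v e * c)
    (h : v ≤ n → ∀ i : IXK (Fin n) v e, (Nat.card {E : EK i.1.1 i.2.1 // Q E.1 i.1.1} : ℝ) ≤
      ((n - v).factorial : ℝ) * c) : pairN n v e Q ≤ kP PGT0 v e * c := by
  have hn0 : (0 : ℝ) < n.factorial := by exact_mod_cast n.factorial_pos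
  unfold pairN
  rw [pairs_card, div_le_iff₀ hn0]
  rcases Nat.lt_or_ge n v with hv | hv
  · have := Pairs_empty (e := e) hv
    rw [finsum_of_isEmpty]
    exact mul_nonneg (hc hv) hn0.le
  · calc ∑ᶠ i : IXK (Fin n) v e, (Nat.card {E : EK i.1.1 i.2.1 // Q E.1 i.1.1} : ℝ)
        ≤ ∑ᶠ _ : IXK (Fin n) v e, ((n - v).factorial : ℝ) * c := finsum_le (h hv)
      _ = (n.factorial : ℝ) * (kP PGT0 v e * c) := by rw [finsum_const', Pairs_all' hv]
      _ = kP PGT0 v e * c * n.factorial := by ring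

private theorem Pairs_SL (L : List (ℕ → ℝ)) (d g : ℕ → ℝ) (v e n : ℕ) :
    cvL (L ++ SL (rN ⊤) d g v e) n = if v ≤ n then
      PowerSeries.coeff (n - v) ((L.map PowerSeries.mk).prod *
        (PowerSeries.mk (rE ⊤) ^ v * (PowerSeries.mk d ^ e * PowerSeries.mk g))) else 0 := by
  rw [coeff_SL]
  have h : rN ⊤ = sh (rE ⊤) := rfl
  rw [h]
  split_ifs with hv
  · rw [coeff_shift _ _ _ _ _ hv]
  · rw [coeff_shift_zero _ _ _ _ _ (by omega)]

theorem pair_K {P : PG0} (hP' : InvPG0 P) (n v e : ℕ) :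
    pairN n v e (fun E X => P _ (torso E X)) =
      kP P v e * cvL (SL (rN ⊤) (dN ⊤) (gN ⊤) v e) n := by
  classical
  have hn0 : (0 : ℝ) < n.factorial := by exact_mod_cast n.factorial_pos
  unfold pairN
  have hpc := pairs_card n v e (fun E X => P _ (torso E X))
  rw [hpc, div_eq_iff hn0.ne', ← List.nil_append (SL _ _ _ _ _), Pairs_SL]
  rcases Nat.lt_or_ge n v with hv | hv
  · have := Pairs_empty (e := e) hv
    rw [finsum_of_isEmpty, if_neg (by omega)]
    ring
  · rw [if_pos hv, List.map_nil, List.prod_nil, one_mul]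
    set c := PowerSeries.coeff (n - v) (PowerSeries.mk (rE ⊤) ^ v *
      (PowerSeries.mk (dN ⊤) ^ e * PowerSeries.mk (gN ⊤))) with hc
    have h1 : ∀ i : IXK (Fin n) v e,
        (Nat.card {E : EK i.1.1 i.2.1 // P _ (torso E.1 i.1.1)} : ℝ) =
          if P _ i.2.1 then ((n - v).factorial : ℝ) * c else 0 := by
      intro i
      split_ifs with hP
      · have h2 : (Nat.card {E : EK i.1.1 i.2.1 // P _ (torso E.1 i.1.1)} : ℝ) =
            ∑ᶠ _ : EK i.1.1 i.2.1, (1 : ℝ) := by
          rw [finsum_const', mul_one]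
          congr 1
          refine Nat.card_congr (Equiv.subtypeUnivEquiv fun E => ?_)
          rw [E.2.2.2]
          exact hP
        rw [h2, UU_eq i (fun _ => 1) (fun _ => iw1_one) (fun _ => iw2_one) iw0_one]
        · congr 1
          have h3 := prU_two i (fun _ => False) (fun _ => False) (fun _ _ => 1) (fun _ _ => 1)
            (fun _ _ => 1) (fun _ _ => 1) (fun _ _ => 1)
          simp only [if_false] at h3
          rw [h3, ew1_one, ew2_one, ew0_one, Nat.card_of_isEmpty, Nat.card_of_isEmpty, pow_zero,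
            pow_zero, one_mul, one_mul, Nat.sub_zero, Nat.sub_zero]
        · intro E f s _ _ _ _
          unfold prV
          rw [Finset.prod_const_one, Finset.prod_const_one]
          norm_num
      · rw [Nat.cast_eq_zero]
        have : IsEmpty {E : EK i.1.1 i.2.1 // P _ (torso E.1 i.1.1)} := by
          refine ⟨fun E => hP ?_⟩
          have h2 := E.2
          rw [E.1.2.2.2] at h2
          exact h2
        exact Nat.card_of_isEmpty
    rw [finsum_congr h1]
    have h4 : ∑ᶠ i : IXK (Fin n) v e, (if P _ i.2.1 then ((n - v).factorial : ℝ) * c else 0) =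
        (Nat.card {i : IXK (Fin n) v e // P _ i.2.1} : ℝ) * (((n - v).factorial : ℝ) * c) := by
      have := Fintype.ofFinite (IXK (Fin n) v e)
      rw [finsum_eq_sum_of_fintype, ← Finset.sum_filter, Finset.sum_const, nsmul_eq_mul,
        Nat.card_eq_fintype_card, Fintype.card_subtype]
    rw [h4, Pairs_all hP' hv]
    ring


/-! ### weights of the parts -/

private theorem Pairs_coeff_nn {P : PowerSeries ℝ} (h : ∀ n, 0 ≤ PowerSeries.coeff n P)
    {Q : PowerSeries ℝ} (h' : ∀ n, 0 ≤ PowerSeries.coeff n Q) (n : ℕ) :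
    0 ≤ PowerSeries.coeff n (P * Q) := by
  rw [PowerSeries.coeff_mul]
  exact Finset.sum_nonneg fun x _ => mul_nonneg (h _) (h' _)

private theorem Pairs_kP (v e : ℕ) : 0 ≤ kP PGT0 v e := kP_nonneg _ _ _

/-- one far part at a vertex -/
private theorem Pairs_U1 {n v e : ℕ} (i : IXK (Fin n) v e) (x0 : i.1.1)
    {wf : ∀ B : Type, SimpleGraph (Option B) → ℝ} (hw : IW1 wf) :
    ∑ᶠ z : ZU i, wf _ (z.2 (.inl x0)).1 = ((n - v).factorial : ℝ) *
      PowerSeries.coeff (n - v) (PowerSeries.mk (ew1 wf) *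
        (PowerSeries.mk (rE ⊤) ^ (v - 1) * (PowerSeries.mk (dN ⊤) ^ e *
          PowerSeries.mk (gN ⊤)))) := by
  classical
  have h := UU_sum i (wv := fun x => if x = x0 then wf else fun _ _ => 1)
    (we := fun _ => if False then (fun _ _ => 1) else fun _ _ => 1) (w0 := fun _ _ => 1)
    (fun x => by split_ifs; exacts [hw, iw1_one]) (fun x => by simp only [if_false]; exact iw2_one)
    iw0_one
  have c1 : Nat.card {x : i.1.1 // x = x0} = 1 := Nat.card_unique
  have c2 : Nat.card {y : i.2.1.edgeSet // False} = 0 := Nat.card_of_isEmpty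
  rw [prU_two i (fun x => x = x0) (fun _ => False), ew1_one, ew2_one, ew0_one,
    c1, c2, pow_zero, one_mul, Nat.sub_zero, pow_one, mul_assoc] at h
  rw [← h]
  refine finsum_congr fun z => ?_
  unfold prV
  let _ := Fintype.ofFinite i.1.1
  rw [Finset.prod_eq_single x0]
  · beta_reduce
    rw [if_pos rfl]
    simp only [if_false, Finset.prod_const_one, mul_one]
  · intro x _ hx
    beta_reduce
    rw [if_neg hx]
  · intro hx
    exact absurd (Finset.mem_univ _) hx

/-- special parts at some edges -/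
private theorem Pairs_U2 {n v e : ℕ} (i : IXK (Fin n) v e) (T : i.2.1.edgeSet → Prop)
    [DecidablePred T] {wf : ∀ B : Type, SimpleGraph (B ⊕ Bool) → ℝ} (hw : IW2 wf) :
    ∑ᶠ z : ZU i, (letI := Fintype.ofFinite i.2.1.edgeSet
      ∏ y : i.2.1.edgeSet, if T y then wf _ (z.2 (.inr (.inl y))).1 else 1) =
      ((n - v).factorial : ℝ) * PowerSeries.coeff (n - v) (
        PowerSeries.mk (ew2 wf) ^ Nat.card {y // T y} *
        (PowerSeries.mk (rE ⊤) ^ v * (PowerSeries.mk (dN ⊤) ^ (e - Nat.card {y // T y}) *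
          PowerSeries.mk (gN ⊤)))) := by
  classical
  have h := UU_sum i (wv := fun _ => if False then (fun _ _ => 1) else fun _ _ => 1)
    (we := fun y => if T y then wf else fun _ _ => 1) (w0 := fun _ _ => 1)
    (fun x => by simp only [if_false]; exact iw1_one) (fun x => by split_ifs; exacts [hw, iw2_one])
    iw0_one
  rw [prU_two i (fun _ => False) T, ew1_one, ew2_one, ew0_one,
    Nat.card_of_isEmpty, pow_zero, one_mul, Nat.sub_zero] at h
  have h2 : PowerSeries.mk (ew2 wf) ^ Nat.card {y // T y} *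
        (PowerSeries.mk (rE ⊤) ^ v * (PowerSeries.mk (dN ⊤) ^ (e - Nat.card {y // T y}) *
          PowerSeries.mk (gN ⊤))) = PowerSeries.mk (rE ⊤) ^ v *
        (PowerSeries.mk (ew2 wf) ^ Nat.card {y // T y} *
          PowerSeries.mk (dN ⊤) ^ (e - Nat.card {y // T y}) * PowerSeries.mk (gN ⊤)) := by
    ring
  rw [h2, ← h]
  refine finsum_congr fun z => ?_
  unfold prV
  simp only [if_false, Finset.prod_const_one, mul_one, one_mul]
  refine Finset.prod_congr rfl fun y _ => ?_
  split_ifs <;> rfl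

private theorem Pairs_U0 {n v e : ℕ} (i : IXK (Fin n) v e)
    {wf : ∀ B : Type, SimpleGraph B → ℝ} (hw : IW0 wf) :
    ∑ᶠ z : ZU i, wf _ (z.2 (.inr (.inr ()))).1 = ((n - v).factorial : ℝ) *
      PowerSeries.coeff (n - v) (PowerSeries.mk (rE ⊤) ^ v * (PowerSeries.mk (dN ⊤) ^ e *
          PowerSeries.mk (ew0 wf))) := by
  classical
  have h := UU_sum i (wv := fun _ => if False then (fun _ _ => 1) else fun _ _ => 1)
    (we := fun y => if False then (fun _ _ => 1) else fun _ _ => 1) (w0 := wf)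
    (fun x => by simp only [if_false]; exact iw1_one)
    (fun x => by simp only [if_false]; exact iw2_one) hw
  rw [prU_two i (fun _ => False) (fun _ => False), ew1_one, ew2_one,
    Nat.card_of_isEmpty, Nat.card_of_isEmpty, pow_zero, pow_zero, one_mul, one_mul,
    Nat.sub_zero, Nat.sub_zero] at h
  rw [← h]
  refine finsum_congr fun z => ?_
  unfold prV
  simp only [if_false, Finset.prod_const_one, one_mul]

private theorem Pairs_finsum_sum {α β : Type} [Finite α] [Finite β] (f : β → α → ℝ) :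
    ∑ᶠ x : α, ∑ᶠ y : β, f y x = ∑ᶠ y : β, ∑ᶠ x : α, f y x := by
  have := Fintype.ofFinite α
  have := Fintype.ofFinite β
  simp only [finsum_eq_sum_of_fintype]
  exact Finset.sum_comm

private theorem Pairs_finsum_add {α : Type} [Finite α] (f g : α → ℝ) :
    ∑ᶠ x : α, (f x + g x) = ∑ᶠ x, f x + ∑ᶠ x, g x := by
  have := Fintype.ofFinite α
  simp only [finsum_eq_sum_of_fintype]
  exact Finset.sum_add_distrib

/-- `1` is at most the sum if one summand is `1` -/
private theorem Pairs_one_le {α : Type} [Finite α] {f : α → ℝ} (h : ∀ x, 0 ≤ f x) {x : α}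
    (hx : f x = 1) : 1 ≤ ∑ᶠ x, f x := by
  have := Fintype.ofFinite α
  rw [finsum_eq_sum_of_fintype, ← hx]
  exact Finset.single_le_sum (fun y _ => h y) (Finset.mem_univ x)

private theorem Pairs_rF (L : ℕ) : rF L = sh (open Classical in
    ew1 fun _ G => if Far1 L G then 1 else 0) := by
  rw [ew1_ind]
  rfl

private theorem Pairs_dF (L : ℕ) : dF L = (open Classical in
    ew2 fun _ G => if Far2 L G then 1 else 0) := by
  rw [ew2_ind]
  rfl

theorem pair_far (n v e L : ℕ) (hL : 1 ≤ L) :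
    pairN n v e (fun E X => ∃ u, (∃ x ∈ X, E.Reachable u x) ∧ ∀ x ∈ X, L ≤ E.dist u x) ≤
      kP PGT0 v e * (v * cvL (rF L :: SL (rN ⊤) (dN ⊤) (gN ⊤) (v - 1) e) n +
        e * cvL (dF L :: SL (rN ⊤) (dN ⊤) (gN ⊤) v (e - 1)) n) := by
  classical
  -- the two sequences as coefficients
  set w1 : ∀ B : Type, SimpleGraph (Option B) → ℝ := fun B G => if Far1 L G then 1 else 0 with hw1
  set w2 : ∀ B : Type, SimpleGraph (B ⊕ Bool) → ℝ := fun B G => if Far2 L G then 1 else 0 with hw2
  have e1 : 1 ≤ v → v ≤ n → cvL (rF L :: SL (rN ⊤) (dN ⊤) (gN ⊤) (v - 1) e) n =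
      PowerSeries.coeff (n - v) (PowerSeries.mk (ew1 w1) *
        (PowerSeries.mk (rE ⊤) ^ (v - 1) * (PowerSeries.mk (dN ⊤) ^ e *
          PowerSeries.mk (gN ⊤)))) := by
    intro hv hvn
    have h1 : rF L :: SL (rN ⊤) (dN ⊤) (gN ⊤) (v - 1) e =
        [rF L] ++ SL (rN ⊤) (dN ⊤) (gN ⊤) (v - 1) e := rfl
    rw [h1, coeff_SL, Pairs_rF, List.map_singleton, List.prod_singleton]
    have h2 : rN ⊤ = sh (rE ⊤) := rfl
    rw [h2, mk_sh, mk_sh, mul_pow]
    obtain ⟨v', rfl⟩ : ∃ v', v = v' + 1 := ⟨v - 1, by omega⟩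
    rw [Nat.add_sub_cancel]
    have h3 : PowerSeries.X * PowerSeries.mk (ew1 w1) * (PowerSeries.X ^ v' *
        PowerSeries.mk (rE ⊤) ^ v' * (PowerSeries.mk (dN ⊤) ^ e * PowerSeries.mk (gN ⊤))) =
        PowerSeries.X ^ (v' + 1) * (PowerSeries.mk (ew1 w1) * (PowerSeries.mk (rE ⊤) ^ v' *
          (PowerSeries.mk (dN ⊤) ^ e * PowerSeries.mk (gN ⊤)))) := by
      ring
    rw [h3, PowerSeries.coeff_X_pow_mul', if_pos hvn]
  have e2 : v ≤ n → cvL (dF L :: SL (rN ⊤) (dN ⊤) (gN ⊤) v (e - 1)) n =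
      PowerSeries.coeff (n - v) (PowerSeries.mk (ew2 w2) *
        (PowerSeries.mk (rE ⊤) ^ v * (PowerSeries.mk (dN ⊤) ^ (e - 1) *
          PowerSeries.mk (gN ⊤)))) := by
    intro hvn
    have h1 : dF L :: SL (rN ⊤) (dN ⊤) (gN ⊤) v (e - 1) =
        [dF L] ++ SL (rN ⊤) (dN ⊤) (gN ⊤) v (e - 1) := rfl
    rw [h1, Pairs_SL, if_pos hvn, Pairs_dF, List.map_singleton, List.prod_singleton]
  refine Pairs_bound _ _ (fun hv => ?_) (fun hvn i => ?_)
  · -- the case v > n
    refine mul_nonneg (Pairs_kP _ _) (add_nonneg (mul_nonneg (Nat.cast_nonneg _) ?_)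
      (mul_nonneg (Nat.cast_nonneg _) ?_))
    · have hnn : ∀ p ∈ rF L :: SL (rN ⊤) (dN ⊤) (gN ⊤) (v - 1) e, ∀ k, 0 ≤ p k := by
        intro p hp k
        rcases List.mem_cons.1 hp with rfl | hp
        · unfold rF sh es1
          split_ifs <;> positivity
        · exact mem_SL (P := fun p => ∀ k, 0 ≤ p k) (fun k => by
            unfold rN sh es1; split_ifs <;> positivity) (fun k => by unfold dN es2; positivity)
            (fun k => by unfold gN; positivity) p hp k
      exact cvL_nonneg hnn n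
    · have hnn : ∀ p ∈ dF L :: SL (rN ⊤) (dN ⊤) (gN ⊤) v (e - 1), ∀ k, 0 ≤ p k := by
        intro p hp k
        rcases List.mem_cons.1 hp with rfl | hp
        · unfold dF es2
          positivity
        · exact mem_SL (P := fun p => ∀ k, 0 ≤ p k) (fun k => by
            unfold rN sh es1; split_ifs <;> positivity) (fun k => by unfold dN es2; positivity)
            (fun k => by unfold gN; positivity) p hp k
      exact cvL_nonneg hnn n
  · -- one index
    have hv4 : 4 ≤ v := by
      have h1 := i.2.2.1.1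
      rwa [i.1.2] at h1
    rw [e1 (by omega) hvn, e2 hvn, Pairs_card_finsum]
    have hb : ∑ᶠ E : EK i.1.1 i.2.1, (if ∃ u, (∃ x ∈ i.1.1, E.1.Reachable u x) ∧
        ∀ x ∈ i.1.1, L ≤ E.1.dist u x then (1 : ℝ) else 0) ≤
        ∑ᶠ z : ZU i, (∑ᶠ x0 : i.1.1, w1 _ (z.2 (.inl x0)).1 +
          ∑ᶠ y0 : i.2.1.edgeSet, w2 _ (z.2 (.inr (.inl y0))).1) := by
      refine UU_le' i _ _ ?_
      intro E z hfit hcon _ hpar
      have hn1 : ∀ x0 : i.1.1, 0 ≤ w1 _ (z.2 (.inl x0)).1 := by
        intro x0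
        rw [hw1]
        dsimp only
        split_ifs <;> norm_num
      have hn2 : ∀ y0 : i.2.1.edgeSet, 0 ≤ w2 _ (z.2 (.inr (.inl y0))).1 := by
        intro x0
        rw [hw2]
        dsimp only
        split_ifs <;> norm_num
      split_ifs with hQ
      · rcases Pairs_far hfit hcon hL hQ with ⟨x, hx⟩ | ⟨y, hy⟩
        · have h1 : w1 _ (z.2 (.inl x)).1 = 1 := by
            rw [hpar.vert x]
            exact if_pos hx
          have h2 := Pairs_one_le hn1 h1
          have h3 := finsum_nn hn2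
          linarith
        · have h1 : w2 _ (z.2 (.inr (.inl y))).1 = 1 := by
            rw [hpar.edge y]
            exact if_pos hy
          have h2 := Pairs_one_le hn2 h1
          have h3 := finsum_nn hn1
          linarith
      · exact add_nonneg (finsum_nn hn1) (finsum_nn hn2)
    refine hb.trans (le_of_eq ?_)
    rw [Pairs_finsum_add, Pairs_finsum_sum (fun (x0 : i.1.1) (z : ZU i) =>
      w1 _ (z.2 (.inl x0)).1), Pairs_finsum_sum (fun (y0 : i.2.1.edgeSet) (z : ZU i) =>
      w2 _ (z.2 (.inr (.inl y0))).1)]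
    have h1 : ∀ x0 : i.1.1, ∑ᶠ z : ZU i, w1 _ (z.2 (.inl x0)).1 =
        ((n - v).factorial : ℝ) * PowerSeries.coeff (n - v) (PowerSeries.mk (ew1 w1) *
        (PowerSeries.mk (rE ⊤) ^ (v - 1) * (PowerSeries.mk (dN ⊤) ^ e *
          PowerSeries.mk (gN ⊤)))) := fun x0 => Pairs_U1 i x0 (iw1_ind (inv_far1 L))
    have h2 : ∀ y0 : i.2.1.edgeSet, ∑ᶠ z : ZU i, w2 _ (z.2 (.inr (.inl y0))).1 =
        ((n - v).factorial : ℝ) * PowerSeries.coeff (n - v) (PowerSeries.mk (ew2 w2) *
        (PowerSeries.mk (rE ⊤) ^ v * (PowerSeries.mk (dN ⊤) ^ (e - 1) *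
          PowerSeries.mk (gN ⊤)))) := by
      intro y0
      have h3 := Pairs_U2 i (fun y => y = y0) (iw2_ind (inv_far2 L))
      rw [Nat.card_unique, pow_one] at h3
      rw [← h3]
      refine finsum_congr fun z => ?_
      let _ := Fintype.ofFinite i.2.1.edgeSet
      rw [Finset.prod_eq_single y0, if_pos rfl]
      · intro x _ hx
        rw [if_neg hx]
      · intro hx
        exact absurd (Finset.mem_univ _) hx
    rw [finsum_congr h1, finsum_congr h2, finsum_const', finsum_const']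
    have h3 : Nat.card i.1.1 = v := i.1.2
    have h4 : Nat.card i.2.1.edgeSet = e := i.2.2.2.2
    rw [h3, h4]
    ring


theorem pair_rest (n v e l : ℕ) :
    pairN n v e (fun E X => l ≤ Nat.card {u // ∀ x ∈ X, ¬ E.Reachable u x}) ≤
      kP PGT0 v e * cvL (SL (rN ⊤) (dN ⊤) (fun k => if l ≤ k then gN ⊤ k else 0) v e) n := by
  classical
  set w0 : ∀ B : Type, SimpleGraph B → ℝ := fun B _ => if l ≤ Nat.card B then 1 else 0 with hw0
  have hiw : IW0 w0 := by
    intro A B _ _ e G
    rw [hw0]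
    dsimp only
    rw [Nat.card_congr e]
  have hew : ew0 w0 = fun k => if l ≤ k then gN ⊤ k else 0 := by
    rw [← ew0_one]
    funext k
    unfold ew0
    rw [hw0]
    dsimp only
    rw [Nat.card_fin]
    split_ifs with h
    · rfl
    · rw [finsum_zero, zero_div]
  refine Pairs_bound _ _ (fun hv => ?_) (fun hvn i => ?_)
  · refine mul_nonneg (Pairs_kP _ _) ?_
    have h2 := mem_SL (P := fun p => ∀ k, 0 ≤ p k) (r := rN ⊤) (d := dN ⊤)
      (g := fun k => if l ≤ k then gN ⊤ k else 0) (v := v) (e := e) (fun k => by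
            unfold rN sh es1; split_ifs <;> positivity) (fun k => by unfold dN es2; positivity)
            (fun k => by
              dsimp only
              unfold gN
              split_ifs <;> positivity)
    exact cvL_nonneg h2 n
  · rw [Pairs_card_finsum, ← List.nil_append (SL _ _ _ _ _), Pairs_SL, if_pos hvn, List.map_nil,
      List.prod_nil, one_mul, ← hew]
    refine le_trans ?_ (le_of_eq (Pairs_U0 i hiw))
    refine UU_le' i _ _ ?_
    intro E z hfit hcon _ hpar
    rw [hw0]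
    dsimp only
    have h1 := Pairs_card_rest hcon
    split_ifs with h2 h3 h3
    · exact le_rfl
    · exact absurd (h2.trans h1) h3
    · norm_num
    · exact le_rfl

private theorem Pairs_dT (θ : ℝ) : dT θ = ew2 fun _ G => Real.exp (θ * pd G) := by
  classical
  funext k
  unfold dT ew2
  congr 1
  have := Fintype.ofFinite {G : SimpleGraph (Fin k ⊕ Bool) // DD G}
  rw [finsum_eq_sum_of_fintype, ← Finset.sum_filter]
  refine (Finset.sum_subtype (univ.filter fun G : SimpleGraph (Fin k ⊕ Bool) => DD G)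
    (fun G => ?_) fun G => Real.exp (θ * pd G))
  simp

private theorem Pairs_iw2T (θ : ℝ) : IW2 fun _ G => Real.exp (θ * pd G) := by
  intro A B _ _ e G
  beta_reduce
  rw [pd_comap]

theorem pair_path (n v e : ℕ) {θ κ lam : ℝ} (hθ : 0 ≤ θ) (hκ : 0 ≤ κ) (hl : 0 ≤ lam) :
    pairN n v e (fun E X => ∃ x y : X, κ * ((torso E X).dist x y + lam) < E.dist x.1 y.1) ≤
      kP PGT0 v e * ((v : ℝ) ^ 2 * ∑ m ∈ range (e + 1), Real.exp (-(θ * κ * (m + lam))) *
        cvL (List.replicate m (dT θ) ++ SL (rN ⊤) (dN ⊤) (gN ⊤) v (e - m)) n) := by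
  classical
  set w2 : ∀ B : Type, SimpleGraph (B ⊕ Bool) → ℝ := fun _ G => Real.exp (θ * pd G) with hw2
  have hnn : ∀ m, 0 ≤ cvL (List.replicate m (dT θ) ++ SL (rN ⊤) (dN ⊤) (gN ⊤) v (e - m)) n := by
    intro m
    refine cvL_nonneg ?_ n
    intro p hp k
    rcases List.mem_append.1 hp with hp | hp
    · rw [List.eq_of_mem_replicate hp]
      unfold dT
      refine div_nonneg (Finset.sum_nonneg fun G _ => ?_) (Nat.cast_nonneg _)
      split_ifs
      · exact (Real.exp_pos _).le
      · exact le_rfl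
    · exact mem_SL (P := fun p => ∀ k, 0 ≤ p k) (fun k => by
            unfold rN sh es1; split_ifs <;> positivity) (fun k => by unfold dN es2; positivity)
            (fun k => by unfold gN; positivity) p hp k
  refine Pairs_bound _ _ (fun hv => ?_) (fun hvn i => ?_)
  · refine mul_nonneg (Pairs_kP _ _) (mul_nonneg (by positivity) (Finset.sum_nonneg fun m _ =>
      mul_nonneg (Real.exp_pos _).le (hnn m)))
  · rw [Pairs_card_finsum]
    -- a shortest path for every pair
    have hconn : (i.2.1 : SimpleGraph i.1.1).Connected := three_conn i.2.2.1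
    have hex : ∀ xy : i.1.1 × i.1.1, ∃ p : (i.2.1 : SimpleGraph i.1.1).Walk xy.1 xy.2,
        p.IsPath ∧ p.length = (i.2.1 : SimpleGraph i.1.1).dist xy.1 xy.2 := by
      intro xy
      exact hconn.exists_path_of_dist xy.1 xy.2
    choose p hp hpl using hex
    let T : i.1.1 × i.1.1 → i.2.1.edgeSet → Prop := fun xy y => y.1 ∈ (p xy).edges
    have hT : ∀ xy, Nat.card {y // T xy y} = (i.2.1 : SimpleGraph i.1.1).dist xy.1 xy.2 := by
      intro xy
      rw [← hpl xy, ← SimpleGraph.Walk.length_edges,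
        ← List.toFinset_card_of_nodup (hp xy).isTrail.edges_nodup]
      have h1 : Nat.card {y // T xy y} = Nat.card {y // y ∈ (p xy).edges.toFinset} := by
        refine Nat.card_congr
          { toFun := fun y => ⟨y.1.1, List.mem_toFinset.2 y.2⟩
            invFun := fun y => ⟨⟨y.1, SimpleGraph.Walk.edges_subset_edgeSet _
              (List.mem_toFinset.1 y.2)⟩, List.mem_toFinset.1 y.2⟩
            left_inv := fun _ => rfl
            right_inv := fun _ => rfl }
      rw [h1, Nat.card_eq_fintype_card, Fintype.card_coe]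
    have hdist : ∀ xy : i.1.1 × i.1.1, (i.2.1 : SimpleGraph i.1.1).dist xy.1 xy.2 < e + 1 := by
      intro xy
      rw [← hT xy, Nat.lt_succ_iff]
      have h1 : Nat.card {y // T xy y} ≤ Nat.card i.2.1.edgeSet :=
        Nat.card_le_card_of_injective Subtype.val Subtype.val_injective
      rwa [i.2.2.2.2] at h1
    let c : ℕ → ℝ := fun m => Real.exp (-(θ * κ * (m + lam))) * (((n - v).factorial : ℝ) *
      cvL (List.replicate m (dT θ) ++ SL (rN ⊤) (dN ⊤) (gN ⊤) v (e - m)) n)
    have hc : ∀ m, 0 ≤ c m := fun m =>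
      mul_nonneg (Real.exp_pos _).le (mul_nonneg (Nat.cast_nonneg _) (hnn m))
    have hone : ∀ xy : i.1.1 × i.1.1, ∑ᶠ z : ZU i,
        Real.exp (-(θ * κ * ((i.2.1 : SimpleGraph i.1.1).dist xy.1 xy.2 + lam))) *
          (letI := Fintype.ofFinite i.2.1.edgeSet
            ∏ y : i.2.1.edgeSet, if T xy y then w2 _ (z.2 (.inr (.inl y))).1 else 1) =
        c ((i.2.1 : SimpleGraph i.1.1).dist xy.1 xy.2) := by
      intro xy
      have h1 := Pairs_U2 i (T xy) (Pairs_iw2T θ)
      rw [← Pairs_dT, hT xy] at h1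
      have h2 : c ((i.2.1 : SimpleGraph i.1.1).dist xy.1 xy.2) =
          Real.exp (-(θ * κ * ((i.2.1 : SimpleGraph i.1.1).dist xy.1 xy.2 + lam))) *
            ∑ᶠ z : ZU i, (letI := Fintype.ofFinite i.2.1.edgeSet
            ∏ y : i.2.1.edgeSet, if T xy y then w2 _ (z.2 (.inr (.inl y))).1 else 1) := by
        rw [h1]
        change _ * (_ * cvL _ n) = _
        rw [Pairs_SL, if_pos hvn, List.map_replicate, List.prod_replicate]
      rw [h2]
      exact (mul_finsum _ _).symm
    have hb : ∑ᶠ E : EK i.1.1 i.2.1, (if ∃ x y : i.1.1,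
        κ * ((torso E.1 i.1.1).dist x y + lam) < E.1.dist x.1 y.1 then (1 : ℝ) else 0) ≤
        ∑ᶠ z : ZU i, ∑ᶠ xy : i.1.1 × i.1.1,
          Real.exp (-(θ * κ * ((i.2.1 : SimpleGraph i.1.1).dist xy.1 xy.2 + lam))) *
          (letI := Fintype.ofFinite i.2.1.edgeSet
            ∏ y : i.2.1.edgeSet, if T xy y then w2 _ (z.2 (.inr (.inl y))).1 else 1) := by
      refine UU_le' i _ _ ?_
      intro E z hfit hcon _ hpar
      have hnn2 : ∀ xy : i.1.1 × i.1.1,
          0 ≤ Real.exp (-(θ * κ * ((i.2.1 : SimpleGraph i.1.1).dist xy.1 xy.2 + lam))) *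
          (letI := Fintype.ofFinite i.2.1.edgeSet
            ∏ y : i.2.1.edgeSet, if T xy y then w2 _ (z.2 (.inr (.inl y))).1 else 1) := by
        intro xy
        refine mul_nonneg (Real.exp_pos _).le (Finset.prod_nonneg fun y _ => ?_)
        split_ifs
        · exact (Real.exp_pos _).le
        · exact zero_le_one
      split_ifs with hQ
      · obtain ⟨x, y, hxy⟩ := hQ
        have := Fintype.ofFinite (i.1.1 × i.1.1)
        rw [finsum_eq_sum_of_fintype]
        refine le_trans ?_ (Finset.single_le_sum (fun xy _ => hnn2 xy)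
          (Finset.mem_univ (x, y)))
        let _ := Fintype.ofFinite i.2.1.edgeSet
        have h1 := Pairs_path E.2.2.1 hcon (p (x, y))
        have h2 : ∏ q : i.2.1.edgeSet, (if T (x, y) q then w2 _ (z.2 (.inr (.inl q))).1 else 1) =
            Real.exp (θ * ((((p (x, y)).edges.map (Pairs_pd E.1 z.1)).sum : ℕ) : ℝ)) := by
          have h3 : (((p (x, y)).edges.map (Pairs_pd E.1 z.1)).sum : ℕ) =
              ∑ q : i.2.1.edgeSet, if T (x, y) q then pd (E.1.comap (emb2 z.1 q)) else 0 := by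
            rw [← List.sum_toFinset _ (hp (x, y)).isTrail.edges_nodup, ← Finset.sum_filter]
            symm
            refine Finset.sum_bij (fun q _ => q.1) ?_ ?_ ?_ ?_
            · intro q hq
              exact List.mem_toFinset.2 (mem_filter.1 hq).2
            · intro q _ q' _ h
              exact Subtype.ext h
            · intro q hq
              have hq' := List.mem_toFinset.1 hq
              exact ⟨⟨q, SimpleGraph.Walk.edges_subset_edgeSet _ hq'⟩,
                mem_filter.2 ⟨mem_univ _, hq'⟩, rfl⟩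
            · intro q _
              unfold Pairs_pd
              rw [dif_pos q.2]
          rw [h3]
          push_cast
          rw [Finset.mul_sum, Real.exp_sum]
          refine Finset.prod_congr rfl fun q _ => ?_
          split_ifs
          · rw [hpar.edge q]
          · rw [mul_zero, Real.exp_zero]
        rw [h2, ← Real.exp_add, ← Real.exp_zero]
        refine Real.exp_le_exp.2 ?_
        have h4 : (E.1.dist x.1 y.1 : ℝ) ≤
            ((((p (x, y)).edges.map (Pairs_pd E.1 z.1)).sum : ℕ) : ℝ) := by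
          exact_mod_cast h1
        rw [E.2.2.2] at hxy
        have h5 := mul_le_mul_of_nonneg_left (hxy.le.trans h4) hθ
        dsimp only
        nlinarith
      · exact finsum_nn hnn2
    refine hb.trans ?_
    rw [Pairs_finsum_sum (fun (xy : i.1.1 × i.1.1) (z : ZU i) =>
          Real.exp (-(θ * κ * ((i.2.1 : SimpleGraph i.1.1).dist xy.1 xy.2 + lam))) *
          (letI := Fintype.ofFinite i.2.1.edgeSet
            ∏ y : i.2.1.edgeSet, if T xy y then w2 _ (z.2 (.inr (.inl y))).1 else 1)),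
      finsum_congr hone]
    have hle : ∀ xy : i.1.1 × i.1.1, c ((i.2.1 : SimpleGraph i.1.1).dist xy.1 xy.2) ≤
        ∑ m ∈ range (e + 1), c m := fun xy =>
      Finset.single_le_sum (fun m _ => hc m) (Finset.mem_range.2 (hdist xy))
    refine (finsum_le hle).trans (le_of_eq ?_)
    have h3 : Nat.card i.1.1 = v := i.1.2
    rw [finsum_const', Nat.card_prod, h3]
    push_cast
    have h5 : ∑ m ∈ range (e + 1), c m = ((n - v).factorial : ℝ) * ∑ m ∈ range (e + 1),
        Real.exp (-(θ * κ * (m + lam))) *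
          cvL (List.replicate m (dT θ) ++ SL (rN ⊤) (dN ⊤) (gN ⊤) v (e - m)) n := by
      rw [Finset.mul_sum]
      refine Finset.sum_congr rfl fun m _ => ?_
      change _ * (_ * _) = _
      ring
    rw [h5]
    ring

theorem torso_dist {n : ℕ} {E : SimpleGraph (Fin n)} {X : Set (Fin n)} (h : IsCore E X)
    (x y : X) : (torso E X).dist x y ≤ E.dist x.1 y.1 := core_dist h x y

/-- few big cores -/
theorem core_num {ε : ℝ} (hε : 0 < ε) : ∃ n0 : ℕ, ∀ n : ℕ, n0 ≤ n →
    ∀ E : SimpleGraph (Fin n), IsPlanar E →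
      (Nat.card {X : Set (Fin n) // IsCore E X ∧ ε * n ≤ coreE E X} : ℝ) ≤ 6 / ε + 1 := by
  refine ⟨max 1 ⌈72 / ε ^ 2⌉₊, fun n hn E hE => ?_⟩
  have hn1 : 1 ≤ n := (le_max_left _ _).trans hn
  have hn1' : (1 : ℝ) ≤ n := by exact_mod_cast hn1
  have hn2 : 72 / ε ^ 2 ≤ n := (Nat.le_ceil _).trans (by exact_mod_cast (le_max_right _ _).trans hn)
  have hm : ε * n ≤ ⌈ε * n⌉₊ := Nat.le_ceil _
  have hεn : 0 < ε * n := by positivity
  have h72 : 72 * Nat.card (Fin n) ≤ ⌈ε * n⌉₊ ^ 2 := by
    rw [Nat.card_fin]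
    have h1 : (72 : ℝ) * n ≤ (⌈ε * n⌉₊ : ℝ) ^ 2 := by
      have h2 : (ε * n) ^ 2 ≤ (⌈ε * n⌉₊ : ℝ) ^ 2 := by gcongr
      have h3 : 72 ≤ n * ε ^ 2 := by
        rwa [div_le_iff₀ (by positivity)] at hn2
      nlinarith
    exact_mod_cast h1
  have h := core_count hE ⌈ε * n⌉₊ h72
  rw [Nat.card_fin] at h
  have hcard : Nat.card {X : Set (Fin n) // IsCore E X ∧ ε * n ≤ coreE E X} =
      Nat.card {X : Set (Fin n) // IsCore E X ∧ ⌈ε * n⌉₊ ≤ coreE E X} :=
    Nat.card_congr (Equiv.subtypeEquiv (Equiv.refl _) fun X =>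
      and_congr Iff.rfl (Nat.ceil_le).symm)
  rw [hcard]
  set N := Nat.card {X : Set (Fin n) // IsCore E X ∧ ⌈ε * n⌉₊ ≤ coreE E X}
  have h' : ((⌈ε * n⌉₊ : ℕ) : ℝ) * N ≤ 6 * n := by exact_mod_cast h
  have h1 : ε * n * N ≤ 6 * n := le_trans (mul_le_mul_of_nonneg_right hm (Nat.cast_nonneg _)) h'
  have h2 : ε * N ≤ 6 := by
    have h3 : (ε * N) * n ≤ 6 * n := by linarith
    exact le_of_mul_le_mul_right h3 (by linarith)
  have h3 : (N : ℝ) ≤ 6 / ε := by
    rw [le_div_iff₀ hε]
    linarith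
  linarith

end Dia
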