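import Pool.Agent.Dia.ClassUp
import Pool.Agent.Dia.Pairs
import Pool.Agent.Dia.FarEnd

/-!
# Module BadD: few pairs are bad (bad_diam)

The sum is `sVE n ε (pairN n v e Q) * rho^n` (`Q` a disjunction: bound it by two sums).
`pair_K` and `SL_scale` for the classes `PBig (C n^(1/4))` and `PSmall (c n^(1/4))` (invariant under
isomorphism), `class_up` (`a = b = 0`, `g = gL`) with `δ'` small (`δ' + 1/n ≤ 2 δ'` for large `n`).  For
`ε n / 2 ≤ N ≤ 4 n` the class `PBig (C n^(1/4))` in the window at `N`: `C n^(1/4) ≥ C' N^(1/4)` with `C = 2 C'` (`tg_big`,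
`tauG_mono`).  For `PSmall`: `c n^(1/4) ≤ c (2/ε)^(1/4) N^(1/4)` (`tg_small`, `N ≥ n0` for large `n`).
-/

set_option linter.unusedSectionVars false

namespace Dia
open Finset PGr Pool.Agent.DiamP Pool.Agent.DiamP.Hv

theorem BadD_mono {n : ℕ} {ε : ℝ} {F F' : ℕ → ℕ → ℝ}
    (h : ∀ v e : ℕ, v ≤ n → e ≤ 3 * n → ε * n ≤ e → F v e ≤ F' v e) : sVE n ε F ≤ sVE n ε F' := by
  unfold sVE
  refine Finset.sum_le_sum fun e he => Finset.sum_le_sum fun v hv => ?_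
  rw [Finset.mem_filter, Finset.mem_range] at he
  rw [Finset.mem_range] at hv
  exact h v e (by omega) (by omega) he.2

theorem BadD_mul {n : ℕ} {ε : ℝ} (F : ℕ → ℕ → ℝ) (c : ℝ) :
    sVE n ε F * c = sVE n ε (fun v e => F v e * c) := by
  unfold sVE
  rw [Finset.sum_mul]
  refine Finset.sum_congr rfl fun e _ => ?_
  rw [Finset.sum_mul]

theorem BadD_sum {n : ℕ} {ε : ℝ} (s : Finset ℕ) (c : ℕ → ℝ) (F : ℕ → ℕ → ℕ → ℝ) :
    sVE n ε (fun v e => ∑ j ∈ s, c j * F j v e) = ∑ j ∈ s, c j * sVE n ε (F j) := by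
  unfold sVE
  rw [Finset.sum_congr rfl (fun e _ => Finset.sum_comm), Finset.sum_comm]
  refine Finset.sum_congr rfl fun j _ => ?_
  rw [Finset.mul_sum]
  refine Finset.sum_congr rfl fun e _ => ?_
  rw [Finset.mul_sum]

theorem BadD_add {n : ℕ} {ε : ℝ} (F F' : ℕ → ℕ → ℝ) :
    sVE n ε (fun v e => F v e + F' v e) = sVE n ε F + sVE n ε F' := by
  unfold sVE
  rw [← Finset.sum_add_distrib]
  refine Finset.sum_congr rfl fun e _ => ?_
  rw [← Finset.sum_add_distrib]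

theorem BadD_rho : 0 < rho := by
  have := rho_ge
  linarith

theorem BadD_dist_le {V W : Type} {G : SimpleGraph V} {H : SimpleGraph W} (e : G ≃g H) {x y : V}
    (h : G.Reachable x y) : H.dist (e x) (e y) ≤ G.dist x y := by
  obtain ⟨p, hp⟩ := h.exists_walk_length_eq_dist
  rw [← hp, ← SimpleGraph.Walk.length_map e.toHom p]
  exact SimpleGraph.dist_le _

theorem BadD_dist {V W : Type} {G : SimpleGraph V} {H : SimpleGraph W} (e : G ≃g H) (x y : V) :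
    H.dist (e x) (e y) = G.dist x y := by
  by_cases h : G.Reachable x y
  · apply le_antisymm (BadD_dist_le e h)
    have h2 : H.Reachable (e x) (e y) := h.map e.toHom
    have h3 := BadD_dist_le e.symm h2
    simpa using h3
  · have h2 : ¬ H.Reachable (e x) (e y) := by
      intro h3
      apply h
      have h4 : G.Reachable (e.symm (e x)) (e.symm (e y)) := h3.map e.symm.toHom
      simpa using h4
    rw [SimpleGraph.dist_eq_zero_of_not_reachable h, SimpleGraph.dist_eq_zero_of_not_reachable h2]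

theorem BadD_inv_big (D : ℝ) : InvPG0 (PBig D) := by
  rintro V W G H ⟨e⟩ ⟨x, y, h⟩
  refine ⟨e x, e y, ?_⟩
  rw [BadD_dist]
  exact h

theorem BadD_inv_small (D : ℝ) : InvPG0 (PSmall D) := by
  rintro V W G H ⟨e⟩ h x y
  have h1 := h (e.symm x) (e.symm y)
  rw [BadD_dist e.symm x y] at h1
  exact h1

theorem BadD_or (n v e : ℕ) (Q Q' : SimpleGraph (Fin n) → Set (Fin n) → Prop) :
    pairN n v e (fun E X => Q E X ∨ Q' E X) ≤ pairN n v e Q + pairN n v e Q' := by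
  classical
  unfold pairN
  rw [← add_div]
  refine div_le_div_of_nonneg_right ?_ (by positivity)
  rw [← Nat.cast_add]
  apply Nat.cast_le.2
  have h1 : ∀ R : SimpleGraph (Fin n) → Set (Fin n) → Prop,
      Nat.card {p : SimpleGraph (Fin n) × Set (Fin n) // IsPlanar p.1 ∧ IsCore p.1 p.2 ∧
        Nat.card p.2 = v ∧ coreE p.1 p.2 = e ∧ R p.1 p.2} =
      Set.ncard {p : SimpleGraph (Fin n) × Set (Fin n) | IsPlanar p.1 ∧
        IsCore p.1 p.2 ∧ Nat.card p.2 = v ∧ coreE p.1 p.2 = e ∧ R p.1 p.2} := fun R =>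
    Nat.card_coe_set_eq _
  rw [h1 (fun E X => Q E X ∨ Q' E X), h1 Q, h1 Q']
  refine le_trans (Set.ncard_le_ncard ?_ (Set.toFinite _)) (Set.ncard_union_le _ _)
  rintro p ⟨h2, h3, h4, h5, h6 | h6⟩
  · exact Or.inl ⟨h2, h3, h4, h5, h6⟩
  · exact Or.inr ⟨h2, h3, h4, h5, h6⟩

theorem BadD_class {P : PG0} (hP' : InvPG0 P) (n : ℕ) (ε : ℝ) :
    sVE n ε (fun v e => pairN n v e (fun E X => P _ (torso E X)) * rho ^ n) =
      sVE n ε (fun v e => kP P v e * R0 ^ v * D0 ^ e * cvL (SL rL dL gL (v - 0) (e - 0)) n) *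
        G0 := by
  rw [BadD_mul]
  congr 1
  funext v e
  rw [pair_K hP', mul_assoc, SL_scale, Nat.sub_zero, Nat.sub_zero]
  ring

theorem bad_diam {ε δ : ℝ} (hε : 0 < ε) (hε1 : ε < 1) (hδ : 0 < δ) : ∃ c C : ℝ, 0 < c ∧ 0 < C ∧
    ∃ n0 : ℕ, ∀ n : ℕ, n0 ≤ n → sVE n ε (fun v e => pairN n v e (fun E X =>
      PBig (C * (n : ℝ) ^ (1 / 4 : ℝ)) _ (torso E X) ∨
        PSmall (c * (n : ℝ) ^ (1 / 4 : ℝ)) _ (torso E X))) * rho ^ n ≤
      δ * (n : ℝ) ^ (-(7 / 2) : ℝ) := by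
  obtain ⟨K0, -, -, hgL⟩ := tails
  obtain ⟨K, hK, n1, hup⟩ := class_up hε hε1 hgL (Nat.zero_le 1) (Nat.zero_le 1)
  have hG0 := G0_pos
  have hrho := BadD_rho
  set δ' : ℝ := δ / (4 * K * G0) with hδ'
  have hδ'0 : 0 < δ' := by positivity
  obtain ⟨C, hC, hbig⟩ := tg_big δ' hδ'0
  obtain ⟨c, hc, n2, hsmall⟩ := tg_small δ' hδ'0
  obtain ⟨n3, hn3⟩ := exists_nat_ge (1 / δ')
  obtain ⟨n4, hn4⟩ := exists_nat_ge (2 * n2 / ε)
  refine ⟨c / (2 / ε) ^ (1 / 4 : ℝ), 2 * C, by positivity, by positivity,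
    max (max n1 n3) (max n4 1), fun n hn => ?_⟩
  have hn1' : n1 ≤ n := le_trans (le_max_left _ _) (le_trans (le_max_left _ _) hn)
  have hn3' : n3 ≤ n := le_trans (le_max_right _ _) (le_trans (le_max_left _ _) hn)
  have hn4' : n4 ≤ n := le_trans (le_max_left _ _) (le_trans (le_max_right _ _) hn)
  have hn1 : 1 ≤ n := le_trans (le_max_right _ _) (le_trans (le_max_right _ _) hn)
  have hnn : (1 : ℝ) ≤ n := by exact_mod_cast hn1
  have hnpos : (0 : ℝ) < n := by linarith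
  have hinv : 1 / (n : ℝ) ≤ δ' := by
    have h1 : 1 / δ' ≤ n := hn3.trans (by exact_mod_cast hn3')
    rw [div_le_iff₀ hδ'0] at h1
    rw [div_le_iff₀ hnpos]
    linarith
  -- the two window bounds
  have hwb : WinB δ' (ε * n / 2) (4 * n) (tauG (PBig (2 * C * (n : ℝ) ^ (1 / 4 : ℝ))).two) := by
    intro N hN1 _ hN3 J hJ
    refine le_trans (Finset.sum_le_sum fun e _ => ?_) (hbig N hN1 J hJ)
    refine tauG_mono (fun V G x y h => ?_) e
    obtain ⟨x', y', h2⟩ := h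
    refine ⟨x', y', le_trans ?_ h2⟩
    have hNn : (N : ℝ) ^ (1 / 4 : ℝ) ≤ 2 * (n : ℝ) ^ (1 / 4 : ℝ) := by
      have h3 : (N : ℝ) ^ (1 / 4 : ℝ) ≤ (16 * n : ℝ) ^ (1 / 4 : ℝ) :=
        Real.rpow_le_rpow (by positivity) (by linarith) (by norm_num)
      rw [Real.mul_rpow (by norm_num) hnpos.le] at h3
      have h4 : (16 : ℝ) ^ (1 / 4 : ℝ) = 2 := by
        rw [show (16 : ℝ) = 2 ^ (4 : ℝ) by norm_num, ← Real.rpow_mul (by norm_num)]
        norm_num
      rwa [h4] at h3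
    nlinarith
  have hws : WinB δ' (ε * n / 2) (4 * n)
      (tauG (PSmall (c / (2 / ε) ^ (1 / 4 : ℝ) * (n : ℝ) ^ (1 / 4 : ℝ))).two) := by
    intro N hN1 hN2 _ J hJ
    have hNn2 : n2 ≤ N := by
      have h3 : 2 * n2 / ε ≤ n := hn4.trans (by exact_mod_cast hn4')
      rw [div_le_iff₀ hε] at h3
      have h4 : (n2 : ℝ) ≤ N := by linarith
      exact_mod_cast h4
    refine le_trans (Finset.sum_le_sum fun e _ => ?_) (hsmall N hNn2 J hJ)
    refine tauG_mono (fun V G x y h => ?_) e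
    intro x' y'
    refine (h x' y').trans ?_
    have h3 : (n : ℝ) ^ (1 / 4 : ℝ) ≤ (2 / ε) ^ (1 / 4 : ℝ) * (N : ℝ) ^ (1 / 4 : ℝ) := by
      rw [← Real.mul_rpow (by positivity) (by positivity)]
      apply Real.rpow_le_rpow hnpos.le _ (by norm_num)
      rw [div_mul_eq_mul_div, le_div_iff₀ hε]
      linarith
    have h4 : 0 < (2 / ε) ^ (1 / 4 : ℝ) := by positivity
    calc c / (2 / ε) ^ (1 / 4 : ℝ) * (n : ℝ) ^ (1 / 4 : ℝ)
        ≤ c / (2 / ε) ^ (1 / 4 : ℝ) * ((2 / ε) ^ (1 / 4 : ℝ) * (N : ℝ) ^ (1 / 4 : ℝ)) :=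
          mul_le_mul_of_nonneg_left h3 (by positivity)
      _ = c * (N : ℝ) ^ (1 / 4 : ℝ) := by field_simp
  have hb := hup n hn1' δ' _ hδ'0.le (BadD_inv_big _) hwb n
  have hs := hup n hn1' δ' _ hδ'0.le (BadD_inv_small _) hws n
  rw [BadD_mul]
  have h5 : sVE n ε (fun v e => pairN n v e (fun E X =>
      PBig (2 * C * (n : ℝ) ^ (1 / 4 : ℝ)) _ (torso E X) ∨
        PSmall (c / (2 / ε) ^ (1 / 4 : ℝ) * (n : ℝ) ^ (1 / 4 : ℝ)) _ (torso E X)) * rho ^ n) ≤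
      sVE n ε (fun v e => pairN n v e (fun E X =>
        PBig (2 * C * (n : ℝ) ^ (1 / 4 : ℝ)) _ (torso E X)) * rho ^ n +
        pairN n v e (fun E X =>
        PSmall (c / (2 / ε) ^ (1 / 4 : ℝ) * (n : ℝ) ^ (1 / 4 : ℝ)) _ (torso E X)) * rho ^ n) := by
    refine BadD_mono fun v e _ _ _ => ?_
    rw [← add_mul]
    exact mul_le_mul_of_nonneg_right (BadD_or n v e _ _) (pow_nonneg hrho.le n)
  refine h5.trans ?_
  rw [BadD_add, BadD_class (BadD_inv_big _), BadD_class (BadD_inv_small _)]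
  have h6 : (0 : ℝ) ≤ (n : ℝ) ^ (-(7 / 2) : ℝ) := by positivity
  have h7 : K * (δ' + 1 / n) * (n : ℝ) ^ (-(7 / 2) : ℝ) * G0 ≤
      δ / 2 * (n : ℝ) ^ (-(7 / 2) : ℝ) := by
    have h8 : K * (δ' + 1 / n) * G0 ≤ δ / 2 := by
      have h9 : K * (δ' + 1 / n) * G0 ≤ K * (δ' + δ') * G0 :=
        mul_le_mul_of_nonneg_right (mul_le_mul_of_nonneg_left (by linarith) hK.le) hG0.le
      refine h9.trans (le_of_eq ?_)
      rw [hδ']
      field_simp
      norm_num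
    calc K * (δ' + 1 / n) * (n : ℝ) ^ (-(7 / 2) : ℝ) * G0
        = (K * (δ' + 1 / n) * G0) * (n : ℝ) ^ (-(7 / 2) : ℝ) := by ring
      _ ≤ δ / 2 * (n : ℝ) ^ (-(7 / 2) : ℝ) := mul_le_mul_of_nonneg_right h8 h6
  have h10 := mul_le_mul_of_nonneg_right hb hG0.le
  have h11 := mul_le_mul_of_nonneg_right hs hG0.le
  linarith


end Dia
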