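import Pool.Agent.Dia.ClassUp
import Pool.Agent.Dia.Pairs
import Pool.Agent.Dia.FarEnd

/-!
# Module BadF: few pairs are bad (bad_far)

`pair_far` with `L = ⌈n^(23/100)⌉`, `SL_cons`: at most
`kP v e R0^v D0^e G0 (3n/R0 ∑_j wt (rF L) rho j cvL (SL rL dL gL (v-1) e) (n-j) + 3n/D0 ∑_j wt (dF L) rho j ..)`
(`v, e ≤ 3 n`; `kP = 0` for `v = 0` or `e = 0`: `kP_small`); exchange the sums, `all_up` for every `m = n - j`
(`a = 1, b = 0` and `a = 0, b = 1`): `≤ K n n^(-7/2) (∑ wt (rF L) rho + ∑ wt (dF L) rho) ≤ K n^(-5/2) n^(-23/100 * 24/5)` by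
`far_tot`, and `23/100 * 24/5 = 1.104 > 1`.
-/

set_option linter.unusedSectionVars false

namespace Dia
open Finset PGr Pool.Agent.DiamP Pool.Agent.DiamP.Hv

theorem BadF_mono {n : ℕ} {ε : ℝ} {F F' : ℕ → ℕ → ℝ}
    (h : ∀ v e : ℕ, v ≤ n → e ≤ 3 * n → ε * n ≤ e → F v e ≤ F' v e) : sVE n ε F ≤ sVE n ε F' := by
  unfold sVE
  refine Finset.sum_le_sum fun e he => Finset.sum_le_sum fun v hv => ?_
  rw [Finset.mem_filter, Finset.mem_range] at he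
  rw [Finset.mem_range] at hv
  exact h v e (by omega) (by omega) he.2

theorem BadF_mul {n : ℕ} {ε : ℝ} (F : ℕ → ℕ → ℝ) (c : ℝ) :
    sVE n ε F * c = sVE n ε (fun v e => F v e * c) := by
  unfold sVE
  rw [Finset.sum_mul]
  refine Finset.sum_congr rfl fun e _ => ?_
  rw [Finset.sum_mul]

theorem BadF_sum {n : ℕ} {ε : ℝ} (s : Finset ℕ) (c : ℕ → ℝ) (F : ℕ → ℕ → ℕ → ℝ) :
    sVE n ε (fun v e => ∑ j ∈ s, c j * F j v e) = ∑ j ∈ s, c j * sVE n ε (F j) := by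
  unfold sVE
  rw [Finset.sum_congr rfl (fun e _ => Finset.sum_comm), Finset.sum_comm]
  refine Finset.sum_congr rfl fun j _ => ?_
  rw [Finset.mul_sum]
  refine Finset.sum_congr rfl fun e _ => ?_
  rw [Finset.mul_sum]

theorem BadF_add {n : ℕ} {ε : ℝ} (F F' : ℕ → ℕ → ℝ) :
    sVE n ε (fun v e => F v e + F' v e) = sVE n ε F + sVE n ε F' := by
  unfold sVE
  rw [← Finset.sum_add_distrib]
  refine Finset.sum_congr rfl fun e _ => ?_
  rw [← Finset.sum_add_distrib]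

theorem BadF_rho : 0 < rho := by
  have := rho_ge
  linarith

theorem BadF_rF (L k : ℕ) : 0 ≤ rF L k := by
  unfold rF sh
  split_ifs
  · exact le_rfl
  · unfold es1
    positivity

theorem BadF_dF (L k : ℕ) : 0 ≤ dF L k := by
  unfold dF es2
  positivity

theorem BadF_kP (P : PG0) (v e : ℕ) : 0 ≤ kP P v e := by
  unfold kP
  positivity

theorem BadF_t1 {k R D G N : ℝ} {v e n : ℕ} (hk : 0 ≤ k) (hR0 : R ≠ 0) (hv : 1 ≤ v)
    (hvn : (v : ℝ) ≤ N) (hR : 0 ≤ R) (hD : 0 ≤ D) (hG : 0 ≤ G) (w c : ℕ → ℝ) (hw : ∀ j, 0 ≤ w j)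
    (hc : ∀ j, 0 ≤ c j) :
    k * (v * (R ^ (v - 1) * D ^ e * G * ∑ j ∈ range (n + 1), w j * c j)) ≤
      ∑ j ∈ range (n + 1), (w j * (G / R * N)) * (k * R ^ v * D ^ e * c j) := by
  have hRv : R ^ v = R ^ (v - 1) * R := by
    rw [← pow_succ]
    congr 1
    omega
  have hS : 0 ≤ ∑ j ∈ range (n + 1), w j * c j :=
    Finset.sum_nonneg fun j _ => mul_nonneg (hw j) (hc j)
  have e2 : ∑ j ∈ range (n + 1), (w j * (G / R * N)) * (k * R ^ v * D ^ e * c j) =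
      k * (N * (R ^ (v - 1) * D ^ e * G * ∑ j ∈ range (n + 1), w j * c j)) := by
    rw [Finset.mul_sum, Finset.mul_sum, Finset.mul_sum]
    refine Finset.sum_congr rfl fun j _ => ?_
    rw [hRv]
    field_simp
  rw [e2]
  refine mul_le_mul_of_nonneg_left ?_ hk
  exact mul_le_mul_of_nonneg_right hvn (by positivity)

theorem BadF_t2 {k R D G N : ℝ} {v e n : ℕ} (hk : 0 ≤ k)
    (hen : (e : ℝ) ≤ 3 * N) (hR : 0 ≤ R) (hD : 1 ≤ D) (hG : 0 ≤ G) (w c : ℕ → ℝ)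
    (hw : ∀ j, 0 ≤ w j) (hc : ∀ j, 0 ≤ c j) :
    k * (e * (R ^ v * D ^ (e - 1) * G * ∑ j ∈ range (n + 1), w j * c j)) ≤
      ∑ j ∈ range (n + 1), (w j * (G * 3 * N)) * (k * R ^ v * D ^ e * c j) := by
  have hS : 0 ≤ ∑ j ∈ range (n + 1), w j * c j :=
    Finset.sum_nonneg fun j _ => mul_nonneg (hw j) (hc j)
  have e2 : ∑ j ∈ range (n + 1), (w j * (G * 3 * N)) * (k * R ^ v * D ^ e * c j) =
      k * ((3 * N) * (R ^ v * D ^ e * G * ∑ j ∈ range (n + 1), w j * c j)) := by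
    rw [Finset.mul_sum, Finset.mul_sum, Finset.mul_sum]
    refine Finset.sum_congr rfl fun j _ => ?_
    ring
  have hD0 : 0 ≤ D := by linarith
  have he0 : (0 : ℝ) ≤ e := Nat.cast_nonneg _
  rw [e2]
  refine mul_le_mul_of_nonneg_left ?_ hk
  refine mul_le_mul hen ?_ (by positivity) (by linarith)
  refine mul_le_mul_of_nonneg_right ?_ hS
  refine mul_le_mul_of_nonneg_right ?_ hG
  refine mul_le_mul_of_nonneg_left ?_ (by positivity)
  exact pow_le_pow_right₀ hD (Nat.sub_le _ _)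

theorem BadF_num {x y : ℝ} (hx : 0 < x) (h1 : 1 ≤ x ^ (23 / 100 : ℝ)) (h : x ^ (23 / 100 : ℝ) ≤ y) :
    y ^ (-(24 / 5) : ℝ) * x ≤ x ^ (-(13 / 125 : ℝ)) := by
  have h10 : y ^ (-(24 / 5) : ℝ) ≤ (x ^ (23 / 100 : ℝ)) ^ (-(24 / 5) : ℝ) :=
    Real.rpow_le_rpow_of_nonpos (lt_of_lt_of_le one_pos h1) h (by norm_num)
  rw [← Real.rpow_mul hx.le] at h10
  calc y ^ (-(24 / 5) : ℝ) * x
      ≤ x ^ ((23 / 100 : ℝ) * (-(24 / 5))) * x := mul_le_mul_of_nonneg_right h10 hx.le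
    _ = x ^ (-(13 / 125 : ℝ)) := by
        rw [← Real.rpow_add_one hx.ne']
        norm_num

theorem bad_far {ε δ : ℝ} (hε : 0 < ε) (hε1 : ε < 1) (hδ : 0 < δ) :
    ∃ n0 : ℕ, ∀ n : ℕ, n0 ≤ n → sVE n ε (fun v e => pairN n v e (fun E X =>
      ∃ u, (∃ x ∈ X, E.Reachable u x) ∧ ∀ x ∈ X, ⌈(n : ℝ) ^ (23 / 100 : ℝ)⌉₊ ≤ E.dist u x)) *
        rho ^ n ≤ δ * (n : ℝ) ^ (-(7 / 2) : ℝ) := by
  obtain ⟨K0, -, -, hgL⟩ := tails
  obtain ⟨K1, hK1, n1, hup1⟩ := all_up hε hε1 hgL (le_refl 1) (Nat.zero_le 1)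
  obtain ⟨K2, hK2, n2, hup2⟩ := all_up hε hε1 hgL (Nat.zero_le 1) (le_refl 1)
  obtain ⟨Kf, hKf, hfar⟩ := far_tot
  have hG0 := G0_pos
  have hR0 := R0_pos
  have hD0 : 1 ≤ D0 := D0_range.1
  have hrho := BadF_rho
  have hlaw := hgL.law
  set C : ℝ := Kf * (G0 / R0 * K1 + G0 * 3 * K2) with hC
  have hC0 : 0 < C := by positivity
  have hlim : Filter.Tendsto (fun n : ℕ => (n : ℝ) ^ (-(13 / 125 : ℝ))) Filter.atTop (nhds 0) :=
    (tendsto_rpow_neg_atTop (by norm_num : (0 : ℝ) < 13 / 125)).comp tendsto_natCast_atTop_atTop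
  have hev : ∀ᶠ n : ℕ in Filter.atTop, (n : ℝ) ^ (-(13 / 125 : ℝ)) < δ / C :=
    (tendsto_order.1 hlim).2 _ (by positivity)
  obtain ⟨n3, hn3⟩ := Filter.eventually_atTop.1 hev
  refine ⟨max (max n1 n2) (max n3 1), fun n hn => ?_⟩
  have hn1' : n1 ≤ n := le_trans (le_max_left _ _) (le_trans (le_max_left _ _) hn)
  have hn2' : n2 ≤ n := le_trans (le_max_right _ _) (le_trans (le_max_left _ _) hn)
  have hn3' : n3 ≤ n := le_trans (le_max_left _ _) (le_trans (le_max_right _ _) hn)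
  have hn1 : 1 ≤ n := le_trans (le_max_right _ _) (le_trans (le_max_right _ _) hn)
  have hnn : (1 : ℝ) ≤ n := by exact_mod_cast hn1
  have hnpos : (0 : ℝ) < n := by linarith
  set L : ℕ := ⌈(n : ℝ) ^ (23 / 100 : ℝ)⌉₊ with hL
  have hLn : (n : ℝ) ^ (23 / 100 : ℝ) ≤ L := Nat.le_ceil _
  have hnL1 : (1 : ℝ) ≤ (n : ℝ) ^ (23 / 100 : ℝ) := Real.one_le_rpow hnn (by norm_num)
  have hL1 : 1 ≤ L := by
    have : (1 : ℝ) ≤ L := hnL1.trans hLn
    exact_mod_cast this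
  obtain ⟨hs1, hs2, ht1, ht2⟩ := hfar L hL1
  have hw1 : ∀ j, 0 ≤ wt (rF L) rho j := fun j => mul_nonneg (BadF_rF L j) (pow_nonneg hrho.le j)
  have hw2 : ∀ j, 0 ≤ wt (dF L) rho j := fun j => mul_nonneg (BadF_dF L j) (pow_nonneg hrho.le j)
  rw [BadF_mul]
  have h2 : sVE n ε (fun v e => pairN n v e (fun E X =>
      ∃ u, (∃ x ∈ X, E.Reachable u x) ∧ ∀ x ∈ X, L ≤ E.dist u x) * rho ^ n) ≤
      sVE n ε (fun v e =>
        (∑ j ∈ range (n + 1), (wt (rF L) rho j * (G0 / R0 * n)) *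
          (kP PGT0 v e * R0 ^ v * D0 ^ e * cvL (SL rL dL gL (v - 1) (e - 0)) (n - j))) +
        ∑ j ∈ range (n + 1), (wt (dF L) rho j * (G0 * 3 * n)) *
          (kP PGT0 v e * R0 ^ v * D0 ^ e * cvL (SL rL dL gL (v - 0) (e - 1)) (n - j))) := by
    refine BadF_mono fun v e hv he _ => ?_
    have h3 := mul_le_mul_of_nonneg_right (pair_far n v e L hL1) (pow_nonneg hrho.le n)
    refine h3.trans ?_
    rw [Nat.sub_zero, Nat.sub_zero]
    by_cases hk : kP PGT0 v e = 0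
    · simp [hk]
    have hk0 := BadF_kP PGT0 v e
    obtain ⟨hv4, he1, -, -⟩ := kP_small PGT0 hk
    have hvn : (v : ℝ) ≤ n := by exact_mod_cast hv
    have hen : (e : ℝ) ≤ 3 * n := by exact_mod_cast he
    have e1 : kP PGT0 v e * (v * cvL (rF L :: SL (rN ⊤) (dN ⊤) (gN ⊤) (v - 1) e) n +
        e * cvL (dF L :: SL (rN ⊤) (dN ⊤) (gN ⊤) v (e - 1)) n) * rho ^ n =
        kP PGT0 v e * (v * (cvL (rF L :: SL (rN ⊤) (dN ⊤) (gN ⊤) (v - 1) e) n * rho ^ n)) +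
        kP PGT0 v e * (e * (cvL (dF L :: SL (rN ⊤) (dN ⊤) (gN ⊤) v (e - 1)) n * rho ^ n)) := by
      ring
    rw [e1, SL_cons, SL_cons]
    refine add_le_add ?_ ?_
    · exact BadF_t1 hk0 hR0.ne' (by omega) hvn hR0.le (by linarith) hG0.le
        (fun j => wt (rF L) rho j) (fun j => cvL (SL rL dL gL (v - 1) e) (n - j)) hw1
        (fun j => PS_nonneg hlaw _ _ _)
    · exact BadF_t2 hk0 hen hR0.le hD0 hG0.le
        (fun j => wt (dF L) rho j) (fun j => cvL (SL rL dL gL v (e - 1)) (n - j)) hw2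
        (fun j => PS_nonneg hlaw _ _ _)
  refine h2.trans ?_
  rw [BadF_add, BadF_sum, BadF_sum]
  have h6 : (0 : ℝ) ≤ (n : ℝ) ^ (-(7 / 2) : ℝ) := by positivity
  have h7 : ∑ j ∈ range (n + 1), (wt (rF L) rho j * (G0 / R0 * n)) *
      sVE n ε (fun v e => kP PGT0 v e * R0 ^ v * D0 ^ e *
        cvL (SL rL dL gL (v - 1) (e - 0)) (n - j)) ≤
      (Kf * (L : ℝ) ^ (-(24 / 5) : ℝ)) * ((G0 / R0 * n) * (K1 * (n : ℝ) ^ (-(7 / 2) : ℝ))) := by
    have h8 : ∑ j ∈ range (n + 1), (wt (rF L) rho j * (G0 / R0 * n)) *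
        sVE n ε (fun v e => kP PGT0 v e * R0 ^ v * D0 ^ e *
          cvL (SL rL dL gL (v - 1) (e - 0)) (n - j)) ≤
        ∑ j ∈ range (n + 1), wt (rF L) rho j *
          ((G0 / R0 * n) * (K1 * (n : ℝ) ^ (-(7 / 2) : ℝ))) := by
      refine Finset.sum_le_sum fun j _ => ?_
      rw [mul_assoc]
      refine mul_le_mul_of_nonneg_left ?_ (hw1 j)
      exact mul_le_mul_of_nonneg_left (hup1 n hn1' (n - j)) (by positivity)
    refine h8.trans ?_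
    rw [← Finset.sum_mul]
    refine mul_le_mul_of_nonneg_right ?_ (by positivity)
    exact (hs1.sum_le_tsum _ (fun j _ => hw1 j)).trans ht1
  have h9 : ∑ j ∈ range (n + 1), (wt (dF L) rho j * (G0 * 3 * n)) *
      sVE n ε (fun v e => kP PGT0 v e * R0 ^ v * D0 ^ e *
        cvL (SL rL dL gL (v - 0) (e - 1)) (n - j)) ≤
      (Kf * (L : ℝ) ^ (-(24 / 5) : ℝ)) * ((G0 * 3 * n) * (K2 * (n : ℝ) ^ (-(7 / 2) : ℝ))) := by
    have h8 : ∑ j ∈ range (n + 1), (wt (dF L) rho j * (G0 * 3 * n)) *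
        sVE n ε (fun v e => kP PGT0 v e * R0 ^ v * D0 ^ e *
          cvL (SL rL dL gL (v - 0) (e - 1)) (n - j)) ≤
        ∑ j ∈ range (n + 1), wt (dF L) rho j *
          ((G0 * 3 * n) * (K2 * (n : ℝ) ^ (-(7 / 2) : ℝ))) := by
      refine Finset.sum_le_sum fun j _ => ?_
      rw [mul_assoc]
      refine mul_le_mul_of_nonneg_left ?_ (hw2 j)
      exact mul_le_mul_of_nonneg_left (hup2 n hn2' (n - j)) (by positivity)
    refine h8.trans ?_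
    rw [← Finset.sum_mul]
    refine mul_le_mul_of_nonneg_right ?_ (by positivity)
    exact (hs2.sum_le_tsum _ (fun j _ => hw2 j)).trans ht2
  refine (add_le_add h7 h9).trans ?_
  have hLp := BadF_num hnpos hnL1 hLn
  have hfin := (hn3 n hn3').le
  have e3 : Kf * (L : ℝ) ^ (-(24 / 5) : ℝ) * (G0 / R0 * n * (K1 * (n : ℝ) ^ (-(7 / 2) : ℝ))) +
      Kf * (L : ℝ) ^ (-(24 / 5) : ℝ) * (G0 * 3 * n * (K2 * (n : ℝ) ^ (-(7 / 2) : ℝ))) =
      (C * ((L : ℝ) ^ (-(24 / 5) : ℝ) * n)) * (n : ℝ) ^ (-(7 / 2) : ℝ) := by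
    rw [hC]
    ring
  rw [e3]
  refine mul_le_mul_of_nonneg_right ?_ h6
  calc C * ((L : ℝ) ^ (-(24 / 5) : ℝ) * n) ≤ C * (δ / C) :=
        mul_le_mul_of_nonneg_left (hLp.trans hfin) hC0.le
    _ = δ := by field_simp


end Dia
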