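import Pool.Agent.Dia.ClassUp
import Pool.Agent.Dia.Pairs
import Pool.Agent.Dia.FarEnd

/-!
# Module BadR: few pairs are bad (bad_rest)

`pair_rest`, `SL_rest` with `F k = if l ≤ k then gN ⊤ k else 0`, exchange the sums, `all_up` with `g = one0`
(`HT_one0`) for every `m = n - j`: `≤ K n^(-7/2) ∑_{j ≥ l} wt (gN ⊤) rho j`, and the tail of a convergent series
(`sum_g`) is small.
-/

set_option linter.unusedSectionVars false

namespace Dia
open Finset PGr Pool.Agent.DiamP Pool.Agent.DiamP.Hv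

theorem BadR_mono {n : ℕ} {ε : ℝ} {F F' : ℕ → ℕ → ℝ}
    (h : ∀ v e : ℕ, v ≤ n → e ≤ 3 * n → ε * n ≤ e → F v e ≤ F' v e) : sVE n ε F ≤ sVE n ε F' := by
  unfold sVE
  refine Finset.sum_le_sum fun e he => Finset.sum_le_sum fun v hv => ?_
  rw [Finset.mem_filter, Finset.mem_range] at he
  rw [Finset.mem_range] at hv
  exact h v e (by omega) (by omega) he.2

theorem BadR_mul {n : ℕ} {ε : ℝ} (F : ℕ → ℕ → ℝ) (c : ℝ) :
    sVE n ε F * c = sVE n ε (fun v e => F v e * c) := by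
  unfold sVE
  rw [Finset.sum_mul]
  refine Finset.sum_congr rfl fun e _ => ?_
  rw [Finset.sum_mul]

theorem BadR_sum {n : ℕ} {ε : ℝ} (s : Finset ℕ) (c : ℕ → ℝ) (F : ℕ → ℕ → ℕ → ℝ) :
    sVE n ε (fun v e => ∑ j ∈ s, c j * F j v e) = ∑ j ∈ s, c j * sVE n ε (F j) := by
  unfold sVE
  rw [Finset.sum_congr rfl (fun e _ => Finset.sum_comm), Finset.sum_comm]
  refine Finset.sum_congr rfl fun j _ => ?_
  rw [Finset.mul_sum]
  refine Finset.sum_congr rfl fun e _ => ?_
  rw [Finset.mul_sum]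

theorem BadR_add {n : ℕ} {ε : ℝ} (F F' : ℕ → ℕ → ℝ) :
    sVE n ε (fun v e => F v e + F' v e) = sVE n ε F + sVE n ε F' := by
  unfold sVE
  rw [← Finset.sum_add_distrib]
  refine Finset.sum_congr rfl fun e _ => ?_
  rw [← Finset.sum_add_distrib]

theorem BadR_rho : 0 < rho := by
  have := rho_ge
  linarith

theorem BadR_gN (k : ℕ) : 0 ≤ wt (gN ⊤) rho k := by
  unfold wt gN
  have := BadR_rho
  positivity

theorem bad_rest {ε δ : ℝ} (hε : 0 < ε) (hε1 : ε < 1) (hδ : 0 < δ) : ∃ l : ℕ,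
    ∃ n0 : ℕ, ∀ n : ℕ, n0 ≤ n → sVE n ε (fun v e => pairN n v e (fun E X =>
      l ≤ Nat.card {u // ∀ x ∈ X, ¬ E.Reachable u x})) * rho ^ n ≤
        δ * (n : ℝ) ^ (-(7 / 2) : ℝ) := by
  obtain ⟨K, hK, n0, hup⟩ := all_up hε hε1 (HT_one0 le_rfl) (Nat.zero_le 1) (Nat.zero_le 1)
  have hrho := BadR_rho
  have htail := tendsto_sum_nat_add (wt (gN ⊤) rho)
  have h1 : ∀ᶠ l in Filter.atTop, ∑' k, wt (gN ⊤) rho (k + l) < δ / K :=
    (tendsto_order.1 htail).2 _ (by positivity)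
  obtain ⟨l, hl⟩ := h1.exists
  refine ⟨l, n0, fun n hn => ?_⟩
  rw [BadR_mul]
  have h2 : sVE n ε (fun v e => pairN n v e (fun E X =>
      l ≤ Nat.card {u // ∀ x ∈ X, ¬ E.Reachable u x}) * rho ^ n) ≤
      sVE n ε (fun v e => ∑ j ∈ range (n + 1), wt (fun k => if l ≤ k then gN ⊤ k else 0) rho j *
        (kP PGT0 v e * R0 ^ v * D0 ^ e * cvL (SL rL dL one0 (v - 0) (e - 0)) (n - j))) := by
    refine BadR_mono fun v e _ _ _ => ?_
    have h3 := mul_le_mul_of_nonneg_right (pair_rest n v e l) (pow_nonneg hrho.le n)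
    refine h3.trans (le_of_eq ?_)
    rw [mul_assoc, SL_rest, Finset.mul_sum, Finset.mul_sum]
    refine Finset.sum_congr rfl fun j _ => ?_
    rw [Nat.sub_zero, Nat.sub_zero]
    ring
  refine h2.trans ?_
  rw [BadR_sum]
  have hw : ∀ j, 0 ≤ wt (fun k => if l ≤ k then gN ⊤ k else 0) rho j := by
    intro j
    have h4 := BadR_gN j
    unfold wt at h4 ⊢
    dsimp only
    split_ifs
    · exact h4
    · simp
  have h5 : ∑ j ∈ range (n + 1), wt (fun k => if l ≤ k then gN ⊤ k else 0) rho j *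
      sVE n ε (fun v e => kP PGT0 v e * R0 ^ v * D0 ^ e *
        cvL (SL rL dL one0 (v - 0) (e - 0)) (n - j)) ≤
      ∑ j ∈ range (n + 1), wt (fun k => if l ≤ k then gN ⊤ k else 0) rho j *
        (K * (n : ℝ) ^ (-(7 / 2) : ℝ)) :=
    Finset.sum_le_sum fun j _ => mul_le_mul_of_nonneg_left (hup n hn (n - j)) (hw j)
  refine h5.trans ?_
  rw [← Finset.sum_mul]
  have h6 : ∑ j ∈ range (n + 1), wt (fun k => if l ≤ k then gN ⊤ k else 0) rho j ≤
      ∑' k, wt (gN ⊤) rho (k + l) := by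
    have h7 : ∑ j ∈ range (n + 1), wt (fun k => if l ≤ k then gN ⊤ k else 0) rho j =
        ∑ j ∈ (range (n + 1)).filter (fun j => l ≤ j), wt (gN ⊤) rho j := by
      rw [Finset.sum_filter]
      refine Finset.sum_congr rfl fun j _ => ?_
      unfold wt
      dsimp only
      split_ifs
      · rfl
      · simp
    rw [h7]
    have h8 : ∑ j ∈ (range (n + 1)).filter (fun j => l ≤ j), wt (gN ⊤) rho j ≤
        ∑ k ∈ range (n + 1), wt (gN ⊤) rho (k + l) := by
      have h9 : (range (n + 1)).filter (fun j => l ≤ j) ⊆ (range (n + 1)).map (addRightEmbedding l) := by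
        intro j hj
        rw [Finset.mem_filter, Finset.mem_range] at hj
        rw [Finset.mem_map]
        exact ⟨j - l, Finset.mem_range.2 (by omega), by simp; omega⟩
      refine (Finset.sum_le_sum_of_subset_of_nonneg h9 fun j _ _ => BadR_gN j).trans ?_
      rw [Finset.sum_map]
      rfl
    refine h8.trans ?_
    exact ((summable_nat_add_iff l).2 sum_g).sum_le_tsum _ (fun k _ => BadR_gN _)
  have h10 : (0 : ℝ) ≤ (n : ℝ) ^ (-(7 / 2) : ℝ) := by positivity
  calc (∑ j ∈ range (n + 1), wt (fun k => if l ≤ k then gN ⊤ k else 0) rho j) *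
        (K * (n : ℝ) ^ (-(7 / 2) : ℝ)) ≤ (δ / K) * (K * (n : ℝ) ^ (-(7 / 2) : ℝ)) :=
        mul_le_mul_of_nonneg_right (h6.trans hl.le) (by positivity)
    _ = δ * (n : ℝ) ^ (-(7 / 2) : ℝ) := by field_simp


end Dia
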