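import Pool.Agent.Dia.PhiInj
import Pool.Agent.PGr.RetLib

/-!
# Module InvM: invariance under isomorphism

`e : M.T ≃ N.T` commutes with `a, s`, preserves `l` and the root.  Then `e (M.ph t) = N.ph (e t)`,
`e (M.fa t) = N.fa (e t)`, `t ∈ M.up ↔ e t ∈ N.up`, `Quotient.congr`-type bijections for the cycles,
`e` intertwines `ret s up` (`PGr.ret_spec`), `sig`, `bk`, `phiS`.

For `LIso.phi`: `phiS M` is bijective iff `phiS N` is (they are conjugate by
`f = Equiv.prodCongr e (Equiv.refl _)`), so no hypothesis is needed; `sig`: the predicate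
`M.l ((M.fa ^ (k+1)) c) = M.l c - 1` is equivalent to the one for `N`, `e c`; so `Nat.find` agree
(`Nat.find_congr'` or `congr`), etc.
-/

set_option linter.unusedSectionVars false

namespace Dia
open Equiv Finset PGr

theorem InvM_zpow {T T' : Type} {s : Perm T} {s' : Perm T'} (e : T ≃ T')
    (h : ∀ t, e (s t) = s' (e t)) (k : ℤ) (t : T) : e ((s ^ k) t) = (s' ^ k) (e t) := by
  have hs : s' = Equiv.permCongrHom e s := by
    ext x
    obtain ⟨t, rfl⟩ := e.surjective x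
    simp [Equiv.permCongrHom, ← h]
  rw [hs, ← map_zpow]
  simp [Equiv.permCongrHom]

theorem InvM_pow {T T' : Type} {s : Perm T} {s' : Perm T'} (e : T ≃ T')
    (h : ∀ t, e (s t) = s' (e t)) (k : ℕ) (t : T) : e ((s ^ k) t) = (s' ^ k) (e t) := by
  have := InvM_zpow e h (k : ℤ) t
  simpa using this

theorem InvM_inv {T T' : Type} {s : Perm T} {s' : Perm T'} (e : T ≃ T')
    (h : ∀ t, e (s t) = s' (e t)) (t : T) : e (s⁻¹ t) = s'⁻¹ (e t) := by
  have := InvM_zpow e h (-1) t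
  simpa using this

theorem InvM_sc {T T' : Type} {s : Perm T} {s' : Perm T'} (e : T ≃ T')
    (h : ∀ t, e (s t) = s' (e t)) (x y : T) : s.SameCycle x y ↔ s'.SameCycle (e x) (e y) := by
  constructor
  · rintro ⟨k, rfl⟩
    exact ⟨k, (InvM_zpow e h k x).symm⟩
  · rintro ⟨k, hk⟩
    refine ⟨k, e.injective ?_⟩
    rw [InvM_zpow e h k x, hk]

/-- the bijection of the cycles -/
def InvM_Q {T T' : Type} {s : Perm T} {s' : Perm T'} (e : T ≃ T')
    (h : ∀ t, e (s t) = s' (e t)) :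
    Quotient (Perm.SameCycle.setoid s) ≃ Quotient (Perm.SameCycle.setoid s') :=
  Quotient.congr e fun x y => InvM_sc e h x y

theorem InvM_Q_mk {T T' : Type} {s : Perm T} {s' : Perm T'} (e : T ≃ T')
    (h : ∀ t, e (s t) = s' (e t)) (t : T) :
    InvM_Q e h (Quotient.mk _ t) = Quotient.mk _ (e t) := rfl

/-- conjugate permutations have the same number of cycles -/
theorem nV_congr {T T' : Type} [Fintype T] [DecidableEq T] [Fintype T'] [DecidableEq T']
    {s : Perm T} {s' : Perm T'} (e : T ≃ T') (h : ∀ t, e (s t) = s' (e t)) : nV s = nV s' :=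
  Nat.card_congr (InvM_Q e h)

theorem RMIso.card {M N : RM} (h : RMIso M N) : Fintype.card M.T = Fintype.card N.T := by
  obtain ⟨e, _⟩ := h
  exact Fintype.card_congr e

theorem RMIso.nV_s {M N : RM} (h : RMIso M N) : nV M.s = nV N.s := by
  obtain ⟨e, _, h2, _⟩ := h
  exact nV_congr e h2

theorem RMIso.nV_ph {M N : RM} (h : RMIso M N) : nV M.ph = nV N.ph := by
  obtain ⟨e, h1, h2, _⟩ := h
  exact nV_congr e fun t => by
    show e (M.a (M.s t)) = N.a (N.s (e t))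
    rw [h1, h2]

theorem RMIso.isMap {M N : RM} (h : RMIso M N) (hM : M.IsMap) : N.IsMap := by
  obtain ⟨e, h1, h2, _⟩ := h
  refine ⟨fun t => ?_, fun t => ?_, ?_⟩
  · obtain ⟨t, rfl⟩ := e.surjective t
    rw [← h1, ← h1, hM.inv]
  · obtain ⟨t, rfl⟩ := e.surjective t
    rw [← h1]
    exact fun hh => hM.fpf t (e.injective hh)
  · intro A ha hs hne
    have := hM.conn (A.map e.symm.toEmbedding) (fun t ht => by
      simp only [mem_map_equiv, Equiv.symm_symm] at ht ⊢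
      rw [h1]
      exact ha _ ht) (fun t ht => by
      simp only [mem_map_equiv, Equiv.symm_symm] at ht ⊢
      rw [h2]
      exact hs _ ht) (by simpa using hne)
    apply eq_univ_of_forall
    intro x
    have hx : e.symm x ∈ A.map e.symm.toEmbedding := by rw [this]; exact mem_univ _
    simpa using hx

theorem RMIso.ok {M N : RM} (h : RMIso M N) (hM : M.Ok) : N.Ok := by
  refine ⟨h.isMap hM.toIsMap, ?_⟩
  have := hM.eu
  unfold RM.Eu at *
  rw [← h.nV_s, ← h.nV_ph, ← h.card]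
  exact this

theorem LIso.toRM {M N : LM} (h : LIso M N) : RMIso M.toRM N.toRM := by
  obtain ⟨e, h1, h2, _, h4⟩ := h
  exact ⟨e, h1, h2, h4⟩

theorem InvM_all {M N : LM} (e : M.T ≃ N.T) (h2 : ∀ t, e (M.s t) = N.s (e t))
    (P : M.T → Prop) (P' : N.T → Prop) (hP : ∀ t, P t ↔ P' (e t)) :
    Nat.card {v : M.V // ∀ t, M.vx t = v → P t} = Nat.card {v : N.V // ∀ t, N.vx t = v → P' t} := by
  refine Nat.card_congr (Equiv.subtypeEquiv (InvM_Q e h2) fun v => ?_)
  obtain ⟨u, rfl⟩ := Quotient.exists_rep v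
  rw [InvM_Q_mk]
  constructor
  · intro hh t ht
    obtain ⟨t, rfl⟩ := e.surjective t
    rw [← hP]
    apply hh
    have := Quotient.exact ht
    exact Quotient.sound ((InvM_sc e h2 _ _).mpr this)
  · intro hh t ht
    rw [hP]
    apply hh
    have := Quotient.exact ht
    exact Quotient.sound ((InvM_sc e h2 _ _).mp this)

theorem LIso.nmin {M N : LM} (h : LIso M N) : M.nmin = N.nmin := by
  obtain ⟨e, h1, h2, h3, _⟩ := h
  exact InvM_all e h2 _ _ fun t => by rw [← h1, h3, h3]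

theorem LIso.nmax {M N : LM} (h : LIso M N) : M.nmax = N.nmax := by
  obtain ⟨e, h1, h2, h3, _⟩ := h
  exact InvM_all e h2 _ _ fun t => by rw [← h1, h3, h3]

theorem LIso.rng {M N : LM} (h : LIso M N) : M.rng = N.rng := by
  obtain ⟨e, h1, h2, h3, _⟩ := h
  have hi : univ.image M.l = univ.image N.l := by
    ext z
    simp only [mem_image, mem_univ, true_and]
    constructor
    · rintro ⟨t, rfl⟩
      exact ⟨e t, h3 t⟩
    · rintro ⟨t, rfl⟩
      obtain ⟨t, rfl⟩ := e.surjective t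
      exact ⟨t, (h3 t).symm⟩
  unfold LM.rng
  congr 2
  · congr 1
  · congr 1

theorem LIso.isLM {M N : LM} (h : LIso M N) (hM : M.IsLM) : N.IsLM := by
  refine ⟨h.toRM.isMap hM.toIsMap, ?_, ?_⟩
  all_goals obtain ⟨e, h1, h2, h3, _⟩ := h
  · intro t
    obtain ⟨t, rfl⟩ := e.surjective t
    rw [← h2, h3, h3, hM.ls]
  · intro t
    obtain ⟨t, rfl⟩ := e.surjective t
    rw [← h1, h3, h3]
    exact hM.la t

theorem LIso.isLQ {M N : LM} (h : LIso M N) (hM : M.IsLQ) : N.IsLQ := by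
  have hm := h.toRM.isMap hM.toIsMap
  obtain ⟨e, h1, h2, h3, _⟩ := h
  have hp : ∀ t, N.ph (e t) = e (M.ph t) := fun t => by
    show N.a (N.s (e t)) = e (M.a (M.s t))
    rw [h1, h2]
  refine ⟨hm, ?_, ?_, ?_, ?_⟩
  · intro t
    obtain ⟨t, rfl⟩ := e.surjective t
    rw [← h2, h3, h3, hM.ls]
  · intro t
    obtain ⟨t, rfl⟩ := e.surjective t
    rw [← h1, h3, h3]
    exact hM.la t
  · intro t
    obtain ⟨t, rfl⟩ := e.surjective t
    rw [hp, hp, hp, hp, hM.four]
  · intro t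
    obtain ⟨t, rfl⟩ := e.surjective t
    rw [hp, hp]
    exact fun hh => hM.two t (e.injective hh)

theorem InvM_up {M N : LM} (e : M.T ≃ N.T) (h1 : ∀ t, e (M.a t) = N.a (e t))
    (h3 : ∀ t, N.l (e t) = M.l t) (t : M.T) : t ∈ M.up ↔ e t ∈ N.up := by
  rw [LM.mem_up, LM.mem_up, ← h1, h3, h3]

theorem LIso.root {M N : LM} (h : LIso M N) (hr : M.r ∈ M.up) : N.r ∈ N.up := by
  obtain ⟨e, h1, h2, h3, h4⟩ := h
  rw [← h4]
  exact (InvM_up e h1 h3 _).mp hr

theorem InvM_ret {T T' : Type} [Fintype T] [DecidableEq T] [Fintype T'] [DecidableEq T']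
    {s : Perm T} {s' : Perm T'} (e : T ≃ T') (h : ∀ t, e (s t) = s' (e t))
    {S : Finset T} {S' : Finset T'} (hS : ∀ t, t ∈ S ↔ e t ∈ S') (x : {x // x ∈ S}) :
    e (ret s S x).1 = (ret s' S' ⟨e x.1, (hS _).mp x.2⟩).1 := by
  obtain ⟨k, hk, hk1, hk2⟩ := exists_ret s S x
  have h1 : (s' ^ k) (e x.1) ∈ S' := by
    rw [← InvM_pow e h, ← hS, hk1]
    exact (ret s S x).2
  rw [ret_spec s' S' ⟨e x.1, (hS _).mp x.2⟩ hk h1 (fun i hi hi2 => by
    rw [← InvM_pow e h, ← hS]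
    exact hk2 i hi hi2)]
  show e (ret s S x).1 = (s' ^ k) (e x.1)
  rw [← InvM_pow e h, hk1]

theorem LIso.psi {M N : LM} (h : LIso M N) (hr : M.r ∈ M.up) (hr' : N.r ∈ N.up) :
    LIso (M.psi hr) (N.psi hr') := by
  obtain ⟨e, h1, h2, h3, h4⟩ := h
  have hu := InvM_up e h1 h3
  refine ⟨Equiv.subtypeEquiv e hu, fun t => ?_, fun t => ?_, fun t => ?_, ?_⟩
  · apply Subtype.ext
    exact InvM_ret e (fun t => by
      show e (M.a (M.s t)) = N.a (N.s (e t))
      rw [h1, h2]) hu t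
  · apply Subtype.ext
    exact InvM_ret e h2 hu t
  · exact h3 t.1
  · apply Subtype.ext
    exact h4

theorem InvM_sig {M N : LM} (e : M.T ≃ N.T) (hf : ∀ t, e (M.fa t) = N.fa (e t))
    (h3 : ∀ t, N.l (e t) = M.l t) (c : M.T) : e (M.sig c) = N.sig (e c) := by
  classical
  have hp : ∀ k, N.l ((N.fa ^ (k + 1)) (e c)) = N.l (e c) - 1 ↔
      M.l ((M.fa ^ (k + 1)) c) = M.l c - 1 := fun k => by
    rw [← InvM_pow e hf, h3, h3]
  unfold LM.sig
  by_cases h : ∃ k : ℕ, M.l ((M.fa ^ (k + 1)) c) = M.l c - 1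
  · have h' : ∃ k : ℕ, N.l ((N.fa ^ (k + 1)) (e c)) = N.l (e c) - 1 := by
      obtain ⟨k, hk⟩ := h
      exact ⟨k, (hp k).mpr hk⟩
    rw [dif_pos h, dif_pos h', InvM_pow e hf]
    congr 2
    congr 1
    apply le_antisymm
    · exact Nat.find_min' _ ((hp _).mp (Nat.find_spec h'))
    · exact Nat.find_min' _ ((hp _).mpr (Nat.find_spec h))
  · have h' : ¬ ∃ k : ℕ, N.l ((N.fa ^ (k + 1)) (e c)) = N.l (e c) - 1 := by
      rintro ⟨k, hk⟩
      exact h ⟨k, (hp k).mp hk⟩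
    rw [dif_neg h, dif_neg h']

theorem InvM_bk {M N : LM} (e : M.T ≃ N.T) (hf : ∀ t, e (M.fa t) = N.fa (e t))
    (h3 : ∀ t, N.l (e t) = M.l t) (c : M.T) : e (M.bk c) = N.bk (e c) := by
  classical
  have hf' : ∀ t, e (M.fa⁻¹ t) = N.fa⁻¹ (e t) := InvM_inv e hf
  have hp : ∀ k, N.l ((N.fa⁻¹ ^ (k + 1)) (e c)) ≤ N.l (e c) ↔
      M.l ((M.fa⁻¹ ^ (k + 1)) c) ≤ M.l c := fun k => by
    rw [← InvM_pow e hf', h3, h3]
  unfold LM.bk
  by_cases h : ∃ k : ℕ, M.l ((M.fa⁻¹ ^ (k + 1)) c) ≤ M.l c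
  · have h' : ∃ k : ℕ, N.l ((N.fa⁻¹ ^ (k + 1)) (e c)) ≤ N.l (e c) := by
      obtain ⟨k, hk⟩ := h
      exact ⟨k, (hp k).mpr hk⟩
    rw [dif_pos h, dif_pos h', InvM_pow e hf']
    congr 2
    congr 1
    apply le_antisymm
    · exact Nat.find_min' _ ((hp _).mp (Nat.find_spec h'))
    · exact Nat.find_min' _ ((hp _).mpr (Nat.find_spec h))
  · have h' : ¬ ∃ k : ℕ, N.l ((N.fa⁻¹ ^ (k + 1)) (e c)) ≤ N.l (e c) := by
      rintro ⟨k, hk⟩
      exact h ⟨k, (hp k).mp hk⟩
    rw [dif_neg h, dif_neg h']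

theorem InvM_phiS {M N : LM} (e : M.T ≃ N.T) (h1 : ∀ t, e (M.a t) = N.a (e t))
    (h2 : ∀ t, e (M.s t) = N.s (e t)) (h3 : ∀ t, N.l (e t) = M.l t) (t : M.T × Bool) :
    Equiv.prodCongr e (Equiv.refl Bool) (M.phiS t) =
      N.phiS (Equiv.prodCongr e (Equiv.refl Bool) t) := by
  have hf : ∀ t, e (M.fa t) = N.fa (e t) := fun t => by
    show e (M.s (M.a t)) = N.s (N.a (e t))
    rw [h2, h1]
  obtain ⟨c, b⟩ := t
  cases b
  · show Equiv.prodCongr e (Equiv.refl Bool)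
      (if M.l (M.fa⁻¹ c) = M.l c - 1 then (M.sig c, true) else (M.bk c, false)) =
      (if N.l (N.fa⁻¹ (e c)) = N.l (e c) - 1 then (N.sig (e c), true) else (N.bk (e c), false))
    rw [← InvM_inv e hf, h3, h3, ← InvM_sig e hf h3, ← InvM_bk e hf h3]
    split_ifs <;> rfl
  · show Equiv.prodCongr e (Equiv.refl Bool)
      (if M.l (M.a c) = M.l c + 1 then (M.a c, false) else (M.s c, true)) =
      (if N.l (N.a (e c)) = N.l (e c) + 1 then (N.a (e c), false) else (N.s (e c), true))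
    rw [← h1, h3, h3, ← h2]
    split_ifs <;> rfl

theorem LIso.phi {M N : LM} (h : LIso M N) : LIso M.phi N.phi := by
  obtain ⟨e, h1, h2, h3, h4⟩ := h
  have hS := InvM_phiS e h1 h2 h3
  set f : M.T × Bool ≃ N.T × Bool := Equiv.prodCongr e (Equiv.refl Bool) with hf
  have hc : N.phiS = f ∘ M.phiS ∘ f.symm := by
    funext x
    simp only [Function.comp]
    rw [hS, Equiv.apply_symm_apply]
  have hb : Function.Bijective N.phiS ↔ Function.Bijective M.phiS := by
    rw [hc]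
    rw [Equiv.comp_bijective, Equiv.bijective_comp]
  refine ⟨f, fun t => ?_, fun t => ?_, fun t => ?_, ?_⟩
  · obtain ⟨c, b⟩ := t
    rfl
  · by_cases hM : Function.Bijective M.phiS
    · rw [LM.phi_s M hM, LM.phi_s N (hb.mpr hM)]
      exact hS t
    · have hN : ¬ Function.Bijective N.phiS := fun hh => hM (hb.mp hh)
      have e1 : M.phi.s = 1 := by
        simp only [LM.phi, dif_neg hM]
        rfl
      have e2 : N.phi.s = 1 := by
        simp only [LM.phi, dif_neg hN]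
        rfl
      rw [e1, e2]
      rfl
  · obtain ⟨c, b⟩ := t
    cases b
    · show N.l (e c) - 1 = M.l c - 1
      rw [h3]
    · exact h3 c
  · show (e M.r, true) = (N.r, true)
    rw [h4]

theorem LIso.neg {M N : LM} (h : LIso M N) : LIso M.neg N.neg := by
  obtain ⟨e, h1, h2, h3, h4⟩ := h
  refine ⟨e, h1, h2, fun t => ?_, ?_⟩
  · show -1 - N.l (e t) = -1 - M.l t
    rw [h3]
  · show e (M.a M.r) = N.a N.r
    rw [h1, h4]

end Dia
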