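import Pool.Agent.Dia.PsiPhi

/-!
# Module PhiMax: local maxima of `phi M`, change of sign

`nmax_phi`: a vertex of `phi M` without higher neighbour consists of darts `t` with `l (a t) ≤ l t`,
i.e. of darts `(c,true)`; then `phi.s (c,true) = (s c,true)`, so `l (a c) ≠ l c + 1` for all these `c`, which
form an `s`-cycle of `M` without higher neighbour; conversely such a cycle gives a cycle of `phi.s`.

`neg`: `M.neg` has the same `T, a, s`; `l' = -1 - l` reverses the inequalities.
-/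

set_option linter.unusedSectionVars false

namespace Dia
open Equiv Finset PGr

variable {M : LM}

theorem PhiMax_step (h : M.IsLM) (c : M.T) (hc : M.l (M.a c) ≤ M.l c) :
    M.phi.s (c, true) = (M.s c, true) := by
  rw [LM.phi_s M h.phiS_bij]
  show (if M.l (M.a c) = M.l c + 1 then (M.a c, false) else (M.s c, true)) = (M.s c, true)
  rw [if_neg (by omega)]

theorem PhiMax_step' (h : M.IsLM) (c : M.T) (hc : (M.phi.s (c, true)).2 = true) :
    M.l (M.a c) ≤ M.l c := by
  rw [LM.phi_s M h.phiS_bij] at hc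
  have hc' : (if M.l (M.a c) = M.l c + 1 then (M.a c, false) else (M.s c, true)).2 = true := hc
  by_contra hlt
  have h1 := h.la c
  rw [if_pos (by omega)] at hc'
  exact Bool.noConfusion hc'

theorem PhiMax_pow (h : M.IsLM) (c : M.T)
    (hP : ∀ c', M.s.SameCycle c c' → M.l (M.a c') ≤ M.l c') (k : ℕ) :
    (M.phi.s ^ k) (c, true) = ((M.s ^ k) c, true) := by
  induction k with
  | zero => rfl
  | succ k ih =>
    rw [pow_succ', Perm.mul_apply, ih, PhiMax_step h _ (hP _ ⟨(k : ℤ), by simp⟩), pow_succ',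
      Perm.mul_apply]

theorem PhiMax_pow' (h : M.IsLM) (c : M.T)
    (hP : ∀ t', M.phi.s.SameCycle (c, true) t' → t'.2 = true) (k : ℕ) :
    (M.phi.s ^ k) (c, true) = ((M.s ^ k) c, true) ∧ M.l (M.a ((M.s ^ k) c)) ≤ M.l ((M.s ^ k) c) := by
  have key : ∀ k : ℕ, (M.phi.s ^ k) (c, true) = ((M.s ^ k) c, true) →
      M.l (M.a ((M.s ^ k) c)) ≤ M.l ((M.s ^ k) c) := by
    intro k hk
    apply PhiMax_step' h
    rw [← hk, ← Perm.mul_apply, ← pow_succ']
    exact hP _ ⟨((k + 1 : ℕ) : ℤ), by rw [zpow_natCast]⟩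
  induction k with
  | zero => exact ⟨rfl, key 0 rfl⟩
  | succ k ih =>
    have h1 : (M.phi.s ^ (k + 1)) (c, true) = ((M.s ^ (k + 1)) c, true) := by
      rw [pow_succ', Perm.mul_apply, ih.1, PhiMax_step h _ ih.2, pow_succ', Perm.mul_apply]
    exact ⟨h1, key _ h1⟩

theorem PhiMax_sc {T : Type} [Fintype T] [DecidableEq T] {s : Perm T} {x y : T}
    (hxy : s.SameCycle x y) : ∃ k : ℕ, (s ^ k) x = y := by
  obtain ⟨i, _, hi⟩ := hxy.exists_pow_eq'
  exact ⟨i, hi⟩

theorem PhiMax_le (t : M.T × Bool) : M.phi.l (M.phi.a t) ≤ M.phi.l t ↔ t.2 = true := by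
  obtain ⟨c, b⟩ := t
  cases b
  · rw [LM.phi_a]
    show M.l c ≤ M.l c - 1 ↔ false = true
    constructor
    · intro hh
      omega
    · intro hh
      exact Bool.noConfusion hh
  · rw [LM.phi_a]
    show M.l c - 1 ≤ M.l c ↔ true = true
    constructor
    · intro _
      rfl
    · intro _
      omega

theorem LM.IsLM.nmax_phi (h : M.IsLM) : M.phi.nmax = M.nmax := by
  symm
  unfold LM.nmax
  have hout : ∀ v : M.V, M.vx v.out = v := fun v => Quotient.out_eq v
  have hcyc : ∀ (v : M.V), (∀ t, M.vx t = v → M.l (M.a t) ≤ M.l t) →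
      ∀ c', M.s.SameCycle v.out c' → M.l (M.a c') ≤ M.l c' := by
    intro v hv c' hc'
    apply hv
    rw [← hout v]
    exact Quotient.sound hc'.symm
  refine Nat.card_congr (Equiv.ofBijective (fun v => ⟨M.phi.vx (v.1.out, true), ?_⟩) ⟨?_, ?_⟩)
  · intro t ht
    have h1 : M.phi.s.SameCycle (v.1.out, true) t := (Quotient.exact ht).symm
    obtain ⟨k, hk⟩ := PhiMax_sc (T := M.T × Bool) h1
    refine (PhiMax_le t).mpr ?_
    rw [← hk]
    have := PhiMax_pow h v.1.out (hcyc v.1 v.2) k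
    exact congrArg Prod.snd this
  · rintro ⟨v, hv⟩ ⟨w, hw⟩ hvw
    have h0 := congrArg Subtype.val hvw
    have h1 : M.phi.s.SameCycle (v.out, true) (w.out, true) := Quotient.exact h0
    obtain ⟨k, hk⟩ := PhiMax_sc (T := M.T × Bool) h1
    have h2 := PhiMax_pow h v.out (hcyc v hv) k
    have h3 : (M.s ^ k) v.out = w.out := by
      have h4 : (((M.s ^ k) v.out, true) : M.T × Bool) = (w.out, true) := h2.symm.trans hk
      exact congrArg Prod.fst h4
    apply Subtype.ext
    show v = w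
    rw [← hout v, ← hout w]
    exact Quotient.sound ⟨(k : ℤ), by rw [zpow_natCast]; exact h3⟩
  · rintro ⟨w, hw⟩
    obtain ⟨⟨c, b⟩, hc⟩ := Quotient.exists_rep w
    have hall : ∀ t', M.phi.s.SameCycle (c, b) t' → t'.2 = true := by
      intro t' ht'
      refine (PhiMax_le t').mp (hw t' ?_)
      rw [← hc]
      exact Quotient.sound ht'.symm
    have hb : b = true := hall (c, b) (Perm.SameCycle.refl _ _)
    subst hb
    have hP : ∀ c', M.s.SameCycle c c' → M.l (M.a c') ≤ M.l c' := by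
      intro c' hc'
      obtain ⟨k, hk⟩ := PhiMax_sc hc'
      rw [← hk]
      exact (PhiMax_pow' h c hall k).2
    refine ⟨⟨M.vx c, ?_⟩, ?_⟩
    · intro t ht
      exact hP t (Quotient.exact ht).symm
    · apply Subtype.ext
      show M.phi.vx ((M.vx c).out, true) = w
      rw [← hc]
      have h5 : M.s.SameCycle c (M.vx c).out := (Quotient.exact (hout (M.vx c))).symm
      obtain ⟨k, hk⟩ := PhiMax_sc h5
      refine Quotient.sound (Perm.SameCycle.symm ⟨(k : ℤ), ?_⟩)
      rw [zpow_natCast, ← hk]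
      exact PhiMax_pow h c hP k

theorem LM.nmin_neg (M : LM) : M.neg.nmin = M.nmax := by
  unfold LM.nmin LM.nmax
  refine Nat.card_congr (Equiv.subtypeEquiv (Equiv.refl M.V) fun v => ?_)
  constructor
  · intro hh t ht
    have := hh t ht
    change -1 - M.l t ≤ -1 - M.l (M.a t) at this
    omega
  · intro hh t ht
    have := hh t ht
    change -1 - M.l t ≤ -1 - M.l (M.a t)
    omega

theorem LM.nmax_neg (M : LM) : M.neg.nmax = M.nmin := by
  unfold LM.nmin LM.nmax
  refine Nat.card_congr (Equiv.subtypeEquiv (Equiv.refl M.V) fun v => ?_)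
  constructor
  · intro hh t ht
    have := hh t ht
    change -1 - M.l (M.a t) ≤ -1 - M.l t at this
    omega
  · intro hh t ht
    have := hh t ht
    change -1 - M.l (M.a t) ≤ -1 - M.l t
    omega

theorem LM.IsLQ.neg (h : M.IsLQ) : M.neg.IsLQ := by
  refine ⟨⟨h.inv, h.fpf, h.conn⟩, fun t => ?_, fun t => ?_, h.four, h.two⟩
  · show -1 - M.l (M.s t) = -1 - M.l t
    rw [h.ls]
  · show -1 - M.l (M.a t) = -1 - M.l t + 1 ∨ -1 - M.l (M.a t) = -1 - M.l t - 1
    rcases h.la t with h1 | h1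
    · right
      rw [h1]
      ring
    · left
      rw [h1]
      ring

theorem LM.IsLQ.neg_root (h : M.IsLQ) (hr : M.r ∈ M.up) : M.neg.r ∈ M.neg.up := by
  rw [LM.mem_up] at hr ⊢
  show -1 - M.l (M.a (M.a M.r)) = -1 - M.l (M.a M.r) - 1
  rw [h.inv, hr]
  ring

/-- the label of the new root is `0` again -/
theorem LM.neg_norm (M : LM) (hr : M.r ∈ M.up) (h0 : M.l M.r = 0) : M.neg.l M.neg.r = 0 := by
  rw [LM.mem_up] at hr
  show -1 - M.l (M.a M.r) = 0
  rw [hr, h0]
  ring

theorem LM.neg_neg (M : LM) (hinv : ∀ t, M.a (M.a t) = t) : LIso M.neg.neg M := by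
  refine ⟨Equiv.refl _, fun _ => rfl, fun _ => rfl, fun t => ?_, ?_⟩
  · show M.l t = -1 - (-1 - M.l t)
    ring
  · exact hinv M.r

end Dia
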