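import Pool.Agent.Dia.SuccF
import Pool.Agent.PGr.CutIso

/-!
# Module BotInv: `psi M` has at least as many faces as `M` has local minima

`bot : up → vertices`: define by strong induction on `l c - (minimum of the labels)` (or show the
existence of the relation and of its unique value): if the vertex of `a c` has no element of `up`,
`bot c` = this vertex; otherwise `bot c = bot (succ c)`, where `succ c` is the unique `d` with `Succ c d`
(`exists_succ`, `Succ.l_eq`: the label of `d` is `l c - 1`, `d ∈ up`).  `bot c` is a vertex without element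
of `up`.  Simple way: define the relation `Chain c v` inductively: `Chain c (vx (a c))` if the vertex of
`a c` has no element of `up`; `Chain d v → Succ c d → Chain c v`; show existence and uniqueness of `v`.

Invariance: `bot (fa c) = bot c` for the face permutation `fa = N.s * N.a` of `N = psi M`
(`LM.IsLQ.fa_cases`): label down: `Succ c (fa c)`; label equal: `s (a (fa c)) = a c`, so `a (fa c)` and
`a c` are in the same vertex and `succ_congr`: same `bot`; label up: `u` with `Succ (fa c) u`,
`s (a u) = a c`: `bot (fa c) = bot u = bot c`.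

Surjectivity: for a vertex `v` without element of `up` and a dart `t` of `v`, `a t ∈ up` and `bot (a t) = v`
(as `a (a t) = t`).

So `bot` induces a surjection from the cycles of `N.s * N.a` onto the vertices counted by `nmin`, and
`nV (N.s * N.a) = nV (N.a * N.s)` (conjugate permutations: `t ↦ N.a t` maps the cycles of one to
those of the other).
-/

set_option linter.unusedSectionVars false

namespace Dia
open Equiv Finset PGr

theorem nV_mul_comm {T : Type} [Fintype T] [DecidableEq T] (a s : Perm T) :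
    nV (a * s) = nV (s * a) := by
  have h : ∀ t, a ((s * a) t) = (a * s) (a t) := fun t => rfl
  exact (nV_iso a h).symm

private theorem BotInv_vx_s (M : RM) (t : M.T) : M.vx (M.s t) = M.vx t := by
  apply Quotient.sound
  show M.s.SameCycle (M.s t) t
  exact Perm.sameCycle_apply_left.2 (Perm.SameCycle.refl M.s t)

private theorem BotInv_vx (M : RM) {t t' : M.T} : M.vx t = M.vx t' ↔ M.s.SameCycle t t' :=
  ⟨fun h => Quotient.exact h, fun h => Quotient.sound h⟩

/-- the chain of successors of `c` ends at the vertex `v` -/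
private inductive BotInv_Ch (M : LM) : M.T → M.V → Prop
  | base (c : M.T) (h : ∀ t, M.vx t = M.vx (M.a c) → t ∉ M.up) : BotInv_Ch M c (M.vx (M.a c))
  | step (c d : M.T) (v : M.V) (h : M.Succ c d) (h' : BotInv_Ch M d v) : BotInv_Ch M c v

private theorem BotInv_succ_vx {M : LM} {c d : M.T} (h : M.Succ c d) :
    d ∈ M.up ∧ M.vx d = M.vx (M.a c) := by
  obtain ⟨k, h1, h2, -⟩ := h
  refine ⟨h2, ?_⟩
  rw [BotInv_vx, ← h1]
  exact Perm.SameCycle.symm ⟨(k + 1 : ℕ), by rw [zpow_natCast]⟩

private theorem BotInv_uniq {M : LM} {c : M.T} {v w : M.V} (h : BotInv_Ch M c v)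
    (h' : BotInv_Ch M c w) : v = w := by
  induction h with
  | base c h =>
    cases h' with
    | base _ _ => rfl
    | step _ d _ h1 _ =>
      obtain ⟨h2, h3⟩ := BotInv_succ_vx h1
      exact absurd h2 (h d h3)
  | step c d v h1 _ ih =>
    cases h' with
    | base _ h =>
      obtain ⟨h2, h3⟩ := BotInv_succ_vx h1
      exact absurd h2 (h d h3)
    | step _ d' _ h1' h2' =>
      have := h1.unique h1'
      subst this
      exact ih h2'

private theorem BotInv_ex {M : LM} (h : M.IsLQ) (m : ℤ) (hm : ∀ t, m ≤ M.l t) :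
    ∀ (n : ℕ) (c : M.T), c ∈ M.up → M.l c - m = n → ∃ v, BotInv_Ch M c v := by
  intro n
  induction n with
  | zero =>
    intro c hc h0
    exfalso
    have h1 := LM.mem_up.1 hc
    have h2 := hm (M.a c)
    simp only [Nat.cast_zero] at h0
    omega
  | succ n ih =>
    intro c hc h0
    by_cases hb : ∀ t, M.vx t = M.vx (M.a c) → t ∉ M.up
    · exact ⟨_, BotInv_Ch.base c hb⟩
    · push Not at hb
      obtain ⟨z, hz, hz'⟩ := hb
      obtain ⟨d, hd⟩ := LM.exists_succ z hz' ((BotInv_vx M.toRM).1 hz.symm)
      have h1 := hd.l_eq h hc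
      obtain ⟨v, hv⟩ := ih d (BotInv_succ_vx hd).1 (by
        rw [h1]
        push_cast at h0
        omega)
      exact ⟨v, BotInv_Ch.step c d v hd hv⟩

private theorem BotInv_congr {M : LM} {c c' : M.T} (he : M.s (M.a c') = M.a c)
    (hc : M.a c ∉ M.up) {v : M.V} (h : BotInv_Ch M c' v) : BotInv_Ch M c v := by
  have hv : M.vx (M.a c) = M.vx (M.a c') := by
    rw [← he]
    exact BotInv_vx_s M.toRM _
  cases h with
  | base _ h =>
    rw [← hv]
    refine BotInv_Ch.base c ?_
    rw [hv]
    exact h
  | step _ d _ h1 h2 => exact BotInv_Ch.step c d v ((LM.succ_congr he hc d).1 h1) h2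

theorem LM.IsLQ.nmin_le (M : LM) (h : M.IsLQ) (hr : M.r ∈ M.up) : M.nmin ≤ nV (M.psi hr).ph := by
  obtain ⟨m, hm⟩ : ∃ m : ℤ, ∀ t, m ≤ M.l t := by
    obtain ⟨t, -, ht⟩ := (univ : Finset M.T).exists_min_image M.l ⟨M.r, mem_univ _⟩
    exact ⟨M.l t, fun t' => ht t' (mem_univ _)⟩
  have hex : ∀ c : (M.psi hr).T, ∃ v, BotInv_Ch M c.1 v := by
    intro c
    refine BotInv_ex h m hm (M.l c.1 - m).toNat c.1 c.2 ?_
    have := hm c.1
    omega
  choose f hf using hex
  have hup : ∀ c : (M.psi hr).T, M.a c.1 ∉ M.up := by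
    intro c hc
    exact (h.a_mem_up c.1).1 hc c.2
  have hinv : ∀ c : (M.psi hr).T, f ((M.psi hr).fa c) = f c := by
    intro c
    rcases h.fa_cases hr c with h1 | h1 | h1
    · exact (BotInv_uniq (hf c) (BotInv_Ch.step _ _ _ (h.fa_dn hr c h1) (hf _))).symm
    · exact (BotInv_uniq (hf c) (BotInv_congr (h.fa_eq hr c h1) (hup c) (hf _))).symm
    · obtain ⟨u, h2, -, h3⟩ := h.fa_up hr c h1
      have h4 : f ((M.psi hr).fa c) = f u :=
        BotInv_uniq (hf _) (BotInv_Ch.step _ _ _ h2 (hf u))
      rw [h4]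
      exact (BotInv_uniq (hf c) (BotInv_congr h3 (hup c) (hf u))).symm
  have hpow : ∀ (n : ℕ) (c : (M.psi hr).T), f (((M.psi hr).fa ^ n) c) = f c := by
    intro n
    induction n with
    | zero => intro c; rfl
    | succ n ih =>
      intro c
      rw [pow_succ', Perm.mul_apply, hinv, ih]
  have hcyc : ∀ c c' : (M.psi hr).T, (M.psi hr).fa.SameCycle c c' → f c = f c' := by
    intro c c' hcc
    obtain ⟨i, -, -, hi⟩ := hcc.exists_pow_eq''
    rw [← hi, hpow]
  have e1 : nV (M.psi hr).ph = nV (M.psi hr).fa := nV_mul_comm _ _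
  rw [e1]
  unfold LM.nmin nV
  have hvert : ∀ v : {v : M.V // ∀ t, M.vx t = v → M.l t ≤ M.l (M.a t)},
      ∃ c : (M.psi hr).T, f c = v.1 := by
    rintro ⟨v, hv⟩
    obtain ⟨t, rfl⟩ : ∃ t, M.vx t = v := Quotient.exists_rep v
    have h1 : M.l (M.a t) = M.l t + 1 := by
      have h2 := hv t rfl
      rcases h.la t with h3 | h3
      · exact h3
      · omega
    have h2 : M.a t ∈ M.up := by
      rw [LM.mem_up, h.inv]
      omega
    refine ⟨⟨M.a t, h2⟩, ?_⟩
    have h3 : BotInv_Ch M (M.a t) (M.vx (M.a (M.a t))) := by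
      refine BotInv_Ch.base _ ?_
      intro t' ht'
      rw [h.inv] at ht'
      have h4 := hv t' ht'
      rw [LM.mem_up]
      omega
    rw [h.inv] at h3
    exact BotInv_uniq (hf _) h3
  choose g hg using hvert
  have : Finite (Quotient (Perm.SameCycle.setoid (M.psi hr).fa)) := inferInstance
  refine Nat.card_le_card_of_injective
    (fun v => (Quotient.mk (Perm.SameCycle.setoid (M.psi hr).fa) (g v))) ?_
  intro v w hvw
  have h1 : (M.psi hr).fa.SameCycle (g v) (g w) := Quotient.exact hvw
  have h2 := hcyc _ _ h1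
  rw [hg, hg] at h2
  exact Subtype.ext h2

end Dia
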