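import Pool.Agent.Dia.Face

/-!
# Module CountUp: counting in a labelled quadrangulation

* `nV_ret`: the cycles of `ret s S` correspond to the cycles of `s` which meet `S`
  (`PGr.sameCycle_ret`): the map `cycle of x ↦ cycle of x.1` is well defined and injective, its range is
  the set of cycles which contain an element of `S`; its complement is counted by the second summand.
* `nV_psi`: for `S = up`: a vertex without element of `up` is a vertex `v` with `l t ≤ l (a t)` for all
  its darts `t` (as `l (a t) = l t ± 1`).
* `card_up`: `a` is a bijection of `up` with its complement.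
* `nV_ph`: every cycle of `ph` has exactly four elements (`four`, `two`, and `ph t ≠ t` because the
  labels differ; then the four elements are different).  Count the pairs (cycle, element), e.g. with
  `Fintype.card_sigma` or `Finset.card_eq_sum_card_fiberwise` for the quotient map.
-/

set_option linter.unusedSectionVars false

namespace Dia
open Equiv Finset PGr

theorem nV_ret {T : Type} [Fintype T] [DecidableEq T] (s : Perm T) (S : Finset T) :
    nV (ret s S) + Nat.card {v : Quotient (Perm.SameCycle.setoid s) //
      ∀ t, Quotient.mk _ t = v → t ∉ S} = nV s := by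
  classical
  let f : Quotient (Perm.SameCycle.setoid (ret s S)) →
      {v : Quotient (Perm.SameCycle.setoid s) // ¬ ∀ t, Quotient.mk _ t = v → t ∉ S} :=
    Quotient.lift (fun x : {x // x ∈ S} => ⟨Quotient.mk _ x.1, fun h => h x.1 rfl x.2⟩)
      (fun x y hxy => Subtype.ext (Quotient.sound ((sameCycle_ret s S x y).1 hxy)))
  have hf : Function.Bijective f := by
    constructor
    · intro x y
      refine Quotient.inductionOn₂ x y fun x y h => ?_
      have h1 : (Quotient.mk (Perm.SameCycle.setoid s) x.1) = Quotient.mk _ y.1 :=
        congrArg Subtype.val h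
      exact Quotient.sound ((sameCycle_ret s S x y).2 (Quotient.exact h1))
    · rintro ⟨v, hv⟩
      push Not at hv
      obtain ⟨t, ht, hS⟩ := hv
      exact ⟨Quotient.mk _ ⟨t, hS⟩, Subtype.ext ht⟩
  unfold nV
  rw [Nat.card_congr (Equiv.ofBijective f hf), add_comm, ← Nat.card_sum]
  exact Nat.card_congr (Equiv.sumCompl _)

variable {M : LM}

theorem LM.IsLQ.nV_psi (h : M.IsLQ) (hr : M.r ∈ M.up) :
    nV (M.psi hr).s + M.nmin = nV M.s := by
  rw [← nV_ret M.s M.up]
  refine congrArg₂ (· + ·) rfl ?_
  refine Nat.card_congr (Equiv.subtypeEquivRight fun v => ?_)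
  refine forall_congr' fun t => imp_congr Iff.rfl ?_
  rw [h.not_mem_up_iff]
  rcases h.la t with h1 | h1 <;> constructor <;> intro h2 <;> omega

theorem LM.IsLQ.card_up (h : M.IsLQ) : 2 * M.up.card = Fintype.card M.T := by
  have h1 : M.up.map M.a.toEmbedding = M.upᶜ := by
    ext t
    rw [mem_map_equiv, mem_compl, ← h.a_mem_up t]
    have h2 : M.a.symm t = M.a t := by rw [Equiv.symm_apply_eq, h.inv]
    rw [h2]
  have h3 := congrArg Finset.card h1
  rw [card_map, card_compl] at h3
  have h4 := Finset.card_le_univ M.up
  omega

theorem LM.IsLQ.nV_ph (h : M.IsLQ) : 4 * nV M.ph = Fintype.card M.T := by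
  classical
  have hper : ∀ t : M.T, Function.minimalPeriod (fun t => M.ph t) t = 4 := by
    intro t
    have h1 : Function.IsPeriodicPt (fun t => M.ph t) 4 t := h.four t
    have h2 := h1.minimalPeriod_dvd
    have h3 : Function.minimalPeriod (fun t => M.ph t) t ≤ 4 := Nat.le_of_dvd (by norm_num) h2
    have h5 : ¬ Function.minimalPeriod (fun t => M.ph t) t ∣ 2 := by
      intro h6
      have h7 : Function.IsPeriodicPt (fun t => M.ph t) 2 t :=
        (Function.isPeriodicPt_iff_minimalPeriod_dvd).2 h6
      exact h.two t h7
    generalize Function.minimalPeriod (fun t => M.ph t) t = k at *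
    interval_cases k
    · omega
    · omega
    · omega
    · omega
    · rfl
  have e := Fintype.card_congr (Equiv.sigmaFiberEquiv
    (Quotient.mk (Perm.SameCycle.setoid M.ph) : M.T → _)).symm
  rw [e, Fintype.card_sigma]
  have h1 : ∀ v : Quotient (Perm.SameCycle.setoid M.ph),
      Fintype.card {t : M.T // Quotient.mk (Perm.SameCycle.setoid M.ph) t = v} = 4 := by
    intro v
    refine Quotient.inductionOn v fun t => ?_
    rw [Fintype.card_subtype, ← hper t, minimalPeriod_eq_card]
    congr 1
    ext y
    simp only [mem_filter, mem_univ, true_and]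
    constructor
    · intro hy
      exact (Quotient.exact hy).symm
    · intro hy
      exact Quotient.sound hy.symm
  rw [Finset.sum_congr rfl fun v _ => h1 v, Finset.sum_const, smul_eq_mul, mul_comm, card_univ]
  unfold nV
  rw [Nat.card_eq_fintype_card]

end Dia
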