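import Pool.Agent.Dia.PsiPhi
import Pool.Agent.Dia.CountUp
import Pool.Agent.Dia.BotInv
import Pool.Agent.PGr.CutIso

/-!
# Module PhiMin: vertices of `phi M` = vertices and faces of `M`

`nmin_phi`: the vertices of `phi M` without lower neighbour correspond to the faces of `M`.  Such a
vertex is an `phi.s`-cycle all of whose darts `t` satisfy `l t ≤ l (a t)`, i.e. consist of darts
`(c,false)`.  Let `v` be such a vertex, `(c,false)` in `v`.  Then `phi.s (c,false)` is not of the form
`(_,true)`, so `l (fa⁻¹ c) ≠ l c - 1` and it is `(bk c,false)`, `l (bk c) = l c`.  Claim: `l c` is the minimum of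
the labels on the `fa`-cycle of `c`: otherwise let `y` be the first element behind `c` (backwards) with a
smaller label; `l y = l c - 1`, `l (fa y) = l c`, and `fa y` is reached from `c` by iterating `bk` (all the
elements with label `l c` between are reached one after the other); its rotation goes to `(sig _, true)`:
contradiction.  The map `v ↦ fa-cycle of c` is well defined (`bk c` is in the same `fa`-cycle).
Injective: let `c, c'` be in the same `fa`-cycle, both of minimal label; `c' = fa^(-k) c`; strong induction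
on `k`: if `k > 0`, `bk c = fa^(-j) c` with `0 < j ≤ k` and `c' = fa^(-(k-j)) (bk c)`.  Surjective: in every
`fa`-cycle take `c` with minimal label; the property '(c,false) with `c` minimal on its `fa`-cycle' is
preserved by `phi.s`, so the vertex of `(c,false)` has only darts `(_,false)`.
So `nmin = nV (s * a) = nV ph` (`nV_mul_comm`).

`nV_phi`: `nV_psi` (or `nV_ret`) for `phi M`, and `nV (phi.psi).s = nV M.s` by `psi_phi` (or
`phi_ret_s`).

`phi_eu`: `card (phi M).T = 2 card M.T`, `4 nV phi.ph = card (phi M).T` (`nV_ph`, `phi_isLQ`, `phi_conn`).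
-/

set_option linter.unusedSectionVars false

namespace Dia
open Equiv Finset PGr

variable {M : LM}

private theorem PhiMin_s (h : M.IsLM) (t : M.T × Bool) : M.phi.s t = M.phiS t :=
  LM.phi_s M h.phiS_bij t

private theorem PhiMin_le (h : M.IsLM) (c : M.T) (hc : M.l (M.fa⁻¹ c) ≠ M.l c - 1) :
    M.l c ≤ M.l (M.fa⁻¹ c) := by
  have h1 := h.l_fa (M.fa⁻¹ c)
  have h2 : M.fa (M.fa⁻¹ c) = c := Equiv.apply_symm_apply _ _
  rw [h2] at h1
  omega

/-- minimal on its cycle -/
private def PhiMin_Mn (M : LM) (c : M.T) : Prop := ∀ y, M.fa.SameCycle y c → M.l c ≤ M.l y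

private theorem PhiMin_bk_sc (h : M.IsLM) (c : M.T) : M.fa.SameCycle (M.bk c) c := by
  obtain ⟨k, hk, _, _⟩ := h.bk_spec c
  exact ⟨(k + 1 : ℕ), by rw [zpow_natCast]; exact hk⟩

private theorem PhiMin_step (h : M.IsLM) {c : M.T} (hc : PhiMin_Mn M c) :
    M.phi.s (c, false) = (M.bk c, false) ∧ M.l (M.bk c) = M.l c := by
  have h1 : M.l c ≤ M.l (M.fa⁻¹ c) := by
    refine hc _ ⟨1, ?_⟩
    rw [zpow_one]
    exact Equiv.apply_symm_apply _ _
  refine ⟨?_, h.l_bk c h1⟩
  rw [PhiMin_s h]
  simp only [LM.phiS]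
  rw [if_neg (by omega)]

private theorem PhiMin_bk (h : M.IsLM) {c : M.T} (hc : PhiMin_Mn M c) : PhiMin_Mn M (M.bk c) := by
  intro y hy
  rw [(PhiMin_step h hc).2]
  exact hc y (hy.trans (PhiMin_bk_sc h c))

/-- the vertex of a minimal corner consists of minimal corners of the same cycle -/
private theorem PhiMin_four (h : M.IsLM) {c : M.T} (hc : PhiMin_Mn M c) {t : M.T × Bool}
    (ht : Perm.SameCycle M.phi.s (c, false) t) :
    ∃ c', t = (c', false) ∧ PhiMin_Mn M c' ∧ M.fa.SameCycle c c' := by
  obtain ⟨n, hn⟩ := ht.exists_nat_pow_eq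
  induction n generalizing t with
  | zero => exact ⟨c, hn.symm, hc, Perm.SameCycle.refl _ _⟩
  | succ n ih =>
    obtain ⟨c', h1, h2, h3⟩ := ih (t := (M.phi.s ^ n) (c, false)) ⟨n, by rw [zpow_natCast]⟩ rfl
    rw [pow_succ'] at hn
    change M.phi.s ((M.phi.s ^ n) (c, false)) = t at hn
    rw [h1, (PhiMin_step h h2).1] at hn
    exact ⟨M.bk c', hn.symm, PhiMin_bk h h2, h3.trans (PhiMin_bk_sc h c').symm⟩

private theorem PhiMin_three (h : M.IsLM) (n : ℕ) : ∀ {c c' : M.T}, PhiMin_Mn M c → PhiMin_Mn M c' →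
    (M.fa ^ n) c' = c → Perm.SameCycle M.phi.s (c, false) (c', false) := by
  induction n using Nat.strong_induction_on with
  | _ n ih =>
    intro c c' hc hc' hn
    rcases Nat.eq_zero_or_pos n with rfl | hn0
    · rw [pow_zero] at hn
      rw [← hn]
      exact Perm.SameCycle.refl _ _
    · obtain ⟨k, hk1, _, hk3⟩ := h.bk_spec c
      have hkn : k + 1 ≤ n := by
        by_contra hlt
        have e : (M.fa ^ (k + 1 - n)) (M.bk c) = c' := by
          apply (M.fa ^ n).injective
          rw [← Perm.mul_apply, ← pow_add, show n + (k + 1 - n) = k + 1 by omega, hk1, hn]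
        have h1 := hk3 (k + 1 - n) (by omega) (by omega)
        rw [e] at h1
        have h2 := hc' c ⟨-(n : ℤ), by rw [zpow_neg, zpow_natCast, Perm.inv_eq_iff_eq]; exact hn.symm⟩
        omega
      have e : (M.fa ^ (n - (k + 1))) c' = M.bk c := by
        apply (M.fa ^ (k + 1)).injective
        rw [← Perm.mul_apply, ← pow_add, show k + 1 + (n - (k + 1)) = n by omega, hn, hk1]
      have h1 := ih (n - (k + 1)) (by omega) (PhiMin_bk h hc) hc' e
      rw [← (PhiMin_step h hc).1] at h1
      exact Perm.sameCycle_apply_left.1 h1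

private theorem PhiMin_two (h : M.IsLM) {v : M.phi.V}
    (hv : ∀ t, M.phi.vx t = v → M.phi.l t ≤ M.phi.l (M.phi.a t)) (n : ℕ) :
    ∀ {c y : M.T}, M.phi.vx (c, false) = v → (M.fa ^ n) y = c → M.l c ≤ M.l y := by
  have hfl : ∀ {t : M.T × Bool}, M.phi.vx t = v → ∃ c, t = (c, false) := by
    rintro ⟨c, b⟩ ht
    cases b with
    | false => exact ⟨c, rfl⟩
    | true =>
      have := hv _ ht
      change M.l c ≤ M.l c - 1 at this
      omega
  induction n using Nat.strong_induction_on with
  | _ n ih =>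
    intro c y hc hn
    rcases Nat.eq_zero_or_pos n with rfl | hn0
    · rw [pow_zero] at hn
      rw [← hn]
      exact le_rfl
    · have hs : M.phi.vx (M.phi.s (c, false)) = v := by
        rw [← hc]
        exact Quotient.sound (Perm.sameCycle_apply_left.2 (Perm.SameCycle.refl _ _))
      have hne : M.l (M.fa⁻¹ c) ≠ M.l c - 1 := by
        intro he
        obtain ⟨c', hc'⟩ := hfl hs
        rw [PhiMin_s h] at hc'
        simp only [LM.phiS] at hc'
        rw [if_pos he] at hc'
        have := congrArg Prod.snd hc'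
        simp at this
      have hst : M.phi.s (c, false) = (M.bk c, false) := by
        rw [PhiMin_s h]
        simp only [LM.phiS]
        rw [if_neg hne]
      have hlb := h.l_bk c (PhiMin_le h c hne)
      rw [hst] at hs
      obtain ⟨k, hk1, _, hk3⟩ := h.bk_spec c
      by_cases hkn : k + 1 ≤ n
      · have e : (M.fa ^ (n - (k + 1))) y = M.bk c := by
          apply (M.fa ^ (k + 1)).injective
          rw [← Perm.mul_apply, ← pow_add, show k + 1 + (n - (k + 1)) = n by omega, hn, hk1]
        have h1 := ih (n - (k + 1)) (by omega) hs e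
        omega
      · have e : (M.fa ^ (k + 1 - n)) (M.bk c) = y := by
          apply (M.fa ^ n).injective
          rw [← Perm.mul_apply, ← pow_add, show n + (k + 1 - n) = k + 1 by omega, hk1, hn]
        have h1 := hk3 (k + 1 - n) (by omega) (by omega)
        rw [e] at h1
        omega

private theorem PhiMin_exists (M : LM) (c : M.T) : ∃ c', PhiMin_Mn M c' ∧ M.fa.SameCycle c' c := by
  classical
  obtain ⟨m, hm, hmin⟩ := exists_min_image (univ.filter fun y => M.fa.SameCycle y c) M.l
    ⟨c, by simp [Perm.SameCycle.refl]⟩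
  rw [mem_filter] at hm
  refine ⟨m, fun y hy => hmin y ?_, hm.2⟩
  rw [mem_filter]
  exact ⟨mem_univ _, hy.trans hm.2⟩

theorem LM.IsLM.nmin_phi (h : M.IsLM) : M.phi.nmin = nV M.ph := by
  have e : nV M.ph = nV M.fa := nV_mul_comm M.a M.s
  rw [e]
  unfold LM.nmin nV
  symm
  have hch : ∀ q : Quotient (Perm.SameCycle.setoid M.fa), ∃ c, PhiMin_Mn M c ∧
      (Quotient.mk _ c : Quotient (Perm.SameCycle.setoid M.fa)) = q := by
    intro q
    obtain ⟨c, rfl⟩ := Quotient.exists_rep q
    obtain ⟨c', h1, h2⟩ := PhiMin_exists M c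
    exact ⟨c', h1, Quotient.sound h2⟩
  choose f hf1 hf2 using hch
  have hbot : ∀ q, ∀ t, M.phi.vx t = M.phi.vx (f q, false) →
      M.phi.l t ≤ M.phi.l (M.phi.a t) := by
    intro q t ht
    have h1 : Perm.SameCycle M.phi.s (f q, false) t := (Quotient.exact ht).symm
    obtain ⟨c', rfl, _, _⟩ := PhiMin_four h (hf1 q) h1
    show M.l c' - 1 ≤ M.l c'
    omega
  refine Nat.card_eq_of_bijective
    (fun q => (⟨M.phi.vx (f q, false), hbot q⟩ :
      {v : M.phi.V // ∀ t, M.phi.vx t = v → M.phi.l t ≤ M.phi.l (M.phi.a t)})) ⟨?_, ?_⟩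
  · intro q q' hq
    have h0 : M.phi.vx (f q, false) = M.phi.vx (f q', false) := congrArg Subtype.val hq
    have h1 : Perm.SameCycle M.phi.s (f q, false) (f q', false) := Quotient.exact h0
    obtain ⟨c', h2, _, h4⟩ := PhiMin_four h (hf1 q) h1
    have h5 : f q' = c' := congrArg Prod.fst h2
    rw [← h5] at h4
    rw [← hf2 q, ← hf2 q']
    exact Quotient.sound h4
  · rintro ⟨v, hv⟩
    obtain ⟨⟨c, b⟩, rfl⟩ := Quotient.exists_rep v
    have hb : b = false := by
      cases b with
      | false => rfl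
      | true =>
        have := hv (c, true) rfl
        change M.l c ≤ M.l c - 1 at this
        omega
    subst hb
    have hmn : PhiMin_Mn M c := by
      intro y hy
      obtain ⟨n, hn⟩ := hy.exists_nat_pow_eq
      exact PhiMin_two h hv n rfl hn
    refine ⟨Quotient.mk _ c, Subtype.ext ?_⟩
    have h1 : M.fa.SameCycle (f (Quotient.mk _ c)) c := Quotient.exact (hf2 (Quotient.mk _ c))
    obtain ⟨n, hn⟩ := h1.exists_nat_pow_eq
    exact Quotient.sound (PhiMin_three h n hmn (hf1 _) hn).symm

theorem LM.IsLM.nV_phi (h : M.IsLM) : nV M.phi.s = nV M.s + nV M.ph := by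
  have hr : M.phi.r ∈ M.phi.up := (LM.mem_phi_up M (M.r, true)).2 rfl
  have h1 := (h.phi_isLQ h.phi_conn).nV_psi hr
  obtain ⟨e, _, he, _, _⟩ := h.psi_phi hr
  rw [h.nmin_phi, nV_iso e he] at h1
  exact h1.symm

theorem LM.IsLM.phi_eu (h : M.IsLM) : M.phi.toRM.Eu ↔ M.toRM.Eu := by
  have h1 := (h.phi_isLQ h.phi_conn).nV_ph
  have h2 := h.nV_phi
  have h3 : Fintype.card M.phi.T = Fintype.card M.T * 2 := by
    show Fintype.card (M.T × Bool) = _
    rw [Fintype.card_prod, Fintype.card_bool]
  unfold RM.Eu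
  rw [h3] at h1 ⊢
  rw [h2]
  omega

end Dia
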