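import Pool.Agent.Dia.Walk

/-!
# Module PhiInj: the rotation of `phi M` is a permutation

Injectivity of `phiS` (then bijective: finite).  The four kinds of values:
 1. `(c,true)` with `l (a c) = l c + 1` ↦ `(a c, false)`; here `x = a c` has `l (a x) = l x - 1`, i.e.
    `l (fa x) = l x - 1` (`l_fa'`);
 2. `(c,true)` with `l (a c) ≠ l c + 1` ↦ `(s c, true)`; here `x = s c`: `fa⁻¹ x = a⁻¹ c = a c`, so
    `l (fa⁻¹ x) ≠ l x + 1`;
 3. `(c,false)` with `l (fa⁻¹ c) = l c - 1` ↦ `(sig c, true)`; `l (fa⁻¹ (sig c)) = l (sig c) + 1`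
    (`l_before_sig`);
 4. `(c,false)` with `l (fa⁻¹ c) ≥ l c` (by `l_fa` these are the other cases) ↦ `(bk c, false)`,
    `l (bk c) ≤ l (fa (bk c))` (`l_after_bk`).
2 and 3 have different values, 1 and 4 too; 1 and 2 are injective because `a`, `s` are, 3 and 4 by
`sig_inj`, `bk_inj`.
-/

set_option linter.unusedSectionVars false

namespace Dia
open Equiv Finset PGr

theorem PhiInj_tt1 {M : LM} {c : M.T} (h : M.l (M.a c) = M.l c + 1) :
    M.phiS (c, true) = (M.a c, false) := by
  simp only [LM.phiS, if_pos h]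

theorem PhiInj_tt2 {M : LM} {c : M.T} (h : M.l (M.a c) ≠ M.l c + 1) :
    M.phiS (c, true) = (M.s c, true) := by
  simp only [LM.phiS, if_neg h]

theorem PhiInj_ff1 {M : LM} {c : M.T} (h : M.l (M.fa⁻¹ c) = M.l c - 1) :
    M.phiS (c, false) = (M.sig c, true) := by
  simp only [LM.phiS, if_pos h]

theorem PhiInj_ff2 {M : LM} {c : M.T} (h : M.l (M.fa⁻¹ c) ≠ M.l c - 1) :
    M.phiS (c, false) = (M.bk c, false) := by
  simp only [LM.phiS, if_neg h]

theorem PhiInj_ge {M : LM} (h : M.IsLM) {c : M.T} (hc : M.l (M.fa⁻¹ c) ≠ M.l c - 1) :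
    M.l c ≤ M.l (M.fa⁻¹ c) := by
  have h1 := h.l_fa (M.fa⁻¹ c)
  rw [Walk_ai] at h1
  omega

/-- values of the cases 2 and 3 are different -/
theorem PhiInj_23 {M : LM} (h : M.IsLM) {c d : M.T} (hc : M.l (M.a c) ≠ M.l c + 1)
    (hd : M.l (M.fa⁻¹ d) = M.l d - 1) : M.s c ≠ M.sig d := by
  intro he
  have h1 := h.l_before_sig d hd
  rw [← he] at h1
  have h2 : M.fa⁻¹ (M.s c) = M.a c := by
    rw [Perm.inv_eq_iff_eq]
    change M.s c = M.s (M.a (M.a c))
    rw [h.inv]
  rw [h2, h.ls] at h1
  exact hc h1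

/-- values of the cases 1 and 4 are different -/
theorem PhiInj_14 {M : LM} (h : M.IsLM) {c d : M.T} (hc : M.l (M.a c) = M.l c + 1)
    (hd : M.l (M.fa⁻¹ d) ≠ M.l d - 1) : M.a c ≠ M.bk d := by
  intro he
  have h1 := h.l_after_bk d (PhiInj_ge h hd)
  rw [← he, h.l_fa', h.inv] at h1
  omega

theorem LM.IsLM.phiS_bij {M : LM} (h : M.IsLM) : Function.Bijective M.phiS := by
  rw [← Finite.injective_iff_bijective]
  rintro ⟨c, b⟩ ⟨c', b'⟩ he
  cases b with
  | true =>
    by_cases hc : M.l (M.a c) = M.l c + 1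
    · rw [PhiInj_tt1 hc] at he
      cases b' with
      | true =>
        by_cases hc' : M.l (M.a c') = M.l c' + 1
        · rw [PhiInj_tt1 hc', Prod.mk.injEq] at he
          rw [M.a.injective he.1]
        · rw [PhiInj_tt2 hc', Prod.mk.injEq] at he
          exact absurd he.2 (by simp)
      | false =>
        by_cases hc' : M.l (M.fa⁻¹ c') = M.l c' - 1
        · rw [PhiInj_ff1 hc', Prod.mk.injEq] at he
          exact absurd he.2 (by simp)
        · rw [PhiInj_ff2 hc', Prod.mk.injEq] at he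
          exact absurd he.1 (PhiInj_14 h hc hc')
    · rw [PhiInj_tt2 hc] at he
      cases b' with
      | true =>
        by_cases hc' : M.l (M.a c') = M.l c' + 1
        · rw [PhiInj_tt1 hc', Prod.mk.injEq] at he
          exact absurd he.2 (by simp)
        · rw [PhiInj_tt2 hc', Prod.mk.injEq] at he
          rw [M.s.injective he.1]
      | false =>
        by_cases hc' : M.l (M.fa⁻¹ c') = M.l c' - 1
        · rw [PhiInj_ff1 hc', Prod.mk.injEq] at he
          exact absurd he.1 (PhiInj_23 h hc hc')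
        · rw [PhiInj_ff2 hc', Prod.mk.injEq] at he
          exact absurd he.2 (by simp)
  | false =>
    by_cases hc : M.l (M.fa⁻¹ c) = M.l c - 1
    · rw [PhiInj_ff1 hc] at he
      cases b' with
      | true =>
        by_cases hc' : M.l (M.a c') = M.l c' + 1
        · rw [PhiInj_tt1 hc', Prod.mk.injEq] at he
          exact absurd he.2 (by simp)
        · rw [PhiInj_tt2 hc', Prod.mk.injEq] at he
          exact absurd he.1.symm (PhiInj_23 h hc' hc)
      | false =>
        by_cases hc' : M.l (M.fa⁻¹ c') = M.l c' - 1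
        · rw [PhiInj_ff1 hc', Prod.mk.injEq] at he
          rw [h.sig_inj hc hc' he.1]
        · rw [PhiInj_ff2 hc', Prod.mk.injEq] at he
          exact absurd he.2 (by simp)
    · rw [PhiInj_ff2 hc] at he
      cases b' with
      | true =>
        by_cases hc' : M.l (M.a c') = M.l c' + 1
        · rw [PhiInj_tt1 hc', Prod.mk.injEq] at he
          exact absurd he.1.symm (PhiInj_14 h hc' hc)
        · rw [PhiInj_tt2 hc', Prod.mk.injEq] at he
          exact absurd he.2 (by simp)
      | false =>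
        by_cases hc' : M.l (M.fa⁻¹ c') = M.l c' - 1
        · rw [PhiInj_ff1 hc', Prod.mk.injEq] at he
          exact absurd he.2 (by simp)
        · rw [PhiInj_ff2 hc', Prod.mk.injEq] at he
          rw [h.bk_inj (PhiInj_ge h hc) (PhiInj_ge h hc') he.1]

end Dia
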