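import Pool.Agent.Dia.SigQ
import Pool.Agent.Dia.PhiInj

/-!
# Module PhiPsi: `phi (psi M) = M`

`N = M.psi hr` is a labelled map (`psi_isLM`, `psi_conn`), so `N.phi.s = N.phiS` (`phi_s`, `phiS_bij`).
The isomorphism `e : N.T × Bool ≃ M.T` is `(c,true) ↦ c.1`, `(c,false) ↦ M.a c.1` (a bijection because `a`
exchanges `up` and its complement, `a_mem_up`).  It commutes with `a`; labels: `l (a c) = l c - 1`;
rotation: the four cases of `phiS` are exactly `s_up`, `s_up'`, `s_a_dn`, `s_a_up` of `SigQ`.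
-/

set_option linter.unusedSectionVars false

namespace Dia
open Equiv Finset PGr

/-- the isomorphism, as a function -/
def PhiPsi_f (M : LM) (t : {t // t ∈ M.up} × Bool) : M.T := if t.2 then t.1.1 else M.a t.1.1

theorem PhiPsi_true (M : LM) (c : {t // t ∈ M.up}) : PhiPsi_f M (c, true) = c.1 := rfl

theorem PhiPsi_false (M : LM) (c : {t // t ∈ M.up}) : PhiPsi_f M (c, false) = M.a c.1 := rfl

theorem PhiPsi_bij {M : LM} (h : M.IsLQ) : Function.Bijective (PhiPsi_f M) := by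
  constructor
  · rintro ⟨c, b⟩ ⟨c', b'⟩ he
    cases b <;> cases b'
    · rw [PhiPsi_false, PhiPsi_false] at he
      rw [Subtype.ext (M.a.injective he)]
    · rw [PhiPsi_false, PhiPsi_true] at he
      exact absurd c.2 ((h.a_mem_up c.1).1 (he ▸ c'.2))
    · rw [PhiPsi_false, PhiPsi_true] at he
      exact absurd c'.2 ((h.a_mem_up c'.1).1 (he ▸ c.2))
    · rw [PhiPsi_true, PhiPsi_true] at he
      rw [Subtype.ext he]
  · intro t
    by_cases ht : t ∈ M.up
    · exact ⟨(⟨t, ht⟩, true), rfl⟩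
    · exact ⟨(⟨M.a t, (h.a_mem_up t).2 ht⟩, false), h.inv t⟩

theorem LM.IsLQ.phi_psi {M : LM} (h : M.IsLQ) (hr : M.r ∈ M.up) : LIso (M.psi hr).phi M := by
  have hN : (M.psi hr).IsLM := h.psi_isLM hr (h.psi_conn hr)
  have hb := hN.phiS_bij
  refine ⟨Equiv.ofBijective (PhiPsi_f M) (PhiPsi_bij h), ?_, ?_, ?_, rfl⟩
  · rintro ⟨c, b⟩
    cases b
    · show c.1 = M.a (M.a c.1)
      rw [h.inv]
    · rfl
  · rintro ⟨c, b⟩
    show PhiPsi_f M ((M.psi hr).phi.s (c, b)) = M.s (PhiPsi_f M (c, b))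
    rw [LM.phi_s _ hb]
    cases b
    · show PhiPsi_f M (if (M.psi hr).l ((M.psi hr).fa⁻¹ c) = (M.psi hr).l c - 1 then
        ((M.psi hr).sig c, true) else ((M.psi hr).bk c, false)) = M.s (M.a c.1)
      by_cases hl : (M.psi hr).l ((M.psi hr).fa⁻¹ c) = (M.psi hr).l c - 1
      · rw [if_pos hl, h.s_a_dn hr c hl]
        rfl
      · rw [if_neg hl, h.s_a_up hr c hl]
        rfl
    · show PhiPsi_f M (if (M.psi hr).l ((M.psi hr).a c) = (M.psi hr).l c + 1 then
        ((M.psi hr).a c, false) else ((M.psi hr).s c, true)) = M.s c.1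
      by_cases hl : (M.psi hr).l ((M.psi hr).a c) = (M.psi hr).l c + 1
      · rw [if_pos hl, h.s_up hr c hl]
        rfl
      · rw [if_neg hl, h.s_up' hr c hl]
        rfl
  · rintro ⟨c, b⟩
    cases b
    · exact LM.mem_up.1 c.2
    · rfl

end Dia
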