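import Pool.Agent.Dia.Face

/-!
# Module RngM: the range of the labels

`rng = max - min` of the labels of all darts (a natural number).

`rng_psi`: the labels of `psi M` are the labels of the darts in `up`.  The maximum over all darts of `M`
is attained at a dart `t`, and then `l (a t) ≠ l t + 1`, so `t ∈ up`: same maximum.  Let `m` be the minimum
over all darts of `M`, attained at `u`; `l (a u) = m + 1`, so `a u ∈ up` with label `m + 1`; a dart
`t ∈ up` has `l t = l (a t) + 1 ≥ m + 1`.  So the minimum over `up` is `m + 1`.  All differences are `≥ 0`.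

`rng_neg`: the labels are replaced by `-1 - l`.
-/

set_option linter.unusedSectionVars false

namespace Dia
open Equiv Finset PGr

variable {M : LM}

/-- characterisation of `rng`, auxiliary form -/
theorem RngM_eq (M : LM) (x y : M.T) (hx : ∀ t, M.l t ≤ M.l x) (hy : ∀ t, M.l y ≤ M.l t) :
    (M.rng : ℤ) = M.l x - M.l y := by
  have h1 : (univ.image M.l).max' ⟨M.l M.r, mem_image_of_mem _ (mem_univ _)⟩ = M.l x := by
    apply le_antisymm
    · apply max'_le
      intro z hz
      obtain ⟨t, _, rfl⟩ := mem_image.mp hz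
      exact hx t
    · exact le_max' _ _ (mem_image_of_mem _ (mem_univ _))
  have h2 : (univ.image M.l).min' ⟨M.l M.r, mem_image_of_mem _ (mem_univ _)⟩ = M.l y := by
    apply le_antisymm
    · exact min'_le _ _ (mem_image_of_mem _ (mem_univ _))
    · apply le_min'
      intro z hz
      obtain ⟨t, _, rfl⟩ := mem_image.mp hz
      exact hy t
  unfold LM.rng
  rw [h1, h2]
  have := hx y
  exact Int.toNat_of_nonneg (by linarith)

theorem RngM_max (M : LM) : ∃ x : M.T, ∀ t, M.l t ≤ M.l x := by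
  obtain ⟨x, _, hx⟩ := exists_max_image univ M.l ⟨M.r, mem_univ _⟩
  exact ⟨x, fun t => hx t (mem_univ _)⟩

theorem RngM_min (M : LM) : ∃ x : M.T, ∀ t, M.l x ≤ M.l t := by
  obtain ⟨x, _, hx⟩ := exists_min_image univ M.l ⟨M.r, mem_univ _⟩
  exact ⟨x, fun t => hx t (mem_univ _)⟩

theorem LM.IsLQ.rng_psi (h : M.IsLQ) (hr : M.r ∈ M.up) : (M.psi hr).rng + 1 = M.rng := by
  obtain ⟨x, hx⟩ := RngM_max M
  obtain ⟨y, hy⟩ := RngM_min M
  have hxu : x ∈ M.up := by
    rw [LM.mem_up]
    rcases h.la x with h1 | h1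
    · have := hx (M.a x)
      omega
    · exact h1
  have hay : M.l (M.a y) = M.l y + 1 := by
    rcases h.la y with h1 | h1
    · exact h1
    · have := hy (M.a y)
      omega
  have hyu : M.a y ∈ M.up := by
    rw [LM.mem_up, h.inv, hay]
    ring
  have e1 := RngM_eq M x y hx hy
  have e2 := RngM_eq (M.psi hr) ⟨x, hxu⟩ ⟨M.a y, hyu⟩ (fun t => hx t.1) (by
    intro t
    show M.l (M.a y) ≤ M.l t.1
    have h2 : M.l (M.a t.1) = M.l t.1 - 1 := LM.mem_up.mp t.2
    have := hy (M.a t.1)
    omega)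
  have e3 : (M.psi hr).l ⟨x, hxu⟩ = M.l x := rfl
  have e4 : (M.psi hr).l ⟨M.a y, hyu⟩ = M.l (M.a y) := rfl
  rw [e3, e4, hay] at e2
  omega

theorem LM.rng_neg (M : LM) (hinv : ∀ t, M.a (M.a t) = t) : M.neg.rng = M.rng := by
  have := hinv
  obtain ⟨x, hx⟩ := RngM_max M
  obtain ⟨y, hy⟩ := RngM_min M
  have e1 := RngM_eq M x y hx hy
  have e2 := RngM_eq M.neg y x (fun t => by
    show -1 - M.l t ≤ -1 - M.l y
    have := hy t
    omega) (fun t => by
    show -1 - M.l x ≤ -1 - M.l t
    have := hx t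
    omega)
  have e3 : M.neg.l y = -1 - M.l y := rfl
  have e4 : M.neg.l x = -1 - M.l x := rfl
  rw [e3, e4] at e2
  omega

/-- characterisation of `rng` -/
theorem LM.rng_eq (M : LM) (x y : M.T) (hx : ∀ t, M.l t ≤ M.l x) (hy : ∀ t, M.l y ≤ M.l t) :
    (M.rng : ℤ) = M.l x - M.l y := RngM_eq M x y hx hy

end Dia
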