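import Pool.Agent.Dia.PsiPl
import Pool.Agent.Dia.PhiPsi
import Pool.Agent.Dia.PhiMin
import Pool.Agent.Dia.PhiMax
import Pool.Agent.Dia.InvM
import Pool.Agent.Dia.RngM

/-!
# Module BijM: labelled trees and pointed planar maps

For a labelled map `M` with `l r = 0` put `th M := psi (neg (phi M))` (`root_th` : the root condition).

(1) `M` is `IsLM`: `Q = phi M` is `IsLQ` (`phi_isLQ`, `phi_conn`), `Q.r ∈ Q.up`; `neg Q` is `IsLQ` with root
in `up`; `th M` is `IsLM` (`psi_isLM`, `psi_conn`); label of the root `0` (`neg_norm`).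
(2) `Eu`: `phi_eu`, the same `a, s` for `neg`, `psi_eu`.
(3) `nV (th M).ph = nmin (neg Q) = nmax Q = nmax M` (`psi_eu`, `nmin_neg`, `nmax_phi`), if `Eu`.
(4) `nmax (th M)`: `phi (th M) ≅ neg Q` (`phi_psi`), so `nmax (th M) = nmax (phi (th M)) = nmax (neg Q) =
nmin Q = nV M.ph` (`nmax_phi`, `nmax_neg`, `nmin_phi`).
(5) `nV (th M).s + nmax M = nV M.s + nV M.ph`: `nV_psi` for `neg Q`: `nV (th M).s + nmin (neg Q) = nV Q.s`,
and `nV_phi`.
(6) `rng (th M) + 1 = rng (neg Q) = rng Q` and `rng (psi Q) + 1 = rng Q`, `psi Q ≅ M`: `rng (th M) = rng M`.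
(7) `card (th M).T = card M.T`: `card_up`, `card (phi M).T = 2 card M.T`.
(8) `th (th M) ≅ M`: `phi (th M) ≅ neg Q`, `neg (phi (th M)) ≅ neg (neg Q) ≅ Q`, `psi Q ≅ M` (`InvM`).

`IsTr N`: `2 nV s = card + 2`; by `euler_le`, `nV ph ≤ 1`, and `nV ph ≥ 1`: so `nV ph = 1` and `Eu`; so
`th N` is `IsPt` by (3), (4): `nmax (th N) = nV N.ph = 1`.  Conversely for `M` `IsPt`: `nV (th M).ph =
nmax M = 1` and `Eu` give `2 nV s = card + 2`.
`pt_tr`: the map of classes induced by `th` (`Quotient.map`, invariance by `InvM`), bijective by (8).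
-/

set_option linter.unusedSectionVars false

namespace Dia
open Equiv Finset PGr

variable {M : LM}

private theorem BijM_lq (h : M.IsLM) : M.phi.IsLQ := h.phi_isLQ h.phi_conn

private theorem BijM_root (M : LM) : M.phi.r ∈ M.phi.up := (LM.mem_phi_up M (M.r, true)).2 rfl

theorem LM.IsLM.root_th (h : M.IsLM) : M.phi.neg.r ∈ M.phi.neg.up :=
  (BijM_lq h).neg_root (BijM_root M)

private theorem BijM_nlq (h : M.IsLM) : M.phi.neg.IsLQ := (BijM_lq h).neg

/-- `psi (neg (phi M))` -/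
noncomputable def LM.th (M : LM) (h : M.IsLM) : LM := M.phi.neg.psi h.root_th

theorem LM.IsLM.th_isLM (h : M.IsLM) : (M.th h).IsLM :=
  (BijM_nlq h).psi_isLM h.root_th ((BijM_nlq h).psi_conn h.root_th)

theorem LM.IsLM.th_norm (h : M.IsLM) (h0 : M.l M.r = 0) : (M.th h).l (M.th h).r = 0 :=
  M.phi.neg_norm (BijM_root M) h0

theorem LM.IsLM.th_eu (h : M.IsLM) (he : M.toRM.Eu) : (M.th h).toRM.Eu :=
  ((BijM_nlq h).psi_eu (h.phi_eu.2 he) h.root_th).1

theorem LM.IsLM.th_ph (h : M.IsLM) (he : M.toRM.Eu) : nV (M.th h).ph = M.nmax := by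
  have h1 := ((BijM_nlq h).psi_eu (h.phi_eu.2 he) h.root_th).2
  rw [M.phi.nmin_neg, h.nmax_phi] at h1
  exact h1

/-- `phi (th M) ≅ neg (phi M)` -/
private theorem BijM_phi_th (h : M.IsLM) : LIso (M.th h).phi M.phi.neg :=
  (BijM_nlq h).phi_psi h.root_th

theorem LM.IsLM.th_nmax (h : M.IsLM) : (M.th h).nmax = nV M.ph := by
  rw [← h.th_isLM.nmax_phi, (BijM_phi_th h).nmax, M.phi.nmax_neg, h.nmin_phi]

theorem LM.IsLM.th_nV (h : M.IsLM) : nV (M.th h).s + M.nmax = nV M.s + nV M.ph := by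
  have h1 := (BijM_nlq h).nV_psi h.root_th
  rw [M.phi.nmin_neg, h.nmax_phi] at h1
  have h2 : nV M.phi.neg.s = nV M.phi.s := rfl
  rw [h2, h.nV_phi] at h1
  exact h1

theorem LM.IsLM.th_rng (h : M.IsLM) : (M.th h).rng = M.rng := by
  have h1 := (BijM_nlq h).rng_psi h.root_th
  rw [M.phi.rng_neg (BijM_lq h).inv] at h1
  have h2 := (BijM_lq h).rng_psi (BijM_root M)
  rw [(h.psi_phi (BijM_root M)).rng] at h2
  have h3 : (M.th h).rng + 1 = M.phi.rng := h1
  omega

theorem LM.IsLM.th_card (h : M.IsLM) : Fintype.card (M.th h).T = Fintype.card M.T := by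
  have h1 := (BijM_nlq h).card_up
  have h2 : Fintype.card (M.th h).T = M.phi.neg.up.card := Fintype.card_coe _
  have h3 : Fintype.card M.phi.neg.T = Fintype.card (M.T × Bool) := rfl
  rw [Fintype.card_prod, Fintype.card_bool] at h3
  omega

theorem LM.IsLM.th_th (h : M.IsLM) : LIso ((M.th h).th h.th_isLM) M := by
  have h1 : LIso (M.th h).phi.neg M.phi :=
    (BijM_phi_th h).neg.trans (M.phi.neg_neg (BijM_lq h).inv)
  exact (h1.psi h.th_isLM.root_th (BijM_root M)).trans (h.psi_phi (BijM_root M))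

private theorem BijM_congr {N : LM} (h : LIso M N) (hM : M.IsLM) (hN : N.IsLM) :
    LIso (M.th hM) (N.th hN) :=
  h.phi.neg.psi hM.root_th hN.root_th

theorem LM.IsTr.ph_one (h : M.IsTr) : nV M.ph = 1 ∧ M.toRM.Eu := by
  have h1 := euler_le M.toRM h.toIsMap
  have h2 := h.tree
  have h3 : 0 < nV M.ph := by
    unfold nV
    have : Nonempty (Quotient (Perm.SameCycle.setoid M.ph)) := ⟨Quotient.mk _ M.r⟩
    exact Nat.card_pos
  have h4 : nV M.ph = 1 := by
    have h5 : nV M.ph = nV M.toRM.ph := rfl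
    omega
  refine ⟨h4, ?_⟩
  unfold RM.Eu
  have h5 : nV M.ph = nV M.toRM.ph := rfl
  omega

private theorem BijM_tr (h : M.IsPt) : (M.th h.toIsLM).IsTr where
  toIsLM := h.toIsLM.th_isLM
  tree := by
    have h1 := h.toIsLM.th_ph h.eu
    rw [h.one] at h1
    have h2 := h.toIsLM.th_eu h.eu
    unfold RM.Eu at h2
    omega
  norm := h.toIsLM.th_norm h.norm

private theorem BijM_pt (h : M.IsTr) : (M.th h.toIsLM).IsPt where
  toIsLM := h.toIsLM.th_isLM
  eu := h.toIsLM.th_eu h.ph_one.2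
  norm := h.toIsLM.th_norm h.norm
  one := by rw [h.toIsLM.th_nmax, h.ph_one.1]

private noncomputable def BijM_F : PtC → TrC :=
  Quotient.map (fun M : {M : LM // M.IsPt} => (⟨M.1.th M.2.toIsLM, BijM_tr M.2⟩ :
    {M : LM // M.IsTr})) (fun A B h => BijM_congr h A.2.toIsLM B.2.toIsLM)

private noncomputable def BijM_G : TrC → PtC :=
  Quotient.map (fun M : {M : LM // M.IsTr} => (⟨M.1.th M.2.toIsLM, BijM_pt M.2⟩ :
    {M : LM // M.IsPt})) (fun A B h => BijM_congr h A.2.toIsLM B.2.toIsLM)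

/-- the bijection between classes -/
theorem pt_tr : ∃ e : PtC ≃ TrC, ∀ c : PtC,
    Fintype.card (e c).out.1.T = Fintype.card c.out.1.T ∧
    nV c.out.1.s + (e c).out.1.nmax = 1 + nV (e c).out.1.s ∧
    (e c).out.1.rng = c.out.1.rng := by
  have h1 : ∀ c, BijM_G (BijM_F c) = c := by
    intro c
    induction c using Quotient.inductionOn with
    | h M => exact Quotient.sound (s := ptSetoid) (a := ⟨(M.1.th M.2.toIsLM).th
        (BijM_tr M.2).toIsLM, BijM_pt (BijM_tr M.2)⟩) (b := M) M.2.toIsLM.th_th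
  have h2 : ∀ c, BijM_F (BijM_G c) = c := by
    intro c
    induction c using Quotient.inductionOn with
    | h M => exact Quotient.sound (s := trSetoid) (a := ⟨(M.1.th M.2.toIsLM).th
        (BijM_pt M.2).toIsLM, BijM_tr (BijM_pt M.2)⟩) (b := M) M.2.toIsLM.th_th
  refine ⟨⟨BijM_F, BijM_G, h1, h2⟩, fun c => ?_⟩
  show Fintype.card (BijM_F c).out.1.T = Fintype.card c.out.1.T ∧
    nV c.out.1.s + (BijM_F c).out.1.nmax = 1 + nV (BijM_F c).out.1.s ∧
    (BijM_F c).out.1.rng = c.out.1.rng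
  have h3 : LIso (BijM_F c).out.1 (c.out.1.th c.out.2.toIsLM) := by
    have h4 : BijM_F c = Quotient.mk trSetoid ⟨c.out.1.th c.out.2.toIsLM, BijM_tr c.out.2⟩ := by
      conv_lhs => rw [← Quotient.out_eq c]
      rfl
    rw [h4]
    exact Quotient.mk_out (s := trSetoid) ⟨c.out.1.th c.out.2.toIsLM, BijM_tr c.out.2⟩
  have hM := c.out.2.toIsLM
  refine ⟨?_, ?_, ?_⟩
  · rw [h3.toRM.card]
    exact hM.th_card
  · have h4 := hM.th_nV
    rw [c.out.2.one] at h4
    have h5 : nV (BijM_F c).out.1.s = nV (c.out.1.th hM).s := h3.toRM.nV_s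
    have h6 := h3.nmax
    rw [hM.th_nmax] at h6
    omega
  · rw [h3.rng, hM.th_rng]

end Dia
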