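import Pool.Agent.Dia.WinSum

/-!
# Module PSB: scaling, and local bounds for the sums of sizes

`SL_scale` etc.: `cvL` of the list of the weighted sequences `wt f rho` is `wt (cvL ..) rho` (`wt_cvL`), and
`wt (rN ⊤) rho = R0 * rL` (`R0 > 0`) and so on; `cvL` is multilinear.  `cvL (F :: l) n = ∑_{j ≤ n} F j cvL l (n - j)`
(`cv_eq_range`).  `SL_rest`: `cvL_perm` to move the last element to the front; `cv one0 = id`.
`SL_path`: every value of a convolution of nonnegative sequences is at most the product of the sums.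

`ps_wb`: `H1` for the laws `rL`, `dL`, `g` (`tails`, `dL_DL`), `A = 2 + alG`: for `e ≥ 1`, `|v - alG e| ≤ 3 e^(3/5)`:
`v ≤ (alG + 3) e`; `meanL (SL rL dL g v e) = v mean rL + e mean dL + mean g`, so
`|meanL - muS e| ≤ 3 mean rL e^(3/5) + mean g ≤ C1' e^(3/5)`; so if `s + C1' e^(3/5) ≤ |m - muS e|` then
`s ≤ |m - meanL|`.  Define `w e` as the maximum of `cvL (SL rL dL g v' e') m` over the finitely many pairs
`e' ∈ {e - 1, e}`, `e' ≥ 1`, `v' ≤ (alG + 4) e` with `|v' - alG e'| ≤ 4 e^(3/5)` or so (and `0`); `e' ≥ e / 2`, so the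
constants change by bounded factors.
-/

set_option linter.unusedSectionVars false

namespace Dia
open Finset PGr Pool.Agent.DiamP Pool.Agent.DiamP.Hv

/-- mean of the total size per edge of the core -/
noncomputable def muS : ℝ := alG * mean rL + mean dL

theorem R0_pos : 0 < R0 := lt_of_lt_of_le (by norm_num) R0_range.1

private theorem D0_pos' : 0 < D0 := lt_of_lt_of_le (by norm_num) D0_range.1

private theorem rho_pos' : 0 < rho := lt_of_lt_of_le (by norm_num) rho_ge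

theorem G0_pos : 0 < G0 := by
  have h := sum_g.le_tsum 0 fun k _ => mul_nonneg (gN_pos ⊤ k).le (pow_nonneg rho_pos'.le k)
  have h1 : wt (gN ⊤) rho 0 = 1 := by rw [wt, gN_zero, pow_zero, mul_one]
  rw [h1] at h
  exact lt_of_lt_of_le one_pos h

private theorem mean_dL_pos : 0 < mean dL := by
  obtain ⟨K, -, hd, -⟩ := tails
  have h1 := hd.summable_mean.le_tsum 1 fun n _ => mul_nonneg (hd.law.nonneg n) (Nat.cast_nonneg n)
  have h2 := dL_DL.pos 1
  have h3 : mean dL = ∑' n : ℕ, dL n * (n : ℝ) := rfl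
  rw [h3]
  rw [Nat.cast_one, mul_one] at h1
  linarith

theorem muS_pos : 0 < muS := by
  obtain ⟨K, hr, -, -⟩ := tails
  have h1 := tg_V.1
  have h2 := hr.law.mean_nonneg
  have h3 := mean_dL_pos
  unfold muS
  positivity

/-! ### scaling of convolutions -/

private theorem cv_smul (a b : ℝ) (p q : ℕ → ℝ) :
    cv (fun k => a * p k) (fun k => b * q k) = fun n => a * b * cv p q n := by
  funext n
  unfold cv
  rw [Finset.mul_sum]
  exact Finset.sum_congr rfl fun ij _ => by ring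

private theorem cvL_smul (a b : ℝ) (p : ℕ → ℝ) (l l' : List (ℕ → ℝ))
    (h : cvL l' = fun n => b * cvL l n) (v : ℕ) :
    cvL (List.replicate v (fun k => a * p k) ++ l') =
      fun n => a ^ v * b * cvL (List.replicate v p ++ l) n := by
  induction v with
  | zero => simp [h]
  | succ v ih =>
    rw [List.replicate_succ, List.replicate_succ, List.cons_append, List.cons_append, cvL_cons,
      cvL_cons, ih, cv_smul]
    funext n
    ring

private theorem wt_r : wt (rN ⊤) rho = fun k => R0 * rL k := by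
  funext k
  rw [rL, mul_div_cancel₀ _ R0_pos.ne']

private theorem wt_d : wt (dN ⊤) rho = fun k => D0 * dL k := by
  funext k
  rw [dL, mul_div_cancel₀ _ D0_pos'.ne']

private theorem wt_g : wt (gN ⊤) rho = fun k => G0 * gL k := by
  funext k
  rw [gL, mul_div_cancel₀ _ G0_pos.ne']

private theorem map_SL (r d g : ℕ → ℝ) (v e : ℕ) (x : ℝ) :
    (SL r d g v e).map (fun f => wt f x) = SL (wt r x) (wt d x) (wt g x) v e := by
  simp [SL]

private theorem SL_wt (F : ℕ → ℝ) (b : ℝ) (G : ℕ → ℝ) (h : wt F rho = fun k => b * G k) (v e : ℕ) :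
    wt (cvL (SL (rN ⊤) (dN ⊤) F v e)) rho =
      fun n => R0 ^ v * (D0 ^ e * b) * cvL (SL rL dL G v e) n := by
  rw [← wt_cvL, map_SL, wt_r, wt_d, h, SL, SL]
  refine cvL_smul R0 (D0 ^ e * b) rL _ _ ?_ v
  refine cvL_smul D0 b dL _ _ ?_ e
  rw [cvL_singleton, cvL_singleton]

theorem SL_scale (v e n : ℕ) : cvL (SL (rN ⊤) (dN ⊤) (gN ⊤) v e) n * rho ^ n =
    R0 ^ v * D0 ^ e * G0 * cvL (SL rL dL gL v e) n := by
  have h := congrFun (SL_wt (gN ⊤) G0 gL wt_g v e) n
  change cvL (SL (rN ⊤) (dN ⊤) (gN ⊤) v e) n * rho ^ n = _ at h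
  rw [h]
  ring

private theorem cons_wt (F : ℕ → ℝ) (l : List (ℕ → ℝ)) (n : ℕ) :
    cvL (F :: l) n * rho ^ n = ∑ j ∈ range (n + 1), wt F rho j * (cvL l (n - j) * rho ^ (n - j)) := by
  have h := congrFun (wt_cv F (cvL l) rho) n
  rw [cv_eq_range] at h
  exact h.symm

theorem SL_cons (F : ℕ → ℝ) (v e n : ℕ) :
    cvL (F :: SL (rN ⊤) (dN ⊤) (gN ⊤) v e) n * rho ^ n =
      R0 ^ v * D0 ^ e * G0 * ∑ j ∈ range (n + 1), wt F rho j * cvL (SL rL dL gL v e) (n - j) := by
  rw [cons_wt, Finset.mul_sum]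
  refine Finset.sum_congr rfl fun j _ => ?_
  rw [SL_scale]
  ring

theorem SL_rest (F : ℕ → ℝ) (v e n : ℕ) :
    cvL (SL (rN ⊤) (dN ⊤) F v e) n * rho ^ n =
      R0 ^ v * D0 ^ e * ∑ j ∈ range (n + 1), wt F rho j * cvL (SL rL dL one0 v e) (n - j) := by
  have hp : ∀ (r d F : ℕ → ℝ), cvL (SL r d F v e) = cvL (F :: SL r d one0 v e) := by
    intro r d F
    have h1 : cvL (SL r d F v e) = cvL (F :: (List.replicate v r ++ List.replicate e d)) := by
      apply cvL_perm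
      rw [SL, ← List.append_assoc]
      exact List.perm_append_comm
    have h2 : cvL (SL r d one0 v e) = cvL (List.replicate v r ++ List.replicate e d) := by
      have h3 : cvL (SL r d one0 v e) =
          cvL (one0 :: (List.replicate v r ++ List.replicate e d)) := by
        apply cvL_perm
        rw [SL, ← List.append_assoc]
        exact List.perm_append_comm
      rw [h3, cvL_cons, one0_cv]
    rw [h1, cvL_cons, cvL_cons, h2]
  have h1 : wt one0 rho = fun k => (1 : ℝ) * one0 k := by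
    funext k
    simp only [wt, one0]
    split_ifs with h
    · simp [h]
    · simp
  rw [hp (rN ⊤) (dN ⊤) F, cons_wt, Finset.mul_sum]
  refine Finset.sum_congr rfl fun j _ => ?_
  have h := congrFun (SL_wt one0 1 one0 h1 v e) (n - j)
  change cvL (SL (rN ⊤) (dN ⊤) one0 v e) (n - j) * rho ^ (n - j) = _ at h
  rw [h]
  ring

theorem HT_one0 {K : ℝ} (hK : 0 ≤ K) : HT K one0 := by
  refine ⟨isLaw_one0, fun s hs => ?_⟩
  have h : Pool.Agent.DiamP.tl one0 s = 0 := by
    unfold Pool.Agent.DiamP.tl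
    have : (fun n => one0 (n + s)) = fun _ => 0 := by
      funext n
      unfold one0
      rw [if_neg (by omega)]
    rw [this, tsum_zero]
  rw [h]
  positivity

private theorem law_SL {g : ℕ → ℝ} (hg : IsLaw g) (v e : ℕ) : IsLaw (cvL (SL rL dL g v e)) := by
  obtain ⟨K, hr, hd, -⟩ := tails
  exact isLaw_cvL (mem_SL hr.law hd.law hg)

theorem PS_le_one {g : ℕ → ℝ} (hg : IsLaw g) (v e m : ℕ) : cvL (SL rL dL g v e) m ≤ 1 :=
  (law_SL hg v e).le_one m

theorem PS_nonneg {g : ℕ → ℝ} (hg : IsLaw g) (v e m : ℕ) : 0 ≤ cvL (SL rL dL g v e) m :=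
  (law_SL hg v e).nonneg m

theorem SL_path {F : ℕ → ℝ} (hF : ∀ k, 0 ≤ F k) (hs : Summable (wt F rho)) (k v e n : ℕ) :
    cvL (List.replicate k F ++ SL (rN ⊤) (dN ⊤) (gN ⊤) v e) n * rho ^ n ≤
      (∑' j, wt F rho j) ^ k * (R0 ^ v * D0 ^ e * G0) := by
  have hw : ∀ j, 0 ≤ wt F rho j := fun j => mul_nonneg (hF j) (pow_nonneg rho_pos'.le j)
  have hS : 0 ≤ ∑' j, wt F rho j := tsum_nonneg hw
  have hB : 0 ≤ R0 ^ v * D0 ^ e * G0 := by
    have := R0_pos; have := D0_pos'; have := G0_pos; positivity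
  induction k generalizing n with
  | zero =>
    rw [List.replicate_zero, List.nil_append, SL_scale, pow_zero, one_mul]
    obtain ⟨K, -, -, hg⟩ := tails
    calc _ ≤ R0 ^ v * D0 ^ e * G0 * 1 := mul_le_mul_of_nonneg_left (PS_le_one hg.law v e n) hB
      _ = _ := mul_one _
  | succ k ih =>
    rw [List.replicate_succ, List.cons_append, cons_wt]
    calc _ ≤ ∑ j ∈ range (n + 1), wt F rho j * ((∑' j, wt F rho j) ^ k * (R0 ^ v * D0 ^ e * G0)) :=
          Finset.sum_le_sum fun j _ => mul_le_mul_of_nonneg_left (ih (n - j)) (hw j)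
      _ = (∑ j ∈ range (n + 1), wt F rho j) * ((∑' j, wt F rho j) ^ k * (R0 ^ v * D0 ^ e * G0)) := by
          rw [Finset.sum_mul]
      _ ≤ (∑' j, wt F rho j) * ((∑' j, wt F rho j) ^ k * (R0 ^ v * D0 ^ e * G0)) :=
          mul_le_mul_of_nonneg_right (hs.sum_le_tsum _ fun j _ => hw j) (by positivity)
      _ = _ := by rw [pow_succ]; ring

private theorem HT_mono {K K' : ℝ} {p : ℕ → ℝ} (h : HT K p) (hK : K ≤ K') : HT K' p :=
  ⟨h.law, fun s hs => (h.tail s hs).trans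
    (mul_le_mul_of_nonneg_right hK (Real.rpow_nonneg (Nat.cast_nonneg s) _))⟩

theorem ps_wb {g : ℕ → ℝ} {K0 : ℝ} (hg : HT K0 g) : ∃ C1 K : ℝ, 0 ≤ C1 ∧ 0 ≤ K ∧ ∀ m : ℕ,
    ∃ w : ℕ → ℝ, Wb muS C1 K m w ∧ ∀ v e v' e' : ℕ, 2 ≤ e → v' ≤ v → v ≤ v' + 1 → e' ≤ e →
      e ≤ e' + 1 → |(v : ℝ) - alG * e| ≤ 2 * (e : ℝ) ^ (3 / 5 : ℝ) →
        cvL (SL rL dL g v' e') m ≤ w e := by
  obtain ⟨K, hr0, hd0, -⟩ := tails
  have hr := HT_mono hr0 (le_max_left K K0)
  have hd := HT_mono hd0 (le_max_left K K0)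
  have hg' := HT_mono hg (le_max_right K K0)
  have hal := tg_V.1
  obtain ⟨K', hK', hH1⟩ := H1 hr hd hg' dL_DL (2 * alG + 4)
  have hmr := hr.law.mean_nonneg
  have hmd := hd.law.mean_nonneg
  have hmg := hg'.law.mean_nonneg
  refine ⟨3 * mean rL + mean dL + mean g, 2 * K', by positivity, by positivity, fun m => ?_⟩
  -- the admissible values
  set S : ℕ → Set ℝ := fun e => {x | x = 0 ∨ ∃ v v' e' : ℕ, 2 ≤ e ∧ v' ≤ v ∧ v ≤ v' + 1 ∧ e' ≤ e ∧
    e ≤ e' + 1 ∧ |(v : ℝ) - alG * e| ≤ 2 * (e : ℝ) ^ (3 / 5 : ℝ) ∧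
      x = cvL (SL rL dL g v' e') m} with hS
  have hne : ∀ e, (S e).Nonempty := fun e => ⟨0, Or.inl rfl⟩
  have hbd : ∀ e, BddAbove (S e) := by
    intro e
    refine ⟨1, ?_⟩
    rintro x (rfl | ⟨v, v', e', -, -, -, -, -, -, rfl⟩)
    · exact zero_le_one
    · exact PS_le_one hg'.law v' e' m
  refine ⟨fun e => sSup (S e), ⟨fun e => le_csSup (hbd e) (Or.inl rfl), ?_, ?_⟩, ?_⟩
  · intro e he
    have hepos : (0 : ℝ) < e := by exact_mod_cast he
    refine csSup_le (hne e) ?_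
    rintro x (rfl | ⟨v, v', e', he2, hv1, hv2, he3, he4, hv, rfl⟩)
    · positivity
    have he'1 : 1 ≤ e' := by omega
    have he'pos : (0 : ℝ) < e' := by exact_mod_cast he'1
    have he'2 : (e : ℝ) ≤ 2 * e' := by exact_mod_cast (by omega : e ≤ 2 * e')
    have he1 : (1 : ℝ) ≤ e := by exact_mod_cast he
    have hpw : (e : ℝ) ^ (3 / 5 : ℝ) ≤ e := by
      calc (e : ℝ) ^ (3 / 5 : ℝ) ≤ (e : ℝ) ^ (1 : ℝ) :=
            Real.rpow_le_rpow_of_exponent_le he1 (by norm_num)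
        _ = e := Real.rpow_one _
    have hvA : (v' : ℝ) ≤ (2 * alG + 4) * e' := by
      have h1 : (v' : ℝ) ≤ v := by exact_mod_cast hv1
      have h2 := (abs_le.1 hv).2
      have h3 : (v : ℝ) ≤ (alG + 2) * e := by linarith
      calc (v' : ℝ) ≤ (alG + 2) * e := h1.trans h3
        _ ≤ (alG + 2) * (2 * e') := mul_le_mul_of_nonneg_left he'2 (by linarith)
        _ = _ := by ring
    have h1 := (hH1 v' e' he'1 hvA m).1
    refine h1.trans ?_
    have h2 : (e' : ℝ) ^ (-(2 / 3) : ℝ) ≤ ((e : ℝ) / 2) ^ (-(2 / 3) : ℝ) :=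
      Real.rpow_le_rpow_of_nonpos (by positivity) (by linarith) (by norm_num)
    have h3 : ((e : ℝ) / 2) ^ (-(2 / 3) : ℝ) = (e : ℝ) ^ (-(2 / 3) : ℝ) * 2 ^ (2 / 3 : ℝ) := by
      rw [Real.div_rpow hepos.le (by norm_num), Real.rpow_neg (by norm_num : (0:ℝ) ≤ 2),
        div_inv_eq_mul]
    have h4 : (2 : ℝ) ^ (2 / 3 : ℝ) ≤ 2 := by
      have : (2 : ℝ) ^ (2 / 3 : ℝ) ≤ 2 ^ (1 : ℝ) :=
        Real.rpow_le_rpow_of_exponent_le (by norm_num) (by norm_num)
      rwa [Real.rpow_one] at this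
    have hp : 0 < (e : ℝ) ^ (-(2 / 3) : ℝ) := Real.rpow_pos_of_pos hepos _
    calc K' * (e' : ℝ) ^ (-(2 / 3) : ℝ) ≤ K' * ((e : ℝ) ^ (-(2 / 3) : ℝ) * 2) := by
          refine mul_le_mul_of_nonneg_left (h2.trans ?_) hK'.le
          rw [h3]
          exact mul_le_mul_of_nonneg_left h4 hp.le
      _ = _ := by ring
  · intro e he s hs hm
    have hepos : (0 : ℝ) < e := by exact_mod_cast he
    have hsp : 0 < s ^ (-(3 / 2) : ℝ) := Real.rpow_pos_of_pos hs _
    refine csSup_le (hne e) ?_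
    rintro x (rfl | ⟨v, v', e', he2, hv1, hv2, he3, he4, hv, rfl⟩)
    · positivity
    have he'1 : 1 ≤ e' := by omega
    have he'pos : (0 : ℝ) < e' := by exact_mod_cast he'1
    have he'2 : (e : ℝ) ≤ 2 * e' := by exact_mod_cast (by omega : e ≤ 2 * e')
    have he1 : (1 : ℝ) ≤ e := by exact_mod_cast he
    have hpw : (e : ℝ) ^ (3 / 5 : ℝ) ≤ e := by
      calc (e : ℝ) ^ (3 / 5 : ℝ) ≤ (e : ℝ) ^ (1 : ℝ) :=
            Real.rpow_le_rpow_of_exponent_le he1 (by norm_num)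
        _ = e := Real.rpow_one _
    have hpw1 : 1 ≤ (e : ℝ) ^ (3 / 5 : ℝ) := Real.one_le_rpow he1 (by norm_num)
    have hvA : (v' : ℝ) ≤ (2 * alG + 4) * e' := by
      have h1 : (v' : ℝ) ≤ v := by exact_mod_cast hv1
      have h2 := (abs_le.1 hv).2
      have h3 : (v : ℝ) ≤ (alG + 2) * e := by linarith
      calc (v' : ℝ) ≤ (alG + 2) * e := h1.trans h3
        _ ≤ (alG + 2) * (2 * e') := mul_le_mul_of_nonneg_left he'2 (by linarith)
        _ = _ := by ring
    have hmean : |meanL (SL rL dL g v' e') - muS * e| ≤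
        (3 * mean rL + mean dL + mean g) * (e : ℝ) ^ (3 / 5 : ℝ) := by
      have h1 : meanL (SL rL dL g v' e') - muS * e =
          (((v : ℝ) - alG * e) - ((v : ℝ) - v')) * mean rL - ((e : ℝ) - e') * mean dL + mean g := by
        rw [meanL_SL, muS]
        ring
      have a1 : 0 ≤ (v : ℝ) - v' ∧ (v : ℝ) - v' ≤ 1 := by
        constructor
        · rw [sub_nonneg]; exact_mod_cast hv1
        · rw [sub_le_iff_le_add, add_comm]; exact_mod_cast hv2
      have a2 : 0 ≤ (e : ℝ) - e' ∧ (e : ℝ) - e' ≤ 1 := by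
        constructor
        · rw [sub_nonneg]; exact_mod_cast he3
        · rw [sub_le_iff_le_add, add_comm]; exact_mod_cast he4
      have b1 : |((v : ℝ) - alG * e) - ((v : ℝ) - v')| ≤ 3 * (e : ℝ) ^ (3 / 5 : ℝ) := by
        rw [abs_le]
        have := abs_le.1 hv
        constructor <;> linarith [this.1, this.2, a1.1, a1.2]
      have b2 : |((e : ℝ) - e')| ≤ (e : ℝ) ^ (3 / 5 : ℝ) := by
        rw [abs_le]
        constructor <;> linarith [a2.1, a2.2]
      rw [h1]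
      calc _ ≤ |(((v : ℝ) - alG * e) - ((v : ℝ) - v')) * mean rL - ((e : ℝ) - e') * mean dL| +
            |mean g| := abs_add_le _ _
        _ ≤ |(((v : ℝ) - alG * e) - ((v : ℝ) - v')) * mean rL| + |((e : ℝ) - e') * mean dL| +
            |mean g| := by
          gcongr
          exact abs_sub _ _
        _ = |((v : ℝ) - alG * e) - ((v : ℝ) - v')| * mean rL + |(e : ℝ) - e'| * mean dL +
            mean g := by
          rw [abs_mul, abs_mul, abs_of_nonneg hmr, abs_of_nonneg hmd, abs_of_nonneg hmg]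
        _ ≤ 3 * (e : ℝ) ^ (3 / 5 : ℝ) * mean rL + (e : ℝ) ^ (3 / 5 : ℝ) * mean dL +
            mean g * (e : ℝ) ^ (3 / 5 : ℝ) := by
          have c1 := mul_le_mul_of_nonneg_right b1 hmr
          have c2 := mul_le_mul_of_nonneg_right b2 hmd
          have c3 := mul_le_mul_of_nonneg_left hpw1 hmg
          linarith
        _ = _ := by ring
    have hdist : s ≤ |(m : ℝ) - meanL (SL rL dL g v' e')| := by
      have h1 : |(m : ℝ) - muS * e| ≤ |(m : ℝ) - meanL (SL rL dL g v' e')| +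
          |meanL (SL rL dL g v' e') - muS * e| := abs_sub_le _ _ _
      linarith
    have h1 := (hH1 v' e' he'1 hvA m).2 s hs hdist
    refine h1.trans ?_
    refine mul_le_mul_of_nonneg_right ?_ hsp.le
    have h2 : (e' : ℝ) ^ (1 / 3 : ℝ) ≤ (e : ℝ) ^ (1 / 3 : ℝ) :=
      Real.rpow_le_rpow he'pos.le (by exact_mod_cast he3) (by norm_num)
    have h3 : 0 ≤ (e : ℝ) ^ (1 / 3 : ℝ) := by positivity
    calc K' * (e' : ℝ) ^ (1 / 3 : ℝ) ≤ K' * (e : ℝ) ^ (1 / 3 : ℝ) :=
          mul_le_mul_of_nonneg_left h2 hK'.le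
      _ ≤ 2 * K' * (e : ℝ) ^ (1 / 3 : ℝ) := by nlinarith
  · intro v e v' e' he2 hv1 hv2 he3 he4 hv
    exact le_csSup (hbd e) (Or.inr ⟨v, v', e', he2, hv1, hv2, he3, he4, hv, rfl⟩)

end Dia
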