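import Pool.Agent.Dia.KG
import Pool.Agent.Dia.PSB

/-!
# Module ClassUp: upper bounds for the weight of the pairs whose core is in a class

`sVE n ε F` is the sum over `v ≤ n` and `ε n ≤ e ≤ 3 n`.

`class_up`: fix `e`; `kg_up` with `w v = cvL (SL rL dL g (v - a) (e - b)) m` (`≥ 0`, `≤ 1`):
the inner sum is at most `1/e ∑_{v < e} gP P.two v (e-1) R0^v D0^(e-1) w (v + 2)`.  For `v` with
`(e-1)^(3/5) ≤ |v + 2 - alG (e-1)|` use `gP P.two ≤ gP PGT` and `tg_V`: at most `exp (-(e-1)^(1/10))`.  For the other `v`: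
`|v + 2 - alG e| ≤ 2 e^(3/5)` for large `e`, so `w (v+2) ≤ wE e` with the function `wE` of `ps_wb`; the sum is at most
`tauG P.two (e-1) wE e`.  The sequence `t e = tauG P.two (e-1)` satisfies `WinB (5 δ) (ε n) (4 n)` if `tauG P.two` satisfies
`WinB δ (ε n / 2) (4 n)`: a window `[N, N + N^(2/3)]` for `e` is contained in the union of `e - 1 = N - 1` and
`e - 1 ∈ [N, N + N^(2/3)]`.  `win_sum`; `1/e ≤ 1/(ε n)`; `∑_{e ≥ ε n} exp (-(e-1)^(1/10)) ≤ n^(-9/2)` for large `n`.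
-/

set_option linter.unusedSectionVars false

namespace Dia
open Finset PGr Pool.Agent.DiamP Pool.Agent.DiamP.Hv

/-- sum over `v ≤ n`, `ε n ≤ e ≤ 3 n` -/
noncomputable def sVE (n : ℕ) (ε : ℝ) (F : ℕ → ℕ → ℝ) : ℝ :=
  ∑ e ∈ (range (3 * n + 1)).filter (fun e : ℕ => ε * n ≤ e), ∑ v ∈ range (n + 1), F v e

/-- subexponential bound against powers -/
private theorem exp_small {ε : ℝ} (hε : 0 < ε) : ∃ n0 : ℕ, ∀ n : ℕ, n0 ≤ n →
    (3 * n + 1) / (ε * n) * Real.exp (-(ε * n / 2) ^ (1 / 10 : ℝ)) ≤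
      1 / (n : ℝ) * (n : ℝ) ^ (-(7 / 2) : ℝ) := by
  have h1 : Filter.Tendsto (fun x : ℝ => x ^ 60 * Real.exp (-x)) Filter.atTop (nhds 0) :=
    Real.tendsto_pow_mul_exp_neg_atTop_nhds_zero 60
  have h2 : Filter.Tendsto (fun n : ℕ => (ε * n / 2) ^ (1 / 10 : ℝ)) Filter.atTop Filter.atTop := by
    refine (tendsto_rpow_atTop (by norm_num)).comp ?_
    have : (fun n : ℕ => ε * (n : ℝ) / 2) = fun n : ℕ => (ε / 2) * (n : ℝ) := by
      funext n; ring
    rw [this]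
    exact tendsto_natCast_atTop_atTop.const_mul_atTop (by positivity)
  have h3 := h1.comp h2
  have h4 := h3.eventually (gt_mem_nhds one_pos)
  have h5 : ∀ᶠ n : ℕ in Filter.atTop, 4 / ε * (2 / ε) ^ 6 ≤ (n : ℝ) :=
    tendsto_natCast_atTop_atTop.eventually (Filter.eventually_ge_atTop _)
  obtain ⟨n0, hn0⟩ := Filter.eventually_atTop.1 (h4.and (h5.and (Filter.eventually_ge_atTop 1)))
  refine ⟨n0, fun n hn => ?_⟩
  obtain ⟨ha, hb, hc⟩ := hn0 n hn
  have hn1 : (1 : ℝ) ≤ n := by exact_mod_cast hc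
  have hnpos : (0 : ℝ) < n := by linarith
  set y : ℝ := (ε * n / 2) ^ (1 / 10 : ℝ) with hy
  have hy60 : y ^ 60 = (ε * n / 2) ^ 6 := by
    rw [hy, ← Real.rpow_natCast, ← Real.rpow_mul (by positivity)]
    norm_num
  simp only [Function.comp_apply] at ha
  rw [← hy, hy60] at ha
  have he : Real.exp (-y) ≤ (2 / ε) ^ 6 / (n : ℝ) ^ 6 := by
    have h6 : 0 < (ε * n / 2) ^ 6 := by positivity
    have h7 : Real.exp (-y) ≤ 1 / (ε * n / 2) ^ 6 := by
      rw [le_div_iff₀ h6]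
      linarith
    refine h7.trans (le_of_eq ?_)
    field_simp
  have h6 : (3 * (n : ℝ) + 1) / (ε * n) ≤ 4 / ε := by
    rw [div_le_div_iff₀ (by positivity) hε]
    nlinarith
  have h7 : (n : ℝ) ^ (-(7 / 2) : ℝ) ≥ 1 / (n : ℝ) ^ 4 := by
    rw [ge_iff_le, one_div, ← Real.rpow_natCast, ← Real.rpow_neg hnpos.le]
    exact Real.rpow_le_rpow_of_exponent_le hn1 (by norm_num)
  calc (3 * n + 1) / (ε * n) * Real.exp (-y) ≤ 4 / ε * ((2 / ε) ^ 6 / (n : ℝ) ^ 6) :=
        mul_le_mul h6 he (Real.exp_pos _).le (by positivity)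
    _ = (4 / ε * (2 / ε) ^ 6) / (n : ℝ) ^ 6 := by ring
    _ ≤ (n : ℝ) / (n : ℝ) ^ 6 := by gcongr
    _ = 1 / (n : ℝ) * (1 / (n : ℝ) ^ 4) := by
      field_simp
    _ ≤ _ := mul_le_mul_of_nonneg_left h7 (by positivity)

private theorem shift_win {δ a b : ℝ} {t : ℕ → ℝ} (hδ : 0 ≤ δ) (ht : ∀ e, 0 ≤ t e) {A : ℝ}
    (hA : 2 ≤ A) (haA : a ≤ A - 1)
    (h : WinB δ a b t) : WinB (5 * δ) A b (fun e => t (e - 1)) := by
  intro N hN haN hNb J hJ
  have hN2 : 2 ≤ N := by exact_mod_cast hA.trans haN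
  have hNpos : (0 : ℝ) < N := by exact_mod_cast (by omega : 0 < N)
  classical
  have hinj : Set.InjOn (fun e : ℕ => e - 1) (J : Set ℕ) := by
    intro x hx y hy hxy
    have h1 := (hJ x hx).1
    have h2 := (hJ y hy).1
    simp only at hxy
    omega
  have h0 : ∑ e ∈ J, t (e - 1) = ∑ e ∈ J.image (fun e : ℕ => e - 1), t e := by
    rw [Finset.sum_image hinj]
  set J1 := J.image (fun e : ℕ => e - 1) with hJ1
  have hmem : ∀ e ∈ J1, N - 1 ≤ e ∧ (e : ℝ) + 1 ≤ N + (N : ℝ) ^ (2 / 3 : ℝ) := by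
    intro e he
    obtain ⟨x, hx, rfl⟩ := Finset.mem_image.1 he
    have h1 := hJ x hx
    constructor
    · omega
    · have : ((x - 1 : ℕ) : ℝ) + 1 = x := by
        rw [Nat.cast_sub (by omega)]; push_cast; ring
      rw [this]
      exact h1.2
  have hcast : ((N - 1 : ℕ) : ℝ) = N - 1 := by
    rw [Nat.cast_sub (by omega)]; push_cast; ring
  have hw1 : t (N - 1) ≤ 4 * δ * (N : ℝ) ^ (-(11 / 6) : ℝ) := by
    have h1 := h (N - 1) (by omega) (by rw [hcast]; linarith) (by rw [hcast]; linarith) {N - 1}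
      (by
        intro e he
        rw [Finset.mem_singleton] at he
        subst he
        exact ⟨le_rfl, by
          have : 0 ≤ ((N - 1 : ℕ) : ℝ) ^ (2 / 3 : ℝ) := by positivity
          linarith⟩)
    rw [Finset.sum_singleton, hcast] at h1
    refine h1.trans ?_
    have h2 : ((N : ℝ) - 1) ^ (-(11 / 6) : ℝ) ≤ ((N : ℝ) / 2) ^ (-(11 / 6) : ℝ) := by
      refine Real.rpow_le_rpow_of_nonpos (by positivity) ?_ (by norm_num)
      have : (2 : ℝ) ≤ N := by exact_mod_cast hN2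
      linarith
    have h3 : ((N : ℝ) / 2) ^ (-(11 / 6) : ℝ) = (N : ℝ) ^ (-(11 / 6) : ℝ) * 2 ^ (11 / 6 : ℝ) := by
      rw [Real.div_rpow hNpos.le (by norm_num), Real.rpow_neg (by norm_num : (0:ℝ) ≤ 2),
        div_inv_eq_mul]
    have h4 : (2 : ℝ) ^ (11 / 6 : ℝ) ≤ 4 := by
      have : (2 : ℝ) ^ (11 / 6 : ℝ) ≤ 2 ^ (2 : ℝ) :=
        Real.rpow_le_rpow_of_exponent_le (by norm_num) (by norm_num)
      refine this.trans (le_of_eq ?_)
      norm_num
    have hp : 0 < (N : ℝ) ^ (-(11 / 6) : ℝ) := Real.rpow_pos_of_pos hNpos _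
    calc δ * ((N : ℝ) - 1) ^ (-(11 / 6) : ℝ) ≤ δ * ((N : ℝ) ^ (-(11 / 6) : ℝ) * 4) := by
          refine mul_le_mul_of_nonneg_left (h2.trans ?_) hδ
          rw [h3]
          exact mul_le_mul_of_nonneg_left h4 hp.le
      _ = _ := by ring
  have hw2 : ∑ e ∈ J1.erase (N - 1), t e ≤ δ * (N : ℝ) ^ (-(11 / 6) : ℝ) := by
    refine h N hN (by linarith) hNb _ fun e he => ?_
    rw [Finset.mem_erase] at he
    have h1 := hmem e he.2
    exact ⟨by omega, by linarith [h1.2]⟩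
  rw [h0]
  calc ∑ e ∈ J1, t e ≤ ∑ e ∈ insert (N - 1) (J1.erase (N - 1)), t e := by
        refine Finset.sum_le_sum_of_subset_of_nonneg ?_ fun e _ _ => ht e
        intro e he
        rw [Finset.mem_insert, Finset.mem_erase]
        by_cases h1 : e = N - 1
        · exact Or.inl h1
        · exact Or.inr ⟨h1, he⟩
    _ = t (N - 1) + ∑ e ∈ J1.erase (N - 1), t e := by
        rw [Finset.sum_insert (Finset.notMem_erase _ _)]
    _ ≤ 4 * δ * (N : ℝ) ^ (-(11 / 6) : ℝ) + δ * (N : ℝ) ^ (-(11 / 6) : ℝ) := add_le_add hw1 hw2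
    _ = _ := by ring

theorem class_up {ε : ℝ} (hε : 0 < ε) (hε1 : ε < 1) {g : ℕ → ℝ} {K0 : ℝ} (hg : HT K0 g)
    {a b : ℕ} (ha : a ≤ 1) (hb : b ≤ 1) : ∃ K : ℝ, 0 < K ∧ ∃ n0 : ℕ, ∀ n : ℕ, n0 ≤ n →
      ∀ (δ : ℝ) (P : PG0), 0 ≤ δ → InvPG0 P → WinB δ (ε * n / 2) (4 * n) (tauG P.two) → ∀ m : ℕ,
        sVE n ε (fun v e => kP P v e * R0 ^ v * D0 ^ e * cvL (SL rL dL g (v - a) (e - b)) m) ≤
          K * (δ + 1 / n) * (n : ℝ) ^ (-(7 / 2) : ℝ) := by
  obtain ⟨C1, K1, hC1, hK1, hwb⟩ := ps_wb hg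
  obtain ⟨K', hK', n1, hwin⟩ := win_sum hε hε1 muS_pos hC1 hK1
  obtain ⟨hal, j0, htV⟩ := tg_V
  obtain ⟨n2, hn2⟩ := exp_small hε
  -- size conditions
  obtain ⟨E1, hE1⟩ : ∃ E1 : ℕ, ∀ e : ℕ, E1 ≤ e → alG ≤ (e : ℝ) ^ (3 / 5 : ℝ) := by
    have h1 := (tendsto_rpow_atTop (show (0 : ℝ) < 3 / 5 by norm_num)).comp
      tendsto_natCast_atTop_atTop
    exact Filter.eventually_atTop.1 (h1.eventually (Filter.eventually_ge_atTop alG))
  obtain ⟨n3, hn3⟩ : ∃ n3 : ℕ, ∀ n : ℕ, n3 ≤ n → ((E1 : ℝ) + j0 + 4) ≤ ε * n := by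
    have h1 : Filter.Tendsto (fun n : ℕ => ε * (n : ℝ)) Filter.atTop Filter.atTop :=
      tendsto_natCast_atTop_atTop.const_mul_atTop hε
    exact Filter.eventually_atTop.1 (h1.eventually (Filter.eventually_ge_atTop _))
  refine ⟨5 * K' / ε + 1, by positivity, max (max n1 n2) (max n3 1), fun n hn δ P hδ hP hW m => ?_⟩
  have hnn1 : n1 ≤ n := (le_max_left _ _).trans ((le_max_left _ _).trans hn)
  have hnn2 : n2 ≤ n := (le_max_right _ _).trans ((le_max_left _ _).trans hn)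
  have hnn3 : n3 ≤ n := (le_max_left _ _).trans ((le_max_right _ _).trans hn)
  have hn1 : 1 ≤ n := (le_max_right _ _).trans ((le_max_right _ _).trans hn)
  have hnpos : (0 : ℝ) < n := by exact_mod_cast hn1
  have hbig := hn3 n hnn3
  obtain ⟨w, hw, hwle⟩ := hwb m
  have hR := R0_pos
  have hD : 0 < D0 := lt_of_lt_of_le (by norm_num) D0_range.1
  have hεn : 0 < ε * n := by positivity
  -- the inner sums
  have hin : ∀ e ∈ (range (3 * n + 1)).filter (fun e : ℕ => ε * n ≤ e),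
      ∑ v ∈ range (n + 1), kP P v e * R0 ^ v * D0 ^ e * cvL (SL rL dL g (v - a) (e - b)) m ≤
        1 / (ε * n) * (tauG P.two (e - 1) * w e) +
          1 / (ε * n) * Real.exp (-(ε * n / 2) ^ (1 / 10 : ℝ)) := by
    intro e he
    obtain ⟨he1, he2⟩ := Finset.mem_filter.1 he
    have heb : ((E1 : ℝ) + j0 + 4) ≤ e := hbig.trans he2
    have heb' : E1 + j0 + 4 ≤ e := by exact_mod_cast heb
    have hepos : (0 : ℝ) < e := by linarith [hεn]
    refine (kg_up hP (by omega) (fun v => cvL (SL rL dL g (v - a) (e - b)) m)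
      (fun v => PS_nonneg hg.law _ _ _) (range (n + 1))).trans ?_
    -- each term
    have hterm : ∀ v ∈ range e, gP P.two v (e - 1) * R0 ^ v * D0 ^ (e - 1) *
        cvL (SL rL dL g (v + 2 - a) (e - b)) m ≤
          gP P.two v (e - 1) * R0 ^ v * D0 ^ (e - 1) * w e +
          (if ((e - 1 : ℕ) : ℝ) ^ (3 / 5 : ℝ) ≤ |((v : ℝ) + 2) - alG * ((e - 1 : ℕ) : ℝ)| then
            gP PGT v (e - 1) * R0 ^ v * D0 ^ (e - 1) else 0) := by
      intro v _
      have hgn := gP_nonneg P.two v (e - 1)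
      have hgm : gP P.two v (e - 1) ≤ gP PGT v (e - 1) := gP_mono (fun _ _ _ _ _ => trivial) v (e - 1)
      have hc : 0 ≤ gP P.two v (e - 1) * R0 ^ v * D0 ^ (e - 1) := by positivity
      split_ifs with hv
      · have h1 : gP P.two v (e - 1) * R0 ^ v * D0 ^ (e - 1) *
            cvL (SL rL dL g (v + 2 - a) (e - b)) m ≤ gP PGT v (e - 1) * R0 ^ v * D0 ^ (e - 1) * 1 := by
          refine mul_le_mul ?_ (PS_le_one hg.law _ _ _) (PS_nonneg hg.law _ _ _) (by
            have := gP_nonneg PGT v (e - 1); positivity)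
          gcongr
        have h2 : 0 ≤ gP P.two v (e - 1) * R0 ^ v * D0 ^ (e - 1) * w e := mul_nonneg hc (hw.nn e)
        linarith
      · rw [add_zero]
        refine mul_le_mul_of_nonneg_left ?_ hc
        refine hwle (v + 2) e (v + 2 - a) (e - b) (by omega) (by omega) (by omega) (by omega)
          (by omega) ?_
        push Not at hv
        have hcast : ((e - 1 : ℕ) : ℝ) = e - 1 := by
          rw [Nat.cast_sub (by omega)]; push_cast; ring
        have h1 : ((e - 1 : ℕ) : ℝ) ^ (3 / 5 : ℝ) ≤ (e : ℝ) ^ (3 / 5 : ℝ) :=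
          Real.rpow_le_rpow (by positivity) (by rw [hcast]; linarith) (by norm_num)
        have h2 := hE1 e (by omega)
        rw [hcast] at hv h1
        have h3 := abs_lt.1 hv
        rw [abs_le]
        push_cast
        constructor <;> nlinarith [h3.1, h3.2]
    have hsum := Finset.sum_le_sum hterm
    rw [Finset.sum_add_distrib, ← Finset.sum_mul] at hsum
    have hr1 : range e = range ((e - 1) + 1) := by congr 1; omega
    have htau : ∑ v ∈ range e, gP P.two v (e - 1) * R0 ^ v * D0 ^ (e - 1) = tauG P.two (e - 1) := by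
      rw [hr1]
      rfl
    have hV := htV (e - 1) (by omega)
    rw [← hr1] at hV
    rw [htau] at hsum
    have hcast : ((e - 1 : ℕ) : ℝ) = e - 1 := by
      rw [Nat.cast_sub (by omega)]; push_cast; ring
    have hexp : Real.exp (-((e - 1 : ℕ) : ℝ) ^ (1 / 10 : ℝ)) ≤
        Real.exp (-(ε * n / 2) ^ (1 / 10 : ℝ)) := by
      apply Real.exp_le_exp.2
      rw [neg_le_neg_iff]
      refine Real.rpow_le_rpow (by positivity) ?_ (by norm_num)
      rw [hcast]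
      linarith
    have hinv : 1 / (e : ℝ) ≤ 1 / (ε * n) := one_div_le_one_div_of_le hεn he2
    have htn : 0 ≤ tauG P.two (e - 1) * w e := mul_nonneg (tauG_nonneg _ _) (hw.nn e)
    calc _ ≤ 1 / (e : ℝ) * (tauG P.two (e - 1) * w e + Real.exp (-(ε * n / 2) ^ (1 / 10 : ℝ))) := by
          refine mul_le_mul_of_nonneg_left (hsum.trans ?_) (by positivity)
          linarith
      _ ≤ 1 / (ε * n) * (tauG P.two (e - 1) * w e + Real.exp (-(ε * n / 2) ^ (1 / 10 : ℝ))) := by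
          refine mul_le_mul_of_nonneg_right hinv ?_
          have := (Real.exp_pos (-(ε * n / 2) ^ (1 / 10 : ℝ))).le
          linarith
      _ = _ := by ring
  have hS := Finset.sum_le_sum hin
  rw [Finset.sum_add_distrib, ← Finset.mul_sum, Finset.sum_const, nsmul_eq_mul] at hS
  have hwinB : WinB (5 * δ) (ε * n) (4 * n) (fun e => tauG P.two (e - 1)) :=
    shift_win hδ (fun e => tauG_nonneg _ e) (by
      have h1 : (0 : ℝ) ≤ E1 := Nat.cast_nonneg _
      have h2 : (0 : ℝ) ≤ j0 := Nat.cast_nonneg _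
      linarith) (by
      have h1 : (0 : ℝ) ≤ E1 := Nat.cast_nonneg _
      have h2 : (0 : ℝ) ≤ j0 := Nat.cast_nonneg _
      linarith) hW
  have hmain := hwin n hnn1 (5 * δ) (fun e => tauG P.two (e - 1)) (by positivity)
    (fun e => tauG_nonneg _ _) hwinB m w hw
  have hcard : (((range (3 * n + 1)).filter (fun e : ℕ => ε * n ≤ e)).card : ℝ) ≤ 3 * n + 1 := by
    have := Finset.card_filter_le (range (3 * n + 1)) (fun e : ℕ => ε * n ≤ e)
    rw [Finset.card_range] at this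
    exact_mod_cast this
  have hp1 : (n : ℝ) ^ (-(5 / 2) : ℝ) = n * (n : ℝ) ^ (-(7 / 2) : ℝ) := by
    nth_rewrite 2 [← Real.rpow_one (n : ℝ)]
    rw [← Real.rpow_add hnpos]
    norm_num
  have hpp : 0 < (n : ℝ) ^ (-(7 / 2) : ℝ) := Real.rpow_pos_of_pos hnpos _
  unfold sVE
  refine hS.trans ?_
  have e1 : 1 / (ε * n) * ∑ e ∈ (range (3 * n + 1)).filter (fun e : ℕ => ε * n ≤ e),
      tauG P.two (e - 1) * w e ≤ 5 * K' / ε * δ * (n : ℝ) ^ (-(7 / 2) : ℝ) := by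
    calc _ ≤ 1 / (ε * n) * (K' * (5 * δ) * (n : ℝ) ^ (-(5 / 2) : ℝ)) :=
          mul_le_mul_of_nonneg_left hmain (by positivity)
      _ = _ := by
        rw [hp1]
        field_simp
  have e2 : (((range (3 * n + 1)).filter (fun e : ℕ => ε * n ≤ e)).card : ℝ) *
      (1 / (ε * n) * Real.exp (-(ε * n / 2) ^ (1 / 10 : ℝ))) ≤
        1 / (n : ℝ) * (n : ℝ) ^ (-(7 / 2) : ℝ) := by
    refine le_trans ?_ (hn2 n hnn2)
    calc _ ≤ (3 * n + 1) * (1 / (ε * n) * Real.exp (-(ε * n / 2) ^ (1 / 10 : ℝ))) :=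
          mul_le_mul_of_nonneg_right hcard (by positivity)
      _ = _ := by ring
  have e3 : 0 ≤ 5 * K' / ε * (1 / n) * (n : ℝ) ^ (-(7 / 2) : ℝ) := by positivity
  have e4 : 0 ≤ δ * (n : ℝ) ^ (-(7 / 2) : ℝ) := by positivity
  calc _ ≤ 5 * K' / ε * δ * (n : ℝ) ^ (-(7 / 2) : ℝ) + 1 / (n : ℝ) * (n : ℝ) ^ (-(7 / 2) : ℝ) :=
        add_le_add e1 e2
    _ ≤ 5 * K' / ε * δ * (n : ℝ) ^ (-(7 / 2) : ℝ) + 1 / (n : ℝ) * (n : ℝ) ^ (-(7 / 2) : ℝ) +
        5 * K' / ε * (1 / n) * (n : ℝ) ^ (-(7 / 2) : ℝ) + δ * (n : ℝ) ^ (-(7 / 2) : ℝ) := by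
      linarith
    _ = _ := by ring

/-- all cores -/
theorem all_up {ε : ℝ} (hε : 0 < ε) (hε1 : ε < 1) {g : ℕ → ℝ} {K0 : ℝ} (hg : HT K0 g)
    {a b : ℕ} (ha : a ≤ 1) (hb : b ≤ 1) : ∃ K : ℝ, 0 < K ∧ ∃ n0 : ℕ, ∀ n : ℕ, n0 ≤ n →
      ∀ m : ℕ, sVE n ε (fun v e => kP PGT0 v e * R0 ^ v * D0 ^ e *
        cvL (SL rL dL g (v - a) (e - b)) m) ≤ K * (n : ℝ) ^ (-(7 / 2) : ℝ) := by
  obtain ⟨K, hK, n0, h⟩ := class_up hε hε1 hg ha hb
  obtain ⟨C, hC, hup⟩ := tg_up
  obtain ⟨n1, hn1⟩ : ∃ n1 : ℕ, ∀ n : ℕ, n1 ≤ n → (2 : ℝ) ≤ ε * n := by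
    have h1 : Filter.Tendsto (fun n : ℕ => ε * (n : ℝ)) Filter.atTop Filter.atTop :=
      tendsto_natCast_atTop_atTop.const_mul_atTop hε
    exact Filter.eventually_atTop.1 (h1.eventually (Filter.eventually_ge_atTop _))
  refine ⟨K * (C + 1), by positivity, max (max n0 n1) 1, fun n hn m => ?_⟩
  have hnn0 : n0 ≤ n := (le_max_left _ _).trans ((le_max_left _ _).trans hn)
  have hnn1 : n1 ≤ n := (le_max_right _ _).trans ((le_max_left _ _).trans hn)
  have hn1' : 1 ≤ n := (le_max_right _ _).trans hn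
  have hnpos : (1 : ℝ) ≤ n := by exact_mod_cast hn1'
  have hinv : InvPG0 PGT0 := fun _ _ _ _ _ _ => trivial
  have h2 := h n hnn0 C PGT0 hC.le hinv (by
    intro N hN haN hNb J hJ
    exact hup (4 * n) N hN (by exact_mod_cast hN) hNb J hJ) m
  refine h2.trans ?_
  have hpp : 0 ≤ (n : ℝ) ^ (-(7 / 2) : ℝ) := by positivity
  refine mul_le_mul_of_nonneg_right (mul_le_mul_of_nonneg_left ?_ hK.le) hpp
  have : 1 / (n : ℝ) ≤ 1 := by rw [div_le_one (by linarith)]; exact hnpos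
  linarith

/-- without the probabilities -/
theorem sum_up : ∃ K : ℝ, 0 < K ∧ ∀ (n : ℕ) (ε : ℝ), 0 < ε → 1 ≤ n →
    sVE n ε (fun v e => kP PGT0 v e * R0 ^ v * D0 ^ e) ≤ K := by
  obtain ⟨C, hC0, hC⟩ := tg_sum
  refine ⟨C, hC0, fun n ε hε hn => ?_⟩
  have hnpos : (0 : ℝ) < n := by exact_mod_cast hn
  have hinv : InvPG0 PGT0 := fun _ _ _ _ _ _ => trivial
  have hR := R0_pos
  have hD : 0 < D0 := lt_of_lt_of_le (by norm_num) D0_range.1
  have hin : ∀ e ∈ (range (3 * n + 1)).filter (fun e : ℕ => ε * n ≤ e),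
      ∑ v ∈ range (n + 1), kP PGT0 v e * R0 ^ v * D0 ^ e ≤ tauG PGT (e - 1) := by
    intro e he
    obtain ⟨-, he2⟩ := Finset.mem_filter.1 he
    have hepos : (0 : ℝ) < e := lt_of_lt_of_le (by positivity) he2
    have he1 : 1 ≤ e := by exact_mod_cast hepos
    have he1' : (1 : ℝ) ≤ e := by exact_mod_cast he1
    have h1 := kg_up hinv he1 (fun _ => 1) (fun _ => zero_le_one) (range (n + 1))
    simp only [mul_one] at h1
    refine h1.trans ?_
    have hr1 : range e = range ((e - 1) + 1) := by congr 1; omega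
    have htau : ∑ v ∈ range e, gP PGT0.two v (e - 1) * R0 ^ v * D0 ^ (e - 1) =
        tauG PGT (e - 1) := by
      rw [hr1]
      rfl
    rw [htau]
    calc 1 / (e : ℝ) * tauG PGT (e - 1) ≤ 1 * tauG PGT (e - 1) := by
          refine mul_le_mul_of_nonneg_right ?_ (tauG_nonneg _ _)
          rw [div_le_one hepos]
          exact he1'
      _ = _ := one_mul _
  unfold sVE
  refine (Finset.sum_le_sum hin).trans ?_
  classical
  have hinj : Set.InjOn (fun e : ℕ => e - 1)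
      ((range (3 * n + 1)).filter (fun e : ℕ => ε * n ≤ e) : Set ℕ) := by
    intro x hx y hy hxy
    have h1 : (0 : ℝ) < x := lt_of_lt_of_le (by positivity) (Finset.mem_filter.1 hx).2
    have h2 : (0 : ℝ) < y := lt_of_lt_of_le (by positivity) (Finset.mem_filter.1 hy).2
    have h1' : 0 < x := by exact_mod_cast h1
    have h2' : 0 < y := by exact_mod_cast h2
    simp only at hxy
    omega
  have h0 := Finset.sum_image (f := tauG PGT) hinj
  rw [← h0]
  exact hC _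

end Dia
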