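import Pool.Agent.Dia.CntX

/-!
# The graphs of the class BB without separating vertex, by core set, torso and parts
-/

set_option linter.unusedSectionVars false

namespace Dia
open Finset PGr Pool.Agent.DiamP

/-- two kinds of factors -/
theorem prod_two {ι : Type} [Fintype ι] (J S : ι → Prop) [DecidablePred J] [DecidablePred S]
    (hS : ∀ i, S i → J i) (F R : PowerSeries ℝ) :
    ∏ i, (if J i then (if S i then F else R) else 1) =
      F ^ Nat.card {i // S i} * R ^ (Nat.card {i // J i} - Nat.card {i // S i}) := by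
  classical
  have h1 : ∏ i, (if J i then (if S i then F else R) else 1) =
      (∏ i, if S i then F else 1) * ∏ i, if J i ∧ ¬ S i then R else 1 := by
    rw [← Finset.prod_mul_distrib]
    refine Finset.prod_congr rfl fun i _ => ?_
    by_cases hs : S i
    · simp [hs, hS i hs]
    · by_cases hj : J i
      · simp [hs, hj]
      · simp [hs, hj]
  rw [h1]
  simp only [Finset.prod_ite, Finset.prod_const, one_pow, mul_one]
  have h2 : (univ.filter fun i => S i).card = Nat.card {i // S i} := by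
    rw [Nat.card_eq_fintype_card, Fintype.card_subtype]
  have h3 : (univ.filter fun i => J i ∧ ¬ S i).card =
      Nat.card {i // J i} - Nat.card {i // S i} := by
    have h4 : (univ.filter fun i => J i).card = Nat.card {i // J i} := by
      rw [Nat.card_eq_fintype_card, Fintype.card_subtype]
    rw [← h2, ← h4]
    have h5 : (univ.filter fun i => J i ∧ ¬ S i) =
        (univ.filter fun i => J i) \ univ.filter fun i => S i := by
      ext i
      simp
    rw [h5, Finset.card_sdiff_of_subset]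
    intro i hi
    exact mem_filter.2 ⟨mem_univ _, hS i (mem_filter.1 hi).2⟩
  rw [h2, h3]

/-- one kind of factors -/
theorem prod_one' {ι : Type} [Fintype ι] (J : ι → Prop) [DecidablePred J] (R : PowerSeries ℝ) :
    ∏ i, (if J i then R else 1) = R ^ Nat.card {i // J i} := by
  classical
  rw [Finset.prod_ite, Finset.prod_const, Finset.prod_const_one, mul_one,
    Nat.card_eq_fintype_card, Fintype.card_subtype]

section poles
variable {A : Type} [Finite A]

/-- graphs which come from `BB` by adding the edge between the poles -/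
def CE (E : SimpleGraph (A ⊕ Bool)) : Prop := ∃ G, BB G ∧ addp G = E

theorem CE.del {E : SimpleGraph (A ⊕ Bool)} (h : CE E) :
    BB (DecD_del E) ∧ addp (DecD_del E) = E := by
  obtain ⟨G, hG, rfl⟩ := h
  rw [DecD_del_addp G hG.1]
  exact ⟨hG, rfl⟩

theorem CE.adj {E : SimpleGraph (A ⊕ Bool)} (h : CE E) :
    E.Adj (Sum.inr false) (Sum.inr true) := by
  obtain ⟨G, hG, rfl⟩ := h
  unfold addp
  rw [SimpleGraph.sup_adj, SimpleGraph.edge_adj]
  exact Or.inr ⟨Or.inl ⟨rfl, rfl⟩, by simp⟩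

variable [LinearOrder (A ⊕ Bool)]

theorem pole_master {X : Set (A ⊕ Bool)} (hp : ∀ b, Sum.inr b ∈ X) (K : SimpleGraph X)
    (h3 : ThreeConn K) (hpl : IsPlanar K)
    (hadj : K.Adj ⟨Sum.inr false, hp false⟩ ⟨Sum.inr true, hp true⟩) :
    ∃ F : {E : EK X K // CE E.1} ≃
        {z : Σ f : (↥Xᶜ → Idx K), ∀ i, Str K i {a // f a = i} // IntIx z.1},
      ∀ E, Fits E.1.1 K (F E).1.1 ∧ Conn3 E.1.1 K (F E).1.1 ∧ IsIx E.1.1 K (F E).1.1 ∧
        Parts E.1.1 K (F E).1.1 (F E).1.2 := by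
  obtain ⟨F, hF⟩ := master K h3 hpl
  have key : ∀ E : EK X K, CE E.1 ↔ IntIx (F E).1 := by
    intro E
    obtain ⟨h1, h2, h4, h5⟩ := hF E
    constructor
    · rintro ⟨G, hG, hGE⟩
      have h6 : IsCore (addp G) X := by rw [hGE]; exact E.2.2.1
      have h7 : IsIx (addp G) K (F E).1 := by rw [hGE]; exact h4
      exact int_of_BB hG.2.1 h6 hp h7
    · intro hi
      exact BB_of_int E.2.1 hp h3 hadj h1 h2 hi
  exact ⟨F.subtypeEquiv key, fun E => hF E.1⟩

end poles

section sums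

/-- the sum over all graphs over a pair (set, torso) -/
noncomputable def TT {k v e : ℕ} (w : SimpleGraph (Fin k ⊕ Bool) → ℝ) (i : IXP k v e) : ℝ :=
  ∑ᶠ E : {E : EK i.1.1 i.2.1 // CE E.1}, w (DecD_del E.1.1)

/-- all data -/
abbrev YPol (k : ℕ) := Σ (v : Fin (k + 1)) (e : Fin ((k + 2) ^ 2)) (i : IXP k v e),
  {E : EK i.1.1 i.2.1 // CE E.1}

/-- the graph -/
def yG {k : ℕ} (y : YPol k) : SimpleGraph (Fin k ⊕ Bool) := DecD_del y.2.2.2.1.1

theorem sum_YPol (k : ℕ) (w : SimpleGraph (Fin k ⊕ Bool) → ℝ) :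
    ∑ᶠ y : YPol k, w (yG y) = ∑ v ∈ range (k + 1), ∑ e ∈ range ((k + 2) ^ 2),
      ∑ᶠ i : IXP k v e, TT w i := by
  rw [finsum_sigma', finsum_eq_sum_of_fintype,
    ← Fin.sum_univ_eq_sum_range (fun v => ∑ e ∈ range ((k + 2) ^ 2), ∑ᶠ i : IXP k v e, TT w i)]
  refine Finset.sum_congr rfl fun v _ => ?_
  rw [finsum_sigma', finsum_eq_sum_of_fintype,
    ← Fin.sum_univ_eq_sum_range (fun e => ∑ᶠ i : IXP k v e, TT w i)]
  refine Finset.sum_congr rfl fun e _ => ?_
  rw [finsum_sigma']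
  rfl

theorem yG_BB {k : ℕ} (y : YPol k) : BB (yG y) := y.2.2.2.2.del.1

theorem yG_inj {k : ℕ} : Function.Injective (yG : YPol k → _) := by
  rintro ⟨v, e, ⟨⟨X, hX⟩, ⟨K, hK⟩⟩, ⟨⟨E, hE⟩, hC⟩⟩ ⟨v', e', ⟨⟨X', hX'⟩, ⟨K', hK'⟩⟩, ⟨⟨E', hE'⟩, hC'⟩⟩ h
  have h1 : DecD_del E = DecD_del E' := h
  have hC : CE E := hC
  have hC' : CE E' := hC'
  have h2 : E = E' := by rw [← hC.del.2, ← hC'.del.2, h1]
  subst h2
  have h3 : X = X' := by
    have h4 := hC.del
    have h5 : IsCore (addp (DecD_del E)) X := by rw [h4.2]; exact hE.2.1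
    have h6 : IsCore (addp (DecD_del E)) X' := by rw [h4.2]; exact hE'.2.1
    exact core_pole_unique h4.1.2.1 h5 h6 hX.1 hX'.1
  subst h3
  have h4 : torso E X = K := hE.2.2
  have h5 : torso E X = K' := hE'.2.2
  subst h4
  subst h5
  have h6 : (v : ℕ) + 2 = v' + 2 := hX.2.symm.trans hX'.2
  have h7 : v = v' := Fin.ext (Nat.add_right_cancel h6)
  subst h7
  have h8 : (e : ℕ) + 1 = e' + 1 := hK.2.2.2.symm.trans hK'.2.2.2
  have h9 : e = e' := Fin.ext (Nat.add_right_cancel h8)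
  subst h9
  rfl

theorem yG_surj {k : ℕ} (G : SimpleGraph (Fin k ⊕ Bool)) (hG : BB G) (hs : ¬ ∃ a, Sep G a) :
    ∃ y : YPol k, yG y = G := by
  obtain ⟨X, hX, hp⟩ := exists_core_poles G hG.2.1 hG.2.2.1 (by
    intro w
    have h1 : ¬ Sep G w := fun h => hs ⟨w, h⟩
    unfold Sep at h1
    push Not at h1
    exact h1)
  have hpl := torso_planar hG.2.2.2 X hX.att2
  have hadj : (torso (addp G) X).Adj ⟨Sum.inr false, hp false⟩ ⟨Sum.inr true, hp true⟩ := by
    refine ⟨fun h => ?_, Or.inl (CE.adj ⟨G, hG, rfl⟩)⟩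
    have h2 := congrArg Subtype.val h
    simp at h2
  have hc := card_pole X hp
  have hv : Nat.card {a : Fin k // Sum.inl a ∈ X} ≤ k := by
    have h1 := Nat.card_le_card_of_injective
      (Subtype.val : {a : Fin k // Sum.inl a ∈ X} → Fin k) Subtype.val_injective
    rwa [Nat.card_fin] at h1
  have h4 := hX.three.1
  have he := edge_bound hpl
  have he1 : 0 < Nat.card (torso (addp G) X).edgeSet := by
    have : Nonempty (torso (addp G) X).edgeSet := ⟨⟨s(_, _), hadj⟩⟩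
    exact Nat.card_pos
  have he2 : Nat.card (torso (addp G) X).edgeSet - 1 < (k + 2) ^ 2 := by
    have h5 : 3 * Nat.card X ≤ (k + 2) ^ 2 := by
      rw [hc]
      rw [hc] at h4
      nlinarith
    omega
  refine ⟨⟨⟨Nat.card {a : Fin k // Sum.inl a ∈ X}, by omega⟩,
    ⟨Nat.card (torso (addp G) X).edgeSet - 1, he2⟩,
    ⟨⟨X, hp, hc⟩, ⟨torso (addp G) X, hX.three, hpl, hadj, ?_⟩⟩,
    ⟨⟨addp G, hG.2.2.2, hX, rfl⟩, ⟨G, hG, rfl⟩⟩⟩, DecD_del_addp G hG.1⟩
  change Nat.card (torso (addp G) X).edgeSet = Nat.card (torso (addp G) X).edgeSet - 1 + 1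
  omega

theorem pole_sum_le (k : ℕ) (w : SimpleGraph (Fin k ⊕ Bool) → ℝ) (hw : ∀ G, 0 ≤ w G) :
    ∑ᶠ G : {G : SimpleGraph (Fin k ⊕ Bool) // BB G ∧ ¬ ∃ a, Sep G a}, w G.1 ≤
      ∑ v ∈ range (k + 1), ∑ e ∈ range ((k + 2) ^ 2), ∑ᶠ i : IXP k v e, TT w i := by
  rw [← sum_YPol]
  choose ψ hψ using fun G : {G : SimpleGraph (Fin k ⊕ Bool) // BB G ∧ ¬ ∃ a, Sep G a} =>
    yG_surj G.1 G.2.1 G.2.2
  refine finsum_inj_le ψ ?_ (fun G => by rw [hψ]) (fun y => hw _)
  intro G G' h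
  apply Subtype.ext
  rw [← hψ G, ← hψ G', h]

theorem pole_sum_ge (k : ℕ) (w : SimpleGraph (Fin k ⊕ Bool) → ℝ) (hw : ∀ G, 0 ≤ w G) :
    ∑ v ∈ range (k + 1), ∑ e ∈ range ((k + 2) ^ 2), ∑ᶠ i : IXP k v e, TT w i ≤
      ∑ᶠ G : {G : SimpleGraph (Fin k ⊕ Bool) // BB G}, w G.1 := by
  rw [← sum_YPol]
  refine finsum_inj_le (fun y => ⟨yG y, yG_BB y⟩) ?_ (fun y => le_rfl) (fun G => hw _)
  intro y y' h
  exact yG_inj (congrArg Subtype.val h)

end sums

/-! ### the index set in the version with poles -/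

section index
variable {A : Type} [Finite A] [LinearOrder (A ⊕ Bool)] {X : Set (A ⊕ Bool)} {K : SimpleGraph X}

/-- the index has an internal end -/
def JI (K : SimpleGraph X) (i : Idx K) : Prop := ∃ x ∈ ends K i, ∃ a', x.1 = Sum.inl a'

theorem pole_mem (e : Sym2 X) (b : Bool) : pole e b ∈ e := by
  cases b
  · have h : pole e false ∈ s(pole e false, pole e true) := Sym2.mem_mk_left _ _
    rwa [pole_pair] at h
  · have h : pole e true ∈ s(pole e false, pole e true) := Sym2.mem_mk_right _ _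
    rwa [pole_pair] at h

theorem JI_inl (x : X) : JI K (.inl x) ↔ ∃ a', x.1 = Sum.inl a' := by
  constructor
  · rintro ⟨y, hy, h⟩
    have : y = x := hy
    rwa [this] at h
  · intro h
    exact ⟨x, rfl, h⟩

theorem JI_rest (u : Unit) : ¬ JI K (.inr (.inr u)) := by
  rintro ⟨y, hy, -⟩
  exact hy

theorem JI_edge (hp : ∀ b, Sum.inr b ∈ X) (e : K.edgeSet) :
    JI K (.inr (.inl e)) ↔ e.1 ≠ s(⟨Sum.inr false, hp false⟩, ⟨Sum.inr true, hp true⟩) := by
  constructor
  · rintro ⟨x, hx, a, ha⟩ he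
    have hx' : x ∈ e.1 := hx
    rw [he, Sym2.mem_iff] at hx'
    rcases hx' with h | h <;> rw [h] at ha <;> cases ha
  · intro he
    by_contra hcon
    apply he
    have h1 : ∀ x ∈ e.1, ∃ b, x = ⟨Sum.inr b, hp b⟩ := by
      intro x hx
      rcases hx' : x.1 with a | b
      · exact absurd ⟨x, hx, a, hx'⟩ hcon
      · exact ⟨b, Subtype.ext hx'⟩
    obtain ⟨b, hb⟩ := h1 (pole e.1 false) (pole_mem e.1 false)
    obtain ⟨c, hc⟩ := h1 (pole e.1 true) (pole_mem e.1 true)
    have hne := pole_ne e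
    rw [← pole_pair e.1, hb, hc]
    rw [hb, hc] at hne
    cases b <;> cases c
    · exact absurd rfl hne
    · rfl
    · exact Sym2.eq_swap
    · exact absurd rfl hne

theorem card_JI_vert (hp : ∀ b, Sum.inr b ∈ X) {v : ℕ} (hv : Nat.card X = v + 2) :
    Nat.card {x : X // JI K (.inl x)} = v := by
  have h1 : Nat.card {x : X // JI K (.inl x)} = Nat.card {a : A // Sum.inl a ∈ X} := by
    refine Nat.card_congr
      { toFun := fun x => ⟨((JI_inl x.1).1 x.2).choose, by
          have h := ((JI_inl x.1).1 x.2).choose_spec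
          rw [← h]
          exact x.1.2⟩
        invFun := fun a => ⟨⟨Sum.inl a.1, a.2⟩, (JI_inl _).2 ⟨a.1, rfl⟩⟩
        left_inv := ?_
        right_inv := ?_ }
    · intro x
      apply Subtype.ext
      apply Subtype.ext
      exact ((JI_inl x.1).1 x.2).choose_spec.symm
    · intro a
      apply Subtype.ext
      have h := ((JI_inl (K := K) ⟨Sum.inl a.1, a.2⟩).1
        ((JI_inl _).2 ⟨a.1, rfl⟩)).choose_spec
      exact (Sum.inl_injective h).symm
  rw [h1]
  have h2 := card_pole X hp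
  omega

theorem card_JI_edge (hp : ∀ b, Sum.inr b ∈ X)
    (hadj : K.Adj ⟨Sum.inr false, hp false⟩ ⟨Sum.inr true, hp true⟩) {e : ℕ}
    (he : Nat.card K.edgeSet = e + 1) : Nat.card {e : K.edgeSet // JI K (.inr (.inl e))} = e := by
  classical
  have := Fintype.ofFinite K.edgeSet
  rw [Nat.card_eq_fintype_card] at he ⊢
  let e0 : K.edgeSet := ⟨s(_, _), hadj⟩
  have h1 : ∀ e : K.edgeSet, JI K (.inr (.inl e)) ↔ ¬ e = e0 := by
    intro e
    rw [JI_edge hp, Ne, not_iff_not]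
    constructor
    · intro h
      exact Subtype.ext h
    · rintro rfl
      rfl
  have h2 : Fintype.card {e : K.edgeSet // JI K (.inr (.inl e))} =
      Fintype.card {e : K.edgeSet // ¬ e = e0} :=
    Fintype.card_congr (Equiv.subtypeEquiv (Equiv.refl _) h1)
  rw [h2, Fintype.card_subtype_compl, he, Fintype.card_subtype_eq]
  omega

theorem card_compl (k v : ℕ) (Y : Set (Fin k ⊕ Bool)) (hv : Nat.card Y = v + 2) :
    Nat.card ↥Yᶜ = k - v := by
  have h : Yᶜ.ncard = Nat.card (Fin k ⊕ Bool) - Y.ncard := Set.ncard_compl Y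
  have h1 : Y.ncard = v + 2 := hv
  have h2 : Nat.card (Fin k ⊕ Bool) = k + 2 := by
    rw [Nat.card_sum]
    simp
  rw [h1, h2] at h
  have h3 : Nat.card ↥Yᶜ = k + 2 - (v + 2) := h
  omega

end index

end Dia
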