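import Pool.Agent.Dia.CntP

/-!
# The weighted sums over a fixed pair (set, torso) with poles
-/

set_option linter.unusedSectionVars false

namespace Dia
open Finset PGr Pool.Agent.DiamP

/-! ### invariant weights -/

open Classical in
theorem iw1_ind {P : ∀ A : Type, SimpleGraph (Option A) → Prop} (hP : Inv1 P) :
    IW1 (fun B G => if P B G then 1 else 0) := by
  intro A B _ _ e G
  have h : P A (G.comap (Option.map e)) ↔ P B G := by
    constructor
    · intro h
      have h1 := hP B A e.symm _ h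
      have h2 : (G.comap (Option.map e)).comap (Option.map e.symm) = G := by
        ext x y
        simp
      rwa [h2] at h1
    · exact hP A B e G
  simp only [h]

open Classical in
theorem iw2_ind {P : ∀ A : Type, SimpleGraph (A ⊕ Bool) → Prop} (hP : Inv2 P) :
    IW2 (fun B G => if P B G then 1 else 0) := by
  intro A B _ _ e G
  have h : P A (G.comap (Sum.map e id)) ↔ P B G := by
    constructor
    · intro h
      have h1 := hP B A e.symm _ h
      have h2 : (G.comap (Sum.map e id)).comap (Sum.map e.symm id) = G := by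
        ext x y
        simp
      rwa [h2] at h1
    · exact hP A B e G
  simp only [h]

theorem iw1_one : IW1 (fun _ _ => 1) := fun _ _ _ _ _ _ => rfl
theorem iw2_one : IW2 (fun _ _ => 1) := fun _ _ _ _ _ _ => rfl
theorem iw0_one : IW0 (fun _ _ => 1) := fun _ _ _ _ _ _ => rfl

theorem es1_and_core (M : ℕ∞) : es1 (fun _ G => RR G ∧ CoreLt M G) = rE M := rfl

theorem ew1_core (M : ℕ∞) : (open Classical in
    ew1 (fun _ G => if CoreLt M G then 1 else 0)) = rE M :=
  ew1_ind fun _ G => CoreLt M G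

theorem ew2_core (M : ℕ∞) : (open Classical in
    ew2 (fun _ G => if CoreLt M (addp G) then 1 else 0)) = dN M :=
  ew2_ind fun _ G => CoreLt M (addp G)

theorem ew1_one : ew1 (fun _ _ => 1) = rE ⊤ := by
  rw [← ew1_core]
  unfold ew1
  funext n
  congr 1
  refine finsum_congr fun G => ?_
  exact (if_pos (coreLt_top _)).symm

theorem ew2_one : ew2 (fun _ _ => 1) = dN ⊤ := by
  rw [← ew2_core]
  unfold ew2
  funext n
  congr 1
  refine finsum_congr fun G => ?_
  exact (if_pos (coreLt_top _)).symm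

theorem rE_zero (M : ℕ∞) : rE M 0 = 1 := by
  have h := rN_one M
  unfold rN sh at h
  rw [if_neg one_ne_zero] at h
  exact h

/-! ### sums over a fixed core -/

section TT
variable {k v e : ℕ} [LinearOrder (Fin k ⊕ Bool)]

/-- the product of the generating series of the parts -/
noncomputable def prS (i : IXP k v e) (wv : i.1.1 → ∀ B : Type, SimpleGraph (Option B) → ℝ)
    (we : i.2.1.edgeSet → ∀ B : Type, SimpleGraph (B ⊕ Bool) → ℝ) : PowerSeries ℝ :=
  open Classical in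
  letI := Fintype.ofFinite i.1.1
  letI := Fintype.ofFinite i.2.1.edgeSet
  (∏ x : i.1.1, if JI i.2.1 (.inl x) then PowerSeries.mk (ew1 (wv x)) else 1) *
    ∏ e : i.2.1.edgeSet, if JI i.2.1 (.inr (.inl e)) then PowerSeries.mk (ew2 (we e)) else 1

/-- the product of the weights of the parts -/
noncomputable def prW (i : IXP k v e) (wv : i.1.1 → ∀ B : Type, SimpleGraph (Option B) → ℝ)
    (we : i.2.1.edgeSet → ∀ B : Type, SimpleGraph (B ⊕ Bool) → ℝ)
    (f : ↥(i.1.1 : Set (Fin k ⊕ Bool))ᶜ → Idx i.2.1)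
    (s : ∀ j, Str i.2.1 j {a // f a = j}) : ℝ :=
  letI := Fintype.ofFinite i.1.1
  letI := Fintype.ofFinite i.2.1.edgeSet
  (∏ x : i.1.1, wv x _ (s (.inl x)).1) * ∏ e : i.2.1.edgeSet, we e _ (s (.inr (.inl e))).1

theorem TT_sum (i : IXP k v e) {wv : i.1.1 → ∀ B : Type, SimpleGraph (Option B) → ℝ}
    {we : i.2.1.edgeSet → ∀ B : Type, SimpleGraph (B ⊕ Bool) → ℝ} (hv : ∀ x, IW1 (wv x))
    (he : ∀ e, IW2 (we e)) (hJv : ∀ x, ¬ JI i.2.1 (.inl x) → ew1 (wv x) 0 = 1)
    (hJe : ∀ e, ¬ JI i.2.1 (.inr (.inl e)) → ew2 (we e) 0 = 1) :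
    ∑ᶠ z : {z : Σ f : (↥(i.1.1 : Set (Fin k ⊕ Bool))ᶜ → Idx i.2.1), ∀ j,
        Str i.2.1 j {a // f a = j} // IntIx z.1}, prW i wv we z.1.1 z.1.2 =
      ((k - v).factorial : ℝ) * PowerSeries.coeff (k - v) (prS i wv we) := by
  classical
  let _ := Fintype.ofFinite i.1.1
  let _ := Fintype.ofFinite i.2.1.edgeSet
  have h := sum_fix (K := i.2.1) hv he iw0_one (JI i.2.1) hJv hJe (fun _ => by
    have h1 := gN_zero ⊤
    unfold gN at h1
    unfold ew0
    rw [finsum_const', mul_one]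
    have h2 : Nat.card {G : SimpleGraph (Fin 0) // IsPlanar G} =
        Nat.card {G : SimpleGraph (Fin 0) // IsPlanar G ∧ CoreLt ⊤ G} :=
      Nat.card_congr (Equiv.subtypeEquiv (Equiv.refl _) fun G =>
        ⟨fun h => ⟨h, coreLt_top _⟩, fun h => h.1⟩)
    rw [h2]
    exact h1)
  rw [card_compl k v i.1.1 i.1.2.2, if_neg (JI_rest ()), mul_one] at h
  have h2 : (prS i wv we) = (∏ x : i.1.1, if JI i.2.1 (.inl x) then
      PowerSeries.mk (ew1 (wv x)) else 1) *
    ∏ e : i.2.1.edgeSet, if JI i.2.1 (.inr (.inl e)) then PowerSeries.mk (ew2 (we e)) else 1 := by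
    unfold prS
    congr!
  rw [h2, ← h]
  refine finsum_congr fun z => ?_
  unfold wF prW
  rw [mul_one]

theorem TT_le (i : IXP k v e) (w : SimpleGraph (Fin k ⊕ Bool) → ℝ)
    {wv : i.1.1 → ∀ B : Type, SimpleGraph (Option B) → ℝ}
    {we : i.2.1.edgeSet → ∀ B : Type, SimpleGraph (B ⊕ Bool) → ℝ} (hv : ∀ x, IW1 (wv x))
    (he : ∀ e, IW2 (we e)) (hJv : ∀ x, ¬ JI i.2.1 (.inl x) → ew1 (wv x) 0 = 1)
    (hJe : ∀ e, ¬ JI i.2.1 (.inr (.inl e)) → ew2 (we e) 0 = 1)
    (h : ∀ (E : EK i.1.1 i.2.1) (f : ↥(i.1.1 : Set (Fin k ⊕ Bool))ᶜ → Idx i.2.1)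
      (s : ∀ j, Str i.2.1 j {a // f a = j}), CE E.1 → IntIx f → Fits E.1 i.2.1 f →
      Conn3 E.1 i.2.1 f → IsIx E.1 i.2.1 f → Parts E.1 i.2.1 f s →
      w (DecD_del E.1) ≤ prW i wv we f s) :
    TT w i ≤ ((k - v).factorial : ℝ) * PowerSeries.coeff (k - v) (prS i wv we) := by
  rw [← TT_sum i hv he hJv hJe]
  obtain ⟨F, hF⟩ := pole_master i.1.2.1 i.2.1 i.2.2.1 i.2.2.2.1 i.2.2.2.2.1
  have h1 : ∑ᶠ E : {E : EK i.1.1 i.2.1 // CE E.1}, prW i wv we (F E).1.1 (F E).1.2 =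
      ∑ᶠ z : {z : Σ f : (↥(i.1.1 : Set (Fin k ⊕ Bool))ᶜ → Idx i.2.1), ∀ j,
        Str i.2.1 j {a // f a = j} // IntIx z.1}, prW i wv we z.1.1 z.1.2 :=
    finsum_eq_of_bijective F F.bijective (fun E => rfl)
  rw [← h1]
  exact finsum_le fun E => h E.1 _ _ E.2 (F E).2 (hF E).1 (hF E).2.1 (hF E).2.2.1 (hF E).2.2.2

theorem TT_ge (i : IXP k v e) (w : SimpleGraph (Fin k ⊕ Bool) → ℝ)
    {wv : i.1.1 → ∀ B : Type, SimpleGraph (Option B) → ℝ}
    {we : i.2.1.edgeSet → ∀ B : Type, SimpleGraph (B ⊕ Bool) → ℝ} (hv : ∀ x, IW1 (wv x))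
    (he : ∀ e, IW2 (we e)) (hJv : ∀ x, ¬ JI i.2.1 (.inl x) → ew1 (wv x) 0 = 1)
    (hJe : ∀ e, ¬ JI i.2.1 (.inr (.inl e)) → ew2 (we e) 0 = 1)
    (h : ∀ (E : EK i.1.1 i.2.1) (f : ↥(i.1.1 : Set (Fin k ⊕ Bool))ᶜ → Idx i.2.1)
      (s : ∀ j, Str i.2.1 j {a // f a = j}), CE E.1 → IntIx f → Fits E.1 i.2.1 f →
      Conn3 E.1 i.2.1 f → IsIx E.1 i.2.1 f → Parts E.1 i.2.1 f s →
      prW i wv we f s ≤ w (DecD_del E.1)) :
    ((k - v).factorial : ℝ) * PowerSeries.coeff (k - v) (prS i wv we) ≤ TT w i := by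
  rw [← TT_sum i hv he hJv hJe]
  obtain ⟨F, hF⟩ := pole_master i.1.2.1 i.2.1 i.2.2.1 i.2.2.2.1 i.2.2.2.2.1
  have h1 : ∑ᶠ E : {E : EK i.1.1 i.2.1 // CE E.1}, prW i wv we (F E).1.1 (F E).1.2 =
      ∑ᶠ z : {z : Σ f : (↥(i.1.1 : Set (Fin k ⊕ Bool))ᶜ → Idx i.2.1), ∀ j,
        Str i.2.1 j {a // f a = j} // IntIx z.1}, prW i wv we z.1.1 z.1.2 :=
    finsum_eq_of_bijective F F.bijective (fun E => rfl)
  rw [← h1]
  exact finsum_le fun E => h E.1 _ _ E.2 (F E).2 (hF E).1 (hF E).2.1 (hF E).2.2.1 (hF E).2.2.2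

/-- all families over the index -/
abbrev ZT (i : IXP k v e) := {z : Σ f : (↥(i.1.1 : Set (Fin k ⊕ Bool))ᶜ → Idx i.2.1), ∀ j,
  Str i.2.1 j {a // f a = j} // IntIx z.1}

theorem TT_le' (i : IXP k v e) (w : SimpleGraph (Fin k ⊕ Bool) → ℝ) (g : ZT i → ℝ)
    (h : ∀ (E : EK i.1.1 i.2.1) (z : ZT i), CE E.1 → Fits E.1 i.2.1 z.1.1 →
      Conn3 E.1 i.2.1 z.1.1 → IsIx E.1 i.2.1 z.1.1 → Parts E.1 i.2.1 z.1.1 z.1.2 →
      w (DecD_del E.1) ≤ g z) : TT w i ≤ ∑ᶠ z, g z := by
  obtain ⟨F, hF⟩ := pole_master i.1.2.1 i.2.1 i.2.2.1 i.2.2.2.1 i.2.2.2.2.1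
  have h1 : ∑ᶠ E : {E : EK i.1.1 i.2.1 // CE E.1}, g (F E) = ∑ᶠ z : ZT i, g z :=
    finsum_eq_of_bijective F F.bijective (fun E => rfl)
  rw [← h1]
  exact finsum_le fun E => h E.1 _ E.2 (hF E).1 (hF E).2.1 (hF E).2.2.1 (hF E).2.2.2

instance (i : IXP k v e) : Finite (ZT i) := by
  obtain ⟨F, -⟩ := pole_master i.1.2.1 i.2.1 i.2.2.1 i.2.2.2.1 i.2.2.2.2.1
  exact Finite.of_equiv _ F

/-- uniform weights -/
theorem prS_const (i : IXP k v e) (wv : ∀ B : Type, SimpleGraph (Option B) → ℝ)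
    (we : ∀ B : Type, SimpleGraph (B ⊕ Bool) → ℝ) :
    prS i (fun _ => wv) (fun _ => we) = prd (ew1 wv) (ew2 we) v e := by
  classical
  let _ := Fintype.ofFinite i.1.1
  let _ := Fintype.ofFinite i.2.1.edgeSet
  unfold prS prd
  rw [prod_one', prod_one', card_JI_vert i.1.2.1 i.1.2.2, card_JI_edge i.1.2.1 i.2.2.2.2.1
    i.2.2.2.2.2]

/-- two kinds of vertex weights and two kinds of edge weights -/
theorem prS_two (i : IXP k v e) (S : i.1.1 → Prop) (T : i.2.1.edgeSet → Prop)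
    [DecidablePred S] [DecidablePred T] (hS : ∀ x, S x → JI i.2.1 (.inl x))
    (hT : ∀ y, T y → JI i.2.1 (.inr (.inl y)))
    (wv wv' : ∀ B : Type, SimpleGraph (Option B) → ℝ)
    (we we' : ∀ B : Type, SimpleGraph (B ⊕ Bool) → ℝ) :
    prS i (fun x => if S x then wv' else wv) (fun y => if T y then we' else we) =
      (PowerSeries.mk (ew1 wv') ^ Nat.card {x // S x} *
        PowerSeries.mk (ew1 wv) ^ (v - Nat.card {x // S x})) *
      (PowerSeries.mk (ew2 we') ^ Nat.card {x // T x} *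
        PowerSeries.mk (ew2 we) ^ (e - Nat.card {x // T x})) := by
  classical
  let _ := Fintype.ofFinite i.1.1
  let _ := Fintype.ofFinite i.2.1.edgeSet
  have h1 : ∏ x : i.1.1, (if JI i.2.1 (.inl x) then
      PowerSeries.mk (ew1 (if S x then wv' else wv)) else 1) =
      PowerSeries.mk (ew1 wv') ^ Nat.card {x // S x} *
        PowerSeries.mk (ew1 wv) ^ (v - Nat.card {x // S x}) := by
    have h := prod_two (fun x : i.1.1 => JI i.2.1 (.inl x)) S hS
      (PowerSeries.mk (ew1 wv')) (PowerSeries.mk (ew1 wv))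
    rw [card_JI_vert i.1.2.1 i.1.2.2] at h
    rw [← h]
    refine Finset.prod_congr rfl fun x _ => ?_
    split_ifs <;> rfl
  have h3 : ∏ x : i.2.1.edgeSet, (if JI i.2.1 (.inr (.inl x)) then
      PowerSeries.mk (ew2 (if T x then we' else we)) else 1) =
      PowerSeries.mk (ew2 we') ^ Nat.card {x // T x} *
        PowerSeries.mk (ew2 we) ^ (e - Nat.card {x // T x}) := by
    have h := prod_two (fun x : i.2.1.edgeSet => JI i.2.1 (.inr (.inl x))) T hT
      (PowerSeries.mk (ew2 we')) (PowerSeries.mk (ew2 we))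
    rw [card_JI_edge i.1.2.1 i.2.2.2.2.1 i.2.2.2.2.2] at h
    rw [← h]
    refine Finset.prod_congr rfl fun x _ => ?_
    split_ifs <;> rfl
  rw [← h1, ← h3]
  unfold prS
  congr!

/-- one special part at a vertex -/
theorem TT_one (i : IXP k v e) (x0 : i.1.1) (hx0 : JI i.2.1 (.inl x0))
    {wf : ∀ B : Type, SimpleGraph (Option B) → ℝ} (hw : IW1 wf) :
    ∑ᶠ z : ZT i, wf _ (z.1.2 (.inl x0)).1 = ((k - v).factorial : ℝ) *
      PowerSeries.coeff (k - v) (PowerSeries.mk (ew1 wf) *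
        (PowerSeries.mk (rE ⊤) ^ (v - 1) * PowerSeries.mk (dN ⊤) ^ e)) := by
  classical
  have h := TT_sum i (wv := fun x => if x = x0 then wf else fun _ _ => 1)
    (we := fun _ => if False then (fun _ _ => 1) else fun _ _ => 1)
    (fun x => by split_ifs; exacts [hw, iw1_one]) (fun x => by simp only [if_false]; exact iw2_one)
    (fun x hx => by
      rw [if_neg (fun h => hx (by rw [h]; exact hx0)), ew1_one, rE_zero])
    (fun x _ => by simp only [if_false]; rw [ew2_one, dN_zero])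
  have c1 : Nat.card {x : i.1.1 // x = x0} = 1 := Nat.card_unique
  have c2 : Nat.card {y : i.2.1.edgeSet // False} = 0 := Nat.card_of_isEmpty
  rw [prS_two i (fun x => x = x0) (fun _ => False) (fun x hx => by rw [hx]; exact hx0)
    (fun _ h => h.elim), ew1_one, ew2_one,
    c1, c2, pow_zero, one_mul, Nat.sub_zero, pow_one, mul_assoc] at h
  rw [← h]
  refine finsum_congr fun z => ?_
  unfold prW
  let _ := Fintype.ofFinite i.1.1
  rw [Finset.prod_eq_single x0]
  · beta_reduce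
    rw [if_pos rfl]
    simp only [if_false, Finset.prod_const_one, mul_one]
  · intro x _ hx
    beta_reduce
    rw [if_neg hx]
  · intro hx
    exact absurd (Finset.mem_univ _) hx

/-- special parts at some edges -/
theorem TT_two (i : IXP k v e) (T : i.2.1.edgeSet → Prop) [DecidablePred T]
    (hT : ∀ y, T y → JI i.2.1 (.inr (.inl y)))
    {wf : ∀ B : Type, SimpleGraph (B ⊕ Bool) → ℝ} (hw : IW2 wf) :
    ∑ᶠ z : ZT i, (letI := Fintype.ofFinite i.2.1.edgeSet
      ∏ y : i.2.1.edgeSet, if T y then wf _ (z.1.2 (.inr (.inl y))).1 else 1) =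
      ((k - v).factorial : ℝ) * PowerSeries.coeff (k - v) (
        PowerSeries.mk (ew2 wf) ^ Nat.card {y // T y} *
        (PowerSeries.mk (rE ⊤) ^ v * PowerSeries.mk (dN ⊤) ^ (e - Nat.card {y // T y}))) := by
  classical
  have h := TT_sum i (wv := fun _ => if False then (fun _ _ => 1) else fun _ _ => 1)
    (we := fun y => if T y then wf else fun _ _ => 1)
    (fun x => by simp only [if_false]; exact iw1_one) (fun x => by split_ifs; exacts [hw, iw2_one])
    (fun x _ => by simp only [if_false]; rw [ew1_one, rE_zero])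
    (fun y hy => by rw [if_neg (fun h => hy (hT y h)), ew2_one, dN_zero])
  have c2 : Nat.card {y : i.1.1 // False} = 0 := Nat.card_of_isEmpty
  rw [prS_two i (fun _ => False) T (fun _ h => h.elim) hT, ew1_one, ew2_one,
    c2, pow_zero, one_mul, Nat.sub_zero] at h
  have h2 : PowerSeries.mk (ew2 wf) ^ Nat.card {y // T y} *
        (PowerSeries.mk (rE ⊤) ^ v * PowerSeries.mk (dN ⊤) ^ (e - Nat.card {y // T y})) =
        PowerSeries.mk (rE ⊤) ^ v *
        (PowerSeries.mk (ew2 wf) ^ Nat.card {y // T y} *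
          PowerSeries.mk (dN ⊤) ^ (e - Nat.card {y // T y})) := by
    ring
  rw [h2, ← h]
  refine finsum_congr fun z => ?_
  unfold prW
  simp only [if_false, Finset.prod_const_one, one_mul]
  refine Finset.prod_congr rfl fun y _ => ?_
  split_ifs <;> rfl

/-- the number of all families -/
theorem TT_all (i : IXP k v e) : (Nat.card (ZT i) : ℝ) = ((k - v).factorial : ℝ) *
    PowerSeries.coeff (k - v) (PowerSeries.mk (rE ⊤) ^ v * PowerSeries.mk (dN ⊤) ^ e) := by
  classical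
  have h := TT_two i (fun _ => False) (fun _ h => h.elim) iw2_one
  have c2 : Nat.card {y : i.2.1.edgeSet // False} = 0 := Nat.card_of_isEmpty
  rw [c2, pow_zero, one_mul, Nat.sub_zero] at h
  rw [← h]
  simp only [if_false, Finset.prod_const_one]
  rw [finsum_const', mul_one]

/-! ### more tools for finite sums -/

end TT

theorem finsum_swap {α β : Type} [Finite α] [Finite β] (f : β → α → ℝ) :
    ∑ᶠ x : α, ∑ᶠ y : β, f y x = ∑ᶠ y : β, ∑ᶠ x : α, f y x := by
  have := Fintype.ofFinite α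
  have := Fintype.ofFinite β
  simp only [finsum_eq_sum_of_fintype]
  exact Finset.sum_comm

theorem finsum_add' {α : Type} [Finite α] (f g : α → ℝ) :
    ∑ᶠ x : α, (f x + g x) = ∑ᶠ x, f x + ∑ᶠ x, g x := by
  have := Fintype.ofFinite α
  simp only [finsum_eq_sum_of_fintype]
  exact Finset.sum_add_distrib

/-- `1` is at most the sum if one summand is `1` -/
theorem one_le_finsum {α : Type} [Finite α] {f : α → ℝ} (h : ∀ x, 0 ≤ f x) {x : α}
    (hx : f x = 1) : 1 ≤ ∑ᶠ x, f x := by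
  have := Fintype.ofFinite α
  rw [finsum_eq_sum_of_fintype, ← hx]
  exact Finset.single_le_sum (fun y _ => h y) (Finset.mem_univ x)

end Dia
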