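import Pool.Agent.Dia.PlanA
import Pool.Agent.PGc.PlGlue

/-!
# Module PlanC: gluing planar graphs at a vertex

`G` on `V = V1 ∪ V2`, `V1 ∩ V2 ⊆ {c}`, every edge inside `V1` or inside `V2`.  The darts of `G` are the disjoint
union of the darts of `G.induce V1` and of `G.induce V2`.  `Pl.sum_sigma` (or a two-term sum) gives `Pl` of
the disjoint union `(a, s)`.  If one of the two parts has no dart at `c` (or `V1 ∩ V2` is empty) the
cycles of `s` are the vertices of `G`: done.  Otherwise `Pl.glue` with `J = Unit`, `n` = a dart of the first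
part at `c`, `d` = a dart of the second part at `c`; `exists_glue` gives `s'`, and its cycles are those of `s`
with the cycles of `n` and `d` merged: the vertices of `G`.
`planar_glue_family`: a family of graphs glued at vertices, by induction on the finite index type, or
directly.
-/

set_option linter.unusedSectionVars false

namespace Dia
open PGr

variable {V : Type} [Finite V]

theorem PlanC_zpow {A B : Type*} (s₀ : Equiv.Perm A) (s₁ : Equiv.Perm B) (i : ℤ) :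
    (Equiv.Perm.sumCongr s₀ s₁) ^ i = Equiv.Perm.sumCongr (s₀ ^ i) (s₁ ^ i) :=
  (map_zpow (Equiv.Perm.sumCongrHom A B) (s₀, s₁) i).symm

theorem PlanC_ll {A B : Type*} (s₀ : Equiv.Perm A) (s₁ : Equiv.Perm B) (x y : A) :
    (Equiv.Perm.sumCongr s₀ s₁).SameCycle (Sum.inl x) (Sum.inl y) ↔ s₀.SameCycle x y := by
  constructor
  · rintro ⟨i, hi⟩
    rw [PlanC_zpow] at hi
    exact ⟨i, Sum.inl_injective hi⟩
  · rintro ⟨i, hi⟩
    refine ⟨i, ?_⟩
    rw [PlanC_zpow]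
    exact congrArg Sum.inl hi

theorem PlanC_rr {A B : Type*} (s₀ : Equiv.Perm A) (s₁ : Equiv.Perm B) (x y : B) :
    (Equiv.Perm.sumCongr s₀ s₁).SameCycle (Sum.inr x) (Sum.inr y) ↔ s₁.SameCycle x y := by
  constructor
  · rintro ⟨i, hi⟩
    rw [PlanC_zpow] at hi
    exact ⟨i, Sum.inr_injective hi⟩
  · rintro ⟨i, hi⟩
    refine ⟨i, ?_⟩
    rw [PlanC_zpow]
    exact congrArg Sum.inr hi

theorem PlanC_lr {A B : Type*} (s₀ : Equiv.Perm A) (s₁ : Equiv.Perm B) (x : A) (y : B) :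
    ¬ (Equiv.Perm.sumCongr s₀ s₁).SameCycle (Sum.inl x) (Sum.inr y) := by
  rintro ⟨i, hi⟩
  rw [PlanC_zpow] at hi
  exact Sum.inl_ne_inr hi

theorem PlanC_rl {A B : Type*} (s₀ : Equiv.Perm A) (s₁ : Equiv.Perm B) (x : A) (y : B) :
    ¬ (Equiv.Perm.sumCongr s₀ s₁).SameCycle (Sum.inr y) (Sum.inl x) := by
  rintro ⟨i, hi⟩
  rw [PlanC_zpow] at hi
  exact Sum.inr_ne_inl hi

theorem PlanC_pl {A B : Type*} [Fintype A] [DecidableEq A] [Fintype B] [DecidableEq B]
    {a₀ s₀ : Equiv.Perm A} {a₁ s₁ : Equiv.Perm B} (h0 : Pl a₀ s₀) (h1 : Pl a₁ s₁) :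
    Pl (Equiv.Perm.sumCongr a₀ a₁) (Equiv.Perm.sumCongr s₀ s₁) := by
  intro p q hpq
  obtain ⟨f, f1, f2⟩ := h0 (fun t => p (Sum.inl t)) (fun t => q (Sum.inl t))
    (fun t => hpq (Sum.inl t))
  obtain ⟨g, g1, g2⟩ := h1 (fun t => p (Sum.inr t)) (fun t => q (Sum.inr t))
    (fun t => hpq (Sum.inr t))
  refine ⟨Sum.elim f g, ?_, ?_⟩
  · rintro (t | t)
    · exact f1 t
    · exact g1 t
  · rintro (t | t)
    · exact f2 t
    · exact g2 t

theorem planar_glue1 {G : SimpleGraph V} (V1 V2 : Set V) (c : V) (hc : V1 ∩ V2 ⊆ {c})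
    (hE : ∀ x y, G.Adj x y → (x ∈ V1 ∧ y ∈ V1) ∨ (x ∈ V2 ∧ y ∈ V2))
    (h1 : IsPlanar (G.induce V1)) (h2 : IsPlanar (G.induce V2)) : IsPlanar G := by
  classical
  have := Fintype.ofFinite V
  obtain ⟨s₀, hs₀, hp₀⟩ := planar_pl h1
  obtain ⟨s₁, hs₁, hp₁⟩ := planar_pl h2
  refine pl_planar ?_
  let T₀ := (G.induce V1).Dart
  let T₁ := (G.induce V2).Dart
  let ef : T₀ ⊕ T₁ → G.Dart := Sum.elim (fun d => ⟨(d.fst.1, d.snd.1), d.adj⟩)
    (fun d => ⟨(d.fst.1, d.snd.1), d.adj⟩)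
  have hlr : ∀ (d : T₀) (d' : T₁), ef (Sum.inl d) ≠ ef (Sum.inr d') := by
    intro d d' h
    have e1 : (d.fst.1, d.snd.1) = (d'.fst.1, d'.snd.1) := congrArg SimpleGraph.Dart.toProd h
    have e2 : d.fst.1 = d'.fst.1 := (Prod.mk.inj e1).1
    have e3 : d.snd.1 = d'.snd.1 := (Prod.mk.inj e1).2
    have e4 : d.fst.1 = c := hc ⟨d.fst.2, e2 ▸ d'.fst.2⟩
    have e5 : d.snd.1 = c := hc ⟨d.snd.2, e3 ▸ d'.snd.2⟩
    have e6 : G.Adj d.fst.1 d.snd.1 := d.adj
    rw [e4, e5] at e6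
    exact G.irrefl e6
  have hinj : Function.Injective ef := by
    rintro (d | d) (d' | d') h
    · have e1 : (d.fst.1, d.snd.1) = (d'.fst.1, d'.snd.1) := congrArg SimpleGraph.Dart.toProd h
      refine congrArg Sum.inl (SimpleGraph.Dart.ext _ _ (Prod.ext ?_ ?_))
      · exact Subtype.ext (Prod.mk.inj e1).1
      · exact Subtype.ext (Prod.mk.inj e1).2
    · exact absurd h (hlr d d')
    · exact absurd h.symm (hlr d' d)
    · have e1 : (d.fst.1, d.snd.1) = (d'.fst.1, d'.snd.1) := congrArg SimpleGraph.Dart.toProd h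
      refine congrArg Sum.inr (SimpleGraph.Dart.ext _ _ (Prod.ext ?_ ?_))
      · exact Subtype.ext (Prod.mk.inj e1).1
      · exact Subtype.ext (Prod.mk.inj e1).2
  have hsur : Function.Surjective ef := by
    intro d
    rcases hE d.fst d.snd d.adj with ⟨a, b⟩ | ⟨a, b⟩
    · exact ⟨Sum.inl ⟨(⟨d.fst, a⟩, ⟨d.snd, b⟩), d.adj⟩, rfl⟩
    · exact ⟨Sum.inr ⟨(⟨d.fst, a⟩, ⟨d.snd, b⟩), d.adj⟩, rfl⟩
  let e : T₀ ⊕ T₁ ≃ G.Dart := Equiv.ofBijective ef ⟨hinj, hsur⟩
  let a : Equiv.Perm (T₀ ⊕ T₁) := Equiv.Perm.sumCongr (dsymm (G.induce V1)) (dsymm (G.induce V2))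
  let s : Equiv.Perm (T₀ ⊕ T₁) := Equiv.Perm.sumCongr s₀ s₁
  have hpl : Pl a s := PlanC_pl hp₀ hp₁
  have hinv : ∀ t, a (a t) = t := by
    rintro (t | t)
    · exact congrArg Sum.inl (SimpleGraph.Dart.symm_symm t)
    · exact congrArg Sum.inr (SimpleGraph.Dart.symm_symm t)
  have ha : ∀ t, e (a t) = dsymm G (e t) := by
    rintro (t | t) <;> rfl
  -- it suffices to find a rotation with the right cycles
  suffices H : ∃ s' : Equiv.Perm (T₀ ⊕ T₁), Pl a s' ∧
      ∀ t t', s'.SameCycle t t' ↔ (e t).fst = (e t').fst by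
    obtain ⟨s', hp', hc'⟩ := H
    have hs' : ∀ t, e (s' t) = (e.permCongr s') (e t) := by
      intro t
      rw [Equiv.permCongr_apply, Equiv.symm_apply_apply]
    refine ⟨e.permCongr s', ?_, Pl_iso e ha hs' hp'⟩
    intro d d'
    obtain ⟨x, rfl⟩ := e.surjective d
    obtain ⟨x', rfl⟩ := e.surjective d'
    rw [PlanA_sameCycle e hs', hc']
  have hll : ∀ x y : T₀, s.SameCycle (Sum.inl x) (Sum.inl y) ↔
      (e (Sum.inl x)).fst = (e (Sum.inl y)).fst := by
    intro x y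
    rw [PlanC_ll, hs₀]
    exact ⟨fun h => congrArg Subtype.val h, fun h => Subtype.ext h⟩
  have hrr : ∀ x y : T₁, s.SameCycle (Sum.inr x) (Sum.inr y) ↔
      (e (Sum.inr x)).fst = (e (Sum.inr y)).fst := by
    intro x y
    rw [PlanC_rr, hs₁]
    exact ⟨fun h => congrArg Subtype.val h, fun h => Subtype.ext h⟩
  have hlr2 : ∀ (x : T₀) (y : T₁), (e (Sum.inl x)).fst = (e (Sum.inr y)).fst →
      (e (Sum.inl x)).fst = c := by
    intro x y h
    refine hc ⟨x.fst.2, ?_⟩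
    rw [h]
    exact y.fst.2
  by_cases hcase : (∃ n : T₀, (e (Sum.inl n)).fst = c) ∧ ∃ d : T₁, (e (Sum.inr d)).fst = c
  · obtain ⟨⟨n, hn⟩, d, hd⟩ := hcase
    let pr : T₀ ⊕ T₁ → Option Unit := Sum.elim (fun _ => none) (fun _ => some ())
    have hps : ∀ t, pr (s t) = pr t := by
      rintro (t | t) <;> rfl
    have hpa : ∀ t, pr (a t) = pr t := by
      rintro (t | t) <;> rfl
    obtain ⟨s', g1, g2, g3, g4⟩ := exists_glue (s := s) pr hps (fun _ => Sum.inl n)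
      (fun _ => Sum.inr d) (fun _ => rfl) (fun _ => rfl) (fun _ _ _ => rfl)
    refine ⟨s', Pl.glue hinv hpl pr hpa hps (fun _ => Sum.inl n) (fun _ => Sum.inr d)
      (fun _ => rfl) (fun _ => rfl) (fun _ _ _ => rfl) g1 g2 g3, ?_⟩
    intro t t'
    rw [g4]
    rcases t with t | t <;> rcases t' with t' | t'
    · constructor
      · rintro (h | ⟨_, h, h'⟩ | ⟨_, h, h'⟩)
        · exact (hll _ _).1 h
        · exact absurd h' (PlanC_lr _ _ _ _)
        · exact absurd h (PlanC_lr _ _ _ _)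
      · intro h
        exact Or.inl ((hll _ _).2 h)
    · constructor
      · rintro (h | ⟨_, h, h'⟩ | ⟨_, h, h'⟩)
        · exact absurd h (PlanC_lr _ _ _ _)
        · rw [(hll _ _).1 h, (hrr _ _).1 h', hn, hd]
        · exact absurd h (PlanC_lr _ _ _ _)
      · intro h
        have h' := hlr2 _ _ h
        exact Or.inr (Or.inl ⟨(), (hll _ _).2 (h'.trans hn.symm),
          (hrr _ _).2 ((h.symm.trans h').trans hd.symm)⟩)
    · constructor
      · rintro (h | ⟨_, h, h'⟩ | ⟨_, h, h'⟩)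
        · exact absurd h (PlanC_rl _ _ _ _)
        · exact absurd h (PlanC_rl _ _ _ _)
        · rw [(hrr _ _).1 h, (hll _ _).1 h', hn, hd]
      · intro h
        have h' := hlr2 _ _ h.symm
        exact Or.inr (Or.inr ⟨(), (hrr _ _).2 ((h.trans h').trans hd.symm),
          (hll _ _).2 (h'.trans hn.symm)⟩)
    · constructor
      · rintro (h | ⟨_, h, h'⟩ | ⟨_, h, h'⟩)
        · exact (hrr _ _).1 h
        · exact absurd h (PlanC_rl _ _ _ _)
        · exact absurd h' (PlanC_rl _ _ _ _)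
      · intro h
        exact Or.inl ((hrr _ _).2 h)
  · refine ⟨s, hpl, ?_⟩
    intro t t'
    rcases t with t | t <;> rcases t' with t' | t'
    · exact hll _ _
    · refine ⟨fun h => absurd h (PlanC_lr _ _ _ _), fun h => ?_⟩
      have h' := hlr2 _ _ h
      exact absurd ⟨⟨t, h'⟩, t', h.symm.trans h'⟩ hcase
    · refine ⟨fun h => absurd h (PlanC_rl _ _ _ _), fun h => ?_⟩
      have h' := hlr2 _ _ h.symm
      exact absurd ⟨⟨t', h'⟩, t, h.trans h'⟩ hcase
    · exact hrr _ _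

/-- disjoint union -/
theorem planar_disj {G : SimpleGraph V} (V1 V2 : Set V) (hc : Disjoint V1 V2)
    (hE : ∀ x y, G.Adj x y → (x ∈ V1 ∧ y ∈ V1) ∨ (x ∈ V2 ∧ y ∈ V2))
    (h1 : IsPlanar (G.induce V1)) (h2 : IsPlanar (G.induce V2)) : IsPlanar G := by
  rcases isEmpty_or_nonempty V with h | ⟨⟨c⟩⟩
  · exact PlanA_one fun d => h.elim d.fst
  · refine planar_glue1 V1 V2 c ?_ hE h1 h2
    rw [Set.disjoint_iff_inter_eq_empty.1 hc]
    exact Set.empty_subset _

end Dia
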