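import Pool.Agent.Dia.PlanC
import Pool.Agent.Dia.PlMinor

/-!
# Module PlanD: 2-sums of planar graphs

`pl_glue2` (maps): homological proof; `planar_glue2`: the darts of `G ⊔ edge p q` are embedded in the
disjoint union of the darts of the two parts (`planar_of_darts`).
-/

set_option linter.unusedSectionVars false

namespace Dia
open PGr Equiv Finset

/-- the two defects of a map are equal; correction of `q` at one dart -/
theorem glue2_half {T : Type} [Fintype T] [DecidableEq T] {a s : Perm T}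
    (i : ∀ t, a (a t) = t) (h : Pl a s) (e : T) (g : s⁻¹ e ≠ a e) (p q : T → ZMod 2)
    (hpq : ∀ t, t ≠ s⁻¹ e → t ≠ a e → p t + q (a t) = p (s t) + q (s t)) :
    ∃ f : T → ZMod 2, (∀ t, f (a t) = f t) ∧ ∀ t, f t + f (s t) = p t + p (s t) := by
  set n : T := s⁻¹ e with hn
  have hsn : s n = e := s.apply_symm_apply _
  let D : T → ZMod 2 := fun t => p t + q (a t) + (p (s t) + q (s t))
  have hD0 : ∀ t, t ≠ n → t ≠ a e → D t = 0 := by
    intro t h1 h2
    show p t + q (a t) + (p (s t) + q (s t)) = 0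
    rw [hpq t h1 h2, PlGlue_self]
  have hsum : ∑ t, D t = 0 := by
    show ∑ t, (p t + q (a t) + (p (s t) + q (s t))) = 0
    rw [sum_add_distrib, sum_add_distrib, sum_add_distrib, Equiv.sum_comp a q,
      Equiv.sum_comp s p, Equiv.sum_comp s q]
    exact PlGlue_self _
  have hDD : D n + D (a e) = 0 := by
    have h1 : ∑ t ∈ ({n, a e} : Finset T), D t = ∑ t, D t := by
      refine Finset.sum_subset (subset_univ _) fun t _ ht => ?_
      rw [mem_insert, mem_singleton, not_or] at ht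
      exact hD0 t ht.1 ht.2
    rw [Finset.sum_pair g, hsum] at h1
    exact h1
  have hDe : D (a e) = D n := by
    have := PlGlue_self (D n)
    linear_combination hDD - this
  set δ : ZMod 2 := D n with hδ
  let q' : T → ZMod 2 := fun t => if t = e then q t + δ else q t
  have q1 : q' e = q e + δ := if_pos rfl
  have q2 : ∀ t, t ≠ e → q' t = q t := fun t ht => if_neg ht
  refine h p q' ?_ |>.imp fun f hf => hf
  intro t
  by_cases h1 : t = n
  · have h3 : a n ≠ e := fun h4 => g (by rw [← h4, i])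
    rw [h1, q2 _ h3, hsn, q1]
    have h4 : δ = p n + q (a n) + (p (s n) + q (s n)) := rfl
    rw [hsn] at h4
    rw [h4]
    have e1 := PlGlue_self (p e)
    have e2 := PlGlue_self (q e)
    linear_combination (-1 : ZMod 2) * e1 - e2
  · by_cases h2 : t = a e
    · have h3 : s (a e) ≠ e := fun h4 => g (by
        have h5 : n = s⁻¹ (s (a e)) := by rw [h4, hn]
        rw [h5]
        exact s.symm_apply_apply _)
      rw [h2, i, q1, q2 _ h3]
      have h4 : δ = p (a e) + q (a (a e)) + (p (s (a e)) + q (s (a e))) := hDe.symm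
      rw [i] at h4
      rw [h4]
      have e1 := PlGlue_self (p (a e))
      have e2 := PlGlue_self (q e)
      linear_combination e1 + e2
    · have h3 : a t ≠ e := fun h4 => h2 (by rw [← h4, i])
      have h4 : s t ≠ e := fun h4 => h1 (by
        rw [hn, ← h4]
        exact (s.symm_apply_apply _).symm)
      rw [q2 _ h3, q2 _ h4]
      exact hpq t h1 h2

theorem pl_glue2 {T1 T2 : Type} [Fintype T1] [DecidableEq T1] [Fintype T2] [DecidableEq T2]
    {a1 s1 : Perm T1} {a2 s2 : Perm T2} (i1 : ∀ t, a1 (a1 t) = t) (i2 : ∀ t, a2 (a2 t) = t)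
    (h1 : Pl a1 s1) (h2 : Pl a2 s2) (e : T1) (e' : T2) (f1 : a1 e ≠ e) (f2 : a2 e' ≠ e')
    (g1 : s1⁻¹ e ≠ a1 e) (g2 : s2⁻¹ e' ≠ a2 e') :
    Pl (Perm.sumCongr a1 a2) (Perm.sumCongr s1 s2 *
      (swap (Sum.inl (s1⁻¹ e)) (Sum.inr (a2 e')) * swap (Sum.inl (a1 e)) (Sum.inr (s2⁻¹ e')))) := by
  intro p q hpq
  set np : T1 := s1⁻¹ e with hnp
  set nq : T1 := a1 e with hnq
  set dp : T2 := a2 e' with hdp
  set dq : T2 := s2⁻¹ e' with hdq
  set S' : Perm (T1 ⊕ T2) := Perm.sumCongr s1 s2 *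
      (swap (Sum.inl np) (Sum.inr dp) * swap (Sum.inl nq) (Sum.inr dq)) with hS'
  have hsnp : s1 np = e := s1.apply_symm_apply _
  have hsdq : s2 dq = e' := s2.apply_symm_apply _
  have eA : S' (Sum.inl np) = Sum.inr (s2 dp) := by
    rw [hS', Perm.mul_apply, Perm.mul_apply, swap_apply_of_ne_of_ne (fun h => g1 (Sum.inl.inj h))
      (by simp), swap_apply_left]
    rfl
  have eB : S' (Sum.inr dp) = Sum.inl e := by
    rw [hS', Perm.mul_apply, Perm.mul_apply, swap_apply_of_ne_of_ne (by simp)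
      (fun h => g2 (Sum.inr.inj h).symm), swap_apply_right, ← hsnp]
    rfl
  have eC : S' (Sum.inl nq) = Sum.inr e' := by
    rw [hS', Perm.mul_apply, Perm.mul_apply, swap_apply_left, swap_apply_of_ne_of_ne (by simp)
      (fun h => g2 (Sum.inr.inj h)), ← hsdq]
    rfl
  have eD : S' (Sum.inr dq) = Sum.inl (s1 nq) := by
    rw [hS', Perm.mul_apply, Perm.mul_apply, swap_apply_right,
      swap_apply_of_ne_of_ne (fun h => g1 (Sum.inl.inj h).symm) (by simp)]
    rfl
  have eL : ∀ t, t ≠ np → t ≠ nq → S' (Sum.inl t) = Sum.inl (s1 t) := by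
    intro t h3 h4
    rw [hS', Perm.mul_apply, Perm.mul_apply,
      swap_apply_of_ne_of_ne (fun h => h4 (Sum.inl.inj h)) (by simp),
      swap_apply_of_ne_of_ne (fun h => h3 (Sum.inl.inj h)) (by simp)]
    rfl
  have eR : ∀ t, t ≠ dp → t ≠ dq → S' (Sum.inr t) = Sum.inr (s2 t) := by
    intro t h3 h4
    rw [hS', Perm.mul_apply, Perm.mul_apply,
      swap_apply_of_ne_of_ne (by simp) (fun h => h4 (Sum.inr.inj h)),
      swap_apply_of_ne_of_ne (by simp) (fun h => h3 (Sum.inr.inj h))]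
    rfl
  obtain ⟨u, u1, u2⟩ := glue2_half i1 h1 e g1 (fun t => p (Sum.inl t)) (fun t => q (Sum.inl t)) (by
    intro t h3 h4
    have := hpq (Sum.inl t)
    rw [eL t h3 h4] at this
    exact this)
  obtain ⟨v, v1, v2⟩ := glue2_half i2 h2 e' g2 (fun t => p (Sum.inr t)) (fun t => q (Sum.inr t)) (by
    intro t h3 h4
    have := hpq (Sum.inr t)
    rw [eR t h4 h3] at this
    exact this)
  have hB : p (Sum.inr dp) + q (Sum.inr e') = p (Sum.inl e) + q (Sum.inl e) := by
    have := hpq (Sum.inr dp)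
    rw [eB] at this
    have h3 : Perm.sumCongr a1 a2 (Sum.inr dp) = Sum.inr e' := congrArg Sum.inr (i2 e')
    rwa [h3] at this
  have hC : p (Sum.inl nq) + q (Sum.inl e) = p (Sum.inr e') + q (Sum.inr e') := by
    have := hpq (Sum.inl nq)
    rw [eC] at this
    have h3 : Perm.sumCongr a1 a2 (Sum.inl nq) = Sum.inl e := congrArg Sum.inl (i1 e)
    rwa [h3] at this
  set c : ZMod 2 := u np + v dp + p (Sum.inl np) + p (Sum.inr dp) with hc
  have U1 : u np + u e = p (Sum.inl np) + p (Sum.inl e) := by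
    have := u2 np
    rwa [hsnp] at this
  have U2 : u nq = u e := u1 e
  have V1 : v dq + v e' = p (Sum.inr dq) + p (Sum.inr e') := by
    have := v2 dq
    rwa [hsdq] at this
  have V2 : v dp = v e' := v1 e'
  have two : (2 : ZMod 2) = 0 := by decide
  -- the condition at the second vertex
  have hcond : u nq + (v dq + c) = p (Sum.inl nq) + p (Sum.inr dq) := by
    rw [hc, U2, V2]
    linear_combination U1 + V1 + hB - hC + (p (Sum.inl np) + q (Sum.inl e) - q (Sum.inr e') + p (Sum.inl e)) * two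
  refine ⟨Sum.elim u (fun t => v t + c), ?_, ?_⟩
  · rintro (t | t)
    · exact u1 t
    · show v (a2 t) + c = v t + c
      rw [v1]
  · rintro (t | t)
    · by_cases h3 : t = np
      · rw [h3, eA]
        show u np + (v (s2 dp) + c) = p (Sum.inl np) + p (Sum.inr (s2 dp))
        have h4 := v2 dp
        rw [hc]
        linear_combination h4 + (u np) * two + (p (Sum.inr dp)) * two
      · by_cases h4 : t = nq
        · rw [h4, eC]
          show u nq + (v e' + c) = p (Sum.inl nq) + p (Sum.inr e')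
          linear_combination hcond + V1 - (v dq) * two + (p (Sum.inr dq)) * two
        · rw [eL t h3 h4]
          exact u2 t
    · by_cases h3 : t = dp
      · rw [h3, eB]
        show v dp + c + u e = p (Sum.inr dp) + p (Sum.inl e)
        rw [hc]
        linear_combination U1 + (v dp) * two + (p (Sum.inl np)) * two
      · by_cases h4 : t = dq
        · rw [h4, eD]
          show v dq + c + u (s1 nq) = p (Sum.inr dq) + p (Sum.inl (s1 nq))
          have h5 := u2 nq
          linear_combination hcond + h5 - (u nq) * two + (p (Sum.inl nq)) * two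
        · rw [eR t h3 h4]
          show v t + c + (v (s2 t) + c) = p (Sum.inr t) + p (Sum.inr (s2 t))
          have h5 := v2 t
          linear_combination h5 + c * two

/-! ### graphs -/

theorem sumCongr_cyc_inl {T1 T2 : Type} [Fintype T1] [DecidableEq T1] [Fintype T2] [DecidableEq T2]
    {s1 : Perm T1} {s2 : Perm T2} {t t' : T1} (h : s1.SameCycle t t') :
    (Perm.sumCongr s1 s2).SameCycle (Sum.inl t) (Sum.inl t') := by
  have := PlGlue_inv (s := s1) (f := fun x =>
    (Quotient.mk (Perm.SameCycle.setoid (Perm.sumCongr s1 s2)) (Sum.inl x)))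
    (fun x => Quotient.sound (Perm.SameCycle.symm ⟨1, by simp⟩)) h
  exact Quotient.exact this

theorem sumCongr_cyc_inr {T1 T2 : Type} [Fintype T1] [DecidableEq T1] [Fintype T2] [DecidableEq T2]
    {s1 : Perm T1} {s2 : Perm T2} {t t' : T2} (h : s2.SameCycle t t') :
    (Perm.sumCongr s1 s2).SameCycle (Sum.inr t) (Sum.inr t') := by
  have := PlGlue_inv (s := s2) (f := fun x =>
    (Quotient.mk (Perm.SameCycle.setoid (Perm.sumCongr s1 s2)) (Sum.inr x)))
    (fun x => Quotient.sound (Perm.SameCycle.symm ⟨1, by simp⟩)) h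
  exact Quotient.exact this

variable {V : Type} [Finite V]

theorem planar_glue2 {G : SimpleGraph V} (V1 V2 : Set V) (p q : V) (hpq : p ≠ q)
    (hc : V1 ∩ V2 = {p, q})
    (hE : ∀ x y, G.Adj x y → (x ∈ V1 ∧ y ∈ V1) ∨ (x ∈ V2 ∧ y ∈ V2))
    (h1 : IsPlanar ((G ⊔ SimpleGraph.edge p q).induce V1))
    (h2 : IsPlanar ((G ⊔ SimpleGraph.edge p q).induce V2)) :
    IsPlanar (G ⊔ SimpleGraph.edge p q) := by
  classical
  let _ : Fintype V := Fintype.ofFinite V
  let _ : Fintype V1 := Fintype.ofFinite V1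
  let _ : Fintype V2 := Fintype.ofFinite V2
  have hp : p ∈ V1 ∩ V2 := by rw [hc]; simp
  have hq : q ∈ V1 ∩ V2 := by rw [hc]; simp
  set H : SimpleGraph V := G ⊔ SimpleGraph.edge p q with hH
  have hadj : H.Adj p q := by
    rw [hH, SimpleGraph.sup_adj, SimpleGraph.edge_adj]
    exact Or.inr ⟨Or.inl ⟨rfl, rfl⟩, hpq⟩
  obtain ⟨s1, hs1, hp1⟩ := planar_pl h1
  obtain ⟨s2, hs2, hp2⟩ := planar_pl h2
  let e : (H.induce V1).Dart := ⟨(⟨p, hp.1⟩, ⟨q, hq.1⟩), hadj⟩
  let e' : (H.induce V2).Dart := ⟨(⟨q, hq.2⟩, ⟨p, hp.2⟩), hadj.symm⟩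
  have hone1 : ∀ t, (s1 t).fst = t.fst := fun t => (hs1 _ _).1 (Perm.SameCycle.symm ⟨1, by simp⟩)
  have hone2 : ∀ t, (s2 t).fst = t.fst := fun t => (hs2 _ _).1 (Perm.SameCycle.symm ⟨1, by simp⟩)
  have hi1 : ∀ t, (s1⁻¹ t).fst = t.fst := fun t => by
    have h := hone1 (s1⁻¹ t)
    have h' : s1 (s1⁻¹ t) = t := s1.apply_symm_apply t
    rw [h'] at h
    exact h.symm
  have hi2 : ∀ t, (s2⁻¹ t).fst = t.fst := fun t => by
    have h := hone2 (s2⁻¹ t)
    have h' : s2 (s2⁻¹ t) = t := s2.apply_symm_apply t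
    rw [h'] at h
    exact h.symm
  set a1 : Perm (H.induce V1).Dart := dsymm (H.induce V1) with ha1
  set a2 : Perm (H.induce V2).Dart := dsymm (H.induce V2) with ha2
  have i1 : ∀ t, a1 (a1 t) = t := PlanarPl_inv _
  have i2 : ∀ t, a2 (a2 t) = t := PlanarPl_inv _
  have kA : (s1⁻¹ e).fst.1 = p := by rw [hi1]
  have kB : (a2 e').fst.1 = p := rfl
  have kC : (a1 e).fst.1 = q := rfl
  have kD : (s2⁻¹ e').fst.1 = q := by rw [hi2]
  have g1 : s1⁻¹ e ≠ a1 e := by
    intro h
    rw [h, kC] at kA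
    exact hpq kA.symm
  have g2 : s2⁻¹ e' ≠ a2 e' := by
    intro h
    rw [h, kB] at kD
    exact hpq kD
  have hpl := pl_glue2 i1 i2 hp1 hp2 e e' (PlanarPl_fpf _ e) (PlanarPl_fpf _ e') g1 g2
  set A : (H.induce V1).Dart ⊕ (H.induce V2).Dart := Sum.inl (s1⁻¹ e) with hA
  set B : (H.induce V1).Dart ⊕ (H.induce V2).Dart := Sum.inr (a2 e') with hB
  set C : (H.induce V1).Dart ⊕ (H.induce V2).Dart := Sum.inl (a1 e) with hC
  set D : (H.induce V1).Dart ⊕ (H.induce V2).Dart := Sum.inr (s2⁻¹ e') with hD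
  set S : Perm ((H.induce V1).Dart ⊕ (H.induce V2).Dart) := Perm.sumCongr s1 s2 with hS
  let K : (H.induce V1).Dart ⊕ (H.induce V2).Dart → V :=
    Sum.elim (fun d => d.fst.1) (fun d => d.fst.1)
  have KA : K A = p := kA
  have KB : K B = p := kB
  have KC : K C = q := kC
  have KD : K D = q := kD
  have KS : ∀ t, K (S t) = K t := by
    rintro (t | t)
    · exact congrArg Subtype.val (hone1 t)
    · exact congrArg Subtype.val (hone2 t)
  have Ksw1 : ∀ t, K (swap A B t) = K t := by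
    intro t
    by_cases h3 : t = A
    · rw [h3, swap_apply_left, KB, KA]
    · by_cases h4 : t = B
      · rw [h4, swap_apply_right, KB, KA]
      · rw [swap_apply_of_ne_of_ne h3 h4]
  have Ksw2 : ∀ t, K (swap C D t) = K t := by
    intro t
    by_cases h3 : t = C
    · rw [h3, swap_apply_left, KC, KD]
    · by_cases h4 : t = D
      · rw [h4, swap_apply_right, KC, KD]
      · rw [swap_apply_of_ne_of_ne h3 h4]
  have hSleft : ∀ t, (S t).isLeft = t.isLeft := by
    rintro (t | t) <;> rfl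
  -- first merge
  have nAB : ¬ S.SameCycle A B := by
    intro h
    have := PlGlue_inv (f := fun t : (H.induce V1).Dart ⊕ (H.induce V2).Dart => t.isLeft) hSleft h
    simp [hA, hB] at this
  set S1 : Perm ((H.induce V1).Dart ⊕ (H.induce V2).Dart) := S * swap A B with hS1
  have m1 : S1.SameCycle A B := PM_merge nAB
  have m1' : ∀ {t t'}, S.SameCycle t t' → S1.SameCycle t t' := fun h => PM_merge_sub nAB h
  have nCD : ¬ S1.SameCycle C D := by
    intro h
    have hinv : ∀ t, (fun t : (H.induce V1).Dart ⊕ (H.induce V2).Dart => (K t = p ∨ t.isLeft = true)) (S1 t) =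
        (fun t : (H.induce V1).Dart ⊕ (H.induce V2).Dart => (K t = p ∨ t.isLeft = true)) t := by
      intro t
      have e1 : K (S1 t) = K t := by rw [hS1, Perm.mul_apply, KS, Ksw1]
      simp only [e1]
      by_cases h3 : K t = p
      · simp [h3]
      · have h4 : t ≠ A := fun h => h3 (by rw [h, KA])
        have h5 : t ≠ B := fun h => h3 (by rw [h, KB])
        have e2 : (S1 t).isLeft = t.isLeft := by
          rw [hS1, Perm.mul_apply, hSleft, swap_apply_of_ne_of_ne h4 h5]
        rw [e2]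
    have h6 : (K C = p ∨ C.isLeft = true) = (K D = p ∨ D.isLeft = true) :=
      PlGlue_inv (f := fun t : (H.induce V1).Dart ⊕ (H.induce V2).Dart =>
        (K t = p ∨ t.isLeft = true)) hinv h
    have h7 : K D = p ∨ D.isLeft = true := by
      rw [← h6]
      exact Or.inr rfl
    rcases h7 with h7 | h7
    · exact hpq (h7.symm.trans KD)
    · exact absurd h7 (by simp [hD])
  set S2 : Perm ((H.induce V1).Dart ⊕ (H.induce V2).Dart) := S * (swap A B * swap C D) with hS2
  have hS21 : S2 = S1 * swap C D := by rw [hS2, hS1, mul_assoc]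
  have m2 : S2.SameCycle C D := by rw [hS21]; exact PM_merge nCD
  have m2' : ∀ {t t'}, S.SameCycle t t' → S2.SameCycle t t' := fun h => by
    rw [hS21]
    exact PM_merge_sub nCD (m1' h)
  have m3 : S2.SameCycle A B := by
    rw [hS21]
    exact PM_merge_sub nCD m1
  have KS2 : ∀ t, K (S2 t) = K t := by
    intro t
    rw [hS2, Perm.mul_apply, Perm.mul_apply, KS, Ksw1, Ksw2]
  -- darts at p, q
  have left : ∀ {t t' : (H.induce V1).Dart}, t.fst.1 = t'.fst.1 →
      S2.SameCycle (Sum.inl t) (Sum.inl t') := fun h =>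
    m2' (sumCongr_cyc_inl ((hs1 _ _).2 (Subtype.ext h)))
  have right : ∀ {t t' : (H.induce V2).Dart}, t.fst.1 = t'.fst.1 →
      S2.SameCycle (Sum.inr t) (Sum.inr t') := fun h =>
    m2' (sumCongr_cyc_inr ((hs2 _ _).2 (Subtype.ext h)))
  have mixed : ∀ (t : (H.induce V1).Dart) (t' : (H.induce V2).Dart), t.fst.1 = t'.fst.1 →
      S2.SameCycle (Sum.inl t) (Sum.inr t') := by
    intro t t' h
    have hmem : t.fst.1 ∈ V1 ∩ V2 := ⟨t.fst.2, by rw [h]; exact t'.fst.2⟩
    rw [hc] at hmem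
    rcases hmem with h3 | h3
    · have e1 : S2.SameCycle (Sum.inl t) A := left (h3.trans kA.symm)
      have e2 : S2.SameCycle B (Sum.inr t') := right (kB.trans (h3.symm.trans h))
      exact (e1.trans m3).trans e2
    · have e1 : S2.SameCycle (Sum.inl t) C := left (Eq.trans h3 kC.symm)
      have e2 : S2.SameCycle D (Sum.inr t') := right (kD.trans (Eq.trans (Eq.symm h3) h))
      exact (e1.trans m2).trans e2
  have hcyc : ∀ t t', S2.SameCycle t t' ↔ K t = K t' := by
    intro t t'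
    constructor
    · exact fun h => PlGlue_inv KS2 h
    · intro h
      rcases t with t | t <;> rcases t' with t' | t'
      · exact left h
      · exact mixed t t' h
      · exact (mixed t' t h.symm).symm
      · exact right h
  -- the embedding of the darts
  have hcase : ∀ d : H.Dart, ¬ (d.fst ∈ V1 ∧ d.snd ∈ V1) → d.fst ∈ V2 ∧ d.snd ∈ V2 := by
    intro d hd
    have h3 : (G ⊔ SimpleGraph.edge p q).Adj d.fst d.snd := d.adj
    rw [SimpleGraph.sup_adj, SimpleGraph.edge_adj] at h3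
    rcases h3 with h3 | h3
    · rcases hE _ _ h3 with h4 | h4
      · exact absurd h4 hd
      · exact h4
    · exfalso
      apply hd
      rcases h3.1 with ⟨h4, h5⟩ | ⟨h4, h5⟩
      · change d.fst = p at h4
        change d.snd = q at h5
        rw [h4, h5]
        exact ⟨hp.1, hq.1⟩
      · change d.fst = q at h4
        change d.snd = p at h5
        rw [h4, h5]
        exact ⟨hq.1, hp.1⟩
  let φ : H.Dart → (H.induce V1).Dart ⊕ (H.induce V2).Dart := fun d =>
    if h : d.fst ∈ V1 ∧ d.snd ∈ V1 then Sum.inl ⟨(⟨d.fst, h.1⟩, ⟨d.snd, h.2⟩), d.adj⟩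
    else Sum.inr ⟨(⟨d.fst, (hcase d h).1⟩, ⟨d.snd, (hcase d h).2⟩), d.adj⟩
  let a : Perm ((H.induce V1).Dart ⊕ (H.induce V2).Dart) := Perm.sumCongr a1 a2
  have hφ1 : ∀ d, K (φ d) = d.fst := by
    intro d
    simp only [φ]
    split_ifs <;> rfl
  have hφ2 : ∀ d, K (a (φ d)) = d.snd := by
    intro d
    simp only [φ]
    split_ifs <;> rfl
  refine planar_of_darts (a := a) (s := S2) (fun t => ?_) hpl K hcyc φ ?_ ?_ ?_
  · rcases t with t | t
    · exact congrArg Sum.inl (i1 t)
    · exact congrArg Sum.inr (i2 t)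
  · intro d d' h
    have e1 : d.fst = d'.fst := by rw [← hφ1, h, hφ1]
    have e2 : d.snd = d'.snd := by rw [← hφ2, h, hφ2]
    apply SimpleGraph.Dart.ext
    exact Prod.ext e1 e2
  · intro d
    by_cases h : d.fst ∈ V1 ∧ d.snd ∈ V1
    · have h' : (dsymm H d).fst ∈ V1 ∧ (dsymm H d).snd ∈ V1 := ⟨h.2, h.1⟩
      have e1 : φ d = Sum.inl ⟨(⟨d.fst, h.1⟩, ⟨d.snd, h.2⟩), d.adj⟩ := dif_pos h
      have e2 : φ (dsymm H d) = Sum.inl ⟨(⟨(dsymm H d).fst, h'.1⟩, ⟨(dsymm H d).snd, h'.2⟩),
        (dsymm H d).adj⟩ := dif_pos h'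
      rw [e1, e2]
      rfl
    · have h' : ¬ ((dsymm H d).fst ∈ V1 ∧ (dsymm H d).snd ∈ V1) := fun h4 => h ⟨h4.2, h4.1⟩
      have e1 : φ d = Sum.inr ⟨(⟨d.fst, (hcase d h).1⟩, ⟨d.snd, (hcase d h).2⟩), d.adj⟩ := dif_neg h
      have e2 : φ (dsymm H d) = Sum.inr ⟨(⟨(dsymm H d).fst, (hcase _ h').1⟩,
        ⟨(dsymm H d).snd, (hcase _ h').2⟩), (dsymm H d).adj⟩ := dif_neg h'
      rw [e1, e2]
      rfl
  · intro d d'
    rw [hφ1, hφ1]

end Dia
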