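import Pool.Agent.Dia.DecInv
import Pool.Agent.Dia.PlanC
import Pool.Agent.Dia.PlanD
import Pool.Agent.Dia.PlMinor
import Pool.Agent.PGr.Final

/-!
# Module CntU: simple bounds for the counting sequences
-/

set_option linter.unusedSectionVars false

namespace Dia
open PGr Finset Pool.Agent.DiamP

/-! ### planar graphs: triangle, stars -/

private def CntU_a : Equiv.Perm (ZMod 3 × Bool) := Equiv.prodCongr (Equiv.refl _) Equiv.boolNot

private def CntU_s : Equiv.Perm (ZMod 3 × Bool) where
  toFun t := if t.2 then (t.1 + 1, false) else (t.1 - 1, true)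
  invFun t := if t.2 then (t.1 + 1, false) else (t.1 - 1, true)
  left_inv := by decide
  right_inv := by decide

private theorem CntU_pl : Pl CntU_a CntU_s := by
  intro p q h
  have h1 : ∀ i : ZMod 3, p (i, false) + q (i, true) = p (i - 1, true) + q (i - 1, true) :=
    fun i => h (i, false)
  refine ⟨fun t => q (t.1, true), fun t => rfl, ?_⟩
  have key : ∀ x y z w : ZMod 2, x + y = z + w → y + w = x + z := by decide
  rintro ⟨i, b⟩
  cases b
  · exact key _ _ _ _ (h1 i)
  · have h2 := h1 (i + 1)
    rw [add_sub_cancel_right] at h2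
    have h3 := key _ _ _ _ h2
    change q (i, true) + q (i + 1, true) = p (i, true) + p (i + 1, false)
    rw [add_comm (q (i, true)), h3, add_comm]

private theorem CntU_K : ∀ t t' : ZMod 3 × Bool, CntU_s.SameCycle t t' ↔
    (if t.2 then t.1 + 1 else t.1) = (if t'.2 then t'.1 + 1 else t'.1) := by
  decide

private theorem CntU_K3 : IsPlanar (⊤ : SimpleGraph (ZMod 3)) := by
  classical
  refine planar_of_darts (a := CntU_a) (s := CntU_s) (by decide) CntU_pl
    (fun t => if t.2 then t.1 + 1 else t.1) CntU_K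
    (fun d => if d.snd = d.fst + 1 then (d.fst, false) else (d.snd, true)) ?_ ?_ ?_
  · intro d d' h
    have key : ∀ x y x' y' : ZMod 3, x ≠ y → x' ≠ y' →
        (if y = x + 1 then (x, false) else (y, true)) =
          (if y' = x' + 1 then (x', false) else (y', true)) → x = x' ∧ y = y' := by
      decide
    obtain ⟨h1, h2⟩ := key _ _ _ _ d.adj.ne d'.adj.ne h
    exact SimpleGraph.Dart.ext _ _ (Prod.ext h1 h2)
  · intro d
    have key : ∀ x y : ZMod 3, x ≠ y → (if x = y + 1 then (y, false) else (x, true)) =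
        CntU_a (if y = x + 1 then (x, false) else (y, true)) := by
      decide
    exact key _ _ d.adj.ne
  · intro d d'
    have key : ∀ x y : ZMod 3, x ≠ y →
        (if (if y = x + 1 then (x, false) else (y, true) : ZMod 3 × Bool).2 then
          (if y = x + 1 then (x, false) else (y, true) : ZMod 3 × Bool).1 + 1 else
          (if y = x + 1 then (x, false) else (y, true) : ZMod 3 × Bool).1) = x := by
      decide
    have h1 := key _ _ d.adj.ne
    have h2 := key _ _ d'.adj.ne
    change (if (if d.snd = d.fst + 1 then (d.fst, false) else (d.snd, true) : ZMod 3 × Bool).2 then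
          (if d.snd = d.fst + 1 then (d.fst, false) else (d.snd, true) : ZMod 3 × Bool).1 + 1 else
          (if d.snd = d.fst + 1 then (d.fst, false) else (d.snd, true) : ZMod 3 × Bool).1) =
        (if (if d'.snd = d'.fst + 1 then (d'.fst, false) else (d'.snd, true) : ZMod 3 × Bool).2 then
          (if d'.snd = d'.fst + 1 then (d'.fst, false) else (d'.snd, true) : ZMod 3 × Bool).1 + 1
          else (if d'.snd = d'.fst + 1 then (d'.fst, false) else (d'.snd, true) :
            ZMod 3 × Bool).1) ↔ _
    rw [h1, h2]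

/-- graphs with at most three vertices are planar -/
theorem CntU_small {V : Type} [Finite V] (G : SimpleGraph V) (h : Nat.card V ≤ 3) :
    IsPlanar G := by
  classical
  have := Fintype.ofFinite V
  obtain ⟨f⟩ : Nonempty (V ↪ ZMod 3) := by
    refine Function.Embedding.nonempty_of_card_le ?_
    rw [← Nat.card_eq_fintype_card, ZMod.card]
    exact h
  exact planar_of_hom f f.injective (fun x y hxy => fun h' => hxy.ne (f.injective h')) CntU_K3

/-- the star with center `c` and leaves in `S` -/
private def CntU_star {V : Type} (c : V) (S : Set V) : SimpleGraph V where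
  Adj x y := x ≠ y ∧ ((x = c ∧ y ∈ S) ∨ (y = c ∧ x ∈ S))
  symm := ⟨fun _ _ h => ⟨h.1.symm, h.2.symm⟩⟩
  loopless := ⟨fun _ h => h.1 rfl⟩

private theorem CntU_star_planar {V : Type} [Finite V] (c : V) (S : Set V) :
    IsPlanar (CntU_star c S) := by
  classical
  have := Fintype.ofFinite V
  have key : ∀ T : Finset V, IsPlanar (CntU_star c (T : Set V)) := by
    intro T
    induction T using Finset.induction_on with
    | empty =>
      have : CntU_star c ((∅ : Finset V) : Set V) = ⊥ := by
        ext x y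
        simp [CntU_star]
      rw [this]
      exact planar_bot
    | insert s T hs ih =>
      by_cases hsc : s = c
      · have : CntU_star c ((insert s T : Finset V) : Set V) = CntU_star c (T : Set V) := by
          ext x y
          simp only [CntU_star, Finset.coe_insert, Set.mem_insert_iff]
          constructor
          · rintro ⟨h1, ⟨h2, h3 | h3⟩ | ⟨h2, h3 | h3⟩⟩
            · exact absurd (h2.trans (h3.trans hsc).symm) h1
            · exact ⟨h1, Or.inl ⟨h2, h3⟩⟩
            · exact absurd ((h3.trans hsc).trans h2.symm) h1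
            · exact ⟨h1, Or.inr ⟨h2, h3⟩⟩
          · rintro ⟨h1, ⟨h2, h3⟩ | ⟨h2, h3⟩⟩
            · exact ⟨h1, Or.inl ⟨h2, Or.inr h3⟩⟩
            · exact ⟨h1, Or.inr ⟨h2, Or.inr h3⟩⟩
        rw [this]
        exact ih
      · refine planar_glue1 {s}ᶜ {s, c} c ?_ ?_ ?_ ?_
        · rintro x ⟨h1, h2 | h2⟩
          · exact absurd h2 h1
          · exact h2
        · rintro x y ⟨h1, h2⟩
          by_cases hx : x = s
          · subst hx
            rcases h2 with ⟨h2, h3⟩ | ⟨h2, h3⟩
            · exact absurd h2 hsc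
            · subst h2
              exact Or.inr ⟨Or.inl rfl, Or.inr rfl⟩
          · by_cases hy : y = s
            · subst hy
              rcases h2 with ⟨h2, h3⟩ | ⟨h2, h3⟩
              · subst h2
                exact Or.inr ⟨Or.inr rfl, Or.inl rfl⟩
              · exact absurd h2 hsc
            · exact Or.inl ⟨hx, hy⟩
        · refine planar_of_hom Subtype.val Subtype.val_injective ?_ ih
          rintro ⟨x, hx⟩ ⟨y, hy⟩ ⟨h1, h2⟩
          refine ⟨h1, ?_⟩
          rcases h2 with ⟨h2, h3⟩ | ⟨h2, h3⟩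
          · refine Or.inl ⟨h2, ?_⟩
            simp only [Finset.coe_insert, Set.mem_insert_iff] at h3
            exact h3.resolve_left hy
          · refine Or.inr ⟨h2, ?_⟩
            simp only [Finset.coe_insert, Set.mem_insert_iff] at h3
            exact h3.resolve_left hx
        · refine CntU_small _ ?_
          have h3 : Nat.card ({s, c} : Set V) = ({s, c} : Set V).ncard := rfl
          rw [h3]
          exact (Set.ncard_insert_le _ _).trans (by rw [Set.ncard_singleton]; norm_num)
  have h := key S.toFinset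
  rwa [Set.coe_toFinset] at h

/-! ### the bounds -/

theorem gN_le_u (n : ℕ) : gN ⊤ n ≤ u n := by
  classical
  unfold gN u
  rw [div_le_iff₀ (by exact_mod_cast n.factorial_pos)]
  have h1 : Nat.card {G : SimpleGraph (Fin n) // IsPlanar G ∧ CoreLt ⊤ G} ≤
      Nat.card (Equiv.Perm (Fin n) × Quotient (pSetoid n)) := by
    have hfin : Finite (Quotient (pSetoid n)) := Quotient.finite _
    refine Nat.card_le_card_of_surjective
      (fun x => (⟨((Quotient.out x.2 : {G : SimpleGraph (Fin n) // IsPlanar G}).1).comap x.1,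
        planar_comap _ x.1.injective (Quotient.out x.2 : {G : SimpleGraph (Fin n) //
          IsPlanar G}).2, coreLt_top _⟩ :
        {G : SimpleGraph (Fin n) // IsPlanar G ∧ CoreLt ⊤ G})) ?_
    rintro ⟨G, hG, hc⟩
    have h2 : (pSetoid n).r (Quotient.out (Quotient.mk (pSetoid n) ⟨G, hG⟩)) ⟨G, hG⟩ :=
      Quotient.mk_out (s := pSetoid n) ⟨G, hG⟩
    obtain ⟨e⟩ := h2
    refine ⟨(e.symm.toEquiv, Quotient.mk (pSetoid n) ⟨G, hG⟩), ?_⟩
    apply Subtype.ext
    ext x y
    exact e.symm.map_adj_iff
  rw [Nat.card_prod, Nat.card_perm, Nat.card_fin] at h1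
  rw [mul_comm]
  exact_mod_cast h1

theorem rN_le_g (k : ℕ) : rN ⊤ (k + 1) ≤ (k + 1) * gN ⊤ (k + 1) := by
  classical
  unfold rN sh es1 gN
  rw [if_neg (Nat.succ_ne_zero k), Nat.add_sub_cancel, Nat.factorial_succ]
  have h0 : (0 : ℝ) < k.factorial := by exact_mod_cast k.factorial_pos
  have h0' : (0 : ℝ) < (k : ℝ) + 1 := by positivity
  have h1 : Nat.card {G : SimpleGraph (Option (Fin k)) // RR G ∧ CoreLt ⊤ G} ≤
      Nat.card {G : SimpleGraph (Fin (k + 1)) // IsPlanar G ∧ CoreLt ⊤ G} := by
    obtain ⟨e⟩ : Nonempty (Fin (k + 1) ≃ Option (Fin k)) := ⟨finSuccEquiv k⟩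
    refine Nat.card_le_card_of_injective
      (fun G => ⟨G.1.comap e, planar_comap _ e.injective G.2.1.2, coreLt_top _⟩) ?_
    rintro ⟨G, hG⟩ ⟨G', hG'⟩ h
    apply Subtype.ext
    have h2 : G.comap e = G'.comap e := congrArg Subtype.val h
    change G = G'
    ext x y
    have h3 : (G.comap e).Adj (e.symm x) (e.symm y) ↔ (G'.comap e).Adj (e.symm x) (e.symm y) := by
      rw [h2]
    simpa using h3
  have h2 : (Nat.card {G : SimpleGraph (Option (Fin k)) // RR G ∧ CoreLt ⊤ G} : ℝ) ≤
      (Nat.card {G : SimpleGraph (Fin (k + 1)) // IsPlanar G ∧ CoreLt ⊤ G} : ℝ) := by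
    exact_mod_cast h1
  push_cast
  rw [div_le_iff₀ h0]
  have h3 : ((k : ℝ) + 1) * ((Nat.card {G : SimpleGraph (Fin (k + 1)) // IsPlanar G ∧ CoreLt ⊤ G} :
      ℝ) / (((k : ℝ) + 1) * (k.factorial : ℝ))) * (k.factorial : ℝ) =
      (Nat.card {G : SimpleGraph (Fin (k + 1)) // IsPlanar G ∧ CoreLt ⊤ G} : ℝ) := by
    field_simp
  rw [h3]
  exact h2

theorem CntU_conn {A : Type} {G : SimpleGraph (A ⊕ Bool)} (h : Att2 G) : (addp G).Connected := by
  rw [DecInv_att2] at h
  have hp : (addp G).Adj (Sum.inr false) (Sum.inr true) := by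
    unfold addp
    rw [SimpleGraph.sup_adj, SimpleGraph.edge_adj]
    exact Or.inr ⟨Or.inl ⟨rfl, rfl⟩, by simp⟩
  have key : ∀ x, (addp G).Reachable x (Sum.inr false) := by
    rintro (a | b)
    · obtain ⟨a', h1, h2⟩ := h a false
      have h3 : G.Reachable (Sum.inl a') (Sum.inl a) :=
        h1.map (⟨Sum.inl, fun h => h⟩ : (G.comap Sum.inl) →g G)
      have h4 : G.Reachable (Sum.inl a) (Sum.inr false) := h3.symm.trans h2.reachable
      exact h4.mono le_sup_left
    · cases b
      · exact SimpleGraph.Reachable.refl _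
      · exact hp.symm.reachable
  have : Nonempty (A ⊕ Bool) := ⟨Sum.inr false⟩
  exact ⟨fun x y => (key x).trans (key y).symm⟩

theorem CntU_addp_inj {A : Type} {G G' : SimpleGraph (A ⊕ Bool)}
    (h : ¬ G.Adj (Sum.inr false) (Sum.inr true)) (h' : ¬ G'.Adj (Sum.inr false) (Sum.inr true))
    (he : addp G = addp G') : G = G' := by
  have key : ∀ {G G' : SimpleGraph (A ⊕ Bool)}, ¬ G.Adj (Sum.inr false) (Sum.inr true) →
      addp G = addp G' → ∀ x y, G.Adj x y → G'.Adj x y := by
    intro G G' h he x y hxy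
    have h1 : (addp G').Adj x y := by
      rw [← he]
      exact Or.inl hxy
    rcases h1 with h1 | h1
    · exact h1
    · rw [SimpleGraph.edge_adj] at h1
      obtain ⟨⟨h2, h3⟩ | ⟨h2, h3⟩, -⟩ := h1
      · subst h2; subst h3
        exact absurd hxy h
      · subst h2; subst h3
        exact absurd hxy.symm h
  ext x y
  exact ⟨key h he x y, key h' he.symm x y⟩

theorem qN_le_r (k : ℕ) : qN ⊤ k ≤ (k + 1) * rN ⊤ (k + 2) := by
  classical
  unfold qN rN sh es1 es2
  rw [if_neg (Nat.succ_ne_zero (k + 1)), show k + 2 - 1 = k + 1 from rfl, Nat.factorial_succ]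
  have h0 : (0 : ℝ) < k.factorial := by exact_mod_cast k.factorial_pos
  have h0' : (0 : ℝ) < (k : ℝ) + 1 := by positivity
  have h1 : Nat.card {G : SimpleGraph (Fin k ⊕ Bool) // QQ G ∧ CoreLt ⊤ (addp G)} ≤
      Nat.card {G : SimpleGraph (Option (Fin (k + 1))) // RR G ∧ CoreLt ⊤ G} := by
    obtain ⟨e⟩ : Nonempty (Option (Fin (k + 1)) ≃ Fin k ⊕ Bool) := by
      refine ⟨Fintype.equivOfCardEq ?_⟩
      simp
    refine Nat.card_le_card_of_injective
      (fun G => ⟨(addp G.1).comap e, ⟨?_, planar_comap _ e.injective G.2.1.2.2⟩,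
        coreLt_top _⟩) ?_
    · have h2 : (addp G.1).comap e ≃g addp G.1 := ⟨e, Iff.rfl⟩
      exact h2.connected_iff.2 (CntU_conn G.2.1.2.1)
    · rintro ⟨G, hG⟩ ⟨G', hG'⟩ h
      apply Subtype.ext
      have h2 : (addp G).comap e = (addp G').comap e := congrArg Subtype.val h
      change G = G'
      refine CntU_addp_inj hG.1.1 hG'.1.1 ?_
      ext x y
      have h3 : ((addp G).comap e).Adj (e.symm x) (e.symm y) ↔
          ((addp G').comap e).Adj (e.symm x) (e.symm y) := by
        rw [h2]
      simpa using h3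
  have h2 : (Nat.card {G : SimpleGraph (Fin k ⊕ Bool) // QQ G ∧ CoreLt ⊤ (addp G)} : ℝ) ≤
      (Nat.card {G : SimpleGraph (Option (Fin (k + 1))) // RR G ∧ CoreLt ⊤ G} : ℝ) := by
    exact_mod_cast h1
  push_cast
  rw [div_le_iff₀ h0]
  have h3 : ((k : ℝ) + 1) * ((Nat.card {G : SimpleGraph (Option (Fin (k + 1))) //
      RR G ∧ CoreLt ⊤ G} : ℝ) / (((k : ℝ) + 1) * (k.factorial : ℝ))) * (k.factorial : ℝ) =
      (Nat.card {G : SimpleGraph (Option (Fin (k + 1))) // RR G ∧ CoreLt ⊤ G} : ℝ) := by
    field_simp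
  rw [h3]
  exact h2

theorem pN_le_e (M : ℕ∞) (k : ℕ) : pN M k ≤ rE M k := by
  unfold pN rE es1
  have h0 : (0 : ℝ) < k.factorial := by exact_mod_cast k.factorial_pos
  refine div_le_div_of_nonneg_right ?_ h0.le
  have h1 : Nat.card {G : SimpleGraph (Option (Fin k)) // PP G ∧ CoreLt M G} ≤
      Nat.card {G : SimpleGraph (Option (Fin k)) // RR G ∧ CoreLt M G} := by
    refine Nat.card_le_card_of_injective (fun G => ⟨G.1, G.2.1.1, G.2.2⟩) ?_
    rintro ⟨G, hG⟩ ⟨G', hG'⟩ h
    have h2 : G = G' := congrArg Subtype.val h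
    subst h2
    rfl
  exact_mod_cast h1

theorem rN_pos (k : ℕ) (hk : 1 ≤ k) : 0 < rN ⊤ k := by
  classical
  unfold rN sh es1
  rw [if_neg (by omega)]
  have h0 : (0 : ℝ) < (k - 1).factorial := by exact_mod_cast (k - 1).factorial_pos
  refine div_pos ?_ h0
  have h1 : 0 < Nat.card {G : SimpleGraph (Option (Fin (k - 1))) // RR G ∧ CoreLt ⊤ G} := by
    rw [Nat.card_pos_iff]
    refine ⟨⟨CntU_star none Set.univ, ⟨?_, CntU_star_planar _ _⟩, coreLt_top _⟩, inferInstance⟩
    have key : ∀ x, (CntU_star (none : Option (Fin (k - 1))) Set.univ).Reachable x none := by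
      intro x
      by_cases hx : x = none
      · subst hx
        exact SimpleGraph.Reachable.refl _
      · exact SimpleGraph.Adj.reachable ⟨hx, Or.inr ⟨rfl, Set.mem_univ _⟩⟩
    exact ⟨fun x y => (key x).trans (key y).symm⟩
  exact_mod_cast h1

theorem gN_pos (M : ℕ∞) (k : ℕ) : 0 < gN M k := by
  classical
  unfold gN
  have h0 : (0 : ℝ) < k.factorial := by exact_mod_cast k.factorial_pos
  refine div_pos ?_ h0
  have h1 : 0 < Nat.card {G : SimpleGraph (Fin k) // IsPlanar G ∧ CoreLt M G} := by
    rw [Nat.card_pos_iff]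
    refine ⟨⟨⊥, planar_bot, ?_⟩, inferInstance⟩
    intro X hX
    exfalso
    have h2 : ∀ x y, ¬ (torso (⊥ : SimpleGraph (Fin k)) X).Adj x y := by
      rintro x y ⟨hne, h3 | ⟨C, hC⟩⟩
      · exact h3
      · have h4 : x ∈ att (⊥ : SimpleGraph (Fin k)) X C := by
          rw [hC]
          exact Set.mem_insert _ _
        obtain ⟨a, -, ha⟩ := h4
        exact ha
    have h3 := hX.three.2 ∅ (by simp)
    have h4 := hX.three.1
    have h5 : Nontrivial X := by
      rw [← Finite.one_lt_card_iff_nontrivial]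
      omega
    obtain ⟨x, y, hxy⟩ := h5.exists_pair_ne
    obtain ⟨p⟩ := h3.preconnected ⟨x, by simp⟩ ⟨y, by simp⟩
    cases p with
    | nil => exact hxy rfl
    | cons h _ => exact h2 _ _ h
  exact_mod_cast h1

theorem dN_pos (k : ℕ) : 0 < dN ⊤ k := by
  classical
  unfold dN es2
  have h0 : (0 : ℝ) < k.factorial := by exact_mod_cast k.factorial_pos
  refine div_pos ?_ h0
  have h1 : 0 < Nat.card {G : SimpleGraph (Fin k ⊕ Bool) // DD G ∧ CoreLt ⊤ (addp G)} := by
    rw [Nat.card_pos_iff]
    refine ⟨?_, inferInstance⟩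
    rcases k with _ | k
    · refine ⟨SimpleGraph.edge (Sum.inr false) (Sum.inr true), ⟨?_, ?_, ?_⟩, coreLt_top _⟩
      · intro h
        have h2 : (SimpleGraph.edge (Sum.inr false : Fin 0 ⊕ Bool) (Sum.inr true)).Adj
            (Sum.inr false) (Sum.inr true) := by
          rw [SimpleGraph.edge_adj]
          exact ⟨Or.inl ⟨rfl, rfl⟩, by simp⟩
        rw [h] at h2
        exact h2
      · rw [DecInv_att2]
        intro a
        exact a.elim0
      · unfold addp
        rw [sup_idem]
        exact planar_edge _ _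
    · let c : Fin (k + 1) ⊕ Bool := Sum.inl 0
      let G : SimpleGraph (Fin (k + 1) ⊕ Bool) := CntU_star c Set.univ
      have hcx : ∀ x, x ≠ c → G.Adj x c := fun x hx => ⟨hx, Or.inr ⟨rfl, Set.mem_univ _⟩⟩
      refine ⟨G, ⟨?_, ?_, ?_⟩, coreLt_top _⟩
      · intro h
        have h2 : G.Adj (Sum.inr false) c := hcx _ (by simp [c])
        rw [h] at h2
        exact h2
      · rw [DecInv_att2]
        intro a b
        refine ⟨0, ?_, (hcx _ (by simp [c])).symm⟩
        by_cases ha : a = 0
        · subst ha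
          exact SimpleGraph.Reachable.refl _
        · have h2 : (G.comap Sum.inl).Adj 0 a :=
            (hcx (Sum.inl a) (by simpa [c] using ha)).symm
          exact h2.reachable
      · refine planar_glue1 {c, Sum.inr false, Sum.inr true} {x | x ≠ Sum.inr false ∧
          x ≠ Sum.inr true} c ?_ ?_ ?_ ?_
        · rintro x ⟨h1 | h1 | h1, h2, h3⟩
          · exact h1
          · exact absurd h1 h2
          · exact absurd h1 h3
        · intro x y hxy
          rcases hxy with hxy | hxy
          · obtain ⟨hne, ⟨h1, -⟩ | ⟨h1, -⟩⟩ := hxy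
            · subst h1
              by_cases hy : y = Sum.inr false ∨ y = Sum.inr true
              · exact Or.inl ⟨Or.inl rfl, Or.inr hy⟩
              · rw [not_or] at hy
                exact Or.inr ⟨⟨by simp [c], by simp [c]⟩, hy⟩
            · subst h1
              by_cases hy : x = Sum.inr false ∨ x = Sum.inr true
              · exact Or.inl ⟨Or.inr hy, Or.inl rfl⟩
              · rw [not_or] at hy
                exact Or.inr ⟨hy, ⟨by simp [c], by simp [c]⟩⟩
          · rw [SimpleGraph.edge_adj] at hxy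
            obtain ⟨⟨h1, h2⟩ | ⟨h1, h2⟩, -⟩ := hxy
            · exact Or.inl ⟨Or.inr (Or.inl h1), Or.inr (Or.inr h2)⟩
            · exact Or.inl ⟨Or.inr (Or.inr h1), Or.inr (Or.inl h2)⟩
        · refine CntU_small _ ?_
          have h3 : Nat.card ({c, Sum.inr false, Sum.inr true} : Set (Fin (k + 1) ⊕ Bool)) =
            ({c, Sum.inr false, Sum.inr true} : Set (Fin (k + 1) ⊕ Bool)).ncard := rfl
          rw [h3]
          have h4 := Set.ncard_insert_le c ({Sum.inr false, Sum.inr true} :
            Set (Fin (k + 1) ⊕ Bool))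
          have h5 := Set.ncard_insert_le (Sum.inr false) ({Sum.inr true} :
            Set (Fin (k + 1) ⊕ Bool))
          rw [Set.ncard_singleton] at h5
          omega
        · refine planar_of_hom Subtype.val Subtype.val_injective ?_
            (CntU_star_planar c Set.univ)
          rintro ⟨x, hx⟩ ⟨y, hy⟩ (h | h)
          · exact h
          · exfalso
            rw [SimpleGraph.edge_adj] at h
            obtain ⟨⟨h1, -⟩ | ⟨h1, -⟩, -⟩ := h
            · exact hx.1 h1
            · exact hx.2 h1
  exact_mod_cast h1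

end Dia
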