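import Pool.Agent.Dia.RigC

/-!
# Weighted counting of families of structures over a fixed core
-/

set_option linter.unusedSectionVars false

namespace Dia
open Finset PGr Pool.Agent.DiamP

/-! ### families of structures -/

theorem sum_fam {ι : Type} [Fintype ι] [DecidableEq ι] (S : ι → Type → Type)
    (hfin : ∀ i B, Finite B → Finite (S i B)) (w : ∀ i B, S i B → ℝ)
    (hw : ∀ i B, Finite B → ∑ᶠ s : S i B, w i B s = ∑ᶠ s : S i (Fin (Nat.card B)), w i _ s)
    (A : Type) [Finite A] (J : ι → Prop) [DecidablePred J]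
    (h0 : ∀ i, ¬ J i → ∑ᶠ s : S i (Fin 0), w i _ s = 1) :
    ∑ᶠ z : {z : Σ f : A → ι, ∀ i, S i {a // f a = i} // ∀ a, J (z.1 a)},
      ∏ i, w i _ (z.1.2 i) = ((Nat.card A).factorial : ℝ) *
        PowerSeries.coeff (Nat.card A) (∏ i, if J i then
          PowerSeries.mk (fun n => (∑ᶠ s : S i (Fin n), w i _ s) / n.factorial) else 1) := by
  classical
  have := Fintype.ofFinite A
  have hf : ∀ (f : A → ι) (i : ι), Finite (S i {a // f a = i}) := fun f i =>
    hfin i _ inferInstance
  let hF : ∀ (f : A → ι) (i : ι), Fintype (S i {a // f a = i}) := fun f i => Fintype.ofFinite _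
  let P : (A → ι) → Prop := fun f => ∀ a, J (f a)
  let e : {z : Σ f : A → ι, ∀ i, S i {a // f a = i} // ∀ a, J (z.1 a)} ≃
      Σ f : {f : A → ι // P f}, ∀ i, S i {a // f.1 a = i} :=
    { toFun := fun z => ⟨⟨z.1.1, z.2⟩, z.1.2⟩
      invFun := fun z => ⟨⟨z.1.1, z.2⟩, z.1.2⟩
      left_inv := fun _ => rfl
      right_inv := fun _ => rfl }
  have he : ∑ᶠ z : {z : Σ f : A → ι, ∀ i, S i {a // f a = i} // ∀ a, J (z.1 a)},
      ∏ i, w i _ (z.1.2 i) = ∑ᶠ z : (Σ f : {f : A → ι // P f}, ∀ i, S i {a // f.1 a = i}),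
        ∏ i, w i _ (z.2 i) :=
    finsum_eq_of_bijective e e.bijective (fun z => rfl)
  rw [he, finsum_eq_sum_of_fintype, Fintype.sum_sigma]
  let N : ι → ℕ → ℝ := fun i m => if J i then ∑ᶠ s : S i (Fin m), w i _ s else
    if m = 0 then 1 else 0
  have h1 : ∀ f : {f : A → ι // P f}, ∑ s : (∀ i, S i {a // f.1 a = i}), ∏ i, w i _ (s i) =
      ∏ i, N i (Nat.card {a // f.1 a = i}) := by
    intro f
    have h2 := Finset.prod_univ_sum (fun i => (univ : Finset (S i {a // f.1 a = i})))
      (fun i s => w i _ s)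
    rw [Fintype.piFinset_univ] at h2
    rw [← h2]
    refine Finset.prod_congr rfl fun i _ => ?_
    rw [← finsum_eq_sum_of_fintype, hw i _ inferInstance]
    change _ = if J i then _ else _
    split_ifs with h3 h4
    · rfl
    · rw [h4]
      exact h0 i h3
    · exfalso
      have : Nonempty {a // f.1 a = i} := by
        by_contra hne
        rw [not_nonempty_iff] at hne
        exact h4 (Nat.card_of_isEmpty)
      obtain ⟨a, ha⟩ := this
      exact h3 (ha ▸ f.2 a)
  rw [Finset.sum_congr rfl fun f _ => h1 f]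
  have h3 : ∀ f : A → ι, ¬ P f → ∏ i, N i (Nat.card {a // f a = i}) = 0 := by
    intro f hf
    have hf' : ¬ ∀ a, J (f a) := hf
    push Not at hf'
    obtain ⟨a, ha⟩ := hf'
    refine Finset.prod_eq_zero (Finset.mem_univ (f a)) ?_
    change (if J (f a) then _ else _) = _
    rw [if_neg ha, if_neg]
    have : Nonempty {b // f b = f a} := ⟨⟨a, rfl⟩⟩
    exact Nat.card_pos.ne'
  have h5 := Finset.sum_subtype_of_mem (s := (univ : Finset (A → ι)).filter P)
    (p := P) (fun f => ∏ i, N i (Nat.card {a // f a = i})) (fun f hf => (mem_filter.1 hf).2)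
  have h6 : Finset.subtype P ((univ : Finset (A → ι)).filter P) = univ := by
    ext f
    simp [f.2]
  rw [h6] at h5
  rw [h5, Finset.sum_filter]
  have h7 : ∑ f : A → ι, (if P f then ∏ i, N i (Nat.card {a // f a = i}) else 0) =
      ∑ f : A → ι, ∏ i, N i (Nat.card {a // f a = i}) := by
    refine Finset.sum_congr rfl fun f _ => ?_
    split_ifs with h
    · rfl
    · exact (h3 f h).symm
  rw [h7, fib_sum N A, Nat.card_eq_fintype_card]
  congr 1
  rw [← PowerSeries.coeff_mk (Fintype.card A) (cvL _), mk_cvLs_univ]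
  congr 1
  refine Finset.prod_congr rfl fun i _ => ?_
  by_cases h : J i
  · rw [if_pos h]
    congr 1
    funext n
    change (if J i then _ else _) / _ = _
    rw [if_pos h]
  · rw [if_neg h, ← mk_one0]
    congr 1
    funext m
    change (if J i then _ else _) / _ = _
    rw [if_neg h]
    unfold one0
    split_ifs with hm
    · rw [hm]; norm_num
    · norm_num

/-! ### weights on graphs -/

/-- invariant weights on rooted graphs -/
def IW1 (w : ∀ B : Type, SimpleGraph (Option B) → ℝ) : Prop :=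
  ∀ (A B : Type) [Finite A] [Finite B] (e : A ≃ B) (G : SimpleGraph (Option B)),
    w A (G.comap (Option.map e)) = w B G

/-- invariant weights on graphs with two poles -/
def IW2 (w : ∀ B : Type, SimpleGraph (B ⊕ Bool) → ℝ) : Prop :=
  ∀ (A B : Type) [Finite A] [Finite B] (e : A ≃ B) (G : SimpleGraph (B ⊕ Bool)),
    w A (G.comap (Sum.map e id)) = w B G

/-- invariant weights on graphs -/
def IW0 (w : ∀ B : Type, SimpleGraph B → ℝ) : Prop :=
  ∀ (A B : Type) [Finite A] [Finite B] (e : A ≃ B) (G : SimpleGraph B),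
    w A (G.comap e) = w B G

/-- generating sequence of `RR` with weights -/
noncomputable def ew1 (w : ∀ B : Type, SimpleGraph (Option B) → ℝ) (n : ℕ) : ℝ :=
  (∑ᶠ G : {G : SimpleGraph (Option (Fin n)) // RR G}, w _ G.1) / n.factorial

/-- generating sequence of `DD` with weights -/
noncomputable def ew2 (w : ∀ B : Type, SimpleGraph (B ⊕ Bool) → ℝ) (n : ℕ) : ℝ :=
  (∑ᶠ G : {G : SimpleGraph (Fin n ⊕ Bool) // DD G}, w _ G.1) / n.factorial

/-- generating sequence of the planar graphs with weights -/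
noncomputable def ew0 (w : ∀ B : Type, SimpleGraph B → ℝ) (n : ℕ) : ℝ :=
  (∑ᶠ G : {G : SimpleGraph (Fin n) // IsPlanar G}, w _ G.1) / n.factorial

private theorem finsum_ind {α : Type} [Finite α] (P Q : α → Prop) [∀ x, Decidable (Q x)] :
    ∑ᶠ x : {x : α // P x}, (if Q x.1 then (1 : ℝ) else 0) =
      (Nat.card {x : α // P x ∧ Q x} : ℝ) := by
  classical
  have := Fintype.ofFinite α
  rw [finsum_eq_sum_of_fintype, ← Finset.sum_filter, Finset.sum_const, nsmul_eq_mul, mul_one]
  congr 1
  rw [← Fintype.card_subtype, ← Nat.card_eq_fintype_card]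
  exact Nat.card_congr
    { toFun := fun z => ⟨z.1.1, z.1.2, z.2⟩
      invFun := fun z => ⟨⟨z.1, z.2.1⟩, z.2.2⟩
      left_inv := fun _ => rfl
      right_inv := fun _ => rfl }

open Classical in
theorem ew1_ind (P : ∀ B : Type, SimpleGraph (Option B) → Prop) :
    ew1 (fun B G => if P B G then 1 else 0) = es1 fun B G => RR G ∧ P B G := by
  funext n
  unfold ew1 es1
  rw [finsum_ind (fun G : SimpleGraph (Option (Fin n)) => RR G) (fun G => P _ G)]

open Classical in
theorem ew2_ind (P : ∀ B : Type, SimpleGraph (B ⊕ Bool) → Prop) :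
    ew2 (fun B G => if P B G then 1 else 0) = es2 fun B G => DD G ∧ P B G := by
  funext n
  unfold ew2 es2
  rw [finsum_ind (fun G : SimpleGraph (Fin n ⊕ Bool) => DD G) (fun G => P _ G)]

open Classical in
theorem ew0_ind (P : ∀ B : Type, SimpleGraph B → Prop) :
    ew0 (fun B G => if P B G then 1 else 0) = fun n =>
      (Nat.card {G : SimpleGraph (Fin n) // IsPlanar G ∧ P _ G} : ℝ) / n.factorial := by
  funext n
  unfold ew0
  rw [finsum_ind (fun G : SimpleGraph (Fin n) => IsPlanar G) (fun G => P _ G)]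

/-! ### families of structures over a fixed graph -/

section fixed
variable {V : Type} [LinearOrder V] {X : Set V} {K : SimpleGraph X}

/-- weights of all structures -/
def wI (wv : X → ∀ B : Type, SimpleGraph (Option B) → ℝ)
    (we : K.edgeSet → ∀ B : Type, SimpleGraph (B ⊕ Bool) → ℝ)
    (w0 : ∀ B : Type, SimpleGraph B → ℝ) : ∀ (i : Idx K) (B : Type), Str K i B → ℝ
  | .inl x, B, s => wv x B s.1
  | .inr (.inl e), B, s => we e B s.1
  | .inr (.inr _), B, s => w0 B s.1

theorem str_fin : ∀ (i : Idx K) (B : Type), Finite B → Finite (Str K i B)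
  | .inl _, B, h => by
      change Finite {G : SimpleGraph (Option B) // RR G}
      infer_instance
  | .inr (.inl _), B, h => by
      change Finite {G : SimpleGraph (B ⊕ Bool) // DD G}
      infer_instance
  | .inr (.inr _), B, h => by
      change Finite {G : SimpleGraph B // IsPlanar G}
      infer_instance

private theorem comap_bij {U W : Type} (e : U ≃ W) :
    Function.Bijective (fun G : SimpleGraph W => G.comap e) := by
  constructor
  · intro G G' h
    ext x y
    have h3 : (G.comap e).Adj (e.symm x) (e.symm y) ↔ (G'.comap e).Adj (e.symm x) (e.symm y) := by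
      change G.comap e = G'.comap e at h
      rw [h]
    simpa using h3
  · intro G
    refine ⟨G.comap e.symm, ?_⟩
    ext x y
    simp

theorem wI_inv {wv : X → ∀ B : Type, SimpleGraph (Option B) → ℝ}
    {we : K.edgeSet → ∀ B : Type, SimpleGraph (B ⊕ Bool) → ℝ}
    {w0 : ∀ B : Type, SimpleGraph B → ℝ} (hv : ∀ x, IW1 (wv x)) (he : ∀ e, IW2 (we e))
    (h0 : IW0 w0) : ∀ (i : Idx K) (B : Type), Finite B →
      ∑ᶠ s : Str K i B, wI wv we w0 i B s = ∑ᶠ s : Str K i (Fin (Nat.card B)), wI wv we w0 i _ s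
  | .inl x, B, h => by
      obtain ⟨e⟩ : Nonempty (Fin (Nat.card B) ≃ B) := ⟨(Finite.equivFin B).symm⟩
      change ∑ᶠ s : {G : SimpleGraph (Option B) // RR G}, wv x B s.1 =
        ∑ᶠ s : {G : SimpleGraph (Option (Fin (Nat.card B))) // RR G}, wv x _ s.1
      have hb := comap_bij (Equiv.optionCongr e)
      refine finsum_eq_of_bijective (fun s => ⟨s.1.comap (Option.map e),
        inv_RR _ _ e s.1 s.2⟩) ⟨?_, ?_⟩ (fun s => (hv x _ _ e s.1).symm)
      · rintro ⟨G, hG⟩ ⟨G', hG'⟩ h
        have h1 : G.comap (Option.map e) = G'.comap (Option.map e) := congrArg Subtype.val h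
        have h2 : G = G' := hb.1 h1
        subst h2
        rfl
      · rintro ⟨G, hG⟩
        obtain ⟨G', hG'⟩ := hb.2 G
        have h1 : G'.comap (Option.map e) = G := hG'
        have h2 : RR G' := by
          have h3 := inv_RR _ _ e.symm G hG
          have h4 : G.comap (Option.map e.symm) = G' := by
            rw [← h1]
            ext x y
            simp
          rwa [h4] at h3
        exact ⟨⟨G', h2⟩, Subtype.ext h1⟩
  | .inr (.inl x), B, h => by
      obtain ⟨e⟩ : Nonempty (Fin (Nat.card B) ≃ B) := ⟨(Finite.equivFin B).symm⟩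
      change ∑ᶠ s : {G : SimpleGraph (B ⊕ Bool) // DD G}, we x B s.1 =
        ∑ᶠ s : {G : SimpleGraph (Fin (Nat.card B) ⊕ Bool) // DD G}, we x _ s.1
      have hb := comap_bij (Equiv.sumCongr e (Equiv.refl Bool))
      refine finsum_eq_of_bijective (fun s => ⟨s.1.comap (Sum.map e id),
        inv_DD _ _ e s.1 s.2⟩) ⟨?_, ?_⟩ (fun s => (he x _ _ e s.1).symm)
      · rintro ⟨G, hG⟩ ⟨G', hG'⟩ h
        have h1 : G.comap (Sum.map e id) = G'.comap (Sum.map e id) := congrArg Subtype.val h
        have h2 : G = G' := hb.1 h1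
        subst h2
        rfl
      · rintro ⟨G, hG⟩
        obtain ⟨G', hG'⟩ := hb.2 G
        have h1 : G'.comap (Sum.map e id) = G := hG'
        have h2 : DD G' := by
          have h3 := inv_DD _ _ e.symm G hG
          have h4 : G.comap (Sum.map e.symm id) = G' := by
            rw [← h1]
            ext x y
            simp
          rwa [h4] at h3
        exact ⟨⟨G', h2⟩, Subtype.ext h1⟩
  | .inr (.inr x), B, h => by
      obtain ⟨e⟩ : Nonempty (Fin (Nat.card B) ≃ B) := ⟨(Finite.equivFin B).symm⟩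
      change ∑ᶠ s : {G : SimpleGraph B // IsPlanar G}, w0 B s.1 =
        ∑ᶠ s : {G : SimpleGraph (Fin (Nat.card B)) // IsPlanar G}, w0 _ s.1
      have hb := comap_bij e
      refine finsum_eq_of_bijective (fun s => ⟨s.1.comap e,
        planar_comap _ e.injective s.2⟩) ⟨?_, ?_⟩ (fun s => (h0 _ _ e s.1).symm)
      · rintro ⟨G, hG⟩ ⟨G', hG'⟩ h
        have h1 : G.comap e = G'.comap e := congrArg Subtype.val h
        have h2 : G = G' := hb.1 h1
        subst h2
        rfl
      · rintro ⟨G, hG⟩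
        obtain ⟨G', hG'⟩ := hb.2 G
        have h1 : G'.comap e = G := hG'
        have h2 : IsPlanar G' := by
          have h4 : G.comap e.symm = G' := by
            rw [← h1]
            ext x y
            simp
          rw [← h4]
          exact planar_comap _ e.symm.injective hG
        exact ⟨⟨G', h2⟩, Subtype.ext h1⟩

/-- weight of a family of structures -/
noncomputable def wF [Fintype X] [Fintype K.edgeSet]
    (wv : X → ∀ B : Type, SimpleGraph (Option B) → ℝ)
    (we : K.edgeSet → ∀ B : Type, SimpleGraph (B ⊕ Bool) → ℝ)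
    (w0 : ∀ B : Type, SimpleGraph B → ℝ)
    (z : Σ f : (↥Xᶜ → Idx K), ∀ i, Str K i {a // f a = i}) : ℝ :=
  (∏ x : X, wv x _ (z.2 (.inl x)).1) * ((∏ e : K.edgeSet, we e _ (z.2 (.inr (.inl e))).1) *
    w0 _ (z.2 (.inr (.inr ()))).1)

/-- **weighted count of the families over a fixed graph**: the nonempty fibres lie over `J` -/
theorem sum_fix [Finite V] [Fintype X] [Fintype K.edgeSet] [DecidableEq X]
    {wv : X → ∀ B : Type, SimpleGraph (Option B) → ℝ}
    {we : K.edgeSet → ∀ B : Type, SimpleGraph (B ⊕ Bool) → ℝ}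
    {w0 : ∀ B : Type, SimpleGraph B → ℝ} (hv : ∀ x, IW1 (wv x)) (he : ∀ e, IW2 (we e))
    (h0 : IW0 w0) (J : Idx K → Prop) [DecidablePred J]
    (hJv : ∀ x, ¬ J (.inl x) → ew1 (wv x) 0 = 1)
    (hJe : ∀ e, ¬ J (.inr (.inl e)) → ew2 (we e) 0 = 1)
    (hJ0 : ¬ J (.inr (.inr ())) → ew0 w0 0 = 1) :
    ∑ᶠ z : {z : Σ f : (↥Xᶜ → Idx K), ∀ i, Str K i {a // f a = i} // ∀ a, J (z.1 a)},
      wF wv we w0 z.1 = ((Nat.card ↥Xᶜ).factorial : ℝ) *
        PowerSeries.coeff (Nat.card ↥Xᶜ)
          ((∏ x : X, if J (.inl x) then PowerSeries.mk (ew1 (wv x)) else 1) *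
            ((∏ e : K.edgeSet, if J (.inr (.inl e)) then PowerSeries.mk (ew2 (we e)) else 1) *
              if J (.inr (.inr ())) then PowerSeries.mk (ew0 w0) else 1)) := by
  classical
  have h := sum_fam (fun i B => Str K i B) str_fin (wI wv we w0) (wI_inv hv he h0) ↥Xᶜ J (by
    rintro (x | e | u) hJ
    · have h1 := hJv x hJ
      unfold ew1 at h1
      rw [Nat.factorial_zero, Nat.cast_one, div_one] at h1
      exact h1
    · have h1 := hJe e hJ
      unfold ew2 at h1
      rw [Nat.factorial_zero, Nat.cast_one, div_one] at h1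
      exact h1
    · have h1 := hJ0 hJ
      unfold ew0 at h1
      rw [Nat.factorial_zero, Nat.cast_one, div_one] at h1
      exact h1)
  rw [Fintype.prod_sum_type, Fintype.prod_sum_type] at h
  have h2 : ∀ z : {z : Σ f : (↥Xᶜ → Idx K), ∀ i, Str K i {a // f a = i} // ∀ a, J (z.1 a)},
      ∏ i, wI wv we w0 i _ (z.1.2 i) = wF wv we w0 z.1 := by
    intro z
    rw [Fintype.prod_sum_type, Fintype.prod_sum_type]
    unfold wF
    congr 1
    congr 1
    rw [Fintype.prod_unique]
    rfl
  rw [finsum_congr h2] at h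
  rw [h]
  congr 2
  congr 1
  congr 1
  rw [Fintype.prod_unique]
  rfl

end fixed

end Dia
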