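import Pool.Agent.Dia.MThree
import Pool.Agent.Dia.Lift

/-!
# Module MExist: existence of a core set containing the poles

`Cut3 E u v`: `u v` is an edge; the other vertices form a connected graph (`mid`, by cuts); `u` and `v` have other
neighbours; no vertex `w` separates `u` from `v` in `E` without the edge `u v` (`sep`, by cuts).

`exists_core`: induction on `|V|` (for all types).  `|V| ≥ 4`: let `a ≠ u, v` be a neighbour of `u`; `sep` with
`w = a`, `Z = {u}` gives a fourth vertex.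
If `E` is 3-connected: `X = univ` is a core set: there is no component outside, and `torso E univ` is isomorphic
to `E` (`threeConn_iso`).
Otherwise there is a `Finset` `S`, `|S| ≤ 2`, such that the graph on the complement of `S` (nonempty) is not
connected: it has two components.  There is a component which contains neither `u` nor `v` (they are adjacent,
so they are not in different components; if one of them is in `S` the other one is in at most one component).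
Let `C ⊆ V` be its set of vertices: `C` is nonempty, connected in `E`, disjoint from `S`, `u, v ∉ C`, all neighbours of
`C` outside `C` are in `S`, and there is a vertex `d ∉ C`, `d ∉ S`.  Let `S'` be the set of the elements of `S` adjacent
to `C`.
(*) `S'` contains some `s0 ∉ {u, v}`: suppose `S' ⊆ {u, v}`.  Then `mid` with `Z = C` shows that all vertices
other than `u`, `v` are in `C`; so `d = u` or `d = v`; say `d = u` (the other case is symmetric): `u ∉ S`, so `u` is not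
adjacent to `C`; but `u` has a neighbour `≠ v`, which is in `C`: contradiction.
So `S' = {p, q}` with `p ≠ q`, or `S' = {p}`; put `q = p` in this case (`SimpleGraph.edge p p = ⊥`).
Let `V1 = Cᶜ`, `E1 = (E ⊔ edge p q).induce V1`.  Claim: `Cut3 E1 u v`.
* `adj`: clear.  * `nbu`: `u` has a neighbour `a ≠ v`; if `a ∉ C` fine.  If `a ∈ C` then `u ∈ S'`, and
  `S' = {u, s0}`, so `u s0` is an edge of `E1` (`s0 ≠ u, v`).  `nbv`: the same.
* `mid`: let `Z1 ⊆ V1` be given; `Z = Z1 ∪ C` (as subsets of `V`) if `s0 ∈ Z1`, and `Z = Z1` otherwise.  `mid` for `E` gives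
  `x ∈ Z`, `y ∉ Z` adjacent.  Both not in `C`: fine.  `x ∈ C`, `y ∉ C`: `y ∈ S'`, `s0 ∈ Z1`, so `y ≠ s0`, `{p, q} = {s0, y}`:
  `s0 y` is an edge of `E1`.  `x ∉ C`, `y ∈ C`: `x ∈ S'`, `s0 ∉ Z1`, `x ≠ s0`, `x s0` is an edge of `E1`.  Both in `C` is impossible.
* `sep`: `w ∈ V1`, `w ≠ u, v`, `Z1` with `u ∈ Z1`, `v ∉ Z1`.  If `S' ⊆ {w}` put `Z = Z1`; otherwise choose `s1 ∈ S'`,
  `s1 ≠ w`, and put `Z = Z1 ∪ C` if `s1 ∈ Z1`, `Z = Z1` otherwise.  `sep` for `E` gives `x ∈ Z`, `y ∉ Z` adjacent, `≠ w`, not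
  `(u, v)`.  Both not in `C`: fine.  `x ∈ C`, `y ∉ C`: `y ∈ S'`, `y ≠ w`, `s1 ∈ Z1`, `y ≠ s1`: `s1 y` is an edge of `E1`, and
  `(s1, y) = (u, v)` would imply `S' = {u, v}`, contradiction to (*).  `x ∉ C`, `y ∈ C`: `x ∈ S'`, `x ≠ w`, so `s1`
  exists, `s1 ∉ Z1`, `x ≠ s1`, `x s1` is an edge of `E1` (and not `(u, v)`).
By induction there is a core set `X1 ⊆ V1` of `E1` containing `u`, `v`.  If `p = q`: `lift1` with `V2 = C ∪ {p}`, `c = p`.
If `p ≠ q`: `lift2` with `V2 = C ∪ {p, q}`; `p`, `q` are connected in `E.induce V2` through `C`.  (Every edge is inside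
`V1` or `V2` because the neighbours of `C` are in `C ∪ S'`.)  The core set is `Subtype.val '' X1`.

`exists_core_poles`: `E = addp G`, `u`, `v` the poles.  `mid`: the graph on `A` is connected.  `nbu`, `nbv`: `Att2`.
`sep`: `w = Sum.inl w'`; by `¬ Sep G w'` (see `hs`) there is a component of `A \ {w'}` adjacent to both poles; follow
`u, a, .., a', v`: some step leaves `Z`.
-/

set_option linter.unusedSectionVars false

namespace Dia
open PGr

structure Cut3 {V : Type} (E : SimpleGraph V) (u v : V) : Prop where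
  adj : E.Adj u v
  mid : ∀ Z : Set V, (∃ x ∈ Z, x ≠ u ∧ x ≠ v) → (∃ y, y ∉ Z ∧ y ≠ u ∧ y ≠ v) →
    ∃ x ∈ Z, ∃ y, y ∉ Z ∧ x ≠ u ∧ x ≠ v ∧ y ≠ u ∧ y ≠ v ∧ E.Adj x y
  nbu : ∃ a, a ≠ v ∧ E.Adj u a
  nbv : ∃ a, a ≠ u ∧ E.Adj v a
  sep : ∀ w, w ≠ u → w ≠ v → ∀ Z : Set V, u ∈ Z → v ∉ Z →
    ∃ x ∈ Z, ∃ y, y ∉ Z ∧ x ≠ w ∧ y ≠ w ∧ E.Adj x y ∧ ¬ (x = u ∧ y = v)

theorem MExist_card {V : Type} [Finite V] {E : SimpleGraph V} {u v : V} (h : Cut3 E u v) :
    4 ≤ Nat.card V := by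
  classical
  have := Fintype.ofFinite V
  obtain ⟨a, hav, hua⟩ := h.nbu
  obtain ⟨x, hx, y, hy, hxa, hya, hxy, hn⟩ := h.sep a hua.ne' hav {u} rfl h.adj.ne'
  obtain rfl : x = u := hx
  have hyx : y ≠ x := hy
  have hyv : y ≠ v := fun h => hn ⟨rfl, h⟩
  have h1 : ({x, v, a, y} : Finset V).card = 4 := by
    rw [Finset.card_insert_of_notMem, Finset.card_insert_of_notMem, Finset.card_insert_of_notMem,
      Finset.card_singleton]
    · simpa using hya.symm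
    · simp only [Finset.mem_insert, Finset.mem_singleton, not_or]
      exact ⟨hav.symm, hyv.symm⟩
    · simp only [Finset.mem_insert, Finset.mem_singleton, not_or]
      exact ⟨h.adj.ne, hua.ne, hyx.symm⟩
  rw [Nat.card_eq_fintype_card, ← h1]
  exact Finset.card_le_univ _

theorem MExist_univ {V : Type} [Finite V] {E : SimpleGraph V} (h : ThreeConn E) :
    IsCore E Set.univ := by
  have hno : ∀ C : OutC E Set.univ, False := by
    intro C
    induction C using SimpleGraph.ConnectedComponent.ind with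
    | _ a => exact a.2 (Set.mem_univ _)
  refine ⟨fun C => (hno C).elim, ?_⟩
  have e : torso E Set.univ ≃g E :=
    { toEquiv := Equiv.Set.univ V
      map_rel_iff' := by
        intro x y
        show E.Adj x.1 y.1 ↔ (torso E Set.univ).Adj x y
        constructor
        · intro h
          exact ⟨fun h2 => h.ne (congrArg Subtype.val h2), Or.inl h⟩
        · rintro ⟨-, h | ⟨C, -⟩⟩
          · exact h
          · exact (hno C).elim }
  exact (threeConn_iso e).2 h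

/-- A set of vertices whose neighbours are in `S` and which does not contain `u`, `v`. -/
theorem MExist_cut {V : Type} [Finite V] {E : SimpleGraph V} {u v : V} (h : Cut3 E u v)
    (hT : ¬ ThreeConn E) : ∃ (S : Finset V) (C : Set V) (c d : V), S.card ≤ 2 ∧ c ∈ C ∧ d ∉ C ∧
      d ∉ S ∧ (∀ x ∈ C, x ∉ S) ∧ u ∉ C ∧ v ∉ C ∧ (∀ x ∈ C, ∀ y, y ∉ C → E.Adj x y → y ∈ S) ∧
      ∀ V2 : Set V, C ⊆ V2 → ∀ x ∈ C, ∀ y ∈ C, ∃ hx hy, (E.induce V2).Reachable ⟨x, hx⟩ ⟨y, hy⟩ := by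
  classical
  have h4 := MExist_card h
  have h1 : ∃ S : Finset V, S.card ≤ 2 ∧ ¬ (E.induce (↑S : Set V)ᶜ).Connected := by
    by_contra hcon
    push Not at hcon
    exact hT ⟨h4, hcon⟩
  obtain ⟨S, hS, hnc⟩ := h1
  have hne : Nonempty ↥((↑S : Set V)ᶜ) := by
    by_contra hcon
    have := Fintype.ofFinite V
    have h2 : (Finset.univ : Finset V) ⊆ S := by
      intro x _
      by_contra hx
      exact hcon ⟨⟨x, hx⟩⟩
    have h3 := Finset.card_le_card h2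
    rw [Finset.card_univ, ← Nat.card_eq_fintype_card] at h3
    omega
  have h2 : ∃ a b, ¬ (E.induce (↑S : Set V)ᶜ).Reachable a b := by
    by_contra hcon
    push Not at hcon
    exact hnc ((SimpleGraph.connected_iff _).2 ⟨hcon, hne⟩)
  obtain ⟨a, b, hab⟩ := h2
  have key : ∃ c d, ¬ (E.induce (↑S : Set V)ᶜ).Reachable c d ∧
      (∀ hu, ¬ (E.induce (↑S : Set V)ᶜ).Reachable ⟨u, hu⟩ c) ∧
      (∀ hv, ¬ (E.induce (↑S : Set V)ᶜ).Reachable ⟨v, hv⟩ c) := by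
    by_cases h3 : (∀ hu, ¬ (E.induce (↑S : Set V)ᶜ).Reachable ⟨u, hu⟩ a) ∧
      (∀ hv, ¬ (E.induce (↑S : Set V)ᶜ).Reachable ⟨v, hv⟩ a)
    · exact ⟨a, b, hab, h3.1, h3.2⟩
    · refine ⟨b, a, fun h => hab h.symm, ?_, ?_⟩
      · intro hu hub
        apply h3
        refine ⟨fun hu' hua => hab (hua.symm.trans hub), fun hv hva => ?_⟩
        have h5 : (E.induce (↑S : Set V)ᶜ).Adj ⟨u, hu⟩ ⟨v, hv⟩ := h.adj
        exact hab (hva.symm.trans (h5.symm.reachable.trans hub))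
      · intro hv hvb
        apply h3
        refine ⟨fun hu hua => ?_, fun hv' hva => hab (hva.symm.trans hvb)⟩
        have h5 : (E.induce (↑S : Set V)ᶜ).Adj ⟨u, hu⟩ ⟨v, hv⟩ := h.adj
        exact hab (hua.symm.trans (h5.reachable.trans hvb))
  obtain ⟨c, d, hcd, hu, hv⟩ := key
  refine ⟨S, {x | ∃ h : x ∈ (↑S : Set V)ᶜ, (E.induce (↑S : Set V)ᶜ).Reachable ⟨x, h⟩ c}, c.1, d.1,
    hS, ⟨c.2, SimpleGraph.Reachable.refl _⟩, ?_, d.2, ?_, ?_, ?_, ?_, ?_⟩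
  · rintro ⟨_, h5⟩
    exact hcd h5.symm
  · rintro x ⟨h5, -⟩
    exact h5
  · rintro ⟨h5, h6⟩
    exact hu h5 h6
  · rintro ⟨h5, h6⟩
    exact hv h5 h6
  · rintro x ⟨h5, h6⟩ y hy hxy
    by_contra hyS
    apply hy
    have h7 : (E.induce (↑S : Set V)ᶜ).Adj ⟨x, h5⟩ ⟨y, hyS⟩ := hxy
    exact ⟨hyS, h7.symm.reachable.trans h6⟩
  · rintro V2 hV2 x hx y hy
    have hw : ∀ x y : ↥((↑S : Set V)ᶜ), (E.induce (↑S : Set V)ᶜ).Walk x y →
        (E.induce (↑S : Set V)ᶜ).Reachable x c →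
        ∃ hx hy, (E.induce V2).Reachable ⟨x.1, hx⟩ ⟨y.1, hy⟩ := by
      intro x y p
      induction p with
      | @nil x =>
        intro hxc
        exact ⟨hV2 ⟨x.2, hxc⟩, hV2 ⟨x.2, hxc⟩, SimpleGraph.Reachable.refl _⟩
      | @cons x z y hadj p ih =>
        intro hxc
        obtain ⟨h8, h9, h10⟩ := ih (hadj.symm.reachable.trans hxc)
        have h11 : x.1 ∈ V2 := hV2 ⟨x.2, hxc⟩
        have h12 : (E.induce V2).Adj ⟨x.1, h11⟩ ⟨z.1, h8⟩ := hadj
        exact ⟨h11, h9, h12.reachable.trans h10⟩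
    obtain ⟨h5, h6⟩ := hx
    obtain ⟨h7, h8⟩ := hy
    obtain ⟨p⟩ := h6.trans h8.symm
    exact hw ⟨x, h5⟩ ⟨y, h7⟩ p h6

/-- The induction step: the smaller graph satisfies the hypothesis. -/
theorem MExist_step {V : Type} {E : SimpleGraph V} {u v : V} (h : Cut3 E u v) {C : Set V}
    {p q : V} (hpC : p ∉ C) (hqC : q ∉ C) (huC : u ∉ C) (hvC : v ∉ C) (hpu : p ≠ u) (hpv : p ≠ v)
    (hN : ∀ x ∈ C, ∀ y, y ∉ C → E.Adj x y → y = p ∨ y = q)
    (hp : ∃ x ∈ C, E.Adj x p) (hq : ∃ x ∈ C, E.Adj x q) :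
    Cut3 ((E ⊔ SimpleGraph.edge p q).induce Cᶜ) ⟨u, huC⟩ ⟨v, hvC⟩ := by
  classical
  have hK : ∀ s s', (s = p ∨ s = q) → (s' = p ∨ s' = q) → s ≠ s' →
      (E ⊔ SimpleGraph.edge p q).Adj s s' := by
    intro s s' h1 h2 hne
    refine Or.inr ?_
    rw [SimpleGraph.edge_adj]
    refine ⟨?_, hne⟩
    rcases h1 with rfl | rfl <;> rcases h2 with rfl | rfl
    · exact absurd rfl hne
    · exact Or.inl ⟨rfl, rfl⟩
    · exact Or.inr ⟨rfl, rfl⟩
    · exact absurd rfl hne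
  -- no edge `u v` appears
  have hnuv : ∀ s s', (s = p ∨ s = q) → (s' = p ∨ s' = q) → ¬ (s = u ∧ s' = v) := by
    rintro s s' h1 h2 ⟨rfl, rfl⟩
    rcases h1 with rfl | rfl
    · exact hpu rfl
    · rcases h2 with rfl | rfl
      · exact hpv rfl
      · exact h.adj.ne rfl
  refine ⟨Or.inl h.adj, ?_, ?_, ?_, ?_⟩
  · -- mid
    rintro Z1 ⟨x0, hx0, hx0u, hx0v⟩ ⟨y0, hy0, hy0u, hy0v⟩
    let Z : Set V := {x | (∃ h : x ∈ Cᶜ, (⟨x, h⟩ : ↥Cᶜ) ∈ Z1) ∨ (x ∈ C ∧ (⟨p, hpC⟩ : ↥Cᶜ) ∈ Z1)}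
    have hZ1 : ∀ (x : V) (h : x ∈ Cᶜ), x ∈ Z ↔ (⟨x, h⟩ : ↥Cᶜ) ∈ Z1 := by
      intro x h
      exact ⟨fun h2 => h2.elim (fun ⟨_, h3⟩ => h3) (fun h3 => absurd h3.1 h),
        fun h2 => Or.inl ⟨h, h2⟩⟩
    have hZ2 : ∀ x ∈ C, x ∈ Z ↔ (⟨p, hpC⟩ : ↥Cᶜ) ∈ Z1 := by
      intro x h
      exact ⟨fun h2 => h2.elim (fun ⟨h4, _⟩ => absurd h h4) (fun h3 => h3.2),
        fun h2 => Or.inr ⟨h, h2⟩⟩
    obtain ⟨x, hx, y, hy, hxu, hxv, hyu, hyv, hxy⟩ := h.mid Z
      ⟨x0.1, (hZ1 _ x0.2).2 hx0, fun h => hx0u (Subtype.ext h), fun h => hx0v (Subtype.ext h)⟩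
      ⟨y0.1, fun h => hy0 ((hZ1 _ y0.2).1 h), fun h => hy0u (Subtype.ext h),
        fun h => hy0v (Subtype.ext h)⟩
    have hval : ∀ {x w : V} (hx : x ∈ Cᶜ) (hw : w ∈ Cᶜ), x ≠ w → (⟨x, hx⟩ : ↥Cᶜ) ≠ ⟨w, hw⟩ :=
      fun _ _ h1 h2 => h1 (congrArg Subtype.val h2)
    by_cases hxC : x ∈ C
    · by_cases hyC : y ∈ C
      · exact absurd ((hZ2 y hyC).2 ((hZ2 x hxC).1 hx)) hy
      · have h1 := hN x hxC y hyC hxy
        have h2 := (hZ2 x hxC).1 hx
        have h3 : p ≠ y := by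
          rintro rfl
          exact hy ((hZ1 _ hyC).2 h2)
        exact ⟨⟨p, hpC⟩, h2, ⟨y, hyC⟩, fun h4 => hy ((hZ1 y hyC).2 h4), hval hpC huC hpu,
          hval hpC hvC hpv, hval hyC huC hyu, hval hyC hvC hyv, hK _ _ (Or.inl rfl) h1 h3⟩
    · by_cases hyC : y ∈ C
      · have h1 := hN y hyC x hxC hxy.symm
        have h2 : (⟨p, hpC⟩ : ↥Cᶜ) ∉ Z1 := fun h4 => hy ((hZ2 y hyC).2 h4)
        have h3 : x ≠ p := by
          rintro rfl
          exact h2 ((hZ1 _ hxC).1 hx)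
        exact ⟨⟨x, hxC⟩, (hZ1 x hxC).1 hx, ⟨p, hpC⟩, h2, hval hxC huC hxu, hval hxC hvC hxv,
          hval hpC huC hpu, hval hpC hvC hpv, hK _ _ h1 (Or.inl rfl) h3⟩
      · exact ⟨⟨x, hxC⟩, (hZ1 x hxC).1 hx, ⟨y, hyC⟩, fun h4 => hy ((hZ1 y hyC).2 h4),
          hval hxC huC hxu, hval hxC hvC hxv, hval hyC huC hyu, hval hyC hvC hyv, Or.inl hxy⟩
  · obtain ⟨a, hav, hua⟩ := h.nbu
    by_cases haC : a ∈ C
    · have h1 := hN a haC u huC hua.symm
      exact ⟨⟨p, hpC⟩, fun h2 => hpv (congrArg Subtype.val h2), hK _ _ h1 (Or.inl rfl) hpu.symm⟩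
    · exact ⟨⟨a, haC⟩, fun h2 => hav (congrArg Subtype.val h2), Or.inl hua⟩
  · obtain ⟨a, hau, hva⟩ := h.nbv
    by_cases haC : a ∈ C
    · have h1 := hN a haC v hvC hva.symm
      exact ⟨⟨p, hpC⟩, fun h2 => hpu (congrArg Subtype.val h2), hK _ _ h1 (Or.inl rfl) hpv.symm⟩
    · exact ⟨⟨a, haC⟩, fun h2 => hau (congrArg Subtype.val h2), Or.inl hva⟩
  · -- sep
    intro w hwu hwv Z1 huZ hvZ
    have hwu' : w.1 ≠ u := fun h => hwu (Subtype.ext h)
    have hwv' : w.1 ≠ v := fun h => hwv (Subtype.ext h)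
    have hval : ∀ {x w : V} (hx : x ∈ Cᶜ) (hw : w ∈ Cᶜ), x ≠ w → (⟨x, hx⟩ : ↥Cᶜ) ≠ ⟨w, hw⟩ :=
      fun _ _ h1 h2 => h1 (congrArg Subtype.val h2)
    have hnv : ∀ {x y : V} (hx : x ∈ Cᶜ) (hy : y ∈ Cᶜ), ¬ (x = u ∧ y = v) →
        ¬ ((⟨x, hx⟩ : ↥Cᶜ) = ⟨u, huC⟩ ∧ (⟨y, hy⟩ : ↥Cᶜ) = ⟨v, hvC⟩) :=
      fun _ _ h1 h2 => h1 ⟨congrArg Subtype.val h2.1, congrArg Subtype.val h2.2⟩
    by_cases hs : ∃ s1, (s1 = p ∨ s1 = q) ∧ s1 ≠ w.1
    · obtain ⟨s1, hs1, hs1w⟩ := hs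
      have hsC : s1 ∈ Cᶜ := by
        rcases hs1 with rfl | rfl
        · exact hpC
        · exact hqC
      let Z : Set V := {x | (∃ h : x ∈ Cᶜ, (⟨x, h⟩ : ↥Cᶜ) ∈ Z1) ∨ (x ∈ C ∧ (⟨s1, hsC⟩ : ↥Cᶜ) ∈ Z1)}
      have hZ1 : ∀ (x : V) (h : x ∈ Cᶜ), x ∈ Z ↔ (⟨x, h⟩ : ↥Cᶜ) ∈ Z1 := by
        intro x h
        exact ⟨fun h2 => h2.elim (fun ⟨_, h3⟩ => h3) (fun h3 => absurd h3.1 h),
          fun h2 => Or.inl ⟨h, h2⟩⟩
      have hZ2 : ∀ x ∈ C, x ∈ Z ↔ (⟨s1, hsC⟩ : ↥Cᶜ) ∈ Z1 := by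
        intro x h
        exact ⟨fun h2 => h2.elim (fun ⟨h4, _⟩ => absurd h h4) (fun h3 => h3.2),
          fun h2 => Or.inr ⟨h, h2⟩⟩
      obtain ⟨x, hx, y, hy, hxw, hyw, hxy, hn⟩ := h.sep w.1 hwu' hwv' Z
        ((hZ1 u huC).2 huZ) (fun h2 => hvZ ((hZ1 v hvC).1 h2))
      by_cases hxC : x ∈ C
      · by_cases hyC : y ∈ C
        · exact absurd ((hZ2 y hyC).2 ((hZ2 x hxC).1 hx)) hy
        · have h1 := hN x hxC y hyC hxy
          have h2 := (hZ2 x hxC).1 hx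
          have h3 : s1 ≠ y := by
            rintro rfl
            exact hy ((hZ1 _ hyC).2 h2)
          exact ⟨⟨s1, hsC⟩, h2, ⟨y, hyC⟩, fun h4 => hy ((hZ1 y hyC).2 h4), hval hsC w.2 hs1w,
            hval hyC w.2 hyw, hK _ _ hs1 h1 h3, hnv hsC hyC (hnuv _ _ hs1 h1)⟩
      · by_cases hyC : y ∈ C
        · have h1 := hN y hyC x hxC hxy.symm
          have h2 : (⟨s1, hsC⟩ : ↥Cᶜ) ∉ Z1 := fun h4 => hy ((hZ2 y hyC).2 h4)
          have h3 : x ≠ s1 := by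
            rintro rfl
            exact h2 ((hZ1 _ hxC).1 hx)
          exact ⟨⟨x, hxC⟩, (hZ1 x hxC).1 hx, ⟨s1, hsC⟩, h2, hval hxC w.2 hxw, hval hsC w.2 hs1w,
            hK _ _ h1 hs1 h3, hnv hxC hsC (hnuv _ _ h1 hs1)⟩
        · exact ⟨⟨x, hxC⟩, (hZ1 x hxC).1 hx, ⟨y, hyC⟩, fun h4 => hy ((hZ1 y hyC).2 h4),
            hval hxC w.2 hxw, hval hyC w.2 hyw, Or.inl hxy, hnv hxC hyC hn⟩
    · push Not at hs
      let Z : Set V := {x | ∃ h : x ∈ Cᶜ, (⟨x, h⟩ : ↥Cᶜ) ∈ Z1}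
      obtain ⟨x, ⟨hxC, hx⟩, y, hy, hxw, hyw, hxy, hn⟩ := h.sep w.1 hwu' hwv' Z
        ⟨huC, huZ⟩ (fun ⟨_, h2⟩ => hvZ h2)
      by_cases hyC : y ∈ C
      · exact absurd (hs x (hN y hyC x hxC hxy.symm)) hxw
      · exact ⟨⟨x, hxC⟩, hx, ⟨y, hyC⟩, fun h4 => hy ⟨hyC, h4⟩,
          hval hxC w.2 hxw, hval hyC w.2 hyw, Or.inl hxy, hnv hxC hyC hn⟩

theorem MExist_ind (n : ℕ) : ∀ {V : Type} [Finite V] (E : SimpleGraph V) (u v : V),
    Nat.card V = n → Cut3 E u v → ∃ X, IsCore E X ∧ u ∈ X ∧ v ∈ X := by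
  induction n using Nat.strong_induction_on with
  | _ n ih =>
  intro V _ E u v hn h
  classical
  by_cases hT : ThreeConn E
  · exact ⟨Set.univ, MExist_univ hT, Set.mem_univ _, Set.mem_univ _⟩
  obtain ⟨S, C, c, d, hS, hc, hd, hdS, hCS, huC, hvC, hN, hcon⟩ := MExist_cut h hT
  -- the vertex `p`
  have hstar : ∃ p ∈ S, (∃ x ∈ C, E.Adj x p) ∧ p ≠ u ∧ p ≠ v := by
    by_contra hno
    push Not at hno
    have hall : ∀ y, y ∉ C → y = u ∨ y = v := by
      intro y hy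
      by_contra hyuv
      push Not at hyuv
      obtain ⟨x', hx', y', hy', -, -, hyu', hyv', hxy'⟩ := h.mid C
        ⟨c, hc, fun h2 => huC (h2 ▸ hc), fun h2 => hvC (h2 ▸ hc)⟩ ⟨y, hy, hyuv.1, hyuv.2⟩
      exact hyv' (hno y' (hN x' hx' y' hy' hxy') ⟨x', hx', hxy'⟩ hyu')
    rcases hall d hd with rfl | rfl
    · obtain ⟨a, hav, hua⟩ := h.nbu
      have haC : a ∈ C := by
        by_contra haC
        rcases hall a haC with rfl | rfl
        · exact hua.ne rfl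
        · exact hav rfl
      exact hdS (hN a haC _ huC hua.symm)
    · obtain ⟨a, hau, hva⟩ := h.nbv
      have haC : a ∈ C := by
        by_contra haC
        rcases hall a haC with rfl | rfl
        · exact hau rfl
        · exact hva.ne rfl
      exact hdS (hN a haC _ hvC hva.symm)
  obtain ⟨p, hpS, hpx, hpu, hpv⟩ := hstar
  have hq : ∃ q ∈ S, (∃ x ∈ C, E.Adj x q) ∧
      ∀ s ∈ S, (∃ x ∈ C, E.Adj x s) → s = p ∨ s = q := by
    by_cases h1 : ∃ q ∈ S, (∃ x ∈ C, E.Adj x q) ∧ q ≠ p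
    · obtain ⟨q, hqS, hqx, hqp⟩ := h1
      refine ⟨q, hqS, hqx, fun s hs _ => ?_⟩
      by_contra hspq
      push Not at hspq
      have h2 : ({p, q, s} : Finset V) ⊆ S := by
        intro x hx
        simp only [Finset.mem_insert, Finset.mem_singleton] at hx
        rcases hx with rfl | rfl | rfl <;> assumption
      have h3 : ({p, q, s} : Finset V).card = 3 := by
        rw [Finset.card_insert_of_notMem, Finset.card_insert_of_notMem, Finset.card_singleton]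
        · simpa using hspq.2.symm
        · simp only [Finset.mem_insert, Finset.mem_singleton, not_or]
          exact ⟨hqp.symm, hspq.1.symm⟩
      have h4 := Finset.card_le_card h2
      omega
    · push Not at h1
      exact ⟨p, hpS, hpx, fun s hs hsx => Or.inl (h1 s hs hsx)⟩
  obtain ⟨q, hqS, hqx, hpq⟩ := hq
  have hpC : p ∉ C := fun h2 => hCS p h2 hpS
  have hqC : q ∉ C := fun h2 => hCS q h2 hqS
  have hN' : ∀ x ∈ C, ∀ y, y ∉ C → E.Adj x y → y = p ∨ y = q :=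
    fun x hx y hy hxy => hpq y (hN x hx y hy hxy) ⟨x, hx, hxy⟩
  have hstep := MExist_step h hpC hqC huC hvC hpu hpv hN' hpx hqx
  have hlt : Nat.card ↥(Cᶜ) < n := by
    rw [← hn]
    exact Finite.card_subtype_lt (x := c) (fun h2 => h2 hc)
  obtain ⟨X1, hX1, hu1, hv1⟩ := ih _ hlt _ _ _ rfl hstep
  have hE : ∀ (V2 : Set V), C ⊆ V2 → p ∈ V2 → q ∈ V2 → ∀ x y, E.Adj x y →
      (x ∈ Cᶜ ∧ y ∈ Cᶜ) ∨ (x ∈ V2 ∧ y ∈ V2) := by
    intro V2 hC2 hp2 hq2 x y hxy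
    by_cases hxC : x ∈ C
    · refine Or.inr ⟨hC2 hxC, ?_⟩
      by_cases hyC : y ∈ C
      · exact hC2 hyC
      · rcases hN' x hxC y hyC hxy with rfl | rfl
        · exact hp2
        · exact hq2
    · by_cases hyC : y ∈ C
      · refine Or.inr ⟨?_, hC2 hyC⟩
        rcases hN' y hyC x hxC hxy.symm with rfl | rfl
        · exact hp2
        · exact hq2
      · exact Or.inl ⟨hxC, hyC⟩
  refine ⟨Subtype.val '' X1, ?_, ⟨_, hu1, rfl⟩, ⟨_, hv1, rfl⟩⟩
  by_cases hne : p = q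
  · subst hne
    rw [SimpleGraph.edge_self_eq_bot, sup_bot_eq] at hX1
    refine (lift1 Cᶜ (C ∪ {p}) p ?_ ?_ (hE _ Set.subset_union_left (by simp) (by simp)) X1 hX1).1
    · rw [← Set.union_assoc, Set.compl_union_self, Set.univ_union]
    · rintro x ⟨h1, h2 | h2⟩
      · exact absurd h2 h1
      · exact h2
  · obtain ⟨x, hx, hxp⟩ := hpx
    obtain ⟨y, hy, hyq⟩ := hqx
    have hpV : p ∈ C ∪ {p, q} := Or.inr (by simp)
    have hqV : q ∈ C ∪ {p, q} := Or.inr (by simp)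
    obtain ⟨hx2, hy2, hxy⟩ := hcon (C ∪ {p, q}) Set.subset_union_left x hx y hy
    have h1 : (E.induce (C ∪ {p, q})).Adj ⟨p, hpV⟩ ⟨x, hx2⟩ := hxp.symm
    have h2 : (E.induce (C ∪ {p, q})).Adj ⟨y, hy2⟩ ⟨q, hqV⟩ := hyq
    refine (lift2 Cᶜ (C ∪ {p, q}) p q hne ?_ ?_ (hE _ Set.subset_union_left hpV hqV) hpV hqV
      (h1.reachable.trans (hxy.trans h2.reachable)) X1 hX1).1
    · rw [← Set.union_assoc, Set.compl_union_self, Set.univ_union]
    · ext z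
      constructor
      · rintro ⟨h3, h4 | h4⟩
        · exact absurd h4 h3
        · exact h4
      · rintro (rfl | rfl)
        · exact ⟨hpC, hpV⟩
        · exact ⟨hqC, hqV⟩

theorem exists_core {V : Type} [Finite V] (E : SimpleGraph V) (u v : V) (h : Cut3 E u v) :
    ∃ X, IsCore E X ∧ u ∈ X ∧ v ∈ X := by
  exact MExist_ind _ E u v rfl h

theorem exists_core_poles {A : Type} [Finite A] (G : SimpleGraph (A ⊕ Bool))
    (hc : (G.comap Sum.inl).Connected) (h2 : Att2 G)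
    (hs : ∀ w : A, ∃ C : ((G.comap Sum.inl).induce ({w}ᶜ : Set A)).ConnectedComponent,
      (∃ a ∈ C.supp, G.Adj (Sum.inl a.1) (Sum.inr false)) ∧
      ∃ a ∈ C.supp, G.Adj (Sum.inl a.1) (Sum.inr true)) :
    ∃ X, IsCore (addp G) X ∧ ∀ b, Sum.inr b ∈ X := by
  have hne : Nonempty A := hc.nonempty
  have hnb : ∀ b : Bool, ∃ a : A, G.Adj (Sum.inl a) (Sum.inr b) := by
    intro b
    obtain ⟨a0⟩ := hne
    obtain ⟨a, -, ha⟩ := h2 ((G.comap Sum.inl).connectedComponentMk a0) b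
    exact ⟨a, ha⟩
  have hcut : Cut3 (addp G) (Sum.inr false) (Sum.inr true) := by
    refine ⟨?_, ?_, ?_, ?_, ?_⟩
    · refine Or.inr ?_
      rw [SimpleGraph.edge_adj]
      exact ⟨Or.inl ⟨rfl, rfl⟩, by simp⟩
    · rintro Z ⟨x, hx, hxu, hxv⟩ ⟨y, hy, hyu, hyv⟩
      rcases x with a | b
      · rcases y with a' | b
        · obtain ⟨p⟩ := hc.preconnected a a'
          obtain ⟨d, -, hd1, hd2⟩ := p.exists_boundary_dart {c | Sum.inl c ∈ Z} hx hy
          exact ⟨Sum.inl d.fst, hd1, Sum.inl d.snd, hd2, by simp, by simp, by simp, by simp,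
            Or.inl d.adj⟩
        · cases b
          · exact absurd rfl hyu
          · exact absurd rfl hyv
      · cases b
        · exact absurd rfl hxu
        · exact absurd rfl hxv
    · obtain ⟨a, ha⟩ := hnb false
      exact ⟨Sum.inl a, by simp, Or.inl ha.symm⟩
    · obtain ⟨a, ha⟩ := hnb true
      exact ⟨Sum.inl a, by simp, Or.inl ha.symm⟩
    · intro w hwu hwv Z hu hv
      rcases w with w | b
      · obtain ⟨C, ⟨a, ha, hau⟩, ⟨a', ha', hav⟩⟩ := hs w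
        by_cases h3 : (Sum.inl a.1 : A ⊕ Bool) ∈ Z
        · by_cases h4 : (Sum.inl a'.1 : A ⊕ Bool) ∈ Z
          · refine ⟨_, h4, _, hv, ?_, by simp, Or.inl hav, by simp⟩
            intro h5
            exact a'.2 (Sum.inl_injective h5)
          · have h5 : ((G.comap Sum.inl).induce ({w}ᶜ : Set A)).Reachable a a' :=
              SimpleGraph.ConnectedComponent.exact (Eq.trans ha (Eq.symm ha'))
            obtain ⟨p⟩ := h5
            obtain ⟨d, -, hd1, hd2⟩ := p.exists_boundary_dart {c | Sum.inl c.1 ∈ Z} h3 h4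
            refine ⟨Sum.inl d.fst.1, hd1, Sum.inl d.snd.1, hd2, ?_, ?_, Or.inl d.adj, by simp⟩
            · intro h6
              exact d.fst.2 (Sum.inl_injective h6)
            · intro h6
              exact d.snd.2 (Sum.inl_injective h6)
        · refine ⟨_, hu, _, h3, by simp, ?_, Or.inl hau.symm, by simp⟩
          intro h6
          exact a.2 (Sum.inl_injective h6)
      · cases b
        · exact absurd rfl hwu
        · exact absurd rfl hwv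
  obtain ⟨X, hX, h3, h4⟩ := exists_core (addp G) _ _ hcut
  refine ⟨X, hX, fun b => ?_⟩
  cases b
  · exact h3
  · exact h4

end Dia
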