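import Pool.Agent.Dia.MThree

/-!
# Module MUniq: two core sets have at most two common vertices

`core_side`: `X` core set, `C` a set of vertices all whose outer neighbours are `p` or `q`, `p, q ∉ C`.  If `X` meets
`C` then `X ⊆ C ∪ {p, q}`.
Proof: let `x0 ∈ X ∩ C` and suppose `y0 ∈ X`, `y0 ∉ C ∪ {p, q}`.  Let `K = torso E X` (3-connected),
`Y = {x : X | x.1 ∈ C}`, `S = {x : X | x.1 = p ∨ x.1 = q}`, and let `F` be the set of the pairs `s(a, b) : Sym2 X`, `a ≠ b`,
for which there is `r : ↥Xᶜ` with `r.1 = p ∨ r.1 = q` and `att E X (cmp E X r) = {a, b}`.  Each of `p`, `q` which is in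
`X` gives one element of `S`, each of the two which is not in `X` gives at most one element of `F` (the
attachment set determines the pair), so `|S| + |F| ≤ 2`.  (Write `S ⊆ S_p ∪ S_q`, `F ⊆ F_p ∪ F_q` with
`|S_r| + |F_r| ≤ 1` for `r = p, q`.)  `three_cut` gives `x ∈ Y \ S`, `y ∈ Yᶜ \ S`, `K.Adj x y`, `s(x, y) ∉ F`.
If `E.Adj x y`: `x ∈ C`, so `y ∈ C` or `y = p` or `y = q`, contradiction.  Otherwise (`torso_adj`) there is `a : ↥Xᶜ` with
`att E X (cmp E X a) = {x, y}`.  By `mem_att` there are `b`, `b'` connected to `a` outside `X` with `E.Adj x b`,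
`E.Adj y b'`.  No vertex `r` of this component is `p` or `q`: otherwise `s(x, y) ∈ F` because
`cmp E X r = cmp E X a`.  `b ∈ C` because `x ∈ C` and `b ≠ p, q`; walking from `b` to `b'` in the component we stay in
`C`; so `b' ∈ C` and hence `y ∈ C` or `y = p` or `y = q`: contradiction.

`core_inter`: `X ≠ X'`, so (by symmetry) there is `x ∈ X' \ X`.  Let `C` be the set of the vertices of the component
of `x` in `V \ X`; its outer neighbours are in `X` and are attachments, so they are in `{p, q} ⊆ X`.  `core_side`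
for `X'`: `X' ⊆ C ∪ {p, q}`, so `X ∩ X' ⊆ {p, q}`.

`core_pole_unique`: `E = addp G`, both core sets contain the poles `u`, `v`; suppose `X ≠ X'` and let, by symmetry,
`x ∈ X' \ X`.  As before `X' ⊆ C ∪ {p, q}`; `u, v ∈ X' ∩ X` so `u, v ∈ {p, q}`, `{p, q} = {u, v}`: the outer neighbours
of `C` are poles.  `C` contains an internal vertex (`x` is not a pole because the poles are in `X`) and `G` is
connected on the internal vertices, and edges of `G` between internal vertices are edges of `addp G`: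
so `C` contains all internal vertices, and `X ⊆ {u, v}`, contradiction to `4 ≤ |X|` (`ThreeConn`).
-/

set_option linter.unusedSectionVars false

namespace Dia
open PGr

variable {V : Type} [Finite V] {E : SimpleGraph V}

private theorem MUniq_bd {V : Type} {G : SimpleGraph V} (P : V → Prop) {u v : V}
    (h : G.Reachable u v) (hu : P u) (hv : ¬ P v) : ∃ x y, P x ∧ ¬ P y ∧ G.Adj x y := by
  obtain ⟨p⟩ := h
  induction p with
  | nil => exact absurd hu hv
  | @cons a b c hadj _ ih =>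
    by_cases hb : P b
    · exact ih hb hv
    · exact ⟨a, b, hu, hb, hadj⟩

private theorem MUniq_mem_att {E : SimpleGraph V} {X : Set V} (a : ↥Xᶜ) (x : X) :
    x ∈ att E X (cmp E X a) ↔ ∃ b : ↥Xᶜ, (E.induce Xᶜ).Reachable b a ∧ E.Adj x.1 b.1 := by
  constructor
  · rintro ⟨b, hb, h⟩
    exact ⟨b, SimpleGraph.ConnectedComponent.eq.1 hb, h⟩
  · rintro ⟨b, hb, h⟩
    exact ⟨b, SimpleGraph.ConnectedComponent.eq.2 hb, h⟩

private theorem MUniq_torso {E : SimpleGraph V} {X : Set V} {x y : X}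
    (h : (torso E X).Adj x y) : E.Adj x.1 y.1 ∨ ∃ a : ↥Xᶜ, att E X (cmp E X a) = {x, y} := by
  obtain ⟨-, h1 | ⟨C, hC⟩⟩ := h
  · exact Or.inl h1
  · right
    induction C using SimpleGraph.ConnectedComponent.ind with
    | _ a => exact ⟨a, hC⟩

/-- the vertex `r` as an element of `X` and the pair separated by its component -/
private theorem MUniq_count (X : Set V) (r : V) :
    ({x : X | x.1 = r}).ncard + ({s : Sym2 X | ∃ a b, s = s(a, b) ∧ ∃ h : r ∈ Xᶜ,
      att E X (cmp E X ⟨r, h⟩) = {a, b}}).ncard ≤ 1 := by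
  by_cases hr : r ∈ X
  · have h1 : ({s : Sym2 X | ∃ a b, s = s(a, b) ∧ ∃ h : r ∈ Xᶜ,
        att E X (cmp E X ⟨r, h⟩) = {a, b}}) = ∅ := by
      ext s
      refine iff_of_false ?_ (Set.notMem_empty _)
      rintro ⟨_, _, _, h, _⟩
      exact h hr
    have h2 : ({x : X | x.1 = r}) ⊆ {⟨r, hr⟩} := by
      intro x hx
      exact Subtype.ext hx
    have h3 := Set.ncard_le_ncard h2 (Set.toFinite _)
    rw [Set.ncard_singleton] at h3
    rw [h1, Set.ncard_empty]
    omega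
  · have h1 : ({x : X | x.1 = r}) = ∅ := by
      ext x
      refine iff_of_false ?_ (Set.notMem_empty _)
      intro hx
      exact hr (hx ▸ x.2)
    rw [h1, Set.ncard_empty, zero_add]
    rw [Set.ncard_le_one_iff]
    rintro s s' ⟨a, b, rfl, _, h2⟩ ⟨a', b', rfl, _, h3⟩
    apply Sym2.ext
    intro x
    rw [Sym2.mem_iff, Sym2.mem_iff]
    have h4 : x ∈ ({a, b} : Set X) ↔ x ∈ ({a', b'} : Set X) := by rw [← h2, ← h3]
    simpa using h4

theorem core_side {X : Set V} (hX : IsCore E X) (C : Set V) (p q : V) (hp : p ∉ C) (hq : q ∉ C)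
    (hC : ∀ x y, x ∈ C → E.Adj x y → y ∈ C ∨ y = p ∨ y = q) (h : (X ∩ C).Nonempty) :
    X ⊆ C ∪ {p, q} := by
  by_contra hcon
  rw [Set.not_subset] at hcon
  obtain ⟨y0, hy0, hy0'⟩ := hcon
  rw [Set.mem_union, Set.mem_insert_iff, Set.mem_singleton_iff, not_or, not_or] at hy0'
  obtain ⟨x0, hx0, hx0C⟩ := h
  set Sr : V → Set X := fun r => {x : X | x.1 = r} with hSr
  set Fr : V → Set (Sym2 X) := fun r => {s : Sym2 X | ∃ a b, s = s(a, b) ∧ ∃ h : r ∈ Xᶜ,
      att E X (cmp E X ⟨r, h⟩) = {a, b}} with hFr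
  have hcount : (Sr p ∪ Sr q).ncard + (Fr p ∪ Fr q).ncard ≤ 2 := by
    have h1 := Set.ncard_union_le (Sr p) (Sr q)
    have h2 := Set.ncard_union_le (Fr p) (Fr q)
    have h3 : (Sr p).ncard + (Fr p).ncard ≤ 1 := MUniq_count (E := E) X p
    have h4 : (Sr q).ncard + (Fr q).ncard ≤ 1 := MUniq_count (E := E) X q
    omega
  have hnotS : ∀ x : X, x ∉ Sr p ∪ Sr q ↔ x.1 ≠ p ∧ x.1 ≠ q := by
    intro x
    rw [Set.mem_union, not_or]
    exact Iff.rfl
  obtain ⟨x, hx, y, hy, hadj, hF⟩ := three_cut hX.three (Sr p ∪ Sr q) (Fr p ∪ Fr q) hcount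
    {x : X | x.1 ∈ C}
    ⟨⟨x0, hx0⟩, hx0C, (hnotS _).2 ⟨fun h => hp (h ▸ hx0C), fun h => hq (h ▸ hx0C)⟩⟩
    ⟨⟨y0, hy0⟩, hy0'.1, (hnotS _).2 hy0'.2⟩
  have hxC : x.1 ∈ C := hx.1
  have hyC : y.1 ∉ C := hy.1
  have hyS := (hnotS y).1 hy.2
  have hout : ∀ u, u ∈ C → ¬ E.Adj u y.1 := by
    intro u hu huy
    rcases hC u y.1 hu huy with h1 | h1 | h1
    · exact hyC h1
    · exact hyS.1 h1
    · exact hyS.2 h1
  rcases MUniq_torso hadj with h1 | ⟨a, ha⟩
  · exact hout _ hxC h1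
  · have hcomp : ∀ r : ↥Xᶜ, (E.induce Xᶜ).Reachable r a → r.1 ≠ p ∧ r.1 ≠ q := by
      intro r hr
      have h2 : cmp E X r = cmp E X a := SimpleGraph.ConnectedComponent.eq.2 hr
      have h3 : ∀ z : V, r.1 = z → s(x, y) ∈ Fr z := by
        rintro z rfl
        exact ⟨x, y, rfl, r.2, by rw [← ha, ← h2]⟩
      exact ⟨fun h4 => hF (Or.inl (h3 p h4)), fun h4 => hF (Or.inr (h3 q h4))⟩
    obtain ⟨b, hb, hxb⟩ := (MUniq_mem_att a x).1 (by rw [ha]; exact Set.mem_insert _ _)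
    obtain ⟨b', hb', hyb⟩ := (MUniq_mem_att a y).1 (by
      rw [ha]; exact Set.mem_insert_of_mem _ rfl)
    have hbC : b.1 ∈ C := by
      rcases hC x.1 b.1 hxC hxb with h2 | h2 | h2
      · exact h2
      · exact absurd h2 (hcomp b hb).1
      · exact absurd h2 (hcomp b hb).2
    have hb'C : b'.1 ∈ C := by
      by_contra h2
      obtain ⟨u, v, hu, hv, huv⟩ := MUniq_bd (G := E.induce Xᶜ)
        (fun z => z.1 ∈ C ∧ (E.induce Xᶜ).Reachable z a) (hb.trans hb'.symm) ⟨hbC, hb⟩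
        (fun h3 => h2 h3.1)
      have hva : (E.induce Xᶜ).Reachable v a := huv.symm.reachable.trans hu.2
      rcases hC u.1 v.1 hu.1 huv with h3 | h3 | h3
      · exact hv ⟨h3, hva⟩
      · exact (hcomp v hva).1 h3
      · exact (hcomp v hva).2 h3
    exact hout _ hb'C hyb.symm

/-- the component of a vertex of `X'` outside `X` -/
private theorem MUniq_comp {X X' : Set V} (hX : IsCore E X) (hX' : IsCore E X') {x : V}
    (hx' : x ∈ X') (hx : x ∉ X) : ∃ (C : Set V) (p q : V), x ∈ C ∧ (∀ v ∈ C, v ∉ X) ∧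
      (∀ u v, u ∈ C → E.Adj u v → v ∈ C ∨ v = p ∨ v = q) ∧ X' ⊆ C ∪ {p, q} := by
  obtain ⟨a, b, hab⟩ := hX.att2 (cmp E X ⟨x, hx⟩)
  set C : Set V := {v | ∃ h : v ∈ Xᶜ, (E.induce Xᶜ).Reachable ⟨v, h⟩ ⟨x, hx⟩} with hCd
  have h1 : x ∈ C := ⟨hx, SimpleGraph.Reachable.refl _⟩
  have h2 : ∀ v ∈ C, v ∉ X := fun v hv => hv.1
  have h3 : ∀ u v, u ∈ C → E.Adj u v → v ∈ C ∨ v = a.1 ∨ v = b.1 := by
    rintro u v ⟨hu, hur⟩ huv
    by_cases hv : v ∈ X
    · right
      have h4 : (⟨v, hv⟩ : X) ∈ att E X (cmp E X ⟨x, hx⟩) :=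
        (MUniq_mem_att _ _).2 ⟨⟨u, hu⟩, hur, huv.symm⟩
      rcases hab h4 with h5 | h5
      · exact Or.inl (congrArg Subtype.val h5)
      · exact Or.inr (congrArg Subtype.val h5)
    · left
      refine ⟨hv, SimpleGraph.Reachable.trans ?_ hur⟩
      apply SimpleGraph.Adj.reachable
      exact huv.symm
  refine ⟨C, a.1, b.1, h1, h2, h3, ?_⟩
  exact core_side hX' C a.1 b.1 (fun h => h2 _ h a.2) (fun h => h2 _ h b.2) h3 ⟨x, hx', h1⟩

private theorem MUniq_inter {X X' : Set V} (hX : IsCore E X) (hX' : IsCore E X') {x : V}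
    (hx' : x ∈ X') (hx : x ∉ X) : (X ∩ X').ncard ≤ 2 := by
  obtain ⟨C, p, q, -, h2, -, h4⟩ := MUniq_comp hX hX' hx' hx
  have h5 : X ∩ X' ⊆ {p, q} := by
    rintro z ⟨hz, hz'⟩
    rcases h4 hz' with h6 | h6
    · exact absurd hz (h2 z h6)
    · exact h6
  have h6 := Set.ncard_le_ncard h5 (Set.toFinite _)
  have h7 := Set.ncard_insert_le p ({q} : Set V)
  rw [Set.ncard_singleton] at h7
  omega

private theorem MUniq_ne {X X' : Set V} (h : X ≠ X') :
    (∃ x, x ∈ X' ∧ x ∉ X) ∨ ∃ x, x ∈ X ∧ x ∉ X' := by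
  by_contra hcon
  push Not at hcon
  exact h (Set.Subset.antisymm (fun x hx => hcon.2 x hx) (fun x hx => hcon.1 x hx))

theorem core_inter {X X' : Set V} (hX : IsCore E X) (hX' : IsCore E X') (h : X ≠ X') :
    (X ∩ X').ncard ≤ 2 := by
  rcases MUniq_ne h with ⟨x, hx', hx⟩ | ⟨x, hx, hx'⟩
  · exact MUniq_inter hX hX' hx' hx
  · rw [Set.inter_comm]
    exact MUniq_inter hX' hX hx hx'

private theorem MUniq_pole {A : Type} [Finite A] {G : SimpleGraph (A ⊕ Bool)}
    (hG : (G.comap Sum.inl).Connected) {X X' : Set (A ⊕ Bool)} (hX : IsCore (addp G) X)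
    (hX' : IsCore (addp G) X') (h : ∀ b, Sum.inr b ∈ X) (h' : ∀ b, Sum.inr b ∈ X')
    {x : A ⊕ Bool} (hx' : x ∈ X') (hx : x ∉ X) : False := by
  obtain ⟨C, p, q, h1, h2, h3, h4⟩ := MUniq_comp hX hX' hx' hx
  have hpq : ∀ b : Bool, (Sum.inr b : A ⊕ Bool) = p ∨ (Sum.inr b : A ⊕ Bool) = q := by
    intro b
    rcases h4 (h' b) with h5 | h5
    · exact absurd (h b) (h2 _ h5)
    · exact h5
  have hp : ∃ b, p = Sum.inr b := by
    rcases hpq true with h5 | h5
    · exact ⟨_, h5.symm⟩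
    · rcases hpq false with h6 | h6
      · exact ⟨_, h6.symm⟩
      · rw [← h5] at h6
        simp at h6
  have hq : ∃ b, q = Sum.inr b := by
    rcases hpq true with h5 | h5
    · rcases hpq false with h6 | h6
      · rw [← h5] at h6
        simp at h6
      · exact ⟨_, h6.symm⟩
    · exact ⟨_, h5.symm⟩
  obtain ⟨a0, rfl⟩ : ∃ a, x = Sum.inl a := by
    rcases x with a | b
    · exact ⟨a, rfl⟩
    · exact absurd (h b) hx
  have hall : ∀ a : A, Sum.inl a ∈ C := by
    intro a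
    by_contra h5
    obtain ⟨u, v, hu, hv, huv⟩ := MUniq_bd (fun z : A => (Sum.inl z : A ⊕ Bool) ∈ C)
      (hG.preconnected a0 a) h1 h5
    have h6 : (addp G).Adj (Sum.inl u) (Sum.inl v) := Or.inl huv
    obtain ⟨b, hb⟩ := hp
    obtain ⟨b', hb'⟩ := hq
    rcases h3 _ _ hu h6 with h7 | h7 | h7
    · exact hv h7
    · rw [hb] at h7
      simp at h7
    · rw [hb'] at h7
      simp at h7
  have h5 : X ⊆ {Sum.inr false, Sum.inr true} := by
    rintro (a | b) hz
    · exact absurd hz (h2 _ (hall a))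
    · cases b
      · exact Set.mem_insert _ _
      · exact Set.mem_insert_of_mem _ rfl
  have h6 := Set.ncard_le_ncard h5 (Set.toFinite _)
  have h7 := Set.ncard_insert_le (Sum.inr false : A ⊕ Bool) ({Sum.inr true} : Set (A ⊕ Bool))
  rw [Set.ncard_singleton] at h7
  have h8 := hX.three.1
  rw [Nat.card_coe_set_eq] at h8
  omega

theorem core_pole_unique {A : Type} [Finite A] {G : SimpleGraph (A ⊕ Bool)}
    (hG : (G.comap Sum.inl).Connected) {X X' : Set (A ⊕ Bool)} (hX : IsCore (addp G) X)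
    (hX' : IsCore (addp G) X') (h : ∀ b, Sum.inr b ∈ X) (h' : ∀ b, Sum.inr b ∈ X') : X = X' := by
  by_contra hne
  rcases MUniq_ne hne with ⟨x, hx', hx⟩ | ⟨x, hx, hx'⟩
  · exact MUniq_pole hG hX hX' h h' hx' hx
  · exact MUniq_pole hG hX' hX h' h hx hx'

end Dia
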