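import Pool.Agent.Dia.Master
import Pool.Agent.Dia.MUniq

/-!
# Module RigA: core sets containing the poles

`IntIx f`: every part has an internal end.

`int_of_BB`: let `C` be the set of the vertices of the component of `a` outside `X` in `E = addp G`.  All elements of `C`
are internal (the poles are in `X`).  Suppose that no element of `ends K (f a) = att E X (cmp E X a)` is internal:
then `C` is closed under adjacency in `G.comap Sum.inl` (an internal neighbour outside `C` would be in `X`, hence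
an internal attachment), so `C` contains all internal vertices (connectedness) and `X` consists of the two poles,
contradiction to `4 ≤ Nat.card X` (`ThreeConn`).

`BB_of_int`: let `p`, `q` be the poles, `G = E \ edge p q` (all edges of `E` except `p q`).
(1) `E.Adj p q`: let `e` be the edge `p q` of `K`; its fibre is empty by `IntIx` (the ends of `e` are `p`, `q`, not internal), so the
graph `E.comap (emb2 f e)` (not `⊥` by `Conn3`) has its edge between the two poles of `e`, which are `p` and `q`.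
Hence `addp G = E`.
(2) `G.comap Sum.inl = E.comap Sum.inl` is connected: let `X0` be the set of the internal elements of `X`; it is
nonempty (`4 ≤ Nat.card X`) and `K` induced on `X0` (the complement of the poles in `X`) is connected by `ThreeConn`
(`S` = the two poles).  If `x, y ∈ X0` are adjacent in `K`, they are connected in `E.comap Sum.inl`: with `e = s(x, y)`:
`Conn3.ne`: if the fibre of `e` is empty then `E.Adj x y`; otherwise a component of the fibre is adjacent to both by
`Conn3.att2` (or use `pole_reach` (MDist) for `E.comap (emb2 f e)`, all of whose vertices are internal).  Every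
`a ∉ X` is connected to an element of `X0`: `i = f a`; `i = inl x`: `x` is internal by `IntIx` and `E.comap (emb1 f x)` is
connected; `i = inr (inl e)`: one of the ends of `e`, say `x`, is internal; by `att2` a vertex connected to `a` in the
fibre is adjacent to `x`; `i` = rest is impossible.
(3) `Att2 G`: there is only one component of `G.comap Sum.inl`; show that `p` (and `q`) has an internal neighbour in `E`:
`three_nbr` gives `x ≠ p, q` with `K.Adj p x`; the edge `e = s(p, x)`: if the fibre of `e` is empty then `E.Adj p x`, otherwise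
`att2` gives a vertex of the fibre adjacent to `p`.
(4) `IsPlanar (addp G)` by (1).  `¬ G.Adj p q` by definition.
-/

set_option linter.unusedSectionVars false

namespace Dia
open PGr

variable {A : Type} [Finite A] [LinearOrder (A ⊕ Bool)] {X : Set (A ⊕ Bool)} {K : SimpleGraph X}

/-- every part has an internal end -/
def IntIx (f : ↥Xᶜ → Idx K) : Prop := ∀ a, ∃ x ∈ ends K (f a), ∃ a', x.1 = Sum.inl a'

private theorem RigA_inl (hp : ∀ b, Sum.inr b ∈ X) (a : ↥Xᶜ) : ∃ a0, a.1 = Sum.inl a0 := by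
  obtain ⟨z, hz⟩ := a
  cases z with
  | inl z => exact ⟨z, rfl⟩
  | inr b => exact absurd (hp b) hz

private theorem RigA_bd {V : Type} {G : SimpleGraph V} (P : V → Prop) {u v : V}
    (h : G.Reachable u v) (hu : P u) (hv : ¬ P v) : ∃ x y, P x ∧ ¬ P y ∧ G.Adj x y := by
  obtain ⟨p⟩ := h
  induction p with
  | nil => exact absurd hu hv
  | @cons a b c hadj _ ih =>
    by_cases hb : P b
    · exact ih hb hv
    · exact ⟨a, b, hu, hb, hadj⟩

private theorem RigA_int (h4 : 4 ≤ Nat.card X) : ∃ x0 : A, Sum.inl x0 ∈ X := by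
  by_contra h
  push Not at h
  have h1 : X ⊆ {Sum.inr false, Sum.inr true} := by
    rintro (z | b) hz
    · exact absurd hz (h z)
    · cases b <;> simp
  have h2 := Set.ncard_le_ncard h1 (Set.toFinite _)
  have h3 := Set.ncard_insert_le (Sum.inr false : A ⊕ Bool) {Sum.inr true}
  rw [Set.ncard_singleton] at h3
  rw [Nat.card_coe_set_eq] at h4
  omega

theorem int_of_BB {G : SimpleGraph (A ⊕ Bool)} (hc : (G.comap Sum.inl).Connected)
    (hX : IsCore (addp G) X) (hp : ∀ b, Sum.inr b ∈ X) {f : ↥Xᶜ → Idx K}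
    (hf : IsIx (addp G) K f) : IntIx f := by
  intro a
  by_contra hcon
  push Not at hcon
  obtain ⟨x0, hx0⟩ := RigA_int hX.three.1
  obtain ⟨a0, ha0⟩ := RigA_inl hp a
  obtain ⟨u, v, ⟨hu, hur⟩, hv, huv⟩ := RigA_bd (G := G.comap Sum.inl)
    (fun z => ∃ h : Sum.inl z ∈ Xᶜ, ((addp G).induce Xᶜ).Reachable ⟨Sum.inl z, h⟩ a)
    (hc.preconnected a0 x0)
    ⟨ha0 ▸ a.2, by
      have : (⟨Sum.inl a0, ha0 ▸ a.2⟩ : ↥Xᶜ) = a := Subtype.ext ha0.symm
      rw [this]⟩
    (fun h => h.1 hx0)
  have hadj : (addp G).Adj (Sum.inl u) (Sum.inl v) := Or.inl huv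
  by_cases hvX : Sum.inl v ∈ X
  · have h1 : (⟨Sum.inl v, hvX⟩ : X) ∈ ends K (f a) := by
      rw [hf a]
      exact (mem_att a _).2 ⟨⟨Sum.inl u, hu⟩, hur, hadj.symm⟩
    exact hcon _ h1 v rfl
  · refine hv ⟨hvX, SimpleGraph.Reachable.trans ?_ hur⟩
    apply SimpleGraph.Adj.reachable
    exact hadj.symm

/-- reachability between internal vertices through a graph mapped into the internal vertices -/
private theorem RigA_map {E : SimpleGraph (A ⊕ Bool)} {W : Type} {H : SimpleGraph W}
    (φ : W → A ⊕ Bool) (hH : ∀ a b, H.Adj a b → E.Adj (φ a) (φ b))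
    (hφ : ∀ w, ∃ a, φ w = Sum.inl a) {u v : W} (h : H.Reachable u v) {u' v' : A}
    (hu : φ u = Sum.inl u') (hv : φ v = Sum.inl v') : (E.comap Sum.inl).Reachable u' v' := by
  choose g hg using hφ
  have h1 : g u = u' := Sum.inl_injective ((hg u).symm.trans hu)
  have h2 : g v = v' := Sum.inl_injective ((hg v).symm.trans hv)
  let F : H →g (E.comap Sum.inl) :=
    { toFun := g
      map_rel' := fun {a b} hab => by
        have h3 := hH a b hab
        rw [hg a, hg b] at h3
        exact h3 }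
  have h3 := h.map F
  rw [← h1, ← h2]
  exact h3

private theorem RigA_emp {E : SimpleGraph (A ⊕ Bool)} {f : ↥Xᶜ → Idx K} (hcon : Conn3 E K f)
    (e : K.edgeSet) (h : ∀ a, f a ≠ .inr (.inl e)) :
    E.Adj (pole e.1 false).1 (pole e.1 true).1 := by
  have h1 : ∃ u v, (E.comap (emb2 f e)).Adj u v := by
    by_contra hc
    push Not at hc
    apply hcon.ne e
    ext u v
    simp only [SimpleGraph.bot_adj, iff_false]
    exact hc u v
  obtain ⟨u, v, huv⟩ := h1
  rcases u with a | b
  · exact absurd a.2 (h a.1)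
  rcases v with a | b'
  · exact absurd a.2 (h a.1)
  have h2 : E.Adj (pole e.1 b).1 (pole e.1 b').1 := huv
  cases b <;> cases b'
  · exact absurd rfl h2.ne
  · exact h2
  · exact h2.symm
  · exact absurd rfl h2.ne

private theorem RigA_att {E : SimpleGraph (A ⊕ Bool)} {f : ↥Xᶜ → Idx K} (hcon : Conn3 E K f)
    (e : K.edgeSet) (a : {a // f a = .inr (.inl e)}) (b : Bool) :
    ∃ a' : {a // f a = .inr (.inl e)}, ((E.comap (emb2 f e)).comap Sum.inl).Reachable a a' ∧
      E.Adj a'.1.1 (pole e.1 b).1 := by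
  obtain ⟨a', ha', h⟩ := hcon.att2 e
    (((E.comap (emb2 f e)).comap Sum.inl).connectedComponentMk a) b
  exact ⟨a', (SimpleGraph.ConnectedComponent.eq.1 ha').symm, h⟩

/-- the same with reachability between the internal vertices -/
private theorem RigA_att' {E : SimpleGraph (A ⊕ Bool)} (hp : ∀ b, Sum.inr b ∈ X)
    {f : ↥Xᶜ → Idx K} (hcon : Conn3 E K f) (e : K.edgeSet) (a : {a // f a = .inr (.inl e)})
    {a0 : A} (ha0 : a.1.1 = Sum.inl a0) (b : Bool) :
    ∃ a1 : A, (E.comap Sum.inl).Reachable a0 a1 ∧ E.Adj (Sum.inl a1) (pole e.1 b).1 := by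
  obtain ⟨a', h1, h2⟩ := RigA_att hcon e a b
  obtain ⟨a1, ha1⟩ := RigA_inl hp a'.1
  refine ⟨a1, ?_, ha1 ▸ h2⟩
  exact RigA_map (fun z : {a // f a = .inr (.inl e)} => z.1.1) (fun _ _ h => h)
    (fun z => RigA_inl hp z.1) h1 ha0 ha1

private theorem RigA_pole (e : K.edgeSet) {x : X} (hx : x ∈ e.1) : ∃ b, pole e.1 b = x := by
  rw [← pole_pair e.1, Sym2.mem_iff] at hx
  rcases hx with h | h
  · exact ⟨false, h.symm⟩
  · exact ⟨true, h.symm⟩

/-- an internal end of an edge part is connected to all its vertices -/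
private theorem RigA_end {E : SimpleGraph (A ⊕ Bool)} (hp : ∀ b, Sum.inr b ∈ X)
    {f : ↥Xᶜ → Idx K} (hcon : Conn3 E K f) (e : K.edgeSet) (a : {a // f a = .inr (.inl e)})
    {a0 : A} (ha0 : a.1.1 = Sum.inl a0) {x : X} (hx : x ∈ e.1) {x0 : A}
    (hx0 : x.1 = Sum.inl x0) : (E.comap Sum.inl).Reachable a0 x0 := by
  obtain ⟨b, hb⟩ := RigA_pole e hx
  obtain ⟨a1, h1, h2⟩ := RigA_att' hp hcon e a ha0 b
  rw [hb, hx0] at h2
  exact h1.trans (SimpleGraph.Adj.reachable h2)

/-- adjacent internal vertices of `K` are connected -/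
private theorem RigA_adj {E : SimpleGraph (A ⊕ Bool)} (hp : ∀ b, Sum.inr b ∈ X)
    {f : ↥Xᶜ → Idx K} (hcon : Conn3 E K f) {x y : X} (h : K.Adj x y) {x0 y0 : A}
    (hx0 : x.1 = Sum.inl x0) (hy0 : y.1 = Sum.inl y0) :
    (E.comap Sum.inl).Reachable x0 y0 := by
  have hx : x ∈ (⟨s(x, y), h⟩ : K.edgeSet).1 := Sym2.mem_mk_left x y
  have hy : y ∈ (⟨s(x, y), h⟩ : K.edgeSet).1 := Sym2.mem_mk_right x y
  generalize (⟨s(x, y), h⟩ : K.edgeSet) = e at hx hy
  by_cases hemp : ∀ a, f a ≠ .inr (.inl e)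
  · have h1 := RigA_emp hcon e hemp
    obtain ⟨b, hb⟩ := RigA_pole e hx
    obtain ⟨b', hb'⟩ := RigA_pole e hy
    have hbb : b ≠ b' := by
      rintro rfl
      exact h.ne (hb.symm.trans hb')
    have h2 : E.Adj x.1 y.1 := by
      rw [← hb, ← hb']
      cases b <;> cases b'
      · exact absurd rfl hbb
      · exact h1
      · exact h1.symm
      · exact absurd rfl hbb
    rw [hx0, hy0] at h2
    exact SimpleGraph.Adj.reachable h2
  · push Not at hemp
    obtain ⟨a, ha⟩ := hemp
    obtain ⟨a0, ha0⟩ := RigA_inl hp a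
    exact (RigA_end hp hcon e ⟨a, ha⟩ ha0 hx hx0).symm.trans
      (RigA_end hp hcon e ⟨a, ha⟩ ha0 hy hy0)

/-- a pole has an internal neighbour -/
private theorem RigA_nbr {E : SimpleGraph (A ⊕ Bool)} (hp : ∀ b, Sum.inr b ∈ X)
    (h3 : ThreeConn K) {f : ↥Xᶜ → Idx K} (hcon : Conn3 E K f) (b : Bool) :
    ∃ a : A, E.Adj (Sum.inl a) (Sum.inr b) := by
  have hne : (⟨Sum.inr b, hp b⟩ : X) ≠ ⟨Sum.inr (!b), hp (!b)⟩ := by
    intro h
    have h1 := congrArg Subtype.val h
    have h2 : b = !b := Sum.inr_injective h1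
    cases b <;> exact absurd h2 (by decide)
  obtain ⟨x, hxp, hxq, hadj⟩ := three_nbr h3 hne
  have hx0 : ∃ x0, x.1 = Sum.inl x0 := by
    obtain ⟨z, hz⟩ := x
    cases z with
    | inl z => exact ⟨z, rfl⟩
    | inr b' =>
      exfalso
      by_cases hb : b' = b
      · exact hxp (Subtype.ext (congrArg Sum.inr hb))
      · have : b' = !b := by cases b <;> cases b' <;> simp_all
        exact hxq (Subtype.ext (congrArg Sum.inr this))
  obtain ⟨x0, hx0⟩ := hx0
  have hpe : (⟨Sum.inr b, hp b⟩ : X) ∈ (⟨s(_, x), hadj⟩ : K.edgeSet).1 := Sym2.mem_mk_left _ x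
  have hxe : x ∈ (⟨s(_, x), hadj⟩ : K.edgeSet).1 := Sym2.mem_mk_right _ x
  generalize (⟨s(_, x), hadj⟩ : K.edgeSet) = e at hpe hxe
  by_cases hemp : ∀ a, f a ≠ .inr (.inl e)
  · have h1 := RigA_emp hcon e hemp
    obtain ⟨c, hc⟩ := RigA_pole e hpe
    obtain ⟨c', hc'⟩ := RigA_pole e hxe
    have hcc : c ≠ c' := by
      rintro rfl
      exact hxp (hc'.symm.trans hc)
    have h2 : E.Adj x.1 (Sum.inr b) := by
      have h4 : (Sum.inr b : A ⊕ Bool) = (pole e.1 c).1 := by rw [hc]
      rw [h4, ← hc']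
      cases c <;> cases c'
      · exact absurd rfl hcc
      · exact h1.symm
      · exact h1
      · exact absurd rfl hcc
    rw [hx0] at h2
    exact ⟨x0, h2⟩
  · push Not at hemp
    obtain ⟨a, ha⟩ := hemp
    obtain ⟨a0, ha0⟩ := RigA_inl hp a
    obtain ⟨c, hc⟩ := RigA_pole e hpe
    obtain ⟨a1, -, h2⟩ := RigA_att' hp hcon e ⟨a, ha⟩ ha0 c
    rw [hc] at h2
    exact ⟨a1, h2⟩

/-- all internal vertices are connected -/
private theorem RigA_conn {E : SimpleGraph (A ⊕ Bool)} (hp : ∀ b, Sum.inr b ∈ X)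
    (h3 : ThreeConn K) {f : ↥Xᶜ → Idx K} (hcon : Conn3 E K f) (hi : IntIx f) :
    (E.comap (Sum.inl : A → A ⊕ Bool)).Connected := by
  classical
  obtain ⟨x0, hx0⟩ := RigA_int h3.1
  -- internal elements of `X`
  have key1 : ∀ y0, Sum.inl y0 ∈ X → (E.comap Sum.inl).Reachable y0 x0 := by
    intro y0 hy0
    set S : Finset X := {⟨Sum.inr false, hp false⟩, ⟨Sum.inr true, hp true⟩} with hS
    have hcard : S.card ≤ 2 := (Finset.card_insert_le _ _).trans (by simp)
    have hconn := h3.2 S hcard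
    have hmem : ∀ z : A, ∀ hz : Sum.inl z ∈ X, (⟨Sum.inl z, hz⟩ : X) ∈ (↑S : Set X)ᶜ := by
      intro z hz
      rw [Set.mem_compl_iff, Finset.mem_coe, hS, Finset.mem_insert, Finset.mem_singleton]
      rintro (h | h)
      · exact absurd (congrArg Subtype.val h) (by simp)
      · exact absurd (congrArg Subtype.val h) (by simp)
    have hint : ∀ w : ↥((↑S : Set X)ᶜ), ∃ a : A, w.1.1 = Sum.inl a := by
      rintro ⟨⟨z, hz⟩, hw⟩
      cases z with
      | inl z => exact ⟨z, rfl⟩
      | inr b =>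
        exfalso
        rw [Set.mem_compl_iff, Finset.mem_coe, hS, Finset.mem_insert, Finset.mem_singleton] at hw
        cases b
        · exact hw (Or.inl rfl)
        · exact hw (Or.inr rfl)
    have hreach := hconn.preconnected ⟨⟨Sum.inl y0, hy0⟩, hmem y0 hy0⟩ ⟨⟨Sum.inl x0, hx0⟩, hmem x0 hx0⟩
    have hgen : ∀ u v : ↥((↑S : Set X)ᶜ), (K.induce (↑S : Set X)ᶜ).Reachable u v →
        ∀ u0 v0 : A, u.1.1 = Sum.inl u0 → v.1.1 = Sum.inl v0 →
          (E.comap Sum.inl).Reachable u0 v0 := by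
      rintro u v ⟨p⟩
      induction p with
      | nil =>
        intro u0 v0 hu hv
        rw [Sum.inl_injective (hu.symm.trans hv)]
      | @cons a b c hadj _ ih =>
        intro u0 v0 hu hv
        obtain ⟨b0, hb0⟩ := hint b
        have hab : K.Adj a.1 b.1 := hadj
        exact (RigA_adj hp hcon hab hu hb0).trans (ih b0 v0 hb0 hv)
    exact hgen _ _ hreach y0 x0 rfl rfl
  have key2 : ∀ a0, (E.comap Sum.inl).Reachable a0 x0 := by
    intro a0
    by_cases ha0 : Sum.inl a0 ∈ X
    · exact key1 a0 ha0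
    · obtain ⟨x, hx, x1, hx1⟩ := hi ⟨Sum.inl a0, ha0⟩
      have hx1X : Sum.inl x1 ∈ X := hx1 ▸ x.2
      refine SimpleGraph.Reachable.trans ?_ (key1 x1 hx1X)
      rcases hfa : f ⟨Sum.inl a0, ha0⟩ with y | e | u
      · rw [hfa] at hx
        have hxy : x = y := hx
        subst hxy
        have h5 := (hcon.conn x).preconnected (some ⟨⟨Sum.inl a0, ha0⟩, hfa⟩) none
        refine RigA_map (emb1 f x) (fun _ _ h => h) ?_ h5 rfl hx1
        rintro (_ | w)
        · exact ⟨x1, hx1⟩
        · exact RigA_inl hp w.1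
      · rw [hfa] at hx
        exact RigA_end hp hcon e ⟨⟨Sum.inl a0, ha0⟩, hfa⟩ rfl hx hx1
      · rw [hfa] at hx
        exact absurd hx (Set.notMem_empty _)
  have : Nonempty A := ⟨x0⟩
  exact ⟨fun u v => (key2 u).trans (key2 v).symm⟩

theorem BB_of_int {E : SimpleGraph (A ⊕ Bool)} (hE : IsPlanar E) (hp : ∀ b, Sum.inr b ∈ X)
    (h3 : ThreeConn K) (hK : K.Adj ⟨Sum.inr false, hp false⟩ ⟨Sum.inr true, hp true⟩)
    {f : ↥Xᶜ → Idx K} (hfit : Fits E K f) (hcon : Conn3 E K f) (hi : IntIx f) :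
    ∃ G, BB G ∧ addp G = E := by
  -- the poles are adjacent
  have hpq : E.Adj (Sum.inr false) (Sum.inr true) := by
    have h1 := RigA_emp hcon ⟨s(_, _), hK⟩ (by
      intro a ha
      obtain ⟨x, hx, x0, hx0⟩ := hi a
      rw [ha, ends_mk hK] at hx
      rcases hx with h | h
      · rw [h] at hx0
        exact absurd hx0 (by simp)
      · have h' : x = ⟨Sum.inr true, hp true⟩ := h
        rw [h'] at hx0
        exact absurd hx0 (by simp))
    obtain ⟨c, hc⟩ := RigA_pole ⟨s(_, _), hK⟩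
      (Sym2.mem_mk_left (⟨Sum.inr false, hp false⟩ : X) ⟨Sum.inr true, hp true⟩)
    obtain ⟨c', hc'⟩ := RigA_pole ⟨s(_, _), hK⟩
      (Sym2.mem_mk_right (⟨Sum.inr false, hp false⟩ : X) ⟨Sum.inr true, hp true⟩)
    have hcc : c ≠ c' := by
      rintro rfl
      exact hK.ne (hc.symm.trans hc')
    have h6 : E.Adj (pole (⟨s(_, _), hK⟩ : K.edgeSet).1 c).1
        (pole (⟨s(_, _), hK⟩ : K.edgeSet).1 c').1 := by
      cases c <;> cases c'
      · exact absurd rfl hcc
      · exact h1
      · exact h1.symm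
      · exact absurd rfl hcc
    rw [hc, hc'] at h6
    exact h6
  set G : SimpleGraph (A ⊕ Bool) :=
    E \ SimpleGraph.edge (Sum.inr false) (Sum.inr true) with hG
  have hGadj : ∀ (a : A) (z : A ⊕ Bool), G.Adj (Sum.inl a) z ↔ E.Adj (Sum.inl a) z := by
    intro a z
    rw [hG, SimpleGraph.sdiff_adj, SimpleGraph.edge_adj]
    simp
  have hadd : addp G = E := by
    unfold addp
    rw [hG, sdiff_sup_cancel]
    rw [SimpleGraph.edge_le_iff]
    exact Or.inr hpq
  have hcomap : G.comap (Sum.inl : A → A ⊕ Bool) = E.comap Sum.inl := by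
    ext u v
    exact hGadj u (Sum.inl v)
  have hconn := RigA_conn hp h3 hcon hi
  rw [← hcomap] at hconn
  refine ⟨G, ⟨?_, hconn, ?_, ?_⟩, hadd⟩
  · rw [hG, SimpleGraph.sdiff_adj, SimpleGraph.edge_adj]
    simp
  · intro C b
    obtain ⟨a, ha⟩ := RigA_nbr hp h3 hcon b
    refine ⟨a, ?_, (hGadj a _).2 ha⟩
    induction C using SimpleGraph.ConnectedComponent.ind with
    | _ c => exact SimpleGraph.ConnectedComponent.eq.2 (hconn.preconnected a c)
  · rw [hadd]
    exact hE

end Dia
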