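import Pool.Agent.Dia.MAdd
import Pool.Agent.Dia.Lift

/-!
# Module RigB: the parts of a graph with small cores have small cores

`coreLt_vert`: `coreLt_part1` (module Lift) with the map `emb1 f x` (injective: `emb1_inj`), `V2` = complement of the fibre
`{a | f a = inl x}`, `c = x`: every edge with an end in the fibre has its other end in the fibre or is `x` (`Fits.mid`,
`Fits.out`), so it is inside the range of `emb1 f x`; the other edges are inside `V2`.
`coreLt_rest`: the same with the map `emb0 f` and any vertex `c` (the intersection is empty); if `V` is empty use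
`coreLt_small`.
`coreLt_edge`: `coreLt_part2` with the map `emb2 f e`, `V2` = complement of the fibre of `e`, `p`, `q` the poles
(`Sum.inr false`, `Sum.inr true`); `addp G = G ⊔ edge (inr false) (inr true)` by definition.  `hcon`: `p` and `q` are
connected in `E.induce V2`: the torso `K` is 3-connected, so by `three_cut` with `S = ∅`, `F = {s(p, q)}` the graph `K`
without the edge `p q` is connected; every edge `x y ≠ p q` of `K` is an edge of `E`, or there is a component outside `X`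
with attachment set `{x, y} ≠ {p, q}`, so it is disjoint from the fibre of `e` (`ends_inj`, `IsIx`), and joins `x` and `y`
inside `V2`.  (For reachability by cuts: let `Z` be the set of the vertices of `X` reachable from `p` in `E.induce V2`; if `q ∉ Z`
then `three_cut` gives an edge `x y` of `K`, `x ∈ Z`, `y ∉ Z`, different from `p q`; contradiction.)
-/

set_option linter.unusedSectionVars false

namespace Dia
open PGr

variable {V : Type} [LinearOrder V] [Finite V] {E : SimpleGraph V} {X : Set V} {K : SimpleGraph X}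

/-- the fibre of the index `i` -/
private def RigB_F (f : ↥Xᶜ → Idx K) (i : Idx K) : Set V := {v | ∃ h : v ∈ Xᶜ, f ⟨v, h⟩ = i}

private theorem RigB_end {f : ↥Xᶜ → Idx K} (h : Fits E K f) (i : Idx K) {u v : V} (huv : E.Adj u v)
    (hu : u ∈ RigB_F f i) : v ∈ RigB_F f i ∪ Subtype.val '' ends K i := by
  obtain ⟨hu1, hu2⟩ := hu
  by_cases hv : v ∈ X
  · right
    refine ⟨⟨v, hv⟩, ?_, rfl⟩
    rw [← hu2]
    exact h.mid ⟨u, hu1⟩ ⟨v, hv⟩ huv
  · left
    exact ⟨hv, (h.out ⟨u, hu1⟩ ⟨v, hv⟩ huv).symm.trans hu2⟩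

private theorem RigB_hE {f : ↥Xᶜ → Idx K} (h : Fits E K f) (i : Idx K) {R : Set V}
    (hR : R = RigB_F f i ∪ Subtype.val '' ends K i) (u v : V) (huv : E.Adj u v) :
    (u ∈ R ∧ v ∈ R) ∨ (u ∈ (RigB_F f i)ᶜ ∧ v ∈ (RigB_F f i)ᶜ) := by
  rw [hR]
  by_cases hu : u ∈ RigB_F f i
  · exact Or.inl ⟨Or.inl hu, RigB_end h i huv hu⟩
  · by_cases hv : v ∈ RigB_F f i
    · exact Or.inl ⟨RigB_end h i huv.symm hv, Or.inl hv⟩
    · exact Or.inr ⟨hu, hv⟩

private theorem RigB_un {f : ↥Xᶜ → Idx K} (i : Idx K) {R : Set V}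
    (hR : R = RigB_F f i ∪ Subtype.val '' ends K i) : R ∪ (RigB_F f i)ᶜ = Set.univ := by
  rw [Set.eq_univ_iff_forall]
  intro v
  by_cases hv : v ∈ RigB_F f i
  · exact Or.inl (by rw [hR]; exact Or.inl hv)
  · exact Or.inr hv

private theorem RigB_int {f : ↥Xᶜ → Idx K} (i : Idx K) {R : Set V}
    (hR : R = RigB_F f i ∪ Subtype.val '' ends K i) :
    R ∩ (RigB_F f i)ᶜ = Subtype.val '' ends K i := by
  rw [hR]
  ext v
  constructor
  · rintro ⟨h1 | h1, h2⟩
    · exact absurd h1 h2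
    · exact h1
  · intro h1
    refine ⟨Or.inr h1, ?_⟩
    rintro ⟨h2, -⟩
    obtain ⟨x, -, rfl⟩ := h1
    exact h2 x.2

private theorem RigB_r1 (f : ↥Xᶜ → Idx K) (x : X) :
    Set.range (emb1 f x) = RigB_F f (.inl x) ∪ Subtype.val '' ends K (.inl x) := by
  ext v
  constructor
  · rintro ⟨_ | a, rfl⟩
    · exact Or.inr ⟨x, rfl, rfl⟩
    · exact Or.inl ⟨a.1.2, a.2⟩
  · rintro (⟨h1, h2⟩ | ⟨y, hy, rfl⟩)
    · exact ⟨some ⟨⟨v, h1⟩, h2⟩, rfl⟩
    · have : y = x := hy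
      exact ⟨none, by rw [this]; rfl⟩

private theorem RigB_r0 (f : ↥Xᶜ → Idx K) :
    Set.range (emb0 f) = RigB_F f (.inr (.inr ())) ∪ Subtype.val '' ends K (.inr (.inr ())) := by
  ext v
  constructor
  · rintro ⟨a, rfl⟩
    exact Or.inl ⟨a.1.2, a.2⟩
  · rintro (⟨h1, h2⟩ | ⟨y, hy, rfl⟩)
    · exact ⟨⟨⟨v, h1⟩, h2⟩, rfl⟩
    · exact absurd hy (Set.notMem_empty y)

private theorem RigB_r2 (f : ↥Xᶜ → Idx K) (e : K.edgeSet) :
    Set.range (emb2 f e) = RigB_F f (.inr (.inl e)) ∪ Subtype.val '' ends K (.inr (.inl e)) := by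
  ext v
  constructor
  · rintro ⟨a | b, rfl⟩
    · exact Or.inl ⟨a.1.2, a.2⟩
    · refine Or.inr ⟨pole e.1 b, ?_, rfl⟩
      rw [ends_edge]
      cases b
      · exact Set.mem_insert _ _
      · exact Set.mem_insert_of_mem _ rfl
  · rintro (⟨h1, h2⟩ | ⟨y, hy, rfl⟩)
    · exact ⟨Sum.inl ⟨⟨v, h1⟩, h2⟩, rfl⟩
    · rw [ends_edge] at hy
      rcases hy with hy | hy
      · exact ⟨Sum.inr false, by rw [hy]; rfl⟩
      · have : y = pole e.1 true := hy
        exact ⟨Sum.inr true, by rw [this]; rfl⟩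

theorem coreLt_vert {M : ℕ∞} (hM : CoreLt M E) {f : ↥Xᶜ → Idx K} (h : Fits E K f) (x : X) :
    CoreLt M (E.comap (emb1 f x)) := by
  refine coreLt_part1 hM (emb1 f x) (emb1_inj f x) (RigB_F f (.inl x))ᶜ x.1
    (RigB_un _ (RigB_r1 f x)) ?_ (RigB_hE h _ (RigB_r1 f x))
  rw [RigB_int _ (RigB_r1 f x), ends_inl, Set.image_singleton]

theorem coreLt_rest {M : ℕ∞} (hM : CoreLt M E) {f : ↥Xᶜ → Idx K} (h : Fits E K f) :
    CoreLt M (E.comap (emb0 f)) := by
  rcases isEmpty_or_nonempty V with hV | ⟨⟨c⟩⟩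
  · apply coreLt_small
    have : IsEmpty {a // f a = .inr (.inr ())} := ⟨fun a => hV.false a.1.1⟩
    rw [Nat.card_of_isEmpty]
    norm_num
  · refine coreLt_part1 hM (emb0 f) (emb0_inj f) (RigB_F f (.inr (.inr ())))ᶜ c
      (RigB_un _ (RigB_r0 f)) ?_ (RigB_hE h _ (RigB_r0 f))
    rw [RigB_int _ (RigB_r0 f), ends_rest, Set.image_empty]
    exact Set.empty_subset _

private theorem RigB_memX (f : ↥Xᶜ → Idx K) (i : Idx K) (x : X) : x.1 ∈ (RigB_F f i)ᶜ := by
  rintro ⟨h, -⟩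
  exact h x.2

private theorem RigB_walk {f : ↥Xᶜ → Idx K} (h : Fits E K f) (i : Idx K) {a b : ↥Xᶜ}
    (w : (E.induce Xᶜ).Walk a b) (ha : a.1 ∈ (RigB_F f i)ᶜ) :
    ∃ hb : b.1 ∈ (RigB_F f i)ᶜ, (E.induce (RigB_F f i)ᶜ).Reachable ⟨a.1, ha⟩ ⟨b.1, hb⟩ := by
  induction w with
  | nil => exact ⟨ha, SimpleGraph.Reachable.refl _⟩
  | @cons u v w hadj _ ih =>
    have hv : v.1 ∈ (RigB_F f i)ᶜ := by
      rintro ⟨h1, h2⟩
      exact ha ⟨u.2, (h.out u v hadj).trans h2⟩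
    obtain ⟨hb, h1⟩ := ih hv
    have h2 : (E.induce (RigB_F f i)ᶜ).Adj ⟨u.1, ha⟩ ⟨v.1, hv⟩ := hadj
    exact ⟨hb, h2.reachable.trans h1⟩

private theorem RigB_step {f : ↥Xᶜ → Idx K} (hK : torso E X = K) (hf : IsIx E K f) (e : K.edgeSet)
    {x y : X} (hxy : K.Adj x y) (hne : s(x, y) ≠ e.1) :
    (E.induce (RigB_F f (.inr (.inl e)))ᶜ).Reachable ⟨x.1, RigB_memX f _ x⟩
      ⟨y.1, RigB_memX f _ y⟩ := by
  have hfit := cor_fits hK hf
  have h1 : (torso E X).Adj x y := by rw [hK]; exact hxy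
  obtain ⟨-, h2 | ⟨a, ha⟩⟩ := (torso_adj x y).1 h1
  · have h3 : (E.induce (RigB_F f (.inr (.inl e)))ᶜ).Adj ⟨x.1, RigB_memX f _ x⟩
      ⟨y.1, RigB_memX f _ y⟩ := h2
    exact h3.reachable
  · have hfa : f a ≠ .inr (.inl e) := by
      intro h4
      have h5 := hf a
      rw [h4, ha, ← ends_mk hxy] at h5
      have h6 := ends_inj h5
      simp only [Sum.inr.injEq, Sum.inl.injEq] at h6
      exact hne (congrArg Subtype.val h6).symm
    have haF : a.1 ∈ (RigB_F f (.inr (.inl e)))ᶜ := by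
      rintro ⟨h5, h6⟩
      exact hfa h6
    have key : ∀ z : X, z ∈ att E X (cmp E X a) →
        (E.induce (RigB_F f (.inr (.inl e)))ᶜ).Reachable ⟨a.1, haF⟩ ⟨z.1, RigB_memX f _ z⟩ := by
      intro z hz
      obtain ⟨b, hb, hadj⟩ := (mem_att a z).1 hz
      obtain ⟨w⟩ := hb.symm
      obtain ⟨hbF, hr⟩ := RigB_walk hfit (.inr (.inl e)) w haF
      have h3 : (E.induce (RigB_F f (.inr (.inl e)))ᶜ).Adj ⟨b.1, hbF⟩
        ⟨z.1, RigB_memX f _ z⟩ := hadj.symm
      exact hr.trans h3.reachable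
    exact (key x (by rw [ha]; exact Set.mem_insert _ _)).symm.trans
      (key y (by rw [ha]; exact Set.mem_insert_of_mem _ rfl))

private theorem RigB_con {f : ↥Xᶜ → Idx K} (hK : torso E X = K) (h3 : ThreeConn K)
    (hf : IsIx E K f) (e : K.edgeSet) :
    (E.induce (RigB_F f (.inr (.inl e)))ᶜ).Reachable
      ⟨(pole e.1 false).1, RigB_memX f _ _⟩ ⟨(pole e.1 true).1, RigB_memX f _ _⟩ := by
  by_contra hcon
  obtain ⟨x, hx, y, hy, hxy, hne⟩ := three_cut h3 ∅ {e.1} (by simp)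
    {z | (E.induce (RigB_F f (.inr (.inl e)))ᶜ).Reachable
      ⟨(pole e.1 false).1, RigB_memX f _ _⟩ ⟨z.1, RigB_memX f _ z⟩}
    ⟨pole e.1 false, SimpleGraph.Reachable.refl _, Set.notMem_empty _⟩
    ⟨pole e.1 true, hcon, Set.notMem_empty _⟩
  have h1 := RigB_step hK hf e hxy (fun h => hne h)
  exact hy.1 (SimpleGraph.Reachable.trans hx.1 h1)

theorem coreLt_edge {M : ℕ∞} (hM : CoreLt M E) {f : ↥Xᶜ → Idx K} (hK : torso E X = K)
    (h3 : ThreeConn K) (hf : IsIx E K f) (e : K.edgeSet) :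
    CoreLt M (addp (E.comap (emb2 f e))) := by
  have hfit := cor_fits hK hf
  refine coreLt_part2 hM (emb2 f e) (emb2_inj f e) (RigB_F f (.inr (.inl e)))ᶜ
    (Sum.inr false) (Sum.inr true) (by simp) (RigB_un _ (RigB_r2 f e)) ?_
    (RigB_hE hfit _ (RigB_r2 f e)) (RigB_memX f _ _) (RigB_memX f _ _) (RigB_con hK h3 hf e)
  rw [RigB_int _ (RigB_r2 f e), ends_edge, Set.image_pair]
  rfl

end Dia
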