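import Pool.Agent.Dia.GDefs
import Pool.Agent.PGc.Three
import Pool.Agent.PGc.Whitney
import Pool.Agent.PGc.PlPlanar
import Pool.Agent.PGc.RgSer

/-!
# Rotation systems of 3-connected planar graphs: definitions
-/

set_option linter.unusedSectionVars false

namespace Dia
open PGr Equiv Finset
open scoped ENNReal

/-- the vertices of a map -/
abbrev Vx {T : Type} (s : Perm T) : Type := Quotient (Perm.SameCycle.setoid s)

/-- the vertex of a dart -/
def vx {T : Type} (s : Perm T) (t : T) : Vx s := Quotient.mk _ t

/-- the graph of a map -/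
def vG {T : Type} (a s : Perm T) : SimpleGraph (Vx s) :=
  SimpleGraph.fromRel fun x y => ∃ t, vx s t = x ∧ vx s (a t) = y

/-- planar rotation system of a graph -/
def IsRot {V : Type} [Fintype V] [DecidableEq V] (K : SimpleGraph V) (s : Perm K.Dart) : Prop :=
  (∀ d d', s.SameCycle d d' ↔ d.fst = d'.fst) ∧ Pl (dsymm K) s

/-- properties of graphs with two marked vertices -/
abbrev PG2 := ∀ V : Type, SimpleGraph V → V → V → Prop

/-- properties of graphs -/
abbrev PG0 := ∀ V : Type, SimpleGraph V → Prop

/-- invariant under isomorphism -/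
def InvP (P : PG2) : Prop := ∀ (V W : Type) (G : SimpleGraph V) (H : SimpleGraph W) (e : G ≃g H)
  (x y : V), P V G x y → P W H (e x) (e y)

/-- invariant under isomorphism -/
def InvPG0 (P : PG0) : Prop := ∀ (V W : Type) (G : SimpleGraph V) (H : SimpleGraph W),
  Nonempty (G ≃g H) → P V G → P W H

/-- no condition -/
def PGT : PG2 := fun _ _ _ _ => True

/-- no condition -/
def PGT0 : PG0 := fun _ _ => True

/-- forget the marked vertices -/
def PG0.two (P : PG0) : PG2 := fun V G _ _ => P V G

/-- 3-connected planar graphs with two adjacent poles, `v` other vertices, `e` other edges, with the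
property `P`; divided by `v!` -/
noncomputable def hP (P : PG2) (v e : ℕ) : ℝ :=
  (Nat.card {K : SimpleGraph (Fin v ⊕ Bool) // ThreeConn K ∧ IsPlanar K ∧
    K.Adj (Sum.inr false) (Sum.inr true) ∧ Nat.card K.edgeSet = e + 1 ∧
    P _ K (Sum.inr false) (Sum.inr true)} : ℝ) / v.factorial

/-- 3-connected planar graphs on `v` vertices with `e` edges and the property `P`; divided by `v!` -/
noncomputable def kP (P : PG0) (v e : ℕ) : ℝ :=
  (Nat.card {K : SimpleGraph (Fin v) // ThreeConn K ∧ IsPlanar K ∧ Nat.card K.edgeSet = e ∧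
    P _ K} : ℝ) / v.factorial

/-- classes of rigid maps with `v + 2` vertices, `e` nonroot edges and the property `P` of their
graph, the two ends of the root edge being marked -/
noncomputable def gP (P : PG2) (v e : ℕ) : ℝ :=
  (Nat.card {c : GC // Rigid c.rep.1 ∧ nV c.rep.1.s = v + 2 ∧ Fintype.card c.rep.1.D / 2 = e ∧
    P _ (vG c.rep.1.aa c.rep.1.s) (vx c.rep.1.s (Sum.inr false)) (vx c.rep.1.s (Sum.inr true))} : ℝ)

end Dia
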