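import Pool.Agent.Dia.CntW
import Pool.Agent.Dia.RigA
import Pool.Agent.Dia.RigB
import Pool.Agent.Dia.MExist
import Pool.Agent.Dia.MEuler
import Pool.Agent.Dia.RotDefs

/-!
# Sums over all pairs (core set, torso)
-/

set_option linter.unusedSectionVars false

namespace Dia
open Finset PGr Pool.Agent.DiamP

/-! ### finite sums -/

theorem finsum_ofFinite {α : Type} [Finite α] (f : α → ℝ) :
    ∑ᶠ x, f x = (letI := Fintype.ofFinite α; ∑ x, f x) := by
  let _ := Fintype.ofFinite α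
  exact finsum_eq_sum_of_fintype f

theorem finsum_le {α : Type} [Finite α] {f g : α → ℝ} (h : ∀ x, f x ≤ g x) :
    ∑ᶠ x, f x ≤ ∑ᶠ x, g x := by
  have := Fintype.ofFinite α
  rw [finsum_eq_sum_of_fintype, finsum_eq_sum_of_fintype]
  exact Finset.sum_le_sum fun x _ => h x

theorem finsum_nn {α : Type} {f : α → ℝ} (h : ∀ x, 0 ≤ f x) : 0 ≤ ∑ᶠ x, f x :=
  finsum_nonneg h

theorem finsum_const' {α : Type} [Finite α] (c : ℝ) : ∑ᶠ _ : α, c = (Nat.card α : ℝ) * c := by
  have := Fintype.ofFinite α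
  rw [finsum_eq_sum_of_fintype, Finset.sum_const, nsmul_eq_mul, Nat.card_eq_fintype_card]
  rfl

theorem finsum_sigma' {α : Type} {β : α → Type} [Finite α] [∀ a, Finite (β a)]
    (f : (Σ a, β a) → ℝ) : ∑ᶠ x, f x = ∑ᶠ a, ∑ᶠ b, f ⟨a, b⟩ := by
  classical
  have := Fintype.ofFinite α
  have : ∀ a, Fintype (β a) := fun a => Fintype.ofFinite _
  rw [finsum_eq_sum_of_fintype, Fintype.sum_sigma, finsum_eq_sum_of_fintype]
  exact Finset.sum_congr rfl fun a _ => (finsum_eq_sum_of_fintype _).symm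

/-- sum over a type which is mapped injectively -/
theorem finsum_inj_le {α β : Type} [Finite α] [Finite β] {f : α → ℝ} {g : β → ℝ}
    (φ : α → β) (hφ : Function.Injective φ) (h : ∀ x, f x ≤ g (φ x)) (hg : ∀ y, 0 ≤ g y) :
    ∑ᶠ x, f x ≤ ∑ᶠ y, g y := by
  classical
  have := Fintype.ofFinite α
  have := Fintype.ofFinite β
  rw [finsum_eq_sum_of_fintype, finsum_eq_sum_of_fintype]
  calc ∑ x, f x ≤ ∑ x, g (φ x) := Finset.sum_le_sum fun x _ => h x
    _ = ∑ y ∈ univ.image φ, g y := (Finset.sum_image fun x _ y _ hxy => hφ hxy).symm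
    _ ≤ ∑ y, g y := Finset.sum_le_sum_of_subset_of_nonneg (Finset.subset_univ _)
        fun y _ _ => hg y

/-- group by a natural number -/
theorem finsum_group {α : Type} [Finite α] (m : α → ℕ) (L : ℕ) (hL : ∀ x, m x < L) (g : ℕ → ℝ) :
    ∑ᶠ x, g (m x) = ∑ j ∈ range L, (Nat.card {x // m x = j} : ℝ) * g j := by
  classical
  have := Fintype.ofFinite α
  rw [finsum_eq_sum_of_fintype,
    ← Finset.sum_fiberwise_of_maps_to (s := univ) (t := range L) (g := m)
      (fun x _ => Finset.mem_range.2 (hL x))]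
  refine Finset.sum_congr rfl fun j _ => ?_
  have h1 : ∑ x ∈ univ with m x = j, g (m x) = ∑ x ∈ univ with m x = j, g j :=
    Finset.sum_congr rfl fun x hx => by rw [(mem_filter.1 hx).2]
  rw [h1, Finset.sum_const, nsmul_eq_mul, Nat.card_eq_fintype_card, Fintype.card_subtype]

/-! ### numbers of sets and of graphs -/

theorem card_sets (n v : ℕ) : Nat.card {X : Set (Fin n) // Nat.card X = v} = n.choose v := by
  classical
  have h := Fintype.card_finset_len (α := Fin n) v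
  rw [Fintype.card_fin, ← Nat.card_eq_fintype_card] at h
  rw [← h]
  refine (Nat.card_congr (Equiv.subtypeEquiv (Fintype.finsetEquivSet (α := Fin n)) ?_)).symm
  intro s
  change s.card = v ↔ Nat.card ((s : Set (Fin n))) = v
  have h1 : Nat.card ((s : Set (Fin n))) = s.card := by
    change Nat.card {x // x ∈ s} = _
    rw [Nat.card_eq_fintype_card, Fintype.card_coe]
  rw [h1]

/-- the elements of a set containing the poles -/
def poleEquiv {A : Type} (X : Set (A ⊕ Bool)) (hX : ∀ b, Sum.inr b ∈ X) :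
    X ≃ {a : A // Sum.inl a ∈ X} ⊕ Bool where
  toFun x := match x with
    | ⟨.inl a, h⟩ => .inl ⟨a, h⟩
    | ⟨.inr b, _⟩ => .inr b
  invFun y := match y with
    | .inl a => ⟨.inl a.1, a.2⟩
    | .inr b => ⟨.inr b, hX b⟩
  left_inv := by rintro ⟨a | b, h⟩ <;> rfl
  right_inv := by rintro (a | b) <;> rfl

theorem card_pole {A : Type} [Finite A] (X : Set (A ⊕ Bool)) (hX : ∀ b, Sum.inr b ∈ X) :
    Nat.card X = Nat.card {a : A // Sum.inl a ∈ X} + 2 := by
  rw [Nat.card_congr (poleEquiv X hX), Nat.card_sum]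
  simp

theorem card_XP (k v : ℕ) : Nat.card {X : Set (Fin k ⊕ Bool) //
    (∀ b, Sum.inr b ∈ X) ∧ Nat.card X = v + 2} = k.choose v := by
  classical
  rw [← card_sets]
  refine Nat.card_congr
    { toFun := fun X => ⟨{a | Sum.inl a ∈ X.1}, ?_⟩
      invFun := fun Y => ⟨{x | ∀ a, x = Sum.inl a → a ∈ Y.1}, ?_, ?_⟩
      left_inv := ?_
      right_inv := ?_ }
  · have h := card_pole X.1 X.2.1
    rw [X.2.2] at h
    exact (Nat.add_right_cancel h).symm
  · intro b a h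
    cases h
  · have h1 : ∀ b, (Sum.inr b : Fin k ⊕ Bool) ∈ {x : Fin k ⊕ Bool | ∀ a, x = Sum.inl a → a ∈ Y.1} :=
      fun b a h => by cases h
    rw [card_pole _ h1]
    refine congrArg (fun m : ℕ => m + 2) ((Nat.card_congr (Equiv.subtypeEquiv (Equiv.refl _)
      ?_)).trans Y.2)
    intro a
    constructor
    · intro h
      exact h a rfl
    · intro h b hb
      cases hb
      exact h
  · rintro ⟨X, hX, hX'⟩
    apply Subtype.ext
    ext x
    rcases x with a | b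
    · constructor
      · intro h
        exact h a rfl
      · intro h b hb
        cases hb
        exact h
    · constructor
      · intro _
        exact hX b
      · intro _ a h
        cases h
  · rintro ⟨Y, hY⟩
    apply Subtype.ext
    ext a
    constructor
    · intro h
      exact h a rfl
    · intro h b hb
      cases hb
      exact h

theorem card_graphs {U W : Type} (φ : U ≃ W) (R : SimpleGraph U → Prop) (R' : SimpleGraph W → Prop)
    (h : ∀ K : SimpleGraph U, ∀ L : SimpleGraph W, (∀ x y, K.Adj x y ↔ L.Adj (φ x) (φ y)) →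
      (R K ↔ R' L)) :
    Nat.card {K : SimpleGraph U // R K} = Nat.card {K : SimpleGraph W // R' K} := by
  refine Nat.card_congr
    { toFun := fun K => ⟨K.1.comap φ.symm, (h K.1 _ (fun x y => by simp)).1 K.2⟩
      invFun := fun K => ⟨K.1.comap φ, (h _ K.1 (fun x y => by simp)).2 K.2⟩
      left_inv := fun K => Subtype.ext (by ext x y; simp)
      right_inv := fun K => Subtype.ext (by ext x y; simp) }

theorem iso_edges {U W : Type} {K : SimpleGraph U} {L : SimpleGraph W} (e : K ≃g L) :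
    Nat.card K.edgeSet = Nat.card L.edgeSet := Nat.card_congr e.mapEdgeSet

/-! ### pairs over a fixed core -/

/-- the planar graphs with core set `X` and torso `K` -/
abbrev EK {V : Type} (X : Set V) (K : SimpleGraph X) :=
  {E : SimpleGraph V // IsPlanar E ∧ IsCore E X ∧ torso E X = K}

/-- vertex set and torso -/
abbrev IXK (V : Type) (v e : ℕ) := Σ X : {X : Set V // Nat.card X = v},
  {K : SimpleGraph X.1 // ThreeConn K ∧ IsPlanar K ∧ Nat.card K.edgeSet = e}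

theorem pairs_card (n v e : ℕ) (Q : SimpleGraph (Fin n) → Set (Fin n) → Prop) :
    (Nat.card {p : SimpleGraph (Fin n) × Set (Fin n) // IsPlanar p.1 ∧ IsCore p.1 p.2 ∧
      Nat.card p.2 = v ∧ coreE p.1 p.2 = e ∧ Q p.1 p.2} : ℝ) =
      ∑ᶠ i : IXK (Fin n) v e, (Nat.card {E : EK i.1.1 i.2.1 // Q E.1 i.1.1} : ℝ) := by
  classical
  let φ : {p : SimpleGraph (Fin n) × Set (Fin n) // IsPlanar p.1 ∧ IsCore p.1 p.2 ∧
      Nat.card p.2 = v ∧ coreE p.1 p.2 = e ∧ Q p.1 p.2} ≃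
      (Σ i : IXK (Fin n) v e, {E : EK i.1.1 i.2.1 // Q E.1 i.1.1}) :=
    { toFun := fun p => ⟨⟨⟨p.1.2, p.2.2.2.1⟩, ⟨torso p.1.1 p.1.2, p.2.2.1.three,
        torso_planar p.2.1 _ p.2.2.1.att2, p.2.2.2.2.1⟩⟩,
        ⟨⟨p.1.1, p.2.1, p.2.2.1, rfl⟩, p.2.2.2.2.2⟩⟩
      invFun := fun i => ⟨(i.2.1.1, i.1.1.1), i.2.1.2.1, i.2.1.2.2.1, i.1.1.2, by
        have h := i.1.2.2.2.2
        rw [← i.2.1.2.2.2] at h
        exact h, i.2.2⟩
      left_inv := fun _ => rfl
      right_inv := by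
        rintro ⟨⟨⟨X, hX⟩, ⟨K, hK⟩⟩, ⟨⟨E, hE⟩, hQ⟩⟩
        have hE3 : torso E X = K := hE.2.2
        subst hE3
        rfl }
  have := Fintype.ofFinite (IXK (Fin n) v e)
  rw [Nat.card_congr φ, Nat.card_sigma, finsum_eq_sum_of_fintype]
  push_cast
  rfl

theorem ixk_card (n v e : ℕ) {P : PG0} (hP : InvPG0 P) :
    (Nat.card {i : IXK (Fin n) v e // P _ i.2.1} : ℝ) =
      n.choose v * (v.factorial * kP P v e) := by
  classical
  let φ : {i : IXK (Fin n) v e // P _ i.2.1} ≃ (Σ X : {X : Set (Fin n) // Nat.card X = v},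
      {K : SimpleGraph X.1 // ThreeConn K ∧ IsPlanar K ∧ Nat.card K.edgeSet = e ∧ P _ K}) :=
    { toFun := fun i => ⟨i.1.1, ⟨i.1.2.1, i.1.2.2.1, i.1.2.2.2.1, i.1.2.2.2.2, i.2⟩⟩
      invFun := fun i => ⟨⟨i.1, ⟨i.2.1, i.2.2.1, i.2.2.2.1, i.2.2.2.2.1⟩⟩, i.2.2.2.2.2⟩
      left_inv := fun _ => rfl
      right_inv := fun _ => rfl }
  have := Fintype.ofFinite {X : Set (Fin n) // Nat.card X = v}
  rw [Nat.card_congr φ, Nat.card_sigma]
  have h1 : ∀ X : {X : Set (Fin n) // Nat.card X = v},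
      Nat.card {K : SimpleGraph X.1 // ThreeConn K ∧ IsPlanar K ∧ Nat.card K.edgeSet = e ∧
        P _ K} = Nat.card {K : SimpleGraph (Fin v) // ThreeConn K ∧ IsPlanar K ∧
          Nat.card K.edgeSet = e ∧ P _ K} := by
    intro X
    obtain ⟨ψ⟩ : Nonempty (X.1 ≃ Fin v) := ⟨Finite.equivFinOfCardEq X.2⟩
    refine card_graphs ψ _ _ fun K L hKL => ?_
    have i : K ≃g L := ⟨ψ, (hKL _ _).symm⟩
    rw [threeConn_iso i, planar_iso i, iso_edges i]
    have h2 : P _ K ↔ P _ L := ⟨hP _ _ _ _ ⟨i⟩, hP _ _ _ _ ⟨i.symm⟩⟩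
    rw [h2]
  simp only [h1]
  rw [Finset.sum_const, smul_eq_mul, Finset.card_univ, ← Nat.card_eq_fintype_card, card_sets]
  unfold kP
  have h0 : (v.factorial : ℝ) ≠ 0 := by exact_mod_cast v.factorial_ne_zero
  push_cast
  rw [mul_div_cancel₀ _ h0]

/-! ### the version with poles -/

/-- vertex set containing the poles and torso -/
abbrev IXP (k v e : ℕ) := Σ X : {X : Set (Fin k ⊕ Bool) //
    (∀ b, Sum.inr b ∈ X) ∧ Nat.card X = v + 2},
  {K : SimpleGraph X.1 // ThreeConn K ∧ IsPlanar K ∧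
    K.Adj ⟨Sum.inr false, X.2.1 false⟩ ⟨Sum.inr true, X.2.1 true⟩ ∧ Nat.card K.edgeSet = e + 1}

theorem ixp_card (k v e : ℕ) {P : PG2} (hP' : InvP P) :
    (Nat.card {i : IXP k v e // P _ i.2.1 ⟨Sum.inr false, i.1.2.1 false⟩
      ⟨Sum.inr true, i.1.2.1 true⟩} : ℝ) = k.choose v * (v.factorial * hP P v e) := by
  classical
  let φ : {i : IXP k v e // P _ i.2.1 ⟨Sum.inr false, i.1.2.1 false⟩
      ⟨Sum.inr true, i.1.2.1 true⟩} ≃ (Σ X : {X : Set (Fin k ⊕ Bool) //
        (∀ b, Sum.inr b ∈ X) ∧ Nat.card X = v + 2},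
      {K : SimpleGraph X.1 // ThreeConn K ∧ IsPlanar K ∧
        K.Adj ⟨Sum.inr false, X.2.1 false⟩ ⟨Sum.inr true, X.2.1 true⟩ ∧
        Nat.card K.edgeSet = e + 1 ∧ P _ K ⟨Sum.inr false, X.2.1 false⟩
          ⟨Sum.inr true, X.2.1 true⟩}) :=
    { toFun := fun i => ⟨i.1.1, ⟨i.1.2.1, i.1.2.2.1, i.1.2.2.2.1, i.1.2.2.2.2.1,
        i.1.2.2.2.2.2, i.2⟩⟩
      invFun := fun i => ⟨⟨i.1, ⟨i.2.1, i.2.2.1, i.2.2.2.1, i.2.2.2.2.1, i.2.2.2.2.2.1⟩⟩,
        i.2.2.2.2.2.2⟩
      left_inv := fun _ => rfl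
      right_inv := fun _ => rfl }
  have := Fintype.ofFinite {X : Set (Fin k ⊕ Bool) // (∀ b, Sum.inr b ∈ X) ∧ Nat.card X = v + 2}
  rw [Nat.card_congr φ, Nat.card_sigma]
  have h1 : ∀ X : {X : Set (Fin k ⊕ Bool) // (∀ b, Sum.inr b ∈ X) ∧ Nat.card X = v + 2},
      Nat.card {K : SimpleGraph X.1 // ThreeConn K ∧ IsPlanar K ∧
        K.Adj ⟨Sum.inr false, X.2.1 false⟩ ⟨Sum.inr true, X.2.1 true⟩ ∧
        Nat.card K.edgeSet = e + 1 ∧ P _ K ⟨Sum.inr false, X.2.1 false⟩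
          ⟨Sum.inr true, X.2.1 true⟩} = Nat.card {K : SimpleGraph (Fin v ⊕ Bool) // ThreeConn K ∧
        IsPlanar K ∧ K.Adj (Sum.inr false) (Sum.inr true) ∧ Nat.card K.edgeSet = e + 1 ∧
        P _ K (Sum.inr false) (Sum.inr true)} := by
    intro X
    obtain ⟨ψ⟩ : Nonempty ({a : Fin k // Sum.inl a ∈ X.1} ≃ Fin v) := by
      have h := card_pole X.1 X.2.1
      rw [X.2.2] at h
      exact ⟨Finite.equivFinOfCardEq (Nat.add_right_cancel h).symm⟩
    let χ : X.1 ≃ Fin v ⊕ Bool := (poleEquiv X.1 X.2.1).trans (Equiv.sumCongr ψ (Equiv.refl _))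
    have hχ : ∀ b, χ ⟨Sum.inr b, X.2.1 b⟩ = Sum.inr b := fun b => rfl
    refine card_graphs χ _ _ fun K L hKL => ?_
    let i : K ≃g L := ⟨χ, (hKL _ _).symm⟩
    have hi : ∀ b, i ⟨Sum.inr b, X.2.1 b⟩ = Sum.inr b := hχ
    rw [threeConn_iso i, planar_iso i, iso_edges i, hKL, hχ, hχ]
    have h2 : P _ K ⟨Sum.inr false, X.2.1 false⟩ ⟨Sum.inr true, X.2.1 true⟩ ↔
        P _ L (Sum.inr false) (Sum.inr true) := by
      constructor
      · intro h
        have h3 := hP' _ _ _ _ i _ _ h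
        rwa [hi, hi] at h3
      · intro h
        have h3 := hP' _ _ _ _ i.symm _ _ h
        have h4 : ∀ b, i.symm (Sum.inr b) = ⟨Sum.inr b, X.2.1 b⟩ := by
          intro b
          rw [← hi b, i.symm_apply_apply]
        rwa [h4, h4] at h3
    rw [h2]
  simp only [h1]
  rw [Finset.sum_const, smul_eq_mul, Finset.card_univ, ← Nat.card_eq_fintype_card, card_XP]
  unfold hP
  have h0 : (v.factorial : ℝ) ≠ 0 := by exact_mod_cast v.factorial_ne_zero
  push_cast
  rw [mul_div_cancel₀ _ h0]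

end Dia
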