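import Pool.Agent.Dia.GDefs
import Pool.Agent.DiamP.Conv

/-!
# Module CountA: distributing labels

`fib_sum`: for numbers `N i n` and a finite set `A`:
`sum over f : A → ι of prod_i N i |f⁻¹ i| = |A|! * (convolution over i of N i n / n!)(|A|)`.
Proof by induction on the list of the elements of `ι` (state it first for functions `A → Fin m`, or for
`Finset`-indexed families): choose the fibre of the first index, a subset of size `j`; there are
`choose |A| j` of them; `choose k j = k!/(j! (k-j)!)`.  `univ.toList` is a list without repetition of all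
elements; `cvL` of a permuted list is the same (`DiamP/Conv.lean`: `cvL_perm`).

`fib_card`: the number of elements of `Σ f : A → ι, ∀ i, S i (fibre of i)` when the cardinality of `S i B`
only depends on `|B|`.  (`Nat.card_sigma`, `Nat.card_pi`.)
-/

set_option linter.unusedSectionVars false

namespace Dia
open Finset Pool.Agent.DiamP

/-- the cardinality of `S A` depends only on the cardinality of the finite type `A` -/
structure CInv (S : Type → Type) : Prop where
  fin : ∀ A : Type, Finite A → Finite (S A)
  inv : ∀ A B : Type, Finite A → Nonempty (A ≃ B) → Nat.card (S A) = Nat.card (S B)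

/-- exponential counting sequence -/
noncomputable def ec (S : Type → Type) (n : ℕ) : ℝ := (Nat.card (S (Fin n)) : ℝ) / n.factorial

theorem CountA_step {A : Type} [Fintype A] [DecidableEq A] {m : ℕ}
    (F : (A → Fin (m + 1)) → ℝ) :
    ∑ f : A → Fin (m + 1), F f = ∑ B : Finset A, ∑ g : {a // a ∉ B} → Fin m,
      F (fun a => if h : a ∈ B then 0 else (g ⟨a, h⟩).succ) := by
  rw [← Fintype.sum_sigma (fun x : (Σ B : Finset A, ({a // a ∉ B} → Fin m)) =>
    F (fun a => if h : a ∈ x.1 then 0 else (x.2 ⟨a, h⟩).succ))]
  symm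
  refine Fintype.sum_bijective
    (fun (x : (Σ B : Finset A, ({a // a ∉ B} → Fin m))) (a : A) =>
      if h : a ∈ x.1 then (0 : Fin (m + 1)) else (x.2 ⟨a, h⟩).succ) ⟨?_, ?_⟩ _ _ (fun x => rfl)
  · rintro ⟨B, g⟩ ⟨B', g'⟩ h
    have hB : B = B' := by
      ext a
      have h1 := congrFun h a
      simp only at h1
      by_cases ha : a ∈ B
      · rw [dif_pos ha] at h1
        by_cases ha' : a ∈ B'
        · exact ⟨fun _ => ha', fun _ => ha⟩
        · rw [dif_neg ha'] at h1
          exact absurd h1.symm (Fin.succ_ne_zero _)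
      · rw [dif_neg ha] at h1
        by_cases ha' : a ∈ B'
        · rw [dif_pos ha'] at h1
          exact absurd h1 (Fin.succ_ne_zero _)
        · exact ⟨fun h => absurd h ha, fun h => absurd h ha'⟩
    subst hB
    have hg : g = g' := by
      funext ⟨a, ha⟩
      have h1 := congrFun h a
      simp only [dif_neg ha] at h1
      exact Fin.succ_injective _ h1
    rw [hg]
  · intro f
    refine ⟨⟨univ.filter fun a => f a = 0, fun a => (f a.1).pred (by
      have := a.2
      simpa using this)⟩, ?_⟩
    funext a
    by_cases ha : f a = 0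
    · simp [ha]
    · simp [ha]

theorem fib_sum_fin : ∀ (m : ℕ) (N : Fin m → ℕ → ℝ) (A : Type) [Fintype A] [DecidableEq A],
    ∑ f : A → Fin m, ∏ i, N i (Nat.card {a // f a = i}) = ((Fintype.card A).factorial : ℝ) *
      cvL (List.ofFn fun i n => N i n / n.factorial) (Fintype.card A) := by
  intro m
  induction m with
  | zero =>
    intro N A _ _
    rw [List.ofFn_zero, cvL_nil]
    by_cases hA : Fintype.card A = 0
    · have := Fintype.card_eq_zero_iff.1 hA
      rw [hA]
      simp [one0]
    · have : Nonempty A := Fintype.card_pos_iff.1 (Nat.pos_of_ne_zero hA)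
      have : IsEmpty (A → Fin 0) := ⟨fun f => (f (Classical.arbitrary A)).elim0⟩
      simp [one0, hA]
  | succ m ih =>
    intro N A _ _
    rw [CountA_step]
    have key : ∀ (B : Finset A), (∑ g : {a // a ∉ B} → Fin m, ∏ i, N i (Nat.card
        {a // (if h : a ∈ B then (0 : Fin (m + 1)) else (g ⟨a, h⟩).succ) = i})) =
        (fun j => N 0 j * (((Fintype.card A - j).factorial : ℝ) *
          cvL (List.ofFn fun (i : Fin m) n => N i.succ n / n.factorial) (Fintype.card A - j)))
          B.card := by
      intro B
      have hc : Fintype.card {a // a ∉ B} = Fintype.card A - B.card := by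
        rw [Fintype.card_subtype_compl, Fintype.card_coe]
      show _ = N 0 B.card * (((Fintype.card A - B.card).factorial : ℝ) *
          cvL (List.ofFn fun (i : Fin m) n => N i.succ n / n.factorial) (Fintype.card A - B.card))
      rw [← hc, ← ih (fun i => N i.succ) {a // a ∉ B}, Finset.mul_sum]
      refine Finset.sum_congr rfl fun g _ => ?_
      rw [Fin.prod_univ_succ]
      congr 1
      · congr 1
        have hB : B.card = Nat.card {a // a ∈ B} := by
          rw [Nat.card_eq_fintype_card, Fintype.card_coe]
        rw [hB]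
        apply Nat.card_congr
        refine Equiv.subtypeEquivRight fun a => ?_
        by_cases ha : a ∈ B
        · simp [ha]
        · simp [ha, Fin.succ_ne_zero]
      · refine Finset.prod_congr rfl fun i _ => ?_
        congr 1
        refine Nat.card_congr ⟨fun a => ⟨⟨a.1, fun ha => ?_⟩, ?_⟩, fun a => ⟨a.1.1, ?_⟩,
          fun a => rfl, fun a => rfl⟩
        · have h := a.2
          rw [dif_pos ha] at h
          exact absurd h.symm (Fin.succ_ne_zero _)
        · have h := a.2
          have ha : a.1 ∉ B := fun ha => by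
            rw [dif_pos ha] at h
            exact absurd h.symm (Fin.succ_ne_zero _)
          rw [dif_neg ha] at h
          exact Fin.succ_injective _ h
        · rw [dif_neg a.1.2]
          exact congrArg Fin.succ a.2
    rw [Finset.sum_congr rfl fun B _ => key B, ← Finset.powerset_univ,
      Finset.sum_powerset_apply_card (fun j => N 0 j * (((Fintype.card A - j).factorial : ℝ) *
          cvL (List.ofFn fun (i : Fin m) n => N i.succ n / n.factorial) (Fintype.card A - j))),
      Finset.card_univ, List.ofFn_succ, cvL_cons, cv_eq_range, Finset.mul_sum]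
    refine Finset.sum_congr rfl fun j hj => ?_
    have hj' : j ≤ Fintype.card A := by
      have := Finset.mem_range.1 hj
      omega
    have h1 : ((Fintype.card A).choose j : ℝ) * (j.factorial : ℝ) *
        ((Fintype.card A - j).factorial : ℝ) = ((Fintype.card A).factorial : ℝ) := by
      exact_mod_cast Nat.choose_mul_factorial_mul_factorial hj'
    have h2 : (j.factorial : ℝ) ≠ 0 := by exact_mod_cast j.factorial_ne_zero
    rw [nsmul_eq_mul, ← h1]
    field_simp

theorem CountA_perm {ι : Type} [Fintype ι] {m : ℕ} (e : ι ≃ Fin m) (F : ι → ℕ → ℝ) :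
    cvL ((univ : Finset ι).toList.map F) = cvL (List.ofFn fun i => F (e.symm i)) := by
  apply cvL_perm
  have h1 : (List.ofFn fun i => F (e.symm i)) = (List.ofFn fun i => e.symm i).map F := by
    rw [List.map_ofFn]
    rfl
  rw [h1]
  apply List.Perm.map
  rw [List.perm_ext_iff_of_nodup (Finset.nodup_toList _) (List.nodup_ofFn.2 e.symm.injective)]
  intro a
  simp only [Finset.mem_toList, Finset.mem_univ, true_iff, List.mem_ofFn]
  exact ⟨e a, by simp⟩

theorem fib_sum {ι : Type} [Fintype ι] [DecidableEq ι] (N : ι → ℕ → ℝ) (A : Type) [Fintype A]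
    [DecidableEq A] :
    ∑ f : A → ι, ∏ i, N i (Nat.card {a // f a = i}) = ((Fintype.card A).factorial : ℝ) *
      cvL ((univ : Finset ι).toList.map fun i n => N i n / n.factorial) (Fintype.card A) := by
  obtain ⟨e⟩ : Nonempty (ι ≃ Fin (Fintype.card ι)) := ⟨Fintype.equivFin ι⟩
  rw [CountA_perm e, ← fib_sum_fin (Fintype.card ι) (fun i => N (e.symm i)) A]
  refine Fintype.sum_equiv (Equiv.arrowCongr (Equiv.refl A) e) _ _ fun f => ?_
  refine Fintype.prod_equiv e _ _ fun i => ?_
  rw [Equiv.symm_apply_apply]
  congr 1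
  refine Nat.card_congr (Equiv.subtypeEquivRight fun a => ?_)
  simp [Equiv.arrowCongr]

theorem CInv.card_eq {S : Type → Type} (h : CInv S) (B : Type) [Finite B] :
    Nat.card (S B) = Nat.card (S (Fin (Nat.card B))) :=
  h.inv B _ inferInstance ⟨Finite.equivFin B⟩

theorem fib_card {ι : Type} [Fintype ι] [DecidableEq ι] (S : ι → Type → Type) (hS : ∀ i, CInv (S i))
    (A : Type) [Finite A] :
    (Nat.card (Σ f : A → ι, ∀ i, S i {a // f a = i}) : ℝ) = ((Nat.card A).factorial : ℝ) *
      cvL ((univ : Finset ι).toList.map fun i => ec (S i)) (Nat.card A) := by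
  classical
  have := Fintype.ofFinite A
  have : ∀ (f : A → ι) (i : ι), Finite (S i {a // f a = i}) := fun f i =>
    (hS i).fin _ inferInstance
  rw [Nat.card_sigma]
  simp only [Nat.card_pi]
  push_cast
  have h := fib_sum (fun i n => (Nat.card (S i (Fin n)) : ℝ)) A
  rw [Nat.card_eq_fintype_card (α := A)]
  have h2 : (fun i => ec (S i)) = fun (i : ι) (n : ℕ) =>
      (Nat.card (S i (Fin n)) : ℝ) / n.factorial := rfl
  rw [h2, ← h]
  refine Finset.sum_congr rfl fun f _ => Finset.prod_congr rfl fun i _ => ?_
  rw [(hS i).card_eq]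

theorem CountA_le {m k : ℕ} {X : Type} (T : (Fin k → Fin m) → Type)
    [∀ f, Finite (T f)] (N : Fin m → ℕ → ℝ)
    (hT : ∀ f, (Nat.card (T f) : ℝ) = ∏ i, N i (Nat.card {a // f a = i}))
    (e : X → Σ f : Fin k → Fin m, T f) (he : Function.Injective e) :
    (Nat.card X : ℝ) / k.factorial ≤
      cvL (List.ofFn fun i n => N i n / n.factorial) k := by
  have h1 : Nat.card X ≤ Nat.card (Σ f : Fin k → Fin m, T f) :=
    Nat.card_le_card_of_injective e he
  have h2 : (Nat.card (Σ f : Fin k → Fin m, T f) : ℝ) = (k.factorial : ℝ) *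
      cvL (List.ofFn fun i n => N i n / n.factorial) k := by
    rw [Nat.card_sigma]
    push_cast
    have h := fib_sum_fin m N (Fin k)
    rw [Fintype.card_fin] at h
    rw [← h]
    exact Finset.sum_congr rfl fun f _ => hT f
  have h3 : (0 : ℝ) < k.factorial := by exact_mod_cast k.factorial_pos
  rw [div_le_iff₀ h3, mul_comm, ← h2]
  exact_mod_cast h1

/-- two parts -/
theorem two_parts (F G H : Type → Type) (hG : CInv G) (hH : CInv H) (k : ℕ)
    (e : F (Fin k) → Σ f : Fin k → Fin 2, G {a // f a = 0} × H {a // f a = 1})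
    (he : Function.Injective e) : ec F k ≤ cv (ec G) (ec H) k := by
  have : ∀ f : Fin k → Fin 2, Finite (G {a // f a = 0} × H {a // f a = 1}) := fun f => by
    have := hG.fin {a // f a = 0} inferInstance
    have := hH.fin {a // f a = 1} inferInstance
    infer_instance
  have h := CountA_le (m := 2) (fun f => G {a // f a = 0} × H {a // f a = 1})
    ![fun n => (Nat.card (G (Fin n)) : ℝ), fun n => (Nat.card (H (Fin n)) : ℝ)]
    (fun f => by
      rw [Nat.card_prod, hG.card_eq, hH.card_eq, Fin.prod_univ_two, Nat.cast_mul]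
      rfl) e he
  refine h.trans (le_of_eq ?_)
  have e1 : cvL (List.ofFn fun (i : Fin 2) n => (![fun n => (Nat.card (G (Fin n)) : ℝ),
      fun n => (Nat.card (H (Fin n)) : ℝ)] : Fin 2 → ℕ → ℝ) i n / n.factorial) =
      cvL [ec G, ec H] := rfl
  rw [e1, cvL_cons, cvL_singleton]

/-- three parts -/
theorem three_parts (F G H I : Type → Type) (hG : CInv G) (hH : CInv H) (hI : CInv I) (k : ℕ)
    (e : F (Fin k) → Σ f : Fin k → Fin 3, G {a // f a = 0} × H {a // f a = 1} × I {a // f a = 2})
    (he : Function.Injective e) : ec F k ≤ cv (ec G) (cv (ec H) (ec I)) k := by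
  have : ∀ f : Fin k → Fin 3, Finite (G {a // f a = 0} × H {a // f a = 1} ×
      I {a // f a = 2}) := fun f => by
    have := hG.fin {a // f a = 0} inferInstance
    have := hH.fin {a // f a = 1} inferInstance
    have := hI.fin {a // f a = 2} inferInstance
    infer_instance
  have h := CountA_le (m := 3) (fun f => G {a // f a = 0} × H {a // f a = 1} × I {a // f a = 2})
    ![fun n => (Nat.card (G (Fin n)) : ℝ), fun n => (Nat.card (H (Fin n)) : ℝ),
      fun n => (Nat.card (I (Fin n)) : ℝ)]
    (fun f => by
      rw [Nat.card_prod, Nat.card_prod, hG.card_eq, hH.card_eq, hI.card_eq, Fin.prod_univ_three,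
        Nat.cast_mul, Nat.cast_mul, ← mul_assoc]
      rfl) e he
  refine h.trans (le_of_eq ?_)
  have e1 : cvL (List.ofFn fun (i : Fin 3) n => (![fun n => (Nat.card (G (Fin n)) : ℝ),
      fun n => (Nat.card (H (Fin n)) : ℝ), fun n => (Nat.card (I (Fin n)) : ℝ)] :
        Fin 3 → ℕ → ℝ) i n / n.factorial) =
      cvL [ec G, ec H, ec I] := rfl
  rw [e1, cvL_cons, cvL_cons, cvL_singleton]

/-- four parts -/
theorem four_parts (F G H I J : Type → Type) (hG : CInv G) (hH : CInv H) (hI : CInv I)
    (hJ : CInv J) (k : ℕ)
    (e : F (Fin k) → Σ f : Fin k → Fin 4,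
      G {a // f a = 0} × H {a // f a = 1} × I {a // f a = 2} × J {a // f a = 3})
    (he : Function.Injective e) :
    ec F k ≤ cv (ec G) (cv (ec H) (cv (ec I) (ec J))) k := by
  have : ∀ f : Fin k → Fin 4, Finite (G {a // f a = 0} × H {a // f a = 1} ×
      I {a // f a = 2} × J {a // f a = 3}) := fun f => by
    have := hG.fin {a // f a = 0} inferInstance
    have := hH.fin {a // f a = 1} inferInstance
    have := hI.fin {a // f a = 2} inferInstance
    have := hJ.fin {a // f a = 3} inferInstance
    infer_instance
  have h := CountA_le (m := 4)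
    (fun f => G {a // f a = 0} × H {a // f a = 1} × I {a // f a = 2} × J {a // f a = 3})
    ![fun n => (Nat.card (G (Fin n)) : ℝ), fun n => (Nat.card (H (Fin n)) : ℝ),
      fun n => (Nat.card (I (Fin n)) : ℝ), fun n => (Nat.card (J (Fin n)) : ℝ)]
    (fun f => by
      rw [Nat.card_prod, Nat.card_prod, Nat.card_prod, hG.card_eq, hH.card_eq, hI.card_eq,
        hJ.card_eq, Fin.prod_univ_four, Nat.cast_mul, Nat.cast_mul, Nat.cast_mul, ← mul_assoc,
        ← mul_assoc]
      rfl) e he
  refine h.trans (le_of_eq ?_)
  have e1 : cvL (List.ofFn fun (i : Fin 4) n => (![fun n => (Nat.card (G (Fin n)) : ℝ),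
      fun n => (Nat.card (H (Fin n)) : ℝ), fun n => (Nat.card (I (Fin n)) : ℝ),
      fun n => (Nat.card (J (Fin n)) : ℝ)] : Fin 4 → ℕ → ℝ) i n / n.factorial) =
      cvL [ec G, ec H, ec I, ec J] := rfl
  rw [e1, cvL_cons, cvL_cons, cvL_cons, cvL_singleton]

/-- the class of one-element sets -/
def One (A : Type) : Type := {_u : Unit // Nat.card A = 1}

theorem one_cinv : CInv One := by
  refine ⟨fun A _ => ?_, fun A B _ ⟨e⟩ => ?_⟩
  · unfold One
    infer_instance
  · unfold One
    rw [Nat.card_congr e]

theorem CountA_one (n : ℕ) : ec One n = if n = 1 then 1 else 0 := by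
  unfold ec One
  rw [Nat.card_fin]
  by_cases h : n = 1
  · subst h
    simp
  · simp [h]

theorem cv_one (f : ℕ → ℝ) : cv (ec One) f = sh f := by
  funext k
  rw [cv_eq_range]
  unfold sh
  cases k with
  | zero => simp [CountA_one]
  | succ k =>
    rw [Finset.sum_eq_single 1]
    · simp [CountA_one]
    · intro j _ hj
      simp [CountA_one, hj]
    · intro h
      exact absurd (Finset.mem_range.2 (by omega)) h

/-- structures with a marked element -/
def Mk (S : Type → Type) (A : Type) : Type := S A × A

theorem mk_cinv {S : Type → Type} (h : CInv S) : CInv (Mk S) := by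
  refine ⟨fun A hA => ?_, fun A B hA he => ?_⟩
  · have := h.fin A hA
    unfold Mk
    infer_instance
  · unfold Mk
    rw [Nat.card_prod, Nat.card_prod, h.inv A B hA he]
    obtain ⟨e⟩ := he
    rw [Nat.card_congr e]

theorem ec_mk (S : Type → Type) (n : ℕ) : ec (Mk S) n = n * ec S n := by
  unfold ec Mk
  rw [Nat.card_prod, Nat.card_fin]
  push_cast
  ring

theorem CountA_comap {X Y : Type} {f : X → Y} (hf : Function.Surjective f) :
    Function.Injective (fun G : SimpleGraph Y => G.comap f) := by
  intro G G' h
  ext a b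
  obtain ⟨a, rfl⟩ := hf a
  obtain ⟨b, rfl⟩ := hf b
  have h0 : G.comap f = G'.comap f := h
  have h1 : (G.comap f).Adj a b ↔ (G'.comap f).Adj a b := by
    rw [h0]
  exact h1

theorem CountA_cinv (T : Type → Type) (hT : ∀ A, Finite A → Finite (T A))
    (P : ∀ A : Type, SimpleGraph (T A) → Prop) (φ : ∀ {A B : Type}, (A ≃ B) → T A → T B)
    (hφ : ∀ (A B : Type) (e : A ≃ B), Function.Surjective (φ e))
    (hP : ∀ (A B : Type) [Finite A] [Finite B] (e : A ≃ B) (G : SimpleGraph (T B)), P B G →
      P A (G.comap (φ e))) : CInv fun A => {G : SimpleGraph (T A) // P A G} := by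
  have key : ∀ (A B : Type), Finite A → Finite B → Nonempty (A ≃ B) →
      Nat.card {G : SimpleGraph (T B) // P B G} ≤ Nat.card {G : SimpleGraph (T A) // P A G} := by
    intro A B hA hB ⟨e⟩
    have := hT A hA
    refine Nat.card_le_card_of_injective (fun G => ⟨G.1.comap (φ e), hP A B e G.1 G.2⟩) ?_
    intro G G' h
    apply Subtype.ext
    exact CountA_comap (hφ A B e) (congrArg Subtype.val h)
  refine ⟨fun A hA => ?_, fun A B hA he => ?_⟩
  · have := hT A hA
    infer_instance
  · obtain ⟨e⟩ := he
    have hB : Finite B := Finite.of_equiv A e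
    exact le_antisymm (key B A hB hA ⟨e.symm⟩) (key A B hA hB ⟨e⟩)

/-- classes of rooted graphs which are invariant under renaming -/
theorem cinv1 (P : ∀ A : Type, SimpleGraph (Option A) → Prop)
    (hP : ∀ (A B : Type) [Finite A] [Finite B] (e : A ≃ B) (G : SimpleGraph (Option B)), P B G →
      P A (G.comap (Option.map e))) : CInv fun A => {G : SimpleGraph (Option A) // P A G} :=
  CountA_cinv Option (fun _ _ => inferInstance) P (fun e => Option.map e)
    (fun _ _ e => fun x => by
      cases x with
      | none => exact ⟨none, rfl⟩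
      | some b => exact ⟨some (e.symm b), by simp⟩) hP

/-- classes of graphs with two poles which are invariant under renaming -/
theorem cinv2 (P : ∀ A : Type, SimpleGraph (A ⊕ Bool) → Prop)
    (hP : ∀ (A B : Type) [Finite A] [Finite B] (e : A ≃ B) (G : SimpleGraph (B ⊕ Bool)), P B G →
      P A (G.comap (Sum.map e id))) : CInv fun A => {G : SimpleGraph (A ⊕ Bool) // P A G} :=
  CountA_cinv (fun A => A ⊕ Bool) (fun _ _ => inferInstance) P (fun e => Sum.map e id)
    (fun _ _ e => Sum.map_surjective.2 ⟨e.surjective, Function.surjective_id⟩) hP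

/-- classes of graphs which are invariant under renaming -/
theorem cinv0 (P : ∀ A : Type, SimpleGraph A → Prop)
    (hP : ∀ (A B : Type) [Finite A] [Finite B] (e : A ≃ B) (G : SimpleGraph B), P B G →
      P A (G.comap e)) :
    CInv fun A => {G : SimpleGraph A // P A G} :=
  CountA_cinv (fun A => A) (fun _ h => h) P (fun e => e) (fun _ _ e => e.surjective) hP

end Dia
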