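import Pool.Agent.DiaA.LowC
import Pool.Agent.DiamP.Chap4

/-!
# The critical point, no big core, tails (end statements of (6.5), (6.6)); owner: helper87

All statements are proved in the files `Pool/Agent/DiaA` (same namespace `Dia`):
`rho_ge`, `sum_r`, `sum_d`, `sum_b`, `sum_g`, `R0_range`, `D0_range` (Rad), `crit_point`, `contr_num` (Sub),
`no_core` (Small), `tails` (TailsB), `dL_DL` (LowC).
-/
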