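import Pool.Agent.Dia.DecInv

/-!
# Module DecD: the edge between the poles, first values

`DD G` iff the graph `G' = G` without the edge between the poles satisfies `QQ` and (`G` has this edge or
`G ≠ ⊥`).  `addp G = addp G'`.  For `k ≥ 1` `QQ G'` implies `G' ≠ ⊥` (`Att2` for the component of an internal
vertex), for `k = 0` the only `QQ` graph is `⊥` and the only `DD` graph is the single edge (planar:
`planar_edge`; `CoreLt`: `coreLt_small`).  So the map `G ↦ (G.Adj poles, G')` is a bijection from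
`DD` to `Bool × QQ` for `k ≥ 1`, hence `dN M k = 2 qN M k`, and `dN M 0 = qN M 0 = 1`.
`Far2`: deleting an edge does not decrease distances between vertices which stay connected (in `QQ` and `DD`
graphs every internal vertex is connected to both poles through its component).
`pd`: `DD` with the edge between the poles: `pd = 1`; without: `QQ`, `k ≥ 1`.
-/

set_option linter.unusedSectionVars false

namespace Dia
open PGr Finset Pool.Agent.DiamP

/-- the graph without the edge between the poles -/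
def DecD_del {A : Type} (G : SimpleGraph (A ⊕ Bool)) : SimpleGraph (A ⊕ Bool) :=
  G \ SimpleGraph.edge (Sum.inr false) (Sum.inr true)

theorem DecD_del_le {A : Type} (G : SimpleGraph (A ⊕ Bool)) : DecD_del G ≤ G := sdiff_le

theorem DecD_addp_del {A : Type} (G : SimpleGraph (A ⊕ Bool)) : addp (DecD_del G) = addp G := by
  unfold addp DecD_del
  exact sdiff_sup_self _ _

theorem DecD_del_addp {A : Type} (G : SimpleGraph (A ⊕ Bool))
    (h : ¬ G.Adj (Sum.inr false) (Sum.inr true)) : DecD_del (addp G) = G := by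
  ext x y
  have h' : ¬ G.Adj (Sum.inr true) (Sum.inr false) := fun h' => h h'.symm
  simp only [addp, DecD_del, SimpleGraph.sup_adj, SimpleGraph.sdiff_adj, SimpleGraph.edge_adj]
  rcases x with x | x <;> rcases y with y | y <;> simp
  rcases x <;> rcases y <;> simp [h, h']

theorem DecD_del_of_not {A : Type} (G : SimpleGraph (A ⊕ Bool))
    (h : ¬ G.Adj (Sum.inr false) (Sum.inr true)) : DecD_del G = G := by
  ext x y
  have h' : ¬ G.Adj (Sum.inr true) (Sum.inr false) := fun h' => h h'.symm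
  simp only [DecD_del, SimpleGraph.sdiff_adj, SimpleGraph.edge_adj]
  rcases x with x | x <;> rcases y with y | y <;> simp
  rcases x <;> rcases y <;> simp [h, h']

theorem DecD_addp_of {A : Type} (G : SimpleGraph (A ⊕ Bool))
    (h : G.Adj (Sum.inr false) (Sum.inr true)) : addp G = G := by
  ext x y
  have h' : G.Adj (Sum.inr true) (Sum.inr false) := h.symm
  simp only [addp, SimpleGraph.sup_adj, SimpleGraph.edge_adj]
  rcases x with x | x <;> rcases y with y | y <;> simp
  rcases x <;> rcases y <;> simp [h, h']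

theorem DecD_del_not {A : Type} (G : SimpleGraph (A ⊕ Bool)) :
    ¬ (DecD_del G).Adj (Sum.inr false) (Sum.inr true) := by
  simp [DecD_del, SimpleGraph.edge_adj]

theorem DecD_addp_adj {A : Type} (G : SimpleGraph (A ⊕ Bool)) :
    (addp G).Adj (Sum.inr false) (Sum.inr true) := by
  simp [addp, SimpleGraph.edge_adj]

theorem DecD_del_att2 {A : Type} (G : SimpleGraph (A ⊕ Bool)) : Att2 (DecD_del G) ↔ Att2 G := by
  have h1 : (DecD_del G).comap Sum.inl = G.comap Sum.inl := by
    ext x y
    simp [DecD_del, SimpleGraph.edge_adj]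
  rw [DecInv_att2, DecInv_att2, h1]
  constructor
  · intro h a b
    obtain ⟨a', h1, h2⟩ := h a b
    exact ⟨a', h1, DecD_del_le G h2⟩
  · intro h a b
    obtain ⟨a', h1, h2⟩ := h a b
    refine ⟨a', h1, ?_⟩
    simpa [DecD_del, SimpleGraph.edge_adj] using h2

theorem DecD_ne_bot {A : Type} [Nonempty A] {G : SimpleGraph (A ⊕ Bool)} (h : Att2 G) : G ≠ ⊥ := by
  rintro rfl
  rw [DecInv_att2] at h
  obtain ⟨a', -, h2⟩ := h (Classical.arbitrary A) false
  simp at h2

theorem DecD_DD_iff {A : Type} [Nonempty A] (G : SimpleGraph (A ⊕ Bool)) :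
    DD G ↔ QQ (DecD_del G) := by
  constructor
  · rintro ⟨-, h2, h3⟩
    exact ⟨DecD_del_not G, (DecD_del_att2 G).2 h2, by rwa [DecD_addp_del]⟩
  · rintro ⟨-, h2, h3⟩
    have h2' := (DecD_del_att2 G).1 h2
    exact ⟨DecD_ne_bot h2', h2', by rwa [DecD_addp_del] at h3⟩

theorem DecD_inj {A : Type} {G H : SimpleGraph (A ⊕ Bool)} (h : DecD_del G = DecD_del H)
    (h' : G.Adj (Sum.inr false) (Sum.inr true) ↔ H.Adj (Sum.inr false) (Sum.inr true)) : G = H := by
  by_cases hG : G.Adj (Sum.inr false) (Sum.inr true)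
  · have hH := h'.1 hG
    rw [← DecD_addp_of G hG, ← DecD_addp_of H hH, ← DecD_addp_del G, ← DecD_addp_del H, h]
  · have hH : ¬ H.Adj (Sum.inr false) (Sum.inr true) := fun h0 => hG (h'.2 h0)
    rw [← DecD_del_of_not G hG, ← DecD_del_of_not H hH, h]

theorem DecD_es1_mono {P Q : ∀ A : Type, SimpleGraph (Option A) → Prop} (k : ℕ)
    (h : ∀ G, P (Fin k) G → Q (Fin k) G) : es1 P k ≤ es1 Q k := by
  unfold es1
  have : Nat.card {G : SimpleGraph (Option (Fin k)) // P _ G} ≤
      Nat.card {G : SimpleGraph (Option (Fin k)) // Q _ G} :=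
    Nat.card_le_card_of_injective (fun G => ⟨G.1, h G.1 G.2⟩)
      (fun G H hGH => Subtype.ext (Subtype.mk.inj hGH))
  gcongr

theorem DecD_es2_mono {P Q : ∀ A : Type, SimpleGraph (A ⊕ Bool) → Prop} (k : ℕ)
    (h : ∀ G, P (Fin k) G → Q (Fin k) G) : es2 P k ≤ es2 Q k := by
  unfold es2
  have : Nat.card {G : SimpleGraph (Fin k ⊕ Bool) // P _ G} ≤
      Nat.card {G : SimpleGraph (Fin k ⊕ Bool) // Q _ G} :=
    Nat.card_le_card_of_injective (fun G => ⟨G.1, h G.1 G.2⟩)
      (fun G H hGH => Subtype.ext (Subtype.mk.inj hGH))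
  gcongr

theorem DecD_core_mono {V : Type} {M M' : ℕ∞} (h : M ≤ M') {E : SimpleGraph V}
    (hE : CoreLt M E) : CoreLt M' E := fun X hX => lt_of_lt_of_le (hE X hX) h

/-- graphs on the poles alone -/
theorem DecD_two {A : Type} [IsEmpty A] (G : SimpleGraph (A ⊕ Bool)) :
    G = ⊥ ∨ G = SimpleGraph.edge (Sum.inr false) (Sum.inr true) := by
  by_cases h : G.Adj (Sum.inr false) (Sum.inr true)
  · right
    have h' : G.Adj (Sum.inr true) (Sum.inr false) := h.symm
    ext x y
    rcases x with x | x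
    · exact isEmptyElim x
    rcases y with y | y
    · exact isEmptyElim y
    rcases x <;> rcases y <;> simp [h, h', SimpleGraph.edge_adj]
  · left
    have h' : ¬ G.Adj (Sum.inr true) (Sum.inr false) := fun h' => h h'.symm
    ext x y
    rcases x with x | x
    · exact isEmptyElim x
    rcases y with y | y
    · exact isEmptyElim y
    rcases x <;> rcases y <;> simp [h, h']

theorem DecD_att2_empty {A : Type} [IsEmpty A] (G : SimpleGraph (A ⊕ Bool)) : Att2 G := by
  rw [DecInv_att2]
  intro a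
  exact isEmptyElim a

theorem DecD_edge_ne {A : Type} :
    (SimpleGraph.edge (Sum.inr false) (Sum.inr true) : SimpleGraph (A ⊕ Bool)) ≠ ⊥ := by
  intro h
  have h1 : (SimpleGraph.edge (Sum.inr false) (Sum.inr true) : SimpleGraph (A ⊕ Bool)).Adj
      (Sum.inr false) (Sum.inr true) := by simp [SimpleGraph.edge_adj]
  rw [h] at h1
  simp at h1

theorem DecD_planar_empty {A : Type} [IsEmpty A] (G : SimpleGraph (A ⊕ Bool)) :
    IsPlanar (addp G) := by
  have h : addp G = SimpleGraph.edge (Sum.inr false) (Sum.inr true) := by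
    rcases DecD_two (addp G) with h | h
    · exfalso
      have := DecD_addp_adj G
      rw [h] at this
      simp at this
    · exact h
  rw [h]
  exact planar_edge _ _

theorem DecD_core_empty (M : ℕ∞) (G : SimpleGraph (Fin 0 ⊕ Bool)) : CoreLt M (addp G) :=
  coreLt_small M _ (by simp [Nat.card_eq_fintype_card])

theorem qN_zero (M : ℕ∞) : qN M 0 = 1 := by
  unfold qN es2
  have h : Nat.card {G : SimpleGraph (Fin 0 ⊕ Bool) // QQ G ∧ CoreLt M (addp G)} = 1 := by
    rw [Nat.card_eq_one_iff_unique]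
    refine ⟨⟨fun G H => Subtype.ext ?_⟩, ⟨⟨⊥, ⟨by simp, DecD_att2_empty _, DecD_planar_empty _⟩,
      DecD_core_empty M _⟩⟩⟩
    have key : ∀ G : SimpleGraph (Fin 0 ⊕ Bool), QQ G → G = ⊥ := by
      intro G hG
      rcases DecD_two G with h | h
      · exact h
      · exfalso
        apply hG.1
        rw [h]
        simp [SimpleGraph.edge_adj]
    rw [key G.1 G.2.1, key H.1 H.2.1]
  rw [h]
  simp

theorem dN_zero (M : ℕ∞) : dN M 0 = 1 := by
  unfold dN es2
  have h : Nat.card {G : SimpleGraph (Fin 0 ⊕ Bool) // DD G ∧ CoreLt M (addp G)} = 1 := by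
    rw [Nat.card_eq_one_iff_unique]
    refine ⟨⟨fun G H => Subtype.ext ?_⟩, ⟨⟨SimpleGraph.edge (Sum.inr false) (Sum.inr true),
      ⟨DecD_edge_ne, DecD_att2_empty _, DecD_planar_empty _⟩, DecD_core_empty M _⟩⟩⟩
    have key : ∀ G : SimpleGraph (Fin 0 ⊕ Bool), DD G →
        G = SimpleGraph.edge (Sum.inr false) (Sum.inr true) := by
      intro G hG
      rcases DecD_two G with h | h
      · exact absurd h hG.1
      · exact h
    rw [key G.1 G.2.1, key H.1 H.2.1]
  rw [h]
  simp

theorem dN_eq (M : ℕ∞) {k : ℕ} (hk : 1 ≤ k) : dN M k = 2 * qN M k := by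
  classical
  unfold dN qN es2
  have : Nonempty (Fin k) := ⟨⟨0, hk⟩⟩
  have h : Nat.card {G : SimpleGraph (Fin k ⊕ Bool) // DD G ∧ CoreLt M (addp G)} =
      2 * Nat.card {G : SimpleGraph (Fin k ⊕ Bool) // QQ G ∧ CoreLt M (addp G)} := by
    have e : {G : SimpleGraph (Fin k ⊕ Bool) // DD G ∧ CoreLt M (addp G)} ≃
        Bool × {G : SimpleGraph (Fin k ⊕ Bool) // QQ G ∧ CoreLt M (addp G)} := by
      refine Equiv.ofBijective (fun G => (decide (G.1.Adj (Sum.inr false) (Sum.inr true)),
        ⟨DecD_del G.1, (DecD_DD_iff G.1).1 G.2.1, by rw [DecD_addp_del]; exact G.2.2⟩)) ⟨?_, ?_⟩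
      · intro G H hGH
        simp only [Prod.mk.injEq, Subtype.mk.injEq, decide_eq_decide] at hGH
        exact Subtype.ext (DecD_inj hGH.2 hGH.1)
      · rintro ⟨b, G, hG, hM⟩
        rcases b with _ | _
        · refine ⟨⟨G, (DecD_DD_iff G).2 (by rwa [DecD_del_of_not G hG.1]), hM⟩, ?_⟩
          simp only [Prod.mk.injEq, Subtype.mk.injEq, decide_eq_false_iff_not]
          exact ⟨hG.1, DecD_del_of_not G hG.1⟩
        · have h1 : addp (addp G) = addp G := DecD_addp_of _ (DecD_addp_adj G)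
          refine ⟨⟨addp G, (DecD_DD_iff _).2 (by rwa [DecD_del_addp G hG.1]), by rwa [h1]⟩, ?_⟩
          simp only [Prod.mk.injEq, Subtype.mk.injEq, decide_eq_true_eq]
          exact ⟨DecD_addp_adj G, DecD_del_addp G hG.1⟩
    rw [Nat.card_congr e, Nat.card_prod]
    simp
  rw [h]
  push_cast
  ring

theorem DecD_reach {A : Type} {G : SimpleGraph (A ⊕ Bool)} (h : Att2 G) (a : A) (b : Bool) :
    G.Reachable (Sum.inl a) (Sum.inr b) := by
  rw [DecInv_att2] at h
  obtain ⟨a', h1, h2⟩ := h a b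
  have h3 : G.Reachable (Sum.inl a') (Sum.inl a) :=
    h1.map (SimpleGraph.Hom.comap Sum.inl G)
  exact h3.symm.trans h2.reachable

theorem dF_le (L k : ℕ) : dF L k ≤ 2 * qF L k := by
  classical
  unfold dF qF es2
  have h : Nat.card {G : SimpleGraph (Fin k ⊕ Bool) // DD G ∧ Far2 L G} ≤
      2 * Nat.card {G : SimpleGraph (Fin k ⊕ Bool) // QQ G ∧ Far2 L G} := by
    rcases Nat.eq_zero_or_pos k with rfl | hk
    · have : IsEmpty {G : SimpleGraph (Fin 0 ⊕ Bool) // DD G ∧ Far2 L G} :=
        ⟨fun G => by obtain ⟨a, -⟩ := G.2.2; exact isEmptyElim a⟩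
      simp
    have : Nonempty (Fin k) := ⟨⟨0, hk⟩⟩
    have hfar : ∀ G : SimpleGraph (Fin k ⊕ Bool), DD G → Far2 L G → Far2 L (DecD_del G) := by
      rintro G hD ⟨a, ha⟩
      refine ⟨a, fun b => (ha b).trans ?_⟩
      exact (DecD_reach ((DecD_DD_iff G).1 hD).2.1 a b).dist_anti (DecD_del_le G)
    have := Nat.card_le_card_of_injective
      (fun G : {G : SimpleGraph (Fin k ⊕ Bool) // DD G ∧ Far2 L G} =>
        ((decide (G.1.Adj (Sum.inr false) (Sum.inr true)),
          ⟨DecD_del G.1, (DecD_DD_iff G.1).1 G.2.1, hfar G.1 G.2.1 G.2.2⟩) :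
            Bool × {G : SimpleGraph (Fin k ⊕ Bool) // QQ G ∧ Far2 L G})) (by
        intro G H hGH
        simp only [Prod.mk.injEq, Subtype.mk.injEq, decide_eq_decide] at hGH
        exact Subtype.ext (DecD_inj hGH.2 hGH.1))
    rw [Nat.card_prod] at this
    simpa using this
  have h' : (Nat.card {G : SimpleGraph (Fin k ⊕ Bool) // DD G ∧ Far2 L G} : ℝ) ≤
      2 * (Nat.card {G : SimpleGraph (Fin k ⊕ Bool) // QQ G ∧ Far2 L G} : ℝ) := by
    exact_mod_cast h
  calc (Nat.card {G : SimpleGraph (Fin k ⊕ Bool) // DD G ∧ Far2 L G} : ℝ) / k.factorial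
      ≤ (2 * (Nat.card {G : SimpleGraph (Fin k ⊕ Bool) // QQ G ∧ Far2 L G} : ℝ)) /
        k.factorial := by gcongr
    _ = _ := by ring

/-- exponential moments: `pd = 1` with the edge -/
theorem dT_le {θ : ℝ} (hθ : 0 ≤ θ) (k : ℕ) :
    dT θ k ≤ Real.exp θ * qN ⊤ k + if k = 0 then 0 else qT θ k := by
  classical
  have hpd : ∀ G : SimpleGraph (Fin k ⊕ Bool), G.Adj (Sum.inr false) (Sum.inr true) →
      pd G = 1 := fun G hG => SimpleGraph.dist_eq_one_iff_adj.2 hG
  rcases Nat.eq_zero_or_pos k with rfl | hk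
  · rw [if_pos rfl, add_zero, qN_zero, mul_one]
    unfold dT
    simp only [Nat.factorial_zero, Nat.cast_one, div_one]
    rw [Finset.sum_eq_single (SimpleGraph.edge (Sum.inr false) (Sum.inr true))]
    · split_ifs
      · rw [hpd _ (by simp [SimpleGraph.edge_adj])]
        simp
      · positivity
    · intro G _ hG
      rw [if_neg]
      intro hD
      rcases DecD_two G with h | h
      · exact hD.1 h
      · exact hG h
    · intro h
      exact absurd (Finset.mem_univ _) h
  · have : Nonempty (Fin k) := ⟨⟨0, hk⟩⟩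
    rw [if_neg (by omega)]
    have hq : qN ⊤ k = (∑ G : SimpleGraph (Fin k ⊕ Bool), if QQ G then (1 : ℝ) else 0) /
        k.factorial := by
      unfold qN es2
      congr 1
      have h1 : Nat.card {G : SimpleGraph (Fin k ⊕ Bool) // QQ G ∧ CoreLt ⊤ (addp G)} =
          Nat.card {G : SimpleGraph (Fin k ⊕ Bool) // QQ G} :=
        Nat.card_congr (Equiv.subtypeEquivRight fun G => ⟨fun h => h.1, fun h => ⟨h,
          coreLt_top _⟩⟩)
      rw [h1, Nat.card_eq_fintype_card, Fintype.card_subtype, Finset.sum_boole]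
    have hcard : (∑ G : SimpleGraph (Fin k ⊕ Bool),
        if DD G ∧ G.Adj (Sum.inr false) (Sum.inr true) then (1 : ℝ) else 0) ≤
        ∑ G : SimpleGraph (Fin k ⊕ Bool), if QQ G then (1 : ℝ) else 0 := by
      rw [Finset.sum_boole, Finset.sum_boole]
      have := Finset.card_le_card_of_injOn
        (s := Finset.univ.filter fun G : SimpleGraph (Fin k ⊕ Bool) =>
          DD G ∧ G.Adj (Sum.inr false) (Sum.inr true))
        (t := Finset.univ.filter fun G : SimpleGraph (Fin k ⊕ Bool) => QQ G) DecD_del (by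
          intro G hG
          simp only [Finset.coe_filter, Finset.mem_univ, true_and, Set.mem_ofPred_eq] at hG ⊢
          exact (DecD_DD_iff G).1 hG.1) (by
          intro G hG H hH hGH
          simp only [Finset.coe_filter, Finset.mem_univ, true_and, Set.mem_ofPred_eq] at hG hH
          exact DecD_inj hGH ⟨fun _ => hH.2, fun _ => hG.2⟩)
      exact_mod_cast this
    rw [hq]
    unfold dT qT
    rw [← mul_div_assoc, ← add_div]
    gcongr
    calc (∑ G : SimpleGraph (Fin k ⊕ Bool), if DD G then Real.exp (θ * pd G) else 0)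
        ≤ ∑ G : SimpleGraph (Fin k ⊕ Bool), (Real.exp θ *
          (if DD G ∧ G.Adj (Sum.inr false) (Sum.inr true) then (1 : ℝ) else 0) +
            if QQ G then Real.exp (θ * pd G) else 0) := by
          refine Finset.sum_le_sum fun G _ => ?_
          by_cases hD : DD G
          · rw [if_pos hD]
            by_cases hA : G.Adj (Sum.inr false) (Sum.inr true)
            · rw [if_pos ⟨hD, hA⟩, hpd G hA]
              have : (0 : ℝ) ≤ if QQ G then Real.exp (θ * ((1 : ℕ) : ℝ)) else 0 := by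
                split_ifs <;> positivity
              simp only [Nat.cast_one, mul_one] at this ⊢
              linarith
            · have hQ : QQ G := by
                have := (DecD_DD_iff G).1 hD
                rwa [DecD_del_of_not G hA] at this
              rw [if_pos hQ, if_neg (fun h => hA h.2)]
              simp
          · rw [if_neg hD]
            positivity
      _ = Real.exp θ * (∑ G : SimpleGraph (Fin k ⊕ Bool),
            if DD G ∧ G.Adj (Sum.inr false) (Sum.inr true) then (1 : ℝ) else 0) +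
          ∑ G : SimpleGraph (Fin k ⊕ Bool), if QQ G then Real.exp (θ * pd G) else 0 := by
          rw [Finset.sum_add_distrib, Finset.mul_sum]
      _ ≤ _ := by gcongr

theorem bN_zero (M : ℕ∞) : bN M 0 = 0 := by
  unfold bN es2
  have : IsEmpty {G : SimpleGraph (Fin 0 ⊕ Bool) // BB G ∧ CoreLt M (addp G)} :=
    ⟨fun G => by obtain ⟨a⟩ := G.2.1.2.1.nonempty; exact isEmptyElim a⟩
  simp

theorem pN_zero (M : ℕ∞) : pN M 0 = 0 := by
  unfold pN es1
  have : IsEmpty {G : SimpleGraph (Option (Fin 0)) // PP G ∧ CoreLt M G} :=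
    ⟨fun G => by obtain ⟨a⟩ := G.2.1.2.nonempty; exact isEmptyElim a⟩
  simp

theorem rN_zero (M : ℕ∞) : rN M 0 = 0 := by
  simp [rN, sh]

theorem rN_one (M : ℕ∞) : rN M 1 = 1 := by
  unfold rN sh es1
  have h : Nat.card {G : SimpleGraph (Option (Fin 0)) // RR G ∧ CoreLt M G} = 1 := by
    rw [Nat.card_eq_one_iff_unique]
    have : Unique (Option (Fin 0)) := ⟨⟨none⟩, fun a => by
      rcases a with _ | a
      · rfl
      · exact isEmptyElim a⟩
    refine ⟨⟨fun G H => Subtype.ext ?_⟩, ⟨⟨⊥, ⟨?_, planar_bot⟩, coreLt_small M _ (by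
      simp [Nat.card_eq_fintype_card])⟩⟩⟩
    · ext x y
      rw [Subsingleton.elim x y]
      simp
    · have : Nonempty (Option (Fin 0)) := ⟨none⟩
      exact ⟨fun x y => by rw [Subsingleton.elim x y]⟩
  simp only [Nat.one_ne_zero, if_false, Nat.sub_self]
  rw [h]
  simp

theorem gN_zero (M : ℕ∞) : gN M 0 = 1 := by
  unfold gN
  have h : Nat.card {G : SimpleGraph (Fin 0) // IsPlanar G ∧ CoreLt M G} = 1 := by
    rw [Nat.card_eq_one_iff_unique]
    refine ⟨⟨fun G H => Subtype.ext ?_⟩, ⟨⟨⊥, planar_bot, coreLt_small M _ (by simp)⟩⟩⟩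
    ext x y
    exact isEmptyElim x
  rw [h]
  simp

/-- a connected part is a part -/
theorem bN_le_qN (M : ℕ∞) (k : ℕ) : bN M k ≤ qN M k :=
  DecD_es2_mono (P := fun _ G => BB G ∧ CoreLt M (addp G))
    (Q := fun _ G => QQ G ∧ CoreLt M (addp G)) k
    fun _ h => ⟨⟨h.1.1, h.1.2.2.1, h.1.2.2.2⟩, h.2⟩

/-- monotonicity in `M` -/
theorem rN_mono {M M' : ℕ∞} (h : M ≤ M') (k : ℕ) : rN M k ≤ rN M' k := by
  unfold rN sh
  split_ifs
  · exact le_refl _
  · exact DecD_es1_mono (P := fun _ G => RR G ∧ CoreLt M G) (Q := fun _ G => RR G ∧ CoreLt M' G)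
      (k - 1) fun _ h' => ⟨h'.1, DecD_core_mono h h'.2⟩

theorem pN_mono {M M' : ℕ∞} (h : M ≤ M') (k : ℕ) : pN M k ≤ pN M' k :=
  DecD_es1_mono (P := fun _ G => PP G ∧ CoreLt M G) (Q := fun _ G => PP G ∧ CoreLt M' G) k
    fun _ h' => ⟨h'.1, DecD_core_mono h h'.2⟩

theorem qN_mono {M M' : ℕ∞} (h : M ≤ M') (k : ℕ) : qN M k ≤ qN M' k :=
  DecD_es2_mono (P := fun _ G => QQ G ∧ CoreLt M (addp G))
    (Q := fun _ G => QQ G ∧ CoreLt M' (addp G)) k fun _ h' => ⟨h'.1, DecD_core_mono h h'.2⟩

theorem dN_mono {M M' : ℕ∞} (h : M ≤ M') (k : ℕ) : dN M k ≤ dN M' k :=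
  DecD_es2_mono (P := fun _ G => DD G ∧ CoreLt M (addp G))
    (Q := fun _ G => DD G ∧ CoreLt M' (addp G)) k fun _ h' => ⟨h'.1, DecD_core_mono h h'.2⟩

theorem bN_mono {M M' : ℕ∞} (h : M ≤ M') (k : ℕ) : bN M k ≤ bN M' k :=
  DecD_es2_mono (P := fun _ G => BB G ∧ CoreLt M (addp G))
    (Q := fun _ G => BB G ∧ CoreLt M' (addp G)) k fun _ h' => ⟨h'.1, DecD_core_mono h h'.2⟩

/-- the classes with and without separating vertex -/
theorem bN_split (M : ℕ∞) (k : ℕ) : bN M k = bS M k + bRig M k := by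
  classical
  unfold bN bS bRig es2
  rw [← add_div]
  congr 1
  rw [← Nat.cast_add]
  congr 1
  simp only [Nat.card_eq_fintype_card, Fintype.card_subtype]
  rw [← Finset.card_filter_add_card_filter_not
    (s := Finset.univ.filter fun G : SimpleGraph (Fin k ⊕ Bool) => BB G ∧ CoreLt M (addp G))
    (fun G => ∃ w, Sep G w)]
  rw [Finset.filter_filter, Finset.filter_filter]
  congr 2 <;> (ext G; simp only [Finset.mem_filter, Finset.mem_univ, true_and, and_assoc])

end Dia
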