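import Pool.Agent.Dia.DecDefs

/-!
# Module DecInv: all classes are invariant under renaming

`e : A ≃ B`; `G.comap (Option.map e)` is isomorphic to `G` by `Option.map e`, `G.comap (Sum.map e id)` by
`Sum.map e id`, with the roots and poles preserved.  All properties (connected, planar: `planar_iso`,
`Att2`, adjacency of poles, `CoreLt`: `coreLt_iso`, distances) are invariant under isomorphism; for
`addp`: `addp (G.comap (Sum.map e id)) = (addp G).comap (Sum.map e id)`.
`Inv1 P` and `Inv2 P` are exactly the hypotheses of `cinv1`, `cinv2`.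
-/

set_option linter.unusedSectionVars false

namespace Dia
open PGr Finset Pool.Agent.DiamP

def Inv1 (P : ∀ A : Type, SimpleGraph (Option A) → Prop) : Prop :=
  ∀ (A B : Type) [Finite A] [Finite B] (e : A ≃ B) (G : SimpleGraph (Option B)), P B G →
    P A (G.comap (Option.map e))

def Inv2 (P : ∀ A : Type, SimpleGraph (A ⊕ Bool) → Prop) : Prop :=
  ∀ (A B : Type) [Finite A] [Finite B] (e : A ≃ B) (G : SimpleGraph (B ⊕ Bool)), P B G →
    P A (G.comap (Sum.map e id))

theorem inv1_and {P Q : ∀ A : Type, SimpleGraph (Option A) → Prop} (hP : Inv1 P) (hQ : Inv1 Q) :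
    Inv1 fun A G => P A G ∧ Q A G := fun A B _ _ e G h => ⟨hP A B e G h.1, hQ A B e G h.2⟩

theorem inv2_and {P Q : ∀ A : Type, SimpleGraph (A ⊕ Bool) → Prop} (hP : Inv2 P) (hQ : Inv2 Q) :
    Inv2 fun A G => P A G ∧ Q A G := fun A B _ _ e G h => ⟨hP A B e G h.1, hQ A B e G h.2⟩

/-- the isomorphism for rooted graphs -/
def DecInv_iso1 {A B : Type} (e : A ≃ B) (G : SimpleGraph (Option B)) :
    G.comap (Option.map e) ≃g G where
  toEquiv := Equiv.optionCongr e
  map_rel_iff' := Iff.rfl

/-- the isomorphism for graphs with two poles -/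
def DecInv_iso2 {A B : Type} (e : A ≃ B) (G : SimpleGraph (B ⊕ Bool)) :
    G.comap (Sum.map e id) ≃g G where
  toEquiv := Equiv.sumCongr e (Equiv.refl Bool)
  map_rel_iff' := Iff.rfl

/-- the isomorphism for graphs -/
def DecInv_iso0 {A B : Type} (e : A ≃ B) (G : SimpleGraph B) : G.comap e ≃g G where
  toEquiv := e
  map_rel_iff' := Iff.rfl

theorem DecInv_addp {A B : Type} (e : A ≃ B) (G : SimpleGraph (B ⊕ Bool)) :
    addp (G.comap (Sum.map e id)) = (addp G).comap (Sum.map e id) := by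
  ext x y
  have hinj : Function.Injective (Sum.map e id : A ⊕ Bool → B ⊕ Bool) :=
    Function.Injective.sumMap e.injective Function.injective_id
  simp only [addp, SimpleGraph.sup_adj, SimpleGraph.comap_adj, SimpleGraph.edge_adj]
  rcases x with x | x <;> rcases y with y | y <;> simp

theorem DecInv_dist {V W : Type} {G : SimpleGraph V} {H : SimpleGraph W} (f : G ≃g H) (x y : V) :
    G.dist x y = H.dist (f x) (f y) := by
  by_cases h : G.Reachable x y
  · apply le_antisymm
    · have h' : H.Reachable (f x) (f y) := h.map f.toHom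
      obtain ⟨p, hp⟩ := h'.exists_walk_length_eq_dist
      have hq := SimpleGraph.dist_le (p.map f.symm.toHom)
      rw [SimpleGraph.Walk.length_map, hp] at hq
      have e1 : f.symm.toHom (f x) = x := f.symm_apply_apply x
      have e2 : f.symm.toHom (f y) = y := f.symm_apply_apply y
      rw [e1, e2] at hq
      exact hq
    · obtain ⟨p, hp⟩ := h.exists_walk_length_eq_dist
      have hq := SimpleGraph.dist_le (p.map f.toHom)
      rw [SimpleGraph.Walk.length_map, hp] at hq
      exact hq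
  · have h' : ¬ H.Reachable (f x) (f y) := fun h' => h ((SimpleGraph.Iso.reachable_iff).1 h')
    rw [SimpleGraph.dist_eq_zero_of_not_reachable h, SimpleGraph.dist_eq_zero_of_not_reachable h']

/-- `Att2` without components -/
theorem DecInv_att2 {A : Type} (G : SimpleGraph (A ⊕ Bool)) :
    Att2 G ↔ ∀ (a : A) (b : Bool), ∃ a', (G.comap Sum.inl).Reachable a' a ∧
      G.Adj (Sum.inl a') (Sum.inr b) := by
  constructor
  · intro h a b
    obtain ⟨a', ha', hadj⟩ := h ((G.comap Sum.inl).connectedComponentMk a) b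
    exact ⟨a', SimpleGraph.ConnectedComponent.eq.1 ha', hadj⟩
  · intro h C b
    induction C using SimpleGraph.ConnectedComponent.ind with
    | _ a =>
      obtain ⟨a', ha', hadj⟩ := h a b
      exact ⟨a', SimpleGraph.ConnectedComponent.eq.2 ha', hadj⟩

/-- `Sep` without components -/
theorem DecInv_sep {A : Type} (G : SimpleGraph (A ⊕ Bool)) (w : A) :
    Sep G w ↔ ∀ a a' : ({w}ᶜ : Set A), ((G.comap Sum.inl).induce ({w}ᶜ : Set A)).Reachable a a' →
      G.Adj (Sum.inl a.1) (Sum.inr false) → ¬ G.Adj (Sum.inl a'.1) (Sum.inr true) := by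
  constructor
  · intro h a a' hr h1 h2
    exact h (((G.comap Sum.inl).induce ({w}ᶜ : Set A)).connectedComponentMk a)
      ⟨⟨a, rfl, h1⟩, ⟨a', (SimpleGraph.ConnectedComponent.eq.2 hr).symm, h2⟩⟩
  · intro h C ⟨⟨a, ha, h1⟩, ⟨a', ha', h2⟩⟩
    refine h a a' ?_ h1 h2
    rw [SimpleGraph.ConnectedComponent.mem_supp_iff] at ha ha'
    exact SimpleGraph.ConnectedComponent.eq.1 (ha.trans ha'.symm)

theorem DecInv_att2_inv {A B : Type} (e : A ≃ B) (G : SimpleGraph (B ⊕ Bool)) (h : Att2 G) :
    Att2 (G.comap (Sum.map e id)) := by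
  rw [DecInv_att2] at h ⊢
  intro a b
  obtain ⟨c, hc, hadj⟩ := h (e a) b
  refine ⟨e.symm c, ?_, ?_⟩
  · have h1 : ((G.comap (Sum.map e id)).comap Sum.inl) = (G.comap Sum.inl).comap e := by
      ext x y; simp
    rw [h1, ← (DecInv_iso0 e (G.comap Sum.inl)).reachable_iff]
    change (G.comap Sum.inl).Reachable (e (e.symm c)) (e a)
    rwa [e.apply_symm_apply]
  · simpa using hadj

theorem DecInv_planar_inv {A B : Type} [Finite A] [Finite B] (e : A ≃ B)
    (G : SimpleGraph (B ⊕ Bool)) (h : IsPlanar (addp G)) :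
    IsPlanar (addp (G.comap (Sum.map e id))) := by
  rw [DecInv_addp]
  exact (planar_iso (DecInv_iso2 e (addp G))).2 h

theorem inv_RR : Inv1 fun _ G => RR G := by
  intro A B _ _ e G h
  exact ⟨(DecInv_iso1 e G).connected_iff.2 h.1, (planar_iso (DecInv_iso1 e G)).2 h.2⟩

theorem inv_PP : Inv1 fun _ G => PP G := by
  intro A B _ _ e G h
  refine ⟨inv_RR A B e G h.1, ?_⟩
  have h1 : ((G.comap (Option.map e)).comap some) = (G.comap some).comap e := by
    ext x y; simp
  rw [h1]
  exact (DecInv_iso0 e (G.comap some)).connected_iff.2 h.2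

theorem inv_QQ : Inv2 fun _ G => QQ G := by
  intro A B _ _ e G h
  exact ⟨fun h' => h.1 (by simpa using h'), DecInv_att2_inv e G h.2.1,
    DecInv_planar_inv e G h.2.2⟩

theorem inv_DD : Inv2 fun _ G => DD G := by
  intro A B _ _ e G h
  refine ⟨fun h' => h.1 ?_, DecInv_att2_inv e G h.2.1, DecInv_planar_inv e G h.2.2⟩
  ext x y
  have hs : Function.Surjective (Sum.map e id : A ⊕ Bool → B ⊕ Bool) :=
    Function.Surjective.sumMap e.surjective Function.surjective_id
  obtain ⟨x, rfl⟩ := hs x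
  obtain ⟨y, rfl⟩ := hs y
  change (G.comap (Sum.map e id)).Adj x y ↔ _
  rw [h']
  simp

theorem inv_BB : Inv2 fun _ G => BB G := by
  intro A B _ _ e G h
  refine ⟨fun h' => h.1 (by simpa using h'), ?_, DecInv_att2_inv e G h.2.2.1,
    DecInv_planar_inv e G h.2.2.2⟩
  have h1 : ((G.comap (Sum.map e id)).comap Sum.inl) = (G.comap Sum.inl).comap e := by
    ext x y; simp
  rw [h1]
  exact (DecInv_iso0 e (G.comap Sum.inl)).connected_iff.2 h.2.1

theorem inv_core1 (M : ℕ∞) : Inv1 fun _ G => CoreLt M G := by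
  intro A B _ _ e G h
  exact (coreLt_iso (DecInv_iso1 e G) M).2 h

theorem inv_core2 (M : ℕ∞) : Inv2 fun _ G => CoreLt M (addp G) := by
  intro A B _ _ e G h
  rw [DecInv_addp]
  exact (coreLt_iso (DecInv_iso2 e (addp G)) M).2 h

theorem inv_far1 (L : ℕ) : Inv1 fun _ G => Far1 L G := by
  intro A B _ _ e G h
  obtain ⟨a, ha⟩ := h
  refine ⟨e.symm a, ?_⟩
  rw [DecInv_dist (DecInv_iso1 e G)]
  change L ≤ G.dist (some (e (e.symm a))) none
  rwa [e.apply_symm_apply]

theorem inv_far2 (L : ℕ) : Inv2 fun _ G => Far2 L G := by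
  intro A B _ _ e G h
  obtain ⟨a, ha⟩ := h
  refine ⟨e.symm a, fun b => ?_⟩
  rw [DecInv_dist (DecInv_iso2 e G)]
  change L ≤ G.dist (Sum.inl (e (e.symm a))) (Sum.inr b)
  rw [e.apply_symm_apply]
  exact ha b

theorem pd_comap {A B : Type} (e : A ≃ B) (G : SimpleGraph (B ⊕ Bool)) :
    pd (G.comap (Sum.map e id)) = pd G := by
  unfold pd
  rw [DecInv_dist (DecInv_iso2 e G)]
  rfl

theorem inv_pd (l : ℕ) : Inv2 fun _ G => l < pd G := by
  intro A B _ _ e G h
  rw [pd_comap]
  exact h

theorem DecInv_sep_iff {A B : Type} (e : A ≃ B) (G : SimpleGraph (B ⊕ Bool)) (w : A) :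
    Sep G (e w) → Sep (G.comap (Sum.map e id)) w := by
  rw [DecInv_sep, DecInv_sep]
  intro h a a' hr h1 h2
  have hmem : ∀ a : ({w}ᶜ : Set A), e a.1 ∈ ({e w}ᶜ : Set B) := by
    intro a ha
    exact a.2 (e.injective ha)
  let f : (((G.comap (Sum.map e id)).comap Sum.inl).induce ({w}ᶜ : Set A)) →g
      ((G.comap Sum.inl).induce ({e w}ᶜ : Set B)) :=
    { toFun := fun a => ⟨e a.1, hmem a⟩
      map_rel' := fun {x y} hxy => by simpa using hxy }
  exact h ⟨e a.1, hmem a⟩ ⟨e a'.1, hmem a'⟩ (hr.map f) (by simpa using h1) (by simpa using h2)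

theorem inv_sep : Inv2 fun A G => ∃ w : A, Sep G w := by
  intro A B _ _ e G h
  obtain ⟨w, hw⟩ := h
  refine ⟨e.symm w, DecInv_sep_iff e G _ ?_⟩
  rwa [e.apply_symm_apply]

theorem inv_nsep : Inv2 fun A G => ¬ ∃ w : A, Sep G w := by
  intro A B _ _ e G h
  rintro ⟨w, hw⟩
  apply h
  refine ⟨e w, ?_⟩
  have h1 : (G.comap (Sum.map e id)).comap (Sum.map e.symm id) = G := by
    ext x y
    rcases x with x | x <;> rcases y with y | y <;> simp
  have := DecInv_sep_iff e.symm (G.comap (Sum.map e id)) (e w)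
  rw [e.symm_apply_apply, h1] at this
  exact this hw

end Dia
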