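import Pool.Agent.Dia.DecInv
import Pool.Agent.DiamP.Conv

/-!
# Module DecP: the smallest neighbour of the root

`p_le`: `G` with `PP G`, `CoreLt M G` on `Option (Fin k)`.  Let `v` be the smallest element of `Fin k` with
`G.Adj none (some v)` (exists: `G` connected, `k ≥ 1` as `G.comap some` is connected, hence nonempty).  The
components of `(G.comap some).induce {v}ᶜ` are all adjacent to `v` (as `G.comap some` is connected).
`f v = 0`; `f x = 1` if the component of `x` is not adjacent to the root; `f x = 2` otherwise.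
Part 0: `One`.  Part 1: the graph on `Option T` with root `v`: `G.comap` of the map `none ↦ some v`,
`some x ↦ some x`: connected, planar (`planar_comap`), `CoreLt` (`coreLt_part1`, `c` = `v`).
Part 2: on `Q ⊕ Bool`, poles: `false ↦` root, `true ↦ v`: `G.comap` with the edge between the poles deleted:
`QQ`; `addp` of it is the `G.comap` itself (`G` has the edge root - `v`): planar and `CoreLt` by
`coreLt_part1` with `c = v`.  Injective: the edges of `G` are: root - `v`, edges inside `T ∪ {v}`, edges inside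
`Q ∪ {root, v}`.  `three_parts`, `one_cinv`, `cv_one` (`rN M = sh (rE M) = cv (ec One) (rE M)`); `cv_assoc` is in
`DiamP/Conv.lean`.

`p_far` (`L ≥ 2`): let `a` be a vertex at distance `≥ L` from the root; `a ≠ v`.  If some such `a` is in `T`:
inside the part 1 its distance from `v` is at least its distance from `v` in `G`, `≥ L - 1`: `Far1 (L-1)`.
Otherwise `a` is in part 2, and its distances (in part 2 without the edge between the poles, where it is
connected to both) from the root and from `v` are `≥ L - 1`: `Far2 (L-1)`.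
-/

set_option linter.unusedSectionVars false

namespace Dia
open PGr Finset Pool.Agent.DiamP

/-- the graph without the root and without `v` -/
private def DecP_K {A : Type} (G : SimpleGraph (Option A)) (v : A) : SimpleGraph A where
  Adj x y := G.Adj (some x) (some y) ∧ x ≠ v ∧ y ≠ v
  symm := ⟨fun _ _ h => ⟨h.1.symm, h.2.2, h.2.1⟩⟩
  loopless := ⟨fun _ h => G.loopless.irrefl _ h.1⟩

open Classical in
/-- the three parts -/
private noncomputable def DecP_f {A : Type} (G : SimpleGraph (Option A)) (v : A) (x : A) : Fin 3 :=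
  if x = v then 0
  else if ∃ y, (DecP_K G v).Reachable x y ∧ G.Adj none (some y) then 2 else 1

private theorem DecP_f_zero {A : Type} {G : SimpleGraph (Option A)} {v x : A} :
    DecP_f G v x = 0 ↔ x = v := by
  unfold DecP_f
  split_ifs with h h'
  · simp [h]
  · simp [h]
  · simp [h]

private theorem DecP_f_one {A : Type} {G : SimpleGraph (Option A)} {v x : A} :
    DecP_f G v x = 1 ↔ x ≠ v ∧ ¬ ∃ y, (DecP_K G v).Reachable x y ∧ G.Adj none (some y) := by
  unfold DecP_f
  split_ifs with h h'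
  · simp [h]
  · simp only [h', not_true_eq_false, and_false, iff_false]
    decide
  · simp [h, h']

private theorem DecP_f_two {A : Type} {G : SimpleGraph (Option A)} {v x : A} :
    DecP_f G v x = 2 ↔ x ≠ v ∧ ∃ y, (DecP_K G v).Reachable x y ∧ G.Adj none (some y) := by
  unfold DecP_f
  split_ifs with h h'
  · simp [h]
  · simp [h, h']
  · simp only [h', and_false, iff_false]
    decide

private theorem DecP_f_cases {A : Type} (G : SimpleGraph (Option A)) (v x : A) :
    x = v ∨ (x ≠ v ∧ DecP_f G v x = 1) ∨ (x ≠ v ∧ DecP_f G v x = 2) := by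
  by_cases h : x = v
  · exact Or.inl h
  · by_cases h' : ∃ y, (DecP_K G v).Reachable x y ∧ G.Adj none (some y)
    · exact Or.inr (Or.inr ⟨h, DecP_f_two.2 ⟨h, h'⟩⟩)
    · exact Or.inr (Or.inl ⟨h, DecP_f_one.2 ⟨h, h'⟩⟩)

private theorem DecP_f_K {A : Type} {G : SimpleGraph (Option A)} {v x y : A}
    (h : (DecP_K G v).Reachable x y) (hx : x ≠ v) (hy : y ≠ v) : DecP_f G v x = DecP_f G v y := by
  rcases DecP_f_cases G v x with h1 | ⟨-, h1⟩ | ⟨-, h1⟩
  · exact absurd h1 hx
  · rw [h1]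
    symm
    rw [DecP_f_one] at h1 ⊢
    refine ⟨hy, ?_⟩
    rintro ⟨z, hz, hz'⟩
    exact h1.2 ⟨z, h.trans hz, hz'⟩
  · rw [h1]
    symm
    rw [DecP_f_two] at h1 ⊢
    obtain ⟨-, z, hz, hz'⟩ := h1
    exact ⟨hy, z, h.symm.trans hz, hz'⟩

/-- reachability inside a part -/
private theorem DecP_reach {A : Type} {G : SimpleGraph (Option A)} {v x y : A} {i : Fin 3}
    (hx : x ≠ v) (hxi : DecP_f G v x = i) (h : (DecP_K G v).Reachable x y) :
    ∃ hy : DecP_f G v y = i, y ≠ v ∧
      (G.comap fun t : {x // DecP_f G v x = i} => (some t.1 : Option A)).Reachable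
        ⟨x, hxi⟩ ⟨y, hy⟩ := by
  obtain ⟨w⟩ := h
  induction w with
  | nil => exact ⟨hxi, hx, SimpleGraph.Reachable.refl _⟩
  | cons hadj w ih =>
    rename_i u z w'
    have hz : DecP_f G v z = i := by
      rw [← DecP_f_K (SimpleGraph.Adj.reachable hadj) hx hadj.2.2]
      exact hxi
    obtain ⟨hy, hyv, hr⟩ := ih hadj.2.2 hz
    refine ⟨hy, hyv, SimpleGraph.Reachable.trans (SimpleGraph.Adj.reachable ?_) hr⟩
    exact hadj.1

private theorem DecP_tov {A : Type} {G : SimpleGraph (Option A)} {v : A}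
    (hc : (G.comap some).Connected) (x : A) (hx : x ≠ v) :
    ∃ y, (DecP_K G v).Reachable x y ∧ G.Adj (some y) (some v) := by
  obtain ⟨w⟩ := hc.preconnected x v
  induction w with
  | nil => exact absurd rfl hx
  | cons hadj w ih =>
    rename_i u z w'
    by_cases hz : z = w'
    · subst hz
      exact ⟨u, SimpleGraph.Reachable.refl _, hadj⟩
    · obtain ⟨y, hy, hy'⟩ := ih hz
      refine ⟨y, SimpleGraph.Reachable.trans (SimpleGraph.Adj.reachable ?_) hy, hy'⟩
      exact ⟨hadj, hx, hz⟩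

private def DecP_m1 {A : Type} (f : A → Fin 3) (v : A) : Option {x // f x = 1} → Option A
  | none => some v
  | some t => some t.1

private def DecP_m2 {A : Type} (f : A → Fin 3) (v : A) : {x // f x = 2} ⊕ Bool → Option A
  | Sum.inl t => some t.1
  | Sum.inr false => none
  | Sum.inr true => some v

private theorem DecP_m1_inj {A : Type} {f : A → Fin 3} {v : A} (hv : f v = 0) :
    Function.Injective (DecP_m1 f v) := by
  rintro (_ | t) (_ | t') h
  · rfl
  · simp only [DecP_m1, Option.some.injEq] at h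
    have := t'.2
    rw [← h, hv] at this
    exact absurd this (by decide)
  · simp only [DecP_m1, Option.some.injEq] at h
    have := t.2
    rw [h, hv] at this
    exact absurd this (by decide)
  · simp only [DecP_m1, Option.some.injEq] at h
    rw [Subtype.ext h]

private theorem DecP_m2_inj {A : Type} {f : A → Fin 3} {v : A} (hv : f v = 0) :
    Function.Injective (DecP_m2 f v) := by
  rintro (t | _ | _) (t' | _ | _) h
  · simp only [DecP_m2, Option.some.injEq] at h
    rw [Subtype.ext h]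
  · simp [DecP_m2] at h
  · simp only [DecP_m2, Option.some.injEq] at h
    have := t.2
    rw [h, hv] at this
    exact absurd this (by decide)
  · simp [DecP_m2] at h
  · rfl
  · simp [DecP_m2] at h
  · simp only [DecP_m2, Option.some.injEq] at h
    have := t'.2
    rw [← h, hv] at this
    exact absurd this (by decide)
  · simp [DecP_m2] at h
  · rfl

private theorem DecP_r1 {A : Type} {f : A → Fin 3} {v : A} (y : Option A) :
    y ∈ Set.range (DecP_m1 f v) ↔ y = some v ∨ ∃ x, f x = 1 ∧ y = some x := by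
  constructor
  · rintro ⟨_ | t, rfl⟩
    · exact Or.inl rfl
    · exact Or.inr ⟨t.1, t.2, rfl⟩
  · rintro (rfl | ⟨x, hx, rfl⟩)
    · exact ⟨none, rfl⟩
    · exact ⟨some ⟨x, hx⟩, rfl⟩

private theorem DecP_r2 {A : Type} {f : A → Fin 3} {v : A} (y : Option A) :
    y ∈ Set.range (DecP_m2 f v) ↔ y = none ∨ y = some v ∨ ∃ x, f x = 2 ∧ y = some x := by
  constructor
  · rintro ⟨t | _ | _, rfl⟩
    · exact Or.inr (Or.inr ⟨t.1, t.2, rfl⟩)
    · exact Or.inl rfl
    · exact Or.inr (Or.inl rfl)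
  · rintro (rfl | rfl | ⟨x, hx, rfl⟩)
    · exact ⟨Sum.inr false, rfl⟩
    · exact ⟨Sum.inr true, rfl⟩
    · exact ⟨Sum.inl ⟨x, hx⟩, rfl⟩

private theorem DecP_cover {A : Type} (G : SimpleGraph (Option A)) (v : A) (y : Option A) :
    y ∈ Set.range (DecP_m1 (DecP_f G v) v) ∨ y ∈ Set.range (DecP_m2 (DecP_f G v) v) := by
  rw [DecP_r1, DecP_r2]
  rcases y with _ | x
  · exact Or.inr (Or.inl rfl)
  · rcases DecP_f_cases G v x with rfl | ⟨-, h⟩ | ⟨-, h⟩
    · exact Or.inl (Or.inl rfl)
    · exact Or.inl (Or.inr ⟨x, h, rfl⟩)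
    · exact Or.inr (Or.inr (Or.inr ⟨x, h, rfl⟩))

private theorem DecP_inter {A : Type} (G : SimpleGraph (Option A)) (v : A) (y : Option A)
    (h1 : y ∈ Set.range (DecP_m1 (DecP_f G v) v)) (h2 : y ∈ Set.range (DecP_m2 (DecP_f G v) v)) :
    y = some v := by
  rw [DecP_r1] at h1
  rw [DecP_r2] at h2
  rcases h1 with h1 | ⟨x, hx, rfl⟩
  · exact h1
  · rcases h2 with h2 | h2 | ⟨x', hx', h2⟩
    · simp at h2
    · exact h2
    · rw [Option.some.injEq] at h2
      subst h2
      rw [hx] at hx'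
      exact absurd hx' (by decide)

private theorem DecP_edges {A : Type} (G : SimpleGraph (Option A)) (v : A) (x y : Option A)
    (h : G.Adj x y) :
    (x ∈ Set.range (DecP_m1 (DecP_f G v) v) ∧ y ∈ Set.range (DecP_m1 (DecP_f G v) v)) ∨
      (x ∈ Set.range (DecP_m2 (DecP_f G v) v) ∧ y ∈ Set.range (DecP_m2 (DecP_f G v) v)) := by
  have hroot : ∀ y, G.Adj none (some y) → some y ∈ Set.range (DecP_m2 (DecP_f G v) v) := by
    intro y hy
    rw [DecP_r2]
    by_cases hyv : y = v
    · exact Or.inr (Or.inl (by rw [hyv]))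
    · exact Or.inr (Or.inr ⟨y, DecP_f_two.2 ⟨hyv, y, SimpleGraph.Reachable.refl _, hy⟩, rfl⟩)
  have hnone : (none : Option A) ∈ Set.range (DecP_m2 (DecP_f G v) v) := by
    rw [DecP_r2]
    exact Or.inl rfl
  have hv1 : (some v : Option A) ∈ Set.range (DecP_m1 (DecP_f G v) v) := by
    rw [DecP_r1]
    exact Or.inl rfl
  have hv2 : (some v : Option A) ∈ Set.range (DecP_m2 (DecP_f G v) v) := by
    rw [DecP_r2]
    exact Or.inr (Or.inl rfl)
  rcases x with _ | x
  · rcases y with _ | y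
    · exact absurd h (G.loopless.irrefl _)
    · exact Or.inr ⟨hnone, hroot y h⟩
  · rcases y with _ | y
    · exact Or.inr ⟨hroot x h.symm, hnone⟩
    · by_cases hx : x = v
      · subst hx
        rcases DecP_cover G x (some y) with h1 | h1
        · exact Or.inl ⟨hv1, h1⟩
        · exact Or.inr ⟨hv2, h1⟩
      · by_cases hy : y = v
        · subst hy
          rcases DecP_cover G y (some x) with h1 | h1
          · exact Or.inl ⟨h1, hv1⟩
          · exact Or.inr ⟨h1, hv2⟩
        · have hxy := DecP_f_K (SimpleGraph.Adj.reachable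
            (⟨h, hx, hy⟩ : (DecP_K G v).Adj x y)) hx hy
          rw [DecP_r1, DecP_r1, DecP_r2, DecP_r2]
          rcases DecP_f_cases G v x with h1 | ⟨-, h1⟩ | ⟨-, h1⟩
          · exact absurd h1 hx
          · exact Or.inl ⟨Or.inr ⟨x, h1, rfl⟩, Or.inr ⟨y, by rw [← hxy, h1], rfl⟩⟩
          · exact Or.inr ⟨Or.inr (Or.inr ⟨x, h1, rfl⟩),
              Or.inr (Or.inr ⟨y, by rw [← hxy, h1], rfl⟩)⟩

/-- the first part -/
private noncomputable def DecP_g1 {A : Type} (G : SimpleGraph (Option A)) (v : A) :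
    SimpleGraph (Option {x // DecP_f G v x = 1}) := G.comap (DecP_m1 (DecP_f G v) v)

/-- the second part -/
private noncomputable def DecP_g2 {A : Type} (G : SimpleGraph (Option A)) (v : A) :
    SimpleGraph ({x // DecP_f G v x = 2} ⊕ Bool) where
  Adj x y := G.Adj (DecP_m2 (DecP_f G v) v x) (DecP_m2 (DecP_f G v) v y) ∧
    ¬ ((∃ b, x = Sum.inr b) ∧ ∃ b, y = Sum.inr b)
  symm := ⟨fun _ _ h => ⟨h.1.symm, fun h' => h.2 ⟨h'.2, h'.1⟩⟩⟩
  loopless := ⟨fun _ h => G.loopless.irrefl _ h.1⟩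

private theorem DecP_addp {A : Type} {G : SimpleGraph (Option A)} {v : A}
    (hv : G.Adj none (some v)) :
    addp (DecP_g2 G v) = G.comap (DecP_m2 (DecP_f G v) v) := by
  ext x y
  simp only [addp, SimpleGraph.sup_adj, SimpleGraph.comap_adj, SimpleGraph.edge_adj]
  constructor
  · rintro (h | ⟨h | h, -⟩)
    · exact h.1
    · rw [h.1, h.2]
      exact hv
    · rw [h.1, h.2]
      exact hv.symm
  · intro h
    by_cases hb : (∃ b, x = Sum.inr b) ∧ ∃ b, y = Sum.inr b
    · obtain ⟨⟨b, rfl⟩, ⟨b', rfl⟩⟩ := hb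
      right
      rcases b with _ | _
      · rcases b' with _ | _
        · exact absurd h (G.loopless.irrefl _)
        · exact ⟨Or.inl ⟨rfl, rfl⟩, by simp⟩
      · rcases b' with _ | _
        · exact ⟨Or.inr ⟨rfl, rfl⟩, by simp⟩
        · exact absurd h (G.loopless.irrefl _)
    · exact Or.inl ⟨h, hb⟩

private theorem DecP_g2_comap {A : Type} (G : SimpleGraph (Option A)) (v : A) :
    (DecP_g2 G v).comap Sum.inl =
      G.comap fun t : {x // DecP_f G v x = 2} => (some t.1 : Option A) := by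
  ext x y
  simp only [SimpleGraph.comap_adj]
  constructor
  · intro h
    exact h.1
  · intro h
    refine ⟨h, ?_⟩
    rintro ⟨⟨b, hb⟩, -⟩
    simp at hb

private theorem DecP_att {A : Type} {G : SimpleGraph (Option A)} {v : A}
    (hc : (G.comap some).Connected) : Att2 (DecP_g2 G v) := by
  intro C b
  induction C using SimpleGraph.ConnectedComponent.ind with
  | h t =>
    have h2 := DecP_f_two.1 t.2
    have key : ∀ y, (DecP_K G v).Reachable t.1 y →
        G.Adj (some y) (DecP_m2 (DecP_f G v) v (Sum.inr b)) →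
        ∃ a ∈ (((DecP_g2 G v).comap Sum.inl).connectedComponentMk t).supp,
          (DecP_g2 G v).Adj (Sum.inl a) (Sum.inr b) := by
      intro y hy hadj
      obtain ⟨hy2, -, hr⟩ := DecP_reach h2.1 t.2 hy
      refine ⟨⟨y, hy2⟩, ?_, ?_⟩
      · rw [SimpleGraph.ConnectedComponent.mem_supp_iff]
        apply SimpleGraph.ConnectedComponent.sound
        rw [DecP_g2_comap]
        exact hr.symm
      · refine ⟨hadj, ?_⟩
        rintro ⟨⟨b, hb⟩, -⟩
        simp at hb
    rcases b with _ | _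
    · obtain ⟨y, hy, hy'⟩ := h2.2
      exact key y hy hy'.symm
    · obtain ⟨y, hy, hy'⟩ := DecP_tov hc t.1 h2.1
      exact key y hy hy'

private theorem DecP_QQ {A : Type} [Finite A] {G : SimpleGraph (Option A)} {v : A} (hG : PP G)
    (hv : G.Adj none (some v)) : QQ (DecP_g2 G v) := by
  refine ⟨fun h => h.2 ⟨⟨_, rfl⟩, ⟨_, rfl⟩⟩, DecP_att hG.2, ?_⟩
  rw [DecP_addp hv]
  exact planar_comap _ (DecP_m2_inj (DecP_f_zero.2 rfl)) hG.1.2

private theorem DecP_RR {A : Type} [Finite A] {G : SimpleGraph (Option A)} {v : A} (hG : PP G) :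
    RR (DecP_g1 G v) := by
  refine ⟨?_, planar_comap _ (DecP_m1_inj (DecP_f_zero.2 rfl)) hG.1.2⟩
  have key : ∀ x, (DecP_g1 G v).Reachable x none := by
    rintro (_ | t)
    · exact SimpleGraph.Reachable.refl _
    · have h1 := DecP_f_one.1 t.2
      obtain ⟨y, hy, hy'⟩ := DecP_tov hG.2 t.1 h1.1
      obtain ⟨hy2, -, hr⟩ := DecP_reach h1.1 t.2 hy
      have h2 : (DecP_g1 G v).Reachable (some t) (some ⟨y, hy2⟩) := by
        obtain ⟨w⟩ := hr
        exact ⟨w.map (⟨some, fun h => h⟩ :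
          (G.comap fun t : {x // DecP_f G v x = 1} => (some t.1 : Option A)) →g DecP_g1 G v)⟩
      refine h2.trans (SimpleGraph.Adj.reachable ?_)
      exact hy'
  rw [SimpleGraph.connected_iff]
  exact ⟨fun x y => (key x).trans (key y).symm, ⟨none⟩⟩

private theorem DecP_C1 {A : Type} [Finite A] {G : SimpleGraph (Option A)} {v : A} {M : ℕ∞}
    (hM : CoreLt M G) : CoreLt M (DecP_g1 G v) := by
  refine coreLt_part1 hM (DecP_m1 (DecP_f G v) v) (DecP_m1_inj (DecP_f_zero.2 rfl))
    (Set.range (DecP_m2 (DecP_f G v) v)) (some v) ?_ ?_ (DecP_edges G v)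
  · ext y
    simp only [Set.mem_union, Set.mem_univ, iff_true]
    exact DecP_cover G v y
  · rintro y ⟨h1, h2⟩
    exact DecP_inter G v y h1 h2

private theorem DecP_C2 {A : Type} [Finite A] {G : SimpleGraph (Option A)} {v : A} {M : ℕ∞}
    (hv : G.Adj none (some v)) (hM : CoreLt M G) : CoreLt M (addp (DecP_g2 G v)) := by
  rw [DecP_addp hv]
  refine coreLt_part1 hM (DecP_m2 (DecP_f G v) v) (DecP_m2_inj (DecP_f_zero.2 rfl))
    (Set.range (DecP_m1 (DecP_f G v) v)) (some v) ?_ ?_ (fun x y h => (DecP_edges G v x y h).symm)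
  · ext y
    simp only [Set.mem_union, Set.mem_univ, iff_true]
    exact (DecP_cover G v y).symm
  · rintro y ⟨h1, h2⟩
    exact DecP_inter G v y h2 h1

/-- the graph from its parts -/
private def DecP_s1 {A : Type} (f : A → Fin 3) : Option {x // f x = 1} → Option A → Prop
  | none, y => ∃ v, f v = 0 ∧ y = some v
  | some t, y => y = some t.1

private def DecP_s2 {A : Type} (f : A → Fin 3) : {x // f x = 2} ⊕ Bool → Option A → Prop
  | Sum.inl t, y => y = some t.1
  | Sum.inr false, y => y = none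
  | Sum.inr true, y => ∃ v, f v = 0 ∧ y = some v

private def DecP_rel {A : Type} (f : A → Fin 3) (g1 : SimpleGraph (Option {x // f x = 1}))
    (g2 : SimpleGraph ({x // f x = 2} ⊕ Bool)) (x y : Option A) : Prop :=
  (∃ a b, g1.Adj a b ∧ DecP_s1 f a x ∧ DecP_s1 f b y) ∨
    ∃ a b, (addp g2).Adj a b ∧ DecP_s2 f a x ∧ DecP_s2 f b y

private theorem DecP_s1_iff {A : Type} (G : SimpleGraph (Option A)) (v : A)
    (a : Option {x // DecP_f G v x = 1}) (y : Option A) :
    DecP_s1 (DecP_f G v) a y ↔ y = DecP_m1 (DecP_f G v) v a := by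
  rcases a with _ | t
  · constructor
    · rintro ⟨v', hv', rfl⟩
      rw [DecP_f_zero.1 hv']
      rfl
    · intro h
      exact ⟨v, DecP_f_zero.2 rfl, h⟩
  · exact Iff.rfl

private theorem DecP_s2_iff {A : Type} (G : SimpleGraph (Option A)) (v : A)
    (a : {x // DecP_f G v x = 2} ⊕ Bool) (y : Option A) :
    DecP_s2 (DecP_f G v) a y ↔ y = DecP_m2 (DecP_f G v) v a := by
  rcases a with t | _ | _
  · exact Iff.rfl
  · exact Iff.rfl
  · constructor
    · rintro ⟨v', hv', rfl⟩
      rw [DecP_f_zero.1 hv']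
      rfl
    · intro h
      exact ⟨v, DecP_f_zero.2 rfl, h⟩

private theorem DecP_rel_eq {A : Type} {G : SimpleGraph (Option A)} {v : A}
    (hv : G.Adj none (some v)) :
    DecP_rel (DecP_f G v) (DecP_g1 G v) (DecP_g2 G v) = G.Adj := by
  funext x y
  apply propext
  unfold DecP_rel
  rw [DecP_addp hv]
  simp only [DecP_s1_iff, DecP_s2_iff]
  constructor
  · rintro (⟨a, b, h, rfl, rfl⟩ | ⟨a, b, h, rfl, rfl⟩)
    · exact h
    · exact h
  · intro h
    rcases DecP_edges G v x y h with ⟨⟨a, rfl⟩, ⟨b, rfl⟩⟩ | ⟨⟨a, rfl⟩, ⟨b, rfl⟩⟩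
    · exact Or.inl ⟨a, b, h, rfl, rfl⟩
    · exact Or.inr ⟨a, b, h, rfl, rfl⟩

private theorem DecP_ex {A : Type} {G : SimpleGraph (Option A)} (h : PP G) :
    ∃ v, G.Adj none (some v) := by
  obtain ⟨a⟩ := h.2.nonempty
  obtain ⟨w⟩ := h.1.1.preconnected none (some a)
  cases w with
  | cons hadj w =>
    rename_i u
    rcases u with _ | v
    · exact absurd hadj (G.loopless.irrefl _)
    · exact ⟨v, hadj⟩

private theorem DecP_one {A : Type} (G : SimpleGraph (Option A)) (v : A) :
    Nat.card {x // DecP_f G v x = 0} = 1 := by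
  rw [Nat.card_eq_one_iff_unique]
  constructor
  · constructor
    intro x y
    apply Subtype.ext
    rw [DecP_f_zero.1 x.2, DecP_f_zero.1 y.2]
  · exact ⟨⟨v, DecP_f_zero.2 rfl⟩⟩

/-- the common part of the proofs -/
private theorem DecP_main (P : ∀ A : Type, SimpleGraph (Option A) → Prop)
    (P1 : ∀ A : Type, SimpleGraph (Option A) → Prop) (P2 : ∀ A : Type, SimpleGraph (A ⊕ Bool) → Prop)
    (h1 : Inv1 P1) (h2 : Inv2 P2) (k : ℕ)
    (hP : ∀ G : SimpleGraph (Option (Fin k)), P (Fin k) G → PP G)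
    (hP1 : ∀ (G : SimpleGraph (Option (Fin k))) (h : P (Fin k) G),
      P1 _ (DecP_g1 G (DecP_ex (hP G h)).choose))
    (hP2 : ∀ (G : SimpleGraph (Option (Fin k))) (h : P (Fin k) G),
      P2 _ (DecP_g2 G (DecP_ex (hP G h)).choose)) :
    es1 P k ≤ cv (sh (es1 P1)) (es2 P2) k := by
  have hc1 : CInv (fun A => {G : SimpleGraph (Option A) // P1 A G}) := cinv1 P1 h1
  have hc2 : CInv (fun A => {G : SimpleGraph (A ⊕ Bool) // P2 A G}) := cinv2 P2 h2
  let e : {G : SimpleGraph (Option (Fin k)) // P (Fin k) G} →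
      Σ f : Fin k → Fin 3, One {a // f a = 0} ×
        {G : SimpleGraph (Option {a // f a = 1}) // P1 {a // f a = 1} G} ×
        {G : SimpleGraph ({a // f a = 2} ⊕ Bool) // P2 {a // f a = 2} G} :=
    fun p => ⟨DecP_f p.1 (DecP_ex (hP p.1 p.2)).choose, ⟨(), DecP_one _ _⟩,
      ⟨DecP_g1 p.1 (DecP_ex (hP p.1 p.2)).choose, hP1 p.1 p.2⟩,
      ⟨DecP_g2 p.1 (DecP_ex (hP p.1 p.2)).choose, hP2 p.1 p.2⟩⟩
  let dec : (Σ f : Fin k → Fin 3, One {a // f a = 0} ×
        {G : SimpleGraph (Option {a // f a = 1}) // P1 {a // f a = 1} G} ×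
        {G : SimpleGraph ({a // f a = 2} ⊕ Bool) // P2 {a // f a = 2} G}) →
      (Option (Fin k) → Option (Fin k) → Prop) :=
    fun s => DecP_rel s.1 s.2.2.1.1 s.2.2.2.1
  have hdec : ∀ p, dec (e p) = p.1.Adj := fun p => DecP_rel_eq (DecP_ex (hP p.1 p.2)).choose_spec
  have he : Function.Injective e := by
    intro p p' h
    have h3 := congrArg dec h
    rw [hdec, hdec] at h3
    exact Subtype.ext (SimpleGraph.ext h3)
  have key := three_parts (fun A => {G : SimpleGraph (Option A) // P A G}) _ _ _ one_cinv hc1 hc2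
    k e he
  rw [← cv_assoc, cv_one] at key
  exact key

private theorem DecP_dist {V W : Type} {G : SimpleGraph V} {H : SimpleGraph W} (φ : H →g G)
    {x y : W} (h : H.Reachable x y) : G.dist (φ x) (φ y) ≤ H.dist x y := by
  obtain ⟨w, hw⟩ := h.exists_walk_length_eq_dist
  rw [← hw, ← SimpleGraph.Walk.length_map φ w]
  exact SimpleGraph.dist_le _

private theorem DecP_dv {A : Type} {G : SimpleGraph (Option A)} {v : A} (hc : G.Connected)
    (hv : G.Adj none (some v)) {L : ℕ} {a : A} (ha : L ≤ G.dist (some a) none) :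
    L - 1 ≤ G.dist (some a) (some v) := by
  have h1 := hc.dist_triangle (u := some a) (v := some v) (w := none)
  have h2 : G.dist (some v) none = 1 := SimpleGraph.dist_eq_one_iff_adj.2 hv.symm
  omega

private theorem DecP_F1 {A : Type} [Finite A] {G : SimpleGraph (Option A)} {v : A} (hG : PP G)
    (hv : G.Adj none (some v)) {L : ℕ}
    (h : ∃ a, DecP_f G v a = 1 ∧ L ≤ G.dist (some a) none) : Far1 (L - 1) (DecP_g1 G v) := by
  obtain ⟨a, ha, hL⟩ := h
  refine ⟨⟨a, ha⟩, (DecP_dv hG.1.1 hv hL).trans ?_⟩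
  exact DecP_dist (⟨DecP_m1 (DecP_f G v) v, fun h => h⟩ : DecP_g1 G v →g G)
    ((DecP_RR (v := v) hG).1.preconnected (some ⟨a, ha⟩) none)

private theorem DecP_F2 {A : Type} [Finite A] {G : SimpleGraph (Option A)} {v : A} (hG : PP G)
    (hv : G.Adj none (some v)) {L : ℕ}
    (h : ∃ a, DecP_f G v a = 2 ∧ L ≤ G.dist (some a) none) : Far2 (L - 1) (DecP_g2 G v) := by
  obtain ⟨a, ha, hL⟩ := h
  refine ⟨⟨a, ha⟩, fun b => ?_⟩
  have hr : (DecP_g2 G v).Reachable (Sum.inl ⟨a, ha⟩) (Sum.inr b) := by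
    obtain ⟨a', ha', hadj⟩ := DecP_att (v := v) hG.2
      (((DecP_g2 G v).comap Sum.inl).connectedComponentMk ⟨a, ha⟩) b
    rw [SimpleGraph.ConnectedComponent.mem_supp_iff] at ha'
    obtain ⟨w⟩ := (SimpleGraph.ConnectedComponent.exact ha').symm
    exact SimpleGraph.Reachable.trans
      ⟨w.map (⟨Sum.inl, fun h => h⟩ : (DecP_g2 G v).comap Sum.inl →g DecP_g2 G v)⟩ hadj.reachable
  have hd := DecP_dist (⟨DecP_m2 (DecP_f G v) v, fun h => h.1⟩ : DecP_g2 G v →g G) hr
  refine le_trans ?_ hd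
  rcases b with _ | _
  · change L - 1 ≤ G.dist (some a) none
    omega
  · exact DecP_dv hG.1.1 hv hL

private def DecP_c {A : Type} (L : ℕ) (G : SimpleGraph (Option A)) : Prop :=
  ∃ h : PP G, ∃ a, DecP_f G (DecP_ex h).choose a = 1 ∧ L ≤ G.dist (some a) none

open Classical in
private theorem DecP_split (P C : ∀ A : Type, SimpleGraph (Option A) → Prop) (k : ℕ) :
    es1 P k = es1 (fun A G => P A G ∧ C A G) k + es1 (fun A G => P A G ∧ ¬ C A G) k := by
  unfold es1
  rw [← add_div]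
  congr 1
  rw [Nat.card_eq_fintype_card, Nat.card_eq_fintype_card, Nat.card_eq_fintype_card,
    Fintype.card_subtype, Fintype.card_subtype, Fintype.card_subtype]
  norm_cast
  rw [← card_union_of_disjoint]
  · congr 1
    ext G
    simp only [mem_filter, mem_univ, true_and, mem_union]
    tauto
  · rw [disjoint_left]
    intro G h1 h2
    simp only [mem_filter, mem_univ, true_and] at h1 h2
    exact h2.2 h1.2

theorem p_le (M : ℕ∞) (k : ℕ) : pN M k ≤ cv (rN M) (qN M) k := by
  refine DecP_main (fun _ G => PP G ∧ CoreLt M G) (fun _ G => RR G ∧ CoreLt M G)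
    (fun _ G => QQ G ∧ CoreLt M (addp G)) (inv1_and inv_RR (inv_core1 M))
    (inv2_and inv_QQ (inv_core2 M)) k (fun G h => h.1) (fun G h => ?_) (fun G h => ?_)
  · exact ⟨DecP_RR h.1, DecP_C1 h.2⟩
  · exact ⟨DecP_QQ h.1 (DecP_ex h.1).choose_spec, DecP_C2 (DecP_ex h.1).choose_spec h.2⟩

theorem p_far (L : ℕ) (hL : 2 ≤ L) (k : ℕ) :
    pF L k ≤ cv (rF (L - 1)) (qN ⊤) k + cv (rN ⊤) (qF (L - 1)) k := by
  have h0 := DecP_split (fun _ G => PP G ∧ Far1 L G) (fun _ G => DecP_c L G) k
  have h1 : es1 (fun _ G => (PP G ∧ Far1 L G) ∧ DecP_c L G) k ≤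
      cv (rF (L - 1)) (qN ⊤) k := by
    refine DecP_main (fun _ G => (PP G ∧ Far1 L G) ∧ DecP_c L G)
      (fun _ G => RR G ∧ Far1 (L - 1) G)
      (fun _ G => QQ G ∧ CoreLt ⊤ (addp G)) (inv1_and inv_RR (inv_far1 (L - 1)))
      (inv2_and inv_QQ (inv_core2 ⊤)) k (fun G h => h.1.1) (fun G h => ?_) (fun G h => ?_)
    · obtain ⟨hPP, hex⟩ := h.2
      exact ⟨DecP_RR h.1.1, DecP_F1 h.1.1 (DecP_ex h.1.1).choose_spec hex⟩
    · exact ⟨DecP_QQ h.1.1 (DecP_ex h.1.1).choose_spec, coreLt_top _⟩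
  have h2 : es1 (fun _ G => (PP G ∧ Far1 L G) ∧ ¬ DecP_c L G) k ≤
      cv (rN ⊤) (qF (L - 1)) k := by
    refine DecP_main (fun _ G => (PP G ∧ Far1 L G) ∧ ¬ DecP_c L G)
      (fun _ G => RR G ∧ CoreLt ⊤ G)
      (fun _ G => QQ G ∧ Far2 (L - 1) G) (inv1_and inv_RR (inv_core1 ⊤))
      (inv2_and inv_QQ (inv_far2 (L - 1))) k (fun G h => h.1.1) (fun G h => ?_) (fun G h => ?_)
    · exact ⟨DecP_RR h.1.1, coreLt_top _⟩
    · refine ⟨DecP_QQ h.1.1 (DecP_ex h.1.1).choose_spec,
        DecP_F2 h.1.1 (DecP_ex h.1.1).choose_spec ?_⟩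
      obtain ⟨a, ha⟩ := h.1.2
      refine ⟨a, ?_, ha⟩
      rcases DecP_f_cases G (DecP_ex h.1.1).choose a with h3 | ⟨-, h3⟩ | ⟨-, h3⟩
      · exfalso
        have h4 : G.dist (some a) none = 1 := by
          rw [SimpleGraph.dist_eq_one_iff_adj, h3]
          exact (DecP_ex h.1.1).choose_spec.symm
        rw [h4] at ha
        omega
      · exact absurd ⟨h.1.1, a, h3, ha⟩ h.2
      · exact h3
  calc pF L k = es1 (fun _ G => PP G ∧ Far1 L G) k := rfl
    _ = _ := h0
    _ ≤ _ := add_le_add h1 h2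

end Dia
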