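import Pool.Agent.Dia.DecInv

/-!
# Module DecQ: parallel composition

`q_rec`: `(G, a)` with `QQ G`; `S` = the component of `a` in `G.comap inl`.  First part: the graph on `S ⊕ Bool`
(`G.comap (Sum.map Subtype.val id)`), `BB`; second part: the graph on the complement, `QQ`.  `addp` of a part is
the `comap` of `addp G`: planar; `CoreLt`: `coreLt_part2` for `addp G` with `V2` = the poles and the other side
(the poles are adjacent in `addp G`; `addp G ⊔ edge = addp G`).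
`q_far`: `S` = the component of a far vertex.
`qT_le`: for `QQ G` on `Fin k`, `k ≥ 1`, let `S` be the component of the vertex `0`: `pd G ≤ pd (part on S)`
(a subgraph in which the poles are connected), so `exp (θ pd G) ≤ exp (θ pd (part))`.  For the increments:
`exp (θ pd G) - 1 ≤ exp (θ pd (part)) - 1`.  So `qT θ k - qN ⊤ k ≤ cv (bT θ - bN ⊤) (qN ⊤) k` (sum over the pairs
(first part, second part), all terms nonnegative).
-/

set_option linter.unusedSectionVars false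

namespace Dia
open PGr Finset Pool.Agent.DiamP

/-- inclusion of the graph on a part -/
private def DecQ_em {A : Type} (S : A → Prop) : {a // S a} ⊕ Bool → A ⊕ Bool :=
  Sum.map Subtype.val id

private theorem DecQ_em_inj {A : Type} (S : A → Prop) : Function.Injective (DecQ_em S) :=
  Subtype.val_injective.sumMap Function.injective_id

private theorem DecQ_em_inr {A : Type} {S : A → Prop} {x : {a // S a} ⊕ Bool} {b : Bool}
    (h : DecQ_em S x = Sum.inr b) : x = Sum.inr b := by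
  rcases x with a | c
  · simp [DecQ_em] at h
  · simpa [DecQ_em] using h

private def DecQ_cl {A : Type} (G : SimpleGraph (A ⊕ Bool)) (S : A → Prop) : Prop :=
  ∀ a b, G.Adj (Sum.inl a) (Sum.inl b) → S a → S b

private theorem DecQ_reach {A : Type} {G : SimpleGraph (A ⊕ Bool)} {S : A → Prop}
    (hS : DecQ_cl G S) {a b : A} (h : (G.comap Sum.inl).Reachable a b) (ha : S a) :
    ∃ hb : S b, ((G.comap (DecQ_em S)).comap Sum.inl).Reachable ⟨a, ha⟩ ⟨b, hb⟩ := by
  obtain ⟨w⟩ := h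
  induction w with
  | nil => exact ⟨ha, SimpleGraph.Reachable.refl _⟩
  | cons hadj w ih =>
    rename_i u v w'
    have hv : S v := hS _ _ hadj ha
    obtain ⟨hb, hr⟩ := ih hv
    refine ⟨hb, SimpleGraph.Reachable.trans (SimpleGraph.Adj.reachable ?_) hr⟩
    exact hadj

private theorem DecQ_att {A : Type} {G : SimpleGraph (A ⊕ Bool)} {S : A → Prop}
    (hS : DecQ_cl G S) (hG : Att2 G) : Att2 (G.comap (DecQ_em S)) := by
  intro C b
  induction C using SimpleGraph.ConnectedComponent.ind with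
  | h a =>
    obtain ⟨a', ha', hadj⟩ := hG ((G.comap Sum.inl).connectedComponentMk a.1) b
    have h1 : (G.comap Sum.inl).Reachable a' a.1 := by
      rw [SimpleGraph.ConnectedComponent.mem_supp_iff] at ha'
      exact SimpleGraph.ConnectedComponent.exact ha'
    obtain ⟨hb, hr⟩ := DecQ_reach hS h1.symm a.2
    refine ⟨⟨a', hb⟩, ?_, hadj⟩
    rw [SimpleGraph.ConnectedComponent.mem_supp_iff]
    exact SimpleGraph.ConnectedComponent.sound hr.symm

private theorem DecQ_addp {A : Type} (G : SimpleGraph (A ⊕ Bool)) (S : A → Prop) :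
    addp (G.comap (DecQ_em S)) = (addp G).comap (DecQ_em S) := by
  ext x y
  simp only [addp, SimpleGraph.sup_adj, SimpleGraph.comap_adj, SimpleGraph.edge_adj]
  refine or_congr Iff.rfl ?_
  constructor
  · rintro ⟨h | h, hne⟩
    · exact ⟨Or.inl ⟨by rw [h.1]; rfl, by rw [h.2]; rfl⟩, fun h' => hne (DecQ_em_inj S h')⟩
    · exact ⟨Or.inr ⟨by rw [h.1]; rfl, by rw [h.2]; rfl⟩, fun h' => hne (DecQ_em_inj S h')⟩
  · rintro ⟨h | h, hne⟩
    · exact ⟨Or.inl ⟨DecQ_em_inr h.1, DecQ_em_inr h.2⟩, fun h' => hne (by rw [h'])⟩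
    · exact ⟨Or.inr ⟨DecQ_em_inr h.1, DecQ_em_inr h.2⟩, fun h' => hne (by rw [h'])⟩

private theorem DecQ_planar {A : Type} [Finite A] {G : SimpleGraph (A ⊕ Bool)} (S : A → Prop)
    (h : IsPlanar (addp G)) : IsPlanar (addp (G.comap (DecQ_em S))) := by
  rw [DecQ_addp]
  exact planar_comap _ (DecQ_em_inj S) h

private theorem DecQ_core {A : Type} [Finite A] {G : SimpleGraph (A ⊕ Bool)} {S : A → Prop}
    (hS : DecQ_cl G S) {M : ℕ∞} (h : CoreLt M (addp G)) :
    CoreLt M (addp (G.comap (DecQ_em S))) := by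
  have h1 : addp (G.comap (DecQ_em S)) = (addp G).comap (DecQ_em S) ⊔
      SimpleGraph.edge (Sum.inr false) (Sum.inr true) := by
    rw [← DecQ_addp]
    unfold addp
    rw [sup_assoc, sup_idem]
  rw [h1]
  have hmem : ∀ x, x ∈ Set.range (DecQ_em S) ↔ (∃ b, x = Sum.inr b) ∨ ∃ a, S a ∧ x = Sum.inl a := by
    intro x
    constructor
    · rintro ⟨y, rfl⟩
      rcases y with a | b
      · exact Or.inr ⟨a.1, a.2, rfl⟩
      · exact Or.inl ⟨b, rfl⟩
    · rintro (⟨b, rfl⟩ | ⟨a, ha, rfl⟩)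
      · exact ⟨Sum.inr b, rfl⟩
      · exact ⟨Sum.inl ⟨a, ha⟩, rfl⟩
  let V2 : Set (A ⊕ Bool) := {x | (∃ b, x = Sum.inr b) ∨ ∃ a, ¬ S a ∧ x = Sum.inl a}
  have hp : DecQ_em S (Sum.inr false) ∈ V2 := Or.inl ⟨false, rfl⟩
  have hq : DecQ_em S (Sum.inr true) ∈ V2 := Or.inl ⟨true, rfl⟩
  refine coreLt_part2 h (DecQ_em S) (DecQ_em_inj S) V2 (Sum.inr false) (Sum.inr true) (by simp)
    ?_ ?_ ?_ hp hq ?_
  · ext x
    simp only [Set.mem_union, Set.mem_univ, iff_true]
    rw [hmem]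
    rcases x with a | b
    · by_cases ha : S a
      · exact Or.inl (Or.inr ⟨a, ha, rfl⟩)
      · exact Or.inr (Or.inr ⟨a, ha, rfl⟩)
    · exact Or.inl (Or.inl ⟨b, rfl⟩)
  · ext x
    simp only [Set.mem_inter_iff, Set.mem_insert_iff, Set.mem_singleton_iff]
    rw [hmem]
    constructor
    · rintro ⟨h2, h3⟩
      rcases x with a | b
      · rcases h2 with ⟨b, hb⟩ | ⟨a', ha', he⟩
        · exact absurd hb (by simp)
        · rcases h3 with ⟨b, hb⟩ | ⟨a'', ha'', he'⟩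
          · exact absurd hb (by simp)
          · rw [Sum.inl.injEq] at he he'
            subst he
            subst he'
            exact absurd ha' ha''
      · rcases b with _ | _
        · exact Or.inl rfl
        · exact Or.inr rfl
    · rintro (rfl | rfl)
      · exact ⟨Or.inl ⟨false, rfl⟩, Or.inl ⟨false, rfl⟩⟩
      · exact ⟨Or.inl ⟨true, rfl⟩, Or.inl ⟨true, rfl⟩⟩
  · intro x y hxy
    rw [hmem, hmem]
    have hpole : ∀ b, (Sum.inr b : A ⊕ Bool) ∈ V2 := fun b => Or.inl ⟨b, rfl⟩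
    rcases x with a | b
    · rcases y with a' | b'
      · have hG : G.Adj (Sum.inl a) (Sum.inl a') := by
          simp only [addp, SimpleGraph.sup_adj, SimpleGraph.edge_adj] at hxy
          rcases hxy with hxy | hxy
          · exact hxy
          · simp at hxy
        by_cases ha : S a
        · exact Or.inl ⟨Or.inr ⟨a, ha, rfl⟩, Or.inr ⟨a', hS a a' hG ha, rfl⟩⟩
        · have ha' : ¬ S a' := fun h' => ha (hS a' a hG.symm h')
          exact Or.inr ⟨Or.inr ⟨a, ha, rfl⟩, Or.inr ⟨a', ha', rfl⟩⟩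
      · by_cases ha : S a
        · exact Or.inl ⟨Or.inr ⟨a, ha, rfl⟩, Or.inl ⟨b', rfl⟩⟩
        · exact Or.inr ⟨Or.inr ⟨a, ha, rfl⟩, hpole b'⟩
    · rcases y with a' | b'
      · by_cases ha : S a'
        · exact Or.inl ⟨Or.inl ⟨b, rfl⟩, Or.inr ⟨a', ha, rfl⟩⟩
        · exact Or.inr ⟨hpole b, Or.inr ⟨a', ha, rfl⟩⟩
      · exact Or.inl ⟨Or.inl ⟨b, rfl⟩, Or.inl ⟨b', rfl⟩⟩
  · apply SimpleGraph.Adj.reachable
    change (addp G).Adj (Sum.inr false) (Sum.inr true)
    simp [addp, SimpleGraph.sup_adj, SimpleGraph.edge_adj]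

private theorem DecQ_dist {V W : Type} {G : SimpleGraph V} (f : W → V) {x y : W}
    (h : (G.comap f).Reachable x y) : G.dist (f x) (f y) ≤ (G.comap f).dist x y := by
  obtain ⟨w, hw⟩ := h.exists_walk_length_eq_dist
  rw [← hw, ← SimpleGraph.Walk.length_map (⟨f, fun h => h⟩ : G.comap f →g G) w]
  exact SimpleGraph.dist_le _

open Classical in
/-- the component of `a`, and the rest -/
private noncomputable def DecQ_f {A : Type} (G : SimpleGraph (A ⊕ Bool)) (a : A) (x : A) : Fin 2 :=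
  if (G.comap Sum.inl).Reachable a x then 0 else 1

private theorem DecQ_f_zero {A : Type} {G : SimpleGraph (A ⊕ Bool)} {a x : A} :
    DecQ_f G a x = 0 ↔ (G.comap Sum.inl).Reachable a x := by
  unfold DecQ_f
  split_ifs with h
  · simp [h]
  · simp [h]

private theorem DecQ_f_one {A : Type} {G : SimpleGraph (A ⊕ Bool)} {a x : A} :
    DecQ_f G a x = 1 ↔ ¬ (G.comap Sum.inl).Reachable a x := by
  unfold DecQ_f
  split_ifs with h
  · simp [h]
  · simp [h]

private theorem DecQ_f_adj {A : Type} {G : SimpleGraph (A ⊕ Bool)} (a : A) {x y : A}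
    (h : G.Adj (Sum.inl x) (Sum.inl y)) : DecQ_f G a x = DecQ_f G a y := by
  have h1 : (G.comap Sum.inl).Reachable x y := SimpleGraph.Adj.reachable h
  by_cases hx : (G.comap Sum.inl).Reachable a x
  · rw [DecQ_f_zero.2 hx, DecQ_f_zero.2 (hx.trans h1)]
  · rw [DecQ_f_one.2 hx, DecQ_f_one.2 fun hy => hx (hy.trans h1.symm)]

private theorem DecQ_f_cl {A : Type} (G : SimpleGraph (A ⊕ Bool)) (a : A) (i : Fin 2) :
    DecQ_cl G fun x => DecQ_f G a x = i := by
  intro x y h hx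
  change DecQ_f G a y = i
  rw [← DecQ_f_adj a h]
  exact hx

/-- the graph on a part -/
private def DecQ_part {A : Type} (G : SimpleGraph (A ⊕ Bool)) (f : A → Fin 2) (i : Fin 2) :
    SimpleGraph ({a // f a = i} ⊕ Bool) := G.comap (DecQ_em fun x => f x = i)

private theorem DecQ_BB {A : Type} [Finite A] {G : SimpleGraph (A ⊕ Bool)} (hG : QQ G) (a : A) :
    BB (DecQ_part G (DecQ_f G a) 0) := by
  refine ⟨hG.1, ?_, DecQ_att (DecQ_f_cl G a 0) hG.2.1, DecQ_planar _ hG.2.2⟩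
  have ha : DecQ_f G a a = 0 := DecQ_f_zero.2 (SimpleGraph.Reachable.refl _)
  rw [SimpleGraph.connected_iff]
  refine ⟨fun x y => ?_, ⟨⟨a, ha⟩⟩⟩
  have hx := DecQ_f_zero.1 x.2
  have hy := DecQ_f_zero.1 y.2
  obtain ⟨hb1, h1⟩ := DecQ_reach (S := fun x => DecQ_f G a x = 0) (DecQ_f_cl G a 0) hx ha
  obtain ⟨hb2, h2⟩ := DecQ_reach (S := fun x => DecQ_f G a x = 0) (DecQ_f_cl G a 0) hy ha
  exact h1.symm.trans h2

private theorem DecQ_QQ {A : Type} [Finite A] {G : SimpleGraph (A ⊕ Bool)} (hG : QQ G) (a : A) :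
    QQ (DecQ_part G (DecQ_f G a) 1) :=
  ⟨hG.1, DecQ_att (DecQ_f_cl G a 1) hG.2.1, DecQ_planar _ hG.2.2⟩

private theorem DecQ_C {A : Type} [Finite A] {G : SimpleGraph (A ⊕ Bool)} {M : ℕ∞}
    (hM : CoreLt M (addp G)) (a : A) (i : Fin 2) :
    CoreLt M (addp (DecQ_part G (DecQ_f G a) i)) :=
  DecQ_core (DecQ_f_cl G a i) hM

/-- the graph from its parts -/
private def DecQ_rel {A : Type} (f : A → Fin 2) (g0 : SimpleGraph ({a // f a = 0} ⊕ Bool))
    (g1 : SimpleGraph ({a // f a = 1} ⊕ Bool)) (x y : A ⊕ Bool) : Prop :=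
  (∃ a b, g0.Adj a b ∧ DecQ_em (fun x => f x = 0) a = x ∧ DecQ_em (fun x => f x = 0) b = y) ∨
    ∃ a b, g1.Adj a b ∧ DecQ_em (fun x => f x = 1) a = x ∧ DecQ_em (fun x => f x = 1) b = y

private theorem DecQ_rel_eq {A : Type} {G : SimpleGraph (A ⊕ Bool)} (hG : QQ G) (a : A) :
    DecQ_rel (DecQ_f G a) (DecQ_part G (DecQ_f G a) 0) (DecQ_part G (DecQ_f G a) 1) = G.Adj := by
  funext x y
  apply propext
  constructor
  · rintro (⟨u, v, h, rfl, rfl⟩ | ⟨u, v, h, rfl, rfl⟩)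
    · exact h
    · exact h
  · intro h
    have hcase : ∀ z : A, DecQ_f G a z = 0 ∨ DecQ_f G a z = 1 := by
      intro z
      by_cases hz : (G.comap Sum.inl).Reachable a z
      · exact Or.inl (DecQ_f_zero.2 hz)
      · exact Or.inr (DecQ_f_one.2 hz)
    rcases x with x | b
    · rcases y with y | b'
      · have hxy := DecQ_f_adj a h
        rcases hcase x with hx | hx
        · exact Or.inl ⟨Sum.inl ⟨x, hx⟩, Sum.inl ⟨y, by rw [← hxy]; exact hx⟩, h, rfl, rfl⟩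
        · exact Or.inr ⟨Sum.inl ⟨x, hx⟩, Sum.inl ⟨y, by rw [← hxy]; exact hx⟩, h, rfl, rfl⟩
      · rcases hcase x with hx | hx
        · exact Or.inl ⟨Sum.inl ⟨x, hx⟩, Sum.inr b', h, rfl, rfl⟩
        · exact Or.inr ⟨Sum.inl ⟨x, hx⟩, Sum.inr b', h, rfl, rfl⟩
    · rcases y with y | b'
      · rcases hcase y with hy | hy
        · exact Or.inl ⟨Sum.inr b, Sum.inl ⟨y, hy⟩, h, rfl, rfl⟩
        · exact Or.inr ⟨Sum.inr b, Sum.inl ⟨y, hy⟩, h, rfl, rfl⟩
      · exact Or.inl ⟨Sum.inr b, Sum.inr b', h, rfl, rfl⟩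

/-- a connected part is connected to both poles -/
private theorem DecQ_pole {A : Type} {G : SimpleGraph (A ⊕ Bool)} (hG : Att2 G)
    (hc : (G.comap Sum.inl).Connected) (a : A) (b : Bool) :
    G.Reachable (Sum.inl a) (Sum.inr b) := by
  obtain ⟨a', -, hadj⟩ := hG ((G.comap Sum.inl).connectedComponentMk a) b
  have h1 : G.Reachable (Sum.inl a) (Sum.inl a') := by
    obtain ⟨w⟩ := hc.preconnected a a'
    exact ⟨w.map (⟨Sum.inl, fun h => h⟩ : G.comap Sum.inl →g G)⟩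
  exact h1.trans hadj.reachable

theorem q_rec (M : ℕ∞) (k : ℕ) : (k : ℝ) * qN M k ≤ cv (fun j => (j : ℝ) * bN M j) (qN M) k := by
  let PB : ∀ A : Type, SimpleGraph (A ⊕ Bool) → Prop := fun _ G => BB G ∧ CoreLt M (addp G)
  let PQ : ∀ A : Type, SimpleGraph (A ⊕ Bool) → Prop := fun _ G => QQ G ∧ CoreLt M (addp G)
  have hB : CInv (fun A => {G : SimpleGraph (A ⊕ Bool) // PB A G}) :=
    cinv2 PB (inv2_and inv_BB (inv_core2 M))
  have hQ : CInv (fun A => {G : SimpleGraph (A ⊕ Bool) // PQ A G}) :=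
    cinv2 PQ (inv2_and inv_QQ (inv_core2 M))
  let e : Mk (fun A => {G : SimpleGraph (A ⊕ Bool) // PQ A G}) (Fin k) →
      Σ f : Fin k → Fin 2, Mk (fun A => {G : SimpleGraph (A ⊕ Bool) // PB A G}) {a // f a = 0} ×
        {G : SimpleGraph ({a // f a = 1} ⊕ Bool) // PQ {a // f a = 1} G} :=
    fun p => ⟨DecQ_f p.1.1 p.2,
      (⟨DecQ_part p.1.1 (DecQ_f p.1.1 p.2) 0, DecQ_BB p.1.2.1 p.2, DecQ_C p.1.2.2 p.2 0⟩,
        ⟨p.2, DecQ_f_zero.2 (SimpleGraph.Reachable.refl _)⟩),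
      ⟨DecQ_part p.1.1 (DecQ_f p.1.1 p.2) 1, DecQ_QQ p.1.2.1 p.2, DecQ_C p.1.2.2 p.2 1⟩⟩
  let dec : (Σ f : Fin k → Fin 2,
      Mk (fun A => {G : SimpleGraph (A ⊕ Bool) // PB A G}) {a // f a = 0} ×
        {G : SimpleGraph ({a // f a = 1} ⊕ Bool) // PQ {a // f a = 1} G}) →
      (Fin k ⊕ Bool → Fin k ⊕ Bool → Prop) × Fin k :=
    fun s => (DecQ_rel s.1 s.2.1.1.1 s.2.2.1, s.2.1.2.1)
  have hdec : ∀ p, dec (e p) = (p.1.1.Adj, p.2) := fun p =>
    Prod.ext (DecQ_rel_eq p.1.2.1 p.2) rfl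
  have he : Function.Injective e := by
    intro p p' h
    have h1 := congrArg dec h
    rw [hdec, hdec, Prod.mk.injEq] at h1
    have h2 : p.1.1 = p'.1.1 := SimpleGraph.ext h1.1
    exact Prod.ext (Subtype.ext h2) h1.2
  have key := two_parts _ _ _ (mk_cinv hB) hQ k e he
  rw [ec_mk] at key
  have h3 : ec (Mk fun A => {G : SimpleGraph (A ⊕ Bool) // PB A G}) =
      fun j : ℕ => (j : ℝ) * bN M j := by
    funext j
    rw [ec_mk]
    rfl
  rw [h3] at key
  exact key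

theorem q_far (L k : ℕ) : qF L k ≤ cv (bF L) (qN ⊤) k := by
  let PF : ∀ A : Type, SimpleGraph (A ⊕ Bool) → Prop := fun _ G => QQ G ∧ Far2 L G
  let PB : ∀ A : Type, SimpleGraph (A ⊕ Bool) → Prop := fun _ G => BB G ∧ Far2 L G
  let PQ : ∀ A : Type, SimpleGraph (A ⊕ Bool) → Prop := fun _ G => QQ G ∧ CoreLt ⊤ (addp G)
  have hB : CInv (fun A => {G : SimpleGraph (A ⊕ Bool) // PB A G}) :=
    cinv2 PB (inv2_and inv_BB (inv_far2 L))
  have hQ : CInv (fun A => {G : SimpleGraph (A ⊕ Bool) // PQ A G}) :=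
    cinv2 PQ (inv2_and inv_QQ (inv_core2 ⊤))
  have hfar : ∀ (G : SimpleGraph (Fin k ⊕ Bool)) (hG : QQ G) (a : Fin k)
      (_ : ∀ b : Bool, L ≤ G.dist (Sum.inl a) (Sum.inr b)),
      Far2 L (DecQ_part G (DecQ_f G a) 0) := by
    intro G hG a ha
    have ha0 : DecQ_f G a a = 0 := DecQ_f_zero.2 (SimpleGraph.Reachable.refl _)
    have hBB := DecQ_BB hG a
    refine ⟨⟨a, ha0⟩, fun b => ?_⟩
    have h1 := DecQ_pole hBB.2.2.1 hBB.2.1 ⟨a, ha0⟩ b
    exact (ha b).trans (DecQ_dist (DecQ_em fun x => DecQ_f G a x = 0) h1)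
  let e : {G : SimpleGraph (Fin k ⊕ Bool) // PF (Fin k) G} →
      Σ f : Fin k → Fin 2, {G : SimpleGraph ({a // f a = 0} ⊕ Bool) // PB {a // f a = 0} G} ×
        {G : SimpleGraph ({a // f a = 1} ⊕ Bool) // PQ {a // f a = 1} G} :=
    fun p => ⟨DecQ_f p.1 p.2.2.choose,
      ⟨DecQ_part p.1 (DecQ_f p.1 p.2.2.choose) 0, DecQ_BB p.2.1 p.2.2.choose,
        hfar p.1 p.2.1 p.2.2.choose p.2.2.choose_spec⟩,
      ⟨DecQ_part p.1 (DecQ_f p.1 p.2.2.choose) 1, DecQ_QQ p.2.1 p.2.2.choose, coreLt_top _⟩⟩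
  let dec : (Σ f : Fin k → Fin 2,
      {G : SimpleGraph ({a // f a = 0} ⊕ Bool) // PB {a // f a = 0} G} ×
        {G : SimpleGraph ({a // f a = 1} ⊕ Bool) // PQ {a // f a = 1} G}) →
      (Fin k ⊕ Bool → Fin k ⊕ Bool → Prop) :=
    fun s => DecQ_rel s.1 s.2.1.1 s.2.2.1
  have hdec : ∀ p, dec (e p) = p.1.Adj := fun p => DecQ_rel_eq p.2.1 p.2.2.choose
  have he : Function.Injective e := by
    intro p p' h
    have h1 := congrArg dec h
    rw [hdec, hdec] at h1
    exact Subtype.ext (SimpleGraph.ext h1)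
  exact two_parts (fun A => {G : SimpleGraph (A ⊕ Bool) // PF A G}) _ _ hB hQ k e he

/-- pole distance larger than `l` -/
private theorem DecQ_lt {l k : ℕ} (hk : 1 ≤ k) :
    es2 (fun _ G => QQ G ∧ l < pd G) k ≤ cv (es2 fun _ G => BB G ∧ l < pd G) (qN ⊤) k := by
  let PF : ∀ A : Type, SimpleGraph (A ⊕ Bool) → Prop := fun _ G => QQ G ∧ l < pd G
  let PB : ∀ A : Type, SimpleGraph (A ⊕ Bool) → Prop := fun _ G => BB G ∧ l < pd G
  let PQ : ∀ A : Type, SimpleGraph (A ⊕ Bool) → Prop := fun _ G => QQ G ∧ CoreLt ⊤ (addp G)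
  have hB : CInv (fun A => {G : SimpleGraph (A ⊕ Bool) // PB A G}) :=
    cinv2 PB (inv2_and inv_BB (inv_pd l))
  have hQ : CInv (fun A => {G : SimpleGraph (A ⊕ Bool) // PQ A G}) :=
    cinv2 PQ (inv2_and inv_QQ (inv_core2 ⊤))
  let a : Fin k := ⟨0, hk⟩
  have hpd : ∀ (G : SimpleGraph (Fin k ⊕ Bool)) (hG : QQ G) (_ : l < pd G),
      l < pd (DecQ_part G (DecQ_f G a) 0) := by
    intro G hG hl
    have ha0 : DecQ_f G a a = 0 := DecQ_f_zero.2 (SimpleGraph.Reachable.refl _)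
    have hBB := DecQ_BB hG a
    have h1 := DecQ_pole hBB.2.2.1 hBB.2.1 ⟨a, ha0⟩ false
    have h2 := DecQ_pole hBB.2.2.1 hBB.2.1 ⟨a, ha0⟩ true
    exact hl.trans_le (DecQ_dist (DecQ_em fun x => DecQ_f G a x = 0) (h1.symm.trans h2))
  let e : {G : SimpleGraph (Fin k ⊕ Bool) // PF (Fin k) G} →
      Σ f : Fin k → Fin 2, {G : SimpleGraph ({a // f a = 0} ⊕ Bool) // PB {a // f a = 0} G} ×
        {G : SimpleGraph ({a // f a = 1} ⊕ Bool) // PQ {a // f a = 1} G} :=
    fun p => ⟨DecQ_f p.1 a,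
      ⟨DecQ_part p.1 (DecQ_f p.1 a) 0, DecQ_BB p.2.1 a, hpd p.1 p.2.1 p.2.2⟩,
      ⟨DecQ_part p.1 (DecQ_f p.1 a) 1, DecQ_QQ p.2.1 a, coreLt_top _⟩⟩
  let dec : (Σ f : Fin k → Fin 2,
      {G : SimpleGraph ({a // f a = 0} ⊕ Bool) // PB {a // f a = 0} G} ×
        {G : SimpleGraph ({a // f a = 1} ⊕ Bool) // PQ {a // f a = 1} G}) →
      (Fin k ⊕ Bool → Fin k ⊕ Bool → Prop) :=
    fun s => DecQ_rel s.1 s.2.1.1 s.2.2.1
  have hdec : ∀ p, dec (e p) = p.1.Adj := fun p => DecQ_rel_eq p.2.1 a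
  have he : Function.Injective e := by
    intro p p' h
    have h1 := congrArg dec h
    rw [hdec, hdec] at h1
    exact Subtype.ext (SimpleGraph.ext h1)
  exact two_parts (fun A => {G : SimpleGraph (A ⊕ Bool) // PF A G}) _ _ hB hQ k e he

private theorem DecQ_pd_lt (k : ℕ) (G : SimpleGraph (Fin k ⊕ Bool)) : pd G < k + 2 := by
  classical
  unfold pd
  by_cases h : G.Reachable (Sum.inr false) (Sum.inr true)
  · obtain ⟨w⟩ := h
    have h1 := w.toPath.2.length_lt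
    have h2 := SimpleGraph.dist_le (w.toPath : G.Walk (Sum.inr false) (Sum.inr true))
    simp only [Fintype.card_sum, Fintype.card_fin, Fintype.card_bool] at h1
    omega
  · rw [SimpleGraph.dist_eq_zero_of_not_reachable h]
    omega

private theorem DecQ_tel (θ : ℝ) (N p : ℕ) (hp : p ≤ N) :
    Real.exp (θ * p) - 1 =
      ∑ l ∈ range N, (Real.exp (θ * ((l + 1 : ℕ) : ℝ)) - Real.exp (θ * (l : ℝ))) *
        (if l < p then 1 else 0) := by
  have h1 : ∑ l ∈ range N, (Real.exp (θ * ((l + 1 : ℕ) : ℝ)) - Real.exp (θ * (l : ℝ))) *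
        (if l < p then 1 else 0) =
      ∑ l ∈ range p, (Real.exp (θ * ((l + 1 : ℕ) : ℝ)) - Real.exp (θ * (l : ℝ))) := by
    simp only [mul_ite, mul_one, mul_zero]
    rw [← sum_filter]
    congr 1
    ext l
    simp only [mem_filter, mem_range]
    omega
  rw [h1, sum_range_sub fun l : ℕ => Real.exp (θ * (l : ℝ))]
  simp

open Classical in
private theorem DecQ_sum (P : ∀ A : Type, SimpleGraph (A ⊕ Bool) → Prop) (θ : ℝ) (k N : ℕ)
    (hN : k + 2 ≤ N) :
    (∑ G : SimpleGraph (Fin k ⊕ Bool), if P (Fin k) G then Real.exp (θ * pd G) else 0) /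
        k.factorial - es2 P k =
      ∑ l ∈ range N, (Real.exp (θ * ((l + 1 : ℕ) : ℝ)) - Real.exp (θ * (l : ℝ))) *
        es2 (fun A G => P A G ∧ l < pd G) k := by
  have hcard : ∀ Q : SimpleGraph (Fin k ⊕ Bool) → Prop,
      (Nat.card {G : SimpleGraph (Fin k ⊕ Bool) // Q G} : ℝ) =
        ∑ G : SimpleGraph (Fin k ⊕ Bool), if Q G then (1 : ℝ) else 0 := by
    intro Q
    rw [Nat.card_eq_fintype_card, Fintype.card_subtype, sum_boole]
  have h5 : ∀ l, es2 (fun A G => P A G ∧ l < pd G) k =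
      (∑ G : SimpleGraph (Fin k ⊕ Bool), if P (Fin k) G then
        (if l < pd G then (1 : ℝ) else 0) else 0) / k.factorial := by
    intro l
    unfold es2
    rw [hcard]
    congr 1
    refine sum_congr rfl fun G _ => ?_
    by_cases hP : P (Fin k) G
    · by_cases hl : l < pd G
      · rw [if_pos ⟨hP, hl⟩, if_pos hP, if_pos hl]
      · rw [if_neg (fun h => hl h.2), if_pos hP, if_neg hl]
    · rw [if_neg (fun h => hP h.1), if_neg hP]
  simp only [h5]
  unfold es2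
  rw [hcard, ← sub_div, ← sum_sub_distrib]
  have h1 : ∀ l ∈ range N, (Real.exp (θ * ((l + 1 : ℕ) : ℝ)) - Real.exp (θ * (l : ℝ))) *
      ((∑ G : SimpleGraph (Fin k ⊕ Bool), if P (Fin k) G then
        (if l < pd G then (1 : ℝ) else 0) else 0) / k.factorial) =
      (∑ G : SimpleGraph (Fin k ⊕ Bool),
        (Real.exp (θ * ((l + 1 : ℕ) : ℝ)) - Real.exp (θ * (l : ℝ))) *
          (if P (Fin k) G then (if l < pd G then (1 : ℝ) else 0) else 0)) / k.factorial := by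
    intro l _
    rw [← mul_sum, mul_div_assoc]
  rw [sum_congr rfl h1, ← sum_div, sum_comm]
  congr 1
  refine sum_congr rfl fun G _ => ?_
  by_cases hP : P (Fin k) G
  · have h2 := DecQ_tel θ N (pd G) ((DecQ_pd_lt k G).le.trans hN)
    rw [if_pos hP, if_pos hP, h2]
    refine sum_congr rfl fun l _ => ?_
    rw [if_pos hP]
  · rw [if_neg hP, if_neg hP, sub_zero]
    symm
    apply sum_eq_zero
    intro l _
    rw [if_neg hP, mul_zero]

theorem qT_le {θ : ℝ} (hθ : 0 ≤ θ) {k : ℕ} (hk : 1 ≤ k) :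
    qT θ k - qN ⊤ k ≤ cv (fun j => bT θ j - bN ⊤ j) (qN ⊤) k := by
  classical
  obtain ⟨c, hc⟩ : ∃ c : ℕ → ℝ, c = fun l => Real.exp (θ * ((l + 1 : ℕ) : ℝ)) -
    Real.exp (θ * (l : ℝ)) := ⟨_, rfl⟩
  have hc0 : ∀ l, 0 ≤ c l := by
    intro l
    rw [hc]
    simp only [sub_nonneg, Real.exp_le_exp]
    apply mul_le_mul_of_nonneg_left _ hθ
    push_cast
    linarith
  have hQ : qT θ k - qN ⊤ k = ∑ l ∈ range (k + 2), c l * es2 (fun _ G => QQ G ∧ l < pd G) k := by
    have h1 := DecQ_sum (fun _ G => QQ G) θ k (k + 2) le_rfl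
    have h2 : es2 (fun _ G => QQ G) k = qN ⊤ k := by
      unfold qN es2
      congr 2
      refine Nat.card_congr (Equiv.subtypeEquivRight fun G => ?_)
      exact ⟨fun h => ⟨h, coreLt_top _⟩, fun h => h.1⟩
    rw [h2] at h1
    rw [hc]
    exact h1
  have hB : ∀ j ≤ k, bT θ j - bN ⊤ j =
      ∑ l ∈ range (k + 2), c l * es2 (fun _ G => BB G ∧ l < pd G) j := by
    intro j hj
    have h1 := DecQ_sum (fun _ G => BB G) θ j (k + 2) (by omega)
    have h2 : es2 (fun _ G => BB G) j = bN ⊤ j := by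
      unfold bN es2
      congr 2
      refine Nat.card_congr (Equiv.subtypeEquivRight fun G => ?_)
      exact ⟨fun h => ⟨h, coreLt_top _⟩, fun h => h.1⟩
    rw [h2] at h1
    rw [hc]
    exact h1
  rw [hQ]
  have h3 : cv (fun j => bT θ j - bN ⊤ j) (qN ⊤) k =
      ∑ l ∈ range (k + 2), c l * cv (es2 fun _ G => BB G ∧ l < pd G) (qN ⊤) k := by
    unfold cv
    have h4 : ∀ ij ∈ antidiagonal k, (bT θ ij.1 - bN ⊤ ij.1) * qN ⊤ ij.2 =
        ∑ l ∈ range (k + 2), c l * (es2 (fun _ G => BB G ∧ l < pd G) ij.1 * qN ⊤ ij.2) := by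
      intro ij hij
      have := mem_antidiagonal.1 hij
      rw [hB ij.1 (by omega), sum_mul]
      refine sum_congr rfl fun l _ => ?_
      ring
    rw [sum_congr rfl h4, sum_comm]
    refine sum_congr rfl fun l _ => ?_
    rw [mul_sum]
  rw [h3]
  exact sum_le_sum fun l _ => mul_le_mul_of_nonneg_left (DecQ_lt hk) (hc0 l)

end Dia
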