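import Pool.Agent.Dia.DecInv

/-!
# Module DecR: splitting at the root

`r_rec`: `F A = {G // RR G ∧ CoreLt M G} × A` (`Mk`), parts `Mk {PP ∧ CoreLt M}` and `{RR ∧ CoreLt M}`.  For
`(G, a)`: `S` = the component of `a` in `G.comap some`, `f x = 0` iff `x ∈ S`.  First part: the graph
`G.comap (Option.map Subtype.val)` on `Option S` with the marked element `a`; second part: the same for the
complement of `S`.  `S` is connected and adjacent to the root (`G` connected), so the first is `PP`; all
components outside `S` are adjacent to the root, so the second is connected.  Planar: `planar_comap`.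
`CoreLt`: `coreLt_part1` with `c` = root, `V2` = root and the other side.  Injective: `G` has no edges between
`S` and its complement.  Use `two_parts`, `ec_mk`, `cinv1`, `mk_cinv`.

`r_far`: a graph with a far vertex: `S` = the component containing the smallest vertex `a` with distance `≥ L`
from the root (or any choice); the first part is `PP ∧ Far1 L` since distances from the root inside a
connected subgraph are not smaller.

`g_rec`: planar graphs with a marked vertex `a`: the component `S` of `a` is a connected planar graph on `S`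
with the marked vertex `a`; the number of these for `|S| = j` is `j` times the number of connected planar
graphs on `j` vertices `= j` times the number of `RR` graphs on `Option (Fin (j-1))`; divided by `j!` this is
`rN M j`.  The rest is a planar graph.
-/

set_option linter.unusedSectionVars false

namespace Dia
open PGr Finset Pool.Agent.DiamP

/-- inclusion of a rooted part -/
private def ioR {A : Type} (p : A → Prop) : Option {a // p a} ↪ Option A :=
  (Function.Embedding.subtype p).optionMap

private theorem ioR_none {A : Type} (p : A → Prop) : ioR p none = none := rfl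
private theorem ioR_some {A : Type} (p : A → Prop) (x : {a // p a}) : ioR p (some x) = some x.1 := rfl

private theorem mem_ioR {A : Type} (p : A → Prop) {x : Option A} :
    x ∈ Set.range (ioR p) ↔ ∀ a, x = some a → p a := by
  constructor
  · rintro ⟨y, rfl⟩ a ha
    rcases y with _ | y
    · rw [ioR_none] at ha; exact absurd ha (by simp)
    · rw [ioR_some] at ha
      rw [← Option.some.inj ha]; exact y.2
  · intro h
    rcases x with _ | x
    · exact ⟨none, rfl⟩
    · exact ⟨some ⟨x, h x rfl⟩, rfl⟩

/-- a graph is recovered from two parts which contain all edges -/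
private theorem recR {V W1 W2 : Type} (G : SimpleGraph V) (f1 : W1 ↪ V) (f2 : W2 ↪ V)
    (h : ∀ x y, G.Adj x y → (x ∈ Set.range f1 ∧ y ∈ Set.range f1) ∨
      (x ∈ Set.range f2 ∧ y ∈ Set.range f2)) :
    (G.comap f1).map f1 ⊔ (G.comap f2).map f2 = G := by
  ext x y
  rw [SimpleGraph.sup_adj, SimpleGraph.map_adj, SimpleGraph.map_adj]
  constructor
  · rintro (⟨u, v, h1, rfl, rfl⟩ | ⟨u, v, h1, rfl, rfl⟩)
    · exact h1
    · exact h1
  · intro h1
    rcases h x y h1 with ⟨⟨u, rfl⟩, ⟨v, rfl⟩⟩ | ⟨⟨u, rfl⟩, ⟨v, rfl⟩⟩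
    · exact Or.inl ⟨u, v, h1, rfl, rfl⟩
    · exact Or.inr ⟨u, v, h1, rfl, rfl⟩

private theorem reach_subR {V : Type} {G : SimpleGraph V} {p : V → Prop}
    (hp : ∀ x y, G.Adj x y → p x → p y) {x y : V} (h : G.Reachable x y) :
    ∀ (hx : p x) (hy : p y),
      (G.comap (Subtype.val : {a // p a} → V)).Reachable ⟨x, hx⟩ ⟨y, hy⟩ := by
  obtain ⟨w⟩ := h
  induction w with
  | nil => intro _ _; exact SimpleGraph.Reachable.refl _
  | @cons u v z huv w' ih =>
    intro hx hy
    have hv : p v := hp _ _ huv hx
    have h1 : (G.comap (Subtype.val : {a // p a} → V)).Adj ⟨u, hx⟩ ⟨v, hv⟩ := huv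
    exact h1.reachable.trans (ih hv hy)

private theorem reach_rootR {A : Type} {G : SimpleGraph (Option A)} {p : A → Prop}
    (hp : ∀ x y, G.Adj (some x) (some y) → p x → p y) {u z : Option A} (h : G.Reachable u z) :
    z = none → ∀ v : Option {a // p a}, ioR p v = u → (G.comap (ioR p)).Reachable v none := by
  obtain ⟨w⟩ := h
  induction w with
  | nil =>
    intro hz v hv
    rcases v with _ | v
    · exact SimpleGraph.Reachable.refl _
    · rw [ioR_some, hz] at hv; exact absurd hv (by simp)
  | @cons u y z huv w' ih =>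
    intro hz v hv
    rcases v with _ | v
    · exact SimpleGraph.Reachable.refl _
    · rcases y with _ | y
      · have h1 : (G.comap (ioR p)).Adj (some v) none := by
          show G.Adj (ioR p (some v)) (ioR p none)
          rw [hv, ioR_none]; exact huv
        exact h1.reachable
      · have hy : p y := hp v.1 y (by rw [← ioR_some, hv]; exact huv) v.2
        have h1 : (G.comap (ioR p)).Adj (some v) (some ⟨y, hy⟩) := by
          show G.Adj (ioR p (some v)) (ioR p (some ⟨y, hy⟩))
          rw [hv, ioR_some]; exact huv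
        exact h1.reachable.trans (ih hz (some ⟨y, hy⟩) rfl)

/-- distances in a part are not smaller -/
private theorem dist_comapR {V W : Type} {G : SimpleGraph V} (f : W → V) {x y : W}
    (h : (G.comap f).Reachable x y) : G.dist (f x) (f y) ≤ (G.comap f).dist x y := by
  obtain ⟨w, hw⟩ := h.exists_walk_length_eq_dist
  rw [← hw]
  let φ : (G.comap f) →g G := ⟨f, fun h => h⟩
  have h1 := SimpleGraph.dist_le (w.map φ)
  rw [SimpleGraph.Walk.length_map] at h1
  exact h1

private theorem conn_rootR {A : Type} {G : SimpleGraph (Option A)} (hG : G.Connected)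
    {p : A → Prop} (hp : ∀ x y, G.Adj (some x) (some y) → p x → p y) :
    (G.comap (ioR p)).Connected := by
  have : Nonempty (Option {a // p a}) := ⟨none⟩
  refine ⟨fun u v => ?_⟩
  exact (reach_rootR hp (hG.preconnected (ioR p u) none) rfl u rfl).trans
    (reach_rootR hp (hG.preconnected (ioR p v) none) rfl v rfl).symm

private theorem rr_partR {A : Type} [Finite A] {G : SimpleGraph (Option A)} (hG : RR G)
    {p : A → Prop} (hp : ∀ x y, G.Adj (some x) (some y) → p x → p y) :
    RR (G.comap (ioR p)) :=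
  ⟨conn_rootR hG.1 hp, planar_comap _ (ioR p).injective hG.2⟩

private theorem edgesR {A : Type} {G : SimpleGraph (Option A)}
    {p q : A → Prop} (hpq : ∀ x, q x ↔ ¬ p x) (hp : ∀ x y, G.Adj (some x) (some y) → p x → p y)
    (x y : Option A) (h : G.Adj x y) : (x ∈ Set.range (ioR p) ∧ y ∈ Set.range (ioR p)) ∨
      (x ∈ Set.range (ioR q) ∧ y ∈ Set.range (ioR q)) := by
  simp only [mem_ioR]
  rcases x with _ | x
  · rcases y with _ | y
    · exact absurd h (G.loopless.irrefl _)
    · by_cases h1 : p y
      · left; exact ⟨by simp, by simpa using h1⟩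
      · right; exact ⟨by simp, by simpa using (hpq y).2 h1⟩
  · rcases y with _ | y
    · by_cases h1 : p x
      · left; exact ⟨by simpa using h1, by simp⟩
      · right; exact ⟨by simpa using (hpq x).2 h1, by simp⟩
    · by_cases h1 : p x
      · left; exact ⟨by simpa using h1, by simpa using hp x y h h1⟩
      · right
        refine ⟨by simpa using (hpq x).2 h1, ?_⟩
        have h2 : ¬ p y := fun h3 => h1 (hp y x h.symm h3)
        simpa using (hpq y).2 h2

private theorem core_partR {A : Type} [Finite A] {M : ℕ∞} {G : SimpleGraph (Option A)}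
    (hG : CoreLt M G) {p : A → Prop} (hp : ∀ x y, G.Adj (some x) (some y) → p x → p y) :
    CoreLt M (G.comap (ioR p)) := by
  refine coreLt_part1 hG (ioR p) (ioR p).injective (Set.range (ioR fun x => ¬ p x)) none ?_ ?_
    (edgesR (fun _ => Iff.rfl) hp)
  · refine Set.eq_univ_of_forall fun x => ?_
    by_cases h : ∀ a, x = some a → p a
    · exact Or.inl ((mem_ioR p).2 h)
    · right
      rw [mem_ioR]
      intro a ha h1
      apply h
      intro b hb
      rw [ha] at hb
      rw [← Option.some.inj hb]; exact h1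
  · rintro x ⟨h1, h2⟩
    rw [mem_ioR] at h1 h2
    rcases x with _ | x
    · rfl
    · exact absurd (h1 x rfl) (h2 x rfl)

/-- the component of `a` -/
private def compR {A : Type} (G : SimpleGraph (Option A)) (a x : A) : Prop :=
  (G.comap some).Reachable x a

private theorem compR_cl {A : Type} (G : SimpleGraph (Option A)) (a x y : A)
    (h : G.Adj (some x) (some y)) (hx : compR G a x) : compR G a y := by
  have h1 : (G.comap some).Adj y x := h.symm
  exact h1.reachable.trans hx

private theorem pp_partR {A : Type} [Finite A] {G : SimpleGraph (Option A)} (hG : RR G) (a : A)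
    {p : A → Prop} (hp : ∀ x, p x ↔ compR G a x) : PP (G.comap (ioR p)) := by
  have hcl : ∀ x y, G.Adj (some x) (some y) → p x → p y := fun x y h hx =>
    (hp y).2 (compR_cl G a x y h ((hp x).1 hx))
  have ha : p a := (hp a).2 (SimpleGraph.Reachable.refl _)
  refine ⟨rr_partR hG hcl, ?_⟩
  have : Nonempty {a // p a} := ⟨⟨a, ha⟩⟩
  refine ⟨fun u v => ?_⟩
  have key : ∀ u : {a // p a}, ((G.comap (ioR p)).comap some).Reachable u ⟨a, ha⟩ := by
    intro u
    have h1 := reach_subR (G := G.comap some) (p := p) (fun x y h hx => hcl x y h hx)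
      ((hp u.1).1 u.2) u.2 ha
    exact h1
  exact (key u).trans (key v).symm

open Classical in
/-- the labelling -/
private noncomputable def labR {A : Type} (p : A → Prop) (x : A) : Fin 2 := if p x then 0 else 1

private theorem labR_zero {A : Type} (p : A → Prop) (x : A) : labR p x = 0 ↔ p x := by
  unfold labR
  split_ifs with h
  · simp [h]
  · simp [h]

private theorem labR_one {A : Type} (p : A → Prop) (x : A) : labR p x = 1 ↔ ¬ p x := by
  unfold labR
  split_ifs with h
  · simp [h]
  · simp [h]

theorem r_rec (M : ℕ∞) (k : ℕ) :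
    (k : ℝ) * rE M k ≤ cv (fun j => (j : ℝ) * pN M j) (rE M) k := by
  let F : Type → Type := fun A => {G : SimpleGraph (Option A) // RR G ∧ CoreLt M G}
  let P : Type → Type := fun A => {G : SimpleGraph (Option A) // PP G ∧ CoreLt M G}
  have hF : CInv F := cinv1 _ (inv1_and inv_RR (inv_core1 M))
  have hP : CInv P := cinv1 _ (inv1_and inv_PP (inv_core1 M))
  have hex : ∀ x : Mk F (Fin k), ∃ z : (Σ f : Fin k → Fin 2, Mk P {a // f a = 0} × F {a // f a = 1}),
      (z.2.1.1.1.map (ioR fun a => z.1 a = 0)) ⊔ (z.2.2.1.map (ioR fun a => z.1 a = 1)) = x.1.1 ∧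
        z.2.1.2.1 = x.2 := by
    rintro ⟨⟨G, hG, hM⟩, a⟩
    let f : Fin k → Fin 2 := labR (compR G a)
    have h0 : ∀ x, f x = 0 ↔ compR G a x := labR_zero _
    have h1 : ∀ x, f x = 1 ↔ ¬ compR G a x := labR_one _
    have hcl0 : ∀ x y, G.Adj (some x) (some y) → f x = 0 → f y = 0 := fun x y h hx =>
      (h0 y).2 (compR_cl G a x y h ((h0 x).1 hx))
    have hcl1 : ∀ x y, G.Adj (some x) (some y) → f x = 1 → f y = 1 := fun x y h hx =>
      (h1 y).2 fun h3 => (h1 x).1 hx (compR_cl G a y x h.symm h3)
    refine ⟨⟨f, (⟨G.comap (ioR fun a => f a = 0), pp_partR hG a h0, core_partR hM hcl0⟩,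
      ⟨a, (h0 a).2 (SimpleGraph.Reachable.refl _)⟩),
      ⟨G.comap (ioR fun a => f a = 1), rr_partR hG hcl1, core_partR hM hcl1⟩⟩, ?_, rfl⟩
    exact recR G _ _ (edgesR (fun x => by rw [h1, h0]) hcl0)
  choose e he using hex
  have h := two_parts (Mk F) (Mk P) F (mk_cinv hP) hF k e (by
    intro x y hxy
    have h1 := he x
    have h2 := he y
    rw [hxy] at h1
    refine Prod.ext (Subtype.ext ?_) ?_
    · exact h1.1.symm.trans h2.1
    · exact h1.2.symm.trans h2.2)
  rw [ec_mk] at h
  have h2 : ec (Mk P) = fun j : ℕ => (j : ℝ) * pN M j := funext fun j => ec_mk _ _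
  rw [h2] at h
  exact h

theorem r_far (L k : ℕ) : rFE L k ≤ cv (pF L) (rE ⊤) k := by
  let F : Type → Type := fun A => {G : SimpleGraph (Option A) // RR G ∧ Far1 L G}
  let P : Type → Type := fun A => {G : SimpleGraph (Option A) // PP G ∧ Far1 L G}
  let Q : Type → Type := fun A => {G : SimpleGraph (Option A) // RR G ∧ CoreLt ⊤ G}
  have hP : CInv P := cinv1 _ (inv1_and inv_PP (inv_far1 L))
  have hQ : CInv Q := cinv1 _ (inv1_and inv_RR (inv_core1 ⊤))
  have hex : ∀ x : F (Fin k), ∃ z : (Σ f : Fin k → Fin 2, P {a // f a = 0} × Q {a // f a = 1}),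
      (z.2.1.1.map (ioR fun a => z.1 a = 0)) ⊔ (z.2.2.1.map (ioR fun a => z.1 a = 1)) = x.1 := by
    rintro ⟨G, hG, a, ha⟩
    let f : Fin k → Fin 2 := labR (compR G a)
    have h0 : ∀ x, f x = 0 ↔ compR G a x := labR_zero _
    have h1 : ∀ x, f x = 1 ↔ ¬ compR G a x := labR_one _
    have hcl0 : ∀ x y, G.Adj (some x) (some y) → f x = 0 → f y = 0 := fun x y h hx =>
      (h0 y).2 (compR_cl G a x y h ((h0 x).1 hx))
    have hcl1 : ∀ x y, G.Adj (some x) (some y) → f x = 1 → f y = 1 := fun x y h hx =>
      (h1 y).2 fun h3 => (h1 x).1 hx (compR_cl G a y x h.symm h3)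
    have hPP := pp_partR hG a h0
    have ha0 : f a = 0 := (h0 a).2 (SimpleGraph.Reachable.refl _)
    refine ⟨⟨f, ⟨G.comap (ioR fun a => f a = 0), hPP, ⟨⟨a, ha0⟩, ?_⟩⟩,
      ⟨G.comap (ioR fun a => f a = 1), rr_partR hG hcl1, coreLt_top _⟩⟩, ?_⟩
    · have h5 : (G.comap (ioR fun a => f a = 0)).Reachable (some ⟨a, ha0⟩) none :=
        hPP.1.1.preconnected _ _
      exact ha.trans (dist_comapR (ioR fun a => f a = 0) h5)
    · exact recR G _ _ (edgesR (fun x => by rw [h1, h0]) hcl0)
  choose e he using hex
  exact two_parts F P Q hP hQ k e (by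
    intro x y hxy
    have h1 := he x
    have h2 := he y
    rw [hxy] at h1
    exact Subtype.ext (h1.symm.trans h2))

/-- connected planar graphs -/
private def CnR (M : ℕ∞) (A : Type) : Type :=
  {G : SimpleGraph A // (G.Connected ∧ IsPlanar G) ∧ CoreLt M G}

private def PlR (M : ℕ∞) (A : Type) : Type :=
  {G : SimpleGraph A // IsPlanar G ∧ CoreLt M G}

private def isoR {A B : Type} (e : A ≃ B) (G : SimpleGraph B) : G.comap e ≃g G where
  toEquiv := e
  map_rel_iff' := Iff.rfl

private theorem cnR_inv (M : ℕ∞) : CInv (CnR M) := by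
  refine cinv0 _ fun A B _ _ e G h => ?_
  refine ⟨⟨(isoR e G).connected_iff.2 h.1.1, (planar_iso (isoR e G)).2 h.1.2⟩,
    (coreLt_iso (isoR e G) M).2 h.2⟩

private theorem plR_inv (M : ℕ∞) : CInv (PlR M) := by
  refine cinv0 _ fun A B _ _ e G h => ?_
  exact ⟨(planar_iso (isoR e G)).2 h.1, (coreLt_iso (isoR e G) M).2 h.2⟩

private theorem ec_cnR (M : ℕ∞) : ec (Mk (CnR M)) = rN M := by
  funext n
  rw [ec_mk]
  unfold rN sh
  rcases n with _ | n
  · simp
  · rw [if_neg (Nat.succ_ne_zero n), Nat.add_sub_cancel]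
    unfold ec es1
    have h1 := (cnR_inv M).inv (Fin (n + 1)) (Option (Fin n)) inferInstance
      ⟨finSuccEquiv n⟩
    rw [h1]
    have h2 : Nat.card (CnR M (Option (Fin n))) =
        Nat.card {G : SimpleGraph (Option (Fin n)) // RR G ∧ CoreLt M G} := rfl
    rw [h2, Nat.factorial_succ]
    have h3 : ((n + 1 : ℕ) : ℝ) ≠ 0 := by positivity
    have h4 : (n.factorial : ℝ) ≠ 0 := by positivity
    push_cast at h3 ⊢
    field_simp

theorem g_rec (M : ℕ∞) (k : ℕ) : (k : ℝ) * gN M k ≤ cv (rN M) (gN M) k := by
  have hex : ∀ x : Mk (PlR M) (Fin k),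
      ∃ z : (Σ f : Fin k → Fin 2, Mk (CnR M) {a // f a = 0} × PlR M {a // f a = 1}),
      (z.2.1.1.1.map (Function.Embedding.subtype fun a => z.1 a = 0)) ⊔
        (z.2.2.1.map (Function.Embedding.subtype fun a => z.1 a = 1)) = x.1.1 ∧
        z.2.1.2.1 = x.2 := by
    rintro ⟨⟨G, hG, hM⟩, a⟩
    let f : Fin k → Fin 2 := labR fun x => G.Reachable x a
    have h0 : ∀ x, f x = 0 ↔ G.Reachable x a := labR_zero _
    have h1 : ∀ x, f x = 1 ↔ ¬ G.Reachable x a := labR_one _
    have hcl0 : ∀ x y, G.Adj x y → f x = 0 → f y = 0 := fun x y h hx =>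
      (h0 y).2 (h.symm.reachable.trans ((h0 x).1 hx))
    have hcl1 : ∀ x y, G.Adj x y → f x = 1 → f y = 1 := fun x y h hx =>
      (h1 y).2 fun h3 => (h1 x).1 hx (h.reachable.trans h3)
    have ha0 : f a = 0 := (h0 a).2 (SimpleGraph.Reachable.refl _)
    have hr : ∀ (c : Fin 2) (x : Fin k), x ∈ Set.range (Function.Embedding.subtype fun a => f a = c) ↔
        f x = c := fun c x => ⟨fun ⟨y, hy⟩ => hy ▸ y.2, fun h => ⟨⟨x, h⟩, rfl⟩⟩
    have hfc : ∀ x, f x = 0 ∨ f x = 1 := fun x => by
      rcases em (G.Reachable x a) with h | h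
      · exact Or.inl ((h0 x).2 h)
      · exact Or.inr ((h1 x).2 h)
    have hed : ∀ x y, G.Adj x y → (f x = 0 ∧ f y = 0) ∨ (f x = 1 ∧ f y = 1) := fun x y h => by
      rcases hfc x with h2 | h2
      · exact Or.inl ⟨h2, hcl0 x y h h2⟩
      · exact Or.inr ⟨h2, hcl1 x y h h2⟩
    have hcore : ∀ c c' : Fin 2, c ≠ c' → (∀ x, f x = c ∨ f x = c') →
        (∀ x y, G.Adj x y → (f x = c ∧ f y = c) ∨ (f x = c' ∧ f y = c')) →
        CoreLt M (G.comap (Function.Embedding.subtype fun a => f a = c)) := by
      intro c c' hc hx he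
      refine coreLt_part1 hM (Function.Embedding.subtype fun a => f a = c)
        (Function.Embedding.injective _) {x | f x = c'} a ?_ ?_ ?_
      · refine Set.eq_univ_of_forall fun x => ?_
        rcases hx x with h | h
        · exact Or.inl ((hr c x).2 h)
        · exact Or.inr h
      · rintro x ⟨h2, h3⟩
        exact absurd (((hr c x).1 h2).symm.trans h3) hc
      · intro x y h
        rw [hr, hr]
        exact he x y h
    refine ⟨⟨f, (⟨G.comap (Function.Embedding.subtype fun a => f a = 0), ⟨?_, ?_⟩, ?_⟩, ⟨a, ha0⟩),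
      ⟨G.comap (Function.Embedding.subtype fun a => f a = 1), ?_, ?_⟩⟩, ?_, rfl⟩
    · have : Nonempty {a // f a = 0} := ⟨⟨a, ha0⟩⟩
      refine ⟨fun u v => ?_⟩
      have key : ∀ u : {a // f a = 0},
          (G.comap (Function.Embedding.subtype fun a => f a = 0)).Reachable u ⟨a, ha0⟩ := fun u =>
        reach_subR (p := fun a => f a = 0) hcl0 ((h0 u.1).1 u.2) u.2 ha0
      exact (key u).trans (key v).symm
    · exact planar_comap _ (Function.Embedding.injective _) hG
    · exact hcore 0 1 (by decide) hfc hed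
    · exact planar_comap _ (Function.Embedding.injective _) hG
    · exact hcore 1 0 (by decide) (fun x => (hfc x).symm) fun x y h => (hed x y h).symm
    · refine recR G _ _ fun x y h => ?_
      rw [hr, hr, hr, hr]
      exact hed x y h
  choose e he using hex
  have h := two_parts (Mk (PlR M)) (Mk (CnR M)) (PlR M) (mk_cinv (cnR_inv M)) (plR_inv M) k e (by
    intro x y hxy
    have h1 := he x
    have h2 := he y
    rw [hxy] at h1
    refine Prod.ext (Subtype.ext ?_) ?_
    · exact h1.1.symm.trans h2.1
    · exact h1.2.symm.trans h2.2)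
  rw [ec_mk, ec_cnR] at h
  exact h

end Dia
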