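import Pool.Agent.Dia.DecInv
import Pool.Agent.Dia.PlanB
import Pool.Agent.DiamP.Conv

/-!
# Module DecS: series composition

`G` with `BB G` and a separating vertex; `w` = the smallest one.  Each component of
`(G.comap inl).induce {w}ᶜ` is adjacent to `w` (`G.comap inl` is connected).  `f w = 0`; `f x = 1` if the component
of `x` is adjacent to no pole, `f x = 2` if it is adjacent to the pole `false`, `f x = 3` if it is adjacent to the
pole `true` (not both by `Sep`).  Lemmas: `SideS` (a part between `w` and a pole), `MidS` (the part at `w`),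
`DcS` (the decomposition and its distances), `countS` (counting).
-/

set_option linter.unusedSectionVars false

namespace Dia
open PGr Finset Pool.Agent.DiamP

/-- the internal graph without `w` -/
private abbrev HS {A : Type} (G : SimpleGraph (A ⊕ Bool)) (w : A) :=
  (G.comap Sum.inl).induce ({w}ᶜ : Set A)

private theorem reachS {V W : Type} {H : SimpleGraph V} {K : SimpleGraph W} (p : V → Prop)
    (j : ∀ x, p x → W) (hcl : ∀ x y, H.Adj x y → p x → p y)
    (hj : ∀ x y (hx : p x) (hy : p y), H.Adj x y → K.Adj (j x hx) (j y hy)) {x y : V}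
    (h : H.Reachable x y) : ∀ hx : p x, ∃ hy : p y, K.Reachable (j x hx) (j y hy) := by
  obtain ⟨w⟩ := h
  induction w with
  | nil => intro hx; exact ⟨hx, SimpleGraph.Reachable.refl _⟩
  | @cons u v z huv w' ih =>
    intro hx
    have hv := hcl _ _ huv hx
    obtain ⟨hy, h1⟩ := ih hv
    exact ⟨hy, (hj _ _ hx hv huv).reachable.trans h1⟩

private theorem to_wS {A : Type} {G : SimpleGraph (A ⊕ Bool)} {w : A} {x z : A}
    (h : (G.comap Sum.inl).Reachable x z) : z = w → ∀ hx : x ∈ ({w}ᶜ : Set A),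
      ∃ y : ({w}ᶜ : Set A), (HS G w).Reachable ⟨x, hx⟩ y ∧ G.Adj (Sum.inl y.1) (Sum.inl w) := by
  obtain ⟨q⟩ := h
  induction q with
  | nil => intro hz hx; exact absurd hz hx
  | @cons u v z huv w' ih =>
    intro hz hx
    by_cases hv : v = w
    · subst hv
      exact ⟨⟨u, hx⟩, SimpleGraph.Reachable.refl _, huv⟩
    · obtain ⟨y, h1, h2⟩ := ih hz hv
      have h3 : (HS G w).Adj ⟨u, hx⟩ ⟨v, hv⟩ := huv
      exact ⟨y, h3.reachable.trans h1, h2⟩

/-- distances in a part are not smaller -/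
private theorem dist_comapS {V W : Type} {G : SimpleGraph V} (f : W → V) {x y : W}
    (h : (G.comap f).Reachable x y) : G.dist (f x) (f y) ≤ (G.comap f).dist x y := by
  obtain ⟨w, hw⟩ := h.exists_walk_length_eq_dist
  rw [← hw]
  let φ : (G.comap f) →g G := ⟨f, fun h => h⟩
  have h1 := SimpleGraph.dist_le (w.map φ)
  rw [SimpleGraph.Walk.length_map] at h1
  exact h1

private theorem reach_comapS {V W : Type} {G : SimpleGraph V} (f : W → V) {x y : W}
    (h : (G.comap f).Reachable x y) : G.Reachable (f x) (f y) := by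
  let φ : (G.comap f) →g G := ⟨f, fun h => h⟩
  exact h.map φ

/-- inclusion of the part at the pole `b` -/
private def phS {A : Type} (w : A) (p : A → Prop) (b : Bool) : {x // p x} ⊕ Bool → A ⊕ Bool
  | .inl x => .inl x.1
  | .inr c => if c = b then .inr b else .inl w

private theorem phS_inl {A : Type} (w : A) (p : A → Prop) (b : Bool) (x : {x // p x}) :
    phS w p b (Sum.inl x) = Sum.inl x.1 := rfl

private theorem phS_b {A : Type} (w : A) (p : A → Prop) (b : Bool) :
    phS w p b (Sum.inr b) = Sum.inr b := by simp [phS]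

private theorem phS_nb {A : Type} (w : A) (p : A → Prop) (b : Bool) :
    phS w p b (Sum.inr !b) = Sum.inl w := by simp [phS]

private theorem phS_inj {A : Type} {w : A} {p : A → Prop} (hw : ¬ p w) (b : Bool) :
    Function.Injective (phS w p b) := by
  intro x y h
  rcases x with x | x
  · rcases y with y | y
    · rw [phS_inl, phS_inl] at h
      rw [Subtype.ext (Sum.inl.inj h)]
    · exfalso
      rcases Bool.eq_or_eq_not y b with rfl | rfl
      · rw [phS_inl, phS_b] at h; exact absurd h (by simp)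
      · rw [phS_inl, phS_nb] at h
        exact hw (Sum.inl.inj h ▸ x.2)
  · rcases y with y | y
    · exfalso
      rcases Bool.eq_or_eq_not x b with rfl | rfl
      · rw [phS_inl, phS_b] at h; exact absurd h (by simp)
      · rw [phS_inl, phS_nb] at h
        exact hw (Sum.inl.inj h ▸ y.2)
    · rcases Bool.eq_or_eq_not x b with rfl | rfl
      · rcases Bool.eq_or_eq_not y x with rfl | rfl
        · rfl
        · rw [phS_b, phS_nb] at h; exact absurd h (by simp)
      · rcases Bool.eq_or_eq_not y b with rfl | rfl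
        · rw [phS_b, phS_nb] at h; exact absurd h (by simp)
        · rfl

private theorem memS_inl {A : Type} {w : A} {p : A → Prop} (b : Bool) (x : A) :
    (Sum.inl x : A ⊕ Bool) ∈ Set.range (phS w p b) ↔ x = w ∨ p x := by
  constructor
  · rintro ⟨y, hy⟩
    rcases y with y | y
    · rw [phS_inl] at hy
      right; rw [← Sum.inl.inj hy]; exact y.2
    · rcases Bool.eq_or_eq_not y b with rfl | rfl
      · rw [phS_b] at hy; exact absurd hy (by simp)
      · rw [phS_nb] at hy; left; exact (Sum.inl.inj hy).symm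
  · rintro (rfl | h)
    · exact ⟨Sum.inr !b, phS_nb _ _ _⟩
    · exact ⟨Sum.inl ⟨x, h⟩, rfl⟩

private theorem memS_inr {A : Type} {w : A} {p : A → Prop} (b c : Bool) :
    (Sum.inr c : A ⊕ Bool) ∈ Set.range (phS w p b) ↔ c = b := by
  constructor
  · rintro ⟨y, hy⟩
    rcases y with y | y
    · rw [phS_inl] at hy; exact absurd hy (by simp)
    · rcases Bool.eq_or_eq_not y b with rfl | rfl
      · rw [phS_b] at hy; exact (Sum.inr.inj hy).symm
      · rw [phS_nb] at hy; exact absurd hy (by simp)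
  · rintro rfl
    exact ⟨Sum.inr c, phS_b _ _ _⟩

/-- the set `p` is the part of the pole `b` -/
private structure SideS {A : Type} (G : SimpleGraph (A ⊕ Bool)) (w : A) (b : Bool) (p : A → Prop) :
    Prop where
  hpw : ¬ p w
  hcl : ∀ x y, x ≠ w → y ≠ w → G.Adj (Sum.inl x) (Sum.inl y) → p x → p y
  tb : ∀ x, p x → ∃ (hx : x ∈ ({w}ᶜ : Set A)) (y : ({w}ᶜ : Set A)),
    (HS G w).Reachable ⟨x, hx⟩ y ∧ G.Adj (Sum.inl y.1) (Sum.inr b)
  nb : ∀ x, x ≠ w → G.Adj (Sum.inl x) (Sum.inr b) → p x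
  nb' : ∀ x, p x → ¬ G.Adj (Sum.inl x) (Sum.inr !b)

section side
variable {A : Type} [Finite A] {G : SimpleGraph (A ⊕ Bool)} {w : A} {b : Bool} {p : A → Prop}

private theorem SideS.ne (h : SideS G w b p) {x : A} (hx : p x) : x ≠ w :=
  fun e => h.hpw (e ▸ hx)

private theorem SideS.reach (h : SideS G w b p) {x y : ({w}ᶜ : Set A)}
    (hxy : (HS G w).Reachable x y) (hx : p x.1) : ∃ hy : p y.1,
      ((G.comap (phS w p b)).comap Sum.inl).Reachable ⟨x.1, hx⟩ ⟨y.1, hy⟩ := by
  refine reachS (H := HS G w) (K := (G.comap (phS w p b)).comap Sum.inl)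
    (fun v => p v.1) (fun v hv => ⟨v.1, hv⟩) ?_ ?_ hxy hx
  · intro u v huv hu
    exact h.hcl u.1 v.1 u.2 v.2 huv hu
  · intro u v hu hv huv
    exact huv

private theorem SideS.att (h : SideS G w b p) (hG : BB G) (x : {x // p x}) (c : Bool) :
    ∃ y : {x // p x}, ((G.comap (phS w p b)).comap Sum.inl).Reachable x y ∧
      (G.comap (phS w p b)).Adj (Sum.inl y) (Sum.inr c) := by
  rcases Bool.eq_or_eq_not c b with rfl | rfl
  · obtain ⟨hx, y, h1, h2⟩ := h.tb x.1 x.2
    obtain ⟨hy, h3⟩ := h.reach h1 x.2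
    refine ⟨⟨y.1, hy⟩, h3, ?_⟩
    show G.Adj (phS w p c (Sum.inl ⟨y.1, hy⟩)) (phS w p c (Sum.inr c))
    rw [phS_inl, phS_b]; exact h2
  · obtain ⟨y, h1, h2⟩ := to_wS (hG.2.1.preconnected x.1 w) rfl (h.ne x.2)
    obtain ⟨hy, h3⟩ := h.reach h1 x.2
    refine ⟨⟨y.1, hy⟩, h3, ?_⟩
    show G.Adj (phS w p b (Sum.inl ⟨y.1, hy⟩)) (phS w p b (Sum.inr !b))
    rw [phS_inl, phS_nb]; exact h2

private theorem SideS.att2 (h : SideS G w b p) (hG : BB G) : Att2 (G.comap (phS w p b)) := by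
  intro C c
  induction C using SimpleGraph.ConnectedComponent.ind with
  | h x =>
    obtain ⟨y, h1, h2⟩ := h.att hG x c
    exact ⟨y, SimpleGraph.ConnectedComponent.sound h1.symm, h2⟩

/-- the pole `b` is adjacent to an internal vertex -/
private theorem poleS (hG : BB G) (b : Bool) : ∃ a : A, G.Adj (Sum.inl a) (Sum.inr b) := by
  obtain ⟨a0⟩ := hG.2.1.nonempty
  obtain ⟨a, _, h⟩ := hG.2.2.1 ((G.comap Sum.inl).connectedComponentMk a0) b
  exact ⟨a, h⟩

private theorem SideS.poles (h : SideS G w b p) (hG : BB G) :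
    (G.comap (phS w p b)).Reachable (Sum.inr b) (Sum.inr !b) := by
  obtain ⟨a, ha⟩ := poleS hG b
  by_cases haw : a = w
  · subst haw
    have h1 : (G.comap (phS a p b)).Adj (Sum.inr b) (Sum.inr !b) := by
      show G.Adj (phS a p b (Sum.inr b)) (phS a p b (Sum.inr !b))
      rw [phS_b, phS_nb]; exact ha.symm
    exact h1.reachable
  · have hp := h.nb a haw ha
    obtain ⟨y, h1, h2⟩ := h.att hG ⟨a, hp⟩ (!b)
    have h3 : (G.comap (phS w p b)).Adj (Sum.inr b) (Sum.inl ⟨a, hp⟩) := by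
      show G.Adj (phS w p b (Sum.inr b)) (phS w p b (Sum.inl ⟨a, hp⟩))
      rw [phS_b, phS_inl]; exact ha.symm
    have h4 := reach_comapS (Sum.inl : {x // p x} → {x // p x} ⊕ Bool) h1
    exact h3.reachable.trans (h4.trans h2.reachable)

private theorem SideS.reach_pole (h : SideS G w b p) (hG : BB G) (x : {x // p x}) (c : Bool) :
    (G.comap (phS w p b)).Reachable (Sum.inl x) (Sum.inr c) := by
  obtain ⟨y, h1, h2⟩ := h.att hG x c
  exact (reach_comapS (Sum.inl : {x // p x} → {x // p x} ⊕ Bool) h1).trans h2.reachable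

private theorem SideS.ne_bot (h : SideS G w b p) (hG : BB G) : G.comap (phS w p b) ≠ ⊥ := by
  intro h0
  have h1 := h.poles hG
  rw [h0, SimpleGraph.reachable_bot] at h1
  rcases b with _ | _ <;> simp at h1

/-- edges with the extra edge -/
private theorem SideS.edges (h : SideS G w b p) (x y : A ⊕ Bool) (hxy : (addp G).Adj x y) :
    (x ∈ Set.range (phS w p b) ∧ y ∈ Set.range (phS w p b)) ∨
      (x ∈ ((Set.range (phS w p b))ᶜ ∪ {Sum.inr b, Sum.inl w} : Set (A ⊕ Bool)) ∧
        y ∈ ((Set.range (phS w p b))ᶜ ∪ {Sum.inr b, Sum.inl w} : Set (A ⊕ Bool))) := by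
  have hinr : ∀ c : Bool, (Sum.inr c : A ⊕ Bool) ∈
      ((Set.range (phS w p b))ᶜ ∪ {Sum.inr b, Sum.inl w} : Set (A ⊕ Bool)) := by
    intro c
    rcases Bool.eq_or_eq_not c b with rfl | rfl
    · right; left; rfl
    · left; rw [Set.mem_compl_iff, memS_inr]; simp
  have hw : (Sum.inl w : A ⊕ Bool) ∈
      ((Set.range (phS w p b))ᶜ ∪ {Sum.inr b, Sum.inl w} : Set (A ⊕ Bool)) := by
    right; right; rfl
  have hin : ∀ x : A, ¬ p x → (Sum.inl x : A ⊕ Bool) ∈
      ((Set.range (phS w p b))ᶜ ∪ {Sum.inr b, Sum.inl w} : Set (A ⊕ Bool)) := by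
    intro x hx
    by_cases h1 : x = w
    · rw [h1]; exact hw
    · left
      rw [Set.mem_compl_iff, memS_inl]
      rintro (h2 | h2)
      · exact h1 h2
      · exact hx h2
  have key : ∀ (x : A) (c : Bool), G.Adj (Sum.inl x) (Sum.inr c) →
      ((Sum.inl x : A ⊕ Bool) ∈ Set.range (phS w p b) ∧
        (Sum.inr c : A ⊕ Bool) ∈ Set.range (phS w p b)) ∨
      ((Sum.inl x : A ⊕ Bool) ∈ ((Set.range (phS w p b))ᶜ ∪ {Sum.inr b, Sum.inl w} :
        Set (A ⊕ Bool)) ∧ (Sum.inr c : A ⊕ Bool) ∈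
          ((Set.range (phS w p b))ᶜ ∪ {Sum.inr b, Sum.inl w} : Set (A ⊕ Bool))) := by
    intro x c hxc
    by_cases h1 : x = w
    · right; rw [h1]; exact ⟨hw, hinr c⟩
    · rcases Bool.eq_or_eq_not c b with rfl | rfl
      · left
        rw [memS_inl, memS_inr]
        exact ⟨Or.inr (h.nb x h1 hxc), rfl⟩
      · right
        exact ⟨hin x fun hx => h.nb' x hx hxc, hinr _⟩
  unfold addp at hxy
  rw [SimpleGraph.sup_adj] at hxy
  rcases hxy with hxy | hxy
  · rcases x with x | x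
    · rcases y with y | y
      · by_cases h1 : x = w
        · by_cases h2 : p y
          · left; rw [memS_inl, memS_inl]; exact ⟨Or.inl h1, Or.inr h2⟩
          · right; rw [h1]; exact ⟨hw, hin y h2⟩
        · by_cases h2 : y = w
          · by_cases h3 : p x
            · left; rw [memS_inl, memS_inl]; exact ⟨Or.inr h3, Or.inl h2⟩
            · right; rw [h2]; exact ⟨hin x h3, hw⟩
          · by_cases h3 : p x
            · left; rw [memS_inl, memS_inl]
              exact ⟨Or.inr h3, Or.inr (h.hcl x y h1 h2 hxy h3)⟩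
            · right
              exact ⟨hin x h3, hin y fun h4 => h3 (h.hcl y x h2 h1 hxy.symm h4)⟩
      · exact key x y hxy
    · rcases y with y | y
      · rcases key y x hxy.symm with h1 | h1
        · exact Or.inl h1.symm
        · exact Or.inr h1.symm
      · right; exact ⟨hinr x, hinr y⟩
  · rw [SimpleGraph.edge_adj] at hxy
    right
    rcases hxy.1 with ⟨rfl, rfl⟩ | ⟨rfl, rfl⟩
    · exact ⟨hinr _, hinr _⟩
    · exact ⟨hinr _, hinr _⟩

private theorem edge_poles (b : Bool) (A : Type) :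
    (SimpleGraph.edge (Sum.inr b) (Sum.inr !b) : SimpleGraph (A ⊕ Bool)) =
      SimpleGraph.edge (Sum.inr false) (Sum.inr true) := by
  rcases b with _ | _
  · rfl
  · exact SimpleGraph.edge_comm _ _

omit [Finite A] in
private theorem comap_addpS :
    (addp G).comap (phS w p b) = G.comap (phS w p b) := by
  ext x y
  show (addp G).Adj _ _ ↔ G.Adj _ _
  unfold addp
  rw [SimpleGraph.sup_adj]
  constructor
  · rintro (h1 | h1)
    · exact h1
    · exfalso
      rw [SimpleGraph.edge_adj] at h1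
      have h2 : (Sum.inr false : A ⊕ Bool) ∈ Set.range (phS w p b) ∧
          (Sum.inr true : A ⊕ Bool) ∈ Set.range (phS w p b) := by
        rcases h1.1 with ⟨h3, h4⟩ | ⟨h3, h4⟩
        · exact ⟨⟨_, h3⟩, ⟨_, h4⟩⟩
        · exact ⟨⟨_, h4⟩, ⟨_, h3⟩⟩
      rw [memS_inr, memS_inr] at h2
      exact absurd (h2.1.trans h2.2.symm) (by simp)
  · exact Or.inl

/-- the vertices connected to the other pole, without `w` -/
private theorem SideS.other (h : SideS G w b p) (hG : BB G) {a : A} (haw : a ∈ ({w}ᶜ : Set A))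
    (ha : ¬ p a) : ∃ y : ({w}ᶜ : Set A), (HS G w).Reachable ⟨a, haw⟩ y ∧ ¬ p y.1 ∧
      G.Adj (Sum.inl y.1) (Sum.inl w) := by
  obtain ⟨y, h1, h2⟩ := to_wS (hG.2.1.preconnected a w) rfl haw
  refine ⟨y, h1, fun h3 => ha ?_, h2⟩
  obtain ⟨h4, _⟩ := h.reach h1.symm h3
  exact h4

private theorem SideS.core (h : SideS G w b p) (hG : BB G) {M : ℕ∞} (hM : CoreLt M (addp G)) :
    CoreLt M (addp (G.comap (phS w p b))) := by
  have hne : (Sum.inr b : {x // p x} ⊕ Bool) ≠ Sum.inr !b := by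
    rcases b with _ | _ <;> simp
  let V2 : Set (A ⊕ Bool) := (Set.range (phS w p b))ᶜ ∪ {Sum.inr b, Sum.inl w}
  have hb2 : (Sum.inr b : A ⊕ Bool) ∈ V2 := Or.inr (Or.inl rfl)
  have hw2 : (Sum.inl w : A ⊕ Bool) ∈ V2 := Or.inr (Or.inr rfl)
  have hnb2 : (Sum.inr (!b) : A ⊕ Bool) ∈ V2 := by
    left; rw [Set.mem_compl_iff, memS_inr]; simp
  have hb3 : phS w p b (Sum.inr b) ∈ V2 := by rw [phS_b]; exact hb2
  have hw3 : phS w p b (Sum.inr !b) ∈ V2 := by rw [phS_nb]; exact hw2
  have hin : ∀ x : A, ¬ p x → (Sum.inl x : A ⊕ Bool) ∈ V2 := by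
    intro x hx
    by_cases h1 : x = w
    · rw [h1]; exact hw2
    · left
      rw [Set.mem_compl_iff, memS_inl]
      rintro (h2 | h2)
      · exact h1 h2
      · exact hx h2
  have hcon0 : ((addp G).induce V2).Reachable ⟨Sum.inr b, hb2⟩ ⟨Sum.inl w, hw2⟩ := by
    have h1 : ((addp G).induce V2).Adj ⟨Sum.inr b, hb2⟩ ⟨Sum.inr !b, hnb2⟩ := by
      show (addp G).Adj (Sum.inr b) (Sum.inr !b)
      unfold addp
      rw [SimpleGraph.sup_adj, ← edge_poles b A, SimpleGraph.edge_adj]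
      right
      refine ⟨Or.inl ⟨rfl, rfl⟩, ?_⟩
      rcases b with _ | _ <;> simp
    refine h1.reachable.trans ?_
    obtain ⟨a, ha⟩ := poleS hG (!b)
    have ha' : (addp G).Adj (Sum.inr !b) (Sum.inl a) := Or.inl ha.symm
    by_cases haw : a = w
    · subst haw
      have h2 : ((addp G).induce V2).Adj ⟨Sum.inr !b, hnb2⟩ ⟨Sum.inl a, hw2⟩ := ha'
      exact h2.reachable
    · have hpa : ¬ p a := fun h3 => h.nb' a h3 ha
      have h2 : ((addp G).induce V2).Adj ⟨Sum.inr !b, hnb2⟩ ⟨Sum.inl a, hin a hpa⟩ := ha'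
      refine h2.reachable.trans ?_
      obtain ⟨y, h3, h4, h5⟩ := h.other hG haw hpa
      obtain ⟨_, h6⟩ := reachS (H := HS G w) (K := (addp G).induce V2) (fun v => ¬ p v.1)
        (fun v hv => ⟨Sum.inl v.1, hin v.1 hv⟩)
        (fun u v huv hu hv => hu (h.hcl v.1 u.1 v.2 u.2 huv.symm hv))
        (fun u v hu hv huv => Or.inl huv) h3 hpa
      have h7 : ((addp G).induce V2).Adj ⟨Sum.inl y.1, hin y.1 h4⟩ ⟨Sum.inl w, hw2⟩ := Or.inl h5
      exact h6.trans h7.reachable
  have hcon : ((addp G).induce V2).Reachable ⟨phS w p b (Sum.inr b), hb3⟩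
      ⟨phS w p b (Sum.inr !b), hw3⟩ := by
    have e1 : (⟨phS w p b (Sum.inr b), hb3⟩ : V2) = ⟨Sum.inr b, hb2⟩ := Subtype.ext (phS_b w p b)
    have e2 : (⟨phS w p b (Sum.inr !b), hw3⟩ : V2) = ⟨Sum.inl w, hw2⟩ := Subtype.ext (phS_nb w p b)
    rw [e1, e2]; exact hcon0
  have := coreLt_part2 hM (phS w p b) (phS_inj h.hpw b) V2 (Sum.inr b) (Sum.inr !b) hne
    (by
      refine Set.eq_univ_of_forall fun x => ?_
      by_cases hx : x ∈ Set.range (phS w p b)
      · exact Or.inl hx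
      · exact Or.inr (Or.inl hx))
    (by
      rw [phS_b, phS_nb]
      ext x
      constructor
      · rintro ⟨h1, h2 | h2⟩
        · exact absurd h1 h2
        · exact h2
      · rintro (rfl | rfl)
        · exact ⟨(memS_inr b b).2 rfl, hb2⟩
        · exact ⟨(memS_inl b w).2 (Or.inl rfl), hw2⟩)
    h.edges hb3 hw3 hcon
  rw [comap_addpS, edge_poles b] at this
  exact this

private theorem SideS.planar (h : SideS G w b p) (hG : BB G) :
    IsPlanar (addp (G.comap (phS w p b))) := by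
  let q : A → Prop := fun x => ∃ (hx : x ∈ ({w}ᶜ : Set A)) (y : ({w}ᶜ : Set A)),
    (HS G w).Reachable ⟨x, hx⟩ y ∧ ¬ p y.1 ∧ G.Adj (Sum.inl y.1) (Sum.inr !b)
  have hqp : ∀ x, q x → ¬ p x := by
    rintro x ⟨hx, y, h1, h2, _⟩ h3
    obtain ⟨h4, _⟩ := h.reach h1 h3
    exact h2 h4
  have hqw : ∀ x, q x → x ≠ w := fun x h => h.1
  let W : Set (A ⊕ Bool) := Set.range (phS w p b)
  let C : Set (A ⊕ Bool) := {x | x = Sum.inr !b ∨ ∃ a, x = Sum.inl a ∧ q a}
  have hWC : Disjoint W C := by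
    rw [Set.disjoint_left]
    rintro x hx (rfl | ⟨a, rfl, ha⟩)
    · rw [memS_inr] at hx; simp at hx
    · rw [memS_inl] at hx
      rcases hx with h1 | h1
      · exact hqw a ha h1
      · exact hqp a ha h1
  have hbW : (Sum.inr b : A ⊕ Bool) ∈ W := (memS_inr b b).2 rfl
  have hwW : (Sum.inl w : A ⊕ Bool) ∈ W := (memS_inl b w).2 (Or.inl rfl)
  have hbC : (Sum.inr (!b) : A ⊕ Bool) ∈ C := Or.inl rfl
  have hqC : ∀ a, q a → (Sum.inl a : A ⊕ Bool) ∈ C := fun a ha => Or.inr ⟨a, rfl, ha⟩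
  have hqcl : ∀ u v : ({w}ᶜ : Set A), (HS G w).Adj u v → q u.1 → q v.1 := by
    rintro u v huv ⟨hu, y, h1, h2, h3⟩
    exact ⟨v.2, y, huv.symm.reachable.trans h1, h2, h3⟩
  have hC : ((addp G).induce C).Connected := by
    have : Nonempty C := ⟨⟨_, hbC⟩⟩
    have key : ∀ x : C, ((addp G).induce C).Reachable x ⟨Sum.inr !b, hbC⟩ := by
      rintro ⟨x, rfl | ⟨a, rfl, ha⟩⟩
      · exact SimpleGraph.Reachable.refl _
      · obtain ⟨haw, y, h1, h2, h3⟩ := id ha
        obtain ⟨hy, h4⟩ := reachS (H := HS G w) (K := (addp G).induce C) (fun v => q v.1)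
          (fun v hv => ⟨Sum.inl v.1, hqC v.1 hv⟩) hqcl
          (fun u v hu hv huv => Or.inl huv) h1 ha
        have h5 : ((addp G).induce C).Adj ⟨Sum.inl y.1, hqC y.1 hy⟩ ⟨Sum.inr !b, hbC⟩ := Or.inl h3
        exact h4.trans h5.reachable
    exact ⟨fun u v => (key u).trans (key v).symm⟩
  have hpq : (⟨Sum.inr b, hbW⟩ : W) ≠ ⟨Sum.inl w, hwW⟩ := by
    intro e
    exact absurd (congrArg Subtype.val e) (by simp)
  have h1 : ∃ a ∈ C, (addp G).Adj (Sum.inr b) a := by
    refine ⟨_, hbC, ?_⟩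
    unfold addp
    rw [SimpleGraph.sup_adj, ← edge_poles b A, SimpleGraph.edge_adj]
    right
    refine ⟨Or.inl ⟨rfl, rfl⟩, ?_⟩
    rcases b with _ | _ <;> simp
  have h2 : ∃ a ∈ C, (addp G).Adj (Sum.inl w) a := by
    obtain ⟨a, ha⟩ := poleS hG (!b)
    by_cases haw : a = w
    · subst haw
      exact ⟨_, hbC, Or.inl ha⟩
    · have hpa : ¬ p a := fun h3 => h.nb' a h3 ha
      have hqa : q a := ⟨haw, ⟨a, haw⟩, SimpleGraph.Reachable.refl _, hpa, ha⟩
      obtain ⟨y, h3, h4, h5⟩ := h.other hG haw hpa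
      have hqy : q y.1 := ⟨y.2, ⟨a, haw⟩, h3.symm, hpa, ha⟩
      exact ⟨_, hqC _ hqy, Or.inl h5.symm⟩
  have h3 := planar_shortcut hG.2.2.2 W C hWC ⟨Sum.inr b, hbW⟩ ⟨Sum.inl w, hwW⟩ hpq hC h1 h2
  let f : {x // p x} ⊕ Bool → W := fun x => ⟨phS w p b x, ⟨x, rfl⟩⟩
  have hf : Function.Injective f := fun x y hxy => phS_inj h.hpw b (congrArg Subtype.val hxy)
  have h4 := planar_comap f hf h3
  have h5 : ((addp G).induce W ⊔
      SimpleGraph.edge (⟨Sum.inr b, hbW⟩ : W) ⟨Sum.inl w, hwW⟩).comap f =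
      addp (G.comap (phS w p b)) := by
    have hfb : f (Sum.inr b) = ⟨Sum.inr b, hbW⟩ := Subtype.ext (phS_b w p b)
    have hfw : f (Sum.inr !b) = ⟨Sum.inl w, hwW⟩ := Subtype.ext (phS_nb w p b)
    ext x y
    show ((addp G).induce W ⊔ _).Adj (f x) (f y) ↔ _
    unfold addp
    rw [SimpleGraph.sup_adj, SimpleGraph.sup_adj, ← edge_poles b {x // p x}, ← hfb, ← hfw,
      SimpleGraph.edge_adj, SimpleGraph.edge_adj]
    refine or_congr ?_ ?_
    · have e1 := congrArg (fun K : SimpleGraph ({x // p x} ⊕ Bool) => K.Adj x y)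
        (comap_addpS (G := G) (w := w) (b := b) (p := p))
      exact iff_of_eq e1
    · rw [hf.eq_iff, hf.eq_iff, hf.eq_iff, hf.eq_iff, hf.ne_iff]
  rw [← h5]; exact h4

private theorem SideS.dd (h : SideS G w b p) (hG : BB G) : DD (G.comap (phS w p b)) :=
  ⟨h.ne_bot hG, h.att2 hG, h.planar hG⟩

end side

/-! ### the part at `w` -/

/-- inclusion of the part at `w` -/
private def pcS {A : Type} (w : A) (p : A → Prop) : Option {x // p x} → A ⊕ Bool
  | none => .inl w
  | some x => .inl x.1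

private theorem pcS_inj {A : Type} {w : A} {p : A → Prop} (hw : ¬ p w) :
    Function.Injective (pcS w p) := by
  intro x y h
  rcases x with _ | x
  · rcases y with _ | y
    · rfl
    · exact absurd (Sum.inl.inj h ▸ y.2) hw
  · rcases y with _ | y
    · exact absurd (Sum.inl.inj h ▸ x.2) hw
    · rw [Subtype.ext (Sum.inl.inj h)]

private theorem mem_pcS_inl {A : Type} {w : A} {p : A → Prop} (x : A) :
    (Sum.inl x : A ⊕ Bool) ∈ Set.range (pcS w p) ↔ x = w ∨ p x := by
  constructor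
  · rintro ⟨y, hy⟩
    rcases y with _ | y
    · left; exact (Sum.inl.inj hy).symm
    · right; rw [← Sum.inl.inj hy]; exact y.2
  · rintro (rfl | h)
    · exact ⟨none, rfl⟩
    · exact ⟨some ⟨x, h⟩, rfl⟩

private theorem mem_pcS_inr {A : Type} {w : A} {p : A → Prop} (c : Bool) :
    (Sum.inr c : A ⊕ Bool) ∉ Set.range (pcS w p) := by
  rintro ⟨y, hy⟩
  rcases y with _ | y
  · exact absurd hy (by simp [pcS])
  · exact absurd hy (by simp [pcS])

/-- the set `p` is the part at `w` -/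
private structure MidS {A : Type} (G : SimpleGraph (A ⊕ Bool)) (w : A) (p : A → Prop) :
    Prop where
  hpw : ¬ p w
  hcl : ∀ x y, x ≠ w → y ≠ w → G.Adj (Sum.inl x) (Sum.inl y) → p x → p y
  nb : ∀ x, p x → ∀ c : Bool, ¬ G.Adj (Sum.inl x) (Sum.inr c)

section mid
variable {A : Type} [Finite A] {G : SimpleGraph (A ⊕ Bool)} {w : A} {p : A → Prop}

private theorem MidS.conn (h : MidS G w p) (hG : BB G) : (G.comap (pcS w p)).Connected := by
  have : Nonempty (Option {x // p x}) := ⟨none⟩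
  have key : ∀ x : Option {x // p x}, (G.comap (pcS w p)).Reachable x none := by
    intro x
    rcases x with _ | x
    · exact SimpleGraph.Reachable.refl _
    · have hxw : x.1 ∈ ({w}ᶜ : Set A) := fun e => h.hpw (by
        have e' : x.1 = w := e
        exact e' ▸ x.2)
      obtain ⟨y, h1, h2⟩ := to_wS (hG.2.1.preconnected x.1 w) rfl hxw
      obtain ⟨hy, h3⟩ := reachS (H := HS G w) (K := G.comap (pcS w p)) (fun v => p v.1)
        (fun v hv => some ⟨v.1, hv⟩) (fun u v huv hu => h.hcl u.1 v.1 u.2 v.2 huv hu)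
        (fun u v hu hv huv => huv) h1 x.2
      have h4 : (G.comap (pcS w p)).Adj (some ⟨y.1, hy⟩) none := h2
      exact h3.trans h4.reachable
  exact ⟨fun u v => (key u).trans (key v).symm⟩

private theorem MidS.rr (h : MidS G w p) (hG : BB G) : RR (G.comap (pcS w p)) :=
  ⟨h.conn hG, planar_comap _ (pcS_inj h.hpw) (planar_mono le_sup_left hG.2.2.2)⟩

private theorem MidS.core (h : MidS G w p) {M : ℕ∞} (hM : CoreLt M (addp G)) :
    CoreLt M (G.comap (pcS w p)) := by
  have h0 : (addp G).comap (pcS w p) = G.comap (pcS w p) := by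
    ext x y
    show (addp G).Adj _ _ ↔ G.Adj _ _
    unfold addp
    rw [SimpleGraph.sup_adj]
    refine ⟨fun h1 => ?_, Or.inl⟩
    rcases h1 with h1 | h1
    · exact h1
    · exfalso
      rw [SimpleGraph.edge_adj] at h1
      rcases h1.1 with ⟨h3, h4⟩ | ⟨h3, h4⟩
      · exact mem_pcS_inr (w := w) (p := p) false ⟨x, h3⟩
      · exact mem_pcS_inr (w := w) (p := p) false ⟨y, h4⟩
  have h1 := coreLt_part1 hM (pcS w p) (pcS_inj h.hpw)
    ((Set.range (pcS w p))ᶜ ∪ {Sum.inl w}) (Sum.inl w) ?_ ?_ ?_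
  · rw [h0] at h1; exact h1
  · refine Set.eq_univ_of_forall fun x => ?_
    by_cases hx : x ∈ Set.range (pcS w p)
    · exact Or.inl hx
    · exact Or.inr (Or.inl hx)
  · rintro x ⟨h1, h2 | h2⟩
    · exact absurd h1 h2
    · exact h2
  · have hinr : ∀ c : Bool, (Sum.inr c : A ⊕ Bool) ∈
        ((Set.range (pcS w p))ᶜ ∪ {Sum.inl w} : Set (A ⊕ Bool)) := fun c =>
      Or.inl (mem_pcS_inr c)
    have hw : (Sum.inl w : A ⊕ Bool) ∈
        ((Set.range (pcS w p))ᶜ ∪ {Sum.inl w} : Set (A ⊕ Bool)) := Or.inr rfl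
    have hin : ∀ x : A, ¬ p x → (Sum.inl x : A ⊕ Bool) ∈
        ((Set.range (pcS w p))ᶜ ∪ {Sum.inl w} : Set (A ⊕ Bool)) := by
      intro x hx
      by_cases h1 : x = w
      · rw [h1]; exact hw
      · left
        rw [Set.mem_compl_iff, mem_pcS_inl]
        rintro (h2 | h2)
        · exact h1 h2
        · exact hx h2
    intro x y hxy
    unfold addp at hxy
    rw [SimpleGraph.sup_adj] at hxy
    rcases hxy with hxy | hxy
    · rcases x with x | x
      · rcases y with y | y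
        · by_cases h1 : x = w
          · by_cases h2 : p y
            · left; rw [mem_pcS_inl, mem_pcS_inl]; exact ⟨Or.inl h1, Or.inr h2⟩
            · right; rw [h1]; exact ⟨hw, hin y h2⟩
          · by_cases h2 : y = w
            · by_cases h3 : p x
              · left; rw [mem_pcS_inl, mem_pcS_inl]; exact ⟨Or.inr h3, Or.inl h2⟩
              · right; rw [h2]; exact ⟨hin x h3, hw⟩
            · by_cases h3 : p x
              · left; rw [mem_pcS_inl, mem_pcS_inl]
                exact ⟨Or.inr h3, Or.inr (h.hcl x y h1 h2 hxy h3)⟩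
              · right
                exact ⟨hin x h3, hin y fun h4 => h3 (h.hcl y x h2 h1 hxy.symm h4)⟩
        · right
          exact ⟨hin x fun h3 => h.nb x h3 y hxy, hinr y⟩
      · rcases y with y | y
        · right
          exact ⟨hinr x, hin y fun h3 => h.nb y h3 x hxy.symm⟩
        · right; exact ⟨hinr x, hinr y⟩
    · rw [SimpleGraph.edge_adj] at hxy
      right
      rcases hxy.1 with ⟨rfl, rfl⟩ | ⟨rfl, rfl⟩
      · exact ⟨hinr _, hinr _⟩
      · exact ⟨hinr _, hinr _⟩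

end mid

/-! ### the decomposition -/

/-- the component of `x` in the graph without `w` is adjacent to the pole `b` -/
private def touchS {A : Type} (G : SimpleGraph (A ⊕ Bool)) (w : A) (b : Bool) (x : A) : Prop :=
  ∃ (hx : x ∈ ({w}ᶜ : Set A)) (y : ({w}ᶜ : Set A)),
    (HS G w).Reachable ⟨x, hx⟩ y ∧ G.Adj (Sum.inl y.1) (Sum.inr b)

private theorem touchS_cl {A : Type} {G : SimpleGraph (A ⊕ Bool)} {w : A} {b : Bool} {x y : A}
    (hx : x ≠ w) (hy : y ≠ w) (h : G.Adj (Sum.inl x) (Sum.inl y)) (ht : touchS G w b x) :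
    touchS G w b y := by
  obtain ⟨hx', z, h1, h2⟩ := ht
  have h3 : (HS G w).Adj ⟨y, hy⟩ ⟨x, hx'⟩ := h.symm
  exact ⟨hy, z, h3.reachable.trans h1, h2⟩

private theorem touchS_not {A : Type} {G : SimpleGraph (A ⊕ Bool)} {w : A} (hw : Sep G w) {x : A}
    (h1 : touchS G w false x) (h2 : touchS G w true x) : False := by
  obtain ⟨hx, y, h3, h4⟩ := h1
  obtain ⟨hx', z, h5, h6⟩ := h2
  exact hw ((HS G w).connectedComponentMk ⟨x, hx⟩)
    ⟨⟨y, SimpleGraph.ConnectedComponent.sound h3.symm, h4⟩,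
      ⟨z, SimpleGraph.ConnectedComponent.sound h5.symm, h6⟩⟩

open Classical in
/-- the labelling -/
private noncomputable def labS {A : Type} (G : SimpleGraph (A ⊕ Bool)) (w : A) (x : A) : Fin 4 :=
  if x = w then 0 else if touchS G w false x then 2 else if touchS G w true x then 3 else 1

private theorem labS_zero {A : Type} {G : SimpleGraph (A ⊕ Bool)} {w : A} (x : A) :
    labS G w x = 0 ↔ x = w := by
  unfold labS
  split_ifs with h1 h2 h3 <;> simp [h1]

private theorem labS_two {A : Type} {G : SimpleGraph (A ⊕ Bool)} {w : A} (x : A) :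
    labS G w x = 2 ↔ touchS G w false x := by
  unfold labS
  split_ifs with h1 h2 h3
  · simp only [h1]
    refine ⟨fun h => absurd h (by decide), fun h => absurd rfl h.1⟩
  · simp [h2]
  · simp only [h2, iff_false]; decide
  · simp only [h2, iff_false]; decide

private theorem labS_three {A : Type} {G : SimpleGraph (A ⊕ Bool)} {w : A} (hw : Sep G w)
    (x : A) : labS G w x = 3 ↔ touchS G w true x := by
  unfold labS
  split_ifs with h1 h2 h3
  · simp only [h1]
    refine ⟨fun h => absurd h (by decide), fun h => absurd rfl h.1⟩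
  · refine ⟨fun h => absurd h (by decide), fun h => (touchS_not hw h2 h).elim⟩
  · simp [h3]
  · simp only [h3, iff_false]; decide

private theorem labS_one {A : Type} {G : SimpleGraph (A ⊕ Bool)} {w : A}
    (x : A) : labS G w x = 1 ↔ x ≠ w ∧ ¬ touchS G w false x ∧ ¬ touchS G w true x := by
  unfold labS
  split_ifs with h1 h2 h3
  · simp [h1]
  · simp only [h2]; refine ⟨fun h => absurd h (by decide), fun h => absurd trivial h.2.1⟩
  · simp only [h3]; refine ⟨fun h => absurd h (by decide), fun h => absurd trivial h.2.2⟩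
  · simp [h1, h2, h3]

private theorem sideS_false {A : Type} {G : SimpleGraph (A ⊕ Bool)} {w : A} (hw : Sep G w) :
    SideS G w false fun x => labS G w x = 2 := by
  refine ⟨?_, ?_, ?_, ?_, ?_⟩
  · rw [labS_two]; exact fun h => h.1 rfl
  · intro x y hx hy hxy h
    rw [labS_two] at h ⊢
    exact touchS_cl hx hy hxy h
  · intro x hx
    exact (labS_two x).1 hx
  · intro x hx h
    rw [labS_two]
    exact ⟨hx, ⟨x, hx⟩, SimpleGraph.Reachable.refl _, h⟩
  · intro x hx h
    rw [labS_two] at hx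
    exact touchS_not hw hx ⟨hx.1, ⟨x, hx.1⟩, SimpleGraph.Reachable.refl _, h⟩

private theorem sideS_true {A : Type} {G : SimpleGraph (A ⊕ Bool)} {w : A} (hw : Sep G w) :
    SideS G w true fun x => labS G w x = 3 := by
  refine ⟨?_, ?_, ?_, ?_, ?_⟩
  · rw [labS_three hw]; exact fun h => h.1 rfl
  · intro x y hx hy hxy h
    rw [labS_three hw] at h ⊢
    exact touchS_cl hx hy hxy h
  · intro x hx
    exact (labS_three hw x).1 hx
  · intro x hx h
    rw [labS_three hw]
    exact ⟨hx, ⟨x, hx⟩, SimpleGraph.Reachable.refl _, h⟩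
  · intro x hx h
    rw [labS_three hw] at hx
    exact touchS_not hw ⟨hx.1, ⟨x, hx.1⟩, SimpleGraph.Reachable.refl _, h⟩ hx

private theorem midS {A : Type} {G : SimpleGraph (A ⊕ Bool)} {w : A} :
    MidS G w fun x => labS G w x = 1 := by
  refine ⟨?_, ?_, ?_⟩
  · rw [labS_one]; exact fun h => h.1 rfl
  · intro x y hx hy hxy h
    rw [labS_one] at h ⊢
    exact ⟨hy, fun h1 => h.2.1 (touchS_cl hy hx hxy.symm h1),
      fun h1 => h.2.2 (touchS_cl hy hx hxy.symm h1)⟩
  · intro x hx c h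
    rw [labS_one] at hx
    rcases c with _ | _
    · exact hx.2.1 ⟨hx.1, ⟨x, hx.1⟩, SimpleGraph.Reachable.refl _, h⟩
    · exact hx.2.2 ⟨hx.1, ⟨x, hx.1⟩, SimpleGraph.Reachable.refl _, h⟩

/-- the graph is recovered from its parts -/
private def RcS {A : Type} (G : SimpleGraph (A ⊕ Bool)) (f : A → Fin 4)
    (P1 : SimpleGraph (Option {a // f a = 1})) (P2 : SimpleGraph ({a // f a = 2} ⊕ Bool))
    (P3 : SimpleGraph ({a // f a = 3} ⊕ Bool)) : Prop :=
  ∃ w, (∀ x, f x = 0 ↔ x = w) ∧ ∀ u v, G.Adj u v ↔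
    (∃ a b, P1.Adj a b ∧ pcS w _ a = u ∧ pcS w _ b = v) ∨
    (∃ a b, P2.Adj a b ∧ phS w _ false a = u ∧ phS w _ false b = v) ∨
    (∃ a b, P3.Adj a b ∧ phS w _ true a = u ∧ phS w _ true b = v)

private theorem RcS_unique {A : Type} {G G' : SimpleGraph (A ⊕ Bool)} {f : A → Fin 4}
    {P1 : SimpleGraph (Option {a // f a = 1})} {P2 : SimpleGraph ({a // f a = 2} ⊕ Bool)}
    {P3 : SimpleGraph ({a // f a = 3} ⊕ Bool)} (h : RcS G f P1 P2 P3) (h' : RcS G' f P1 P2 P3) :
    G = G' := by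
  obtain ⟨w, h1, h2⟩ := h
  obtain ⟨w', h3, h4⟩ := h'
  have hw : w = w' := (h3 w).1 ((h1 w).2 rfl)
  subst hw
  ext u v
  rw [h2, h4]

private theorem rcS {A : Type} {G : SimpleGraph (A ⊕ Bool)} {w : A} (hG : BB G) (hw : Sep G w) :
    RcS G (labS G w) (G.comap (pcS w fun x => labS G w x = 1))
      (G.comap (phS w (fun x => labS G w x = 2) false))
      (G.comap (phS w (fun x => labS G w x = 3) true)) := by
  refine ⟨w, labS_zero, fun u v => ⟨fun h => ?_, ?_⟩⟩
  · have key : (u ∈ Set.range (pcS w fun x => labS G w x = 1) ∧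
        v ∈ Set.range (pcS w fun x => labS G w x = 1)) ∨
        (u ∈ Set.range (phS w (fun x => labS G w x = 2) false) ∧
          v ∈ Set.range (phS w (fun x => labS G w x = 2) false)) ∨
        (u ∈ Set.range (phS w (fun x => labS G w x = 3) true) ∧
          v ∈ Set.range (phS w (fun x => labS G w x = 3) true)) := by
      have h4 : ∀ x, x ≠ w → labS G w x = 1 ∨ labS G w x = 2 ∨ labS G w x = 3 := by
        intro x hx
        rw [labS_one, labS_two, labS_three hw]
        by_cases h1 : touchS G w false x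
        · exact Or.inr (Or.inl h1)
        · by_cases h2 : touchS G w true x
          · exact Or.inr (Or.inr h2)
          · exact Or.inl ⟨hx, h1, h2⟩
      have hpole : ∀ (x : A) (c : Bool), G.Adj (Sum.inl x) (Sum.inr c) →
          ((Sum.inl x : A ⊕ Bool) ∈ Set.range (phS w (fun x => labS G w x = 2) false) ∧
            (Sum.inr c : A ⊕ Bool) ∈ Set.range (phS w (fun x => labS G w x = 2) false)) ∨
          ((Sum.inl x : A ⊕ Bool) ∈ Set.range (phS w (fun x => labS G w x = 3) true) ∧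
            (Sum.inr c : A ⊕ Bool) ∈ Set.range (phS w (fun x => labS G w x = 3) true)) := by
        intro x c hxc
        rw [memS_inl, memS_inl, memS_inr, memS_inr]
        rcases c with _ | _
        · left
          refine ⟨?_, rfl⟩
          by_cases hx : x = w
          · exact Or.inl hx
          · exact Or.inr ((sideS_false hw).nb x hx hxc)
        · right
          refine ⟨?_, rfl⟩
          by_cases hx : x = w
          · exact Or.inl hx
          · exact Or.inr ((sideS_true hw).nb x hx hxc)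
      have hww : ∀ x y, x = w → y ≠ w →
        ((Sum.inl x : A ⊕ Bool) ∈ Set.range (pcS w fun x => labS G w x = 1) ∧
          (Sum.inl y : A ⊕ Bool) ∈ Set.range (pcS w fun x => labS G w x = 1)) ∨
        ((Sum.inl x : A ⊕ Bool) ∈ Set.range (phS w (fun x => labS G w x = 2) false) ∧
          (Sum.inl y : A ⊕ Bool) ∈ Set.range (phS w (fun x => labS G w x = 2) false)) ∨
        ((Sum.inl x : A ⊕ Bool) ∈ Set.range (phS w (fun x => labS G w x = 3) true) ∧
          (Sum.inl y : A ⊕ Bool) ∈ Set.range (phS w (fun x => labS G w x = 3) true)) := by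
        intro x y hx hy
        rw [mem_pcS_inl, mem_pcS_inl, memS_inl, memS_inl, memS_inl, memS_inl]
        rcases h4 y hy with h5 | h5 | h5
        · exact Or.inl ⟨Or.inl hx, Or.inr h5⟩
        · exact Or.inr (Or.inl ⟨Or.inl hx, Or.inr h5⟩)
        · exact Or.inr (Or.inr ⟨Or.inl hx, Or.inr h5⟩)
      rcases u with x | x
      · rcases v with y | y
        · by_cases hx : x = w
          · by_cases hy : y = w
            · subst hx; subst hy
              exact absurd h (G.loopless.irrefl _)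
            · exact hww x y hx hy
          · by_cases hy : y = w
            · rcases hww y x hy hx with h5 | h5 | h5
              · exact Or.inl h5.symm
              · exact Or.inr (Or.inl h5.symm)
              · exact Or.inr (Or.inr h5.symm)
            · rw [mem_pcS_inl, mem_pcS_inl, memS_inl, memS_inl, memS_inl, memS_inl]
              rcases h4 x hx with h5 | h5 | h5
              · exact Or.inl ⟨Or.inr h5, Or.inr (midS.hcl x y hx hy h h5)⟩
              · exact Or.inr (Or.inl ⟨Or.inr h5, Or.inr ((sideS_false hw).hcl x y hx hy h h5)⟩)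
              · exact Or.inr (Or.inr ⟨Or.inr h5, Or.inr ((sideS_true hw).hcl x y hx hy h h5)⟩)
        · exact Or.inr (hpole x y h)
      · rcases v with y | y
        · rcases hpole y x h.symm with h5 | h5
          · exact Or.inr (Or.inl h5.symm)
          · exact Or.inr (Or.inr h5.symm)
        · exfalso
          rcases x with _ | _ <;> rcases y with _ | _
          · exact G.loopless.irrefl _ h
          · exact hG.1 h
          · exact hG.1 h.symm
          · exact G.loopless.irrefl _ h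
    rcases key with ⟨⟨a, rfl⟩, ⟨b, rfl⟩⟩ | ⟨⟨a, rfl⟩, ⟨b, rfl⟩⟩ | ⟨⟨a, rfl⟩, ⟨b, rfl⟩⟩
    · exact Or.inl ⟨a, b, h, rfl, rfl⟩
    · exact Or.inr (Or.inl ⟨a, b, h, rfl, rfl⟩)
    · exact Or.inr (Or.inr ⟨a, b, h, rfl, rfl⟩)
  · rintro (⟨a, b, h, rfl, rfl⟩ | ⟨a, b, h, rfl, rfl⟩ | ⟨a, b, h, rfl, rfl⟩)
    · exact h
    · exact h
    · exact h

/-- the decomposition with all properties -/
private structure DcS {A : Type} (G : SimpleGraph (A ⊕ Bool)) (w : A) (f : A → Fin 4)
    (P1 : SimpleGraph (Option {a // f a = 1})) (P2 : SimpleGraph ({a // f a = 2} ⊕ Bool))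
    (P3 : SimpleGraph ({a // f a = 3} ⊕ Bool)) : Prop where
  f0 : ∀ x, f x = 0 ↔ x = w
  rc : RcS G f P1 P2 P3
  r1 : RR P1
  d2 : DD P2
  d3 : DD P3
  c1 : ∀ M, CoreLt M (addp G) → CoreLt M P1
  c2 : ∀ M, CoreLt M (addp G) → CoreLt M (addp P2)
  c3 : ∀ M, CoreLt M (addp G) → CoreLt M (addp P3)
  m1 : ∀ x (hx : f x = 1), G.dist (Sum.inl x) (Sum.inl w) ≤ P1.dist (some ⟨x, hx⟩) none
  m2 : ∀ x (hx : f x = 2), G.dist (Sum.inl x) (Sum.inr false) ≤
    P2.dist (Sum.inl ⟨x, hx⟩) (Sum.inr false) ∧ G.dist (Sum.inl x) (Sum.inl w) ≤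
      P2.dist (Sum.inl ⟨x, hx⟩) (Sum.inr true)
  m3 : ∀ x (hx : f x = 3), G.dist (Sum.inl x) (Sum.inr true) ≤
    P3.dist (Sum.inl ⟨x, hx⟩) (Sum.inr true) ∧ G.dist (Sum.inl x) (Sum.inl w) ≤
      P3.dist (Sum.inl ⟨x, hx⟩) (Sum.inr false)
  q2 : G.dist (Sum.inr false) (Sum.inl w) ≤ pd P2
  q3 : G.dist (Sum.inl w) (Sum.inr true) ≤ pd P3
  v2 : G.Reachable (Sum.inr false) (Sum.inl w)
  v3 : G.Reachable (Sum.inl w) (Sum.inr true)

private theorem dcS {A : Type} [Finite A] {G : SimpleGraph (A ⊕ Bool)} {w : A} (hG : BB G)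
    (hw : Sep G w) : ∃ f P1 P2 P3, DcS G w f P1 P2 P3 := by
  have h1 := midS (G := G) (w := w)
  have h2 := sideS_false hw
  have h3 := sideS_true hw
  refine ⟨labS G w, _, _, _, labS_zero, rcS hG hw, h1.rr hG, h2.dd hG, h3.dd hG,
    fun M hM => h1.core hM, fun M hM => h2.core hG hM, fun M hM => h3.core hG hM, ?_, ?_, ?_,
    ?_, ?_, ?_, ?_⟩
  · intro x hx
    have h4 : (G.comap (pcS w fun x => labS G w x = 1)).Reachable (some ⟨x, hx⟩) none :=
      (h1.conn hG).preconnected _ _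
    exact dist_comapS _ h4
  · intro x hx
    have h4 := dist_comapS _ (h2.reach_pole hG ⟨x, hx⟩ false)
    have h5 := dist_comapS _ (h2.reach_pole hG ⟨x, hx⟩ true)
    exact ⟨h4, h5⟩
  · intro x hx
    have h4 := dist_comapS _ (h3.reach_pole hG ⟨x, hx⟩ true)
    have h5 := dist_comapS _ (h3.reach_pole hG ⟨x, hx⟩ false)
    exact ⟨h4, h5⟩
  · exact dist_comapS _ (h2.poles hG)
  · exact dist_comapS _ (h3.poles hG).symm
  · exact reach_comapS _ (h2.poles hG)
  · exact reach_comapS _ (h3.poles hG).symm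

/-! ### counting -/

private theorem countS (k : ℕ) (X : ∀ A : Type, SimpleGraph (A ⊕ Bool) → Prop)
    (Q1 : ∀ A : Type, SimpleGraph (Option A) → Prop) (Q2 Q3 : ∀ A : Type, SimpleGraph (A ⊕ Bool) → Prop)
    (h1 : Inv1 Q1) (h2 : Inv2 Q2) (h3 : Inv2 Q3)
    (hX : ∀ G : SimpleGraph (Fin k ⊕ Bool), X _ G → ∃ w f P1 P2 P3, DcS G w f P1 P2 P3 ∧
      Q1 _ P1 ∧ Q2 _ P2 ∧ Q3 _ P3) :
    es2 X k ≤ cv (sh (es1 Q1)) (cv (es2 Q2) (es2 Q3)) k := by
  let F : Type → Type := fun A => {G : SimpleGraph (A ⊕ Bool) // X A G}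
  let C1 : Type → Type := fun A => {G : SimpleGraph (Option A) // Q1 A G}
  let C2 : Type → Type := fun A => {G : SimpleGraph (A ⊕ Bool) // Q2 A G}
  let C3 : Type → Type := fun A => {G : SimpleGraph (A ⊕ Bool) // Q3 A G}
  have hex : ∀ x : F (Fin k), ∃ z : (Σ f : Fin k → Fin 4,
      One {a // f a = 0} × C1 {a // f a = 1} × C2 {a // f a = 2} × C3 {a // f a = 3}),
      RcS x.1 z.1 z.2.2.1.1 z.2.2.2.1.1 z.2.2.2.2.1 := by
    rintro ⟨G, hG⟩
    obtain ⟨w, f, P1, P2, P3, hD, q1, q2, q3⟩ := hX G hG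
    have h0 : Nat.card {a // f a = 0} = 1 := by
      rw [Nat.card_eq_one_iff_unique]
      refine ⟨⟨fun a b => Subtype.ext ?_⟩, ⟨⟨w, (hD.f0 w).2 rfl⟩⟩⟩
      rw [(hD.f0 a.1).1 a.2, (hD.f0 b.1).1 b.2]
    exact ⟨⟨f, ⟨(), h0⟩, ⟨P1, q1⟩, ⟨P2, q2⟩, ⟨P3, q3⟩⟩, hD.rc⟩
  choose e he using hex
  have h := four_parts F One C1 C2 C3 one_cinv (cinv1 _ h1) (cinv2 _ h2) (cinv2 _ h3) k e (by
    intro x y hxy
    have e1 := he x
    have e2 := he y
    rw [hxy] at e1
    exact Subtype.ext (RcS_unique e1 e2))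
  rw [← cv_assoc, cv_one] at h
  exact h

theorem s_le (M : ℕ∞) (k : ℕ) : bS M k ≤ cv (rN M) (cv (dN M) (dN M)) k := by
  refine countS k (fun A G => BB G ∧ CoreLt M (addp G) ∧ ∃ w : A, Sep G w)
    (fun _ G => RR G ∧ CoreLt M G) (fun _ G => DD G ∧ CoreLt M (addp G))
    (fun _ G => DD G ∧ CoreLt M (addp G)) (inv1_and inv_RR (inv_core1 M))
    (inv2_and inv_DD (inv_core2 M)) (inv2_and inv_DD (inv_core2 M)) ?_
  rintro G ⟨hG, hM, w, hw⟩
  obtain ⟨f, P1, P2, P3, hD⟩ := dcS hG hw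
  exact ⟨w, f, P1, P2, P3, hD, ⟨hD.r1, hD.c1 M hM⟩, ⟨hD.d2, hD.c2 M hM⟩, ⟨hD.d3, hD.c3 M hM⟩⟩

private theorem card_unionS {α : Type} [Finite α] (X X1 X2 X3 X4 : α → Prop)
    (h : ∀ a, X a → X1 a ∨ X2 a ∨ X3 a ∨ X4 a) :
    (Nat.card {a // X a} : ℝ) ≤ Nat.card {a // X1 a} + Nat.card {a // X2 a} +
      Nat.card {a // X3 a} + Nat.card {a // X4 a} := by
  classical
  have : Fintype α := Fintype.ofFinite α
  simp only [Nat.card_eq_fintype_card, Fintype.card_subtype]
  have h1 : (univ.filter X) ⊆ ((univ.filter X1 ∪ univ.filter X2) ∪ univ.filter X3) ∪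
      univ.filter X4 := by
    intro a ha
    simp only [mem_filter, mem_univ, true_and, mem_union] at ha ⊢
    rcases h a ha with h | h | h | h <;> tauto
  have h2 := (card_le_card h1).trans ((card_union_le _ _).trans (Nat.add_le_add_right
    ((card_union_le _ _).trans (Nat.add_le_add_right (card_union_le _ _) _)) _))
  exact_mod_cast h2

theorem s_far (L l : ℕ) (hl : l < L) (k : ℕ) :
    es2 (fun A G => BB G ∧ Far2 L G ∧ ∃ w : A, Sep G w) k ≤
      cv (rF (L - l)) (cv (dN ⊤) (dN ⊤)) k + 2 * cv (rN ⊤) (cv (dF (L - l)) (dN ⊤)) k +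
      cv (rN ⊤) (cv (dP l) (dP l)) k := by
  let X1 : ∀ A : Type, SimpleGraph (A ⊕ Bool) → Prop := fun A G => ∃ w f P1 P2 P3,
    DcS G w f P1 P2 P3 ∧ Far1 (L - l) P1
  let X2 : ∀ A : Type, SimpleGraph (A ⊕ Bool) → Prop := fun A G => ∃ w f P1 P2 P3,
    DcS G w f P1 P2 P3 ∧ Far2 (L - l) P2
  let X3 : ∀ A : Type, SimpleGraph (A ⊕ Bool) → Prop := fun A G => ∃ w f P1 P2 P3,
    DcS G w f P1 P2 P3 ∧ Far2 (L - l) P3
  let X4 : ∀ A : Type, SimpleGraph (A ⊕ Bool) → Prop := fun A G => ∃ w f P1 P2 P3,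
    DcS G w f P1 P2 P3 ∧ l < pd P2 ∧ l < pd P3
  have hcov : ∀ G : SimpleGraph (Fin k ⊕ Bool), (BB G ∧ Far2 L G ∧ ∃ w : Fin k, Sep G w) →
      X1 _ G ∨ X2 _ G ∨ X3 _ G ∨ X4 _ G := by
    rintro G ⟨hG, ⟨a, ha⟩, w, hw⟩
    obtain ⟨f, P1, P2, P3, hD⟩ := dcS hG hw
    by_cases h4 : l < pd P2 ∧ l < pd P3
    · exact Or.inr (Or.inr (Or.inr ⟨w, f, P1, P2, P3, hD, h4⟩))
    · have hwl : L - l ≤ G.dist (Sum.inl a) (Sum.inl w) := by
        by_cases h5 : l < pd P2
        · have h6 : pd P3 ≤ l := by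
            by_contra h7
            exact h4 ⟨h5, by omega⟩
          have h7 := hD.v3.dist_triangle_right (Sum.inl a)
          have h8 := ha true
          have h9 := hD.q3
          omega
        · have h7 := hD.v2.symm.dist_triangle_right (Sum.inl a)
          have h8 := ha false
          have h9 := hD.q2
          rw [SimpleGraph.dist_comm] at h9
          omega
      have haw : a ≠ w := by
        rintro rfl
        rw [SimpleGraph.dist_self] at hwl
        omega
      have hfa : f a = 1 ∨ f a = 2 ∨ f a = 3 := by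
        have h0 : f a ≠ 0 := fun h => haw ((hD.f0 a).1 h)
        generalize f a = c at h0
        fin_cases c
        · exact absurd rfl h0
        · left; rfl
        · right; left; rfl
        · right; right; rfl
      rcases hfa with h5 | h5 | h5
      · exact Or.inl ⟨w, f, P1, P2, P3, hD, ⟨a, h5⟩, hwl.trans (hD.m1 a h5)⟩
      · refine Or.inr (Or.inl ⟨w, f, P1, P2, P3, hD, ⟨a, h5⟩, fun b => ?_⟩)
        rcases b with _ | _
        · have h6 := ha false
          have h7 := (hD.m2 a h5).1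
          omega
        · exact hwl.trans (hD.m2 a h5).2
      · refine Or.inr (Or.inr (Or.inl ⟨w, f, P1, P2, P3, hD, ⟨a, h5⟩, fun b => ?_⟩))
        rcases b with _ | _
        · exact hwl.trans (hD.m3 a h5).2
        · have h6 := ha true
          have h7 := (hD.m3 a h5).1
          omega
  have hsum : es2 (fun A G => BB G ∧ Far2 L G ∧ ∃ w : A, Sep G w) k ≤
      es2 X1 k + es2 X2 k + es2 X3 k + es2 X4 k := by
    unfold es2
    rw [← add_div, ← add_div, ← add_div]
    exact div_le_div_of_nonneg_right (card_unionS _ _ _ _ _ hcov) (by positivity)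
  have e1 : es2 X1 k ≤ cv (rF (L - l)) (cv (dN ⊤) (dN ⊤)) k :=
    countS k X1 (fun _ G => RR G ∧ Far1 (L - l) G) (fun _ G => DD G ∧ CoreLt ⊤ (addp G))
      (fun _ G => DD G ∧ CoreLt ⊤ (addp G)) (inv1_and inv_RR (inv_far1 _))
      (inv2_and inv_DD (inv_core2 ⊤)) (inv2_and inv_DD (inv_core2 ⊤))
      (fun G ⟨w, f, P1, P2, P3, hD, h⟩ => ⟨w, f, P1, P2, P3, hD, ⟨hD.r1, h⟩,
        ⟨hD.d2, coreLt_top _⟩, ⟨hD.d3, coreLt_top _⟩⟩)
  have e2 : es2 X2 k ≤ cv (rN ⊤) (cv (dF (L - l)) (dN ⊤)) k :=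
    countS k X2 (fun _ G => RR G ∧ CoreLt ⊤ G) (fun _ G => DD G ∧ Far2 (L - l) G)
      (fun _ G => DD G ∧ CoreLt ⊤ (addp G)) (inv1_and inv_RR (inv_core1 ⊤))
      (inv2_and inv_DD (inv_far2 _)) (inv2_and inv_DD (inv_core2 ⊤))
      (fun G ⟨w, f, P1, P2, P3, hD, h⟩ => ⟨w, f, P1, P2, P3, hD, ⟨hD.r1, coreLt_top _⟩,
        ⟨hD.d2, h⟩, ⟨hD.d3, coreLt_top _⟩⟩)
  have e3 : es2 X3 k ≤ cv (rN ⊤) (cv (dN ⊤) (dF (L - l))) k :=
    countS k X3 (fun _ G => RR G ∧ CoreLt ⊤ G) (fun _ G => DD G ∧ CoreLt ⊤ (addp G))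
      (fun _ G => DD G ∧ Far2 (L - l) G) (inv1_and inv_RR (inv_core1 ⊤))
      (inv2_and inv_DD (inv_core2 ⊤)) (inv2_and inv_DD (inv_far2 _))
      (fun G ⟨w, f, P1, P2, P3, hD, h⟩ => ⟨w, f, P1, P2, P3, hD, ⟨hD.r1, coreLt_top _⟩,
        ⟨hD.d2, coreLt_top _⟩, ⟨hD.d3, h⟩⟩)
  have e4 : es2 X4 k ≤ cv (rN ⊤) (cv (dP l) (dP l)) k :=
    countS k X4 (fun _ G => RR G ∧ CoreLt ⊤ G) (fun _ G => DD G ∧ l < pd G)
      (fun _ G => DD G ∧ l < pd G) (inv1_and inv_RR (inv_core1 ⊤))
      (inv2_and inv_DD (inv_pd l)) (inv2_and inv_DD (inv_pd l))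
      (fun G ⟨w, f, P1, P2, P3, hD, h⟩ => ⟨w, f, P1, P2, P3, hD, ⟨hD.r1, coreLt_top _⟩,
        ⟨hD.d2, h.1⟩, ⟨hD.d3, h.2⟩⟩)
  rw [cv_comm (dN ⊤) (dF (L - l))] at e3
  linarith

private theorem pd_ltS {A : Type} [Finite A] (G : SimpleGraph (A ⊕ Bool)) :
    pd G < Nat.card A + 2 := by
  classical
  have : Fintype A := Fintype.ofFinite A
  unfold pd
  by_cases h : G.Reachable (Sum.inr false) (Sum.inr true)
  · obtain ⟨p, hp, hl⟩ := h.exists_path_of_dist
    have h1 := hp.length_lt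
    rw [hl] at h1
    simpa [Nat.card_eq_fintype_card] using h1
  · rw [SimpleGraph.dist_eq_zero_of_not_reachable h]
    omega

/-- graphs of the class `DD` with given distance of the poles -/
private noncomputable def dEx (i : ℕ) : ℕ → ℝ := es2 fun _ G => DD G ∧ pd G = i

open Classical in
private theorem sum_dEx (E : ℕ → ℝ) (N n : ℕ) (hN : n + 2 ≤ N) :
    ∑ i ∈ range N, E i * dEx i n =
      (∑ G : SimpleGraph (Fin n ⊕ Bool), if DD G then E (pd G) else 0) / n.factorial := by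
  have h1 : ∀ i, dEx i n =
      (∑ G : SimpleGraph (Fin n ⊕ Bool), if DD G ∧ pd G = i then (1 : ℝ) else 0) / n.factorial := by
    intro i
    unfold dEx es2
    rw [Nat.card_eq_fintype_card, Fintype.card_subtype, Finset.sum_boole]
  simp only [h1, ← mul_div_assoc, ← Finset.sum_div, Finset.mul_sum]
  congr 1
  rw [Finset.sum_comm]
  refine Finset.sum_congr rfl fun G _ => ?_
  by_cases hG : DD G
  · simp only [hG, true_and, if_true]
    have h2 : pd G ∈ range N := by
      rw [mem_range]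
      have := pd_ltS G
      rw [Nat.card_eq_fintype_card, Fintype.card_fin] at this
      omega
    rw [Finset.sum_eq_single_of_mem (pd G) h2]
    · simp
    · intro i _ hi
      rw [if_neg (fun h => hi h.symm), mul_zero]
  · simp [hG]

open Classical in
theorem s_T {θ : ℝ} (hθ : 0 ≤ θ) (k : ℕ) :
    (∑ G : SimpleGraph (Fin k ⊕ Bool), if BB G ∧ ∃ w, Sep G w then Real.exp (θ * pd G) - 1 else 0) /
        k.factorial ≤
      cv (rN ⊤) (fun j => cv (dT θ) (dT θ) j - cv (dN ⊤) (dN ⊤) j) k := by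
  set N := k + 2 with hN
  let X : ℕ → ℕ → ∀ A : Type, SimpleGraph (A ⊕ Bool) → Prop := fun i j A G => ∃ w f P1 P2 P3,
    DcS G w f P1 P2 P3 ∧ pd P2 = i ∧ pd P3 = j
  have hE : ∀ i j : ℕ, (0 : ℝ) ≤ Real.exp (θ * i) * Real.exp (θ * j) - 1 := by
    intro i j
    rw [← Real.exp_add, sub_nonneg]
    exact Real.one_le_exp (by positivity)
  have hcount : ∀ i j, es2 (X i j) k ≤ cv (rN ⊤) (cv (dEx i) (dEx j)) k := by
    intro i j
    have hi : ∀ i : ℕ, Inv2 fun _ G => pd G = i := fun i A B _ _ e G h => by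
      show pd (G.comap (Sum.map e id)) = i
      rw [pd_comap]; exact h
    exact countS k (X i j) (fun _ G => RR G ∧ CoreLt ⊤ G) (fun _ G => DD G ∧ pd G = i)
      (fun _ G => DD G ∧ pd G = j) (inv1_and inv_RR (inv_core1 ⊤))
      (inv2_and inv_DD (hi i)) (inv2_and inv_DD (hi j))
      (fun G ⟨w, f, P1, P2, P3, hD, h⟩ => ⟨w, f, P1, P2, P3, hD, ⟨hD.r1, coreLt_top _⟩,
        ⟨hD.d2, h.1⟩, ⟨hD.d3, h.2⟩⟩)
  have hG : ∀ G : SimpleGraph (Fin k ⊕ Bool),
      (if BB G ∧ ∃ w, Sep G w then Real.exp (θ * pd G) - 1 else 0) ≤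
      ∑ i ∈ range N, ∑ j ∈ range N, (Real.exp (θ * i) * Real.exp (θ * j) - 1) *
        (if X i j _ G then (1 : ℝ) else 0) := by
    intro G
    have hnn : ∀ i j : ℕ, (0 : ℝ) ≤ (Real.exp (θ * i) * Real.exp (θ * j) - 1) *
        (if X i j _ G then (1 : ℝ) else 0) := fun i j =>
      mul_nonneg (hE i j) (by split_ifs <;> norm_num)
    split_ifs with h
    · obtain ⟨hB, w, hw⟩ := h
      obtain ⟨f, P1, P2, P3, hD⟩ := dcS hB hw
      have hc : ∀ c : Fin 4, Nat.card {a : Fin k // f a = c} ≤ k := fun c => by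
        have h1 := Nat.card_le_card_of_injective (Subtype.val : {a : Fin k // f a = c} → Fin k)
          Subtype.val_injective
        rwa [Nat.card_eq_fintype_card (α := Fin k), Fintype.card_fin] at h1
      have h2 : pd P2 ∈ range N := by
        rw [mem_range]
        have h1 := pd_ltS P2
        have := hc 2
        omega
      have h3 : pd P3 ∈ range N := by
        rw [mem_range]
        have h1 := pd_ltS P3
        have := hc 3
        omega
      have h4 : pd G ≤ pd P2 + pd P3 := by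
        have h5 := hD.v2.dist_triangle_left (Sum.inr true)
        have h6 := hD.q2
        have h7 := hD.q3
        unfold pd at h6 h7 ⊢
        omega
      have h8 : Real.exp (θ * pd G) - 1 ≤ (Real.exp (θ * (pd P2 : ℕ)) * Real.exp (θ * (pd P3 : ℕ)) - 1) *
          (if X (pd P2) (pd P3) _ G then (1 : ℝ) else 0) := by
        rw [if_pos ⟨w, f, P1, P2, P3, hD, rfl, rfl⟩, mul_one, ← Real.exp_add, ← mul_add]
        have h9 : (pd G : ℝ) ≤ (pd P2 : ℝ) + (pd P3 : ℝ) := by exact_mod_cast h4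
        have := Real.exp_le_exp.2 (mul_le_mul_of_nonneg_left h9 hθ)
        linarith
      refine h8.trans ((Finset.single_le_sum (f := fun j : ℕ =>
        (Real.exp (θ * (pd P2 : ℕ)) * Real.exp (θ * j) - 1) *
          (if X (pd P2) j _ G then (1 : ℝ) else 0)) (fun j _ => hnn _ j) h3).trans
        (Finset.single_le_sum (f := fun i : ℕ => ∑ j ∈ range N,
          (Real.exp (θ * i) * Real.exp (θ * j) - 1) * (if X i j _ G then (1 : ℝ) else 0))
          (fun i _ => Finset.sum_nonneg fun j _ => hnn i j) h2))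
    · exact Finset.sum_nonneg fun i _ => Finset.sum_nonneg fun j _ => hnn i j
  have hcardX : ∀ i j, es2 (X i j) k = (∑ G : SimpleGraph (Fin k ⊕ Bool),
      if X i j _ G then (1 : ℝ) else 0) / k.factorial := by
    intro i j
    unfold es2
    rw [Nat.card_eq_fintype_card, Fintype.card_subtype, Finset.sum_boole]
  have h1 : (∑ G : SimpleGraph (Fin k ⊕ Bool), if BB G ∧ ∃ w, Sep G w then
      Real.exp (θ * pd G) - 1 else 0) / k.factorial ≤
      ∑ i ∈ range N, ∑ j ∈ range N, (Real.exp (θ * i) * Real.exp (θ * j) - 1) *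
        cv (rN ⊤) (cv (dEx i) (dEx j)) k := by
    have h2 : (∑ G : SimpleGraph (Fin k ⊕ Bool), if BB G ∧ ∃ w, Sep G w then
      Real.exp (θ * pd G) - 1 else 0) / k.factorial ≤
      ∑ i ∈ range N, ∑ j ∈ range N, (Real.exp (θ * i) * Real.exp (θ * j) - 1) *
        es2 (X i j) k := by
      simp only [hcardX, ← mul_div_assoc, ← Finset.sum_div]
      refine div_le_div_of_nonneg_right ?_ (by positivity)
      refine (Finset.sum_le_sum fun G _ => hG G).trans (le_of_eq ?_)
      rw [Finset.sum_comm]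
      refine Finset.sum_congr rfl fun i _ => ?_
      rw [Finset.sum_comm]
      refine Finset.sum_congr rfl fun j _ => ?_
      rw [Finset.mul_sum]
    exact h2.trans (Finset.sum_le_sum fun i _ => Finset.sum_le_sum fun j _ =>
      mul_le_mul_of_nonneg_left (hcount i j) (hE i j))
  refine h1.trans (le_of_eq ?_)
  have hswap : ∑ i ∈ range N, ∑ j ∈ range N, (Real.exp (θ * i) * Real.exp (θ * j) - 1) *
      cv (rN ⊤) (cv (dEx i) (dEx j)) k = ∑ x ∈ antidiagonal k, rN ⊤ x.1 *
        ∑ y ∈ antidiagonal x.2, ∑ i ∈ range N, ∑ j ∈ range N,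
          (Real.exp (θ * i) * Real.exp (θ * j) - 1) * (dEx i y.1 * dEx j y.2) := by
    unfold cv
    simp only [Finset.mul_sum]
    have e1 : ∀ i : ℕ, (∑ j ∈ range N, ∑ x ∈ antidiagonal k, ∑ y ∈ antidiagonal x.2,
        (Real.exp (θ * i) * Real.exp (θ * j) - 1) * (rN ⊤ x.1 * (dEx i y.1 * dEx j y.2))) =
        ∑ x ∈ antidiagonal k, ∑ y ∈ antidiagonal x.2, ∑ j ∈ range N,
          rN ⊤ x.1 * ((Real.exp (θ * i) * Real.exp (θ * j) - 1) * (dEx i y.1 * dEx j y.2)) := by
      intro i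
      rw [Finset.sum_comm]
      refine Finset.sum_congr rfl fun x _ => ?_
      rw [Finset.sum_comm]
      refine Finset.sum_congr rfl fun y _ => Finset.sum_congr rfl fun j _ => by ring
    rw [Finset.sum_congr rfl fun i _ => e1 i, Finset.sum_comm]
    refine Finset.sum_congr rfl fun x _ => ?_
    rw [Finset.sum_comm]
  rw [hswap]
  unfold cv
  refine Finset.sum_congr rfl fun x hx => ?_
  congr 1
  show _ = ∑ ij ∈ antidiagonal x.2, dT θ ij.1 * dT θ ij.2 -
    ∑ ij ∈ antidiagonal x.2, dN ⊤ ij.1 * dN ⊤ ij.2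
  rw [← Finset.sum_sub_distrib]
  refine Finset.sum_congr rfl fun y hy => ?_
  have hx2 := Finset.HasAntidiagonal.mem_antidiagonal.1 hx
  have hy3 := Finset.HasAntidiagonal.mem_antidiagonal.1 hy
  have hy1 : y.1 + 2 ≤ N := by omega
  have hy2 : y.2 + 2 ≤ N := by omega
  have t1 : ∀ n, n + 2 ≤ N → ∑ i ∈ range N, Real.exp (θ * i) * dEx i n = dT θ n := fun n hn =>
    sum_dEx (fun i => Real.exp (θ * i)) N n hn
  have t2 : ∀ n, n + 2 ≤ N → ∑ i ∈ range N, dEx i n = dN ⊤ n := fun n hn => by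
    have h3 := sum_dEx (fun _ => 1) N n hn
    simp only [one_mul] at h3
    rw [h3]
    unfold dN es2
    rw [Nat.card_eq_fintype_card, Fintype.card_subtype, Finset.sum_boole]
    congr 2
    refine congrArg Finset.card (Finset.filter_congr fun G _ => ?_)
    exact ⟨fun h => ⟨h, coreLt_top _⟩, fun h => h.1⟩
  rw [← t1 y.1 hy1, ← t1 y.2 hy2, ← t2 y.1 hy1, ← t2 y.2 hy2, Finset.sum_mul_sum,
    Finset.sum_mul_sum, ← Finset.sum_sub_distrib]
  refine Finset.sum_congr rfl fun i _ => ?_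
  rw [← Finset.sum_sub_distrib]
  refine Finset.sum_congr rfl fun j _ => ?_
  ring

end Dia
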