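import Pool.Agent.Dia.RngM

/-!
# Module DistM: pointed maps and distances

`M.G` is the graph on the vertices (`M.V`), `vx t` the vertex of the dart `t`; `vx t`, `vx (a t)` are equal
or adjacent.

`G_conn`: from `conn`: the set of darts whose vertex is reachable from the vertex of `r` is closed under
`a` and `s`.
`dist_a`: `dist v (vx (a t)) ≤ dist v (vx t) + 1` (equal or adjacent; connected).
`exists_closer`: if `dist v u > 0` there is a dart `t` with `vx t = u` and
`dist v (vx (a t)) = dist v u - 1` (last step of a shortest walk).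

`pt M v`: the labels `l t = dist v (vx r) - dist v (vx t)`.
`pt_isPt`: `l (s t) = l t` since `vx (s t) = vx t`; `la`: `dist_a` for the dart `a t`; `nmax = 1`: the vertex
`v` has no higher neighbour (`dist ≥ 0`), every other vertex has one (`exists_closer`).
`pt_rng`: the maximal label is at `v`, so `rng = max over t of dist v (vx t) = ecc v`.

`exists_pt`: let `M` be `IsPt` and `v` its unique vertex without higher neighbour, `L` the label at `v`.
Then `l t = L - dist v (vx t)`: `≥`: the labels change by at most one along edges (`la`), so along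
a walk from `v` to `vx t` of length `dist`: `l t ≥ L - dist`.  `≤`: by strong induction on
`(max label) - l t`: if `vx t ≠ v` there is a dart `t'` of the same vertex with `l (a t') = l t + 1`, and
`dist v (vx t) ≤ dist v (vx (a t')) + 1`.  So (with `l r = 0`) `l t = dist v (vx r) - dist v (vx t)`.
-/

set_option linter.unusedSectionVars false

namespace Dia
open Equiv Finset PGr

theorem RM.vx_s (M : RM) (t : M.T) : M.vx (M.s t) = M.vx t := by
  apply Quotient.sound
  show M.s.SameCycle (M.s t) t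
  exact (Perm.sameCycle_apply_left).2 (Perm.SameCycle.refl _ _)

theorem DistM_exists_vx (M : RM) (v : M.V) : ∃ t, M.vx t = v := Quotient.exists_rep v

theorem DistM_adj (M : RM) (t : M.T) : M.vx t = M.vx (M.a t) ∨ M.G.Adj (M.vx t) (M.vx (M.a t)) := by
  by_cases h : M.vx t = M.vx (M.a t)
  · exact Or.inl h
  · right
    rw [RM.G, SimpleGraph.fromRel_adj]
    exact ⟨h, Or.inl ⟨t, rfl, rfl⟩⟩

theorem RM.IsMap.G_conn {M : RM} (h : M.IsMap) : M.G.Connected := by
  classical
  have key : ∀ t, M.G.Reachable (M.vx M.r) (M.vx t) := by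
    have h1 := h.conn (univ.filter fun t => M.G.Reachable (M.vx M.r) (M.vx t)) ?_ ?_
      ⟨M.r, by simp⟩
    · intro t
      have h2 := mem_univ t
      rw [← h1] at h2
      exact (mem_filter.1 h2).2
    · intro t ht
      rw [mem_filter] at ht ⊢
      refine ⟨mem_univ _, ?_⟩
      rcases DistM_adj M t with h2 | h2
      · rw [← h2]; exact ht.2
      · exact ht.2.trans h2.reachable
    · intro t ht
      rw [mem_filter] at ht ⊢
      refine ⟨mem_univ _, ?_⟩
      rw [M.vx_s]; exact ht.2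
  haveI : Nonempty M.V := ⟨M.vx M.r⟩
  refine ⟨fun x y => ?_⟩
  obtain ⟨t, rfl⟩ := DistM_exists_vx M x
  obtain ⟨t', rfl⟩ := DistM_exists_vx M y
  exact (key t).symm.trans (key t')

theorem RM.IsMap.dist_a {M : RM} (h : M.IsMap) (v : M.V) (t : M.T) :
    M.G.dist v (M.vx (M.a t)) ≤ M.G.dist v (M.vx t) + 1 := by
  rcases DistM_adj M t with h2 | h2
  · rw [← h2]; omega
  · refine (h.G_conn.dist_triangle (v := M.vx t)).trans ?_
    rw [(SimpleGraph.dist_eq_one_iff_adj).2 h2]

theorem RM.IsMap.exists_closer {M : RM} (h : M.IsMap) (v u : M.V) (hu : u ≠ v) :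
    ∃ t, M.vx t = u ∧ M.G.dist v (M.vx (M.a t)) + 1 = M.G.dist v u := by
  obtain ⟨p, hp⟩ := h.G_conn.exists_walk_length_eq_dist u v
  cases p with
  | nil => exact absurd rfl hu
  | cons hadj q =>
    rename_i w
    have h1 : M.G.dist w v ≤ q.length := SimpleGraph.dist_le q
    rw [SimpleGraph.Walk.length_cons] at hp
    have h2 : M.G.dist u v ≤ M.G.dist u w + M.G.dist w v := h.G_conn.dist_triangle
    rw [(SimpleGraph.dist_eq_one_iff_adj).2 hadj] at h2
    rw [RM.G, SimpleGraph.fromRel_adj] at hadj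
    have h3 : M.G.dist v w + 1 = M.G.dist v u := by
      rw [SimpleGraph.dist_comm (u := v) (v := w), SimpleGraph.dist_comm (u := v) (v := u)]
      omega
    rcases hadj.2 with ⟨t, h4, h5⟩ | ⟨t, h4, h5⟩
    · exact ⟨t, h4, by rw [h5]; exact h3⟩
    · exact ⟨M.a t, h5, by rw [h.inv, h4]; exact h3⟩

/-- the pointed map as a labelled map -/
noncomputable def RM.pt (M : RM) (v : M.V) : LM where
  T := M.T
  a := M.a
  s := M.s
  r := M.r
  l := fun t => (M.G.dist v (M.vx M.r) : ℤ) - (M.G.dist v (M.vx t) : ℤ)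

theorem RM.Ok.pt_isPt {M : RM} (h : M.Ok) (v : M.V) : (M.pt v).IsPt := by
  have hM : M.IsMap := h.toIsMap
  refine ⟨⟨⟨h.inv, h.fpf, h.conn⟩, fun t => ?_, fun t => ?_⟩, h.eu, ?_, ?_⟩
  · show (M.G.dist v (M.vx M.r) : ℤ) - (M.G.dist v (M.vx (M.s t)) : ℤ) =
      (M.G.dist v (M.vx M.r) : ℤ) - (M.G.dist v (M.vx t) : ℤ)
    rw [M.vx_s]
  · show (M.G.dist v (M.vx M.r) : ℤ) - (M.G.dist v (M.vx (M.a t)) : ℤ) ≤
      (M.G.dist v (M.vx M.r) : ℤ) - (M.G.dist v (M.vx t) : ℤ) + 1
    have := hM.dist_a v (M.a t)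
    rw [h.inv] at this
    omega
  · show (M.G.dist v (M.vx M.r) : ℤ) - (M.G.dist v (M.vx M.r) : ℤ) = 0
    omega
  · show Nat.card {u : M.V // ∀ t, M.vx t = u →
      (M.G.dist v (M.vx M.r) : ℤ) - (M.G.dist v (M.vx (M.a t)) : ℤ) ≤
      (M.G.dist v (M.vx M.r) : ℤ) - (M.G.dist v (M.vx t) : ℤ)} = 1
    rw [Nat.card_eq_one_iff_exists]
    refine ⟨⟨v, fun t ht => ?_⟩, ?_⟩
    · rw [ht, SimpleGraph.dist_self]; omega
    · rintro ⟨u, hu⟩
      apply Subtype.ext
      show u = v
      by_contra hne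
      obtain ⟨t, h1, h2⟩ := hM.exists_closer v u hne
      have := hu t h1
      rw [h1] at this
      omega

theorem RM.Ok.pt_rng {M : RM} (h : M.Ok) (v : M.V) : (M.pt v).rng = M.ecc v := by
  obtain ⟨x, hx⟩ := DistM_exists_vx M v
  haveI : Nonempty M.V := ⟨v⟩
  obtain ⟨u, -, hu⟩ := Finset.exists_mem_eq_sup (univ : Finset M.V) univ_nonempty
    (fun u => M.G.dist v u)
  obtain ⟨y, hy⟩ := DistM_exists_vx M u
  have h1 := (M.pt v).rng_eq x y ?_ ?_
  · have h2 : ((M.pt v).l x : ℤ) - (M.pt v).l y = M.G.dist v u := by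
      show ((M.G.dist v (M.vx M.r) : ℤ) - (M.G.dist v (M.vx x) : ℤ)) -
        ((M.G.dist v (M.vx M.r) : ℤ) - (M.G.dist v (M.vx y) : ℤ)) = _
      rw [hx, hy, SimpleGraph.dist_self]
      omega
    rw [h2] at h1
    have h3 : (M.pt v).rng = M.G.dist v u := by exact_mod_cast h1
    rw [h3, RM.ecc, hu]
  · intro t
    show (M.G.dist v (M.vx M.r) : ℤ) - (M.G.dist v (M.vx t) : ℤ) ≤
      (M.G.dist v (M.vx M.r) : ℤ) - (M.G.dist v (M.vx x) : ℤ)
    rw [hx, SimpleGraph.dist_self]
    omega
  · intro t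
    show (M.G.dist v (M.vx M.r) : ℤ) - (M.G.dist v (M.vx y) : ℤ) ≤
      (M.G.dist v (M.vx M.r) : ℤ) - (M.G.dist v (M.vx t) : ℤ)
    have h4 : M.G.dist v (M.vx t) ≤ M.G.dist v u := by
      rw [← hu]
      exact Finset.le_sup (f := fun u => M.G.dist v u) (mem_univ _)
    rw [hy]
    omega

theorem LM.IsPt.ok {M : LM} (h : M.IsPt) : M.toRM.Ok := ⟨h.toIsLM.toIsMap, h.eu⟩

theorem DistM_walk {M : LM} (h : M.IsLM) {x y : M.toRM.V} (p : M.toRM.G.Walk x y) :
    ∀ t t', M.vx t = x → M.vx t' = y → M.l t - p.length ≤ M.l t' := by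
  have hv : ∀ t t', M.vx t = M.vx t' → M.l t = M.l t' := by
    intro t t' htt
    have h1 : M.s.SameCycle t t' := Quotient.exact htt
    obtain ⟨i, _, hi⟩ := h1.exists_pow_eq'
    have h2 : ∀ n, M.l ((M.s ^ n) t) = M.l t := by
      intro n
      induction n with
      | zero => rfl
      | succ n ih => rw [pow_succ', Perm.mul_apply, h.ls, ih]
    rw [← hi, h2]
  induction p with
  | nil =>
    intro t t' h1 h2
    rw [hv t t' (h1.trans h2.symm)]
    simp
  | cons hadj q ih =>
    rename_i x w y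
    intro t t' h1 h2
    have hadj' := hadj
    rw [RM.G, SimpleGraph.fromRel_adj] at hadj'
    rw [SimpleGraph.Walk.length_cons]
    rcases hadj'.2 with ⟨c, h4, h5⟩ | ⟨c, h4, h5⟩
    · have h6 := ih (M.a c) t' h5 h2
      have h7 := h.la (M.a c)
      rw [h.inv] at h7
      rw [hv t c (h1.trans h4.symm)]
      push_cast
      omega
    · have h6 := ih c t' h4 h2
      have h7 := h.la c
      rw [hv t (M.a c) (h1.trans h5.symm)]
      push_cast
      omega

theorem LM.IsPt.exists_pt {M : LM} (h : M.IsPt) :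
    ∃ v : M.toRM.V, ∀ t, M.l t = (M.toRM.pt v).l t := by
  have hM : M.IsLM := h.toIsLM
  have hm : M.toRM.IsMap := hM.toIsMap
  have hone := h.one
  rw [LM.nmax, Nat.card_eq_one_iff_exists] at hone
  obtain ⟨⟨v, hv⟩, huniq⟩ := hone
  obtain ⟨x, hx⟩ := DistM_exists_vx M.toRM v
  have hge : ∀ t, M.l x - M.G.dist v (M.vx t) ≤ M.l t := by
    intro t
    obtain ⟨p, hp⟩ := hm.G_conn.exists_walk_length_eq_dist v (M.vx t)
    have := DistM_walk hM p x t hx rfl
    rw [hp] at this
    exact this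
  obtain ⟨z, -, hz⟩ := Finset.exists_max_image (univ : Finset M.T) M.l ⟨M.r, mem_univ _⟩
  have hvl : ∀ t t', M.vx t = M.vx t' → M.l t = M.l t' := by
    intro t t' htt
    have h1 := DistM_walk hM (SimpleGraph.Walk.nil' (M.vx t)) t t' rfl htt.symm
    have h2 := DistM_walk hM (SimpleGraph.Walk.nil' (M.vx t)) t' t htt.symm rfl
    simp only [SimpleGraph.Walk.length_nil] at h1 h2
    omega
  have hle : ∀ n : ℕ, ∀ t, (M.l z - M.l t).toNat = n → M.l t ≤ M.l x - M.G.dist v (M.vx t) := by
    intro n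
    induction n using Nat.strong_induction_on with
    | _ n ih =>
      intro t ht
      by_cases htv : M.vx t = v
      · rw [htv, SimpleGraph.dist_self, hvl t x (htv.trans hx.symm)]
        omega
      · have h1 : ¬ ∀ t', M.vx t' = M.vx t → M.l (M.a t') ≤ M.l t' := by
          intro hcon
          exact htv (congrArg Subtype.val (huniq ⟨M.vx t, hcon⟩))
        push Not at h1
        obtain ⟨t', h2, h3⟩ := h1
        have h4 := hM.la t'
        have h5 : M.l t' = M.l t := hvl _ _ h2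
        have h6 := hz (M.a t') (mem_univ _)
        have h7 := ih (M.l z - M.l (M.a t')).toNat (by omega) (M.a t') rfl
        have h8 := hm.dist_a v (M.a t')
        rw [hM.inv, h2] at h8
        have h9 : M.l (M.a t') = M.l t + 1 := by omega
        omega
  have heq : ∀ t, M.l t = M.l x - M.G.dist v (M.vx t) :=
    fun t => le_antisymm (hle _ t rfl) (hge t)
  refine ⟨v, fun t => ?_⟩
  show M.l t = (M.G.dist v (M.vx M.r) : ℤ) - (M.G.dist v (M.vx t) : ℤ)
  have h1 := heq M.r
  have h2 := heq t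
  have h3 := h.norm
  omega

end Dia
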