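import Pool.Agent.Dia.LMDefs
import Pool.Agent.PGr.Euler

/-!
# Module EulerM: Euler's inequality for connected maps

Use `Pool/Agent/PGr/Euler.lean` (namespace `PGr`): `Pl_iff_euler`, `nComp`, and the dimension
formulas there (`Euler_del`, `Euler_finrank_range`, `Euler_finrank_inv`, `Euler_finrank_comp`,
`Euler_finrank_map`, `Euler_finrank_sup`).

`nComp_eq_one`: `nComp a s` counts the orbits of the subgroup generated by `a, s`.  An orbit is
closed under `a` and `s` and nonempty, so it is everything.  There is a dart, so `nComp = 1`.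

`euler_le`: (any `a, s` with `a` a fixed point free involution): let `n = card T`, `V = nV s`,
`F = nV (a * s)`.  `W` = functions `h : T → ZMod 2` with `h ∘ a = h` (dimension `n / 2`).  For `h` in
`W` the function `h t + h (s t) = h t + h (a (s t))` lies in
`J = range (Euler_del s) ⊓ range (Euler_del (a * s))`.  The image of `W` has dimension
`n / 2 - nComp`, and `dim J = (n - V) + (n - F) - (n - nComp)`.  So `V + F ≤ n / 2 + 2 nComp`.
(The proof of `Pl_iff_euler` contains exactly this; planarity means equality.)
-/

set_option linter.unusedSectionVars false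

namespace Dia
open Equiv Finset PGr

theorem nComp_eq_one {T : Type} [Fintype T] [DecidableEq T] [Nonempty T] {a s : Perm T}
    (h : Conn a s) : nComp a s = 1 := by
  classical
  obtain ⟨t₀⟩ := (inferInstance : Nonempty T)
  rw [nComp, Nat.card_eq_one_iff_unique]
  have htr : ∀ t t' : T, ∃ g : Subgroup.closure {a, s}, g • t' = t := by
    intro t t'
    set A : Finset T := univ.filter fun x => ∃ g : Subgroup.closure {a, s}, g • t' = x with hA
    have hmem : ∀ (σ : Perm T), σ ∈ Subgroup.closure {a, s} → ∀ x, x ∈ A → σ x ∈ A := by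
      intro σ hσ x
      simp only [hA, mem_filter, mem_univ, true_and]
      rintro ⟨g, hg⟩
      refine ⟨⟨σ, hσ⟩ * g, ?_⟩
      rw [mul_smul, hg]
      rfl
    have hne : A.Nonempty :=
      ⟨t', by simp only [hA, mem_filter, mem_univ, true_and]; exact ⟨1, one_smul _ _⟩⟩
    have hu : A = univ := h A (hmem a (Subgroup.subset_closure (by simp)))
      (hmem s (Subgroup.subset_closure (by simp))) hne
    have : t ∈ A := by rw [hu]; exact mem_univ _
    simpa [hA] using this
  constructor
  · constructor
    intro x y
    induction x using Quotient.inductionOn with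
    | h x =>
      induction y using Quotient.inductionOn with
      | h y => exact Quotient.sound (htr x y)
  · exact ⟨Quotient.mk _ t₀⟩

theorem euler_le' {T : Type} [Fintype T] [DecidableEq T] {a s : Perm T} (hinv : ∀ t, a (a t) = t)
    (hfpf : ∀ t, a t ≠ t) : nV s + nV (a * s) ≤ Fintype.card T / 2 + 2 * nComp a s := by
  set J : Submodule (ZMod 2) (T → ZMod 2) :=
    LinearMap.range (Euler_del s) ⊓ LinearMap.range (Euler_del (a * s)) with hJ
  set B : Submodule (ZMod 2) (T → ZMod 2) := (LinearMap.ker (Euler_del a)).map (Euler_del s) with hB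
  have hBJ : B ≤ J := by
    rintro _ ⟨h, hh, rfl⟩
    rw [SetLike.mem_coe, Euler_mem_ker] at hh
    refine ⟨⟨h, rfl⟩, ⟨h, ?_⟩⟩
    funext t
    rw [Euler_del_apply, Euler_del_apply, Perm.mul_apply, hh]
  have hfin : Module.finrank (ZMod 2) B ≤ Module.finrank (ZMod 2) J := Submodule.finrank_mono hBJ
  have d1 := Euler_finrank_map (Euler_del s) (LinearMap.ker (Euler_del a))
  rw [Euler_finrank_comp, ← hB] at d1
  have d2 := Euler_finrank_inv hinv hfpf
  have d3 := Submodule.finrank_sup_add_finrank_inf_eq (LinearMap.range (Euler_del s))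
    (LinearMap.range (Euler_del (a * s)))
  rw [← hJ] at d3
  have d4 := Euler_finrank_sup a s
  have d5 := Euler_finrank_range s
  have d6 := Euler_finrank_range (a * s)
  omega

/-- the number of darts is even -/
theorem even_card {T : Type} [Fintype T] [DecidableEq T] {a : Perm T} (hinv : ∀ t, a (a t) = t)
    (hfpf : ∀ t, a t ≠ t) : 2 * (Fintype.card T / 2) = Fintype.card T := by
  have d2 := Euler_finrank_inv hinv hfpf
  omega

theorem euler_le (M : RM) (h : M.IsMap) : 2 * (nV M.s + nV M.ph) ≤ Fintype.card M.T + 4 := by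
  have : Nonempty M.T := ⟨M.r⟩
  have h1 := euler_le' (s := M.s) h.inv h.fpf
  have h2 := nComp_eq_one h.conn
  rw [h2] at h1
  change nV M.s + nV M.ph ≤ _ at h1
  omega

theorem pl_iff_eu (M : RM) (h : M.IsMap) : Pl M.a M.s ↔ M.Eu := by
  have : Nonempty M.T := ⟨M.r⟩
  rw [Pl_iff_euler h.inv h.fpf, nComp_eq_one h.conn]
  have h3 := even_card h.inv h.fpf
  change nV M.s + nV M.ph = _ ↔ 2 * (nV M.s + nV M.ph) = Fintype.card M.T + 4
  omega

end Dia
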