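import Pool.Agent.Dia.LMDefs
import Pool.Agent.PGr.RetLib

/-!
# Module Face: the faces of a labelled quadrangulation

Everything follows from the 4-cycle `t, ph t, ph (ph t), ph (ph (ph t))` with label steps `±1`;
recall `ph t = a (s t)`, so `ph⁻¹ t = s⁻¹ (a t)` and (labels are constant on `s`-cycles)
`l (ph⁻¹ t) = l (a t)`.

`mate c = ret ph up c` is the other element of `up` on the face of `c`.  Let `c ∈ up`,
`c1 = ph c`, `c2 = ph c1`, `c3 = ph c2`, `ph c3 = c`; `l c3 = l c - 1`.  All four are different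
(neighbours have different labels, opposite ones differ by `two`).
* If `l c1 = l c + 1`: then `l c2 = l c` (as `l c2 = l c1 ± 1` and `l c2 = l c3 ± 1`), `c1 ∈ up`,
  `c2, c3 ∉ up`: the mate is `b = c1`, `l b = l c + 1`.
* If `l c1 = l c - 1`: `s c ∈ up` (since `l (a (s c)) = l c1 = l (s c) - 1`) and `c1 ∉ up`.
  - `l c2 = l c`: the mate is `b = c2`, `l b = l c`, and `l (ph b) = l c3 = l b - 1`, so `s b ∈ up`.
  - `l c2 = l c - 2`: `c2 ∉ up`, the mate is `b = c3`, `l b = l c - 1`, `ph b = c`, and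
    the label of `ph c = c1` is `l b`, `l c2 = l b - 1`.
Use `PGr.ret_spec` (in `PGr/RetLib.lean`) to compute the first return.
-/

set_option linter.unusedSectionVars false

namespace Dia
open Equiv Finset PGr

variable {M : LM}

theorem Face_apply_inv {α : Type*} (f : Perm α) (x : α) : f (f⁻¹ x) = x := f.apply_symm_apply x

theorem Face_inv_apply {α : Type*} (f : Perm α) (x : α) : f⁻¹ (f x) = x := f.symm_apply_apply x

theorem Face_l_sinv (h : M.IsLQ) (t : M.T) : M.l (M.s⁻¹ t) = M.l t := by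
  have := h.ls (M.s⁻¹ t)
  rw [Face_apply_inv] at this
  exact this.symm

theorem Face_ph_inv (h : M.IsLQ) (t : M.T) : M.ph⁻¹ t = M.s⁻¹ (M.a t) := by
  rw [Perm.inv_eq_iff_eq]
  show t = M.a (M.s (M.s⁻¹ (M.a t)))
  rw [Face_apply_inv, h.inv]

theorem Face_l_pow (hls : ∀ t, M.l (M.s t) = M.l t) (k : ℕ) (t : M.T) :
    M.l ((M.s ^ k) t) = M.l t := by
  induction k with
  | zero => simp
  | succ k ih => rw [pow_succ', Perm.mul_apply, hls, ih]

theorem LM.IsLQ.l_ph (h : M.IsLQ) (t : M.T) :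
    M.l (M.ph t) = M.l t + 1 ∨ M.l (M.ph t) = M.l t - 1 := by
  have := h.la (M.s t)
  rw [h.ls] at this
  exact this

theorem LM.IsLQ.mem_up_iff (h : M.IsLQ) (t : M.T) :
    t ∈ M.up ↔ M.l (M.ph⁻¹ t) = M.l t - 1 := by
  rw [Face_ph_inv h, Face_l_sinv h, LM.mem_up]

theorem LM.IsLQ.not_mem_up_iff (h : M.IsLQ) (t : M.T) :
    t ∉ M.up ↔ M.l (M.a t) = M.l t + 1 := by
  rw [LM.mem_up]
  have := h.la t
  omega

/-- `a` exchanges `up` and its complement -/
theorem LM.IsLQ.a_mem_up (h : M.IsLQ) (t : M.T) : M.a t ∈ M.up ↔ t ∉ M.up := by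
  rw [LM.mem_up, h.not_mem_up_iff, h.inv]
  omega

theorem LM.IsLQ.ph_mem_up (h : M.IsLQ) (t : M.T) :
    M.ph t ∈ M.up ↔ M.l (M.ph t) = M.l t + 1 := by
  rw [h.mem_up_iff, Face_inv_apply]
  omega

theorem LM.IsLQ.s_mem_up (h : M.IsLQ) (t : M.T) :
    M.s t ∈ M.up ↔ M.l (M.ph t) = M.l t - 1 := by
  rw [LM.mem_up, h.ls]
  rfl

/-- the three types of faces, seen from an element of `up` -/
theorem LM.IsLQ.mate_cases (h : M.IsLQ) (c : {t // t ∈ M.up}) :
    (M.l (ret M.ph M.up c).1 = M.l c.1 + 1 ∧ (ret M.ph M.up c).1 = M.ph c.1) ∨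
    (M.l (ret M.ph M.up c).1 = M.l c.1 ∧ (ret M.ph M.up c).1 = M.ph (M.ph c.1) ∧
      M.ph (M.ph (ret M.ph M.up c).1) = c.1 ∧ M.s c.1 ∈ M.up ∧ M.s (ret M.ph M.up c).1 ∈ M.up) ∨
    (M.l (ret M.ph M.up c).1 = M.l c.1 - 1 ∧ M.ph (ret M.ph M.up c).1 = c.1 ∧ M.s c.1 ∈ M.up) := by
  obtain ⟨c, hc⟩ := c
  have h4 := h.four c
  have hc3 : M.l (M.ph (M.ph (M.ph c))) = M.l c - 1 := by
    have h1 := (h.mem_up_iff c).1 hc
    have h2 : M.ph⁻¹ c = M.ph (M.ph (M.ph c)) := by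
      rw [Perm.inv_eq_iff_eq]
      exact h4.symm
    rw [← h2]; exact h1
  have l1 := h.l_ph c
  have l2 := h.l_ph (M.ph c)
  have l3 := h.l_ph (M.ph (M.ph c))
  have p1 : (M.ph ^ 1) c = M.ph c := rfl
  have p2 : (M.ph ^ 2) c = M.ph (M.ph c) := rfl
  have p3 : (M.ph ^ 3) c = M.ph (M.ph (M.ph c)) := rfl
  rcases l1 with l1 | l1
  · left
    have hm : M.ph c ∈ M.up := (h.ph_mem_up c).2 l1
    rw [ret_of_mem M.ph M.up ⟨c, hc⟩ hm]
    exact ⟨l1, rfl⟩
  · have hm1 : M.ph c ∉ M.up := by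
      rw [h.ph_mem_up c]; omega
    have hs : M.s c ∈ M.up := (h.s_mem_up c).2 l1
    rcases l2 with l2 | l2
    · right; left
      have hm2 : M.ph (M.ph c) ∈ M.up := (h.ph_mem_up _).2 l2
      have e : ret M.ph M.up ⟨c, hc⟩ = ⟨(M.ph ^ 2) c, p2 ▸ hm2⟩ := by
        apply ret_spec M.ph M.up ⟨c, hc⟩ (by norm_num)
        intro i hi hi2
        have : i = 1 := by omega
        subst this
        exact hm1
      rw [e]
      simp only [p2]
      refine ⟨by omega, trivial, h4, hs, ?_⟩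
      rw [h.s_mem_up]
      omega
    · right; right
      have hm2 : M.ph (M.ph c) ∉ M.up := by rw [h.ph_mem_up]; omega
      have hm3 : M.ph (M.ph (M.ph c)) ∈ M.up := by rw [h.ph_mem_up]; omega
      have e : ret M.ph M.up ⟨c, hc⟩ = ⟨(M.ph ^ 3) c, p3 ▸ hm3⟩ := by
        apply ret_spec M.ph M.up ⟨c, hc⟩ (by norm_num)
        intro i hi hi2
        have : i = 1 ∨ i = 2 := by omega
        rcases this with rfl | rfl
        · exact hm1
        · exact hm2
      rw [e]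
      simp only [p3]
      exact ⟨hc3, h4, hs⟩

theorem LM.IsLQ.mate_mate (h : M.IsLQ) (c : {t // t ∈ M.up}) :
    ret M.ph M.up (ret M.ph M.up c) = c := by
  apply Subtype.ext
  set b := ret M.ph M.up c with hb
  have hmb := (ret M.ph M.up b).2
  rcases h.mate_cases c with ⟨l1, e1⟩ | ⟨l1, e1, e2, s1, s2⟩ | ⟨l1, e1, s1⟩
  · -- `b = ph c`, label one more
    rw [← hb] at l1 e1
    have hc3 : M.l (M.ph (M.ph (M.ph c.1))) = M.l c.1 - 1 := by
      have h1 := (h.mem_up_iff c.1).1 c.2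
      have h2 : M.ph⁻¹ c.1 = M.ph (M.ph (M.ph c.1)) := by
        rw [Perm.inv_eq_iff_eq]
        exact (h.four c.1).symm
      rw [← h2]; exact h1
    have l2 := h.l_ph (M.ph c.1)
    have l3 := h.l_ph (M.ph (M.ph c.1))
    rw [← e1] at l2 l3 hc3
    rcases h.mate_cases b with ⟨m1, f1⟩ | ⟨m1, f1, f2, t1, t2⟩ | ⟨m1, f1, t1⟩
    · rw [f1] at m1; omega
    · rw [f1] at m1; omega
    · rw [e1] at f1
      exact M.ph.injective f1
  · rw [← hb] at l1 e1 e2 s2
    have k1 := (h.s_mem_up _).1 s1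
    have k2 := (h.s_mem_up _).1 s2
    rcases h.mate_cases b with ⟨m1, f1⟩ | ⟨m1, f1, f2, t1, t2⟩ | ⟨m1, f1, t1⟩
    · rw [f1] at m1; omega
    · rw [f1, e2]
    · exfalso
      rw [e1] at f1
      have f3 := M.ph.injective f1
      rw [f3] at hmb
      have := (h.ph_mem_up _).1 hmb
      omega
  · rw [← hb] at l1 e1
    have k1 := (h.s_mem_up _).1 s1
    rcases h.mate_cases b with ⟨m1, f1⟩ | ⟨m1, f1, f2, t1, t2⟩ | ⟨m1, f1, t1⟩
    · rw [f1, e1]
    · exfalso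
      rw [f1, e1] at hmb
      have := (h.ph_mem_up _).1 hmb
      omega
    · exfalso
      have := (h.s_mem_up _).1 t1
      rw [e1] at this
      omega

theorem LM.IsLQ.mate_ne (h : M.IsLQ) (c : {t // t ∈ M.up}) : ret M.ph M.up c ≠ c := by
  intro he
  rcases h.mate_cases c with ⟨l1, e1⟩ | ⟨l1, e1, e2, s1, s2⟩ | ⟨l1, e1, s1⟩
  · rw [he] at l1; omega
  · rw [he] at e1
    exact h.two c.1 e1.symm
  · rw [he] at l1; omega

/-- `psi M` is a labelled map if it is connected -/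
theorem LM.IsLQ.psi_isLM (h : M.IsLQ) (hr : M.r ∈ M.up)
    (hc : Conn (M.psi hr).a (M.psi hr).s) : (M.psi hr).IsLM where
  inv := fun t => h.mate_mate t
  fpf := fun t => h.mate_ne t
  conn := hc
  ls := fun t => by
    obtain ⟨k, _, hk, _⟩ := exists_ret M.s M.up t
    show M.l (ret M.s M.up t).1 = M.l t.1
    rw [← hk]
    exact Face_l_pow h.ls k t.1
  la := fun t => by
    show M.l (ret M.ph M.up t).1 ≤ M.l t.1 + 1
    rcases h.mate_cases t with ⟨l1, _⟩ | ⟨l1, _⟩ | ⟨l1, _⟩ <;> omega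

end Dia
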