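import Pool.Agent.PGr.RGDefs
import Pool.Agent.DiamP.Basic

/-!
# Planar graphs: classes of rooted graphs, core sets (definitions)

Graphs are `SimpleGraph V` for types `V`.  Rooted graphs live on `Option A` (root `none`), graphs with
two poles on `A ⊕ Bool` (poles `Sum.inr false`, `Sum.inr true`), where `A` is the set of the other
vertices.
-/

set_option linter.unusedSectionVars false

namespace Dia
open PGr Finset

section classes
variable {A : Type}

/-- the poles are joined by an additional edge -/
def addp (G : SimpleGraph (A ⊕ Bool)) : SimpleGraph (A ⊕ Bool) :=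
  G ⊔ SimpleGraph.edge (Sum.inr false) (Sum.inr true)

/-- every component of the graph on the internal vertices is adjacent to both poles -/
def Att2 (G : SimpleGraph (A ⊕ Bool)) : Prop :=
  ∀ (C : (G.comap Sum.inl).ConnectedComponent) (b : Bool), ∃ a ∈ C.supp, G.Adj (Sum.inl a) (Sum.inr b)

/-- connected planar -/
def RR (G : SimpleGraph (Option A)) : Prop := G.Connected ∧ IsPlanar G

/-- connected planar, the root is not a cut vertex, at least two vertices -/
def PP (G : SimpleGraph (Option A)) : Prop := RR G ∧ (G.comap some).Connected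

/-- parallel composition of connected parts, without the edge between the poles -/
def QQ (G : SimpleGraph (A ⊕ Bool)) : Prop :=
  ¬ G.Adj (Sum.inr false) (Sum.inr true) ∧ Att2 G ∧ IsPlanar (addp G)

/-- two-pole graphs which can replace an edge of a planar graph -/
def DD (G : SimpleGraph (A ⊕ Bool)) : Prop := G ≠ ⊥ ∧ Att2 G ∧ IsPlanar (addp G)

/-- connected two-pole graphs without the edge between the poles -/
def BB (G : SimpleGraph (A ⊕ Bool)) : Prop :=
  ¬ G.Adj (Sum.inr false) (Sum.inr true) ∧ (G.comap Sum.inl).Connected ∧ Att2 G ∧ IsPlanar (addp G)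

end classes

/-! ### core sets -/

section core
variable {V : Type}

/-- 3-connected -/
def ThreeConn (K : SimpleGraph V) : Prop :=
  4 ≤ Nat.card V ∧ ∀ S : Finset V, S.card ≤ 2 → (K.induce (↑S : Set V)ᶜ).Connected

/-- the components of the complement of `X` -/
abbrev OutC (E : SimpleGraph V) (X : Set V) := (E.induce Xᶜ).ConnectedComponent

/-- the vertices of `X` adjacent to the component `C` -/
def att (E : SimpleGraph V) (X : Set V) (C : OutC E X) : Set X :=
  {x | ∃ a ∈ C.supp, E.Adj x.1 a.1}

/-- torso: the edges inside `X`, and one edge for every pair which is the attachment set of a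
component outside -/
def torso (E : SimpleGraph V) (X : Set V) : SimpleGraph X where
  Adj x y := x ≠ y ∧ (E.Adj x.1 y.1 ∨ ∃ C : OutC E X, att E X C = {x, y})
  symm := ⟨fun x y h => ⟨h.1.symm, h.2.imp (fun h => h.symm)
    fun ⟨C, hC⟩ => ⟨C, by rw [hC, Set.pair_comm]⟩⟩⟩
  loopless := ⟨fun x h => h.1 rfl⟩

/-- core set -/
structure IsCore (E : SimpleGraph V) (X : Set V) : Prop where
  att2 : ∀ C : OutC E X, ∃ x y, att E X C ⊆ {x, y}
  three : ThreeConn (torso E X)

/-- number of edges of the torso -/
noncomputable def coreE (E : SimpleGraph V) (X : Set V) : ℕ := Nat.card (torso E X).edgeSet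

/-- all cores have less than `M` edges -/
def CoreLt (M : ℕ∞) (E : SimpleGraph V) : Prop := ∀ X : Set V, IsCore E X → (coreE E X : ℕ∞) < M

end core

/-! ### the structure of the pairs (planar graph, core set) -/

section master
variable {V : Type} [LinearOrder V]

/-- indices of the parts attached to a graph `K` on the set `X`: vertices, edges, rest -/
abbrev Idx {X : Set V} (K : SimpleGraph X) : Type := X ⊕ K.edgeSet ⊕ Unit

/-- the structures which are put on the set `A` for the index `i` -/
def Str {X : Set V} (K : SimpleGraph X) : Idx K → Type → Type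
  | .inl _, A => {G : SimpleGraph (Option A) // RR G}
  | .inr (.inl _), A => {G : SimpleGraph (A ⊕ Bool) // DD G}
  | .inr (.inr _), A => {G : SimpleGraph A // IsPlanar G}

end master

/-! ### counting -/

/-- exponential counting sequence of a class of rooted graphs (the root is not counted) -/
noncomputable def es1 (P : ∀ A : Type, SimpleGraph (Option A) → Prop) (k : ℕ) : ℝ :=
  (Nat.card {G : SimpleGraph (Option (Fin k)) // P _ G} : ℝ) / k.factorial

/-- exponential counting sequence of a class of graphs with two poles -/
noncomputable def es2 (P : ∀ A : Type, SimpleGraph (A ⊕ Bool) → Prop) (k : ℕ) : ℝ :=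
  (Nat.card {G : SimpleGraph (Fin k ⊕ Bool) // P _ G} : ℝ) / k.factorial

/-- shift: the root becomes a counted vertex -/
noncomputable def sh (f : ℕ → ℝ) (k : ℕ) : ℝ := if k = 0 then 0 else f (k - 1)

/-- rooted connected planar graphs with small cores; root counted -/
noncomputable def rN (M : ℕ∞) : ℕ → ℝ := sh (es1 fun _ G => RR G ∧ CoreLt M G)
noncomputable def pN (M : ℕ∞) : ℕ → ℝ := es1 fun _ G => PP G ∧ CoreLt M G
noncomputable def qN (M : ℕ∞) : ℕ → ℝ := es2 fun _ G => QQ G ∧ CoreLt M (addp G)
noncomputable def dN (M : ℕ∞) : ℕ → ℝ := es2 fun _ G => DD G ∧ CoreLt M (addp G)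
noncomputable def bN (M : ℕ∞) : ℕ → ℝ := es2 fun _ G => BB G ∧ CoreLt M (addp G)

/-- all planar graphs with small cores -/
noncomputable def gN (M : ℕ∞) (k : ℕ) : ℝ :=
  (Nat.card {G : SimpleGraph (Fin k) // IsPlanar G ∧ CoreLt M G} : ℝ) / k.factorial

/-- 3-connected planar graphs on `v` vertices and two poles which are adjacent, with `e` other
edges; divided by `v!` -/
noncomputable def hN (v e : ℕ) : ℝ :=
  (Nat.card {K : SimpleGraph (Fin v ⊕ Bool) // ThreeConn K ∧ IsPlanar K ∧
    K.Adj (Sum.inr false) (Sum.inr true) ∧ Nat.card K.edgeSet = e + 1} : ℝ) / v.factorial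

/-- 3-connected planar graphs on `v` vertices with `e` edges; divided by `v!` -/
noncomputable def kN (v e : ℕ) : ℝ :=
  (Nat.card {K : SimpleGraph (Fin v) // ThreeConn K ∧ IsPlanar K ∧ Nat.card K.edgeSet = e} : ℝ) /
    v.factorial

end Dia
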