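import Pool.Agent.Dia.TauG

/-!
# Module KG: sums with the numbers `kP` and sums with the numbers `gP`

`kP P v e = 0` for `v < 4` (`ThreeConn` needs four vertices).  For `v ≥ 2`, `e ≥ 1`:
`2 e kP P v e = hP P.two (v-2) (e-1)` (`k_h`), `hP ≤ gP ≤ 2 hP` (`P.two` is invariant).  Substitute `v = v' + 2`;
`gP P.two v' (e-1) ≠ 0` only for `v' ≤ e - 1` (`gP_zero`).  `R0^2 D0 / 2 ≤ 1` (`R0_range`, `D0_range`).
-/

set_option linter.unusedSectionVars false

namespace Dia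
open Finset PGr Pool.Agent.DiamP

private theorem KG_inv0 : InvPG0 PGT0 := fun _ _ _ _ _ _ => trivial

theorem two_inv {P : PG0} (h : InvPG0 P) : InvP P.two :=
  fun V W G H e _ _ hG => h V W G H ⟨e⟩ hG

theorem kP_small (P : PG0) {v e : ℕ} (h : kP P v e ≠ 0) : 4 ≤ v ∧ 1 ≤ e ∧ v ≤ e ∧ e ≤ 3 * v := by
  classical
  have h1 : Nat.card {K : SimpleGraph (Fin v) // ThreeConn K ∧ IsPlanar K ∧
      Nat.card K.edgeSet = e ∧ P _ K} ≠ 0 := by
    intro h4
    apply h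
    rw [kP, h4]
    simp
  obtain ⟨⟨K, hK3, hKp, hKe, -⟩⟩ := (Nat.card_ne_zero.1 h1).1
  have hv : 4 ≤ v := by
    have := hK3.1
    rwa [Nat.card_eq_fintype_card, Fintype.card_fin] at this
  have he : 1 ≤ e := by
    by_contra hc
    have he0 : e = 0 := by omega
    rw [he0] at hKe
    have hE : IsEmpty K.edgeSet := by
      rcases Nat.card_eq_zero.1 hKe with h2 | h2
      · exact h2
      · exact absurd h2 (not_infinite_iff_finite.2 inferInstance)
    have hc := hK3.2 ∅ (by simp)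
    have hne : (⟨0, by omega⟩ : Fin v) ≠ ⟨1, by omega⟩ := by
      intro h3
      have := congrArg Fin.val h3
      simp at this
    obtain ⟨w⟩ := hc.preconnected ⟨(⟨0, by omega⟩ : Fin v), by simp⟩
      ⟨(⟨1, by omega⟩ : Fin v), by simp⟩
    cases w with
    | cons hadj _ =>
      have h5 : K.Adj _ _ := hadj
      exact hE.false ⟨_, (SimpleGraph.mem_edgeSet K).2 h5⟩
  have h2 : kP PGT0 v e ≠ 0 := by
    have h3 : 0 < kP P v e := lt_of_le_of_ne (kP_nonneg P v e) (Ne.symm h)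
    exact (lt_of_lt_of_le h3 (kP_mono (fun _ _ _ => trivial) v e)).ne'
  have h3 := k_h KG_inv0 (v := v) (e := e) (by omega) he
  have h4 : hP (PG0.two PGT0) (v - 2) (e - 1) ≠ 0 := by
    rw [← h3]
    have h5 : (e : ℝ) ≠ 0 := by
      have : (1 : ℝ) ≤ e := by exact_mod_cast he
      linarith
    exact mul_ne_zero (mul_ne_zero two_ne_zero h5) h2
  have h5 := hP_zero (two_inv KG_inv0) h4
  omega

private theorem KG_term {P : PG0} (hP' : InvPG0 P) {e : ℕ} (he : 1 ≤ e) (v : ℕ) :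
    2 * (e : ℝ) * kP P (v + 2) e = hP P.two v (e - 1) := by
  have := k_h hP' (v := v + 2) (e := e) (by omega) he
  rwa [Nat.add_sub_cancel] at this

private theorem KG_split (e : ℕ) (f : ℕ → ℝ) (h0 : f 0 = 0) (h1 : f 1 = 0) :
    ∑ v ∈ range (e + 2), f v = ∑ v ∈ range e, f (v + 2) := by
  rw [Finset.sum_range_succ', Finset.sum_range_succ', h0, h1, add_zero, add_zero]

private theorem KG_zero (P : PG0) (e : ℕ) {v : ℕ} (hv : v < 4) : kP P v e = 0 := by
  by_contra h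
  have := (kP_small P h).1
  omega

theorem kg_up {P : PG0} (hP' : InvPG0 P) {e : ℕ} (he : 1 ≤ e) (w : ℕ → ℝ) (hw : ∀ v, 0 ≤ w v)
    (S : Finset ℕ) : ∑ v ∈ S, kP P v e * R0 ^ v * D0 ^ e * w v ≤
      1 / (e : ℝ) * ∑ v ∈ range e, gP P.two v (e - 1) * R0 ^ v * D0 ^ (e - 1) * w (v + 2) := by
  have hR := R0_range
  have hD := D0_range
  have hR0 : 0 < R0 := by linarith [hR.1]
  have hD0 : 0 < D0 := by linarith [hD.1]
  have he' : (1 : ℝ) ≤ e := by exact_mod_cast he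
  have hnn : ∀ v, 0 ≤ kP P v e * R0 ^ v * D0 ^ e * w v := fun v =>
    mul_nonneg (mul_nonneg (mul_nonneg (kP_nonneg P v e) (pow_nonneg hR0.le _))
      (pow_nonneg hD0.le _)) (hw v)
  have h1 : ∑ v ∈ S, kP P v e * R0 ^ v * D0 ^ e * w v ≤
      ∑ v ∈ range (e + 2), kP P v e * R0 ^ v * D0 ^ e * w v := by
    rw [← Finset.sum_filter_ne_zero S]
    refine Finset.sum_le_sum_of_subset_of_nonneg ?_ fun v _ _ => hnn v
    intro v hv
    rw [Finset.mem_filter] at hv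
    rw [Finset.mem_range]
    have h2 : kP P v e ≠ 0 := by
      intro h3
      apply hv.2
      rw [h3]
      ring
    have := (kP_small P h2).2.2.1
    omega
  refine h1.trans ?_
  rw [KG_split e (fun v => kP P v e * R0 ^ v * D0 ^ e * w v)
    (by rw [KG_zero P e (by omega)]; ring) (by rw [KG_zero P e (by omega)]; ring), Finset.mul_sum]
  refine Finset.sum_le_sum fun v _ => ?_
  have h2 := KG_term hP' he v
  have h3 := h_le_g (two_inv hP') v (e - 1)
  have hg := gP_nonneg P.two v (e - 1)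
  have h4 : kP P (v + 2) e ≤ 1 / (2 * (e : ℝ)) * gP P.two v (e - 1) := by
    rw [← h2] at h3
    rw [one_div, ← div_eq_inv_mul, le_div_iff₀ (by positivity)]
    linarith
  have h5 : R0 ^ 2 * D0 ≤ 2 := by
    have h6 : R0 ^ 2 ≤ 1 := pow_le_one₀ hR0.le (by linarith [hR.2])
    nlinarith [hD.2]
  obtain ⟨n, rfl⟩ : ∃ n, e = n + 1 := ⟨e - 1, by omega⟩
  rw [Nat.add_sub_cancel] at h4 hg ⊢
  have hX : 0 ≤ gP P.two v n * R0 ^ v * D0 ^ n * w (v + 2) :=
    mul_nonneg (mul_nonneg (mul_nonneg hg (pow_nonneg hR0.le _)) (pow_nonneg hD0.le _)) (hw _)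
  have hY : 0 ≤ R0 ^ (v + 2) * D0 ^ (n + 1) * w (v + 2) :=
    mul_nonneg (mul_nonneg (pow_nonneg hR0.le _) (pow_nonneg hD0.le _)) (hw _)
  calc kP P (v + 2) (n + 1) * R0 ^ (v + 2) * D0 ^ (n + 1) * w (v + 2)
      = kP P (v + 2) (n + 1) * (R0 ^ (v + 2) * D0 ^ (n + 1) * w (v + 2)) := by ring
    _ ≤ (1 / (2 * ((n + 1 : ℕ) : ℝ)) * gP P.two v n) *
        (R0 ^ (v + 2) * D0 ^ (n + 1) * w (v + 2)) := mul_le_mul_of_nonneg_right h4 hY
    _ = (1 / ((n + 1 : ℕ) : ℝ)) * ((R0 ^ 2 * D0) / 2 *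
        (gP P.two v n * R0 ^ v * D0 ^ n * w (v + 2))) := by
        field_simp
        ring
    _ ≤ (1 / ((n + 1 : ℕ) : ℝ)) * (1 * (gP P.two v n * R0 ^ v * D0 ^ n * w (v + 2))) := by
        refine mul_le_mul_of_nonneg_left ?_ (by positivity)
        exact mul_le_mul_of_nonneg_right (by linarith) hX
    _ = _ := by ring

theorem kg_low {P : PG0} (hP' : InvPG0 P) {e : ℕ} (he : 1 ≤ e) (w : ℕ → ℝ) (hw : ∀ v, 0 ≤ w v) :
    R0 ^ 2 * D0 / (4 * e) * ∑ v ∈ range e, gP P.two v (e - 1) * R0 ^ v * D0 ^ (e - 1) * w (v + 2) ≤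
      ∑ v ∈ range (e + 2), kP P v e * R0 ^ v * D0 ^ e * w v := by
  have hR := R0_range
  have hD := D0_range
  have hR0 : 0 < R0 := by linarith [hR.1]
  have hD0 : 0 < D0 := by linarith [hD.1]
  have he' : (1 : ℝ) ≤ e := by exact_mod_cast he
  rw [KG_split e (fun v => kP P v e * R0 ^ v * D0 ^ e * w v)
    (by rw [KG_zero P e (by omega)]; ring) (by rw [KG_zero P e (by omega)]; ring), Finset.mul_sum]
  refine Finset.sum_le_sum fun v _ => ?_
  have h2 := KG_term hP' he v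
  have h3 := g_le_h (two_inv hP') v (e - 1)
  have h4 : 1 / (4 * (e : ℝ)) * gP P.two v (e - 1) ≤ kP P (v + 2) e := by
    rw [← h2] at h3
    rw [one_div, ← div_eq_inv_mul, div_le_iff₀ (by positivity)]
    linarith
  obtain ⟨n, rfl⟩ : ∃ n, e = n + 1 := ⟨e - 1, by omega⟩
  rw [Nat.add_sub_cancel] at h4 ⊢
  have hY : 0 ≤ R0 ^ (v + 2) * D0 ^ (n + 1) * w (v + 2) :=
    mul_nonneg (mul_nonneg (pow_nonneg hR0.le _) (pow_nonneg hD0.le _)) (hw _)
  calc R0 ^ 2 * D0 / (4 * ((n + 1 : ℕ) : ℝ)) * (gP P.two v n * R0 ^ v * D0 ^ n * w (v + 2))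
      = (1 / (4 * ((n + 1 : ℕ) : ℝ)) * gP P.two v n) *
        (R0 ^ (v + 2) * D0 ^ (n + 1) * w (v + 2)) := by ring
    _ ≤ kP P (v + 2) (n + 1) * (R0 ^ (v + 2) * D0 ^ (n + 1) * w (v + 2)) :=
        mul_le_mul_of_nonneg_right h4 hY
    _ = _ := by ring

end Dia
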