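import Pool.Agent.DiamP.Fourier

/-!
# Module LLT: local limit bounds with exponent 1/2

`p` is a law on `ℕ` with `p 0 > 0`, `p 1 > 0`; for the lower bound mean `1` and finite second moment.
`cvL (List.replicate m p)` is the law of the sum of `m` independent variables.

Upper bound: Fourier.  Lower bound: Fourier inversion,
`sqrt m * cvL (replicate m p) (m-1) → 1 / sqrt (2 π v)` by dominated convergence.
-/

set_option autoImplicit false

namespace Dia
open Finset Pool.Agent.DiamP Filter Topology Complex MeasureTheory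
open scoped Real

/-- the constant of the Gaussian bound -/
noncomputable def gk (p : ℕ → ℝ) : ℝ := p 0 * p 1 / (p 0 + p 1) * (2 / π ^ 2)

theorem gk_pos {p : ℕ → ℝ} (h0 : 0 < p 0) (h1 : 0 < p 1) : 0 < gk p := by
  unfold gk
  have := Real.pi_pos
  positivity

theorem norm_phi_le {p : ℕ → ℝ} (hp : IsLaw p) (h0 : 0 < p 0) (h1 : 0 < p 1) {θ : ℝ}
    (hθ : |θ| ≤ π) : ‖phi p θ‖ ≤ Real.exp (-(gk p * θ ^ 2)) := by
  have hs := (hp.summable_norm_phi θ).of_norm
  have e1 : phi p θ = ((p 0 : ℂ) + (p 1 : ℂ) * cexp (I * (θ : ℂ))) +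
      ∑' n : ℕ, (p (n + 2) : ℂ) * cexp (I * ((n + 2 : ℕ) : ℂ) * (θ : ℂ)) := by
    unfold phi
    rw [← hs.sum_add_tsum_nat_add 2]
    simp [Finset.sum_range_succ]
  have e2 : ∑' n : ℕ, p (n + 2) = 1 - p 0 - p 1 := by
    have := hp.summable.sum_add_tsum_nat_add 2
    rw [hp.tsum] at this
    simp only [Finset.sum_range_succ, Finset.sum_range_zero, zero_add] at this
    linarith
  have hs2 : Summable fun n : ℕ => p (n + 2) := (summable_nat_add_iff 2).2 hp.summable
  have e3 : ‖∑' n : ℕ, (p (n + 2) : ℂ) * cexp (I * ((n + 2 : ℕ) : ℂ) * (θ : ℂ))‖ ≤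
      1 - p 0 - p 1 := by
    rw [← e2]
    refine tsum_of_norm_bounded hs2.hasSum fun n => ?_
    rw [norm_mul, norm_ex, mul_one, Complex.norm_real, Real.norm_of_nonneg (hp.nonneg _)]
  set z : ℂ := (p 0 : ℂ) + (p 1 : ℂ) * cexp (I * (θ : ℂ)) with hz
  set s : ℝ := p 0 + p 1 with hsdef
  have hspos : 0 < s := by positivity
  set y : ℝ := p 0 * p 1 * (1 - Real.cos θ) with hy
  have hcos1 := Real.neg_one_le_cos θ
  have hcos2 := Real.cos_le_one θ
  have hypos : 0 ≤ y := by
    rw [hy]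
    exact mul_nonneg (mul_nonneg h0.le h1.le) (by linarith)
  have hz2 : ‖z‖ ^ 2 = s ^ 2 - 2 * y := by
    have hre : z.re = p 0 + p 1 * Real.cos θ := by
      rw [hz, mul_comm I (θ : ℂ), Complex.add_re, Complex.ofReal_re, Complex.re_ofReal_mul,
        Complex.exp_ofReal_mul_I_re]
    have him : z.im = p 1 * Real.sin θ := by
      rw [hz, mul_comm I (θ : ℂ), Complex.add_im, Complex.ofReal_im, Complex.im_ofReal_mul,
        Complex.exp_ofReal_mul_I_im, zero_add]
    rw [← Complex.normSq_eq_norm_sq, Complex.normSq_apply, hre, him, hy, hsdef]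
    have := Real.sin_sq_add_cos_sq θ
    linear_combination (p 1) ^ 2 * this
  have hyle : y ≤ s ^ 2 := by
    have : y ≤ p 0 * p 1 * 2 := by
      rw [hy]
      exact mul_le_mul_of_nonneg_left (by linarith) (mul_nonneg h0.le h1.le)
    nlinarith [sq_nonneg (p 0 - p 1), sq_nonneg (p 0), sq_nonneg (p 1)]
  have hzle : ‖z‖ ≤ s - y / s := by
    have h2 : 0 ≤ s - y / s := by
      rw [sub_nonneg, div_le_iff₀ hspos]
      nlinarith
    refine abs_le_of_sq_le_sq' (by
      rw [hz2]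
      have : (s - y / s) ^ 2 = s ^ 2 - 2 * y + (y / s) ^ 2 := by
        field_simp
        ring
      rw [this]
      nlinarith [sq_nonneg (y / s)]) h2 |>.2
  have hq := Real.cos_le_one_sub_mul_cos_sq hθ
  have h5 : gk p * θ ^ 2 ≤ y / s := by
    unfold gk
    rw [hy, le_div_iff₀ hspos]
    have e : p 0 * p 1 / (p 0 + p 1) * (2 / π ^ 2) * θ ^ 2 * s = p 0 * p 1 * (2 / π ^ 2 * θ ^ 2) := by
      rw [hsdef]
      field_simp
    rw [e]
    exact mul_le_mul_of_nonneg_left (by linarith) (mul_nonneg h0.le h1.le)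
  have h6 : ‖phi p θ‖ ≤ 1 - y / s := by
    rw [e1]
    refine (norm_add_le _ _).trans ?_
    have : s = p 0 + p 1 := hsdef
    linarith
  have h7 := Real.add_one_le_exp (-(y / s))
  have h8 : Real.exp (-(y / s)) ≤ Real.exp (-(gk p * θ ^ 2)) := Real.exp_le_exp.2 (by linarith)
  linarith

theorem phi_replicate {p : ℕ → ℝ} (hp : IsLaw p) (m : ℕ) (θ : ℝ) :
    phi (cvL (List.replicate m p)) θ = phi p θ ^ m := by
  induction m with
  | zero => simp [phi_one0]
  | succ m ih =>
    rw [List.replicate_succ, cvL_cons, phi_cv hp (isLaw_cvL fun q hq => by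
      rw [List.eq_of_mem_replicate hq]; exact hp), ih, pow_succ]
    ring

theorem isLaw_replicate {p : ℕ → ℝ} (hp : IsLaw p) (m : ℕ) : IsLaw (cvL (List.replicate m p)) :=
  isLaw_cvL fun q hq => by rw [List.eq_of_mem_replicate hq]; exact hp

theorem llt_upper (p : ℕ → ℝ) (hp : IsLaw p) (h0 : 0 < p 0) (h1 : 0 < p 1) :
    ∃ K, ∀ m n : ℕ, 1 ≤ m → cvL (List.replicate m p) n ≤ K / Real.sqrt m := by
  have hg := gk_pos h0 h1
  refine ⟨(2 * π)⁻¹ * Real.sqrt (π / gk p), fun m n hm => ?_⟩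
  have hmpos : (0 : ℝ) < m := by exact_mod_cast hm
  have hb : 0 < gk p * m := mul_pos hg hmpos
  have hint : Integrable fun x : ℝ => Real.exp (-(gk p * m) * x ^ 2) :=
    integrable_exp_neg_mul_sq hb
  have hpi : -π ≤ π := by linarith [Real.pi_pos]
  have h2 : ∫ θ in (-π)..π, ‖phi (cvL (List.replicate m p)) θ‖ ≤
      ∫ x : ℝ, Real.exp (-(gk p * m) * x ^ 2) := by
    rw [intervalIntegral.integral_of_le hpi]
    have h3 : ∫ θ in Set.Ioc (-π) π, ‖phi (cvL (List.replicate m p)) θ‖ ≤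
        ∫ θ in Set.Ioc (-π) π, Real.exp (-(gk p * m) * θ ^ 2) := by
      refine integral_mono_of_nonneg (Filter.Eventually.of_forall fun _ => norm_nonneg _)
        hint.integrableOn ?_
      refine (ae_restrict_iff' measurableSet_Ioc).2 (Filter.Eventually.of_forall fun θ hθ => ?_)
      change ‖phi (cvL (List.replicate m p)) θ‖ ≤ Real.exp (-(gk p * m) * θ ^ 2)
      rw [phi_replicate hp, norm_pow]
      refine (pow_le_pow_left₀ (norm_nonneg _) (norm_phi_le hp h0 h1
        (abs_le.2 ⟨hθ.1.le, hθ.2⟩)) m).trans (le_of_eq ?_)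
      rw [← Real.exp_nat_mul]
      congr 1
      ring
    refine h3.trans ?_
    exact setIntegral_le_integral hint (Filter.Eventually.of_forall fun _ => (Real.exp_pos _).le)
  rw [integral_gaussian] at h2
  have h3 := (isLaw_replicate hp m).le_integral n
  have h4 : Real.sqrt (π / (gk p * m)) = Real.sqrt (π / gk p) / Real.sqrt m := by
    rw [← div_div, Real.sqrt_div (by have := Real.pi_pos; positivity)]
  rw [h4] at h2
  have h5 : 0 ≤ (2 * π)⁻¹ := by have := Real.pi_pos; positivity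
  calc cvL (List.replicate m p) n ≤ (2 * π)⁻¹ * (Real.sqrt (π / gk p) / Real.sqrt m) :=
        h3.trans (mul_le_mul_of_nonneg_left h2 h5)
    _ = (2 * π)⁻¹ * Real.sqrt (π / gk p) / Real.sqrt m := by ring

/-! ### inversion -/

theorem inv_eq {p : ℕ → ℝ} (hp : IsLaw p) (n : ℕ) :
    ∫ θ in (-π)..π, phi p θ * cexp (-(I * (n : ℂ) * (θ : ℂ))) = (2 * π * p n : ℂ) := by
  set f : ℕ → C(ℝ, ℂ) := fun k =>
    ⟨fun θ => (p k : ℂ) * cexp (I * (k : ℂ) * (θ : ℂ)) * cexp (-(I * (n : ℂ) * (θ : ℂ))), by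
      fun_prop⟩ with hf
  have hnorm : ∀ k, ‖(f k).restrict (⟨Set.uIcc (-π) π, isCompact_uIcc⟩ : TopologicalSpace.Compacts ℝ)‖
      ≤ p k := by
    intro k
    rw [ContinuousMap.norm_le _ (hp.nonneg k)]
    intro θ
    simp only [ContinuousMap.restrict_apply, hf, ContinuousMap.coe_mk, norm_mul]
    rw [norm_ex]
    have : ‖cexp (-(I * (n : ℂ) * ((θ : ℝ) : ℂ)))‖ = 1 := by
      rw [Complex.exp_neg, norm_inv, norm_ex, inv_one]
    rw [this, mul_one, mul_one, Complex.norm_real, Real.norm_of_nonneg (hp.nonneg k)]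
  have hsum : Summable fun k =>
      ‖(f k).restrict (⟨Set.uIcc (-π) π, isCompact_uIcc⟩ : TopologicalSpace.Compacts ℝ)‖ :=
    Summable.of_nonneg_of_le (fun _ => norm_nonneg _) hnorm hp.summable
  have h1 := intervalIntegral.hasSum_intervalIntegral_of_summable_norm hsum
  have hint : ∀ k, ∫ θ in (-π)..π, f k θ = if k = n then (2 * π * p n : ℂ) else 0 := by
    intro k
    have h2 : ∀ θ : ℝ, f k θ = (p k : ℂ) * cexp (((k : ℂ) - n) * I * θ) := by
      intro θ
      simp only [hf, ContinuousMap.coe_mk]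
      rw [mul_assoc, ← Complex.exp_add]
      congr 2
      ring
    simp only [h2]
    rw [intervalIntegral.integral_const_mul]
    split_ifs with hk
    · subst hk
      simp
      ring
    · have hc : ((k : ℂ) - n) * I ≠ 0 := by
        refine mul_ne_zero ?_ I_ne_zero
        rw [sub_ne_zero]
        exact_mod_cast hk
      rw [integral_exp_mul_complex hc]
      have h3 : ((k : ℂ) - n) * I * ((π : ℝ) : ℂ) =
          ((k : ℂ) - n) * I * ((-π : ℝ) : ℂ) + (((k : ℤ) - n : ℤ) : ℂ) * (2 * π * I) := by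
        push_cast; ring
      rw [h3, Complex.exp_add, Complex.exp_int_mul_two_pi_mul_I, mul_one, sub_self, zero_div,
        mul_zero]
  simp only [hint] at h1
  have h2 : ∫ θ in (-π)..π, ∑' k, f k θ = (2 * π * p n : ℂ) := by
    have := h1.unique (hasSum_ite_eq n (2 * π * p n : ℂ))
    exact this
  have h3 : ∀ θ : ℝ, ∑' k, f k θ = phi p θ * cexp (-(I * (n : ℂ) * (θ : ℂ))) := by
    intro θ
    simp only [hf, ContinuousMap.coe_mk]
    rw [tsum_mul_right]
    rfl
  rw [← h2]
  exact intervalIntegral.integral_congr fun θ _ => (h3 θ).symm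

theorem continuous_phi {p : ℕ → ℝ} (hp : IsLaw p) : Continuous (phi p) := by
  unfold phi
  refine continuous_tsum (u := p) (fun n => by fun_prop) hp.summable fun n θ => ?_
  rw [norm_mul, norm_ex, mul_one, Complex.norm_real, Real.norm_of_nonneg (hp.nonneg n)]

/-! ### expansion at zero -/

/-- characteristic function of the centred variable -/
noncomputable def chi (p : ℕ → ℝ) (θ : ℝ) : ℂ := phi p θ * cexp (-(I * (θ : ℂ)))

theorem exp_quad (y : ℝ) : ‖cexp (I * (y : ℂ)) - 1 - I * (y : ℂ)‖ ≤ 3 * y ^ 2 := by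
  have hn : ‖I * (y : ℂ)‖ = |y| := by rw [norm_mul, norm_I, one_mul, Complex.norm_real]; rfl
  rcases le_or_gt |y| 1 with h | h
  · have := norm_exp_sub_one_sub_id_le (x := I * (y : ℂ)) (by rw [hn]; exact h)
    rw [hn, sq_abs] at this
    nlinarith [sq_nonneg y]
  · have h1 : ‖cexp (I * (y : ℂ))‖ = 1 := by
      rw [mul_comm, Complex.norm_exp_ofReal_mul_I]
    have h2 : ‖cexp (I * (y : ℂ)) - 1 - I * (y : ℂ)‖ ≤ 1 + 1 + |y| := by
      refine (norm_sub_le _ _).trans ?_
      rw [hn]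
      refine add_le_add_left ?_ _ |>.trans_eq' rfl |>.trans le_rfl
      refine (norm_sub_le _ _).trans ?_
      rw [h1, norm_one]
    have h3 : |y| ≤ y ^ 2 := by
      rw [← sq_abs]
      nlinarith
    linarith

theorem exp_cube {y : ℝ} (h : |y| ≤ 1) :
    ‖cexp (I * (y : ℂ)) - 1 - I * (y : ℂ) + ((y ^ 2 / 2 : ℝ) : ℂ)‖ ≤ |y| ^ 3 := by
  have hn : ‖I * (y : ℂ)‖ = |y| := by rw [norm_mul, norm_I, one_mul, Complex.norm_real]; rfl
  have := Complex.exp_bound (x := I * (y : ℂ)) (by rw [hn]; exact h) (n := 3) (by norm_num)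
  rw [hn] at this
  have e : cexp (I * (y : ℂ)) - ∑ m ∈ range 3, (I * (y : ℂ)) ^ m / (m.factorial : ℂ) =
      cexp (I * (y : ℂ)) - 1 - I * (y : ℂ) + ((y ^ 2 / 2 : ℝ) : ℂ) := by
    simp only [Finset.sum_range_succ, Finset.sum_range_zero, Nat.factorial]
    push_cast
    have : I ^ 2 = -1 := I_sq
    linear_combination (-(y : ℂ) ^ 2 / 2) * this
  rw [e] at this
  refine this.trans ?_
  have h3 : 0 ≤ |y| ^ 3 := by positivity
  have : (((3 : ℕ).succ : ℝ) * (((3 : ℕ).factorial : ℝ) * ((3 : ℕ) : ℝ))⁻¹) ≤ 1 := by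
    norm_num [Nat.factorial]
  calc _ ≤ |y| ^ 3 * 1 := mul_le_mul_of_nonneg_left this h3
    _ = _ := mul_one _

section
variable {p : ℕ → ℝ}

theorem summable_var (hp : IsLaw p)
    (hmean : HasSum (fun n : ℕ => (n : ℝ) * p n) 1)
    (hvar : Summable (fun n : ℕ => (n : ℝ) ^ 2 * p n)) :
    Summable fun n : ℕ => p n * ((n : ℝ) - 1) ^ 2 := by
  have := (hvar.sub (hmean.summable.mul_left 2)).add hp.summable
  refine this.congr fun n => ?_
  ring

theorem hasSum_centre (hp : IsLaw p)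
    (hmean : HasSum (fun n : ℕ => (n : ℝ) * p n) 1) :
    HasSum (fun n : ℕ => p n * ((n : ℝ) - 1)) 0 := by
  have := hmean.sub hp.sum
  rw [sub_self] at this
  have e : (fun n : ℕ => p n * ((n : ℝ) - 1)) = fun n : ℕ => (n : ℝ) * p n - p n := by
    funext n
    ring
  rw [e]
  exact this

/-- the variance -/
noncomputable def vv (p : ℕ → ℝ) : ℝ := ∑' n : ℕ, p n * ((n : ℝ) - 1) ^ 2

theorem vv_pos (hp : IsLaw p) (h0 : 0 < p 0)
    (hmean : HasSum (fun n : ℕ => (n : ℝ) * p n) 1)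
    (hvar : Summable (fun n : ℕ => (n : ℝ) ^ 2 * p n)) : 0 < vv p := by
  have h := (summable_var hp hmean hvar).le_tsum 0 fun n _ =>
    mul_nonneg (hp.nonneg n) (sq_nonneg _)
  have : p 0 * (((0 : ℕ) : ℝ) - 1) ^ 2 = p 0 := by norm_num
  rw [this] at h
  exact lt_of_lt_of_le h0 h

theorem chi_eq (hp : IsLaw p) (hmean : HasSum (fun n : ℕ => (n : ℝ) * p n) 1) (θ : ℝ) :
    chi p θ - 1 = ∑' n : ℕ, (p n : ℂ) * (cexp (I * ((((n : ℝ) - 1) * θ : ℝ) : ℂ)) - 1 -
      I * ((((n : ℝ) - 1) * θ : ℝ) : ℂ)) := by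
  have s1 : HasSum (fun n : ℕ => (p n : ℂ) * cexp (I * (n : ℂ) * (θ : ℂ))) (phi p θ) :=
    (hp.summable_norm_phi θ).of_norm.hasSum
  have s2 := s1.mul_right (cexp (-(I * (θ : ℂ))))
  have s3 : HasSum (fun n : ℕ => (p n : ℂ)) 1 := by
    have := Complex.hasSum_ofReal.2 hp.sum
    rwa [Complex.ofReal_one] at this
  have s4 : HasSum (fun n : ℕ => ((p n * ((n : ℝ) - 1) : ℝ) : ℂ)) 0 := by
    have := Complex.hasSum_ofReal.2 (hasSum_centre hp hmean)
    rwa [Complex.ofReal_zero] at this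
  have s5 := (s2.sub s3).sub (s4.mul_right (I * (θ : ℂ)))
  rw [zero_mul, sub_zero] at s5
  have : chi p θ - 1 = phi p θ * cexp (-(I * (θ : ℂ))) - 1 := rfl
  rw [this, ← s5.tsum_eq]
  refine tsum_congr fun n => ?_
  have e : cexp (I * ((((n : ℝ) - 1) * θ : ℝ) : ℂ)) =
      cexp (I * (n : ℂ) * (θ : ℂ)) * cexp (-(I * (θ : ℂ))) := by
    rw [← Complex.exp_add]
    congr 1
    push_cast
    ring
  rw [e]
  push_cast
  ring

theorem chi_lim (hp : IsLaw p) (hmean : HasSum (fun n : ℕ => (n : ℝ) * p n) 1)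
    (hvar : Summable (fun n : ℕ => (n : ℝ) ^ 2 * p n)) :
    Tendsto (fun θ : ℝ => (chi p θ - 1) / ((θ ^ 2 : ℝ) : ℂ)) (𝓝[≠] 0)
      (𝓝 ((-(vv p / 2) : ℝ) : ℂ)) := by
  have hsv := summable_var hp hmean hvar
  have key : Tendsto (fun θ : ℝ => ∑' n : ℕ, (p n : ℂ) *
      (cexp (I * ((((n : ℝ) - 1) * θ : ℝ) : ℂ)) - 1 -
      I * ((((n : ℝ) - 1) * θ : ℝ) : ℂ)) / ((θ ^ 2 : ℝ) : ℂ)) (𝓝[≠] 0)
      (𝓝 (∑' n : ℕ, ((-(p n * ((n : ℝ) - 1) ^ 2 / 2) : ℝ) : ℂ))) := by
    refine tendsto_tsum_of_dominated_convergence (bound := fun n : ℕ =>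
      3 * (p n * ((n : ℝ) - 1) ^ 2)) (hsv.mul_left 3) (fun n => ?_) ?_
    · rw [tendsto_iff_norm_sub_tendsto_zero]
      have hlim : Tendsto (fun θ : ℝ => p n * (|(n : ℝ) - 1| ^ 3 * |θ|)) (𝓝[≠] 0) (𝓝 0) := by
        have : Tendsto (fun θ : ℝ => p n * (|(n : ℝ) - 1| ^ 3 * |θ|)) (𝓝 0)
            (𝓝 (p n * (|(n : ℝ) - 1| ^ 3 * |(0 : ℝ)|))) := by
          apply Continuous.tendsto
          fun_prop
        rw [abs_zero, mul_zero, mul_zero] at this
        exact this.mono_left nhdsWithin_le_nhds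
      refine squeeze_zero' (Filter.Eventually.of_forall fun _ => norm_nonneg _) ?_ hlim
      have hsmall : ∀ᶠ θ : ℝ in 𝓝[≠] 0, |((n : ℝ) - 1) * θ| ≤ 1 := by
        have h1 : Tendsto (fun θ : ℝ => |((n : ℝ) - 1) * θ|) (𝓝 0) (𝓝 |((n : ℝ) - 1) * 0|) := by
          apply Continuous.tendsto
          fun_prop
        rw [mul_zero, abs_zero] at h1
        have := (h1.mono_left nhdsWithin_le_nhds : Tendsto _ (𝓝[≠] (0 : ℝ)) _).eventually
          (ge_mem_nhds (show (0 : ℝ) < 1 by norm_num))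
        exact this
      filter_upwards [hsmall, self_mem_nhdsWithin] with θ h1 h2
      have h2' : θ ≠ 0 := h2
      have hc := exp_cube h1
      set y : ℝ := ((n : ℝ) - 1) * θ with hy
      have e : (p n : ℂ) * (cexp (I * (y : ℂ)) - 1 - I * (y : ℂ)) / ((θ ^ 2 : ℝ) : ℂ) -
          ((-(p n * ((n : ℝ) - 1) ^ 2 / 2) : ℝ) : ℂ) =
          (p n : ℂ) * (cexp (I * (y : ℂ)) - 1 - I * (y : ℂ) + ((y ^ 2 / 2 : ℝ) : ℂ)) /
            ((θ ^ 2 : ℝ) : ℂ) := by
        have hθ : ((θ ^ 2 : ℝ) : ℂ) ≠ 0 := by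
          rw [Ne, Complex.ofReal_eq_zero]; positivity
        rw [eq_div_iff hθ, sub_mul, div_mul_cancel₀ _ hθ, hy]
        push_cast
        ring
      rw [e, norm_div, norm_mul, Complex.norm_real, Complex.norm_real,
        Real.norm_of_nonneg (hp.nonneg n), Real.norm_of_nonneg (sq_nonneg θ),
        div_le_iff₀ (by positivity)]
      refine (mul_le_mul_of_nonneg_left hc (hp.nonneg n)).trans (le_of_eq ?_)
      rw [hy, abs_mul]
      have : θ ^ 2 = |θ| ^ 2 := (sq_abs θ).symm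
      rw [this]
      ring
    · filter_upwards [self_mem_nhdsWithin] with θ h2 n
      have h2' : θ ≠ 0 := h2
      rw [norm_div, norm_mul, Complex.norm_real, Complex.norm_real,
        Real.norm_of_nonneg (hp.nonneg n), Real.norm_of_nonneg (sq_nonneg θ),
        div_le_iff₀ (by positivity)]
      refine (mul_le_mul_of_nonneg_left (exp_quad _) (hp.nonneg n)).trans (le_of_eq ?_)
      ring
  have e1 : (∑' n : ℕ, ((-(p n * ((n : ℝ) - 1) ^ 2 / 2) : ℝ) : ℂ)) = ((-(vv p / 2) : ℝ) : ℂ) := by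
    rw [← Complex.ofReal_tsum]
    congr 1
    rw [tsum_neg, vv, ← tsum_div_const]
  rw [e1] at key
  refine key.congr fun θ => ?_
  rw [chi_eq hp hmean, ← tsum_div_const]

/-- convergence of the powers -/
theorem chi_pow_lim (hp : IsLaw p) (hmean : HasSum (fun n : ℕ => (n : ℝ) * p n) 1)
    (hvar : Summable (fun n : ℕ => (n : ℝ) ^ 2 * p n)) (s : ℝ) :
    Tendsto (fun m : ℕ => chi p (s / Real.sqrt m) ^ m) atTop
      (𝓝 (cexp (((-(vv p / 2)) * s ^ 2 : ℝ) : ℂ))) := by
  rcases eq_or_ne s 0 with rfl | hs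
  · have h1 : chi p 0 = 1 := by
      have := chi_eq hp hmean 0
      simp only [mul_zero, Complex.ofReal_zero, Complex.exp_zero, sub_self, tsum_zero] at this
      linear_combination this
    simp [h1]
  · have hlim : Tendsto (fun m : ℕ => s / Real.sqrt m) atTop (𝓝[≠] 0) := by
      rw [tendsto_nhdsWithin_iff]
      constructor
      · have : Tendsto (fun m : ℕ => Real.sqrt m) atTop atTop :=
          Real.tendsto_sqrt_atTop.comp tendsto_natCast_atTop_atTop
        exact tendsto_const_nhds.div_atTop this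
      · filter_upwards [eventually_gt_atTop 0] with m hm
        have : (0 : ℝ) < Real.sqrt m := Real.sqrt_pos.2 (by exact_mod_cast hm)
        exact div_ne_zero hs this.ne'
    have h1 := (chi_lim hp hmean hvar).comp hlim
    have h2 := h1.const_mul ((s ^ 2 : ℝ) : ℂ)
    have h3 : Tendsto (fun m : ℕ => (m : ℂ) * (chi p (s / Real.sqrt m) - 1)) atTop
        (𝓝 (((-(vv p / 2)) * s ^ 2 : ℝ) : ℂ)) := by
      have e : (((-(vv p / 2)) * s ^ 2 : ℝ) : ℂ) = ((s ^ 2 : ℝ) : ℂ) * ((-(vv p / 2) : ℝ) : ℂ) := by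
        push_cast; ring
      rw [e]
      refine h2.congr' ?_
      filter_upwards [eventually_gt_atTop 0] with m hm
      have hmpos : (0 : ℝ) < m := by exact_mod_cast hm
      have hsq : ((s / Real.sqrt m) ^ 2 : ℝ) = s ^ 2 / m := by
        rw [div_pow, Real.sq_sqrt hmpos.le]
      simp only [Function.comp_apply]
      rw [hsq]
      have hs2 : (s : ℂ) ≠ 0 := by exact_mod_cast hs
      have hm2 : (m : ℂ) ≠ 0 := by exact_mod_cast hmpos.ne'
      push_cast
      field_simp
    have h4 := Complex.tendsto_one_add_pow_exp_of_tendsto h3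
    refine h4.congr fun m => ?_
    congr 1
    ring

end

/-! ### lower bound -/

theorem cvL_replicate_pos {p : ℕ → ℝ} (hp : IsLaw p) (h0 : 0 < p 0) (h1 : 0 < p 1) (m : ℕ) :
    ∀ k ≤ m, 0 < cvL (List.replicate m p) k := by
  induction m with
  | zero =>
    intro k hk
    obtain rfl : k = 0 := by omega
    simp [one0]
  | succ m ih =>
    intro k hk
    rw [List.replicate_succ, cvL_cons, cv_eq_range]
    have hnn : ∀ a ∈ range (k + 1), 0 ≤ p a * cvL (List.replicate m p) (k - a) := fun a _ =>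
      mul_nonneg (hp.nonneg a) ((isLaw_replicate hp m).nonneg _)
    rcases Nat.lt_or_ge m k with h | h
    · refine lt_of_lt_of_le ?_ (Finset.single_le_sum hnn (Finset.mem_range.2 (by omega : 1 < k + 1)))
      exact mul_pos h1 (ih _ (by omega))
    · refine lt_of_lt_of_le ?_ (Finset.single_le_sum hnn (Finset.mem_range.2 (by omega : 0 < k + 1)))
      exact mul_pos h0 (ih _ (by omega))

theorem llt_tendsto {p : ℕ → ℝ} (hp : IsLaw p) (h0 : 0 < p 0) (h1 : 0 < p 1)
    (hmean : HasSum (fun n : ℕ => (n : ℝ) * p n) 1)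
    (hvar : Summable (fun n : ℕ => (n : ℝ) ^ 2 * p n)) :
    Tendsto (fun m : ℕ => 2 * π * (Real.sqrt m * cvL (List.replicate m p) (m - 1))) atTop
      (𝓝 (Real.sqrt (π / (vv p / 2)))) := by
  have hg := gk_pos h0 h1
  have hv := vv_pos hp h0 hmean hvar
  set G : ℕ → ℝ → ℂ := fun m θ => chi p θ ^ m * cexp (I * (θ : ℂ)) with hG
  set F : ℕ → ℝ → ℂ := fun m => Set.indicator (Set.Ioc (-π * Real.sqrt m) (π * Real.sqrt m))
    (fun s => G m (s / Real.sqrt m)) with hF
  have hcont : ∀ m, Continuous (G m) := by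
    intro m
    have h1 : Continuous (phi p) := continuous_phi hp
    simp only [hG, chi]
    fun_prop
  -- value of the integral
  have hval : ∀ m : ℕ, 1 ≤ m → ∫ s, F m s =
      ((2 * π * (Real.sqrt m * cvL (List.replicate m p) (m - 1)) : ℝ) : ℂ) := by
    intro m hm
    have hmpos : (0 : ℝ) < m := by exact_mod_cast hm
    have hsq : 0 < Real.sqrt m := Real.sqrt_pos.2 hmpos
    have hle : -π * Real.sqrt m ≤ π * Real.sqrt m := by nlinarith [Real.pi_pos]
    rw [hF, integral_indicator measurableSet_Ioc, ← intervalIntegral.integral_of_le hle,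
      intervalIntegral.integral_comp_div (f := G m) hsq.ne', mul_div_cancel_right₀ _ hsq.ne',
      mul_div_cancel_right₀ _ hsq.ne']
    have e : ∫ θ in (-π)..π, G m θ = ∫ θ in (-π)..π, phi (cvL (List.replicate m p)) θ *
        cexp (-(I * ((m - 1 : ℕ) : ℂ) * (θ : ℂ))) := by
      refine intervalIntegral.integral_congr fun θ _ => ?_
      simp only [hG, chi]
      rw [phi_replicate hp, mul_pow, ← Complex.exp_nat_mul, mul_assoc, ← Complex.exp_add,
        Nat.cast_sub hm]
      congr 2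
      push_cast
      ring
    rw [e, inv_eq (isLaw_replicate hp m)]
    rw [Complex.real_smul]
    push_cast
    ring
  -- domination
  have hbound : ∀ m : ℕ, 1 ≤ m → ∀ s, ‖F m s‖ ≤ Real.exp (-(gk p) * s ^ 2) := by
    intro m hm s
    have hmpos : (0 : ℝ) < m := by exact_mod_cast hm
    have hsq : 0 < Real.sqrt m := Real.sqrt_pos.2 hmpos
    simp only [hF]
    rw [Set.indicator_apply]
    split_ifs with hs
    · have hθ : |s / Real.sqrt m| ≤ π := by
        rw [abs_le]
        constructor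
        · rw [le_div_iff₀ hsq]; exact hs.1.le
        · rw [div_le_iff₀ hsq]; exact hs.2
      simp only [hG, chi]
      have n1 : ‖cexp (-(I * ((s / Real.sqrt m : ℝ) : ℂ)))‖ = 1 := by
        rw [Complex.exp_neg, norm_inv, mul_comm, Complex.norm_exp_ofReal_mul_I, inv_one]
      have n2 : ‖cexp (I * ((s / Real.sqrt m : ℝ) : ℂ))‖ = 1 := by
        rw [mul_comm, Complex.norm_exp_ofReal_mul_I]
      rw [norm_mul, norm_pow, norm_mul, n1, n2, mul_one, mul_one]
      refine (pow_le_pow_left₀ (norm_nonneg _) (norm_phi_le hp h0 h1 hθ) m).trans (le_of_eq ?_)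
      rw [← Real.exp_nat_mul, div_pow, Real.sq_sqrt hmpos.le]
      congr 1
      field_simp
    · rw [norm_zero]
      exact (Real.exp_pos _).le
  -- the limit
  have hlim : Tendsto (fun m : ℕ => ∫ s, F m s) atTop
      (𝓝 (∫ s : ℝ, cexp (((-(vv p / 2)) * s ^ 2 : ℝ) : ℂ))) := by
    refine tendsto_integral_filter_of_dominated_convergence
      (fun s => Real.exp (-(gk p) * s ^ 2)) ?_ ?_ (integrable_exp_neg_mul_sq hg) ?_
    · refine Filter.Eventually.of_forall fun m => ?_
      simp only [hF]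
      refine AEStronglyMeasurable.indicator ?_ measurableSet_Ioc
      exact ((hcont m).comp (continuous_id.div_const _)).aestronglyMeasurable
    · filter_upwards [eventually_ge_atTop 1] with m hm
      exact Filter.Eventually.of_forall fun s => hbound m hm s
    · refine Filter.Eventually.of_forall fun s => ?_
      have h2 := chi_pow_lim hp hmean hvar s
      have h3 : Tendsto (fun m : ℕ => cexp (I * ((s / Real.sqrt m : ℝ) : ℂ))) atTop (𝓝 1) := by
        have h4 : Tendsto (fun m : ℕ => s / Real.sqrt m) atTop (𝓝 0) := by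
          have : Tendsto (fun m : ℕ => Real.sqrt m) atTop atTop :=
            Real.tendsto_sqrt_atTop.comp tendsto_natCast_atTop_atTop
          exact tendsto_const_nhds.div_atTop this
        have h5 : Tendsto (fun θ : ℝ => cexp (I * (θ : ℂ))) (𝓝 0) (𝓝 (cexp (I * ((0 : ℝ) : ℂ)))) := by
          apply Continuous.tendsto
          fun_prop
        rw [Complex.ofReal_zero, mul_zero, Complex.exp_zero] at h5
        exact h5.comp h4
      have h4 := h2.mul h3
      rw [mul_one] at h4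
      refine h4.congr' ?_
      obtain ⟨M, hM⟩ := exists_nat_gt ((|s| / π) ^ 2)
      filter_upwards [eventually_ge_atTop (M + 1)] with m hm
      have hmpos : (0 : ℝ) < m := by exact_mod_cast (by omega : 0 < m)
      have hsq : 0 < Real.sqrt m := Real.sqrt_pos.2 hmpos
      have h6 : |s| < π * Real.sqrt m := by
        have h7 : |s| / π < Real.sqrt m := by
          refine Real.lt_sqrt_of_sq_lt (hM.trans_le ?_)
          exact_mod_cast (by omega : M ≤ m)
        rw [div_lt_iff₀ Real.pi_pos] at h7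
        linarith
      have hmem : s ∈ Set.Ioc (-π * Real.sqrt m) (π * Real.sqrt m) := by
        have := abs_lt.1 h6
        constructor
        · linarith [this.1]
        · exact this.2.le
      simp only [hF]
      rw [Set.indicator_of_mem hmem]
  have hI : ∫ s : ℝ, cexp (((-(vv p / 2)) * s ^ 2 : ℝ) : ℂ) =
      ((Real.sqrt (π / (vv p / 2)) : ℝ) : ℂ) := by
    rw [← integral_gaussian]
    rw [← integral_complex_ofReal]
    refine integral_congr_ae (Filter.Eventually.of_forall fun s => ?_)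
    simp only
    rw [Complex.ofReal_exp]
  rw [hI] at hlim
  have h5 : Tendsto (fun m : ℕ =>
      ((2 * π * (Real.sqrt m * cvL (List.replicate m p) (m - 1)) : ℝ) : ℂ)) atTop
      (𝓝 ((Real.sqrt (π / (vv p / 2)) : ℝ) : ℂ)) := by
    refine hlim.congr' ?_
    filter_upwards [eventually_ge_atTop 1] with m hm
    exact hval m hm
  exact_mod_cast (Complex.continuous_re.tendsto _).comp h5

theorem llt_lower (p : ℕ → ℝ) (hp : IsLaw p) (h0 : 0 < p 0) (h1 : 0 < p 1)
    (hmean : HasSum (fun n : ℕ => (n : ℝ) * p n) 1)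
    (hvar : Summable (fun n : ℕ => (n : ℝ) ^ 2 * p n)) :
    ∃ c > 0, ∀ m : ℕ, 1 ≤ m → c / Real.sqrt m ≤ cvL (List.replicate m p) (m - 1) := by
  have hv := vv_pos hp h0 hmean hvar
  have hlim := llt_tendsto hp h0 h1 hmean hvar
  have hpi := Real.pi_pos
  have hL : 0 < Real.sqrt (π / (vv p / 2)) := Real.sqrt_pos.2 (by positivity)
  set L : ℝ := Real.sqrt (π / (vv p / 2)) with hLdef
  obtain ⟨M, hM⟩ := Filter.eventually_atTop.1 (hlim.eventually (lt_mem_nhds (half_lt_self hL)))
  -- finitely many values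
  obtain ⟨c', hc', hc'2⟩ : ∃ c' > 0, ∀ m ∈ Finset.Icc 1 M,
      c' ≤ Real.sqrt m * cvL (List.replicate m p) (m - 1) := by
    have hpos : ∀ m ∈ Finset.Icc 1 M, 0 < Real.sqrt m * cvL (List.replicate m p) (m - 1) := by
      intro m hm
      have h1m := (Finset.mem_Icc.1 hm).1
      exact mul_pos (Real.sqrt_pos.2 (by exact_mod_cast h1m))
        (cvL_replicate_pos hp h0 h1 m (m - 1) (by omega))
    rcases (Finset.Icc 1 M).eq_empty_or_nonempty with he | hne
    · exact ⟨1, one_pos, by rw [he]; simp⟩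
    · obtain ⟨m0, hm0, hmin⟩ := Finset.exists_min_image (Finset.Icc 1 M)
        (fun m => Real.sqrt m * cvL (List.replicate m p) (m - 1)) hne
      exact ⟨_, hpos m0 hm0, hmin⟩
  refine ⟨min c' (L / 2 / (2 * π)), lt_min hc' (by positivity), fun m hm => ?_⟩
  have hmpos : (0 : ℝ) < m := by exact_mod_cast hm
  have hsq : 0 < Real.sqrt m := Real.sqrt_pos.2 hmpos
  rw [div_le_iff₀ hsq, mul_comm (cvL _ _)]
  rcases Nat.lt_or_ge m M with h | h
  · exact (min_le_left _ _).trans (hc'2 m (Finset.mem_Icc.2 ⟨hm, h.le⟩))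
  · refine (min_le_right _ _).trans ?_
    rw [div_le_iff₀ (by positivity)]
    have := (hM m h).le
    linarith

end Dia
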