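import Pool.Agent.PGr.Defs

/-!
# Rooted maps, labelled maps, and the maps `psi`, `phi` (Schaeffer, Ambjorn-Budd): definitions

A map is `(T, a, s)`: `T` a finite set of darts, `a` the edge involution, `s` the rotation.  The
cycles of `s` are the vertices, the cycles of `ph := a * s` are the faces.
-/

set_option linter.unusedSectionVars false

namespace Dia
open Equiv Finset PGr

/-- a rooted map (data) -/
structure RM where
  T : Type
  [fT : Fintype T]
  [dT : DecidableEq T]
  a : Perm T
  s : Perm T
  r : T

attribute [instance] RM.fT RM.dT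

/-- connected: a nonempty set of darts closed under `a` and `s` is everything -/
def Conn {T : Type} [Fintype T] (a s : Perm T) : Prop :=
  ∀ A : Finset T, (∀ t, t ∈ A → a t ∈ A) → (∀ t, t ∈ A → s t ∈ A) → A.Nonempty → A = univ

/-- the face permutation -/
abbrev RM.ph (M : RM) : Perm M.T := M.a * M.s

/-- a connected map -/
structure RM.IsMap (M : RM) : Prop where
  inv : ∀ t, M.a (M.a t) = t
  fpf : ∀ t, M.a t ≠ t
  conn : Conn M.a M.s

/-- Euler's formula for connected planar maps: `V - E + F = 2` -/
def RM.Eu (M : RM) : Prop := 2 * (nV M.s + nV M.ph) = Fintype.card M.T + 4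

/-- a connected planar map -/
structure RM.Ok (M : RM) : Prop extends M.IsMap where
  eu : M.Eu

/-- isomorphism of rooted maps -/
def RMIso (M N : RM) : Prop :=
  ∃ e : M.T ≃ N.T, (∀ t, e (M.a t) = N.a (e t)) ∧ (∀ t, e (M.s t) = N.s (e t)) ∧ e M.r = N.r

theorem RMIso.refl (M : RM) : RMIso M M := ⟨Equiv.refl _, fun _ => rfl, fun _ => rfl, rfl⟩

theorem RMIso.symm {M N : RM} (h : RMIso M N) : RMIso N M := by
  obtain ⟨e, h1, h2, h3⟩ := h
  refine ⟨e.symm, fun t => ?_, fun t => ?_, ?_⟩
  · rw [Equiv.symm_apply_eq, h1, Equiv.apply_symm_apply]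
  · rw [Equiv.symm_apply_eq, h2, Equiv.apply_symm_apply]
  · rw [Equiv.symm_apply_eq, h3]

theorem RMIso.trans {M N K : RM} (h : RMIso M N) (h' : RMIso N K) : RMIso M K := by
  obtain ⟨e, h1, h2, h3⟩ := h
  obtain ⟨e', h1', h2', h3'⟩ := h'
  exact ⟨e.trans e', fun t => by simp [h1, h1'], fun t => by simp [h2, h2'], by simp [h3, h3']⟩

instance rmSetoid : Setoid {M : RM // M.Ok} where
  r M N := RMIso M.1 N.1
  iseqv := ⟨fun _ => RMIso.refl _, fun h => h.symm, fun h h' => h.trans h'⟩

/-- rooted connected planar maps (with at least one edge) up to isomorphism -/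
abbrev RMC := Quotient rmSetoid

/-- the type of vertices -/
abbrev RM.V (M : RM) : Type := Quotient (Perm.SameCycle.setoid M.s)

/-- the vertex of a dart -/
def RM.vx (M : RM) (t : M.T) : M.V := Quotient.mk _ t

noncomputable instance (M : RM) : Fintype M.V := Fintype.ofFinite _

/-- the underlying graph -/
def RM.G (M : RM) : SimpleGraph M.V :=
  SimpleGraph.fromRel fun x y => ∃ t, M.vx t = x ∧ M.vx (M.a t) = y

/-- largest distance to `v` -/
noncomputable def RM.ecc (M : RM) (v : M.V) : ℕ := univ.sup fun u => M.G.dist v u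

/-- number of edges -/
def RM.E (M : RM) : ℕ := Fintype.card M.T / 2

/-! ### Labels -/

/-- a rooted map with labels (data) -/
structure LM extends RM where
  l : T → ℤ

/-- labelled map: the labels are constant on vertices and differ by at most one along edges -/
structure LM.IsLM (M : LM) : Prop extends M.toRM.IsMap where
  ls : ∀ t, M.l (M.s t) = M.l t
  la : ∀ t, M.l (M.a t) ≤ M.l t + 1

/-- labelled quadrangulation: the labels differ by exactly one along edges, the faces have degree 4 -/
structure LM.IsLQ (M : LM) : Prop extends M.toRM.IsMap where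
  ls : ∀ t, M.l (M.s t) = M.l t
  la : ∀ t, M.l (M.a t) = M.l t + 1 ∨ M.l (M.a t) = M.l t - 1
  four : ∀ t, M.ph (M.ph (M.ph (M.ph t))) = t
  two : ∀ t, M.ph (M.ph t) ≠ t

/-- isomorphism of labelled rooted maps -/
def LIso (M N : LM) : Prop :=
  ∃ e : M.T ≃ N.T, (∀ t, e (M.a t) = N.a (e t)) ∧ (∀ t, e (M.s t) = N.s (e t)) ∧
    (∀ t, N.l (e t) = M.l t) ∧ e M.r = N.r

theorem LIso.refl (M : LM) : LIso M M := ⟨Equiv.refl _, fun _ => rfl, fun _ => rfl, fun _ => rfl, rfl⟩

theorem LIso.symm {M N : LM} (h : LIso M N) : LIso N M := by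
  obtain ⟨e, h1, h2, h4, h3⟩ := h
  refine ⟨e.symm, fun t => ?_, fun t => ?_, fun t => ?_, ?_⟩
  · rw [Equiv.symm_apply_eq, h1, Equiv.apply_symm_apply]
  · rw [Equiv.symm_apply_eq, h2, Equiv.apply_symm_apply]
  · rw [← h4, Equiv.apply_symm_apply]
  · rw [Equiv.symm_apply_eq, h3]

theorem LIso.trans {M N K : LM} (h : LIso M N) (h' : LIso N K) : LIso M K := by
  obtain ⟨e, h1, h2, h4, h3⟩ := h
  obtain ⟨e', h1', h2', h4', h3'⟩ := h'
  exact ⟨e.trans e', fun t => by simp [h1, h1'], fun t => by simp [h2, h2'],
    fun t => by simp [h4, h4'], by simp [h3, h3']⟩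

/-- the darts whose edge goes down -/
def LM.up (M : LM) : Finset M.T := univ.filter fun t => M.l (M.a t) = M.l t - 1

theorem LM.mem_up {M : LM} {t : M.T} : t ∈ M.up ↔ M.l (M.a t) = M.l t - 1 := by simp [LM.up]

/-- `psi Q`: the edges are the diagonals of the faces which join the two heads of ascents -/
noncomputable def LM.psi (M : LM) (hr : M.r ∈ M.up) : LM where
  T := {t // t ∈ M.up}
  a := ret M.ph M.up
  s := ret M.s M.up
  r := ⟨M.r, hr⟩
  l := fun t => M.l t.1

/-- change of the sign of the labels (and of the root dart); normalised labels (`l r = 0`, the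
root in `up`) are preserved -/
def LM.neg (M : LM) : LM where
  T := M.T
  a := M.a
  s := M.s
  r := M.a M.r
  l := fun t => -1 - M.l t

/-- the other face permutation: `fa c = s (a c)` -/
abbrev LM.fa (M : LM) : Perm M.T := M.s * M.a

/-- first element of `fa c, fa (fa c), ..` with label `l c - 1` (if there is none: `c`) -/
noncomputable def LM.sig (M : LM) (c : M.T) : M.T :=
  open Classical in
  if h : ∃ k : ℕ, M.l ((M.fa ^ (k + 1)) c) = M.l c - 1 then (M.fa ^ (Nat.find h + 1)) c else c

/-- first element of `fa⁻¹ c, fa⁻¹ (fa⁻¹ c), ..` with label `≤ l c` -/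
noncomputable def LM.bk (M : LM) (c : M.T) : M.T :=
  open Classical in
  if h : ∃ k : ℕ, M.l ((M.fa⁻¹ ^ (k + 1)) c) ≤ M.l c then (M.fa⁻¹ ^ (Nat.find h + 1)) c else c

/-- the rotation of `phi M`, as a function on `T × Bool` -/
noncomputable def LM.phiS (M : LM) : M.T × Bool → M.T × Bool
  | (c, true) => if M.l (M.a c) = M.l c + 1 then (M.a c, false) else (M.s c, true)
  | (c, false) => if M.l (M.fa⁻¹ c) = M.l c - 1 then (M.sig c, true) else (M.bk c, false)

/-- `phi M`: every corner `c` of `M` is joined to its successor -/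
noncomputable def LM.phi (M : LM) : LM where
  T := M.T × Bool
  a := Equiv.prodCongr (Equiv.refl _) Equiv.boolNot
  s := open Classical in if h : Function.Bijective M.phiS then Equiv.ofBijective _ h else 1
  r := (M.r, true)
  l := fun t => if t.2 then M.l t.1 else M.l t.1 - 1

@[simp] theorem LM.phi_a (M : LM) (c : M.T) (b : Bool) : M.phi.a (c, b) = (c, !b) := rfl
@[simp] theorem LM.phi_l_true (M : LM) (c : M.T) : M.phi.l (c, true) = M.l c := rfl
@[simp] theorem LM.phi_l_false (M : LM) (c : M.T) : M.phi.l (c, false) = M.l c - 1 := rfl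

theorem LM.phi_s (M : LM) (h : Function.Bijective M.phiS) (t : M.T × Bool) :
    M.phi.s t = M.phiS t := by
  simp only [LM.phi, dif_pos h]; rfl

/-- number of vertices without lower neighbour -/
noncomputable def LM.nmin (M : LM) : ℕ :=
  Nat.card {v : M.V // ∀ t, M.vx t = v → M.l t ≤ M.l (M.a t)}

/-- number of vertices without higher neighbour -/
noncomputable def LM.nmax (M : LM) : ℕ :=
  Nat.card {v : M.V // ∀ t, M.vx t = v → M.l (M.a t) ≤ M.l t}

/-- `d` is the first element of `up` in `s (a c), s (s (a c)), ..` -/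
def LM.Succ (M : LM) (c d : M.T) : Prop :=
  ∃ k : ℕ, (M.s ^ (k + 1)) (M.a c) = d ∧ d ∈ M.up ∧ ∀ j < k, (M.s ^ (j + 1)) (M.a c) ∉ M.up

/-- maximum label minus minimum label -/
noncomputable def LM.rng (M : LM) : ℕ :=
  ((univ.image M.l).max' ⟨M.l M.r, mem_image_of_mem _ (mem_univ _)⟩ -
    (univ.image M.l).min' ⟨M.l M.r, mem_image_of_mem _ (mem_univ _)⟩).toNat

/-- normalised labelled quadrangulations, planar, with exactly one local minimum -/
structure LM.IsQ (M : LM) : Prop extends M.IsLQ where
  eu : M.toRM.Eu
  root : M.r ∈ M.up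
  norm : M.l M.r = 0
  one : M.nmin = 1

/-- normalised labelled plane trees (with at least one edge) -/
structure LM.IsTr (M : LM) : Prop extends M.IsLM where
  tree : 2 * nV M.s = Fintype.card M.T + 2
  norm : M.l M.r = 0

/-- normalised labelled planar maps with exactly one local maximum; then `l` = constant minus the
distance to the vertex with the largest label -/
structure LM.IsPt (M : LM) : Prop extends M.IsLM where
  eu : M.toRM.Eu
  norm : M.l M.r = 0
  one : M.nmax = 1

instance trSetoid : Setoid {M : LM // M.IsTr} where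
  r M N := LIso M.1 N.1
  iseqv := ⟨fun _ => LIso.refl _, fun h => h.symm, fun h h' => h.trans h'⟩

instance ptSetoid : Setoid {M : LM // M.IsPt} where
  r M N := LIso M.1 N.1
  iseqv := ⟨fun _ => LIso.refl _, fun h => h.symm, fun h h' => h.trans h'⟩

/-- labelled plane trees with at least one edge, up to isomorphism -/
abbrev TrC := Quotient trSetoid

/-- rooted pointed planar maps with at least one edge, up to isomorphism (pointed by the labels) -/
abbrev PtC := Quotient ptSetoid

/-! ### Plane trees with labels as an inductive type -/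

/-- plane trees with label differences: `nil` is a single vertex; `node d c r`: the first child of
the root has label (label of the root) `+ d`, the subtree of the first child is `c`, and `r` is the
rest of the tree, with the same root. -/
inductive LT where
  | nil : LT
  | node : SignType → LT → LT → LT
deriving DecidableEq

/-- number of edges -/
def LT.size : LT → ℕ
  | .nil => 0
  | .node _ c r => c.size + r.size + 1

/-- the set of the labels, relative to the label of the root -/
def LT.labels : LT → Finset ℤ
  | .nil => {0}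
  | .node d c r => c.labels.image (fun z => z + (d : ℤ)) ∪ r.labels

theorem LT.zero_mem_labels : ∀ t : LT, (0 : ℤ) ∈ t.labels
  | .nil => by simp [LT.labels]
  | .node _ _ r => by simp [LT.labels, LT.zero_mem_labels r]

/-- maximum label minus minimum label -/
def LT.rng (t : LT) : ℕ :=
  (t.labels.max' ⟨0, t.zero_mem_labels⟩ - t.labels.min' ⟨0, t.zero_mem_labels⟩).toNat

/-- number of vertices with a neighbour with a higher label (`up`: the root is known to have such
a neighbour outside) -/
def LT.nup : LT → Bool → ℕ
  | .nil, up => if up then 1 else 0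
  | .node d c r, up => c.nup (decide (d = -1)) + r.nup (up || decide (d = 1))

end Dia
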