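import Pool.Agent.Dia.Lagr
import Pool.Agent.Dia.LLT

/-!
# Module LagB: coefficients of H(w(t)) at the critical point

Data: `φ` with coefficients `φ_k ≥ 0`, `φ_0, φ_1 > 0`; `w = X * φ(w)`; `r > 0` with
`Φ = sum φ_k r^k < ∞`, `sum k φ_k r^k = Φ` (criticality), `sum k^2 φ_k r^k < ∞`; `tc = r / Φ`.
`p k = φ_k r^k / Φ` is a law with mean one, finite variance, `p 0, p 1 > 0`.

`coeff m (φ ^ n) * r^m = Φ^n * cvL (replicate n p) m` (induction on `n`, `PowerSeries.coeff_mul`).
`lag_bounds`: by Lagrange, for `m ≥ 1`,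
`[t^m] H(w) tc^m = (1/m) sum_{k < m} (k+1) H_{k+1} [u^(m-1-k)] φ^m tc^m
 = (r/m) sum_{k < m} (k+1) H_{k+1} r^k cvL (replicate m p) (m-1-k)`.
Upper: `llt_upper` and `sum (k+1) H_{k+1} r^k < ∞`; lower: the term `k = 0` and `llt_lower`.
`sqrt m * m = m^(3/2)`.

`lag_total`: `sum_m [t^m] H(w) tc^m = sum_k H_k r^k` for `H_k ≥ 0`, `sum H_k r^k < ∞`.
First `H = X`: `s = sum_m [t^m] w tc^m`.  The truncated sums `s_n = sum_{m ≤ n}` satisfy `s_{n+1} ≤ tc Φ(s_n)`
(`Φ(s) = sum φ_k s^k`; nonnegative coefficients), so by induction `s_n ≤ r` (as `tc Φ(r) = r`); so `s ≤ r`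
converges and by Tonelli `s = tc Φ(s)`.  `Φ` is convex on `[0, r]` with tangent at `r` through the origin:
`Φ(s) ≥ Φ + (Φ/r)(s - r) = (Φ / r) s`, termwise: `s^k ≥ r^k + k r^(k-1) (s - r)` (Bernoulli), strict for
`k ≥ 2` and `s < r`; some `k ≥ 2` has `φ_k > 0` (from `mean`: `sum_{k ≥ 2} (k-1) φ_k r^k = φ_0 > 0`).
So `s = r`.  For `w^k`: the sum is `r^k` (Cauchy product of nonnegative series);
for `H(w) = sum H_k w^k`: Tonelli (`coeff_subst_eq`; the double series of nonnegative terms).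
-/

set_option autoImplicit false

namespace Dia
open PowerSeries Finset Pool.Agent.DiamP

/-- the data of a critical Lagrange equation -/
structure LagData (φ w : PowerSeries ℝ) (r : ℝ) : Prop where
  w0 : constantCoeff w = 0
  eq : w = X * φ.subst w
  nonneg : ∀ k, 0 ≤ coeff k φ
  pos0 : 0 < coeff 0 φ
  pos1 : 0 < coeff 1 φ
  rpos : 0 < r
  sum : Summable fun k : ℕ => coeff k φ * r ^ k
  mean : HasSum (fun k : ℕ => (k : ℝ) * (coeff k φ * r ^ k)) (∑' k, coeff k φ * r ^ k)
  var : Summable fun k : ℕ => (k : ℝ) ^ 2 * (coeff k φ * r ^ k)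

/-! ### the law of a critical Lagrange equation -/

section
variable {φ w : PowerSeries ℝ} {r : ℝ}

/-- the total -/
noncomputable def LagT (φ : PowerSeries ℝ) (r : ℝ) : ℝ := ∑' k, coeff k φ * r ^ k

theorem LagData.Tpos (h : LagData φ w r) : 0 < LagT φ r := by
  have h1 := h.sum.le_tsum 0 fun k _ => mul_nonneg (h.nonneg k) (pow_nonneg h.rpos.le k)
  rw [pow_zero, mul_one] at h1
  exact lt_of_lt_of_le h.pos0 h1

/-- the law -/
noncomputable def Lagp (φ : PowerSeries ℝ) (r : ℝ) (k : ℕ) : ℝ := coeff k φ * r ^ k / LagT φ r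

theorem LagData.isLaw (h : LagData φ w r) : IsLaw (Lagp φ r) := by
  refine ⟨fun k => div_nonneg (mul_nonneg (h.nonneg k) (pow_nonneg h.rpos.le k)) h.Tpos.le, ?_⟩
  have := h.sum.hasSum.div_const (LagT φ r)
  rwa [show (∑' k, coeff k φ * r ^ k) = LagT φ r from rfl, div_self h.Tpos.ne'] at this

theorem LagData.p0 (h : LagData φ w r) : 0 < Lagp φ r 0 :=
  div_pos (mul_pos h.pos0 (pow_pos h.rpos _)) h.Tpos

theorem LagData.p1 (h : LagData φ w r) : 0 < Lagp φ r 1 :=
  div_pos (mul_pos h.pos1 (pow_pos h.rpos _)) h.Tpos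

theorem LagData.pmean (h : LagData φ w r) : HasSum (fun n : ℕ => (n : ℝ) * Lagp φ r n) 1 := by
  have := h.mean.div_const (LagT φ r)
  rw [show (∑' k, coeff k φ * r ^ k) = LagT φ r from rfl, div_self h.Tpos.ne'] at this
  have e : (fun n : ℕ => (n : ℝ) * Lagp φ r n) =
      fun k : ℕ => (k : ℝ) * (coeff k φ * r ^ k) / LagT φ r := by
    funext k
    simp only [Lagp]
    ring
  rw [e]
  exact this

theorem LagData.pvar (h : LagData φ w r) : Summable (fun n : ℕ => (n : ℝ) ^ 2 * Lagp φ r n) := by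
  have := h.var.div_const (LagT φ r)
  have e : (fun n : ℕ => (n : ℝ) ^ 2 * Lagp φ r n) =
      fun k : ℕ => (k : ℝ) ^ 2 * (coeff k φ * r ^ k) / LagT φ r := by
    funext k
    simp only [Lagp]
    ring
  rw [e]
  exact this

theorem coeff_pow_eq (h : LagData φ w r) (n j : ℕ) :
    coeff j (φ ^ n) * r ^ j = LagT φ r ^ n * cvL (List.replicate n (Lagp φ r)) j := by
  have hT := h.Tpos.ne'
  induction n generalizing j with
  | zero =>
    rw [pow_zero, pow_zero, one_mul, List.replicate_zero, cvL_nil, one0, coeff_one]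
    split_ifs with hj
    · subst hj; simp
    · simp
  | succ n ih =>
    rw [pow_succ', coeff_mul, Finset.sum_mul, List.replicate_succ, cvL_cons, cv, Finset.mul_sum]
    refine Finset.sum_congr rfl fun ij hij => ?_
    have hj : r ^ j = r ^ ij.1 * r ^ ij.2 := by
      rw [← pow_add, Finset.HasAntidiagonal.mem_antidiagonal.1 hij]
    rw [hj]
    have e := ih ij.2
    calc coeff ij.1 φ * coeff ij.2 (φ ^ n) * (r ^ ij.1 * r ^ ij.2)
        = (coeff ij.1 φ * r ^ ij.1) * (coeff ij.2 (φ ^ n) * r ^ ij.2) := by ring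
      _ = (coeff ij.1 φ * r ^ ij.1) * (LagT φ r ^ n * cvL (List.replicate n (Lagp φ r)) ij.2) := by
          rw [e]
      _ = LagT φ r ^ (n + 1) * (Lagp φ r ij.1 * cvL (List.replicate n (Lagp φ r)) ij.2) := by
          rw [Lagp, pow_succ]
          field_simp

/-- the coefficient formula -/
theorem lag_formula (h : LagData φ w r) (H : PowerSeries ℝ) (m : ℕ) :
    coeff (m + 1) (H.subst w) * (r / LagT φ r) ^ (m + 1) =
      r / ((m + 1 : ℕ) : ℝ) * ∑ ij ∈ antidiagonal m, (((ij.1 : ℝ) + 1) * coeff (ij.1 + 1) H * r ^ ij.1) *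
        cvL (List.replicate (m + 1) (Lagp φ r)) ij.2 := by
  have h1 := lagrange φ w H h.w0 h.eq m
  have hT := h.Tpos.ne'
  have hm : ((m + 1 : ℕ) : ℝ) ≠ 0 := by positivity
  have h2 : ((m + 1 : ℕ) : ℝ) * coeff (m + 1) (H.subst w) * r ^ m =
      LagT φ r ^ (m + 1) * ∑ ij ∈ antidiagonal m, (((ij.1 : ℝ) + 1) * coeff (ij.1 + 1) H * r ^ ij.1) *
        cvL (List.replicate (m + 1) (Lagp φ r)) ij.2 := by
    rw [h1, coeff_mul, Finset.sum_mul, Finset.mul_sum]
    refine Finset.sum_congr rfl fun ij hij => ?_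
    have hj : r ^ m = r ^ ij.1 * r ^ ij.2 := by
      rw [← pow_add, Finset.HasAntidiagonal.mem_antidiagonal.1 hij]
    rw [hj]
    have e := coeff_pow_eq h (m + 1) ij.2
    have e2 : coeff ij.1 (derivative ℝ H) = coeff (ij.1 + 1) H * ((ij.1 : ℝ) + 1) := by
      rw [coeff_derivative]
    rw [e2]
    linear_combination (((ij.1 : ℝ) + 1) * coeff (ij.1 + 1) H * r ^ ij.1) * e
  set S : ℝ := ∑ ij ∈ antidiagonal m, (((ij.1 : ℝ) + 1) * coeff (ij.1 + 1) H * r ^ ij.1) *
        cvL (List.replicate (m + 1) (Lagp φ r)) ij.2 with hS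
  rw [div_pow, pow_succ r m]
  have hr := h.rpos.ne'
  rw [div_mul_eq_mul_div, eq_div_iff hm, mul_div_assoc', div_mul_eq_mul_div,
    div_eq_iff (pow_ne_zero _ hT)]
  linear_combination r * h2

end

theorem lag_bounds {φ w : PowerSeries ℝ} {r : ℝ} (h : LagData φ w r) (H : PowerSeries ℝ)
    (hH : ∀ k, 0 ≤ coeff k H) (hH1 : 0 < coeff 1 H)
    (hs : Summable fun k : ℕ => (k : ℝ) * (coeff k H * r ^ k)) :
    ∃ c K : ℝ, 0 < c ∧ 0 < K ∧ ∀ m : ℕ, 1 ≤ m →
      c * (m : ℝ) ^ (-(3 / 2) : ℝ) ≤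
        coeff m (H.subst w) * (r / ∑' k, coeff k φ * r ^ k) ^ m ∧
      coeff m (H.subst w) * (r / ∑' k, coeff k φ * r ^ k) ^ m ≤ K * (m : ℝ) ^ (-(3 / 2) : ℝ) := by
  obtain ⟨K, hK⟩ := llt_upper (Lagp φ r) h.isLaw h.p0 h.p1
  obtain ⟨c, hc, hc2⟩ := llt_lower (Lagp φ r) h.isLaw h.p0 h.p1 h.pmean h.pvar
  have hr := h.rpos
  set S : ℝ := ∑' k : ℕ, (k : ℝ) * (coeff k H * r ^ k) with hS
  have hSnn : 0 ≤ S := tsum_nonneg fun k => mul_nonneg (Nat.cast_nonneg k)
    (mul_nonneg (hH k) (pow_nonneg hr.le k))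
  have hKnn : 0 ≤ K := by
    have h1 := hK 1 0 le_rfl
    rw [Nat.cast_one, Real.sqrt_one, div_one] at h1
    exact le_trans ((isLaw_replicate h.isLaw 1).nonneg 0) h1
  refine ⟨r * coeff 1 H * c, S * K + 1, by positivity, by positivity, fun m hm => ?_⟩
  obtain ⟨n, rfl⟩ : ∃ n, m = n + 1 := ⟨m - 1, by omega⟩
  have hf := lag_formula h H n
  rw [show (∑' k, coeff k φ * r ^ k) = LagT φ r from rfl, hf]
  set M : ℝ := ((n + 1 : ℕ) : ℝ) with hM
  have hMpos : 0 < M := by rw [hM]; positivity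
  have hpow : M ^ (-(3 / 2) : ℝ) = 1 / (M * Real.sqrt M) := by
    rw [Real.sqrt_eq_rpow, show (-(3 / 2) : ℝ) = -(1 + 1 / 2) by norm_num, Real.rpow_neg hMpos.le,
      Real.rpow_add hMpos, Real.rpow_one, one_div, one_div]
  have hsq : 0 < Real.sqrt M := Real.sqrt_pos.2 hMpos
  have hnn : ∀ ij ∈ antidiagonal n, 0 ≤ (((ij.1 : ℝ) + 1) * coeff (ij.1 + 1) H * r ^ ij.1) *
      cvL (List.replicate (n + 1) (Lagp φ r)) ij.2 := fun ij _ =>
    mul_nonneg (mul_nonneg (mul_nonneg (by positivity) (hH _)) (pow_nonneg hr.le _))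
      ((isLaw_replicate h.isLaw _).nonneg _)
  rw [hpow]
  constructor
  · have h1 : coeff 1 H * (c / Real.sqrt M) ≤
        ∑ ij ∈ antidiagonal n, (((ij.1 : ℝ) + 1) * coeff (ij.1 + 1) H * r ^ ij.1) *
          cvL (List.replicate (n + 1) (Lagp φ r)) ij.2 := by
      refine le_trans ?_ (Finset.single_le_sum hnn (Finset.HasAntidiagonal.mem_antidiagonal.2 (zero_add n) :
        ((0, n) : ℕ × ℕ) ∈ antidiagonal n))
      simp only [Nat.cast_zero, zero_add, one_mul, pow_zero, mul_one]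
      refine mul_le_mul_of_nonneg_left ?_ hH1.le
      have := hc2 (n + 1) (by omega)
      rwa [Nat.add_sub_cancel] at this
    have h2 : 0 < r / M := div_pos hr hMpos
    calc r * coeff 1 H * c * (1 / (M * Real.sqrt M))
        = r / M * (coeff 1 H * (c / Real.sqrt M)) := by field_simp
      _ ≤ _ := mul_le_mul_of_nonneg_left h1 h2.le
  · have h1 : ∑ ij ∈ antidiagonal n, (((ij.1 : ℝ) + 1) * coeff (ij.1 + 1) H * r ^ ij.1) *
          cvL (List.replicate (n + 1) (Lagp φ r)) ij.2 ≤ S / r * (K / Real.sqrt M) := by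
      have h2 : ∑ ij ∈ antidiagonal n, (((ij.1 : ℝ) + 1) * coeff (ij.1 + 1) H * r ^ ij.1) *
          cvL (List.replicate (n + 1) (Lagp φ r)) ij.2 ≤
          ∑ ij ∈ antidiagonal n, (((ij.1 : ℝ) + 1) * coeff (ij.1 + 1) H * r ^ ij.1) *
            (K / Real.sqrt M) := by
        refine Finset.sum_le_sum fun ij _ => mul_le_mul_of_nonneg_left (hK (n + 1) _ (by omega)) ?_
        exact mul_nonneg (mul_nonneg (by positivity) (hH _)) (pow_nonneg hr.le _)
      refine h2.trans ?_
      rw [← Finset.sum_mul]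
      refine mul_le_mul_of_nonneg_right ?_ (by positivity)
      rw [le_div_iff₀ hr, Finset.Nat.sum_antidiagonal_eq_sum_range_succ
        (fun i _ => ((i : ℝ) + 1) * coeff (i + 1) H * r ^ i), Finset.sum_mul]
      have h3 : ∑ i ∈ range (n + 1), ((i : ℝ) + 1) * coeff (i + 1) H * r ^ i * r =
          ∑ i ∈ range (n + 1), (((i + 1 : ℕ) : ℝ) * (coeff (i + 1) H * r ^ (i + 1))) := by
        refine Finset.sum_congr rfl fun i _ => ?_
        push_cast
        ring
      rw [h3, hS]
      have h4 := hs.sum_le_tsum (range (n + 1 + 1)) fun k _ => mul_nonneg (Nat.cast_nonneg k)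
        (mul_nonneg (hH k) (pow_nonneg hr.le k))
      rw [Finset.sum_range_succ'] at h4
      simpa using h4
    have h2 : 0 < r / M := div_pos hr hMpos
    calc _ ≤ r / M * (S / r * (K / Real.sqrt M)) := mul_le_mul_of_nonneg_left h1 h2.le
      _ = S * K * (1 / (M * Real.sqrt M)) := by field_simp
      _ ≤ _ := by
          refine mul_le_mul_of_nonneg_right (by linarith) ?_
          positivity

/-! ### total weights -/

theorem LagData.pow_nonneg' {φ w : PowerSeries ℝ} {r : ℝ} (h : LagData φ w r) (m k : ℕ) :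
    0 ≤ coeff m (w ^ k) := by
  rcases Nat.eq_zero_or_pos m with rfl | hm
  · rw [coeff_zero_eq_constantCoeff_apply, map_pow, h.w0]
    exact pow_nonneg le_rfl k
  · rcases Nat.lt_or_ge m k with hk | hk
    · rw [coeff_of_lt_order]
      refine lt_of_lt_of_le (Nat.cast_lt.2 hk) ?_
      refine le_trans ?_ (le_order_pow w k)
      have h1 : (1 : ℕ∞) ≤ w.order := by
        rw [show (1 : ℕ∞) = ((1 : ℕ) : ℕ∞) from rfl]
        refine nat_le_order w 1 fun i hi => ?_
        obtain rfl : i = 0 := by omega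
        rw [coeff_zero_eq_constantCoeff_apply, h.w0]
      calc (k : ℕ∞) = k • (1 : ℕ∞) := by simp
        _ ≤ k • w.order := nsmul_le_nsmul_right h1 k
    · have h1 := lagrange_pow φ w h.w0 h.eq m k hm hk
      have hm' : (0 : ℝ) < m := by exact_mod_cast hm
      have h2 : 0 ≤ coeff (m - k) (φ ^ m) := by
        have h3 := coeff_pow_eq h m (m - k)
        have h4 : 0 < r ^ (m - k) := pow_pos h.rpos _
        have h5 : 0 ≤ coeff (m - k) (φ ^ m) * r ^ (m - k) := by
          rw [h3]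
          exact mul_nonneg (pow_nonneg h.Tpos.le _) ((isLaw_replicate h.isLaw _).nonneg _)
        exact nonneg_of_mul_nonneg_left h5 h4
      have h3 : 0 ≤ (m : ℝ) * coeff m (w ^ k) := by
        rw [h1]
        exact mul_nonneg (Nat.cast_nonneg k) h2
      exact nonneg_of_mul_nonneg_right h3 hm'

theorem lag_nonneg {φ w : PowerSeries ℝ} {r : ℝ} (h : LagData φ w r) (H : PowerSeries ℝ)
    (hH : ∀ k, 0 ≤ coeff k H) (m : ℕ) : 0 ≤ coeff m (H.subst w) := by
  rw [coeff_subst_eq H w h.w0 m]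
  exact Finset.sum_nonneg fun k _ => mul_nonneg (hH k) (h.pow_nonneg' m k)

theorem coeff_pow_zero {w : PowerSeries ℝ} (w0 : constantCoeff w = 0) {m k : ℕ} (hk : m < k) :
    coeff m (w ^ k) = 0 := by
  rw [coeff_of_lt_order]
  refine lt_of_lt_of_le (Nat.cast_lt.2 hk) ?_
  refine le_trans ?_ (le_order_pow w k)
  have h1 : (1 : ℕ∞) ≤ w.order := by
    rw [show (1 : ℕ∞) = ((1 : ℕ) : ℕ∞) from rfl]
    refine nat_le_order w 1 fun i hi => ?_
    obtain rfl : i = 0 := by omega
    rw [coeff_zero_eq_constantCoeff_apply, w0]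
  calc (k : ℕ∞) = k • (1 : ℕ∞) := by simp
    _ ≤ k • w.order := nsmul_le_nsmul_right h1 k

section
variable {φ w : PowerSeries ℝ} {r : ℝ}

/-- truncated sums of a power are at most the power of the truncated sum -/
theorem trunc_pow_le (h : LagData φ w r) {t : ℝ} (ht : 0 ≤ t) (n k : ℕ) :
    ∑ m ∈ range (n + 1), coeff m (w ^ k) * t ^ m ≤
      (∑ m ∈ range (n + 1), coeff m w * t ^ m) ^ k := by
  have hw : ∀ m, 0 ≤ coeff m w := fun m => by
    have := h.pow_nonneg' m 1
    rwa [pow_one] at this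
  induction k with
  | zero =>
    rw [pow_zero, pow_zero, Finset.sum_range_succ', ]
    simp [coeff_one]
  | succ k ih =>
    have h1 : ∑ m ∈ range (n + 1), coeff m (w ^ (k + 1)) * t ^ m =
        ∑ m ∈ range (n + 1), ∑ ij ∈ antidiagonal m,
          (coeff ij.1 (w ^ k) * t ^ ij.1) * (coeff ij.2 w * t ^ ij.2) := by
      refine Finset.sum_congr rfl fun m _ => ?_
      rw [pow_succ, coeff_mul, Finset.sum_mul]
      refine Finset.sum_congr rfl fun ij hij => ?_
      rw [← Finset.HasAntidiagonal.mem_antidiagonal.1 hij, pow_add]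
      ring
    have h2 : ∑ m ∈ range (n + 1), ∑ ij ∈ antidiagonal m,
          (coeff ij.1 (w ^ k) * t ^ ij.1) * (coeff ij.2 w * t ^ ij.2) ≤
        ∑ ij ∈ range (n + 1) ×ˢ range (n + 1),
          (coeff ij.1 (w ^ k) * t ^ ij.1) * (coeff ij.2 w * t ^ ij.2) := by
      rw [← Finset.sum_biUnion]
      · refine Finset.sum_le_sum_of_subset_of_nonneg ?_ fun ij _ _ => ?_
        · intro ij hij
          obtain ⟨m, hm, hij⟩ := Finset.mem_biUnion.1 hij
          have := Finset.HasAntidiagonal.mem_antidiagonal.1 hij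
          have := Finset.mem_range.1 hm
          exact Finset.mem_product.2 ⟨Finset.mem_range.2 (by omega), Finset.mem_range.2 (by omega)⟩
        · exact mul_nonneg (mul_nonneg (h.pow_nonneg' _ _) (pow_nonneg ht _))
            (mul_nonneg (hw _) (pow_nonneg ht _))
      · intro a _ b _ hab
        refine Finset.disjoint_left.2 fun ij h1 h2 => hab ?_
        rw [← Finset.HasAntidiagonal.mem_antidiagonal.1 h1, ← Finset.HasAntidiagonal.mem_antidiagonal.1 h2]
    rw [h1]
    refine h2.trans ?_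
    rw [pow_succ]
    have h3 : ∑ ij ∈ range (n + 1) ×ˢ range (n + 1),
          (coeff ij.1 (w ^ k) * t ^ ij.1) * (coeff ij.2 w * t ^ ij.2) =
        (∑ m ∈ range (n + 1), coeff m (w ^ k) * t ^ m) * ∑ m ∈ range (n + 1), coeff m w * t ^ m := by
      rw [Finset.sum_mul_sum, Finset.sum_product]
    rw [h3]
    refine mul_le_mul_of_nonneg_right ih ?_
    exact Finset.sum_nonneg fun m _ => mul_nonneg (hw _) (pow_nonneg ht _)

theorem trunc_le (h : LagData φ w r) (n : ℕ) :
    ∑ m ∈ range (n + 1), coeff m w * (r / LagT φ r) ^ m ≤ r := by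
  have hT := h.Tpos
  have ht : 0 < r / LagT φ r := div_pos h.rpos hT
  set t : ℝ := r / LagT φ r with htdef
  have hw : ∀ m, 0 ≤ coeff m w := fun m => by
    have := h.pow_nonneg' m 1
    rwa [pow_one] at this
  induction n with
  | zero =>
    rw [Finset.sum_range_one, coeff_zero_eq_constantCoeff_apply, h.w0, zero_mul]
    exact h.rpos.le
  | succ n ih =>
    set s : ℝ := ∑ m ∈ range (n + 1), coeff m w * t ^ m with hs
    have hsnn : 0 ≤ s := Finset.sum_nonneg fun m _ => mul_nonneg (hw m) (pow_nonneg ht.le m)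
    have h1 : ∀ m, coeff (m + 1) w = ∑ k ∈ range (m + 1), coeff k φ * coeff m (w ^ k) := by
      intro m
      rw [← coeff_subst_eq φ w h.w0 m]
      conv_lhs => rw [h.eq]
      rw [coeff_succ_X_mul]
    rw [Finset.sum_range_succ', coeff_zero_eq_constantCoeff_apply, h.w0, zero_mul, add_zero]
    have h2 : ∑ m ∈ range (n + 1), coeff (m + 1) w * t ^ (m + 1) ≤
        t * ∑ m ∈ range (n + 1), ∑ k ∈ range (n + 1), coeff k φ * (coeff m (w ^ k) * t ^ m) := by
      rw [Finset.mul_sum]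
      refine Finset.sum_le_sum fun m hm => ?_
      rw [h1 m, pow_succ, ← mul_assoc, mul_comm _ t]
      refine mul_le_mul_of_nonneg_left ?_ ht.le
      rw [Finset.sum_mul]
      have h3 : ∑ k ∈ range (m + 1), coeff k φ * coeff m (w ^ k) * t ^ m =
          ∑ k ∈ range (m + 1), coeff k φ * (coeff m (w ^ k) * t ^ m) :=
        Finset.sum_congr rfl fun k _ => by ring
      rw [h3]
      refine Finset.sum_le_sum_of_subset_of_nonneg ?_ fun k _ _ =>
        mul_nonneg (h.nonneg k) (mul_nonneg (h.pow_nonneg' _ _) (pow_nonneg ht.le _))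
      exact Finset.range_mono (by have := Finset.mem_range.1 hm; omega)
    refine h2.trans ?_
    rw [Finset.sum_comm]
    have h3 : ∑ k ∈ range (n + 1), ∑ m ∈ range (n + 1), coeff k φ * (coeff m (w ^ k) * t ^ m) ≤
        LagT φ r := by
      have h4 : ∑ k ∈ range (n + 1), ∑ m ∈ range (n + 1), coeff k φ * (coeff m (w ^ k) * t ^ m) ≤
          ∑ k ∈ range (n + 1), coeff k φ * r ^ k := by
        refine Finset.sum_le_sum fun k _ => ?_
        rw [← Finset.mul_sum]
        refine mul_le_mul_of_nonneg_left ?_ (h.nonneg k)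
        exact (trunc_pow_le h ht.le n k).trans (pow_le_pow_left₀ hsnn ih k)
      exact h4.trans (h.sum.sum_le_tsum _ fun k _ => mul_nonneg (h.nonneg k) (pow_nonneg h.rpos.le k))
    calc _ ≤ t * LagT φ r := mul_le_mul_of_nonneg_left h3 ht.le
      _ = r := by rw [htdef, div_mul_cancel₀ _ hT.ne']

/-- the total of `w` -/
noncomputable def Lags (φ w : PowerSeries ℝ) (r : ℝ) : ℝ := ∑' m, coeff m w * (r / LagT φ r) ^ m

theorem Lags_hasSum (h : LagData φ w r) :
    HasSum (fun m => coeff m w * (r / LagT φ r) ^ m) (Lags φ w r) := by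
  have hT := h.Tpos
  have ht : 0 < r / LagT φ r := div_pos h.rpos hT
  have hw : ∀ m, 0 ≤ coeff m w := fun m => by
    have := h.pow_nonneg' m 1
    rwa [pow_one] at this
  refine Summable.hasSum ?_
  refine summable_of_sum_range_le (c := r) (fun m => mul_nonneg (hw m) (pow_nonneg ht.le m))
    fun n => ?_
  refine le_trans ?_ (trunc_le h n)
  exact Finset.sum_le_sum_of_subset_of_nonneg (Finset.range_mono (by omega)) fun m _ _ =>
    mul_nonneg (hw m) (pow_nonneg ht.le m)

theorem Lags_le (h : LagData φ w r) : Lags φ w r ≤ r := by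
  have ht : 0 < r / LagT φ r := div_pos h.rpos h.Tpos
  have hw : ∀ m, 0 ≤ coeff m w := fun m => by
    have := h.pow_nonneg' m 1
    rwa [pow_one] at this
  refine Real.tsum_le_of_sum_range_le (fun m => mul_nonneg (hw m) (pow_nonneg ht.le m)) fun n => ?_
  refine le_trans ?_ (trunc_le h n)
  exact Finset.sum_le_sum_of_subset_of_nonneg (Finset.range_mono (by omega)) fun m _ _ =>
    mul_nonneg (hw m) (pow_nonneg ht.le m)

theorem Lags_nonneg (h : LagData φ w r) : 0 ≤ Lags φ w r := by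
  have ht : 0 < r / LagT φ r := div_pos h.rpos h.Tpos
  refine tsum_nonneg fun m => mul_nonneg ?_ (pow_nonneg ht.le m)
  have := h.pow_nonneg' m 1
  rwa [pow_one] at this

theorem Lags_pow (h : LagData φ w r) (k : ℕ) :
    HasSum (fun m => coeff m (w ^ k) * (r / LagT φ r) ^ m) (Lags φ w r ^ k) := by
  have ht : 0 < r / LagT φ r := div_pos h.rpos h.Tpos
  set t : ℝ := r / LagT φ r with htdef
  induction k with
  | zero =>
    have e : (fun m => coeff m (w ^ 0) * t ^ m) = fun m => if m = 0 then (1 : ℝ) else 0 := by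
      funext m
      rw [pow_zero, coeff_one]
      split_ifs with hm
      · subst hm; simp
      · simp
    rw [e, pow_zero]
    exact hasSum_ite_eq 0 1
  | succ k ih =>
    have hn1 : Summable fun m => ‖coeff m (w ^ k) * t ^ m‖ := by
      refine ih.summable.congr fun m => ?_
      rw [Real.norm_of_nonneg (mul_nonneg (h.pow_nonneg' _ _) (pow_nonneg ht.le _))]
    have hw : ∀ m, 0 ≤ coeff m w := fun m => by
      have := h.pow_nonneg' m 1
      rwa [pow_one] at this
    have hs1 := Lags_hasSum h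
    rw [← htdef] at hs1
    have hn2 : Summable fun m => ‖coeff m w * t ^ m‖ := by
      refine hs1.summable.congr fun m => ?_
      rw [Real.norm_of_nonneg (mul_nonneg (hw _) (pow_nonneg ht.le _))]
    have h1 := tsum_mul_tsum_eq_tsum_sum_antidiagonal_of_summable_norm hn1 hn2
    have h2 := (summable_norm_sum_mul_antidiagonal_of_summable_norm hn1 hn2).of_norm
    rw [ih.tsum_eq, hs1.tsum_eq] at h1
    have h3 := h2.hasSum
    rw [← h1, ← pow_succ] at h3
    have e : (fun m => coeff m (w ^ (k + 1)) * t ^ m) = fun m => ∑ ij ∈ antidiagonal m,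
        coeff ij.1 (w ^ k) * t ^ ij.1 * (coeff ij.2 w * t ^ ij.2) := by
      funext m
      rw [pow_succ, coeff_mul, Finset.sum_mul]
      refine Finset.sum_congr rfl fun ij hij => ?_
      rw [← Finset.HasAntidiagonal.mem_antidiagonal.1 hij, pow_add]
      ring
    rw [e]
    exact h3

theorem Lags_total (h : LagData φ w r) (H : PowerSeries ℝ)
    (hH : ∀ k, 0 ≤ coeff k H) (hs : Summable fun k : ℕ => coeff k H * Lags φ w r ^ k) :
    HasSum (fun m : ℕ => coeff m (H.subst w) * (r / LagT φ r) ^ m)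
      (∑' k, coeff k H * Lags φ w r ^ k) := by
  have ht : 0 < r / LagT φ r := div_pos h.rpos h.Tpos
  set t : ℝ := r / LagT φ r with htdef
  have hpow : ∀ k, HasSum (fun m => coeff m (w ^ k) * t ^ m) (Lags φ w r ^ k) := Lags_pow h
  set F : ℕ × ℕ → ℝ := fun km => coeff km.1 H * (coeff km.2 (w ^ km.1) * t ^ km.2) with hF
  have hFnn : 0 ≤ F := fun km =>
    mul_nonneg (hH _) (mul_nonneg (h.pow_nonneg' _ _) (pow_nonneg ht.le _))
  have hin : ∀ k, HasSum (fun m => F (k, m)) (coeff k H * Lags φ w r ^ k) := fun k =>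
    (hpow k).mul_left _
  have hsum : Summable F := by
    rw [summable_prod_of_nonneg hFnn]
    refine ⟨fun k => (hin k).summable, ?_⟩
    refine hs.congr fun k => ?_
    exact (hin k).tsum_eq.symm
  have htot : ∑' km, F km = ∑' k, coeff k H * Lags φ w r ^ k := by
    rw [hsum.tsum_prod]
    exact tsum_congr fun k => (hin k).tsum_eq
  have hswap : HasSum (fun mk : ℕ × ℕ => F mk.swap) (∑' k, coeff k H * Lags φ w r ^ k) := by
    rw [← htot]
    exact (Equiv.prodComm ℕ ℕ).hasSum_iff.2 hsum.hasSum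
  refine hswap.prod_fiberwise fun m => ?_
  have e : coeff m (H.subst w) * t ^ m = ∑ k ∈ range (m + 1), F (k, m) := by
    rw [coeff_subst_eq H w h.w0 m, Finset.sum_mul]
    refine Finset.sum_congr rfl fun k _ => ?_
    simp only [hF]
    ring
  rw [e]
  refine hasSum_sum_of_ne_finset_zero fun k hk => ?_
  have hk' : m < k := by
    rw [Finset.mem_range] at hk
    omega
  simp only [hF, Prod.swap_prod_mk]
  rw [coeff_pow_zero h.w0 hk', zero_mul, mul_zero]

/-- the tangent -/
theorem tangent_rec (r s : ℝ) (k : ℕ) :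
    r * s ^ (k + 1) - r ^ (k + 1) * (r + ((k + 1 : ℕ) : ℝ) * (s - r)) =
      s * (r * s ^ k - r ^ k * (r + (k : ℝ) * (s - r))) + k * r ^ k * (s - r) ^ 2 := by
  push_cast
  ring

theorem tangent_nonneg {r s : ℝ} (hr : 0 ≤ r) (hs : 0 ≤ s) (k : ℕ) :
    0 ≤ r * s ^ k - r ^ k * (r + (k : ℝ) * (s - r)) := by
  induction k with
  | zero => simp
  | succ k ih =>
    rw [tangent_rec]
    have : 0 ≤ (k : ℝ) * r ^ k * (s - r) ^ 2 := by positivity
    have := mul_nonneg hs ih
    linarith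

theorem tangent_pos {r s : ℝ} (hr : 0 < r) (hs : 0 ≤ s) (hne : s ≠ r) (k : ℕ) :
    0 < r * s ^ (k + 2) - r ^ (k + 2) * (r + ((k + 2 : ℕ) : ℝ) * (s - r)) := by
  rw [show k + 2 = (k + 1) + 1 from rfl, tangent_rec]
  have h1 : 0 < ((k + 1 : ℕ) : ℝ) * r ^ (k + 1) * (s - r) ^ 2 := by
    have : 0 < (s - r) ^ 2 := by
      have : s - r ≠ 0 := sub_ne_zero.2 hne
      positivity
    positivity
  have h2 := mul_nonneg hs (tangent_nonneg hr.le hs (k + 1))
  linarith

theorem Lags_eq (h : LagData φ w r) : Lags φ w r = r := by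
  have hT := h.Tpos
  have hr := h.rpos
  have ht : 0 < r / LagT φ r := div_pos h.rpos h.Tpos
  set s := Lags φ w r with hs
  have hsnn : 0 ≤ s := Lags_nonneg h
  have hsle : s ≤ r := Lags_le h
  have hsum : Summable fun k : ℕ => coeff k φ * s ^ k :=
    Summable.of_nonneg_of_le (fun k => mul_nonneg (h.nonneg k) (pow_nonneg hsnn k))
      (fun k => mul_le_mul_of_nonneg_left (pow_le_pow_left₀ hsnn hsle k) (h.nonneg k)) h.sum
  have h1 := Lags_total h φ h.nonneg hsum
  -- s = t Φ(s)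
  have h2 : s = r / LagT φ r * ∑' k, coeff k φ * s ^ k := by
    have h3 := Lags_hasSum h
    have h4 : HasSum (fun m => coeff (m + 1) w * (r / LagT φ r) ^ (m + 1)) s := by
      rw [← hs] at h3
      have := (hasSum_nat_add_iff' 1).2 h3
      rw [Finset.sum_range_one, coeff_zero_eq_constantCoeff_apply, h.w0, zero_mul, sub_zero] at this
      exact this
    have h5 := h1.mul_left (r / LagT φ r)
    refine h4.unique ?_
    have e : (fun m => coeff (m + 1) w * (r / LagT φ r) ^ (m + 1)) = fun m =>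
        r / LagT φ r * (coeff m (φ.subst w) * (r / LagT φ r) ^ m) := by
      funext m
      have : coeff (m + 1) w = coeff m (φ.subst w) := by
        conv_lhs => rw [h.eq]
        rw [coeff_succ_X_mul]
      rw [this, pow_succ]
      ring
    rw [e]
    exact h5
  by_contra hne
  set Φ : ℝ := ∑' k, coeff k φ * s ^ k with hΦ
  have h3 : r * Φ = s * LagT φ r := by
    rw [div_mul_eq_mul_div, eq_div_iff hT.ne'] at h2
    linarith
  have h4 : HasSum (fun k : ℕ => coeff k φ * (r * s ^ k - r ^ k * (r + (k : ℝ) * (s - r)))) 0 := by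
    have ha := (hsum.hasSum.mul_left r)
    have hb := (h.sum.hasSum.mul_left r)
    have hc := h.mean.mul_left (s - r)
    have hd := (ha.sub hb).sub hc
    have e : r * (∑' k, coeff k φ * s ^ k) - r * (∑' k, coeff k φ * r ^ k) -
        (s - r) * (∑' k, coeff k φ * r ^ k) = 0 := by
      rw [show (∑' k, coeff k φ * r ^ k) = LagT φ r from rfl]
      rw [← hΦ]
      linarith
    rw [e] at hd
    have e2 : (fun k : ℕ => coeff k φ * (r * s ^ k - r ^ k * (r + (k : ℝ) * (s - r)))) =
        fun k : ℕ => r * (coeff k φ * s ^ k) - r * (coeff k φ * r ^ k) -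
          (s - r) * ((k : ℝ) * (coeff k φ * r ^ k)) := by
      funext k
      ring
    rw [e2]
    exact hd
  have h5 : ∀ k, coeff k φ * (r * s ^ k - r ^ k * (r + (k : ℝ) * (s - r))) = 0 := by
    intro k
    have hnn : ∀ j, 0 ≤ coeff j φ * (r * s ^ j - r ^ j * (r + (j : ℝ) * (s - r))) := fun j =>
      mul_nonneg (h.nonneg j) (tangent_nonneg hr.le hsnn j)
    exact le_antisymm (le_hasSum h4 k fun j _ => hnn j) (hnn k)
  have h6 : ∀ k, coeff (k + 2) φ = 0 := by
    intro k
    have h7 := h5 (k + 2)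
    rcases mul_eq_zero.1 h7 with h8 | h8
    · exact h8
    · exact absurd h8 (tangent_pos hr hsnn hne k).ne'
  -- mean
  have h7 : HasSum (fun k : ℕ => (k : ℝ) * (coeff k φ * r ^ k)) (coeff 1 φ * r) := by
    have : ∀ k ∉ range 2, (k : ℝ) * (coeff k φ * r ^ k) = 0 := by
      intro k hk
      rw [Finset.mem_range, not_lt] at hk
      obtain ⟨j, rfl⟩ := Nat.exists_eq_add_of_le' hk
      rw [h6]
      ring
    have h8 : HasSum (fun k : ℕ => (k : ℝ) * (coeff k φ * r ^ k))
        (∑ k ∈ range 2, (k : ℝ) * (coeff k φ * r ^ k)) := hasSum_sum_of_ne_finset_zero this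
    simpa [Finset.sum_range_succ] using h8
  have h8 : HasSum (fun k : ℕ => coeff k φ * r ^ k) (coeff 0 φ + coeff 1 φ * r) := by
    have : ∀ k ∉ range 2, coeff k φ * r ^ k = 0 := by
      intro k hk
      rw [Finset.mem_range, not_lt] at hk
      obtain ⟨j, rfl⟩ := Nat.exists_eq_add_of_le' hk
      rw [h6]
      ring
    have h8 : HasSum (fun k : ℕ => coeff k φ * r ^ k)
        (∑ k ∈ range 2, coeff k φ * r ^ k) := hasSum_sum_of_ne_finset_zero this
    simpa [Finset.sum_range_succ] using h8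
  have h9 := h.mean.unique h7
  rw [h8.tsum_eq] at h9
  have := h.pos0
  linarith

end

theorem lag_total {φ w : PowerSeries ℝ} {r : ℝ} (h : LagData φ w r) (H : PowerSeries ℝ)
    (hH : ∀ k, 0 ≤ coeff k H) (hs : Summable fun k : ℕ => coeff k H * r ^ k) :
    HasSum (fun m : ℕ => coeff m (H.subst w) * (r / ∑' k, coeff k φ * r ^ k) ^ m)
      (∑' k, coeff k H * r ^ k) := by
  have h1 := Lags_total h H hH (by rw [Lags_eq h]; exact hs)
  rw [Lags_eq h] at h1
  exact h1

end Dia
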