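import Mathlib

/-!
# Module Lagr: Lagrange inversion for power series

Let `w` be a power series with constant coefficient `0` and `w = X * φ(w)`.

`lagrange_pow`: for all `m ≥ 1` and all `k`: `m [t^m] w^k = k [u^(m-k)] φ^m` (the right side is `0` if
`k > m`).  Both sides are determined by the same recurrence.  Let `c m k = [t^m] w^k`.  For `k ≥ 1`:
`w^k = w^(k-1) * X * φ(w)`, so `c (m+1) k = sum over j of φ_j c m (k-1+j)` (a finite sum: `c m k = 0` for
`k > m`); `c 0 k = [k = 0]`, `c m 0 = [m = 0]`.  Claim `c m k = (k/m) [u^(m-k)] φ^m` for `m ≥ 1`, induction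
on `m`.  `m = 1`: `c 1 k = sum φ_j c 0 (k-1+j) = φ_0 [k = 1]`; right side `k [u^(1-k)] φ`: `φ_0` for `k = 1`,
`0` for `k = 0` and for `k ≥ 2`.  Step `m → m+1` (`m ≥ 1`), `k ≥ 1`:
`sum_j φ_j ((k-1+j)/m) [u^(m-k+1-j)] φ^m = (1/m) ( (k-1) [u^(m+1-k)] φ^(m+1) + [u^(m+1-k)] (u φ' φ^m) )` and
`u φ' φ^m = u (φ^(m+1))' / (m+1)`, so the last coefficient is `((m+1-k)/(m+1)) [u^(m+1-k)] φ^(m+1)`; the sum
is `(1/m) ((k-1) + (m+1-k)/(m+1)) = k/(m+1)` times `[u^(m+1-k)] φ^(m+1)`.

`lagrange`: `H(w) = sum over k of H_k w^k` (`PowerSeries.coeff_subst` and `HasSubst` from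
`constantCoeff w = 0`); `m [t^m] H(w) = sum_k H_k k [u^(m-k)] φ^m = [u^(m-1)] (H' φ^m)`.
-/

namespace Dia
open PowerSeries Finset

/-- the coefficients of the powers -/
theorem Lagr_low (w : PowerSeries ℝ) (hw0 : constantCoeff w = 0) {m k : ℕ} (h : m < k) :
    coeff m (w ^ k) = 0 := by
  have h1 : (X : PowerSeries ℝ) ∣ w := X_dvd_iff.2 hw0
  exact X_pow_dvd_iff.1 (pow_dvd_pow_of_dvd h1 k) m h

/-- the coefficients of `H(w)` -/
theorem coeff_subst_eq (H w : PowerSeries ℝ) (hw0 : constantCoeff w = 0) (m : ℕ) :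
    coeff m (H.subst w) = ∑ k ∈ range (m + 1), coeff k H * coeff m (w ^ k) := by
  rw [coeff_subst' (HasSubst.of_constantCoeff_zero' hw0)]
  rw [finsum_eq_sum_of_support_subset (s := range (m + 1))]
  · simp only [smul_eq_mul]
  · intro k hk
    rw [Function.mem_support] at hk
    rw [Finset.coe_range, Set.mem_Iio]
    by_contra hlt
    apply hk
    rw [Lagr_low w hw0 (by omega), smul_zero]

/-- the recurrence -/
theorem Lagr_rec (φ w : PowerSeries ℝ) (hw0 : constantCoeff w = 0) (hw : w = X * φ.subst w)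
    (m k : ℕ) (hk : k ≤ m) :
    coeff (m + 1) (w ^ (k + 1)) =
      ∑ j ∈ range (m + 1 - k), coeff j φ * coeff m (w ^ (k + j)) := by
  have hS : HasSubst w := HasSubst.of_constantCoeff_zero' hw0
  have h1 : w ^ (k + 1) = X * ((X ^ k * φ).subst w) := by
    rw [subst_mul hS, subst_pow hS, subst_X hS, pow_succ]
    nth_rewrite 2 [hw]
    ring
  rw [h1, coeff_succ_X_mul, coeff_subst_eq _ _ hw0]
  have h2 : range (m + 1) = range (k + (m + 1 - k)) := by
    congr 1
    omega
  rw [h2, Finset.sum_range_add, Finset.sum_eq_zero, zero_add]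
  · refine Finset.sum_congr rfl fun j _ => ?_
    rw [coeff_X_pow_mul', if_pos (by omega), Nat.add_sub_cancel_left]
  · intro i hi
    rw [Finset.mem_range] at hi
    rw [coeff_X_pow_mul', if_neg (by omega), zero_mul]

/-- the derivative of a power -/
theorem Lagr_der (φ : PowerSeries ℝ) (m n : ℕ) :
    ((m + 1 : ℕ) : ℝ) * ∑ j ∈ range (n + 1), (j : ℝ) * (coeff j φ * coeff (n - j) (φ ^ m)) =
      n * coeff n (φ ^ (m + 1)) := by
  have h1 : coeff n (X * derivative ℝ (φ ^ (m + 1))) = n * coeff n (φ ^ (m + 1)) := by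
    cases n with
    | zero => simp
    | succ n =>
      rw [coeff_succ_X_mul, coeff_derivative]
      push_cast
      ring
  rw [← h1, derivative_pow, Nat.add_sub_cancel]
  have h2 : X * (((m + 1 : ℕ) : PowerSeries ℝ) * φ ^ m * derivative ℝ φ) =
      C ((m + 1 : ℕ) : ℝ) * ((X * derivative ℝ φ) * φ ^ m) := by
    have h3 : ((m + 1 : ℕ) : PowerSeries ℝ) = C ((m + 1 : ℕ) : ℝ) := by simp
    rw [h3]
    ring
  rw [h2, coeff_C_mul, coeff_mul, Finset.Nat.sum_antidiagonal_eq_sum_range_succ_mk]
  congr 1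
  refine Finset.sum_congr rfl fun j _ => ?_
  cases j with
  | zero => simp
  | succ j =>
    simp only
    rw [coeff_succ_X_mul, coeff_derivative]
    push_cast
    ring

theorem lagrange_pow (φ w : PowerSeries ℝ) (hw0 : constantCoeff w = 0) (hw : w = X * φ.subst w)
    (m k : ℕ) (hm : 0 < m) (hk : k ≤ m) :
    (m : ℝ) * coeff m (w ^ k) = k * coeff (m - k) (φ ^ m) := by
  induction m generalizing k with
  | zero => omega
  | succ m ih =>
    cases k with
    | zero =>
      rw [pow_zero, coeff_one, if_neg (by omega)]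
      simp
    | succ k =>
      rw [Lagr_rec φ w hw0 hw m k (by omega)]
      rcases Nat.eq_zero_or_pos m with rfl | hm'
      · have hk0 : k = 0 := by omega
        subst hk0
        simp
      · have h1 : (m : ℝ) * ∑ j ∈ range (m + 1 - k), coeff j φ * coeff m (w ^ (k + j)) =
            ∑ j ∈ range (m - k + 1), ((k : ℝ) * (coeff j φ * coeff (m - k - j) (φ ^ m)) +
              (j : ℝ) * (coeff j φ * coeff (m - k - j) (φ ^ m))) := by
          rw [Finset.mul_sum, show m + 1 - k = m - k + 1 by omega]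
          refine Finset.sum_congr rfl fun j hj => ?_
          rw [Finset.mem_range] at hj
          have h2 := ih (k + j) hm' (by omega)
          rw [show m - (k + j) = m - k - j by omega] at h2
          push_cast at h2
          linear_combination coeff j φ * h2
        rw [Finset.sum_add_distrib, ← Finset.mul_sum] at h1
        have h3 : ∑ j ∈ range (m - k + 1), coeff j φ * coeff (m - k - j) (φ ^ m) =
            coeff (m - k) (φ ^ (m + 1)) := by
          rw [pow_succ', coeff_mul, Finset.Nat.sum_antidiagonal_eq_sum_range_succ_mk]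
        rw [h3] at h1
        have h4 := Lagr_der φ m (m - k)
        have h5 : m + 1 - (k + 1) = m - k := by omega
        rw [h5]
        have h6 : ((m - k : ℕ) : ℝ) = m - k := by
          rw [Nat.cast_sub (by omega)]
        rw [h6] at h4
        have hm0 : (m : ℝ) ≠ 0 := by positivity
        apply mul_left_cancel₀ hm0
        push_cast at h4 ⊢
        linear_combination ((m : ℝ) + 1) * h1 + h4

theorem lagrange (φ w H : PowerSeries ℝ) (hw0 : constantCoeff w = 0) (hw : w = X * φ.subst w)
    (m : ℕ) :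
    ((m + 1 : ℕ) : ℝ) * coeff (m + 1) (H.subst w) =
      coeff m (derivative ℝ H * φ ^ (m + 1)) := by
  rw [coeff_subst_eq H w hw0, Finset.sum_range_succ', pow_zero, coeff_one, if_neg (by omega),
    mul_zero, add_zero, Finset.mul_sum, coeff_mul,
    Finset.Nat.sum_antidiagonal_eq_sum_range_succ_mk]
  refine Finset.sum_congr rfl fun j hj => ?_
  rw [Finset.mem_range] at hj
  have h1 := lagrange_pow φ w hw0 hw (m + 1) (j + 1) (by omega) (by omega)
  rw [show m + 1 - (j + 1) = m - j by omega] at h1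
  simp only
  rw [coeff_derivative]
  push_cast at h1 ⊢
  linear_combination coeff (j + 1) H * h1

/-- uniqueness of the solution -/
theorem lagrange_unique (φ w w' : PowerSeries ℝ) (hw0 : constantCoeff w = 0)
    (hw0' : constantCoeff w' = 0) (hw : w = X * φ.subst w) (hw' : w' = X * φ.subst w') : w = w' := by
  ext m
  cases m with
  | zero =>
    rw [coeff_zero_eq_constantCoeff_apply, coeff_zero_eq_constantCoeff_apply, hw0, hw0']
  | succ m =>
    have h1 := lagrange_pow φ w hw0 hw (m + 1) 1 (by omega) (by omega)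
    have h2 := lagrange_pow φ w' hw0' hw' (m + 1) 1 (by omega) (by omega)
    rw [pow_one] at h1 h2
    have h3 : ((m + 1 : ℕ) : ℝ) ≠ 0 := by positivity
    exact mul_left_cancel₀ h3 (h1.trans h2.symm)

end Dia
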