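import Pool.Agent.DiaB.LowTail

/-!
# Module LowTail: the lower tail (Theorem B)

For every `c > 0` the diameter of the random planar graph with `n` labelled vertices is at most `c n^(1/4)` with
probability at least `η > 0`; the proof is in `Pool.Agent.DiaB.LowTail`.
-/

namespace Dia
open PGr

theorem lower_tail (c : ℝ) (hc : 0 < c) : ∃ η : ℝ, 0 < η ∧ ∃ n0 : ℕ, ∀ n : ℕ, n0 ≤ n →
    η * Nat.card {G : SimpleGraph (Fin n) // IsPlanar G} ≤
      Nat.card {G : SimpleGraph (Fin n) // IsPlanar G ∧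
        ∀ x y, (G.dist x y : ℝ) ≤ c * (n : ℝ) ^ (1 / 4 : ℝ)} :=
  main_B c hc

end Dia
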