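import Pool.Agent.Dia.MCor
import Pool.Agent.Dia.PlanB

/-!
# Module MAdd: the edge parts of a planar graph with a core set are planar with the edge between the poles

See the docstring of module MCor, `cor_add`:  `E` planar: the graph `addp (E.comap (emb2 f e))` is planar.  Let `p`,
`q` be the poles of `e` and `W = Set.range (emb2 f e)`, `C = {v | v ∈ X, v ≠ p, v ≠ q} ∪ {v ∉ X | the attachment set of
the component of v is not contained in {p, q}}`.  Disjoint: a vertex of the fibre of `e` has attachment set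
`{p, q}`.
`E.induce C` is connected: (1) `v ∈ C` outside `X` is connected inside `C` to a vertex of `X \ {p, q}`: let `x ∉ {p, q}` be
an attachment of its component; a walk inside the component (all whose vertices are in `C` as they have the
same component) leads to a neighbour of `x`.  (2) `x, y ∈ X \ {p, q}` with `K.Adj x y` are connected in `E.induce C`:
`E.Adj x y`, or a component with attachment set `{x, y}`, all whose vertices are in `C`.  (3) `K` restricted to
`X \ {p, q}` is connected by `ThreeConn` (`S = {p, q}`), nonempty as `|X| ≥ 4`.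
`p` has a neighbour in `C`: by `three_nbr` there is `x ≠ p, q` with `K.Adj p x`; `E.Adj p x`, or a component with
attachment set `{p, x}`: `p` is adjacent to one of its vertices, which are in `C`.  The same for `q`.
`planar_shortcut` (PlanB) gives: `E.induce W` with the edge `p q` is planar.  `planar_of_hom` (PlanA) with the
injective map `w ↦ ⟨emb2 f e w, _⟩` gives the claim.
-/

set_option linter.unusedSectionVars false

namespace Dia
open PGr

variable {V : Type} [LinearOrder V] [Finite V] {E : SimpleGraph V} {X : Set V} {K : SimpleGraph X}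

/-- the vertices outside the part of the poles `p`, `q` -/
private def MAddC (E : SimpleGraph V) (X : Set V) (p q : X) : Set V :=
  {v | (∃ h : v ∈ X, (⟨v, h⟩ : X) ≠ p ∧ (⟨v, h⟩ : X) ≠ q) ∨
    (∃ h : v ∈ Xᶜ, ¬ att E X (cmp E X ⟨v, h⟩) ⊆ {p, q})}

private theorem MAdd_memX (p q : X) (x : X) : x.1 ∈ MAddC E X p q ↔ x ≠ p ∧ x ≠ q := by
  constructor
  · rintro (⟨_, h⟩ | ⟨h, _⟩)
    · exact h
    · exact absurd x.2 h
  · intro h
    exact Or.inl ⟨x.2, h⟩

private theorem MAdd_memC (p q : X) (a : ↥Xᶜ) :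
    a.1 ∈ MAddC E X p q ↔ ¬ att E X (cmp E X a) ⊆ {p, q} := by
  constructor
  · rintro (⟨h, _⟩ | ⟨_, h⟩)
    · exact absurd h a.2
    · exact h
  · intro h
    exact Or.inr ⟨a.2, h⟩

private theorem MAdd_walk (p q : X) {a b : ↥Xᶜ} (w : (E.induce Xᶜ).Walk a b)
    (ha : a.1 ∈ MAddC E X p q) : ∃ hb : b.1 ∈ MAddC E X p q,
    (E.induce (MAddC E X p q)).Reachable ⟨a.1, ha⟩ ⟨b.1, hb⟩ := by
  induction w with
  | nil => exact ⟨ha, SimpleGraph.Reachable.refl _⟩
  | @cons u v w hadj _ ih =>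
    have hcmp : cmp E X u = cmp E X v := SimpleGraph.ConnectedComponent.eq.2 hadj.reachable
    have hv : v.1 ∈ MAddC E X p q := by
      rw [MAdd_memC, ← hcmp, ← MAdd_memC]
      exact ha
    obtain ⟨hb, h⟩ := ih hv
    have h1 : (E.induce (MAddC E X p q)).Adj ⟨u.1, ha⟩ ⟨v.1, hv⟩ := hadj
    exact ⟨hb, h1.reachable.trans h⟩

private theorem MAdd_att (p q : X) {a : ↥Xᶜ} (ha : a.1 ∈ MAddC E X p q) {x : X}
    (hx : x.1 ∈ MAddC E X p q) (h : x ∈ att E X (cmp E X a)) :
    (E.induce (MAddC E X p q)).Reachable ⟨x.1, hx⟩ ⟨a.1, ha⟩ := by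
  obtain ⟨b, hb, hadj⟩ := (mem_att a x).1 h
  obtain ⟨w⟩ := hb.symm
  obtain ⟨hbC, hr⟩ := MAdd_walk p q w ha
  have h1 : (E.induce (MAddC E X p q)).Adj ⟨x.1, hx⟩ ⟨b.1, hbC⟩ := hadj
  exact h1.reachable.trans hr.symm

private theorem MAdd_adj (hK : torso E X = K) (p q : X) {x y : X} (hx : x.1 ∈ MAddC E X p q)
    (hy : y.1 ∈ MAddC E X p q) (h : K.Adj x y) :
    (E.induce (MAddC E X p q)).Reachable ⟨x.1, hx⟩ ⟨y.1, hy⟩ := by
  subst hK
  obtain ⟨-, h1 | ⟨a, ha⟩⟩ := (torso_adj x y).1 h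
  · have h2 : (E.induce (MAddC E X p q)).Adj ⟨x.1, hx⟩ ⟨y.1, hy⟩ := h1
    exact h2.reachable
  · have haC : a.1 ∈ MAddC E X p q := by
      rw [MAdd_memC, ha]
      intro hsub
      rcases hsub (Set.mem_insert x {y}) with h2 | h2
      · exact ((MAdd_memX p q x).1 hx).1 h2
      · exact ((MAdd_memX p q x).1 hx).2 h2
    have h3 := MAdd_att p q haC hx (by rw [ha]; exact Set.mem_insert _ _)
    have h4 := MAdd_att p q haC hy (by rw [ha]; exact Set.mem_insert_of_mem _ rfl)
    exact h3.trans h4.symm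

private theorem MAdd_conn (hK : torso E X = K) (h3 : ThreeConn K) (p q : X) :
    (E.induce (MAddC E X p q)).Connected := by
  classical
  have hS := h3.2 {p, q} Finset.card_le_two
  have hmem : ∀ x : ↥((({p, q} : Finset X) : Set X)ᶜ), x.1.1 ∈ MAddC E X p q := by
    intro x
    rw [MAdd_memX]
    have h1 := x.2
    simp only [Finset.coe_insert, Finset.coe_singleton, Set.mem_compl_iff, Set.mem_insert_iff,
      Set.mem_singleton_iff, not_or] at h1
    exact h1
  have hwalk : ∀ x y : ↥((({p, q} : Finset X) : Set X)ᶜ),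
      (K.induce ((({p, q} : Finset X) : Set X)ᶜ)).Reachable x y →
      (E.induce (MAddC E X p q)).Reachable ⟨x.1.1, hmem x⟩ ⟨y.1.1, hmem y⟩ := by
    rintro x y ⟨w⟩
    induction w with
    | nil => exact SimpleGraph.Reachable.refl _
    | cons hadj _ ih => exact (MAdd_adj hK p q _ _ hadj).trans ih
  obtain ⟨x0⟩ := hS.nonempty
  have hX : ∀ x : X, ∀ hx : x.1 ∈ MAddC E X p q,
      (E.induce (MAddC E X p q)).Reachable ⟨x.1, hx⟩ ⟨x0.1.1, hmem x0⟩ := by
    intro x hx
    have hx' := (MAdd_memX p q x).1 hx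
    exact hwalk ⟨x, by simp [hx'.1, hx'.2]⟩ x0 (hS.preconnected _ _)
  have hall : ∀ v : ↥(MAddC E X p q),
      (E.induce (MAddC E X p q)).Reachable v ⟨x0.1.1, hmem x0⟩ := by
    rintro ⟨v, hv⟩
    by_cases hvX : v ∈ X
    · exact hX ⟨v, hvX⟩ hv
    · have h1 := (MAdd_memC p q ⟨v, hvX⟩).1 hv
      obtain ⟨x, hx, hxn⟩ := Set.not_subset.1 h1
      have hxC : x.1 ∈ MAddC E X p q := by
        rw [MAdd_memX]
        exact ⟨fun h => hxn (Or.inl h), fun h => hxn (Or.inr h)⟩
      exact (MAdd_att p q (a := ⟨v, hvX⟩) hv hxC hx).symm.trans (hX x hxC)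
  exact { preconnected := fun u v => (hall u).trans (hall v).symm
          nonempty := ⟨⟨x0.1.1, hmem x0⟩⟩ }

private theorem MAdd_nbr (hK : torso E X = K) (h3 : ThreeConn K) (p q r s : X) (hrs : r ≠ s)
    (h : ∀ x : X, x ≠ r → x ≠ s → x ≠ p ∧ x ≠ q) : ∃ a ∈ MAddC E X p q, E.Adj r.1 a := by
  obtain ⟨x, hxr, hxs, hadj⟩ := three_nbr h3 hrs
  have hx := (MAdd_memX (E := E) p q x).2 (h x hxr hxs)
  subst hK
  obtain ⟨-, h1 | ⟨a, ha⟩⟩ := (torso_adj r x).1 hadj
  · exact ⟨x.1, hx, h1⟩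
  · have haC : a.1 ∈ MAddC E X p q := by
      rw [MAdd_memC, ha]
      intro hsub
      rcases hsub (Set.mem_insert_of_mem r (Set.mem_singleton x)) with h2 | h2
      · exact (h x hxr hxs).1 h2
      · exact (h x hxr hxs).2 h2
    obtain ⟨b, hb, hadj'⟩ := (mem_att a r).1 (by rw [ha]; exact Set.mem_insert _ _)
    obtain ⟨w⟩ := hb.symm
    obtain ⟨hbC, -⟩ := MAdd_walk p q w haC
    exact ⟨b.1, hbC, hadj'⟩

theorem cor_add {f : ↥Xᶜ → Idx K} (hE : IsPlanar E) (hK : torso E X = K) (h3 : ThreeConn K)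
    (hf : IsIx E K f) (e : K.edgeSet) : IsPlanar (addp (E.comap (emb2 f e))) := by
  have hpq := pole_ne e
  have hW : Disjoint (Set.range (emb2 f e)) (MAddC E X (pole e.1 false) (pole e.1 true)) := by
    rw [Set.disjoint_left]
    rintro _ ⟨a | b, rfl⟩ hC
    · have h1 : a.1.1 ∈ MAddC E X (pole e.1 false) (pole e.1 true) := hC
      rw [MAdd_memC, ← hf, a.2, ends_edge] at h1
      exact h1 subset_rfl
    · have h1 : (pole e.1 b).1 ∈ MAddC E X (pole e.1 false) (pole e.1 true) := hC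
      rw [MAdd_memX] at h1
      cases b
      · exact h1.1 rfl
      · exact h1.2 rfl
  have hne : (⟨(pole e.1 false).1, Sum.inr false, rfl⟩ : Set.range (emb2 f e)) ≠
      ⟨(pole e.1 true).1, Sum.inr true, rfl⟩ :=
    fun h => hpq (Subtype.ext (congrArg (fun z : Set.range (emb2 f e) => z.1) h))
  have h := planar_shortcut hE (Set.range (emb2 f e)) _ hW
    ⟨(pole e.1 false).1, Sum.inr false, rfl⟩ ⟨(pole e.1 true).1, Sum.inr true, rfl⟩ hne
    (MAdd_conn hK h3 _ _) (MAdd_nbr hK h3 _ _ _ _ hpq fun x h1 h2 => ⟨h1, h2⟩)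
    (MAdd_nbr hK h3 _ _ _ _ hpq.symm fun x h1 h2 => ⟨h2, h1⟩)
  refine planar_of_hom (fun z => (⟨emb2 f e z, z, rfl⟩ : Set.range (emb2 f e))) ?_ ?_ h
  · intro a b hab
    exact emb2_inj f e (congrArg Subtype.val hab)
  · intro a b hab
    rw [SimpleGraph.sup_adj]
    rcases hab with h1 | h1
    · left
      exact h1
    · right
      rw [SimpleGraph.edge_adj] at h1 ⊢
      rcases h1.1 with ⟨rfl, rfl⟩ | ⟨rfl, rfl⟩
      · exact ⟨Or.inl ⟨rfl, rfl⟩, hne⟩
      · exact ⟨Or.inr ⟨rfl, rfl⟩, hne.symm⟩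

end Dia
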