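import Pool.Agent.Dia.MFit

/-!
# Module MCor: the parts of a graph with a core set

`E`, `X` with `IsCore E X`, `torso E X = K`, `f` with `IsIx E K f` (it exists: `exists_ix` after `subst`).

`cor_fits`: `inn`: an edge of `E` inside `X` is an edge of the torso.  `mid`: `E.Adj a x`: `x` is an attachment of the
component of `a` (`mem_att` with `b = a`), i.e. `x ∈ ends K (f a)`.  `out`: adjacent vertices outside are in the same
component, so `ends K (f a) = ends K (f a')`, and `ends_inj`.

`cor_conn`: (conn x) every `some a` is connected to `none` in `E.comap (emb1 f x)`: `att E X (cmp E X a) = {x}`, so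
(`mem_att`) there is `b`, connected to `a` outside `X`, with `E.Adj x b`; `f b = f a` by `Fits.reach`, and `b` is
connected to `a` inside the fibre (`fib_reach`).  (ne e) the poles `p`, `q` of `e` are adjacent in the torso: either
`E.Adj p q`: an edge between the poles in `E.comap (emb2 f e)`; or `att E X (cmp E X a) = {p, q}` for some `a`, so
`f a = e` (`ends_inj`, `ends_edge`), and `p` is adjacent to some `b` in the component of `a`, `f b = f a = e`.
(att2 e) by `att2_iff`: `a` in the fibre of `e`: `att E X (cmp E X a) = ends K e` contains both poles; as in (conn x).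

`cor_add`: `E` planar: the graph `addp (E.comap (emb2 f e))` is planar.  Let `p`, `q` be the poles of `e` and
`W = Set.range (emb2 f e)`, `C = {v | v ∈ X, v ≠ p, v ≠ q} ∪ {v ∉ X | the attachment set of the component of v is not
contained in {p, q}}`.  Disjoint: a vertex of the fibre of `e` has attachment set `{p, q}`.
`E.induce C` is connected: (1) `v ∈ C` outside `X` is connected inside `C` to a vertex of `X \ {p, q}`: let `x ∉ {p, q}` be
an attachment of its component; a walk inside the component (all whose vertices are in `C` as they have the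
same component) leads to a neighbour of `x`.  (2) `x, y ∈ X \ {p, q}` with `K.Adj x y` are connected in `E.induce C`:
`E.Adj x y`, or a component with attachment set `{x, y}`, all whose vertices are in `C`.  (3) `K` restricted to
`X \ {p, q}` is connected by `ThreeConn` (`S = {p, q}`), nonempty as `|X| ≥ 4`.
`p` has a neighbour in `C`: by `three_nbr` there is `x ≠ p, q` with `K.Adj p x`; `E.Adj p x`, or a component with
attachment set `{p, x}`: `p` is adjacent to one of its vertices, which are in `C`.  The same for `q`.
`planar_shortcut` (PlanB) gives: `E.induce W` with the edge `p q` is planar.  `planar_of_hom` with the injective map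
`w ↦ ⟨emb2 f e w, _⟩` gives the claim.
-/

set_option linter.unusedSectionVars false

namespace Dia
open PGr

variable {V : Type} [LinearOrder V] {E : SimpleGraph V} {X : Set V} {K : SimpleGraph X}

theorem cor_fits {f : ↥Xᶜ → Idx K} (hK : torso E X = K) (hf : IsIx E K f) : Fits E K f := by
  subst hK
  refine ⟨fun x y h => ?_, fun a x h => ?_, fun a a' h => ?_⟩
  · exact (torso_adj x y).2 ⟨fun hxy => h.ne (congrArg Subtype.val hxy), Or.inl h⟩
  · rw [hf a]
    exact (mem_att a x).2 ⟨a, SimpleGraph.Reachable.refl _, h.symm⟩
  · apply ends_inj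
    have h1 : cmp E X a = cmp E X a' := by
      have h2 : (E.induce Xᶜ).Adj a a' := h
      exact SimpleGraph.ConnectedComponent.eq.2 h2.reachable
    rw [hf a, hf a', h1]

theorem cor_conn {f : ↥Xᶜ → Idx K} (hK : torso E X = K) (hf : IsIx E K f) : Conn3 E K f := by
  have hfit := cor_fits hK hf
  subst hK
  have key : ∀ (a : ↥Xᶜ) (x : X), x ∈ ends (torso E X) (f a) →
      ∃ b : {b // f b = f a}, (E.comap fun z : {b // f b = f a} => z.1.1).Reachable b ⟨a, rfl⟩ ∧
        E.Adj x.1 b.1.1 := by
    intro a x hx
    rw [hf a] at hx
    obtain ⟨b, hb1, hb2⟩ := (mem_att a x).1 hx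
    exact ⟨⟨b, hfit.reach hb1⟩, (fib_reach hfit _ ⟨b, hfit.reach hb1⟩ ⟨a, rfl⟩).2 hb1, hb2⟩
  have key' : ∀ (i : Idx (torso E X)) (a : {a // f a = i}) (x : X), x ∈ ends (torso E X) i →
      ∃ b : {b // f b = i}, (E.comap fun z : {b // f b = i} => z.1.1).Reachable b a ∧
        E.Adj x.1 b.1.1 := by
    rintro i ⟨a, rfl⟩ x hx
    exact key a x hx
  refine ⟨fun x => ?_, fun e => ?_, fun e => ?_⟩
  · have h1 : ∀ o, (E.comap (emb1 f x)).Reachable o none := by
      rintro (_ | a)
      · exact SimpleGraph.Reachable.refl _
      · obtain ⟨b, hb1, hb2⟩ := key' (.inl x) a x (by rw [ends_inl]; exact rfl)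
        let φ : (E.comap fun z : {b // f b = .inl x} => z.1.1) →g E.comap (emb1 f x) :=
          ⟨fun z => some z, fun h => h⟩
        have h2 : (E.comap (emb1 f x)).Reachable (some b) (some a) := hb1.map φ
        have h3 : (E.comap (emb1 f x)).Adj (some b) none := hb2.symm
        exact h2.symm.trans h3.reachable
    have h2 : (E.comap (emb1 f x)).Preconnected := fun u v => (h1 u).trans (h1 v).symm
    exact { preconnected := h2, nonempty := ⟨none⟩ }
  · apply SimpleGraph.ne_bot_iff_exists_adj.2
    obtain ⟨hne, h1 | ⟨a, ha⟩⟩ := (torso_adj _ _).1 (pole_adj e)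
    · exact ⟨Sum.inr false, Sum.inr true, h1⟩
    · have h2 : f a = .inr (.inl e) := by
        apply ends_inj
        rw [hf a, ha, ends_edge]
      obtain ⟨b, -, hb2⟩ := key' (.inr (.inl e)) ⟨a, h2⟩ (pole e.1 false) (by
        rw [ends_edge]
        exact Set.mem_insert _ _)
      exact ⟨Sum.inr false, Sum.inl b, hb2⟩
  · rw [att2_iff]
    intro a b
    obtain ⟨a', h1, h2⟩ := key' (.inr (.inl e)) a (pole e.1 b) (by
      rw [ends_edge]
      cases b
      · exact Set.mem_insert _ _
      · exact Set.mem_insert_of_mem _ rfl)
    exact ⟨a', h1, h2.symm⟩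

end Dia
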