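import Pool.Agent.Dia.GDefs

/-!
# Master bijection: definitions and basic lemmas

`X` is a subset of the linearly ordered vertex set `V`, `K` a graph on `X`, `f : Xᶜ → Idx K` distributes the
other vertices.  The part of index `i` lives on the fibre `{a // f a = i}` together with the ends of `i`.
-/

set_option linter.unusedSectionVars false

namespace Dia
open PGr Finset

section defs
variable {V : Type} [LinearOrder V] {X : Set V}

/-- the ends of an index: a vertex, the two ends of an edge, nothing -/
def ends (K : SimpleGraph X) : Idx K → Set X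
  | .inl x => {x}
  | .inr (.inl e) => {x | x ∈ e.1}
  | .inr (.inr _) => ∅

/-- the smaller end (`false`) and the larger end (`true`) of an edge -/
def pole (e : Sym2 X) (b : Bool) : X := if b then e.sup else e.inf

/-- the rest -/
def emb0 {K : SimpleGraph X} (f : ↥Xᶜ → Idx K) : {a // f a = .inr (.inr ())} → V := fun a => a.1.1

/-- the part at the vertex `x` -/
def emb1 {K : SimpleGraph X} (f : ↥Xᶜ → Idx K) (x : X) : Option {a // f a = .inl x} → V :=
  fun o => o.elim x.1 fun a => a.1.1

/-- the part at the edge `e` -/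
def emb2 {K : SimpleGraph X} (f : ↥Xᶜ → Idx K) (e : K.edgeSet) :
    {a // f a = .inr (.inl e)} ⊕ Bool → V :=
  Sum.elim (fun a => a.1.1) fun b => (pole e.1 b).1

/-- the component of a vertex outside `X` -/
abbrev cmp (E : SimpleGraph V) (X : Set V) (a : ↥Xᶜ) : OutC E X :=
  (E.induce Xᶜ).connectedComponentMk a

/-- all edges of `E` are edges of `K` (as far as they are in `X`) or edges of the parts -/
structure Fits (E : SimpleGraph V) (K : SimpleGraph X) (f : ↥Xᶜ → Idx K) : Prop where
  inn : ∀ x y : X, E.Adj x.1 y.1 → K.Adj x y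
  mid : ∀ (a : ↥Xᶜ) (x : X), E.Adj a.1 x.1 → x ∈ ends K (f a)
  out : ∀ a a' : ↥Xᶜ, E.Adj a.1 a'.1 → f a = f a'

/-- the parts are connected to their ends -/
structure Conn3 (E : SimpleGraph V) (K : SimpleGraph X) (f : ↥Xᶜ → Idx K) : Prop where
  conn : ∀ x : X, (E.comap (emb1 f x)).Connected
  ne : ∀ e : K.edgeSet, E.comap (emb2 f e) ≠ ⊥
  att2 : ∀ e : K.edgeSet, Att2 (E.comap (emb2 f e))

/-- the indices of `f` are given by the attachments of the components -/
def IsIx (E : SimpleGraph V) (K : SimpleGraph X) (f : ↥Xᶜ → Idx K) : Prop :=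
  ∀ a, ends K (f a) = att E X (cmp E X a)

/-- the parts, as structures -/
structure Parts (E : SimpleGraph V) (K : SimpleGraph X) (f : ↥Xᶜ → Idx K)
    (s : ∀ i, Str K i {a // f a = i}) : Prop where
  vert : ∀ x : X, (s (.inl x)).1 = E.comap (emb1 f x)
  edge : ∀ e : K.edgeSet, (s (.inr (.inl e))).1 = E.comap (emb2 f e)
  rest : (s (.inr (.inr ()))).1 = E.comap (emb0 f)

end defs

/-! ### poles and ends -/

section lemmas
variable {V : Type} [LinearOrder V] {X : Set V} {K : SimpleGraph X}

@[simp] theorem pole_false (x y : X) : pole s(x, y) false = x ⊓ y := rfl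
@[simp] theorem pole_true (x y : X) : pole s(x, y) true = x ⊔ y := rfl

theorem pole_pair (e : Sym2 X) : s(pole e false, pole e true) = e := by
  induction e using Sym2.ind with
  | _ x y =>
    rcases le_total x y with h | h
    · simp [h]
    · simp [h, Sym2.eq_swap]

theorem pole_adj (e : K.edgeSet) : K.Adj (pole e.1 false) (pole e.1 true) := by
  have h := e.2
  rw [← pole_pair e.1] at h
  exact h

theorem pole_ne (e : K.edgeSet) : pole e.1 false ≠ pole e.1 true := (pole_adj e).ne

theorem ends_inl (x : X) : ends K (.inl x) = {x} := rfl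

theorem ends_edge (e : K.edgeSet) :
    ends K (.inr (.inl e)) = {pole e.1 false, pole e.1 true} := by
  ext x
  change x ∈ e.1 ↔ _
  conv_lhs => rw [← pole_pair e.1]
  simp

theorem ends_rest (u : Unit) : ends K (.inr (.inr u)) = ∅ := rfl

theorem ends_mk {x y : X} (h : K.Adj x y) : ends K (.inr (.inl ⟨s(x, y), h⟩)) = {x, y} := by
  ext z
  change z ∈ s(x, y) ↔ _
  simp

theorem ends_inj : Function.Injective (ends K) := by
  have key : ∀ (x : X) (e : K.edgeSet), ({x} : Set X) ≠ {pole e.1 false, pole e.1 true} := by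
    intro x e h
    have h1 : pole e.1 false ∈ ({x} : Set X) := by rw [h]; simp
    have h2 : pole e.1 true ∈ ({x} : Set X) := by rw [h]; simp
    exact pole_ne e (h1.trans h2.symm)
  rintro (x | e | u) (x' | e' | u') h
  · rw [ends_inl, ends_inl, Set.singleton_eq_singleton_iff] at h
    rw [h]
  · rw [ends_inl, ends_edge] at h
    exact absurd h (key x e')
  · rw [ends_inl, ends_rest] at h
    exact absurd h (Set.singleton_ne_empty x)
  · rw [ends_inl, ends_edge] at h
    exact absurd h.symm (key x' e)
  · have : e = e' := by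
      apply Subtype.ext
      apply Sym2.ext
      intro x
      exact Set.ext_iff.1 h x
    rw [this]
  · rw [ends_rest, ends_edge] at h
    exact absurd h (Set.Nonempty.ne_empty ⟨_, Set.mem_insert _ _⟩)
  · rw [ends_inl, ends_rest] at h
    exact absurd h.symm (Set.singleton_ne_empty x')
  · rw [ends_rest, ends_edge] at h
    exact absurd h.symm (Set.Nonempty.ne_empty ⟨_, Set.mem_insert _ _⟩)
  · rfl

/-- every set with at most two elements which is an edge if it has two elements is a set of ends -/
theorem exists_ends (s : Set X) (h : ∃ x y, s ⊆ {x, y})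
    (hK : ∀ x y, s = {x, y} → x ≠ y → K.Adj x y) : ∃ i : Idx K, ends K i = s := by
  obtain ⟨x, y, hs⟩ := h
  by_cases hx : x ∈ s
  · by_cases hy : y ∈ s
    · have hxy : s = {x, y} := hs.antisymm (by rintro z (rfl | rfl) <;> assumption)
      by_cases hne : x = y
      · refine ⟨.inl x, ?_⟩
        rw [hxy, ends_inl, hne, Set.pair_eq_singleton]
      · exact ⟨.inr (.inl ⟨s(x, y), hK x y hxy hne⟩), by rw [ends_mk, hxy]⟩
    · refine ⟨.inl x, ?_⟩
      rw [ends_inl]
      ext z
      constructor
      · rintro rfl; exact hx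
      · intro hz
        rcases hs hz with h | h
        · exact h
        · rw [Set.mem_singleton_iff] at h
          subst h
          exact absurd hz hy
  · by_cases hy : y ∈ s
    · refine ⟨.inl y, ?_⟩
      rw [ends_inl]
      ext z
      constructor
      · rintro rfl; exact hy
      · intro hz
        rcases hs hz with h | h
        · rw [h] at hz
          exact absurd hz hx
        · exact h
    · refine ⟨.inr (.inr ()), ?_⟩
      rw [ends_rest]
      ext z
      constructor
      · intro h; exact absurd h (Set.notMem_empty z)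
      · intro hz
        rcases hs hz with h | h
        · rw [h] at hz
          exact absurd hz hx
        · rw [Set.mem_singleton_iff] at h
          subst h
          exact absurd hz hy

/-! ### the embeddings -/

theorem emb0_inj (f : ↥Xᶜ → Idx K) : Function.Injective (emb0 f) :=
  fun _ _ h => Subtype.ext (Subtype.ext h)

theorem emb1_inj (f : ↥Xᶜ → Idx K) (x : X) : Function.Injective (emb1 f x) := by
  rintro (_ | a) (_ | b) h
  · rfl
  · exact absurd (show b.1.1 ∈ X from (show x.1 = b.1.1 from h) ▸ x.2) b.1.2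
  · exact absurd (show a.1.1 ∈ X from (show a.1.1 = x.1 from h) ▸ x.2) a.1.2
  · exact congrArg some (Subtype.ext (Subtype.ext h))

theorem emb2_inj (f : ↥Xᶜ → Idx K) (e : K.edgeSet) : Function.Injective (emb2 f e) := by
  rintro (a | b) (a' | b') h
  · exact congrArg Sum.inl (Subtype.ext (Subtype.ext h))
  · exact absurd (show a.1.1 ∈ X from (show a.1.1 = (pole e.1 b').1 from h) ▸ (pole e.1 b').2) a.1.2
  · exact absurd (show a'.1.1 ∈ X from (show (pole e.1 b).1 = a'.1.1 from h) ▸ (pole e.1 b).2)
      a'.1.2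
  · have h1 : pole e.1 b = pole e.1 b' := Subtype.ext h
    have h2 := pole_ne e
    cases b <;> cases b' <;> simp_all

/-! ### components and attachments -/

theorem mem_att {E : SimpleGraph V} {X : Set V} (a : ↥Xᶜ) (x : X) :
    x ∈ att E X (cmp E X a) ↔ ∃ b : ↥Xᶜ, (E.induce Xᶜ).Reachable b a ∧ E.Adj x.1 b.1 := by
  constructor
  · rintro ⟨b, hb, h⟩
    exact ⟨b, SimpleGraph.ConnectedComponent.eq.1 hb, h⟩
  · rintro ⟨b, hb, h⟩
    exact ⟨b, SimpleGraph.ConnectedComponent.eq.2 hb, h⟩

theorem exists_cmp {E : SimpleGraph V} {X : Set V} (C : OutC E X) : ∃ a, C = cmp E X a := by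
  induction C using SimpleGraph.ConnectedComponent.ind with
  | _ a => exact ⟨a, rfl⟩

/-- in `Fits`, the index is constant on components -/
theorem Fits.reach {E : SimpleGraph V} {f : ↥Xᶜ → Idx K} (h : Fits E K f) {a b : ↥Xᶜ}
    (hab : (E.induce Xᶜ).Reachable a b) : f a = f b := by
  obtain ⟨p⟩ := hab
  induction p with
  | nil => rfl
  | cons hadj _ ih => exact (h.out _ _ hadj).trans ih

theorem torso_adj {E : SimpleGraph V} {X : Set V} (x y : X) :
    (torso E X).Adj x y ↔ x ≠ y ∧ (E.Adj x.1 y.1 ∨ ∃ a : ↥Xᶜ, att E X (cmp E X a) = {x, y}) := by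
  constructor
  · rintro ⟨h, h1 | ⟨C, hC⟩⟩
    · exact ⟨h, Or.inl h1⟩
    · obtain ⟨a, rfl⟩ := exists_cmp C
      exact ⟨h, Or.inr ⟨a, hC⟩⟩
  · rintro ⟨h, h1 | ⟨a, ha⟩⟩
    · exact ⟨h, Or.inl h1⟩
    · exact ⟨h, Or.inr ⟨_, ha⟩⟩

/-- every component with at most two attachments has an index -/
theorem exists_ix {E : SimpleGraph V} {X : Set V}
    (h : ∀ C : OutC E X, ∃ x y, att E X C ⊆ {x, y}) :
    ∃ f : ↥Xᶜ → Idx (torso E X), IsIx E (torso E X) f := by
  have h1 : ∀ a : ↥Xᶜ, ∃ i : Idx (torso E X), ends (torso E X) i = att E X (cmp E X a) :=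
    fun a => exists_ends _ (h _) fun x y hxy hne => (torso_adj x y).2 ⟨hne, Or.inr ⟨a, hxy⟩⟩
  choose f hf using h1
  exact ⟨f, hf⟩

theorem IsIx.unique {E : SimpleGraph V} {f g : ↥Xᶜ → Idx K} (hf : IsIx E K f) (hg : IsIx E K g) :
    f = g := by
  funext a
  exact ends_inj ((hf a).trans (hg a).symm)

end lemmas

end Dia
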