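import Pool.Agent.Dia.MThree

/-!
# Module MFit: a graph composed of parts has the core set `X`

`fib_reach`: (i) a walk in the graph induced outside `X` stays in the fibre of `f` (`Fits.reach`), so it is a walk
in the graph on the fibre; induction on the walk.  (ii) the other direction: the map `a ↦ a.1` is a
homomorphism.  `root_nbr`: `G` connected on `Option A`: from every `a` a walk to `none`; take the part up to the
first visit of `none` (induction on the walk): `some b`, connected to `some a` inside `A`, is adjacent to `none`.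
`att2_iff` is `Att2` without components.

`fit_ix`: `Fits`, `Conn3` imply `IsIx`.  Let `a : ↥Xᶜ`, `i = f a`; show `ends K i = att E X (cmp E X a)`.
(⊇) `x` an attachment: `mem_att` gives `b` connected to `a` outside `X`, `E.Adj x b`; `x ∈ ends K (f b)` (`mid`),
`f b = f a` (`Fits.reach`).
(⊆) `i = inl x`: `root_nbr` for the connected graph `E.comap (emb1 f x)` gives `b` in the fibre, connected to `a`
inside the fibre, adjacent to `x`; so `x` is an attachment (`mem_att`, `fib_reach`).  `i = inr (inl e)`: both poles
are attachments by `Att2`.  `i` = rest: `ends = ∅`.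

`fit_torso`: `torso E X = K`: (→) `torso_adj`: an edge of `E` is an edge of `K` (`inn`); if
`att E X (cmp E X a) = {x, y}`, `x ≠ y`, then `ends K (f a) = {x, y}`, so `f a` is an edge `e` with
`{pole e false, pole e true} = {x, y}` and `K.Adj x y` (`pole_adj`).  (←) `K.Adj x y`: let `e` be this edge; the graph
`E.comap (emb2 f e)` has an edge; if the fibre of `e` contains some `a` then `att E X (cmp E X a) = ends K e = {x, y}`
(`ends_mk`); otherwise the edge joins the two poles, so `E.Adj x y`.

`fit_core`: `IsCore E X`: every component is `cmp E X a` (`exists_cmp`), with attachment set `ends K (f a)`, which is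
contained in a set `{x, y}` (`X` is not empty because `K` is 3-connected); the torso is `K`.
-/

set_option linter.unusedSectionVars false

namespace Dia
open PGr

variable {V : Type} [LinearOrder V] {E : SimpleGraph V} {X : Set V} {K : SimpleGraph X}

theorem fib_reach {f : ↥Xᶜ → Idx K} (h : Fits E K f) (i : Idx K) (a b : {a // f a = i}) :
    (E.comap fun z : {a // f a = i} => z.1.1).Reachable a b ↔ (E.induce Xᶜ).Reachable a.1 b.1 := by
  constructor
  · intro hab
    let φ : (E.comap fun z : {a // f a = i} => z.1.1) →g E.induce Xᶜ := ⟨fun z => z.1, fun h => h⟩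
    exact hab.map φ
  · have key : ∀ (u v : ↥Xᶜ) (_ : (E.induce Xᶜ).Walk u v) (hu : f u = i) (hv : f v = i),
        (E.comap fun z : {a // f a = i} => z.1.1).Reachable ⟨u, hu⟩ ⟨v, hv⟩ := by
      intro u v p
      induction p with
      | nil => exact fun _ _ => SimpleGraph.Reachable.refl _
      | @cons u w v hadj p ih =>
        intro hu hv
        have hw : f w = i := (h.out u w hadj).symm.trans hu
        have h1 : (E.comap fun z : {a // f a = i} => z.1.1).Adj ⟨u, hu⟩ ⟨w, hw⟩ := hadj
        exact h1.reachable.trans (ih hw hv)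
    rintro ⟨p⟩
    exact key a.1 b.1 p a.2 b.2

theorem root_nbr {A : Type} {G : SimpleGraph (Option A)} (h : G.Connected) (a : A) :
    ∃ b, (G.comap some).Reachable b a ∧ G.Adj (some b) none := by
  have key : ∀ (x y : Option A) (_ : G.Walk x y), y = none → ∀ a, x = some a →
      ∃ b, (G.comap some).Reachable b a ∧ G.Adj (some b) none := by
    intro x y p
    induction p with
    | nil =>
      intro h1 a h2
      rw [h1] at h2
      cases h2
    | @cons x w y hadj p ih =>
      intro h1 a h2
      subst h2
      rcases w with _ | c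
      · exact ⟨a, SimpleGraph.Reachable.refl _, hadj⟩
      · obtain ⟨b, hb1, hb2⟩ := ih h1 c rfl
        have h3 : (G.comap some).Adj c a := hadj.symm
        exact ⟨b, hb1.trans h3.reachable, hb2⟩
  obtain ⟨p⟩ := h.preconnected (some a) none
  exact key _ _ p rfl a rfl

theorem att2_iff {A : Type} (G : SimpleGraph (A ⊕ Bool)) :
    Att2 G ↔ ∀ (a : A) (b : Bool), ∃ a', (G.comap Sum.inl).Reachable a' a ∧
      G.Adj (Sum.inl a') (Sum.inr b) := by
  constructor
  · intro h a b
    obtain ⟨a', h1, h2⟩ := h ((G.comap Sum.inl).connectedComponentMk a) b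
    exact ⟨a', SimpleGraph.ConnectedComponent.eq.1 h1, h2⟩
  · intro h C b
    induction C using SimpleGraph.ConnectedComponent.ind with
    | _ a =>
      obtain ⟨a', h1, h2⟩ := h a b
      exact ⟨a', SimpleGraph.ConnectedComponent.eq.2 h1, h2⟩

theorem fit_ix {f : ↥Xᶜ → Idx K} (h : Fits E K f) (hc : Conn3 E K f) : IsIx E K f := by
  intro a
  apply Set.Subset.antisymm
  · rcases hi : f a with x | e | u
    · rw [ends_inl]
      intro y hy
      rw [Set.mem_singleton_iff] at hy
      rw [hy]
      obtain ⟨b, hb1, hb2⟩ := root_nbr (hc.conn x) ⟨a, hi⟩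
      have h1 : (E.comap fun z : {a // f a = .inl x} => z.1.1).Reachable b ⟨a, hi⟩ := hb1
      refine (mem_att a x).2 ⟨b.1, (fib_reach h _ b ⟨a, hi⟩).1 h1, ?_⟩
      exact hb2.symm
    · have h0 : ∀ b : Bool, pole e.1 b ∈ att E X (cmp E X a) := by
        intro b
        obtain ⟨a', h1, h2⟩ := (att2_iff _).1 (hc.att2 e) ⟨a, hi⟩ b
        have h3 : (E.comap fun z : {a // f a = .inr (.inl e)} => z.1.1).Reachable a' ⟨a, hi⟩ := h1
        refine (mem_att a _).2 ⟨a'.1, (fib_reach h _ a' ⟨a, hi⟩).1 h3, ?_⟩
        exact h2.symm
      rw [ends_edge]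
      rintro _ (rfl | rfl)
      · exact h0 false
      · exact h0 true
    · rw [ends_rest]
      exact Set.empty_subset _
  · intro x hx
    obtain ⟨b, hb1, hb2⟩ := (mem_att a x).1 hx
    have h1 := h.mid b x hb2.symm
    rwa [h.reach hb1] at h1

theorem fit_torso {f : ↥Xᶜ → Idx K} (h : Fits E K f) (hc : Conn3 E K f) : torso E X = K := by
  have hix := fit_ix h hc
  ext x y
  rw [torso_adj]
  constructor
  · rintro ⟨hne, h1 | ⟨a, ha⟩⟩
    · exact h.inn x y h1
    · rw [← hix a] at ha
      rcases hi : f a with z | e | u
      · rw [hi, ends_inl] at ha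
        have hx : x ∈ ({z} : Set X) := by rw [ha]; simp
        have hy : y ∈ ({z} : Set X) := by rw [ha]; simp
        exact absurd (hx.trans hy.symm) hne
      · rw [hi, ends_edge] at ha
        have hx : x ∈ ({pole e.1 false, pole e.1 true} : Set X) := by rw [ha]; simp
        have hy : y ∈ ({pole e.1 false, pole e.1 true} : Set X) := by rw [ha]; simp
        have hadj := pole_adj e
        rcases hx with rfl | hx <;> rcases hy with rfl | hy
        · exact absurd rfl hne
        · rw [Set.mem_singleton_iff] at hy
          rw [hy]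
          exact hadj
        · rw [Set.mem_singleton_iff] at hx
          rw [hx]
          exact hadj.symm
        · rw [Set.mem_singleton_iff] at hx hy
          exact absurd (hx.trans hy.symm) hne
      · rw [hi, ends_rest] at ha
        have hx : x ∈ (∅ : Set X) := by rw [ha]; simp
        exact absurd hx (Set.notMem_empty x)
  · intro hxy
    refine ⟨hxy.ne, ?_⟩
    have hends := ends_mk hxy
    obtain ⟨u, v, huv⟩ := SimpleGraph.ne_bot_iff_exists_adj.1 (hc.ne ⟨s(x, y), hxy⟩)
    have hfib : ∀ a : {a // f a = .inr (.inl ⟨s(x, y), hxy⟩)},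
        ∃ a : ↥Xᶜ, att E X (cmp E X a) = {x, y} := by
      intro a
      refine ⟨a.1, ?_⟩
      rw [← hix a.1, a.2, hends]
    rcases u with a | b
    · exact Or.inr (hfib a)
    · rcases v with a | b'
      · exact Or.inr (hfib a)
      · left
        have h1 : E.Adj (pole s(x, y) b).1 (pole s(x, y) b').1 := huv
        have h2 : pole s(x, y) b ≠ pole s(x, y) b' := fun h => h1.ne (congrArg Subtype.val h)
        have hp := pole_pair s(x, y)
        have h3 : E.Adj (pole s(x, y) false).1 (pole s(x, y) true).1 := by
          cases b <;> cases b'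
          · exact absurd rfl h2
          · exact h1
          · exact h1.symm
          · exact absurd rfl h2
        rcases Sym2.eq_iff.1 hp with ⟨h4, h5⟩ | ⟨h4, h5⟩
        · rw [h4, h5] at h3
          exact h3
        · rw [h4, h5] at h3
          exact h3.symm

theorem fit_core {f : ↥Xᶜ → Idx K} (h : Fits E K f) (hc : Conn3 E K f) (hK : ThreeConn K) :
    IsCore E X := by
  have hix := fit_ix h hc
  refine ⟨fun C => ?_, ?_⟩
  · obtain ⟨a, rfl⟩ := exists_cmp C
    rw [← hix a]
    rcases hi : f a with z | e | u
    · exact ⟨z, z, by rw [ends_inl]; simp⟩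
    · exact ⟨_, _, by rw [ends_edge]⟩
    · have hne : Nonempty X := by
        by_contra hemp
        rw [not_nonempty_iff] at hemp
        have := hK.1
        rw [Nat.card_of_isEmpty] at this
        omega
      obtain ⟨x⟩ := hne
      exact ⟨x, x, by rw [ends_rest]; exact Set.empty_subset _⟩
  · rw [fit_torso h hc]
    exact hK

end Dia
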