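import Pool.Agent.Dia.MDefs
import Pool.Agent.Dia.PlanD

/-!
# Module MGlue: a graph composed of planar parts is planar

Let `H : SimpleGraph V` be `E` together with the edges of `K` (`E ⊔ K.map Subtype.val`, or the relation
`E.Adj u v ∨ ∃ x y : X, K.Adj x y ∧ x.1 = u ∧ y.1 = v`).  For a finite set `S` of indices let
`W S = X ∪ {a ∉ X | f a ∈ S}` and `H_S` the graph on `V` with the edges of `H` which have both ends in `W S`.
Claim: `H_S` is planar, by induction on `S`; for `S` = all indices `H_S = H ≥ E` (`planar_mono`).  (`Idx K` is finite.)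

`S = ∅`: the edges of `H_∅` are the edges of `K` (`inn`): `planar_of_cover` with `f = Subtype.val : X → V`.

Step `S → S' = S ∪ {j}`, `j ∉ S`.  Let `G = H_S'`, `V1 = W S ∪ (W S')ᶜ` or simply `V1 = {v | v is not in the fibre of j}`,
`V2 = {a | f a = j} ∪ ends K j` (subset of `V`), so `V1 ∩ V2 = ends K j`.  Every edge of `G` is inside `V1` or inside `V2`:
`inn`, `mid`, `out`: an edge with an end `a` in the fibre of `j` has its other end in the fibre of `j` (`out`) or in
`ends K j` (`mid`), i.e. in `V2`; other edges are in `V1`.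
* `j = inl x`: `planar_glue1` with `c = x`.  `G.induce V1` is planar because its edges are edges of `H_S`
  (`planar_of_hom` with `Subtype.val`).  `G.induce V2` is planar: `planar_of_cover` (PlanA) from `E.comap (emb1 f x)`, with
  the injective map `w ↦ ⟨emb1 f x w, _⟩`: edges inside `V2` are edges of `E` (an edge of `K` needs two vertices of `X`).
* `j = inr (inl e)`, poles `p ≠ q` (`pole_ne`, `ends_edge`): `planar_glue2` with `p`, `q`; `G ⊔ edge p q = G` because `p q` is an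
  edge of `K` (`pole_adj`).  `(G ⊔ edge p q).induce V1`: as before.  `(G ⊔ edge p q).induce V2`: `planar_of_cover` from
  `addp (E.comap (emb2 f e))` with the map `w ↦ ⟨emb2 f e w, _⟩`: an edge of `G` inside `V2` is an edge of `E`, or an edge of
  `K` between `p` and `q`, which is the edge between the poles in `addp`.  The result is planarity of
  `G ⊔ edge p q ≥ G`.
* `j` = rest: `planar_disj` (`ends = ∅`), with `E.comap (emb0 f)`.
-/

set_option linter.unusedSectionVars false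

namespace Dia
open PGr

variable {V : Type} [LinearOrder V] [Finite V] {E : SimpleGraph V} {X : Set V} {K : SimpleGraph X}

/-- The edges of `E` and of `K` between vertices of `X` and of the fibres of `S`. -/
def MGlue_G (E : SimpleGraph V) (K : SimpleGraph X) (f : ↥Xᶜ → Idx K) (S : Set (Idx K)) :
    SimpleGraph V where
  Adj u v := (E.Adj u v ∨ ∃ x y : X, K.Adj x y ∧ x.1 = u ∧ y.1 = v) ∧
    (∀ h : u ∈ Xᶜ, f ⟨u, h⟩ ∈ S) ∧ ∀ h : v ∈ Xᶜ, f ⟨v, h⟩ ∈ S
  symm := ⟨fun u v h => ⟨h.1.imp (fun h => h.symm) (fun ⟨x, y, h1, h2, h3⟩ =>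
    ⟨y, x, h1.symm, h3, h2⟩), h.2.2, h.2.1⟩⟩
  loopless := ⟨fun u h => by
    rcases h.1 with h | ⟨x, y, h1, h2, h3⟩
    · exact h.ne rfl
    · exact h1.ne (Subtype.ext (h2.trans h3.symm))⟩

/-- The vertices which are not in the fibre of `j`. -/
def MGlue_V1 (f : ↥Xᶜ → Idx K) (j : Idx K) : Set V := {v | ∀ h : v ∈ Xᶜ, f ⟨v, h⟩ ≠ j}

/-- The fibre of `j` and its ends. -/
def MGlue_V2 (f : ↥Xᶜ → Idx K) (j : Idx K) : Set V :=
  {v | (∃ h : v ∈ Xᶜ, f ⟨v, h⟩ = j) ∨ ∃ h : v ∈ X, (⟨v, h⟩ : X) ∈ ends K j}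

theorem MGlue_inter (f : ↥Xᶜ → Idx K) (j : Idx K) :
    MGlue_V1 f j ∩ MGlue_V2 f j = Subtype.val '' ends K j := by
  ext v
  constructor
  · rintro ⟨h1, ⟨h, h2⟩ | ⟨h, h2⟩⟩
    · exact absurd h2 (h1 h)
    · exact ⟨_, h2, rfl⟩
  · rintro ⟨x, hx, rfl⟩
    exact ⟨fun h => absurd x.2 h, Or.inr ⟨x.2, hx⟩⟩

theorem MGlue_split {f : ↥Xᶜ → Idx K} (h : Fits E K f) (S : Set (Idx K)) (j : Idx K) (u v : V)
    (huv : (MGlue_G E K f S).Adj u v) : (u ∈ MGlue_V1 f j ∧ v ∈ MGlue_V1 f j) ∨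
      (u ∈ MGlue_V2 f j ∧ v ∈ MGlue_V2 f j) := by
  obtain ⟨h1 | ⟨x, y, hxy, rfl, rfl⟩, -, -⟩ := huv
  · by_cases hu : u ∈ X
    · by_cases hv : v ∈ X
      · exact Or.inl ⟨fun h => absurd hu h, fun h => absurd hv h⟩
      · by_cases hj : f ⟨v, hv⟩ = j
        · refine Or.inr ⟨Or.inr ⟨hu, ?_⟩, Or.inl ⟨hv, hj⟩⟩
          rw [← hj]
          exact h.mid ⟨v, hv⟩ ⟨u, hu⟩ h1.symm
        · exact Or.inl ⟨fun h => absurd hu h, fun _ => hj⟩
    · by_cases hv : v ∈ X
      · by_cases hj : f ⟨u, hu⟩ = j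
        · refine Or.inr ⟨Or.inl ⟨hu, hj⟩, Or.inr ⟨hv, ?_⟩⟩
          rw [← hj]
          exact h.mid ⟨u, hu⟩ ⟨v, hv⟩ h1
        · exact Or.inl ⟨fun _ => hj, fun h => absurd hv h⟩
      · have h2 := h.out ⟨u, hu⟩ ⟨v, hv⟩ h1
        by_cases hj : f ⟨u, hu⟩ = j
        · exact Or.inr ⟨Or.inl ⟨hu, hj⟩, Or.inl ⟨hv, h2.symm.trans hj⟩⟩
        · exact Or.inl ⟨fun _ => hj, fun _ h3 => hj (h2.trans h3)⟩
  · exact Or.inl ⟨fun h => absurd x.2 h, fun h => absurd y.2 h⟩

theorem MGlue_part1 {f : ↥Xᶜ → Idx K} (S : Set (Idx K)) (j : Idx K)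
    (hS : IsPlanar (MGlue_G E K f S)) :
    IsPlanar ((MGlue_G E K f (insert j S)).induce (MGlue_V1 f j)) := by
  refine planar_of_hom Subtype.val Subtype.val_injective ?_ hS
  rintro u v ⟨h1, h2, h3⟩
  exact ⟨h1, fun h => (h2 h).resolve_left (u.2 h), fun h => (h3 h).resolve_left (v.2 h)⟩

theorem MGlue_range0 (f : ↥Xᶜ → Idx K) (t : Unit) :
    MGlue_V2 f (.inr (.inr t)) = Set.range (emb0 f) := by
  ext v
  constructor
  · rintro (⟨h, h2⟩ | ⟨h, h2⟩)
    · exact ⟨⟨⟨v, h⟩, h2⟩, rfl⟩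
    · exact absurd h2 (Set.notMem_empty _)
  · rintro ⟨a, rfl⟩
    exact Or.inl ⟨a.1.2, a.2⟩

theorem MGlue_range1 (f : ↥Xᶜ → Idx K) (x : X) :
    MGlue_V2 f (.inl x) = Set.range (emb1 f x) := by
  ext v
  constructor
  · rintro (⟨h, h2⟩ | ⟨h, h2⟩)
    · exact ⟨some ⟨⟨v, h⟩, h2⟩, rfl⟩
    · have h3 : (⟨v, h⟩ : X) = x := h2
      exact ⟨none, (congrArg Subtype.val h3).symm⟩
  · rintro ⟨_ | a, rfl⟩
    · exact Or.inr ⟨x.2, rfl⟩
    · exact Or.inl ⟨a.1.2, a.2⟩

theorem MGlue_range2 (f : ↥Xᶜ → Idx K) (e : K.edgeSet) :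
    MGlue_V2 f (.inr (.inl e)) = Set.range (emb2 f e) := by
  ext v
  constructor
  · rintro (⟨h, h2⟩ | ⟨h, h2⟩)
    · exact ⟨Sum.inl ⟨⟨v, h⟩, h2⟩, rfl⟩
    · rw [ends_edge] at h2
      rcases h2 with h2 | h2
      · exact ⟨Sum.inr false, (congrArg Subtype.val h2).symm⟩
      · have h3 : (⟨v, h⟩ : X) = pole e.1 true := h2
        exact ⟨Sum.inr true, (congrArg Subtype.val h3).symm⟩
  · rintro ⟨a | b, rfl⟩
    · exact Or.inl ⟨a.1.2, a.2⟩
    · refine Or.inr ⟨(pole e.1 b).2, ?_⟩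
      rw [ends_edge]
      cases b
      · exact Or.inl rfl
      · exact Or.inr rfl

theorem MGlue_main {f : ↥Xᶜ → Idx K} (h : Fits E K f) (hK : IsPlanar K)
    (h0 : IsPlanar (E.comap (emb0 f))) (h1 : ∀ x, IsPlanar (E.comap (emb1 f x)))
    (h2 : ∀ e, IsPlanar (addp (E.comap (emb2 f e)))) (S : Finset (Idx K)) :
    IsPlanar (MGlue_G E K f ↑S) := by
  classical
  induction S using Finset.induction_on with
  | empty =>
    refine planar_of_cover (Subtype.val : X → V) Subtype.val_injective ?_ hK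
    rintro u v ⟨h3, h4, h5⟩
    have hu : u ∈ X := by
      by_contra hu
      have := h4 hu
      simp at this
    have hv : v ∈ X := by
      by_contra hv
      have := h5 hv
      simp at this
    refine ⟨⟨u, hu⟩, ⟨v, hv⟩, rfl, rfl, ?_⟩
    rcases h3 with h3 | ⟨x, y, hxy, rfl, rfl⟩
    · exact h.inn _ _ h3
    · exact hxy
  | insert j S hj ih =>
    rw [Finset.coe_insert]
    have hsplit := MGlue_split h (insert j (↑S : Set (Idx K))) j
    have hp1 := MGlue_part1 (E := E) (f := f) (↑S : Set (Idx K)) j ih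
    have hint := MGlue_inter f j
    rcases j with x | e | t
    · refine planar_glue1 _ _ x.1 ?_ hsplit hp1 ?_
      · rw [hint, ends_inl, Set.image_singleton]
      · rw [MGlue_range1]
        refine planar_of_cover (fun w => ⟨emb1 f x w, Set.mem_range_self w⟩)
          (fun a b hab => emb1_inj f x (congrArg Subtype.val hab)) ?_ (h1 x)
        rintro ⟨_, a, rfl⟩ ⟨_, b, rfl⟩ hab
        refine ⟨a, b, rfl, rfl, ?_⟩
        obtain ⟨h3 | ⟨y, z, hyz, hy, hz⟩, -, -⟩ := hab
        · exact h3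
        · exfalso
          have key : ∀ (y : X) (a : Option {a // f a = .inl x}), y.1 = emb1 f x a → y = x := by
            rintro y (_ | a) hy
            · exact Subtype.ext hy
            · exact absurd (show a.1.1 ∈ X from (show y.1 = a.1.1 from hy) ▸ y.2) a.1.2
          exact hyz.ne ((key y a hy).trans (key z b hz).symm)
    · have hadj : (MGlue_G E K f (insert (Sum.inr (Sum.inl e)) (↑S : Set (Idx K)))).Adj
          (pole e.1 false).1 (pole e.1 true).1 :=
        ⟨Or.inr ⟨_, _, pole_adj e, rfl, rfl⟩, fun h => absurd (pole e.1 false).2 h,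
          fun h => absurd (pole e.1 true).2 h⟩
      have hG : MGlue_G E K f (insert (Sum.inr (Sum.inl e)) (↑S : Set (Idx K))) ⊔
          SimpleGraph.edge (pole e.1 false).1 (pole e.1 true).1 =
          MGlue_G E K f (insert (Sum.inr (Sum.inl e)) (↑S : Set (Idx K))) := by
        rw [sup_eq_left]
        intro u v huv
        rw [SimpleGraph.edge_adj] at huv
        rcases huv.1 with ⟨rfl, rfl⟩ | ⟨rfl, rfl⟩
        · exact hadj
        · exact hadj.symm
      have hne : (pole e.1 false).1 ≠ (pole e.1 true).1 := fun h => pole_ne e (Subtype.ext h)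
      have key := planar_glue2 (G := MGlue_G E K f (insert (Sum.inr (Sum.inl e)) (↑S : Set (Idx K))))
        (MGlue_V1 f (.inr (.inl e))) (MGlue_V2 f (.inr (.inl e))) _ _ hne
      rw [hG] at key
      refine key ?_ hsplit hp1 ?_
      · rw [hint, ends_edge, Set.image_pair]
      · rw [MGlue_range2]
        refine planar_of_cover (fun w => ⟨emb2 f e w, Set.mem_range_self w⟩)
          (fun a b hab => emb2_inj f e (congrArg Subtype.val hab)) ?_ (h2 e)
        rintro ⟨_, a, rfl⟩ ⟨_, b, rfl⟩ hab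
        refine ⟨a, b, rfl, rfl, ?_⟩
        obtain ⟨h3 | ⟨y, z, hyz, hy, hz⟩, -, -⟩ := hab
        · exact Or.inl h3
        · have key : ∀ (y : X) (a : {a // f a = .inr (.inl e)} ⊕ Bool), y.1 = emb2 f e a →
              ∃ b, a = Sum.inr b ∧ y = pole e.1 b := by
            rintro y (a | b) hy
            · exact absurd (show a.1.1 ∈ X from (show y.1 = a.1.1 from hy) ▸ y.2) a.1.2
            · exact ⟨b, rfl, Subtype.ext hy⟩
          obtain ⟨b1, rfl, rfl⟩ := key y a hy
          obtain ⟨b2, rfl, rfl⟩ := key z b hz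
          refine Or.inr ?_
          rw [SimpleGraph.edge_adj]
          cases b1 <;> cases b2
          · exact absurd rfl hyz.ne
          · exact ⟨Or.inl ⟨rfl, rfl⟩, by simp⟩
          · exact ⟨Or.inr ⟨rfl, rfl⟩, by simp⟩
          · exact absurd rfl hyz.ne
    · refine planar_disj (MGlue_V1 f (.inr (.inr t))) (MGlue_V2 f (.inr (.inr t))) ?_ hsplit hp1 ?_
      · rw [Set.disjoint_iff_inter_eq_empty, hint, ends_rest, Set.image_empty]
      · rw [MGlue_range0]
        refine planar_of_cover (fun w => ⟨emb0 f w, Set.mem_range_self w⟩)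
          (fun a b hab => emb0_inj f
            (congrArg (fun z : ↥(Set.range (emb0 f)) => z.1) hab)) ?_ h0
        rintro ⟨_, a, rfl⟩ ⟨_, b, rfl⟩ hab
        refine ⟨a, b, rfl, rfl, ?_⟩
        obtain ⟨h3 | ⟨y, z, hyz, hy, hz⟩, -, -⟩ := hab
        · exact h3
        · exact absurd (show a.1.1 ∈ X from (show y.1 = a.1.1 from hy) ▸ y.2) a.1.2

theorem glue_planar {f : ↥Xᶜ → Idx K} (h : Fits E K f) (hK : IsPlanar K)
    (h0 : IsPlanar (E.comap (emb0 f))) (h1 : ∀ x, IsPlanar (E.comap (emb1 f x)))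
    (h2 : ∀ e, IsPlanar (addp (E.comap (emb2 f e)))) : IsPlanar E := by
  classical
  have := Fintype.ofFinite (Idx K)
  refine planar_mono ?_ (MGlue_main h hK h0 h1 h2 Finset.univ)
  intro u v huv
  exact ⟨Or.inl huv, fun _ => by simp, fun _ => by simp⟩

end Dia
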