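import Pool.Agent.Dia.MDefs

/-!
# Module MThree: 3-connected graphs: cuts by two vertices or edges, neighbours, isomorphisms

`three_cut`: let `S` be a set of vertices, `F` a set of pairs with `|S| + |F| ≤ 2`.  If `Y \ S` and `Yᶜ \ S` are
nonempty there is an edge between them which is not in `F`.
Proof: suppose all edges between `Y \ S` and `Yᶜ \ S` are in `F`; let `F'` be the set of these edges,
`|F'| ≤ |F| ≤ 2 - |S|`.
(0) `F' = ∅`: the graph on the complement of `S` is not connected (take a walk from `Y \ S` to `Yᶜ \ S`; it has an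
edge from `Y` to `Yᶜ`, `SimpleGraph.Walk.exists_boundary_dart`), contradiction to `ThreeConn` for `S` (as a `Finset`).
(1) `F' = {ab}`, `a ∈ Y`, `b ∉ Y`, `|S| ≤ 1`.  `|Y \ S| + |Yᶜ \ S| ≥ 3` as there are at least 4 vertices, so
`Y \ S ≠ {a}` or `Yᶜ \ S ≠ {b}`; in the first case the set `S ∪ {a}` (at most two elements) separates `Y \ S \ {a}` from
`Yᶜ \ S`, in the second case `S ∪ {b}` separates.  Contradiction by (0) applied to `S ∪ {a}`.
(2) `F' = {ab, a'b'}` (two different edges), `S = ∅`, `a, a' ∈ Y`, `b, b' ∉ Y`.  If `Y` is not contained in `{a, a'}` then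
`{a, a'}` separates; if `Yᶜ` is not contained in `{b, b'}` then `{b, b'}` separates.  Otherwise `Y = {a, a'}`,
`Yᶜ = {b, b'}` with `a ≠ a'`, `b ≠ b'` as there are at least four vertices, and `{a, b'}` separates `a'` from `b`: `a' b`
is not one of the two edges.
So a convenient form: first prove (0) for all `S` with `|S| ≤ 2` (`three_cut0`), then (1), (2) by using it.

`three_nbr`: `p ≠ q`: `p` has a neighbour `≠ q` (and two further ones): apply `three_cut0` with `Y = {p}`, `S = {q}`.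
`threeConn_iso`: transport.  `three_conn`: `S = ∅` (the graph on `∅ᶜ` is isomorphic to the whole graph, or use
walks).
-/

set_option linter.unusedSectionVars false

namespace Dia
open PGr

variable {W W' : Type} [Finite W] [Finite W'] {K : SimpleGraph W}

private theorem MThree_bd {V : Type} {G : SimpleGraph V} (P : V → Prop) {u v : V}
    (h : G.Reachable u v) (hu : P u) (hv : ¬ P v) : ∃ x y, P x ∧ ¬ P y ∧ G.Adj x y := by
  obtain ⟨p⟩ := h
  induction p with
  | nil => exact absurd hu hv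
  | @cons a b c hadj _ ih =>
    by_cases hb : P b
    · exact ih hb hv
    · exact ⟨a, b, hu, hb, hadj⟩

theorem three_cut0 (hK : ThreeConn K) (S : Set W) (hS : S.ncard ≤ 2) (Y : Set W)
    (h1 : (Y \ S).Nonempty) (h2 : (Yᶜ \ S).Nonempty) : ∃ x ∈ Y \ S, ∃ y ∈ Yᶜ \ S, K.Adj x y := by
  classical
  have hfin : S.Finite := Set.toFinite S
  have h3 := hK.2 hfin.toFinset (by rw [← Set.ncard_eq_toFinset_card S hfin]; exact hS)
  have hm : ∀ z : W, z ∈ (↑hfin.toFinset : Set W)ᶜ ↔ z ∉ S := by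
    intro z
    rw [Set.mem_compl_iff, Set.Finite.coe_toFinset]
  obtain ⟨x, hx, hxS⟩ := h1
  obtain ⟨y, hy, hyS⟩ := h2
  have h4 := h3.preconnected ⟨x, (hm x).2 hxS⟩ ⟨y, (hm y).2 hyS⟩
  obtain ⟨u, v, hu, hv, huv⟩ := MThree_bd
    (fun z : ↥((↑hfin.toFinset : Set W)ᶜ) => z.1 ∈ Y) h4 hx hy
  exact ⟨u.1, ⟨hu, (hm _).1 u.2⟩, v.1, ⟨hv, (hm _).1 v.2⟩, huv⟩

theorem three_cut (hK : ThreeConn K) (S : Set W) (F : Set (Sym2 W)) (hS : S.ncard + F.ncard ≤ 2)
    (Y : Set W) (h1 : (Y \ S).Nonempty) (h2 : (Yᶜ \ S).Nonempty) :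
    ∃ x ∈ Y \ S, ∃ y ∈ Yᶜ \ S, K.Adj x y ∧ s(x, y) ∉ F := by
  classical
  induction hn : F.ncard generalizing F S with
  | zero =>
    have hF : F = ∅ := (Set.ncard_eq_zero (Set.toFinite F)).1 hn
    obtain ⟨x, hx, y, hy, h⟩ := three_cut0 hK S (by omega) Y h1 h2
    exact ⟨x, hx, y, hy, h, by rw [hF]; exact Set.notMem_empty _⟩
  | succ n ih =>
    obtain ⟨x, hx, y, hy, h⟩ := three_cut0 hK S (by omega) Y h1 h2
    by_cases hF : s(x, y) ∈ F
    · have hcard : (F \ {s(x, y)}).ncard = n := by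
        rw [Set.ncard_sdiff_singleton_of_mem hF]
        omega
      have hdich : (Y \ (insert x S)).Nonempty ∨ (Yᶜ \ (insert y S)).Nonempty := by
        by_contra hcon
        push Not at hcon
        obtain ⟨k1, k2⟩ := hcon
        have k3 : (Set.univ : Set W) ⊆ insert x (insert y S) := by
          intro z _
          by_contra hz
          rw [Set.mem_insert_iff, Set.mem_insert_iff, not_or, not_or] at hz
          by_cases hzY : z ∈ Y
          · have : z ∈ Y \ (insert x S) := ⟨hzY, by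
              rw [Set.mem_insert_iff, not_or]; exact ⟨hz.1, hz.2.2⟩⟩
            rw [k1] at this
            exact this
          · have : z ∈ Yᶜ \ (insert y S) := ⟨hzY, by
              rw [Set.mem_insert_iff, not_or]; exact ⟨hz.2.1, hz.2.2⟩⟩
            rw [k2] at this
            exact this
        have k4 := Set.ncard_le_ncard k3 (Set.toFinite _)
        rw [Set.ncard_univ] at k4
        have k5 := Set.ncard_insert_le x (insert y S)
        have k6 := Set.ncard_insert_le y S
        have k7 := hK.1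
        omega
      have key : ∀ z : W, (z = x ∨ z = y) → (Y \ (insert z S)).Nonempty →
          (Yᶜ \ (insert z S)).Nonempty →
          ∃ x ∈ Y \ S, ∃ y ∈ Yᶜ \ S, K.Adj x y ∧ s(x, y) ∉ F := by
        intro z hz k1 k2
        have k3 := Set.ncard_insert_le z S
        obtain ⟨u, hu, v, hv, huv, hF'⟩ := ih (insert z S) (F \ {s(x, y)}) (by omega) k1 k2 hcard
        have hu2 : u ∉ insert z S := hu.2
        have hv2 : v ∉ insert z S := hv.2
        rw [Set.mem_insert_iff, not_or] at hu2 hv2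
        refine ⟨u, ⟨hu.1, hu2.2⟩, v, ⟨hv.1, hv2.2⟩, huv, fun h5 => hF' ⟨h5, ?_⟩⟩
        intro h6
        have h7 : s(u, v) = s(x, y) := h6
        have h8 : z ∈ s(x, y) := by
          rw [Sym2.mem_iff]
          exact hz
        rw [← h7, Sym2.mem_iff] at h8
        rcases h8 with h8 | h8
        · exact hu2.1 h8.symm
        · exact hv2.1 h8.symm
      rcases hdich with hd | hd
      · refine key x (Or.inl rfl) hd ⟨y, hy.1, ?_⟩
        rw [Set.mem_insert_iff, not_or]
        exact ⟨fun h9 => hy.1 (h9 ▸ hx.1), hy.2⟩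
      · refine key y (Or.inr rfl) ⟨x, hx.1, ?_⟩ hd
        rw [Set.mem_insert_iff, not_or]
        exact ⟨fun h9 => hy.1 (h9 ▸ hx.1), hx.2⟩
    · exact ⟨x, hx, y, hy, h, hF⟩

private theorem MThree_ne (hK : ThreeConn K) (S : Set W) (hS : S.ncard ≤ 3) : ∃ z, z ∉ S := by
  by_contra hcon
  push Not at hcon
  have h1 : (Set.univ : Set W) ⊆ S := fun z _ => hcon z
  have h2 := Set.ncard_le_ncard h1 (Set.toFinite _)
  rw [Set.ncard_univ] at h2
  have h3 := hK.1
  omega

theorem three_conn (hK : ThreeConn K) : K.Connected := by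
  obtain ⟨z, -⟩ := MThree_ne hK ∅ (by simp)
  have : Nonempty W := ⟨z⟩
  refine ⟨fun x y => ?_⟩
  by_contra hcon
  obtain ⟨u, hu, v, hv, huv⟩ := three_cut0 hK ∅ (by simp) {z | K.Reachable x z}
    ⟨x, SimpleGraph.Reachable.refl x, Set.notMem_empty _⟩ ⟨y, hcon, Set.notMem_empty _⟩
  exact hv.1 (SimpleGraph.Reachable.trans hu.1 huv.reachable)

theorem three_nbr (hK : ThreeConn K) {p q : W} (hpq : p ≠ q) : ∃ x, x ≠ p ∧ x ≠ q ∧ K.Adj p x := by
  obtain ⟨z, hz⟩ := MThree_ne hK {p, q} ((Set.ncard_insert_le p {q}).trans (by simp))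
  rw [Set.mem_insert_iff, Set.mem_singleton_iff, not_or] at hz
  obtain ⟨u, hu, v, hv, huv⟩ := three_cut0 hK {q} (by simp) {p} ⟨p, rfl, hpq⟩ ⟨z, hz.1, hz.2⟩
  have h1 : u = p := hu.1
  rw [h1] at huv
  exact ⟨v, hv.1, hv.2, huv⟩

private theorem MThree_iso {K' : SimpleGraph W'} (e : K ≃g K') (h : ThreeConn K) :
    ThreeConn K' := by
  classical
  refine ⟨?_, fun S hS => ?_⟩
  · rw [← Nat.card_congr e.toEquiv]
    exact h.1
  · have h1 := h.2 (S.map e.symm.toEquiv.toEmbedding) (by rw [Finset.card_map]; exact hS)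
    have hm : ∀ z : W, z ∈ (↑(S.map e.symm.toEquiv.toEmbedding) : Set W)ᶜ ↔
        e z ∈ ((↑S : Set W'))ᶜ := by
      intro z
      rw [Set.mem_compl_iff, Set.mem_compl_iff, Finset.mem_coe, Finset.mem_coe, Finset.mem_map]
      refine not_congr ⟨?_, fun hz => ⟨e z, hz, e.symm_apply_apply z⟩⟩
      rintro ⟨w, hw, rfl⟩
      have h2 : e (e.symm w) = w := e.apply_symm_apply w
      have h3 : e (e.symm.toEquiv.toEmbedding w) = w := h2
      rw [h3]
      exact hw
    let f : (K.induce (↑(S.map e.symm.toEquiv.toEmbedding) : Set W)ᶜ) →g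
        (K'.induce (↑S : Set W')ᶜ) :=
      { toFun := fun z => ⟨e z.1, (hm z.1).1 z.2⟩
        map_rel' := fun {a b} hab => e.map_rel_iff.2 hab }
    have hf : Function.Surjective f := by
      intro y
      have hy : e.symm y.1 ∈ (↑(S.map e.symm.toEquiv.toEmbedding) : Set W)ᶜ := by
        rw [hm, e.apply_symm_apply]
        exact y.2
      exact ⟨⟨e.symm y.1, hy⟩, Subtype.ext (e.apply_symm_apply y.1)⟩
    have := h1.nonempty
    have : Nonempty ((↑S : Set W')ᶜ : Set W') := ⟨f (Classical.arbitrary _)⟩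
    refine ⟨fun x y => ?_⟩
    obtain ⟨a, rfl⟩ := hf x
    obtain ⟨b, rfl⟩ := hf y
    exact (h1.preconnected a b).map f

theorem threeConn_iso {K' : SimpleGraph W'} (e : K ≃g K') : ThreeConn K ↔ ThreeConn K' :=
  ⟨MThree_iso e, MThree_iso e.symm⟩

end Dia
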