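import Pool.Agent.Dia.PMDefs
import Pool.Agent.Dia.InvM

/-!
# Module PMLM: root darts and root corners

`LM.toPM`: the mark `none` is inserted before the root dart: `s' = swap none (some r) * optionCongr s`
(`Equiv.Perm.decomposeOption.symm (some r, s)` in Mathlib): `s' none = some r`,
`s' (some t) = some (s t)` if `s t ≠ r`, and `none` if `s t = r`.  The cycles of `s'` are the cycles of `s`
with `none` inserted: `nV s' = nV s` and `some t, some t'` are in the same cycle of `s'` iff `t, t'` are in the
same cycle of `s`; `none` is in the cycle of `some r`.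
`toPM_isTree`: `conn`: for closed `A ∋ none`, `{t | some t ∈ A}` contains `r` and is closed under `s` (if
`s t = r` fine) and `a`.
`toPM_nu`: vertices with a higher neighbour = all vertices minus those counted by `nmax`.
`exists_LM`: for a tree `M` with a dart `M.s none = some r` for some `r` (`{none}` is not closed); the
rotation of `N` is `Equiv.removeNone M.s` (first return to `some`), `N.r = r`, and
`Equiv.Perm.decomposeOption` shows `N.toPM = M` (labels: `l none = l (some r)`).
`liso_iff`: an isomorphism `e` of the one is an isomorphism of the other (`some r = s' none`).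
`rng_eq_labs`: `labs` = the set of the labels of all darts (`l none = l (some r)`).
-/

set_option linter.unusedSectionVars false

namespace Dia
open Equiv Finset PGr

/-- insert the root corner before the root dart -/
def LM.toPM (M : LM) : PM where
  T := M.T
  a := M.a
  s := swap none (some M.r) * optionCongr M.s
  l := fun t => t.elim (M.l M.r) M.l

private theorem PMLM_lift {T : Type} (s : Perm T) {R : T → T → Prop} (hR : Equivalence R)
    (h : ∀ x, R x (s x)) {x y : T} (hxy : s.SameCycle x y) : R x y := by
  obtain ⟨i, rfl⟩ := hxy
  induction i using Int.induction_on with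
  | zero => simpa using hR.refl x
  | succ i ih =>
    rw [add_comm, zpow_one_add, Perm.mul_apply]
    exact hR.trans ih (h _)
  | pred i ih =>
    have e : (s ^ (-(i : ℤ) - 1)) x = s⁻¹ ((s ^ (-(i : ℤ))) x) := by
      rw [← Perm.mul_apply, ← zpow_neg_one, ← zpow_add]
      congr 2
      ring
    rw [e]
    have h1 := h (s⁻¹ ((s ^ (-(i : ℤ))) x))
    have e2 : s (s⁻¹ ((s ^ (-(i : ℤ))) x)) = (s ^ (-(i : ℤ))) x := by
      rw [← Perm.mul_apply, mul_inv_cancel, Perm.one_apply]
    rw [e2] at h1
    exact hR.trans ih (hR.symm h1)

section
variable {T : Type} [DecidableEq T] (s : Perm T) (r : T)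

/-- the new rotation -/
private def PMLM_s : Perm (Option T) := swap none (some r) * optionCongr s

private theorem PMLM_none : PMLM_s s r none = some r := by
  simp [PMLM_s]

private theorem PMLM_some_eq {t : T} (h : s t = r) : PMLM_s s r (some t) = none := by
  simp [PMLM_s, h]

private theorem PMLM_some_ne {t : T} (h : s t ≠ r) : PMLM_s s r (some t) = some (s t) := by
  simp only [PMLM_s, Perm.mul_apply, optionCongr_apply, Option.map_some]
  exact swap_apply_of_ne_of_ne (by simp) (by simpa using h)

private theorem PMLM_fwd {x y : Option T} (h : (PMLM_s s r).SameCycle x y) :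
    s.SameCycle (x.getD r) (y.getD r) := by
  refine PMLM_lift (PMLM_s s r) (R := fun x y => s.SameCycle (x.getD r) (y.getD r))
    ⟨fun x => Perm.SameCycle.refl _ _, fun h => h.symm, fun h h' => h.trans h'⟩ ?_ h
  intro x
  rcases x with _ | t
  · rw [PMLM_none]
    exact Perm.SameCycle.refl _ _
  · by_cases ht : s t = r
    · rw [PMLM_some_eq s r ht]
      simp only [Option.getD_some, Option.getD_none]
      rw [← ht]
      exact Perm.sameCycle_apply_right.2 (Perm.SameCycle.refl _ _)
    · rw [PMLM_some_ne s r ht]
      simp only [Option.getD_some]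
      exact Perm.sameCycle_apply_right.2 (Perm.SameCycle.refl _ _)

private theorem PMLM_bwd {t u : T} (h : s.SameCycle t u) :
    (PMLM_s s r).SameCycle (some t) (some u) := by
  refine PMLM_lift s (R := fun t u => (PMLM_s s r).SameCycle (some t) (some u))
    ⟨fun x => Perm.SameCycle.refl _ _, fun h => h.symm, fun h h' => h.trans h'⟩ ?_ h
  intro t
  by_cases ht : s t = r
  · have h1 : PMLM_s s r (PMLM_s s r (some t)) = some (s t) := by
      rw [PMLM_some_eq s r ht, PMLM_none, ht]
    rw [← h1]
    exact Perm.sameCycle_apply_right.2 (Perm.sameCycle_apply_right.2 (Perm.SameCycle.refl _ _))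
  · rw [← PMLM_some_ne s r ht]
    exact Perm.sameCycle_apply_right.2 (Perm.SameCycle.refl _ _)

private theorem PMLM_self (x : Option T) : (PMLM_s s r).SameCycle (some (x.getD r)) x := by
  rcases x with _ | t
  · simp only [Option.getD_none]
    rw [← PMLM_none s r]
    exact (Perm.sameCycle_apply_right.2 (Perm.SameCycle.refl _ _)).symm
  · exact Perm.SameCycle.refl _ _

/-- the bijection of the vertices -/
private def PMLM_V : Quotient (Perm.SameCycle.setoid (PMLM_s s r)) ≃
    Quotient (Perm.SameCycle.setoid s) where
  toFun := Quotient.map' (fun x => x.getD r) (fun _ _ h => PMLM_fwd s r h)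
  invFun := Quotient.map' some (fun _ _ h => PMLM_bwd s r h)
  left_inv := by
    intro v
    induction v using Quotient.inductionOn' with
    | h x => exact Quotient.sound' (PMLM_self s r x)
  right_inv := by
    intro v
    induction v using Quotient.inductionOn' with
    | h x => rfl

private theorem PMLM_nV [Fintype T] : nV (PMLM_s s r) = nV s :=
  Nat.card_congr (PMLM_V s r)

end

private theorem PMLM_map {T T' : Type} [DecidableEq T] [DecidableEq T'] (s : Perm T) (r : T)
    (s' : Perm T') (r' : T') (e : T ≃ T') :
    (∀ x : Option T, (PMLM_s s r x).map e = PMLM_s s' r' (x.map e)) ↔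
      (∀ t, e (s t) = s' (e t)) ∧ e r = r' := by
  constructor
  · intro h2
    have h4 : e r = r' := by
      have := h2 none
      rw [PMLM_none, Option.map_none, PMLM_none, Option.map_some] at this
      exact Option.some_injective _ this
    refine ⟨?_, h4⟩
    intro t
    have := h2 (some t)
    by_cases hr : s t = r
    · rw [PMLM_some_eq s r hr, Option.map_none, Option.map_some] at this
      by_cases hr' : s' (e t) = r'
      · rw [hr, hr', h4]
      · rw [PMLM_some_ne s' r' hr'] at this
        exact absurd this (by simp)
    · rw [PMLM_some_ne s r hr, Option.map_some, Option.map_some] at this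
      by_cases hr' : s' (e t) = r'
      · rw [PMLM_some_eq s' r' hr'] at this
        exact absurd this (by simp)
      · rw [PMLM_some_ne s' r' hr'] at this
        exact Option.some_injective _ this
  · rintro ⟨h2, h4⟩ x
    rcases x with _ | t
    · rw [PMLM_none, Option.map_none, PMLM_none, Option.map_some, h4]
    · by_cases hr : s t = r
      · have hr' : s' (e t) = r' := by rw [← h2, hr, h4]
        rw [PMLM_some_eq s r hr, Option.map_some, PMLM_some_eq s' r' hr', Option.map_none]
      · have hr' : s' (e t) ≠ r' := by
          rw [← h2, ← h4]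
          exact fun h => hr (e.injective h)
        rw [PMLM_some_ne s r hr, Option.map_some, Option.map_some, PMLM_some_ne s' r' hr', h2]

private theorem PMLM_lab {T T' : Type} (l : T → ℤ) (r : T) (l' : T' → ℤ) (r' : T') (e : T ≃ T')
    (h3 : ∀ t, l' (e t) = l t) (h4 : e r = r') (x : Option T) :
    (x.map e).elim (l' r') l' = x.elim (l r) l := by
  rcases x with _ | t
  · rw [Option.map_none, Option.elim_none, Option.elim_none, ← h4]
    exact h3 r
  · rw [Option.map_some, Option.elim_some, Option.elim_some]
    exact h3 t

private theorem PMLM_id {T : Type} (s s' : Perm (Option T)) (h : s = s') (x : Option T) :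
    (s x).map (Equiv.refl T) = s' (x.map (Equiv.refl T)) := by
  subst h
  have e : ∀ y : Option T, y.map (Equiv.refl T) = y := fun y => by cases y <;> rfl
  rw [e, e]

theorem LM.IsTr.toPM_isTree {M : LM} (h : M.IsTr) : M.toPM.IsTree where
  inv := h.inv
  fpf := h.fpf
  conn := by
    intro (A : Finset (Option M.T)) h0 h1 h2
    have hB := h.conn (univ.filter fun t => some t ∈ A)
      (by
        intro t ht
        rw [mem_filter] at ht ⊢
        exact ⟨mem_univ _, h2 t ht.2⟩)
      (by
        intro t ht
        rw [mem_filter] at ht ⊢
        refine ⟨mem_univ _, ?_⟩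
        by_cases hr : M.s t = M.r
        · have := h1 none h0
          have e : M.toPM.s none = some M.r := PMLM_none M.s M.r
          rw [e] at this
          rw [hr]
          exact this
        · have := h1 (some t) ht.2
          have e : M.toPM.s (some t) = some (M.s t) := PMLM_some_ne M.s M.r hr
          rw [e] at this
          exact this)
      ⟨M.r, by
        rw [mem_filter]
        refine ⟨mem_univ _, ?_⟩
        have := h1 none h0
        have e : M.toPM.s none = some M.r := PMLM_none M.s M.r
        rw [e] at this
        exact this⟩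
    ext x
    refine ⟨fun _ => mem_univ _, fun _ => ?_⟩
    rcases x with _ | t
    · exact h0
    · have : t ∈ (univ.filter fun t => some t ∈ A) := by
        rw [hB]
        exact mem_univ _
      exact (mem_filter.1 this).2
  ls := by
    intro t
    rcases t with _ | t
    · have e : M.toPM.s none = some M.r := PMLM_none M.s M.r
      rw [e]
      rfl
    · by_cases hr : M.s t = M.r
      · have e : M.toPM.s (some t) = none := PMLM_some_eq M.s M.r hr
        rw [e]
        change M.l M.r = M.l t
        rw [← hr]
        exact h.ls t
      · have e : M.toPM.s (some t) = some (M.s t) := PMLM_some_ne M.s M.r hr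
        rw [e]
        exact h.ls t
  la := fun t => h.la t
  l0 := h.norm
  tree := by
    have e : nV M.toPM.s = nV M.s := PMLM_nV M.s M.r
    rw [e]
    exact h.tree

theorem LM.IsTr.toPM_nu {M : LM} (h : M.IsTr) : M.toPM.nu false + M.nmax = nV M.s := by
  classical
  have e1 : M.toPM.nu false =
      Nat.card {v : M.V // ¬ ∀ t, M.vx t = v → M.l (M.a t) ≤ M.l t} := by
    unfold PM.nu
    refine Nat.card_congr ((PMLM_V M.s M.r).subtypeEquiv ?_)
    intro v
    push Not
    constructor
    · rintro (⟨t, h1, h2⟩ | ⟨h1, -⟩)
      · refine ⟨t, ?_, ?_⟩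
        · rw [← h1]
          rfl
        · have h3 : M.l (M.a t) = M.l t + 1 := h2
          omega
      · exact absurd h1 (by decide)
    · rintro ⟨t, h1, h2⟩
      left
      refine ⟨t, ?_, ?_⟩
      · apply (PMLM_V M.s M.r).injective
        rw [← h1]
        rfl
      · have h3 := h.la t
        change M.l (M.a t) = M.l t + 1
        omega
  rw [e1, LM.nmax, nV, add_comm, ← Nat.card_sum]
  exact Nat.card_congr (Equiv.sumCompl _)

theorem LM.toPM_labs (M : LM) : M.toPM.labs = univ.image M.l := by
  unfold PM.labs
  ext z
  simp only [mem_image, mem_univ, true_and]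
  constructor
  · rintro ⟨t, rfl⟩
    rcases t with _ | t
    · exact ⟨M.r, rfl⟩
    · exact ⟨t, rfl⟩
  · rintro ⟨t, rfl⟩
    exact ⟨some t, rfl⟩

theorem LM.liso_iff {M N : LM} (hM : M.IsTr) (hN : N.IsTr) : LIso M N ↔ PIso M.toPM N.toPM := by
  constructor
  · rintro ⟨e, h1, h2, h3, h4⟩
    exact ⟨e, h1, (PMLM_map M.s M.r N.s N.r e).2 ⟨h2, h4⟩,
      PMLM_lab M.l M.r N.l N.r e h3 h4⟩
  · rintro ⟨e, h1, h2, h3⟩
    have h := (PMLM_map M.s M.r N.s N.r e).1 h2
    exact ⟨e, h1, h.1, fun t => h3 (some t), h.2⟩

theorem PM.IsTree.exists_LM {M : PM} (h : M.IsTree) (hne : Nonempty M.T) :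
    ∃ N : LM, N.IsTr ∧ PIso N.toPM M := by
  obtain ⟨r, hr⟩ : ∃ r, M.s none = some r := by
    rcases hs : M.s none with _ | r
    · exfalso
      have := h.conn {none} (mem_singleton_self _)
        (by
          intro t ht
          rw [mem_singleton] at ht ⊢
          rw [ht, hs])
        (by
          intro t ht
          rw [mem_singleton] at ht
          exact absurd ht (by simp))
      obtain ⟨t⟩ := hne
      have ht : some t ∈ ({none} : Finset (Option M.T)) := by
        rw [this]
        exact mem_univ _
      rw [mem_singleton] at ht
      exact absurd ht (by simp)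
    · exact ⟨r, rfl⟩
  set N : LM :=
    { T := M.T
      a := M.a
      s := removeNone M.s
      r := r
      l := fun t => M.l (some t) } with hN
  have hs : N.toPM.s = M.s := by
    have h1 := (Perm.decomposeOption (α := M.T)).symm_apply_apply M.s
    have h2 : (Perm.decomposeOption (α := M.T)) M.s = (some r, removeNone M.s) := by
      rw [← hr]
      rfl
    rw [h2] at h1
    exact h1
  have hs' : PMLM_s N.s N.r = M.s := hs
  have hl0 : M.l (some r) = M.l none := by
    rw [← hr]
    exact h.ls none
  have hcl : ∀ B : Finset M.T, (∀ t, t ∈ B → M.a t ∈ B) → (∀ t, t ∈ B → N.s t ∈ B) → r ∈ B →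
      B = univ := by
    intro B h1 h2 h3
    have hA := h.conn (insert none (B.image some)) (mem_insert_self _ _)
      (by
        intro t ht
        rw [mem_insert] at ht
        rcases ht with rfl | ht
        · rw [hr]
          exact mem_insert_of_mem (mem_image_of_mem _ h3)
        · obtain ⟨u, hu, rfl⟩ := mem_image.1 ht
          rw [← hs']
          by_cases hru : N.s u = N.r
          · rw [PMLM_some_eq _ _ hru]
            exact mem_insert_self _ _
          · rw [PMLM_some_ne _ _ hru]
            exact mem_insert_of_mem (mem_image_of_mem _ (h2 u hu)))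
      (by
        intro t ht
        rw [mem_insert] at ht
        rcases ht with ht | ht
        · exact absurd ht (by simp)
        · obtain ⟨u, hu, hut⟩ := mem_image.1 ht
          have hut' : u = t := Option.some_injective _ hut
          subst hut'
          exact mem_insert_of_mem (mem_image_of_mem _ (h1 u hu)))
    ext t
    refine ⟨fun _ => mem_univ _, fun _ => ?_⟩
    have ht : some t ∈ insert none (B.image some) := by
      rw [hA]
      exact mem_univ _
    rw [mem_insert] at ht
    rcases ht with ht | ht
    · exact absurd ht (by simp)
    · obtain ⟨u, hu, hut⟩ := mem_image.1 ht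
      have hut' : u = t := Option.some_injective _ hut
      exact hut' ▸ hu
  refine ⟨N, ?_, ?_⟩
  · refine { inv := h.inv, fpf := h.fpf, conn := ?_, ls := ?_, la := ?_, tree := ?_, norm := ?_ }
    · intro A h1 h2 h3
      by_cases hrA : r ∈ A
      · exact hcl A h1 h2 hrA
      · exfalso
        have hclosed : ∀ (f : Perm M.T), (∀ t, t ∈ A → f t ∈ A) → ∀ t, t ∈ Aᶜ → f t ∈ Aᶜ := by
          intro f hf t ht
          rw [mem_compl] at ht ⊢
          intro hft
          have himg : A.image f = A := by
            apply eq_of_subset_of_card_le
            · intro y hy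
              obtain ⟨z, hz, rfl⟩ := mem_image.1 hy
              exact hf z hz
            · rw [card_image_of_injective _ f.injective]
          rw [← himg] at hft
          obtain ⟨z, hz, hz'⟩ := mem_image.1 hft
          exact ht (f.injective hz' ▸ hz)
        have := hcl Aᶜ (hclosed M.a h1) (hclosed N.s h2) (mem_compl.2 hrA)
        obtain ⟨y, hy⟩ := h3
        have hy' : y ∈ Aᶜ := by
          rw [this]
          exact mem_univ _
        exact (mem_compl.1 hy') hy
    · intro t
      by_cases hrt : N.s t = N.r
      · have e1 : M.s (some t) = none := by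
          rw [← hs']
          exact PMLM_some_eq _ _ hrt
        rw [hrt]
        change M.l (some r) = M.l (some t)
        rw [hl0, ← h.ls (some t), e1]
      · have e1 : M.s (some t) = some (N.s t) := by
          rw [← hs']
          exact PMLM_some_ne _ _ hrt
        change M.l (some (N.s t)) = M.l (some t)
        rw [← e1]
        exact h.ls _
    · intro t
      exact h.la t
    · have e : nV (PMLM_s N.s N.r) = nV N.s := PMLM_nV N.s N.r
      rw [hs'] at e
      have := h.tree
      rw [e] at this
      exact this
    · change M.l (some r) = 0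
      rw [hl0]
      exact h.l0
  · refine ⟨Equiv.refl _, fun _ => rfl, ?_, ?_⟩
    · intro t
      exact PMLM_id _ _ hs t
    · intro t
      rcases t with _ | t
      · exact hl0.symm
      · rfl

end Dia
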