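import Pool.Agent.Dia.PMJoin

/-!
# Module PMLab: labels and higher neighbours in a joined tree

`labs_join`: the elements of `Option (join).T` are the `J (inl (inl x))` with label `C.l x + d`, the
`J (inl (inr x))` with label `R.l x`, and `some (inr true)` with label `0 = R.l none` (`R.IsTree.l0`).

`nu_join`: by `join_vertices` the vertices are those of `C` and those of `R`.  A vertex of `C` has a higher
neighbour in the joined tree iff it has one in `C` (labels shifted by `d`) or it is the root of `C` and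
the edge `inr false` goes up: `l (some (inr true)) = 0 = l (some (inr false)) + 1 = d + 1`, i.e. `d = -1`.  A vertex
of `R`: iff it has one in `R`, or it is the root of `R` and `d = 1`, or (root of `R`, `up`).
Count the disjoint union (`Nat.card_sum`, `Nat.card_congr` with `Equiv.subtypeSum` or similar).
-/

set_option linter.unusedSectionVars false

namespace Dia
open Equiv Finset PGr

theorem PM.labs_join (d : SignType) {C R : PM} (hC : C.IsTree) (hR : R.IsTree) :
    (PM.join d C R).labs = C.labs.image (fun z => z + (d : ℤ)) ∪ R.labs := by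
  have hl : ∀ y, (PM.join d C R).l (joinEquiv C.T R.T y) =
      Sum.elim (Sum.elim (fun x => C.l x + (d : ℤ)) R.l) (fun _ => 0) y := by
    intro y
    show Sum.elim (Sum.elim (fun x => C.l x + (d : ℤ)) R.l) (fun _ => 0)
      ((joinEquiv C.T R.T).symm (joinEquiv C.T R.T y)) = _
    rw [symm_apply_apply]
  ext z
  unfold PM.labs
  simp only [mem_image, mem_union, mem_univ, true_and]
  constructor
  · rintro ⟨t, ht⟩
    obtain ⟨y, rfl⟩ := (joinEquiv C.T R.T).surjective t
    rw [hl] at ht
    rcases y with (x | x) | u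
    · exact Or.inl ⟨_, ⟨x, rfl⟩, ht⟩
    · exact Or.inr ⟨x, ht⟩
    · exact Or.inr ⟨none, by rw [hR.l0]; exact ht⟩
  · rintro (⟨_, ⟨x, rfl⟩, ht⟩ | ⟨x, ht⟩)
    · exact ⟨joinEquiv C.T R.T (Sum.inl (Sum.inl x)), (hl _).trans ht⟩
    · exact ⟨joinEquiv C.T R.T (Sum.inl (Sum.inr x)), (hl _).trans ht⟩

/-- the property counted by `nu` -/
def PMLab_P (M : PM) (up : Bool) (v : Quotient (Perm.SameCycle.setoid M.s)) : Prop :=
  (∃ t : M.T, M.vx (some t) = v ∧ M.l (some (M.a t)) = M.l (some t) + 1) ∨
    (up = true ∧ M.vx none = v)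

theorem PM.nu_join (d : SignType) {C R : PM} (hC : C.IsTree) (hR : R.IsTree) (up : Bool) :
    (PM.join d C R).nu up = C.nu (decide (d = -1)) + R.nu (up || decide (d = 1)) := by
  obtain ⟨E, hE1, hE2, hE3⟩ := PM.join_vertices d C R
  have hv1 : ∀ x : C.T, E ((PM.join d C R).vx (some (Sum.inl (Sum.inl x)))) =
      Sum.inl (C.vx (some x)) := fun x => hE1 (some x)
  have hv2 : ∀ x : R.T, E ((PM.join d C R).vx (some (Sum.inl (Sum.inr x)))) =
      Sum.inr (R.vx (some x)) := fun x => hE2 (some x)
  have hv3 : E ((PM.join d C R).vx (some (Sum.inr false))) = Sum.inl (C.vx none) := hE1 none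
  have hv4 : E ((PM.join d C R).vx none) = Sum.inr (R.vx none) := hE2 none
  have hdm : (d : ℤ) + 1 = 0 ↔ d = -1 := by cases d <;> decide
  have hd1 : (d : ℤ) = 0 + 1 ↔ d = 1 := by cases d <;> decide
  have iC : ∀ v, PMLab_P (PM.join d C R) up (E.symm (Sum.inl v)) ↔
      PMLab_P C (decide (d = -1)) v := by
    intro v
    constructor
    · rintro (⟨t, h1, h2⟩ | ⟨h1, h2⟩)
      · rw [Equiv.eq_symm_apply] at h1
        rcases t with (x | x) | b
        · rw [hv1] at h1
          refine Or.inl ⟨x, Sum.inl.inj h1, ?_⟩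
          have h3 : C.l (some (C.a x)) + (d : ℤ) = C.l (some x) + (d : ℤ) + 1 := h2
          omega
        · rw [hv2] at h1; exact absurd h1 (by simp)
        · cases b
          · rw [hv3] at h1
            refine Or.inr ⟨?_, Sum.inl.inj h1⟩
            have h3 : (0 : ℤ) = C.l none + (d : ℤ) + 1 := h2
            rw [hC.l0] at h3
            exact decide_eq_true (hdm.mp (by omega))
          · rw [hE3] at h1; exact absurd h1 (by simp)
      · rw [Equiv.eq_symm_apply, hv4] at h2; exact absurd h2 (by simp)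
    · rintro (⟨x, h1, h2⟩ | ⟨h1, h2⟩)
      · refine Or.inl ⟨Sum.inl (Sum.inl x), ?_, ?_⟩
        · rw [Equiv.eq_symm_apply, hv1, h1]
        · show C.l (some (C.a x)) + (d : ℤ) = C.l (some x) + (d : ℤ) + 1
          omega
      · refine Or.inl ⟨Sum.inr false, ?_, ?_⟩
        · rw [Equiv.eq_symm_apply, hv3, h2]
        · show (0 : ℤ) = C.l none + (d : ℤ) + 1
          rw [hC.l0]
          have := hdm.mpr (of_decide_eq_true h1)
          omega
  have iR : ∀ v, PMLab_P (PM.join d C R) up (E.symm (Sum.inr v)) ↔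
      PMLab_P R (up || decide (d = 1)) v := by
    intro v
    constructor
    · rintro (⟨t, h1, h2⟩ | ⟨h1, h2⟩)
      · rw [Equiv.eq_symm_apply] at h1
        rcases t with (x | x) | b
        · rw [hv1] at h1; exact absurd h1 (by simp)
        · rw [hv2] at h1
          exact Or.inl ⟨x, Sum.inr.inj h1, h2⟩
        · cases b
          · rw [hv3] at h1; exact absurd h1 (by simp)
          · rw [hE3] at h1
            refine Or.inr ⟨?_, Sum.inr.inj h1⟩
            have h3 : C.l none + (d : ℤ) = 0 + 1 := h2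
            rw [hC.l0] at h3
            rw [decide_eq_true (hd1.mp (by omega)), Bool.or_true]
      · rw [Equiv.eq_symm_apply, hv4] at h2
        exact Or.inr ⟨by rw [h1, Bool.true_or], Sum.inr.inj h2⟩
    · rintro (⟨x, h1, h2⟩ | ⟨h1, h2⟩)
      · refine Or.inl ⟨Sum.inl (Sum.inr x), ?_, h2⟩
        rw [Equiv.eq_symm_apply, hv2, h1]
      · rw [Bool.or_eq_true] at h1
        rcases h1 with h1 | h1
        · refine Or.inr ⟨h1, ?_⟩
          rw [Equiv.eq_symm_apply, hv4, h2]
        · refine Or.inl ⟨Sum.inr true, ?_, ?_⟩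
          · rw [Equiv.eq_symm_apply, hE3, h2]
          · show C.l none + (d : ℤ) = 0 + 1
            rw [hC.l0]
            have := hd1.mpr (of_decide_eq_true h1)
            omega
  show Nat.card {v // PMLab_P (PM.join d C R) up v} =
    Nat.card {v // PMLab_P C (decide (d = -1)) v} +
    Nat.card {v // PMLab_P R (up || decide (d = 1)) v}
  rw [← Nat.card_sum]
  refine Nat.card_congr ((E.subtypeEquiv (q := fun z => PMLab_P (PM.join d C R) up (E.symm z))
    (fun v => by rw [symm_apply_apply])).trans (Equiv.subtypeSum.trans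
      (Equiv.sumCongr (Equiv.subtypeEquivRight iC) (Equiv.subtypeEquivRight iR))))

theorem LT.labs_toPM (t : LT) : t.toPM.labs = t.labels := by
  induction t with
  | nil => rfl
  | node d c r ihc ihr =>
    show (PM.join d c.toPM r.toPM).labs = _
    rw [PM.labs_join d c.toPM_isTree r.toPM_isTree, ihc, ihr]
    rfl

theorem LT.nu_toPM (t : LT) (up : Bool) : t.toPM.nu up = t.nup up := by
  induction t generalizing up with
  | nil =>
    show Nat.card {v // PMLab_P PM.nil up v} = if up then 1 else 0
    cases up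
    · rw [if_neg (by decide), Nat.card_eq_zero]
      left
      refine ⟨?_⟩
      rintro ⟨v, ⟨t, -⟩ | ⟨h, -⟩⟩
      · exact nomatch t
      · exact absurd h (by decide)
    · rw [if_pos rfl, Nat.card_eq_one_iff_unique]
      refine ⟨⟨fun q q' => Subtype.ext ?_⟩, ⟨⟨PM.nil.vx none, Or.inr ⟨rfl, rfl⟩⟩⟩⟩
      obtain ⟨q, hq⟩ := q
      obtain ⟨q', hq'⟩ := q'
      rcases hq with ⟨t, -⟩ | ⟨-, hq⟩
      · exact nomatch t
      · rcases hq' with ⟨t, -⟩ | ⟨-, hq'⟩
        · exact nomatch t
        · exact hq.symm.trans hq'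
  | node d c r ihc ihr =>
    show (PM.join d c.toPM r.toPM).nu up = _
    rw [PM.nu_join d c.toPM_isTree r.toPM_isTree, ihc, ihr]
    rfl

theorem PMLab_map {A B : Type*} (e : A ≃ B) (t : Option B) : (t.map e.symm).map e = t := by
  rw [Option.map_map]; simp

theorem PIso.labs {M N : PM} (h : PIso M N) : M.labs = N.labs := by
  obtain ⟨e, -, -, h3⟩ := h
  ext z
  unfold PM.labs
  simp only [mem_image, mem_univ, true_and]
  constructor
  · rintro ⟨t, ht⟩
    exact ⟨t.map e, (h3 t).trans ht⟩
  · rintro ⟨t, ht⟩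
    refine ⟨t.map e.symm, ?_⟩
    rw [← h3, PMLab_map, ht]

theorem PIso.nu {M N : PM} (h : PIso M N) (up : Bool) : M.nu up = N.nu up := by
  obtain ⟨e, h1, h2, h3⟩ := h
  have hsc : ∀ x y, M.s.SameCycle x y ↔ N.s.SameCycle (Equiv.optionCongr e x)
      (Equiv.optionCongr e y) := by
    intro x y
    constructor
    · intro h
      exact PMJoin_lift M.s N.s (Equiv.optionCongr e)
        (fun x => ⟨1, by rw [zpow_one]; exact (h2 x).symm⟩) h
    · intro h
      have h4 := PMJoin_lift N.s M.s (Equiv.optionCongr e).symm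
        (fun x => ⟨1, by
          rw [zpow_one, Equiv.eq_symm_apply]
          refine (h2 _).trans ?_
          exact congrArg N.s (Equiv.apply_symm_apply (Equiv.optionCongr e) x)⟩) h
      rwa [symm_apply_apply, symm_apply_apply] at h4
  let E : Quotient (Perm.SameCycle.setoid M.s) ≃ Quotient (Perm.SameCycle.setoid N.s) :=
    Quotient.congr (Equiv.optionCongr e) hsc
  have hE : ∀ t, E (M.vx t) = N.vx (t.map e) := fun t => rfl
  show Nat.card {v // PMLab_P M up v} = Nat.card {v // PMLab_P N up v}
  refine Nat.card_congr (E.subtypeEquiv fun v => ?_)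
  constructor
  · rintro (⟨t, h4, h5⟩ | ⟨h4, h5⟩)
    · refine Or.inl ⟨e t, ?_, ?_⟩
      · rw [← h4]; exact (hE (some t)).symm
      · have h6 := h3 (some t)
        have h7 := h3 (some (M.a t))
        rw [← h1]
        exact (h7.trans h5).trans (by rw [← h6]; rfl)
    · refine Or.inr ⟨h4, ?_⟩
      rw [← h5]; exact (hE none).symm
  · rintro (⟨t, h4, h5⟩ | ⟨h4, h5⟩)
    · refine Or.inl ⟨e.symm t, ?_, ?_⟩
      · apply E.injective
        rw [hE, ← h4]
        exact congrArg N.vx (congrArg some (e.apply_symm_apply t))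
      · have h6 := h3 (some (e.symm t))
        have h7 := h3 (some (M.a (e.symm t)))
        have h8 : e (M.a (e.symm t)) = N.a t := by rw [h1, e.apply_symm_apply]
        have h9 : N.l (some (e (M.a (e.symm t)))) = M.l (some (M.a (e.symm t))) := h7
        have h10 : N.l (some (e (e.symm t))) = M.l (some (e.symm t)) := h6
        rw [h8] at h9
        rw [e.apply_symm_apply] at h10
        rw [← h9, ← h10, h5]
    · refine Or.inr ⟨h4, ?_⟩
      apply E.injective
      rw [hE, ← h5]
      rfl

end Dia
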