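import Pool.Agent.Dia.PMSplit
import Pool.Agent.Dia.PMLab
import Pool.Agent.Dia.PMLM

/-!
# Module TrLT: classes of labelled plane trees = nonempty elements of `LT`

The map `TrC → {t : LT // t ≠ nil}`: `N ↦` the unique `t` with `t.toPM ≅ N.toPM` (`exists_LT`, `toPM_inj`); it is
not `nil` since `N` has a dart (`N.r`).  Injective by `liso_iff`; surjective by `exists_LM`.
Card: `card N.T = card t.toPM.T = 2 * t.size`.  `nup`: `nu_toPM`, `toPM_nu`, `PIso.nu`.  `rng`: the sets of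
labels agree (`labs_toPM`, `toPM_labs`, `PIso.labs`).
-/

set_option linter.unusedSectionVars false

namespace Dia
open Equiv Finset PGr

theorem TrLT_nonempty : ∀ t : LT, t ≠ LT.nil → Nonempty t.toPM.T
  | .nil, h => absurd rfl h
  | .node _ _ _, _ => ⟨Sum.inr true⟩

theorem tr_lt : ∃ e : TrC ≃ {t : LT // t ≠ LT.nil}, ∀ c : TrC,
    Fintype.card c.out.1.T = 2 * (e c).1.size ∧
    (e c).1.nup false + c.out.1.nmax = nV c.out.1.s ∧
    c.out.1.rng = (e c).1.rng := by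
  have h1 : ∀ c : TrC, ∃ t : LT, PIso t.toPM c.out.1.toPM := fun c =>
    (LM.IsTr.toPM_isTree c.out.2).exists_LT
  choose f hf using h1
  have hne : ∀ c, f c ≠ LT.nil := by
    intro c hc
    have h2 := hf c
    rw [hc] at h2
    obtain ⟨e, -, -, -⟩ := h2
    exact Empty.elim (e.symm c.out.1.r)
  have hinj : ∀ c c', f c = f c' → c = c' := by
    intro c c' h
    have h2 := hf c
    rw [h] at h2
    have h3 : LIso c.out.1 c'.out.1 := (LM.liso_iff c.out.2 c'.out.2).2 (h2.symm.trans (hf c'))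
    have h4 : (⟦c.out⟧ : TrC) = ⟦c'.out⟧ := Quotient.sound h3
    rwa [Quotient.out_eq, Quotient.out_eq] at h4
  have hsurj : ∀ t : LT, t ≠ LT.nil → ∃ c, f c = t := by
    intro t ht
    obtain ⟨N, hN, hiso⟩ := (LT.toPM_isTree t).exists_LM (TrLT_nonempty t ht)
    refine ⟨⟦⟨N, hN⟩⟧, ?_⟩
    have h2 : LIso (Quotient.out (⟦⟨N, hN⟩⟧ : TrC)).1 N :=
      Quotient.exact (Quotient.out_eq (⟦⟨N, hN⟩⟧ : TrC))
    have h3 := (LM.liso_iff (Quotient.out (⟦⟨N, hN⟩⟧ : TrC)).2 hN).1 h2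
    exact LT.toPM_inj ((hf _).trans (h3.trans hiso))
  let e : TrC ≃ {t : LT // t ≠ LT.nil} := Equiv.ofBijective (fun c => ⟨f c, hne c⟩)
    ⟨fun c c' h => hinj c c' (congrArg Subtype.val h), fun t => by
      obtain ⟨c, hc⟩ := hsurj t.1 t.2
      exact ⟨c, Subtype.ext hc⟩⟩
  refine ⟨e, fun c => ?_⟩
  have he : (e c).1 = f c := rfl
  rw [he]
  refine ⟨?_, ?_, ?_⟩
  · obtain ⟨e', -, -, -⟩ := hf c
    rw [← LT.card_toPM]
    exact (Fintype.card_congr e').symm
  · rw [← LT.nu_toPM, (hf c).nu false]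
    exact LM.IsTr.toPM_nu c.out.2
  · have h2 : (f c).labels = univ.image c.out.1.l := by
      rw [← LT.labs_toPM, (hf c).labs, LM.toPM_labs]
    unfold LM.rng LT.rng
    simp only [h2]

end Dia
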