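import Pool.Agent.Dia.PtSum
import Pool.Agent.Dia.BijM
import Pool.Agent.Dia.TrLT

/-!
# Module Main1: rooted planar maps with a marked vertex = labelled plane trees

From `pt_sum`, `pt_tr`, `tr_lt`: for `c : PtC` and the corresponding tree `t ≠ nil`:
`E = card / 2 = t.size`, `nV c.s + nmax = 1 + nV (tree).s` and `t.nup false + nmax = nV (tree).s`, so
`nV c.s = 1 + t.nup false`; `rng` equal.  Sums: `Equiv.tsum_eq`, and the sum over the subtype `t ≠ nil`
is the sum over `LT` with the indicator (`tsum_subtype`).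
-/

set_option linter.unusedSectionVars false

namespace Dia
open Equiv Finset PGr
open scoped ENNReal

/-- **The bijection.** Summing any function of (number of edges, number of vertices, eccentricity) over
all rooted planar maps with a marked vertex gives the sum over labelled plane trees. -/
theorem map_tree_sum (g : ℕ → ℕ → ℕ → ℝ≥0∞) :
    ∑' m : RMC, ∑ v : m.out.1.V, g m.out.1.E (nV m.out.1.s) (m.out.1.ecc v) =
      ∑' t : LT, if t = LT.nil then 0 else g t.size (1 + t.nup false) t.rng := by
  classical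
  rw [← pt_sum]
  obtain ⟨e1, h1⟩ := pt_tr
  obtain ⟨e2, h2⟩ := tr_lt
  have h3 : ∀ c : PtC, g c.out.1.E (nV c.out.1.s) c.out.1.rng =
      g (e2 (e1 c)).1.size (1 + (e2 (e1 c)).1.nup false) (e2 (e1 c)).1.rng := by
    intro c
    obtain ⟨ha, hb, hc⟩ := h1 c
    obtain ⟨hd, he, hf⟩ := h2 (e1 c)
    have hE : c.out.1.E = (e2 (e1 c)).1.size := by
      show Fintype.card c.out.1.T / 2 = _
      rw [← ha, hd]
      omega
    have hV : nV c.out.1.s = 1 + (e2 (e1 c)).1.nup false := by omega
    have hR : c.out.1.rng = (e2 (e1 c)).1.rng := by rw [← hc, hf]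
    rw [hE, hV, hR]
  rw [tsum_congr h3]
  have h4 := (e1.trans e2).tsum_eq (fun t : {t : LT // t ≠ LT.nil} =>
    g t.1.size (1 + t.1.nup false) t.1.rng)
  refine Eq.trans h4 ?_
  have h5 := tsum_subtype {t : LT | t ≠ LT.nil} (fun t : LT => g t.size (1 + t.nup false) t.rng)
  refine Eq.trans h5 (tsum_congr fun t => ?_)
  by_cases ht : t = LT.nil
  · rw [if_pos ht, Set.indicator_of_notMem]
    simpa using ht
  · rw [if_neg ht, Set.indicator_of_mem]
    exact ht

end Dia
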