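import Pool.Agent.Dia.ZLow
import Pool.Agent.Dia.BadD
import Pool.Agent.Dia.BadF
import Pool.Agent.Dia.BadR
import Pool.Agent.Dia.BadQ
import Pool.Agent.Dia.MCount

/-!
# Module MainA: Theorem A

`good_graph`: lower bound: `torso_dist`.  Upper bound: let `u`, `w` be vertices.  If they are in different components
the distance is `0`.  If `u` is connected to `X`, so is `w`; by `h3` there are `x, y ∈ X` with `dist u x < L`,
`dist w y < L`, and `dist x y ≤ κ (C n^(1/4) + log n)` by `h5` and `h1`.  Otherwise all vertices of a shortest path from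
`u` to `w` are not connected to `X`; their number is `< l`.
`bad_count`: a planar graph for which the conclusion of `good_graph` fails has `CoreLt M` with `M = ⌊ε n⌋`, or it has a
core set `X` with `M ≤ coreE`, so `ε/2 n ≤ coreE` for `ε n ≥ 2`; then `coreE ≤ 3 n`, `card X ≤ n`, and one of the five
events holds for `(E, X)`.
`main_A`: `Z_low`, `no_core`, `bad_diam`, `bad_far`, `bad_rest`, `bad_path` with small `δ`; the number of planar graphs is
`n! gN ⊤ n` (`coreLt_top`).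
-/

set_option linter.unusedSectionVars false

namespace Dia
open Finset PGr Pool.Agent.DiamP

theorem MainA_path {n : ℕ} {E : SimpleGraph (Fin n)} (P : Fin n → Prop) {u w : Fin n}
    (h : E.Reachable u w) (hP : ∀ z, E.Reachable u z → P z) :
    E.dist u w < Nat.card {z // P z} := by
  classical
  obtain ⟨p, hp, hl⟩ := h.exists_path_of_dist
  rw [Nat.card_eq_fintype_card, Fintype.card_subtype, ← hl]
  have h1 : p.support.toFinset ⊆ univ.filter P := by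
    intro z hz
    rw [List.mem_toFinset] at hz
    rw [mem_filter]
    exact ⟨mem_univ _, hP z ⟨p.takeUntil z hz⟩⟩
  have h2 := card_le_card h1
  rw [List.toFinset_card_of_nodup hp.support_nodup, SimpleGraph.Walk.length_support] at h2
  exact lt_of_lt_of_le (Nat.lt_succ_self _) (by convert h2)

theorem good_graph {n : ℕ} {E : SimpleGraph (Fin n)} {X : Set (Fin n)} (hX : IsCore E X)
    {c C κ : ℝ} {L l : ℕ} (hC : 0 ≤ C) (hκ : 0 ≤ κ)
    (h1 : ¬ PBig (C * (n : ℝ) ^ (1 / 4 : ℝ)) _ (torso E X))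
    (h2 : ¬ PSmall (c * (n : ℝ) ^ (1 / 4 : ℝ)) _ (torso E X))
    (h3 : ¬ ∃ u, (∃ x ∈ X, E.Reachable u x) ∧ ∀ x ∈ X, L ≤ E.dist u x)
    (h4 : ¬ l ≤ Nat.card {u // ∀ x ∈ X, ¬ E.Reachable u x})
    (h5 : ¬ ∃ x y : X, κ * ((torso E X).dist x y + Real.log n) < E.dist x.1 y.1) :
    (∃ x y, c * (n : ℝ) ^ (1 / 4 : ℝ) ≤ E.dist x y) ∧
      ∀ x y, (E.dist x y : ℝ) ≤ κ * (C * (n : ℝ) ^ (1 / 4 : ℝ) + Real.log n) + 2 * L + l := by
  unfold PBig at h1
  unfold PSmall at h2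
  push Not at h1 h2 h3 h4 h5
  obtain ⟨x0, y0, hxy⟩ := h2
  have hn : 1 ≤ n := by
    rcases Nat.eq_zero_or_pos n with h | h
    · subst h; exact x0.1.elim0
    · exact h
  have hlog : 0 ≤ Real.log n := Real.log_nonneg (by exact_mod_cast hn)
  have hn4 : (0 : ℝ) ≤ (n : ℝ) ^ (1 / 4 : ℝ) := Real.rpow_nonneg (Nat.cast_nonneg n) _
  refine ⟨⟨x0.1, y0.1, hxy.le.trans (by exact_mod_cast torso_dist hX x0 y0)⟩, fun u w => ?_⟩
  by_cases hr : E.Reachable u w
  · by_cases hu : ∃ x ∈ X, E.Reachable u x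
    · obtain ⟨z, hz, hz'⟩ := hu
      obtain ⟨x, hx, hx'⟩ := h3 u ⟨z, hz, hz'⟩
      obtain ⟨y, hy, hy'⟩ := h3 w ⟨z, hz, hr.symm.trans hz'⟩
      have hrx : E.Reachable u x := hz'.trans (core_reach hX ⟨z, hz⟩ ⟨x, hx⟩)
      have hxy' : E.Reachable x y := core_reach hX ⟨x, hx⟩ ⟨y, hy⟩
      have e1 := hrx.dist_triangle_left w
      have e2 := hxy'.dist_triangle_left w
      have e3 : E.dist y w = E.dist w y := SimpleGraph.dist_comm
      have e4 : (E.dist u w : ℝ) ≤ E.dist u x + (E.dist x y + E.dist w y) := by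
        rw [← e3]
        exact_mod_cast e1.trans (by omega)
      have e5 := h5 ⟨x, hx⟩ ⟨y, hy⟩
      have e6 := (h1 ⟨x, hx⟩ ⟨y, hy⟩).le
      have e7 : κ * (((torso E X).dist ⟨x, hx⟩ ⟨y, hy⟩ : ℝ) + Real.log n) ≤
          κ * (C * (n : ℝ) ^ (1 / 4 : ℝ) + Real.log n) :=
        mul_le_mul_of_nonneg_left (by linarith) hκ
      have e8 : (E.dist u x : ℝ) ≤ L := by exact_mod_cast hx'.le
      have e9 : (E.dist w y : ℝ) ≤ L := by exact_mod_cast hy'.le
      have e10 : (0 : ℝ) ≤ l := Nat.cast_nonneg l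
      simp only at e5
      linarith
    · push Not at hu
      have e1 := MainA_path (fun z => ∀ x ∈ X, ¬ E.Reachable z x) hr
        (fun z hz x hx hzx => hu x hx (hz.trans hzx))
      have e2 : (E.dist u w : ℝ) ≤ l := by exact_mod_cast (e1.trans h4).le
      have e3 : 0 ≤ κ * (C * (n : ℝ) ^ (1 / 4 : ℝ) + Real.log n) := by positivity
      have e4 : (0 : ℝ) ≤ L := Nat.cast_nonneg L
      linarith
  · rw [SimpleGraph.dist_eq_zero_of_not_reachable hr]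
    have e3 : 0 ≤ κ * (C * (n : ℝ) ^ (1 / 4 : ℝ) + Real.log n) := by positivity
    have e4 : (0 : ℝ) ≤ L := Nat.cast_nonneg L
    have e10 : (0 : ℝ) ≤ l := Nat.cast_nonneg l
    push_cast
    linarith

open Classical in
/-- number of pairs with a large core -/
theorem MainA_pairs {ε : ℝ} (n : ℕ) (Q : SimpleGraph (Fin n) → Set (Fin n) → Prop) :
    ((univ.filter fun p : SimpleGraph (Fin n) × Set (Fin n) => IsPlanar p.1 ∧ IsCore p.1 p.2 ∧
      ε * n ≤ coreE p.1 p.2 ∧ Q p.1 p.2).card : ℝ) / n.factorial ≤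
      sVE n ε (fun v e => pairN n v e Q) := by
  have h1 : (univ.filter fun p : SimpleGraph (Fin n) × Set (Fin n) => IsPlanar p.1 ∧
      IsCore p.1 p.2 ∧ ε * n ≤ coreE p.1 p.2 ∧ Q p.1 p.2) ⊆
      ((range (3 * n + 1)).filter (fun e : ℕ => ε * n ≤ e)).biUnion fun e =>
        (range (n + 1)).biUnion fun v =>
          univ.filter fun p : SimpleGraph (Fin n) × Set (Fin n) => IsPlanar p.1 ∧ IsCore p.1 p.2 ∧
            Nat.card p.2 = v ∧ coreE p.1 p.2 = e ∧ Q p.1 p.2 := by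
    intro p hp
    rw [mem_filter] at hp
    obtain ⟨-, h1, h2, h3, h4⟩ := hp
    have h5 : p.2.ncard ≤ n := by
      have := Set.ncard_le_card p.2
      simpa using this
    have h6 := core_size h1 h2
    simp only [mem_biUnion, mem_filter, mem_range, mem_univ, true_and]
    refine ⟨coreE p.1 p.2, ⟨by omega, h3⟩, p.2.ncard, by omega, h1, h2, rfl, rfl, h4⟩
  have h2 := (card_le_card h1).trans card_biUnion_le
  unfold sVE
  have hf : (0 : ℝ) < n.factorial := by exact_mod_cast n.factorial_pos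
  rw [div_le_iff₀ hf, sum_mul]
  have h3 : ((univ.filter fun p : SimpleGraph (Fin n) × Set (Fin n) => IsPlanar p.1 ∧
      IsCore p.1 p.2 ∧ ε * n ≤ coreE p.1 p.2 ∧ Q p.1 p.2).card : ℝ) ≤
      ∑ e ∈ (range (3 * n + 1)).filter (fun e : ℕ => ε * n ≤ e), (((range (n + 1)).biUnion fun v =>
          univ.filter fun p : SimpleGraph (Fin n) × Set (Fin n) => IsPlanar p.1 ∧ IsCore p.1 p.2 ∧
            Nat.card p.2 = v ∧ coreE p.1 p.2 = e ∧ Q p.1 p.2).card : ℝ) := by exact_mod_cast h2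
  refine h3.trans (sum_le_sum fun e _ => ?_)
  have h4 : (((range (n + 1)).biUnion fun v =>
          univ.filter fun p : SimpleGraph (Fin n) × Set (Fin n) => IsPlanar p.1 ∧ IsCore p.1 p.2 ∧
            Nat.card p.2 = v ∧ coreE p.1 p.2 = e ∧ Q p.1 p.2).card : ℝ) ≤
      ∑ v ∈ range (n + 1), ((univ.filter fun p : SimpleGraph (Fin n) × Set (Fin n) =>
        IsPlanar p.1 ∧ IsCore p.1 p.2 ∧
            Nat.card p.2 = v ∧ coreE p.1 p.2 = e ∧ Q p.1 p.2).card : ℝ) := by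
    exact_mod_cast card_biUnion_le
  refine h4.trans ?_
  rw [sum_mul]
  refine sum_le_sum fun v _ => le_of_eq ?_
  unfold pairN
  rw [div_mul_cancel₀ _ hf.ne', Nat.card_eq_fintype_card, Fintype.card_subtype]

open Classical in
theorem bad_count {ε : ℝ} (hε : 0 < ε) {n : ℕ} (hn : 2 ≤ ε * n) {c C κ : ℝ} {L l : ℕ}
    (hC : 0 ≤ C) (hκ : 0 ≤ κ) :
    (Nat.card {E : SimpleGraph (Fin n) // IsPlanar E ∧
      ¬ ((∃ x y, c * (n : ℝ) ^ (1 / 4 : ℝ) ≤ E.dist x y) ∧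
        ∀ x y, (E.dist x y : ℝ) ≤ κ * (C * (n : ℝ) ^ (1 / 4 : ℝ) + Real.log n) + 2 * L + l)} : ℝ) /
      n.factorial ≤ gN (⌊ε * n⌋₊ : ℕ) n +
      sVE n (ε / 2) (fun v e => pairN n v e (fun E X =>
        PBig (C * (n : ℝ) ^ (1 / 4 : ℝ)) _ (torso E X) ∨
        PSmall (c * (n : ℝ) ^ (1 / 4 : ℝ)) _ (torso E X))) +
      sVE n (ε / 2) (fun v e => pairN n v e (fun E X =>
        ∃ u, (∃ x ∈ X, E.Reachable u x) ∧ ∀ x ∈ X, L ≤ E.dist u x)) +
      sVE n (ε / 2) (fun v e => pairN n v e (fun E X =>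
        l ≤ Nat.card {u // ∀ x ∈ X, ¬ E.Reachable u x})) +
      sVE n (ε / 2) (fun v e => pairN n v e (fun E X =>
        ∃ x y : X, κ * ((torso E X).dist x y + Real.log n) < E.dist x.1 y.1)) := by
  set Q1 : SimpleGraph (Fin n) → Set (Fin n) → Prop := fun E X =>
    PBig (C * (n : ℝ) ^ (1 / 4 : ℝ)) _ (torso E X) ∨
      PSmall (c * (n : ℝ) ^ (1 / 4 : ℝ)) _ (torso E X) with hQ1
  set Q2 : SimpleGraph (Fin n) → Set (Fin n) → Prop := fun E X =>
    ∃ u, (∃ x ∈ X, E.Reachable u x) ∧ ∀ x ∈ X, L ≤ E.dist u x with hQ2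
  set Q3 : SimpleGraph (Fin n) → Set (Fin n) → Prop := fun E X =>
    l ≤ Nat.card {u // ∀ x ∈ X, ¬ E.Reachable u x} with hQ3
  set Q4 : SimpleGraph (Fin n) → Set (Fin n) → Prop := fun E X =>
    ∃ x y : X, κ * ((torso E X).dist x y + Real.log n) < E.dist x.1 y.1 with hQ4
  have m1 := MainA_pairs (ε := ε / 2) n Q1
  have m2 := MainA_pairs (ε := ε / 2) n Q2
  have m3 := MainA_pairs (ε := ε / 2) n Q3
  have m4 := MainA_pairs (ε := ε / 2) n Q4
  set S : (SimpleGraph (Fin n) → Set (Fin n) → Prop) → Finset (SimpleGraph (Fin n) × Set (Fin n)) :=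
    fun Q => univ.filter fun p => IsPlanar p.1 ∧ IsCore p.1 p.2 ∧
      ε / 2 * n ≤ coreE p.1 p.2 ∧ Q p.1 p.2 with hS
  set B : Finset (SimpleGraph (Fin n)) := univ.filter fun E => IsPlanar E ∧
      ¬ ((∃ x y, c * (n : ℝ) ^ (1 / 4 : ℝ) ≤ E.dist x y) ∧
        ∀ x y, (E.dist x y : ℝ) ≤ κ * (C * (n : ℝ) ^ (1 / 4 : ℝ) + Real.log n) + 2 * L + l) with hB
  set F : Finset (SimpleGraph (Fin n)) := univ.filter fun E => IsPlanar E ∧
    CoreLt ((⌊ε * n⌋₊ : ℕ) : ℕ∞) E with hF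
  have hsub : B ⊆ F ∪ ((S Q1).image Prod.fst ∪ ((S Q2).image Prod.fst ∪
      ((S Q3).image Prod.fst ∪ (S Q4).image Prod.fst))) := by
    intro E hE
    rw [hB, mem_filter] at hE
    obtain ⟨-, hp, hbad⟩ := hE
    by_cases hcl : CoreLt ((⌊ε * n⌋₊ : ℕ) : ℕ∞) E
    · rw [mem_union]
      left
      rw [hF, mem_filter]
      exact ⟨mem_univ _, hp, hcl⟩
    · unfold CoreLt at hcl
      push Not at hcl
      obtain ⟨X, hX, hM⟩ := hcl
      have hM' : ⌊ε * n⌋₊ ≤ coreE E X := by exact_mod_cast hM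
      have hM2 : ε / 2 * n ≤ coreE E X := by
        have a1 : ε * n < ⌊ε * n⌋₊ + 1 := Nat.lt_floor_add_one _
        have a2 : (⌊ε * n⌋₊ : ℝ) ≤ coreE E X := by exact_mod_cast hM'
        linarith
      have key : Q1 E X ∨ Q2 E X ∨ Q3 E X ∨ Q4 E X := by
        by_contra hcon
        obtain ⟨n1, hcon⟩ := not_or.1 hcon
        obtain ⟨n2, hcon⟩ := not_or.1 hcon
        obtain ⟨n3, n4⟩ := not_or.1 hcon
        rw [hQ1] at n1
        simp only [not_or] at n1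
        exact hbad (good_graph hX hC hκ n1.1 n1.2 n2 n3 n4)
      have hm : ∀ Q, Q E X → E ∈ (S Q).image Prod.fst := by
        intro Q hQ
        rw [mem_image]
        refine ⟨(E, X), ?_, rfl⟩
        rw [hS, mem_filter]
        exact ⟨mem_univ _, hp, hX, hM2, hQ⟩
      rw [mem_union, mem_union, mem_union, mem_union]
      right
      rcases key with h | h | h | h
      · exact Or.inl (hm _ h)
      · exact Or.inr (Or.inl (hm _ h))
      · exact Or.inr (Or.inr (Or.inl (hm _ h)))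
      · exact Or.inr (Or.inr (Or.inr (hm _ h)))
  have hcard : (B.card : ℝ) ≤ F.card + ((S Q1).card + ((S Q2).card + ((S Q3).card +
      (S Q4).card))) := by
    have h1 := card_le_card hsub
    have h2 : (F ∪ ((S Q1).image Prod.fst ∪ ((S Q2).image Prod.fst ∪
      ((S Q3).image Prod.fst ∪ (S Q4).image Prod.fst)))).card ≤ F.card + ((S Q1).card +
        ((S Q2).card + ((S Q3).card + (S Q4).card))) := by
      refine (card_union_le _ _).trans (Nat.add_le_add_left ?_ _)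
      refine (card_union_le _ _).trans (Nat.add_le_add card_image_le ?_)
      refine (card_union_le _ _).trans (Nat.add_le_add card_image_le ?_)
      exact (card_union_le _ _).trans (Nat.add_le_add card_image_le card_image_le)
    exact_mod_cast h1.trans h2
  have hf : (0 : ℝ) < n.factorial := by exact_mod_cast n.factorial_pos
  have hg : gN ((⌊ε * n⌋₊ : ℕ) : ℕ∞) n = F.card / n.factorial := by
    unfold gN
    rw [Nat.card_eq_fintype_card, Fintype.card_subtype]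
  rw [hg, Nat.card_eq_fintype_card, Fintype.card_subtype]
  have h5 : (B.card : ℝ) / n.factorial ≤ (F.card + ((S Q1).card + ((S Q2).card + ((S Q3).card +
      (S Q4).card)))) / n.factorial := div_le_div_of_nonneg_right hcard hf.le
  rw [add_div, add_div, add_div, add_div] at h5
  linarith

theorem MainA_gN (n : ℕ) : gN ⊤ n =
    (Nat.card {G : SimpleGraph (Fin n) // IsPlanar G} : ℝ) / n.factorial := by
  unfold gN
  congr 2
  exact Nat.card_congr (Equiv.subtypeEquivRight fun G => ⟨fun h => h.1, fun h => ⟨h, coreLt_top G⟩⟩)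

/-- **Theorem A**: the diameter of the random planar graph with `n` labelled vertices is of order
`n^(1/4)` -/
theorem main_A (ε : ℝ) (hε : 0 < ε) : ∃ c C : ℝ, 0 < c ∧ 0 < C ∧ ∃ n0 : ℕ, ∀ n : ℕ, n0 ≤ n →
    (1 - ε) * Nat.card {G : SimpleGraph (Fin n) // IsPlanar G} ≤
      Nat.card {G : SimpleGraph (Fin n) // IsPlanar G ∧
        (∃ x y, c * (n : ℝ) ^ (1 / 4 : ℝ) ≤ G.dist x y) ∧
        ∀ x y, (G.dist x y : ℝ) ≤ C * (n : ℝ) ^ (1 / 4 : ℝ)} := by
  classical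
  obtain ⟨c0, hc0, n1, hZ⟩ := Z_low
  obtain ⟨εc, hεc, n2, hcore⟩ := no_core
  set ε1 : ℝ := min εc (1 / 2) with hε1
  have hε1pos : 0 < ε1 := lt_min hεc (by norm_num)
  have hε1a : ε1 ≤ εc := min_le_left _ _
  have hε1b : ε1 ≤ 1 / 2 := min_le_right _ _
  have hh : 0 < ε1 / 2 := by linarith
  have hh1 : ε1 / 2 < 1 := by linarith
  set δ : ℝ := c0 * ε / 8 with hδ
  have hδpos : 0 < δ := by positivity
  obtain ⟨c, C, hc, hC, n3, hdiam⟩ := bad_diam hh hh1 hδpos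
  obtain ⟨n4, hfar⟩ := bad_far hh hh1 hδpos
  obtain ⟨l, n5, hrest⟩ := bad_rest hh hh1 hδpos
  obtain ⟨κ, hκ, n6, hpath⟩ := bad_path hh hh1 hδpos
  have hC' : 0 < κ * (C + 4) + 4 + l := by positivity
  refine ⟨c, κ * (C + 4) + 4 + l, hc, hC', ?_⟩
  obtain ⟨n7, hn7⟩ := exists_nat_gt (2 / ε1)
  obtain ⟨n8, hn8⟩ := exists_nat_gt (4 / (c0 * ε))
  refine ⟨n1 + n2 + n3 + n4 + n5 + n6 + n7 + n8 + 1, fun n hn => ?_⟩
  have hn1 : (1 : ℝ) ≤ n := by exact_mod_cast (by omega : 1 ≤ n)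
  have hnpos : (0 : ℝ) < n := by linarith
  have hn7' : (n7 : ℝ) ≤ n := by exact_mod_cast (by omega : n7 ≤ n)
  have hn8' : (n8 : ℝ) ≤ n := by exact_mod_cast (by omega : n8 ≤ n)
  have hn2 : 2 ≤ ε1 * n := by
    have h1 : 2 / ε1 ≤ n := by linarith
    rw [div_le_iff₀ hε1pos] at h1
    linarith
  set L : ℕ := ⌈(n : ℝ) ^ (23 / 100 : ℝ)⌉₊ with hL
  have hrho : 0 < rho := lt_of_lt_of_le (by norm_num) rho_ge
  have hf : (0 : ℝ) < n.factorial := by exact_mod_cast n.factorial_pos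
  have hw : 0 < rho ^ n / n.factorial := by positivity
  -- the number of bad graphs
  have hbad := bad_count (c := c) (L := L) (l := l) hε1pos hn2 hC.le hκ.le
  set B : ℝ := (Nat.card {E : SimpleGraph (Fin n) // IsPlanar E ∧
      ¬ ((∃ x y, c * (n : ℝ) ^ (1 / 4 : ℝ) ≤ E.dist x y) ∧
        ∀ x y, (E.dist x y : ℝ) ≤ κ * (C * (n : ℝ) ^ (1 / 4 : ℝ) + Real.log n) + 2 * L + l)} : ℝ)
    with hB
  set s1 := sVE n (ε1 / 2) (fun v e => pairN n v e (fun E X =>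
        PBig (C * (n : ℝ) ^ (1 / 4 : ℝ)) _ (torso E X) ∨
        PSmall (c * (n : ℝ) ^ (1 / 4 : ℝ)) _ (torso E X))) with hs1
  set s2 := sVE n (ε1 / 2) (fun v e => pairN n v e (fun E X =>
        ∃ u, (∃ x ∈ X, E.Reachable u x) ∧ ∀ x ∈ X, L ≤ E.dist u x)) with hs2
  set s3 := sVE n (ε1 / 2) (fun v e => pairN n v e (fun E X =>
        l ≤ Nat.card {u // ∀ x ∈ X, ¬ E.Reachable u x})) with hs3
  set s4 := sVE n (ε1 / 2) (fun v e => pairN n v e (fun E X =>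
        ∃ x y : X, κ * ((torso E X).dist x y + Real.log n) < E.dist x.1 y.1)) with hs4
  have d1 : s1 * rho ^ n ≤ δ * (n : ℝ) ^ (-(7 / 2) : ℝ) := hdiam n (by omega)
  have d2 : s2 * rho ^ n ≤ δ * (n : ℝ) ^ (-(7 / 2) : ℝ) := hfar n (by omega)
  have d3 : s3 * rho ^ n ≤ δ * (n : ℝ) ^ (-(7 / 2) : ℝ) := hrest n (by omega)
  have d4 : s4 * rho ^ n ≤ δ * (n : ℝ) ^ (-(7 / 2) : ℝ) := hpath n (by omega)
  have d5 : gN ((⌊ε1 * n⌋₊ : ℕ) : ℕ∞) n * rho ^ n ≤ (n : ℝ) ^ (-5 : ℝ) := by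
    have h1 : ((⌊ε1 * n⌋₊ : ℕ) : ℝ) ≤ εc * n :=
      (Nat.floor_le (by positivity)).trans (mul_le_mul_of_nonneg_right hε1a hnpos.le)
    exact hcore n (by omega) _ h1
  have d6 : (n : ℝ) ^ (-5 : ℝ) ≤ (c0 * ε / 4) * (n : ℝ) ^ (-(7 / 2) : ℝ) := by
    have h1 : (n : ℝ) ^ (-5 : ℝ) = (n : ℝ) ^ (-(3 / 2) : ℝ) * (n : ℝ) ^ (-(7 / 2) : ℝ) := by
      rw [← Real.rpow_add hnpos]
      norm_num
    rw [h1]
    refine mul_le_mul_of_nonneg_right ?_ (Real.rpow_nonneg hnpos.le _)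
    have h2 : (n : ℝ) ^ (-(3 / 2) : ℝ) ≤ (n : ℝ) ^ (-1 : ℝ) :=
      Real.rpow_le_rpow_of_exponent_le hn1 (by norm_num)
    refine h2.trans ?_
    rw [Real.rpow_neg_one]
    have h3 : 4 / (c0 * ε) < n := by linarith
    have h4 : 0 < c0 * ε := by positivity
    rw [div_lt_iff₀ h4] at h3
    rw [inv_le_iff_one_le_mul₀ hnpos]
    linarith
  have hZn := hZ n (by omega)
  have hN := MainA_gN n
  set N : ℝ := (Nat.card {G : SimpleGraph (Fin n) // IsPlanar G} : ℝ) with hNdef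
  have hBN : B ≤ ε * N := by
    have h1 : B * (rho ^ n / n.factorial) ≤ ε * N * (rho ^ n / n.factorial) := by
      have e1 : B * (rho ^ n / n.factorial) = B / n.factorial * rho ^ n := by ring
      have e2 : ε * N * (rho ^ n / n.factorial) = ε * (gN ⊤ n * rho ^ n) := by rw [hN]; ring
      rw [e1, e2]
      have e3 : B / n.factorial * rho ^ n ≤ (gN ((⌊ε1 * n⌋₊ : ℕ) : ℕ∞) n + s1 + s2 + s3 + s4) *
          rho ^ n := mul_le_mul_of_nonneg_right hbad (by positivity)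
      have e4 : ε * (c0 * (n : ℝ) ^ (-(7 / 2) : ℝ)) ≤ ε * (gN ⊤ n * rho ^ n) :=
        mul_le_mul_of_nonneg_left hZn hε.le
      have e5 : (0 : ℝ) ≤ (n : ℝ) ^ (-(7 / 2) : ℝ) := Real.rpow_nonneg hnpos.le _
      rw [hδ] at d1 d2 d3 d4
      have e6 : 0 ≤ c0 * ε * (n : ℝ) ^ (-(7 / 2) : ℝ) := by positivity
      nlinarith
    exact le_of_mul_le_mul_right h1 hw
  -- all planar graphs are good or bad
  have hlog : Real.log n ≤ 4 * (n : ℝ) ^ (1 / 4 : ℝ) := by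
    have := Real.log_le_rpow_div hnpos.le (ε := 1 / 4) (by norm_num)
    linarith
  have h14 : (1 : ℝ) ≤ (n : ℝ) ^ (1 / 4 : ℝ) := Real.one_le_rpow hn1 (by norm_num)
  have hLn : (L : ℝ) ≤ 2 * (n : ℝ) ^ (1 / 4 : ℝ) := by
    have h1 : (L : ℝ) < (n : ℝ) ^ (23 / 100 : ℝ) + 1 :=
      Nat.ceil_lt_add_one (Real.rpow_nonneg hnpos.le _)
    have h2 : (n : ℝ) ^ (23 / 100 : ℝ) ≤ (n : ℝ) ^ (1 / 4 : ℝ) :=
      Real.rpow_le_rpow_of_exponent_le hn1 (by norm_num)
    linarith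
  have hCn : κ * (C * (n : ℝ) ^ (1 / 4 : ℝ) + Real.log n) + 2 * L + l ≤
      (κ * (C + 4) + 4 + l) * (n : ℝ) ^ (1 / 4 : ℝ) := by
    have h1 : κ * (C * (n : ℝ) ^ (1 / 4 : ℝ) + Real.log n) ≤
        κ * (C * (n : ℝ) ^ (1 / 4 : ℝ) + 4 * (n : ℝ) ^ (1 / 4 : ℝ)) :=
      mul_le_mul_of_nonneg_left (by linarith) hκ.le
    have h2 : (l : ℝ) ≤ l * (n : ℝ) ^ (1 / 4 : ℝ) := by
      have h3 : (0 : ℝ) ≤ l := Nat.cast_nonneg l
      nlinarith
    nlinarith
  have hsplit : N ≤ (Nat.card {G : SimpleGraph (Fin n) // IsPlanar G ∧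
        (∃ x y, c * (n : ℝ) ^ (1 / 4 : ℝ) ≤ G.dist x y) ∧
        ∀ x y, (G.dist x y : ℝ) ≤ (κ * (C + 4) + 4 + l) * (n : ℝ) ^ (1 / 4 : ℝ)} : ℝ) + B := by
    rw [hNdef, hB]
    rw [Nat.card_eq_fintype_card, Nat.card_eq_fintype_card, Nat.card_eq_fintype_card,
      Fintype.card_subtype, Fintype.card_subtype, Fintype.card_subtype]
    have h1 : (univ.filter fun G : SimpleGraph (Fin n) => IsPlanar G) ⊆
        (univ.filter fun G : SimpleGraph (Fin n) => IsPlanar G ∧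
          (∃ x y, c * (n : ℝ) ^ (1 / 4 : ℝ) ≤ G.dist x y) ∧
          ∀ x y, (G.dist x y : ℝ) ≤ (κ * (C + 4) + 4 + l) * (n : ℝ) ^ (1 / 4 : ℝ)) ∪
        (univ.filter fun E : SimpleGraph (Fin n) => IsPlanar E ∧
      ¬ ((∃ x y, c * (n : ℝ) ^ (1 / 4 : ℝ) ≤ E.dist x y) ∧
        ∀ x y, (E.dist x y : ℝ) ≤ κ * (C * (n : ℝ) ^ (1 / 4 : ℝ) + Real.log n) + 2 * L + l)) := by
      intro G hG
      rw [mem_filter] at hG
      rw [mem_union, mem_filter, mem_filter]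
      by_cases hgood : (∃ x y, c * (n : ℝ) ^ (1 / 4 : ℝ) ≤ G.dist x y) ∧
        ∀ x y, (G.dist x y : ℝ) ≤ κ * (C * (n : ℝ) ^ (1 / 4 : ℝ) + Real.log n) + 2 * L + l
      · exact Or.inl ⟨mem_univ _, hG.2, hgood.1, fun x y => (hgood.2 x y).trans hCn⟩
      · exact Or.inr ⟨mem_univ _, hG.2, hgood⟩
    have h2 := (card_le_card h1).trans (card_union_le _ _)
    exact_mod_cast h2
  linarith

end Dia
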