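import Pool.Agent.Dia.MainA
import Pool.Agent.Dia.LowTail

/-!
# Module MainB: the final statement
-/

namespace Dia
open Finset PGr Filter Topology

/-- the largest distance between two vertices in the same component (`G.dist = 0` for vertices in different
components) -/
noncomputable def diamG {n : ℕ} (G : SimpleGraph (Fin n)) : ℕ :=
  (univ : Finset (Fin n × Fin n)).sup fun p => G.dist p.1 p.2

/-- probability of `P` for the uniform planar graph on `Fin n` -/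
noncomputable def prPl (n : ℕ) (P : SimpleGraph (Fin n) → Prop) : ℝ :=
  Nat.card {G : SimpleGraph (Fin n) // IsPlanar G ∧ P G} / Nat.card {G : SimpleGraph (Fin n) // IsPlanar G}

theorem diamG_le_iff {n : ℕ} {G : SimpleGraph (Fin n)} {r : ℝ} (hr : 0 ≤ r) :
    (diamG G : ℝ) ≤ r ↔ ∀ x y, (G.dist x y : ℝ) ≤ r := by
  constructor
  · intro h x y
    refine le_trans ?_ h
    exact_mod_cast Finset.le_sup (f := fun p : Fin n × Fin n => G.dist p.1 p.2) (mem_univ (x, y))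
  · intro h
    rw [← Nat.le_floor_iff hr]
    refine Finset.sup_le fun p _ => ?_
    exact Nat.le_floor (h p.1 p.2)

theorem le_diamG {n : ℕ} {G : SimpleGraph (Fin n)} (x y : Fin n) : G.dist x y ≤ diamG G :=
  Finset.le_sup (f := fun p : Fin n × Fin n => G.dist p.1 p.2) (mem_univ (x, y))

theorem card_planar_pos (n : ℕ) : (0 : ℝ) < Nat.card {G : SimpleGraph (Fin n) // IsPlanar G} := by
  have : Nonempty {G : SimpleGraph (Fin n) // IsPlanar G} := ⟨⟨⊥, planar_bot⟩⟩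
  exact_mod_cast Nat.card_pos

theorem prPl_mono {n : ℕ} {P Q : SimpleGraph (Fin n) → Prop} (h : ∀ G, P G → Q G) :
    prPl n P ≤ prPl n Q := by
  unfold prPl
  refine div_le_div_of_nonneg_right ?_ (Nat.cast_nonneg _)
  exact_mod_cast Nat.card_le_card_of_injective
    (fun G : {G : SimpleGraph (Fin n) // IsPlanar G ∧ P G} =>
      (⟨G.1, G.2.1, h _ G.2.2⟩ : {G : SimpleGraph (Fin n) // IsPlanar G ∧ Q G}))
    (fun a b hab => Subtype.ext (by simpa using congrArg Subtype.val hab))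

/-- two events of total probability > 1 have a common graph -/
theorem prPl_inter {n : ℕ} {P Q : SimpleGraph (Fin n) → Prop} (h : 1 < prPl n P + prPl n Q) :
    ∃ G, IsPlanar G ∧ P G ∧ Q G := by
  classical
  by_contra hcon
  push Not at hcon
  have hN := card_planar_pos n
  unfold prPl at h
  rw [← add_div, lt_div_iff₀ hN, one_mul] at h
  have h1 : Nat.card {G : SimpleGraph (Fin n) // IsPlanar G ∧ P G} +
      Nat.card {G : SimpleGraph (Fin n) // IsPlanar G ∧ Q G} ≤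
      Nat.card {G : SimpleGraph (Fin n) // IsPlanar G} := by
    rw [← Nat.card_sum]
    refine Nat.card_le_card_of_injective
      (Sum.elim (fun G => ⟨G.1, G.2.1⟩) (fun G => ⟨G.1, G.2.1⟩)) ?_
    rintro (a | a) (b | b) hab
    · simp only [Sum.elim_inl, Subtype.mk.injEq] at hab
      exact congrArg _ (Subtype.ext hab)
    · simp only [Sum.elim_inl, Sum.elim_inr, Subtype.mk.injEq] at hab
      exact absurd (hab ▸ b.2.2 : Q a.1) (hcon _ a.2.1 a.2.2)
    · simp only [Sum.elim_inl, Sum.elim_inr, Subtype.mk.injEq] at hab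
      exact absurd (hab ▸ a.2.2 : Q b.1) (hcon _ b.2.1 b.2.2)
    · simp only [Sum.elim_inr, Subtype.mk.injEq] at hab
      exact congrArg _ (Subtype.ext hab)
  have h2 : (Nat.card {G : SimpleGraph (Fin n) // IsPlanar G ∧ P G} : ℝ) +
      Nat.card {G : SimpleGraph (Fin n) // IsPlanar G ∧ Q G} ≤
      Nat.card {G : SimpleGraph (Fin n) // IsPlanar G} := by exact_mod_cast h1
  linarith

/-- Theorem A in terms of probabilities -/
theorem main_A' (ε : ℝ) (hε : 0 < ε) : ∃ c C : ℝ, 0 < c ∧ c ≤ C ∧ ∀ᶠ n : ℕ in atTop,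
    1 - ε ≤ prPl n fun G => c * (n : ℝ) ^ (1 / 4 : ℝ) ≤ diamG G ∧
      (diamG G : ℝ) ≤ C * (n : ℝ) ^ (1 / 4 : ℝ) := by
  obtain ⟨c, C, hc, hC, n0, h⟩ := main_A ε hε
  refine ⟨c, max c C, hc, le_max_left _ _, ?_⟩
  filter_upwards [eventually_ge_atTop n0] with n hn
  have h1 := h n hn
  have hN := card_planar_pos n
  have h2 : (1 - ε) ≤ prPl n fun G => (∃ x y, c * (n : ℝ) ^ (1 / 4 : ℝ) ≤ G.dist x y) ∧
        ∀ x y, (G.dist x y : ℝ) ≤ C * (n : ℝ) ^ (1 / 4 : ℝ) := by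
    unfold prPl
    rw [le_div_iff₀ hN]
    exact h1
  refine le_trans h2 (prPl_mono fun G hG => ?_)
  have hn4 : (0 : ℝ) ≤ (n : ℝ) ^ (1 / 4 : ℝ) := Real.rpow_nonneg (Nat.cast_nonneg n) _
  obtain ⟨⟨x, y, hxy⟩, h3⟩ := hG
  refine ⟨hxy.trans (by exact_mod_cast le_diamG x y), ?_⟩
  rw [diamG_le_iff (mul_nonneg (hC.le.trans (le_max_right _ _)) hn4)]
  exact fun x y => (h3 x y).trans (mul_le_mul_of_nonneg_right (le_max_right _ _) hn4)

/-- Theorem B' in terms of probabilities -/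
theorem lower_tail' (c : ℝ) (hc : 0 < c) : ∃ η : ℝ, 0 < η ∧ ∀ᶠ n : ℕ in atTop,
    η ≤ prPl n fun G => (diamG G : ℝ) ≤ c * (n : ℝ) ^ (1 / 4 : ℝ) := by
  obtain ⟨η, hη, n0, h⟩ := lower_tail c hc
  refine ⟨η, hη, ?_⟩
  filter_upwards [eventually_ge_atTop n0] with n hn
  have hN := card_planar_pos n
  have h2 : η ≤ prPl n fun G => ∀ x y, (G.dist x y : ℝ) ≤ c * (n : ℝ) ^ (1 / 4 : ℝ) := by
    unfold prPl
    rw [le_div_iff₀ hN]
    exact h n hn
  refine le_trans h2 (prPl_mono fun G hG => ?_)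
  have hn4 : (0 : ℝ) ≤ (n : ℝ) ^ (1 / 4 : ℝ) := Real.rpow_nonneg (Nat.cast_nonneg n) _
  rw [diamG_le_iff (mul_nonneg hc.le hn4)]
  exact hG

/-- no deterministic function with constant factors w.h.p. -/
theorem no_order (f : ℕ → ℝ) (c C : ℝ) (hc : 0 < c) (hcC : c ≤ C) :
    ¬ Tendsto (fun n => prPl n fun G => c * f n ≤ diamG G ∧ (diamG G : ℝ) ≤ C * f n) atTop (𝓝 1) := by
  intro hT
  have hCpos : 0 < C := hc.trans_le hcC
  obtain ⟨c1, C1, hc1, _, hA⟩ := main_A' (1 / 4) (by norm_num)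
  obtain ⟨η, hη, hB⟩ := lower_tail' (c * c1 / (2 * C)) (by positivity)
  have hT1 : ∀ᶠ n : ℕ in atTop, 1 - min η (1 / 4) / 2 <
      prPl n fun G => c * f n ≤ diamG G ∧ (diamG G : ℝ) ≤ C * f n := by
    refine hT.eventually_const_lt ?_
    have : 0 < min η (1 / 4) := lt_min hη (by norm_num)
    linarith
  obtain ⟨n, hn1, hn2, hn3, hn4⟩ := (hA.and (hB.and (hT1.and (eventually_ge_atTop 1)))).exists
  have hm1 : min η (1 / 4) ≤ η := min_le_left _ _
  have hm2 : min η (1 / 4) ≤ 1 / 4 := min_le_right _ _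
  have hmpos : 0 < min η (1 / 4) := lt_min hη (by norm_num)
  have hnpos : (0 : ℝ) < (n : ℝ) ^ (1 / 4 : ℝ) := Real.rpow_pos_of_pos (by exact_mod_cast hn4) _
  obtain ⟨G, _, hG1, hG2⟩ := prPl_inter (n := n)
    (P := fun G => c * f n ≤ diamG G ∧ (diamG G : ℝ) ≤ C * f n)
    (Q := fun G => c1 * (n : ℝ) ^ (1 / 4 : ℝ) ≤ diamG G ∧ (diamG G : ℝ) ≤ C1 * (n : ℝ) ^ (1 / 4 : ℝ))
    (by linarith)
  have h1 : c1 * (n : ℝ) ^ (1 / 4 : ℝ) ≤ C * f n := hG2.1.trans hG1.2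
  obtain ⟨G', _, hG3, hG4⟩ := prPl_inter (n := n)
    (P := fun G => c * f n ≤ diamG G ∧ (diamG G : ℝ) ≤ C * f n)
    (Q := fun G => (diamG G : ℝ) ≤ c * c1 / (2 * C) * (n : ℝ) ^ (1 / 4 : ℝ))
    (by linarith)
  have h2 : c * f n ≤ c * c1 / (2 * C) * (n : ℝ) ^ (1 / 4 : ℝ) := hG3.1.trans hG4
  have h3 : c1 * (n : ℝ) ^ (1 / 4 : ℝ) / C ≤ f n := by
    rw [div_le_iff₀ hCpos]; linarith
  have h4 : c * (c1 * (n : ℝ) ^ (1 / 4 : ℝ) / C) ≤ c * c1 / (2 * C) * (n : ℝ) ^ (1 / 4 : ℝ) :=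
    (mul_le_mul_of_nonneg_left h3 hc.le).trans h2
  have h5 : c * c1 / (2 * C) * (n : ℝ) ^ (1 / 4 : ℝ) = c * (c1 * (n : ℝ) ^ (1 / 4 : ℝ) / C) / 2 := by
    field_simp
  have h6 : 0 < c * (c1 * (n : ℝ) ^ (1 / 4 : ℝ) / C) := by positivity
  linarith

end Dia
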