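import Pool.Agent.Dia.MAdd
import Pool.Agent.Dia.MGlue

/-!
# The master bijection

`E ↦ (f, parts)`; `f` by `exists_ix`.  Injective: an edge `u v` of `E` is an edge of a part (`Fits`).  Surjective: given
`(f, s)` let `E` be the union of the parts; `Fits`, `Conn3`, and the parts of `E` are the given ones; `fit_ix`,
`fit_torso`, `fit_core`, `glue_planar`.
-/

set_option linter.unusedSectionVars false

namespace Dia
open PGr

section uniform
variable {V : Type} [LinearOrder V] {X : Set V} {K : SimpleGraph X}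

/-- vertices of the part with index `i` -/
def MVt (K : SimpleGraph X) : Idx K → Type → Type
  | .inl _, A => Option A
  | .inr (.inl _), A => A ⊕ Bool
  | .inr (.inr _), A => A

/-- all embeddings together -/
def membi (f : ↥Xᶜ → Idx K) : ∀ i : Idx K, MVt K i {a // f a = i} → V
  | .inl x => emb1 f x
  | .inr (.inl e) => emb2 f e
  | .inr (.inr _) => emb0 f

/-- the graph of a structure -/
def mgr : ∀ (i : Idx K) (A : Type), Str K i A → SimpleGraph (MVt K i A)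
  | .inl _, _, s => s.1
  | .inr (.inl _), _, s => s.1
  | .inr (.inr _), _, s => s.1

/-- the vertices of a part in `V` -/
def mvs (f : ↥Xᶜ → Idx K) (i : Idx K) : Set V :=
  {w | (∃ h : w ∈ Xᶜ, f ⟨w, h⟩ = i) ∨ ∃ h : w ∈ X, ⟨w, h⟩ ∈ ends K i}

theorem membi_inj (f : ↥Xᶜ → Idx K) : ∀ i, Function.Injective (membi f i)
  | .inl x => emb1_inj f x
  | .inr (.inl e) => emb2_inj f e
  | .inr (.inr _) => emb0_inj f

theorem membi_mem (f : ↥Xᶜ → Idx K) : ∀ i a, membi f i a ∈ mvs f i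
  | .inl x, none => Or.inr ⟨x.2, rfl⟩
  | .inl x, some a => Or.inl ⟨a.1.2, a.2⟩
  | .inr (.inl e), .inl a => Or.inl ⟨a.1.2, a.2⟩
  | .inr (.inl e), .inr b => Or.inr ⟨(pole e.1 b).2, by
      have h : pole e.1 b ∈ ends K (.inr (.inl e)) := by
        rw [ends_edge]
        cases b <;> simp
      exact h⟩
  | .inr (.inr _), a => Or.inl ⟨a.1.2, a.2⟩

theorem membi_surj (f : ↥Xᶜ → Idx K) : ∀ i, ∀ w ∈ mvs f i, ∃ a, membi f i a = w
  | .inl x, w, h => by
      rcases h with ⟨h, hf⟩ | ⟨h, hx⟩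
      · exact ⟨some ⟨⟨w, h⟩, hf⟩, rfl⟩
      · refine ⟨none, ?_⟩
        have : (⟨w, h⟩ : X) = x := hx
        exact (congrArg Subtype.val this).symm
  | .inr (.inl e), w, h => by
      rcases h with ⟨h, hf⟩ | ⟨h, hx⟩
      · exact ⟨Sum.inl ⟨⟨w, h⟩, hf⟩, rfl⟩
      · rw [ends_edge] at hx
        rcases hx with hx | hx
        · exact ⟨Sum.inr false, (congrArg Subtype.val hx).symm⟩
        · exact ⟨Sum.inr true, (congrArg Subtype.val hx).symm⟩
  | .inr (.inr u), w, h => by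
      rcases h with ⟨h, hf⟩ | ⟨h, hx⟩
      · exact ⟨⟨⟨w, h⟩, hf⟩, rfl⟩
      · exact absurd hx (Set.notMem_empty _)

theorem ends_two {i : Idx K} {x y : X} (h : x ≠ y) (hx : x ∈ ends K i) (hy : y ∈ ends K i) :
    K.Adj x y ∧ ends K i = {x, y} := by
  rcases i with z | e | u
  · exact absurd ((show x = z from hx).trans (show y = z from hy).symm) h
  · have hx' : x ∈ e.1 := hx
    have hy' : y ∈ e.1 := hy
    have he : e.1 = s(x, y) := (Sym2.mem_and_mem_iff h).1 ⟨hx', hy'⟩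
    have hadj : K.Adj x y := by
      have := e.2
      rw [he] at this
      exact this
    refine ⟨hadj, ?_⟩
    ext z
    change z ∈ e.1 ↔ _
    rw [he]
    simp
  · exact absurd hx (Set.notMem_empty _)

theorem mvs_unique (f : ↥Xᶜ → Idx K) {u v : V} (h : u ≠ v) {i j : Idx K} (hi : u ∈ mvs f i)
    (hi' : v ∈ mvs f i) (hj : u ∈ mvs f j) (hj' : v ∈ mvs f j) : i = j := by
  rcases hi with ⟨hu, hi⟩ | ⟨hu, hi⟩
  · rcases hj with ⟨hu', hj⟩ | ⟨hu', hj⟩
    · exact hi.symm.trans hj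
    · exact absurd hu' hu
  · rcases hj with ⟨hu', hj⟩ | ⟨hu', hj⟩
    · exact absurd hu hu'
    · rcases hi' with ⟨hv, hi'⟩ | ⟨hv, hi'⟩
      · rcases hj' with ⟨hv', hj'⟩ | ⟨hv', hj'⟩
        · exact hi'.symm.trans hj'
        · exact absurd hv' hv
      · rcases hj' with ⟨hv', hj'⟩ | ⟨hv', hj'⟩
        · exact absurd hv hv'
        · have hne : (⟨u, hu⟩ : X) ≠ ⟨v, hv⟩ := fun h' => h (congrArg Subtype.val h')
          exact ends_inj ((ends_two hne hi hi').2.trans (ends_two hne hj hj').2.symm)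

theorem Fits.mvs {E : SimpleGraph V} {f : ↥Xᶜ → Idx K} (h : Fits E K f) {u v : V}
    (huv : E.Adj u v) : ∃ i, u ∈ mvs f i ∧ v ∈ mvs f i := by
  by_cases hu : u ∈ X
  · by_cases hv : v ∈ X
    · have hadj := h.inn ⟨u, hu⟩ ⟨v, hv⟩ huv
      refine ⟨.inr (.inl ⟨s(⟨u, hu⟩, ⟨v, hv⟩), hadj⟩), Or.inr ⟨hu, ?_⟩, Or.inr ⟨hv, ?_⟩⟩
      · rw [ends_mk hadj]; simp
      · rw [ends_mk hadj]; simp
    · exact ⟨f ⟨v, hv⟩, Or.inr ⟨hu, h.mid ⟨v, hv⟩ ⟨u, hu⟩ huv.symm⟩, Or.inl ⟨hv, rfl⟩⟩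
  · by_cases hv : v ∈ X
    · exact ⟨f ⟨u, hu⟩, Or.inl ⟨hu, rfl⟩, Or.inr ⟨hv, h.mid ⟨u, hu⟩ ⟨v, hv⟩ huv⟩⟩
    · exact ⟨f ⟨u, hu⟩, Or.inl ⟨hu, rfl⟩, Or.inl ⟨hv, (h.out ⟨u, hu⟩ ⟨v, hv⟩ huv).symm⟩⟩

theorem Parts.comap {E : SimpleGraph V} {f : ↥Xᶜ → Idx K} {s : ∀ i, Str K i {a // f a = i}}
    (h : Parts E K f s) : ∀ i, mgr i _ (s i) = E.comap (membi f i)
  | .inl x => h.vert x
  | .inr (.inl e) => h.edge e
  | .inr (.inr _) => h.rest

/-- the union of the parts -/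
def mbuild (f : ↥Xᶜ → Idx K) (s : ∀ i, Str K i {a // f a = i}) : SimpleGraph V where
  Adj u v := ∃ i a b, (mgr i _ (s i)).Adj a b ∧ membi f i a = u ∧ membi f i b = v
  symm := ⟨fun _ _ ⟨i, a, b, h, h1, h2⟩ => ⟨i, b, a, h.symm, h2, h1⟩⟩
  loopless := ⟨fun _ ⟨i, _, _, h, h1, h2⟩ => h.ne (membi_inj f i (h1.trans h2.symm))⟩

theorem mbuild_comap (f : ↥Xᶜ → Idx K) (s : ∀ i, Str K i {a // f a = i}) (i : Idx K) :
    mgr i _ (s i) = (mbuild f s).comap (membi f i) := by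
  ext a b
  constructor
  · intro h
    exact ⟨i, a, b, h, rfl, rfl⟩
  · rintro ⟨j, a', b', h, h1, h2⟩
    have hne : membi f i a ≠ membi f i b := by
      rw [← h1, ← h2]
      exact fun h' => h.ne (membi_inj f j h')
    have hij : j = i := mvs_unique f hne (h1 ▸ membi_mem f j a') (h2 ▸ membi_mem f j b')
      (membi_mem f i a) (membi_mem f i b)
    subst hij
    rw [membi_inj f j h1, membi_inj f j h2] at h
    exact h

theorem mbuild_parts (f : ↥Xᶜ → Idx K) (s : ∀ i, Str K i {a // f a = i}) :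
    Parts (mbuild f s) K f s where
  vert x := mbuild_comap f s (.inl x)
  edge e := mbuild_comap f s (.inr (.inl e))
  rest := mbuild_comap f s (.inr (.inr ()))

theorem mbuild_mvs (f : ↥Xᶜ → Idx K) (s : ∀ i, Str K i {a // f a = i}) {u v : V}
    (h : (mbuild f s).Adj u v) : ∃ i, u ∈ mvs f i ∧ v ∈ mvs f i := by
  obtain ⟨i, a, b, -, rfl, rfl⟩ := h
  exact ⟨i, membi_mem f i a, membi_mem f i b⟩

theorem mbuild_fits (f : ↥Xᶜ → Idx K) (s : ∀ i, Str K i {a // f a = i}) :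
    Fits (mbuild f s) K f where
  inn x y h := by
    obtain ⟨i, hx, hy⟩ := mbuild_mvs f s h
    rcases hx with ⟨hx, -⟩ | ⟨hx, hx'⟩
    · exact absurd x.2 hx
    · rcases hy with ⟨hy, -⟩ | ⟨hy, hy'⟩
      · exact absurd y.2 hy
      · exact (ends_two (fun h' => h.ne (congrArg Subtype.val h')) hx' hy').1
  mid a x h := by
    obtain ⟨i, ha, hx⟩ := mbuild_mvs f s h
    rcases ha with ⟨ha, hf⟩ | ⟨ha, -⟩
    · rcases hx with ⟨hx, -⟩ | ⟨hx, hx'⟩
      · exact absurd x.2 hx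
      · rw [← hf] at hx'
        exact hx'
    · exact absurd ha a.2
  out a a' h := by
    obtain ⟨i, ha, hx⟩ := mbuild_mvs f s h
    rcases ha with ⟨ha, hf⟩ | ⟨ha, -⟩
    · rcases hx with ⟨hx, hf'⟩ | ⟨hx, -⟩
      · exact hf.trans hf'.symm
      · exact absurd hx a'.2
    · exact absurd ha a.2

/-- a graph is determined by its parts -/
theorem parts_inj {E E' : SimpleGraph V} {f : ↥Xᶜ → Idx K} {s : ∀ i, Str K i {a // f a = i}}
    (h : Fits E K f) (h' : Fits E' K f) (hs : Parts E K f s) (hs' : Parts E' K f s) : E = E' := by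
  have key : ∀ {E E' : SimpleGraph V}, Fits E K f → Parts E K f s → Parts E' K f s →
      ∀ u v, E.Adj u v → E'.Adj u v := by
    intro E E' h hs hs' u v huv
    obtain ⟨i, hu, hv⟩ := h.mvs huv
    obtain ⟨a, rfl⟩ := membi_surj f i u hu
    obtain ⟨b, rfl⟩ := membi_surj f i v hv
    have h1 : (E.comap (membi f i)).Adj a b := huv
    rw [← hs.comap i, hs'.comap i] at h1
    exact h1
  ext u v
  exact ⟨key h hs hs' u v, key h' hs' hs u v⟩

/-- the parts as structures -/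
def mstr (E : SimpleGraph V) (f : ↥Xᶜ → Idx K) (h1 : ∀ x, RR (E.comap (emb1 f x)))
    (h2 : ∀ e, DD (E.comap (emb2 f e))) (h0 : IsPlanar (E.comap (emb0 f))) :
    ∀ i, Str K i {a // f a = i}
  | .inl x => ⟨E.comap (emb1 f x), h1 x⟩
  | .inr (.inl e) => ⟨E.comap (emb2 f e), h2 e⟩
  | .inr (.inr _) => ⟨E.comap (emb0 f), h0⟩

theorem mstr_eq (E : SimpleGraph V) {f f' : ↥Xᶜ → Idx K} (h1 : ∀ x, RR (E.comap (emb1 f' x)))
    (h2 : ∀ e, DD (E.comap (emb2 f' e))) (h0 : IsPlanar (E.comap (emb0 f')))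
    {s : ∀ i, Str K i {a // f a = i}} (hf : f' = f) (hs : Parts E K f s) :
    (⟨f', mstr E f' h1 h2 h0⟩ : Σ f : (↥Xᶜ → Idx K), ∀ i, Str K i {a // f a = i}) = ⟨f, s⟩ := by
  subst hf
  congr 1
  funext i
  rcases i with x | e | u
  · exact Subtype.ext (hs.vert x).symm
  · exact Subtype.ext (hs.edge e).symm
  · exact Subtype.ext hs.rest.symm

end uniform

variable {V : Type} [LinearOrder V] [Finite V] {X : Set V}

theorem master (K : SimpleGraph X) (h3 : ThreeConn K) (hp : IsPlanar K) :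
    ∃ F : {E : SimpleGraph V // IsPlanar E ∧ IsCore E X ∧ torso E X = K} ≃
        (Σ f : (↥Xᶜ → Idx K), ∀ i, Str K i {a // f a = i}),
      ∀ E, Fits E.1 K (F E).1 ∧ Conn3 E.1 K (F E).1 ∧ IsIx E.1 K (F E).1 ∧
        Parts E.1 K (F E).1 (F E).2 := by
  classical
  have hex : ∀ E : {E : SimpleGraph V // IsPlanar E ∧ IsCore E X ∧ torso E X = K},
      ∃ f : ↥Xᶜ → Idx K, IsIx E.1 K f := by
    rintro ⟨E, hE, hc, rfl⟩
    exact exists_ix hc.att2
  choose fE hfE using hex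
  have hfits : ∀ E : {E : SimpleGraph V // IsPlanar E ∧ IsCore E X ∧ torso E X = K},
      Fits E.1 K (fE E) := fun E => cor_fits E.2.2.2 (hfE E)
  have hconn : ∀ E : {E : SimpleGraph V // IsPlanar E ∧ IsCore E X ∧ torso E X = K},
      Conn3 E.1 K (fE E) := fun E => cor_conn E.2.2.2 (hfE E)
  have h1 : ∀ E : {E : SimpleGraph V // IsPlanar E ∧ IsCore E X ∧ torso E X = K},
      ∀ x, RR (E.1.comap (emb1 (fE E) x)) := fun E x =>
    ⟨(hconn E).conn x, planar_comap _ (emb1_inj _ _) E.2.1⟩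
  have h2 : ∀ E : {E : SimpleGraph V // IsPlanar E ∧ IsCore E X ∧ torso E X = K},
      ∀ e, DD (E.1.comap (emb2 (fE E) e)) := fun E e =>
    ⟨(hconn E).ne e, (hconn E).att2 e, cor_add E.2.1 E.2.2.2 h3 (hfE E) e⟩
  have h0 : ∀ E : {E : SimpleGraph V // IsPlanar E ∧ IsCore E X ∧ torso E X = K},
      IsPlanar (E.1.comap (emb0 (fE E))) := fun E =>
    planar_comap _ (emb0_inj _) E.2.1
  let F : {E : SimpleGraph V // IsPlanar E ∧ IsCore E X ∧ torso E X = K} →
      (Σ f : (↥Xᶜ → Idx K), ∀ i, Str K i {a // f a = i}) :=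
    fun E => ⟨fE E, mstr E.1 (fE E) (h1 E) (h2 E) (h0 E)⟩
  have hparts : ∀ E : {E : SimpleGraph V // IsPlanar E ∧ IsCore E X ∧ torso E X = K},
      Parts E.1 K (F E).1 (F E).2 := fun E =>
    ⟨fun x => rfl, fun e => rfl, rfl⟩
  have hinj : Function.Injective F := by
    intro E E' h
    apply Subtype.ext
    have hp' := hparts E'
    have hf' : Fits E'.1 K (F E').1 := hfits E'
    rw [← h] at hp' hf'
    exact parts_inj (hfits E) hf' (hparts E) hp'
  have hsurj : Function.Surjective F := by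
    rintro ⟨f, s⟩
    have hP := mbuild_parts f s
    have hF := mbuild_fits f s
    have hC : Conn3 (mbuild f s) K f := by
      refine ⟨fun x => ?_, fun e => ?_, fun e => ?_⟩
      · rw [← hP.vert x]
        exact (s (.inl x)).2.1
      · rw [← hP.edge e]
        exact (s (.inr (.inl e))).2.1
      · rw [← hP.edge e]
        exact (s (.inr (.inl e))).2.2.1
    have hpl : IsPlanar (mbuild f s) := by
      refine glue_planar hF hp ?_ (fun x => ?_) (fun e => ?_)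
      · rw [← hP.rest]
        exact (s (.inr (.inr ()))).2
      · rw [← hP.vert x]
        exact (s (.inl x)).2.2
      · rw [← hP.edge e]
        exact (s (.inr (.inl e))).2.2.2
    refine ⟨⟨mbuild f s, hpl, fit_core hF hC h3, fit_torso hF hC⟩, ?_⟩
    exact mstr_eq _ _ _ _ ((hfE _).unique (fit_ix hF hC)) hP
  refine ⟨Equiv.ofBijective F ⟨hinj, hsurj⟩, fun E => ⟨hfits E, hconn E, hfE E, hparts E⟩⟩

end Dia
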