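import Pool.Agent.Dia.PMDefs
import Pool.Agent.PGr.Euler

/-!
# Module PMBridge: every edge of a tree is a bridge

Let `W` = functions `f : Option T → ZMod 2` constant on the cycles of `s` (`f (s t) = f t`); its dimension
is `nV s` (see `Euler_finrank_ker` in `Pool/Agent/PGr/Euler.lean`, or `Quotient → ZMod 2`).  Let `E` be the
functions `g : T → ZMod 2` with `g (a t) = g t`, of dimension `card T / 2` (`Euler_finrank_inv`).  The linear
map `D : W → E`, `(D f) t = f (some t) + f (some (a t))` has kernel the constant functions (`conn`: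
`{x | f x = f none}` is closed), of dimension 1.  So `nV s ≤ card T / 2 + 1` always, and in case of
equality `D` is surjective: for `g` = indicator function of `{r, a r}` there is `f ∈ W` with
`f (some t) + f (some (a t)) = 1` exactly for `t ∈ {r, a r}`.
-/

set_option linter.unusedSectionVars false

namespace Dia
open Equiv Finset PGr

section
variable {T : Type} [Fintype T] [DecidableEq T]

/-- difference along the edges -/
def PMBridge_D (a : Perm T) : (Option T → ZMod 2) →ₗ[ZMod 2] (T → ZMod 2) :=
  (Euler_del a).comp (LinearMap.funLeft (ZMod 2) (ZMod 2) some)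

theorem PMBridge_D_apply (a : Perm T) (f : Option T → ZMod 2) (t : T) :
    PMBridge_D a f t = f (some t) + f (some (a t)) := rfl

/-- the restriction of the difference to the functions constant on the vertices -/
def PMBridge_R (a : Perm T) (s : Perm (Option T)) :
    LinearMap.ker (Euler_del s) →ₗ[ZMod 2] (T → ZMod 2) :=
  (PMBridge_D a).domRestrict (LinearMap.ker (Euler_del s))

theorem PMBridge_R_apply (a : Perm T) (s : Perm (Option T)) (f : LinearMap.ker (Euler_del s))
    (t : T) : PMBridge_R a s f t = f.1 (some t) + f.1 (some (a t)) := rfl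

theorem PMBridge_ker (a : Perm T) (s : Perm (Option T))
    (hconn : ∀ A : Finset (Option T), none ∈ A → (∀ t, t ∈ A → s t ∈ A) →
      (∀ t, some t ∈ A → some (a t) ∈ A) → A = univ) :
    Module.finrank (ZMod 2) (LinearMap.ker (PMBridge_R a s)) ≤ 1 := by
  have hone : (fun _ => 1 : Option T → ZMod 2) ∈ LinearMap.ker (Euler_del s) := by
    rw [Euler_mem_ker]; intro t; rfl
  have hone' : (⟨fun _ => 1, hone⟩ : LinearMap.ker (Euler_del s)) ∈
      LinearMap.ker (PMBridge_R a s) := by
    rw [LinearMap.mem_ker]
    funext t
    rw [PMBridge_R_apply]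
    change (1 : ZMod 2) + 1 = 0
    decide
  refine finrank_le_one ⟨⟨fun _ => 1, hone⟩, hone'⟩ ?_
  rintro ⟨⟨f, hf⟩, hf'⟩
  refine ⟨f none, ?_⟩
  apply Subtype.ext
  apply Subtype.ext
  funext x
  have hA := hconn (univ.filter fun x => f x = f none) (by simp) (by
    intro t ht
    simp only [mem_filter, mem_univ, true_and] at ht ⊢
    rw [(Euler_mem_ker s f).mp hf, ht]) (by
    intro t ht
    simp only [mem_filter, mem_univ, true_and] at ht ⊢
    rw [LinearMap.mem_ker] at hf'
    have := congrFun hf' t
    rw [PMBridge_R_apply] at this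
    have h2 : f (some t) + f (some (a t)) = 0 := this
    rw [(Euler_two _ _).mp h2, ht])
  have hx : x ∈ univ.filter fun x => f x = f none := by rw [hA]; exact mem_univ _
  simp only [mem_filter, mem_univ, true_and] at hx
  change f none * 1 = f x
  rw [hx, mul_one]

theorem PMBridge_le (a : Perm T) (s : Perm (Option T)) (hinv : ∀ t, a (a t) = t) :
    LinearMap.range (PMBridge_R a s) ≤ LinearMap.ker (Euler_del a) := by
  rintro _ ⟨f, rfl⟩
  rw [Euler_mem_ker]
  intro t
  rw [PMBridge_R_apply, PMBridge_R_apply, hinv, add_comm]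

end

/-- trees have the maximal number of vertices -/
theorem pm_euler {T : Type} [Fintype T] [DecidableEq T] (a : Perm T) (s : Perm (Option T))
    (hinv : ∀ t, a (a t) = t) (hfpf : ∀ t, a t ≠ t)
    (hconn : ∀ A : Finset (Option T), none ∈ A → (∀ t, t ∈ A → s t ∈ A) →
      (∀ t, some t ∈ A → some (a t) ∈ A) → A = univ) :
    2 * nV s ≤ Fintype.card T + 2 := by
  have h1 := PMBridge_ker a s hconn
  have h2 := LinearMap.finrank_range_add_finrank_ker (PMBridge_R a s)
  have h3 := Submodule.finrank_mono (PMBridge_le a s hinv)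
  have h4 := Euler_finrank_inv hinv hfpf
  rw [Euler_finrank_ker] at h2
  omega

theorem PM.IsTree.bridge {M : PM} (h : M.IsTree) (r : M.T) :
    ∃ f : Option M.T → ZMod 2, (∀ t, f (M.s t) = f t) ∧
      (∀ t, t ≠ r → t ≠ M.a r → f (some (M.a t)) = f (some t)) ∧
      f (some (M.a r)) ≠ f (some r) := by
  have h1 := PMBridge_ker M.a M.s h.conn
  have h2 := LinearMap.finrank_range_add_finrank_ker (PMBridge_R M.a M.s)
  have h4 := Euler_finrank_inv h.inv h.fpf
  rw [Euler_finrank_ker] at h2
  have h5 := h.tree
  have h6 : LinearMap.range (PMBridge_R M.a M.s) = LinearMap.ker (Euler_del M.a) :=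
    Submodule.eq_of_le_of_finrank_le (PMBridge_le M.a M.s h.inv) (by omega)
  have hg : (fun t => if t = r ∨ t = M.a r then 1 else 0 : M.T → ZMod 2) ∈
      LinearMap.range (PMBridge_R M.a M.s) := by
    rw [h6, Euler_mem_ker]
    intro t
    have e : (M.a t = r ∨ M.a t = M.a r) ↔ (t = r ∨ t = M.a r) := by
      constructor
      · rintro (e | e)
        · right; rw [← e, h.inv]
        · left; exact M.a.injective e
      · rintro (e | e)
        · right; rw [e]
        · left; rw [e, h.inv]
    simp only [e]
  obtain ⟨f, hf⟩ := hg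
  refine ⟨f.1, (Euler_mem_ker _ _).mp f.2, fun t ht1 ht2 => ?_, ?_⟩
  · have := congrFun hf t
    rw [PMBridge_R_apply] at this
    simp only [ht1, ht2, or_self, if_false] at this
    exact (Euler_two _ _).mp this
  · intro hcon
    have := congrFun hf r
    rw [PMBridge_R_apply, hcon] at this
    simp only [true_or, if_true] at this
    revert this
    generalize f.1 (some r) = u
    revert u
    decide

end Dia
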