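import Pool.Agent.Dia.LMDefs

/-!
# Maps with a root corner: definitions

`(T, a, s, l)` with `s : Perm (Option T)`: the element `none` is a mark in a corner of the root vertex.
This allows the map with one vertex and no edge (`T` empty).
-/

set_option linter.unusedSectionVars false

namespace Dia
open Equiv Finset PGr

/-- labelled map with a root corner (data) -/
structure PM where
  T : Type
  [fT : Fintype T]
  [dT : DecidableEq T]
  a : Perm T
  s : Perm (Option T)
  l : Option T → ℤ

attribute [instance] PM.fT PM.dT

/-- labelled plane tree with a root corner -/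
structure PM.IsTree (M : PM) : Prop where
  inv : ∀ t, M.a (M.a t) = t
  fpf : ∀ t, M.a t ≠ t
  conn : ∀ A : Finset (Option M.T), none ∈ A → (∀ t, t ∈ A → M.s t ∈ A) →
    (∀ t, some t ∈ A → some (M.a t) ∈ A) → A = univ
  ls : ∀ t, M.l (M.s t) = M.l t
  la : ∀ t, M.l (some (M.a t)) ≤ M.l (some t) + 1
  l0 : M.l none = 0
  tree : 2 * nV M.s = Fintype.card M.T + 2

/-- isomorphism -/
def PIso (M N : PM) : Prop :=
  ∃ e : M.T ≃ N.T, (∀ t, e (M.a t) = N.a (e t)) ∧
    (∀ t, (M.s t).map e = N.s (t.map e)) ∧ (∀ t, N.l (t.map e) = M.l t)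

theorem PIso.refl (M : PM) : PIso M M :=
  ⟨Equiv.refl _, fun _ => rfl, fun t => by simp, fun t => by simp⟩

theorem PIso.symm {M N : PM} (h : PIso M N) : PIso N M := by
  obtain ⟨e, h1, h2, h3⟩ := h
  have hm : ∀ t : Option N.T, (t.map e.symm).map e = t := fun t => by
    rw [Option.map_map]; simp
  have hm' : ∀ t : Option M.T, (t.map e).map e.symm = t := fun t => by
    rw [Option.map_map]; simp
  refine ⟨e.symm, fun t => ?_, fun t => ?_, fun t => ?_⟩
  · rw [Equiv.symm_apply_eq, h1, Equiv.apply_symm_apply]
  · have := h2 (t.map e.symm)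
    rw [hm] at this
    rw [← this, hm']
  · rw [← h3, hm]

theorem PIso.trans {M N K : PM} (h : PIso M N) (h' : PIso N K) : PIso M K := by
  obtain ⟨e, h1, h2, h3⟩ := h
  obtain ⟨e', h1', h2', h3'⟩ := h'
  refine ⟨e.trans e', fun t => by simp [h1, h1'], fun t => ?_, fun t => ?_⟩
  · have := h2' (t.map e)
    rw [← h2, Option.map_map, Option.map_map] at this
    simpa using this
  · have := h3' (t.map e)
    rw [Option.map_map] at this
    simpa [h3] using this

/-- one vertex, no edge -/
def PM.nil : PM where
  T := Empty
  a := 1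
  s := 1
  l := fun _ => 0

/-- the three kinds of elements of the joined map -/
def joinEquiv (C R : Type) : (Option C ⊕ Option R) ⊕ Unit ≃ Option ((C ⊕ R) ⊕ Bool) where
  toFun
    | .inl (.inl none) => some (.inr false)
    | .inl (.inl (some x)) => some (.inl (.inl x))
    | .inl (.inr none) => none
    | .inl (.inr (some x)) => some (.inl (.inr x))
    | .inr () => some (.inr true)
  invFun
    | none => .inl (.inr none)
    | some (.inr true) => .inr ()
    | some (.inr false) => .inl (.inl none)
    | some (.inl (.inl x)) => .inl (.inl (some x))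
    | some (.inl (.inr x)) => .inl (.inr (some x))
  left_inv := fun t => by
    rcases t with ((_ | _) | (_ | _)) | _ <;> rfl
  right_inv := fun t => by
    rcases t with _ | t
    · rfl
    · rcases t with (_ | _) | b
      · rfl
      · rfl
      · cases b <;> rfl

/-- a new first edge at the root corner of `R`, with dart `true` at the root and dart `false` at the
root corner of `C`; the root of `C` gets the label `d` -/
def PM.join (d : SignType) (C R : PM) : PM where
  T := (C.T ⊕ R.T) ⊕ Bool
  a := Perm.sumCongr (Perm.sumCongr C.a R.a) Equiv.boolNot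
  s := (joinEquiv C.T R.T).symm.trans
    ((swap (Sum.inl (Sum.inr none)) (Sum.inr ())).trans
      ((Perm.sumCongr (Perm.sumCongr C.s R.s) 1).trans (joinEquiv C.T R.T)))
  l := fun t => Sum.elim (Sum.elim (fun x => C.l x + (d : ℤ)) R.l) (fun _ => 0)
    ((joinEquiv C.T R.T).symm t)

/-- the plane tree of `t : LT` -/
def LT.toPM : LT → PM
  | .nil => PM.nil
  | .node d c r => PM.join d c.toPM r.toPM

/-- the set of the labels -/
def PM.labs (M : PM) : Finset ℤ := univ.image M.l

/-- the vertex of an element -/
def PM.vx (M : PM) (t : Option M.T) : Quotient (Perm.SameCycle.setoid M.s) := Quotient.mk _ t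

/-- number of vertices with a higher neighbour; the root vertex is always counted if `up` -/
noncomputable def PM.nu (M : PM) (up : Bool) : ℕ :=
  Nat.card {v : Quotient (Perm.SameCycle.setoid M.s) //
    (∃ t : M.T, M.vx (some t) = v ∧ M.l (some (M.a t)) = M.l (some t) + 1) ∨
    (up = true ∧ M.vx none = v)}

end Dia
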