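import Pool.Agent.Dia.PMJoin

/-!
# Module PMInj: the tree is determined by its map

Let `e : M.T ≃ M'.T` be an isomorphism, `M = join d C R`, `M' = join d' C' R'`.  From
`M.s none = some (inr true)` and the same for `M'`: `e (inr true) = inr true`; with `a`:
`e (inr false) = inr false`.  The set `{x : Option C.T | ∃ x', (J (inl (inl x))).map e =
J' (inl (inl x'))}` contains `none`, is closed under `C.s` and `C.a`, so it is everything (`C.conn`);
similarly for `R` (with `none ↦ none`; for the step from `none` use that `e (inr true) = inr true`), and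
for the inverse of `e`.  So `e` restricts to bijections `C.T ≃ C'.T`, `R.T ≃ R'.T`, which commute
with everything; `d = l (some (inr false))` gives `d = d'` (`SignType` embeds in `ℤ`), and then the labels of
`C`, `C'` agree.

`toPM_inj`: induction on `t`, generalising `t'`; `nil` has no dart, a `join` has darts.

For the rewriting tactics the elements of the joined map get names with the correct types: the darts
`PMInj_c x`, `PMInj_r x`, `PMInj_b b`, and the elements `PMInj_C x`, `PMInj_R x` of `Option T`.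
-/

set_option linter.unusedSectionVars false

namespace Dia
open Equiv Finset PGr

/-! ### Elementary rules for `join` -/

section
variable (d : SignType) (C R : PM)

/-- darts of `C` -/
def PMInj_c (x : C.T) : (PM.join d C R).T := Sum.inl (Sum.inl x)

/-- darts of `R` -/
def PMInj_r (x : R.T) : (PM.join d C R).T := Sum.inl (Sum.inr x)

/-- the two new darts -/
def PMInj_b (b : Bool) : (PM.join d C R).T := Sum.inr b

/-- elements of `C` -/
def PMInj_C (x : Option C.T) : Option (PM.join d C R).T := joinEquiv C.T R.T (Sum.inl (Sum.inl x))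

/-- elements of `R` -/
def PMInj_R (x : Option R.T) : Option (PM.join d C R).T := joinEquiv C.T R.T (Sum.inl (Sum.inr x))

theorem PMInj_C_none : PMInj_C d C R none = some (PMInj_b d C R false) := rfl

theorem PMInj_C_some (x : C.T) : PMInj_C d C R (some x) = some (PMInj_c d C R x) := rfl

theorem PMInj_R_none : PMInj_R d C R none = none := rfl

theorem PMInj_R_some (x : R.T) : PMInj_R d C R (some x) = some (PMInj_r d C R x) := rfl

theorem PMInj_a_c (x : C.T) : (PM.join d C R).a (PMInj_c d C R x) = PMInj_c d C R (C.a x) := rfl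

theorem PMInj_a_r (x : R.T) : (PM.join d C R).a (PMInj_r d C R x) = PMInj_r d C R (R.a x) := rfl

theorem PMInj_a_b (b : Bool) : (PM.join d C R).a (PMInj_b d C R b) = PMInj_b d C R (!b) := rfl

theorem PMInj_s_none : (PM.join d C R).s none = some (PMInj_b d C R true) :=
  PM.join_s_none d C R

theorem PMInj_s_true :
    (PM.join d C R).s (some (PMInj_b d C R true)) = PMInj_R d C R (R.s none) :=
  PM.join_s_true d C R

theorem PMInj_s_C (x : Option C.T) :
    (PM.join d C R).s (PMInj_C d C R x) = PMInj_C d C R (C.s x) :=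
  PM.join_s_C d C R x

theorem PMInj_s_r (x : R.T) :
    (PM.join d C R).s (some (PMInj_r d C R x)) = PMInj_R d C R (R.s (some x)) :=
  PM.join_s_R d C R x

theorem PMInj_l_C (x : Option C.T) :
    (PM.join d C R).l (PMInj_C d C R x) = C.l x + (d : ℤ) := by
  simp only [PM.join, PMInj_C, Equiv.symm_apply_apply, Sum.elim_inl]

theorem PMInj_l_R (x : Option R.T) : (PM.join d C R).l (PMInj_R d C R x) = R.l x := by
  simp only [PM.join, PMInj_R, Equiv.symm_apply_apply, Sum.elim_inl, Sum.elim_inr]

theorem PMInj_l_true : (PM.join d C R).l (some (PMInj_b d C R true)) = 0 := rfl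

theorem PMInj_c_inj {x y : C.T} (h : PMInj_c d C R x = PMInj_c d C R y) : x = y :=
  Sum.inl.inj (Sum.inl.inj h)

theorem PMInj_r_inj {x y : R.T} (h : PMInj_r d C R x = PMInj_r d C R y) : x = y :=
  Sum.inr.inj (Sum.inl.inj h)

theorem PMInj_C_inj {x y : Option C.T} (h : PMInj_C d C R x = PMInj_C d C R y) : x = y :=
  Sum.inl.inj (Sum.inl.inj ((joinEquiv C.T R.T).injective h))

theorem PMInj_R_inj {x y : Option R.T} (h : PMInj_R d C R x = PMInj_R d C R y) : x = y :=
  Sum.inr.inj (Sum.inl.inj ((joinEquiv C.T R.T).injective h))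

theorem PMInj_c_ne_b (x : C.T) (b : Bool) : PMInj_c d C R x ≠ PMInj_b d C R b := by
  intro h
  injection h

theorem PMInj_dart (t : (PM.join d C R).T) :
    (∃ x, t = PMInj_c d C R x) ∨ (∃ x, t = PMInj_r d C R x) ∨ (∃ b, t = PMInj_b d C R b) := by
  rcases t with (t | t) | b
  · exact Or.inl ⟨t, rfl⟩
  · exact Or.inr (Or.inl ⟨t, rfl⟩)
  · exact Or.inr (Or.inr ⟨b, rfl⟩)

theorem PMInj_elem (t : Option (PM.join d C R).T) :
    (∃ x, t = PMInj_C d C R x) ∨ (∃ x, t = PMInj_R d C R x) ∨
      t = some (PMInj_b d C R true) := by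
  obtain ⟨x, hx⟩ := (joinEquiv C.T R.T).surjective t
  rcases x with (x | x) | ⟨⟩
  · exact Or.inl ⟨x, hx.symm⟩
  · exact Or.inr (Or.inl ⟨x, hx.symm⟩)
  · exact Or.inr (Or.inr hx.symm)

end

section
variable {d d' : SignType} {C R C' R' : PM}

/-- the names commute with maps of the parts -/
theorem PMInj_map_C (e : (PM.join d C R).T → (PM.join d' C' R').T) (eC : C.T → C'.T)
    (h0 : e (PMInj_b d C R false) = PMInj_b d' C' R' false)
    (h : ∀ t, e (PMInj_c d C R t) = PMInj_c d' C' R' (eC t)) (x : Option C.T) :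
    (PMInj_C d C R x).map e = PMInj_C d' C' R' (x.map eC) := by
  rcases x with _ | x
  · rw [PMInj_C_none, Option.map_some, h0, Option.map_none, PMInj_C_none]
  · rw [PMInj_C_some, Option.map_some, h, Option.map_some, PMInj_C_some]

theorem PMInj_map_R (e : (PM.join d C R).T → (PM.join d' C' R').T) (eR : R.T → R'.T)
    (h : ∀ t, e (PMInj_r d C R t) = PMInj_r d' C' R' (eR t)) (x : Option R.T) :
    (PMInj_R d C R x).map e = PMInj_R d' C' R' (x.map eR) := by
  rcases x with _ | x
  · rw [PMInj_R_none, Option.map_none, Option.map_none, PMInj_R_none]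
  · rw [PMInj_R_some, Option.map_some, h, Option.map_some, PMInj_R_some]

variable (e : (PM.join d C R).T ≃ (PM.join d' C' R').T)
  (h1 : ∀ t, e ((PM.join d C R).a t) = (PM.join d' C' R').a (e t))
  (h2 : ∀ t, ((PM.join d C R).s t).map e = (PM.join d' C' R').s (t.map e))
include h2

theorem PMInj_true : e (PMInj_b d C R true) = PMInj_b d' C' R' true := by
  have h := h2 none
  rw [PMInj_s_none, Option.map_none, PMInj_s_none, Option.map_some] at h
  exact Option.some.inj h

include h1

theorem PMInj_false : e (PMInj_b d C R false) = PMInj_b d' C' R' false := by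
  have h := h1 (PMInj_b d C R true)
  rw [PMInj_true e h2, PMInj_a_b, PMInj_a_b] at h
  exact h

theorem PMInj_goC (hC : C.IsTree) (t : C.T) :
    ∃ u : C'.T, e (PMInj_c d C R t) = PMInj_c d' C' R' u := by
  classical
  have hstep : ∀ (t : C.T) (x' : Option C'.T),
      (PMInj_C d C R (some t)).map e = PMInj_C d' C' R' x' →
      ∃ u : C'.T, e (PMInj_c d C R t) = PMInj_c d' C' R' u := by
    intro t x' hx
    rw [PMInj_C_some, Option.map_some] at hx
    rcases x' with _ | u
    · rw [PMInj_C_none] at hx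
      have h3 := Option.some.inj hx
      rw [← PMInj_false e h1 h2] at h3
      exact absurd (e.injective h3) (PMInj_c_ne_b _ _ _ _ _)
    · rw [PMInj_C_some] at hx
      exact ⟨u, Option.some.inj hx⟩
  have hA := hC.conn (univ.filter fun x => ∃ x' : Option C'.T,
    (PMInj_C d C R x).map e = PMInj_C d' C' R' x') (by
    simp only [mem_filter, mem_univ, true_and]
    refine ⟨none, ?_⟩
    rw [PMInj_C_none, Option.map_some, PMInj_false e h1 h2, PMInj_C_none]) (by
    intro t ht
    simp only [mem_filter, mem_univ, true_and] at ht ⊢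
    obtain ⟨x', hx'⟩ := ht
    refine ⟨C'.s x', ?_⟩
    rw [← PMInj_s_C d, h2, hx', PMInj_s_C]) (by
    intro t ht
    simp only [mem_filter, mem_univ, true_and] at ht ⊢
    obtain ⟨x', hx'⟩ := ht
    obtain ⟨u, hu⟩ := hstep t x' hx'
    refine ⟨some (C'.a u), ?_⟩
    rw [PMInj_C_some, PMInj_C_some, Option.map_some, ← PMInj_a_c d C R, h1, hu, PMInj_a_c])
  have ht : some t ∈ (univ.filter fun x => ∃ x' : Option C'.T,
    (PMInj_C d C R x).map e = PMInj_C d' C' R' x') := by rw [hA]; exact mem_univ _
  simp only [mem_filter, mem_univ, true_and] at ht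
  obtain ⟨x', hx'⟩ := ht
  exact hstep t x' hx'

theorem PMInj_goR (hR : R.IsTree) (t : R.T) :
    ∃ u : R'.T, e (PMInj_r d C R t) = PMInj_r d' C' R' u := by
  classical
  have hstep : ∀ (t : R.T) (x' : Option R'.T),
      (PMInj_R d C R (some t)).map e = PMInj_R d' C' R' x' →
      ∃ u : R'.T, e (PMInj_r d C R t) = PMInj_r d' C' R' u := by
    intro t x' hx
    rw [PMInj_R_some, Option.map_some] at hx
    rcases x' with _ | u
    · rw [PMInj_R_none] at hx
      exact absurd hx (by simp)
    · rw [PMInj_R_some] at hx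
      exact ⟨u, Option.some.inj hx⟩
  have hA := hR.conn (univ.filter fun x => ∃ x' : Option R'.T,
    (PMInj_R d C R x).map e = PMInj_R d' C' R' x') (by
    simp only [mem_filter, mem_univ, true_and]
    refine ⟨none, ?_⟩
    rw [PMInj_R_none, Option.map_none, PMInj_R_none]) (by
    intro t ht
    simp only [mem_filter, mem_univ, true_and] at ht ⊢
    obtain ⟨x', hx'⟩ := ht
    rcases t with _ | t
    · refine ⟨R'.s none, ?_⟩
      rw [← PMInj_s_true d, h2, Option.map_some, PMInj_true e h2, PMInj_s_true]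
    · obtain ⟨u, hu⟩ := hstep t x' hx'
      refine ⟨R'.s (some u), ?_⟩
      rw [← PMInj_s_r d, h2, Option.map_some, hu, PMInj_s_r]) (by
    intro t ht
    simp only [mem_filter, mem_univ, true_and] at ht ⊢
    obtain ⟨x', hx'⟩ := ht
    obtain ⟨u, hu⟩ := hstep t x' hx'
    refine ⟨some (R'.a u), ?_⟩
    rw [PMInj_R_some, PMInj_R_some, Option.map_some, ← PMInj_a_r d C R, h1, hu, PMInj_a_r])
  have ht : some t ∈ (univ.filter fun x => ∃ x' : Option R'.T,
    (PMInj_R d C R x).map e = PMInj_R d' C' R' x') := by rw [hA]; exact mem_univ _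
  simp only [mem_filter, mem_univ, true_and] at ht
  obtain ⟨x', hx'⟩ := ht
  exact hstep t x' hx'

end

/-- inverse of an isomorphism -/
theorem PMInj_symm {M N : PM} (e : M.T ≃ N.T) (h1 : ∀ t, e (M.a t) = N.a (e t))
    (h2 : ∀ t, (M.s t).map e = N.s (t.map e)) :
    (∀ t, e.symm (N.a t) = M.a (e.symm t)) ∧
      (∀ t, (N.s t).map e.symm = M.s (t.map e.symm)) := by
  have hm : ∀ t : Option N.T, (t.map e.symm).map e = t := fun t => by
    rw [Option.map_map]; simp
  have hm' : ∀ t : Option M.T, (t.map e).map e.symm = t := fun t => by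
    rw [Option.map_map]; simp
  refine ⟨fun t => ?_, fun t => ?_⟩
  · rw [Equiv.symm_apply_eq, h1, Equiv.apply_symm_apply]
  · have := h2 (t.map e.symm)
    rw [hm] at this
    rw [← this, hm']

theorem PM.join_inj {d d' : SignType} {C R C' R' : PM} (hC : C.IsTree) (hR : R.IsTree)
    (hC' : C'.IsTree) (hR' : R'.IsTree) (h : PIso (PM.join d C R) (PM.join d' C' R')) :
    d = d' ∧ PIso C C' ∧ PIso R R' := by
  obtain ⟨e, h1, h2, h3⟩ := h
  obtain ⟨h1', h2'⟩ := PMInj_symm e h1 h2
  choose fC hfC using PMInj_goC e h1 h2 hC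
  choose fR hfR using PMInj_goR e h1 h2 hR
  choose gC hgC using PMInj_goC e.symm h1' h2' hC'
  choose gR hgR using PMInj_goR e.symm h1' h2' hR'
  have hF := PMInj_false e h1 h2
  have hT := PMInj_true e h2
  let eC : C.T ≃ C'.T :=
    { toFun := fC
      invFun := gC
      left_inv := fun t => by
        have h4 := hgC (fC t)
        rw [← hfC, Equiv.symm_apply_apply] at h4
        exact (PMInj_c_inj _ _ _ h4).symm
      right_inv := fun t => by
        have h4 := hfC (gC t)
        rw [← hgC, Equiv.apply_symm_apply] at h4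
        exact (PMInj_c_inj _ _ _ h4).symm }
  let eR : R.T ≃ R'.T :=
    { toFun := fR
      invFun := gR
      left_inv := fun t => by
        have h4 := hgR (fR t)
        rw [← hfR, Equiv.symm_apply_apply] at h4
        exact (PMInj_r_inj _ _ _ h4).symm
      right_inv := fun t => by
        have h4 := hfR (gR t)
        rw [← hgR, Equiv.apply_symm_apply] at h4
        exact (PMInj_r_inj _ _ _ h4).symm }
  have heC : ∀ t, e (PMInj_c d C R t) = PMInj_c d' C' R' (eC t) := hfC
  have heR : ∀ t, e (PMInj_r d C R t) = PMInj_r d' C' R' (eR t) := hfR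
  have hmC := PMInj_map_C e eC hF heC
  have hmR := PMInj_map_R e eR heR
  have hlC : ∀ x : Option C.T, C'.l (x.map eC) + (d' : ℤ) = C.l x + (d : ℤ) := by
    intro x
    rw [← PMInj_l_C d' C' R', ← hmC, h3, PMInj_l_C]
  have hdd : (d' : ℤ) = (d : ℤ) := by
    have h4 := hlC none
    rw [Option.map_none, hC.l0, hC'.l0, zero_add, zero_add] at h4
    exact h4
  refine ⟨?_, ⟨eC, ?_, ?_, ?_⟩, ⟨eR, ?_, ?_, ?_⟩⟩
  · revert hdd
    rcases d with _ | _ | _ <;> rcases d' with _ | _ | _ <;> decide
  · intro t
    have h4 := h1 (PMInj_c d C R t)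
    rw [PMInj_a_c, heC, heC, PMInj_a_c] at h4
    exact PMInj_c_inj _ _ _ h4
  · intro t
    have h4 := h2 (PMInj_C d C R t)
    rw [PMInj_s_C, hmC, hmC, PMInj_s_C] at h4
    exact PMInj_C_inj _ _ _ h4
  · intro t
    have h4 := hlC t
    omega
  · intro t
    have h4 := h1 (PMInj_r d C R t)
    rw [PMInj_a_r, heR, heR, PMInj_a_r] at h4
    exact PMInj_r_inj _ _ _ h4
  · intro t
    rcases t with _ | t
    · have h4 := h2 (some (PMInj_b d C R true))
      rw [PMInj_s_true, hmR, Option.map_some, hT, PMInj_s_true] at h4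
      exact PMInj_R_inj _ _ _ h4
    · have h4 := h2 (some (PMInj_r d C R t))
      rw [PMInj_s_r, hmR, Option.map_some, heR, PMInj_s_r] at h4
      exact PMInj_R_inj _ _ _ h4
  · intro t
    have h4 := h3 (PMInj_R d C R t)
    rw [hmR, PMInj_l_R, PMInj_l_R] at h4
    exact h4

theorem PM.join_congr (d : SignType) {C R C' R' : PM} (h : PIso C C') (h' : PIso R R') :
    PIso (PM.join d C R) (PM.join d C' R') := by
  obtain ⟨eC, c1, c2, c3⟩ := h
  obtain ⟨eR, r1, r2, r3⟩ := h'
  let e : (PM.join d C R).T ≃ (PM.join d C' R').T :=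
    Equiv.sumCongr (Equiv.sumCongr eC eR) (Equiv.refl Bool)
  have hF : e (PMInj_b d C R false) = PMInj_b d C' R' false := rfl
  have hT : e (PMInj_b d C R true) = PMInj_b d C' R' true := rfl
  have heC : ∀ t, e (PMInj_c d C R t) = PMInj_c d C' R' (eC t) := fun _ => rfl
  have heR : ∀ t, e (PMInj_r d C R t) = PMInj_r d C' R' (eR t) := fun _ => rfl
  have hmC := PMInj_map_C e eC hF heC
  have hmR := PMInj_map_R e eR heR
  clear_value e
  refine ⟨e, ?_, ?_, ?_⟩
  · intro t
    rcases PMInj_dart d C R t with ⟨t, rfl⟩ | ⟨t, rfl⟩ | ⟨b, rfl⟩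
    · rw [PMInj_a_c, heC, heC, PMInj_a_c, c1]
    · rw [PMInj_a_r, heR, heR, PMInj_a_r, r1]
    · cases b
      · rw [PMInj_a_b, hF, PMInj_a_b]; exact hT
      · rw [PMInj_a_b, hT, PMInj_a_b]; exact hF
  · intro t
    rcases PMInj_elem d C R t with ⟨x, rfl⟩ | ⟨x, rfl⟩ | rfl
    · rw [PMInj_s_C, hmC, hmC, PMInj_s_C, c2]
    · rcases x with _ | x
      · rw [PMInj_R_none, PMInj_s_none, Option.map_some, hT, Option.map_none, PMInj_s_none]
      · rw [PMInj_R_some, PMInj_s_r, hmR, Option.map_some, heR, PMInj_s_r, r2, Option.map_some]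
    · rw [PMInj_s_true, hmR, Option.map_some, hT, PMInj_s_true, r2, Option.map_none]
  · intro t
    rcases PMInj_elem d C R t with ⟨x, rfl⟩ | ⟨x, rfl⟩ | rfl
    · rw [hmC, PMInj_l_C, PMInj_l_C, c3]
    · rw [hmR, PMInj_l_R, PMInj_l_R, r3]
    · rw [Option.map_some, hT, PMInj_l_true, PMInj_l_true]

theorem LT.toPM_inj {t t' : LT} (h : PIso t.toPM t'.toPM) : t = t' := by
  induction t generalizing t' with
  | nil =>
    cases t' with
    | nil => rfl
    | node d c r =>
      obtain ⟨e, -⟩ := h
      have x : Empty := e.symm (Sum.inr true)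
      exact x.elim
  | node d c r ihc ihr =>
    cases t' with
    | nil =>
      obtain ⟨e, -⟩ := h
      have x : Empty := e (Sum.inr true)
      exact x.elim
    | node d' c' r' =>
      obtain ⟨h1, h2, h3⟩ := PM.join_inj c.toPM_isTree r.toPM_isTree c'.toPM_isTree
        r'.toPM_isTree h
      rw [h1, ihc h2, ihr h3]

end Dia
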