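import Pool.Agent.Dia.PMDefs

/-!
# Module PMJoin: joining two plane trees

Let `J = joinEquiv C.T R.T`, `M = PM.join d C R`.  Computation of the rotation (`rfl`-like, by cases):
`M.s none = some (inr true)`; `M.s (some (inr true)) = J (inl (inr (R.s none)))`;
`M.s (J (inl (inl x))) = J (inl (inl (C.s x)))`; `M.s (J (inl (inr x))) = J (inl (inr (R.s x)))` for `x ≠ none`.

`join_vertices`: the cycles of `M.s` are the cycles of `C.s` and the cycles of `R.s`, with the new
element `some (inr true)` inserted behind `none`.  Define the map `Option M.T → (cycles of C.s) ⊕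
(cycles of R.s)` on elements (`some (inr true) ↦ R.vx none`), show that it is constant on cycles, and
construct the inverse by `Quotient.lift`, or show that the induced map is bijective: surjective is clear;
injective: if `x, x'` are in the same cycle of `C.s` then `J (inl (inl x))`, `J (inl (inl x'))` are in the
same cycle of `M.s` (powers), the same for `R`: one step of `R.s` from `none` is two steps of `M.s`.

`join_isTree`: `inv, fpf`: by cases.  `conn`: let `A ∋ none` be closed; then `some (inr true) = M.s none ∈ A`,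
and `{x | J (inl (inr x)) ∈ A}` contains `none`, is closed under `R.s` and `R.a`, so it is everything;
`some (inr false) ∈ A`, and the same for `C`.  Labels: `l (some (inr true)) = 0`,
`l (some (inr false)) = C.l none + d = d`, `-1 ≤ d ≤ 1`.  Count: `nV M.s = nV C.s + nV R.s`,
`card M.T = card C.T + card R.T + 2`.
-/

set_option linter.unusedSectionVars false

namespace Dia
open Equiv Finset PGr

theorem PMJoin_s_J (d : SignType) (C R : PM) (y : (Option C.T ⊕ Option R.T) ⊕ Unit) :
    (PM.join d C R).s (joinEquiv C.T R.T y) = joinEquiv C.T R.T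
      ((Perm.sumCongr (Perm.sumCongr C.s R.s) 1)
        (swap (Sum.inl (Sum.inr none)) (Sum.inr ()) y)) := by
  show joinEquiv C.T R.T ((Perm.sumCongr (Perm.sumCongr C.s R.s) 1)
    (swap (Sum.inl (Sum.inr none)) (Sum.inr ()) ((joinEquiv C.T R.T).symm
      (joinEquiv C.T R.T y)))) = _
  rw [symm_apply_apply]

theorem PMJoin_lift {A B : Type*} (s : Perm A) (s' : Perm B) (g : A → B)
    (h : ∀ x, s'.SameCycle (g x) (g (s x))) {x y : A} (hxy : s.SameCycle x y) :
    s'.SameCycle (g x) (g y) := by
  obtain ⟨i, rfl⟩ := hxy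
  induction i using Int.induction_on with
  | zero => exact Perm.SameCycle.refl _ _
  | succ i ih =>
    have h1 : (s ^ ((i : ℤ) + 1)) x = s ((s ^ (i : ℤ)) x) := by
      rw [add_comm, zpow_add, zpow_one, Perm.mul_apply]
    rw [h1]
    exact ih.trans (h _)
  | pred i ih =>
    have h1 : (s ^ (-(i : ℤ) - 1)) x = s⁻¹ ((s ^ (-(i : ℤ))) x) := by
      rw [show -(i : ℤ) - 1 = -1 + -(i : ℤ) by ring, zpow_add, zpow_neg_one, Perm.mul_apply]
    rw [h1]
    refine ih.trans ?_
    have h2 := h (s⁻¹ ((s ^ (-(i : ℤ))) x))
    rw [show s (s⁻¹ ((s ^ (-(i : ℤ))) x)) = (s ^ (-(i : ℤ))) x from by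
      rw [← Perm.mul_apply, mul_inv_cancel, Perm.one_apply]] at h2
    exact h2.symm

theorem PM.join_s_none (d : SignType) (C R : PM) :
    (PM.join d C R).s none = some (Sum.inr true) := by
  have h := PMJoin_s_J d C R (Sum.inl (Sum.inr none))
  rw [swap_apply_left] at h
  exact h

theorem PM.join_s_true (d : SignType) (C R : PM) :
    (PM.join d C R).s (some (Sum.inr true)) = joinEquiv C.T R.T (Sum.inl (Sum.inr (R.s none))) := by
  have h := PMJoin_s_J d C R (Sum.inr ())
  rw [swap_apply_right] at h
  exact h

theorem PM.join_s_C (d : SignType) (C R : PM) (x : Option C.T) :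
    (PM.join d C R).s (joinEquiv C.T R.T (Sum.inl (Sum.inl x))) =
      joinEquiv C.T R.T (Sum.inl (Sum.inl (C.s x))) := by
  rw [PMJoin_s_J, swap_apply_of_ne_of_ne (by simp) (by simp)]
  rfl

theorem PM.join_s_R (d : SignType) (C R : PM) (x : R.T) :
    (PM.join d C R).s (some (Sum.inl (Sum.inr x))) =
      joinEquiv C.T R.T (Sum.inl (Sum.inr (R.s (some x)))) := by
  have h := PMJoin_s_J d C R (Sum.inl (Sum.inr (some x)))
  rw [swap_apply_of_ne_of_ne (by simp) (by simp)] at h
  exact h

/-- the vertex of an element of the joined map -/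
def PMJoin_f (C R : PM) : (Option C.T ⊕ Option R.T) ⊕ Unit →
    Quotient (Perm.SameCycle.setoid C.s) ⊕ Quotient (Perm.SameCycle.setoid R.s)
  | Sum.inl (Sum.inl x) => Sum.inl (C.vx x)
  | Sum.inl (Sum.inr x) => Sum.inr (R.vx x)
  | Sum.inr () => Sum.inr (R.vx none)

theorem PMJoin_vx_s (C : PM) (x : Option C.T) : C.vx (C.s x) = C.vx x :=
  Quotient.sound (⟨-1, by simp⟩ : C.s.SameCycle _ _)

theorem PMJoin_f_s (d : SignType) (C R : PM) (t : Option (PM.join d C R).T) :
    PMJoin_f C R ((joinEquiv C.T R.T).symm ((PM.join d C R).s t)) =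
      PMJoin_f C R ((joinEquiv C.T R.T).symm t) := by
  obtain ⟨y, rfl⟩ := (joinEquiv C.T R.T).surjective t
  rcases y with (x | (_ | x)) | u
  · refine (congrArg (fun z => PMJoin_f C R ((joinEquiv C.T R.T).symm z))
      (PM.join_s_C d C R x)).trans ?_
    rw [symm_apply_apply, symm_apply_apply]
    exact congrArg Sum.inl (PMJoin_vx_s C x)
  · exact (congrArg (fun z => PMJoin_f C R ((joinEquiv C.T R.T).symm z))
      (PM.join_s_none d C R)).trans rfl
  · refine (congrArg (fun z => PMJoin_f C R ((joinEquiv C.T R.T).symm z))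
      (PM.join_s_R d C R x)).trans ?_
    rw [symm_apply_apply, symm_apply_apply]
    exact congrArg Sum.inr (PMJoin_vx_s R (some x))
  · refine (congrArg (fun z => PMJoin_f C R ((joinEquiv C.T R.T).symm z))
      (PM.join_s_true d C R)).trans ?_
    rw [symm_apply_apply, symm_apply_apply]
    exact congrArg Sum.inr (PMJoin_vx_s R none)

theorem PMJoin_sc_C (d : SignType) (C R : PM) {x y : Option C.T} (h : C.s.SameCycle x y) :
    (PM.join d C R).s.SameCycle (joinEquiv C.T R.T (Sum.inl (Sum.inl x)))
      (joinEquiv C.T R.T (Sum.inl (Sum.inl y))) :=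
  PMJoin_lift C.s (PM.join d C R).s (fun x => joinEquiv C.T R.T (Sum.inl (Sum.inl x)))
    (fun x => ⟨1, by rw [zpow_one, PM.join_s_C]⟩) h

theorem PMJoin_sc_R (d : SignType) (C R : PM) {x y : Option R.T} (h : R.s.SameCycle x y) :
    (PM.join d C R).s.SameCycle (joinEquiv C.T R.T (Sum.inl (Sum.inr x)))
      (joinEquiv C.T R.T (Sum.inl (Sum.inr y))) :=
  PMJoin_lift R.s (PM.join d C R).s (fun x => joinEquiv C.T R.T (Sum.inl (Sum.inr x)))
    (fun x => by
      rcases x with _ | x
      · refine ⟨2, ?_⟩
        rw [show (2 : ℤ) = 1 + 1 from rfl, zpow_add, zpow_one]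
        exact (congrArg (PM.join d C R).s (PM.join_s_none d C R)).trans (PM.join_s_true d C R)
      · exact ⟨1, by rw [zpow_one]; exact PM.join_s_R d C R x⟩) h

theorem PMJoin_sc_true (d : SignType) (C R : PM) :
    (PM.join d C R).s.SameCycle (joinEquiv C.T R.T (Sum.inl (Sum.inr none)))
      (joinEquiv C.T R.T (Sum.inr ())) :=
  ⟨1, by rw [zpow_one]; exact PM.join_s_none d C R⟩

theorem PM.join_vertices (d : SignType) (C R : PM) :
    ∃ E : Quotient (Perm.SameCycle.setoid (PM.join d C R).s) ≃
        Quotient (Perm.SameCycle.setoid C.s) ⊕ Quotient (Perm.SameCycle.setoid R.s),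
      (∀ x, E ((PM.join d C R).vx (joinEquiv C.T R.T (Sum.inl (Sum.inl x)))) = Sum.inl (C.vx x)) ∧
      (∀ x, E ((PM.join d C R).vx (joinEquiv C.T R.T (Sum.inl (Sum.inr x)))) = Sum.inr (R.vx x)) ∧
      E ((PM.join d C R).vx (some (Sum.inr true))) = Sum.inr (R.vx none) := by
  classical
  have hc : ∀ t t', (PM.join d C R).s.SameCycle t t' →
      PMJoin_f C R ((joinEquiv C.T R.T).symm t) = PMJoin_f C R ((joinEquiv C.T R.T).symm t') := by
    intro t t' h
    have h1 := PMJoin_lift (PM.join d C R).s (1 : Perm (Quotient (Perm.SameCycle.setoid C.s) ⊕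
      Quotient (Perm.SameCycle.setoid R.s)))
      (fun t => PMJoin_f C R ((joinEquiv C.T R.T).symm t))
      (fun t => by rw [PMJoin_f_s]) h
    simpa using h1
  let E0 : Quotient (Perm.SameCycle.setoid (PM.join d C R).s) →
      Quotient (Perm.SameCycle.setoid C.s) ⊕ Quotient (Perm.SameCycle.setoid R.s) :=
    Quotient.lift (fun t => PMJoin_f C R ((joinEquiv C.T R.T).symm t)) hc
  have hE : ∀ y, E0 ((PM.join d C R).vx (joinEquiv C.T R.T y)) = PMJoin_f C R y := by
    intro y
    show PMJoin_f C R ((joinEquiv C.T R.T).symm (joinEquiv C.T R.T y)) = _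
    rw [symm_apply_apply]
  have hb : Function.Bijective E0 := by
    constructor
    · intro q q' h
      induction q using Quotient.ind with | _ t => ?_
      induction q' using Quotient.ind with | _ t' => ?_
      obtain ⟨y, rfl⟩ := (joinEquiv C.T R.T).surjective t
      obtain ⟨y', rfl⟩ := (joinEquiv C.T R.T).surjective t'
      have h' : PMJoin_f C R y = PMJoin_f C R y' := by
        rw [← hE y, ← hE y']; exact h
      apply Quotient.sound
      show (PM.join d C R).s.SameCycle _ _
      rcases y with (x | x) | u <;> rcases y' with (x' | x') | u'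
      · exact PMJoin_sc_C d C R (Quotient.exact (Sum.inl.inj h'))
      · exact absurd h' (by simp [PMJoin_f])
      · exact absurd h' (by simp [PMJoin_f])
      · exact absurd h' (by simp [PMJoin_f])
      · exact PMJoin_sc_R d C R (Quotient.exact (Sum.inr.inj h'))
      · exact (PMJoin_sc_R d C R (Quotient.exact (Sum.inr.inj h'))).trans
          (PMJoin_sc_true d C R)
      · exact absurd h' (by simp [PMJoin_f])
      · exact (PMJoin_sc_true d C R).symm.trans
          (PMJoin_sc_R d C R (Quotient.exact (Sum.inr.inj h')))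
      · exact Perm.SameCycle.refl _ _
    · intro z
      rcases z with q | q
      · induction q using Quotient.ind with | _ x => ?_
        exact ⟨(PM.join d C R).vx (joinEquiv C.T R.T (Sum.inl (Sum.inl x))), hE _⟩
      · induction q using Quotient.ind with | _ x => ?_
        exact ⟨(PM.join d C R).vx (joinEquiv C.T R.T (Sum.inl (Sum.inr x))), hE _⟩
  refine ⟨Equiv.ofBijective E0 hb, fun x => hE _, fun x => hE _, hE (Sum.inr ())⟩

theorem PM.nil_isTree : PM.nil.IsTree where
  inv := fun t => nomatch t
  fpf := fun t => nomatch t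
  conn := by
    intro A h0 _ _
    ext t
    rcases t with _ | t
    · simp [h0]
    · exact nomatch t
  ls := fun _ => rfl
  la := fun t => nomatch t
  l0 := rfl
  tree := by
    have h : nV PM.nil.s = 1 := by
      unfold nV
      rw [Nat.card_eq_one_iff_unique]
      refine ⟨⟨fun q q' => ?_⟩, ⟨Quotient.mk _ none⟩⟩
      induction q using Quotient.ind with | _ t => ?_
      induction q' using Quotient.ind with | _ t' => ?_
      rcases t with _ | t
      · rcases t' with _ | t'
        · rfl
        · exact nomatch t'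
      · exact nomatch t
    rw [h]
    rfl

theorem PM.join_isTree (d : SignType) {C R : PM} (hC : C.IsTree) (hR : R.IsTree) :
    (PM.join d C R).IsTree where
  inv := by
    rintro ((x | x) | b)
    · exact congrArg (fun z => Sum.inl (Sum.inl z)) (hC.inv x)
    · exact congrArg (fun z => Sum.inl (Sum.inr z)) (hR.inv x)
    · exact congrArg (fun z => Sum.inr z) (Bool.not_not b)
  fpf := by
    rintro ((x | x) | b) h
    · exact hC.fpf x (Sum.inl.inj (Sum.inl.inj h))
    · exact hR.fpf x (Sum.inr.inj (Sum.inl.inj h))
    · exact absurd (Sum.inr.inj h) (by cases b <;> decide)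
  conn := by
    classical
    intro A h0 hs ha
    have ht : some (Sum.inr true) ∈ A := by
      have := hs none h0
      rwa [PM.join_s_none] at this
    have h1 : univ.filter (fun x : Option R.T => joinEquiv C.T R.T (Sum.inl (Sum.inr x)) ∈ A)
        = univ := by
      refine hR.conn _ ?_ ?_ ?_
      · simp only [mem_filter, mem_univ, true_and]; exact h0
      · intro x hx
        simp only [mem_filter, mem_univ, true_and] at hx ⊢
        rcases x with _ | x
        · have h3 := hs _ ht
          have h2 : (PM.join d C R).s (some (Sum.inr true)) =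
            joinEquiv C.T R.T (Sum.inl (Sum.inr (R.s none))) := PM.join_s_true d C R
          exact h2 ▸ h3
        · have h3 := hs _ hx
          have h2 : (PM.join d C R).s (joinEquiv C.T R.T (Sum.inl (Sum.inr (some x)))) =
            joinEquiv C.T R.T (Sum.inl (Sum.inr (R.s (some x)))) := PM.join_s_R d C R x
          rwa [h2] at h3
      · intro x hx
        simp only [mem_filter, mem_univ, true_and] at hx ⊢
        exact ha (Sum.inl (Sum.inr x)) hx
    have hf : some (Sum.inr false) ∈ A := ha (Sum.inr true) ht
    have h2 : univ.filter (fun x : Option C.T => joinEquiv C.T R.T (Sum.inl (Sum.inl x)) ∈ A)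
        = univ := by
      refine hC.conn _ ?_ ?_ ?_
      · simp only [mem_filter, mem_univ, true_and]; exact hf
      · intro x hx
        simp only [mem_filter, mem_univ, true_and] at hx ⊢
        have := hs _ hx
        rwa [PM.join_s_C] at this
      · intro x hx
        simp only [mem_filter, mem_univ, true_and] at hx ⊢
        exact ha (Sum.inl (Sum.inl x)) hx
    ext t
    simp only [mem_univ, iff_true]
    obtain ⟨y, rfl⟩ := (joinEquiv C.T R.T).surjective t
    rcases y with (x | x) | u
    · have : x ∈ univ.filter (fun x : Option C.T =>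
        joinEquiv C.T R.T (Sum.inl (Sum.inl x)) ∈ A) := by rw [h2]; exact mem_univ _
      exact (mem_filter.mp this).2
    · have : x ∈ univ.filter (fun x : Option R.T =>
        joinEquiv C.T R.T (Sum.inl (Sum.inr x)) ∈ A) := by rw [h1]; exact mem_univ _
      exact (mem_filter.mp this).2
    · exact ht
  ls := by
    intro t
    obtain ⟨y, rfl⟩ := (joinEquiv C.T R.T).surjective t
    rcases y with (x | (_ | x)) | u
    · refine (congrArg (PM.join d C R).l (PM.join_s_C d C R x)).trans ?_
      show Sum.elim _ _ ((joinEquiv C.T R.T).symm (joinEquiv C.T R.T _)) =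
        Sum.elim _ _ ((joinEquiv C.T R.T).symm (joinEquiv C.T R.T _))
      rw [symm_apply_apply, symm_apply_apply]
      show C.l (C.s x) + (d : ℤ) = C.l x + (d : ℤ)
      rw [hC.ls]
    · refine (congrArg (PM.join d C R).l (PM.join_s_none d C R)).trans ?_
      show (0 : ℤ) = R.l none
      rw [hR.l0]
    · refine (congrArg (PM.join d C R).l (PM.join_s_R d C R x)).trans ?_
      show Sum.elim _ _ ((joinEquiv C.T R.T).symm (joinEquiv C.T R.T _)) = R.l (some x)
      rw [symm_apply_apply]
      show R.l (R.s (some x)) = R.l (some x)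
      rw [hR.ls]
    · refine (congrArg (PM.join d C R).l (PM.join_s_true d C R)).trans ?_
      show Sum.elim _ _ ((joinEquiv C.T R.T).symm (joinEquiv C.T R.T _)) = (0 : ℤ)
      rw [symm_apply_apply]
      show R.l (R.s none) = 0
      rw [hR.ls, hR.l0]
  la := by
    have hd : -1 ≤ (d : ℤ) ∧ (d : ℤ) ≤ 1 := by cases d <;> decide
    rintro ((x | x) | b)
    · show C.l (some (C.a x)) + (d : ℤ) ≤ C.l (some x) + (d : ℤ) + 1
      have := hC.la x
      omega
    · exact hR.la x
    · cases b
      · show (0 : ℤ) ≤ C.l none + (d : ℤ) + 1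
        rw [hC.l0]; omega
      · show C.l none + (d : ℤ) ≤ 0 + 1
        rw [hC.l0]; omega
  l0 := hR.l0
  tree := by
    obtain ⟨E, -, -, -⟩ := PM.join_vertices d C R
    have h1 : nV (PM.join d C R).s = nV C.s + nV R.s := by
      unfold nV
      rw [Nat.card_congr E, Nat.card_sum]
    have h2 : Fintype.card (PM.join d C R).T = Fintype.card C.T + Fintype.card R.T + 2 := by
      show Fintype.card ((C.T ⊕ R.T) ⊕ Bool) = _
      rw [Fintype.card_sum, Fintype.card_sum, Fintype.card_bool]
    have h3 := hC.tree
    have h4 := hR.tree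
    rw [h1, h2]
    omega

theorem LT.toPM_isTree (t : LT) : t.toPM.IsTree := by
  induction t with
  | nil => exact PM.nil_isTree
  | node d c r ihc ihr => exact PM.join_isTree d ihc ihr

theorem LT.card_toPM (t : LT) : Fintype.card t.toPM.T = 2 * t.size := by
  induction t with
  | nil => rfl
  | node d c r ihc ihr =>
    have h2 : Fintype.card (LT.node d c r).toPM.T =
        Fintype.card c.toPM.T + Fintype.card r.toPM.T + 2 := by
      show Fintype.card ((c.toPM.T ⊕ r.toPM.T) ⊕ Bool) = _
      rw [Fintype.card_sum, Fintype.card_sum, Fintype.card_bool]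
    rw [h2, ihc, ihr]
    show _ = 2 * (c.size + r.size + 1)
    ring

end Dia
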