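import Pool.Agent.Dia.PMInj
import Pool.Agent.Dia.PMBridge
import Pool.Agent.PGr.CutIso

/-!
# Module PMSplit: every plane tree comes from `LT`

`exists_join`: let `M` be a tree with a dart.  `M.s none ≠ none` (otherwise `{none}` is closed), let
`M.s none = some r`, `e = a r`, and `f` from `bridge`.  `f (some r) = f none` (`s`-invariance), put
`X = {x | f x = f none}` (contains `none`, `some r`), `Y` = complement (contains `some e`).  Both are
closed under `s`, and under `a` except for the edge `{r, e}`.
* `C`: `C.T = {t // some t ∈ Y, t ≠ e}`, `Option C.T ≃ Y` with `none ↦ some e`; `C.s` = restriction of `s`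
  to `Y`; `C.a` = restriction of `a`; `C.l = l - l (some e)`.
* `R`: `R.T = {t // some t ∈ X, t ≠ r}`, `Option R.T ≃ X \ {some r}`; `R.s` = restriction of
  `s * swap none (some r)` (which fixes `some r`): `none ↦ s (some r)`, other `x ↦ s x`; `R.a` = restriction
  of `a`; `R.l = l`.
`d = l (some e) - l none ∈ {-1,0,1}` by `la` (for `r` and `e`) and `l (some r) = l (s none) = l none = 0`.
`M ≅ join d C R` (with `r ↔ inr true`, `e ↔ inr false`).
Connectedness of `C`: let `A ⊆ Option C.T`, `none ∈ A`, closed.  The union of the image of `A` with `X` is a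
subset of `Option M.T` containing `none`, closed under `s` and `a` (the only edge between `X` and `Y` is
`{r, e}`, and `some e` corresponds to `none ∈ A`), so everything.  The same for `R`.
Counting: `nV M.s = nV C.s + nV R.s` (`join_vertices` and invariance under the isomorphism),
`card M.T = card C.T + card R.T + 2`; `pm_euler` for `C` and `R` and the equality for `M` give equality
for both.

`exists_LT`: strong induction on `card M.T`, `join_congr`.
-/

set_option linter.unusedSectionVars false

namespace Dia
open Equiv Finset PGr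

/-- restriction of a permutation along an injective map with invariant range -/
theorem PMSplit_restr {α β : Type} (i : α → β) (hi : Function.Injective i) (s : Perm β)
    (h : ∀ y, s y ∈ Set.range i ↔ y ∈ Set.range i) : ∃ s' : Perm α, ∀ x, i (s' x) = s (i x) := by
  refine ⟨(Equiv.ofInjective i hi).trans ((s.subtypePerm h).trans (Equiv.ofInjective i hi).symm),
    fun x => ?_⟩
  have h1 : ∀ y : Set.range i, i ((Equiv.ofInjective i hi).symm y) = y.1 := fun y =>
    Equiv.apply_ofInjective_symm hi y
  rw [Equiv.trans_apply, Equiv.trans_apply, h1]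
  rfl

theorem PMSplit_card_join (d : SignType) (C R : PM) :
    Fintype.card (PM.join d C R).T = Fintype.card C.T + Fintype.card R.T + 2 := by
  have h : Fintype.card (PM.join d C R).T = Fintype.card ((C.T ⊕ R.T) ⊕ Bool) :=
    Fintype.card_congr (Equiv.refl _)
  rw [h, Fintype.card_sum, Fintype.card_sum, Fintype.card_bool]

theorem PMSplit_nV_join (d : SignType) (C R : PM) :
    nV (PM.join d C R).s = nV C.s + nV R.s := by
  obtain ⟨E, -⟩ := PM.join_vertices d C R
  rw [nV, nV, nV, Nat.card_congr E, Nat.card_sum]

theorem PMSplit_nV_iso {M N : PM} (h : PIso M N) : nV M.s = nV N.s := by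
  obtain ⟨e, -, h2, -⟩ := h
  exact nV_iso (Equiv.optionCongr e) h2

theorem PMSplit_card_iso {M N : PM} (h : PIso M N) : Fintype.card M.T = Fintype.card N.T := by
  obtain ⟨e, -⟩ := h
  exact Fintype.card_congr e

/-- isomorphic parts of a tree: only the count has to be checked -/
theorem PMSplit_tree {d : SignType} {C R M : PM} (hM : M.IsTree) (h : PIso (PM.join d C R) M)
    (hC : 2 * nV C.s ≤ Fintype.card C.T + 2) (hR : 2 * nV R.s ≤ Fintype.card R.T + 2) :
    2 * nV C.s = Fintype.card C.T + 2 ∧ 2 * nV R.s = Fintype.card R.T + 2 := by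
  have h1 := PMSplit_nV_iso h
  have h2 := PMSplit_card_iso h
  rw [PMSplit_nV_join] at h1
  rw [PMSplit_card_join] at h2
  have h3 := hM.tree
  omega

theorem PMSplit_sign {z : ℤ} (h1 : z ≤ 1) (h2 : -1 ≤ z) : ∃ d : SignType, (d : ℤ) = z := by
  have h : z = -1 ∨ z = 0 ∨ z = 1 := by omega
  rcases h with rfl | rfl | rfl
  · exact ⟨-1, by decide⟩
  · exact ⟨0, by decide⟩
  · exact ⟨1, by decide⟩

theorem PM.IsTree.exists_join {M : PM} (h : M.IsTree) (hne : Nonempty M.T) :
    ∃ (d : SignType) (C R : PM), C.IsTree ∧ R.IsTree ∧ PIso (PM.join d C R) M := by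
  classical
  -- the first dart
  have hs0 : ∃ r, M.s none = some r := by
    by_contra hcon
    have h0 : M.s none = none := by
      rcases hx : M.s none with _ | r
      · rfl
      · exact absurd ⟨r, hx⟩ hcon
    have hA := h.conn {none} (by simp) (by
      intro t ht
      rw [mem_singleton] at ht ⊢
      rw [ht, h0]) (by
      intro t ht
      rw [mem_singleton] at ht
      exact absurd ht (by simp))
    obtain ⟨t⟩ := hne
    have ht : some t ∈ ({none} : Finset (Option M.T)) := by rw [hA]; exact mem_univ _
    rw [mem_singleton] at ht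
    exact absurd ht (by simp)
  obtain ⟨r, hr⟩ := hs0
  obtain ⟨f, fs, fa, fne⟩ := h.bridge r
  have fr : f (some r) = f none := by rw [← hr, fs]
  have fe : f (some (M.a r)) ≠ f none := by rw [← fr]; exact fne
  have hae : M.a (M.a r) = r := h.inv r
  have lr : M.l (some r) = 0 := by rw [← hr, h.ls, h.l0]
  -- the two parts
  let CT : Type := {t : M.T // f (some t) ≠ f none ∧ t ≠ M.a r}
  let RT : Type := {t : M.T // f (some t) = f none ∧ t ≠ r}
  let iC : Option CT → Option M.T := fun x => x.elim (some (M.a r)) (fun t => some t.1)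
  let iR : Option RT → Option M.T := fun x => x.elim none (fun t => some t.1)
  have iC0 : iC none = some (M.a r) := rfl
  have iC1 : ∀ t : CT, iC (some t) = some t.1 := fun _ => rfl
  have iR0 : iR none = none := rfl
  have iR1 : ∀ t : RT, iR (some t) = some t.1 := fun _ => rfl
  have iCi : Function.Injective iC := by
    intro x y hxy
    rcases x with _ | x <;> rcases y with _ | y
    · rfl
    · rw [iC0, iC1] at hxy
      exact absurd (Option.some.inj hxy).symm y.2.2
    · rw [iC0, iC1] at hxy
      exact absurd (Option.some.inj hxy) x.2.2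
    · rw [iC1, iC1] at hxy
      rw [Subtype.ext (Option.some.inj hxy)]
  have iRi : Function.Injective iR := by
    intro x y hxy
    rcases x with _ | x <;> rcases y with _ | y
    · rfl
    · rw [iR0, iR1] at hxy
      exact absurd hxy (by simp)
    · rw [iR0, iR1] at hxy
      exact absurd hxy (by simp)
    · rw [iR1, iR1] at hxy
      rw [Subtype.ext (Option.some.inj hxy)]
  have rC : ∀ y, y ∈ Set.range iC ↔ f y ≠ f none := by
    intro y
    constructor
    · rintro ⟨x, rfl⟩
      rcases x with _ | x
      · rw [iC0]; exact fe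
      · rw [iC1]; exact x.2.1
    · intro hy
      rcases y with _ | y
      · exact absurd rfl hy
      · by_cases hye : y = M.a r
        · exact ⟨none, by rw [iC0, hye]⟩
        · exact ⟨some ⟨y, hy, hye⟩, rfl⟩
  have rR : ∀ y, y ∈ Set.range iR ↔ f y = f none ∧ y ≠ some r := by
    intro y
    constructor
    · rintro ⟨x, rfl⟩
      rcases x with _ | x
      · rw [iR0]; exact ⟨rfl, by simp⟩
      · rw [iR1]; exact ⟨x.2.1, fun hx => x.2.2 (Option.some.inj hx)⟩
    · rintro ⟨hy, hyr⟩
      rcases y with _ | y
      · exact ⟨none, rfl⟩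
      · exact ⟨some ⟨y, hy, fun hx => hyr (by rw [hx])⟩, rfl⟩
  -- restricted rotations
  obtain ⟨sC, hsC⟩ := PMSplit_restr iC iCi M.s (fun y => by rw [rC, rC, fs])
  have hsw : ∀ y, y ≠ none → y ≠ some r → (M.s * swap none (some r)) y = M.s y := by
    intro y h1 h2
    rw [Perm.mul_apply, swap_apply_of_ne_of_ne h1 h2]
  have hsw0 : (M.s * swap none (some r)) none = M.s (some r) := by
    rw [Perm.mul_apply, swap_apply_left]
  have hsw1 : (M.s * swap none (some r)) (some r) = some r := by
    rw [Perm.mul_apply, swap_apply_right, hr]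
  have fsw : ∀ y, f ((M.s * swap none (some r)) y) = f y := by
    intro y
    by_cases h1 : y = none
    · rw [h1, hsw0, fs, fr]
    · by_cases h2 : y = some r
      · rw [h2, hsw1]
      · rw [hsw y h1 h2, fs]
  obtain ⟨sR, hsR⟩ := PMSplit_restr iR iRi (M.s * swap none (some r)) (fun y => by
    rw [rR, rR, fsw]
    have h1 : (M.s * swap none (some r)) y ≠ some r ↔ y ≠ some r := by
      rw [not_iff_not]
      constructor
      · intro h2
        exact (M.s * swap none (some r)).injective (h2.trans hsw1.symm)
      · intro h2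
        rw [h2, hsw1]
    rw [h1])
  -- restricted edge involutions
  have nrC : ∀ t : CT, t.1 ≠ r := fun t ht => t.2.1 (by rw [ht, fr])
  have neR : ∀ t : RT, t.1 ≠ M.a r := fun t ht => fe (by rw [← ht, t.2.1])
  obtain ⟨aC, haC⟩ := PMSplit_restr (fun t : CT => t.1) Subtype.val_injective M.a (fun y => by
    have key : ∀ y : M.T, y ∈ Set.range (fun t : CT => t.1) → M.a y ∈ Set.range (fun t : CT => t.1) := by
      rintro _ ⟨t, rfl⟩
      refine ⟨⟨M.a t.1, ?_, ?_⟩, rfl⟩
      · rw [fa t.1 (nrC t) t.2.2]; exact t.2.1
      · intro h1; exact nrC t (M.a.injective h1)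
    refine ⟨fun h1 => ?_, key y⟩
    have h2 := key _ h1
    rw [h.inv] at h2
    exact h2)
  obtain ⟨aR, haR⟩ := PMSplit_restr (fun t : RT => t.1) Subtype.val_injective M.a (fun y => by
    have key : ∀ y : M.T, y ∈ Set.range (fun t : RT => t.1) → M.a y ∈ Set.range (fun t : RT => t.1) := by
      rintro _ ⟨t, rfl⟩
      refine ⟨⟨M.a t.1, ?_, ?_⟩, rfl⟩
      · rw [fa t.1 t.2.2 (neR t)]; exact t.2.1
      · intro h1
        apply neR t
        have h3 := congrArg M.a h1
        rw [h.inv] at h3
        exact h3
    refine ⟨fun h1 => ?_, key y⟩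
    have h2 := key _ h1
    rw [h.inv] at h2
    exact h2)
  have haC' : ∀ t : CT, (aC t).1 = M.a t.1 := haC
  have haR' : ∀ t : RT, (aR t).1 = M.a t.1 := haR
  let C : PM := { T := CT, a := aC, s := sC, l := fun x => M.l (iC x) - M.l (some (M.a r)) }
  let R : PM := { T := RT, a := aR, s := sR, l := fun x => M.l (iR x) }
  -- the sign
  obtain ⟨d, hd⟩ : ∃ d : SignType, (d : ℤ) = M.l (some (M.a r)) := by
    apply PMSplit_sign
    · have h1 := h.la r
      rw [lr] at h1
      omega
    · have h1 := h.la (M.a r)
      rw [hae, lr] at h1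
      omega
  -- the isomorphism
  let E : (PM.join d C R).T → M.T := Sum.elim (Sum.elim (fun t : CT => t.1) (fun t : RT => t.1))
    (fun b => if b = true then r else M.a r)
  have Ec : ∀ t : C.T, E (PMInj_c d C R t) = t.1 := fun _ => rfl
  have Er : ∀ t : R.T, E (PMInj_r d C R t) = t.1 := fun _ => rfl
  have Et : E (PMInj_b d C R true) = r := rfl
  have Ef : E (PMInj_b d C R false) = M.a r := rfl
  have rne : r ≠ M.a r := fun h1 => h.fpf r h1.symm
  have Ebij : Function.Bijective E := by
    constructor
    · intro x y hxy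
      rcases PMInj_dart d C R x with ⟨x, rfl⟩ | ⟨x, rfl⟩ | ⟨b, rfl⟩ <;>
        rcases PMInj_dart d C R y with ⟨y, rfl⟩ | ⟨y, rfl⟩ | ⟨b', rfl⟩
      · rw [Ec, Ec] at hxy
        exact congrArg (PMInj_c d C R) (Subtype.ext hxy)
      · rw [Ec, Er] at hxy
        exact absurd (by rw [hxy]; exact y.2.1) x.2.1
      · rw [Ec] at hxy
        cases b'
        · rw [Ef] at hxy
          exact absurd hxy x.2.2
        · rw [Et] at hxy
          exact absurd hxy (nrC x)
      · rw [Ec, Er] at hxy
        exact absurd (by rw [← hxy]; exact x.2.1) y.2.1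
      · rw [Er, Er] at hxy
        exact congrArg (PMInj_r d C R) (Subtype.ext hxy)
      · rw [Er] at hxy
        cases b'
        · rw [Ef] at hxy
          exact absurd hxy (neR x)
        · rw [Et] at hxy
          exact absurd hxy x.2.2
      · rw [Ec] at hxy
        cases b
        · rw [Ef] at hxy
          exact absurd hxy.symm y.2.2
        · rw [Et] at hxy
          exact absurd hxy.symm (nrC y)
      · rw [Er] at hxy
        cases b
        · rw [Ef] at hxy
          exact absurd hxy.symm (neR y)
        · rw [Et] at hxy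
          exact absurd hxy.symm y.2.2
      · cases b <;> cases b'
        · rfl
        · rw [Ef, Et] at hxy
          exact absurd hxy.symm rne
        · rw [Ef, Et] at hxy
          exact absurd hxy rne
        · rfl
    · intro t
      by_cases h1 : t = r
      · exact ⟨PMInj_b d C R true, by rw [Et, h1]⟩
      · by_cases h2 : t = M.a r
        · exact ⟨PMInj_b d C R false, by rw [Ef, h2]⟩
        · by_cases h3 : f (some t) = f none
          · exact ⟨PMInj_r d C R ⟨t, h3, h1⟩, rfl⟩
          · exact ⟨PMInj_c d C R ⟨t, h3, h2⟩, rfl⟩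
  have hiso : PIso (PM.join d C R) M := by
    have hmC : ∀ x : Option C.T, (PMInj_C d C R x).map E = iC x := by
      intro x
      rcases x with _ | x
      · rfl
      · rfl
    have hmR : ∀ x : Option R.T, (PMInj_R d C R x).map E = iR x := by
      intro x
      rcases x with _ | x
      · rfl
      · rfl
    have hCs : ∀ x : Option C.T, iC (C.s x) = M.s (iC x) := hsC
    have hRs : ∀ x : Option R.T, iR (R.s x) = (M.s * swap none (some r)) (iR x) := hsR
    have hCa : ∀ x : C.T, (C.a x).1 = M.a x.1 := haC
    have hRa : ∀ x : R.T, (R.a x).1 = M.a x.1 := haR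
    have hCl : ∀ x : Option C.T, C.l x = M.l (iC x) - M.l (some (M.a r)) := fun _ => rfl
    have hRl : ∀ x : Option R.T, R.l x = M.l (iR x) := fun _ => rfl
    refine ⟨Equiv.ofBijective E Ebij, ?_, ?_, ?_⟩
    · intro t
      rw [Equiv.ofBijective_apply, Equiv.ofBijective_apply]
      rcases PMInj_dart d C R t with ⟨t, rfl⟩ | ⟨t, rfl⟩ | ⟨b, rfl⟩
      · rw [PMInj_a_c, Ec, Ec, hCa]
      · rw [PMInj_a_r, Er, Er, hRa]
      · cases b
        · rw [PMInj_a_b, Ef, hae]; exact Et
        · rw [PMInj_a_b, Et]; exact Ef
    · intro t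
      change ((PM.join d C R).s t).map E = M.s (t.map E)
      rcases PMInj_elem d C R t with ⟨x, rfl⟩ | ⟨x, rfl⟩ | rfl
      · rw [PMInj_s_C, hmC, hmC, hCs]
      · rcases x with _ | x
        · rw [PMInj_R_none, PMInj_s_none, Option.map_some, Et, Option.map_none, hr]
        · rw [PMInj_R_some, PMInj_s_r, hmR, hRs, Option.map_some, Er]
          exact hsw _ (by rw [iR1]; simp) (by rw [iR1]; exact fun hx => x.2.2 (Option.some.inj hx))
      · rw [PMInj_s_true, hmR, hRs, Option.map_some, Et]
        exact hsw0
    · intro t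
      change M.l (t.map E) = (PM.join d C R).l t
      rcases PMInj_elem d C R t with ⟨x, rfl⟩ | ⟨x, rfl⟩ | rfl
      · rw [hmC, PMInj_l_C, hCl, hd]; ring
      · rw [hmR, PMInj_l_R, hRl]
      · rw [PMInj_l_true, Option.map_some, Et, lr]
  -- connectedness
  have hconnC : ∀ A : Finset (Option CT), none ∈ A → (∀ t, t ∈ A → sC t ∈ A) →
      (∀ t, some t ∈ A → some (aC t) ∈ A) → A = univ := by
    intro A h0 h1 h2
    have hB := h.conn (univ.filter fun y => f y = f none ∨ ∃ x ∈ A, iC x = y)
      (by simp) (by
      intro t ht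
      simp only [mem_filter, mem_univ, true_and] at ht ⊢
      rcases ht with ht | ⟨x, hx, rfl⟩
      · left; rw [fs, ht]
      · right; exact ⟨sC x, h1 x hx, hsC x⟩) (by
      intro t ht
      simp only [mem_filter, mem_univ, true_and] at ht ⊢
      rcases ht with ht | ⟨x, hx, hxt⟩
      · by_cases htr : t = r
        · right; exact ⟨none, h0, by rw [iC0, htr]⟩
        · left
          rw [fa t htr (fun hte => fe (by rw [← hte]; exact ht)), ht]
      · rcases x with _ | x
        · rw [iC0] at hxt
          left
          rw [← Option.some.inj hxt, hae, fr]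
        · rw [iC1] at hxt
          right
          exact ⟨some (aC x), h2 x hx, by rw [iC1, haC', Option.some.inj hxt]⟩)
    rw [eq_univ_iff_forall]
    intro x
    have hx : iC x ∈ (univ.filter fun y => f y = f none ∨ ∃ x ∈ A, iC x = y) := by
      rw [hB]; exact mem_univ _
    simp only [mem_filter, mem_univ, true_and] at hx
    rcases hx with hx | ⟨x', hx', he⟩
    · exact absurd hx ((rC _).mp ⟨x, rfl⟩)
    · rw [← iCi he]; exact hx'
  have hconnR : ∀ A : Finset (Option RT), none ∈ A → (∀ t, t ∈ A → sR t ∈ A) →
      (∀ t, some t ∈ A → some (aR t) ∈ A) → A = univ := by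
    intro A h0 h1 h2
    have hB := h.conn (univ.filter fun y => f y ≠ f none ∨ y = some r ∨ ∃ x ∈ A, iR x = y)
      (by
      simp only [mem_filter, mem_univ, true_and]
      right; right
      exact ⟨none, h0, rfl⟩) (by
      intro t ht
      simp only [mem_filter, mem_univ, true_and] at ht ⊢
      rcases ht with ht | rfl | ⟨x, hx, rfl⟩
      · left; rw [fs]; exact ht
      · right; right
        exact ⟨sR none, h1 _ h0, by rw [hsR, iR0, hsw0]⟩
      · rcases x with _ | x
        · right; left
          rw [iR0, hr]
        · right; right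
          refine ⟨sR (some x), h1 _ hx, ?_⟩
          rw [hsR]
          exact hsw _ (by rw [iR1]; simp) (by rw [iR1]; exact fun hx => x.2.2 (Option.some.inj hx))) (by
      intro t ht
      simp only [mem_filter, mem_univ, true_and] at ht ⊢
      rcases ht with ht | ht | ⟨x, hx, hxt⟩
      · by_cases hte : t = M.a r
        · right; left
          rw [hte, hae]
        · left
          rw [fa t (fun htr => ht (by rw [htr, fr])) hte]
          exact ht
      · left
        rw [Option.some.inj ht]
        exact fe
      · rcases x with _ | x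
        · rw [iR0] at hxt
          exact absurd hxt (by simp)
        · rw [iR1] at hxt
          right; right
          exact ⟨some (aR x), h2 x hx, by rw [iR1, haR', Option.some.inj hxt]⟩)
    rw [eq_univ_iff_forall]
    intro x
    have hx : iR x ∈ (univ.filter fun y => f y ≠ f none ∨ y = some r ∨ ∃ x ∈ A, iR x = y) := by
      rw [hB]; exact mem_univ _
    simp only [mem_filter, mem_univ, true_and] at hx
    have hxr := (rR (iR x)).mp ⟨x, rfl⟩
    rcases hx with hx | hx | ⟨x', hx', he⟩
    · exact absurd hxr.1 hx
    · exact absurd hx hxr.2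
    · rw [← iRi he]; exact hx'
  have invC : ∀ t : CT, aC (aC t) = t := fun t => Subtype.ext (by rw [haC', haC', h.inv])
  have invR : ∀ t : RT, aR (aR t) = t := fun t => Subtype.ext (by rw [haR', haR', h.inv])
  have fpfC : ∀ t : CT, aC t ≠ t := fun t ht => h.fpf t.1 (by rw [← haC', ht])
  have fpfR : ∀ t : RT, aR t ≠ t := fun t ht => h.fpf t.1 (by rw [← haR', ht])
  have hcount := PMSplit_tree h hiso (pm_euler aC sC invC fpfC hconnC)
    (pm_euler aR sR invR fpfR hconnR)
  refine ⟨d, C, R, ⟨invC, fpfC, hconnC, ?_, ?_, ?_, hcount.1⟩,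
    ⟨invR, fpfR, hconnR, ?_, ?_, ?_, hcount.2⟩, hiso⟩
  · intro t
    change M.l (iC (sC t)) - M.l (some (M.a r)) = M.l (iC t) - M.l (some (M.a r))
    rw [hsC, h.ls]
  · intro t
    change M.l (some (aC t).1) - M.l (some (M.a r)) ≤ M.l (some t.1) - M.l (some (M.a r)) + 1
    have h1 := h.la t.1
    rw [haC']
    omega
  · change M.l (some (M.a r)) - M.l (some (M.a r)) = 0
    exact sub_self _
  · intro t
    change M.l (iR (sR t)) = M.l (iR t)
    rw [hsR]
    rcases t with _ | t
    · rw [iR0, hsw0, h.ls, lr, h.l0]
    · rw [hsw _ (by rw [iR1]; simp) (by rw [iR1]; exact fun hx => t.2.2 (Option.some.inj hx)), h.ls]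
  · intro t
    change M.l (some (aR t).1) ≤ M.l (some t.1) + 1
    rw [haR']
    exact h.la t.1
  · change M.l none = 0
    exact h.l0

theorem PM.IsTree.iso_nil {M : PM} (h : M.IsTree) (hne : IsEmpty M.T) : PIso PM.nil M := by
  have hn : ∀ x : Option M.T, x = none := by
    intro x
    rcases x with _ | x
    · rfl
    · exact hne.elim x
  refine ⟨⟨fun x => x.elim, fun x => hne.elim x, fun x => x.elim, fun x => hne.elim x⟩,
    fun t => t.elim, fun t => ?_, fun t => ?_⟩
  · rw [hn (M.s _), hn (Option.map _ _)]
  · rw [hn (Option.map _ _), h.l0]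
    rfl

theorem PM.IsTree.exists_LT {M : PM} (h : M.IsTree) : ∃ t : LT, PIso t.toPM M := by
  generalize hn : Fintype.card M.T = n
  induction n using Nat.strong_induction_on generalizing M with
  | _ n ih =>
    rcases isEmpty_or_nonempty M.T with hne | hne
    · exact ⟨LT.nil, h.iso_nil hne⟩
    · obtain ⟨d, C, R, hC, hR, hiso⟩ := h.exists_join hne
      have hcard := PMSplit_card_iso hiso
      rw [PMSplit_card_join] at hcard
      obtain ⟨c, hc⟩ := ih (Fintype.card C.T) (by omega) hC rfl
      obtain ⟨r, hr⟩ := ih (Fintype.card R.T) (by omega) hR rfl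
      exact ⟨LT.node d c r, (PM.join_congr d hc hr).trans hiso⟩

end Dia
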