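import Pool.Agent.Dia.RigG
import Pool.Agent.Dia.DecD
import Pool.Agent.Dia.DecR
import Pool.Agent.Dia.DecP
import Pool.Agent.Dia.DecQ
import Pool.Agent.Dia.DecS

/-!
# Module PSysP: the planar sequences satisfy the inequalities `PSys`
-/

set_option linter.unusedSectionVars false

namespace Dia
open Finset PGr Pool.Agent.DiamP

theorem wt_cv (f g : ℕ → ℝ) (x : ℝ) : cv (wt f x) (wt g x) = wt (cv f g) x := by
  funext k
  unfold cv wt
  rw [Finset.sum_mul]
  refine Finset.sum_congr rfl fun ij hij => ?_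
  rw [← Finset.HasAntidiagonal.mem_antidiagonal.1 hij, pow_add]
  ring

theorem wt_cvL (l : List (ℕ → ℝ)) (x : ℝ) : cvL (l.map fun f => wt f x) = wt (cvL l) x := by
  induction l with
  | nil =>
    funext k
    simp only [List.map_nil, cvL_nil, wt, one0]
    split_ifs with h
    · simp [h]
    · simp
  | cons f l ih => rw [List.map_cons, cvL_cons, cvL_cons, ih, wt_cv]

theorem wt_Hc (h : ℕ → ℕ → ℝ) (M : ℕ∞) (r d : ℕ → ℝ) (x : ℝ) :
    Hc h M (wt r x) (wt d x) = wt (Hc h M r d) x := by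
  funext k
  unfold Hc
  simp only [wt, Finset.sum_mul]
  refine Finset.sum_congr rfl fun v _ => Finset.sum_congr rfl fun e _ => ?_
  split_ifs
  · have h1 := congrFun (wt_cvL (List.replicate v r ++ List.replicate e d) x) k
    rw [List.map_append, List.map_replicate, List.map_replicate] at h1
    change _ = cvL (List.replicate v r ++ List.replicate e d) k * x ^ k at h1
    rw [mul_assoc, ← h1]
  · rw [zero_mul]

private theorem PSysP_es1 (P : ∀ A : Type, SimpleGraph (Option A) → Prop) (k : ℕ) :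
    0 ≤ es1 P k := by
  unfold es1
  positivity

private theorem PSysP_es2 (P : ∀ A : Type, SimpleGraph (A ⊕ Bool) → Prop) (k : ℕ) :
    0 ≤ es2 P k := by
  unfold es2
  positivity

private theorem PSysP_wt {f : ℕ → ℝ} {x : ℝ} (hx : 0 ≤ x) {k : ℕ} (h : 0 ≤ f k) :
    0 ≤ wt f x k := mul_nonneg h (pow_nonneg hx k)

private theorem PSysP_le {f g : ℕ → ℝ} {x : ℝ} (hx : 0 ≤ x) {k : ℕ} (h : f k ≤ g k) :
    wt f x k ≤ wt g x k := mul_le_mul_of_nonneg_right h (pow_nonneg hx k)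

private theorem PSysP_sb (f : ℕ → ℝ) (x : ℝ) :
    (fun j : ℕ => (j : ℝ) * wt f x j) = wt (fun j => (j : ℝ) * f j) x := by
  funext j
  simp only [wt]
  ring

theorem planar_sys {x : ℝ} (hx : 0 ≤ x) (M : ℕ∞) :
    PSys x hN M (wt (rN M) x) (wt (rE M) x) (wt (pN M) x) (wt (qN M) x) (wt (dN M) x)
      (wt (bN M) x) where
  r_nn k := by
    refine PSysP_wt hx ?_
    unfold rN sh
    split_ifs
    · exact le_rfl
    · exact PSysP_es1 _ _
  e_nn k := PSysP_wt hx (PSysP_es1 _ _)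
  p_nn k := PSysP_wt hx (PSysP_es1 _ _)
  q_nn k := PSysP_wt hx (PSysP_es2 _ _)
  d_nn k := PSysP_wt hx (PSysP_es2 _ _)
  b_nn k := PSysP_wt hx (PSysP_es2 _ _)
  r_zero := by rw [wt, rN_zero, zero_mul]
  e_zero := by
    have h : rE M 0 = rN M 1 := by simp [rE, rN, sh]
    rw [wt, h, rN_one]
    simp
  p_zero := by rw [wt, pN_zero, zero_mul]
  q_zero := by rw [wt, qN_zero, pow_zero, mul_one]
  d_zero := by rw [wt, dN_zero, pow_zero, mul_one]
  b_zero := by rw [wt, bN_zero, zero_mul]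
  hr k := by
    have h : rN M (k + 1) = rE M k := by simp [rE, rN, sh]
    rw [wt, wt, h, pow_succ]
    ring
  he k := by
    rw [PSysP_sb, wt_cv]
    have h := PSysP_le (f := fun k : ℕ => (k : ℝ) * rE M k) hx (r_rec M k)
    rw [← PSysP_sb] at h
    exact h
  hp k := by
    rw [wt_cv]
    exact PSysP_le hx (p_le M k)
  hq k := by
    rw [PSysP_sb, wt_cv]
    have h := PSysP_le (f := fun k : ℕ => (k : ℝ) * qN M k) hx (q_rec M k)
    rw [← PSysP_sb] at h
    exact h
  hd k hk := by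
    rw [wt, wt, dN_eq M hk]
    ring
  hb k := by
    rw [wt_cv, wt_cv, wt_Hc]
    have h : bN M k ≤ cv (rN M) (cv (dN M) (dN M)) k + Hc hN M (rN M) (dN M) k := by
      rw [bN_split]
      exact add_le_add (s_le M k) (bR_le M k)
    have h1 := PSysP_le (g := fun k => cv (rN M) (cv (dN M) (dN M)) k +
      Hc hN M (rN M) (dN M) k) hx h
    refine h1.trans (le_of_eq ?_)
    simp only [wt]
    ring

theorem planar_g {x : ℝ} (hx : 0 ≤ x) (M : ℕ∞) (k : ℕ) :
    (k : ℝ) * wt (gN M) x k ≤ cv (wt (rN M) x) (wt (gN M) x) k := by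
  rw [wt_cv]
  have h := PSysP_le (f := fun k : ℕ => (k : ℝ) * gN M k) hx (g_rec M k)
  rw [← PSysP_sb] at h
  exact h

theorem planar_low {x : ℝ} (hx : 0 ≤ x) (k : ℕ) :
    Hc hN ⊤ (wt (rN ⊤) x) (wt (dN ⊤) x) k ≤ wt (bN ⊤) x k := by
  rw [wt_Hc]
  exact PSysP_le hx (bR_ge k)

end Dia
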