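import Pool.Agent.Dia.PhiInj

/-!
# Module PhiQuad: `phi M` is a labelled quadrangulation (if it is connected)

`phi.s = phiS` by `phi_s` and `phiS_bij`.  Labels: `l (a (c,true)) = l c - 1 = l (c,true) - 1`,
`l (a (c,false)) = l (c,false) + 1`; `phiS` preserves the labels (`l (s c) = l c`; case 1:
`l (a c) - 1 = l c`; case 3: `l (sig c) = l c - 1`; case 4: `l (bk c) - 1 = l c - 1`, `l_bk`).

Faces (`ph t = a (s t)` in `phi M`).  For every dart:
* `ph_up`: `l (a c) = l c + 1`: `ph (c,true) = (a c, true)`;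
* `ph_not_up`: otherwise `ph (c,true) = (s c, false)`;
* `ph_sig`: `l (fa⁻¹ c) = l c - 1`: `ph (c,false) = (sig c, false)`;
* `ph_bk`: otherwise `ph (c,false) = (bk c, true)`.
Case A, `l (a c) = l c + 1`, `b = a c`: the face `(c,true) → (b,true) → (s b,false) → (u,false) →
(c,true)` with `u = sig (s b)`.  Indeed `l (a b) = l b - 1` so `ph (b,true) = (s b,false)`;
`fa⁻¹ (s b) = a b = c` has label `l b - 1`, so `ph (s b,false) = (u,false)` with `l u = l b - 1 = l c`;
`l (fa⁻¹ u) = l u + 1` (`l_before_sig`), so `ph (u,false) = (bk u, true)`, and `bk u = c`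
(`bk_eq`): going back from `u` the labels are `≥ l b > l u` until `s b`, and the element before
`s b` is `c` with label `l c = l u`.
Case B, `l (a c) = l c`, `b = a c`: `(c,true) → (s c,false) → (b,true) → (s b,false) → (c,true)`:
`fa⁻¹ (s c) = a c = b` with label `l (s c)`, so `bk (s c) = b`.
Every dart is in one of these cycles: `(c,true)`: by the three values of `l (a c) - l c` (if it is `-1`
then `c` is the `b` of `a c`); `(c,false)`: let `b = s⁻¹ c`, `fa⁻¹ c = a b`; if `l (a b) = l b - 1` then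
`(c,false) = (s b,false)` in case A for `a b`; if `l (a b) = l b` case B; if `l (a b) = l b + 1`, that is
`l (fa⁻¹ c) = l c + 1`: let `c' = bk c`, `l c' = l c` (`l_bk`), `c' ≠ fa⁻¹ c`, so by `bk_spec`
`l (fa c') = l c' + 1`, `l (a c') = l c' + 1`, case A for `c'` with `u = sig (s (a c')) = sig (fa c') = c`
(`sig_eq`).
`two`: `ph (ph t) ≠ t` is visible in all cases (`a c ≠ c`, `true ≠ false`; `(s c,false) ≠ (s b,false)`
since `b ≠ c`; `(b,true) ≠ (u,false)`).
-/

set_option linter.unusedSectionVars false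

namespace Dia
open Equiv Finset PGr

variable {M : LM}

private theorem PhiQuad_s (h : M.IsLM) (t : M.T × Bool) : M.phi.s t = M.phiS t :=
  LM.phi_s M h.phiS_bij t

theorem LM.IsLM.ph_up (h : M.IsLM) (c : M.T) (hc : M.l (M.a c) = M.l c + 1) :
    M.phi.ph (c, true) = (M.a c, true) := by
  show M.phi.a (M.phi.s (c, true)) = _
  rw [PhiQuad_s h]
  simp only [LM.phiS, if_pos hc]
  rfl

theorem LM.IsLM.ph_not_up (h : M.IsLM) (c : M.T) (hc : M.l (M.a c) ≠ M.l c + 1) :
    M.phi.ph (c, true) = (M.s c, false) := by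
  show M.phi.a (M.phi.s (c, true)) = _
  rw [PhiQuad_s h]
  simp only [LM.phiS, if_neg hc]
  rfl

theorem LM.IsLM.ph_sig (h : M.IsLM) (c : M.T) (hc : M.l (M.fa⁻¹ c) = M.l c - 1) :
    M.phi.ph (c, false) = (M.sig c, false) := by
  show M.phi.a (M.phi.s (c, false)) = _
  rw [PhiQuad_s h]
  simp only [LM.phiS, if_pos hc]
  rfl

theorem LM.IsLM.ph_bk (h : M.IsLM) (c : M.T) (hc : M.l (M.fa⁻¹ c) ≠ M.l c - 1) :
    M.phi.ph (c, false) = (M.bk c, true) := by
  show M.phi.a (M.phi.s (c, false)) = _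
  rw [PhiQuad_s h]
  simp only [LM.phiS, if_neg hc]
  rfl

private theorem PhiQuad_le (h : M.IsLM) (c : M.T) (hc : M.l (M.fa⁻¹ c) ≠ M.l c - 1) :
    M.l c ≤ M.l (M.fa⁻¹ c) := by
  have h1 := h.l_fa (M.fa⁻¹ c)
  have h2 : M.fa (M.fa⁻¹ c) = c := Equiv.apply_symm_apply _ _
  rw [h2] at h1
  omega

theorem LM.IsLM.phi_ls (h : M.IsLM) (t : M.T × Bool) : M.phi.l (M.phi.s t) = M.phi.l t := by
  rw [PhiQuad_s h]
  obtain ⟨c, b⟩ := t
  cases b with
  | true =>
    by_cases hc : M.l (M.a c) = M.l c + 1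
    · simp only [LM.phiS, if_pos hc]
      show M.l (M.a c) - 1 = M.l c
      omega
    · simp only [LM.phiS, if_neg hc]
      exact h.ls c
  | false =>
    by_cases hc : M.l (M.fa⁻¹ c) = M.l c - 1
    · simp only [LM.phiS, if_pos hc]
      obtain ⟨k, _, h2, _⟩ := h.sig_spec c hc
      exact h2
    · simp only [LM.phiS, if_neg hc]
      show M.l (M.bk c) - 1 = M.l c - 1
      rw [h.l_bk c (PhiQuad_le h c hc)]

theorem LM.mem_phi_up (M : LM) (t : M.T × Bool) : t ∈ M.phi.up ↔ t.2 = true := by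
  refine (LM.mem_up (M := M.phi) (t := t)).trans ?_
  obtain ⟨c, b⟩ := t
  cases b with
  | true =>
    show M.l c - 1 = M.l c - 1 ↔ _
    simp
  | false =>
    show M.l c = M.l c - 1 - 1 ↔ _
    constructor
    · intro h; omega
    · intro h; cases h

private theorem PhiQuad_cyc {α : Type*} (p : Perm α) {t0 t1 t2 t3 : α} (h0 : p t0 = t1)
    (h1 : p t1 = t2) (h2 : p t2 = t3) (h3 : p t3 = t0) (n1 : t0 ≠ t2) (n2 : t1 ≠ t3) (t : α)
    (ht : t = t0 ∨ t = t1 ∨ t = t2 ∨ t = t3) : p (p (p (p t))) = t ∧ p (p t) ≠ t := by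
  rcases ht with rfl | rfl | rfl | rfl
  · exact ⟨by rw [h0, h1, h2, h3], by rw [h0, h1]; exact n1.symm⟩
  · exact ⟨by rw [h1, h2, h3, h0], by rw [h1, h2]; exact n2.symm⟩
  · exact ⟨by rw [h2, h3, h0, h1], by rw [h2, h3]; exact n1⟩
  · exact ⟨by rw [h3, h0, h1, h2], by rw [h3, h0]; exact n2⟩

private theorem PhiQuad_fainv (h : M.IsLM) (b : M.T) : M.fa⁻¹ (M.s b) = M.a b := by
  rw [Perm.inv_eq_iff_eq]
  show M.s b = M.s (M.a (M.a b))
  rw [h.inv]

/-- case A -/
private theorem PhiQuad_A (h : M.IsLM) (c : M.T) (hc : M.l (M.a c) = M.l c + 1) (t : M.T × Bool)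
    (ht : t = (c, true) ∨ t = (M.a c, true) ∨ t = (M.s (M.a c), false) ∨
      t = (M.sig (M.s (M.a c)), false)) :
    M.phi.ph (M.phi.ph (M.phi.ph (M.phi.ph t))) = t ∧ M.phi.ph (M.phi.ph t) ≠ t := by
  have hls := h.ls (M.a c)
  have hfi : M.fa⁻¹ (M.s (M.a c)) = c := by rw [PhiQuad_fainv h, h.inv]
  have hsg : M.l (M.fa⁻¹ (M.s (M.a c))) = M.l (M.s (M.a c)) - 1 := by
    rw [hfi, hls]; omega
  obtain ⟨k, hk1, hk2, hk3⟩ := h.sig_spec _ hsg
  have hbs := h.l_before_sig _ hsg
  have hfc : M.fa c = M.s (M.a c) := rfl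
  refine PhiQuad_cyc M.phi.ph (h.ph_up c hc) (h.ph_not_up (M.a c) ?_)
    (h.ph_sig (M.s (M.a c)) hsg) ?_ ?_ ?_ t ht
  · rw [h.inv]; omega
  · rw [h.ph_bk _ (by omega)]
    congr 1
    refine h.bk_eq c _ (k + 1) ?_ ?_ ?_
    · rw [pow_succ, Perm.mul_apply, hfc]
      exact hk1.symm
    · rw [hk2, hls]; omega
    · intro j hj0 hj1
      obtain ⟨i, rfl⟩ : ∃ i, j = i + 1 := ⟨j - 1, by omega⟩
      rw [pow_succ, Perm.mul_apply, hfc]
      have := hk3 i (by omega)
      omega
  · intro he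
    have := congrArg Prod.snd he
    simp at this
  · intro he
    have := congrArg Prod.snd he
    simp at this

/-- case B -/
private theorem PhiQuad_B (h : M.IsLM) (c : M.T) (hc : M.l (M.a c) = M.l c) (t : M.T × Bool)
    (ht : t = (c, true) ∨ t = (M.s c, false) ∨ t = (M.a c, true) ∨
      t = (M.s (M.a c), false)) :
    M.phi.ph (M.phi.ph (M.phi.ph (M.phi.ph t))) = t ∧ M.phi.ph (M.phi.ph t) ≠ t := by
  have key : ∀ x : M.T, M.l (M.a x) = M.l x → M.phi.ph (M.s x, false) = (M.a x, true) := by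
    intro x hx
    have h1 := PhiQuad_fainv h x
    have h2 := h.ls x
    rw [h.ph_bk _ (by rw [h1, h2]; omega)]
    congr 1
    refine h.bk_eq (M.a x) _ 0 ?_ ?_ ?_
    · rw [zero_add, pow_one]
      show M.s (M.a (M.a x)) = M.s x
      rw [h.inv]
    · omega
    · intro j h1 h2; omega
  have hb : M.l (M.a (M.a c)) = M.l (M.a c) := by rw [h.inv]; exact hc.symm
  refine PhiQuad_cyc M.phi.ph (h.ph_not_up c (by omega)) (key c hc)
    (h.ph_not_up (M.a c) (by omega)) ?_ ?_ ?_ t ht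
  · rw [key (M.a c) hb, h.inv]
  · intro he
    exact h.fpf c (congrArg Prod.fst he).symm
  · intro he
    exact h.fpf c (M.s.injective (congrArg Prod.fst he)).symm

private theorem PhiQuad_all (h : M.IsLM) (t : M.T × Bool) :
    M.phi.ph (M.phi.ph (M.phi.ph (M.phi.ph t))) = t ∧ M.phi.ph (M.phi.ph t) ≠ t := by
  obtain ⟨c, b⟩ := t
  cases b with
  | true =>
    have h1 := h.la c
    have h2 := h.la (M.a c)
    rw [h.inv] at h2
    rcases lt_trichotomy (M.l (M.a c)) (M.l c) with h3 | h3 | h3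
    · refine PhiQuad_A h (M.a c) (by rw [h.inv]; omega) _ (Or.inr (Or.inl ?_))
      rw [h.inv]
    · exact PhiQuad_B h c h3 _ (Or.inl rfl)
    · exact PhiQuad_A h c (by omega) _ (Or.inl rfl)
  | false =>
    set b := M.s⁻¹ c with hb
    have hsb : M.s b = c := Equiv.apply_symm_apply _ _
    have hx : M.fa⁻¹ c = M.a b := by rw [← hsb, PhiQuad_fainv h]
    have hlb : M.l c = M.l b := by rw [← hsb]; exact h.ls b
    have h1 := h.la b
    have h2 := h.la (M.a b)
    rw [h.inv] at h2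
    rcases lt_trichotomy (M.l (M.a b)) (M.l b) with h3 | h3 | h3
    · refine PhiQuad_A h (M.a b) (by rw [h.inv]; omega) _ (Or.inr (Or.inr (Or.inl ?_)))
      rw [h.inv, hsb]
    · refine PhiQuad_B h b h3 _ (Or.inr (Or.inl ?_))
      rw [hsb]
    · have hle : M.l c ≤ M.l (M.fa⁻¹ c) := by rw [hx]; omega
      have hl := h.l_bk c hle
      obtain ⟨k, hk1, hk2, hk3⟩ := h.bk_spec c
      have hk0 : k ≠ 0 := by
        rintro rfl
        rw [zero_add, pow_one] at hk1
        have h4 : M.bk c = M.fa⁻¹ c := by rw [Perm.eq_inv_iff_eq]; exact hk1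
        rw [h4, hx] at hl
        omega
      have h5 := hk3 1 (by omega) (by omega)
      rw [pow_one] at h5
      have h6 := h.l_fa (M.bk c)
      have h7 := h.l_fa' (M.bk c)
      obtain ⟨k', rfl⟩ : ∃ k', k = k' + 1 := ⟨k - 1, by omega⟩
      have h8 : M.sig (M.fa (M.bk c)) = c := by
        rw [h.sig_eq (M.fa (M.bk c)) k']
        · rw [← Perm.mul_apply, ← pow_succ]; exact hk1
        · rw [← Perm.mul_apply, ← pow_succ, hk1]; omega
        · intro j hj
          rw [← Perm.mul_apply, ← pow_succ]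
          have := hk3 (j + 1) (by omega) (by omega)
          omega
      refine PhiQuad_A h (M.bk c) (by omega) _ (Or.inr (Or.inr (Or.inr ?_)))
      show (c, false) = (M.sig (M.fa (M.bk c)), false)
      rw [h8]

theorem LM.IsLM.phi_isLQ (h : M.IsLM) (hc : Conn M.phi.a M.phi.s) : M.phi.IsLQ where
  inv := by
    rintro ⟨c, b⟩
    show (c, !!b) = (c, b)
    rw [Bool.not_not]
  fpf := by
    rintro ⟨c, b⟩ he
    have := congrArg Prod.snd he
    change (!b) = b at this
    cases b <;> cases this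
  conn := hc
  ls := h.phi_ls
  la := by
    rintro ⟨c, b⟩
    cases b with
    | true => exact Or.inr rfl
    | false =>
      left
      show M.l c = M.l c - 1 + 1
      omega
  four := fun t => (PhiQuad_all h t).1
  two := fun t => (PhiQuad_all h t).2

end Dia
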