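import Pool.Agent.Dia.Face

/-!
# Module PsiConn: `psi M` is connected

Let `A` be a set of darts of `psi M` (elements of `M.up`) closed under the two permutations
`ret ph up` (mate) and `ret s up`.  Write `u ~ v` (for `u, v ∈ up`) if `u ∈ A ↔ v ∈ A` for every such
closed `A` (closed under a permutation of a finite set implies closed under its inverse).  Elements of
`up` in the same `s`-cycle are `~` (`PGr.sameCycle_ret`), `c ~ mate c`.

Prove by induction on `(max label) - n` the two statements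
* `F n`: if `t ∈ up`, `l t = n`, and `z ∈ up` is in the `s`-cycle of `a t`, then `t ~ z`.
* `E n`: if `l x = n - 1`, `a x ∈ up`, `a (s x) ∈ up` (both with label `n`), then `a x ~ a (s x)`.

`E n` from `F (n+1)`: the face of the corner `x`: `x` (label `n-1`), `ph x = a (s x)` (label `n`, in
`up`), `w = ph (ph x)`, `y = ph w` with `ph y = x`, i.e. `s y = a x`, so `l y = n` and `y` is in the
`s`-cycle of `a x`.  If `l w = n - 1` then `y ∈ up` is the mate of `a (s x)`, and `y ~ a x` (same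
`s`-cycle, both in `up`).  If `l w = n + 1` then `w ∈ up` is the mate of `a (s x)`.  Here
`y = ph w = a (s w)`, so `s w = a y`; the dart `s w` (label `n + 1`) is in `up` since `l (a (s w)) = l y = n`,
and it is in the `s`-cycle of `w`, so `w ~ s w`; by `F (n+1)` for `t = s w`, `a t = y`, `z = a x` (in `up`
and in the `s`-cycle of `y`): `s w ~ a x`.

`F n` from `E n`: in the `s`-cycle of `a t` (label `n - 1`) go backwards `a t, s⁻¹ (a t), ..` until the
first element `x` of `up` (it exists because of `z`); the elements `x_j = s^j x`, `1 ≤ j ≤ k`, with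
`x_k = a t`, are not in `up`, so `a x_j ∈ up` has label `n`, and by `E n`: `a x_1 ~ .. ~ a x_k = t`.
The corner `x ∈ up`: `ph x = a (s x) = a x_1` has label `n = l x + 1`, so it is in `up` and is the mate
of `x`.  So `t ~ a x_1 ~ x ~ z`.

Conclusion: let `A` be closed and nonempty.  Let `A'` be the set of all darts `t` of `M` such that
either some `u ∈ A` is in the `s`-cycle of `t`, or the `s`-cycle of `t` has no element of `up` and
some `x` in it has `a x ∈ A`.  `A'` is closed under `s` and under `a`: let `t ∈ A'`.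
 (1) `t ∈ up`: then `t ∈ A` (same cycle as `u`).  If the `s`-cycle of `a t` has an element `z` of `up`
 then `t ~ z` by `F`; otherwise `x = a t` shows `a t ∈ A'`.
 (2) `t ∉ up`: `a t ∈ up`.  If the `s`-cycle of `t` has an element of `up`, in `A`, then `a t ~` it by
 `F`; otherwise all elements `y` of the `s`-cycle of `t` have `a y ∈ up` and all `a y` are `~` by `E`,
 so `a t ∈ A`.
So `A'` is everything by `h.conn`, hence every `t ∈ up` is in `A`.
-/

set_option linter.unusedSectionVars false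

namespace Dia
open Equiv Finset PGr

/-- membership in a set of darts of `psi M`, as a predicate on the darts of `M` -/
def PsiConnP {M : LM} (A : Finset {t // t ∈ M.up}) (t : M.T) : Prop :=
  ∃ ht : t ∈ M.up, (⟨t, ht⟩ : {t // t ∈ M.up}) ∈ A

theorem PsiConn_one {α : Type*} [Fintype α] [DecidableEq α] (f : Perm α) (A : Finset α)
    (hA : ∀ t, t ∈ A → f t ∈ A) {x y : α} (h : f.SameCycle x y) (hx : x ∈ A) : y ∈ A := by
  obtain ⟨i, _, hi⟩ := h.exists_pow_eq'
  rw [← hi]
  clear hi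
  induction i with
  | zero => simpa using hx
  | succ i ih =>
    rw [pow_succ', Perm.mul_apply]
    exact hA _ (ih (by omega))

section
variable {M : LM} (A : Finset {t // t ∈ M.up})

theorem PsiConn_cyc (hs : ∀ t, t ∈ A → ret M.s M.up t ∈ A) {u v : M.T} (hu : u ∈ M.up)
    (hv : v ∈ M.up) (h : M.s.SameCycle u v) : PsiConnP A u ↔ PsiConnP A v := by
  have key : ∀ u v : M.T, u ∈ M.up → v ∈ M.up → M.s.SameCycle u v → PsiConnP A u → PsiConnP A v := by
    intro u v hu hv h hP
    obtain ⟨hu', hA⟩ := hP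
    refine ⟨hv, PsiConn_one (ret M.s M.up) A hs ?_ hA⟩
    rw [sameCycle_ret]
    exact h
  exact ⟨key u v hu hv h, key v u hv hu h.symm⟩

theorem PsiConn_mate (h : M.IsLQ) (ha : ∀ t, t ∈ A → ret M.ph M.up t ∈ A) (c : {t // t ∈ M.up}) :
    PsiConnP A c.1 ↔ PsiConnP A (ret M.ph M.up c).1 := by
  constructor
  · rintro ⟨_, hA⟩
    exact ⟨(ret M.ph M.up c).2, ha _ hA⟩
  · rintro ⟨_, hA⟩
    have := ha _ hA
    rw [Subtype.coe_eta, h.mate_mate c] at this
    exact ⟨c.2, this⟩

/-- `mate` of `v` if `ph v` is in `up` -/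
theorem PsiConn_mate1 (h : M.IsLQ) (ha : ∀ t, t ∈ A → ret M.ph M.up t ∈ A) {v : M.T}
    (hv : v ∈ M.up) (hp : M.ph v ∈ M.up) : PsiConnP A v ↔ PsiConnP A (M.ph v) := by
  have := PsiConn_mate A h ha ⟨v, hv⟩
  rw [ret_of_mem M.ph M.up ⟨v, hv⟩ hp] at this
  exact this

/-- `mate` of `v` if `ph v` is not in `up` and `ph (ph v)` is -/
theorem PsiConn_mate2 (h : M.IsLQ) (ha : ∀ t, t ∈ A → ret M.ph M.up t ∈ A) {v : M.T}
    (hv : v ∈ M.up) (hp1 : M.ph v ∉ M.up) (hp : M.ph (M.ph v) ∈ M.up) :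
    PsiConnP A v ↔ PsiConnP A (M.ph (M.ph v)) := by
  have := PsiConn_mate A h ha ⟨v, hv⟩
  have p2 : (M.ph ^ 2) v = M.ph (M.ph v) := rfl
  have e : ret M.ph M.up ⟨v, hv⟩ = ⟨(M.ph ^ 2) v, p2 ▸ hp⟩ := by
    apply ret_spec M.ph M.up ⟨v, hv⟩ (by norm_num)
    intro i hi hi2
    have : i = 1 := by omega
    subst this
    exact hp1
  rw [e] at this
  exact this

/-- statement `F n` -/
def PsiConnF (n : ℤ) : Prop := ∀ t ∈ M.up, M.l t = n → ∀ z ∈ M.up, M.s.SameCycle (M.a t) z →
  (PsiConnP A t ↔ PsiConnP A z)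

/-- statement `E n` -/
def PsiConnE (n : ℤ) : Prop := ∀ x, M.l x = n - 1 → M.a x ∈ M.up → M.a (M.s x) ∈ M.up →
  (PsiConnP A (M.a x) ↔ PsiConnP A (M.a (M.s x)))

theorem PsiConn_E (h : M.IsLQ) (ha : ∀ t, t ∈ A → ret M.ph M.up t ∈ A)
    (hs : ∀ t, t ∈ A → ret M.s M.up t ∈ A) (n : ℤ) (hF : PsiConnF A (n + 1)) : PsiConnE A n := by
  intro x hx hax hasx
  have lax : M.l (M.a x) = n := by
    have := LM.mem_up.1 hax
    rw [h.inv] at this
    omega
  -- the four corners
  have h4 : M.a (M.s (M.ph (M.ph (M.ph x)))) = x := h.four x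
  have sy : M.s (M.ph (M.ph (M.ph x))) = M.a x := by
    have := congrArg M.a h4
    rwa [h.inv] at this
  have ly : M.l (M.ph (M.ph (M.ph x))) = n := by
    rw [← h.ls, sy, lax]
  have hcyc : M.s.SameCycle (M.ph (M.ph (M.ph x))) (M.a x) := by
    rw [← sy]
    exact Perm.sameCycle_apply_right.2 (Perm.SameCycle.refl _ _)
  have lv : M.l (M.ph x) = n := by
    have := (h.ph_mem_up x).1 hasx
    omega
  have hv : M.ph x ∈ M.up := hasx
  show PsiConnP A (M.a x) ↔ PsiConnP A (M.ph x)
  rcases h.l_ph (M.ph x) with lw | lw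
  · -- `l w = n + 1`
    have hw : M.ph (M.ph x) ∈ M.up := (h.ph_mem_up _).2 lw
    rw [PsiConn_mate1 A h ha hv hw]
    have lsw : M.l (M.s (M.ph (M.ph x))) = n + 1 := by rw [h.ls]; omega
    have hsw : M.s (M.ph (M.ph x)) ∈ M.up := by
      rw [h.s_mem_up]
      omega
    have c1 : PsiConnP A (M.ph (M.ph x)) ↔ PsiConnP A (M.s (M.ph (M.ph x))) :=
      PsiConn_cyc A hs hw hsw (Perm.sameCycle_apply_right.2 (Perm.SameCycle.refl _ _))
    have c2 := hF (M.s (M.ph (M.ph x))) hsw lsw (M.a x) hax hcyc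
    exact (c1.trans c2).symm
  · -- `l w = n - 1`
    have hw : M.ph (M.ph x) ∉ M.up := by rw [h.ph_mem_up]; omega
    have hy : M.ph (M.ph (M.ph x)) ∈ M.up := by rw [h.ph_mem_up]; omega
    rw [PsiConn_mate2 A h ha hv hw hy]
    exact (PsiConn_cyc A hs hy hax hcyc).symm

theorem PsiConn_F_aux (h : M.IsLQ) (ha : ∀ t, t ∈ A → ret M.ph M.up t ∈ A)
    (hs : ∀ t, t ∈ A → ret M.s M.up t ∈ A) (n : ℤ) (hE : PsiConnE A n) (z : M.T) (hz : z ∈ M.up)
    (hl : M.l z = n - 1) (i : ℕ) (hi : (M.s ^ (i + 1)) z ∉ M.up) :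
    PsiConnP A (M.a ((M.s ^ (i + 1)) z)) ↔ PsiConnP A z := by
  -- the first step
  have one : ∀ y ∈ M.up, M.s y ∉ M.up → (PsiConnP A (M.a (M.s y)) ↔ PsiConnP A y) := by
    intro y hy hsy
    have hph : M.ph y ∈ M.up := (h.a_mem_up (M.s y)).2 hsy
    exact (PsiConn_mate1 A h ha hy hph).symm
  induction i with
  | zero => exact one z hz hi
  | succ i ih =>
    have e : (M.s ^ (i + 1 + 1)) z = M.s ((M.s ^ (i + 1)) z) := by
      rw [pow_succ', Perm.mul_apply]
    rw [e] at hi ⊢
    by_cases hy : (M.s ^ (i + 1)) z ∈ M.up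
    · rw [one _ hy hi]
      exact (PsiConn_cyc A hs hz hy ⟨((i + 1 : ℕ) : ℤ), by rw [zpow_natCast]⟩).symm
    · exact ((hE _ (by rw [Face_l_pow h.ls]; exact hl) ((h.a_mem_up _).2 hy)
        ((h.a_mem_up _).2 hi)).symm).trans (ih hy)

theorem PsiConn_F (h : M.IsLQ) (ha : ∀ t, t ∈ A → ret M.ph M.up t ∈ A)
    (hs : ∀ t, t ∈ A → ret M.s M.up t ∈ A) (n : ℤ) (hE : PsiConnE A n) : PsiConnF A n := by
  intro t ht hlt z hz hcyc
  have hat : M.a t ∉ M.up := by
    rw [h.a_mem_up]
    exact fun hn => hn ht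
  obtain ⟨i, hi, _, he⟩ := hcyc.symm.exists_pow_eq''
  obtain ⟨i, rfl⟩ : ∃ k, i = k + 1 := ⟨i - 1, by omega⟩
  have hlz : M.l z = n - 1 := by
    have h1 : M.l ((M.s ^ (i + 1)) z) = M.l z := Face_l_pow h.ls _ _
    rw [he, LM.mem_up.1 ht] at h1
    omega
  have := PsiConn_F_aux A h ha hs n hE z hz hlz i (by rw [he]; exact hat)
  rw [he, h.inv] at this
  exact this

theorem PsiConn_all (h : M.IsLQ) (ha : ∀ t, t ∈ A → ret M.ph M.up t ∈ A)
    (hs : ∀ t, t ∈ A → ret M.s M.up t ∈ A) (n : ℤ) : PsiConnF A n := by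
  obtain ⟨B, hB⟩ : ∃ B : ℤ, ∀ t, M.l t < B := by
    obtain ⟨B, hB⟩ := (Finset.univ.image M.l).bddAbove
    refine ⟨B + 1, fun t => ?_⟩
    have := hB (by simp : M.l t ∈ ((Finset.univ.image M.l : Finset ℤ) : Set ℤ))
    omega
  have key : ∀ k : ℕ, PsiConnF A (B - k) := by
    intro k
    induction k with
    | zero =>
      intro t ht hl
      have := hB t
      push_cast at hl
      omega
    | succ k ih =>
      have e : (B - ((k + 1 : ℕ) : ℤ)) + 1 = B - k := by push_cast; ring
      exact PsiConn_F A h ha hs _ (PsiConn_E A h ha hs _ (by rw [e]; exact ih))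
  rcases le_or_gt n B with hle | hgt
  · obtain ⟨k, hk⟩ := Int.le.dest hle
    have : n = B - k := by omega
    rw [this]; exact key k
  · intro t ht hl
    have := hB t
    omega

end

theorem LM.IsLQ.psi_conn {M : LM} (h : M.IsLQ) (hr : M.r ∈ M.up) :
    Conn (M.psi hr).a (M.psi hr).s := by
  classical
  intro A ha hs hne
  replace ha : ∀ t, t ∈ A → ret M.ph M.up t ∈ A := ha
  replace hs : ∀ t, t ∈ A → ret M.s M.up t ∈ A := hs
  change A.Nonempty at hne
  have hF : ∀ n, PsiConnF A n := PsiConn_all A h ha hs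
  have hE : ∀ n, PsiConnE A n := fun n => PsiConn_E A h ha hs n (hF _)
  set A' : Finset M.T := univ.filter fun t => (∃ u, PsiConnP A u ∧ M.s.SameCycle u t) ∨
    ((∀ y, M.s.SameCycle t y → y ∉ M.up) ∧ ∃ x, M.s.SameCycle t x ∧ PsiConnP A (M.a x)) with hA'
  have mem : ∀ t, t ∈ A' ↔ (∃ u, PsiConnP A u ∧ M.s.SameCycle u t) ∨
    ((∀ y, M.s.SameCycle t y → y ∉ M.up) ∧ ∃ x, M.s.SameCycle t x ∧ PsiConnP A (M.a x)) := by
    intro t
    rw [hA', mem_filter]
    exact ⟨fun hh => hh.2, fun hh => ⟨mem_univ _, hh⟩⟩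
  have hup : ∀ t, t ∈ A' → t ∈ M.up → PsiConnP A t := by
    intro t ht htu
    rcases (mem t).1 ht with ⟨u, hu, hut⟩ | ⟨hy, _⟩
    · exact (PsiConn_cyc A hs hu.1 htu hut).1 hu
    · exact absurd htu (hy t (Perm.SameCycle.refl _ _))
  have hall : A' = univ := by
    apply h.conn A'
    · intro t ht
      by_cases htu : t ∈ M.up
      · have hP := hup t ht htu
        by_cases hz : ∃ z ∈ M.up, M.s.SameCycle (M.a t) z
        · obtain ⟨z, hz, hc⟩ := hz
          rw [mem]
          left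
          exact ⟨z, (hF _ t htu rfl z hz hc).1 hP, hc.symm⟩
        · rw [mem]
          right
          refine ⟨fun y hy hyu => hz ⟨y, hyu, hy⟩, M.a t, Perm.SameCycle.refl _ _, ?_⟩
          rw [h.inv]
          exact hP
      · have hau : M.a t ∈ M.up := (h.a_mem_up t).2 htu
        suffices hP : PsiConnP A (M.a t) by
          rw [mem]
          left
          exact ⟨M.a t, hP, Perm.SameCycle.refl _ _⟩
        rcases (mem t).1 ht with ⟨u, hu, hut⟩ | ⟨hy, x, hx, hxP⟩
        · refine (hF _ (M.a t) hau rfl u hu.1 ?_).2 hu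
          rw [h.inv]
          exact hut.symm
        · obtain ⟨i, _, _, hi⟩ := hx.symm.exists_pow_eq''
          have key : ∀ j : ℕ, PsiConnP A (M.a ((M.s ^ j) x)) := by
            intro j
            induction j with
            | zero => exact hxP
            | succ j ih =>
              rw [pow_succ', Perm.mul_apply]
              have c1 : (M.s ^ j) x ∉ M.up := by
                apply hy
                exact hx.trans ⟨(j : ℤ), by rw [zpow_natCast]⟩
              have c2 : M.s ((M.s ^ j) x) ∉ M.up := by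
                apply hy
                refine hx.trans ⟨((j + 1 : ℕ) : ℤ), ?_⟩
                rw [zpow_natCast, pow_succ', Perm.mul_apply]
              exact (hE (M.l ((M.s ^ j) x) + 1) _ (by ring) ((h.a_mem_up _).2 c1)
                ((h.a_mem_up _).2 c2)).1 ih
          rw [← hi]
          exact key i
    · intro t ht
      rw [mem] at ht ⊢
      have hst : M.s.SameCycle t (M.s t) :=
        Perm.sameCycle_apply_right.2 (Perm.SameCycle.refl _ _)
      rcases ht with ⟨u, hu, hut⟩ | ⟨hy, x, hx, hxP⟩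
      · exact Or.inl ⟨u, hu, hut.trans hst⟩
      · exact Or.inr ⟨fun y hy' => hy y (hst.trans hy'), x, hst.symm.trans hx, hxP⟩
    · obtain ⟨u, hu⟩ := hne
      refine ⟨u.1, ?_⟩
      rw [mem]
      left
      exact ⟨u.1, ⟨u.2, hu⟩, Perm.SameCycle.refl _ _⟩
  apply eq_univ_of_forall
  intro t
  obtain ⟨_, ht⟩ := hup t.1 (by rw [hall]; exact mem_univ _) t.2
  exact ht

end Dia
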