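import Pool.Agent.Dia.PhiQuad
import Pool.Agent.PGr.RetLib

/-!
# Module PsiPhi: `psi (phi M) = M`, and `phi M` is connected

`up` of `phi M` is the set of the darts `(c,true)` (`mem_phi_up`).

`phi_ret_s`: the first return of `(c,true)` to `up` under `phi.s` is `(s c, true)`.  If
`l (a c) ≠ l c + 1` it is the first step.  Otherwise the first step is `(a c,false)`; let `y_0 = a c`,
`y_{i+1} = bk y_i` as long as `l (fa⁻¹ y_i) ≥ l y_i`; all `l y_i = l (a c) = l c + 1` and, by induction,
`s c = fa (a c)` is the first element after `y_i` with label `l y_i - 1 = l c` (elements between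
`y_{i+1}` and `y_i` have higher labels, those between `y_0` and `s c`: none; `s c` has label `l c`).
So when the chain stops with `l (fa⁻¹ y_i) = l y_i - 1` (it must stop: `phi.s` is a permutation and
`(c,true)` is on its cycle, or: the fa-cycle contains the element `s c` of smaller label) the next step
is `(sig y_i, true) = (s c, true)`.
Suggestion for the induction: show by strong induction on `n`: if `l (fa^n y) < l y`, `n` minimal (all
`j < n`: `l y ≤ l (fa^j y)`), then the first element of `up` reached from `(y,false)` is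
`(fa^n y, true)` - the induction is on the number of elements of the fa-cycle behind `y`; alternatively
argue with the inverse of `phi.s`: the cycle of `phi.s` through `(s c,true)` backwards.

`phi_ret_ph`: the first return of `(c,true)` under `phi.ph` is `(a c,true)`: read it off the faces in
`PhiQuad` (`ph_up`; or `ph_not_up` followed by `ph_bk` (case `l (a c) = l c`), or by `ph_sig`, `ph_bk` (case
`l (a c) = l c - 1`)).

`psi_phi`: the isomorphism is `⟨(c,true), _⟩ ↦ c`.

`phi_conn`: let `A` be closed under `phi.a`, `phi.s`, nonempty.  It is closed under `phi.ph`, hence under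
both first returns; `B = {c | (c,true) ∈ A}` is nonempty (use `phi.a`), closed under `M.s`, `M.a`: so
everything; then `(c,false) = phi.a (c,true) ∈ A`.
-/

set_option linter.unusedSectionVars false

namespace Dia
open Equiv Finset PGr

variable {M : LM}

theorem PsiPhi_fa (h : M.IsLM) (c : M.T) : M.fa (M.a c) = M.s c := by
  show M.s (M.a (M.a c)) = M.s c
  rw [h.inv]

theorem PsiPhi_fa_inv (h : M.IsLM) (c : M.T) : M.fa⁻¹ (M.s c) = M.a c := by
  rw [Perm.inv_eq_iff_eq, PsiPhi_fa h]

theorem PsiPhi_pow (c : M.T) (i j : ℕ) :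
    (M.fa ^ (i + j)) c = (M.fa ^ i) ((M.fa ^ j) c) := by
  rw [pow_add, Perm.mul_apply]

/-- from `(y, false)` one arrives at `(z, true)`, `z` the first element after `y` with smaller label -/
theorem PsiPhi_chain (h : M.IsLM) (N : ℕ) : ∀ (y : M.T) (n : ℕ), orderOf M.fa - n ≤ N → 0 < n →
    M.l ((M.fa ^ n) y) = M.l y - 1 → (∀ j < n, M.l y ≤ M.l ((M.fa ^ j) y)) →
    ∃ m : ℕ, (M.phi.s ^ (m + 1)) (y, false) = ((M.fa ^ n) y, true) ∧
      ∀ j ≤ m, ((M.phi.s ^ j) (y, false)).2 = false := by
  have hb := h.phiS_bij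
  have hord : ∀ (y : M.T) (n : ℕ), M.l ((M.fa ^ n) y) = M.l y - 1 →
      (∀ j < n, M.l y ≤ M.l ((M.fa ^ j) y)) → n ≤ orderOf M.fa := by
    intro y n h1 h2
    by_contra hlt
    rw [not_le] at hlt
    have hpos := orderOf_pos M.fa
    have h3 := h2 (n - orderOf M.fa) (by omega)
    have h4 : (M.fa ^ n) y = (M.fa ^ (n - orderOf M.fa)) y := by
      have h5 : n = (n - orderOf M.fa) + orderOf M.fa := by omega
      conv_lhs => rw [h5]
      rw [PsiPhi_pow, pow_orderOf_eq_one]
      rfl
    rw [← h4, h1] at h3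
    omega
  induction N using Nat.strong_induction_on with
  | _ N ih =>
    intro y n hN hn h1 h2
    have hs : M.phi.s (y, false) = if M.l (M.fa⁻¹ y) = M.l y - 1 then (M.sig y, true)
        else (M.bk y, false) := M.phi_s hb (y, false)
    by_cases hc : M.l (M.fa⁻¹ y) = M.l y - 1
    · rw [if_pos hc] at hs
      refine ⟨0, ?_, ?_⟩
      · obtain ⟨k, rfl⟩ : ∃ k, n = k + 1 := ⟨n - 1, by omega⟩
        rw [h.sig_eq y k h1 (fun j hj => h2 j (by omega))] at hs
        rw [zero_add, pow_one]
        exact hs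
      · intro j hj
        obtain rfl : j = 0 := by omega
        rfl
    · rw [if_neg hc] at hs
      have hle : M.l y ≤ M.l (M.fa⁻¹ y) := by
        have h3 := h.l_fa (M.fa⁻¹ y)
        have h4 : M.fa (M.fa⁻¹ y) = y := M.fa.apply_symm_apply y
        rw [h4] at h3
        omega
      have hbk := h.l_bk y hle
      obtain ⟨k, hk1, hk2, hk3⟩ := h.bk_spec y
      have e1 : ∀ j, (M.fa ^ (j + (k + 1))) (M.bk y) = (M.fa ^ j) y := by
        intro j
        rw [PsiPhi_pow, hk1]
      have g1 : M.l ((M.fa ^ (n + (k + 1))) (M.bk y)) = M.l (M.bk y) - 1 := by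
        rw [e1, h1, hbk]
      have g2 : ∀ j < n + (k + 1), M.l (M.bk y) ≤ M.l ((M.fa ^ j) (M.bk y)) := by
        intro j hj
        rcases Nat.eq_zero_or_pos j with rfl | hj0
        · exact le_refl _
        · rcases Nat.lt_or_ge j (k + 1) with hjk | hjk
          · rw [hbk]
            exact (hk3 j hj0 hjk).le
          · obtain ⟨i, rfl⟩ := Nat.exists_eq_add_of_le hjk
            rw [add_comm (k + 1) i, e1, hbk]
            exact h2 i (by omega)
      have hn1 := hord _ _ h1 h2
      have hn2 := hord _ _ g1 g2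
      obtain ⟨m, hm1, hm2⟩ := ih (orderOf M.fa - (n + (k + 1))) (by omega) (M.bk y)
        (n + (k + 1)) le_rfl (by omega) g1 g2
      refine ⟨m + 1, ?_, ?_⟩
      · rw [pow_succ, Perm.mul_apply, hs, hm1, e1]
      · intro j hj
        rcases j with _ | j
        · rfl
        · rw [pow_succ, Perm.mul_apply, hs]
          exact hm2 j (by omega)

theorem PsiPhi_not_up {t : M.T × Bool} (h : t.2 = false) : t ∉ M.phi.up := by
  rw [M.mem_phi_up, h]
  exact Bool.false_ne_true

theorem LM.IsLM.phi_ret_s (h : M.IsLM) (c : M.T) (hc : (c, true) ∈ M.phi.up) :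
    (ret M.phi.s M.phi.up ⟨(c, true), hc⟩).1 = (M.s c, true) := by
  have hb := h.phiS_bij
  have hs : M.phi.s (c, true) = if M.l (M.a c) = M.l c + 1 then (M.a c, false)
      else (M.s c, true) := M.phi_s hb (c, true)
  by_cases hl : M.l (M.a c) = M.l c + 1
  · rw [if_pos hl] at hs
    obtain ⟨m, hm1, hm2⟩ := PsiPhi_chain h (orderOf M.fa - 1) (M.a c) 1 le_rfl one_pos
      (by rw [pow_one, PsiPhi_fa h, h.ls, hl]; ring) (fun j hj => by
        obtain rfl : j = 0 := by omega
        exact le_refl _)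
    rw [pow_one, PsiPhi_fa h] at hm1
    have e : (M.phi.s ^ (m + 2)) (c, true) = (M.s c, true) := by
      rw [pow_succ, Perm.mul_apply, hs, hm1]
    have hmem : (M.phi.s ^ (m + 2)) (c, true) ∈ M.phi.up := by
      rw [e]
      exact (M.mem_phi_up _).2 rfl
    rw [ret_spec M.phi.s M.phi.up ⟨(c, true), hc⟩ (k := m + 2) (by omega) hmem]
    · exact e
    · intro i hi hlt
      obtain ⟨j, rfl⟩ : ∃ j, i = j + 1 := ⟨i - 1, by omega⟩
      refine PsiPhi_not_up ?_
      rw [pow_succ, Perm.mul_apply]
      show ((M.phi.s ^ j) (M.phi.s (c, true))).2 = false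
      rw [hs]
      exact hm2 j (by omega)
  · rw [if_neg hl] at hs
    have hmem : M.phi.s (c, true) ∈ M.phi.up := by
      rw [hs]
      exact (M.mem_phi_up _).2 rfl
    rw [ret_of_mem M.phi.s M.phi.up ⟨(c, true), hc⟩ hmem]
    exact hs

theorem LM.IsLM.phi_ret_ph (h : M.IsLM) (c : M.T) (hc : (c, true) ∈ M.phi.up) :
    (ret M.phi.ph M.phi.up ⟨(c, true), hc⟩).1 = (M.a c, true) := by
  by_cases hl : M.l (M.a c) = M.l c + 1
  · have hs := h.ph_up c hl
    have hmem : M.phi.ph (c, true) ∈ M.phi.up := by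
      rw [hs]
      exact (M.mem_phi_up _).2 rfl
    rw [ret_of_mem M.phi.ph M.phi.up ⟨(c, true), hc⟩ hmem]
    exact hs
  · have hs := h.ph_not_up c hl
    have h1 : M.l (M.a c) = M.l c ∨ M.l (M.a c) = M.l c - 1 := by
      have h2 := h.la c
      have h3 := h.la (M.a c)
      rw [h.inv] at h3
      omega
    have hfi := PsiPhi_fa_inv h c
    rcases h1 with h1 | h1
    · have h2 := h.ph_bk (M.s c) (by rw [hfi, h.ls, h1]; omega)
      have h3 : M.bk (M.s c) = M.a c := by
        refine h.bk_eq (M.a c) (M.s c) 0 ?_ ?_ ?_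
        · rw [zero_add, pow_one, PsiPhi_fa h]
        · rw [h.ls, h1]
        · intro j hj1 hj2
          omega
      rw [h3] at h2
      have e : (M.phi.ph ^ 2) (c, true) = (M.a c, true) := by
        rw [pow_succ, Perm.mul_apply, hs, pow_one, h2]
      have hmem : (M.phi.ph ^ 2) (c, true) ∈ M.phi.up := by
        rw [e]
        exact (M.mem_phi_up _).2 rfl
      rw [ret_spec M.phi.ph M.phi.up ⟨(c, true), hc⟩ (k := 2) (by omega) hmem]
      · exact e
      · intro i hi hlt
        obtain rfl : i = 1 := by omega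
        refine PsiPhi_not_up ?_
        rw [pow_one]
        show (M.phi.ph (c, true)).2 = false
        rw [hs]
    · have h0 : M.l (M.fa⁻¹ (M.s c)) = M.l (M.s c) - 1 := by rw [hfi, h.ls, h1]
      have h2 := h.ph_sig (M.s c) h0
      obtain ⟨k, hk1, hk2, hk3⟩ := h.sig_spec (M.s c) h0
      have h4 := h.l_before_sig (M.s c) h0
      have h5 := h.ph_bk (M.sig (M.s c)) (by omega)
      have h3 : M.bk (M.sig (M.s c)) = M.a c := by
        refine h.bk_eq (M.a c) _ (k + 1) ?_ ?_ ?_
        · rw [PsiPhi_pow, pow_one, PsiPhi_fa h, hk1]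
        · rw [hk2, h.ls, h1]
        · intro j hj1 hj2
          obtain ⟨i, rfl⟩ : ∃ i, j = i + 1 := ⟨j - 1, by omega⟩
          rw [PsiPhi_pow, pow_one, PsiPhi_fa h, hk2]
          have := hk3 i (by omega)
          omega
      rw [h3] at h5
      have e : (M.phi.ph ^ 3) (c, true) = (M.a c, true) := by
        rw [pow_succ, Perm.mul_apply, hs, pow_succ, Perm.mul_apply, h2, pow_one, h5]
      have hmem : (M.phi.ph ^ 3) (c, true) ∈ M.phi.up := by
        rw [e]
        exact (M.mem_phi_up _).2 rfl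
      rw [ret_spec M.phi.ph M.phi.up ⟨(c, true), hc⟩ (k := 3) (by omega) hmem]
      · exact e
      · intro i hi hlt
        refine PsiPhi_not_up ?_
        obtain rfl | rfl : i = 1 ∨ i = 2 := by omega
        · rw [pow_one]
          show (M.phi.ph (c, true)).2 = false
          rw [hs]
        · rw [pow_succ, Perm.mul_apply, pow_one]
          show (M.phi.ph (M.phi.ph (c, true))).2 = false
          rw [hs, h2]

theorem PsiPhi_bij (M : LM) :
    Function.Bijective (fun t : {t // t ∈ M.phi.up} => (t.1 : M.T × Bool).1) := by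
  constructor
  · rintro ⟨⟨c, b⟩, hc⟩ ⟨⟨c', b'⟩, hc'⟩ he
    have h1 : b = true := (M.mem_phi_up _).1 hc
    have h2 : b' = true := (M.mem_phi_up _).1 hc'
    have h3 : c = c' := he
    subst h1 h2 h3
    rfl
  · intro c
    exact ⟨⟨(c, true), (M.mem_phi_up _).2 rfl⟩, rfl⟩

theorem LM.IsLM.psi_phi (h : M.IsLM) (hr : M.phi.r ∈ M.phi.up) : LIso (M.phi.psi hr) M := by
  refine ⟨Equiv.ofBijective _ (PsiPhi_bij M), ?_, ?_, ?_, rfl⟩
  · rintro ⟨⟨c, b⟩, hc⟩
    have h1 : b = true := (M.mem_phi_up _).1 hc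
    subst h1
    exact congrArg Prod.fst (h.phi_ret_ph c hc)
  · rintro ⟨⟨c, b⟩, hc⟩
    have h1 : b = true := (M.mem_phi_up _).1 hc
    subst h1
    exact congrArg Prod.fst (h.phi_ret_s c hc)
  · rintro ⟨⟨c, b⟩, hc⟩
    have h1 : b = true := (M.mem_phi_up _).1 hc
    subst h1
    rfl

theorem LM.IsLM.phi_conn (h : M.IsLM) : Conn M.phi.a M.phi.s := by
  intro A ha hs hne
  have hph : ∀ t, t ∈ A → M.phi.ph t ∈ A := fun t ht => ha _ (hs t ht)
  have hpow : ∀ (p : Perm M.phi.T), (∀ t, t ∈ A → p t ∈ A) → ∀ (n : ℕ) t, t ∈ A → (p ^ n) t ∈ A := by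
    intro p hp n
    induction n with
    | zero => exact fun t ht => ht
    | succ n ih =>
      intro t ht
      rw [pow_succ, Perm.mul_apply]
      exact ih _ (hp t ht)
  have hup : ∀ c : M.T, ((c, true) : M.T × Bool) ∈ M.phi.up := fun c => (M.mem_phi_up _).2 rfl
  have hB := h.conn (univ.filter fun c : M.T => ((c, true) : M.T × Bool) ∈ A) ?_ ?_ ?_
  · ext ⟨c, b⟩
    have hc : c ∈ (univ : Finset M.T) := mem_univ _
    rw [← hB, mem_filter] at hc
    constructor
    · intro _
      exact mem_univ _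
    · intro _
      cases b
      · exact ha _ hc.2
      · exact hc.2
  · intro c hc
    rw [mem_filter] at hc ⊢
    refine ⟨mem_univ _, ?_⟩
    rw [← h.phi_ret_ph c (hup c), ret_val]
    exact hpow _ hph _ _ hc.2
  · intro c hc
    rw [mem_filter] at hc ⊢
    refine ⟨mem_univ _, ?_⟩
    rw [← h.phi_ret_s c (hup c), ret_val]
    exact hpow _ hs _ _ hc.2
  · obtain ⟨⟨c, b⟩, hc⟩ := hne
    refine ⟨c, ?_⟩
    rw [mem_filter]
    refine ⟨mem_univ _, ?_⟩
    cases b
    · exact ha _ hc
    · exact hc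

end Dia
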