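import Pool.Agent.Dia.EulerM
import Pool.Agent.Dia.PsiConn
import Pool.Agent.Dia.CountUp
import Pool.Agent.Dia.BotInv

/-!
# Module PsiPl: `psi` of a planar labelled quadrangulation is planar; faces = local minima

Let `card M.T = 4 f`, so `nV M.ph = f` (`nV_ph`), `nV M.s = f + 2` (`Eu`), `card (psi).T = 2 f`
(`card_up`, `Fintype.card_coe`), `nV (psi).s = f + 2 - nmin` (`nV_psi`).  Euler's inequality for `psi`
(`euler_le`): `(f + 2 - nmin) + nV (psi).ph ≤ f + 2`, so `nV (psi).ph ≤ nmin`; `nmin_le` is the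
opposite inequality.  So equality, and Euler's formula holds.
-/

set_option linter.unusedSectionVars false

namespace Dia
open Equiv Finset PGr

theorem LM.IsLQ.psi_eu {M : LM} (h : M.IsLQ) (he : M.toRM.Eu) (hr : M.r ∈ M.up) :
    (M.psi hr).toRM.Eu ∧ nV (M.psi hr).ph = M.nmin := by
  have h1 := h.nV_ph
  have h2 := h.nV_psi hr
  have h3 := h.card_up
  have h4 := LM.IsLQ.nmin_le M h hr
  have hmap : (M.psi hr).toRM.IsMap := by
    exact (h.psi_isLM hr (h.psi_conn hr)).toIsMap
  have h5 := euler_le (M.psi hr).toRM hmap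
  have h6 : Fintype.card (M.psi hr).T = M.up.card := Fintype.card_coe _
  unfold RM.Eu at he ⊢
  constructor <;> omega

end Dia
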