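import Pool.Agent.Dia.DistM
import Pool.Agent.Dia.InvM

/-!
# Module PtSum: sum over pointed maps = sum over maps and vertices

The map `Φ : (Σ m : RMC, m.out.1.V) → PtC`, `(m, v) ↦ ⟦m.out.1.pt v⟧` is a bijection.

Injective: let `e : T ≃ T'` be an isomorphism of labelled rooted maps `m.out.pt v → m'.out.pt v'`.  Then
`m.out` and `m'.out` are isomorphic, `m = m'` (`Quotient.out_equiv_out`-type argument), and `e` is an
automorphism of the rooted map `m.out` fixing `r`; the set `{t | e t = t}` is closed under `a`, `s` and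
contains `r`, so `e = id` by `conn` (`aut_eq`).  So the labels agree, `dist v u = dist v' u` up to a constant `k`:
`dist v (vx r) - dist v u = dist v' (vx r) - dist v' u` for all vertices `u` (every vertex is the
vertex of some dart); `u = v`: `dist v (vx r) ≤ dist v' (vx r)`... so `k` with `dist v' u = dist v u + k`
for all `u`, `u = v`: `k ≥ 0`, `u = v'`: `0 = dist v v' + k`, so `k = 0` and `dist v v' = 0`, `v = v'`
(connected graph).

Surjective: `M` `IsPt`, `v` from `exists_pt`; `m = ⟦M.toRM⟧`; `M.toRM` and `m.out.1` are isomorphic by some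
`e`, which carries `v` to a vertex `v'` of `m.out` and distances to distances; so `M ≅ m.out.pt v'`.

`rng` and the numbers of darts and vertices are invariant under isomorphism (`InvM`), `pt_rng`.
The sum: `Equiv.tsum_eq`, `ENNReal.tsum_sigma'`, `tsum_fintype`.
-/

set_option linter.unusedSectionVars false

namespace Dia
open Equiv Finset PGr
open scoped ENNReal

/-- a rooted map has no nontrivial automorphism -/
theorem RM.IsMap.aut_eq {M : RM} (h : M.IsMap) (e : M.T ≃ M.T) (ha : ∀ t, e (M.a t) = M.a (e t))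
    (hs : ∀ t, e (M.s t) = M.s (e t)) (hr : e M.r = M.r) : e = Equiv.refl _ := by
  have hA : (univ.filter fun t => e t = t) = univ := by
    refine h.conn _ ?_ ?_ ⟨M.r, by simpa using hr⟩
    · intro t ht
      simp only [mem_filter, mem_univ, true_and] at ht ⊢
      rw [ha, ht]
    · intro t ht
      simp only [mem_filter, mem_univ, true_and] at ht ⊢
      rw [hs, ht]
  ext t
  have h1 : t ∈ univ.filter fun t => e t = t := by rw [hA]; exact mem_univ _
  simpa using h1

theorem PtSum_vx {M N : RM} (e : M.T ≃ N.T) (hs : ∀ t, e (M.s t) = N.s (e t)) {t t' : M.T} :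
    N.vx (e t) = N.vx (e t') ↔ M.vx t = M.vx t' := by
  have h1 : ∀ (n : ℕ) (x : M.T), e ((M.s ^ n) x) = (N.s ^ n) (e x) := by
    intro n x
    induction n with
    | zero => rfl
    | succ n ih => rw [pow_succ', pow_succ', Perm.mul_apply, Perm.mul_apply, hs, ih]
  constructor
  · intro h
    have h2 : N.s.SameCycle (e t) (e t') := Quotient.exact h
    apply Quotient.sound
    show M.s.SameCycle t t'
    obtain ⟨i, _, hi⟩ := h2.exists_pow_eq'
    rw [← h1] at hi
    exact ⟨(i : ℤ), by rw [zpow_natCast]; exact e.injective hi⟩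
  · intro h
    have h2 : M.s.SameCycle t t' := Quotient.exact h
    apply Quotient.sound
    show N.s.SameCycle (e t) (e t')
    obtain ⟨i, _, hi⟩ := h2.exists_pow_eq'
    refine ⟨(i : ℤ), ?_⟩
    rw [zpow_natCast, ← h1, hi]

theorem PtSum_dist_le {M N : RM} (hM : M.IsMap) (e : M.T ≃ N.T)
    (ha : ∀ t, e (M.a t) = N.a (e t)) (hs : ∀ t, e (M.s t) = N.s (e t)) (t t' : M.T) :
    N.G.dist (N.vx (e t)) (N.vx (e t')) ≤ M.G.dist (M.vx t) (M.vx t') := by
  have key : ∀ (x y : M.V) (p : M.G.Walk x y) (t t' : M.T), M.vx t = x → M.vx t' = y →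
      ∃ q : N.G.Walk (N.vx (e t)) (N.vx (e t')), q.length = p.length := by
    intro x y p
    induction p with
    | nil =>
      intro t t' h1 h2
      have h3 : N.vx (e t) = N.vx (e t') := (PtSum_vx e hs).2 (h1.trans h2.symm)
      exact ⟨SimpleGraph.Walk.nil.copy rfl h3, by simp⟩
    | cons hadj p ih =>
      rename_i x w y
      intro t t' h1 h2
      rw [RM.G, SimpleGraph.fromRel_adj] at hadj
      have h5 : ∃ c, M.vx c = x ∧ M.vx (M.a c) = w := by
        rcases hadj.2 with ⟨c, h3, h4⟩ | ⟨c, h3, h4⟩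
        · exact ⟨c, h3, h4⟩
        · exact ⟨M.a c, h4, by rw [hM.inv]; exact h3⟩
      obtain ⟨c, h3, h4⟩ := h5
      obtain ⟨q, hq⟩ := ih (M.a c) t' h4 h2
      have h6 : N.G.Adj (N.vx (e t)) (N.vx (e (M.a c))) := by
        rw [RM.G, SimpleGraph.fromRel_adj]
        refine ⟨?_, Or.inl ⟨e c, (PtSum_vx e hs).2 (h3.trans h1.symm), by rw [ha]⟩⟩
        intro h7
        rw [PtSum_vx e hs, h1, h4] at h7
        exact hadj.1 h7
      exact ⟨SimpleGraph.Walk.cons h6 q, by simp [hq]⟩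
  obtain ⟨p, hp⟩ := hM.G_conn.exists_walk_length_eq_dist (M.vx t) (M.vx t')
  obtain ⟨q, hq⟩ := key _ _ p t t' rfl rfl
  rw [← hp, ← hq]
  exact SimpleGraph.dist_le q

theorem PtSum_dist {M N : RM} (hM : M.IsMap) (hN : N.IsMap) (e : M.T ≃ N.T)
    (ha : ∀ t, e (M.a t) = N.a (e t)) (hs : ∀ t, e (M.s t) = N.s (e t)) (t t' : M.T) :
    N.G.dist (N.vx (e t)) (N.vx (e t')) = M.G.dist (M.vx t) (M.vx t') := by
  refine le_antisymm (PtSum_dist_le hM e ha hs t t') ?_
  have h1 := PtSum_dist_le hN e.symm (fun t => by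
    rw [Equiv.symm_apply_eq, ha, Equiv.apply_symm_apply]) (fun t => by
    rw [Equiv.symm_apply_eq, hs, Equiv.apply_symm_apply]) (e t) (e t')
  rwa [Equiv.symm_apply_apply, Equiv.symm_apply_apply] at h1

/-- the map from pairs (map, vertex) to pointed maps -/
noncomputable def PtSum_F (p : Σ m : RMC, m.out.1.V) : PtC :=
  Quotient.mk ptSetoid ⟨p.1.out.1.pt p.2, p.1.out.2.pt_isPt p.2⟩

theorem PtSum_inj : Function.Injective PtSum_F := by
  rintro ⟨m, v⟩ ⟨m', v'⟩ h
  have h1 : LIso (m.out.1.pt v) (m'.out.1.pt v') := Quotient.exact h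
  have h2 : m = m' := by
    have h3 : RMIso m.out.1 m'.out.1 := h1.toRM
    rw [← Quotient.out_eq m, ← Quotient.out_eq m']
    exact Quotient.sound h3
  subst h2
  obtain ⟨e, ha, hs, hl, hr⟩ := h1
  have hM : m.out.1.Ok := m.out.2
  have he : e = Equiv.refl m.out.1.T := hM.toIsMap.aut_eq e ha hs hr
  have h4 : ∀ u : m.out.1.V, (m.out.1.G.dist v' (m.out.1.vx m.out.1.r) : ℤ) -
      (m.out.1.G.dist v' u : ℤ) =
      (m.out.1.G.dist v (m.out.1.vx m.out.1.r) : ℤ) - (m.out.1.G.dist v u : ℤ) := by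
    intro u
    obtain ⟨t, rfl⟩ := Quotient.exists_rep u
    have h5 := hl t
    rw [he] at h5
    exact h5
  have h5 := h4 v
  have h6 := h4 v'
  rw [SimpleGraph.dist_self] at h5 h6
  have h8 : m.out.1.G.dist v' v = m.out.1.G.dist v v' := SimpleGraph.dist_comm
  have h7 : m.out.1.G.dist v v' = 0 := by omega
  have h9 : v = v' := (hM.toIsMap.G_conn.dist_eq_zero_iff).1 h7
  rw [h9]

theorem PtSum_surj : Function.Surjective PtSum_F := by
  intro c
  obtain ⟨v, hv⟩ := c.out.2.exists_pt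
  have hok : c.out.1.toRM.Ok := c.out.2.ok
  let m : RMC := Quotient.mk rmSetoid ⟨c.out.1.toRM, hok⟩
  have h1 : RMIso c.out.1.toRM m.out.1 :=
    (show RMIso m.out.1 c.out.1.toRM from Quotient.exact (Quotient.out_eq m)).symm
  obtain ⟨e, ha, hs, hr⟩ := h1
  obtain ⟨t0, ht0⟩ := Quotient.exists_rep v
  refine ⟨⟨m, m.out.1.vx (e t0)⟩, ?_⟩
  refine Eq.trans ?_ (Quotient.out_eq c)
  apply Quotient.sound
  show LIso (m.out.1.pt (m.out.1.vx (e t0))) c.out.1
  refine LIso.symm ⟨e, ha, hs, fun t => ?_, hr⟩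
  rw [hv t]
  have hv0 : v = c.out.1.toRM.vx t0 := ht0.symm
  show (m.out.1.G.dist (m.out.1.vx (e t0)) (m.out.1.vx m.out.1.r) : ℤ) -
      (m.out.1.G.dist (m.out.1.vx (e t0)) (m.out.1.vx (e t)) : ℤ) =
    (c.out.1.toRM.G.dist v (c.out.1.toRM.vx c.out.1.r) : ℤ) -
      (c.out.1.toRM.G.dist v (c.out.1.toRM.vx t) : ℤ)
  rw [← hr, hv0, PtSum_dist hok.toIsMap m.out.2.toIsMap e ha hs,
    PtSum_dist hok.toIsMap m.out.2.toIsMap e ha hs]

theorem pt_sum (g : ℕ → ℕ → ℕ → ℝ≥0∞) :
    ∑' c : PtC, g c.out.1.E (nV c.out.1.s) c.out.1.rng =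
      ∑' m : RMC, ∑ v : m.out.1.V, g m.out.1.E (nV m.out.1.s) (m.out.1.ecc v) := by
  rw [← (Equiv.ofBijective PtSum_F ⟨PtSum_inj, PtSum_surj⟩).tsum_eq]
  rw [ENNReal.tsum_sigma']
  refine tsum_congr fun m => ?_
  rw [tsum_fintype]
  refine Finset.sum_congr rfl fun v _ => ?_
  rw [Equiv.ofBijective_apply]
  have h1 : LIso (PtSum_F ⟨m, v⟩).out.1 (m.out.1.pt v) :=
    Quotient.exact (Quotient.out_eq (PtSum_F ⟨m, v⟩))
  have h2 : (PtSum_F ⟨m, v⟩).out.1.E = m.out.1.E := by
    have := h1.toRM.card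
    rw [RM.E, RM.E, this]; rfl
  have h3 : nV (PtSum_F ⟨m, v⟩).out.1.s = nV m.out.1.s := h1.toRM.nV_s
  rw [h2, h3, h1.rng, m.out.2.pt_rng]

end Dia
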