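import Pool.Agent.Dia.CountA
import Pool.Agent.Dia.DecD
import Pool.Agent.Dia.DecInv
import Pool.Agent.Dia.MDefs
import Pool.Agent.DiamP.Conv

/-!
# Counting the structures over a fixed core

`cvL` over all elements of a finite type is a product of power series; the number of families of parts over
a fixed graph `K` on `X`.
-/

set_option linter.unusedSectionVars false

namespace Dia
open Finset PGr Pool.Agent.DiamP

/-! ### products of power series -/

theorem mk_cvLs (l : List (ℕ → ℝ)) : PowerSeries.mk (cvL l) = (l.map PowerSeries.mk).prod := by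
  induction l with
  | nil => rw [cvL_nil, mk_one0, List.map_nil, List.prod_nil]
  | cons p l ih => rw [cvL_cons, mk_cv, ih, List.map_cons, List.prod_cons]

theorem mk_cvLs_univ {ι : Type} [Fintype ι] (g : ι → ℕ → ℝ) :
    PowerSeries.mk (cvL ((univ : Finset ι).toList.map g)) = ∏ i, PowerSeries.mk (g i) := by
  rw [mk_cvLs, List.map_map, Finset.prod_map_toList]
  rfl

/-- product of `v` factors `r` and `e` factors `d` -/
noncomputable def prd (r d : ℕ → ℝ) (v e : ℕ) : PowerSeries ℝ :=
  PowerSeries.mk r ^ v * PowerSeries.mk d ^ e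

theorem mk_replicate (r d : ℕ → ℝ) (v e : ℕ) :
    PowerSeries.mk (cvL (List.replicate v r ++ List.replicate e d)) = prd r d v e := by
  rw [mk_cvLs, List.map_append, List.prod_append, List.map_replicate, List.map_replicate,
    List.prod_replicate, List.prod_replicate]
  rfl

theorem cvL_replicate (r d : ℕ → ℝ) (v e k : ℕ) :
    cvL (List.replicate v r ++ List.replicate e d) k = PowerSeries.coeff k (prd r d v e) := by
  rw [← mk_replicate, PowerSeries.coeff_mk]

theorem mk_sh (r : ℕ → ℝ) : PowerSeries.mk (sh r) = PowerSeries.X * PowerSeries.mk r := by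
  ext n
  rw [PowerSeries.coeff_mk]
  rcases n with _ | n
  · simp [sh]
  · rw [PowerSeries.coeff_succ_X_mul, PowerSeries.coeff_mk]
    simp [sh]

/-- the shifts of `v` factors -/
theorem cvL_shift (r d : ℕ → ℝ) (v e k : ℕ) :
    cvL (List.replicate v (sh r) ++ List.replicate e d) k =
      if v ≤ k then PowerSeries.coeff (k - v) (prd r d v e) else 0 := by
  rw [cvL_replicate]
  unfold prd
  rw [mk_sh, mul_pow, mul_assoc, PowerSeries.coeff_X_pow_mul']

/-! ### counting families of structures with a condition on the distribution -/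

theorem count_fam {ι : Type} [Fintype ι] [DecidableEq ι] (S : ι → Type → Type)
    (hfin : ∀ i B, Finite B → Finite (S i B)) (N : ι → ℕ → ℝ) (A : Type) [Finite A]
    (P : (A → ι) → Prop)
    (h1 : ∀ f, P f → ∀ i, (Nat.card (S i {a // f a = i}) : ℝ) = N i (Nat.card {a // f a = i}))
    (h2 : ∀ f, ¬ P f → ∃ i, N i (Nat.card {a // f a = i}) = 0) :
    (Nat.card {z : Σ f : A → ι, ∀ i, S i {a // f a = i} // P z.1} : ℝ) =
      ((Nat.card A).factorial : ℝ) *
        cvL ((univ : Finset ι).toList.map fun i n => N i n / n.factorial) (Nat.card A) := by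
  classical
  have := Fintype.ofFinite A
  have hf : ∀ (f : A → ι) (i : ι), Finite (S i {a // f a = i}) := fun f i =>
    hfin i _ inferInstance
  let e : {z : Σ f : A → ι, ∀ i, S i {a // f a = i} // P z.1} ≃
      Σ f : {f : A → ι // P f}, ∀ i, S i {a // f.1 a = i} :=
    { toFun := fun z => ⟨⟨z.1.1, z.2⟩, z.1.2⟩
      invFun := fun z => ⟨⟨z.1.1, z.2⟩, z.1.2⟩
      left_inv := fun _ => rfl
      right_inv := fun _ => rfl }
  rw [Nat.card_congr e, Nat.card_sigma]
  push_cast
  rw [Nat.card_eq_fintype_card, ← fib_sum N A]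
  have h3 : ∀ f : A → ι, ¬ P f → ∏ i, N i (Nat.card {a // f a = i}) = 0 := by
    intro f hf
    obtain ⟨i, hi⟩ := h2 f hf
    exact Finset.prod_eq_zero (Finset.mem_univ i) hi
  have h4 : ∑ f : {f : A → ι // P f}, (Nat.card (∀ i, S i {a // f.1 a = i}) : ℝ) =
      ∑ f : {f : A → ι // P f}, ∏ i, N i (Nat.card {a // f.1 a = i}) := by
    refine Finset.sum_congr rfl fun f _ => ?_
    rw [Nat.card_pi]
    push_cast
    exact Finset.prod_congr rfl fun i _ => h1 f.1 f.2 i
  rw [h4]
  have h5 := Finset.sum_subtype_of_mem (s := (univ : Finset (A → ι)).filter P)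
    (p := P) (fun f => ∏ i, N i (Nat.card {a // f a = i})) (fun f hf => (mem_filter.1 hf).2)
  have h6 : Finset.subtype P ((univ : Finset (A → ι)).filter P) = univ := by
    ext f
    simp [f.2]
  rw [h6] at h5
  rw [h5, Finset.sum_filter]
  refine Finset.sum_congr rfl fun f _ => ?_
  split_ifs with h
  · rfl
  · exact (h3 f h).symm

/-! ### the values on the empty set -/

theorem card_RR_zero (M : ℕ∞) :
    Nat.card {G : SimpleGraph (Option (Fin 0)) // RR G ∧ CoreLt M G} = 1 := by
  have h := rN_one M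
  unfold rN sh es1 at h
  simp only [one_ne_zero, if_false, Nat.sub_self, Nat.factorial_zero, Nat.cast_one, div_one] at h
  exact_mod_cast h

theorem card_DD_zero (M : ℕ∞) :
    Nat.card {G : SimpleGraph (Fin 0 ⊕ Bool) // DD G ∧ CoreLt M (addp G)} = 1 := by
  have h := dN_zero M
  unfold dN es2 at h
  simp only [Nat.factorial_zero, Nat.cast_one, div_one] at h
  exact_mod_cast h

theorem card_G_zero (M : ℕ∞) :
    Nat.card {G : SimpleGraph (Fin 0) // IsPlanar G ∧ CoreLt M G} = 1 := by
  have h := gN_zero M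
  unfold gN at h
  simp only [Nat.factorial_zero, Nat.cast_one, div_one] at h
  exact_mod_cast h

theorem inv0_core (M : ℕ∞) (A B : Type) [Finite A] [Finite B] (e : A ≃ B) (G : SimpleGraph B)
    (h : IsPlanar G ∧ CoreLt M G) : IsPlanar (G.comap e) ∧ CoreLt M (G.comap e) :=
  ⟨planar_comap _ e.injective h.1, (coreLt_iso (DecInv_iso0 e G) M).2 h.2⟩

theorem card_RR_fin (M : ℕ∞) (B : Type) [Finite B] :
    Nat.card {G : SimpleGraph (Option B) // RR G ∧ CoreLt M G} =
      Nat.card {G : SimpleGraph (Option (Fin (Nat.card B))) // RR G ∧ CoreLt M G} :=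
  (cinv1 _ (inv1_and inv_RR (inv_core1 M))).inv B (Fin (Nat.card B)) inferInstance
    ⟨Finite.equivFin B⟩

theorem card_DD_fin (M : ℕ∞) (B : Type) [Finite B] :
    Nat.card {G : SimpleGraph (B ⊕ Bool) // DD G ∧ CoreLt M (addp G)} =
      Nat.card {G : SimpleGraph (Fin (Nat.card B) ⊕ Bool) // DD G ∧ CoreLt M (addp G)} :=
  (cinv2 _ (inv2_and inv_DD (inv_core2 M))).inv B (Fin (Nat.card B)) inferInstance
    ⟨Finite.equivFin B⟩

theorem card_G_fin (M : ℕ∞) (B : Type) [Finite B] :
    Nat.card {G : SimpleGraph B // IsPlanar G ∧ CoreLt M G} =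
      Nat.card {G : SimpleGraph (Fin (Nat.card B)) // IsPlanar G ∧ CoreLt M G} :=
  (cinv0 (fun _ G => IsPlanar G ∧ CoreLt M G) fun A B _ _ e G h => inv0_core M A B e G h).inv B
    (Fin (Nat.card B)) inferInstance ⟨Finite.equivFin B⟩

/-! ### structures with small cores over a fixed graph -/

section fixed
variable {V : Type} [LinearOrder V] {X : Set V} {K : SimpleGraph X}

/-- the cores of the structure are small -/
def CLs (M : ℕ∞) : ∀ (i : Idx K) (B : Type), Str K i B → Prop
  | .inl _, _, s => CoreLt M s.1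
  | .inr (.inl _), _, s => CoreLt M (addp s.1)
  | .inr (.inr _), _, s => CoreLt M s.1

/-- structures with small cores -/
abbrev StrM (M : ℕ∞) (K : SimpleGraph X) (i : Idx K) (B : Type) : Type :=
  {s : Str K i B // CLs M i B s}

theorem strM_vert (M : ℕ∞) (x : X) (B : Type) : Nat.card (StrM M K (.inl x) B) =
    Nat.card {G : SimpleGraph (Option B) // RR G ∧ CoreLt M G} :=
  Nat.card_congr
    { toFun := fun s => ⟨s.1.1, s.1.2, s.2⟩
      invFun := fun s => ⟨⟨s.1, s.2.1⟩, s.2.2⟩
      left_inv := fun _ => rfl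
      right_inv := fun _ => rfl }

theorem strM_edge (M : ℕ∞) (e : K.edgeSet) (B : Type) : Nat.card (StrM M K (.inr (.inl e)) B) =
    Nat.card {G : SimpleGraph (B ⊕ Bool) // DD G ∧ CoreLt M (addp G)} :=
  Nat.card_congr
    { toFun := fun s => ⟨s.1.1, s.1.2, s.2⟩
      invFun := fun s => ⟨⟨s.1, s.2.1⟩, s.2.2⟩
      left_inv := fun _ => rfl
      right_inv := fun _ => rfl }

theorem strM_rest (M : ℕ∞) (u : Unit) (B : Type) : Nat.card (StrM M K (.inr (.inr u)) B) =
    Nat.card {G : SimpleGraph B // IsPlanar G ∧ CoreLt M G} :=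
  Nat.card_congr
    { toFun := fun s => ⟨s.1.1, s.1.2, s.2⟩
      invFun := fun s => ⟨⟨s.1, s.2.1⟩, s.2.2⟩
      left_inv := fun _ => rfl
      right_inv := fun _ => rfl }

theorem strM_fin (M : ℕ∞) : ∀ (i : Idx K) (B : Type), Finite B → Finite (StrM M K i B)
  | .inl _, B, h => by
      have : Finite (SimpleGraph (Option B)) := inferInstance
      change Finite {s : {G : SimpleGraph (Option B) // RR G} // _}
      infer_instance
  | .inr (.inl _), B, h => by
      change Finite {s : {G : SimpleGraph (B ⊕ Bool) // DD G} // _}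
      infer_instance
  | .inr (.inr _), B, h => by
      change Finite {s : {G : SimpleGraph B // IsPlanar G} // _}
      infer_instance

/-- number of structures, of all kinds -/
noncomputable def cS (M : ℕ∞) : Idx K → ℕ → ℝ
  | .inl _, m => Nat.card {G : SimpleGraph (Option (Fin m)) // RR G ∧ CoreLt M G}
  | .inr (.inl _), m => Nat.card {G : SimpleGraph (Fin m ⊕ Bool) // DD G ∧ CoreLt M (addp G)}
  | .inr (.inr _), m => Nat.card {G : SimpleGraph (Fin m) // IsPlanar G ∧ CoreLt M G}

theorem cS_card (M : ℕ∞) : ∀ (i : Idx K) (B : Type) [Finite B],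
    (Nat.card (StrM M K i B) : ℝ) = cS M i (Nat.card B)
  | .inl x, B, _ => by rw [strM_vert, card_RR_fin]; rfl
  | .inr (.inl e), B, _ => by rw [strM_edge, card_DD_fin]; rfl
  | .inr (.inr u), B, _ => by rw [strM_rest, card_G_fin]; rfl

theorem cS_zero (M : ℕ∞) : ∀ i : Idx K, cS M i 0 = 1
  | .inl _ => by
      change (Nat.card {G : SimpleGraph (Option (Fin 0)) // RR G ∧ CoreLt M G} : ℝ) = 1
      rw [card_RR_zero, Nat.cast_one]
  | .inr (.inl _) => by
      change (Nat.card {G : SimpleGraph (Fin 0 ⊕ Bool) // DD G ∧ CoreLt M (addp G)} : ℝ) = 1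
      rw [card_DD_zero, Nat.cast_one]
  | .inr (.inr _) => by
      change (Nat.card {G : SimpleGraph (Fin 0) // IsPlanar G ∧ CoreLt M G} : ℝ) = 1
      rw [card_G_zero, Nat.cast_one]

/-- number of families of structures whose nonempty fibres lie over a set `J` of indices -/
theorem count_over [Finite V] [Fintype (Idx K)] (M : ℕ∞) (J : Idx K → Prop) [DecidablePred J] :
    (Nat.card {z : Σ f : (↥Xᶜ → Idx K), ∀ i, StrM M K i {a // f a = i} //
      ∀ a, J (z.1 a)} : ℝ) = ((Nat.card ↥Xᶜ).factorial : ℝ) *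
        PowerSeries.coeff (Nat.card ↥Xᶜ) (∏ i : Idx K, if J i then
          PowerSeries.mk (fun m => cS M i m / m.factorial) else 1) := by
  classical
  rw [count_fam (StrM M K) (strM_fin M) (fun i m => if J i then cS M i m else
    if m = 0 then 1 else 0) ↥Xᶜ (fun f => ∀ a, J (f a))]
  · congr 1
    rw [← PowerSeries.coeff_mk (Nat.card ↥Xᶜ) (cvL _), mk_cvLs_univ]
    congr 1
    refine Finset.prod_congr rfl fun i _ => ?_
    split_ifs with h
    · rfl
    · rw [← mk_one0]
      congr 1
      funext m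
      unfold one0
      split_ifs with hm
      · rw [hm]; norm_num
      · norm_num
  · intro f hf i
    split_ifs with h1 h2
    · exact cS_card M i _
    · rw [cS_card, h2, cS_zero]
    · exfalso
      have : Nonempty {a // f a = i} := by
        by_contra hne
        rw [not_nonempty_iff] at hne
        exact h2 (Nat.card_of_isEmpty)
      obtain ⟨a, ha⟩ := this
      exact h1 (ha ▸ hf a)
  · intro f hf
    push Not at hf
    obtain ⟨a, ha⟩ := hf
    refine ⟨f a, ?_⟩
    rw [if_neg ha, if_neg]
    have : Nonempty {b // f b = f a} := ⟨⟨a, rfl⟩⟩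
    exact Nat.card_pos.ne'

end fixed

end Dia
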