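import Pool.Agent.Dia.RigG
import Pool.Agent.Dia.MDist

/-!
# Module RigF: distances and the rigid part of the class BB (consequences of the structure theorem)

Let `G` be in `BB` on `Fin k ⊕ Bool` without separating vertex, `X` the core set of `addp G` containing both poles,
`K` = torso, `v` = number of internal vertices in `X`, `e + 1` = number of edges of `K`.

`rig_T`: let `m` be the distance of the poles in `K` without the edge between them, and `P` a fixed shortest path (for
every `K`); every edge `xy` of `K` on this path is replaced by a part in which `x` and `y` have distance `pd`; so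
`pd G ≤ ∑ over the path of pd (part)`, and
`exp (θ pd G) - 1 ≤ ∏ over the path of exp (θ pd (part)) - 1`; sum over all attachments.

`rig_far`: let `a` have distance `≥ L` from both poles.  If `e < E1`, all distances in `K` are `< D1` and all parts have
`pd ≤ l`, then every `x ∈ X` has distance `≤ (D1 - 1) l ≤ m` from one of the poles in `G` (a shortest path in `K`
from `x` to the nearest pole does not use the edge between the poles).  So `a ∉ X`, and the part which contains
`a` is `Far1 (L - m)` (part at a vertex) or `Far2 (L - m)` (part at an edge), since distances in the part are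
not smaller than distances in `G`.
-/

set_option linter.unusedSectionVars false

namespace Dia
open Finset PGr Pool.Agent.DiamP

/-- distance of the marked vertices without the edge between them -/
def PLm (m : ℕ) : PG2 := fun _ G x y => (G.deleteEdges {s(x, y)}).dist x y = m

/-- two vertices have distance at least `m` -/
def PDm (m : ℕ) : PG0 := fun _ G => ∃ x y, m ≤ G.dist x y

/-- rigid part with exponential moments -/
noncomputable def HcT (θ : ℝ) (k : ℕ) : ℝ :=
  ∑ v ∈ range (k + 1), ∑ e ∈ range ((k + 2) ^ 2), ∑ m ∈ range (e + 1), hP (PLm m) v e *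
    (cvL (List.replicate v (rN ⊤) ++ (List.replicate (e - m) (dN ⊤) ++ List.replicate m (dT θ))) k -
      cvL (List.replicate v (rN ⊤) ++ List.replicate e (dN ⊤)) k)

/-! ### distances in the graph without the edge between the poles -/

section graph
variable {A : Type} [Finite A] [LinearOrder (A ⊕ Bool)] {X : Set (A ⊕ Bool)} {K : SimpleGraph X}
  {E : SimpleGraph (A ⊕ Bool)} {f : ↥Xᶜ → Idx K}

private theorem RigF_del_adj {u v : A ⊕ Bool} (h : E.Adj u v)
    (hn : ¬ ∃ b c, u = Sum.inr b ∧ v = Sum.inr c) : (DecD_del E).Adj u v := by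
  unfold DecD_del
  rw [SimpleGraph.sdiff_adj]
  refine ⟨h, fun h1 => hn ?_⟩
  rw [SimpleGraph.edge_adj] at h1
  rcases h1.1 with ⟨h2, h3⟩ | ⟨h2, h3⟩
  · exact ⟨_, _, h2, h3⟩
  · exact ⟨_, _, h2, h3⟩

private theorem RigF_comap1 (hp : ∀ b, Sum.inr b ∈ X) (x : X) :
    (DecD_del E).comap (emb1 f x) = E.comap (emb1 f x) := by
  ext a b
  constructor
  · intro h
    exact DecD_del_le E h
  · intro h
    refine RigF_del_adj h ?_
    rintro ⟨c, d, hc, hd⟩
    have h1 : ∀ a c, emb1 f x a = Sum.inr c → a = none := by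
      rintro (_ | a) c hc
      · rfl
      · exfalso
        have h2 : a.1.1 = Sum.inr c := hc
        exact a.1.2 (h2 ▸ hp c)
    rw [h1 a c hc, h1 b d hd] at h
    exact h.ne rfl

private theorem RigF_comap2 (hp : ∀ b, Sum.inr b ∈ X) (e : K.edgeSet)
    (he : JI K (.inr (.inl e))) :
    (DecD_del E).comap (emb2 f e) = E.comap (emb2 f e) := by
  ext a b
  constructor
  · intro h
    exact DecD_del_le E h
  · intro h
    refine RigF_del_adj h ?_
    rintro ⟨c, d, hc, hd⟩
    have h1 : ∀ a c, emb2 f e a = Sum.inr c → ∃ b, a = Sum.inr b ∧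
        pole e.1 b = ⟨Sum.inr c, hp c⟩ := by
      rintro (a | b) c hc
      · exfalso
        have h2 : a.1.1 = Sum.inr c := hc
        exact a.1.2 (h2 ▸ hp c)
      · exact ⟨b, rfl, Subtype.ext hc⟩
    obtain ⟨a', ha, ha'⟩ := h1 a c hc
    obtain ⟨b', hb, hb'⟩ := h1 b d hd
    have hab : a' ≠ b' := by
      rintro rfl
      rw [ha, hb] at h
      exact h.ne rfl
    apply (JI_edge hp e).1 he
    rw [← pole_pair e.1]
    cases a' <;> cases b'
    · exact absurd rfl hab
    · rw [ha', hb']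
      cases c <;> cases d
      · exact absurd (ha'.trans hb'.symm) (pole_ne e)
      · rfl
      · exact Sym2.eq_swap
      · exact absurd (ha'.trans hb'.symm) (pole_ne e)
    · rw [ha', hb']
      cases c <;> cases d
      · exact absurd (hb'.trans ha'.symm) (pole_ne e)
      · exact Sym2.eq_swap
      · rfl
      · exact absurd (hb'.trans ha'.symm) (pole_ne e)
    · exact absurd rfl hab

private theorem RigF_tri {V : Type} {G : SimpleGraph V} {x y z : V} (h : G.Reachable x y) :
    G.dist x z ≤ G.dist x y + G.dist y z := by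
  by_cases h2 : G.Reachable y z
  · obtain ⟨p, hp⟩ := h.exists_walk_length_eq_dist
    obtain ⟨q, hq⟩ := h2.exists_walk_length_eq_dist
    have h3 := SimpleGraph.dist_le (p.append q)
    rw [SimpleGraph.Walk.length_append, hp, hq] at h3
    exact h3
  · have h3 : ¬ G.Reachable x z := fun h4 => h2 (h.symm.trans h4)
    rw [SimpleGraph.dist_eq_zero_of_not_reachable h3]
    exact Nat.zero_le _

private theorem RigF_hom {U V : Type} {G : SimpleGraph V} {H : SimpleGraph U} {φ : U → V}
    (h : G.comap φ = H) {u v : U} (hr : H.Reachable u v) :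
    G.Reachable (φ u) (φ v) ∧ G.dist (φ u) (φ v) ≤ H.dist u v := by
  subst h
  let g : G.comap φ →g G := ⟨φ, fun h => h⟩
  exact ⟨hr.map g, hom_dist g hr⟩

/-- an edge of the core -/
private theorem RigF_edge (hp : ∀ b, Sum.inr b ∈ X) (hc : Conn3 E K f) (e : K.edgeSet)
    (he : JI K (.inr (.inl e))) :
    (DecD_del E).Reachable (pole e.1 false).1 (pole e.1 true).1 ∧
      (DecD_del E).dist (pole e.1 false).1 (pole e.1 true).1 ≤ pd (E.comap (emb2 f e)) := by
  exact RigF_hom (RigF_comap2 hp e he) (pole_reach (hc.ne e) (hc.att2 e))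

private theorem RigF_adj (hp : ∀ b, Sum.inr b ∈ X) (hc : Conn3 E K f) {x y : X}
    (hxy : K.Adj x y) (he : JI K (.inr (.inl ⟨s(x, y), hxy⟩))) :
    (DecD_del E).Reachable x.1 y.1 ∧
      (DecD_del E).dist x.1 y.1 ≤ pd (E.comap (emb2 f ⟨s(x, y), hxy⟩)) := by
  have h := RigF_edge hp hc ⟨s(x, y), hxy⟩ he
  change (DecD_del E).Reachable (x ⊓ y).1 (x ⊔ y).1 ∧
    (DecD_del E).dist (x ⊓ y).1 (x ⊔ y).1 ≤ _ at h
  rcases le_total x y with h1 | h1
  · rwa [inf_eq_left.2 h1, sup_eq_right.2 h1] at h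
  · rw [inf_eq_right.2 h1, sup_eq_left.2 h1, SimpleGraph.dist_comm] at h
    exact ⟨h.1.symm, h.2⟩

/-- pole distance of the part at an edge -/
private noncomputable def RigF_pd (E : SimpleGraph (A ⊕ Bool)) (f : ↥Xᶜ → Idx K) (e : Sym2 X) :
    ℕ :=
  open Classical in if h : e ∈ K.edgeSet then pd (E.comap (emb2 f ⟨e, h⟩)) else 0

private theorem RigF_walk (hp : ∀ b, Sum.inr b ∈ X) (hc : Conn3 E K f) {x y : X}
    (p : K.Walk x y)
    (hne : s(⟨Sum.inr false, hp false⟩, ⟨Sum.inr true, hp true⟩) ∉ p.edges) :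
    (DecD_del E).Reachable x.1 y.1 ∧
      (DecD_del E).dist x.1 y.1 ≤ (p.edges.map (RigF_pd E f)).sum := by
  induction p with
  | nil => exact ⟨SimpleGraph.Reachable.refl _, by simp⟩
  | @cons a b c hadj q ih =>
    rw [SimpleGraph.Walk.edges_cons, List.mem_cons, not_or] at hne
    have h2 := ih hne.2
    have h3 : JI K (.inr (.inl ⟨s(a, b), hadj⟩)) := (JI_edge hp _).2 fun h => hne.1 h.symm
    have h4 := RigF_adj hp hc hadj h3
    refine ⟨h4.1.trans h2.1, ?_⟩
    rw [SimpleGraph.Walk.edges_cons, List.map_cons, List.sum_cons]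
    refine (RigF_tri h4.1).trans (Nat.add_le_add ?_ h2.2)
    have h1 : s(a, b) ∈ K.edgeSet := hadj
    unfold RigF_pd
    rw [dif_pos h1]
    exact h4.2

/-- shortest paths to the nearest pole -/
private theorem RigF_near (hp : ∀ b, Sum.inr b ∈ X) (hK : K.Connected) (x : X) :
    ∃ b, ∃ p : K.Walk x ⟨Sum.inr b, hp b⟩, p.length = K.dist x ⟨Sum.inr b, hp b⟩ ∧
      s(⟨Sum.inr false, hp false⟩, ⟨Sum.inr true, hp true⟩) ∉ p.edges := by
  classical
  have key : ∀ b, K.dist x ⟨Sum.inr b, hp b⟩ ≤ K.dist x ⟨Sum.inr (!b), hp (!b)⟩ →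
      ∃ p : K.Walk x ⟨Sum.inr b, hp b⟩, p.length = K.dist x ⟨Sum.inr b, hp b⟩ ∧
      s(⟨Sum.inr false, hp false⟩, ⟨Sum.inr true, hp true⟩) ∉ p.edges := by
    intro b hb
    obtain ⟨p, hpl⟩ := hK.exists_walk_length_eq_dist x ⟨Sum.inr b, hp b⟩
    refine ⟨p, hpl, fun hmem => ?_⟩
    have h1 : (⟨Sum.inr (!b), hp (!b)⟩ : X) ∈ p.support := by
      cases b
      · exact p.snd_mem_support_of_mem_edges hmem
      · exact p.fst_mem_support_of_mem_edges hmem
    have h2 : (⟨Sum.inr (!b), hp (!b)⟩ : X) ≠ ⟨Sum.inr b, hp b⟩ := by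
      intro h
      have h3 := Sum.inr_injective (congrArg Subtype.val h)
      simp at h3
    have h3 := SimpleGraph.Walk.length_takeUntil_lt_length h1 h2
    have h4 := SimpleGraph.dist_le (p.takeUntil _ h1)
    omega
  rcases le_total (K.dist x ⟨Sum.inr false, hp false⟩) (K.dist x ⟨Sum.inr true, hp true⟩) with h | h
  · exact ⟨false, key false h⟩
  · exact ⟨true, key true h⟩

private theorem RigF_sum_le {L : List (Sym2 X)} {l : ℕ} {g : Sym2 X → ℕ}
    (h : ∀ e ∈ L, g e ≤ l) : (L.map g).sum ≤ L.length * l := by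
  induction L with
  | nil => simp
  | cons a L ih =>
    rw [List.map_cons, List.sum_cons, List.length_cons, Nat.succ_mul, add_comm]
    exact Nat.add_le_add (ih fun e he => h e (List.mem_cons_of_mem _ he))
      (h a List.mem_cons_self)

/-- every vertex of the core is near one of the poles -/
private theorem RigF_core (hp : ∀ b, Sum.inr b ∈ X) (hK : K.Connected) (hc : Conn3 E K f)
    {D1 l m : ℕ} (hD : D1 * l ≤ m) (h1 : ∀ x y, K.dist x y < D1)
    (h2 : ∀ e : K.edgeSet, JI K (.inr (.inl e)) → pd (E.comap (emb2 f e)) ≤ l) (x : X) :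
    ∃ b, (DecD_del E).Reachable x.1 (Sum.inr b) ∧ (DecD_del E).dist x.1 (Sum.inr b) ≤ m := by
  obtain ⟨b, p, hpl, hne⟩ := RigF_near hp hK x
  have h3 := RigF_walk hp hc p hne
  refine ⟨b, h3.1, h3.2.trans ?_⟩
  have h4 : (p.edges.map (RigF_pd E f)).sum ≤ p.edges.length * l := by
    refine RigF_sum_le fun e he => ?_
    have he' : e ∈ K.edgeSet := p.edges_subset_edgeSet he
    unfold RigF_pd
    rw [dif_pos he']
    refine h2 _ ((JI_edge hp _).2 fun h => hne ?_)
    have h5 : e = s(⟨Sum.inr false, hp false⟩, ⟨Sum.inr true, hp true⟩) := h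
    rwa [h5] at he
  refine h4.trans (le_trans ?_ hD)
  rw [SimpleGraph.Walk.length_edges, hpl]
  exact Nat.mul_le_mul_right _ (h1 _ _).le

/-- a far vertex is in a far part -/
private theorem RigF_far (hp : ∀ b, Sum.inr b ∈ X) (hK : K.Connected) (hc : Conn3 E K f)
    (hi : IntIx f) {L D1 l m : ℕ} (hm : m < L) (hD : D1 * l ≤ m) (h1 : ∀ x y, K.dist x y < D1)
    (h2 : ∀ e : K.edgeSet, JI K (.inr (.inl e)) → pd (E.comap (emb2 f e)) ≤ l)
    (hfar : Far2 L (DecD_del E)) :
    (∃ x : X, JI K (.inl x) ∧ Far1 (L - m) (E.comap (emb1 f x))) ∨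
      ∃ e : K.edgeSet, JI K (.inr (.inl e)) ∧ Far2 (L - m) (E.comap (emb2 f e)) := by
  obtain ⟨a, ha⟩ := hfar
  have hcore := RigF_core hp hK hc hD h1 h2
  have haX : Sum.inl a ∈ Xᶜ := by
    intro haX
    obtain ⟨b, -, hb⟩ := hcore ⟨Sum.inl a, haX⟩
    have hb' : (DecD_del E).dist (Sum.inl a) (Sum.inr b) ≤ m := hb
    have := ha b
    omega
  rcases hidx : f ⟨Sum.inl a, haX⟩ with x | e | t
  · left
    have hJ : JI K (.inl x) := by
      have h3 := hi ⟨Sum.inl a, haX⟩
      rw [hidx] at h3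
      exact h3
    refine ⟨x, hJ, ⟨⟨Sum.inl a, haX⟩, hidx⟩, ?_⟩
    obtain ⟨b, hb1, hb2⟩ := hcore x
    have h3 : (E.comap (emb1 f x)).Reachable (some ⟨⟨Sum.inl a, haX⟩, hidx⟩) none :=
      (hc.conn x).preconnected _ _
    obtain ⟨h5, h4⟩ := RigF_hom (RigF_comap1 hp x) h3
    change (DecD_del E).Reachable (Sum.inl a) x.1 at h5
    have h6 : (DecD_del E).dist (Sum.inl a) (Sum.inr b) ≤
        (DecD_del E).dist (Sum.inl a) x.1 + (DecD_del E).dist x.1 (Sum.inr b) := RigF_tri h5
    have h7 : (DecD_del E).dist (Sum.inl a) x.1 ≤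
        (E.comap (emb1 f x)).dist (some ⟨⟨Sum.inl a, haX⟩, hidx⟩) none := h4
    have := ha b
    omega
  · right
    have hJ : JI K (.inr (.inl e)) := by
      have h3 := hi ⟨Sum.inl a, haX⟩
      rw [hidx] at h3
      exact h3
    refine ⟨e, hJ, ⟨⟨Sum.inl a, haX⟩, hidx⟩, fun c => ?_⟩
    obtain ⟨b, hb1, hb2⟩ := hcore (pole e.1 c)
    obtain ⟨a', h31, h32⟩ := (att2_iff _).1 (hc.att2 e) ⟨⟨Sum.inl a, haX⟩, hidx⟩ c
    have h3 : (E.comap (emb2 f e)).Reachable (Sum.inl ⟨⟨Sum.inl a, haX⟩, hidx⟩) (Sum.inr c) := by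
      have h33 : (E.comap (emb2 f e)).Reachable (Sum.inl a') (Sum.inl ⟨⟨Sum.inl a, haX⟩, hidx⟩) :=
        h31.map (⟨Sum.inl, fun h => h⟩ : ((E.comap (emb2 f e)).comap Sum.inl) →g
          (E.comap (emb2 f e)))
      exact h33.symm.trans h32.reachable
    obtain ⟨h5, h4⟩ := RigF_hom (RigF_comap2 hp e hJ) h3
    change (DecD_del E).Reachable (Sum.inl a) (pole e.1 c).1 at h5
    have h6 : (DecD_del E).dist (Sum.inl a) (Sum.inr b) ≤
        (DecD_del E).dist (Sum.inl a) (pole e.1 c).1 +
          (DecD_del E).dist (pole e.1 c).1 (Sum.inr b) := RigF_tri h5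
    have h7 : (DecD_del E).dist (Sum.inl a) (pole e.1 c).1 ≤
        (E.comap (emb2 f e)).dist (Sum.inl ⟨⟨Sum.inl a, haX⟩, hidx⟩) (Sum.inr c) := h4
    have := ha b
    omega
  · exfalso
    obtain ⟨x, hx, -⟩ := hi ⟨Sum.inl a, haX⟩
    rw [hidx] at hx
    exact hx

end graph

/-! ### exponential moments -/

private theorem RigF_dist_iso {U W : Type} {G : SimpleGraph U} {H : SimpleGraph W} (e : G ≃g H)
    (x y : U) : G.dist x y = H.dist (e x) (e y) := DecInv_dist e x y

private theorem RigF_PLm (m : ℕ) : InvP (PLm m) := by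
  intro U W G H e x y h
  unfold PLm at h ⊢
  let e' : G.deleteEdges {s(x, y)} ≃g H.deleteEdges {s(e x, e y)} :=
    { toEquiv := e.toEquiv
      map_rel_iff' := by
        intro a b
        rw [SimpleGraph.deleteEdges_adj, SimpleGraph.deleteEdges_adj, Set.mem_singleton_iff,
          Set.mem_singleton_iff]
        have h1 : H.Adj (e a) (e b) ↔ G.Adj a b := e.map_rel_iff'
        have h2 : s(e a, e b) = s(e x, e y) ↔ s(a, b) = s(x, y) := by
          rw [← Sym2.map_mk, ← Sym2.map_mk]
          exact (Sym2.map.injective e.injective).eq_iff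
        exact and_congr h1 (not_congr h2) }
  rw [← h, RigF_dist_iso e' x y]
  rfl

private theorem RigF_PDm (m : ℕ) : InvP (PDm m).two := by
  intro U W G H e _ _ h
  obtain ⟨x, y, hxy⟩ := h
  refine ⟨e x, e y, ?_⟩
  rw [← RigF_dist_iso e x y]
  exact hxy

private theorem RigF_dT (θ : ℝ) : dT θ = ew2 fun _ G => Real.exp (θ * pd G) := by
  classical
  funext k
  unfold dT ew2
  congr 1
  have := Fintype.ofFinite {G : SimpleGraph (Fin k ⊕ Bool) // DD G}
  rw [finsum_eq_sum_of_fintype, ← Finset.sum_filter]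
  refine (Finset.sum_subtype (univ.filter fun G : SimpleGraph (Fin k ⊕ Bool) => DD G)
    (fun G => ?_) fun G => Real.exp (θ * pd G))
  simp

private theorem RigF_iw2T (θ : ℝ) : IW2 fun _ G => Real.exp (θ * pd G) := by
  intro A B _ _ e G
  beta_reduce
  rw [pd_comap]

/-- sums over a subtype -/
private theorem RigF_sub {α : Type} [Fintype α] (P : α → Prop) [DecidablePred P] (w : α → ℝ) :
    ∑ x : α, (if P x then w x else 0) = ∑ᶠ x : {x : α // P x}, w x.1 := by
  classical
  have := Fintype.ofFinite {x : α // P x}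
  rw [finsum_eq_sum_of_fintype, ← Finset.sum_filter]
  exact Finset.sum_subtype (univ.filter P) (fun x => by simp) w

/-- coefficients with `v` shifted factors -/
private theorem RigF_cvL (L : List (ℕ → ℝ)) {k v : ℕ} (hv : v ≤ k) :
    cvL (List.replicate v (rN ⊤) ++ L) k = PowerSeries.coeff (k - v)
      (PowerSeries.mk (rE ⊤) ^ v * (L.map PowerSeries.mk).prod) := by
  rw [← PowerSeries.coeff_mk k (cvL _), mk_cvLs, List.map_append, List.prod_append,
    List.map_replicate, List.prod_replicate]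
  have h : rN ⊤ = sh (rE ⊤) := rfl
  rw [h, mk_sh, mul_pow, mul_assoc, PowerSeries.coeff_X_pow_mul', if_pos hv]

open Classical in
theorem rig_T {θ : ℝ} (hθ : 0 ≤ θ) (k : ℕ) :
    (∑ G : SimpleGraph (Fin k ⊕ Bool), if BB G ∧ ¬ ∃ w, Sep G w then
      Real.exp (θ * pd G) - 1 else 0) / k.factorial ≤ HcT θ k := by
  let _ := RigG_ord k
  have hk0 : (0 : ℝ) < k.factorial := by exact_mod_cast k.factorial_pos
  let w : SimpleGraph (Fin k ⊕ Bool) → ℝ := fun G => Real.exp (θ * pd G) - 1
  have hw : ∀ G, 0 ≤ w G := by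
    intro G
    have h1 : 0 ≤ θ * pd G := mul_nonneg hθ (Nat.cast_nonneg _)
    have h2 := Real.one_le_exp h1
    change 0 ≤ Real.exp (θ * pd G) - 1
    linarith
  rw [RigF_sub (fun G : SimpleGraph (Fin k ⊕ Bool) => BB G ∧ ¬ ∃ w, Sep G w)
    (fun G => Real.exp (θ * pd G) - 1), div_le_iff₀ hk0]
  refine (pole_sum_le k w hw).trans ?_
  unfold HcT
  rw [Finset.sum_mul]
  refine Finset.sum_le_sum fun v hv => ?_
  rw [Finset.sum_mul]
  refine Finset.sum_le_sum fun e _ => ?_
  have hv' : v ≤ k := by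
    have := Finset.mem_range.1 hv
    omega
  -- the distance in the core
  let mi : IXP k v e → ℕ := fun i => ((i.2.1 : SimpleGraph i.1.1).deleteEdges
    {s(⟨Sum.inr false, i.1.2.1 false⟩, ⟨Sum.inr true, i.1.2.1 true⟩)}).dist
    ⟨Sum.inr false, i.1.2.1 false⟩ ⟨Sum.inr true, i.1.2.1 true⟩
  let c : ℕ → ℝ := fun m =>
    cvL (List.replicate v (rN ⊤) ++ (List.replicate (e - m) (dN ⊤) ++ List.replicate m (dT θ))) k -
      cvL (List.replicate v (rN ⊤) ++ List.replicate e (dN ⊤)) k
  have hone : ∀ i : IXP k v e, mi i < e + 1 ∧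
      TT w i ≤ ((k - v).factorial : ℝ) * c (mi i) := by
    intro i
    have hp := i.1.2.1
    let P0 : i.1.1 := ⟨Sum.inr false, hp false⟩
    let P1 : i.1.1 := ⟨Sum.inr true, hp true⟩
    have hP01 : P0 ≠ P1 := by
      intro h
      have h3 := Sum.inr_injective (congrArg Subtype.val h)
      simp at h3
    -- the core without the edge is connected
    have hreach : ((i.2.1 : SimpleGraph i.1.1).deleteEdges {s(P0, P1)}).Reachable P0 P1 := by
      by_contra hcon
      let Z : Set i.1.1 := {x | ((i.2.1 : SimpleGraph i.1.1).deleteEdges {s(P0, P1)}).Reachable P0 x}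
      obtain ⟨x, hx, y, hy, hxy, hne⟩ := three_cut i.2.2.1 ∅ {s(P0, P1)} (by simp) Z
        ⟨P0, SimpleGraph.Reachable.refl _, by simp⟩ ⟨P1, hcon, by simp⟩
      have h1 : ((i.2.1 : SimpleGraph i.1.1).deleteEdges {s(P0, P1)}).Adj x y := by
        rw [SimpleGraph.deleteEdges_adj]
        exact ⟨hxy, hne⟩
      exact hy.1 (hx.1.trans h1.reachable)
    obtain ⟨q, hq, hql⟩ := hreach.exists_path_of_dist
    have hle : (i.2.1 : SimpleGraph i.1.1).deleteEdges {s(P0, P1)} ≤ i.2.1 :=
      SimpleGraph.deleteEdges_le _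
    let p := q.mapLe hle
    have hpe : p.edges = q.edges := SimpleGraph.Walk.edges_mapLe_eq_edges _ _
    have hnd : p.edges.Nodup := by
      rw [hpe]
      exact hq.isTrail.edges_nodup
    have hnot : s(P0, P1) ∉ p.edges := by
      rw [hpe]
      intro h
      have h1 := q.edges_subset_edgeSet h
      rw [SimpleGraph.edgeSet_deleteEdges] at h1
      exact h1.2 rfl
    let T : i.2.1.edgeSet → Prop := fun y => y.1 ∈ p.edges
    have hTJ : ∀ y, T y → JI i.2.1 (.inr (.inl y)) := by
      intro y hy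
      refine (JI_edge hp y).2 fun h => hnot ?_
      have h1 : y.1 ∈ p.edges := hy
      rwa [h] at h1
    have hT : Nat.card {y // T y} = mi i := by
      have h0 : mi i = p.edges.length := by
        rw [hpe, SimpleGraph.Walk.length_edges, hql]
      rw [h0, ← List.toFinset_card_of_nodup hnd]
      have h1 : Nat.card {y // T y} = Nat.card {y // y ∈ p.edges.toFinset} := by
        refine Nat.card_congr
          { toFun := fun y => ⟨y.1.1, List.mem_toFinset.2 y.2⟩
            invFun := fun y => ⟨⟨y.1, SimpleGraph.Walk.edges_subset_edgeSet _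
              (List.mem_toFinset.1 y.2)⟩, List.mem_toFinset.1 y.2⟩
            left_inv := fun _ => rfl
            right_inv := fun _ => rfl }
      rw [h1, Nat.card_eq_fintype_card, Fintype.card_coe]
    have hTe : Nat.card {y // T y} ≤ e := by
      have h1 := card_JI_edge hp i.2.2.2.2.1 i.2.2.2.2.2
      exact (Nat.card_le_card_of_injective
        (fun y => (⟨y.1, hTJ y.1 y.2⟩ : {y : i.2.1.edgeSet // JI i.2.1 (.inr (.inl y))}))
        (fun y y' h => Subtype.ext (congrArg (fun z => z.1) h))).trans h1.le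
    refine ⟨by omega, ?_⟩
    have hb : TT w i ≤ ∑ᶠ z : ZT i, ((letI := Fintype.ofFinite i.2.1.edgeSet
        ∏ y : i.2.1.edgeSet, if T y then
          (fun (B : Type) (G : SimpleGraph (B ⊕ Bool)) => Real.exp (θ * pd G)) _
            (z.1.2 (.inr (.inl y))).1 else 1) - 1) := by
      refine TT_le' i w _ ?_
      intro E z hCE hfit hcon _ hpar
      have h1 := RigF_walk hp hcon p hnot
      let _ := Fintype.ofFinite i.2.1.edgeSet
      have h2 : ∏ y : i.2.1.edgeSet, (if T y then
          (fun (B : Type) (G : SimpleGraph (B ⊕ Bool)) => Real.exp (θ * pd G)) _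
            (z.1.2 (.inr (.inl y))).1 else 1) =
          Real.exp (θ * (((p.edges.map (RigF_pd E.1 z.1.1)).sum : ℕ) : ℝ)) := by
        have h3 : ((p.edges.map (RigF_pd E.1 z.1.1)).sum : ℕ) =
            ∑ q : i.2.1.edgeSet, if T q then pd (E.1.comap (emb2 z.1.1 q)) else 0 := by
          rw [← List.sum_toFinset _ hnd, ← Finset.sum_filter]
          symm
          refine Finset.sum_bij (fun q _ => q.1) ?_ ?_ ?_ ?_
          · intro q hq
            exact List.mem_toFinset.2 (mem_filter.1 hq).2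
          · intro q _ q' _ h
            exact Subtype.ext h
          · intro q hq
            have hq' := List.mem_toFinset.1 hq
            exact ⟨⟨q, SimpleGraph.Walk.edges_subset_edgeSet _ hq'⟩,
              mem_filter.2 ⟨mem_univ _, hq'⟩, rfl⟩
          · intro q _
            unfold RigF_pd
            rw [dif_pos q.2]
        rw [h3]
        push_cast
        rw [Finset.mul_sum, Real.exp_sum]
        refine Finset.prod_congr rfl fun q _ => ?_
        split_ifs
        · rw [hpar.edge q]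
        · rw [mul_zero, Real.exp_zero]
      rw [h2]
      change Real.exp (θ * pd (DecD_del E.1)) - 1 ≤ _
      have h4 : (pd (DecD_del E.1) : ℝ) ≤ (((p.edges.map (RigF_pd E.1 z.1.1)).sum : ℕ) : ℝ) := by
        exact_mod_cast h1.2
      have h5 := Real.exp_le_exp.2 (mul_le_mul_of_nonneg_left h4 hθ)
      linarith
    refine hb.trans (le_of_eq ?_)
    have h6 := TT_two i T hTJ (RigF_iw2T θ)
    have h7 := TT_all i
    rw [hT] at h6
    have h8 : ∑ᶠ z : ZT i, ((letI := Fintype.ofFinite i.2.1.edgeSet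
        ∏ y : i.2.1.edgeSet, if T y then
          (fun (B : Type) (G : SimpleGraph (B ⊕ Bool)) => Real.exp (θ * pd G)) _
            (z.1.2 (.inr (.inl y))).1 else 1) - 1) =
        (∑ᶠ z : ZT i, (letI := Fintype.ofFinite i.2.1.edgeSet
        ∏ y : i.2.1.edgeSet, if T y then
          (fun (B : Type) (G : SimpleGraph (B ⊕ Bool)) => Real.exp (θ * pd G)) _
            (z.1.2 (.inr (.inl y))).1 else 1)) - Nat.card (ZT i) := by
      have := Fintype.ofFinite (ZT i)
      rw [finsum_eq_sum_of_fintype, finsum_eq_sum_of_fintype, Finset.sum_sub_distrib,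
        Finset.sum_const, nsmul_eq_mul, mul_one, Nat.card_eq_fintype_card]
      rfl
    rw [h8, h6, h7, ← mul_sub]
    congr 1
    change _ = cvL _ k - cvL _ k
    rw [RigF_cvL _ hv', RigF_cvL _ hv', List.map_append, List.prod_append, List.map_replicate,
      List.map_replicate, List.map_replicate, List.prod_replicate, List.prod_replicate,
      List.prod_replicate, RigF_dT]
    congr 2
    ring
  calc ∑ᶠ i : IXP k v e, TT w i ≤ ∑ᶠ i : IXP k v e, ((k - v).factorial : ℝ) * c (mi i) :=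
        finsum_le fun i => (hone i).2
    _ = ∑ m ∈ range (e + 1), (Nat.card {i : IXP k v e // mi i = m} : ℝ) *
        (((k - v).factorial : ℝ) * c m) :=
        finsum_group mi (e + 1) (fun i => (hone i).1) fun m => ((k - v).factorial : ℝ) * c m
    _ = (∑ m ∈ range (e + 1), hP (PLm m) v e * c m) * k.factorial := by
        rw [Finset.sum_mul]
        refine Finset.sum_congr rfl fun m _ => ?_
        have h9 := RigG_term (RigF_PLm m) (e := e) hv' (c m)
        have h10 : (Nat.card {i : IXP k v e // mi i = m} : ℝ) =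
            (Nat.card {i : IXP k v e // PLm m _ i.2.1 ⟨Sum.inr false, i.1.2.1 false⟩
              ⟨Sum.inr true, i.1.2.1 true⟩} : ℝ) := rfl
        rw [h10, h9]
        ring

/-- rigid part with one far attachment or irregular distances -/
noncomputable def HcF (L m l D1 E1 k : ℕ) : ℝ :=
  ∑ v ∈ range (k + 1), ∑ e ∈ range ((k + 2) ^ 2),
    (hN v e * (v * cvL (rF (L - m) :: (List.replicate (v - 1) (rN ⊤) ++
        List.replicate e (dN ⊤))) k) +
      hN v e * (e * cvL (dF (L - m) :: (List.replicate v (rN ⊤) ++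
        List.replicate (e - 1) (dN ⊤))) k) +
      if E1 ≤ e then hN v e * cvL (List.replicate v (rN ⊤) ++ List.replicate e (dN ⊤)) k else
        hP (PDm D1).two v e * cvL (List.replicate v (rN ⊤) ++ List.replicate e (dN ⊤)) k +
        hN v e * (e * cvL (dP l :: (List.replicate v (rN ⊤) ++
          List.replicate (e - 1) (dN ⊤))) k))

open Classical in
private theorem RigF_es2 (L k : ℕ) :
    es2 (fun A G => BB G ∧ Far2 L G ∧ ¬ ∃ w : A, Sep G w) k =
      (∑ᶠ G : {G : SimpleGraph (Fin k ⊕ Bool) // BB G ∧ ¬ ∃ a, Sep G a},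
        (if Far2 L G.1 then (1 : ℝ) else 0)) / k.factorial := by
  unfold es2
  congr 1
  have := Fintype.ofFinite {G : SimpleGraph (Fin k ⊕ Bool) // BB G ∧ ¬ ∃ a, Sep G a}
  rw [finsum_eq_sum_of_fintype, ← Finset.sum_filter, Finset.sum_const, nsmul_eq_mul, mul_one]
  congr 1
  rw [← Fintype.card_subtype, ← Nat.card_eq_fintype_card]
  exact Nat.card_congr
    { toFun := fun z => ⟨⟨z.1, z.2.1, z.2.2.2⟩, z.2.2.1⟩
      invFun := fun z => ⟨z.1.1, z.1.2.1, z.2, z.1.2.2⟩
      left_inv := fun _ => rfl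
      right_inv := fun _ => rfl }

private theorem RigF_c1 (L : ℕ) {k v e : ℕ} (hv : v ≤ k) :
    (v : ℝ) * cvL (rF L :: (List.replicate (v - 1) (rN ⊤) ++ List.replicate e (dN ⊤))) k =
      v * PowerSeries.coeff (k - v) (PowerSeries.mk (rFE L) *
        (PowerSeries.mk (rE ⊤) ^ (v - 1) * PowerSeries.mk (dN ⊤) ^ e)) := by
  rcases v with _ | v
  · simp
  congr 1
  rw [← PowerSeries.coeff_mk k (cvL _), mk_cvLs, List.map_cons, List.prod_cons, List.map_append,
    List.prod_append, List.map_replicate, List.map_replicate, List.prod_replicate,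
    List.prod_replicate]
  have h : rN ⊤ = sh (rE ⊤) := rfl
  have h' : rF L = sh (rFE L) := rfl
  rw [h, h', mk_sh, mk_sh, mul_pow, Nat.add_sub_cancel]
  have h2 : (PowerSeries.X * PowerSeries.mk (rFE L) *
      (PowerSeries.X ^ v * PowerSeries.mk (rE ⊤) ^ v * PowerSeries.mk (dN ⊤) ^ e) :
      PowerSeries ℝ) = PowerSeries.X ^ (v + 1) * (PowerSeries.mk (rFE L) *
        (PowerSeries.mk (rE ⊤) ^ v * PowerSeries.mk (dN ⊤) ^ e)) := by
    ring
  rw [h2, PowerSeries.coeff_X_pow_mul', if_pos hv]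

private theorem RigF_c2 (F : ℕ → ℝ) {k v e : ℕ} (hv : v ≤ k) :
    cvL (F :: (List.replicate v (rN ⊤) ++ List.replicate (e - 1) (dN ⊤))) k =
      PowerSeries.coeff (k - v) (PowerSeries.mk F *
        (PowerSeries.mk (rE ⊤) ^ v * PowerSeries.mk (dN ⊤) ^ (e - 1))) := by
  rw [← PowerSeries.coeff_mk k (cvL _), mk_cvLs, List.map_cons, List.prod_cons, List.map_append,
    List.prod_append, List.map_replicate, List.map_replicate, List.prod_replicate,
    List.prod_replicate]
  have h : rN ⊤ = sh (rE ⊤) := rfl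
  rw [h, mk_sh, mul_pow]
  have h2 : (PowerSeries.mk F *
      (PowerSeries.X ^ v * PowerSeries.mk (rE ⊤) ^ v * PowerSeries.mk (dN ⊤) ^ (e - 1)) :
      PowerSeries ℝ) = PowerSeries.X ^ v * (PowerSeries.mk F *
        (PowerSeries.mk (rE ⊤) ^ v * PowerSeries.mk (dN ⊤) ^ (e - 1))) := by
    ring
  rw [h2, PowerSeries.coeff_X_pow_mul', if_pos hv]

section one
variable {k v e : ℕ} [LinearOrder (Fin k ⊕ Bool)]

/-- one special part at an edge -/
private theorem RigF_onee (i : IXP k v e) (y0 : i.2.1.edgeSet) (hy0 : JI i.2.1 (.inr (.inl y0)))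
    {wf : ∀ B : Type, SimpleGraph (B ⊕ Bool) → ℝ} (hw : IW2 wf) :
    ∑ᶠ z : ZT i, wf _ (z.1.2 (.inr (.inl y0))).1 = ((k - v).factorial : ℝ) *
      PowerSeries.coeff (k - v) (PowerSeries.mk (ew2 wf) *
        (PowerSeries.mk (rE ⊤) ^ v * PowerSeries.mk (dN ⊤) ^ (e - 1))) := by
  classical
  have h := TT_two i (fun y => y = y0) (fun y hy => by rw [hy]; exact hy0) hw
  have c1 : Nat.card {y : i.2.1.edgeSet // y = y0} = 1 := Nat.card_unique
  rw [c1, pow_one] at h
  rw [← h]
  refine finsum_congr fun z => ?_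
  let _ := Fintype.ofFinite i.2.1.edgeSet
  rw [Finset.prod_eq_single y0]
  · rw [if_pos rfl]
  · intro y _ hy
    rw [if_neg hy]
  · intro hy
    exact absurd (Finset.mem_univ _) hy

open Classical in
private theorem RigF_sumv (i : IXP k v e) (L : ℕ) :
    ∑ᶠ z : ZT i, ∑ᶠ x0 : {x : i.1.1 // JI i.2.1 (.inl x)},
      (if Far1 L (z.1.2 (.inl x0.1)).1 then (1 : ℝ) else 0) = ((k - v).factorial : ℝ) *
      (v * PowerSeries.coeff (k - v) (PowerSeries.mk (rFE L) *
        (PowerSeries.mk (rE ⊤) ^ (v - 1) * PowerSeries.mk (dN ⊤) ^ e))) := by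
  rw [finsum_swap]
  have h1 : ∀ x0 : {x : i.1.1 // JI i.2.1 (.inl x)}, ∑ᶠ z : ZT i,
      (if Far1 L (z.1.2 (.inl x0.1)).1 then (1 : ℝ) else 0) = ((k - v).factorial : ℝ) *
      PowerSeries.coeff (k - v) (PowerSeries.mk (rFE L) *
        (PowerSeries.mk (rE ⊤) ^ (v - 1) * PowerSeries.mk (dN ⊤) ^ e)) := by
    intro x0
    have h2 := TT_one i x0.1 x0.2 (iw1_ind (inv_far1 L))
    rw [ew1_ind fun _ G => Far1 L G] at h2
    exact h2
  rw [finsum_congr h1, finsum_const', card_JI_vert i.1.2.1 i.1.2.2]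
  ring

open Classical in
private theorem RigF_sume (i : IXP k v e) {P : ∀ A : Type, SimpleGraph (A ⊕ Bool) → Prop}
    (hP : Inv2 P) :
    ∑ᶠ z : ZT i, ∑ᶠ y0 : {y : i.2.1.edgeSet // JI i.2.1 (.inr (.inl y))},
      (if P _ (z.1.2 (.inr (.inl y0.1))).1 then (1 : ℝ) else 0) = ((k - v).factorial : ℝ) *
      (e * PowerSeries.coeff (k - v) (PowerSeries.mk (es2 fun A G => DD G ∧ P A G) *
        (PowerSeries.mk (rE ⊤) ^ v * PowerSeries.mk (dN ⊤) ^ (e - 1)))) := by
  rw [finsum_swap]
  have h1 : ∀ y0 : {y : i.2.1.edgeSet // JI i.2.1 (.inr (.inl y))}, ∑ᶠ z : ZT i,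
      (if P _ (z.1.2 (.inr (.inl y0.1))).1 then (1 : ℝ) else 0) = ((k - v).factorial : ℝ) *
      PowerSeries.coeff (k - v) (PowerSeries.mk (es2 fun A G => DD G ∧ P A G) *
        (PowerSeries.mk (rE ⊤) ^ v * PowerSeries.mk (dN ⊤) ^ (e - 1))) := by
    intro y0
    have h2 := RigF_onee i y0.1 y0.2 (iw2_ind hP)
    rw [ew2_ind P] at h2
    exact h2
  rw [finsum_congr h1, finsum_const', card_JI_edge i.1.2.1 i.2.2.2.2.1 i.2.2.2.2.2]
  ring

end one

theorem rig_far (L m l D1 E1 : ℕ) (hm : m < L) (hD : D1 * l ≤ m) (k : ℕ) :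
    es2 (fun A G => BB G ∧ Far2 L G ∧ ¬ ∃ w : A, Sep G w) k ≤ HcF L m l D1 E1 k := by
  classical
  let _ := RigG_ord k
  have hk0 : (0 : ℝ) < k.factorial := by exact_mod_cast k.factorial_pos
  let w : SimpleGraph (Fin k ⊕ Bool) → ℝ := fun G => if Far2 L G then 1 else 0
  have hw : ∀ G, 0 ≤ w G := by
    intro G
    change 0 ≤ if Far2 L G then (1 : ℝ) else 0
    split_ifs <;> norm_num
  rw [RigF_es2, div_le_iff₀ hk0]
  refine (pole_sum_le k w hw).trans ?_
  unfold HcF
  rw [Finset.sum_mul]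
  refine Finset.sum_le_sum fun v hv => ?_
  rw [Finset.sum_mul]
  refine Finset.sum_le_sum fun e _ => ?_
  have hv' : v ≤ k := by
    have := Finset.mem_range.1 hv
    omega
  let c0 : ℝ := PowerSeries.coeff (k - v) (PowerSeries.mk (rE ⊤) ^ v * PowerSeries.mk (dN ⊤) ^ e)
  let c1 : ℝ := v * PowerSeries.coeff (k - v) (PowerSeries.mk (rFE (L - m)) *
        (PowerSeries.mk (rE ⊤) ^ (v - 1) * PowerSeries.mk (dN ⊤) ^ e))
  let c2 : ℝ := e * PowerSeries.coeff (k - v) (PowerSeries.mk (dF (L - m)) *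
        (PowerSeries.mk (rE ⊤) ^ v * PowerSeries.mk (dN ⊤) ^ (e - 1)))
  let c3 : ℝ := e * PowerSeries.coeff (k - v) (PowerSeries.mk (dP l) *
        (PowerSeries.mk (rE ⊤) ^ v * PowerSeries.mk (dN ⊤) ^ (e - 1)))
  have hcv : cvL (List.replicate v (rN ⊤) ++ List.replicate e (dN ⊤)) k = c0 := by
    rw [RigF_cvL _ hv', List.map_replicate, List.prod_replicate]
  -- the bound for one index
  have hone : ∀ i : IXP k v e, TT w i ≤ ((k - v).factorial : ℝ) * c1 +
      ((k - v).factorial : ℝ) * c2 + (if E1 ≤ e then ((k - v).factorial : ℝ) * c0 else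
        (if PDm D1 _ i.2.1 then ((k - v).factorial : ℝ) * c0 else 0) +
          ((k - v).factorial : ℝ) * c3) := by
    intro i
    have hp := i.1.2.1
    let g1 : ZT i → ℝ := fun z => ∑ᶠ x0 : {x : i.1.1 // JI i.2.1 (.inl x)},
      (if Far1 (L - m) (z.1.2 (.inl x0.1)).1 then (1 : ℝ) else 0)
    let g2 : ZT i → ℝ := fun z => ∑ᶠ y0 : {y : i.2.1.edgeSet // JI i.2.1 (.inr (.inl y))},
      (if Far2 (L - m) (z.1.2 (.inr (.inl y0.1))).1 then (1 : ℝ) else 0)
    let g3 : ZT i → ℝ := fun z => ∑ᶠ y0 : {y : i.2.1.edgeSet // JI i.2.1 (.inr (.inl y))},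
      (if l < pd (z.1.2 (.inr (.inl y0.1))).1 then (1 : ℝ) else 0)
    have hg1 : ∀ z, 0 ≤ g1 z := fun z => finsum_nn fun x0 => by
      split_ifs <;> norm_num
    have hg2 : ∀ z, 0 ≤ g2 z := fun z => finsum_nn fun x0 => by
      split_ifs <;> norm_num
    have hg3 : ∀ z, 0 ≤ g3 z := fun z => finsum_nn fun x0 => by
      split_ifs <;> norm_num
    let g4 : ZT i → ℝ := fun z => if E1 ≤ e then 1 else
      (if PDm D1 _ i.2.1 then (1 : ℝ) else 0) + g3 z
    have hg4 : ∀ z, 0 ≤ g4 z := by
      intro z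
      change 0 ≤ if E1 ≤ e then (1 : ℝ) else _
      have := hg3 z
      split_ifs <;> linarith
    have hb : TT w i ≤ ∑ᶠ z : ZT i, (g1 z + g2 z + g4 z) := by
      refine TT_le' i w _ ?_
      intro E z hCE hfit hcon _ hpar
      have n1 := hg1 z
      have n2 := hg2 z
      have n3 := hg3 z
      have n4 := hg4 z
      change (if Far2 L (DecD_del E.1) then (1 : ℝ) else 0) ≤ _
      by_cases hf : Far2 L (DecD_del E.1)
      swap
      · rw [if_neg hf]
        linarith
      rw [if_pos hf]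
      by_cases hE : E1 ≤ e
      · have : g4 z = 1 := if_pos hE
        linarith
      have h4 : g4 z = (if PDm D1 _ i.2.1 then (1 : ℝ) else 0) + g3 z := if_neg hE
      by_cases hPD : PDm D1 _ i.2.1
      · rw [if_pos hPD] at h4
        linarith
      rw [if_neg hPD] at h4
      by_cases hy : ∃ y0 : {y : i.2.1.edgeSet // JI i.2.1 (.inr (.inl y))},
          l < pd (z.1.2 (.inr (.inl y0.1))).1
      · obtain ⟨y0, hy0⟩ := hy
        have : 1 ≤ g3 z := one_le_finsum (fun x => by split_ifs <;> norm_num) (x := y0)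
          (if_pos hy0)
        linarith
      push Not at hy
      have hdist : ∀ x y, (i.2.1 : SimpleGraph i.1.1).dist x y < D1 := by
        intro x y
        by_contra hcon'
        exact hPD ⟨x, y, by omega⟩
      have hpd : ∀ q : i.2.1.edgeSet, JI i.2.1 (.inr (.inl q)) →
          pd (E.1.comap (emb2 z.1.1 q)) ≤ l := by
        intro q hq
        rw [← hpar.edge q]
        exact hy ⟨q, hq⟩
      rcases RigF_far hp (three_conn i.2.2.1) hcon z.2 hm hD hdist hpd hf with
        ⟨x, hx, hfx⟩ | ⟨q, hq, hfq⟩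
      · rw [← hpar.vert x] at hfx
        have : 1 ≤ g1 z := one_le_finsum (fun x => by split_ifs <;> norm_num)
          (x := (⟨x, hx⟩ : {x : i.1.1 // JI i.2.1 (.inl x)})) (if_pos hfx)
        linarith
      · rw [← hpar.edge q] at hfq
        have : 1 ≤ g2 z := one_le_finsum (fun x => by split_ifs <;> norm_num)
          (x := (⟨q, hq⟩ : {y : i.2.1.edgeSet // JI i.2.1 (.inr (.inl y))})) (if_pos hfq)
        linarith
    refine hb.trans (le_of_eq ?_)
    have s1 : ∑ᶠ z : ZT i, g1 z = ((k - v).factorial : ℝ) * c1 := RigF_sumv i (L - m)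
    have s2 : ∑ᶠ z : ZT i, g2 z = ((k - v).factorial : ℝ) * c2 :=
      RigF_sume i (inv_far2 (L - m))
    have s3 : ∑ᶠ z : ZT i, g3 z = ((k - v).factorial : ℝ) * c3 := by
      refine Eq.trans ?_ (RigF_sume i (inv_pd l))
      refine finsum_congr fun z => finsum_congr fun y0 => ?_
      split_ifs <;> rfl
    have s0 : ∑ᶠ _ : ZT i, (1 : ℝ) = ((k - v).factorial : ℝ) * c0 := by
      rw [finsum_const', mul_one]
      exact TT_all i
    have s4 : ∑ᶠ z : ZT i, g4 z = (if E1 ≤ e then ((k - v).factorial : ℝ) * c0 else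
        (if PDm D1 _ i.2.1 then ((k - v).factorial : ℝ) * c0 else 0) +
          ((k - v).factorial : ℝ) * c3) := by
      by_cases hE : E1 ≤ e
      · rw [if_pos hE, ← s0]
        exact finsum_congr fun z => if_pos hE
      · rw [if_neg hE, ← s3]
        have h5 : ∑ᶠ z : ZT i, g4 z =
            ∑ᶠ z : ZT i, ((if PDm D1 _ i.2.1 then (1 : ℝ) else 0) + g3 z) :=
          finsum_congr fun z => if_neg hE
        rw [h5, finsum_add']
        congr 1
        split_ifs
        · exact s0
        · rw [finsum_zero]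
    rw [finsum_add', finsum_add', s1, s2, s4]
  refine (finsum_le hone).trans (le_of_eq ?_)
  have hall : ∀ c : ℝ, ∑ᶠ _ : IXP k v e, ((k - v).factorial : ℝ) * c =
      (k.factorial : ℝ) * (hN v e * c) := by
    intro c
    rw [finsum_const', RigG_all hv']
  have hPD : ∑ᶠ i : IXP k v e, (if PDm D1 _ i.2.1 then ((k - v).factorial : ℝ) * c0 else 0) =
      (k.factorial : ℝ) * (hP (PDm D1).two v e * c0) := by
    rw [← RigG_term (RigF_PDm D1) hv' c0]
    have := Fintype.ofFinite (IXP k v e)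
    rw [finsum_eq_sum_of_fintype, ← Finset.sum_filter, Finset.sum_const, nsmul_eq_mul]
    congr 2
    rw [← Fintype.card_subtype, ← Nat.card_eq_fintype_card]
    rfl
  rw [finsum_add', finsum_add', hall, hall, RigF_c1 _ hv', RigF_c2 _ hv', RigF_c2 _ hv', hcv]
  by_cases hE : E1 ≤ e
  · simp only [if_pos hE]
    rw [hall]
    ring
  · simp only [if_neg hE]
    rw [finsum_add', hPD, hall]
    ring

end Dia
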