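import Pool.Agent.Dia.ADefs
import Pool.Agent.Dia.CntT

/-!
# Module RigG: the rigid part of the class BB (consequences of the structure theorem)

Cores of a graph in `BB` without separating vertex (`bRig`): the core set `X` of `addp G` which contains both
poles; `X` minus the poles has `v` elements, the torso `K` has `e + 1` edges with the edge between the poles; no
parts are attached to the poles or to the edge between the poles, and there is no rest.
-/

set_option linter.unusedSectionVars false

namespace Dia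
open Finset PGr Pool.Agent.DiamP

/-- a linear order on the vertices -/
noncomputable abbrev RigG_ord (k : ℕ) : LinearOrder (Fin k ⊕ Bool) :=
  LinearOrder.lift' (Fintype.equivFin (Fin k ⊕ Bool)) (Fintype.equivFin (Fin k ⊕ Bool)).injective

/-- the value of one summand -/
theorem RigG_term {P : PG2} (hP' : InvP P) {k v e : ℕ} (hv : v ≤ k) (c : ℝ) :
    (Nat.card {i : IXP k v e // P _ i.2.1 ⟨Sum.inr false, i.1.2.1 false⟩
      ⟨Sum.inr true, i.1.2.1 true⟩} : ℝ) * (((k - v).factorial : ℝ) * c) =
      (k.factorial : ℝ) * (hP P v e * c) := by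
  rw [ixp_card k v e hP']
  have h := Nat.choose_mul_factorial_mul_factorial hv
  have h' : ((k.choose v : ℕ) : ℝ) * v.factorial * (k - v).factorial = k.factorial := by
    exact_mod_cast h
  rw [← h']
  ring

theorem RigG_PGT : InvP PGT := fun _ _ _ _ _ _ _ _ => trivial

/-- the number of all indices -/
theorem RigG_all {k v e : ℕ} (hv : v ≤ k) (c : ℝ) :
    (Nat.card (IXP k v e) : ℝ) * (((k - v).factorial : ℝ) * c) =
      (k.factorial : ℝ) * (hN v e * c) := by
  rw [hN_eq, ← RigG_term RigG_PGT hv c]
  congr 2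
  exact Nat.card_congr ⟨fun i => ⟨i, trivial⟩, fun i => i.1, fun _ => rfl, fun _ => rfl⟩

theorem bR_le (M : ℕ∞) (k : ℕ) : bRig M k ≤ Hc hN M (rN M) (dN M) k := by
  classical
  let _ := RigG_ord k
  have hk0 : (0 : ℝ) < k.factorial := by exact_mod_cast k.factorial_pos
  let w : SimpleGraph (Fin k ⊕ Bool) → ℝ := fun G => if CoreLt M (addp G) then 1 else 0
  have hw : ∀ G, 0 ≤ w G := by
    intro G
    change 0 ≤ if CoreLt M (addp G) then (1 : ℝ) else 0
    split_ifs <;> norm_num
  -- the number as a sum
  have h1 : bRig M k = (∑ᶠ G : {G : SimpleGraph (Fin k ⊕ Bool) // BB G ∧ ¬ ∃ a, Sep G a},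
      w G.1) / k.factorial := by
    unfold bRig es2
    congr 1
    have h2 : ∑ᶠ G : {G : SimpleGraph (Fin k ⊕ Bool) // BB G ∧ ¬ ∃ a, Sep G a}, w G.1 =
        (Nat.card {G : SimpleGraph (Fin k ⊕ Bool) // (BB G ∧ ¬ ∃ a, Sep G a) ∧
          CoreLt M (addp G)} : ℝ) := by
      have := Fintype.ofFinite {G : SimpleGraph (Fin k ⊕ Bool) // BB G ∧ ¬ ∃ a, Sep G a}
      rw [finsum_eq_sum_of_fintype, ← Finset.sum_filter, Finset.sum_const, nsmul_eq_mul,
        mul_one]
      congr 1
      rw [← Fintype.card_subtype, ← Nat.card_eq_fintype_card]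
      exact Nat.card_congr
        { toFun := fun z => ⟨z.1.1, z.1.2, z.2⟩
          invFun := fun z => ⟨⟨z.1, z.2.1⟩, z.2.2⟩
          left_inv := fun _ => rfl
          right_inv := fun _ => rfl }
    rw [h2]
    congr 1
    refine Nat.card_congr (Equiv.subtypeEquiv (Equiv.refl _) fun G => ?_)
    constructor
    · rintro ⟨h1, h2, h3⟩
      exact ⟨⟨h1, h3⟩, h2⟩
    · rintro ⟨⟨h1, h3⟩, h2⟩
      exact ⟨h1, h2, h3⟩
  rw [h1, div_le_iff₀ hk0]
  refine (pole_sum_le k w hw).trans ?_
  unfold Hc
  rw [Finset.sum_mul]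
  refine Finset.sum_le_sum fun v hv => ?_
  rw [Finset.sum_mul]
  refine Finset.sum_le_sum fun e _ => ?_
  have hv' : v ≤ k := by
    have := Finset.mem_range.1 hv
    omega
  split_ifs with hM
  · -- the bound for one index
    have h2 : ∀ i : IXP k v e, TT w i ≤ ((k - v).factorial : ℝ) *
        PowerSeries.coeff (k - v) (prd (rE M) (dN M) v e) := by
      intro i
      rw [← ew1_core, ← ew2_core, ← prS_const i]
      refine TT_le i w (fun _ => iw1_ind (inv_core1 M)) (fun _ => iw2_ind (inv_core2 M))
        (fun x _ => ?_) (fun x _ => ?_) ?_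
      · rw [ew1_core, rE_zero]
      · rw [ew2_core, dN_zero]
      · intro E f s hCE hi hfit hcon hix hpar
        have hnn : 0 ≤ prW i (fun _ _ G => if CoreLt M G then (1 : ℝ) else 0)
            (fun _ _ G => if CoreLt M (addp G) then (1 : ℝ) else 0) f s := by
          unfold prW
          refine mul_nonneg (Finset.prod_nonneg fun x _ => ?_) (Finset.prod_nonneg fun x _ => ?_)
          · dsimp only
            split_ifs <;> norm_num
          · dsimp only
            split_ifs <;> norm_num
        change (if CoreLt M (addp (DecD_del E.1)) then (1 : ℝ) else 0) ≤ _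
        rw [hCE.del.2]
        split_ifs with hc
        · refine le_of_eq ?_
          unfold prW
          rw [Finset.prod_eq_one, Finset.prod_eq_one, mul_one]
          · intro x _
            rw [hpar.edge x]
            exact if_pos (coreLt_edge hc E.2.2.2 i.2.2.1 hix x)
          · intro x _
            rw [hpar.vert x]
            exact if_pos (coreLt_vert hc hfit x)
        · exact hnn
    calc ∑ᶠ i : IXP k v e, TT w i ≤ ∑ᶠ _ : IXP k v e, ((k - v).factorial : ℝ) *
          PowerSeries.coeff (k - v) (prd (rE M) (dN M) v e) := finsum_le h2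
      _ = (k.factorial : ℝ) * (hN v e * PowerSeries.coeff (k - v) (prd (rE M) (dN M) v e)) := by
          rw [finsum_const', RigG_all hv']
      _ = hN v e * cvL (List.replicate v (rN M) ++ List.replicate e (dN M)) k *
          k.factorial := by
          have h3 : rN M = sh (rE M) := rfl
          rw [h3, cvL_shift, if_pos hv']
          ring
  · rw [zero_mul]
    refine (finsum_le (g := fun _ => 0) fun i => ?_).trans (by rw [finsum_zero])
    unfold TT
    refine (finsum_le (g := fun _ => 0) fun E => ?_).trans (by rw [finsum_zero])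
    change (if CoreLt M (addp (DecD_del E.1.1)) then (1 : ℝ) else 0) ≤ 0
    rw [E.2.del.2, if_neg]
    intro hc
    have h4 := hc i.1.1 E.1.2.2.1
    unfold coreE at h4
    rw [E.1.2.2.2, i.2.2.2.2.2] at h4
    exact hM h4

theorem bR_ge (k : ℕ) : Hc hN ⊤ (rN ⊤) (dN ⊤) k ≤ bN ⊤ k := by
  classical
  let _ := RigG_ord k
  have hk0 : (0 : ℝ) < k.factorial := by exact_mod_cast k.factorial_pos
  let w : SimpleGraph (Fin k ⊕ Bool) → ℝ := fun _ => 1
  have hw : ∀ G, 0 ≤ w G := fun _ => zero_le_one
  have h1 : bN ⊤ k = (∑ᶠ G : {G : SimpleGraph (Fin k ⊕ Bool) // BB G}, w G.1) /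
      k.factorial := by
    unfold bN es2
    congr 1
    rw [finsum_const', mul_one]
    congr 1
    exact Nat.card_congr (Equiv.subtypeEquiv (Equiv.refl _) fun G =>
      ⟨fun h => h.1, fun h => ⟨h, coreLt_top _⟩⟩)
  rw [h1, le_div_iff₀ hk0]
  refine le_trans ?_ (pole_sum_ge k w hw)
  unfold Hc
  rw [Finset.sum_mul]
  refine Finset.sum_le_sum fun v hv => ?_
  rw [Finset.sum_mul]
  refine Finset.sum_le_sum fun e _ => ?_
  have hv' : v ≤ k := by
    have := Finset.mem_range.1 hv
    omega
  rw [if_pos (ENat.natCast_lt_top _)]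
  have h2 : ∀ i : IXP k v e, ((k - v).factorial : ℝ) *
      PowerSeries.coeff (k - v) (prd (rE ⊤) (dN ⊤) v e) ≤ TT w i := by
    intro i
    rw [← ew1_one, ← ew2_one, ← prS_const i]
    refine TT_ge i w (fun _ => iw1_one) (fun _ => iw2_one)
      (fun x _ => ?_) (fun x _ => ?_) ?_
    · rw [ew1_one, rE_zero]
    · rw [ew2_one, dN_zero]
    · intro E f s hCE hi hfit hcon hix hpar
      unfold prW
      rw [Finset.prod_const_one, Finset.prod_const_one, mul_one]
  calc hN v e * cvL (List.replicate v (rN ⊤) ++ List.replicate e (dN ⊤)) k *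
          k.factorial
      = (k.factorial : ℝ) * (hN v e * PowerSeries.coeff (k - v) (prd (rE ⊤) (dN ⊤) v e)) := by
          have h3 : rN ⊤ = sh (rE ⊤) := rfl
          rw [h3, cvL_shift, if_pos hv']
          ring
    _ = ∑ᶠ _ : IXP k v e, ((k - v).factorial : ℝ) *
          PowerSeries.coeff (k - v) (prd (rE ⊤) (dN ⊤) v e) := by
          rw [finsum_const', RigG_all hv']
    _ ≤ ∑ᶠ i : IXP k v e, TT w i := finsum_le h2

end Dia
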