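import Pool.Agent.Dia.RotDefs
import Pool.Agent.PGr.PlanarPl
import Pool.Agent.PGr.SubMap

/-!
# Module RotA: a planar rotation system of a 3-connected graph is a rigid map

`K` is 3-connected (`ThreeConn`), `s` a rotation system with `s.SameCycle d d' ↔ d.fst = d'.fst`.

(1) every vertex has degree at least 3 (`deg3`): otherwise its neighbours form a set `S` with `≤ 2` elements; the
complement of `S` contains the vertex and another one (`Nat.card V ≥ 4`), is connected, so the vertex has a
neighbour outside `S`: contradiction.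

(2) For a closed set of darts `A` (closed under `dsymm K`) let `Sh A` be the set of vertices `x` such that there are
darts `d ∈ A`, `d' ∉ A` with `d.fst = d'.fst = x`.  At each such vertex the cycle of `s` contains at least two
boundary corners (`t ∈ A`, `s t ∉ A` and `t ∉ A`, `s t ∈ A`: `PGr/SubMap.lean: exit`), so `cut s A ≥ 2 |Sh A|`.

(3) If `A` is closed, `4 ≤ A.card` and `A.card + 4 ≤ card T` then `|Sh A| ≥ 3`: let `|Sh A| ≤ 2`.  `K - Sh A` is
connected and not empty.  Every vertex outside `Sh A` has all its darts in `A` or all outside `A`, and it has a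
dart.  Adjacent vertices outside `Sh A` have the same type, so all have the same type.  If all have their
darts outside `A` then the darts of `A` connect two elements of `Sh A`: at most 2 darts.  Otherwise the same for the
complement of `A`.

(4) `NS`: a closed nonempty `A ≠ univ`: `A.card` and `card T` are even (fixed point free involution).  If both `A` and
its complement have at least 4 elements then `cut ≥ 6`.  If `A = {d, d.symm}` then both ends of `d` are in `Sh A`
by (1), so `cut ≥ 4`; similarly if the complement is one edge.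
`8 ≤ card T`: four vertices with degree `≥ 3`.
-/

set_option linter.unusedSectionVars false

namespace Dia
open PGr Equiv Finset

variable {V : Type} [Fintype V] [DecidableEq V]

theorem deg3 {K : SimpleGraph V} (hK : ThreeConn K) (x : V) :
    ∃ a b c : V, K.Adj x a ∧ K.Adj x b ∧ K.Adj x c ∧ a ≠ b ∧ a ≠ c ∧ b ≠ c := by
  classical
  have hmem : ∀ y, y ∈ (univ.filter fun y => K.Adj x y) ↔ K.Adj x y := fun y => by simp
  by_cases hc : (univ.filter fun y => K.Adj x y).card ≤ 2
  · exfalso
    have hcon := hK.2 _ hc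
    have hV : 4 ≤ Fintype.card V := by rw [← Nat.card_eq_fintype_card]; exact hK.1
    have hx : x ∉ (univ.filter fun y => K.Adj x y) := by
      rw [hmem]; exact K.loopless.irrefl x
    obtain ⟨y, hy⟩ : ∃ y, y ∉ insert x (univ.filter fun y => K.Adj x y) := by
      by_contra hno
      push Not at hno
      have h1 : insert x (univ.filter fun y => K.Adj x y) = univ := by
        rw [eq_univ_iff_forall]; exact hno
      have h2 := card_insert_le x (univ.filter fun y => K.Adj x y)
      rw [h1, card_univ] at h2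
      omega
    rw [mem_insert, not_or] at hy
    have hx' : x ∈ ((↑(univ.filter fun y => K.Adj x y) : Set V))ᶜ := by
      simp
    have hy' : y ∈ ((↑(univ.filter fun y => K.Adj x y) : Set V))ᶜ := by
      simpa using hy.2
    obtain ⟨w⟩ := hcon.preconnected ⟨x, hx'⟩ ⟨y, hy'⟩
    cases w with
    | nil => exact hy.1 rfl
    | @cons _ v _ hadj _ =>
      have h3 : K.Adj x v.1 := hadj
      have h4 := v.2
      rw [Set.mem_compl_iff, mem_coe, hmem] at h4
      exact h4 h3
  · push Not at hc
    obtain ⟨a, b, c, ha, hb, hc', hab, hac, hbc⟩ := Finset.two_lt_card_iff.1 hc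
    exact ⟨a, b, c, (hmem a).1 ha, (hmem b).1 hb, (hmem c).1 hc', hab, hac, hbc⟩

theorem two_le_cut {T : Type} [Fintype T] [DecidableEq T] {s : Perm T} {X : Type} [DecidableEq X]
    (f : T → X) (hf : ∀ t t', s.SameCycle t t' ↔ f t = f t') (A : Finset T) (S : Finset X)
    (hS : ∀ x ∈ S, (∃ t ∈ A, f t = x) ∧ ∃ t, t ∉ A ∧ f t = x) : 2 * S.card ≤ cut s A := by
  rw [cut_eq_two_mul]
  refine Nat.mul_le_mul_left 2 ?_
  have hsub : S ⊆ (univ.filter fun t => t ∈ A ∧ s t ∉ A).image f := by
    intro x hx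
    obtain ⟨⟨t, ht, htx⟩, t', ht', htx'⟩ := hS x hx
    obtain ⟨k, hk1, hk2⟩ := SubMap.exit s ht ht' ((hf t t').2 (htx.trans htx'.symm))
    refine mem_image.2 ⟨(s ^ k) t, ?_, ?_⟩
    · simp only [mem_filter, mem_univ, true_and]
      exact ⟨hk1 k le_rfl, hk2⟩
    · rw [← htx]
      exact ((hf t ((s ^ k) t)).1 ⟨k, by rw [zpow_natCast]⟩).symm
  exact (card_le_card hsub).trans card_image_le

private theorem RotA_two {K : SimpleGraph V} (S : Finset V) (hS : S.card ≤ 2) (B : Finset K.Dart)
    (hB : ∀ d ∈ B, d.fst ∈ S ∧ d.snd ∈ S) : B.card ≤ 2 := by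
  classical
  have h1 : B.card ≤ S.offDiag.card := by
    refine card_le_card_of_injOn (fun d => d.toProd) ?_ ?_
    · intro d hd
      rw [mem_coe, mem_offDiag]
      exact ⟨(hB d hd).1, (hB d hd).2, d.fst_ne_snd⟩
    · intro d _ d' _ hdd
      exact SimpleGraph.Dart.ext _ _ hdd
  rw [offDiag_card] at h1
  have h2 : S.card * S.card - S.card ≤ 2 := by
    interval_cases S.card <;> omega
  exact h1.trans h2

theorem rot_three {K : SimpleGraph V} (hK : ThreeConn K) {A : Finset K.Dart}
    (hA : Cl (dsymm K) A) (h4 : 4 ≤ A.card) (h4' : A.card + 4 ≤ Fintype.card K.Dart) :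
    ∃ S : Finset V, 3 ≤ S.card ∧ ∀ x ∈ S, (∃ d ∈ A, d.fst = x) ∧ ∃ d, d ∉ A ∧ d.fst = x := by
  classical
  let S : Finset V := univ.filter fun x => (∃ d ∈ A, d.fst = x) ∧ ∃ d, d ∉ A ∧ d.fst = x
  have hS : ∀ x, x ∈ S ↔ (∃ d ∈ A, d.fst = x) ∧ ∃ d, d ∉ A ∧ d.fst = x := fun x => by
    simp only [S, mem_filter, mem_univ, true_and]
  refine ⟨S, ?_, fun x hx => (hS x).1 hx⟩
  by_contra hlt
  have hc : S.card ≤ 2 := by omega
  have hcon := hK.2 S hc
  have hsym : ∀ d : K.Dart, d.symm ∈ A ↔ d ∈ A := fun d => hA d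
  -- the type is constant along edges outside `S`
  have hstep : ∀ u v : V, u ∉ S → K.Adj u v → (∃ d ∈ A, d.fst = u) → ∃ d ∈ A, d.fst = v := by
    intro u v hu huv hP
    have h1 : (⟨(u, v), huv⟩ : K.Dart) ∈ A := by
      by_contra h2
      exact hu ((hS u).2 ⟨hP, ⟨(u, v), huv⟩, h2, rfl⟩)
    exact ⟨(⟨(u, v), huv⟩ : K.Dart).symm, (hsym _).2 h1, rfl⟩
  have hreach : ∀ u v : ((↑S : Set V)ᶜ : Set V), (K.induce (↑S : Set V)ᶜ).Reachable u v →
      (∃ d ∈ A, d.fst = u.1) → ∃ d ∈ A, d.fst = v.1 := by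
    rintro u v ⟨w⟩
    induction w with
    | nil => exact id
    | @cons u v w hadj _ ih =>
      intro h
      exact ih (hstep u.1 v.1 (fun h0 => u.2 (mem_coe.2 h0)) hadj h)
  by_cases hP : ∃ z, z ∉ S ∧ ∃ d ∈ A, d.fst = z
  · obtain ⟨z, hz, hPz⟩ := hP
    have hall : ∀ v, v ∉ S → ∃ d ∈ A, d.fst = v := by
      intro v hv
      exact hreach ⟨z, fun h0 => hz (mem_coe.1 h0)⟩ ⟨v, fun h0 => hv (mem_coe.1 h0)⟩
        (hcon.preconnected _ _) hPz
    have hfst : ∀ d, d ∉ A → d.fst ∈ S := by
      intro d hd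
      by_contra h0
      exact h0 ((hS _).2 ⟨hall _ h0, d, hd, rfl⟩)
    have h1 : (Aᶜ).card ≤ 2 := by
      refine RotA_two S hc _ fun d hd => ?_
      rw [mem_compl] at hd
      refine ⟨hfst d hd, ?_⟩
      have h2 : d.symm ∉ A := fun h3 => hd ((hsym d).1 h3)
      exact hfst d.symm h2
    rw [card_compl] at h1
    omega
  · have hfst : ∀ d ∈ A, d.fst ∈ S := by
      intro d hd
      by_contra h0
      exact hP ⟨_, h0, d, hd, rfl⟩
    have h1 : A.card ≤ 2 := by
      refine RotA_two S hc _ fun d hd => ⟨hfst d hd, ?_⟩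
      exact hfst d.symm ((hsym d).2 hd)
    omega

private theorem RotA_small {K : SimpleGraph V} (hK : ThreeConn K) {A : Finset K.Dart}
    (hA : Cl (dsymm K) A) (h3 : A.card ≤ 3) (d : K.Dart) : ∃ d', d' ∉ A ∧ d'.fst = d.fst := by
  classical
  obtain ⟨a, b, c, ha, hb, hc, hab, hac, hbc⟩ := deg3 hK d.fst
  by_contra hno
  push Not at hno
  have hall : ∀ d' : K.Dart, d'.fst = d.fst → d' ∈ A := by
    intro d' hd'
    by_contra h0
    exact hno d' h0 hd'
  have hsym : ∀ d : K.Dart, d ∈ A → d.symm ∈ A := fun d hd => (hA d).2 hd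
  let da : K.Dart := ⟨(d.fst, a), ha⟩
  let db : K.Dart := ⟨(d.fst, b), hb⟩
  let dc : K.Dart := ⟨(d.fst, c), hc⟩
  have n1 : da ≠ db := fun h => hab (congrArg (fun e : K.Dart => e.snd) h)
  have n2 : da ≠ dc := fun h => hac (congrArg (fun e : K.Dart => e.snd) h)
  have n3 : db ≠ dc := fun h => hbc (congrArg (fun e : K.Dart => e.snd) h)
  have n4 : da ≠ da.symm := fun h => ha.ne (congrArg (fun e : K.Dart => e.fst) h)
  have n5 : db ≠ da.symm := fun h => ha.ne (congrArg (fun e : K.Dart => e.fst) h)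
  have n6 : dc ≠ da.symm := fun h => ha.ne (congrArg (fun e : K.Dart => e.fst) h)
  have hsub : ({da, db, dc, da.symm} : Finset K.Dart) ⊆ A := by
    intro e he
    simp only [mem_insert, mem_singleton] at he
    rcases he with rfl | rfl | rfl | rfl
    · exact hall _ rfl
    · exact hall _ rfl
    · exact hall _ rfl
    · exact hsym _ (hall _ rfl)
  have hcard : ({da, db, dc, da.symm} : Finset K.Dart).card = 4 := by
    rw [card_insert_of_notMem, card_insert_of_notMem, card_insert_of_notMem, card_singleton]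
    · rw [mem_singleton]; exact n6
    · rw [mem_insert, mem_singleton]; push Not; exact ⟨n3, n5⟩
    · rw [mem_insert, mem_insert, mem_singleton]; push Not; exact ⟨n1, n2, n4⟩
  have := card_le_card hsub
  omega

private theorem RotA_cut_small {K : SimpleGraph V} (hK : ThreeConn K) {s : Perm K.Dart}
    (hs : IsRot K s) {A : Finset K.Dart}
    (hA : Cl (dsymm K) A) (h3 : A.card ≤ 3) (hne : A.Nonempty) : 4 ≤ cut s A := by
  obtain ⟨d, hd⟩ := hne
  have h1 := two_le_cut (s := s) (fun d : K.Dart => d.fst) hs.1 A {d.fst, d.snd} (by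
    intro x hx
    rw [mem_insert, mem_singleton] at hx
    rcases hx with rfl | rfl
    · exact ⟨⟨d, hd, rfl⟩, RotA_small hK hA h3 d⟩
    · exact ⟨⟨d.symm, (hA d).2 hd, rfl⟩, RotA_small hK hA h3 d.symm⟩)
  rw [card_pair d.fst_ne_snd] at h1
  exact h1

private theorem RotA_big {K : SimpleGraph V} (hK : ThreeConn K) : 8 ≤ Fintype.card K.Dart := by
  classical
  have h := K.dart_card_eq_sum_degrees
  have h1 : ∀ v, 3 ≤ K.degree v := by
    intro v
    obtain ⟨a, b, c, ha, hb, hc, hab, hac, hbc⟩ := deg3 hK v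
    rw [← K.card_neighborFinset_eq_degree]
    have h2 : 2 < (K.neighborFinset v).card := by
      rw [Finset.two_lt_card_iff]
      exact ⟨a, b, c, (K.mem_neighborFinset v a).2 ha, (K.mem_neighborFinset v b).2 hb,
        (K.mem_neighborFinset v c).2 hc, hab, hac, hbc⟩
    exact h2
  have hV : 4 ≤ Fintype.card V := by rw [← Nat.card_eq_fintype_card]; exact hK.1
  have h2 : Fintype.card V * 3 ≤ ∑ v, K.degree v := by
    have := Finset.card_nsmul_le_sum univ (fun v => K.degree v) 3 (fun v _ => h1 v)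
    rw [card_univ, smul_eq_mul] at this
    exact this
  rw [← Nat.card_eq_fintype_card] at h ⊢
  omega

theorem rot_good {K : SimpleGraph V} (hK : ThreeConn K) {s : Perm K.Dart} (hs : IsRot K s) :
    Good (dsymm K) s ∧ Rg3 (dsymm K) s := by
  have hbig := RotA_big hK
  have hmid : ∀ A : Finset K.Dart, Cl (dsymm K) A → 4 ≤ A.card →
      A.card + 4 ≤ Fintype.card K.Dart → 4 < cut s A := by
    intro A hA h4 h4'
    obtain ⟨S, hS3, hS⟩ := rot_three hK hA h4 h4'
    have := two_le_cut (s := s) (fun d : K.Dart => d.fst) hs.1 A S hS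
    omega
  refine ⟨⟨PlanarPl_inv K, PlanarPl_fpf K, ?_, hs.2, by omega⟩, hbig, hmid⟩
  intro A hA hne hu
  by_cases h1 : A.card ≤ 3
  · exact RotA_cut_small hK hs hA h1 hne
  · by_cases h2 : (Aᶜ).card ≤ 3
    · rw [← cut_compl]
      refine RotA_cut_small hK hs hA.compl h2 ?_
      rw [nonempty_iff_ne_empty]
      intro h0
      exact hu (by rw [← compl_compl A, h0, compl_empty])
    · have h3 : (Aᶜ).card = Fintype.card K.Dart - A.card := card_compl A
      have h4 : A.card ≤ Fintype.card K.Dart := card_le_univ A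
      exact (hmid A hA (by omega) (by omega)).le

end Dia
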