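import Pool.Agent.Dia.RotDefs
import Pool.Agent.PGr.CutIso

/-!
# Module RotB: the graph of a rigid map is 3-connected

`(a, s)` good and rigid on `T`.  No loops: `Good.noLoop`; no multiple edges: `Rg3.simple`; so the map
`T → (vG a s).Dart`, `t ↦ (vx t, vx (a t))` is a bijection (`dartE`), compatible with `a` and `dsymm`.

`rig_deg`: every vertex has at least three darts `t`, `s t`, `s (s t)` (`Good.s_ne`, `Rg3.deg3`), whose other ends are
different (`Rg3.simple`) and different from the vertex (`noLoop`): at least 4 vertices.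

`rig_three`: let `S` be a set of at most two vertices, and `C` the set of vertices outside `S` which can be
reached from a vertex `x ∉ S` in `vG - S`; suppose that there is `w ∉ C ∪ S`.  `A := {t | vx t ∈ C ∨ vx (a t) ∈ C}`
is closed under `a`.  The darts at `x` are in `A`, with their `a`-images at least 6 elements (three darts at `x`,
their images are at other vertices); the darts at `w` and their images are not in `A` (a dart from `w` to `C` would
give `w ∈ C`): at least 6.  A vertex shared by `A` and its complement (`ShC`) is in `S`: if it is in `C` all its darts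
are in `A`; if it is outside `C ∪ S` none of its darts is in `A`.  This contradicts `Rg3.three_shared`.
The complement of `S` is not empty (4 vertices).  So `ThreeConn`.

`rig_planar`: transport `s` by `dartE` and use `pl_planar`.
`rig_edges`: `card T = 2 * edges` (`SimpleGraph.dart_card_eq_twice_card_edges`).
-/

set_option linter.unusedSectionVars false

namespace Dia
open PGr Equiv Finset

variable {T : Type} [Fintype T] [DecidableEq T] {a s : Perm T}

theorem vG_adj (h : Good a s) (x y : Vx s) :
    (vG a s).Adj x y ↔ ∃ t, vx s t = x ∧ vx s (a t) = y := by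
  unfold vG
  rw [SimpleGraph.fromRel_adj]
  constructor
  · rintro ⟨-, h1 | ⟨t, h1, h2⟩⟩
    · exact h1
    · exact ⟨a t, h2, by rw [h.inv]; exact h1⟩
  · rintro ⟨t, h1, h2⟩
    refine ⟨?_, Or.inl ⟨t, h1, h2⟩⟩
    rintro rfl
    exact h.noLoop t (Quotient.exact (h1.trans h2.symm))

/-- the darts of the graph of a rigid map -/
noncomputable def dartE (h : Good a s) (_hR : Rg3 a s) (t : T) : (vG a s).Dart :=
  ⟨(vx s t, vx s (a t)), (vG_adj h _ _).2 ⟨t, rfl, rfl⟩⟩

theorem dartE_bij (h : Good a s) (hR : Rg3 a s) : Function.Bijective (dartE h hR) := by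
  constructor
  · intro t t' htt
    have h1 : vx s t = vx s t' := congrArg (fun d : (vG a s).Dart => d.fst) htt
    have h2 : vx s (a t) = vx s (a t') := congrArg (fun d : (vG a s).Dart => d.snd) htt
    exact Rg3.simple h hR (Quotient.exact h1) (Quotient.exact h2)
  · intro d
    obtain ⟨t, h1, h2⟩ := (vG_adj h _ _).1 d.adj
    refine ⟨t, SimpleGraph.Dart.ext _ _ (Prod.ext h1 h2)⟩

theorem dartE_a (h : Good a s) (hR : Rg3 a s) (t : T) :
    dartE h hR (a t) = (dartE h hR t).symm := by
  refine SimpleGraph.Dart.ext _ _ (Prod.ext rfl ?_)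
  change vx s (a (a t)) = vx s t
  rw [h.inv]

private theorem RotB_vx_s (t : T) : vx s (s t) = vx s t :=
  Quotient.sound (show s.SameCycle (s t) t from
    Perm.sameCycle_apply_left.2 (Perm.SameCycle.refl s t))

private theorem RotB_four (h : Good a s) (hR : Rg3 a s) (t : T) :
    ({t, s t, s (s t), a t} : Finset T).card = 4 := by
  have n1 : t ≠ s t := (h.s_ne t).symm
  have n2 : t ≠ s (s t) := (Rg3.deg3 h hR t).symm
  have n3 : s t ≠ s (s t) := (h.s_ne (s t)).symm
  have hl : ∀ u, vx s u = vx s t → u ≠ a t := by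
    intro u hu h0
    rw [h0] at hu
    exact h.noLoop t (Quotient.exact hu.symm)
  have n4 := hl t rfl
  have n5 := hl (s t) (RotB_vx_s t)
  have n6 := hl (s (s t)) ((RotB_vx_s _).trans (RotB_vx_s t))
  rw [card_insert_of_notMem, card_insert_of_notMem, card_insert_of_notMem, card_singleton]
  · rw [mem_singleton]; exact n6
  · rw [mem_insert, mem_singleton]; push Not; exact ⟨n3, n5⟩
  · rw [mem_insert, mem_insert, mem_singleton]; push Not; exact ⟨n1, n2, n4⟩

private theorem RotB_card (h : Good a s) (hR : Rg3 a s) : 4 ≤ Nat.card (Vx s) := by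
  classical
  have : Finite (Vx s) := Quotient.finite _
  have : Fintype (Vx s) := Fintype.ofFinite _
  have hc : 0 < Fintype.card T := by have := h.big; omega
  obtain ⟨t⟩ := Fintype.card_pos_iff.mp hc
  have e1 := RotB_vx_s (s := s) t
  have e2 := (RotB_vx_s (s := s) (s t)).trans e1
  have hl : ∀ u, vx s u = vx s t → vx s t ≠ vx s (a u) := by
    intro u hu h0
    rw [← hu] at h0
    exact h.noLoop u (Quotient.exact h0)
  have hd : ∀ u v, vx s u = vx s t → vx s v = vx s t → u ≠ v → vx s (a u) ≠ vx s (a v) := by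
    intro u v hu hv huv h0
    exact huv (Rg3.simple h hR (Quotient.exact (hu.trans hv.symm)) (Quotient.exact h0))
  have n1 : t ≠ s t := (h.s_ne t).symm
  have n2 : t ≠ s (s t) := (Rg3.deg3 h hR t).symm
  have n3 : s t ≠ s (s t) := (h.s_ne (s t)).symm
  have hcard : ({vx s t, vx s (a t), vx s (a (s t)), vx s (a (s (s t)))} : Finset (Vx s)).card
      = 4 := by
    rw [card_insert_of_notMem, card_insert_of_notMem, card_insert_of_notMem, card_singleton]
    · rw [mem_singleton]; exact hd _ _ e1 e2 n3
    · rw [mem_insert, mem_singleton]; push Not; exact ⟨hd _ _ rfl e1 n1, hd _ _ rfl e2 n2⟩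
    · rw [mem_insert, mem_insert, mem_singleton]; push Not
      exact ⟨hl _ rfl, hl _ e1, hl _ e2⟩
  rw [Nat.card_eq_fintype_card, ← hcard]
  exact card_le_univ _

private theorem RotB_pre (h : Good a s) (hR : Rg3 a s) (S : Finset (Vx s)) (hS : S.card ≤ 2)
    (x w : ((↑S : Set (Vx s))ᶜ : Set (Vx s))) :
    ((vG a s).induce (↑S : Set (Vx s))ᶜ).Reachable x w := by
  classical
  by_contra hxw
  let C : Set (Vx s) := {v | ∃ hv : v ∈ (↑S : Set (Vx s))ᶜ,
    ((vG a s).induce (↑S : Set (Vx s))ᶜ).Reachable x ⟨v, hv⟩}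
  have hCS : ∀ v, v ∈ C → v ∉ S := fun v hv h0 => hv.1 (mem_coe.2 h0)
  have hxC : x.1 ∈ C := ⟨x.2, SimpleGraph.Reachable.refl _⟩
  have hwC : w.1 ∉ C := fun h0 => hxw h0.2
  have hstep : ∀ t, vx s t ∈ C → vx s (a t) ∉ S → vx s (a t) ∈ C := by
    intro t ht hS'
    obtain ⟨hv, hr⟩ := ht
    have hv' : vx s (a t) ∈ (↑S : Set (Vx s))ᶜ := fun h0 => hS' (mem_coe.1 h0)
    refine ⟨hv', hr.trans (SimpleGraph.Adj.reachable ?_)⟩
    change (vG a s).Adj (vx s t) (vx s (a t))
    exact (vG_adj h _ _).2 ⟨t, rfl, rfl⟩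
  have hstep' : ∀ t, vx s (a t) ∈ C → vx s t ∉ S → vx s t ∈ C := by
    intro t ht hS'
    have := hstep (a t) ht (by rw [h.inv]; exact hS')
    rwa [h.inv] at this
  let A : Finset T := univ.filter fun t => vx s t ∈ C ∨ vx s (a t) ∈ C
  have hA : ∀ t, t ∈ A ↔ vx s t ∈ C ∨ vx s (a t) ∈ C := fun t => by
    simp only [A, mem_filter, mem_univ, true_and]
  have hcl : Cl a A := by
    intro t
    rw [hA, hA, h.inv]
    exact or_comm
  obtain ⟨tx, htx⟩ := Quotient.exists_rep x.1
  obtain ⟨tw, htw⟩ := Quotient.exists_rep w.1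
  have htx' : vx s tx = x.1 := htx
  have htw' : vx s tw = w.1 := htw
  have hinA : ∀ u, vx s u = x.1 → u ∈ A := fun u hu => (hA u).2 (Or.inl (hu ▸ hxC))
  have houtA : ∀ u, vx s u = w.1 → u ∉ A := by
    intro u hu h0
    rcases (hA u).1 h0 with h1 | h1
    · exact hwC (hu ▸ h1)
    · have h2 : vx s u ∉ S := by
        rw [hu]; exact fun h3 => w.2 (mem_coe.2 h3)
      exact hwC (hu ▸ hstep' u h1 h2)
  have h4 : 4 ≤ A.card := by
    rw [← RotB_four h hR tx]
    refine card_le_card ?_
    intro e he
    simp only [mem_insert, mem_singleton] at he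
    rcases he with rfl | rfl | rfl | rfl
    · exact hinA _ htx'
    · exact hinA _ ((RotB_vx_s _).trans htx')
    · exact hinA _ (((RotB_vx_s _).trans (RotB_vx_s _)).trans htx')
    · exact (hcl _).2 (hinA _ htx')
  have h4' : 4 ≤ (Aᶜ).card := by
    rw [← RotB_four h hR tw]
    refine card_le_card ?_
    intro e he
    simp only [mem_insert, mem_singleton] at he
    rw [mem_compl]
    rcases he with rfl | rfl | rfl | rfl
    · exact houtA _ htw'
    · exact houtA _ ((RotB_vx_s _).trans htw')
    · exact houtA _ (((RotB_vx_s _).trans (RotB_vx_s _)).trans htw')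
    · exact fun h0 => houtA _ htw' ((hcl _).1 h0)
  have h5 : (Aᶜ).card = Fintype.card T - A.card := card_compl A
  have h6 : A.card ≤ Fintype.card T := card_le_univ A
  have hsh : ∀ t, ShC s A t → vx s t ∈ S := by
    rintro t ⟨⟨u, hu, htu⟩, v, hv, htv⟩
    have eu : vx s t = vx s u := Quotient.sound htu
    have ev : vx s t = vx s v := Quotient.sound htv
    by_contra hns
    have hnC : vx s t ∉ C := fun h0 => hv ((hA v).2 (Or.inl (ev ▸ h0)))
    rcases (hA u).1 hu with h1 | h1
    · exact hnC (eu ▸ h1)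
    · exact hnC (eu ▸ hstep' u h1 (eu ▸ hns))
  obtain ⟨t, t', t'', s1, s2, s3, d1, d2, d3⟩ := Rg3.three_shared h hR hcl h4 (by omega)
  have hcard : ({vx s t, vx s t', vx s t''} : Finset (Vx s)).card = 3 := by
    rw [card_insert_of_notMem, card_insert_of_notMem, card_singleton]
    · rw [mem_singleton]; exact fun h0 => d3 (Quotient.exact h0)
    · rw [mem_insert, mem_singleton]; push Not
      exact ⟨fun h0 => d1 (Quotient.exact h0), fun h0 => d2 (Quotient.exact h0)⟩
  have hsub : ({vx s t, vx s t', vx s t''} : Finset (Vx s)) ⊆ S := by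
    intro e he
    simp only [mem_insert, mem_singleton] at he
    rcases he with rfl | rfl | rfl
    · exact hsh _ s1
    · exact hsh _ s2
    · exact hsh _ s3
  have := card_le_card hsub
  omega

theorem rig_three (h : Good a s) (hR : Rg3 a s) : ThreeConn (vG a s) := by
  classical
  have h4 := RotB_card h hR
  refine ⟨h4, fun S hS => ?_⟩
  have hne : Nonempty ((↑S : Set (Vx s))ᶜ : Set (Vx s)) := by
    by_contra hno
    rw [not_nonempty_iff] at hno
    have h1 : ∀ v : Vx s, v ∈ S := by
      intro v
      by_contra h0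
      exact hno.elim ⟨v, fun h2 => h0 (mem_coe.1 h2)⟩
    have : Finite (Vx s) := Quotient.finite _
    have : Fintype (Vx s) := Fintype.ofFinite _
    rw [Nat.card_eq_fintype_card, ← card_univ] at h4
    have h2 : (univ : Finset (Vx s)) ⊆ S := fun v _ => h1 v
    have := card_le_card h2
    omega
  exact { preconnected := fun x w => RotB_pre h hR S hS x w, nonempty := hne }

theorem rig_planar (h : Good a s) (hR : Rg3 a s) : IsPlanar (vG a s) := by
  classical
  have : Finite (Vx s) := Quotient.finite _
  have : Fintype (Vx s) := Fintype.ofFinite _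
  let e : T ≃ (vG a s).Dart := Equiv.ofBijective _ (dartE_bij h hR)
  let s' : Perm (vG a s).Dart := (e.symm.trans s).trans e
  have hs' : ∀ t, e (s t) = s' (e t) := by
    intro t
    change _ = e (s (e.symm (e t)))
    rw [Equiv.symm_apply_apply]
  have ha' : ∀ t, e (a t) = dsymm (vG a s) (e t) := fun t => dartE_a h hR t
  refine pl_planar ⟨s', ?_, Pl_iso e ha' hs' h.pl⟩
  intro d d'
  obtain ⟨t, rfl⟩ := e.surjective d
  obtain ⟨t', rfl⟩ := e.surjective d'
  have h1 : (e t).fst = vx s t := rfl
  have h2 : (e t').fst = vx s t' := rfl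
  rw [h1, h2]
  constructor
  · rintro ⟨i, hi⟩
    rw [← CutIso.zpow e hs'] at hi
    exact Quotient.sound ⟨i, e.injective hi⟩
  · intro h3
    obtain ⟨i, hi⟩ : s.SameCycle t t' := Quotient.exact h3
    exact ⟨i, by rw [← CutIso.zpow e hs', hi]⟩

theorem rig_edges (h : Good a s) (hR : Rg3 a s) :
    Nat.card (vG a s).edgeSet = Fintype.card T / 2 := by
  classical
  have : Finite (Vx s) := Quotient.finite _
  have : Fintype (Vx s) := Fintype.ofFinite _
  have h1 := (vG a s).dart_card_eq_twice_card_edges
  have h2 : Nat.card (vG a s).Dart = Nat.card T :=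
    (Nat.card_congr (Equiv.ofBijective _ (dartE_bij h hR))).symm
  rw [← Nat.card_eq_fintype_card, h2, Nat.card_eq_fintype_card] at h1
  have h3 : Nat.card (vG a s).edgeSet = (vG a s).edgeFinset.card := by
    rw [Nat.card_eq_fintype_card, SimpleGraph.edgeFinset_card]
  rw [h3, h1]
  omega

end Dia
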