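import Pool.Agent.Dia.RotDefs
import Pool.Agent.PGr.PlanarPl

/-!
# Module RotC: automorphisms; one or two rotation systems

`map_auto`: `e` commutes with `a` and `s` and fixes `r`: the set of fixed points is closed under `a` and `s`, not empty,
so it is everything: a closed set (under `a`) which is closed under `s` has `cut s A = 0`, so it is empty or
everything by `NS`.

`rot_two`: `K` 3-connected and planar.  There is a planar rotation system `s` (`planar_pl`); by `whitney` every
planar rotation system is `s` or `s⁻¹` (`Good`, `Rg3` are hypotheses here, given by module RotA).  So the number of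
planar rotation systems is 1 or 2 (use `Set.ncard` or `Nat.card` of a nonempty subset of `{s, s⁻¹}`).
-/

set_option linter.unusedSectionVars false

namespace Dia
open PGr Equiv Finset

theorem map_auto {T : Type} [Fintype T] [DecidableEq T] {a s : Perm T} (h : Good a s)
    (e : Perm T) (ha : ∀ t, e (a t) = a (e t)) (hs : ∀ t, e (s t) = s (e t)) (r : T)
    (hr : e r = r) : e = 1 := by
  by_contra hne
  have hmem : ∀ t, t ∈ (univ.filter fun t => e t = t) ↔ e t = t := fun t => by simp
  have hcl : Cl a (univ.filter fun t => e t = t) := by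
    intro t
    rw [hmem, hmem, ha, a.injective.eq_iff]
  have hu : (univ.filter fun t => e t = t) ≠ univ := by
    intro h1
    apply hne
    ext t
    have h2 : t ∈ (univ.filter fun t => e t = t) := by rw [h1]; exact mem_univ _
    rw [hmem] at h2
    rw [h2]
    rfl
  have h4 := h.ns _ hcl ⟨r, (hmem r).2 hr⟩ hu
  have h0 : cut s (univ.filter fun t => e t = t) = 0 := by
    unfold cut bd
    rw [card_eq_zero, filter_eq_empty_iff]
    intro t _
    rw [not_not, hmem, hmem, hs, s.injective.eq_iff]
  omega

theorem rot_two {V : Type} [Fintype V] [DecidableEq V] {K : SimpleGraph V}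
    (hp : IsPlanar K) (hg : ∀ s : Perm K.Dart, IsRot K s → Good (dsymm K) s ∧ Rg3 (dsymm K) s) :
    1 ≤ Nat.card {s : Perm K.Dart // IsRot K s} ∧
      Nat.card {s : Perm K.Dart // IsRot K s} ≤ 2 := by
  obtain ⟨s, hs, hpl⟩ := planar_pl hp
  have hrot : IsRot K s := ⟨hs, hpl⟩
  obtain ⟨hgood, hrg⟩ := hg s hrot
  have : Finite {s : Perm K.Dart // IsRot K s} := Subtype.finite
  constructor
  · exact Nat.one_le_iff_ne_zero.2 (Nat.card_ne_zero.2 ⟨⟨⟨s, hrot⟩⟩, inferInstance⟩)
  · have hsub : {s' : Perm K.Dart | IsRot K s'} ⊆ ({s, s⁻¹} : Set (Perm K.Dart)) := by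
      intro s' hs'
      have h1 : ∀ t t', s'.SameCycle t t' ↔ s.SameCycle t t' := fun t t' =>
        (hs'.1 t t').trans (hs t t').symm
      rcases whitney hgood hrg h1 hs'.2 with h2 | h2
      · exact Or.inl h2
      · exact Or.inr h2
    have h2 : Nat.card {s : Perm K.Dart // IsRot K s} = Set.ncard {s' : Perm K.Dart | IsRot K s'} :=
      rfl
    rw [h2]
    refine (Set.ncard_le_ncard hsub (Set.toFinite _)).trans ?_
    refine (Set.ncard_insert_le _ _).trans ?_
    rw [Set.ncard_singleton]

end Dia
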