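import Pool.Agent.Dia.RotA
import Pool.Agent.Dia.RotB
import Pool.Agent.Dia.RotC
import Pool.Agent.PGr.Reps
import Pool.Agent.PGr.CutIso
import Pool.Agent.Dia.PlanA

/-!
# Module RotD: counting rotation systems by rooted maps

Let `Ob P v e` be the set of pairs `(K, s)`: `K` a 3-connected planar graph on `Fin v ⊕ Bool` in which the poles are
adjacent, with `e + 1` edges and `P`, and `s` a planar rotation system of `K`.
`rot_count`: `card (Ob P v e) = v! * gP P v e`.
Proof.  For a rigid class `c` with `nV = v + 2` and `e` nonroot edges let `M = c.rep.1` and let `Lab c` be the set of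
bijections `l : Vx M.s ≃ Fin v ⊕ Bool` with `l (vx (inr b)) = inr b` for `b = false, true` (the two vertices are
different: `Good.noLoop`); their number is `v!`: restriction to the complement of the two vertices is a
bijection to the bijections between two sets with `v` elements (`Fintype.card_equiv`; for instance
by an equivalence `{l // ..} ≃ ({x // x ≠ vx (inr false) ∧ x ≠ vx (inr true)} ≃ Fin v)`).
Map `(c, l) ↦ (K, s)`: `K = (vG M.aa M.s).comap l.symm` (isomorphic to `vG` by `l`: 3-connected, planar, `e + 1` edges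
by module RotB, the poles are adjacent, `P` by `InvP`), and `s` = transport of `M.s` by the bijection
`T ≃ (vG ..).Dart ≃ K.Dart`.
Injective: if `(c, l)` and `(c', l')` give the same pair then the composite of the bijections of darts
`T ≃ K.Dart ≃ T'` is an isomorphism of rooted maps (the root dart `inr true` goes to the dart of `K` from
`inr true` to `inr false`), so `c = c'` (`Quotient.out_equiv_out`/`Quotient.sound`, `BIso`), and then it is the identity by
`map_auto`, hence `l = l'` (every vertex has a dart).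
Surjective: given `(K, s)` take `exists_BMap (dsymm K) s r` with `r` = the dart from `inr true` to `inr false`:
`N` is good and rigid (`rot_good`, transported), `c = ⟦N⟧`, `c.rep ≈ N`; this gives `T_c ≃ K.Dart` and `l`.
-/

set_option linter.unusedSectionVars false

namespace Dia
open PGr Equiv Finset

/-- `δ` identifies the darts of the map with the darts of `K`, `l` the vertices -/
private structure RotDRel {W : Type} (M : BMap) (l : Vx M.s → W) (K : SimpleGraph W)
    (s : Perm K.Dart) (δ : M.T ≃ K.Dart) : Prop where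
  fst : ∀ t, (δ t).fst = l (vx M.s t)
  sym : ∀ t, δ (M.aa t) = (δ t).symm
  rot : ∀ t, δ (M.s t) = s (δ t)

private theorem RotDRel.snd {W : Type} {M : BMap} {l : Vx M.s → W} {K : SimpleGraph W}
    {s : Perm K.Dart} {δ : M.T ≃ K.Dart} (h : RotDRel M l K s δ) (t : M.T) :
    (δ t).snd = l (vx M.s (M.aa t)) := by
  rw [← h.fst, h.sym]
  rfl

private theorem RotD_vx {T : Type} (s : Perm T) (t t' : T) :
    vx s t = vx s t' ↔ s.SameCycle t t' := by
  constructor
  · intro h
    exact Quotient.exact h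
  · intro h
    exact Quotient.sound h

private theorem RotD_vx_surj {T : Type} (s : Perm T) (x : Vx s) : ∃ t, vx s t = x := by
  induction x using Quotient.ind with
  | _ t => exact ⟨t, rfl⟩

private theorem RotD_adj {W : Type} {M : BMap} {l : Vx M.s → W} {K : SimpleGraph W}
    {s : Perm K.Dart} {δ : M.T ≃ K.Dart} (h : RotDRel M l K s δ) (x y : W) :
    K.Adj x y ↔ ∃ t, l (vx M.s t) = x ∧ l (vx M.s (M.aa t)) = y := by
  constructor
  · intro hxy
    refine ⟨δ.symm ⟨(x, y), hxy⟩, ?_, ?_⟩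
    · rw [← h.fst, Equiv.apply_symm_apply]
    · rw [← h.snd, Equiv.apply_symm_apply]
  · rintro ⟨t, rfl, rfl⟩
    rw [← h.fst, ← h.snd]
    exact (δ t).adj

/-- the pair `(K, s)` is determined by the map and the labelling -/
private theorem RotD_uniq {W : Type} {M : BMap} {l : Vx M.s → W} {K K' : SimpleGraph W}
    {s : Perm K.Dart} {δ : M.T ≃ K.Dart} {s' : Perm K'.Dart} {δ' : M.T ≃ K'.Dart}
    (h : RotDRel M l K s δ) (h' : RotDRel M l K' s' δ') :
    (⟨K, s⟩ : Σ K : SimpleGraph W, Perm K.Dart) = ⟨K', s'⟩ := by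
  have hK : K = K' := by
    ext x y
    rw [RotD_adj h, RotD_adj h']
  subst hK
  have hδ : ∀ t, δ t = δ' t := by
    intro t
    apply SimpleGraph.Dart.ext
    exact Prod.ext ((h.fst t).trans (h'.fst t).symm) ((h.snd t).trans (h'.snd t).symm)
  have hs : s = s' := by
    ext1 d
    obtain ⟨t, rfl⟩ := δ.surjective d
    rw [← h.rot, hδ, h'.rot, hδ]
  rw [hs]

private theorem RotD_card {W : Type} [Fintype W] (K : SimpleGraph W) :
    Nat.card K.Dart = 2 * Nat.card K.edgeSet := by
  classical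
  rw [Nat.card_eq_fintype_card, K.dart_card_eq_twice_card_edges, Nat.card_eq_fintype_card,
    ← SimpleGraph.edgeFinset_card]

private theorem RotD_three {V W : Type} {K : SimpleGraph V} {L : SimpleGraph W} (e : K ≃g L)
    (h : ThreeConn K) : ThreeConn L := by
  classical
  refine ⟨?_, fun S hS => ?_⟩
  · rw [← Nat.card_congr e.toEquiv]
    exact h.1
  · have h1 := h.2 (S.map e.symm.toEquiv.toEmbedding) (by rw [Finset.card_map]; exact hS)
    have h2 : (K.induce (↑(S.map e.symm.toEquiv.toEmbedding) : Set V)ᶜ) ≃g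
        (L.induce (↑S : Set W)ᶜ) :=
      { toEquiv := e.toEquiv.subtypeEquiv fun a => by
          simp only [Finset.coe_map, Set.mem_compl_iff, Set.mem_image, Finset.mem_coe]
          rw [not_iff_not]
          constructor
          · rintro ⟨b, hb, hb'⟩
            have : e.toEquiv a = b := by
              rw [← hb']
              exact e.apply_symm_apply b
            rwa [this]
          · intro ha
            exact ⟨_, ha, e.symm_apply_apply a⟩
        map_rel_iff' := by
          intro a b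
          exact e.map_adj_iff }
    exact h2.connected_iff.1 h1

/-- a graph on the vertices of a rigid map, isomorphic to its graph, has the required properties -/
private theorem RotD_vGiso {W : Type} {M : BMap} (hM : Good M.aa M.s)
    (l : Vx M.s ≃ W) {K : SimpleGraph W} {s : Perm K.Dart} {δ : M.T ≃ K.Dart}
    (h : RotDRel M l K s δ) : ∃ i : vG M.aa M.s ≃g K, ∀ x, i x = l x := by
  refine ⟨{ toEquiv := l, map_rel_iff' := ?_ }, fun x => rfl⟩
  intro x y
  rw [RotD_adj h, vG_adj hM]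
  constructor
  · rintro ⟨t, h1, h2⟩
    exact ⟨t, l.injective h1, l.injective h2⟩
  · rintro ⟨t, h1, h2⟩
    exact ⟨t, congrArg l h1, congrArg l h2⟩

/-- existence of `(K, s)` -/
private theorem RotD_ex {W : Type} {M : BMap} (hM : Good M.aa M.s) (hR : Rg3 M.aa M.s)
    (l : Vx M.s ≃ W) : ∃ (K : SimpleGraph W) (s : Perm K.Dart) (δ : M.T ≃ K.Dart),
      RotDRel M l K s δ := by
  let K : SimpleGraph W := (vG M.aa M.s).comap l.symm
  have hadj : ∀ t, K.Adj (l (vx M.s t)) (l (vx M.s (M.aa t))) := by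
    intro t
    change (vG M.aa M.s).Adj (l.symm (l (vx M.s t))) (l.symm (l (vx M.s (M.aa t))))
    rw [l.symm_apply_apply, l.symm_apply_apply, vG_adj hM]
    exact ⟨t, rfl, rfl⟩
  let f : M.T → K.Dart := fun t => ⟨(l (vx M.s t), l (vx M.s (M.aa t))), hadj t⟩
  have hf : Function.Bijective f := by
    constructor
    · intro t t' htt
      have h1 : l (vx M.s t) = l (vx M.s t') := congrArg (fun d : K.Dart => d.fst) htt
      have h2 : l (vx M.s (M.aa t)) = l (vx M.s (M.aa t')) :=
        congrArg (fun d : K.Dart => d.snd) htt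
      apply (dartE_bij hM hR).1
      apply SimpleGraph.Dart.ext
      exact Prod.ext (l.injective h1) (l.injective h2)
    · intro d
      have h1 : (vG M.aa M.s).Adj (l.symm d.fst) (l.symm d.snd) := d.adj
      rw [vG_adj hM] at h1
      obtain ⟨t, h2, h3⟩ := h1
      refine ⟨t, ?_⟩
      apply SimpleGraph.Dart.ext
      refine Prod.ext ?_ ?_
      · change l (vx M.s t) = d.fst
        rw [h2, l.apply_symm_apply]
      · change l (vx M.s (M.aa t)) = d.snd
        rw [h3, l.apply_symm_apply]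
  let δ : M.T ≃ K.Dart := Equiv.ofBijective f hf
  refine ⟨K, δ.permCongr M.s, δ, ?_, ?_, ?_⟩
  · intro t
    rfl
  · intro t
    apply SimpleGraph.Dart.ext
    refine Prod.ext rfl ?_
    change l (vx M.s (M.aa (M.aa t))) = l (vx M.s t)
    rw [hM.inv]
  · intro t
    change δ (M.s t) = δ (M.s (δ.symm (δ t)))
    rw [Equiv.symm_apply_apply]

private theorem RotD_isRot {W : Type} [Fintype W] [DecidableEq W] {M : BMap}
    (hM : Good M.aa M.s) (l : Vx M.s ≃ W) {K : SimpleGraph W}
    {s : Perm K.Dart} {δ : M.T ≃ K.Dart} (h : RotDRel M l K s δ) : IsRot K s := by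
  refine ⟨fun d d' => ?_, Pl_iso δ (fun t => h.sym t) h.rot hM.pl⟩
  obtain ⟨t, rfl⟩ := δ.surjective d
  obtain ⟨t', rfl⟩ := δ.surjective d'
  rw [h.fst, h.fst, l.injective.eq_iff, RotD_vx]
  constructor
  · rintro ⟨i, hi⟩
    refine ⟨i, δ.injective ?_⟩
    rw [CutIso.zpow δ h.rot, hi]
  · rintro ⟨i, hi⟩
    refine ⟨i, ?_⟩
    rw [← CutIso.zpow δ h.rot, hi]

/-- surjectivity -/
private theorem RotD_surj {W : Type} [Fintype W] [DecidableEq W] {K : SimpleGraph W}
    (hK : ThreeConn K) {s : Perm K.Dart} (hs : IsRot K s) (r : K.Dart) :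
    ∃ (c : GC) (l : Vx c.rep.1.s ≃ W) (δ : c.rep.1.T ≃ K.Dart), Rigid c.rep.1 ∧
      RotDRel c.rep.1 l K s δ ∧ δ (Sum.inr true) = r := by
  obtain ⟨hg, hR⟩ := rot_good hK hs
  obtain ⟨N, e0, h1, h2, h3⟩ := exists_BMap (dsymm K) s r hg.inv hg.fpf
  have hN : N.IsGood := Good_iso e0 h1 h2 hg
  have hNR : Rigid N := by
    refine ⟨?_, fun A hA h4 h5 => ?_⟩
    · rw [← Fintype.card_congr e0]
      exact hR.1
    · have h6 : Cl (dsymm K) (A.map e0.symm.toEmbedding) := Cl_iso e0.symm (CutIso.symm h1) hA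
      have h7 := hR.2 _ h6 (by rw [card_map]; exact h4) (by
        rw [card_map, Fintype.card_congr e0]
        exact h5)
      rw [← cut_iso e0 h2, CutIso.map_symm] at h7
      exact h7
  let c : GC := ⟦⟨N, hN⟩⟧
  have hc : BIso c.rep.1 N := Quotient.exact (Quotient.out_eq c)
  have hcR : Rigid c.rep.1 := hc.symm.rigid hNR
  obtain ⟨e1, h4, h5, h6⟩ := hc
  let δ : c.rep.1.T ≃ K.Dart := e1.trans e0.symm
  have hδ1 : ∀ t, δ (c.rep.1.aa t) = (δ t).symm := by
    intro t
    change e0.symm (e1 (c.rep.1.aa t)) = dsymm K (e0.symm (e1 t))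
    rw [h4, CutIso.symm h1]
  have hδ2 : ∀ t, δ (c.rep.1.s t) = s (δ t) := by
    intro t
    change e0.symm (e1 (c.rep.1.s t)) = s (e0.symm (e1 t))
    rw [h5, CutIso.symm h2]
  have hδ3 : δ (Sum.inr true) = r := by
    change e0.symm (e1 (Sum.inr true)) = r
    rw [h6, Equiv.symm_apply_eq, h3]
  have hsame : ∀ t t', c.rep.1.s.SameCycle t t' ↔ (δ t).fst = (δ t').fst := by
    intro t t'
    rw [← hs.1]
    constructor
    · rintro ⟨i, hi⟩
      refine ⟨i, ?_⟩
      rw [← CutIso.zpow δ hδ2, hi]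
    · rintro ⟨i, hi⟩
      refine ⟨i, δ.injective ?_⟩
      rw [CutIso.zpow δ hδ2, hi]
  let lf : Vx c.rep.1.s → W := Quotient.lift (fun t => (δ t).fst) fun t t' h => (hsame t t').1 h
  have hlf : Function.Bijective lf := by
    constructor
    · intro x y hxy
      obtain ⟨t, rfl⟩ := RotD_vx_surj _ x
      obtain ⟨t', rfl⟩ := RotD_vx_surj _ y
      exact (RotD_vx _ _ _).2 ((hsame t t').2 hxy)
    · intro w
      obtain ⟨x, -, -, hx, -⟩ := deg3 hK w
      refine ⟨vx _ (δ.symm ⟨(w, x), hx⟩), ?_⟩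
      change (δ (δ.symm ⟨(w, x), hx⟩)).fst = w
      rw [Equiv.apply_symm_apply]
  refine ⟨c, Equiv.ofBijective lf hlf, δ, hcR, ⟨fun t => rfl, hδ1, hδ2⟩, hδ3⟩

/-- labellings fixing the poles -/
private theorem RotD_lab {X : Type} (v : ℕ) (hX : Nat.card X = v + 2) (x : Bool → X)
    (hx : x false ≠ x true) :
    Nonempty ({l : X ≃ Fin v ⊕ Bool // ∀ b, l (x b) = Sum.inr b} ≃ Perm (Fin v)) := by
  classical
  have hfin : Finite X := Nat.finite_of_card_ne_zero (by omega)
  have : Fintype X := Fintype.ofFinite X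
  have hinj : Function.Injective x := by
    intro b b' h
    cases b <;> cases b'
    · rfl
    · exact absurd h hx
    · exact absurd h.symm hx
    · rfl
  -- one labelling
  have hex : ∃ l : X ≃ Fin v ⊕ Bool, ∀ b, l (x b) = Sum.inr b := by
    let e1 : X ≃ ↥(Set.range x)ᶜ ⊕ ↥(Set.range x) :=
      ((Equiv.sumComm _ _).trans (Equiv.Set.sumCompl (Set.range x))).symm
    let e2 : ↥(Set.range x) ≃ Bool := (Equiv.ofInjective x hinj).symm
    have h1 : Fintype.card ↥(Set.range x)ᶜ = v := by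
      have h2 := Fintype.card_congr e1
      rw [Fintype.card_sum, Fintype.card_congr e2, Fintype.card_bool, ← Nat.card_eq_fintype_card,
        hX] at h2
      omega
    let e3 : ↥(Set.range x)ᶜ ≃ Fin v := Fintype.equivFinOfCardEq h1
    refine ⟨e1.trans (Equiv.sumCongr e3 e2), fun b => ?_⟩
    have h4 : e1 (x b) = Sum.inr ⟨x b, b, rfl⟩ := by
      rw [← Equiv.eq_symm_apply]
      rfl
    rw [Equiv.trans_apply, h4]
    change Sum.inr (e2 ⟨x b, b, rfl⟩) = _
    have h5 : e2 ⟨x b, b, rfl⟩ = b := by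
      rw [Equiv.symm_apply_eq]
      rfl
    rw [h5]
  obtain ⟨l0, hl0⟩ := hex
  have e1 : {l : X ≃ Fin v ⊕ Bool // ∀ b, l (x b) = Sum.inr b} ≃
      {π : Perm (Fin v ⊕ Bool) // ∀ b, π (Sum.inr b) = Sum.inr b} :=
    { toFun := fun l => ⟨l0.symm.trans l.1, fun b => by
        rw [Equiv.trans_apply, ← hl0 b, Equiv.symm_apply_apply, l.2, hl0]⟩
      invFun := fun π => ⟨l0.trans π.1, fun b => by
        rw [Equiv.trans_apply, hl0, π.2]⟩
      left_inv := fun l => by
        apply Subtype.ext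
        ext z
        simp
      right_inv := fun π => by
        apply Subtype.ext
        ext z
        simp }
  have e2 : {π : Perm (Fin v ⊕ Bool) // ∀ b, π (Sum.inr b) = Sum.inr b} ≃ Perm (Fin v) :=
    { toFun := fun π =>
        (Equiv.ofBijective (fun i => Sum.elim id (fun _ => i) (π.1 (Sum.inl i))) (by
          rw [← Finite.injective_iff_bijective]
          intro i j hij
          have hl : ∀ i, ∃ j, π.1 (Sum.inl i) = Sum.inl j := by
            intro i
            rcases h : π.1 (Sum.inl i) with j | b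
            · exact ⟨j, rfl⟩
            · rw [← π.2 b] at h
              exact absurd (π.1.injective h) (by simp)
          obtain ⟨i', hi'⟩ := hl i
          obtain ⟨j', hj'⟩ := hl j
          simp only [hi', hj', Sum.elim_inl, id] at hij
          rw [hij, ← hj'] at hi'
          exact Sum.inl_injective (π.1.injective hi')))
      invFun := fun σ => ⟨Equiv.sumCongr σ (Equiv.refl Bool), fun b => rfl⟩
      left_inv := fun π => by
        apply Subtype.ext
        ext1 z
        rcases z with i | b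
        · rcases h : π.1 (Sum.inl i) with j | b
          · simp [h]
          · rw [← π.2 b] at h
            exact absurd (π.1.injective h) (by simp)
        · simp [π.2 b]
      right_inv := fun σ => by
        ext1 i
        simp }
  exact ⟨e1.trans e2⟩

private theorem RotD_ext {W : Type} {A : SimpleGraph W → Prop}
    {B : ∀ K : SimpleGraph W, Perm K.Dart → Prop}
    (y y' : Σ K : {K : SimpleGraph W // A K}, {s : Perm K.1.Dart // B K.1 s})
    (h : (⟨y.1.1, y.2.1⟩ : Σ K : SimpleGraph W, Perm K.Dart) = ⟨y'.1.1, y'.2.1⟩) : y = y' := by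
  obtain ⟨⟨K, hK⟩, ⟨s, hs⟩⟩ := y
  obtain ⟨⟨K', hK'⟩, ⟨s', hs'⟩⟩ := y'
  simp only [Sigma.mk.injEq] at h
  obtain ⟨rfl, h2⟩ := h
  rw [heq_iff_eq] at h2
  subst h2
  rfl

/-- the class and the dart bijection are determined by the pair `(K, s)` -/
private theorem RotD_inj1 {W : Type} {c c' : GC} {l : Vx c.rep.1.s → W} {l' : Vx c'.rep.1.s → W}
    {p : Bool → W}
    (hl : ∀ b, l (vx c.rep.1.s (Sum.inr b)) = p b) (hl' : ∀ b, l' (vx c'.rep.1.s (Sum.inr b)) = p b)
    {K : SimpleGraph W} {s : Perm K.Dart} {δ : c.rep.1.T ≃ K.Dart} {δ' : c'.rep.1.T ≃ K.Dart}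
    (h : RotDRel c.rep.1 l K s δ) (h' : RotDRel c'.rep.1 l' K s δ') : c = c' := by
  rw [← Quotient.out_eq c, ← Quotient.out_eq c']
  apply Quotient.sound
  refine ⟨δ.trans δ'.symm, fun t => ?_, fun t => ?_, ?_⟩
  · rw [Equiv.trans_apply, Equiv.trans_apply, Equiv.symm_apply_eq, h'.sym,
      Equiv.apply_symm_apply]
    exact h.sym t
  · rw [Equiv.trans_apply, Equiv.trans_apply, Equiv.symm_apply_eq, h'.rot,
      Equiv.apply_symm_apply]
    exact h.rot t
  · rw [Equiv.trans_apply, Equiv.symm_apply_eq]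
    apply SimpleGraph.Dart.ext
    refine Prod.ext ?_ ?_
    · change (δ (Sum.inr true)).fst = (δ' (Sum.inr true)).fst
      exact (h.fst _).trans ((hl true).trans ((hl' true).symm.trans (h'.fst _).symm))
    · change (δ (Sum.inr true)).snd = (δ' (Sum.inr true)).snd
      have e1 : (δ (Sum.inr true)).snd = p false := (h.snd (Sum.inr true)).trans (hl false)
      have e2 : (δ' (Sum.inr true)).snd = p false := (h'.snd (Sum.inr true)).trans (hl' false)
      exact e1.trans e2.symm

private theorem RotD_inj2 {W : Type} {M : BMap} (hM : Good M.aa M.s) {l l' : Vx M.s → W}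
    {p : Bool → W}
    (hl : ∀ b, l (vx M.s (Sum.inr b)) = p b) (hl' : ∀ b, l' (vx M.s (Sum.inr b)) = p b)
    {K : SimpleGraph W} {s : Perm K.Dart} {δ δ' : M.T ≃ K.Dart}
    (h : RotDRel M l K s δ) (h' : RotDRel M l' K s δ') : l = l' := by
  have h1 : (δ.trans δ'.symm : Perm M.T) = 1 := by
    refine map_auto hM _ (fun t => ?_) (fun t => ?_) (Sum.inr true) ?_
    · rw [Equiv.trans_apply, Equiv.trans_apply, Equiv.symm_apply_eq, h'.sym,
        Equiv.apply_symm_apply]
      exact h.sym t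
    · rw [Equiv.trans_apply, Equiv.trans_apply, Equiv.symm_apply_eq, h'.rot,
        Equiv.apply_symm_apply]
      exact h.rot t
    · rw [Equiv.trans_apply, Equiv.symm_apply_eq]
      apply SimpleGraph.Dart.ext
      refine Prod.ext ?_ ?_
      · change (δ (Sum.inr true)).fst = (δ' (Sum.inr true)).fst
        exact (h.fst _).trans ((hl true).trans ((hl' true).symm.trans (h'.fst _).symm))
      · change (δ (Sum.inr true)).snd = (δ' (Sum.inr true)).snd
        have e1 : (δ (Sum.inr true)).snd = p false := (h.snd (Sum.inr true)).trans (hl false)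
        have e2 : (δ' (Sum.inr true)).snd = p false := (h'.snd (Sum.inr true)).trans (hl' false)
        exact e1.trans e2.symm
  funext x
  obtain ⟨t, rfl⟩ := RotD_vx_surj _ x
  have h2 : δ t = δ' t := by
    have h3 := Equiv.congr_fun h1 t
    rw [Equiv.trans_apply, Perm.one_apply, Equiv.symm_apply_eq] at h3
    exact h3
  rw [← h.fst, ← h'.fst, h2]

theorem rot_count {P : PG2} (hP : InvP P) (v e : ℕ) :
    Nat.card (Σ K : {K : SimpleGraph (Fin v ⊕ Bool) // ThreeConn K ∧ IsPlanar K ∧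
      K.Adj (Sum.inr false) (Sum.inr true) ∧ Nat.card K.edgeSet = e + 1 ∧
      P _ K (Sum.inr false) (Sum.inr true)}, {s : Perm K.1.Dart // IsRot K.1 s}) =
    v.factorial * Nat.card {c : GC // Rigid c.rep.1 ∧ nV c.rep.1.s = v + 2 ∧
      Fintype.card c.rep.1.D / 2 = e ∧
      P _ (vG c.rep.1.aa c.rep.1.s) (vx c.rep.1.s (Sum.inr false))
        (vx c.rep.1.s (Sum.inr true))} := by
  classical
  obtain ⟨Q, hQ⟩ : ∃ Q : GC → Prop, ∀ c, Q c ↔ (Rigid c.rep.1 ∧ nV c.rep.1.s = v + 2 ∧
      Fintype.card c.rep.1.D / 2 = e ∧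
      P _ (vG c.rep.1.aa c.rep.1.s) (vx c.rep.1.s (Sum.inr false))
        (vx c.rep.1.s (Sum.inr true))) := ⟨_, fun _ => Iff.rfl⟩
  have hQc : Nat.card {c : GC // Rigid c.rep.1 ∧ nV c.rep.1.s = v + 2 ∧
      Fintype.card c.rep.1.D / 2 = e ∧
      P _ (vG c.rep.1.aa c.rep.1.s) (vx c.rep.1.s (Sum.inr false))
        (vx c.rep.1.s (Sum.inr true))} = Nat.card {c // Q c} :=
    Nat.card_congr (Equiv.subtypeEquivRight fun c => (hQ c).symm)
  rw [hQc]
  let Lab : GC → Type := fun c =>
    {l : Vx c.rep.1.s ≃ Fin v ⊕ Bool // ∀ b, l (vx c.rep.1.s (Sum.inr b)) = Sum.inr b}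
  have hpole : ∀ c : GC, vx c.rep.1.s (Sum.inr false) ≠ vx c.rep.1.s (Sum.inr true) := by
    intro c h
    exact c.rep.2.noLoop (Sum.inr false) ((RotD_vx _ _ _).1 h)
  have hL : ∀ c : {c // Q c}, Nonempty (Lab c.1 ≃ Perm (Fin v)) := fun c =>
    RotD_lab v ((hQ c.1).1 c.2).2.1 (fun b => vx c.1.rep.1.s (Sum.inr b)) (hpole c.1)
  have eL : ∀ c : {c // Q c}, Lab c.1 ≃ Perm (Fin v) := fun c => (hL c).some
  have h2 : v.factorial * Nat.card {c // Q c} = Nat.card (Σ c : {c // Q c}, Lab c.1) := by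
    rw [Nat.card_congr ((Equiv.sigmaCongrRight eL).trans (Equiv.sigmaEquivProd _ _)),
      Nat.card_prod, Nat.card_perm, Nat.card_fin, mul_comm]
  rw [h2]
  -- the map
  have hcardT : ∀ (M : BMap) (K : SimpleGraph (Fin v ⊕ Bool)), (M.T ≃ K.Dart) →
      Fintype.card M.D + 2 = 2 * Nat.card K.edgeSet := by
    intro M K δ
    rw [← RotD_card, ← Nat.card_congr δ, Nat.card_eq_fintype_card, Fintype.card_sum,
      Fintype.card_bool]
  have hf : ∀ x : (Σ c : {c // Q c}, Lab c.1), ∃ y : (Σ K : {K : SimpleGraph (Fin v ⊕ Bool) //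
      ThreeConn K ∧ IsPlanar K ∧
      K.Adj (Sum.inr false) (Sum.inr true) ∧ Nat.card K.edgeSet = e + 1 ∧
      P _ K (Sum.inr false) (Sum.inr true)}, {s : Perm K.1.Dart // IsRot K.1 s}),
      ∃ δ, RotDRel x.1.1.rep.1 x.2.1 y.1.1 y.2.1 δ := by
    rintro ⟨⟨c, hc⟩, ⟨l, hl⟩⟩
    have hc' := (hQ c).1 hc
    have hM : Good c.rep.1.aa c.rep.1.s := c.rep.2
    have hR : Rg3 c.rep.1.aa c.rep.1.s := hc'.1
    obtain ⟨K, s, δ, h⟩ := RotD_ex hM hR l
    obtain ⟨i, hi⟩ := RotD_vGiso hM l h
    have hedge := hcardT _ K δ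
    refine ⟨⟨⟨K, RotD_three i (rig_three hM hR), (planar_iso i).1 (rig_planar hM hR), ?_, ?_, ?_⟩,
      ⟨s, RotD_isRot hM l h⟩⟩, δ, h⟩
    · rw [RotD_adj h]
      exact ⟨Sum.inr false, hl false, hl true⟩
    · have := hc'.2.2.1
      omega
    · have h3 := hP _ _ _ _ i _ _ hc'.2.2.2
      rw [hi, hi, hl, hl] at h3
      exact h3
  choose f hf' using hf
  symm
  refine Nat.card_eq_of_bijective f ⟨?_, ?_⟩
  · rintro ⟨⟨c, hc⟩, ⟨l, hl⟩⟩ ⟨⟨c', hc'⟩, ⟨l', hl'⟩⟩ hff
    obtain ⟨δ, h⟩ := hf' ⟨⟨c, hc⟩, ⟨l, hl⟩⟩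
    obtain ⟨δ', h'⟩ := hf' ⟨⟨c', hc'⟩, ⟨l', hl'⟩⟩
    obtain ⟨y, hy⟩ : ∃ y, y = f ⟨⟨c, hc⟩, ⟨l, hl⟩⟩ := ⟨_, rfl⟩
    have hy' : y = f ⟨⟨c', hc'⟩, ⟨l', hl'⟩⟩ := hy.trans hff
    have g : ∃ δ, RotDRel c.rep.1 l y.1.1 y.2.1 δ := by
      rw [hy]
      exact ⟨δ, h⟩
    have g' : ∃ δ, RotDRel c'.rep.1 l' y.1.1 y.2.1 δ := by
      rw [hy']
      exact ⟨δ', h'⟩
    obtain ⟨d, g⟩ := g
    obtain ⟨d', g'⟩ := g'
    have hcc : c = c' := RotD_inj1 (p := fun b => Sum.inr b) hl hl' g g'
    subst hcc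
    have hll : (l : Vx c.rep.1.s → Fin v ⊕ Bool) = l' :=
      RotD_inj2 (p := fun b => Sum.inr b) c.rep.2 hl hl' g g'
    have hll' : l = l' := Equiv.coe_fn_injective hll
    subst hll'
    rfl
  · rintro ⟨⟨K, hK3, hKp, hKa, hKe, hKP⟩, ⟨s, hs⟩⟩
    obtain ⟨c, l, δ, hR, h, hr⟩ := RotD_surj hK3 hs ⟨(Sum.inr true, Sum.inr false), hKa.symm⟩
    obtain ⟨i, hi⟩ := RotD_vGiso c.rep.2 l h
    have hl1 : l (vx c.rep.1.s (Sum.inr true)) = Sum.inr true := by
      rw [← h.fst, hr]
    have hl2 : l (vx c.rep.1.s (Sum.inr false)) = Sum.inr false := by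
      have h3 := h.snd (Sum.inr true)
      rw [hr] at h3
      exact h3.symm
    have hedge := hcardT _ K δ
    have hc : Q c := by
      rw [hQ]
      refine ⟨hR, ?_, ?_, ?_⟩
      · change Nat.card (Vx c.rep.1.s) = v + 2
        rw [Nat.card_congr l, Nat.card_eq_fintype_card, Fintype.card_sum, Fintype.card_fin,
          Fintype.card_bool]
      · omega
      · have h3 := hP _ _ _ _ i.symm _ _ hKP
        have h4 : ∀ b, i.symm (Sum.inr b) = vx c.rep.1.s (Sum.inr b) := by
          intro b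
          have h5 : i (vx c.rep.1.s (Sum.inr b)) = Sum.inr b := by
            rw [hi]
            cases b
            · exact hl2
            · exact hl1
          rw [← h5]
          exact i.symm_apply_apply _
        rw [h4, h4] at h3
        exact h3
    refine ⟨⟨⟨c, hc⟩, ⟨l, fun b => by
      cases b
      · exact hl2
      · exact hl1⟩⟩, ?_⟩
    obtain ⟨δ', h'⟩ := hf' ⟨⟨c, hc⟩, ⟨l, fun b => by
      cases b
      · exact hl2
      · exact hl1⟩⟩
    exact RotD_ext _ _ (RotD_uniq h' h)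

end Dia
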