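import Pool.Agent.Dia.RotD

/-!
# Module RotE: comparison of the numbers of graphs and of maps

`h_le_g`, `g_le_h`: from `rot_count` and `rot_two` (with `rot_good`): the number of pairs is between the number
of graphs and twice the number of graphs (`Nat.card_sigma`; all types are finite).

`hN_eq`: `hN v e = hP PGT v e` (the condition `True`).

`k_h`: `2 e kP P v e = hP P.two (v - 2) (e - 1)` for `2 ≤ v`, `1 ≤ e`, `P` invariant: count pairs (graph `K` on `Fin v`,
dart `d` of `K`) : `2 e * #K` (`SimpleGraph.dart_card_eq_twice_card_edges`).  For every ordered pair `x ≠ y` of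
elements of `Fin v` choose a bijection `f : Fin v ≃ Fin (v-2) ⊕ Bool` with `f x = inr false`, `f y = inr true`; then
`K ↦ K.comap f.symm` is a bijection from the graphs `K` (3-connected, planar, `e` edges, `P`) with `K.Adj x y` to
the graphs counted in `hP`, whose number is `(v-2)! hP`.  So `2 e * v! kP = v (v-1) (v-2)! hP = v! hP`.
(invariance: `planar_iso` is in `Dia/PlanA.lean`; `ThreeConn` under isomorphisms: prove it: `three_iso`.)

`hP_zero`: if `hP P v e ≠ 0` then there is such a graph; it has minimal degree `≥ 3` (`deg3`), so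
`3 (v + 2) ≤ 2 (e + 1)`; `4 ≤ v + 2`; and Euler's formula: `e + 1 + 6 ≤ 3 (v + 2)`: by `g`: a rigid map `M` exists
(`g_le_h` for the other direction: `hP ≤ gP`), its dual is rigid (`Rg3.dual`), `Rg3.card_ge` gives
`3 nV s ≤ card T` and `3 nV (a s) ≤ card T`, with `Good.euler`: `nV s + nV (a s) = card T / 2 + 2`.
`hP_mono`, `gP_mono`: implication of the properties.
-/

set_option linter.unusedSectionVars false

namespace Dia
open PGr Equiv Finset

private theorem RotE_three {V W : Type} {K : SimpleGraph V} {L : SimpleGraph W} (e : K ≃g L)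
    (h : ThreeConn K) : ThreeConn L := by
  classical
  refine ⟨?_, fun S hS => ?_⟩
  · rw [← Nat.card_congr e.toEquiv]
    exact h.1
  · have h1 := h.2 (S.map e.symm.toEquiv.toEmbedding) (by rw [Finset.card_map]; exact hS)
    have h2 : (K.induce (↑(S.map e.symm.toEquiv.toEmbedding) : Set V)ᶜ) ≃g
        (L.induce (↑S : Set W)ᶜ) :=
      { toEquiv := e.toEquiv.subtypeEquiv fun a => by
          simp only [Finset.coe_map, Set.mem_compl_iff, Set.mem_image, Finset.mem_coe]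
          rw [not_iff_not]
          constructor
          · rintro ⟨b, hb, hb'⟩
            have : e.toEquiv a = b := by
              rw [← hb']
              exact e.apply_symm_apply b
            rwa [this]
          · intro ha
            exact ⟨_, ha, e.symm_apply_apply a⟩
        map_rel_iff' := by
          intro a b
          exact e.map_adj_iff }
    exact h2.connected_iff.1 h1

theorem three_iso {V W : Type} {K : SimpleGraph V} {L : SimpleGraph W} (e : K ≃g L) :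
    ThreeConn K ↔ ThreeConn L :=
  ⟨RotE_three e, RotE_three e.symm⟩

/-- the number of the rotation systems of the graphs -/
private theorem RotE_sum {P : PG2} (v e : ℕ) :
    Nat.card {K : SimpleGraph (Fin v ⊕ Bool) // ThreeConn K ∧ IsPlanar K ∧
      K.Adj (Sum.inr false) (Sum.inr true) ∧ Nat.card K.edgeSet = e + 1 ∧
      P _ K (Sum.inr false) (Sum.inr true)} ≤
    Nat.card (Σ K : {K : SimpleGraph (Fin v ⊕ Bool) // ThreeConn K ∧ IsPlanar K ∧
      K.Adj (Sum.inr false) (Sum.inr true) ∧ Nat.card K.edgeSet = e + 1 ∧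
      P _ K (Sum.inr false) (Sum.inr true)}, {s : Perm K.1.Dart // IsRot K.1 s}) ∧
    Nat.card (Σ K : {K : SimpleGraph (Fin v ⊕ Bool) // ThreeConn K ∧ IsPlanar K ∧
      K.Adj (Sum.inr false) (Sum.inr true) ∧ Nat.card K.edgeSet = e + 1 ∧
      P _ K (Sum.inr false) (Sum.inr true)}, {s : Perm K.1.Dart // IsRot K.1 s}) ≤
    2 * Nat.card {K : SimpleGraph (Fin v ⊕ Bool) // ThreeConn K ∧ IsPlanar K ∧
      K.Adj (Sum.inr false) (Sum.inr true) ∧ Nat.card K.edgeSet = e + 1 ∧
      P _ K (Sum.inr false) (Sum.inr true)} := by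
  classical
  have : Fintype {K : SimpleGraph (Fin v ⊕ Bool) // ThreeConn K ∧ IsPlanar K ∧
      K.Adj (Sum.inr false) (Sum.inr true) ∧ Nat.card K.edgeSet = e + 1 ∧
      P _ K (Sum.inr false) (Sum.inr true)} := Fintype.ofFinite _
  rw [Nat.card_sigma]
  have h1 : ∀ K : {K : SimpleGraph (Fin v ⊕ Bool) // ThreeConn K ∧ IsPlanar K ∧
      K.Adj (Sum.inr false) (Sum.inr true) ∧ Nat.card K.edgeSet = e + 1 ∧
      P _ K (Sum.inr false) (Sum.inr true)}, 1 ≤ Nat.card {s : Perm K.1.Dart // IsRot K.1 s} ∧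
      Nat.card {s : Perm K.1.Dart // IsRot K.1 s} ≤ 2 := fun K =>
    rot_two K.2.2.1 fun s hs => rot_good K.2.1 hs
  constructor
  · calc Nat.card _ = ∑ K : {K : SimpleGraph (Fin v ⊕ Bool) // ThreeConn K ∧ IsPlanar K ∧
      K.Adj (Sum.inr false) (Sum.inr true) ∧ Nat.card K.edgeSet = e + 1 ∧
      P _ K (Sum.inr false) (Sum.inr true)}, 1 := by
          rw [Nat.card_eq_fintype_card, Finset.sum_const, Finset.card_univ, smul_eq_mul, mul_one]
      _ ≤ _ := Finset.sum_le_sum fun K _ => (h1 K).1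
  · calc _ ≤ ∑ K : {K : SimpleGraph (Fin v ⊕ Bool) // ThreeConn K ∧ IsPlanar K ∧
      K.Adj (Sum.inr false) (Sum.inr true) ∧ Nat.card K.edgeSet = e + 1 ∧
      P _ K (Sum.inr false) (Sum.inr true)}, 2 := Finset.sum_le_sum fun K _ => (h1 K).2
      _ = _ := by
          rw [Nat.card_eq_fintype_card, Finset.sum_const, Finset.card_univ, smul_eq_mul, mul_comm]

private theorem RotE_g {P : PG2} (hP' : InvP P) (v e : ℕ) :
    gP P v e = (Nat.card (Σ K : {K : SimpleGraph (Fin v ⊕ Bool) // ThreeConn K ∧ IsPlanar K ∧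
      K.Adj (Sum.inr false) (Sum.inr true) ∧ Nat.card K.edgeSet = e + 1 ∧
      P _ K (Sum.inr false) (Sum.inr true)}, {s : Perm K.1.Dart // IsRot K.1 s}) : ℝ) /
      v.factorial := by
  rw [rot_count hP', gP, Nat.cast_mul, mul_div_assoc, mul_comm, div_mul_cancel₀]
  exact_mod_cast v.factorial_ne_zero

theorem h_le_g {P : PG2} (hP' : InvP P) (v e : ℕ) : hP P v e ≤ gP P v e := by
  rw [RotE_g hP', hP]
  have := (RotE_sum (P := P) v e).1
  gcongr

theorem g_le_h {P : PG2} (hP' : InvP P) (v e : ℕ) : gP P v e ≤ 2 * hP P v e := by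
  rw [RotE_g hP', hP, ← mul_div_assoc]
  have := (RotE_sum (P := P) v e).2
  have h1 : (0 : ℝ) < v.factorial := by exact_mod_cast v.factorial_pos
  rw [div_le_div_iff_of_pos_right h1]
  exact_mod_cast this

theorem hN_eq (v e : ℕ) : hN v e = hP PGT v e := by
  unfold hN hP PGT
  simp only [and_true]

/-- a labelling with given poles -/
private theorem RotE_ex {X : Type} (v : ℕ) (hX : Nat.card X = v + 2) (x y : X)
    (hx : x ≠ y) : ∃ l : X ≃ Fin v ⊕ Bool, l x = Sum.inr false ∧ l y = Sum.inr true := by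
  classical
  have hfin : Finite X := Nat.finite_of_card_ne_zero (by omega)
  have : Fintype X := Fintype.ofFinite X
  obtain ⟨f, hf0, hf1⟩ : ∃ f : Bool → X, f false = x ∧ f true = y :=
    ⟨fun b => if b then y else x, rfl, rfl⟩
  have hinj : Function.Injective f := by
    intro b b' h
    cases b <;> cases b'
    · rfl
    · rw [hf0, hf1] at h
      exact absurd h hx
    · rw [hf0, hf1] at h
      exact absurd h.symm hx
    · rfl
  let e1 : X ≃ ↥(Set.range f)ᶜ ⊕ ↥(Set.range f) :=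
    ((Equiv.sumComm _ _).trans (Equiv.Set.sumCompl (Set.range f))).symm
  let e2 : ↥(Set.range f) ≃ Bool := (Equiv.ofInjective f hinj).symm
  have h1 : Fintype.card ↥(Set.range f)ᶜ = v := by
    have h2 := Fintype.card_congr e1
    rw [Fintype.card_sum, Fintype.card_congr e2, Fintype.card_bool, ← Nat.card_eq_fintype_card,
      hX] at h2
    omega
  let e3 : ↥(Set.range f)ᶜ ≃ Fin v := Fintype.equivFinOfCardEq h1
  have key : ∀ b, (e1.trans (Equiv.sumCongr e3 e2)) (f b) = Sum.inr b := by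
    intro b
    have h4 : e1 (f b) = Sum.inr ⟨f b, b, rfl⟩ := by
      rw [← Equiv.eq_symm_apply]
      rfl
    rw [Equiv.trans_apply, h4]
    change Sum.inr (e2 ⟨f b, b, rfl⟩) = _
    have h5 : e2 ⟨f b, b, rfl⟩ = b := by
      rw [Equiv.symm_apply_eq]
      rfl
    rw [h5]
  refine ⟨e1.trans (Equiv.sumCongr e3 e2), ?_, ?_⟩
  · rw [← hf0]
    exact key false
  · rw [← hf1]
    exact key true

private theorem RotE_card {W : Type} [Fintype W] (K : SimpleGraph W) :
    Nat.card K.Dart = 2 * Nat.card K.edgeSet := by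
  classical
  rw [Nat.card_eq_fintype_card, K.dart_card_eq_twice_card_edges, Nat.card_eq_fintype_card,
    ← SimpleGraph.edgeFinset_card]

private theorem RotE_off (v : ℕ) : Nat.card {p : Fin v × Fin v // p.1 ≠ p.2} = v * (v - 1) := by
  classical
  rw [Nat.card_eq_fintype_card, Fintype.card_subtype]
  have h1 : (Finset.univ.filter fun p : Fin v × Fin v => p.1 ≠ p.2) =
      (Finset.univ : Finset (Fin v)).offDiag := by
    ext p
    simp [Finset.mem_offDiag]
  rw [h1, Finset.offDiag_card, Finset.card_univ, Fintype.card_fin, Nat.mul_sub, mul_one]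

private theorem RotE_kh {P : PG0} (hP' : InvPG0 P) {v e : ℕ} (hv : 2 ≤ v) (he : 1 ≤ e) :
    2 * e * Nat.card {K : SimpleGraph (Fin v) // ThreeConn K ∧ IsPlanar K ∧
      Nat.card K.edgeSet = e ∧ P _ K} =
    v * (v - 1) * Nat.card {K : SimpleGraph (Fin (v - 2) ⊕ Bool) // ThreeConn K ∧ IsPlanar K ∧
      K.Adj (Sum.inr false) (Sum.inr true) ∧ Nat.card K.edgeSet = e - 1 + 1 ∧
      P.two _ K (Sum.inr false) (Sum.inr true)} := by
  classical
  let A := {K : SimpleGraph (Fin v) // ThreeConn K ∧ IsPlanar K ∧ Nat.card K.edgeSet = e ∧ P _ K}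
  let B := {K : SimpleGraph (Fin (v - 2) ⊕ Bool) // ThreeConn K ∧ IsPlanar K ∧
      K.Adj (Sum.inr false) (Sum.inr true) ∧ Nat.card K.edgeSet = e - 1 + 1 ∧
      P.two _ K (Sum.inr false) (Sum.inr true)}
  change 2 * e * Nat.card A = v * (v - 1) * Nat.card B
  have : Fintype A := Fintype.ofFinite _
  have h1 : Nat.card (Σ K : A, K.1.Dart) = 2 * e * Nat.card A := by
    rw [Nat.card_sigma, Finset.sum_congr rfl fun K _ => (RotE_card K.1).trans
      (congrArg (fun x => 2 * x) K.2.2.2.1), Finset.sum_const, Finset.card_univ, smul_eq_mul,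
      Nat.card_eq_fintype_card, mul_comm]
  have e1 : (Σ K : A, K.1.Dart) ≃
      Σ p : {p : Fin v × Fin v // p.1 ≠ p.2}, {K : A // K.1.Adj p.1.1 p.1.2} :=
    { toFun := fun x => ⟨⟨(x.2.fst, x.2.snd), x.2.adj.ne⟩, ⟨x.1, x.2.adj⟩⟩
      invFun := fun y => ⟨y.2.1, ⟨y.1.1, y.2.2⟩⟩
      left_inv := fun x => rfl
      right_inv := fun y => rfl }
  have e2 : ∀ p : {p : Fin v × Fin v // p.1 ≠ p.2}, Nonempty ({K : A // K.1.Adj p.1.1 p.1.2} ≃ B) := by
    rintro ⟨⟨x, y⟩, hxy⟩
    obtain ⟨l, hx, hy⟩ := RotE_ex (v - 2) (by rw [Nat.card_fin]; omega) x y hxy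
    have hx' : l.symm (Sum.inr false) = x := by rw [← hx, l.symm_apply_apply]
    have hy' : l.symm (Sum.inr true) = y := by rw [← hy, l.symm_apply_apply]
    refine ⟨{ toFun := fun K => ⟨K.1.1.comap l.symm, ?_⟩
              invFun := fun K => ⟨⟨K.1.comap l, ?_⟩, ?_⟩
              left_inv := ?_
              right_inv := ?_ }⟩
    · have i : K.1.1.comap l.symm ≃g K.1.1 := SimpleGraph.Iso.comap l.symm K.1.1
      refine ⟨(three_iso i).2 K.1.2.1, (planar_iso i).2 K.1.2.2.1, ?_, ?_, ?_⟩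
      · change K.1.1.Adj (l.symm (Sum.inr false)) (l.symm (Sum.inr true))
        rw [hx', hy']
        exact K.2
      · rw [Nat.card_congr i.mapEdgeSet, K.1.2.2.2.1]
        omega
      · exact hP' _ _ _ _ ⟨i.symm⟩ K.1.2.2.2.2
    · have i : K.1.comap l ≃g K.1 := SimpleGraph.Iso.comap l K.1
      refine ⟨(three_iso i).2 K.2.1, (planar_iso i).2 K.2.2.1, ?_, ?_⟩
      · rw [Nat.card_congr i.mapEdgeSet, K.2.2.2.2.1]
        omega
      · exact hP' _ _ _ _ ⟨i.symm⟩ K.2.2.2.2.2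
    · change K.1.Adj (l x) (l y)
      rw [hx, hy]
      exact K.2.2.2.1
    · intro K
      apply Subtype.ext
      apply Subtype.ext
      ext a b
      simp
    · intro K
      apply Subtype.ext
      ext a b
      simp
  have e3 : (Σ p : {p : Fin v × Fin v // p.1 ≠ p.2}, {K : A // K.1.Adj p.1.1 p.1.2}) ≃
      {p : Fin v × Fin v // p.1 ≠ p.2} × B :=
    (Equiv.sigmaCongrRight fun p => (e2 p).some).trans (Equiv.sigmaEquivProd _ _)
  rw [← h1, Nat.card_congr (e1.trans e3), Nat.card_prod, RotE_off]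

theorem k_h {P : PG0} (hP' : InvPG0 P) {v e : ℕ} (hv : 2 ≤ v) (he : 1 ≤ e) :
    2 * (e : ℝ) * kP P v e = hP P.two (v - 2) (e - 1) := by
  have h1 := RotE_kh hP' hv he
  unfold kP hP
  obtain ⟨w, rfl⟩ := Nat.exists_eq_add_of_le' hv
  rw [Nat.add_sub_cancel] at h1 ⊢
  have h2 : w + 2 - 1 = w + 1 := by omega
  rw [h2] at h1
  have h3 : ((w + 2).factorial : ℝ) = (w + 2) * (w + 1) * w.factorial := by
    rw [Nat.factorial_succ, Nat.factorial_succ]
    push_cast
    ring
  have h4 : (w.factorial : ℝ) ≠ 0 := by exact_mod_cast w.factorial_ne_zero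
  have h5 := congrArg (fun n : ℕ => (n : ℝ)) h1
  simp only [Nat.cast_mul, Nat.cast_add, Nat.cast_ofNat, Nat.cast_one] at h5
  rw [h3, ← mul_div_assoc, h5]
  have h6 : ((w : ℝ) + 2) ≠ 0 := by positivity
  have h7 : ((w : ℝ) + 1) ≠ 0 := by positivity
  field_simp

theorem hP_nonneg (P : PG2) (v e : ℕ) : 0 ≤ hP P v e := by
  unfold hP
  positivity

theorem gP_nonneg (P : PG2) (v e : ℕ) : 0 ≤ gP P v e := by
  unfold gP
  positivity

theorem kP_nonneg (P : PG0) (v e : ℕ) : 0 ≤ kP P v e := by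
  unfold kP
  positivity

theorem hP_mono {P Q : PG2} (h : ∀ V G x y, P V G x y → Q V G x y) (v e : ℕ) :
    hP P v e ≤ hP Q v e := by
  unfold hP
  have h1 : Nat.card {K : SimpleGraph (Fin v ⊕ Bool) // ThreeConn K ∧ IsPlanar K ∧
      K.Adj (Sum.inr false) (Sum.inr true) ∧ Nat.card K.edgeSet = e + 1 ∧
      P _ K (Sum.inr false) (Sum.inr true)} ≤
      Nat.card {K : SimpleGraph (Fin v ⊕ Bool) // ThreeConn K ∧ IsPlanar K ∧
      K.Adj (Sum.inr false) (Sum.inr true) ∧ Nat.card K.edgeSet = e + 1 ∧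
      Q _ K (Sum.inr false) (Sum.inr true)} :=
    Nat.card_le_card_of_injective
      (fun K => ⟨K.1, K.2.1, K.2.2.1, K.2.2.2.1, K.2.2.2.2.1, h _ _ _ _ K.2.2.2.2.2⟩)
      fun K K' hK => Subtype.ext (congrArg (fun z => z.1) hK)
  gcongr

theorem kP_mono {P Q : PG0} (h : ∀ V G, P V G → Q V G) (v e : ℕ) : kP P v e ≤ kP Q v e := by
  unfold kP
  have h1 : Nat.card {K : SimpleGraph (Fin v) // ThreeConn K ∧ IsPlanar K ∧
      Nat.card K.edgeSet = e ∧ P _ K} ≤
      Nat.card {K : SimpleGraph (Fin v) // ThreeConn K ∧ IsPlanar K ∧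
      Nat.card K.edgeSet = e ∧ Q _ K} :=
    Nat.card_le_card_of_injective
      (fun K => ⟨K.1, K.2.1, K.2.2.1, K.2.2.2.1, h _ _ K.2.2.2.2⟩)
      fun K K' hK => Subtype.ext (congrArg (fun z => z.1) hK)
  gcongr

/-- finitely many classes -/
private theorem RotE_fin (e : ℕ) : Finite {c : GC // Fintype.card c.rep.1.D / 2 = e} := by
  classical
  have hf : ∀ c : {c : GC // Fintype.card c.rep.1.D / 2 = e},
      ∃ y : (Σ m : Fin (2 * e + 2), Perm (Fin m) × Perm (Fin m ⊕ Bool)),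
      ∃ l : c.1.rep.1.D ≃ Fin y.1, (∀ d, l (c.1.rep.1.a d) = y.2.1 (l d)) ∧
        ∀ t, (Equiv.sumCongr l (Equiv.refl Bool)) (c.1.rep.1.s t) =
          y.2.2 ((Equiv.sumCongr l (Equiv.refl Bool)) t) := by
    intro c
    have h1 : Fintype.card c.1.rep.1.D < 2 * e + 2 := by
      have := c.2
      omega
    refine ⟨⟨⟨Fintype.card c.1.rep.1.D, h1⟩, (Fintype.equivFin c.1.rep.1.D).permCongr c.1.rep.1.a,
      (Equiv.sumCongr (Fintype.equivFin c.1.rep.1.D) (Equiv.refl Bool)).permCongr c.1.rep.1.s⟩,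
      Fintype.equivFin c.1.rep.1.D, fun d => ?_, fun t => ?_⟩
    · rw [Equiv.permCongr_apply, Equiv.symm_apply_apply]
    · rw [Equiv.permCongr_apply, Equiv.symm_apply_apply]
  choose f hf using hf
  refine Finite.of_injective f fun c c' hcc => ?_
  obtain ⟨y, hy⟩ : ∃ y, y = f c := ⟨_, rfl⟩
  have hy' : y = f c' := hy.trans hcc
  have g := hf c
  have g' := hf c'
  rw [← hy] at g
  rw [← hy'] at g'
  obtain ⟨l, g1, g2⟩ := g
  obtain ⟨l', g1', g2'⟩ := g'
  apply Subtype.ext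
  rw [← Quotient.out_eq c.1, ← Quotient.out_eq c'.1]
  apply Quotient.sound
  refine ⟨(Equiv.sumCongr l (Equiv.refl Bool)).trans (Equiv.sumCongr l' (Equiv.refl Bool)).symm,
    fun t => ?_, fun t => ?_, ?_⟩
  · rw [Equiv.trans_apply, Equiv.trans_apply, Equiv.symm_apply_eq]
    rcases t with d | b
    · change Sum.inl (l (c.1.rep.1.a d)) = Sum.inl (l' (c'.1.rep.1.a (l'.symm (l d))))
      rw [g1, g1', Equiv.apply_symm_apply]
    · rfl
  · rw [Equiv.trans_apply, Equiv.trans_apply, Equiv.symm_apply_eq]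
    refine (g2 t).trans ?_
    refine Eq.trans ?_ (g2' _).symm
    rw [Equiv.apply_symm_apply]
  · rfl

theorem gP_mono {P Q : PG2} (h : ∀ V G x y, P V G x y → Q V G x y) (v e : ℕ) :
    gP P v e ≤ gP Q v e := by
  unfold gP
  have hfin := RotE_fin e
  have : Finite {c : GC // Rigid c.rep.1 ∧ nV c.rep.1.s = v + 2 ∧
      Fintype.card c.rep.1.D / 2 = e ∧
      Q _ (vG c.rep.1.aa c.rep.1.s) (vx c.rep.1.s (Sum.inr false))
        (vx c.rep.1.s (Sum.inr true))} :=
    Finite.of_injective (fun c => (⟨c.1, c.2.2.2.1⟩ : {c : GC // Fintype.card c.rep.1.D / 2 = e}))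
      fun c c' hc => Subtype.ext (congrArg (fun z => z.1) hc)
  have h1 : Nat.card {c : GC // Rigid c.rep.1 ∧ nV c.rep.1.s = v + 2 ∧
      Fintype.card c.rep.1.D / 2 = e ∧
      P _ (vG c.rep.1.aa c.rep.1.s) (vx c.rep.1.s (Sum.inr false))
        (vx c.rep.1.s (Sum.inr true))} ≤ Nat.card {c : GC // Rigid c.rep.1 ∧
      nV c.rep.1.s = v + 2 ∧ Fintype.card c.rep.1.D / 2 = e ∧
      Q _ (vG c.rep.1.aa c.rep.1.s) (vx c.rep.1.s (Sum.inr false))
        (vx c.rep.1.s (Sum.inr true))} :=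
    Nat.card_le_card_of_injective
      (fun c => ⟨c.1, c.2.1, c.2.2.1, c.2.2.2.1, h _ _ _ _ c.2.2.2.2⟩)
      fun K K' hK => Subtype.ext (congrArg (fun z => z.1) hK)
  exact_mod_cast h1

/-- classes with and without the property -/
theorem gP_split (P : PG2) (v e : ℕ) :
    gP PGT v e = gP P v e + gP (fun V G x y => ¬ P V G x y) v e := by
  classical
  unfold gP
  have hfin := RotE_fin e
  obtain ⟨R, hR⟩ : ∃ R : GC → Prop, ∀ c, R c ↔ P _ (vG c.rep.1.aa c.rep.1.s)
      (vx c.rep.1.s (Sum.inr false)) (vx c.rep.1.s (Sum.inr true)) := ⟨_, fun _ => Iff.rfl⟩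
  let A := {c : GC // Rigid c.rep.1 ∧ nV c.rep.1.s = v + 2 ∧ Fintype.card c.rep.1.D / 2 = e ∧
      PGT _ (vG c.rep.1.aa c.rep.1.s) (vx c.rep.1.s (Sum.inr false))
        (vx c.rep.1.s (Sum.inr true))}
  have : Finite A :=
    Finite.of_injective (fun c => (⟨c.1, c.2.2.2.1⟩ : {c : GC // Fintype.card c.rep.1.D / 2 = e}))
      fun c c' hc => Subtype.ext (congrArg (fun z => z.1) hc)
  have e0 : {c : A // R c.1} ⊕ {c : A // ¬ R c.1} ≃ A := Equiv.sumCompl _
  have e1 : {c : A // R c.1} ≃ {c : GC // Rigid c.rep.1 ∧ nV c.rep.1.s = v + 2 ∧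
      Fintype.card c.rep.1.D / 2 = e ∧ P _ (vG c.rep.1.aa c.rep.1.s)
      (vx c.rep.1.s (Sum.inr false)) (vx c.rep.1.s (Sum.inr true))} :=
    { toFun := fun c => ⟨c.1.1, c.1.2.1, c.1.2.2.1, c.1.2.2.2.1, (hR _).1 c.2⟩
      invFun := fun c => ⟨⟨c.1, c.2.1, c.2.2.1, c.2.2.2.1, trivial⟩, (hR _).2 c.2.2.2.2⟩
      left_inv := fun c => rfl
      right_inv := fun c => rfl }
  have e2 : {c : A // ¬ R c.1} ≃ {c : GC // Rigid c.rep.1 ∧ nV c.rep.1.s = v + 2 ∧
      Fintype.card c.rep.1.D / 2 = e ∧ ¬ P _ (vG c.rep.1.aa c.rep.1.s)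
      (vx c.rep.1.s (Sum.inr false)) (vx c.rep.1.s (Sum.inr true))} :=
    { toFun := fun c => ⟨c.1.1, c.1.2.1, c.1.2.2.1, c.1.2.2.2.1, fun h => c.2 ((hR _).2 h)⟩
      invFun := fun c => ⟨⟨c.1, c.2.1, c.2.2.1, c.2.2.2.1, trivial⟩, fun h => c.2.2.2.2 ((hR _).1 h)⟩
      left_inv := fun c => rfl
      right_inv := fun c => rfl }
  have h1 : Nat.card A = Nat.card {c : A // R c.1} + Nat.card {c : A // ¬ R c.1} := by
    rw [← Nat.card_congr e0, Nat.card_sum]
  rw [Nat.card_congr e1, Nat.card_congr e2] at h1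
  have h2 := congrArg (fun n : ℕ => (n : ℝ)) h1
  simp only [Nat.cast_add] at h2
  exact h2

/-- support of the counting numbers -/
theorem hP_zero {P : PG2} (hP' : InvP P) {v e : ℕ} (h : hP P v e ≠ 0) :
    2 ≤ v ∧ 3 * (v + 2) ≤ 2 * (e + 1) ∧ e + 7 ≤ 3 * (v + 2) := by
  classical
  have h1 : 0 < hP P v e := lt_of_le_of_ne (hP_nonneg P v e) (Ne.symm h)
  have h2 : 0 < gP P v e := lt_of_lt_of_le h1 (h_le_g hP' v e)
  have h3 : Nat.card {K : SimpleGraph (Fin v ⊕ Bool) // ThreeConn K ∧ IsPlanar K ∧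
      K.Adj (Sum.inr false) (Sum.inr true) ∧ Nat.card K.edgeSet = e + 1 ∧
      P _ K (Sum.inr false) (Sum.inr true)} ≠ 0 := by
    intro h4
    apply h
    rw [hP, h4]
    simp
  have h4 : Nat.card {c : GC // Rigid c.rep.1 ∧ nV c.rep.1.s = v + 2 ∧
      Fintype.card c.rep.1.D / 2 = e ∧
      P _ (vG c.rep.1.aa c.rep.1.s) (vx c.rep.1.s (Sum.inr false))
        (vx c.rep.1.s (Sum.inr true))} ≠ 0 := by
    intro h5
    rw [gP, h5] at h2
    simp at h2
  obtain ⟨⟨K, hK3, -, -, -, -⟩⟩ := (Nat.card_ne_zero.1 h3).1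
  obtain ⟨⟨c, hR, hn, hc, -⟩⟩ := (Nat.card_ne_zero.1 h4).1
  have h5 : 4 ≤ v + 2 := by
    have := hK3.1
    rwa [Nat.card_eq_fintype_card, Fintype.card_sum, Fintype.card_fin, Fintype.card_bool] at this
  have hM : Good c.rep.1.aa c.rep.1.s := c.rep.2
  have hR' : Rg3 c.rep.1.aa c.rep.1.s := hR
  have : Fintype (Vx c.rep.1.s) := Fintype.ofFinite _
  have h6 : Fintype.card c.rep.1.T = 2 * Nat.card (vG c.rep.1.aa c.rep.1.s).edgeSet := by
    rw [← RotE_card, ← Nat.card_eq_fintype_card]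
    exact Nat.card_congr (Equiv.ofBijective _ (dartE_bij hM hR'))
  have h7 : Fintype.card c.rep.1.T = Fintype.card c.rep.1.D + 2 := by
    rw [Fintype.card_sum, Fintype.card_bool]
  have h8 := Rg3.card_ge hM hR'
  have h9 := Rg3.card_ge hM.dual (Rg3.dual hM hR')
  have h10 := hM.euler
  rw [hn] at h8 h10
  omega

end Dia
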