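import Pool.Agent.Dia.RotE

/-!
# Module RotF: sums over rigid classes in terms of the numbers `gP`

`g_sum`: group the classes by the pair `(v, e)` (each class with `Rigid` has `nV ≥ 4`, in particular `≥ 2`); the number
of classes with given `v`, `e` is finite (`gcls_fin`: a class is determined by a representative on a fixed type: use
`rot_count` with `P = PGT`: for fixed `v, e` the left side is finite, so if the set of classes were infinite `Nat.card`
would be `0`, that is not a proof; better: there is an injection from the classes with `card D = 2 e` to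
`Perm (Fin (2e)) × Perm (Fin (2e) ⊕ Bool)` (transport by a bijection `D ≃ Fin (2e)`); two classes with the same image are
isomorphic).
`rc_eq`: `rc' x e = ∑ v, gP PGT v e x^v`; in particular finite sums: `gP PGT v e ≠ 0` only for `v + 2 ≤ e + 2`.
-/

set_option linter.unusedSectionVars false

namespace Dia
open PGr Equiv Finset
open scoped ENNReal Classical

/-! ### auxiliary -/

private theorem RotF_ite {C : Type*} (Q : C → Prop) [DecidablePred Q] [Finite {c // Q c}]
    (a : ℝ≥0∞) : (∑' c, if Q c then a else 0) = (Nat.card {c // Q c} : ℝ≥0∞) * a := by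
  have h1 : (∑' c, if Q c then a else 0) = ∑' c : {c // Q c}, a := by
    have h2 := tsum_subtype {c | Q c} (fun _ => a)
    rw [show (∑' c : {c // Q c}, a) = ∑' c : ({c | Q c} : Set C), a from rfl, h2]
    refine tsum_congr fun c => ?_
    rw [Set.indicator_apply]
    by_cases h3 : Q c
    · rw [if_pos h3, if_pos (show c ∈ {c | Q c} from h3)]
    · rw [if_neg h3, if_neg (show c ∉ {c | Q c} from h3)]
  have := Fintype.ofFinite {c // Q c}
  rw [h1, tsum_fintype, Finset.sum_const, nsmul_eq_mul, Finset.card_univ, Nat.card_eq_fintype_card]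

/-- the pair of permutations on a fixed type -/
private noncomputable def RotF_code (n : ℕ) (c : {c : GC // Fintype.card c.rep.1.D = n}) :
    Perm (Fin n) × Perm (Fin n ⊕ Bool) :=
  (Equiv.permCongr (Fintype.equivFinOfCardEq c.2) c.1.rep.1.a,
    Equiv.permCongr (Equiv.sumCongr (Fintype.equivFinOfCardEq c.2) (Equiv.refl Bool)) c.1.rep.1.s)

private theorem RotF_ext {D D' : Type} (a : Perm D) (a' : Perm D') (f : D ≃ D')
    (h : ∀ d, f (a d) = a' (f d)) (t : D ⊕ Bool) :
    (Equiv.sumCongr f (Equiv.refl Bool)) (ext a t) =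
      ext a' ((Equiv.sumCongr f (Equiv.refl Bool)) t) := by
  rcases t with d | b
  · show Sum.inl (f (a d)) = Sum.inl (a' (f d))
    rw [h]
  · rfl

theorem gcls_fin (n : ℕ) : Finite {c : GC // Fintype.card c.rep.1.D = n} := by
  refine Finite.of_injective (RotF_code n) ?_
  intro c c' h
  have h1 : Equiv.permCongr (Fintype.equivFinOfCardEq c.2) c.1.rep.1.a =
      Equiv.permCongr (Fintype.equivFinOfCardEq c'.2) c'.1.rep.1.a := congrArg Prod.fst h
  have h2 : Equiv.permCongr (Equiv.sumCongr (Fintype.equivFinOfCardEq c.2) (Equiv.refl Bool))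
      c.1.rep.1.s =
      Equiv.permCongr (Equiv.sumCongr (Fintype.equivFinOfCardEq c'.2) (Equiv.refl Bool))
      c'.1.rep.1.s := congrArg Prod.snd h
  set f := Fintype.equivFinOfCardEq c.2 with hf
  set f' := Fintype.equivFinOfCardEq c'.2 with hf'
  have ha : ∀ d, (f.trans f'.symm) (c.1.rep.1.a d) = c'.1.rep.1.a ((f.trans f'.symm) d) := by
    intro d
    have h3 := congrArg (fun e : Perm (Fin n) => e (f d)) h1
    simp only [Equiv.permCongr_apply, Equiv.symm_apply_apply] at h3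
    simp only [Equiv.trans_apply]
    rw [h3, Equiv.symm_apply_apply]
  have hs : ∀ t, (Equiv.sumCongr (f.trans f'.symm) (Equiv.refl Bool)) (c.1.rep.1.s t) =
      c'.1.rep.1.s ((Equiv.sumCongr (f.trans f'.symm) (Equiv.refl Bool)) t) := by
    intro t
    have h3 := congrArg (fun e : Perm (Fin n ⊕ Bool) =>
      e ((Equiv.sumCongr f (Equiv.refl Bool)) t)) h2
    simp only [Equiv.permCongr_apply, Equiv.symm_apply_apply] at h3
    have h4 : ∀ t : c.1.rep.1.D ⊕ Bool, (Equiv.sumCongr (f.trans f'.symm) (Equiv.refl Bool)) t =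
        (Equiv.sumCongr f' (Equiv.refl Bool)).symm ((Equiv.sumCongr f (Equiv.refl Bool)) t) := by
      intro t
      rcases t with d | b <;> rfl
    rw [h4, h4, h3, Equiv.symm_apply_apply]
  refine Subtype.ext ?_
  have hb : BIso c.1.rep.1 c'.1.rep.1 :=
    ⟨Equiv.sumCongr (f.trans f'.symm) (Equiv.refl Bool),
      RotF_ext c.1.rep.1.a c'.1.rep.1.a (f.trans f'.symm) ha, hs, rfl⟩
  have h5 : c.1.rep ≈ c'.1.rep := hb
  exact Quotient.out_equiv_out.1 h5

/-- finitely many classes for every pair of numbers -/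
private theorem RotF_fin (Q : GC → Prop) (e : ℕ)
    (hQ : ∀ c, Q c → Fintype.card c.rep.1.D / 2 = e) : Finite {c : GC // Q c} := by
  have h1 : {c : GC | Q c} ⊆ {c : GC | Fintype.card c.rep.1.D = 2 * e} ∪
      {c : GC | Fintype.card c.rep.1.D = 2 * e + 1} := by
    intro c hc
    have h2 := hQ c hc
    by_cases h3 : Fintype.card c.rep.1.D = 2 * e
    · exact Or.inl h3
    · refine Or.inr ?_
      show Fintype.card c.rep.1.D = 2 * e + 1
      omega
  have h2 : {c : GC | Fintype.card c.rep.1.D = 2 * e}.Finite := gcls_fin (2 * e)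
  have h3 : {c : GC | Fintype.card c.rep.1.D = 2 * e + 1}.Finite := gcls_fin (2 * e + 1)
  exact ((h2.union h3).subset h1).to_subtype

private theorem RotF_comm {C : Type*} (G : C → ℕ → ℕ → ℝ≥0∞) :
    (∑' v : ℕ, ∑' e : ℕ, ∑' c : C, G c v e) = ∑' c : C, ∑' v : ℕ, ∑' e : ℕ, G c v e := by
  have h1 : ∀ v : ℕ, (∑' e : ℕ, ∑' c : C, G c v e) = ∑' c : C, ∑' e : ℕ, G c v e :=
    fun v => ENNReal.tsum_comm
  rw [tsum_congr h1]
  exact ENNReal.tsum_comm

/-- a sum over the rigid classes -/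
theorem g_sum (P : PG2) (F : ℕ → ℕ → ℝ≥0∞) :
    ∑' c : GC, (if Rigid c.rep.1 ∧ P _ (vG c.rep.1.aa c.rep.1.s) (vx c.rep.1.s (Sum.inr false))
      (vx c.rep.1.s (Sum.inr true)) then F (nV c.rep.1.s - 2) (Fintype.card c.rep.1.D / 2) else 0) =
    ∑' v : ℕ, ∑' e : ℕ, ENNReal.ofReal (gP P v e) * F v e := by
  have h1 : ∀ v e : ℕ, ENNReal.ofReal (gP P v e) * F v e =
      ∑' c : GC, if Rigid c.rep.1 ∧ nV c.rep.1.s = v + 2 ∧ Fintype.card c.rep.1.D / 2 = e ∧
        P _ (vG c.rep.1.aa c.rep.1.s) (vx c.rep.1.s (Sum.inr false))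
          (vx c.rep.1.s (Sum.inr true)) then F v e else 0 := by
    intro v e
    have := RotF_fin (fun c : GC => Rigid c.rep.1 ∧ nV c.rep.1.s = v + 2 ∧
      Fintype.card c.rep.1.D / 2 = e ∧ P _ (vG c.rep.1.aa c.rep.1.s)
        (vx c.rep.1.s (Sum.inr false)) (vx c.rep.1.s (Sum.inr true))) e (fun c h => h.2.2.1)
    rw [RotF_ite (fun c : GC => Rigid c.rep.1 ∧ nV c.rep.1.s = v + 2 ∧
      Fintype.card c.rep.1.D / 2 = e ∧ P _ (vG c.rep.1.aa c.rep.1.s)
        (vx c.rep.1.s (Sum.inr false)) (vx c.rep.1.s (Sum.inr true))), gP,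
      ENNReal.ofReal_natCast]
  have h2 : (∑' v : ℕ, ∑' e : ℕ, ENNReal.ofReal (gP P v e) * F v e) =
      ∑' c : GC, ∑' v : ℕ, ∑' e : ℕ, if Rigid c.rep.1 ∧ nV c.rep.1.s = v + 2 ∧
        Fintype.card c.rep.1.D / 2 = e ∧
        P _ (vG c.rep.1.aa c.rep.1.s) (vx c.rep.1.s (Sum.inr false))
          (vx c.rep.1.s (Sum.inr true)) then F v e else 0 := by
    simp_rw [h1]
    exact RotF_comm _
  rw [h2]
  refine tsum_congr fun c => ?_
  have hv : 2 ≤ nV c.rep.1.s := Good.two_le_nV c.rep.2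
  rw [tsum_eq_single (nV c.rep.1.s - 2)]
  · rw [tsum_eq_single (Fintype.card c.rep.1.D / 2)]
    · by_cases h3 : Rigid c.rep.1 ∧ P _ (vG c.rep.1.aa c.rep.1.s) (vx c.rep.1.s (Sum.inr false))
        (vx c.rep.1.s (Sum.inr true))
      · rw [if_pos h3, if_pos ⟨h3.1, by omega, rfl, h3.2⟩]
      · rw [if_neg h3, if_neg (fun h => h3 ⟨h.1, h.2.2.2⟩)]
    · intro e he
      rw [if_neg (fun h => he h.2.2.1.symm)]
  · intro v hv'
    rw [ENNReal.tsum_eq_zero]
    intro e
    rw [if_neg]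
    intro h
    have := h.2.1
    omega

theorem gP_zero (P : PG2) {v e : ℕ} (h : gP P v e ≠ 0) :
    2 ≤ v ∧ 3 * (v + 2) ≤ 2 * (e + 1) ∧ e + 7 ≤ 3 * (v + 2) := by
  have hi : InvP PGT := fun _ _ _ _ _ _ _ _ => trivial
  have h1 : 0 < gP P v e := lt_of_le_of_ne (gP_nonneg P v e) (Ne.symm h)
  have h2 : gP P v e ≤ gP PGT v e := gP_mono (fun _ _ _ _ _ => trivial) v e
  have h3 := g_le_h hi v e
  refine hP_zero hi (v := v) (e := e) ?_
  intro h4
  rw [h4] at h3
  linarith

/-- the sum for the property which is always true -/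
private theorem RotF_all (F : ℕ → ℕ → ℝ≥0∞) :
    ∑' c : GC, (if Rigid c.rep.1 then F (nV c.rep.1.s - 2) (Fintype.card c.rep.1.D / 2) else 0) =
    ∑' v : ℕ, ∑' e : ℕ, ENNReal.ofReal (gP PGT v e) * F v e := by
  rw [← g_sum]
  refine tsum_congr fun c => ?_
  by_cases h : Rigid c.rep.1
  · rw [if_pos h, if_pos ⟨h, trivial⟩]
  · rw [if_neg h, if_neg (fun h' => h h'.1)]

theorem Rg_gP (s E : ℝ≥0∞) : Rg s E = ∑' v : ℕ, ∑' e : ℕ,
    ENNReal.ofReal (gP PGT v e) * (s ^ v * E ^ e) := by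
  rw [← RotF_all (fun v e => s ^ v * E ^ e)]
  rfl

theorem rc_gP (s : ℝ≥0∞) (e : ℕ) : rc' s e = ∑ v ∈ range (e + 1),
    ENNReal.ofReal (gP PGT v e) * s ^ v := by
  have h1 : rc' s e = ∑' v : ℕ, ∑' e' : ℕ, ENNReal.ofReal (gP PGT v e') *
      (if e' = e then s ^ v else 0) := by
    rw [← RotF_all (fun v e' => if e' = e then s ^ v else 0)]
    unfold rc'
    refine tsum_congr fun c => ?_
    by_cases h : Rigid c.rep.1
    · by_cases h2 : Fintype.card c.rep.1.D / 2 = e
      · rw [if_pos ⟨h, h2⟩, if_pos h, if_pos h2]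
      · rw [if_neg (fun h' => h2 h'.2), if_pos h, if_neg h2]
    · rw [if_neg (fun h' => h h'.1), if_neg h]
  have h2 : ∀ v : ℕ, (∑' e' : ℕ, ENNReal.ofReal (gP PGT v e') * (if e' = e then s ^ v else 0)) =
      ENNReal.ofReal (gP PGT v e) * s ^ v := by
    intro v
    rw [tsum_eq_single e]
    · rw [if_pos rfl]
    · intro e' he'
      rw [if_neg he', mul_zero]
  rw [h1, tsum_congr h2]
  refine tsum_eq_sum fun v hv => ?_
  rw [mem_range, not_lt] at hv
  have h3 : gP PGT v e = 0 := by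
    by_contra h4
    have := gP_zero PGT h4
    omega
  rw [h3, ENNReal.ofReal_zero, zero_mul]

theorem RgE_gP (s E : ℝ≥0∞) : RgE s E = ∑' v : ℕ, ∑' e : ℕ,
    ENNReal.ofReal (gP PGT v e) * (s ^ v * ((e : ℝ≥0∞) * E ^ (e - 1))) := by
  rw [← RotF_all (fun v e => s ^ v * ((e : ℝ≥0∞) * E ^ (e - 1)))]
  unfold RgE
  refine tsum_congr fun c => ?_
  by_cases h : Rigid c.rep.1
  · rw [if_pos h, if_pos h]
    ring
  · rw [if_neg h, if_neg h]

theorem RgS_gP (s E : ℝ≥0∞) : RgS s E = ∑' v : ℕ, ∑' e : ℕ,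
    ENNReal.ofReal (gP PGT v e) * ((v : ℝ≥0∞) * s ^ (v - 1) * E ^ e) := by
  rw [← RotF_all (fun v e => (v : ℝ≥0∞) * s ^ (v - 1) * E ^ e)]
  unfold RgS
  refine tsum_congr fun c => ?_
  by_cases h : Rigid c.rep.1
  · rw [if_pos h, if_pos h, Nat.sub_sub]
    ring
  · rw [if_neg h, if_neg h]

end Dia
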