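import Pool.Agent.Dia.LMDefs

/-!
# Module Walk: `sig` and `bk` in a labelled map

`fa c = s (a c)`, `fa⁻¹ c = a⁻¹ (s⁻¹ c)`.  For `IsLM`: `l (fa c) = l (a c)`, so the labels along an
`fa`-cycle change by at most one per step (`la` for `c` and for `a c`, `inv`).  Since `fa` is a
permutation of a finite type, going forward or backward along the cycle returns to the start
(`orderOf`).

* `sig_spec'`: if some later element has a label `< l c` then (steps at most one) some later one has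
  label exactly `l c - 1`; `sig c` is the first such; all elements before it (from `c` on) have labels
  `≥ l c`.
* `bk_spec`: `bk c` is the first element with label `≤ l c` going backwards; it exists since one
  comes back to `c`; the elements strictly between `bk c` and `c` have labels `> l c`.
* if `l (fa⁻¹ c) ≥ l c` then `l (bk c) = l c` (the label can not drop by more than one in a step; if
  `bk c = fa⁻¹ c` it is `≥` and `≤`; otherwise the element after `bk c` has label `≥ l c + 1`).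
* `sig_inj`: `l (fa⁻¹ c) = l c - 1`, `l (fa⁻¹ c') = l c' - 1`, `sig c = sig c' =: x`.  Then `l c = l x + 1
  = l c'`.  Going backwards from `x` all elements are `≥ l x + 1` until `c`, and the one before `c` has
  label `l x`: so `c` is determined by `x` (the element after the first one with label `≤ l x` behind
  `x`).  In fact `c = fa (bk (sig c))`.
* `bk_inj`: similarly `c` = first element after `x = bk c` with label `≤ l x`.
-/

set_option linter.unusedSectionVars false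

namespace Dia
open Equiv Finset PGr

variable {M : LM}

theorem Walk_ai {T : Type} (σ : Perm T) (t : T) : σ (σ⁻¹ t) = t := σ.apply_symm_apply t

theorem Walk_ia {T : Type} (σ : Perm T) (t : T) : σ⁻¹ (σ t) = t := σ.symm_apply_apply t

/-- `l (fa c) = l (a c)` -/
theorem LM.IsLM.l_fa' (h : M.IsLM) (c : M.T) : M.l (M.fa c) = M.l (M.a c) := by
  change M.l (M.s (M.a c)) = _
  exact h.ls _

theorem LM.IsLM.l_fa (h : M.IsLM) (c : M.T) :
    M.l (M.fa c) = M.l c - 1 ∨ M.l (M.fa c) = M.l c ∨ M.l (M.fa c) = M.l c + 1 := by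
  rw [h.l_fa']
  have h1 := h.la c
  have h2 := h.la (M.a c)
  rw [h.inv] at h2
  omega

theorem Walk_succ (c : M.T) (n : ℕ) : (M.fa ^ (n + 1)) c = M.fa ((M.fa ^ n) c) := by
  rw [pow_succ', Perm.mul_apply]

/-- first descent -/
theorem Walk_first (h : M.IsLM) (c : M.T) : ∀ n : ℕ, M.l ((M.fa ^ n) c) < M.l c →
    ∃ k, k + 1 ≤ n ∧ M.l ((M.fa ^ (k + 1)) c) = M.l c - 1 ∧
      ∀ j ≤ k, M.l c ≤ M.l ((M.fa ^ j) c) := by
  intro n hn
  classical
  have hex : ∃ n, M.l ((M.fa ^ n) c) < M.l c := ⟨n, hn⟩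
  have hm := Nat.find_spec hex
  have hmin : ∀ j < Nat.find hex, M.l c ≤ M.l ((M.fa ^ j) c) := fun j hj =>
    not_lt.mp (Nat.find_min hex hj)
  have hle : Nat.find hex ≤ n := Nat.find_min' hex hn
  set m := Nat.find hex
  clear_value m
  rcases Nat.eq_zero_or_pos m with h0 | h0
  · rw [h0] at hm; simp at hm
  · obtain ⟨k, rfl⟩ := Nat.exists_eq_add_of_le' h0
    refine ⟨k, hle, ?_, fun j hj => hmin j (by omega)⟩
    have h1 := hmin k (by omega)
    have h2 := h.l_fa ((M.fa ^ k) c)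
    rw [Walk_succ] at hm ⊢
    omega

/-- recognise `sig` -/
theorem LM.IsLM.sig_eq (h : M.IsLM) (c : M.T) (k : ℕ) (hk : M.l ((M.fa ^ (k + 1)) c) = M.l c - 1)
    (hj : ∀ j ≤ k, M.l c ≤ M.l ((M.fa ^ j) c)) : M.sig c = (M.fa ^ (k + 1)) c := by
  classical
  have hex : ∃ k : ℕ, M.l ((M.fa ^ (k + 1)) c) = M.l c - 1 := ⟨k, hk⟩
  have hf : Nat.find hex = k := by
    rw [Nat.find_eq_iff]
    refine ⟨hk, fun n hn he => ?_⟩
    have := hj (n + 1) (by omega)
    omega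
  unfold LM.sig
  rw [dif_pos hex]
  congr 2
  rw [← hf]

theorem LM.IsLM.sig_spec' (h : M.IsLM) (c : M.T) (n : ℕ) (hn : M.l ((M.fa ^ n) c) < M.l c) :
    ∃ k, M.sig c = (M.fa ^ (k + 1)) c ∧ k + 1 ≤ n ∧ M.l (M.sig c) = M.l c - 1 ∧
      ∀ j ≤ k, M.l c ≤ M.l ((M.fa ^ j) c) := by
  obtain ⟨k, hk1, hk2, hk3⟩ := Walk_first h c n hn
  have he := h.sig_eq c k hk2 hk3
  exact ⟨k, he, hk1, by rw [he]; exact hk2, hk3⟩

/-- the inverse is a power -/
theorem Walk_inv (c : M.T) : ∃ n : ℕ, (M.fa ^ n) c = M.fa⁻¹ c := by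
  refine ⟨orderOf M.fa - 1, ?_⟩
  have h1 : M.fa ^ (orderOf M.fa - 1) = M.fa⁻¹ := by
    rw [eq_inv_iff_mul_eq_one, ← pow_succ, Nat.sub_add_cancel (orderOf_pos M.fa),
      pow_orderOf_eq_one]
  rw [h1]

theorem LM.IsLM.sig_spec (h : M.IsLM) (c : M.T) (hc : M.l (M.fa⁻¹ c) = M.l c - 1) :
    ∃ k, M.sig c = (M.fa ^ (k + 1)) c ∧ M.l (M.sig c) = M.l c - 1 ∧
      ∀ j ≤ k, M.l c ≤ M.l ((M.fa ^ j) c) := by
  obtain ⟨n, hn⟩ := Walk_inv c
  obtain ⟨k, h1, _, h3, h4⟩ := h.sig_spec' c n (by rw [hn]; omega)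
  exact ⟨k, h1, h3, h4⟩

theorem Walk_back (c : M.T) (n : ℕ) : (M.fa ^ n) ((M.fa⁻¹ ^ n) c) = c := by
  rw [← Perm.mul_apply, inv_pow, mul_inv_cancel, Perm.one_apply]

theorem Walk_back' (c : M.T) (n j : ℕ) (hj : j ≤ n) :
    (M.fa ^ j) ((M.fa⁻¹ ^ n) c) = (M.fa⁻¹ ^ (n - j)) c := by
  obtain ⟨m, rfl⟩ := Nat.exists_eq_add_of_le hj
  rw [pow_add, Perm.mul_apply, Walk_back, Nat.add_sub_cancel_left]

theorem LM.IsLM.bk_spec (h : M.IsLM) (c : M.T) :
    ∃ k, (M.fa ^ (k + 1)) (M.bk c) = c ∧ M.l (M.bk c) ≤ M.l c ∧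
      ∀ j, 0 < j → j < k + 1 → M.l c < M.l ((M.fa ^ j) (M.bk c)) := by
  classical
  have hex : ∃ k : ℕ, M.l ((M.fa⁻¹ ^ (k + 1)) c) ≤ M.l c := by
    refine ⟨orderOf M.fa⁻¹ - 1, ?_⟩
    rw [Nat.sub_add_cancel (orderOf_pos _), pow_orderOf_eq_one]
    exact le_rfl
  have hbk : M.bk c = (M.fa⁻¹ ^ (Nat.find hex + 1)) c := by
    unfold LM.bk
    rw [dif_pos hex]
  refine ⟨Nat.find hex, ?_, ?_, ?_⟩
  · rw [hbk, Walk_back]
  · rw [hbk]; exact Nat.find_spec hex
  · intro j hj0 hj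
    rw [hbk, Walk_back' _ _ _ hj.le]
    have : Nat.find hex + 1 - j = (Nat.find hex - j) + 1 := by omega
    rw [this]
    exact not_le.mp (Nat.find_min hex (by omega))

/-- recognise `bk` -/
theorem LM.IsLM.bk_eq (h : M.IsLM) (x c : M.T) (k : ℕ) (hk : (M.fa ^ (k + 1)) x = c)
    (hx : M.l x ≤ M.l c) (hj : ∀ j, 0 < j → j < k + 1 → M.l c < M.l ((M.fa ^ j) x)) :
    M.bk c = x := by
  classical
  have hxe : (M.fa⁻¹ ^ (k + 1)) c = x := by
    rw [← hk, ← Perm.mul_apply, inv_pow, inv_mul_cancel, Perm.one_apply]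
  have hex : ∃ k : ℕ, M.l ((M.fa⁻¹ ^ (k + 1)) c) ≤ M.l c := ⟨k, by rw [hxe]; exact hx⟩
  have hf : Nat.find hex = k := by
    rw [Nat.find_eq_iff]
    refine ⟨by rw [hxe]; exact hx, fun n hn he => ?_⟩
    have h1 := hj (k - n) (by omega) (by omega)
    have h2 : (M.fa ^ (k - n)) x = (M.fa⁻¹ ^ (n + 1)) c := by
      rw [← hxe, Walk_back' _ _ _ (by omega)]
      congr 2
      omega
    rw [h2] at h1
    omega
  unfold LM.bk
  rw [dif_pos hex]
  rw [← hxe]
  congr 2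
  rw [← hf]

theorem LM.IsLM.l_bk (h : M.IsLM) (c : M.T) (hc : M.l c ≤ M.l (M.fa⁻¹ c)) :
    M.l (M.bk c) = M.l c := by
  obtain ⟨k, h1, h2, h3⟩ := h.bk_spec c
  rcases Nat.eq_zero_or_pos k with h0 | h0
  · subst h0
    rw [zero_add, pow_one] at h1
    have : M.bk c = M.fa⁻¹ c := Perm.eq_inv_iff_eq.mpr h1
    rw [this] at h2 ⊢
    omega
  · have h4 := h3 1 one_pos (by omega)
    rw [pow_one] at h4
    have h5 := h.l_fa (M.bk c)
    omega

theorem LM.IsLM.sig_inj (h : M.IsLM) {c c' : M.T} (hc : M.l (M.fa⁻¹ c) = M.l c - 1)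
    (hc' : M.l (M.fa⁻¹ c') = M.l c' - 1) (he : M.sig c = M.sig c') : c = c' := by
  have key : ∀ d, M.l (M.fa⁻¹ d) = M.l d - 1 → M.bk (M.sig d) = M.fa⁻¹ d := by
    intro d hd
    obtain ⟨k, h1, h2, h3⟩ := h.sig_spec d hd
    refine h.bk_eq (M.fa⁻¹ d) (M.sig d) (k + 1) ?_ ?_ ?_
    · rw [h1, pow_succ, Perm.mul_apply, Walk_ai]
    · omega
    · intro j hj0 hj
      obtain ⟨i, rfl⟩ := Nat.exists_eq_add_of_le' hj0
      have h4 := h3 i (by omega)
      have h5 : (M.fa ^ (i + 1)) (M.fa⁻¹ d) = (M.fa ^ i) d := by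
        rw [pow_succ, Perm.mul_apply, Walk_ai]
      rw [h5]
      omega
  have h1 := key c hc
  have h2 := key c' hc'
  rw [he, h2] at h1
  exact (M.fa⁻¹).injective h1.symm

theorem LM.IsLM.bk_inj (h : M.IsLM) {c c' : M.T} (hc : M.l c ≤ M.l (M.fa⁻¹ c))
    (hc' : M.l c' ≤ M.l (M.fa⁻¹ c')) (he : M.bk c = M.bk c') : c = c' := by
  obtain ⟨k, h1, h2, h3⟩ := h.bk_spec c
  obtain ⟨k', h1', h2', h3'⟩ := h.bk_spec c'
  have e1 := h.l_bk c hc
  have e2 := h.l_bk c' hc'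
  rw [← he] at h1' h3' e2
  rcases lt_trichotomy k k' with hlt | heq | hgt
  · have h4 := h3' (k + 1) (by omega) (by omega)
    rw [h1] at h4
    omega
  · subst heq
    rw [← h1, ← h1']
  · have h4 := h3 (k' + 1) (by omega) (by omega)
    rw [h1'] at h4
    omega

/-- the element before `sig c` has a higher label -/
theorem LM.IsLM.l_before_sig (h : M.IsLM) (c : M.T) (hc : M.l (M.fa⁻¹ c) = M.l c - 1) :
    M.l (M.fa⁻¹ (M.sig c)) = M.l (M.sig c) + 1 := by
  obtain ⟨k, h1, h2, h3⟩ := h.sig_spec c hc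
  have h4 : M.fa⁻¹ (M.sig c) = (M.fa ^ k) c := by
    rw [h1, Walk_succ, Walk_ia]
  have h5 := h3 k le_rfl
  have h6 := h.l_fa ((M.fa ^ k) c)
  rw [← Walk_succ, ← h1] at h6
  rw [h4]
  omega

/-- the element after `bk c` does not have a lower label -/
theorem LM.IsLM.l_after_bk (h : M.IsLM) (c : M.T) (hc : M.l c ≤ M.l (M.fa⁻¹ c)) :
    M.l (M.bk c) ≤ M.l (M.fa (M.bk c)) := by
  obtain ⟨k, h1, h2, h3⟩ := h.bk_spec c
  have e1 := h.l_bk c hc
  rcases Nat.eq_zero_or_pos k with h0 | h0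
  · subst h0
    rw [zero_add, pow_one] at h1
    rw [h1]
    exact h2
  · have h4 := h3 1 one_pos (by omega)
    rw [pow_one] at h4
    omega

end Dia
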