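import Pool.Agent.Dia.SuccF
import Pool.Agent.Dia.Walk
import Pool.Agent.Dia.PsiConn

/-!
# Module SigQ: the rotation of a labelled quadrangulation `M` in terms of `N = psi M`

`N` is a labelled map (`psi_isLM`, `psi_conn`), so the theorems of `Walk` apply to `N`.

`sig_succ`: if a later element of the `N.fa`-cycle of `c` has a smaller label then `Succ c (sig c)`.
Strong induction on the number `n` of steps from `c` to `sig c`.  If `l (fa c) = l c - 1`: `sig c = fa c`,
use `fa_dn`.  If `l (fa c) = l c`: `sig c = sig (fa c)` with fewer steps, so `Succ (fa c) (sig c)`, and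
by `fa_eq` and `succ_congr` `Succ c (sig c)`.  If `l (fa c) = l c + 1`: let `u` be as in `fa_up`; the first
element after `fa c` with label `l c` is `sig (fa c)`, reached in fewer steps, so
`Succ (fa c) (sig (fa c))`, so `sig (fa c) = u` by uniqueness; `sig c = sig u` (the elements up to `u` have
labels `≥ l c`), fewer steps, so `Succ u (sig u)`, and by `s (a u) = a c` and `succ_congr` `Succ c (sig c)`.

`s_a_dn`: `l (fa⁻¹ c) = l c - 1`.  Let `b = N.a c0`, `c0 = N.s⁻¹ c`, so `b = fa⁻¹ c`, and `b`, `c0` are mates,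
`l c0 = l c`, `l b = l c0 - 1`: by `mate_cases` for `c0`: `ph b = c0`, `s c0 ∈ up`, so `c = N.s c0 = s c0`.
The face of `c0`: `ph c0 = a (s c0) = a c`, label `l c - 1`; the next corner `ph (ph c0)` has label
`l c - 2` (because `ph` of it is `b ∈ up`, `l b = l c - 1`), that is: `a (s (a c))` has label `l c - 2`, and
`s (a c)` has label `l c - 1`: `s (a c) ∈ up`.  So `Succ c (s (a c))` with `k = 0`, and there is a smaller
label in the `fa`-cycle (at `fa⁻¹ c`), so `sig_succ` and uniqueness give `sig c = s (a c)`.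

`s_a_up`: `l (fa⁻¹ c) ≥ l c`, `x = bk c`, `l x = l c`, `d = fa⁻¹ c`.  If `l d = l c`: `x = d` and `fa_eq` for `d`
says `s (a c) = a d`.  If `l d = l c + 1`: `x ≠ d`, the elements strictly between `x` and `c` have labels
`≥ l c + 1`, `l (fa x) = l x + 1`, and `sig (fa x) = c`; so `Succ (fa x) c` by `sig_succ`; by `fa_up` for `x`
there is `u` with `Succ (fa x) u`, `s (a u) = a x`; `u = c`.

`s_up`: `l (N.a c) = l c + 1`: `N.a c = ph c = a (s c)`, so `s c = a (N.a c)`.
`s_up'`: otherwise `s c ∈ up` by `mate_cases`, `N.s c = s c` (`ret_of_mem`).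
-/

set_option linter.unusedSectionVars false

namespace Dia
open Equiv Finset PGr

variable {M : LM}

private theorem sigQ_pow_succ {T : Type} (f : Perm T) (j : ℕ) (c : T) :
    (f ^ j) (f c) = (f ^ (j + 1)) c := by
  rw [pow_succ, Perm.mul_apply]

private theorem sigQ_pow_add {T : Type} (f : Perm T) (i j : ℕ) (c : T) :
    (f ^ i) ((f ^ j) c) = (f ^ (i + j)) c := by
  rw [pow_add, Perm.mul_apply]

theorem LM.IsLQ.sig_succ (h : M.IsLQ) (hr : M.r ∈ M.up) (c : (M.psi hr).T) (n : ℕ)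
    (hn : (M.psi hr).l (((M.psi hr).fa ^ n) c) < (M.psi hr).l c) :
    M.Succ c.1 ((M.psi hr).sig c).1 := by
  have hN : (M.psi hr).IsLM := h.psi_isLM hr (h.psi_conn hr)
  induction n using Nat.strong_induction_on generalizing c with
  | _ n ih =>
    obtain ⟨k, hk1, hk2, hk3, hk4⟩ := hN.sig_spec' c n hn
    have hac : M.a c.1 ∉ M.up := by
      rw [h.a_mem_up]
      exact not_not.2 c.2
    rcases h.fa_cases hr c with hf | hf | hf
    · have hk0 : k = 0 := by
        by_contra hne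
        have h1 := hk4 1 (by omega)
        rw [pow_one, hf] at h1
        omega
      subst hk0
      rw [hk1, zero_add, pow_one]
      exact h.fa_dn hr c hf
    · have hk0 : k ≠ 0 := by
        rintro rfl
        rw [hk1, zero_add, pow_one, hf] at hk3
        omega
      obtain ⟨k', rfl⟩ := Nat.exists_eq_succ_of_ne_zero hk0
      have h1 : (M.psi hr).sig ((M.psi hr).fa c) = (M.psi hr).sig c := by
        rw [hN.sig_eq ((M.psi hr).fa c) k', sigQ_pow_succ, hk1]
        · rw [sigQ_pow_succ, ← hk1, hk3, hf]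
        · intro j hj
          rw [sigQ_pow_succ, hf]
          exact hk4 (j + 1) (by omega)
      have h2 := ih (k' + 1) (by omega) ((M.psi hr).fa c) (by
        rw [sigQ_pow_succ, ← hk1, hk3, hf]
        omega)
      rw [h1] at h2
      exact (LM.succ_congr (h.fa_eq hr c hf) hac _).1 h2
    · obtain ⟨u, hu1, hu2, hu3⟩ := h.fa_up hr c hf
      have hk0 : k ≠ 0 := by
        rintro rfl
        rw [hk1, zero_add, pow_one, hf] at hk3
        omega
      obtain ⟨k', rfl⟩ := Nat.exists_eq_succ_of_ne_zero hk0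
      have hlow : (M.psi hr).l (((M.psi hr).fa ^ (k' + 1)) ((M.psi hr).fa c)) <
          (M.psi hr).l ((M.psi hr).fa c) := by
        rw [sigQ_pow_succ, ← hk1, hk3, hf]
        omega
      have h2 := ih (k' + 1) (by omega) ((M.psi hr).fa c) hlow
      have h3 : (M.psi hr).sig ((M.psi hr).fa c) = u := Subtype.ext (h2.unique hu1)
      obtain ⟨k1, hk5, hk6, hk7, hk8⟩ := hN.sig_spec' ((M.psi hr).fa c) (k' + 1) hlow
      rw [h3, sigQ_pow_succ] at hk5
      have h4 : k1 + 1 + 1 ≤ k' + 1 := by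
        rcases Nat.lt_or_ge (k' + 1) (k1 + 1 + 1) with h5 | h5
        · exfalso
          have h6 : k1 = k' := by omega
          subst h6
          rw [← hk1] at hk5
          rw [← hk5] at hk3
          omega
        · exact h5
      obtain ⟨m, hm⟩ := Nat.exists_eq_add_of_le h4
      have h5 : ∀ i, ((M.psi hr).fa ^ i) u = ((M.psi hr).fa ^ (i + (k1 + 1 + 1))) c := by
        intro i
        rw [hk5, sigQ_pow_add]
      have hidx : m + 1 + (k1 + 1 + 1) = k' + 1 + 1 := by omega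
      have h6 : (M.psi hr).sig u = (M.psi hr).sig c := by
        rw [hN.sig_eq u m, h5, hk1, hidx]
        · rw [h5, hidx, ← hk1, hk3, hu2]
        · intro j hj
          rw [h5, hu2]
          exact hk4 _ (by omega)
      have h7 := ih (m + 1) (by omega) u (by
        rw [h5, hidx, ← hk1, hk3, hu2]
        omega)
      rw [h6] at h7
      exact (LM.succ_congr hu3 hac _).1 h7

theorem LM.IsLQ.s_a_dn (h : M.IsLQ) (hr : M.r ∈ M.up) (c : (M.psi hr).T)
    (hl : (M.psi hr).l ((M.psi hr).fa⁻¹ c) = (M.psi hr).l c - 1) :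
    M.s (M.a c.1) = ((M.psi hr).sig c).1 := by
  have hN : (M.psi hr).IsLM := h.psi_isLM hr (h.psi_conn hr)
  obtain ⟨k, hk1, hk2, hk3⟩ := hN.sig_spec c hl
  have h1 : M.Succ c.1 ((M.psi hr).sig c).1 := h.sig_succ hr c (k + 1) (by
    rw [← hk1, hk2]
    omega)
  -- the face
  obtain ⟨c0, hc0⟩ : ∃ c0 : (M.psi hr).T, (M.psi hr).s c0 = c :=
    ⟨(M.psi hr).s⁻¹ c, (M.psi hr).s.apply_symm_apply c⟩
  have hb : (M.psi hr).fa⁻¹ c = (M.psi hr).a c0 := by
    rw [Perm.inv_eq_iff_eq, LM.fa, Perm.mul_apply, hN.inv, hc0]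
  have hlc0 : (M.psi hr).l c0 = (M.psi hr).l c := by
    rw [← hc0, hN.ls]
  rw [hb, ← hlc0] at hl
  have hlb : M.l (ret M.ph M.up c0).1 = M.l c0.1 - 1 := hl
  have hlc0' : M.l c0.1 = M.l c.1 := hlc0
  rcases h.mate_cases c0 with ⟨h2, -⟩ | ⟨h2, -⟩ | ⟨-, h3, h4⟩
  · omega
  · omega
  have hsc0 : M.s c0.1 = c.1 := by
    have h5 : (M.psi hr).s c0 = ⟨M.s c0.1, h4⟩ := ret_of_mem M.s M.up c0 h4
    rw [hc0] at h5
    exact (congrArg Subtype.val h5).symm
  have hphc0 : M.ph c0.1 = M.a c.1 := by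
    show M.a (M.s c0.1) = _
    rw [hsc0]
  have hw1 : M.ph (M.ph (M.ph c0.1)) = (ret M.ph M.up c0).1 := by
    have h5 := h.four (ret M.ph M.up c0).1
    rw [h3] at h5
    exact h5
  have hw2 : M.l (M.ph (M.ph (M.ph c0.1))) = M.l (M.ph (M.ph c0.1)) + 1 := by
    rw [← h.ph_mem_up, hw1]
    exact (ret M.ph M.up c0).2
  rw [hw1, hlb, hphc0] at hw2
  have hw3 : M.l (M.a (M.s (M.a c.1))) = M.l c.1 - 2 := by
    have h5 : M.l (M.ph (M.a c.1)) = M.l c.1 - 2 := by omega
    exact h5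
  have hcup : M.l (M.a c.1) = M.l c.1 - 1 := LM.mem_up.1 c.2
  have hsup : M.s (M.a c.1) ∈ M.up := by
    rw [LM.mem_up, hw3, h.ls, hcup]
    omega
  have h2 : M.Succ c.1 (M.s (M.a c.1)) := ⟨0, by rw [zero_add, pow_one], hsup, fun j hj => by omega⟩
  exact h2.unique h1

theorem LM.IsLQ.s_a_up (h : M.IsLQ) (hr : M.r ∈ M.up) (c : (M.psi hr).T)
    (hl : ¬ (M.psi hr).l ((M.psi hr).fa⁻¹ c) = (M.psi hr).l c - 1) :
    M.s (M.a c.1) = M.a ((M.psi hr).bk c).1 := by
  have hN : (M.psi hr).IsLM := h.psi_isLM hr (h.psi_conn hr)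
  obtain ⟨d, hd⟩ : ∃ d : (M.psi hr).T, (M.psi hr).fa d = c :=
    ⟨(M.psi hr).fa⁻¹ c, (M.psi hr).fa.apply_symm_apply c⟩
  have hd' : (M.psi hr).fa⁻¹ c = d := by rw [Perm.inv_eq_iff_eq, hd]
  rw [hd'] at hl
  have hcases := h.fa_cases hr d
  rw [hd] at hcases
  rcases hcases with h1 | h1 | h1
  · -- `l d = l c + 1`
    obtain ⟨k, hk1, hk2, hk3⟩ := hN.bk_spec c
    have hlx : (M.psi hr).l ((M.psi hr).bk c) = (M.psi hr).l c := hN.l_bk c (by
      rw [hd']
      omega)
    have hk0 : k ≠ 0 := by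
      rintro rfl
      rw [zero_add, pow_one] at hk1
      have h2 := (M.psi hr).fa.injective (hk1.trans hd.symm)
      rw [h2] at hlx
      omega
    obtain ⟨k', rfl⟩ := Nat.exists_eq_succ_of_ne_zero hk0
    have hfx : (M.psi hr).l ((M.psi hr).fa ((M.psi hr).bk c)) =
        (M.psi hr).l ((M.psi hr).bk c) + 1 := by
      have h2 := hk3 1 one_pos (by omega)
      rw [pow_one] at h2
      rcases h.fa_cases hr ((M.psi hr).bk c) with h3 | h3 | h3
      · omega
      · omega
      · exact h3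
    have hsig : (M.psi hr).sig ((M.psi hr).fa ((M.psi hr).bk c)) = c := by
      rw [hN.sig_eq _ k', sigQ_pow_succ, hk1]
      · rw [sigQ_pow_succ, hk1, hfx, hlx]
        omega
      · intro j hj
        rw [sigQ_pow_succ, hfx, hlx]
        have h2 := hk3 (j + 1) (by omega) (by omega)
        omega
    have hS : M.Succ ((M.psi hr).fa ((M.psi hr).bk c)).1 c.1 := by
      have h2 := h.sig_succ hr ((M.psi hr).fa ((M.psi hr).bk c)) (k' + 1) (by
        rw [sigQ_pow_succ, hk1, hfx, hlx]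
        omega)
      rwa [hsig] at h2
    obtain ⟨u, hu1, hu2, hu3⟩ := h.fa_up hr _ hfx
    have h2 : u.1 = c.1 := hu1.unique hS
    rw [← h2]
    exact hu3
  · -- `l d = l c`
    have hx : (M.psi hr).bk c = d := hN.bk_eq d c 0 (by rw [zero_add, pow_one, hd]) (by omega)
      (fun j hj1 hj2 => by omega)
    rw [hx]
    have h2 := h.fa_eq hr d (by rw [hd]; exact h1)
    rw [hd] at h2
    exact h2
  · exact absurd (by omega) hl

theorem LM.IsLQ.s_up (h : M.IsLQ) (hr : M.r ∈ M.up) (c : (M.psi hr).T)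
    (hl : (M.psi hr).l ((M.psi hr).a c) = (M.psi hr).l c + 1) :
    M.s c.1 = M.a ((M.psi hr).a c).1 := by
  have hl' : M.l (ret M.ph M.up c).1 = M.l c.1 + 1 := hl
  rcases h.mate_cases c with ⟨-, h2⟩ | ⟨h2, -⟩ | ⟨h2, -⟩
  · show M.s c.1 = M.a (ret M.ph M.up c).1
    rw [h2]
    show M.s c.1 = M.a (M.a (M.s c.1))
    rw [h.inv]
  · omega
  · omega

theorem LM.IsLQ.s_up' (h : M.IsLQ) (hr : M.r ∈ M.up) (c : (M.psi hr).T)
    (hl : ¬ (M.psi hr).l ((M.psi hr).a c) = (M.psi hr).l c + 1) :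
    M.s c.1 = ((M.psi hr).s c).1 := by
  have hl' : ¬ M.l (ret M.ph M.up c).1 = M.l c.1 + 1 := hl
  have key : M.s c.1 ∈ M.up := by
    rcases h.mate_cases c with ⟨h2, -⟩ | ⟨-, -, -, h2, -⟩ | ⟨-, -, h2⟩
    · exact absurd h2 hl'
    · exact h2
    · exact h2
  have h5 : (M.psi hr).s c = ⟨M.s c.1, key⟩ := ret_of_mem M.s M.up c key
  rw [h5]

end Dia
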