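import Pool.Agent.Dia.Face

/-!
# Module SuccF: the successor in `M` and the faces of `psi M`

Let `N = M.psi hr`, `c : N.T`, `b = N.a c` (the mate of `c`), `N.fa c = N.s b` = the first element
of `up` in `s b, s (s b), ..`; its label is `l b`.  For `c ∈ up` we have `a c ∉ up`.
Use `LM.IsLQ.mate_cases`.

`fa_dn`: `l b = l c - 1`: `ph b = c`, i.e. `a (s b) = c`, `s b = a c ∉ up`.  So the first element of `up`
among `s b = a c, s (a c), ..` is the first one among `s (a c), ..`: `Succ c (fa c)`.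
`fa_eq`: `l b = l c`: `s b ∈ up`, so `fa c = s b`, and `ph (ph b) = c` reads `a (s (a (s b))) = c`, that
is `s (a (fa c)) = a c`.
`fa_up`: `l b = l c + 1`: `b = ph c`, `c` is the mate of `b` and `l c = l b - 1`, so (mate_cases for
`b`) `s b ∈ up`, `fa c = s b =: d`, `l d = l c + 1`.  `ph b = a d` has label `l c`; `ph (ph b) = a (s (a d))`
is the fourth corner, its label is `l c - 1` (`ph` of it is `c ∈ up`).  So `u := s (a d)` has
label `l c`, `a u` has label `l c - 1`, so `u ∈ up` and `Succ d u` (with `k = 0`); and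
`ph (a u) = c` reads `s (a u) = a c`.
-/

set_option linter.unusedSectionVars false

namespace Dia
open Equiv Finset PGr

variable {M : LM}

theorem LM.Succ.unique {c d d' : M.T} (h : M.Succ c d) (h' : M.Succ c d') : d = d' := by
  obtain ⟨k, hk, hd, hm⟩ := h
  obtain ⟨k', hk', hd', hm'⟩ := h'
  rcases lt_trichotomy k k' with hlt | heq | hlt
  · exact absurd (hk ▸ hd) (hm' k hlt)
  · subst heq
    exact hk.symm.trans hk'
  · exact absurd (hk' ▸ hd') (hm k' hlt)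

/-- the label of the successor is one less -/
theorem LM.Succ.l_eq (h : M.IsLQ) {c d : M.T} (hc : c ∈ M.up) (hs : M.Succ c d) :
    M.l d = M.l c - 1 := by
  obtain ⟨k, hk, hd, hm⟩ := hs
  rw [← hk, Face_l_pow h.ls]
  exact LM.mem_up.1 hc

/-- if `a c' , a c` are consecutive then the successors agree -/
theorem LM.succ_congr {c c' : M.T} (he : M.s (M.a c') = M.a c) (hc : M.a c ∉ M.up) (d : M.T) :
    M.Succ c' d ↔ M.Succ c d := by
  have key : ∀ k, (M.s ^ (k + 1)) (M.a c') = (M.s ^ k) (M.a c) := by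
    intro k
    rw [pow_succ, Perm.mul_apply, he]
  constructor
  · rintro ⟨k, hk, hd, hm⟩
    rw [key] at hk
    rcases k with _ | k
    · exfalso
      apply hc
      have : M.a c = d := hk
      rw [this]; exact hd
    · refine ⟨k, hk, hd, fun j hj => ?_⟩
      have := hm (j + 1) (by omega)
      rwa [key] at this
  · rintro ⟨k, hk, hd, hm⟩
    refine ⟨k + 1, by rw [key]; exact hk, hd, fun j hj => ?_⟩
    rw [key]
    rcases j with _ | j
    · exact hc
    · exact hm j (by omega)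

/-- the successor exists if and only if the vertex of `a c` has an element of `up` -/
theorem LM.exists_succ {c : M.T} (z : M.T) (hz : z ∈ M.up) (hs : M.s.SameCycle (M.a c) z) :
    ∃ d, M.Succ c d := by
  classical
  have hex : ∃ k : ℕ, (M.s ^ (k + 1)) (M.a c) ∈ M.up := by
    obtain ⟨i, hi, _, he⟩ := hs.exists_pow_eq''
    obtain ⟨k, rfl⟩ : ∃ k, i = k + 1 := ⟨i - 1, by omega⟩
    exact ⟨k, by rw [he]; exact hz⟩
  exact ⟨_, Nat.find hex, rfl, Nat.find_spec hex, fun j hj => Nat.find_min hex hj⟩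

theorem SuccF_l_fa (h : M.IsLQ) (hr : M.r ∈ M.up) (c : (M.psi hr).T) :
    (M.psi hr).l ((M.psi hr).fa c) = M.l (ret M.ph M.up c).1 := by
  obtain ⟨k, _, hk, _⟩ := exists_ret M.s M.up (ret M.ph M.up c)
  show M.l (ret M.s M.up (ret M.ph M.up c)).1 = M.l (ret M.ph M.up c).1
  rw [← hk]
  exact Face_l_pow h.ls k _

theorem LM.IsLQ.fa_cases (h : M.IsLQ) (hr : M.r ∈ M.up) (c : (M.psi hr).T) :
    (M.psi hr).l ((M.psi hr).fa c) = (M.psi hr).l c - 1 ∨
    (M.psi hr).l ((M.psi hr).fa c) = (M.psi hr).l c ∨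
    (M.psi hr).l ((M.psi hr).fa c) = (M.psi hr).l c + 1 := by
  rw [SuccF_l_fa h hr c]
  show M.l (ret M.ph M.up c).1 = M.l c.1 - 1 ∨ M.l (ret M.ph M.up c).1 = M.l c.1 ∨
    M.l (ret M.ph M.up c).1 = M.l c.1 + 1
  rcases h.mate_cases c with ⟨l1, _⟩ | ⟨l1, _⟩ | ⟨l1, _⟩
  · exact Or.inr (Or.inr l1)
  · exact Or.inr (Or.inl l1)
  · exact Or.inl l1

theorem LM.IsLQ.fa_dn (h : M.IsLQ) (hr : M.r ∈ M.up) (c : (M.psi hr).T)
    (hl : (M.psi hr).l ((M.psi hr).fa c) = (M.psi hr).l c - 1) :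
    M.Succ c.1 ((M.psi hr).fa c).1 := by
  rw [SuccF_l_fa h hr c] at hl
  replace hl : M.l (ret M.ph M.up c).1 = M.l c.1 - 1 := hl
  show M.Succ c.1 (ret M.s M.up (ret M.ph M.up c)).1
  set b := ret M.ph M.up c with hb
  have e : M.ph b.1 = c.1 := by
    rcases h.mate_cases c with ⟨l1, _⟩ | ⟨l1, _⟩ | ⟨l1, e1, _⟩
    · rw [← hb] at l1; omega
    · rw [← hb] at l1; omega
    · exact e1
  have es : M.s b.1 = M.a c.1 := by
    have : M.a (M.a (M.s b.1)) = M.a c.1 := congrArg M.a e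
    rwa [h.inv] at this
  have hac : M.a c.1 ∉ M.up := by
    rw [h.a_mem_up]
    exact fun hn => hn c.2
  obtain ⟨k, hk, he, hm⟩ := exists_ret M.s M.up b
  obtain ⟨k, rfl⟩ : ∃ k', k = k' + 1 := ⟨k - 1, by omega⟩
  have key : ∀ j, (M.s ^ (j + 1)) b.1 = (M.s ^ j) (M.a c.1) := by
    intro j
    rw [pow_succ, Perm.mul_apply, es]
  rcases k with _ | k
  · exfalso
    apply hac
    have : M.a c.1 = (ret M.s M.up b).1 := by
      rw [← he, key]; rfl
    rw [this]
    exact (ret M.s M.up b).2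
  · refine ⟨k, by rw [← key]; exact he, (ret M.s M.up b).2, fun j hj => ?_⟩
    rw [← key]
    exact hm (j + 1 + 1) (by omega) (by omega)

theorem LM.IsLQ.fa_eq (h : M.IsLQ) (hr : M.r ∈ M.up) (c : (M.psi hr).T)
    (hl : (M.psi hr).l ((M.psi hr).fa c) = (M.psi hr).l c) :
    M.s (M.a ((M.psi hr).fa c).1) = M.a c.1 := by
  rw [SuccF_l_fa h hr c] at hl
  replace hl : M.l (ret M.ph M.up c).1 = M.l c.1 := hl
  show M.s (M.a (ret M.s M.up (ret M.ph M.up c)).1) = M.a c.1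
  rcases h.mate_cases c with ⟨l1, _⟩ | ⟨l1, e1, e2, s1, s2⟩ | ⟨l1, e1, _⟩
  · omega
  · rw [ret_of_mem M.s M.up (ret M.ph M.up c) s2]
    have : M.a (M.ph (M.ph (ret M.ph M.up c).1)) = M.a c.1 := congrArg M.a e2
    rw [← this]
    show M.s (M.a (M.s (ret M.ph M.up c).1)) =
      M.a (M.a (M.s (M.a (M.s (ret M.ph M.up c).1))))
    rw [h.inv]
  · omega

theorem LM.IsLQ.fa_up (h : M.IsLQ) (hr : M.r ∈ M.up) (c : (M.psi hr).T)
    (hl : (M.psi hr).l ((M.psi hr).fa c) = (M.psi hr).l c + 1) :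
    ∃ u : (M.psi hr).T, M.Succ ((M.psi hr).fa c).1 u.1 ∧ (M.psi hr).l u = (M.psi hr).l c ∧
      M.s (M.a u.1) = M.a c.1 := by
  rw [SuccF_l_fa h hr c] at hl
  replace hl : M.l (ret M.ph M.up c).1 = M.l c.1 + 1 := hl
  have hmm := h.mate_mate c
  have e1 : (ret M.ph M.up c).1 = M.ph c.1 := by
    rcases h.mate_cases c with ⟨l1, e1⟩ | ⟨l1, _⟩ | ⟨l1, _⟩
    · exact e1
    · omega
    · omega
  have e2 : M.s (ret M.ph M.up c).1 ∈ M.up := by
    rcases h.mate_cases (ret M.ph M.up c) with ⟨l1, _⟩ | ⟨l1, _⟩ | ⟨_, _, s1⟩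
    · rw [hmm] at l1; omega
    · rw [hmm] at l1; omega
    · exact s1
  have e3 : ((M.psi hr).fa c).1 = M.s (M.ph c.1) := by
    show (ret M.s M.up (ret M.ph M.up c)).1 = _
    rw [ret_of_mem M.s M.up (ret M.ph M.up c) e2, ← e1]
  rw [e1] at e2 hl
  -- labels
  have l2 : M.l (M.a (M.s (M.ph c.1))) = M.l c.1 := by
    have := LM.mem_up.1 e2
    rw [h.ls] at this
    omega
  have l3 : M.l (M.ph (M.ph (M.ph c.1))) = M.l c.1 - 1 := by
    have h1 := (h.mem_up_iff c.1).1 c.2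
    have h2 : M.ph⁻¹ c.1 = M.ph (M.ph (M.ph c.1)) := by
      rw [Perm.inv_eq_iff_eq]
      exact (h.four c.1).symm
    rw [← h2]; exact h1
  have hu : M.s (M.a (M.s (M.ph c.1))) ∈ M.up := by
    rw [LM.mem_up, h.ls, l2]
    exact l3
  refine ⟨⟨M.s (M.a (M.s (M.ph c.1))), hu⟩, ?_, ?_, ?_⟩
  · rw [e3]
    exact ⟨0, rfl, hu, fun j hj => absurd hj (Nat.not_lt_zero j)⟩
  · show M.l (M.s (M.a (M.s (M.ph c.1)))) = M.l c.1
    rw [h.ls, l2]
  · show M.s (M.a (M.s (M.a (M.s (M.ph c.1))))) = M.a c.1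
    have h4 : M.a (M.s (M.a (M.s (M.a (M.s (M.ph c.1)))))) = c.1 := h.four c.1
    have := congrArg M.a h4
    rwa [h.inv] at this

end Dia
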