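import Pool.Agent.Dia.TDefs

/-!
# Module TAll: sums over trees

`mem_all`: by induction on `n`, every tree with at most `n` edges is in `LT.lev n`.
`sum_all_succ`: the trees with `n + 1` edges are the `node d c r` with `c.size + r.size = n`
(`Finset.sum_nbij'`/`sum_bij` with the sigma type, or `sum_biUnion`).
`Xs_true_succ`: in `node d c r` with `up = true`: `nup = c.nup (d = -1) + r.nup true`; sum over `d`:
`d = -1`: `X1 X1`; `d = 0, 1`: `X0 X1`.
`Xs_false_succ`: `d = -1`: `X1 X0`; `d = 0`: `X0 X0`; `d = 1`: `X0 X1`.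
`tsum_LT`: `LT ≃ Unit ⊕ (SignType × LT × LT)`; `tsum_size`: group by size (`ENNReal.tsum_sigma`-like,
`Equiv.sigmaFiberEquiv LT.size`, and `LT.all N` is the fiber).
-/

set_option linter.unusedSectionVars false

namespace Dia
open Finset Pool.Agent.DiamP
open scoped ENNReal

theorem TAll_mem_lev (n : ℕ) : ∀ t : LT, t.size ≤ n → t ∈ LT.lev n := by
  induction n with
  | zero =>
    intro t ht
    cases t with
    | nil => exact Finset.mem_singleton_self _
    | node d c r =>
      have h0 : (LT.node d c r).size = c.size + r.size + 1 := rfl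
      omega
  | succ n ih =>
    intro t ht
    have h1 : LT.lev (n + 1) = {LT.nil} ∪ ((univ : Finset SignType) ×ˢ LT.lev n ×ˢ LT.lev n).image
      fun p => LT.node p.1 p.2.1 p.2.2 := rfl
    rw [h1, Finset.mem_union]
    cases t with
    | nil => exact Or.inl (Finset.mem_singleton_self _)
    | node d c r =>
      have h0 : (LT.node d c r).size = c.size + r.size + 1 := rfl
      right
      rw [Finset.mem_image]
      refine ⟨(d, c, r), ?_, rfl⟩
      rw [Finset.mem_product, Finset.mem_product]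
      exact ⟨Finset.mem_univ _, ih c (by omega), ih r (by omega)⟩

theorem LT.mem_all {n : ℕ} {t : LT} : t ∈ LT.all n ↔ t.size = n := by
  unfold LT.all
  rw [Finset.mem_filter]
  exact ⟨fun h => h.2, fun h => ⟨TAll_mem_lev n t h.le, h⟩⟩

theorem LT.all_zero : LT.all 0 = {LT.nil} := by
  ext t
  rw [LT.mem_all, Finset.mem_singleton]
  constructor
  · intro h
    cases t with
    | nil => rfl
    | node d c r =>
      have h0 : (LT.node d c r).size = c.size + r.size + 1 := rfl
      omega
  · rintro rfl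
    rfl

theorem LT.sum_all_succ {M : Type*} [AddCommMonoid M] (G : LT → M) (n : ℕ) :
    ∑ t ∈ LT.all (n + 1), G t = ∑ d : SignType, ∑ ij ∈ antidiagonal n,
      ∑ c ∈ LT.all ij.1, ∑ r ∈ LT.all ij.2, G (LT.node d c r) := by
  have h1 : ∀ d : SignType, ∑ ij ∈ antidiagonal n, ∑ c ∈ LT.all ij.1, ∑ r ∈ LT.all ij.2,
      G (LT.node d c r) = ∑ p ∈ (antidiagonal n).sigma (fun ij => LT.all ij.1 ×ˢ LT.all ij.2),
        G (LT.node d p.2.1 p.2.2) := by
    intro d
    rw [Finset.sum_sigma]
    refine Finset.sum_congr rfl fun ij _ => ?_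
    rw [Finset.sum_product]
  rw [Finset.sum_congr rfl fun d _ => h1 d, ← Finset.sum_product']
  symm
  refine Finset.sum_bij (fun q _ => LT.node q.1 q.2.2.1 q.2.2.2) ?_ ?_ ?_ ?_
  · rintro ⟨d, ⟨⟨i, j⟩, c, r⟩⟩ hq
    rw [Finset.mem_product, Finset.mem_sigma, Finset.mem_product, HasAntidiagonal.mem_antidiagonal, LT.mem_all,
      LT.mem_all] at hq
    rw [LT.mem_all]
    obtain ⟨-, h2, h3, h4⟩ := hq
    dsimp only at h2 h3 h4 ⊢
    have h0 : (LT.node d c r).size = c.size + r.size + 1 := rfl
    rw [h0, h3, h4, h2]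
  · rintro ⟨d, ⟨⟨i, j⟩, c, r⟩⟩ hq ⟨d', ⟨⟨i', j'⟩, c', r'⟩⟩ hq' heq
    rw [Finset.mem_product, Finset.mem_sigma, Finset.mem_product, HasAntidiagonal.mem_antidiagonal, LT.mem_all,
      LT.mem_all] at hq hq'
    obtain ⟨-, h2, h3, h4⟩ := hq
    obtain ⟨-, h2', h3', h4'⟩ := hq'
    dsimp only at h2 h3 h4 h2' h3' h4' heq
    rw [LT.node.injEq] at heq
    obtain ⟨rfl, rfl, rfl⟩ := heq
    subst h3 h4 h3' h4'
    rfl
  · intro t ht
    rw [LT.mem_all] at ht
    cases t with
    | nil =>
      have h0 : LT.nil.size = 0 := rfl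
      omega
    | node d c r =>
      have h0 : (LT.node d c r).size = c.size + r.size + 1 := rfl
      refine ⟨(d, ⟨(c.size, r.size), (c, r)⟩), ?_, rfl⟩
      rw [Finset.mem_product, Finset.mem_sigma, Finset.mem_product, HasAntidiagonal.mem_antidiagonal, LT.mem_all,
        LT.mem_all]
      exact ⟨Finset.mem_univ _, by dsimp only; omega, rfl, rfl⟩
  · intro q _
    rfl

theorem TAll_w_nil (x : ℝ) (up : Bool) : LT.nil.w x up = if up then x else 1 := by
  unfold LT.w
  cases up
  · simp [LT.nup]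
  · simp [LT.nup]

theorem TAll_w_node (x : ℝ) (up : Bool) (d : SignType) (c r : LT) :
    (LT.node d c r).w x up = c.w x (decide (d = -1)) * r.w x (up || decide (d = 1)) := by
  unfold LT.w
  rw [← pow_add]
  rfl

theorem Xs_zero (x : ℝ) (up : Bool) : Xs x up 0 = if up then x else 1 := by
  unfold Xs
  rw [LT.all_zero, Finset.sum_singleton, TAll_w_nil]

theorem Xs_nonneg {x : ℝ} (hx : 0 ≤ x) (up : Bool) (N : ℕ) : 0 ≤ Xs x up N := by
  unfold Xs
  refine Finset.sum_nonneg fun t _ => ?_
  unfold LT.w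
  positivity

theorem TAll_succ (x : ℝ) (up : Bool) (n : ℕ) :
    Xs x up (n + 1) = ∑ ij ∈ antidiagonal n, ∑ d : SignType,
      Xs x (decide (d = -1)) ij.1 * Xs x (up || decide (d = 1)) ij.2 := by
  have h1 : Xs x up (n + 1) = ∑ t ∈ LT.all (n + 1), t.w x up := rfl
  rw [h1, LT.sum_all_succ, Finset.sum_comm]
  refine Finset.sum_congr rfl fun ij _ => Finset.sum_congr rfl fun d _ => ?_
  unfold Xs
  rw [Finset.sum_mul_sum]
  refine Finset.sum_congr rfl fun c _ => Finset.sum_congr rfl fun r _ => ?_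
  rw [TAll_w_node]

theorem TAll_sum_sign {M : Type*} [AddCommMonoid M] (f : SignType → M) :
    ∑ d : SignType, f d = f 0 + (f (-1) + f 1) := by
  have h1 : (univ : Finset SignType) = {0, -1, 1} := by decide
  rw [h1, Finset.sum_insert (by decide), Finset.sum_insert (by decide), Finset.sum_singleton]

theorem Xs_true_succ (x : ℝ) (n : ℕ) :
    Xs x true (n + 1) = ∑ ij ∈ antidiagonal n,
      (Xs x true ij.1 + 2 * Xs x false ij.1) * Xs x true ij.2 := by
  rw [TAll_succ]
  refine Finset.sum_congr rfl fun ij _ => ?_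
  rw [TAll_sum_sign]
  have h1 : decide ((0 : SignType) = -1) = false := by decide
  have h3 : decide ((1 : SignType) = -1) = false := by decide
  simp only [h1, h3, Bool.true_or, decide_true]
  ring

theorem Xs_false_succ (x : ℝ) (n : ℕ) :
    Xs x false (n + 1) = ∑ ij ∈ antidiagonal n,
      ((Xs x true ij.1 + Xs x false ij.1) * Xs x false ij.2 + Xs x false ij.1 * Xs x true ij.2) := by
  rw [TAll_succ]
  refine Finset.sum_congr rfl fun ij _ => ?_
  rw [TAll_sum_sign]
  have h1 : decide ((0 : SignType) = -1) = false := by decide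
  have h3 : decide ((1 : SignType) = -1) = false := by decide
  have h4 : decide ((0 : SignType) = 1) = false := by decide
  have h5 : decide ((-1 : SignType) = 1) = false := by decide
  simp only [h1, h3, h4, h5, Bool.false_or, decide_true]
  ring

theorem TAll_coeff (x : ℝ) (up : Bool) (n : ℕ) :
    PowerSeries.coeff n (Xp x up) = Xs x up n := PowerSeries.coeff_mk _ _

theorem Xp_true (x : ℝ) : Xp x true = PowerSeries.C x +
    PowerSeries.X * ((Xp x true + 2 * Xp x false) * Xp x true) := by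
  have h2 : (2 : PowerSeries ℝ) = PowerSeries.C 2 := by
    rw [map_ofNat]
  ext n
  cases n with
  | zero =>
    rw [TAll_coeff, Xs_zero]
    simp
  | succ n =>
    rw [map_add, PowerSeries.coeff_succ_X_mul, PowerSeries.coeff_mul, TAll_coeff, Xs_true_succ,
      PowerSeries.coeff_C, if_neg (Nat.succ_ne_zero n), zero_add, h2]
    refine Finset.sum_congr rfl fun ij _ => ?_
    rw [map_add, PowerSeries.coeff_C_mul, TAll_coeff, TAll_coeff, TAll_coeff]

theorem Xp_false (x : ℝ) : Xp x false = 1 +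
    PowerSeries.X * ((Xp x true + Xp x false) * Xp x false + Xp x false * Xp x true) := by
  ext n
  cases n with
  | zero =>
    rw [TAll_coeff, Xs_zero]
    simp
  | succ n =>
    rw [map_add, PowerSeries.coeff_succ_X_mul, map_add, PowerSeries.coeff_mul,
      PowerSeries.coeff_mul, TAll_coeff, Xs_false_succ,
      PowerSeries.coeff_one, if_neg (Nat.succ_ne_zero n), zero_add, ← Finset.sum_add_distrib]
    refine Finset.sum_congr rfl fun ij _ => ?_
    rw [map_add, TAll_coeff, TAll_coeff, TAll_coeff, TAll_coeff]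

/-- trees as a sum type -/
def TAll_equiv : Unit ⊕ (SignType × LT × LT) ≃ LT where
  toFun
    | .inl _ => LT.nil
    | .inr p => LT.node p.1 p.2.1 p.2.2
  invFun
    | .nil => .inl ()
    | .node d c r => .inr (d, c, r)
  left_inv := by
    rintro (_ | _) <;> rfl
  right_inv := by
    rintro (_ | _) <;> rfl

theorem tsum_LT (F : LT → ℝ≥0∞) :
    ∑' t, F t = F LT.nil + ∑ d : SignType, ∑' c, ∑' r, F (LT.node d c r) := by
  rw [← TAll_equiv.tsum_eq]
  have h1 : HasSum (fun p : Unit ⊕ (SignType × LT × LT) => F (TAll_equiv p))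
      ((∑' _ : Unit, F LT.nil) + ∑' p : SignType × LT × LT, F (LT.node p.1 p.2.1 p.2.2)) :=
    HasSum.sum ENNReal.summable.hasSum ENNReal.summable.hasSum
  rw [h1.tsum_eq]
  congr 1
  · rw [tsum_fintype]
    simp
  · rw [ENNReal.tsum_prod', tsum_fintype]
    refine Finset.sum_congr rfl fun d _ => ?_
    rw [ENNReal.tsum_prod']

theorem tsum_size (F : LT → ℝ≥0∞) : ∑' t, F t = ∑' N, ∑ t ∈ LT.all N, F t := by
  rw [← (Equiv.sigmaFiberEquiv LT.size).tsum_eq, ENNReal.tsum_sigma']
  refine tsum_congr fun N => ?_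
  rw [← Finset.tsum_subtype]
  let e : {t : LT // t.size = N} ≃ {t : LT // t ∈ LT.all N} :=
    Equiv.subtypeEquivRight fun t => LT.mem_all.symm
  rw [← e.tsum_eq]
  rfl

end Dia
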