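import Pool.Agent.Dia.TSer
import Pool.Agent.Dia.TCrit
import Pool.Agent.Dia.LagB

/-!
# Module TCoef: coefficients of size N^(-3/2)

`LagData (PH x) (wp x) (wc x)` and `wc x / ∑' = yc x`; then `lag_bounds`, `lag_total` for
`H = C x * P3` (`Xp x true`), `C x * P3 + C (1-x) * P2` (`Xp x false`), `C x * P3^2`,
`C x * P3^2 + C (1-x) * P2^2`.
-/

set_option linter.unusedSectionVars false

namespace Dia
open PowerSeries Finset Pool.Agent.DiamP

variable {x : ℝ}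

theorem lagData (h0 : 0 < x) (h1 : x < 1) : LagData (PH x) (wp x) (wc x) where
  w0 := wp_zero x
  eq := wp_eq x
  nonneg := (PH_PB h0 h1).1
  pos0 := by rw [(PH_coeff h0 h1).1]; exact one_pos
  pos1 := (PH_coeff h0 h1).2
  rpos := (wc_spec h0 h1).1
  sum := (PH_sum h0 h1 (wc_spec h0 h1).1.le (wc_spec h0 h1).2.1).summable
  mean := by
    rw [(PH_sum h0 h1 (wc_spec h0 h1).1.le (wc_spec h0 h1).2.1).tsum_eq]
    exact PH_mean h0 h1
  var := (PH_PB h0 h1).summable (wc_spec h0 h1).1.le (wc_spec h0 h1).2.1 2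

theorem yc_eq (h0 : 0 < x) (h1 : x < 1) :
    wc x / ∑' k, coeff k (PH x) * wc x ^ k = yc x := by
  obtain ⟨hw0, hw1, -⟩ := wc_spec h0 h1
  rw [(PH_sum h0 h1 hw0.le hw1).tsum_eq]
  have hn := (nW_pos h0 h1 hw0.le hw1).ne'
  have h2 : (1 - wc x) ≠ 0 := by linarith
  have h3 : (1 - (1 - x) * wc x) ≠ 0 := by nlinarith
  unfold yc
  field_simp

/-! ### the four series -/

theorem coeff_C_mul' (c : ℝ) (P : PowerSeries ℝ) (k : ℕ) : coeff k (C c * P) = c * coeff k P :=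
  coeff_C_mul k P c

/-- sum of a product -/
theorem hasSum_mul_coeff {P Q : PowerSeries ℝ} {w p q : ℝ} (hw : 0 ≤ w) (hP : ∀ k, 0 ≤ coeff k P)
    (hQ : ∀ k, 0 ≤ coeff k Q) (hp : HasSum (fun k => coeff k P * w ^ k) p)
    (hq : HasSum (fun k => coeff k Q * w ^ k) q) :
    HasSum (fun k => coeff k (P * Q) * w ^ k) (p * q) := by
  have hn1 : Summable fun m => ‖coeff m P * w ^ m‖ := by
    refine hp.summable.congr fun m => ?_
    rw [Real.norm_of_nonneg (mul_nonneg (hP _) (pow_nonneg hw _))]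
  have hn2 : Summable fun m => ‖coeff m Q * w ^ m‖ := by
    refine hq.summable.congr fun m => ?_
    rw [Real.norm_of_nonneg (mul_nonneg (hQ _) (pow_nonneg hw _))]
  have h1 := tsum_mul_tsum_eq_tsum_sum_antidiagonal_of_summable_norm hn1 hn2
  have h2 := (summable_norm_sum_mul_antidiagonal_of_summable_norm hn1 hn2).of_norm
  rw [hp.tsum_eq, hq.tsum_eq] at h1
  have h3 := h2.hasSum
  rw [← h1] at h3
  have e : (fun m => coeff m (P * Q) * w ^ m) = fun m => ∑ ij ∈ antidiagonal m,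
      coeff ij.1 P * w ^ ij.1 * (coeff ij.2 Q * w ^ ij.2) := by
    funext m
    rw [coeff_mul, Finset.sum_mul]
    refine Finset.sum_congr rfl fun ij hij => ?_
    rw [← Finset.HasAntidiagonal.mem_antidiagonal.1 hij, pow_add]
    ring
  rw [e]
  exact h3

theorem PB_Cmul {c : ℝ} (hc : 0 ≤ c) {P : PowerSeries ℝ} (hP : PB P) : PB (C c * P) :=
  (PB.C hc).mul hP

theorem bounds_of_subst (h0 : 0 < x) (h1 : x < 1) (H : PowerSeries ℝ) (hH : PB H)
    (hH1 : 0 < coeff 1 H) : ∃ c K : ℝ, 0 < c ∧ 0 < K ∧ ∀ m : ℕ, 1 ≤ m →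
      c * (m : ℝ) ^ (-(3 / 2) : ℝ) ≤ coeff m (H.subst (wp x)) * yc x ^ m ∧
      coeff m (H.subst (wp x)) * yc x ^ m ≤ K * (m : ℝ) ^ (-(3 / 2) : ℝ) := by
  obtain ⟨hw0, hw1, -⟩ := wc_spec h0 h1
  have hs : Summable fun k : ℕ => (k : ℝ) * (coeff k H * wc x ^ k) := by
    have := hH.summable hw0.le hw1 1
    simpa using this
  have h := lag_bounds (lagData h0 h1) H hH.1 hH1 hs
  rwa [yc_eq h0 h1] at h

theorem sum_of_subst (h0 : 0 < x) (h1 : x < 1) (H : PowerSeries ℝ) (hH : PB H) {s : ℝ}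
    (hs : HasSum (fun k : ℕ => coeff k H * wc x ^ k) s) :
    HasSum (fun m : ℕ => coeff m (H.subst (wp x)) * yc x ^ m) s := by
  have h := lag_total (lagData h0 h1) H hH.1 hs.summable
  rwa [yc_eq h0 h1, hs.tsum_eq] at h

theorem nonneg_of_subst (h0 : 0 < x) (h1 : x < 1) (H : PowerSeries ℝ) (hH : PB H) (m : ℕ) :
    0 ≤ coeff m (H.subst (wp x)) := lag_nonneg (lagData h0 h1) H hH.1 m

/-- series of `X1`, `X0` -/
noncomputable def HX (x : ℝ) (up : Bool) : PowerSeries ℝ :=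
  if up then C x * P3 x else C x * P3 x + C (1 - x) * P2 x

theorem HX_PB (h0 : 0 < x) (h1 : x < 1) (up : Bool) : PB (HX x up) := by
  unfold HX
  split_ifs
  · exact PB_Cmul h0.le (P3_PB h0 h1)
  · exact (PB_Cmul h0.le (P3_PB h0 h1)).add (PB_Cmul (by linarith) (P2_PB h0 h1))

theorem HX_one (h0 : 0 < x) (h1 : x < 1) (up : Bool) : 0 < coeff 1 (HX x up) := by
  have a := (P3_coeff h0 h1).2
  have b := (P2_coeff h0 h1).2
  unfold HX
  split_ifs
  · rw [coeff_C_mul', a]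
    positivity
  · rw [map_add, coeff_C_mul', coeff_C_mul', a, b]
    have : 0 < 1 - x := by linarith
    positivity

theorem HX_eq (x : ℝ) (up : Bool) : Xp x up = (HX x up).subst (wp x) := by
  unfold HX
  cases up with
  | true => exact Xp_true_subst x
  | false => exact Xp_false_subst x

theorem Xs_bounds (h0 : 0 < x) (h1 : x < 1) (up : Bool) : ∃ c K : ℝ, 0 < c ∧ 0 < K ∧ ∀ m : ℕ, 1 ≤ m →
    c * (m : ℝ) ^ (-(3 / 2) : ℝ) ≤ Xs x up m * yc x ^ m ∧
    Xs x up m * yc x ^ m ≤ K * (m : ℝ) ^ (-(3 / 2) : ℝ) := by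
  obtain ⟨c, K, hc, hK, h⟩ := bounds_of_subst h0 h1 _ (HX_PB h0 h1 up) (HX_one h0 h1 up)
  refine ⟨c, K, hc, hK, fun m hm => ?_⟩
  have := h m hm
  rw [← HX_eq, Xp, coeff_mk] at this
  exact this

/-- total critical weight of all trees -/
noncomputable def Xtot (x : ℝ) (up : Bool) : ℝ :=
  if up then x * lW x (wc x) else x * lW x (wc x) + (1 - x) * lW' x (wc x)

theorem lW_pos (h0 : 0 < x) (h1 : x < 1) : 0 < lW x (wc x) ∧ 0 < lW' x (wc x) := by
  obtain ⟨hw0, hw1, -⟩ := wc_spec h0 h1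
  have hn := nW_pos h0 h1 hw0.le hw1
  have h2 : 0 < (1 - wc x) := by linarith
  have h3 : 0 < (1 - (1 - x) * wc x) := by nlinarith
  unfold lW lW'
  exact ⟨by positivity, by positivity⟩

theorem Xtot_pos (h0 : 0 < x) (h1 : x < 1) (up : Bool) : 0 < Xtot x up := by
  obtain ⟨ha, hb⟩ := lW_pos h0 h1
  have : 0 < 1 - x := by linarith
  unfold Xtot
  split_ifs <;> positivity

/-- linear combinations -/
theorem hasSum_C {c w s : ℝ} {P : PowerSeries ℝ} (h : HasSum (fun k => coeff k P * w ^ k) s) :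
    HasSum (fun k => coeff k (C c * P) * w ^ k) (c * s) := by
  have e : (fun k => coeff k (C c * P) * w ^ k) = fun k => c * (coeff k P * w ^ k) := by
    funext k
    rw [coeff_C_mul', mul_assoc]
  rw [e]
  exact h.mul_left c

theorem hasSum_add' {w s s' : ℝ} {P Q : PowerSeries ℝ} (h : HasSum (fun k => coeff k P * w ^ k) s)
    (h' : HasSum (fun k => coeff k Q * w ^ k) s') :
    HasSum (fun k => coeff k (P + Q) * w ^ k) (s + s') := by
  have e : (fun k => coeff k (P + Q) * w ^ k) = fun k => coeff k P * w ^ k + coeff k Q * w ^ k := by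
    funext k
    rw [map_add, add_mul]
  rw [e]
  exact h.add h'

theorem Xs_sum (h0 : 0 < x) (h1 : x < 1) (up : Bool) :
    HasSum (fun m : ℕ => Xs x up m * yc x ^ m) (Xtot x up) := by
  obtain ⟨hw0, hw1, -⟩ := wc_spec h0 h1
  have a := P3_sum h0 h1 hw0.le hw1
  have b := P2_sum h0 h1 hw0.le hw1
  have hs : HasSum (fun k : ℕ => coeff k (HX x up) * wc x ^ k) (Xtot x up) := by
    unfold HX Xtot
    split_ifs
    · exact hasSum_C a
    · exact hasSum_add' (hasSum_C a) (hasSum_C b)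
  have h := sum_of_subst h0 h1 _ (HX_PB h0 h1 up) hs
  rw [← HX_eq] at h
  have e : (fun m : ℕ => Xs x up m * yc x ^ m) = fun m => coeff m (Xp x up) * yc x ^ m := by
    funext m
    rw [Xp, coeff_mk]
  rw [e]
  exact h

/-! ### the kernels -/

/-- series of the kernels; `b`: the first kernel -/
noncomputable def HK (x : ℝ) (b : Bool) : PowerSeries ℝ :=
  if b then C x * P3 x ^ 2 else C x * P3 x ^ 2 + C (1 - x) * P2 x ^ 2

/-- the kernel without the shift -/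
noncomputable def LK (x : ℝ) (b : Bool) : PowerSeries ℝ :=
  if b then C x * Lp x ^ 2 else C x * Lp x ^ 2 + C (1 - x) * Lq x ^ 2

theorem LK_eq (x : ℝ) (b : Bool) : LK x b = (HK x b).subst (wp x) := by
  unfold HK LK
  cases b with
  | true => exact k1_subst x
  | false => exact k2_subst x

theorem kk_eq (x : ℝ) (u : Bool) (d : SignType) :
    kk x u d = cf x (X * LK x (decide (u = true ∨ d = 1))) := by
  unfold kk LK
  by_cases h : u = true ∨ d = 1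
  · rw [if_pos h, decide_eq_true h, if_pos rfl]
    rfl
  · rw [if_neg h, decide_eq_false h, if_neg Bool.false_ne_true]
    rfl

theorem HK_PB (h0 : 0 < x) (h1 : x < 1) (b : Bool) : PB (HK x b) := by
  have h3 : PB (P3 x ^ 2) := by
    rw [pow_two]
    exact (P3_PB h0 h1).mul (P3_PB h0 h1)
  have h2 : PB (P2 x ^ 2) := by
    rw [pow_two]
    exact (P2_PB h0 h1).mul (P2_PB h0 h1)
  unfold HK
  split_ifs
  · exact PB_Cmul h0.le h3
  · exact (PB_Cmul h0.le h3).add (PB_Cmul (by linarith) h2)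

theorem coeff_sq (P : PowerSeries ℝ) (hP : coeff 0 P = 1) :
    coeff 0 (P ^ 2) = 1 ∧ coeff 1 (P ^ 2) = 2 * coeff 1 P := by
  constructor
  · rw [pow_two, coeff_mul]
    simp [hP]
  · rw [pow_two, coeff_mul, Finset.Nat.antidiagonal_succ]
    simp [hP]
    ring

theorem HK_coeff (h0 : 0 < x) (h1 : x < 1) (b : Bool) :
    0 < coeff 0 (HK x b) ∧ 0 < coeff 1 (HK x b) := by
  have a := coeff_sq (P3 x) (P3_coeff h0 h1).1
  have b := coeff_sq (P2 x) (P2_coeff h0 h1).1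
  have a1 := (P3_coeff h0 h1).2
  have b1 := (P2_coeff h0 h1).2
  have hq : 0 < 1 - x := by linarith
  unfold HK
  split_ifs
  · rw [coeff_C_mul', coeff_C_mul', a.1, a.2, a1]
    constructor <;> positivity
  · rw [map_add, map_add, coeff_C_mul', coeff_C_mul', coeff_C_mul', coeff_C_mul', a.1, a.2, a1, b.1,
      b.2, b1]
    constructor <;> positivity

theorem kk_nonneg (h0 : 0 < x) (h1 : x < 1) (u : Bool) (d : SignType) (m : ℕ) : 0 ≤ kk x u d m := by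
  rw [kk_eq, cf]
  refine mul_nonneg ?_ (pow_nonneg (yc_pos h0 h1).le m)
  cases m with
  | zero => rw [coeff_zero_X_mul]
  | succ m =>
    rw [coeff_succ_X_mul, LK_eq]
    exact nonneg_of_subst h0 h1 _ (HK_PB h0 h1 _) m

theorem kk_zero (x : ℝ) (u : Bool) (d : SignType) : kk x u d 0 = 0 := by
  rw [kk_eq, cf, coeff_zero_X_mul, zero_mul]

theorem kk_succ (x : ℝ) (u : Bool) (d : SignType) (m : ℕ) :
    kk x u d (m + 1) =
      yc x * (coeff m ((HK x (decide (u = true ∨ d = 1))).subst (wp x)) * yc x ^ m) := by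
  rw [kk_eq, cf, coeff_succ_X_mul, LK_eq, pow_succ]
  ring

/-- the shift -/
theorem shift_bounds {a : ℕ → ℝ} {y c K : ℝ} (hy : 0 < y) (ha0 : 0 < a 0) (hc : 0 < c) (hK : 0 < K)
    (h : ∀ m : ℕ, 1 ≤ m → c * (m : ℝ) ^ (-(3 / 2) : ℝ) ≤ a m ∧ a m ≤ K * (m : ℝ) ^ (-(3 / 2) : ℝ)) :
    ∃ c' K' : ℝ, 0 < c' ∧ 0 < K' ∧ ∀ m : ℕ,
      c' * ((m + 1 : ℕ) : ℝ) ^ (-(3 / 2) : ℝ) ≤ y * a m ∧
        y * a m ≤ K' * ((m + 1 : ℕ) : ℝ) ^ (-(3 / 2) : ℝ) := by
  refine ⟨min (y * a 0) (y * c), max (y * a 0) (y * K * (2 : ℝ) ^ (3 / 2 : ℝ)),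
    lt_min (by positivity) (by positivity), lt_max_of_lt_left (by positivity), fun m => ?_⟩
  rcases Nat.eq_zero_or_pos m with rfl | hm
  · rw [zero_add, Nat.cast_one, Real.one_rpow, mul_one, mul_one]
    exact ⟨min_le_left _ _, le_max_left _ _⟩
  · obtain ⟨h1, h2⟩ := h m hm
    have hm' : (0 : ℝ) < m := by exact_mod_cast hm
    have hm1 : (1 : ℝ) ≤ m := by exact_mod_cast hm
    have hp : (0 : ℝ) < ((m + 1 : ℕ) : ℝ) := by positivity
    have e1 : ((m + 1 : ℕ) : ℝ) ^ (-(3 / 2) : ℝ) ≤ (m : ℝ) ^ (-(3 / 2) : ℝ) :=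
      Real.rpow_le_rpow_of_nonpos hm' (by push_cast; linarith) (by norm_num)
    have e2 : (m : ℝ) ^ (-(3 / 2) : ℝ) ≤
        (2 : ℝ) ^ (3 / 2 : ℝ) * ((m + 1 : ℕ) : ℝ) ^ (-(3 / 2) : ℝ) := by
      have e3 : (2 * (m : ℝ)) ^ (-(3 / 2) : ℝ) ≤ ((m + 1 : ℕ) : ℝ) ^ (-(3 / 2) : ℝ) :=
        Real.rpow_le_rpow_of_nonpos hp (by push_cast; linarith) (by norm_num)
      rw [Real.mul_rpow (by norm_num) hm'.le] at e3
      have e4 : (2 : ℝ) ^ (3 / 2 : ℝ) * (2 : ℝ) ^ (-(3 / 2) : ℝ) = 1 := by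
        rw [← Real.rpow_add (by norm_num)]
        norm_num
      have e5 : (0 : ℝ) < (2 : ℝ) ^ (3 / 2 : ℝ) := by positivity
      calc (m : ℝ) ^ (-(3 / 2) : ℝ) =
          ((2 : ℝ) ^ (3 / 2 : ℝ) * (2 : ℝ) ^ (-(3 / 2) : ℝ)) * (m : ℝ) ^ (-(3 / 2) : ℝ) := by
            rw [e4, one_mul]
        _ = (2 : ℝ) ^ (3 / 2 : ℝ) * ((2 : ℝ) ^ (-(3 / 2) : ℝ) * (m : ℝ) ^ (-(3 / 2) : ℝ)) := by ring
        _ ≤ _ := mul_le_mul_of_nonneg_left e3 e5.le
    have hpp : (0 : ℝ) < ((m + 1 : ℕ) : ℝ) ^ (-(3 / 2) : ℝ) := Real.rpow_pos_of_pos hp _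
    constructor
    · calc min (y * a 0) (y * c) * ((m + 1 : ℕ) : ℝ) ^ (-(3 / 2) : ℝ)
          ≤ y * c * ((m + 1 : ℕ) : ℝ) ^ (-(3 / 2) : ℝ) :=
            mul_le_mul_of_nonneg_right (min_le_right _ _) hpp.le
        _ ≤ y * c * (m : ℝ) ^ (-(3 / 2) : ℝ) := mul_le_mul_of_nonneg_left e1 (by positivity)
        _ = y * (c * (m : ℝ) ^ (-(3 / 2) : ℝ)) := by ring
        _ ≤ y * a m := mul_le_mul_of_nonneg_left h1 hy.le
    · calc y * a m ≤ y * (K * (m : ℝ) ^ (-(3 / 2) : ℝ)) := mul_le_mul_of_nonneg_left h2 hy.le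
        _ ≤ y * (K * ((2 : ℝ) ^ (3 / 2 : ℝ) * ((m + 1 : ℕ) : ℝ) ^ (-(3 / 2) : ℝ))) :=
            mul_le_mul_of_nonneg_left (mul_le_mul_of_nonneg_left e2 hK.le) hy.le
        _ = y * K * (2 : ℝ) ^ (3 / 2 : ℝ) * ((m + 1 : ℕ) : ℝ) ^ (-(3 / 2) : ℝ) := by ring
        _ ≤ _ := mul_le_mul_of_nonneg_right (le_max_right _ _) hpp.le

theorem HK_bounds (h0 : 0 < x) (h1 : x < 1) (b : Bool) : ∃ c K : ℝ, 0 < c ∧ 0 < K ∧ ∀ m : ℕ,
    c * ((m + 1 : ℕ) : ℝ) ^ (-(3 / 2) : ℝ) ≤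
      yc x * (coeff m ((HK x b).subst (wp x)) * yc x ^ m) ∧
    yc x * (coeff m ((HK x b).subst (wp x)) * yc x ^ m) ≤
      K * ((m + 1 : ℕ) : ℝ) ^ (-(3 / 2) : ℝ) := by
  obtain ⟨c, K, hc, hK, h⟩ := bounds_of_subst h0 h1 _ (HK_PB h0 h1 b) (HK_coeff h0 h1 b).2
  refine shift_bounds (a := fun m => coeff m ((HK x b).subst (wp x)) * yc x ^ m) (yc_pos h0 h1) ?_
    hc hK h
  simp only [pow_zero, mul_one]
  rw [coeff_subst_eq _ _ (wp_zero x)]
  simp only [zero_add, Finset.sum_range_one, pow_zero, coeff_one, if_true, mul_one]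
  exact (HK_coeff h0 h1 b).1

theorem kk_bounds (h0 : 0 < x) (h1 : x < 1) : ∃ c K : ℝ, 0 < c ∧ 0 < K ∧
    ∀ (u : Bool) (d : SignType) (m : ℕ), 1 ≤ m →
      c * (m : ℝ) ^ (-(3 / 2) : ℝ) ≤ kk x u d m ∧ kk x u d m ≤ K * (m : ℝ) ^ (-(3 / 2) : ℝ) := by
  obtain ⟨c1, K1, hc1, hK1, h1'⟩ := HK_bounds h0 h1 true
  obtain ⟨c2, K2, hc2, hK2, h2'⟩ := HK_bounds h0 h1 false
  refine ⟨min c1 c2, max K1 K2, lt_min hc1 hc2, lt_max_of_lt_left hK1, fun u d m hm => ?_⟩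
  obtain ⟨n, rfl⟩ : ∃ n, m = n + 1 := ⟨m - 1, by omega⟩
  rw [kk_succ]
  have hpp : (0 : ℝ) ≤ ((n + 1 : ℕ) : ℝ) ^ (-(3 / 2) : ℝ) := Real.rpow_nonneg (Nat.cast_nonneg _) _
  cases decide (u = true ∨ d = 1) with
  | true =>
    exact ⟨(mul_le_mul_of_nonneg_right (min_le_left _ _) hpp).trans (h1' n).1,
      (h1' n).2.trans (mul_le_mul_of_nonneg_right (le_max_left _ _) hpp)⟩
  | false =>
    exact ⟨(mul_le_mul_of_nonneg_right (min_le_right _ _) hpp).trans (h2' n).1,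
      (h2' n).2.trans (mul_le_mul_of_nonneg_right (le_max_right _ _) hpp)⟩

theorem kk_sum (h0 : 0 < x) (h1 : x < 1) (u : Bool) (d : SignType) :
    HasSum (kk x u d) (kapg (alc x) (bec x) u d) := by
  obtain ⟨hw0, hw1, -⟩ := wc_spec h0 h1
  have a := P3_sum h0 h1 hw0.le hw1
  have b := P2_sum h0 h1 hw0.le hw1
  have n3 := (P3_PB h0 h1).1
  have n2 := (P2_PB h0 h1).1
  have a2 := hasSum_mul_coeff hw0.le n3 n3 a a
  have b2 := hasSum_mul_coeff hw0.le n2 n2 b b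
  rw [← pow_two, ← pow_two] at a2 b2
  have hs : HasSum (fun k : ℕ => coeff k (HK x (decide (u = true ∨ d = 1))) * wc x ^ k)
      (kapg (alc x) (bec x) u d / yc x) := by
    have hy := (yc_pos h0 h1).ne'
    unfold HK kapg
    by_cases h : u = true ∨ d = 1
    · rw [decide_eq_true h, if_pos rfl, if_pos h, alc_eq h0 h1, mul_div_cancel_left₀ _ hy]
      exact hasSum_C a2
    · rw [decide_eq_false h, if_neg Bool.false_ne_true, if_neg h, alc_bec_eq h0 h1,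
        mul_div_cancel_left₀ _ hy]
      exact hasSum_add' (hasSum_C a2) (hasSum_C b2)
  have h := (sum_of_subst h0 h1 _ (HK_PB h0 h1 _) hs).mul_left (yc x)
  rw [mul_div_cancel₀ _ (yc_pos h0 h1).ne'] at h
  have h2 : HasSum (fun m => kk x u d (m + 1)) (kapg (alc x) (bec x) u d) := by
    have e : (fun m => kk x u d (m + 1)) = fun m =>
        yc x * (coeff m ((HK x (decide (u = true ∨ d = 1))).subst (wp x)) * yc x ^ m) := by
      funext m
      rw [kk_succ]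
    rw [e]
    exact h
  have h3 := (hasSum_nat_add_iff 1).1 h2
  rw [Finset.sum_range_one, kk_zero, add_zero] at h3
  exact h3

end Dia
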