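import Mathlib

/-!
# The two-state walk: definitions

A path is a list of steps `-1, 0, 1`; the state (a `Bool`) after a step `d` is `decide (d = -1)`.  A step
`d` from the state `u` has the weight `a` if `u = true` or `d = 1`, and `a + b` otherwise.  The numbers
`a, b > 0` satisfy `3 a + b + a b = 1` (the matrix of total weights has the eigenvalue 1).
-/

set_option linter.unusedSectionVars false

namespace Dia
open Finset

/-- label at the end of a path -/
def psum (p : List SignType) : ℤ := (p.map fun d => (d : ℤ)).sum

/-- the state (a neighbour with a higher label is already known) after a path, starting from `up` -/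
def pst (up : Bool) (p : List SignType) : Bool :=
  match p.getLast? with
  | none => up
  | some d => decide (d = -1)

/-- weight of a step -/
noncomputable def kapg (a b : ℝ) (u : Bool) (d : SignType) : ℝ :=
  if u = true ∨ d = 1 then a else a + b

/-- weight of a path, starting in the state `u` -/
noncomputable def pwg (a b : ℝ) : Bool → List SignType → ℝ
  | _, [] => 1
  | u, d :: p => kapg a b u d * pwg a b (decide (d = -1)) p

/-- all paths of length `h` -/
def paths : ℕ → Finset (List SignType)
  | 0 => {[]}
  | h + 1 => ((univ : Finset SignType) ×ˢ paths h).image fun p => p.1 :: p.2

/-- first passage: the path is at distance `L` from `0` at its end, and not before -/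
def FP (L : ℕ) (p : List SignType) : Prop :=
  |psum p| = L ∧ ∀ k < p.length, |psum (p.take k)| < L

/-- the path stays within distance `L` of `0` -/
def Strip (L : ℕ) (p : List SignType) : Prop := ∀ k ≤ p.length, |psum (p.take k)| ≤ L

open Classical in
/-- total weight of the paths of length `h` with the property `P` -/
noncomputable def PW (a b : ℝ) (u : Bool) (h : ℕ) (P : List SignType → Prop) : ℝ :=
  ∑ p ∈ paths h, if P p then pwg a b u p else 0

end Dia
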