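import Pool.Agent.Dia.LMDefs
import Pool.Agent.Dia.WDefs
import Pool.Agent.DiamP.Basic

/-!
# Labelled trees with weights: definitions

`0 < x < 1` is the weight of a vertex with a higher neighbour.
-/

set_option linter.unusedSectionVars false

namespace Dia
open Finset Pool.Agent.DiamP
open scoped ENNReal

/-! ### finite sets of trees -/

/-- a finite set of trees which contains all trees with at most `n` edges -/
def LT.lev : ℕ → Finset LT
  | 0 => {LT.nil}
  | n + 1 => {LT.nil} ∪ ((univ : Finset SignType) ×ˢ LT.lev n ×ˢ LT.lev n).image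
      fun p => LT.node p.1 p.2.1 p.2.2

/-- all trees with `n` edges -/
def LT.all (n : ℕ) : Finset LT := (LT.lev n).filter fun t => t.size = n

/-- height -/
def LT.ht : LT → ℕ
  | .nil => 0
  | .node _ c r => max (c.ht + 1) r.ht

/-- the list of the subtrees at the vertices whose path from the root is `p` (a list of label
steps; the first element of `p` is the first step from the root) -/
def LT.occ : List SignType → LT → List LT
  | [], t => [t]
  | _ :: _, .nil => []
  | d :: p, .node d' c r => (if d = d' then LT.occ p c else []) ++ LT.occ (d :: p) r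

/-- weight of a tree -/
noncomputable def LT.w (x : ℝ) (t : LT) (up : Bool) : ℝ := x ^ t.nup up

/-- sum of the weights of the trees with `N` edges -/
noncomputable def Xs (x : ℝ) (up : Bool) (N : ℕ) : ℝ := ∑ t ∈ LT.all N, t.w x up

/-! ### power series in the edge weight -/

noncomputable def Xp (x : ℝ) (up : Bool) : PowerSeries ℝ := PowerSeries.mk (Xs x up)

/-- `L' = 1 / (1 - t X1 - t X0)` -/
noncomputable def Lq (x : ℝ) : PowerSeries ℝ :=
  (1 - PowerSeries.X * Xp x true - PowerSeries.X * Xp x false)⁻¹

/-- `L = 1 / (1 - t X1 - 2 t X0)` -/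
noncomputable def Lp (x : ℝ) : PowerSeries ℝ :=
  (1 - PowerSeries.X * Xp x true - 2 * (PowerSeries.X * Xp x false))⁻¹

/-- `w = t X0 L'` -/
noncomputable def wp (x : ℝ) : PowerSeries ℝ := PowerSeries.X * Xp x false * Lq x

/-! ### series in `w` with nonnegative coefficients -/

/-- `1 + (1-x) u + 3 x u / (1 - u)` -/
noncomputable def P1 (x : ℝ) : PowerSeries ℝ :=
  1 + PowerSeries.C (1 - x) * PowerSeries.X +
    PowerSeries.C (3 * x) * PowerSeries.X * PowerSeries.mk fun _ => 1

/-- `1 + u + x u / (1 - (1-x) u)` -/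
noncomputable def P2 (x : ℝ) : PowerSeries ℝ :=
  1 + PowerSeries.X + PowerSeries.C x * PowerSeries.X * PowerSeries.mk fun k => (1 - x) ^ k

/-- `P2 / (1 - u)` -/
noncomputable def P3 (x : ℝ) : PowerSeries ℝ := P2 x * PowerSeries.mk fun _ => 1

/-- `PH = P1 P2` -/
noncomputable def PH (x : ℝ) : PowerSeries ℝ := P1 x * P2 x

/-! ### the critical point -/

/-- the criticality condition, `w PH'(w) = PH(w)` multiplied by a denominator -/
def CritW (x w : ℝ) : Prop :=
  3 * x * w * (1 - (1 - x) * w) + (1 - x) * w * (1 - w) ^ 2 * (1 - (1 - x) * w) +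
    x * (1 - x) * w ^ 2 * (1 - w) = (1 - w) * (1 - (1 - x) * w) ^ 2

open Classical in
/-- the critical value of `w` -/
noncomputable def wc (x : ℝ) : ℝ :=
  if h : ∃ w : ℝ, 0 < w ∧ w < 1 ∧ CritW x w then h.choose else 1 / 2

/-- numerator -/
noncomputable def nW (x w : ℝ) : ℝ := 1 + 2 * x * w - (1 - x) * w ^ 2

/-- the critical edge weight -/
noncomputable def yc (x : ℝ) : ℝ :=
  wc x * (1 - wc x) * (1 - (1 - x) * wc x) / nW x (wc x) ^ 2

/-- `alpha = x t L ^ 2` at the critical point -/
noncomputable def alc (x : ℝ) : ℝ := x * wc x / ((1 - wc x) * (1 - (1 - x) * wc x))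

/-- `beta = (1 - x) t L' ^ 2` at the critical point -/
noncomputable def bec (x : ℝ) : ℝ := (1 - x) * wc x * (1 - wc x) / (1 - (1 - x) * wc x)

/-- value of `P3` at `w` -/
noncomputable def lW (x w : ℝ) : ℝ := nW x w / ((1 - w) * (1 - (1 - x) * w))

/-- value of `P2` at `w` -/
noncomputable def lW' (x w : ℝ) : ℝ := nW x w / (1 - (1 - x) * w)

/-- critical coefficient sequence of a power series -/
noncomputable def cf (x : ℝ) (P : PowerSeries ℝ) (N : ℕ) : ℝ := PowerSeries.coeff N P * yc x ^ N

/-- `k1`: critical coefficients of `x t L ^ 2` -/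
noncomputable def k1 (x : ℝ) : ℕ → ℝ := cf x (PowerSeries.X * (PowerSeries.C x * Lp x ^ 2))

/-- `k2`: critical coefficients of `t (x L ^ 2 + (1 - x) L' ^ 2)` -/
noncomputable def k2 (x : ℝ) : ℕ → ℝ :=
  cf x (PowerSeries.X * (PowerSeries.C x * Lp x ^ 2 + PowerSeries.C (1 - x) * Lq x ^ 2))

/-- the kernel of a step -/
noncomputable def kk (x : ℝ) (u : Bool) (d : SignType) : ℕ → ℝ :=
  if u = true ∨ d = 1 then k1 x else k2 x

/-- kernels along a path -/
noncomputable def kks (x : ℝ) : Bool → List SignType → List (ℕ → ℝ)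
  | _, [] => []
  | u, d :: p => kk x u d :: kks x (decide (d = -1)) p

/-- weight of a path at the critical point -/
noncomputable def pw (x : ℝ) : Bool → List SignType → ℝ := pwg (alc x) (bec x)

/-- total critical weight of the trees with the property `P` -/
noncomputable def Zt (x : ℝ) (up : Bool) (P : LT → Prop) : ℝ≥0∞ :=
  open Classical in ∑' t : LT, if P t then ENNReal.ofReal (t.w x up * yc x ^ t.size) else 0

/-- total critical weight of the trees with `N` edges with the property `P` -/
noncomputable def ZN (x : ℝ) (up : Bool) (N : ℕ) (P : LT → Prop) : ℝ :=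
  open Classical in (∑ t ∈ LT.all N, if P t then t.w x up else 0) * yc x ^ N

/-- some vertex has a label of absolute value at least `L` -/
def LT.Far (L : ℕ) (t : LT) : Prop := ∃ z ∈ t.labels, (L : ℤ) ≤ |z|

end Dia
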