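import Pool.Agent.Dia.TMark
import Pool.Agent.Dia.TCoef

/-!
# Module TMarkT: trees with a marked vertex, total weights

Sum of `mark` over `N`.  It suffices to prove the identity for bounded `f` with finite support
(or `f` = indicator function of one tree `s₀`; then `((LT.occ p t).map f).sum` = number of occurrences):
every `f : LT → ℝ≥0∞` is the sum of `f s₀ * indicator` over `s₀`, and both sides are additive
(`ENNReal.tsum_comm`; the sum over the list `LT.occ p t` is finite).  For the indicator of `s₀`, `mark`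
gives for every `N` `(sum over t of weight * count) = cv (cvL (kks x up p)) (δ) N` with
`δ m = s₀.w x (pst up p) * yc^m` for `m = s₀.size` and `0` otherwise; sum over `N`: total mass of
`cvL (kks ..)` is `pw x up p` (Cauchy products of nonnegative series; `kk_sum`), group the left side by
`tsum_size`.
-/

set_option linter.unusedSectionVars false

namespace Dia
open Finset Pool.Agent.DiamP
open scoped ENNReal

variable {x : ℝ}

theorem kks_nonneg (h0 : 0 < x) (h1 : x < 1) (up : Bool) (p : List SignType) (n : ℕ) :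
    0 ≤ cvL (kks x up p) n := by
  induction p generalizing up n with
  | nil => exact isLaw_one0.nonneg n
  | cons d p ih => exact cv_nonneg (kk_nonneg h0 h1 up d) (ih (decide (d = -1))) n

theorem TMarkT_norm {f : ℕ → ℝ} (hf : ∀ n, 0 ≤ f n) {a : ℝ} (h : HasSum f a) :
    Summable fun n => ‖f n‖ := by
  refine h.summable.congr fun n => ?_
  rw [Real.norm_of_nonneg (hf n)]

theorem TMarkT_cv {p q : ℕ → ℝ} (hp : ∀ n, 0 ≤ p n) (hq : ∀ n, 0 ≤ q n) {a b : ℝ}
    (ha : HasSum p a) (hb : HasSum q b) : HasSum (cv p q) (a * b) := by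
  have hp' := TMarkT_norm hp ha
  have hq' := TMarkT_norm hq hb
  have h1 := tsum_mul_tsum_eq_tsum_sum_antidiagonal_of_summable_norm hp' hq'
  rw [ha.tsum_eq, hb.tsum_eq] at h1
  have h2 := (summable_norm_sum_mul_antidiagonal_of_summable_norm hp' hq').of_norm
  rw [h1]
  exact h2.hasSum

theorem kks_sum (h0 : 0 < x) (h1 : x < 1) (up : Bool) (p : List SignType) :
    HasSum (cvL (kks x up p)) (pw x up p) := by
  induction p generalizing up with
  | nil => exact isLaw_one0.sum
  | cons d p ih =>
    have h2 := kk_sum h0 h1 up d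
    have h3 := ih (decide (d = -1))
    exact TMarkT_cv (kk_nonneg h0 h1 up d) (kks_nonneg h0 h1 (decide (d = -1)) p) h2 h3

theorem TMarkT_w_nonneg (h0 : 0 < x) (t : LT) (up : Bool) : 0 ≤ t.w x up := by
  unfold LT.w
  positivity

theorem TMarkT_list (f : LT → ℝ≥0∞) [DecidableEq LT] (l : List LT) :
    (l.map f).sum = ∑' s, f s * (l.count s : ℝ≥0∞) := by
  induction l with
  | nil => simp
  | cons a l ih =>
    rw [List.map_cons, List.sum_cons, ih]
    have h1 : ∀ s, f s * ((a :: l).count s : ℝ≥0∞) =
        (if s = a then f a else 0) + f s * (l.count s : ℝ≥0∞) := by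
      intro s
      rw [List.count_cons]
      by_cases hs : s = a
      · subst hs
        simp [mul_add, add_comm]
      · have h2 : ¬ (a == s) = true := by
          rw [beq_iff_eq]
          exact fun h => hs h.symm
        rw [if_neg h2, if_neg hs, add_zero, zero_add]
    rw [tsum_congr h1, ENNReal.tsum_add, tsum_ite_eq]

theorem TMarkT_listR [DecidableEq LT] (s : LT) (l : List LT) :
    (l.map fun t => if t = s then (1 : ℝ) else 0).sum = (l.count s : ℝ) := by
  induction l with
  | nil => simp
  | cons a l ih =>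
    rw [List.map_cons, List.sum_cons, ih, List.count_cons]
    by_cases hs : a = s
    · subst hs
      simp [add_comm]
    · have h2 : ¬ (a == s) = true := by
        rw [beq_iff_eq]
        exact hs
      rw [if_neg h2, if_neg hs, add_zero, zero_add]

theorem TMarkT_one (h0 : 0 < x) (h1 : x < 1) (up : Bool) (p : List SignType) [DecidableEq LT]
    (s : LT) :
    ∑' t : LT, ENNReal.ofReal (t.w x up * yc x ^ t.size) * ((LT.occ p t).count s : ℝ≥0∞) =
      ENNReal.ofReal (pw x up p) * ENNReal.ofReal (s.w x (pst up p) * yc x ^ s.size) := by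
  have hy : 0 < yc x := yc_pos h0 h1
  rw [tsum_size]
  let δ : ℕ → ℝ := fun m => (∑ s' ∈ LT.all m, s'.w x (pst up p) * (if s' = s then (1 : ℝ) else 0)) *
    yc x ^ m
  have hδ : ∀ m, δ m = if m = s.size then s.w x (pst up p) * yc x ^ s.size else 0 := by
    intro m
    show (∑ s' ∈ LT.all m, s'.w x (pst up p) * (if s' = s then (1 : ℝ) else 0)) * yc x ^ m = _
    by_cases hm : m = s.size
    · rw [if_pos hm, Finset.sum_eq_single s]
      · rw [if_pos rfl, mul_one, hm]
      · intro b _ hb
        rw [if_neg hb, mul_zero]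
      · intro hs
        exact absurd (LT.mem_all.2 hm.symm) hs
    · rw [if_neg hm, Finset.sum_eq_zero, zero_mul]
      intro b hb
      have hb' : b ≠ s := by
        rintro rfl
        exact hm (LT.mem_all.1 hb).symm
      rw [if_neg hb', mul_zero]
  have hδ0 : ∀ m, 0 ≤ δ m := by
    intro m
    rw [hδ]
    split_ifs
    · exact mul_nonneg (TMarkT_w_nonneg h0 _ _) (by positivity)
    · exact le_rfl
  have hδs : HasSum δ (s.w x (pst up p) * yc x ^ s.size) := by
    have h2 : δ = fun m => if m = s.size then s.w x (pst up p) * yc x ^ s.size else 0 := funext hδ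
    rw [h2]
    exact hasSum_ite_eq _ _
  have hk := kks_sum h0 h1 up p
  have h4 := TMarkT_cv (kks_nonneg h0 h1 up p) hδ0 hk hδs
  have h5 : ∀ N, ∑ t ∈ LT.all N, ENNReal.ofReal (t.w x up * yc x ^ t.size) *
      ((LT.occ p t).count s : ℝ≥0∞) = ENNReal.ofReal (cv (cvL (kks x up p)) δ N) := by
    intro N
    have h6 := mark x up p (fun t => if t = s then (1 : ℝ) else 0) N
    rw [← h6, Finset.sum_mul, ENNReal.ofReal_sum_of_nonneg]
    · refine Finset.sum_congr rfl fun t ht => ?_
      rw [TMarkT_listR, LT.mem_all.1 ht, ← ENNReal.ofReal_natCast, ← ENNReal.ofReal_mul]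
      · congr 1
        ring
      · exact mul_nonneg (TMarkT_w_nonneg h0 _ _) (by positivity)
    · intro t _
      rw [TMarkT_listR]
      exact mul_nonneg (mul_nonneg (TMarkT_w_nonneg h0 _ _) (Nat.cast_nonneg _)) (by positivity)
  rw [tsum_congr h5, ← ENNReal.ofReal_tsum_of_nonneg (cv_nonneg (kks_nonneg h0 h1 up p) hδ0)
    h4.summable, h4.tsum_eq, ENNReal.ofReal_mul]
  rw [← hk.tsum_eq]
  exact tsum_nonneg (kks_nonneg h0 h1 up p)

theorem mark_total (h0 : 0 < x) (h1 : x < 1) (up : Bool) (p : List SignType) (f : LT → ℝ≥0∞) :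
    ∑' t : LT, ENNReal.ofReal (t.w x up * yc x ^ t.size) * ((LT.occ p t).map f).sum =
      ENNReal.ofReal (pw x up p) *
        ∑' s : LT, ENNReal.ofReal (s.w x (pst up p) * yc x ^ s.size) * f s := by
  classical
  have h2 : ∀ t : LT, ENNReal.ofReal (t.w x up * yc x ^ t.size) * ((LT.occ p t).map f).sum =
      ∑' s, f s * (ENNReal.ofReal (t.w x up * yc x ^ t.size) *
        ((LT.occ p t).count s : ℝ≥0∞)) := by
    intro t
    rw [TMarkT_list, ← ENNReal.tsum_mul_left]
    refine tsum_congr fun s => ?_
    ring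
  rw [tsum_congr h2, ENNReal.tsum_comm, ← ENNReal.tsum_mul_left]
  refine tsum_congr fun s => ?_
  rw [ENNReal.tsum_mul_left, TMarkT_one h0 h1]
  ring

/-- the total weight is the sum over the sizes -/
theorem Zt_eq (h0 : 0 < x) (h1 : x < 1) (up : Bool) (P : LT → Prop) :
    Zt x up P = ∑' N, ENNReal.ofReal (ZN x up N P) := by
  classical
  have hy : 0 < yc x := yc_pos h0 h1
  unfold Zt
  rw [tsum_size]
  refine tsum_congr fun N => ?_
  unfold ZN
  rw [Finset.sum_mul, ENNReal.ofReal_sum_of_nonneg]
  · refine Finset.sum_congr rfl fun t ht => ?_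
    by_cases hP : P t
    · rw [if_pos hP, if_pos hP, LT.mem_all.1 ht]
    · rw [if_neg hP, if_neg hP, zero_mul, ENNReal.ofReal_zero]
  · intro t _
    refine mul_nonneg ?_ (by positivity)
    split_ifs
    · exact TMarkT_w_nonneg h0 _ _
    · exact le_rfl

/-- total weights of all trees are finite -/
theorem Zt_univ (h0 : 0 < x) (h1 : x < 1) (up : Bool) :
    Zt x up (fun _ => True) = ENNReal.ofReal (Xtot x up) := by
  have hy : 0 < yc x := yc_pos h0 h1
  rw [Zt_eq h0 h1]
  have h2 : ∀ N, ZN x up N (fun _ => True) = Xs x up N * yc x ^ N := by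
    intro N
    unfold ZN Xs
    congr 1
    refine Finset.sum_congr rfl fun t _ => ?_
    rw [if_pos trivial]
  have h3 := Xs_sum h0 h1 up
  rw [tsum_congr fun N => by rw [h2 N], ← ENNReal.ofReal_tsum_of_nonneg _ h3.summable,
    h3.tsum_eq]
  intro N
  exact mul_nonneg (Xs_nonneg h0.le up N) (by positivity)

end Dia
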