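import Pool.Agent.Dia.TCoef
import Pool.Agent.Dia.TMarkT
import Pool.Agent.DiamP.Forest

/-!
# Module TForest: the forest bounds for our kernels

`FLaw c K p` (DiamP/Forest.lean): law, `p 0 = 0`, two-sided `n^(-3/2)`.  Normalised kernels
`kk x u d / kapg (alc x) (bec x) u d` are `FLaw`s with common constants (`kk_bounds`, `kk_sum`, `kk_zero`,
`kk_nonneg`; only two different kernels).  `cvL (kks x up p) = pw x up p * cvL (normalised kernels)`
(homogeneity of `cv` in each factor, induction on `p`); the list has `p.length` elements.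

`av x up m = Xs x up m * yc^m` is `Xtot x up` times a law `q` with `q 0 > 0`; its shift `q' m = q (m - 1)`,
`q' 0 = 0`, is an `FLaw` (for `m ≥ 2` `(m-1)^(-3/2)` is comparable with `m^(-3/2)`; `q' 1 = q 0 > 0`), and
`cv (cvL ks) q N = cv (cvL ks) q' (N + 1)` = the value of `cvL` of the list with `q'` appended (or
put in front, `cv_comm`) at `N + 1`.
-/

set_option linter.unusedSectionVars false

namespace Dia
open Finset Pool.Agent.DiamP

variable {x : ℝ}

/-- critical coefficient sequence of all trees -/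
noncomputable def av (x : ℝ) (up : Bool) (m : ℕ) : ℝ := Xs x up m * yc x ^ m

/-- the normalised kernel -/
noncomputable def TForest_nk (x : ℝ) (u : Bool) (d : SignType) (m : ℕ) : ℝ :=
  kk x u d m / kapg (alc x) (bec x) u d

/-- the normalised kernels along a path -/
noncomputable def TForest_nks (x : ℝ) : Bool → List SignType → List (ℕ → ℝ)
  | _, [] => []
  | u, d :: p => TForest_nk x u d :: TForest_nks x (decide (d = -1)) p

theorem TForest_len (x : ℝ) (u : Bool) (p : List SignType) :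
    (TForest_nks x u p).length = p.length := by
  induction p generalizing u with
  | nil => rfl
  | cons d p ih =>
    show (TForest_nk x u d :: TForest_nks x (decide (d = -1)) p).length = _
    rw [List.length_cons, List.length_cons, ih]

theorem TForest_kap (h0 : 0 < x) (h1 : x < 1) (u : Bool) (d : SignType) :
    alc x ≤ kapg (alc x) (bec x) u d ∧ kapg (alc x) (bec x) u d ≤ alc x + bec x := by
  have ha := alc_pos h0 h1
  have hb := bec_pos h0 h1
  unfold kapg
  split_ifs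
  · exact ⟨le_rfl, by linarith⟩
  · exact ⟨by linarith, le_rfl⟩

theorem TForest_eq (h0 : 0 < x) (h1 : x < 1) (u : Bool) (p : List SignType) (n : ℕ) :
    cvL (kks x u p) n = pw x u p * cvL (TForest_nks x u p) n := by
  induction p generalizing u n with
  | nil =>
    show cvL [] n = 1 * cvL [] n
    rw [one_mul]
  | cons d p ih =>
    have ha := alc_pos h0 h1
    have hk := (TForest_kap h0 h1 u d).1
    have hk0 : kapg (alc x) (bec x) u d ≠ 0 := by linarith
    show cv (kk x u d) (cvL (kks x (decide (d = -1)) p)) n =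
      (kapg (alc x) (bec x) u d * pw x (decide (d = -1)) p) *
        cv (TForest_nk x u d) (cvL (TForest_nks x (decide (d = -1)) p)) n
    rw [cv_eq_range, cv_eq_range, Finset.mul_sum]
    refine Finset.sum_congr rfl fun i _ => ?_
    rw [ih]
    unfold TForest_nk
    field_simp

theorem TForest_mono {c K c' K' : ℝ} {p : ℕ → ℝ} (h : FLaw c K p) (hc : c' ≤ c) (hK : K ≤ K') :
    FLaw c' K' p where
  law := h.law
  zero := h.zero
  low := fun n hn => (mul_le_mul_of_nonneg_right hc (by positivity)).trans (h.low n hn)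
  up := fun n hn => (h.up n hn).trans (mul_le_mul_of_nonneg_right hK (by positivity))

theorem TForest_nk_law (h0 : 0 < x) (h1 : x < 1) : ∃ c K : ℝ, 0 < c ∧ 0 < K ∧
    ∀ (u : Bool) (d : SignType), FLaw c K (TForest_nk x u d) := by
  obtain ⟨c, K, hc, hK, h⟩ := kk_bounds h0 h1
  have ha := alc_pos h0 h1
  have hb := bec_pos h0 h1
  refine ⟨c / (alc x + bec x), K / alc x, by positivity, by positivity, fun u d => ?_⟩
  obtain ⟨hk1, hk2⟩ := TForest_kap h0 h1 u d
  have hk0 : 0 < kapg (alc x) (bec x) u d := by linarith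
  refine ⟨⟨fun n => div_nonneg (kk_nonneg h0 h1 u d n) hk0.le, ?_⟩, ?_, fun n hn => ?_,
    fun n hn => ?_⟩
  · have h2 := (kk_sum h0 h1 u d).div_const (kapg (alc x) (bec x) u d)
    rw [div_self hk0.ne'] at h2
    exact h2
  · unfold TForest_nk
    rw [kk_zero, zero_div]
  · have h2 := (h u d n hn).1
    unfold TForest_nk
    have h3 : 0 ≤ (n : ℝ) ^ (-(3 / 2) : ℝ) := by positivity
    calc c / (alc x + bec x) * (n : ℝ) ^ (-(3 / 2) : ℝ)
        = (c * (n : ℝ) ^ (-(3 / 2) : ℝ)) / (alc x + bec x) := by ring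
      _ ≤ (c * (n : ℝ) ^ (-(3 / 2) : ℝ)) / kapg (alc x) (bec x) u d :=
          div_le_div_of_nonneg_left (by positivity) hk0 hk2
      _ ≤ kk x u d n / kapg (alc x) (bec x) u d := div_le_div_of_nonneg_right h2 hk0.le
  · have h2 := (h u d n hn).2
    unfold TForest_nk
    calc kk x u d n / kapg (alc x) (bec x) u d
        ≤ (K * (n : ℝ) ^ (-(3 / 2) : ℝ)) / kapg (alc x) (bec x) u d :=
          div_le_div_of_nonneg_right h2 hk0.le
      _ ≤ (K * (n : ℝ) ^ (-(3 / 2) : ℝ)) / alc x :=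
          div_le_div_of_nonneg_left (by positivity) ha hk1
      _ = K / alc x * (n : ℝ) ^ (-(3 / 2) : ℝ) := by ring

theorem TForest_nks_law {c K : ℝ} (h : ∀ (u : Bool) (d : SignType), FLaw c K (TForest_nk x u d))
    (u : Bool) (p : List SignType) : ∀ q ∈ TForest_nks x u p, FLaw c K q := by
  induction p generalizing u with
  | nil =>
    intro q hq
    exact absurd hq List.not_mem_nil
  | cons d p ih =>
    intro q hq
    rcases List.mem_cons.1 hq with rfl | hq
    · exact h u d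
    · exact ih (decide (d = -1)) q hq

theorem TForest_pw_nonneg (h0 : 0 < x) (h1 : x < 1) (u : Bool) (p : List SignType) :
    0 ≤ pw x u p := by
  rw [← (kks_sum h0 h1 u p).tsum_eq]
  exact tsum_nonneg (kks_nonneg h0 h1 u p)

theorem kks_local (h0 : 0 < x) (h1 : x < 1) : ∃ K : ℝ, 0 < K ∧
    ∀ (up : Bool) (p : List SignType) (n : ℕ), 1 ≤ n →
      cvL (kks x up p) n ≤ pw x up p * (K / n) := by
  obtain ⟨c, K, hc, hK, h⟩ := TForest_nk_law h0 h1
  obtain ⟨K2, hK2, h2⟩ := forest_local hc K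
  refine ⟨K2, hK2, fun up p n hn => ?_⟩
  rw [TForest_eq h0 h1]
  exact mul_le_mul_of_nonneg_left (h2 _ (TForest_nks_law h up p) n hn)
    (TForest_pw_nonneg h0 h1 up p)

theorem kks_small (h0 : 0 < x) (h1 : x < 1) : ∃ c K : ℝ, 0 < c ∧ 0 < K ∧
    ∀ (up : Bool) (p : List SignType) (N : ℕ), 1 ≤ N →
      ∑ n ∈ range (N + 1), cvL (kks x up p) n ≤
        pw x up p * (K * Real.exp (-(c * (p.length : ℝ) * (N : ℝ) ^ (-(1 / 2) : ℝ)))) := by
  obtain ⟨c, K, hc, hK, h⟩ := TForest_nk_law h0 h1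
  obtain ⟨c4, hc4, h2⟩ := forest_small hc K
  refine ⟨c4, Real.exp 1, hc4, Real.exp_pos 1, fun up p N hN => ?_⟩
  have h3 := h2 _ (TForest_nks_law h up p) N hN
  rw [TForest_len] at h3
  rw [Finset.sum_congr rfl fun n _ => TForest_eq h0 h1 up p n, ← Finset.mul_sum]
  exact mul_le_mul_of_nonneg_left h3 (TForest_pw_nonneg h0 h1 up p)

/-- the shifted law of the size of a tree -/
noncomputable def TForest_q (x : ℝ) (u : Bool) (m : ℕ) : ℝ :=
  if m = 0 then 0 else av x u (m - 1) / Xtot x u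

theorem TForest_av_nonneg (h0 : 0 < x) (h1 : x < 1) (u : Bool) (m : ℕ) : 0 ≤ av x u m := by
  have hy := yc_pos h0 h1
  exact mul_nonneg (Xs_nonneg h0.le u m) (by positivity)

theorem TForest_q_law (h0 : 0 < x) (h1 : x < 1) (u : Bool) : ∃ c K : ℝ, 0 < c ∧ 0 < K ∧
    FLaw c K (TForest_q x u) := by
  obtain ⟨c, K, hc, hK, h⟩ := Xs_bounds h0 h1 u
  have hX := Xtot_pos h0 h1 u
  have hq0 : 0 < av x u 0 / Xtot x u := by
    have h2 : 0 < av x u 0 := by
      unfold av
      rw [Xs_zero, pow_zero, mul_one]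
      split_ifs
      · exact h0
      · exact one_pos
    positivity
  refine ⟨min (av x u 0 / Xtot x u) (c / Xtot x u),
    max (av x u 0 / Xtot x u) (K / Xtot x u * 2 ^ (3 / 2 : ℝ)), lt_min hq0 (by positivity),
    lt_max_of_lt_left hq0, ⟨fun n => ?_, ?_⟩, ?_, fun n hn => ?_, fun n hn => ?_⟩
  · unfold TForest_q
    split_ifs
    · exact le_rfl
    · exact div_nonneg (TForest_av_nonneg h0 h1 u _) hX.le
  · have h2 := (Xs_sum h0 h1 u).div_const (Xtot x u)
    rw [div_self hX.ne'] at h2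
    have h3 : HasSum (fun m => TForest_q x u (m + 1)) 1 := by
      refine h2.congr_fun ?_
      intro m
      unfold TForest_q
      rw [if_neg (Nat.succ_ne_zero m), Nat.add_sub_cancel]
      rfl
    have h4 := (hasSum_nat_add_iff (f := TForest_q x u) 1).1 h3
    rw [Finset.sum_range_one] at h4
    have h5 : TForest_q x u 0 = 0 := by
      unfold TForest_q
      rw [if_pos rfl]
    rw [h5, add_zero] at h4
    exact h4
  · unfold TForest_q
    rw [if_pos rfl]
  · unfold TForest_q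
    rw [if_neg (by omega)]
    rcases Nat.lt_or_ge n 2 with hn2 | hn2
    · have h2 : n = 1 := by omega
      subst h2
      rw [Nat.cast_one, Real.one_rpow, mul_one]
      exact min_le_left _ _
    · have h2 := (h (n - 1) (by omega)).1
      have hn1 : (0 : ℝ) < ((n - 1 : ℕ) : ℝ) := by
        exact_mod_cast (by omega : 0 < n - 1)
      have h3 : (n : ℝ) ^ (-(3 / 2) : ℝ) ≤ ((n - 1 : ℕ) : ℝ) ^ (-(3 / 2) : ℝ) := by
        refine Real.rpow_le_rpow_of_nonpos hn1 ?_ (by norm_num)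
        exact_mod_cast Nat.sub_le n 1
      have hn0 : 0 ≤ (n : ℝ) ^ (-(3 / 2) : ℝ) := by positivity
      calc min (av x u 0 / Xtot x u) (c / Xtot x u) * (n : ℝ) ^ (-(3 / 2) : ℝ)
          ≤ c / Xtot x u * (n : ℝ) ^ (-(3 / 2) : ℝ) :=
            mul_le_mul_of_nonneg_right (min_le_right _ _) hn0
        _ ≤ c / Xtot x u * ((n - 1 : ℕ) : ℝ) ^ (-(3 / 2) : ℝ) :=
            mul_le_mul_of_nonneg_left h3 (by positivity)
        _ = (c * ((n - 1 : ℕ) : ℝ) ^ (-(3 / 2) : ℝ)) / Xtot x u := by ring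
        _ ≤ av x u (n - 1) / Xtot x u := div_le_div_of_nonneg_right h2 hX.le
  · unfold TForest_q
    rw [if_neg (by omega)]
    rcases Nat.lt_or_ge n 2 with hn2 | hn2
    · have h2 : n = 1 := by omega
      subst h2
      rw [Nat.cast_one, Real.one_rpow, mul_one]
      exact le_max_left _ _
    · have h2 := (h (n - 1) (by omega)).2
      have hn1 : (0 : ℝ) < (n : ℝ) / 2 := by
        have : (0 : ℝ) < n := by exact_mod_cast (by omega : 0 < n)
        positivity
      have h3 : ((n - 1 : ℕ) : ℝ) ^ (-(3 / 2) : ℝ) ≤ ((n : ℝ) / 2) ^ (-(3 / 2) : ℝ) := by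
        refine Real.rpow_le_rpow_of_nonpos hn1 ?_ (by norm_num)
        rw [Nat.cast_sub (by omega), Nat.cast_one]
        have : (2 : ℝ) ≤ n := by exact_mod_cast hn2
        linarith
      have h4 : ((n : ℝ) / 2) ^ (-(3 / 2) : ℝ) = (n : ℝ) ^ (-(3 / 2) : ℝ) * 2 ^ (3 / 2 : ℝ) := by
        rw [Real.div_rpow (Nat.cast_nonneg n) (by norm_num), Real.rpow_neg (by norm_num : (0:ℝ) ≤ 2),
          div_inv_eq_mul]
      rw [h4] at h3
      have hn0 : 0 ≤ (n : ℝ) ^ (-(3 / 2) : ℝ) := by positivity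
      calc av x u (n - 1) / Xtot x u
          ≤ (K * ((n - 1 : ℕ) : ℝ) ^ (-(3 / 2) : ℝ)) / Xtot x u :=
            div_le_div_of_nonneg_right h2 hX.le
        _ = K / Xtot x u * ((n - 1 : ℕ) : ℝ) ^ (-(3 / 2) : ℝ) := by ring
        _ ≤ K / Xtot x u * ((n : ℝ) ^ (-(3 / 2) : ℝ) * 2 ^ (3 / 2 : ℝ)) :=
            mul_le_mul_of_nonneg_left h3 (by positivity)
        _ = (K / Xtot x u * 2 ^ (3 / 2 : ℝ)) * (n : ℝ) ^ (-(3 / 2) : ℝ) := by ring
        _ ≤ _ := mul_le_mul_of_nonneg_right (le_max_right _ _) hn0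

theorem TForest_av_eq (h0 : 0 < x) (h1 : x < 1) (up u : Bool) (p : List SignType) (N : ℕ) :
    cv (cvL (kks x up p)) (av x u) N =
      pw x up p * (Xtot x u * cvL (TForest_q x u :: TForest_nks x up p) (N + 1)) := by
  have hX := Xtot_pos h0 h1 u
  rw [cvL_cons, cv_comm (cvL (kks x up p)), cv_eq_range, cv_eq_range,
    Finset.sum_range_succ' _ (N + 1)]
  have h5 : TForest_q x u 0 = 0 := by
    unfold TForest_q
    rw [if_pos rfl]
  rw [h5, zero_mul, add_zero, Finset.mul_sum, Finset.mul_sum]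
  refine Finset.sum_congr rfl fun i _ => ?_
  have h6 : TForest_q x u (i + 1) = av x u i / Xtot x u := by
    unfold TForest_q
    rw [if_neg (Nat.succ_ne_zero i), Nat.add_sub_cancel]
  have h7 : N + 1 - (i + 1) = N - i := by omega
  rw [h6, h7, TForest_eq h0 h1]
  field_simp

/-- common constants for the kernels and the shifted laws -/
theorem TForest_all (h0 : 0 < x) (h1 : x < 1) : ∃ c K : ℝ, 0 < c ∧
    ∀ (up u : Bool) (p : List SignType), ∀ q ∈ TForest_q x u :: TForest_nks x up p,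
      FLaw c K q := by
  obtain ⟨c, K, hc, hK, h⟩ := TForest_nk_law h0 h1
  obtain ⟨c1, K1, hc1, hK1, h2⟩ := TForest_q_law h0 h1 true
  obtain ⟨c2, K2, hc2, hK2, h3⟩ := TForest_q_law h0 h1 false
  refine ⟨min c (min c1 c2), max K (max K1 K2), lt_min hc (lt_min hc1 hc2), ?_⟩
  intro up u p q hq
  rcases List.mem_cons.1 hq with rfl | hq
  · cases u
    · exact TForest_mono h3 ((min_le_right _ _).trans (min_le_right _ _))
        ((le_max_right _ _).trans (le_max_right _ _))
    · exact TForest_mono h2 ((min_le_right _ _).trans (min_le_left _ _))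
        ((le_max_left _ _).trans (le_max_right _ _))
  · exact TForest_mono (TForest_nks_law h up p q hq) (min_le_left _ _) (le_max_left _ _)

theorem TForest_Xtot_le (h0 : 0 < x) (h1 : x < 1) (u : Bool) :
    Xtot x u ≤ Xtot x true + Xtot x false := by
  have h2 := Xtot_pos h0 h1 true
  have h3 := Xtot_pos h0 h1 false
  cases u
  · linarith
  · linarith

theorem kks_av_local (h0 : 0 < x) (h1 : x < 1) : ∃ K : ℝ, 0 < K ∧
    ∀ (up u : Bool) (p : List SignType) (N : ℕ), 1 ≤ N →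
      cv (cvL (kks x up p)) (av x u) N ≤ pw x up p * (K / N) := by
  obtain ⟨c, K, hc, h⟩ := TForest_all h0 h1
  obtain ⟨K2, hK2, h2⟩ := forest_local hc K
  have hX1 := Xtot_pos h0 h1 true
  have hX2 := Xtot_pos h0 h1 false
  refine ⟨(Xtot x true + Xtot x false) * K2, by positivity, fun up u p N hN => ?_⟩
  rw [TForest_av_eq h0 h1]
  refine mul_le_mul_of_nonneg_left ?_ (TForest_pw_nonneg h0 h1 up p)
  have h3 := h2 _ (h up u p) (N + 1) (by omega)
  have hN0 : (0 : ℝ) < N := by exact_mod_cast hN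
  have h4 : K2 / ((N + 1 : ℕ) : ℝ) ≤ K2 / N := by
    refine div_le_div_of_nonneg_left hK2.le hN0 ?_
    push_cast
    linarith
  calc Xtot x u * cvL (TForest_q x u :: TForest_nks x up p) (N + 1)
      ≤ Xtot x u * (K2 / N) :=
        mul_le_mul_of_nonneg_left (h3.trans h4) (Xtot_pos h0 h1 u).le
    _ ≤ (Xtot x true + Xtot x false) * (K2 / N) :=
        mul_le_mul_of_nonneg_right (TForest_Xtot_le h0 h1 u) (by positivity)
    _ = (Xtot x true + Xtot x false) * K2 / N := by ring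

theorem kks_av_small (h0 : 0 < x) (h1 : x < 1) : ∃ c K : ℝ, 0 < c ∧ 0 < K ∧
    ∀ (up u : Bool) (p : List SignType) (N : ℕ), 1 ≤ N →
      cv (cvL (kks x up p)) (av x u) N ≤
        pw x up p * (K * Real.exp (-(c * (p.length : ℝ) * (N : ℝ) ^ (-(1 / 2) : ℝ)))) := by
  obtain ⟨c, K, hc, h⟩ := TForest_all h0 h1
  obtain ⟨c4, hc4, h2⟩ := forest_small hc K
  have hX1 := Xtot_pos h0 h1 true
  have hX2 := Xtot_pos h0 h1 false
  have he := Real.exp_pos 1
  refine ⟨c4 * 2 ^ (-(1 / 2) : ℝ), (Xtot x true + Xtot x false) * Real.exp 1, by positivity,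
    by positivity, fun up u p N hN => ?_⟩
  rw [TForest_av_eq h0 h1]
  refine mul_le_mul_of_nonneg_left ?_ (TForest_pw_nonneg h0 h1 up p)
  have h3 := h2 _ (h up u p) (N + 1) (by omega)
  have hN0 : (0 : ℝ) < N := by exact_mod_cast hN
  have hlaw : IsLaw (cvL (TForest_q x u :: TForest_nks x up p)) := FLaw.isLaw_cvL (h up u p)
  have h4 : cvL (TForest_q x u :: TForest_nks x up p) (N + 1) ≤
      ∑ n ∈ range (N + 1 + 1), cvL (TForest_q x u :: TForest_nks x up p) n :=
    Finset.single_le_sum (fun n _ => hlaw.nonneg n) (Finset.mem_range.2 (by omega))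
  rw [List.length_cons, TForest_len] at h3
  have h5 : (2 : ℝ) ^ (-(1 / 2) : ℝ) * (N : ℝ) ^ (-(1 / 2) : ℝ) ≤
      ((N + 1 : ℕ) : ℝ) ^ (-(1 / 2) : ℝ) := by
    rw [← Real.mul_rpow (by norm_num) hN0.le]
    refine Real.rpow_le_rpow_of_nonpos (by positivity) ?_ (by norm_num)
    push_cast
    have : (1 : ℝ) ≤ N := by exact_mod_cast hN
    linarith
  have h6 : c4 * 2 ^ (-(1 / 2) : ℝ) * (p.length : ℝ) * (N : ℝ) ^ (-(1 / 2) : ℝ) ≤
      c4 * ((p.length + 1 : ℕ) : ℝ) * ((N + 1 : ℕ) : ℝ) ^ (-(1 / 2) : ℝ) := by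
    calc c4 * 2 ^ (-(1 / 2) : ℝ) * (p.length : ℝ) * (N : ℝ) ^ (-(1 / 2) : ℝ)
        = c4 * (p.length : ℝ) * (2 ^ (-(1 / 2) : ℝ) * (N : ℝ) ^ (-(1 / 2) : ℝ)) := by ring
      _ ≤ c4 * (p.length : ℝ) * ((N + 1 : ℕ) : ℝ) ^ (-(1 / 2) : ℝ) :=
          mul_le_mul_of_nonneg_left h5 (by positivity)
      _ ≤ _ := by
          refine mul_le_mul_of_nonneg_right (mul_le_mul_of_nonneg_left ?_ hc4.le) (by positivity)
          push_cast
          linarith
  have h7 : Real.exp (-(c4 * ((p.length + 1 : ℕ) : ℝ) * ((N + 1 : ℕ) : ℝ) ^ (-(1 / 2) : ℝ))) ≤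
      Real.exp (-(c4 * 2 ^ (-(1 / 2) : ℝ) * (p.length : ℝ) * (N : ℝ) ^ (-(1 / 2) : ℝ))) :=
    Real.exp_le_exp.2 (neg_le_neg h6)
  calc Xtot x u * cvL (TForest_q x u :: TForest_nks x up p) (N + 1)
      ≤ Xtot x u * (Real.exp 1 * Real.exp (-(c4 * 2 ^ (-(1 / 2) : ℝ) * (p.length : ℝ) *
          (N : ℝ) ^ (-(1 / 2) : ℝ)))) :=
        mul_le_mul_of_nonneg_left ((h4.trans h3).trans
          (mul_le_mul_of_nonneg_left h7 he.le)) (Xtot_pos h0 h1 u).le
    _ ≤ (Xtot x true + Xtot x false) * (Real.exp 1 * Real.exp (-(c4 * 2 ^ (-(1 / 2) : ℝ) *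
          (p.length : ℝ) * (N : ℝ) ^ (-(1 / 2) : ℝ)))) :=
        mul_le_mul_of_nonneg_right (TForest_Xtot_le h0 h1 u) (by positivity)
    _ = _ := by ring

end Dia
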