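import Pool.Agent.Dia.TCoef
import Pool.Agent.Dia.TAll

/-!
# Module THalf: the generating function for the weight x/2 converges beyond yc x

Let `X1 = Xtot x true`, `X0 = Xtot x false` (finite sums at `t = yc x`); they satisfy
`X1 = x + t (X1 + 2 X0) X1`, `X0 = 1 + t (X1 + X0) X0 + t X0 X1` (sum of the recurrences over `N`).
Claim: for small `η > 0` the pair `Y1 = (3/4) X1`, `Y0 = X0` is a supersolution for the weight `x/2` and
`t' = t (1 + η)`:
 `x/2 + t' (Y1 + 2 Y0) Y1 ≤ Y1`: the difference of the two sides is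
 `x/4 + (3/4) t X1 ( (X1 + 2 X0) - (1+η)((3/4) X1 + 2 X0) ) > 0` for small `η`;
 `1 + t' (Y1 + Y0) Y0 + t' Y0 Y1 ≤ Y0`: the difference is
 `t X0 ( (2 X1 + X0) - (1+η)((3/2) X1 + X0) ) > 0` for small `η`.
By induction on `n` the truncated sums `sum_{N ≤ n} Xs (x/2) up N t'^N` are at most `Y_up`
(`Xs_true_succ`, `Xs_false_succ`: the truncated sum at `n+1` is at most the expression in the truncated
sums at `n`; all terms are nonnegative).
-/

set_option linter.unusedSectionVars false

namespace Dia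
open Finset Pool.Agent.DiamP

variable {x : ℝ}

private theorem THalf_conv (f g : ℕ → ℝ) (hf : ∀ i, 0 ≤ f i) (hg : ∀ i, 0 ≤ g i) (n : ℕ) :
    ∑ m ∈ range n, ∑ p ∈ antidiagonal m, f p.1 * g p.2 ≤
      (∑ i ∈ range n, f i) * ∑ i ∈ range n, g i := by
  rw [← Finset.sum_biUnion, Finset.sum_mul_sum, ← Finset.sum_product']
  · refine Finset.sum_le_sum_of_subset_of_nonneg ?_ (fun p _ _ => mul_nonneg (hf _) (hg _))
    intro p hp
    rw [Finset.mem_biUnion] at hp
    obtain ⟨m, hm, hp⟩ := hp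
    rw [Finset.HasAntidiagonal.mem_antidiagonal] at hp
    rw [Finset.mem_range] at hm
    rw [Finset.mem_product, Finset.mem_range, Finset.mem_range]
    omega
  · intro m _ m' _ hmm
    change Disjoint (antidiagonal m) (antidiagonal m')
    rw [Finset.disjoint_left]
    intro p hp hp'
    rw [Finset.HasAntidiagonal.mem_antidiagonal] at hp hp'
    exact hmm (hp.symm.trans hp')

private theorem THalf_eqs (h0 : 0 < x) (h1 : x < 1) :
    Xtot x true = x + yc x * ((Xtot x true + 2 * Xtot x false) * Xtot x true) ∧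
    Xtot x false = 1 + yc x * ((Xtot x true + Xtot x false) * Xtot x false +
      Xtot x false * Xtot x true) := by
  obtain ⟨hw0, hw1, -⟩ := wc_spec h0 h1
  have hn := nW_pos h0 h1 hw0.le hw1
  have ha : 1 - wc x ≠ 0 := by linarith
  have hb : 1 - (1 - x) * wc x ≠ 0 := by nlinarith
  have hn' : nW x (wc x) ≠ 0 := hn.ne'
  obtain ⟨d, hd⟩ : ∃ d, d = 1 - (1 - x) * wc x := ⟨_, rfl⟩
  obtain ⟨v, hv⟩ : ∃ v, v = 1 - wc x := ⟨_, rfl⟩
  have e1 : Xtot x true = x * nW x (wc x) / (v * d) := by
    unfold Xtot lW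
    rw [if_pos rfl, mul_div_assoc, hd, hv]
  have ey : yc x = wc x * v * d / nW x (wc x) ^ 2 := by
    rw [hd, hv]; rfl
  have en : nW x (wc x) = 1 + 2 * x * wc x - (1 - x) * wc x ^ 2 := rfl
  have e0 : Xtot x false = nW x (wc x) / v := by
    unfold Xtot lW lW'
    rw [if_neg (by decide), ← hd, ← hv]
    rw [← hd] at hb
    rw [← hv] at ha
    field_simp
    rw [hd, hv]
    ring
  rw [e1, e0, ey]
  rw [← hd] at hb
  rw [← hv] at ha
  generalize nW x (wc x) = n at *
  generalize wc x = w at *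
  constructor
  · field_simp
    rw [en, hd, hv]
    ring
  · field_simp
    rw [en, hd, hv]
    ring

theorem half_sum (h0 : 0 < x) (h1 : x < 1) : ∃ η K : ℝ, 0 < η ∧ 0 < K ∧ ∀ N : ℕ,
    Xs (x / 2) false N * (yc x * (1 + η)) ^ N ≤ K := by
  have p1 := Xtot_pos h0 h1 true
  have p0 := Xtot_pos h0 h1 false
  have ht := yc_pos h0 h1
  obtain ⟨e1, e0⟩ := THalf_eqs h0 h1
  generalize Xtot x true = X1 at *
  generalize Xtot x false = X0 at *
  generalize yc x = t at *
  have hx2 : (0 : ℝ) ≤ x / 2 := by linarith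
  set η : ℝ := X1 / (8 * (X1 + X0)) with hη
  have hηp : 0 < η := by positivity
  have hη1 : η * (X1 + X0) = X1 / 8 := by
    rw [hη]
    field_simp
  have hηX1 : 0 < η * X1 := mul_pos hηp p1
  have hηX0 : 0 < η * X0 := mul_pos hηp p0
  have c1 : η * (3 / 4 * X1 + 2 * X0) ≤ X1 / 4 := by nlinarith
  have c0 : η * (3 / 2 * X1 + X0) ≤ X1 / 2 := by nlinarith
  have t' : 0 < t * (1 + η) := by positivity
  have s1 : x / 2 + t * (1 + η) * ((3 / 4 * X1 + 2 * X0) * (3 / 4 * X1)) ≤ 3 / 4 * X1 := by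
    have h2 : 3 / 4 * X1 - (x / 2 + t * (1 + η) * ((3 / 4 * X1 + 2 * X0) * (3 / 4 * X1))) =
        x / 4 + 3 / 4 * (t * X1) * (X1 / 4 - η * (3 / 4 * X1 + 2 * X0)) := by
      linear_combination (3 / 4) * e1
    have h3 : 0 ≤ 3 / 4 * (t * X1) * (X1 / 4 - η * (3 / 4 * X1 + 2 * X0)) := by
      apply mul_nonneg (by positivity)
      linarith
    linarith
  have s0 : 1 + t * (1 + η) * ((3 / 4 * X1 + X0) * X0 + X0 * (3 / 4 * X1)) ≤ X0 := by
    have h2 : X0 - (1 + t * (1 + η) * ((3 / 4 * X1 + X0) * X0 + X0 * (3 / 4 * X1))) =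
        t * X0 * (X1 / 2 - η * (3 / 2 * X1 + X0)) := by
      linear_combination e0
    have h3 : 0 ≤ t * X0 * (X1 / 2 - η * (3 / 2 * X1 + X0)) := by
      apply mul_nonneg (by positivity)
      linarith
    linarith
  set r : ℝ := t * (1 + η) with hr
  set a : ℕ → ℝ := fun N => Xs (x / 2) true N * r ^ N with ha
  set b : ℕ → ℝ := fun N => Xs (x / 2) false N * r ^ N with hb
  have ha0 : ∀ N, 0 ≤ a N := fun N => mul_nonneg (Xs_nonneg hx2 _ _) (by positivity)
  have hb0 : ∀ N, 0 ≤ b N := fun N => mul_nonneg (Xs_nonneg hx2 _ _) (by positivity)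
  have ra : ∀ n, a (n + 1) = r * ∑ p ∈ antidiagonal n, (a p.1 + 2 * b p.1) * a p.2 := by
    intro n
    simp only [ha, hb]
    rw [Xs_true_succ, Finset.sum_mul, Finset.mul_sum]
    refine Finset.sum_congr rfl fun p hp => ?_
    rw [Finset.HasAntidiagonal.mem_antidiagonal] at hp
    rw [← hp, pow_succ, pow_add]
    ring
  have rb : ∀ n, b (n + 1) = r * ∑ p ∈ antidiagonal n, ((a p.1 + b p.1) * b p.2 +
      b p.1 * a p.2) := by
    intro n
    simp only [ha, hb]
    rw [Xs_false_succ, Finset.sum_mul, Finset.mul_sum]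
    refine Finset.sum_congr rfl fun p hp => ?_
    rw [Finset.HasAntidiagonal.mem_antidiagonal] at hp
    rw [← hp, pow_succ, pow_add]
    ring
  have a0 : a 0 = x / 2 := by
    simp only [ha]
    rw [Xs_zero, if_pos rfl]; ring
  have b0 : b 0 = 1 := by
    simp only [hb]
    rw [Xs_zero, if_neg (by decide)]; ring
  have key : ∀ n : ℕ, ∑ i ∈ range n, a i ≤ 3 / 4 * X1 ∧ ∑ i ∈ range n, b i ≤ X0 := by
    intro n
    induction n with
    | zero =>
      simp only [Finset.range_zero, Finset.sum_empty]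
      exact ⟨by positivity, p0.le⟩
    | succ n ih =>
      obtain ⟨iha, ihb⟩ := ih
      have na : 0 ≤ ∑ i ∈ range n, a i := Finset.sum_nonneg fun i _ => ha0 i
      have nb : 0 ≤ ∑ i ∈ range n, b i := Finset.sum_nonneg fun i _ => hb0 i
      constructor
      · rw [Finset.sum_range_succ', a0]
        have h2 : ∑ i ∈ range n, a (i + 1) =
            r * ∑ m ∈ range n, ∑ p ∈ antidiagonal m, (a p.1 + 2 * b p.1) * a p.2 := by
          rw [Finset.mul_sum]
          exact Finset.sum_congr rfl fun i _ => ra i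
        have h3 := THalf_conv (fun i => a i + 2 * b i) a
          (fun i => by have := ha0 i; have := hb0 i; positivity) ha0 n
        have h4 : ∑ i ∈ range n, (a i + 2 * b i) = ∑ i ∈ range n, a i + 2 * ∑ i ∈ range n, b i := by
          rw [Finset.sum_add_distrib, Finset.mul_sum]
        rw [h4] at h3
        have h5 : (∑ i ∈ range n, a i + 2 * ∑ i ∈ range n, b i) * ∑ i ∈ range n, a i ≤
            (3 / 4 * X1 + 2 * X0) * (3 / 4 * X1) :=
          mul_le_mul (by linarith) iha na (by positivity)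
        have h6 : r * ∑ m ∈ range n, ∑ p ∈ antidiagonal m, (a p.1 + 2 * b p.1) * a p.2 ≤
            r * ((3 / 4 * X1 + 2 * X0) * (3 / 4 * X1)) :=
          mul_le_mul_of_nonneg_left (h3.trans h5) t'.le
        rw [h2]
        linarith
      · rw [Finset.sum_range_succ', b0]
        have h2 : ∑ i ∈ range n, b (i + 1) =
            r * (∑ m ∈ range n, ∑ p ∈ antidiagonal m, (a p.1 + b p.1) * b p.2 +
              ∑ m ∈ range n, ∑ p ∈ antidiagonal m, b p.1 * a p.2) := by
          rw [← Finset.sum_add_distrib, Finset.mul_sum]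
          refine Finset.sum_congr rfl fun i _ => ?_
          rw [rb i, Finset.sum_add_distrib]
        have h3 := THalf_conv (fun i => a i + b i) b
          (fun i => by have := ha0 i; have := hb0 i; positivity) hb0 n
        have h3' := THalf_conv b a hb0 ha0 n
        have h4 : ∑ i ∈ range n, (a i + b i) = ∑ i ∈ range n, a i + ∑ i ∈ range n, b i := by
          rw [Finset.sum_add_distrib]
        rw [h4] at h3
        have h5 : (∑ i ∈ range n, a i + ∑ i ∈ range n, b i) * ∑ i ∈ range n, b i ≤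
            (3 / 4 * X1 + X0) * X0 :=
          mul_le_mul (by linarith) ihb nb (by positivity)
        have h5' : (∑ i ∈ range n, b i) * ∑ i ∈ range n, a i ≤ X0 * (3 / 4 * X1) :=
          mul_le_mul ihb iha na (by positivity)
        have h6 : r * (∑ m ∈ range n, ∑ p ∈ antidiagonal m, (a p.1 + b p.1) * b p.2 +
              ∑ m ∈ range n, ∑ p ∈ antidiagonal m, b p.1 * a p.2) ≤
            r * ((3 / 4 * X1 + X0) * X0 + X0 * (3 / 4 * X1)) :=
          mul_le_mul_of_nonneg_left (add_le_add (h3.trans h5) (h3'.trans h5')) t'.le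
        rw [h2]
        linarith
  refine ⟨η, X0, hηp, p0, fun N => ?_⟩
  have h2 := (key (N + 1)).2
  have h3 : b N ≤ ∑ i ∈ range (N + 1), b i :=
    Finset.single_le_sum (fun i _ => hb0 i) (Finset.mem_range.2 (Nat.lt_succ_self N))
  exact h3.trans h2

end Dia
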