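import Pool.Agent.Dia.TCoef
import Pool.Agent.Dia.TMarkT

/-!
# Module THeight: the weight of the trees with height at least `h` is at most `K / h`

Let `T_u h = Zt x u (ht < h)` (real numbers, `T_u 0 = 0`), `X_u = Xtot x u`, `e_u h = X_u - T_u h ≥ 0` (the
weight of the trees with height `≥ h`).  Splitting `node d c r` (`tsum_LT`): the height of `node d c r` is
`< h + 1` iff `ht c < h` and `ht r < h + 1`.  With `t = yc x`:
 `T_1 (h+1) = x + t (T_1 h + 2 T_0 h) T_1 (h+1)`,
 `T_0 (h+1) = 1 + t (T_1 h + T_0 h) T_0 (h+1) + t T_0 h * T_1 (h+1)`.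
The same equations hold for `X_u` (`h = ∞`).  With `U_h = 1 - t T_1 h - 2 t T_0 h`, `V_h = 1 - t T_1 h - t T_0 h`,
and `U, V` for the limits (`1/U = lW`, `1/V = lW'`, positive): `T_1 (h+1) = x / U_h`,
`T_0 (h+1) = T_1 (h+1) + (1-x)/V_h` (algebra as in `TSer`).  So with `D = e_1 + 2 e_0`, `D' = e_1 + e_0` (at `h`):
 `e_1 (h+1) = x/U - x/U_h = x t D / (U U_h) = alc * D * U/U_h`, `U_h = U + t D`, so
 `e_1 (h+1) ≤ alc * D * (1 - c D)` with `c > 0` (`U/(U + tD) ≤ 1 - c D` for `0 ≤ D ≤ D_0` bounded: it equals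
 `1 - t D/(U + t D)`, and `U + tD ≤ 1`), and `e_0 (h+1) = e_1 (h+1) + (1-x) t D'/(V V_h) ≤
 alc D (1 - cD) + bec D'`.
The matrix of `(e_1, e_0) ↦ (alc D, alc D + bec D')` is `[[α, 2α],[α+β, 2α+β]]`; it has the eigenvalue 1
(`det (M - 1) = 1 - 3α - β - αβ = 0`); a positive left eigenvector: `(a, b)` with `a = α a + (α+β) b`, i.e.
`a = α + β`, `b = 1 - α`.  For `m h = a e_1 h + b e_0 h`: `m (h+1) ≤ m h - c' (m h)^2` (since `D ≥ c'' m`).
Hence `1/m (h+1) ≥ 1/m h + c'`, so `m h ≤ 1/(c' h)`.
-/

set_option linter.unusedSectionVars false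

namespace Dia
open Finset Pool.Agent.DiamP
open scoped ENNReal

variable {x : ℝ}

private theorem THeight_ineq {z n : ℝ} (hn : 1 ≤ n) (hz0 : 0 ≤ z) (hz : z * n ≤ 1) :
    (z - z ^ 2) * (n + 1) ≤ 1 := by
  have h1 : z ≤ 1 := by nlinarith
  nlinarith [mul_nonneg hz0 hz0, mul_nonneg (sub_nonneg.2 hz) (sub_nonneg.2 h1)]

/-- a nonnegative sequence with `m (h+1) ≤ m h - c (m h)^2` is at most `1/(c h)` -/
private theorem THeight_seq {m : ℕ → ℝ} {c : ℝ} (hc : 0 < c) (hm : ∀ h, 0 ≤ m h)
    (hr : ∀ h, m (h + 1) ≤ m h - c * m h ^ 2) (h : ℕ) (hh : 1 ≤ h) : c * m h * h ≤ 1 := by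
  induction h with
  | zero => omega
  | succ n ih =>
    rcases Nat.eq_zero_or_pos n with rfl | hn
    · have h1 := hr 0
      have h2 : c * m 1 ≤ c * (m 0 - c * m 0 ^ 2) := mul_le_mul_of_nonneg_left h1 hc.le
      simp only [zero_add, Nat.cast_one, mul_one]
      nlinarith [sq_nonneg (c * m 0 - 1 / 2)]
    · have h1 := hr n
      have h2 : c * m (n + 1) ≤ c * (m n - c * m n ^ 2) := mul_le_mul_of_nonneg_left h1 hc.le
      have h3 : (1 : ℝ) ≤ n := by exact_mod_cast hn
      have h4 := THeight_ineq h3 (mul_nonneg hc.le (hm n)) (ih hn)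
      push_cast
      have h5 : c * (m n - c * m n ^ 2) = c * m n - (c * m n) ^ 2 := by ring
      rw [h5] at h2
      exact (mul_le_mul_of_nonneg_right h2 (by positivity)).trans h4

/-- the sum over the trees `node d c r` -/
private theorem THeight_split (x : ℝ) (hx : 0 ≤ x) (hy : 0 ≤ yc x) (up : Bool) (h : ℕ) :
    Zt x up (fun t => t.ht < h + 1) = ENNReal.ofReal (if up then x else 1) +
      ∑ d : SignType, ENNReal.ofReal (yc x) * (Zt x (decide (d = -1)) (fun t => t.ht < h) *
        Zt x (up || decide (d = 1)) (fun t => t.ht < h + 1)) := by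
  classical
  unfold Zt
  rw [tsum_LT]
  congr 1
  · rw [if_pos (by simp [LT.ht])]
    congr 1
    simp only [LT.w, LT.nup, LT.size, pow_zero, mul_one]
    cases up <;> simp
  · refine sum_congr rfl fun d _ => ?_
    rw [← ENNReal.tsum_mul_right, ← ENNReal.tsum_mul_left]
    refine tsum_congr fun c => ?_
    rw [← ENNReal.tsum_mul_left, ← ENNReal.tsum_mul_left]
    refine tsum_congr fun r => ?_
    have h2 : (LT.node d c r).ht < h + 1 ↔ c.ht < h ∧ r.ht < h + 1 := by
      simp only [LT.ht, max_lt_iff]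
      omega
    by_cases hc : c.ht < h
    · by_cases hr : r.ht < h + 1
      · rw [if_pos (h2.2 ⟨hc, hr⟩), if_pos hc, if_pos hr,
          ← ENNReal.ofReal_mul (by unfold LT.w; positivity),
          ← ENNReal.ofReal_mul hy]
        congr 1
        simp only [LT.w, LT.nup, LT.size, pow_add, pow_one]
        ring
      · rw [if_neg (fun hh => hr (h2.1 hh).2), if_neg hr, mul_zero, mul_zero]
    · rw [if_neg (fun hh => hc (h2.1 hh).1), if_neg hc, zero_mul, mul_zero]

private theorem THeight_zero (x : ℝ) (up : Bool) : Zt x up (fun t => t.ht < 0) = 0 := by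
  unfold Zt
  simp

private theorem THeight_compl (x : ℝ) (up : Bool) (h : ℕ) :
    Zt x up (fun t => h ≤ t.ht) + Zt x up (fun t => t.ht < h) = Zt x up (fun _ => True) := by
  classical
  unfold Zt
  rw [← ENNReal.tsum_add]
  refine tsum_congr fun t => ?_
  by_cases ht : h ≤ t.ht
  · rw [if_pos ht, if_neg (by omega), if_pos trivial, add_zero]
  · rw [if_neg ht, if_pos (by omega), if_pos trivial, zero_add]

/-- the real numbers -/
private noncomputable def THeight_T (x : ℝ) (up : Bool) (h : ℕ) : ℝ :=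
  (Zt x up (fun t => t.ht < h)).toReal

private theorem THeight_le (h0 : 0 < x) (h1 : x < 1) (up : Bool) (h : ℕ) :
    Zt x up (fun t => t.ht < h) ≤ ENNReal.ofReal (Xtot x up) := by
  rw [← Zt_univ h0 h1 up, ← THeight_compl x up h]
  exact le_add_self

private theorem THeight_ne (h0 : 0 < x) (h1 : x < 1) (up : Bool) (h : ℕ) :
    Zt x up (fun t => t.ht < h) ≠ ⊤ :=
  ne_top_of_le_ne_top ENNReal.ofReal_ne_top (THeight_le h0 h1 up h)

private theorem THeight_T_le (h0 : 0 < x) (h1 : x < 1) (up : Bool) (h : ℕ) :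
    THeight_T x up h ≤ Xtot x up := by
  unfold THeight_T
  exact ENNReal.toReal_le_of_le_ofReal (Xtot_pos h0 h1 up).le (THeight_le h0 h1 up h)

private theorem THeight_T_nonneg (up : Bool) (h : ℕ) : 0 ≤ THeight_T x up h :=
  ENNReal.toReal_nonneg

private theorem THeight_T_zero (up : Bool) : THeight_T x up 0 = 0 := by
  unfold THeight_T
  rw [THeight_zero]
  rfl

private theorem THeight_T_succ (h0 : 0 < x) (h1 : x < 1) (up : Bool) (h : ℕ) :
    THeight_T x up (h + 1) = (if up then x else 1) +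
      ∑ d : SignType, yc x * (THeight_T x (decide (d = -1)) h *
        THeight_T x (up || decide (d = 1)) (h + 1)) := by
  have hy := (yc_pos h0 h1).le
  have hpos : (0 : ℝ) ≤ if up then x else 1 := by split_ifs <;> linarith
  have h2 := congrArg ENNReal.toReal (THeight_split x h0.le hy up h)
  rw [ENNReal.toReal_add ENNReal.ofReal_ne_top, ENNReal.toReal_ofReal hpos,
    ENNReal.toReal_sum] at h2
  · unfold THeight_T
    rw [h2]
    congr 1
    refine sum_congr rfl fun d _ => ?_
    rw [ENNReal.toReal_mul, ENNReal.toReal_mul, ENNReal.toReal_ofReal hy]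
  · intro d _
    exact ENNReal.mul_ne_top ENNReal.ofReal_ne_top
      (ENNReal.mul_ne_top (THeight_ne h0 h1 _ _) (THeight_ne h0 h1 _ _))
  · rw [ENNReal.sum_ne_top]
    intro d _
    exact ENNReal.mul_ne_top ENNReal.ofReal_ne_top
      (ENNReal.mul_ne_top (THeight_ne h0 h1 _ _) (THeight_ne h0 h1 _ _))

private theorem THeight_sum (F : SignType → ℝ) : ∑ d : SignType, F d = F (-1) + F 0 + F 1 := by
  have h : (univ : Finset SignType) = {-1, 0, 1} := by decide
  rw [h, sum_insert (by decide), sum_insert (by decide), sum_singleton]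
  ring

private theorem THeight_T1 (h0 : 0 < x) (h1 : x < 1) (h : ℕ) :
    THeight_T x true (h + 1) = x + yc x * (THeight_T x true h + 2 * THeight_T x false h) *
      THeight_T x true (h + 1) := by
  have h2 := THeight_T_succ h0 h1 true h
  rw [THeight_sum] at h2
  have e1 : decide ((-1 : SignType) = -1) = true := by decide
  have e2 : decide ((0 : SignType) = -1) = false := by decide
  have e3 : decide ((1 : SignType) = -1) = false := by decide
  rw [e1, e2, e3] at h2
  simp only [if_true, Bool.true_or] at h2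
  linear_combination h2

private theorem THeight_T0 (h0 : 0 < x) (h1 : x < 1) (h : ℕ) :
    THeight_T x false (h + 1) = 1 + yc x * (THeight_T x true h + THeight_T x false h) *
      THeight_T x false (h + 1) + yc x * THeight_T x false h * THeight_T x true (h + 1) := by
  have h2 := THeight_T_succ h0 h1 false h
  rw [THeight_sum] at h2
  have e1 : decide ((-1 : SignType) = -1) = true := by decide
  have e2 : decide ((0 : SignType) = -1) = false := by decide
  have e3 : decide ((1 : SignType) = -1) = false := by decide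
  have e4 : (false || decide ((-1 : SignType) = 1)) = false := by decide
  have e5 : (false || decide ((0 : SignType) = 1)) = false := by decide
  have e6 : (false || decide ((1 : SignType) = 1)) = true := by decide
  rw [e1, e2, e3, e4, e5, e6] at h2
  simp only [Bool.false_eq_true, if_false] at h2
  linear_combination h2

/-- the step of the errors, pure algebra: `t = yc`, `a, b` the sums for height `< h`, `a', b'` those
for height `< h + 1`, `U, V` the limits -/
private theorem THeight_step {x t X1 X0 U V a b a' b' al be : ℝ} (hx0 : 0 < x) (hx1 : x < 1)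
    (ht : 0 < t) (hU : U = 1 - t * X1 - 2 * t * X0) (hV : V = 1 - t * X1 - t * X0)
    (hU0 : 0 < U) (hV0 : 0 < V) (hX1 : X1 * U = x) (hX0 : X0 = X1 + (1 - x) / V)
    (hal : al * U ^ 2 = t * x) (hbe : be * V ^ 2 = t * (1 - x)) (hal0 : 0 < al) (hbe0 : 0 < be)
    (hcr : 3 * al + be + al * be = 1)
    (ha : 0 ≤ a) (hb : 0 ≤ b) (haX : a ≤ X1) (hbX : b ≤ X0)
    (ha' : a' = x + t * (a + 2 * b) * a')
    (hb' : b' = 1 + t * (a + b) * b' + t * b * a') :
    (al + be) * (X1 - a') + (1 - al) * (X0 - b') ≤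
      ((al + be) * (X1 - a) + (1 - al) * (X0 - b)) -
        ((1 + be) * al * t) * ((al + be) * (X1 - a) + (1 - al) * (X0 - b)) ^ 2 := by
  obtain ⟨D, hD⟩ : ∃ D, D = (X1 - a) + 2 * (X0 - b) := ⟨_, rfl⟩
  obtain ⟨D', hD'⟩ : ∃ D', D' = (X1 - a) + (X0 - b) := ⟨_, rfl⟩
  have hD0 : 0 ≤ D := by rw [hD]; linarith
  have hD0' : 0 ≤ D' := by rw [hD']; linarith
  obtain ⟨Uh, hUh⟩ : ∃ Uh, Uh = U + t * D := ⟨_, rfl⟩
  obtain ⟨Vh, hVh⟩ : ∃ Vh, Vh = V + t * D' := ⟨_, rfl⟩
  have hUh0 : 0 < Uh := by rw [hUh]; positivity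
  have hVh0 : 0 < Vh := by rw [hVh]; positivity
  have hUa : Uh = 1 - t * a - 2 * t * b := by rw [hUh, hU, hD]; ring
  have hVa : Vh = 1 - t * a - t * b := by rw [hVh, hV, hD']; ring
  have hUh1 : Uh ≤ 1 := by
    rw [hUa]
    nlinarith [mul_nonneg ht.le ha, mul_nonneg ht.le hb]
  have ha2 : a' = x / Uh := by
    rw [eq_div_iff hUh0.ne', hUa]
    linear_combination ha'
  have hb2 : b' = a' + (1 - x) / Vh := by
    have e1 : b' * Vh = 1 - x + Vh * a' := by
      rw [hVa]
      linear_combination hb' - ha'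
    field_simp
    linear_combination e1
  have hX1' : X1 = x / U := by rw [eq_div_iff hU0.ne']; exact hX1
  -- first error
  have hal2 : al = t * x / U ^ 2 := by rw [eq_div_iff (by positivity)]; exact hal
  have hbe2 : be = t * (1 - x) / V ^ 2 := by rw [eq_div_iff (by positivity)]; exact hbe
  have he1 : X1 - a' ≤ al * D - al * t * D ^ 2 := by
    have e2 : X1 - a' = al * D * (U / Uh) := by
      rw [hX1', ha2, hal2]
      field_simp
      rw [hUh]
      ring
    have e3 : U / Uh = 1 - t * D / Uh := by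
      field_simp
      rw [hUh]
      ring
    have e9 : 0 ≤ t * D := by positivity
    have e4 : t * D ≤ t * D / Uh := by
      rw [le_div_iff₀ hUh0]
      exact mul_le_of_le_one_right e9 hUh1
    rw [e2, e3]
    have e5 : 0 ≤ al * D := by positivity
    have e6 : al * D * (1 - t * D / Uh) ≤ al * D * (1 - t * D) :=
      mul_le_mul_of_nonneg_left (by linarith) e5
    refine e6.trans (le_of_eq ?_)
    ring
  have he0 : X0 - b' ≤ (X1 - a') + be * D' := by
    have e2 : (1 - x) / V - (1 - x) / Vh ≤ be * D' := by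
      have e3 : (1 - x) / V - (1 - x) / Vh = be * D' * (V / Vh) := by
        rw [hbe2]
        field_simp
        rw [hVh]
        ring
      have e4 : V / Vh ≤ 1 := by
        rw [div_le_one hVh0, hVh]
        have : 0 ≤ t * D' := by positivity
        linarith
      rw [e3]
      exact mul_le_of_le_one_right (by positivity) e4
    rw [hX0, hb2]
    linarith
  obtain ⟨m, hm⟩ : ∃ m, m = (al + be) * (X1 - a) + (1 - al) * (X0 - b) := ⟨_, rfl⟩
  rw [← hm]
  have hab0 : 0 < al * be := mul_pos hal0 hbe0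
  have hal1 : al < 1 := by linarith
  have hab1 : al + be < 1 := by linarith
  have hm0 : 0 ≤ m := by
    rw [hm]
    have e1 : 0 ≤ X1 - a := by linarith
    have e2 : 0 ≤ X0 - b := by linarith
    have e3 : 0 ≤ 1 - al := by linarith
    positivity
  have hmD : m ≤ D := by
    have e1 : 0 ≤ X1 - a := by linarith
    have e2 : 0 ≤ X0 - b := by linarith
    have e3 : (al + be) * (X1 - a) ≤ X1 - a := mul_le_of_le_one_left e1 hab1.le
    have e4 : (1 - al) * (X0 - b) ≤ X0 - b := mul_le_of_le_one_left e2 (by linarith)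
    rw [hm, hD]
    linarith
  have hsq : m ^ 2 ≤ D ^ 2 := pow_le_pow_left₀ hm0 hmD 2
  have e5 : (al + be) * (X1 - a') + (1 - al) * (X0 - b') ≤
      (1 + be) * (X1 - a') + (1 - al) * (be * D') := by
    have e3 : (1 - al) * (X0 - b') ≤ (1 - al) * ((X1 - a') + be * D') :=
      mul_le_mul_of_nonneg_left he0 (by linarith)
    linarith
  have e6 : (1 + be) * (X1 - a') ≤ (1 + be) * (al * D - al * t * D ^ 2) :=
    mul_le_mul_of_nonneg_left he1 (by linarith)
  have e7 : (1 + be) * (al * D) + (1 - al) * (be * D') = m := by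
    rw [hm, hD, hD']
    linear_combination (X0 - b) * hcr
  have e8 : (1 + be) * al * t * m ^ 2 ≤ (1 + be) * al * t * D ^ 2 :=
    mul_le_mul_of_nonneg_left hsq (by positivity)
  linarith

private theorem THeight_X (h0 : 0 < x) (h1 : x < 1) :
    1 - yc x * Xtot x true - 2 * yc x * Xtot x false = 1 / lW x (wc x) ∧
    1 - yc x * Xtot x true - yc x * Xtot x false = 1 / lW' x (wc x) := by
  obtain ⟨hw0, hw1, -⟩ := wc_spec h0 h1
  have h2 := nW_pos h0 h1 hw0.le hw1
  have h3 : 0 < 1 - (1 - x) * wc x := by nlinarith [mul_nonneg h0.le hw0.le]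
  have h4 : 0 < 1 - wc x := by linarith
  obtain ⟨N, hN⟩ : ∃ N, N = nW x (wc x) := ⟨_, rfl⟩
  obtain ⟨E, hE⟩ : ∃ E, E = 1 - (1 - x) * wc x := ⟨_, rfl⟩
  obtain ⟨F, hF⟩ : ∃ F, F = 1 - wc x := ⟨_, rfl⟩
  have hN2 : N = 1 + 2 * x * wc x - (1 - x) * wc x ^ 2 := by rw [hN]; rfl
  constructor
  · simp only [Xtot, if_true, Bool.false_eq_true, if_false]
    unfold yc lW lW'
    rw [← hN, ← hE, ← hF]
    rw [← hN] at h2
    rw [← hE] at h3
    rw [← hF] at h4
    field_simp
    rw [hN2, hE, hF]
    ring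
  · simp only [Xtot, if_true, Bool.false_eq_true, if_false]
    unfold yc lW lW'
    rw [← hN, ← hE, ← hF]
    rw [← hN] at h2
    rw [← hE] at h3
    rw [← hF] at h4
    field_simp
    rw [hN2, hE, hF]
    ring

private theorem THeight_l (h0 : 0 < x) (h1 : x < 1) : 0 < lW x (wc x) ∧ 0 < lW' x (wc x) := by
  obtain ⟨hw0, hw1, -⟩ := wc_spec h0 h1
  have h2 := nW_pos h0 h1 hw0.le hw1
  have h3 : 0 < 1 - (1 - x) * wc x := by nlinarith [mul_nonneg h0.le hw0.le]
  have h4 : 0 < 1 - wc x := by linarith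
  unfold lW lW'
  constructor <;> positivity

theorem height_bound (h0 : 0 < x) (h1 : x < 1) : ∃ K : ℝ, 0 < K ∧ ∀ (up : Bool) (h : ℕ), 1 ≤ h →
    Zt x up (fun t => h ≤ t.ht) ≤ ENNReal.ofReal (K / h) := by
  have hX := THeight_X h0 h1
  have hl := THeight_l h0 h1
  have hy := yc_pos h0 h1
  have hal := alc_pos h0 h1
  have hbe := bec_pos h0 h1
  have hcr := alc_bec h0 h1
  have hal1 : alc x < 1 := by nlinarith [mul_pos hal hbe]
  have hA : 0 < alc x + bec x := by linarith
  have hB : 0 < 1 - alc x := by linarith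
  obtain ⟨c, hc⟩ : ∃ c, c = (1 + bec x) * alc x * yc x := ⟨_, rfl⟩
  have hc0 : 0 < c := by rw [hc]; positivity
  have hbe2 : bec x = yc x * ((1 - x) * lW' x (wc x) ^ 2) := by
    have e1 := alc_eq h0 h1
    have e2 := alc_bec_eq h0 h1
    rw [mul_add, ← e1] at e2
    linarith
  let m : ℕ → ℝ := fun h => (alc x + bec x) * (Xtot x true - THeight_T x true h) +
    (1 - alc x) * (Xtot x false - THeight_T x false h)
  have e1 : ∀ up h, 0 ≤ Xtot x up - THeight_T x up h := fun up h => by
    have := THeight_T_le h0 h1 up h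
    linarith
  have hm0 : ∀ h, 0 ≤ m h := fun h =>
    add_nonneg (mul_nonneg hA.le (e1 true h)) (mul_nonneg hB.le (e1 false h))
  have hstep : ∀ h, m (h + 1) ≤ m h - c * m h ^ 2 := by
    intro h
    have hU0 : 0 < 1 / lW x (wc x) := one_div_pos.2 hl.1
    have hV0 : 0 < 1 / lW' x (wc x) := one_div_pos.2 hl.2
    have hl1 := hl.1.ne'
    have hl2 := hl.2.ne'
    simp only [m]
    rw [hc]
    refine THeight_step (x := x) (t := yc x) (U := 1 / lW x (wc x)) (V := 1 / lW' x (wc x))
      h0 h1 hy hX.1.symm hX.2.symm hU0 hV0 ?_ ?_ ?_ ?_ hal hbe hcr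
      (THeight_T_nonneg true h) (THeight_T_nonneg false h)
      (THeight_T_le h0 h1 true h) (THeight_T_le h0 h1 false h)
      (THeight_T1 h0 h1 h) (THeight_T0 h0 h1 h)
    · simp only [Xtot, if_true]
      field_simp
    · simp only [Xtot, if_true, Bool.false_eq_true, if_false]
      field_simp
    · rw [alc_eq h0 h1]
      field_simp
    · rw [hbe2]
      field_simp
  have hseq := THeight_seq hc0 hm0 hstep
  refine ⟨1 / (c * (alc x + bec x)) + 1 / (c * (1 - alc x)), by positivity, fun up h hh => ?_⟩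
  have hh0 : (0 : ℝ) < h := by exact_mod_cast hh
  have hfin : Zt x up (fun t => h ≤ t.ht) =
      ENNReal.ofReal (Xtot x up - THeight_T x up h) := by
    have e2 := THeight_compl x up h
    rw [Zt_univ h0 h1 up] at e2
    have e3 : Zt x up (fun t => t.ht < h) = ENNReal.ofReal (THeight_T x up h) :=
      (ENNReal.ofReal_toReal (THeight_ne h0 h1 up h)).symm
    rw [e3] at e2
    rw [ENNReal.ofReal_sub _ (THeight_T_nonneg up h)]
    exact ENNReal.eq_sub_of_add_eq ENNReal.ofReal_ne_top e2
  rw [hfin]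
  apply ENNReal.ofReal_le_ofReal
  have hs := hseq h hh
  have hA2 : c * ((alc x + bec x) * (Xtot x true - THeight_T x true h)) * h ≤ 1 := by
    refine le_trans ?_ hs
    apply mul_le_mul_of_nonneg_right _ hh0.le
    apply mul_le_mul_of_nonneg_left _ hc0.le
    have := mul_nonneg hB.le (e1 false h)
    simp only [m]
    linarith
  have hB2 : c * ((1 - alc x) * (Xtot x false - THeight_T x false h)) * h ≤ 1 := by
    refine le_trans ?_ hs
    apply mul_le_mul_of_nonneg_right _ hh0.le
    apply mul_le_mul_of_nonneg_left _ hc0.le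
    have := mul_nonneg hA.le (e1 true h)
    simp only [m]
    linarith
  have hA3 : Xtot x true - THeight_T x true h ≤ 1 / (c * (alc x + bec x)) / h := by
    rw [div_div, le_div_iff₀ (by positivity)]
    linarith
  have hB3 : Xtot x false - THeight_T x false h ≤ 1 / (c * (1 - alc x)) / h := by
    rw [div_div, le_div_iff₀ (by positivity)]
    linarith
  rw [add_div]
  have hA4 : 0 ≤ 1 / (c * (alc x + bec x)) / h := by positivity
  have hB4 : 0 ≤ 1 / (c * (1 - alc x)) / h := by positivity
  cases up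
  · linarith
  · linarith

end Dia
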