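import Pool.Agent.Dia.Main1
import Pool.Agent.Dia.THalf
import Pool.Agent.Dia.EulerM

/-!
# Module TMaps: the number of rooted planar maps, with weights

`maps_pointed`: `map_tree_sum` with `g E V e = if E = N then ofReal (x^V) * F e else 0`, `N ≥ 1` (the trees
with `size = N` are `LT.all N`, not `nil`): the sum over the vertices `v` of a map.
With `F = 1`: `sum over maps with N edges of V x^V = x * Xs x false N`.
`nV_le`: `Eu` and at least one face: `nV s ≤ E + 1`; `E ≥ 1`, `nV ≥ 1`.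
`maps_bounds`: lower bound: `V ≤ N + 1`, so `sum x^(V-1) ≥ (1/(N+1)) sum V x^(V-1) = Xs x false N/(N+1)`.
Upper bound: choose `c0 > 0` with `2^c0 ≤ (1+η)^(1/2)` (`THalf`).  Maps with `V ≥ c0 N`: `sum x^(V-1) ≤
(1/(c0 N)) sum V x^(V-1) = Xs x false N/(c0 N)`.  Maps with `V < c0 N`: `x^V = 2^V (x/2)^V ≤ 2^(c0 N) V (x/2)^V`,
so (pointed formula for `x/2`) `sum ≤ 2^(c0 N) (x/2) Xs (x/2) false N ≤ 2^(c0 N) K (yc (1+η))^(-N)`; multiplied
by `yc^N` this is `≤ K (1+η)^(-N/2) ≤ K' N^(-5/2)`.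
Finiteness of all sums in `ℝ≥0∞` from the same bounds.
-/

set_option linter.unusedSectionVars false

namespace Dia
open Finset Pool.Agent.DiamP PGr
open scoped ENNReal

variable {x : ℝ}

theorem TMaps_ofReal_w (h0 : 0 < x) (t : LT) : ENNReal.ofReal (x ^ (1 + t.nup false)) =
    ENNReal.ofReal x * ENNReal.ofReal (t.w x false) := by
  rw [← ENNReal.ofReal_mul h0.le]
  unfold LT.w
  rw [pow_add, pow_one]

theorem maps_pointed (h0 : 0 < x) (N : ℕ) (hN : 1 ≤ N) (F : ℕ → ℝ≥0∞) :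
    (∑' m : RMC, if m.out.1.E = N then
      ENNReal.ofReal (x ^ nV m.out.1.s) * ∑ v : m.out.1.V, F (m.out.1.ecc v) else 0) =
    ENNReal.ofReal x * ∑ t ∈ LT.all N, ENNReal.ofReal (t.w x false) * F t.rng := by
  have h1 := map_tree_sum fun E V e => if E = N then ENNReal.ofReal (x ^ V) * F e else 0
  have h2 : ∀ m : RMC, (∑ v : m.out.1.V, if m.out.1.E = N then
      ENNReal.ofReal (x ^ nV m.out.1.s) * F (m.out.1.ecc v) else 0) =
      if m.out.1.E = N then
        ENNReal.ofReal (x ^ nV m.out.1.s) * ∑ v : m.out.1.V, F (m.out.1.ecc v) else 0 := by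
    intro m
    by_cases h : m.out.1.E = N
    · simp only [if_pos h]
      rw [Finset.mul_sum]
    · simp only [if_neg h]
      rw [Finset.sum_const_zero]
  rw [tsum_congr h2] at h1
  rw [h1, tsum_eq_sum (s := LT.all N)]
  · rw [Finset.mul_sum]
    refine Finset.sum_congr rfl fun t ht => ?_
    have h3 := LT.mem_all.1 ht
    have h4 : t ≠ LT.nil := by
      rintro rfl
      have h5 : LT.nil.size = 0 := rfl
      omega
    rw [if_neg h4, if_pos h3, TMaps_ofReal_w h0, mul_assoc]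
  · intro t ht
    have h3 : t.size ≠ N := fun h => ht (LT.mem_all.2 h)
    by_cases h4 : t = LT.nil
    · rw [if_pos h4]
    · rw [if_neg h4, if_neg h3]

theorem TMaps_nV_pos {T : Type} [Fintype T] [DecidableEq T] (s : Equiv.Perm T) (r : T) : 1 ≤ nV s := by
  unfold nV
  have h1 : Nonempty (Quotient (Equiv.Perm.SameCycle.setoid s)) := ⟨Quotient.mk _ r⟩
  have h2 : Finite (Quotient (Equiv.Perm.SameCycle.setoid s)) := inferInstance
  exact Nat.card_pos

theorem RM.Ok.nV_le {M : RM} (h : M.Ok) : 1 ≤ M.E ∧ 1 ≤ nV M.s ∧ nV M.s ≤ M.E + 1 ∧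
    Fintype.card M.T = 2 * M.E ∧ Fintype.card M.V = nV M.s := by
  have h1 : 2 * (Fintype.card M.T / 2) = Fintype.card M.T := even_card h.inv h.fpf
  have h2 : 0 < Fintype.card M.T := Fintype.card_pos_iff.2 ⟨M.r⟩
  have h3 := TMaps_nV_pos M.s M.r
  have h4 := TMaps_nV_pos M.ph M.r
  have h5 : 2 * (nV M.s + nV M.ph) = Fintype.card M.T + 4 := h.eu
  have h6 : M.E = Fintype.card M.T / 2 := rfl
  refine ⟨by omega, h3, by omega, by omega, ?_⟩
  rw [← Nat.card_eq_fintype_card]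
  rfl

/-- weighted number of rooted planar maps with `N` edges -/
noncomputable def mapsum (x : ℝ) (N : ℕ) : ℝ≥0∞ :=
  ∑' m : RMC, if m.out.1.E = N then ENNReal.ofReal (x ^ (nV m.out.1.s - 1)) else 0

/-- `a(N)` -/
noncomputable def am (x : ℝ) (N : ℕ) : ℝ := if N = 0 then 1 else (mapsum x N).toReal * yc x ^ N

theorem TMaps_Xs (h0 : 0 < x) (N : ℕ) :
    ∑ t ∈ LT.all N, ENNReal.ofReal (t.w x false) = ENNReal.ofReal (Xs x false N) := by
  unfold Xs
  rw [ENNReal.ofReal_sum_of_nonneg]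
  intro t _
  unfold LT.w
  positivity

/-- the sum over the maps with a marked vertex -/
theorem TMaps_pt (h0 : 0 < x) (N : ℕ) (hN : 1 ≤ N) :
    (∑' m : RMC, if m.out.1.E = N then
      ENNReal.ofReal (x ^ (nV m.out.1.s - 1)) * (nV m.out.1.s : ℝ≥0∞) else 0) =
    ENNReal.ofReal (Xs x false N) := by
  have h1 := maps_pointed h0 N hN fun _ => 1
  have hx : ENNReal.ofReal x ≠ 0 := (ENNReal.ofReal_pos.2 h0).ne'
  have h2 : ∀ m : RMC, (if m.out.1.E = N then
      ENNReal.ofReal (x ^ nV m.out.1.s) * ∑ v : m.out.1.V, (1 : ℝ≥0∞) else 0) =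
      ENNReal.ofReal x * (if m.out.1.E = N then
      ENNReal.ofReal (x ^ (nV m.out.1.s - 1)) * (nV m.out.1.s : ℝ≥0∞) else 0) := by
    intro m
    obtain ⟨-, h3, -, -, h4⟩ := m.out.2.nV_le
    by_cases h : m.out.1.E = N
    · rw [if_pos h, if_pos h, Finset.sum_const, Finset.card_univ, h4, nsmul_eq_mul, mul_one,
        ← mul_assoc, ← ENNReal.ofReal_mul h0.le]
      congr 2
      rw [← pow_succ']
      congr 1
      omega
    · rw [if_neg h, if_neg h, mul_zero]
  rw [tsum_congr h2, ENNReal.tsum_mul_left] at h1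
  have h3 := (ENNReal.mul_right_inj hx ENNReal.ofReal_ne_top).1 h1
  rw [h3, ← TMaps_Xs h0]
  refine Finset.sum_congr rfl fun t _ => ?_
  rw [mul_one]

theorem mapsum_ne_top (h0 : 0 < x) (h1 : x < 1) (N : ℕ) : mapsum x N ≠ ⊤ := by
  rcases Nat.eq_zero_or_pos N with rfl | hN
  · have h2 : mapsum x 0 = 0 := by
      unfold mapsum
      rw [ENNReal.tsum_eq_zero]
      intro m
      have h3 := m.out.2.nV_le.1
      rw [if_neg (by omega)]
    rw [h2]
    exact ENNReal.zero_ne_top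
  · have h2 := TMaps_pt h0 N hN
    refine ne_top_of_le_ne_top (b := ENNReal.ofReal (Xs x false N)) ENNReal.ofReal_ne_top ?_
    rw [← h2]
    unfold mapsum
    refine ENNReal.tsum_le_tsum fun m => ?_
    by_cases h : m.out.1.E = N
    · rw [if_pos h, if_pos h]
      have h3 := m.out.2.nV_le.2.1
      calc ENNReal.ofReal (x ^ (nV m.out.1.s - 1))
          = ENNReal.ofReal (x ^ (nV m.out.1.s - 1)) * 1 := (mul_one _).symm
        _ ≤ _ := mul_le_mul_right (by exact_mod_cast h3) _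
    · rw [if_neg h, if_neg h]

/-- maps with few vertices are exponentially rare -/
theorem maps_few (h0 : 0 < x) (h1 : x < 1) : ∃ c0 r K : ℝ, 0 < c0 ∧ r < 1 ∧ 0 < r ∧ 0 < K ∧
    ∀ N : ℕ, 1 ≤ N →
    (∑' m : RMC, if m.out.1.E = N ∧ (nV m.out.1.s : ℝ) ≤ c0 * N then
      ENNReal.ofReal (x ^ (nV m.out.1.s - 1) * yc x ^ N) else 0) ≤ ENNReal.ofReal (K * r ^ N) := by
  obtain ⟨η, K, hη, hK, hX⟩ := half_sum h0 h1
  have hy := yc_pos h0 h1
  have hs0 : 0 < Real.sqrt (1 + η) := Real.sqrt_pos.2 (by linarith)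
  have hs1 : 1 < Real.sqrt (1 + η) := by
    rw [Real.lt_sqrt (by norm_num)]
    linarith
  have hs2 : Real.sqrt (1 + η) ^ 2 = 1 + η := Real.sq_sqrt (by linarith)
  generalize Real.sqrt (1 + η) = s at hs0 hs1 hs2
  have hc : 0 < Real.logb 2 s := Real.logb_pos (by norm_num) hs1
  have hcs : (2 : ℝ) ^ Real.logb 2 s = s := Real.rpow_logb (by norm_num) (by norm_num) hs0
  refine ⟨Real.logb 2 s, s⁻¹, K, hc, inv_lt_one_of_one_lt₀ hs1, inv_pos.2 hs0, hK, fun N hN => ?_⟩
  have hx2 : 0 < x / 2 := by linarith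
  have h2 := TMaps_pt hx2 N hN
  have h3 : (∑' m : RMC, if m.out.1.E = N ∧ (nV m.out.1.s : ℝ) ≤ Real.logb 2 s * N then
      ENNReal.ofReal (x ^ (nV m.out.1.s - 1) * yc x ^ N) else 0) ≤
      ENNReal.ofReal (s ^ N * yc x ^ N) * ∑' m : RMC, (if m.out.1.E = N then
      ENNReal.ofReal ((x / 2) ^ (nV m.out.1.s - 1)) * (nV m.out.1.s : ℝ≥0∞) else 0) := by
    rw [← ENNReal.tsum_mul_left]
    refine ENNReal.tsum_le_tsum fun m => ?_
    by_cases h : m.out.1.E = N ∧ (nV m.out.1.s : ℝ) ≤ Real.logb 2 s * N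
    · rw [if_pos h, if_pos h.1]
      have h4 := m.out.2.nV_le.2.1
      have h5 : (2 : ℝ) ^ (nV m.out.1.s - 1) ≤ s ^ N := by
        calc (2 : ℝ) ^ (nV m.out.1.s - 1) ≤ (2 : ℝ) ^ (nV m.out.1.s) :=
              pow_le_pow_right₀ (by norm_num) (Nat.sub_le _ _)
          _ = (2 : ℝ) ^ ((nV m.out.1.s : ℕ) : ℝ) := (Real.rpow_natCast _ _).symm
          _ ≤ (2 : ℝ) ^ (Real.logb 2 s * N) := Real.rpow_le_rpow_of_exponent_le (by norm_num) h.2
          _ = s ^ N := by rw [Real.rpow_mul (by norm_num), hcs, Real.rpow_natCast]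
      have h6 : x ^ (nV m.out.1.s - 1) * yc x ^ N ≤
          s ^ N * yc x ^ N * (x / 2) ^ (nV m.out.1.s - 1) := by
        have h7 : x ^ (nV m.out.1.s - 1) =
            2 ^ (nV m.out.1.s - 1) * (x / 2) ^ (nV m.out.1.s - 1) := by
          rw [← mul_pow]
          congr 1
          ring
        rw [h7]
        calc 2 ^ (nV m.out.1.s - 1) * (x / 2) ^ (nV m.out.1.s - 1) * yc x ^ N
            = 2 ^ (nV m.out.1.s - 1) * (yc x ^ N * (x / 2) ^ (nV m.out.1.s - 1)) := by ring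
          _ ≤ s ^ N * (yc x ^ N * (x / 2) ^ (nV m.out.1.s - 1)) :=
              mul_le_mul_of_nonneg_right h5 (by positivity)
          _ = _ := by ring
      calc ENNReal.ofReal (x ^ (nV m.out.1.s - 1) * yc x ^ N)
          ≤ ENNReal.ofReal (s ^ N * yc x ^ N * (x / 2) ^ (nV m.out.1.s - 1)) :=
            ENNReal.ofReal_le_ofReal h6
        _ = ENNReal.ofReal (s ^ N * yc x ^ N) *
              (ENNReal.ofReal ((x / 2) ^ (nV m.out.1.s - 1)) * 1) := by
            rw [mul_one, ← ENNReal.ofReal_mul (by positivity)]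
        _ ≤ _ := mul_le_mul_right (mul_le_mul_right (by exact_mod_cast h4) _) _
    · rw [if_neg h]
      exact zero_le
  refine h3.trans ?_
  rw [h2, ← ENNReal.ofReal_mul (by positivity)]
  refine ENNReal.ofReal_le_ofReal ?_
  have h4 := hX N
  rw [mul_pow, ← hs2, ← pow_mul] at h4
  have h5 : 0 < s ^ N := by positivity
  have h6 : s ^ (2 * N) = s ^ N * s ^ N := by
    rw [two_mul, pow_add]
  rw [h6] at h4
  rw [inv_pow, ← div_eq_mul_inv, le_div_iff₀ h5]
  calc s ^ N * yc x ^ N * Xs (x / 2) false N * s ^ N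
      = Xs (x / 2) false N * (yc x ^ N * (s ^ N * s ^ N)) := by ring
    _ ≤ K := h4

theorem TMaps_exp {r : ℝ} (hr0 : 0 < r) (hr1 : r < 1) : ∃ C : ℝ, 0 < C ∧ ∀ N : ℕ, 1 ≤ N →
    r ^ N ≤ C * (N : ℝ) ^ (-(5 / 2) : ℝ) := by
  have h1 := tendsto_pow_const_mul_const_pow_of_lt_one 3 hr0.le hr1
  obtain ⟨C, hC⟩ := h1.bddAbove_range
  refine ⟨max C 1, lt_max_of_lt_right one_pos, fun N hN => ?_⟩
  have h2 : (N : ℝ) ^ 3 * r ^ N ≤ C := hC ⟨N, rfl⟩
  have hN0 : (0 : ℝ) < N := by exact_mod_cast hN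
  have hN1 : (1 : ℝ) ≤ N := by exact_mod_cast hN
  have h3 : (N : ℝ) ^ (5 / 2 : ℝ) ≤ (N : ℝ) ^ 3 := by
    rw [← Real.rpow_natCast]
    exact Real.rpow_le_rpow_of_exponent_le hN1 (by norm_num)
  rw [Real.rpow_neg hN0.le, ← div_eq_mul_inv, le_div_iff₀ (by positivity)]
  calc r ^ N * (N : ℝ) ^ (5 / 2 : ℝ) ≤ r ^ N * (N : ℝ) ^ 3 :=
        mul_le_mul_of_nonneg_left h3 (by positivity)
    _ = (N : ℝ) ^ 3 * r ^ N := by ring
    _ ≤ C := h2
    _ ≤ max C 1 := le_max_left _ _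

theorem TMaps_rpow {N : ℕ} (hN : 1 ≤ N) :
    (N : ℝ) ^ (-(5 / 2) : ℝ) = (N : ℝ) ^ (-(3 / 2) : ℝ) / N := by
  have hN0 : (0 : ℝ) < N := by exact_mod_cast hN
  rw [show (-(5 / 2) : ℝ) = -(3 / 2) - 1 by norm_num, Real.rpow_sub_one hN0.ne']

theorem maps_bounds (h0 : 0 < x) (h1 : x < 1) : ∃ c K : ℝ, 0 < c ∧ 0 < K ∧ ∀ N : ℕ, 1 ≤ N →
    c * (N : ℝ) ^ (-(5 / 2) : ℝ) ≤ am x N ∧ am x N ≤ K * (N : ℝ) ^ (-(5 / 2) : ℝ) := by
  obtain ⟨c, K, hc, hK, hX⟩ := Xs_bounds h0 h1 false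
  obtain ⟨c0, r, K1, hc0, hr1, hr0, hK1, hfew⟩ := maps_few h0 h1
  obtain ⟨C, hC, hexp⟩ := TMaps_exp hr0 hr1
  have hy := yc_pos h0 h1
  refine ⟨c / 2, K1 * C + K / c0, by positivity, by positivity, fun N hN => ?_⟩
  have hN0 : (0 : ℝ) < N := by exact_mod_cast hN
  have hN1 : (1 : ℝ) ≤ N := by exact_mod_cast hN
  have ham : am x N = (mapsum x N).toReal * yc x ^ N := by
    unfold am
    rw [if_neg (by omega)]
  have hfin := mapsum_ne_top h0 h1 N
  have hpt := TMaps_pt h0 N hN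
  have hXs0 := Xs_nonneg h0.le false N
  constructor
  · -- lower bound
    have h2 : ENNReal.ofReal (Xs x false N) ≤ mapsum x N * ((N + 1 : ℕ) : ℝ≥0∞) := by
      rw [← hpt]
      unfold mapsum
      rw [← ENNReal.tsum_mul_right]
      refine ENNReal.tsum_le_tsum fun m => ?_
      by_cases h : m.out.1.E = N
      · rw [if_pos h, if_pos h]
        have h3 := m.out.2.nV_le.2.2.1
        rw [h] at h3
        exact mul_le_mul_right (by exact_mod_cast h3) _
      · rw [if_neg h, if_neg h, zero_mul]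
    have h3 : Xs x false N ≤ (mapsum x N).toReal * (N + 1) := by
      have h4 := ENNReal.toReal_mono (ENNReal.mul_ne_top hfin (ENNReal.natCast_ne_top _)) h2
      rw [ENNReal.toReal_ofReal hXs0, ENNReal.toReal_mul, ENNReal.toReal_natCast] at h4
      push_cast at h4
      exact h4
    have h4 := (hX N hN).1
    rw [TMaps_rpow hN, ham]
    have h5 : 0 ≤ (mapsum x N).toReal := ENNReal.toReal_nonneg
    have h6 : c * (N : ℝ) ^ (-(3 / 2) : ℝ) ≤ (mapsum x N).toReal * (N + 1) * yc x ^ N :=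
      h4.trans (mul_le_mul_of_nonneg_right h3 (by positivity))
    have h7 : (mapsum x N).toReal * (N + 1) * yc x ^ N ≤
        (mapsum x N).toReal * yc x ^ N * (2 * N) := by
      have h8 : (N : ℝ) + 1 ≤ 2 * N := by linarith
      calc (mapsum x N).toReal * (N + 1) * yc x ^ N
          = (mapsum x N).toReal * yc x ^ N * (N + 1) := by ring
        _ ≤ _ := mul_le_mul_of_nonneg_left h8 (by positivity)
    have h8 := h6.trans h7
    calc c / 2 * ((N : ℝ) ^ (-(3 / 2) : ℝ) / N) = c * (N : ℝ) ^ (-(3 / 2) : ℝ) / (2 * N) := by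
          field_simp
      _ ≤ (mapsum x N).toReal * yc x ^ N := by
          rw [div_le_iff₀ (by positivity)]
          exact h8
  · -- upper bound
    have h2 : mapsum x N * ENNReal.ofReal (yc x ^ N) ≤
        (∑' m : RMC, if m.out.1.E = N ∧ (nV m.out.1.s : ℝ) ≤ c0 * N then
          ENNReal.ofReal (x ^ (nV m.out.1.s - 1) * yc x ^ N) else 0) +
        ENNReal.ofReal (yc x ^ N / (c0 * N)) * ∑' m : RMC, (if m.out.1.E = N then
          ENNReal.ofReal (x ^ (nV m.out.1.s - 1)) * (nV m.out.1.s : ℝ≥0∞) else 0) := by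
      unfold mapsum
      rw [← ENNReal.tsum_mul_right, ← ENNReal.tsum_mul_left, ← ENNReal.tsum_add]
      refine ENNReal.tsum_le_tsum fun m => ?_
      by_cases h : m.out.1.E = N
      · by_cases h' : (nV m.out.1.s : ℝ) ≤ c0 * N
        · rw [if_pos h, if_pos ⟨h, h'⟩, ← ENNReal.ofReal_mul (by positivity)]
          exact le_self_add
        · rw [if_pos h, if_neg (fun hh => h' hh.2), if_pos h, zero_add,
            ← ENNReal.ofReal_natCast, ← ENNReal.ofReal_mul (by positivity),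
            ← ENNReal.ofReal_mul (by positivity), ← ENNReal.ofReal_mul (by positivity)]
          refine ENNReal.ofReal_le_ofReal ?_
          have h3 := (not_le.1 h').le
          have h4 : 0 < c0 * N := by positivity
          have h5 : 1 ≤ (nV m.out.1.s : ℝ) / (c0 * N) := by
            rw [le_div_iff₀ h4, one_mul]
            exact h3
          calc x ^ (nV m.out.1.s - 1) * yc x ^ N
              = x ^ (nV m.out.1.s - 1) * yc x ^ N * 1 := (mul_one _).symm
            _ ≤ x ^ (nV m.out.1.s - 1) * yc x ^ N * ((nV m.out.1.s : ℝ) / (c0 * N)) :=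
                mul_le_mul_of_nonneg_left h5 (by positivity)
            _ = _ := by ring
      · rw [if_neg h, if_neg (fun hh => h hh.1), if_neg h, zero_mul, mul_zero, zero_add]
    rw [hpt] at h2
    have h3 : mapsum x N * ENNReal.ofReal (yc x ^ N) ≤
        ENNReal.ofReal (K1 * r ^ N + yc x ^ N / (c0 * N) * Xs x false N) := by
      rw [ENNReal.ofReal_add (by positivity) (by positivity), ENNReal.ofReal_mul (by positivity :
        0 ≤ yc x ^ N / (c0 * N))]
      exact h2.trans (add_le_add_left (hfew N hN) _)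
    have h4 := ENNReal.toReal_mono ENNReal.ofReal_ne_top h3
    rw [ENNReal.toReal_mul, ENNReal.toReal_ofReal (by positivity),
      ENNReal.toReal_ofReal (by positivity), ← ham] at h4
    refine h4.trans ?_
    have h5 := (hX N hN).2
    have h6 : yc x ^ N / (c0 * N) * Xs x false N ≤ K / c0 * (N : ℝ) ^ (-(5 / 2) : ℝ) := by
      rw [TMaps_rpow hN]
      calc yc x ^ N / (c0 * N) * Xs x false N = (Xs x false N * yc x ^ N) / (c0 * N) := by ring
        _ ≤ (K * (N : ℝ) ^ (-(3 / 2) : ℝ)) / (c0 * N) :=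
            div_le_div_of_nonneg_right h5 (by positivity)
        _ = _ := by field_simp
    have h7 : K1 * r ^ N ≤ K1 * C * (N : ℝ) ^ (-(5 / 2) : ℝ) := by
      rw [mul_assoc]
      exact mul_le_mul_of_nonneg_left (hexp N hN) hK1.le
    rw [add_mul]
    exact add_le_add h7 h6

end Dia
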