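import Pool.Agent.Dia.TSer

/-!
# Module TMark: trees with a marked vertex

For `f : LT → ℝ` and a path `p` let `MS x f p u` be the power series with coefficients
`sum over t in LT.all N of t.w x u * (sum of f over LT.occ p t)`.  Then
`MS (d :: p) u = K_{u,d} * MS p (d = -1)`.
-/

set_option linter.unusedSectionVars false

namespace Dia
open Finset Pool.Agent.DiamP
open scoped ENNReal

theorem pst_cons (up : Bool) (d : SignType) (p : List SignType) :
    pst up (d :: p) = pst (decide (d = -1)) p := by
  unfold pst
  cases p with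
  | nil => simp
  | cons e q =>
    rw [List.getLast?_cons_cons]
    cases h : (e :: q).getLast? with
    | none => simp at h
    | some z => rfl

/-! ### algebra -/

theorem mark_alg1 {R : Type*} [CommRing R] {t X1 X0 Lp G S' x : R}
    (hL : Lp * (1 - t * X1 - 2 * (t * X0)) = 1) (hX1 : X1 = x * Lp)
    (hG : G = t * (S' * X1 + (X1 + 2 * X0) * G)) : G = t * (x * Lp ^ 2) * S' := by
  linear_combination (-G) * hL + Lp * hG + Lp * t * S' * hX1

theorem mark_alg2 {R : Type*} [CommRing R] {t X1 X0 Lp Lq G G1 S' x : R}
    (hL : Lp * (1 - t * X1 - 2 * (t * X0)) = 1) (hL' : Lq * (1 - t * X1 - t * X0) = 1)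
    (hX1 : X1 = x * Lp) (hG1 : G1 = t * (x * Lp ^ 2) * S')
    (hG : G = t * (S' * X1 + (X1 + X0) * G + X0 * G1)) : G = t * (x * Lp ^ 2) * S' := by
  have h1 : Lq * (1 + t * X0 * Lp) = Lp := by
    linear_combination (-Lq) * hL + Lp * hL'
  linear_combination (-G) * hL' + Lq * hG + Lq * t * S' * hX1 + Lq * t * X0 * hG1 +
    t * S' * x * Lp * h1

theorem mark_alg3 {R : Type*} [CommRing R] {t X1 X0 Lp Lq G G1 S' x y : R}
    (hL : Lp * (1 - t * X1 - 2 * (t * X0)) = 1) (hL' : Lq * (1 - t * X1 - t * X0) = 1)
    (hX0 : X0 = x * Lp + y * Lq) (hG1 : G1 = t * (x * Lp ^ 2) * S')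
    (hG : G = t * (S' * X0 + (X1 + X0) * G + X0 * G1)) :
    G = t * (x * Lp ^ 2 + y * Lq ^ 2) * S' := by
  have h1 : Lq * (1 + t * X0 * Lp) = Lp := by
    linear_combination (-Lq) * hL + Lp * hL'
  linear_combination (-G) * hL' + Lq * hG + Lq * t * S' * hX0 + Lq * t * X0 * hG1 +
    t * S' * x * Lp * h1

/-! ### the series -/

/-- marked series -/
noncomputable def MS (x : ℝ) (f : LT → ℝ) (p : List SignType) (u : Bool) : PowerSeries ℝ :=
  PowerSeries.mk fun N => ∑ t ∈ LT.all N, t.w x u * ((LT.occ p t).map f).sum

theorem w_node (x : ℝ) (u : Bool) (d : SignType) (c r : LT) :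
    (LT.node d c r).w x u = c.w x (decide (d = -1)) * r.w x (u || decide (d = 1)) := by
  simp only [LT.w, LT.nup, pow_add]

theorem occ_node_sum (f : LT → ℝ) (d d' : SignType) (p : List SignType) (c r : LT) :
    ((LT.occ (d :: p) (LT.node d' c r)).map f).sum =
      (if d = d' then ((LT.occ p c).map f).sum else 0) + ((LT.occ (d :: p) r).map f).sum := by
  rw [LT.occ, List.map_append, List.sum_append]
  split_ifs <;> simp

theorem MS_cons (x : ℝ) (f : LT → ℝ) (d : SignType) (p : List SignType) (u : Bool) :
    MS x f (d :: p) u = PowerSeries.X * (MS x f p (decide (d = -1)) * Xp x (u || decide (d = 1)) +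
      ∑ d' : SignType, Xp x (decide (d' = -1)) * MS x f (d :: p) (u || decide (d' = 1))) := by
  ext N
  cases N with
  | zero =>
    rw [PowerSeries.coeff_zero_X_mul, MS, PowerSeries.coeff_mk, LT.all_zero, Finset.sum_singleton,
      LT.occ]
    simp
  | succ n =>
    rw [PowerSeries.coeff_succ_X_mul, MS, PowerSeries.coeff_mk, LT.sum_all_succ, map_add, map_sum,
      PowerSeries.coeff_mul]
    simp only [PowerSeries.coeff_mul]
    have h1 : ∀ (d' : SignType) (ij : ℕ × ℕ),
        ∑ c ∈ LT.all ij.1, ∑ r ∈ LT.all ij.2, (LT.node d' c r).w x u *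
          ((LT.occ (d :: p) (LT.node d' c r)).map f).sum =
        (if d = d' then PowerSeries.coeff ij.1 (MS x f p (decide (d = -1))) *
          PowerSeries.coeff ij.2 (Xp x (u || decide (d = 1))) else 0) +
        PowerSeries.coeff ij.1 (Xp x (decide (d' = -1))) *
          PowerSeries.coeff ij.2 (MS x f (d :: p) (u || decide (d' = 1))) := by
      intro d' ij
      simp only [MS, Xp, PowerSeries.coeff_mk, Xs]
      rw [Finset.sum_mul_sum, Finset.sum_mul_sum]
      have h2 : ∀ c r : LT, (LT.node d' c r).w x u *
          ((LT.occ (d :: p) (LT.node d' c r)).map f).sum =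
          (if d = d' then c.w x (decide (d = -1)) * ((LT.occ p c).map f).sum *
            r.w x (u || decide (d = 1)) else 0) +
          c.w x (decide (d' = -1)) *
            (r.w x (u || decide (d' = 1)) * ((LT.occ (d :: p) r).map f).sum) := by
        intro c r
        rw [w_node, occ_node_sum]
        split_ifs with h
        · subst h
          ring
        · ring
      simp only [h2, Finset.sum_add_distrib]
      congr 1
      split_ifs with h
      · rfl
      · simp
    simp only [h1, Finset.sum_add_distrib]
    congr 1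
    rw [Finset.sum_comm]
    refine Finset.sum_congr rfl fun ij _ => ?_
    rw [Finset.sum_ite_eq]
    simp

theorem Lp_inv (x : ℝ) : Lp x *
    (1 - PowerSeries.X * Xp x true - 2 * (PowerSeries.X * Xp x false)) = 1 := by
  unfold Lp
  refine PowerSeries.inv_mul_cancel _ ?_
  simp

theorem Lq_inv (x : ℝ) : Lq x *
    (1 - PowerSeries.X * Xp x true - PowerSeries.X * Xp x false) = 1 := by
  unfold Lq
  refine PowerSeries.inv_mul_cancel _ ?_
  simp

/-- the kernel series -/
noncomputable def KP (x : ℝ) (u : Bool) (d : SignType) : PowerSeries ℝ :=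
  if u = true ∨ d = 1 then PowerSeries.X * (PowerSeries.C x * Lp x ^ 2)
  else PowerSeries.X * (PowerSeries.C x * Lp x ^ 2 + PowerSeries.C (1 - x) * Lq x ^ 2)

theorem sum_sign {M : Type*} [AddCommMonoid M] (g : SignType → M) :
    ∑ d : SignType, g d = g 0 + (g (-1) + g 1) := by
  rw [show (univ : Finset SignType) = {0, -1, 1} from by decide]
  rw [Finset.sum_insert (by decide), Finset.sum_insert (by decide), Finset.sum_singleton]

theorem MS_cons' (x : ℝ) (f : LT → ℝ) (d : SignType) (p : List SignType) (u : Bool) :
    MS x f (d :: p) u = KP x u d * MS x f p (decide (d = -1)) := by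
  have hL := Lp_inv x
  have hL' := Lq_inv x
  have hX1 := Xp_true_eq x
  have hX0 := Xp_false_eq x
  have h1 := MS_cons x f d p true
  rw [sum_sign] at h1
  have e1 : MS x f (d :: p) true = PowerSeries.X *
      (MS x f p (decide (d = -1)) * Xp x true + (Xp x true + 2 * Xp x false) *
        MS x f (d :: p) true) := by
    refine h1.trans ?_
    simp only [Bool.true_or]
    rw [show decide ((0 : SignType) = -1) = false from by decide, decide_true,
      show decide ((1 : SignType) = -1) = false from by decide]
    ring
  have g1 := mark_alg1 hL hX1 e1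
  cases u with
  | true =>
    rw [KP, if_pos (Or.inl rfl)]
    exact g1
  | false =>
    have h0 := MS_cons x f d p false
    rw [sum_sign] at h0
    have e0 : MS x f (d :: p) false = PowerSeries.X *
        (MS x f p (decide (d = -1)) * Xp x (decide (d = 1)) + (Xp x true + Xp x false) *
          MS x f (d :: p) false + Xp x false * MS x f (d :: p) true) := by
      refine h0.trans ?_
      simp only [Bool.false_or]
      rw [show decide ((0 : SignType) = -1) = false from by decide, decide_true,
        show decide ((1 : SignType) = -1) = false from by decide,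
        show decide ((0 : SignType) = 1) = false from by decide,
        show decide ((-1 : SignType) = 1) = false from by decide]
      ring
    by_cases hd : d = 1
    · rw [KP, if_pos (Or.inr hd)]
      rw [show decide (d = 1) = true from decide_eq_true hd] at e0
      exact mark_alg2 hL hL' hX1 g1 e0
    · rw [KP, if_neg (by simp [hd])]
      rw [show decide (d = 1) = false from decide_eq_false hd] at e0
      exact mark_alg3 hL hL' hX0 g1 e0

/-! ### coefficients -/

theorem mk_cv (a b : ℕ → ℝ) : PowerSeries.mk (cv a b) = PowerSeries.mk a * PowerSeries.mk b := by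
  ext n
  rw [PowerSeries.coeff_mul, PowerSeries.coeff_mk]
  simp only [PowerSeries.coeff_mk]
  rfl

theorem mk_cf (x : ℝ) (P : PowerSeries ℝ) :
    PowerSeries.mk (cf x P) = PowerSeries.rescale (yc x) P := by
  ext n
  rw [PowerSeries.coeff_mk, PowerSeries.coeff_rescale, cf, mul_comm]

theorem mk_kk (x : ℝ) (u : Bool) (d : SignType) :
    PowerSeries.mk (kk x u d) = PowerSeries.rescale (yc x) (KP x u d) := by
  unfold kk KP
  split_ifs with h
  · rw [k1, mk_cf]
  · rw [k2, mk_cf]

theorem MS_path (x : ℝ) (f : LT → ℝ) (p : List SignType) (u : Bool) :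
    PowerSeries.rescale (yc x) (MS x f p u) = PowerSeries.mk (cvL (kks x u p)) *
      PowerSeries.rescale (yc x) (MS x f [] (pst u p)) := by
  induction p generalizing u with
  | nil =>
    have h1 : PowerSeries.mk (cvL (kks x u [])) = 1 := by
      ext n
      rw [PowerSeries.coeff_mk, PowerSeries.coeff_one]
      rfl
    have h2 : pst u [] = u := rfl
    rw [h1, one_mul, h2]
  | cons d p ih =>
    rw [MS_cons', map_mul, ih, pst_cons, kks, cvL_cons, mk_cv, mk_kk, mul_assoc]

theorem mark (x : ℝ) (up : Bool) (p : List SignType) (f : LT → ℝ) (N : ℕ) :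
    (∑ t ∈ LT.all N, t.w x up * ((LT.occ p t).map f).sum) * yc x ^ N =
      cv (cvL (kks x up p))
        (fun m => (∑ s ∈ LT.all m, s.w x (pst up p) * f s) * yc x ^ m) N := by
  have h := congrArg (PowerSeries.coeff N) (MS_path x f p up)
  rw [PowerSeries.coeff_rescale, MS, PowerSeries.coeff_mk] at h
  rw [mul_comm, h, PowerSeries.coeff_mul]
  unfold cv
  refine Finset.sum_congr rfl fun ij _ => ?_
  rw [PowerSeries.coeff_mk, PowerSeries.coeff_rescale, MS, PowerSeries.coeff_mk]
  have : ∀ s : LT, ((LT.occ [] s).map f).sum = f s := by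
    intro s
    rw [LT.occ]
    simp
  simp only [this]
  ring

end Dia
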