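import Pool.Agent.Dia.TDefs

/-!
# Module TOcc: vertices, paths and subtrees

All statements by induction on the tree (generalising the path).
`mem_labels`: `labels (node d c r) = (labels c) + d ∪ labels r`; a nonempty path in `node d c r` either
starts with the step to the first child (`d`) and continues in `c`, or is a path of `r`.
`occ_append`: the subtrees at the vertices with path `p ++ q` are the subtrees with path `q` of the
subtrees with path `p`.
`far_first`: a vertex with a label of absolute value `≥ 2 L` (`L ≥ 1`): on its path the labels change by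
at most one, so there is a first vertex on the path with a label of absolute value exactly `L`; the
subtree at this vertex contains the given vertex, whose label relative to it has absolute value
`≥ 2L - L`.
`occ_count`: the number of vertices is `size + 1`, each vertex has exactly one path, of length
`≤ ht ≤ size`.
`rng`: `0 ∈ labels`, so `max ≥ 0 ≥ min`.
-/

set_option linter.unusedSectionVars false

namespace Dia
open Finset

theorem TOcc_nil (t : LT) : LT.occ [] t = [t] := by
  cases t <;> rfl

theorem TOcc_cons_nil (d : SignType) (p : List SignType) : LT.occ (d :: p) LT.nil = [] := rfl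

theorem TOcc_cons_node (e d : SignType) (p : List SignType) (c r : LT) :
    LT.occ (e :: p) (LT.node d c r) = (if e = d then LT.occ p c else []) ++ LT.occ (e :: p) r := rfl

theorem TOcc_node_ne (e d : SignType) (p : List SignType) (c r : LT) :
    LT.occ (e :: p) (LT.node d c r) ≠ [] ↔ (e = d ∧ LT.occ p c ≠ []) ∨ LT.occ (e :: p) r ≠ [] := by
  rw [TOcc_cons_node, ne_eq, List.append_eq_nil_iff, not_and_or]
  by_cases h : e = d
  · simp [h]
  · simp [h]

theorem TOcc_psum_nil : psum [] = 0 := rfl

theorem TOcc_psum_cons (d : SignType) (p : List SignType) : psum (d :: p) = (d : ℤ) + psum p := by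
  simp [psum]

theorem TOcc_psum_append (p q : List SignType) : psum (p ++ q) = psum p + psum q := by
  simp [psum]

theorem TOcc_sign (d : SignType) : -1 ≤ (d : ℤ) ∧ (d : ℤ) ≤ 1 := by
  cases d <;> decide

theorem LT.mem_labels {t : LT} {z : ℤ} : z ∈ t.labels ↔ ∃ p, psum p = z ∧ LT.occ p t ≠ [] := by
  induction t generalizing z with
  | nil =>
    constructor
    · intro h
      have h1 : z = 0 := by simpa [LT.labels] using h
      exact ⟨[], by rw [h1]; rfl, by rw [TOcc_nil]; simp⟩
    · rintro ⟨p, h1, h2⟩
      cases p with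
      | nil =>
        rw [← h1]
        simp [LT.labels, psum]
      | cons d p => exact absurd (TOcc_cons_nil d p) h2
  | node d c r ihc ihr =>
    have h0 : z ∈ (LT.node d c r).labels ↔ (∃ y ∈ c.labels, y + (d : ℤ) = z) ∨ z ∈ r.labels := by
      simp only [LT.labels, mem_union, mem_image]
    rw [h0]
    constructor
    · rintro (⟨y, hy, rfl⟩ | hz)
      · obtain ⟨p, h1, h2⟩ := ihc.1 hy
        refine ⟨d :: p, ?_, ?_⟩
        · rw [TOcc_psum_cons, h1]
          ring
        · rw [TOcc_node_ne]
          exact Or.inl ⟨rfl, h2⟩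
      · obtain ⟨p, h1, h2⟩ := ihr.1 hz
        refine ⟨p, h1, ?_⟩
        cases p with
        | nil =>
          rw [TOcc_nil]
          simp
        | cons e p =>
          rw [TOcc_node_ne]
          exact Or.inr h2
    · rintro ⟨p, h1, h2⟩
      cases p with
      | nil =>
        right
        rw [← h1]
        exact r.zero_mem_labels
      | cons e p =>
        rw [TOcc_node_ne] at h2
        rcases h2 with ⟨rfl, h2⟩ | h2
        · left
          refine ⟨psum p, ihc.2 ⟨p, rfl, h2⟩, ?_⟩
          rw [← h1, TOcc_psum_cons]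
          ring
        · right
          exact ihr.2 ⟨e :: p, h1, h2⟩

theorem LT.occ_append (p q : List SignType) (t : LT) :
    LT.occ (p ++ q) t = (LT.occ p t).flatMap (LT.occ q) := by
  induction t generalizing p with
  | nil =>
    cases p with
    | nil =>
      rw [TOcc_nil, List.nil_append]
      simp
    | cons d p =>
      rw [List.cons_append, TOcc_cons_nil, TOcc_cons_nil]
      rfl
  | node d c r ihc ihr =>
    cases p with
    | nil =>
      rw [TOcc_nil, List.nil_append]
      simp
    | cons e p =>
      rw [List.cons_append, TOcc_cons_node, TOcc_cons_node, List.flatMap_append, ← ihr (e :: p),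
        List.cons_append]
      congr 1
      by_cases h : e = d
      · rw [if_pos h, if_pos h]
        exact ihc p
      · rw [if_neg h, if_neg h]
        rfl

theorem LT.occ_length {p : List SignType} {t : LT} (h : LT.occ p t ≠ []) : p.length ≤ t.ht := by
  induction t generalizing p with
  | nil =>
    cases p with
    | nil => exact Nat.zero_le _
    | cons d p => exact absurd (TOcc_cons_nil d p) h
  | node d c r ihc ihr =>
    cases p with
    | nil => exact Nat.zero_le _
    | cons e p =>
      rw [TOcc_node_ne] at h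
      rcases h with ⟨-, h⟩ | h
      · have h1 := ihc h
        rw [List.length_cons]
        exact (Nat.succ_le_succ h1).trans (le_max_left _ _)
      · exact (ihr h).trans (le_max_right _ _)

theorem LT.exists_occ {t : LT} {h : ℕ} (hh : h ≤ t.ht) : ∃ p, p.length = h ∧ LT.occ p t ≠ [] := by
  induction t generalizing h with
  | nil =>
    have h1 : h = 0 := Nat.le_zero.1 hh
    exact ⟨[], by rw [h1]; rfl, by rw [TOcc_nil]; simp⟩
  | node d c r ihc ihr =>
    cases h with
    | zero => exact ⟨[], rfl, by rw [TOcc_nil]; simp⟩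
    | succ h =>
      have h1 : h + 1 ≤ max (c.ht + 1) r.ht := hh
      rcases le_max_iff.1 h1 with h2 | h2
      · obtain ⟨p, hp1, hp2⟩ := ihc (Nat.le_of_succ_le_succ h2)
        refine ⟨d :: p, by rw [List.length_cons, hp1], ?_⟩
        rw [TOcc_node_ne]
        exact Or.inl ⟨rfl, hp2⟩
      · obtain ⟨p, hp1, hp2⟩ := ihr h2
        cases p with
        | nil => simp at hp1
        | cons e p =>
          refine ⟨e :: p, hp1, ?_⟩
          rw [TOcc_node_ne]
          exact Or.inr hp2

theorem LT.occ_size {p : List SignType} {t s : LT} (h : s ∈ LT.occ p t) :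
    s.size + p.length ≤ t.size := by
  induction t generalizing p with
  | nil =>
    cases p with
    | nil =>
      rw [TOcc_nil, List.mem_singleton] at h
      rw [h]
      exact le_rfl
    | cons d p =>
      rw [TOcc_cons_nil] at h
      exact absurd h List.not_mem_nil
  | node d c r ihc ihr =>
    cases p with
    | nil =>
      rw [TOcc_nil, List.mem_singleton] at h
      rw [h]
      exact le_rfl
    | cons e p =>
      rw [TOcc_cons_node, List.mem_append] at h
      have h0 : (LT.node d c r).size = c.size + r.size + 1 := rfl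
      rcases h with h | h
      · by_cases he : e = d
        · rw [if_pos he] at h
          have h1 := ihc h
          rw [List.length_cons, h0]
          omega
        · rw [if_neg he] at h
          exact absurd h List.not_mem_nil
      · have h1 := ihr h
        rw [h0]
        omega

theorem LT.ht_le_size (t : LT) : t.ht ≤ t.size := by
  induction t with
  | nil => exact le_rfl
  | node d c r ihc ihr =>
    have h0 : (LT.node d c r).size = c.size + r.size + 1 := rfl
    have h1 : (LT.node d c r).ht = max (c.ht + 1) r.ht := rfl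
    rw [h0, h1]
    exact max_le (by omega) (by omega)

/-- prefixes of occurring paths occur -/
theorem LT.occ_take {p : List SignType} {t : LT} (h : LT.occ p t ≠ []) (k : ℕ) :
    LT.occ (p.take k) t ≠ [] := by
  intro h1
  apply h
  have h2 := LT.occ_append (p.take k) (p.drop k) t
  rw [List.take_append_drop, h1] at h2
  rw [h2]
  rfl

theorem TOcc_sum_paths {M : Type*} [AddCommMonoid M] (f : List SignType → M) (h : ℕ) :
    ∑ p ∈ paths (h + 1), f p = ∑ e : SignType, ∑ p ∈ paths h, f (e :: p) := by
  have h1 : paths (h + 1) = ((univ : Finset SignType) ×ˢ paths h).image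
      fun p => p.1 :: p.2 := rfl
  rw [h1, Finset.sum_image, Finset.sum_product]
  intro p _ q _ hpq
  have h2 : p.1 :: p.2 = q.1 :: q.2 := hpq
  rw [List.cons.injEq] at h2
  exact Prod.ext h2.1 h2.2

theorem TOcc_cnt_zero (t : LT) : ∑ p ∈ paths 0, (LT.occ p t).length = 1 := by
  have h1 : paths 0 = {[]} := rfl
  rw [h1, Finset.sum_singleton, TOcc_nil]
  rfl

theorem TOcc_cnt_node (d : SignType) (c r : LT) (h : ℕ) :
    ∑ p ∈ paths (h + 1), (LT.occ p (LT.node d c r)).length =
      ∑ p ∈ paths h, (LT.occ p c).length + ∑ p ∈ paths (h + 1), (LT.occ p r).length := by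
  rw [TOcc_sum_paths, TOcc_sum_paths]
  have h1 : ∀ e : SignType, ∑ p ∈ paths h, (LT.occ (e :: p) (LT.node d c r)).length =
      (if e = d then ∑ p ∈ paths h, (LT.occ p c).length else 0) +
        ∑ p ∈ paths h, (LT.occ (e :: p) r).length := by
    intro e
    by_cases he : e = d
    · rw [if_pos he, ← Finset.sum_add_distrib]
      refine Finset.sum_congr rfl fun p _ => ?_
      rw [TOcc_cons_node, if_pos he, List.length_append]
    · rw [if_neg he, zero_add]
      refine Finset.sum_congr rfl fun p _ => ?_
      rw [TOcc_cons_node, if_neg he, List.nil_append]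
  rw [Finset.sum_congr rfl fun e _ => h1 e, Finset.sum_add_distrib, Finset.sum_ite_eq' univ d,
    if_pos (Finset.mem_univ d)]

theorem TOcc_cnt_nil (h : ℕ) : ∑ p ∈ paths (h + 1), (LT.occ p LT.nil).length = 0 := by
  rw [TOcc_sum_paths]
  refine Finset.sum_eq_zero fun e _ => Finset.sum_eq_zero fun p _ => ?_
  rw [TOcc_cons_nil]
  rfl

/-- the number of vertices -/
theorem LT.occ_count (t : LT) (H : ℕ) (hH : t.size < H) :
    ∑ h ∈ range H, ∑ p ∈ paths h, (LT.occ p t).length = t.size + 1 := by
  induction t generalizing H with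
  | nil =>
    obtain ⟨H, rfl⟩ := Nat.exists_eq_succ_of_ne_zero (Nat.ne_of_gt (Nat.pos_of_ne_zero (by omega)) : H ≠ 0)
    rw [Finset.sum_range_succ', TOcc_cnt_zero, Finset.sum_congr rfl fun h _ => TOcc_cnt_nil h,
      Finset.sum_const_zero]
    rfl
  | node d c r ihc ihr =>
    have h0 : (LT.node d c r).size = c.size + r.size + 1 := rfl
    rw [h0] at hH ⊢
    obtain ⟨H, rfl⟩ := Nat.exists_eq_succ_of_ne_zero (by omega : H ≠ 0)
    have h1 := ihc H (by omega)
    have h2 := ihr (H + 1) (by omega)
    rw [Finset.sum_range_succ', TOcc_cnt_zero] at h2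
    rw [Finset.sum_range_succ', TOcc_cnt_zero, Finset.sum_congr rfl fun h _ =>
      TOcc_cnt_node d c r h, Finset.sum_add_distrib, h1]
    omega

theorem mem_paths {h : ℕ} {p : List SignType} : p ∈ paths h ↔ p.length = h := by
  induction h generalizing p with
  | zero =>
    have h1 : paths 0 = {[]} := rfl
    rw [h1, Finset.mem_singleton, List.length_eq_zero_iff]
  | succ h ih =>
    have h1 : paths (h + 1) = ((univ : Finset SignType) ×ˢ paths h).image
      fun p => p.1 :: p.2 := rfl
    rw [h1, Finset.mem_image]
    constructor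
    · rintro ⟨⟨e, q⟩, h2, rfl⟩
      rw [Finset.mem_product] at h2
      rw [List.length_cons, ih.1 h2.2]
    · intro h2
      cases p with
      | nil => simp at h2
      | cons e q =>
        refine ⟨(e, q), ?_, rfl⟩
        rw [Finset.mem_product]
        exact ⟨Finset.mem_univ _, ih.2 (by simpa using h2)⟩

theorem TOcc_step (q : List SignType) (k : ℕ) :
    |psum (q.take (k + 1)) - psum (q.take k)| ≤ 1 := by
  rcases Nat.lt_or_ge k q.length with h | h
  · rw [← List.take_concat_get' q k h, TOcc_psum_append]
    have h1 : psum [q[k]] = ((q[k] : SignType) : ℤ) := by simp [psum]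
    rw [h1, add_sub_cancel_left, abs_le]
    exact TOcc_sign _
  · rw [List.take_of_length_le (by omega), List.take_of_length_le h, sub_self, abs_zero]
    exact zero_le_one

theorem LT.far_first {t : LT} {L : ℕ} (hL : 1 ≤ L) (h : t.Far (2 * L)) :
    ∃ p, FP L p ∧ p.length ≤ t.ht ∧ ∃ s ∈ LT.occ p t, s.Far L := by
  classical
  obtain ⟨z, hz, hLz⟩ := h
  obtain ⟨q, hq1, hq2⟩ := LT.mem_labels.1 hz
  have hex : ∃ k, (L : ℤ) ≤ |psum (q.take k)| := by
    refine ⟨q.length, ?_⟩
    rw [List.take_length, hq1]
    push_cast at hLz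
    omega
  let k := Nat.find hex
  have hk1 : (L : ℤ) ≤ |psum (q.take k)| := Nat.find_spec hex
  have hk2 : ∀ j < k, |psum (q.take j)| < (L : ℤ) := by
    intro j hj
    have h1 := Nat.find_min hex hj
    exact not_le.1 h1
  have hkq : k ≤ q.length := by
    apply Nat.find_min' hex
    rw [List.take_length, hq1]
    push_cast at hLz
    omega
  have hk0 : k ≠ 0 := by
    intro h0
    rw [h0, List.take_zero, TOcc_psum_nil, abs_zero] at hk1
    omega
  have hkL : |psum (q.take k)| = L := by
    obtain ⟨k', hk'⟩ := Nat.exists_eq_succ_of_ne_zero hk0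
    have h1 := hk2 k' (by omega)
    have h2 := TOcc_step q k'
    rw [hk'] at hk1 ⊢
    rw [Nat.succ_eq_add_one] at hk1 ⊢
    have h3 : |psum (q.take (k' + 1))| ≤ |psum (q.take k')| + 1 := by
      have h4 := abs_sub_abs_le_abs_sub (psum (q.take (k' + 1))) (psum (q.take k'))
      omega
    omega
  have hlen : (q.take k).length = k := by
    rw [List.length_take, min_eq_left hkq]
  refine ⟨q.take k, ⟨hkL, fun j hj => ?_⟩, LT.occ_length (LT.occ_take hq2 k), ?_⟩
  · rw [hlen] at hj
    rw [List.take_take, min_eq_left hj.le]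
    exact hk2 j hj
  · have h1 := LT.occ_append (q.take k) (q.drop k) t
    rw [List.take_append_drop] at h1
    rw [h1] at hq2
    obtain ⟨y, hy⟩ := List.exists_mem_of_ne_nil _ hq2
    rw [List.mem_flatMap] at hy
    obtain ⟨s, hs1, hs2⟩ := hy
    refine ⟨s, hs1, psum (q.drop k), LT.mem_labels.2 ⟨q.drop k, rfl, List.ne_nil_of_mem hs2⟩, ?_⟩
    have h2 : psum (q.take k) + psum (q.drop k) = z := by
      rw [← TOcc_psum_append, List.take_append_drop, hq1]
    have h3 : |z| ≤ |psum (q.take k)| + |psum (q.drop k)| := by
      rw [← h2]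
      exact abs_add_le _ _
    push_cast at hLz
    omega

theorem TOcc_rng {t : LT} {z z' : ℤ} (hz : z ∈ t.labels) (hz' : z' ∈ t.labels) :
    z - z' ≤ t.rng := by
  have h1 := t.labels.le_max' z hz
  have h2 := t.labels.min'_le z' hz'
  unfold LT.rng
  have h3 := Int.self_le_toNat (t.labels.max' ⟨0, t.zero_mem_labels⟩ -
    t.labels.min' ⟨0, t.zero_mem_labels⟩)
  omega

/-- all paths of a tree with small range stay in a strip -/
theorem LT.strip_of_rng {t : LT} {L : ℕ} (h : t.rng ≤ L) {p : List SignType}
    (hp : LT.occ p t ≠ []) : Strip L p := by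
  intro k _
  have h1 : psum (p.take k) ∈ t.labels := LT.mem_labels.2 ⟨_, rfl, LT.occ_take hp k⟩
  have h2 := TOcc_rng h1 t.zero_mem_labels
  have h3 := TOcc_rng t.zero_mem_labels h1
  rw [abs_le]
  constructor <;> omega

theorem LT.far_of_rng {t : LT} {L : ℕ} (h : 2 * L ≤ t.rng) : t.Far L := by
  have h1 := t.labels.max'_mem ⟨0, t.zero_mem_labels⟩
  have h2 := t.labels.min'_mem ⟨0, t.zero_mem_labels⟩
  by_cases hL : L = 0
  · refine ⟨0, t.zero_mem_labels, ?_⟩
    rw [hL]
    simp
  have h3 : (2 * L : ℤ) ≤ t.labels.max' ⟨0, t.zero_mem_labels⟩ -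
      t.labels.min' ⟨0, t.zero_mem_labels⟩ := by
    unfold LT.rng at h
    omega
  by_cases h4 : (L : ℤ) ≤ t.labels.max' ⟨0, t.zero_mem_labels⟩
  · exact ⟨_, h1, h4.trans (le_abs_self _)⟩
  · refine ⟨_, h2, le_trans ?_ (neg_le_abs _)⟩
    omega

theorem TOcc_range (t : LT) : ∀ z ∈ t.labels, ∀ z' ∈ t.labels, z - z' ≤ t.size := by
  induction t with
  | nil =>
    intro z hz z' hz'
    have h1 : z = 0 := by simpa [LT.labels] using hz
    have h2 : z' = 0 := by simpa [LT.labels] using hz'
    rw [h1, h2]
    simp
  | node d c r ihc ihr =>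
    have h0 : ∀ z, z ∈ (LT.node d c r).labels ↔
        (∃ y ∈ c.labels, y + (d : ℤ) = z) ∨ z ∈ r.labels := by
      intro z
      simp only [LT.labels, mem_union, mem_image]
    have hs : ((LT.node d c r).size : ℤ) = c.size + r.size + 1 := by
      have h1 : (LT.node d c r).size = c.size + r.size + 1 := rfl
      rw [h1]
      push_cast
      ring
    have hd := TOcc_sign d
    intro z hz z' hz'
    rw [hs]
    rcases (h0 z).1 hz with ⟨y, hy, rfl⟩ | hy
    · rcases (h0 z').1 hz' with ⟨y', hy', rfl⟩ | hy'
      · have h1 := ihc y hy y' hy'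
        omega
      · have h1 := ihc y hy 0 c.zero_mem_labels
        have h2 := ihr 0 r.zero_mem_labels z' hy'
        omega
    · rcases (h0 z').1 hz' with ⟨y', hy', rfl⟩ | hy'
      · have h1 := ihc 0 c.zero_mem_labels y' hy'
        have h2 := ihr z hy 0 r.zero_mem_labels
        omega
      · have h1 := ihr z hy z' hy'
        omega

theorem LT.rng_le_size (t : LT) : t.rng ≤ t.size := by
  have h1 := TOcc_range t _ (t.labels.max'_mem ⟨0, t.zero_mem_labels⟩) _
    (t.labels.min'_mem ⟨0, t.zero_mem_labels⟩)
  unfold LT.rng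
  omega

end Dia
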