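import Pool.Agent.Dia.WDefs
import Pool.Agent.DiamP.Walk

/-!
# The two-state walk: statements (owner: helper87)
-/

namespace Dia
open Finset Pool.Agent.DiamP

/-- first passage, started from the label `l` -/
def WPF (L : ℕ) (l : ℤ) (p : List SignType) : Prop :=
  (L : ℤ) ≤ |l + psum p| ∧ ∀ k < p.length, |l + psum (p.take k)| < L

/-- strip, started from the label `l` -/
def WPS (L : ℕ) (l : ℤ) (p : List SignType) : Prop := ∀ k ≤ p.length, |l + psum (p.take k)| ≤ L

theorem W_psum_cons (d : SignType) (p : List SignType) : psum (d :: p) = (d : ℤ) + psum p := by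
  simp [psum]

theorem W_psum_nil : psum [] = 0 := by simp [psum]

theorem WPF_cons (L : ℕ) (l : ℤ) (d : SignType) (p : List SignType) :
    WPF L l (d :: p) ↔ |l| < L ∧ WPF L (l + d) p := by
  unfold WPF
  rw [W_psum_cons, ← add_assoc]
  constructor
  · rintro ⟨h1, h2⟩
    refine ⟨?_, h1, fun k hk => ?_⟩
    · have := h2 0 (by simp)
      simpa [W_psum_nil] using this
    · have := h2 (k + 1) (by simpa using hk)
      rw [List.take_succ_cons, W_psum_cons, ← add_assoc] at this
      exact this
  · rintro ⟨h0, h1, h2⟩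
    refine ⟨h1, fun k hk => ?_⟩
    cases k with
    | zero => simpa [W_psum_nil] using h0
    | succ k =>
      rw [List.take_succ_cons, W_psum_cons, ← add_assoc]
      exact h2 k (by simpa using hk)

theorem WPS_cons (L : ℕ) (l : ℤ) (d : SignType) (p : List SignType) :
    WPS L l (d :: p) ↔ |l| ≤ L ∧ WPS L (l + d) p := by
  unfold WPS
  constructor
  · intro h
    refine ⟨?_, fun k hk => ?_⟩
    · have := h 0 (by simp)
      simpa [W_psum_nil] using this
    · have := h (k + 1) (by simpa using hk)
      rw [List.take_succ_cons, W_psum_cons, ← add_assoc] at this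
      exact this
  · rintro ⟨h0, h1⟩ k hk
    cases k with
    | zero => simpa [W_psum_nil] using h0
    | succ k =>
      rw [List.take_succ_cons, W_psum_cons, ← add_assoc]
      exact h1 k (by simpa using hk)

theorem W_PW_succ (a b : ℝ) (u : Bool) (h : ℕ) (P : List SignType → Prop) :
    PW a b u (h + 1) P = kapg a b u (-1) * PW a b true h (fun p => P (-1 :: p)) +
      kapg a b u 0 * PW a b false h (fun p => P (0 :: p)) +
      kapg a b u 1 * PW a b false h (fun p => P (1 :: p)) := by
  classical
  have e : PW a b u (h + 1) P = ∑ d : SignType, ∑ p ∈ paths h,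
      if P (d :: p) then pwg a b u (d :: p) else 0 := by
    have e0 : paths (h + 1) = ((univ : Finset SignType) ×ˢ paths h).image fun p => p.1 :: p.2 := rfl
    have hinj : Set.InjOn (fun p : SignType × List SignType => p.1 :: p.2)
        (((univ : Finset SignType) ×ˢ paths h : Finset (SignType × List SignType)) :
          Set (SignType × List SignType)) := by
      rintro ⟨d, p⟩ _ ⟨d', p'⟩ _ he
      simp only [List.cons.injEq] at he
      rw [he.1, he.2]
    unfold PW
    rw [e0, sum_image hinj, sum_product]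
  have hd : ∀ d : SignType, (∑ p ∈ paths h, if P (d :: p) then pwg a b u (d :: p) else 0) =
      kapg a b u d * PW a b (decide (d = -1)) h (fun p => P (d :: p)) := by
    intro d
    unfold PW
    rw [mul_sum]
    refine sum_congr rfl fun p _ => ?_
    rw [mul_ite, mul_zero]
    congr
  have hu : (univ : Finset SignType) = {0, -1, 1} := rfl
  rw [e, sum_congr rfl fun d _ => hd d, hu, sum_insert (by decide), sum_insert (by decide),
    sum_singleton]
  have d1 : decide ((0 : SignType) = -1) = false := rfl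
  have d2 : decide ((-1 : SignType) = -1) = true := rfl
  have d3 : decide ((1 : SignType) = -1) = false := rfl
  rw [d1, d2, d3]
  ring

theorem W_PW_congr (a b : ℝ) (u : Bool) (h : ℕ) {P Q : List SignType → Prop}
    (hPQ : ∀ p, P p ↔ Q p) : PW a b u h P = PW a b u h Q := by
  have : P = Q := funext fun p => propext (hPQ p)
  rw [this]

theorem W_PW_false (a b : ℝ) (u : Bool) (h : ℕ) {P : List SignType → Prop} (hP : ∀ p, ¬ P p) :
    PW a b u h P = 0 := by
  unfold PW
  apply sum_eq_zero
  intro p _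
  rw [if_neg (hP p)]

theorem W_kapg (a b : ℝ) (u : Bool) : kapg a b u (-1) = cond u a (a + b) ∧
    kapg a b u 0 = cond u a (a + b) ∧ kapg a b u 1 = a := by
  unfold kapg
  cases u <;> simp

theorem W_PW_zero (a b : ℝ) (u : Bool) (P : List SignType → Prop) [Decidable (P [])] :
    PW a b u 0 P = if P [] then 1 else 0 := by
  unfold PW paths
  rw [sum_singleton]
  simp only [pwg]
  try congr

theorem W_fp_eq (a b : ℝ) (L : ℕ) (n : ℕ) (u : Bool) (l : ℤ) :
    PW a b u n (WPF L l) = fpW a b L n u l := by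
  classical
  induction n generalizing u l with
  | zero =>
    rw [W_PW_zero]
    simp only [fpW, WPF, W_psum_nil, add_zero, List.length_nil, Nat.not_lt_zero, false_implies,
      implies_true, and_true]
  | succ n ih =>
    rw [W_PW_succ]
    simp only [fpW]
    split_ifs with hl
    · have hz : ∀ d : SignType, ∀ p, ¬ WPF L l (d :: p) := by
        intro d p hp
        rw [WPF_cons] at hp
        exact absurd hp.1 (not_lt.2 hl)
      rw [W_PW_false a b _ n (hz _), W_PW_false a b _ n (hz _), W_PW_false a b _ n (hz _)]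
      ring
    · have hc : ∀ (v : Bool) (d : SignType), PW a b v n (fun p => WPF L l (d :: p)) =
          fpW a b L n v (l + d) := by
        intro v d
        rw [← ih v (l + d)]
        apply W_PW_congr
        intro p
        rw [WPF_cons]
        exact ⟨fun h => h.2, fun h => ⟨not_le.1 hl, h⟩⟩
      rw [hc, hc, hc]
      obtain ⟨k1, k2, k3⟩ := W_kapg a b u
      rw [k1, k2, k3]
      unfold stepW
      simp [sub_eq_add_neg]

theorem W_st_eq (a b : ℝ) (L : ℕ) (n : ℕ) (u : Bool) (l : ℤ) :
    PW a b u n (WPS L l) = stripW a b L n u l := by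
  classical
  induction n generalizing u l with
  | zero =>
    rw [W_PW_zero]
    simp only [stripW, WPS, List.length_nil, Nat.le_zero, List.take_nil, W_psum_nil, add_zero,
      forall_eq]
  | succ n ih =>
    rw [W_PW_succ]
    simp only [stripW]
    split_ifs with hl
    · have hc : ∀ (v : Bool) (d : SignType), PW a b v n (fun p => WPS L l (d :: p)) =
          stripW a b L n v (l + d) := by
        intro v d
        rw [← ih v (l + d)]
        apply W_PW_congr
        intro p
        rw [WPS_cons]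
        exact ⟨fun h => h.2, fun h => ⟨hl, h⟩⟩
      rw [hc, hc, hc]
      obtain ⟨k1, k2, k3⟩ := W_kapg a b u
      rw [k1, k2, k3]
      unfold stepW
      simp [sub_eq_add_neg]
    · have hz : ∀ d : SignType, ∀ p, ¬ WPS L l (d :: p) := by
        intro d p hp
        rw [WPS_cons] at hp
        exact absurd hp.1 hl
      rw [W_PW_false a b _ n (hz _), W_PW_false a b _ n (hz _), W_PW_false a b _ n (hz _)]
      ring

theorem W_en_eq (a b : ℝ) (L : ℕ) (n : ℕ) (u : Bool) (l : ℤ) :
    PW a b u n (fun p => (L : ℤ) ≤ |l + psum p|) = endW a b L n u l := by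
  classical
  induction n generalizing u l with
  | zero =>
    rw [W_PW_zero]
    simp only [endW, W_psum_nil, add_zero]
  | succ n ih =>
    rw [W_PW_succ]
    simp only [endW]
    have hc : ∀ (v : Bool) (d : SignType),
        PW a b v n (fun p => (L : ℤ) ≤ |l + psum (d :: p)|) = endW a b L n v (l + d) := by
      intro v d
      rw [← ih v (l + d)]
      apply W_PW_congr
      intro p
      rw [W_psum_cons, add_assoc]
    rw [hc, hc, hc]
    obtain ⟨k1, k2, k3⟩ := W_kapg a b u
    rw [k1, k2, k3]
    unfold stepW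
    simp [sub_eq_add_neg]

section
variable {a b : ℝ} (ha : 0 < a) (hb : 0 < b) (hab : 3 * a + b + a * b = 1)
include ha hb

theorem W_pwg_nonneg (u : Bool) (p : List SignType) : 0 ≤ pwg a b u p := by
  induction p generalizing u with
  | nil => simp [pwg]
  | cons d p ih =>
    simp only [pwg]
    refine mul_nonneg ?_ (ih _)
    unfold kapg
    split_ifs <;> linarith

theorem W_PW_mono (u : Bool) (h : ℕ) {P Q : List SignType → Prop} (hPQ : ∀ p, P p → Q p) :
    PW a b u h P ≤ PW a b u h Q := by
  unfold PW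
  refine sum_le_sum fun p _ => ?_
  split_ifs with h1 h2 h2
  · exact le_rfl
  · exact absurd (hPQ p h1) h2
  · exact W_pwg_nonneg ha hb u p
  · exact le_rfl

theorem W_FP_le (u : Bool) (L h : ℕ) : PW a b u h (FP L) ≤ fpW a b L h u 0 := by
  rw [← W_fp_eq]
  refine W_PW_mono ha hb u h fun p hp => ?_
  unfold FP at hp
  unfold WPF
  simp only [zero_add]
  exact ⟨hp.1.ge, hp.2⟩

include hab

/-- W0: the total weight of all paths of length `h` is bounded -/
theorem walk_total : ∃ K, ∀ (u : Bool) (h : ℕ), PW a b u h (fun _ => True) ≤ K := by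
  have hc : Crit a b := ⟨ha, hb, hab⟩
  refine ⟨1 / (2 * a), fun u h => ?_⟩
  have e : PW a b u h (fun _ => True) = endW a b 0 h u 0 := by
    have := W_en_eq a b 0 h u 0
    rw [Nat.cast_zero] at this
    rw [← this]
    apply W_PW_congr
    intro p
    simp
  rw [e, le_div_iff₀ (by positivity), mul_comm]
  exact (mass_le hc h u 0).trans (hc.hW_le u)

/-- W1: first passage happens at most once -/
theorem walk_fp : ∃ K, ∀ (u : Bool) (L H : ℕ), ∑ h ∈ range H, PW a b u h (FP L) ≤ K := by
  have hc : Crit a b := ⟨ha, hb, hab⟩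
  refine ⟨3 / a, fun u L H => ?_⟩
  have h1 := fpW_disc hc (lam := 0) le_rfl (by norm_num) (L : ℤ) H u 0
  simp only [neg_zero, zero_mul, Real.exp_zero, one_mul, Real.sqrt_zero, mul_one] at h1
  refine le_trans ?_ h1
  calc ∑ h ∈ range H, PW a b u h (FP L) ≤ ∑ h ∈ range H, fpW a b L h u 0 :=
        sum_le_sum fun h _ => W_FP_le ha hb u L h
    _ ≤ ∑ h ∈ range (H + 1), fpW a b L h u 0 :=
        sum_le_sum_of_subset_of_nonneg (range_subset_range.2 (by omega))
          fun h _ _ => fpW_nonneg hc _ _ _ _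

/-- W2: discounted first passage -/
theorem walk_disc : ∃ c K, 0 < c ∧ 0 < K ∧ ∀ (u : Bool) (L H : ℕ) (s : ℝ), 0 ≤ s → s ≤ 1 →
    ∑ h ∈ range H, PW a b u h (FP L) * Real.exp (-s ^ 2 * h) ≤ K * Real.exp (-c * s * L) := by
  have hc : Crit a b := ⟨ha, hb, hab⟩
  refine ⟨1, 3 / a, one_pos, by positivity, fun u L H s h0 h1 => ?_⟩
  have h2 := fpW_disc hc (lam := s ^ 2) (by positivity) (by nlinarith) (L : ℤ) H u 0
  rw [Real.sqrt_sq h0] at h2
  have e : Real.exp (-(s * (((L : ℤ) : ℝ) - |((0 : ℤ) : ℝ)|))) = Real.exp (-1 * s * L) := by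
    congr 1; simp
  rw [e] at h2
  refine le_trans ?_ h2
  calc ∑ h ∈ range H, PW a b u h (FP L) * Real.exp (-s ^ 2 * h)
      ≤ ∑ h ∈ range H, Real.exp (-s ^ 2 * h) * fpW a b L h u 0 := by
        refine sum_le_sum fun h _ => ?_
        rw [mul_comm]
        exact mul_le_mul_of_nonneg_left (W_FP_le ha hb u L h) (Real.exp_pos _).le
    _ ≤ _ := sum_le_sum_of_subset_of_nonneg (range_subset_range.2 (by omega))
          fun h _ _ => mul_nonneg (Real.exp_pos _).le (fpW_nonneg hc _ _ _ _)

/-- W3: the first passage rarely happens before time `eps L ^ 2` -/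
theorem walk_early (δ : ℝ) (hδ : 0 < δ) : ∃ ε : ℝ, 0 < ε ∧ ∃ L0 : ℕ, ∀ (u : Bool) (L H : ℕ), L0 ≤ L →
    (H : ℝ) ≤ ε * L ^ 2 → ∑ h ∈ range H, PW a b u h (FP L) ≤ δ := by
  have hc : Crit a b := ⟨ha, hb, hab⟩
  set A := |Real.log (3 / (a * δ))| + 1 with hA
  have hA1 : 0 < A := by positivity
  refine ⟨1 / (4 * A), by positivity, 0, fun u L H _ hH => ?_⟩
  rcases Nat.eq_zero_or_pos H with h0 | h0
  · subst h0; simp; exact hδ.le
  have hH1 : (1 : ℝ) ≤ H := by exact_mod_cast h0
  have h1 := fpW_before hc L H h0 u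
  have h2 : ∑ h ∈ range H, PW a b u h (FP L) ≤ ∑ h ∈ range (H + 1), fpW a b L h u 0 := by
    calc ∑ h ∈ range H, PW a b u h (FP L) ≤ ∑ h ∈ range H, fpW a b L h u 0 :=
        sum_le_sum fun h _ => W_FP_le ha hb u L h
      _ ≤ ∑ h ∈ range (H + 1), fpW a b L h u 0 :=
        sum_le_sum_of_subset_of_nonneg (range_subset_range.2 (by omega))
          fun h _ _ => fpW_nonneg hc _ _ _ _
  refine h2.trans (h1.trans ?_)
  have h3 : A ≤ (L : ℝ) ^ 2 / (4 * H) := by
    rw [le_div_iff₀ (by positivity)]
    have : (H : ℝ) * (4 * A) ≤ L ^ 2 := by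
      calc (H : ℝ) * (4 * A) ≤ 1 / (4 * A) * L ^ 2 * (4 * A) :=
            mul_le_mul_of_nonneg_right hH (by positivity)
        _ = L ^ 2 := by field_simp
    linarith
  have h4 : Real.log (3 / (a * δ)) ≤ A := by
    rw [hA]; linarith [le_abs_self (Real.log (3 / (a * δ)))]
  calc 3 / a * Real.exp (-((L : ℝ) ^ 2 / (4 * H)))
      ≤ 3 / a * Real.exp (-Real.log (3 / (a * δ))) := by
        apply mul_le_mul_of_nonneg_left _ (by positivity)
        apply Real.exp_le_exp.2
        linarith
    _ = δ := by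
        rw [Real.exp_neg, Real.exp_log (by positivity)]
        field_simp

/-- W4: the walk leaves a strip -/
theorem walk_strip : ∃ c K, 0 < c ∧ 0 < K ∧ ∀ (u : Bool) (L h : ℕ), 1 ≤ L →
    PW a b u h (Strip L) ≤ K * Real.exp (-c * h / L ^ 2) := by
  have hc : Crit a b := ⟨ha, hb, hab⟩
  refine ⟨a / 16, 2 / (3 * a), by positivity, by positivity, fun u L h hL => ?_⟩
  have hL1 : (1 : ℝ) ≤ L := by exact_mod_cast hL
  have e : PW a b u h (Strip L) = stripW a b L h u 0 := by
    rw [← W_st_eq]
    apply W_PW_congr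
    intro p
    unfold Strip WPS
    simp only [zero_add]
  rw [e]
  refine (stripW_le hc L h u 0).trans ?_
  apply mul_le_mul_of_nonneg_left _ (by positivity)
  apply Real.exp_le_exp.2
  have h1 : a * h / (16 * (L : ℝ) ^ 2) ≤ a * h / (4 * ((L : ℝ) + 1) ^ 2) := by
    apply div_le_div_of_nonneg_left (by positivity) (by positivity)
    nlinarith
  have h2 : -(a / 16) * h / (L : ℝ) ^ 2 = -(a * h / (16 * (L : ℝ) ^ 2)) := by
    field_simp
  rw [h2]
  linarith

/-- W5: large deviations -/
theorem walk_dev : ∃ c K, 0 < c ∧ 0 < K ∧ ∀ (u : Bool) (L h : ℕ), 1 ≤ h →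
    PW a b u h (fun p => (L : ℤ) ≤ |psum p|) ≤ K * Real.exp (-c * L ^ 2 / h) := by
  have hc : Crit a b := ⟨ha, hb, hab⟩
  refine ⟨1 / 4, 3 / a, by norm_num, by positivity, fun u L h hh => ?_⟩
  have hh1 : (1 : ℝ) ≤ h := by exact_mod_cast hh
  have e : PW a b u h (fun p => (L : ℤ) ≤ |psum p|) = endW a b L h u 0 := by
    rw [← W_en_eq]
    apply W_PW_congr
    intro p
    simp only [zero_add]
  rw [e]
  refine (endW_dev hc L h hh u).trans (le_of_eq ?_)
  congr 2
  field_simp

end

end Dia
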