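import Pool.Agent.Dia.THeight
import Pool.Agent.Dia.TOcc
import Pool.Agent.Dia.WStat

/-!
# Module TQ: the weight of the trees which reach the label ±L is at most K / L^2

`q L = max over up of Zt x up (Far L)`, at most `Xtot`.  For `L ≥ 1` and every `H ≥ 1`: if `t.Far (2L)` then
(`far_first`) there is a path `p` with `FP L p`, `p.length ≤ t.ht` and an `s ∈ occ p t` with `s.Far L`; so either
`H ≤ t.ht` or `p.length < H`.  Hence the indicator of `Far (2L)` is at most the indicator of `H ≤ ht` plus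
`sum over h < H, p ∈ paths h with FP L p, of the number of s ∈ occ p t with s.Far L`, and by `mark_total`
`Zt x up (Far (2L)) ≤ Zt x up (H ≤ ht) + sum_{h < H} sum_{p ∈ paths h, FP L p} pw x up p * q L`.
With `walk_early` (`δ = 1/8`, `a = alc x`, `b = bec x`, `alc_bec`) for `L ≥ L0`, `H = ⌊ε L^2⌋` (at least 1; take
`L0` larger): the double sum is `≤ 1/8`; the first term is `≤ K_h / H ≤ 2 K_h/(ε L^2)` by `height_bound`.
So `q (2L) (2L)^2 ≤ 8 K_h/ε + (1/2) q L * L^2` for `L ≥ L0`; by induction `q (2^j L0) (2^j L0)^2 ≤ M` with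
`M = max (16 K_h / ε) (L0^2 Xtot)`.  For general `L ≥ L0` choose `j` with `2^j L0 ≤ L < 2^(j+1) L0`:
`q L ≤ q (2^j L0) ≤ 4 M / L^2` (`Far` is monotone in `L`); for `L < L0` use `q L ≤ Xtot`.
-/

set_option linter.unusedSectionVars false

namespace Dia
open Finset Pool.Agent.DiamP
open scoped ENNReal

variable {x : ℝ}

/-- weights of trees with a property, as a sum with an indicator function -/
private theorem TQ_ind (up : Bool) (P : LT → Prop) [DecidablePred P] :
    Zt x up P = ∑' t : LT, ENNReal.ofReal (t.w x up * yc x ^ t.size) * (if P t then 1 else 0) := by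
  unfold Zt
  refine tsum_congr fun t => ?_
  by_cases h : P t
  · rw [if_pos h, if_pos h, mul_one]
  · rw [if_neg h, if_neg h, mul_zero]

private theorem TQ_mono (up : Bool) {P Q : LT → Prop} (h : ∀ t, P t → Q t) :
    Zt x up P ≤ Zt x up Q := by
  unfold Zt
  refine ENNReal.tsum_le_tsum fun t => ?_
  by_cases hP : P t
  · rw [if_pos hP, if_pos (h t hP)]
  · rw [if_neg hP]
    exact zero_le

/-- the maximum of the two weights -/
private noncomputable def TQq (x : ℝ) (L : ℕ) : ℝ≥0∞ :=
  max (Zt x true (LT.Far L)) (Zt x false (LT.Far L))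

private theorem TQ_le_q (up : Bool) (L : ℕ) : Zt x up (LT.Far L) ≤ TQq x L := by
  cases up
  · exact le_max_right _ _
  · exact le_max_left _ _

open Classical in
/-- the recursion -/
private theorem TQ_rec (h0 : 0 < x) (h1 : x < 1) (up : Bool) (L H : ℕ) (hL : 1 ≤ L) :
    Zt x up (LT.Far (2 * L)) ≤ Zt x up (fun t => H ≤ t.ht) +
      ENNReal.ofReal (∑ h ∈ range H, PW (alc x) (bec x) up h (FP L)) * TQq x L := by
  set f : LT → ℝ≥0∞ := fun s => if s.Far L then 1 else 0 with hf
  set W : LT → ℝ≥0∞ := fun t => ENNReal.ofReal (t.w x up * yc x ^ t.size) with hW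
  -- pointwise
  have h2 : ∀ t : LT, W t * (if t.Far (2 * L) then 1 else 0) ≤
      W t * (if H ≤ t.ht then 1 else 0) + ∑ h ∈ range H, ∑ p ∈ (paths h).filter (FP L),
        W t * ((LT.occ p t).map f).sum := by
    intro t
    by_cases hfar : t.Far (2 * L)
    · rw [if_pos hfar, mul_one]
      by_cases hH : H ≤ t.ht
      · rw [if_pos hH, mul_one]
        exact le_self_add
      · rw [if_neg hH, mul_zero, zero_add]
        obtain ⟨p, hp1, hp2, s, hs1, hs2⟩ := LT.far_first hL hfar
        have h3 : p.length ∈ range H := Finset.mem_range.2 (by omega)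
        have h4 : p ∈ (paths p.length).filter (FP L) :=
          Finset.mem_filter.2 ⟨mem_paths.2 rfl, hp1⟩
        have h5 : W t ≤ W t * ((LT.occ p t).map f).sum := by
          have h6 : (1 : ℝ≥0∞) ≤ ((LT.occ p t).map f).sum := by
            have h7 : f s ∈ (LT.occ p t).map f := List.mem_map_of_mem hs1
            have h8 : f s = 1 := by
              rw [hf]
              exact if_pos hs2
            rw [h8] at h7
            exact List.single_le_sum (fun _ _ => zero_le) _ h7
          calc W t = W t * 1 := (mul_one _).symm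
            _ ≤ _ := mul_le_mul_right h6 _
        refine h5.trans ?_
        refine le_trans ?_ (Finset.single_le_sum (f := fun h => ∑ p ∈ (paths h).filter (FP L),
          W t * ((LT.occ p t).map f).sum) (fun _ _ => zero_le) h3)
        exact Finset.single_le_sum (f := fun p => W t * ((LT.occ p t).map f).sum)
          (fun _ _ => zero_le) h4
    · rw [if_neg hfar, mul_zero]
      exact zero_le
  have h3 : ∀ p : List SignType, ∑' t : LT, W t * ((LT.occ p t).map f).sum ≤
      ENNReal.ofReal (pw x up p) * TQq x L := by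
    intro p
    rw [hW, mark_total h0 h1 up p f]
    refine mul_le_mul_right ?_ _
    rw [hf, ← TQ_ind (pst up p) (LT.Far L)]
    exact TQ_le_q _ _
  calc Zt x up (LT.Far (2 * L)) = ∑' t : LT, W t * (if t.Far (2 * L) then 1 else 0) :=
        TQ_ind up (LT.Far (2 * L))
    _ ≤ ∑' t : LT, (W t * (if H ≤ t.ht then 1 else 0) +
          ∑ h ∈ range H, ∑ p ∈ (paths h).filter (FP L), W t * ((LT.occ p t).map f).sum) :=
        ENNReal.tsum_le_tsum h2
    _ = ∑' t : LT, W t * (if H ≤ t.ht then 1 else 0) +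
          ∑' t : LT, ∑ h ∈ range H, ∑ p ∈ (paths h).filter (FP L),
            W t * ((LT.occ p t).map f).sum := ENNReal.tsum_add
    _ = Zt x up (fun t => H ≤ t.ht) + ∑ h ∈ range H, ∑ p ∈ (paths h).filter (FP L),
          ∑' t : LT, W t * ((LT.occ p t).map f).sum := by
        congr 1
        · exact (TQ_ind up (fun t => H ≤ t.ht)).symm
        · rw [Summable.tsum_finsetSum fun _ _ => ENNReal.summable]
          refine Finset.sum_congr rfl fun h _ => ?_
          rw [Summable.tsum_finsetSum fun _ _ => ENNReal.summable]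
    _ ≤ Zt x up (fun t => H ≤ t.ht) + ∑ h ∈ range H, ∑ p ∈ (paths h).filter (FP L),
          ENNReal.ofReal (pw x up p) * TQq x L := by
        gcongr with h _ p _
        exact h3 p
    _ = _ := by
        congr 1
        have ha := alc_pos h0 h1
        have hb := bec_pos h0 h1
        have hpos : ∀ (u : Bool) (p : List SignType), 0 ≤ pwg (alc x) (bec x) u p := by
          intro u p
          induction p generalizing u with
          | nil => exact zero_le_one
          | cons d p ih =>
            show 0 ≤ kapg (alc x) (bec x) u d * pwg (alc x) (bec x) (decide (d = -1)) p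
            refine mul_nonneg ?_ (ih _)
            unfold kapg
            split_ifs <;> linarith
        rw [ENNReal.ofReal_sum_of_nonneg, Finset.sum_mul]
        · refine Finset.sum_congr rfl fun h _ => ?_
          unfold PW
          rw [ENNReal.ofReal_sum_of_nonneg, Finset.sum_mul, Finset.sum_filter]
          · refine Finset.sum_congr rfl fun p _ => ?_
            by_cases hp : FP L p
            · rw [if_pos hp, if_pos hp]
              rfl
            · rw [if_neg hp, if_neg hp]
              simp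
          · intro p _
            split_ifs
            · exact hpos up p
            · exact le_rfl
        · intro h _
          unfold PW
          refine Finset.sum_nonneg fun p _ => ?_
          split_ifs
          · exact hpos up p
          · exact le_rfl

private theorem TQ_far_mono {L L' : ℕ} (h : L ≤ L') (t : LT) (ht : t.Far L') : t.Far L := by
  obtain ⟨z, hz1, hz2⟩ := ht
  refine ⟨z, hz1, ?_⟩
  have : (L : ℤ) ≤ L' := by exact_mod_cast h
  omega

private theorem TQ_q_anti {L L' : ℕ} (h : L ≤ L') : TQq x L' ≤ TQq x L :=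
  max_le_max (TQ_mono _ (TQ_far_mono h)) (TQ_mono _ (TQ_far_mono h))

theorem far_bound (h0 : 0 < x) (h1 : x < 1) : ∃ K : ℝ, 0 < K ∧ ∀ (up : Bool) (L : ℕ), 1 ≤ L →
    Zt x up (LT.Far L) ≤ ENNReal.ofReal (K / (L : ℝ) ^ 2) := by
  obtain ⟨Kh, hKh, hht⟩ := height_bound h0 h1
  obtain ⟨ε, hε, L0, hearly⟩ := walk_early (alc_pos h0 h1) (bec_pos h0 h1) (alc_bec h0 h1)
    (1 / 8) (by norm_num)
  set X : ℝ := Xtot x true + Xtot x false with hX
  have hXt := Xtot_pos h0 h1 true
  have hXf := Xtot_pos h0 h1 false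
  have hX0 : 0 < X := by rw [hX]; linarith
  have hqX : ∀ L, TQq x L ≤ ENNReal.ofReal X := by
    intro L
    refine max_le ?_ ?_
    · refine (TQ_mono true (Q := fun _ => True) fun _ _ => trivial).trans ?_
      rw [Zt_univ h0 h1]
      exact ENNReal.ofReal_le_ofReal (by linarith)
    · refine (TQ_mono false (Q := fun _ => True) fun _ _ => trivial).trans ?_
      rw [Zt_univ h0 h1]
      exact ENNReal.ofReal_le_ofReal (by linarith)
  set L1 : ℕ := max L0 (⌈1 / ε⌉₊ + 1) with hL1
  have hL1a : L0 ≤ L1 := le_max_left _ _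
  have hL1b : ⌈1 / ε⌉₊ + 1 ≤ L1 := le_max_right _ _
  have hL1c : 1 ≤ L1 := by omega
  have hL1d : (1 : ℝ) ≤ L1 := by exact_mod_cast hL1c
  have hL1e : 1 / ε ≤ L1 := by
    have h2 : ((⌈1 / ε⌉₊ : ℕ) : ℝ) ≤ L1 := by exact_mod_cast (by omega : ⌈1 / ε⌉₊ ≤ L1)
    exact (Nat.le_ceil _).trans h2
  have hεL : ∀ L : ℕ, L1 ≤ L → 1 ≤ ε * (L : ℝ) ^ 2 := by
    intro L hL
    have h2 : (L1 : ℝ) ≤ L := by exact_mod_cast hL
    have h3 : 1 / ε ≤ (L : ℝ) := hL1e.trans h2
    rw [div_le_iff₀ hε] at h3
    nlinarith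
  -- the recursion for q
  have hstep : ∀ L : ℕ, L1 ≤ L → TQq x (2 * L) ≤
      ENNReal.ofReal (2 * Kh / (ε * (L : ℝ) ^ 2)) + ENNReal.ofReal (1 / 8) * TQq x L := by
    intro L hL
    set H : ℕ := ⌊ε * (L : ℝ) ^ 2⌋₊ with hH
    have h2 := hεL L hL
    have hH1 : 1 ≤ H := by
      rw [hH, Nat.one_le_floor_iff]
      exact h2
    have hH2 : (H : ℝ) ≤ ε * (L : ℝ) ^ 2 := Nat.floor_le (by positivity)
    have hH3 : ε * (L : ℝ) ^ 2 / 2 ≤ H := by
      have h3 := Nat.lt_floor_add_one (ε * (L : ℝ) ^ 2)
      rw [← hH] at h3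
      have h4 : (1 : ℝ) ≤ H := by exact_mod_cast hH1
      linarith
    have hLL : 1 ≤ L := hL1c.trans hL
    have key : ∀ up, Zt x up (LT.Far (2 * L)) ≤
        ENNReal.ofReal (2 * Kh / (ε * (L : ℝ) ^ 2)) + ENNReal.ofReal (1 / 8) * TQq x L := by
      intro up
      refine (TQ_rec h0 h1 up L H hLL).trans (add_le_add ?_ ?_)
      · refine (hht up H hH1).trans (ENNReal.ofReal_le_ofReal ?_)
        have hH0 : (0 : ℝ) < H := by exact_mod_cast hH1
        have h5 : 0 < ε * (L : ℝ) ^ 2 := by linarith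
        rw [div_le_div_iff₀ hH0 h5]
        nlinarith
      · refine mul_le_mul_left (ENNReal.ofReal_le_ofReal ?_) _
        exact hearly up L H (hL1a.trans hL) hH2
    exact max_le (key true) (key false)
  set M : ℝ := max (16 * Kh / ε) ((L1 : ℝ) ^ 2 * X) with hM
  have hM1 : 16 * Kh / ε ≤ M := le_max_left _ _
  have hM2 : (L1 : ℝ) ^ 2 * X ≤ M := le_max_right _ _
  have hM0 : 0 < M := lt_of_lt_of_le (by positivity) hM2
  have hpow : ∀ j : ℕ, TQq x (2 ^ j * L1) ≤ ENNReal.ofReal (M / ((2 : ℝ) ^ j * L1) ^ 2) := by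
    intro j
    induction j with
    | zero =>
      simp only [pow_zero, one_mul]
      refine (hqX L1).trans (ENNReal.ofReal_le_ofReal ?_)
      rw [le_div_iff₀ (by positivity)]
      linarith
    | succ j ih =>
      have h2 : L1 ≤ 2 ^ j * L1 := Nat.le_mul_of_pos_left _ (by positivity)
      have h3 := hstep (2 ^ j * L1) h2
      have h4 : 2 ^ (j + 1) * L1 = 2 * (2 ^ j * L1) := by ring
      rw [h4]
      refine h3.trans ?_
      have h5 : ENNReal.ofReal (1 / 8) * TQq x (2 ^ j * L1) ≤
          ENNReal.ofReal (1 / 8 * (M / ((2 : ℝ) ^ j * L1) ^ 2)) := by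
        rw [ENNReal.ofReal_mul (by norm_num)]
        exact mul_le_mul_right ih _
      refine (add_le_add le_rfl h5).trans ?_
      rw [← ENNReal.ofReal_add (by positivity) (by positivity)]
      refine ENNReal.ofReal_le_ofReal ?_
      push_cast
      set Y : ℝ := ((2 : ℝ) ^ j * L1) ^ 2 with hY
      have hY0 : 0 < Y := by positivity
      have h6 : ((2 : ℝ) ^ (j + 1) * L1) ^ 2 = 4 * Y := by
        rw [hY]
        ring
      rw [h6]
      have h7 : 2 * Kh / (ε * Y) ≤ M / 8 / Y := by
        rw [div_le_div_iff₀ (by positivity) hY0]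
        have h8 : 16 * Kh ≤ M * ε := by
          rw [div_le_iff₀ hε] at hM1
          exact hM1
        nlinarith
      have h8 : M / (4 * Y) = M / 8 / Y + 1 / 8 * (M / Y) := by
        field_simp
        ring
      rw [h8]
      linarith
  refine ⟨4 * M, by positivity, fun up L hL => ?_⟩
  have hL0 : (0 : ℝ) < L := by exact_mod_cast hL
  refine (TQ_le_q up L).trans ?_
  by_cases hlt : L < L1
  · refine (hqX L).trans (ENNReal.ofReal_le_ofReal ?_)
    rw [le_div_iff₀ (by positivity)]
    have h2 : (L : ℝ) ≤ L1 := by exact_mod_cast hlt.le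
    have h3 : (L : ℝ) ^ 2 ≤ (L1 : ℝ) ^ 2 := pow_le_pow_left₀ hL0.le h2 2
    nlinarith
  · have hge : L1 ≤ L := not_lt.1 hlt
    set j : ℕ := Nat.log 2 (L / L1) with hj
    have hne : L / L1 ≠ 0 := (Nat.div_pos hge (by omega)).ne'
    have h2 : 2 ^ j ≤ L / L1 := Nat.pow_log_le_self 2 hne
    have h3 : L / L1 < 2 ^ (j + 1) := Nat.lt_pow_succ_log_self (by norm_num) _
    have h4 : 2 ^ j * L1 ≤ L := by
      calc 2 ^ j * L1 ≤ L / L1 * L1 := Nat.mul_le_mul_right _ h2
        _ ≤ L := Nat.div_mul_le_self _ _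
    have h5 : L < 2 ^ (j + 1) * L1 := (Nat.div_lt_iff_lt_mul (by omega)).1 h3
    have h6 : (L : ℝ) ≤ 2 * ((2 : ℝ) ^ j * L1) := by
      have h7 : (L : ℝ) ≤ (2 : ℝ) ^ (j + 1) * L1 := by exact_mod_cast h5.le
      rw [pow_succ] at h7
      linarith
    refine (TQ_q_anti h4).trans ((hpow j).trans (ENNReal.ofReal_le_ofReal ?_))
    set Y : ℝ := (2 : ℝ) ^ j * L1 with hY
    have hY0 : 0 < Y := by positivity
    rw [div_le_div_iff₀ (by positivity) (by positivity)]
    have h7 : (L : ℝ) ^ 2 ≤ (2 * Y) ^ 2 := pow_le_pow_left₀ hL0.le h6 2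
    nlinarith

end Dia
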