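import Pool.Agent.Dia.TAll
import Pool.Agent.Dia.Lagr

/-!
# Module TSer: the generating functions as functions of `w`

Write `t = X` (power series variable), `X1 = Xp x true`, `X0 = Xp x false`, `A = t X1`, `B = t X0`,
`U = 1 - A - 2B`, `V = 1 - A - B` (constant coefficient 1, so `Lp = U⁻¹`, `Lq = V⁻¹` are inverses),
`q = 1 - x`.  From `Xp_true`: `X1 U = x`, so `X1 = x Lp`.  From `Xp_false`: `X0 V = 1 + B X1`.  As
`B = V - U`, `B X1 = V X1 - U X1 = V X1 - x`, so `(X0 - X1) V = 1 - x`: `X0 = X1 + q Lq`.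
`w = B Lq`: `U = V (1 - w)`, so `Lp (1 - w) = Lq`.  `w = t X0 Lq = t Lq (x Lp + q Lq)`, multiplied by `(1-w)`:
(a) `w (1 - w) = t Lq^2 (1 - q w)`.
`1 = V Lq = Lq - A Lq - B Lq`, `A = t x Lp`: `1 = Lq - x t Lp Lq - w`; multiplied by `(1-w)`:
`(1 - w)(1 + w) = (1-w) Lq - x t Lq^2`, multiplied by `(1 - q w)` and (a):
`(1 - w)(1 + w)(1 - q w) = (1-w)(1 - q w) Lq - x w (1 - w)`; cancel `1 - w` (a unit; constant coefficient 1):
(b) `(1 - q w) Lq = (1 + w)(1 - q w) + x w = 1 + 2 x w - q w^2`.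
Composition: `PowerSeries.subst` with `w` (`HasSubst` since the constant coefficient is 0) is a ring
homomorphism.  `P2 (1 - q u) = (1+u)(1 - q u) + x u` as power series in `u` (geometric series
`mk (q^k) * (1 - q u) = 1`), so `(P2.subst w)(1 - q w) = (1+w)(1-qw) + x w`: `Lq = P2.subst w`.
`P3 (1 - u) = P2`: `Lp = P3.subst w`.
`PH (1-u)(1 - q u) = (1 + 2 x u - q u^2)^2`: because `P1 (1-u) = (1 + q u)(1 - u) + 3 x u = 1 + 2xu - q u^2` and
`P2 (1 - q u) = 1 + 2xu - qu^2`.  So `PH.subst w * (1-w)(1-qw) = ((1-qw) Lq)^2`, and by (a)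
`t PH.subst w (1-w)(1-qw) = t Lq^2 (1-qw)^2 = w (1-w)(1-qw)`: `w = t PH.subst w`.
-/

set_option linter.unusedSectionVars false

namespace Dia
open PowerSeries

theorem TSer_U (x : ℝ) : (1 - X * Xp x true - 2 * (X * Xp x false)) * Lp x = 1 := by
  unfold Lp
  apply PowerSeries.mul_inv_cancel
  simp

theorem TSer_V (x : ℝ) : (1 - X * Xp x true - X * Xp x false) * Lq x = 1 := by
  unfold Lq
  apply PowerSeries.mul_inv_cancel
  simp

theorem TSer_C (x : ℝ) : (C (1 - x) : PowerSeries ℝ) = 1 - C x := by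
  rw [map_sub, map_one]

theorem wp_zero (x : ℝ) : constantCoeff (wp x) = 0 := by
  simp [wp]

theorem Xp_true_eq (x : ℝ) : Xp x true = C x * Lp x := by
  have h1 := Xp_true x
  have h2 := TSer_U x
  linear_combination Lp x * h1 - Xp x true * h2

theorem TSer_diff (x : ℝ) : Xp x false - Xp x true = C (1 - x) * Lq x := by
  have h1 := Xp_true x
  have h2 := Xp_false x
  have h3 := TSer_V x
  rw [TSer_C]
  linear_combination Lq x * (h2 - h1) - (Xp x false - Xp x true) * h3

theorem Xp_false_eq (x : ℝ) : Xp x false = C x * Lp x + C (1 - x) * Lq x := by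
  rw [← TSer_diff, ← Xp_true_eq]
  ring

theorem TSer_Lp (x : ℝ) : Lp x * (1 - wp x) = Lq x := by
  have h2 := TSer_U x
  have h3 := TSer_V x
  unfold wp
  linear_combination Lq x * h2 - Lp x * h3

theorem TSer_a (x : ℝ) : wp x * (1 - wp x) = X * Lq x ^ 2 * (1 - C (1 - x) * wp x) := by
  have h1 : wp x = X * (C x * Lp x + C (1 - x) * Lq x) * Lq x := by
    rw [← Xp_false_eq]
    rfl
  have h2 := TSer_Lp x
  have h3 := TSer_C x
  linear_combination (1 - wp x) * h1 + X * C x * Lq x * h2 + X * Lq x ^ 2 * h3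

theorem TSer_b (x : ℝ) : (1 - C (1 - x) * wp x) * Lq x =
    (1 + wp x) * (1 - C (1 - x) * wp x) + C x * wp x := by
  have h1 := TSer_V x
  have h2 := Xp_true_eq x
  have h3 := TSer_Lp x
  have h4 := TSer_a x
  have h5 : (1 - wp x) ≠ 0 := by
    intro h0
    have h6 := congrArg constantCoeff h0
    rw [map_sub, wp_zero] at h6
    simp at h6
  have h7 : Lq x - X * (C x * Lp x) * Lq x - wp x = 1 := by
    have h8 : wp x = X * Xp x false * Lq x := rfl
    rw [← h2, h8]
    linear_combination h1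
  have h9 : (1 - wp x) * (1 + wp x) = (1 - wp x) * Lq x - X * C x * Lq x ^ 2 := by
    linear_combination (- (1 - wp x)) * h7 - X * C x * Lq x * h3
  apply mul_left_cancel₀ h5
  linear_combination (- (1 - C (1 - x) * wp x)) * h9 - C x * h4

theorem TSer_geom (q : ℝ) : (PowerSeries.mk fun k => q ^ k) * (1 - C q * X) = 1 := by
  have h1 : (PowerSeries.mk fun k => q ^ k) * (1 - C q * X) =
      (PowerSeries.mk fun k => q ^ k) - C q * ((PowerSeries.mk fun k => q ^ k) * X) := by ring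
  rw [h1]
  ext n
  cases n with
  | zero => simp
  | succ n =>
    rw [map_sub, coeff_C_mul, coeff_succ_mul_X, coeff_mk, coeff_mk, coeff_one, pow_succ]
    simp
    ring

theorem TSer_one : (PowerSeries.mk fun _ => (1 : ℝ)) * (1 - X) = 1 := by
  have h1 := TSer_geom 1
  simpa using h1

theorem TSer_P2 (x : ℝ) : P2 x * (1 - C (1 - x) * X) =
    (1 + X) * (1 - C (1 - x) * X) + C x * X := by
  have h1 := TSer_geom (1 - x)
  unfold P2
  linear_combination C x * X * h1

theorem TSer_P3 (x : ℝ) : P3 x * (1 - X) = P2 x := by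
  unfold P3
  linear_combination P2 x * TSer_one

theorem TSer_P1 (x : ℝ) : P1 x * (1 - X) = (1 + C (1 - x) * X) * (1 - X) + C (3 * x) * X := by
  unfold P1
  linear_combination C (3 * x) * X * TSer_one

theorem TSer_hs (x : ℝ) : HasSubst (wp x) := HasSubst.of_constantCoeff_zero' (wp_zero x)

theorem TSer_C_subst (r x : ℝ) : (C r : PowerSeries ℝ).subst (wp x) = C r :=
  PowerSeries.subst_C r

theorem TSer_one_subst (x : ℝ) : (1 : PowerSeries ℝ).subst (wp x) = 1 := by
  rw [← coe_substAlgHom (TSer_hs x), map_one]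

theorem TSer_ne (x q : ℝ) : (1 - C q * wp x) ≠ 0 := by
  intro h0
  have h6 := congrArg constantCoeff h0
  rw [map_sub, map_mul, wp_zero] at h6
  simp at h6

theorem Lq_eq (x : ℝ) : Lq x = (P2 x).subst (wp x) := by
  have hs := TSer_hs x
  have h1 := congrArg (fun f => PowerSeries.subst (wp x) f) (TSer_P2 x)
  simp only [subst_mul hs, subst_add hs, subst_sub hs, TSer_C_subst, TSer_one_subst,
    subst_X hs] at h1
  apply mul_right_cancel₀ (TSer_ne x (1 - x))
  rw [h1, ← TSer_b]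
  ring

theorem Lp_eq (x : ℝ) : Lp x = (P3 x).subst (wp x) := by
  have hs := TSer_hs x
  have h1 := congrArg (fun f => PowerSeries.subst (wp x) f) (TSer_P3 x)
  simp only [subst_mul hs, subst_sub hs, TSer_one_subst, subst_X hs] at h1
  have h2 := TSer_ne x 1
  rw [map_one, one_mul] at h2
  apply mul_right_cancel₀ h2
  rw [h1, ← Lq_eq, TSer_Lp]

theorem wp_eq (x : ℝ) : wp x = X * (PH x).subst (wp x) := by
  have hs := TSer_hs x
  have h0 : (C (3 * x) : PowerSeries ℝ) = 3 * C x := by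
    rw [map_mul]
    rfl
  have h1 := congrArg (fun f => PowerSeries.subst (wp x) f) (TSer_P1 x)
  simp only [subst_mul hs, subst_add hs, subst_sub hs, TSer_C_subst, TSer_one_subst,
    subst_X hs] at h1
  have h2 := TSer_ne x 1
  rw [map_one, one_mul] at h2
  have h3 := TSer_ne x (1 - x)
  unfold PH
  rw [subst_mul hs, ← Lq_eq]
  apply mul_right_cancel₀ (mul_ne_zero h2 h3)
  have h4 := TSer_a x
  have h5 := TSer_b x
  have h6 := TSer_C x
  rw [h0] at h1
  have h7 : PowerSeries.subst (wp x) (P1 x) * (1 - wp x) = (1 - C (1 - x) * wp x) * Lq x := by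
    rw [h1, h5, h6]
    ring
  linear_combination (1 - C (1 - x) * wp x) * h4 - X * Lq x * (1 - C (1 - x) * wp x) * h7

/-- the composed series used later: for a polynomial expression of `Lp, Lq` -/
theorem Xp_true_subst (x : ℝ) : Xp x true = (C x * P3 x).subst (wp x) := by
  rw [subst_mul (TSer_hs x), TSer_C_subst, ← Lp_eq, Xp_true_eq]

theorem Xp_false_subst (x : ℝ) : Xp x false = (C x * P3 x + C (1 - x) * P2 x).subst (wp x) := by
  rw [subst_add (TSer_hs x), subst_mul (TSer_hs x), subst_mul (TSer_hs x), TSer_C_subst,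
    TSer_C_subst, ← Lp_eq, ← Lq_eq, Xp_false_eq]

theorem k1_subst (x : ℝ) : C x * Lp x ^ 2 = (C x * P3 x ^ 2).subst (wp x) := by
  rw [subst_mul (TSer_hs x), subst_pow (TSer_hs x), TSer_C_subst, ← Lp_eq]

theorem k2_subst (x : ℝ) : C x * Lp x ^ 2 + C (1 - x) * Lq x ^ 2 =
    (C x * P3 x ^ 2 + C (1 - x) * P2 x ^ 2).subst (wp x) := by
  rw [subst_add (TSer_hs x), subst_mul (TSer_hs x), subst_mul (TSer_hs x), subst_pow (TSer_hs x),
    subst_pow (TSer_hs x), TSer_C_subst, TSer_C_subst, ← Lp_eq, ← Lq_eq]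

end Dia
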