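import Pool.Agent.Dia.TQ
import Pool.Agent.Dia.TForest

/-!
# Module Thm2A: large ranges are rare

Let `C ≥ 8`, `N ≥ 1`, `L = ⌊C N^(1/4) / 4⌋ ≥ C N^(1/4)/8 ≥ 1`.  If `rng t ≥ C N^(1/4) ≥ 4 L` then `t.Far (2L)`
(`far_of_rng`), so (`far_first`, `t.ht ≤ t.size = N`) there are `h ≤ N`, `p ∈ paths h`, `FP L p`, and `s ∈ occ p t`
with `s.Far L`.  With `mark` for `f` = indicator of `Far L`, `u = pst up p`, `g m = ZN x u m (Far L)`:
 `ZN x up N (C N^(1/4) ≤ rng) ≤ sum_{h ≤ N} sum_{p ∈ paths h, FP L p} cv (cvL (kks x up p)) g N`.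
`cv .. g N = sum_{n + m = N} cvL (kks x up p) n * g m`.
 (i) `m ≤ N/2`: `n ≥ N/2 > 0`, `cvL .. n ≤ pw * 2K/N` (`kks_local`), `sum_m g m ≤ K'/L^2` (`far_bound`,
 `Zt_eq`).
 (ii) `m > N/2`: `g m ≤ av x u m ≤ K'' m^(-3/2) ≤ 3 K'' N^(-3/2)` (`Xs_bounds`), and the sum over `n ≤ N` of
 `cvL .. n` is at most `pw * K exp(-c h N^(-1/2))` (`kks_small`; decrease `c` so that `c ≤ 1`).
Sum over `p`, `h`: (i) `≤ K1 * (2K/N) * K'/L^2` by `walk_fp`, and `L^2 ≥ C^2 N^(1/2)/64`: at most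
`K3 C^(-2) N^(-3/2)`.  (ii) `walk_disc` with `s = c^(1/2) N^(-1/4) ≤ 1` (`s^2 h = c h N^(-1/2)`):
`≤ K4 N^(-3/2) exp(-c' s L) ≤ K4 N^(-3/2) exp(-c'' C)`.  Both `≤ (δ/2) N^(-3/2)` for `C` large.
-/

set_option linter.unusedSectionVars false

namespace Dia
open Finset Pool.Agent.DiamP
open scoped ENNReal

variable {x : ℝ}

private theorem w_nonneg (h0 : 0 < x) (t : LT) (up : Bool) : 0 ≤ t.w x up := by
  unfold LT.w
  positivity

private theorem ZN_nn (h0 : 0 < x) (h1 : x < 1) (up : Bool) (N : ℕ) (P : LT → Prop) :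
    0 ≤ ZN x up N P := by
  unfold ZN
  refine mul_nonneg (sum_nonneg fun t _ => ?_) (pow_nonneg (yc_pos h0 h1).le _)
  split_ifs
  · exact w_nonneg h0 t up
  · exact le_rfl

private theorem ZN_le (h0 : 0 < x) (h1 : x < 1) (up : Bool) (N : ℕ) (P : LT → Prop) :
    ZN x up N P ≤ Xs x up N * yc x ^ N := by
  unfold ZN Xs
  refine mul_le_mul_of_nonneg_right (sum_le_sum fun t _ => ?_) (pow_nonneg (yc_pos h0 h1).le _)
  split_ifs
  · exact le_rfl
  · exact w_nonneg h0 t up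

private theorem pwg_nonneg {a b : ℝ} (ha : 0 < a) (hb : 0 < b) (u : Bool) (p : List SignType) :
    0 ≤ pwg a b u p := by
  induction p generalizing u with
  | nil => simp [pwg]
  | cons d p ih =>
    rw [pwg]
    refine mul_nonneg ?_ (ih _)
    unfold kapg
    split_ifs
    · exact ha.le
    · exact (add_pos ha hb).le

/-- partial sums of the weights of the trees which reach `L` -/
private theorem sum_far {K : ℝ} (hK : 0 < K) (h0 : 0 < x) (h1 : x < 1) {u : Bool} {L : ℕ}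
    (h : Zt x u (LT.Far L) ≤ ENNReal.ofReal (K / (L : ℝ) ^ 2)) (S : Finset ℕ) :
    ∑ m ∈ S, ZN x u m (LT.Far L) ≤ K / (L : ℝ) ^ 2 := by
  rw [Zt_eq h0 h1] at h
  have h2 : ENNReal.ofReal (∑ m ∈ S, ZN x u m (LT.Far L)) ≤ ENNReal.ofReal (K / (L : ℝ) ^ 2) := by
    rw [ENNReal.ofReal_sum_of_nonneg fun m _ => ZN_nn h0 h1 u m _]
    exact (ENNReal.sum_le_tsum S).trans h
  exact (ENNReal.ofReal_le_ofReal_iff (by positivity)).1 h2

open Classical in
/-- the union bound over the first passage -/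
private theorem union_bound (h0 : 0 < x) (h1 : x < 1) (up : Bool) {N L : ℕ} (hL : 1 ≤ L) {R : ℝ}
    (hR : (4 : ℝ) * L ≤ R) :
    ZN x up N (fun t => R ≤ t.rng) ≤ ∑ h ∈ range (N + 1), ∑ p ∈ paths h, if FP L p then
      cv (cvL (kks x up p)) (fun m => ZN x (pst up p) m (LT.Far L)) N else 0 := by
  let f : LT → ℝ := fun s => if s.Far L then 1 else 0
  have hf : ∀ s, 0 ≤ f s := fun s => by
    simp only [f]
    split_ifs <;> norm_num
  have hsum : ∀ l : List LT, 0 ≤ (l.map f).sum := fun l =>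
    List.sum_nonneg fun y hy => by
      obtain ⟨s, -, rfl⟩ := List.mem_map.1 hy
      exact hf s
  have key : ∀ t ∈ LT.all N, (if R ≤ (t.rng : ℝ) then t.w x up else 0) ≤
      ∑ h ∈ range (N + 1), ∑ p ∈ paths h,
        if FP L p then t.w x up * ((LT.occ p t).map f).sum else 0 := by
    intro t ht
    have hnn : ∀ h ∈ range (N + 1), 0 ≤ ∑ p ∈ paths h,
        if FP L p then t.w x up * ((LT.occ p t).map f).sum else 0 := by
      intro h _
      refine sum_nonneg fun p _ => ?_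
      split_ifs
      · exact mul_nonneg (w_nonneg h0 t up) (hsum _)
      · exact le_rfl
    split_ifs with hr
    · have h2 : 2 * (2 * L) ≤ t.rng := by
        have h3 : ((2 * (2 * L) : ℕ) : ℝ) ≤ (t.rng : ℝ) := by
          push_cast
          linarith
        exact_mod_cast h3
      obtain ⟨p, hp1, hp2, s, hs1, hs2⟩ := LT.far_first hL (LT.far_of_rng h2)
      have hpl : p.length ∈ range (N + 1) := by
        rw [mem_range]
        have h3 := LT.ht_le_size t
        rw [LT.mem_all.1 ht] at h3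
        omega
      have hpm : p ∈ paths p.length := mem_paths.2 rfl
      refine le_trans ?_ (single_le_sum hnn hpl)
      refine le_trans ?_ (single_le_sum (f := fun p => if FP L p then
        t.w x up * ((LT.occ p t).map f).sum else 0) (fun q _ => ?_) hpm)
      · simp only [if_pos hp1]
        refine le_mul_of_one_le_right (w_nonneg h0 t up) ?_
        have h4 : f s = 1 := if_pos hs2
        rw [← h4]
        refine List.single_le_sum (fun y hy => ?_) _ (List.mem_map.2 ⟨s, hs1, rfl⟩)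
        obtain ⟨s', -, rfl⟩ := List.mem_map.1 hy
        exact hf s'
      · split_ifs
        · exact mul_nonneg (w_nonneg h0 t up) (hsum _)
        · exact le_rfl
    · exact sum_nonneg hnn
  have h2 : ZN x up N (fun t => R ≤ t.rng) ≤ (∑ t ∈ LT.all N, ∑ h ∈ range (N + 1), ∑ p ∈ paths h,
      if FP L p then t.w x up * ((LT.occ p t).map f).sum else 0) * yc x ^ N := by
    unfold ZN
    exact mul_le_mul_of_nonneg_right (sum_le_sum key) (pow_nonneg (yc_pos h0 h1).le _)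
  refine h2.trans (le_of_eq ?_)
  rw [sum_comm, sum_mul]
  refine sum_congr rfl fun h _ => ?_
  rw [sum_comm, sum_mul]
  refine sum_congr rfl fun p _ => ?_
  by_cases hp : FP L p
  · simp only [if_pos hp]
    rw [mark x up p f N]
    have h3 : (fun m => (∑ s ∈ LT.all m, s.w x (pst up p) * f s) * yc x ^ m) =
        fun m => ZN x (pst up p) m (LT.Far L) := by
      funext m
      unfold ZN
      congr 1
      refine sum_congr rfl fun s _ => ?_
      by_cases hs : s.Far L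
      · simp [f, hs]
      · simp [f, hs]
    rw [h3]
  · simp only [if_neg hp, sum_const_zero, zero_mul]

private theorem anti_fst (A : ℕ → ℝ) (N : ℕ) :
    ∑ ij ∈ antidiagonal N, A ij.1 = ∑ i ∈ range (N + 1), A i :=
  Finset.Nat.sum_antidiagonal_eq_sum_range_succ (fun i _ => A i) N

private theorem anti_snd (A : ℕ → ℝ) (N : ℕ) :
    ∑ ij ∈ antidiagonal N, A ij.2 = ∑ i ∈ range (N + 1), A i := by
  rw [← anti_fst]
  exact Finset.Nat.sum_antidiagonal_swap (f := fun ij : ℕ × ℕ => A ij.1) (n := N)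

/-- the bound for one path -/
private theorem one_path (h0 : 0 < x) (h1 : x < 1) {K3 K4 c5 K5 K6 : ℝ} (hK3 : 0 < K3)
    (hK4 : 0 < K4) (hK6 : 0 < K6) {up : Bool} {p : List SignType} {N L : ℕ} (hN : 1 ≤ N)
    (hloc : ∀ n : ℕ, 1 ≤ n → cvL (kks x up p) n ≤ pw x up p * (K4 / n))
    (hsm : ∑ n ∈ range (N + 1), cvL (kks x up p) n ≤
        pw x up p * (K5 * Real.exp (-(c5 * (p.length : ℝ) * (N : ℝ) ^ (-(1 / 2) : ℝ)))))
    (hfar : Zt x (pst up p) (LT.Far L) ≤ ENNReal.ofReal (K3 / (L : ℝ) ^ 2))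
    (hX : ∀ m : ℕ, 1 ≤ m → Xs x (pst up p) m * yc x ^ m ≤ K6 * (m : ℝ) ^ (-(3 / 2) : ℝ)) :
    cv (cvL (kks x up p)) (fun m => ZN x (pst up p) m (LT.Far L)) N ≤
      pw x up p * (2 * K4 / N * (K3 / (L : ℝ) ^ 2) + 3 * K6 * (N : ℝ) ^ (-(3 / 2) : ℝ) *
        (K5 * Real.exp (-(c5 * (p.length : ℝ) * (N : ℝ) ^ (-(1 / 2) : ℝ))))) := by
  have hpw : 0 ≤ pw x up p := pwg_nonneg (alc_pos h0 h1) (bec_pos h0 h1) up p
  have hNr : (0 : ℝ) < N := by exact_mod_cast hN
  have hA := kks_nonneg h0 h1 up p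
  have hg : ∀ m, 0 ≤ ZN x (pst up p) m (LT.Far L) := fun m => ZN_nn h0 h1 _ m _
  have hterm : ∀ ij ∈ antidiagonal N,
      cvL (kks x up p) ij.1 * ZN x (pst up p) ij.2 (LT.Far L) ≤
      pw x up p * (2 * K4 / N) * ZN x (pst up p) ij.2 (LT.Far L) +
        3 * K6 * (N : ℝ) ^ (-(3 / 2) : ℝ) * cvL (kks x up p) ij.1 := by
    rintro ⟨i, j⟩ hij
    have hij' : i + j = N := mem_antidiagonal.1 hij
    simp only
    by_cases hj : 2 * j ≤ N
    · have hi : 1 ≤ i := by omega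
      have hi2 : (N : ℝ) ≤ 2 * i := by
        have : N ≤ 2 * i := by omega
        exact_mod_cast this
      have hir : (0 : ℝ) < i := by exact_mod_cast hi
      have h3 : K4 / i ≤ 2 * K4 / N := by
        rw [div_le_div_iff₀ hir hNr]
        nlinarith
      have h4 : cvL (kks x up p) i ≤ pw x up p * (2 * K4 / N) :=
        (hloc i hi).trans (mul_le_mul_of_nonneg_left h3 hpw)
      have h5 := mul_le_mul_of_nonneg_right h4 (hg j)
      have h6 : 0 ≤ 3 * K6 * (N : ℝ) ^ (-(3 / 2) : ℝ) * cvL (kks x up p) i := by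
        have := hA i
        positivity
      linarith
    · have hj1 : 1 ≤ j := by omega
      have hjr : (0 : ℝ) < j := by exact_mod_cast hj1
      have hj2 : (N : ℝ) / 2 ≤ j := by
        have : N ≤ 2 * j := by omega
        have h3 : (N : ℝ) ≤ 2 * j := by exact_mod_cast this
        linarith
      have h3 : ZN x (pst up p) j (LT.Far L) ≤ 3 * K6 * (N : ℝ) ^ (-(3 / 2) : ℝ) := by
        refine (ZN_le h0 h1 _ j _).trans ((hX j hj1).trans ?_)
        have h4 : (j : ℝ) ^ (-(3 / 2) : ℝ) ≤ ((N : ℝ) / 2) ^ (-(3 / 2) : ℝ) :=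
          Real.rpow_le_rpow_of_nonpos (by positivity) hj2 (by norm_num)
        have h5 : ((N : ℝ) / 2) ^ (-(3 / 2) : ℝ) ≤ 3 * (N : ℝ) ^ (-(3 / 2) : ℝ) := by
          rw [Real.div_rpow hNr.le (by norm_num), div_eq_mul_inv, mul_comm]
          refine mul_le_mul_of_nonneg_right ?_ (by positivity)
          rw [Real.rpow_neg (by norm_num), inv_inv]
          have h6 : (2 : ℝ) ^ (3 / 2 : ℝ) = 2 * Real.sqrt 2 := by
            rw [Real.sqrt_eq_rpow, show (3 / 2 : ℝ) = 1 + 1 / 2 by norm_num,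
              Real.rpow_add (by norm_num), Real.rpow_one]
          rw [h6]
          have h7 : Real.sqrt 2 ≤ 3 / 2 := by
            rw [Real.sqrt_le_left (by norm_num)]
            norm_num
          linarith
        nlinarith
      have h5 := mul_le_mul_of_nonneg_left h3 (hA j |> fun _ => hA i)
      have h6 : 0 ≤ pw x up p * (2 * K4 / N) * ZN x (pst up p) j (LT.Far L) := by
        have := hg j
        positivity
      linarith [mul_comm (3 * K6 * (N : ℝ) ^ (-(3 / 2) : ℝ)) (cvL (kks x up p) i)]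
  unfold cv
  refine (sum_le_sum hterm).trans ?_
  rw [sum_add_distrib, ← mul_sum, ← mul_sum, anti_snd (fun m => ZN x (pst up p) m (LT.Far L)),
    anti_fst]
  have h2 := sum_far hK3 h0 h1 hfar (range (N + 1))
  have h3 : pw x up p * (2 * K4 / N) * ∑ m ∈ range (N + 1), ZN x (pst up p) m (LT.Far L) ≤
      pw x up p * (2 * K4 / N) * (K3 / (L : ℝ) ^ 2) :=
    mul_le_mul_of_nonneg_left h2 (by positivity)
  have h4 := mul_le_mul_of_nonneg_left hsm
    (show 0 ≤ 3 * K6 * (N : ℝ) ^ (-(3 / 2) : ℝ) by positivity)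
  refine (add_le_add h3 h4).trans (le_of_eq ?_)
  ring

theorem rng_large (h0 : 0 < x) (h1 : x < 1) (up : Bool) (δ : ℝ) (hδ : 0 < δ) :
    ∃ C : ℝ, 0 < C ∧ ∀ N : ℕ, 1 ≤ N →
      ZN x up N (fun t => C * (N : ℝ) ^ (1 / 4 : ℝ) ≤ t.rng) ≤ δ * (N : ℝ) ^ (-(3 / 2) : ℝ) := by
  classical
  have ha := alc_pos h0 h1
  have hb := bec_pos h0 h1
  have hab := alc_bec h0 h1
  obtain ⟨K1', hK1'⟩ := walk_fp ha hb hab
  obtain ⟨c2, K2, hc2, hK2, hdisc⟩ := walk_disc ha hb hab
  obtain ⟨K3, hK3, hfar⟩ := far_bound h0 h1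
  obtain ⟨K4, hK4, hloc⟩ := kks_local h0 h1
  obtain ⟨c5, K5, hc5, hK5, hsm⟩ := kks_small h0 h1
  obtain ⟨ct, Kt, _, hKt, hXt⟩ := Xs_bounds h0 h1 true
  obtain ⟨cf', Kf, _, hKf, hXf⟩ := Xs_bounds h0 h1 false
  set K1 : ℝ := max K1' 1 with hK1d
  have hK1 : 0 < K1 := lt_of_lt_of_le one_pos (le_max_right _ _)
  set K6 : ℝ := max Kt Kf with hK6d
  have hK6 : 0 < K6 := lt_of_lt_of_le hKt (le_max_left _ _)
  have hX : ∀ (u : Bool) (m : ℕ), 1 ≤ m → Xs x u m * yc x ^ m ≤ K6 * (m : ℝ) ^ (-(3 / 2) : ℝ) := by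
    intro u m hm
    cases u
    · exact ((hXf m hm).2).trans (mul_le_mul_of_nonneg_right (le_max_right _ _) (by positivity))
    · exact ((hXt m hm).2).trans (mul_le_mul_of_nonneg_right (le_max_left _ _) (by positivity))
  set c : ℝ := min c5 1 with hcd
  have hc : 0 < c := lt_min hc5 one_pos
  set κ : ℝ := c2 * Real.sqrt c / 8 with hκd
  have hsc : 0 < Real.sqrt c := Real.sqrt_pos.2 hc
  have hκ : 0 < κ := by positivity
  set C : ℝ := 8 + 256 * K1 * K3 * K4 / δ + 6 * K2 * K5 * K6 / (κ * δ) with hCd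
  have hC8 : 8 ≤ C := by
    have h2 : 0 ≤ 256 * K1 * K3 * K4 / δ := by positivity
    have h3 : 0 ≤ 6 * K2 * K5 * K6 / (κ * δ) := by positivity
    linarith
  have hCpos : 0 < C := by linarith
  refine ⟨C, hCpos, fun N hN => ?_⟩
  have hNr : (1 : ℝ) ≤ N := by exact_mod_cast hN
  have hNp : (0 : ℝ) < N := by linarith
  set q : ℝ := (N : ℝ) ^ (1 / 4 : ℝ) with hqd
  have hq1 : 1 ≤ q := Real.one_le_rpow hNr (by norm_num)
  have hq0 : 0 < q := by linarith
  set L : ℕ := ⌊C * q / 4⌋₊ with hLd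
  have hLle : (L : ℝ) ≤ C * q / 4 := Nat.floor_le (by positivity)
  have hLge : C * q / 8 ≤ L := by
    have h2 : C * q / 4 < L + 1 := Nat.lt_floor_add_one _
    have h3 : 1 ≤ C * q / 8 := by nlinarith
    linarith
  have hL1 : 1 ≤ L := by
    have h3 : (1 : ℝ) ≤ C * q / 8 := by nlinarith
    have h4 : (1 : ℝ) ≤ L := h3.trans hLge
    exact_mod_cast h4
  have hLr : (0 : ℝ) < L := by exact_mod_cast hL1
  have hub := union_bound h0 h1 up (N := N) hL1 (R := C * q) (by linarith)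
  refine hub.trans ?_
  -- the bound per path
  set B1 : ℝ := 2 * K4 / N * (K3 / (L : ℝ) ^ 2) with hB1
  set B2 : ℝ := 3 * K6 * (N : ℝ) ^ (-(3 / 2) : ℝ) * K5 with hB2
  set s : ℝ := Real.sqrt c * (N : ℝ) ^ (-(1 / 4) : ℝ) with hsd
  have hs0 : 0 ≤ s := by positivity
  have hs2 : s ^ 2 = c * (N : ℝ) ^ (-(1 / 2) : ℝ) := by
    rw [hsd, mul_pow, Real.sq_sqrt hc.le, ← Real.rpow_natCast, ← Real.rpow_mul hNp.le]
    norm_num
  have hs1 : s ≤ 1 := by
    have h2 : Real.sqrt c ≤ 1 := by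
      rw [Real.sqrt_le_left (by norm_num)]
      rw [one_pow]
      exact min_le_right c5 1
    have h3 : (N : ℝ) ^ (-(1 / 4) : ℝ) ≤ 1 := Real.rpow_le_one_of_one_le_of_nonpos hNr (by norm_num)
    calc s ≤ 1 * 1 := mul_le_mul h2 h3 (by positivity) (by norm_num)
      _ = 1 := one_mul 1
  have hpath : ∀ h ∈ range (N + 1), (∑ p ∈ paths h, if FP L p then
      cv (cvL (kks x up p)) (fun m => ZN x (pst up p) m (LT.Far L)) N else 0) ≤
      B1 * PW (alc x) (bec x) up h (FP L) +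
        B2 * (PW (alc x) (bec x) up h (FP L) * Real.exp (-s ^ 2 * h)) := by
    intro h _
    unfold PW
    rw [sum_mul, mul_sum, mul_sum, ← sum_add_distrib]
    refine sum_le_sum fun p hp => ?_
    by_cases hfp : FP L p
    · simp only [if_pos hfp]
      have hlen : p.length = h := mem_paths.1 hp
      refine (one_path h0 h1 (L := L) (c5 := c5) (K5 := K5) hK3 hK4 hK6 hN (hloc up p)
        (hsm up p N hN) (hfar (pst up p) L hL1) (hX (pst up p))).trans ?_
      have hpw : 0 ≤ pwg (alc x) (bec x) up p := pwg_nonneg ha hb up p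
      have h2 : Real.exp (-(c5 * (p.length : ℝ) * (N : ℝ) ^ (-(1 / 2) : ℝ))) ≤
          Real.exp (-s ^ 2 * h) := by
        rw [Real.exp_le_exp, hs2, hlen]
        have h3 : c * (N : ℝ) ^ (-(1 / 2) : ℝ) * h ≤ c5 * (N : ℝ) ^ (-(1 / 2) : ℝ) * h := by
          have : c ≤ c5 := min_le_left _ _
          gcongr
        linarith
      have h4 : pw x up p = pwg (alc x) (bec x) up p := rfl
      rw [h4]
      have h5 : 3 * K6 * (N : ℝ) ^ (-(3 / 2) : ℝ) *
          (K5 * Real.exp (-(c5 * (p.length : ℝ) * (N : ℝ) ^ (-(1 / 2) : ℝ)))) ≤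
          B2 * Real.exp (-s ^ 2 * h) := by
        rw [hB2, ← mul_assoc]
        exact mul_le_mul_of_nonneg_left h2 (by positivity)
      calc pwg (alc x) (bec x) up p * (2 * K4 / N * (K3 / (L : ℝ) ^ 2) +
            3 * K6 * (N : ℝ) ^ (-(3 / 2) : ℝ) *
            (K5 * Real.exp (-(c5 * (p.length : ℝ) * (N : ℝ) ^ (-(1 / 2) : ℝ)))))
          ≤ pwg (alc x) (bec x) up p * (B1 + B2 * Real.exp (-s ^ 2 * h)) :=
            mul_le_mul_of_nonneg_left (by linarith) hpw
        _ = _ := by ring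
    · simp [if_neg hfp]
  refine (sum_le_sum hpath).trans ?_
  rw [sum_add_distrib, ← mul_sum, ← mul_sum]
  have hB1n : 0 ≤ B1 := by positivity
  have hB2n : 0 ≤ B2 := by positivity
  have h2 := mul_le_mul_of_nonneg_left ((hK1' up L (N + 1)).trans (le_max_left K1' 1)) hB1n
  have h3 := mul_le_mul_of_nonneg_left (hdisc up L (N + 1) s hs0 hs1) hB2n
  refine (add_le_add h2 h3).trans ?_
  -- powers of N
  have hqN : q ^ 2 * (N : ℝ) ^ (-(1 / 2) : ℝ) = 1 := by
    rw [hqd, ← Real.rpow_natCast, ← Real.rpow_mul hNp.le, ← Real.rpow_add hNp]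
    norm_num
  have hN32 : (N : ℝ) ^ (-(3 / 2) : ℝ) = (N : ℝ)⁻¹ * (N : ℝ) ^ (-(1 / 2) : ℝ) := by
    rw [← Real.rpow_neg_one, ← Real.rpow_add hNp]
    norm_num
  have hqs : q * (N : ℝ) ^ (-(1 / 4) : ℝ) = 1 := by
    rw [hqd, ← Real.rpow_add hNp]
    norm_num
  set M : ℝ := (N : ℝ) ^ (-(3 / 2) : ℝ) with hMd
  have hM : 0 < M := by positivity
  -- first term
  have hfirst : B1 * K1 ≤ δ / 2 * M := by
    have hL2 : (C * q / 8) ^ 2 ≤ (L : ℝ) ^ 2 := pow_le_pow_left₀ (by positivity) hLge 2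
    have h4 : B1 * K1 ≤ 2 * K4 / N * (K3 / (C * q / 8) ^ 2) * K1 := by
      rw [hB1]
      gcongr
    refine h4.trans ?_
    have h5 : 2 * K4 / N * (K3 / (C * q / 8) ^ 2) * K1 = 128 * K1 * K3 * K4 / C ^ 2 *
        ((N : ℝ)⁻¹ * (q ^ 2)⁻¹) := by
      field_simp
      ring
    have h6 : (q ^ 2)⁻¹ = (N : ℝ) ^ (-(1 / 2) : ℝ) := inv_eq_of_mul_eq_one_right hqN
    rw [h5, h6, ← hN32]
    refine mul_le_mul_of_nonneg_right ?_ hM.le
    rw [div_le_iff₀ (by positivity)]
    have h7 : 256 * K1 * K3 * K4 / δ ≤ C := by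
      have h8 : 0 ≤ 6 * K2 * K5 * K6 / (κ * δ) := by positivity
      linarith
    rw [div_le_iff₀ hδ] at h7
    have h8 : C ≤ C ^ 2 := by nlinarith
    have h9 : C * δ ≤ C ^ 2 * δ := mul_le_mul_of_nonneg_right h8 hδ.le
    linarith
  -- second term
  have hsecond : B2 * (K2 * Real.exp (-c2 * s * L)) ≤ δ / 2 * M := by
    have h4 : κ * C ≤ c2 * s * L := by
      have h5 : c2 * s * (C * q / 8) ≤ c2 * s * L := mul_le_mul_of_nonneg_left hLge (by positivity)
      have h6 : c2 * s * (C * q / 8) = κ * C * (q * (N : ℝ) ^ (-(1 / 4) : ℝ)) := by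
        rw [hsd, hκd]
        ring
      rw [h6, hqs, mul_one] at h5
      exact h5
    have h5 : Real.exp (-c2 * s * L) ≤ 1 / (κ * C) := by
      have h6 : Real.exp (-c2 * s * L) ≤ Real.exp (-(κ * C)) := by
        rw [Real.exp_le_exp]
        linarith
      refine h6.trans ?_
      rw [Real.exp_neg, ← one_div]
      refine one_div_le_one_div_of_le (by positivity) ?_
      have := Real.add_one_le_exp (κ * C)
      linarith
    have h6 : B2 * (K2 * Real.exp (-c2 * s * L)) ≤ B2 * (K2 * (1 / (κ * C))) := by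
      gcongr
    refine h6.trans ?_
    have h7 : B2 * (K2 * (1 / (κ * C))) = 3 * K2 * K5 * K6 / (κ * C) * M := by
      rw [hB2]
      ring
    rw [h7]
    refine mul_le_mul_of_nonneg_right ?_ hM.le
    rw [div_le_iff₀ (by positivity)]
    have h8 : 6 * K2 * K5 * K6 / (κ * δ) ≤ C := by
      have h9 : 0 ≤ 256 * K1 * K3 * K4 / δ := by positivity
      linarith
    rw [div_le_iff₀ (by positivity)] at h8
    linarith
  linarith

end Dia
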