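import Pool.Agent.Dia.TForest
import Pool.Agent.Dia.TOcc
import Pool.Agent.Dia.WStat

/-!
# Module Thm2B: small ranges are rare

Let `0 < c`, `N` so large that `c N^(1/4) ≥ 1`, `L = ⌊c N^(1/4)⌋ ≥ 1`.  For a tree with `rng t ≤ L` all occurring
paths satisfy `Strip L p` (`strip_of_rng`), and the number of its vertices is
`N + 1 = sum_{h ≤ N} sum_{p ∈ paths h} (occ p t).length` (`occ_count`).  With `mark` for `f = 1`:
 `(N+1) ZN x up N (rng ≤ L) ≤ sum_{h ≤ N} sum_{p ∈ paths h, Strip L p} cv (cvL (kks x up p)) (av x (pst up p)) N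
   ≤ sum_h PW (Strip L) * K/N` (`kks_av_local`) `≤ (K/N) sum_h K' exp(-c' h/L^2)` (`walk_strip`)
 `≤ (K K'/N) / (1 - exp(-c'/L^2)) ≤ K'' L^2/N` (for `L ≥ 1`: `1 - exp(-y) ≥ y/(1+y)`).
So `ZN ≤ K'' L^2/N^2 ≤ K'' c^2 N^(-3/2)`; choose `c` with `K'' c^2 ≤ δ`.
-/

set_option linter.unusedSectionVars false

namespace Dia
open Finset Pool.Agent.DiamP

variable {x : ℝ}

/-- the geometric sum -/
private theorem Thm2B_geom (c L : ℝ) (hc : 0 < c) (hL : 1 ≤ L) (H : ℕ) :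
    ∑ h ∈ range H, Real.exp (-c * h / L ^ 2) ≤ (1 + 1 / c) * L ^ 2 := by
  have hL2 : 0 < L ^ 2 := by positivity
  set y : ℝ := c / L ^ 2 with hy
  have hy0 : 0 < y := by positivity
  have h1 : ∀ h : ℕ, Real.exp (-c * h / L ^ 2) = Real.exp (-y) ^ h := by
    intro h
    rw [← Real.exp_nat_mul]
    congr 1
    rw [hy]
    ring
  have hr0 : 0 ≤ Real.exp (-y) := (Real.exp_pos _).le
  have hr1 : Real.exp (-y) < 1 := Real.exp_lt_one_iff.2 (by linarith)
  have h2 : ∑ h ∈ range H, Real.exp (-c * h / L ^ 2) ≤ (1 - Real.exp (-y))⁻¹ := by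
    rw [Finset.sum_congr rfl fun h _ => h1 h, ← tsum_geometric_of_lt_one hr0 hr1]
    exact (summable_geometric_of_lt_one hr0 hr1).sum_le_tsum _ fun _ _ => by positivity
  refine h2.trans ?_
  have h3 : 1 + y ≤ Real.exp y := by linarith [Real.add_one_le_exp y]
  have h4 : Real.exp (-y) ≤ 1 / (1 + y) := by
    rw [Real.exp_neg, ← one_div]
    exact one_div_le_one_div_of_le (by linarith) h3
  have h5 : y / (1 + y) ≤ 1 - Real.exp (-y) := by
    have : y / (1 + y) = 1 - 1 / (1 + y) := by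
      field_simp
      ring
    linarith
  have h6 : (1 - Real.exp (-y))⁻¹ ≤ (y / (1 + y))⁻¹ :=
    inv_anti₀ (by positivity) h5
  refine h6.trans ?_
  have h7 : (y / (1 + y))⁻¹ = 1 + 1 / c * L ^ 2 := by
    rw [hy]
    field_simp
    ring
  rw [h7]
  have h8 : 1 ≤ L ^ 2 := by nlinarith
  nlinarith

private theorem Thm2B_ZN (up : Bool) (N : ℕ) (P : LT → Prop) [DecidablePred P] :
    ZN x up N P = (∑ t ∈ LT.all N, if P t then t.w x up else 0) * yc x ^ N := by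
  unfold ZN
  congr 1
  refine Finset.sum_congr rfl fun t _ => ?_
  by_cases h : P t
  · rw [if_pos h, if_pos h]
  · rw [if_neg h, if_neg h]

open Classical in
/-- the counting argument -/
private theorem Thm2B_count (h0 : 0 < x) (h1 : x < 1) : ∃ K : ℝ, 0 < K ∧ ∀ (up : Bool) (N L : ℕ),
    1 ≤ N → 1 ≤ L → ZN x up N (fun t => t.rng ≤ L) ≤ K * (L : ℝ) ^ 2 / (N : ℝ) ^ 2 := by
  obtain ⟨K1, hK1, hloc⟩ := kks_av_local h0 h1
  obtain ⟨c, K2, hc, hK2, hstrip⟩ := walk_strip (alc_pos h0 h1) (bec_pos h0 h1) (alc_bec h0 h1)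
  refine ⟨K1 * K2 * (1 + 1 / c), by positivity, fun up N L hN hL => ?_⟩
  have hN0 : (0 : ℝ) < N := by exact_mod_cast hN
  have hy := yc_pos h0 h1
  have hw : ∀ t : LT, 0 ≤ t.w x up := fun t => by
    unfold LT.w
    positivity
  -- the pointwise bound
  have h2 : ∀ t ∈ LT.all N, ((N : ℝ) + 1) * (if t.rng ≤ L then t.w x up else 0) ≤
      ∑ h ∈ range (N + 1), ∑ p ∈ paths h, if Strip L p then
        t.w x up * ((LT.occ p t).map (fun _ => (1 : ℝ))).sum else 0 := by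
    intro t ht
    have hsum : ∀ p : List SignType, ((LT.occ p t).map (fun _ => (1 : ℝ))).sum =
        ((LT.occ p t).length : ℝ) := by
      intro p
      simp
    split_ifs with hr
    · have h3 := LT.occ_count t (N + 1) (by rw [LT.mem_all.1 ht]; omega)
      rw [LT.mem_all.1 ht] at h3
      have h4 : ((N : ℝ) + 1) = ∑ h ∈ range (N + 1), ∑ p ∈ paths h, ((LT.occ p t).length : ℝ) := by
        exact_mod_cast h3.symm
      rw [h4, Finset.sum_mul]
      refine Finset.sum_le_sum fun h _ => ?_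
      rw [Finset.sum_mul]
      refine Finset.sum_le_sum fun p _ => ?_
      rw [hsum]
      by_cases h5 : LT.occ p t = []
      · rw [h5]
        simp
      · rw [if_pos (LT.strip_of_rng hr h5), mul_comm]
    · rw [mul_zero]
      refine Finset.sum_nonneg fun h _ => Finset.sum_nonneg fun p _ => ?_
      split_ifs
      · rw [hsum]
        exact mul_nonneg (hw t) (Nat.cast_nonneg _)
      · exact le_rfl
  -- sum over the trees
  have h3 : ((N : ℝ) + 1) * ZN x up N (fun t => t.rng ≤ L) ≤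
      ∑ h ∈ range (N + 1), ∑ p ∈ paths h, if Strip L p then
        (∑ t ∈ LT.all N, t.w x up * ((LT.occ p t).map (fun _ => (1 : ℝ))).sum) * yc x ^ N else 0 := by
    rw [Thm2B_ZN, ← mul_assoc, Finset.mul_sum]
    calc (∑ t ∈ LT.all N, ((N : ℝ) + 1) * (if t.rng ≤ L then t.w x up else 0)) * yc x ^ N
        ≤ (∑ t ∈ LT.all N, ∑ h ∈ range (N + 1), ∑ p ∈ paths h, if Strip L p then
            t.w x up * ((LT.occ p t).map (fun _ => (1 : ℝ))).sum else 0) * yc x ^ N :=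
          mul_le_mul_of_nonneg_right (Finset.sum_le_sum h2) (by positivity)
      _ = _ := by
          rw [Finset.sum_comm, Finset.sum_mul]
          refine Finset.sum_congr rfl fun h _ => ?_
          rw [Finset.sum_comm, Finset.sum_mul]
          refine Finset.sum_congr rfl fun p _ => ?_
          by_cases hp : Strip L p
          · simp only [if_pos hp]
          · simp only [if_neg hp, Finset.sum_const_zero, zero_mul]
  have h4 : ∀ p : List SignType,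
      (∑ t ∈ LT.all N, t.w x up * ((LT.occ p t).map (fun _ => (1 : ℝ))).sum) * yc x ^ N ≤
        pw x up p * (K1 / N) := by
    intro p
    rw [mark x up p (fun _ => 1) N]
    have h5 : (fun m => (∑ s ∈ LT.all m, s.w x (pst up p) * (fun _ => (1 : ℝ)) s) * yc x ^ m) =
        av x (pst up p) := by
      funext m
      unfold av Xs
      simp
    rw [h5]
    exact hloc up (pst up p) p N hN
  have h5 : ∑ h ∈ range (N + 1), (∑ p ∈ paths h, if Strip L p then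
        (∑ t ∈ LT.all N, t.w x up * ((LT.occ p t).map (fun _ => (1 : ℝ))).sum) * yc x ^ N else 0) ≤
      ∑ h ∈ range (N + 1), K1 / N * (K2 * Real.exp (-c * h / (L : ℝ) ^ 2)) := by
    refine Finset.sum_le_sum fun h _ => ?_
    have h6 : ∑ p ∈ paths h, (if Strip L p then
        (∑ t ∈ LT.all N, t.w x up * ((LT.occ p t).map (fun _ => (1 : ℝ))).sum) * yc x ^ N else 0) ≤
        K1 / N * PW (alc x) (bec x) up h (Strip L) := by
      unfold PW
      rw [Finset.mul_sum]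
      refine Finset.sum_le_sum fun p _ => ?_
      split_ifs
      · refine (h4 p).trans (le_of_eq ?_)
        unfold pw
        ring
      · simp
    refine h6.trans ?_
    exact mul_le_mul_of_nonneg_left (hstrip up L h hL) (by positivity)
  have hL1 : (1 : ℝ) ≤ L := by exact_mod_cast hL
  have h6 : ((N : ℝ) + 1) * ZN x up N (fun t => t.rng ≤ L) ≤
      K1 / N * (K2 * ((1 + 1 / c) * (L : ℝ) ^ 2)) := by
    refine (h3.trans h5).trans ?_
    rw [← Finset.mul_sum, ← Finset.mul_sum]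
    refine mul_le_mul_of_nonneg_left (mul_le_mul_of_nonneg_left ?_ hK2.le) (by positivity)
    exact Thm2B_geom c L hc hL1 (N + 1)
  have hZ : 0 ≤ ZN x up N (fun t => t.rng ≤ L) := by
    rw [Thm2B_ZN]
    refine mul_nonneg (Finset.sum_nonneg fun t _ => ?_) (by positivity)
    split_ifs
    · exact hw t
    · exact le_rfl
  rw [le_div_iff₀ (by positivity)]
  have h7 : ZN x up N (fun t => t.rng ≤ L) * N ≤ K1 / N * (K2 * ((1 + 1 / c) * (L : ℝ) ^ 2)) := by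
    nlinarith
  calc ZN x up N (fun t => t.rng ≤ L) * (N : ℝ) ^ 2
      = ZN x up N (fun t => t.rng ≤ L) * N * N := by ring
    _ ≤ K1 / N * (K2 * ((1 + 1 / c) * (L : ℝ) ^ 2)) * N :=
        mul_le_mul_of_nonneg_right h7 hN0.le
    _ = K1 * K2 * (1 + 1 / c) * (L : ℝ) ^ 2 := by
        field_simp

theorem rng_small (h0 : 0 < x) (h1 : x < 1) (up : Bool) (δ : ℝ) (hδ : 0 < δ) :
    ∃ c : ℝ, 0 < c ∧ ∃ N0 : ℕ, ∀ N : ℕ, N0 ≤ N →
      ZN x up N (fun t => (t.rng : ℝ) ≤ c * (N : ℝ) ^ (1 / 4 : ℝ)) ≤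
        δ * (N : ℝ) ^ (-(3 / 2) : ℝ) := by
  classical
  obtain ⟨K, hK, hcount⟩ := Thm2B_count h0 h1
  set c : ℝ := min 1 (δ / K) with hc
  have hc0 : 0 < c := lt_min one_pos (div_pos hδ hK)
  have hc1 : c ≤ 1 := min_le_left _ _
  have hc2 : c ≤ δ / K := min_le_right _ _
  refine ⟨c, hc0, ⌈(1 / c) ^ 4⌉₊ + 1, fun N hN => ?_⟩
  have hN1 : 1 ≤ N := by omega
  have hN0 : (0 : ℝ) < N := by exact_mod_cast hN1
  have hNc : (1 / c) ^ 4 ≤ (N : ℝ) := by
    have h2 : ((⌈(1 / c) ^ 4⌉₊ : ℕ) : ℝ) ≤ N := by exact_mod_cast (by omega : ⌈(1 / c) ^ 4⌉₊ ≤ N)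
    exact (Nat.le_ceil _).trans h2
  have h2 : 1 ≤ c * (N : ℝ) ^ (1 / 4 : ℝ) := by
    have h3 : ((1 / c) ^ 4 : ℝ) ^ (1 / 4 : ℝ) ≤ (N : ℝ) ^ (1 / 4 : ℝ) :=
      Real.rpow_le_rpow (by positivity) hNc (by norm_num)
    have h4 : ((1 / c) ^ 4 : ℝ) ^ (1 / 4 : ℝ) = 1 / c := by
      rw [← Real.rpow_natCast, ← Real.rpow_mul (by positivity)]
      norm_num
    rw [h4, div_le_iff₀ hc0] at h3
    linarith
  set L : ℕ := ⌊c * (N : ℝ) ^ (1 / 4 : ℝ)⌋₊ with hL
  have hL1 : 1 ≤ L := by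
    rw [hL, Nat.one_le_floor_iff]
    exact h2
  have hL2 : (L : ℝ) ≤ c * (N : ℝ) ^ (1 / 4 : ℝ) := Nat.floor_le (by positivity)
  have h3 : ZN x up N (fun t => (t.rng : ℝ) ≤ c * (N : ℝ) ^ (1 / 4 : ℝ)) =
      ZN x up N (fun t => t.rng ≤ L) := by
    rw [Thm2B_ZN, Thm2B_ZN]
    congr 1
    refine Finset.sum_congr rfl fun t _ => ?_
    have h4 : (t.rng : ℝ) ≤ c * (N : ℝ) ^ (1 / 4 : ℝ) ↔ t.rng ≤ L := by
      rw [hL, Nat.le_floor_iff (by positivity)]
    by_cases h5 : t.rng ≤ L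
    · rw [if_pos h5, if_pos (h4.2 h5)]
    · rw [if_neg h5, if_neg fun h => h5 (h4.1 h)]
  rw [h3]
  refine (hcount up N L hN1 hL1).trans ?_
  have h4 : (L : ℝ) ^ 2 ≤ c ^ 2 * (N : ℝ) ^ (1 / 2 : ℝ) := by
    have h5 : (c * (N : ℝ) ^ (1 / 4 : ℝ)) ^ 2 = c ^ 2 * (N : ℝ) ^ (1 / 2 : ℝ) := by
      rw [mul_pow, ← Real.rpow_natCast ((N : ℝ) ^ (1 / 4 : ℝ)), ← Real.rpow_mul hN0.le]
      norm_num
    rw [← h5]
    exact pow_le_pow_left₀ (Nat.cast_nonneg _) hL2 2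
  have h5 : K * c ^ 2 ≤ δ := by
    have h6 : c ^ 2 ≤ δ / K := by nlinarith
    rw [le_div_iff₀ hK] at h6
    linarith
  have h6 : (N : ℝ) ^ (1 / 2 : ℝ) / (N : ℝ) ^ 2 = (N : ℝ) ^ (-(3 / 2) : ℝ) := by
    rw [← Real.rpow_natCast (N : ℝ) 2, ← Real.rpow_sub hN0]
    norm_num
  calc K * (L : ℝ) ^ 2 / (N : ℝ) ^ 2 ≤ K * (c ^ 2 * (N : ℝ) ^ (1 / 2 : ℝ)) / (N : ℝ) ^ 2 := by
        gcongr
    _ = K * c ^ 2 * ((N : ℝ) ^ (1 / 2 : ℝ) / (N : ℝ) ^ 2) := by ring
    _ ≤ δ * ((N : ℝ) ^ (1 / 2 : ℝ) / (N : ℝ) ^ 2) :=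
        mul_le_mul_of_nonneg_right h5 (by positivity)
    _ = δ * (N : ℝ) ^ (-(3 / 2) : ℝ) := by rw [h6]

end Dia
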