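import Pool.Agent.Dia.TForest
import Pool.Agent.Dia.TOcc
import Pool.Agent.Dia.WStat

/-!
# Module Thm2C: ranges much larger than N^(1/4) are extremely rare

`L = ⌊N^(1/4+e)/2⌋` (`≥ 1`, `L ≥ N^(1/4+e)/4` for large `N`).  If `rng t ≥ N^(1/4+e) ≥ 2L` then some occurring path
`p` (`p.length ≤ t.ht ≤ N`) has `|psum p| ≥ L` (`far_of_rng`, `mem_labels`, `occ_length`).  So with `mark`, `f = 1`:
 `ZN ≤ sum_{h ≤ N} sum_{p ∈ paths h, L ≤ |psum p|} cv (cvL (kks x up p)) (av x (pst up p)) N`.
For `h ≤ N^(1/2+e)`: each convolution is at most `pw * K` (`kks_av_local`), and the sum over `p` is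
`≤ K exp(-c L^2/h) ≤ K exp(-c N^e/16)` (`walk_dev`; `h = 0` does not occur since `L ≥ 1`).
For `h > N^(1/2+e)`: `kks_av_small` gives `pw * K exp(-c h N^(-1/2)) ≤ pw * K exp(-c N^e)` and
`sum pw ≤ K` (`walk_total`).  So `ZN ≤ (N+1) K'' exp(-c'' N^e) ≤ exp(-N^(e/2))` for large `N`.
-/

set_option linter.unusedSectionVars false

namespace Dia
open Finset Pool.Agent.DiamP

variable {x : ℝ}

private theorem kapg_pos' (h0 : 0 < x) (h1 : x < 1) (u : Bool) (d : SignType) :
    0 < kapg (alc x) (bec x) u d := by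
  have ha := alc_pos h0 h1
  have hb := bec_pos h0 h1
  unfold kapg
  split_ifs <;> linarith

private theorem pw_pos' (h0 : 0 < x) (h1 : x < 1) : ∀ (p : List SignType) (u : Bool),
    0 < pw x u p := by
  intro p
  induction p with
  | nil => intro u; simp [pw, pwg]
  | cons d p ih =>
    intro u
    have h2 := ih (decide (d = -1))
    unfold pw at h2 ⊢
    rw [pwg]
    exact mul_pos (kapg_pos' h0 h1 u d) h2

/-- the sum over the paths -/
private theorem ZN_le_sum (h0 : 0 < x) (h1 : x < 1) (up : Bool) (N L : ℕ) (P : LT → Prop)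
    (hP : ∀ t : LT, t.size = N → P t → 2 * L ≤ t.rng) :
    ZN x up N P ≤ ∑ h ∈ range (N + 1), ∑ p ∈ paths h,
      if (L : ℤ) ≤ |psum p| then cv (cvL (kks x up p)) (av x (pst up p)) N else 0 := by
  classical
  have hy := yc_pos h0 h1
  have key : ∀ p : List SignType, cv (cvL (kks x up p)) (av x (pst up p)) N =
      (∑ t ∈ LT.all N, t.w x up * ((LT.occ p t).length : ℝ)) * yc x ^ N := by
    intro p
    have := mark x up p (fun _ => 1) N
    simp only [mul_one] at this
    have h2 : (fun m => (∑ s ∈ LT.all m, s.w x (pst up p)) * yc x ^ m) = av x (pst up p) := by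
      funext m
      rfl
    rw [h2] at this
    rw [← this]
    congr 1
    refine sum_congr rfl fun t _ => ?_
    congr 1
    simp
  have hind : ∀ t ∈ LT.all N, (if P t then t.w x up else 0) ≤
      ∑ h ∈ range (N + 1), ∑ p ∈ paths h,
        if (L : ℤ) ≤ |psum p| then t.w x up * ((LT.occ p t).length : ℝ) else 0 := by
    intro t ht
    have hw : 0 ≤ t.w x up := by unfold LT.w; positivity
    have hnn : ∀ h : ℕ, ∀ p : List SignType,
        0 ≤ (if (L : ℤ) ≤ |psum p| then t.w x up * ((LT.occ p t).length : ℝ) else 0) := by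
      intro h p
      split_ifs
      · positivity
      · exact le_rfl
    split_ifs with hPt
    · have hs := LT.mem_all.1 ht
      obtain ⟨z, hz, hzL⟩ := LT.far_of_rng (hP t hs hPt)
      obtain ⟨p, hpz, hocc⟩ := LT.mem_labels.1 hz
      have hlen : p.length ≤ N := by
        have := LT.occ_length hocc
        have := t.ht_le_size
        omega
      have hl1 : (1 : ℝ) ≤ ((LT.occ p t).length : ℝ) := by
        have : 1 ≤ (LT.occ p t).length := by
          rw [Nat.one_le_iff_ne_zero]
          simpa using hocc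
        exact_mod_cast this
      have e1 : t.w x up ≤
          (if (L : ℤ) ≤ |psum p| then t.w x up * ((LT.occ p t).length : ℝ) else 0) := by
        rw [if_pos (by rw [hpz]; exact hzL)]
        nlinarith
      refine e1.trans ?_
      have e2 : (if (L : ℤ) ≤ |psum p| then t.w x up * ((LT.occ p t).length : ℝ) else 0) ≤
          ∑ q ∈ paths p.length,
            if (L : ℤ) ≤ |psum q| then t.w x up * ((LT.occ q t).length : ℝ) else 0 :=
        single_le_sum (f := fun q => if (L : ℤ) ≤ |psum q| then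
          t.w x up * ((LT.occ q t).length : ℝ) else 0) (fun q _ => hnn 0 q)
          (mem_paths.2 rfl)
      refine e2.trans ?_
      exact single_le_sum (f := fun h => ∑ q ∈ paths h,
        if (L : ℤ) ≤ |psum q| then t.w x up * ((LT.occ q t).length : ℝ) else 0)
        (fun h _ => sum_nonneg fun q _ => hnn 0 q) (mem_range.2 (by omega))
    · exact sum_nonneg fun h _ => sum_nonneg fun q _ => hnn h q
  unfold ZN
  calc (∑ t ∈ LT.all N, if P t then t.w x up else 0) * yc x ^ N
      ≤ (∑ t ∈ LT.all N, ∑ h ∈ range (N + 1), ∑ p ∈ paths h,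
        if (L : ℤ) ≤ |psum p| then t.w x up * ((LT.occ p t).length : ℝ) else 0) * yc x ^ N :=
        mul_le_mul_of_nonneg_right (sum_le_sum hind) (by positivity)
    _ = ∑ h ∈ range (N + 1), ∑ p ∈ paths h,
      if (L : ℤ) ≤ |psum p| then cv (cvL (kks x up p)) (av x (pst up p)) N else 0 := by
        rw [sum_comm, Finset.sum_mul]
        refine sum_congr rfl fun h _ => ?_
        rw [sum_comm, Finset.sum_mul]
        refine sum_congr rfl fun p _ => ?_
        by_cases hp : (L : ℤ) ≤ |psum p|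
        · simp only [if_pos hp]
          rw [key p]
        · simp only [if_neg hp]
          simp

/-- the growth comparison -/
private theorem growth (c K : ℝ) (hc : 0 < c) (hK : 0 < K) (e : ℝ) (he : 0 < e) :
    ∃ N0 : ℕ, ∀ N : ℕ, N0 ≤ N → 4 ≤ (N : ℝ) ^ (1 / 4 + e) ∧
      ((N + 1 : ℕ) : ℝ) * (K * Real.exp (-(c * (N : ℝ) ^ e))) ≤ Real.exp (-(N : ℝ) ^ (e / 2)) := by
  have t1 : Filter.Tendsto (fun N : ℕ => (N : ℝ) ^ (1 / 4 + e)) Filter.atTop Filter.atTop :=
    (tendsto_rpow_atTop (by linarith)).comp tendsto_natCast_atTop_atTop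
  have t2 : Filter.Tendsto (fun N : ℕ => (N : ℝ) ^ (e / 2)) Filter.atTop Filter.atTop :=
    (tendsto_rpow_atTop (by linarith)).comp tendsto_natCast_atTop_atTop
  have t3 : ∀ᶠ N : ℕ in Filter.atTop, ‖Real.log (N : ℝ)‖ ≤ 1 * ‖(N : ℝ) ^ (e / 2)‖ := by
    have := (isLittleO_log_rpow_atTop (r := e / 2) (by linarith)).bound (c := 1) one_pos
    exact tendsto_natCast_atTop_atTop.eventually this
  have t4 : ∀ᶠ N : ℕ in Filter.atTop, 4 ≤ (N : ℝ) ^ (1 / 4 + e) := t1.eventually_ge_atTop 4
  have t5 : ∀ᶠ N : ℕ in Filter.atTop, (3 + |Real.log K|) / c + 1 ≤ (N : ℝ) ^ (e / 2) :=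
    t2.eventually_ge_atTop _
  have t6 : ∀ᶠ N : ℕ in Filter.atTop, 1 ≤ N := Filter.eventually_ge_atTop 1
  obtain ⟨N0, hN0⟩ := Filter.eventually_atTop.1 (t3.and (t4.and (t5.and t6)))
  refine ⟨N0, fun N hN => ?_⟩
  obtain ⟨a1, a2, a3, a4⟩ := hN0 N hN
  refine ⟨a2, ?_⟩
  have hN' : (1 : ℝ) ≤ N := by exact_mod_cast a4
  have hN0' : (0 : ℝ) < N := by linarith
  set y : ℝ := (N : ℝ) ^ (e / 2) with hy
  have hyy : (N : ℝ) ^ e = y * y := by
    rw [hy, ← Real.rpow_add hN0']; congr 1; ring
  have hy0 : 0 < y := by rw [hy]; positivity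
  have hlog : Real.log N ≤ y := by
    rw [one_mul, Real.norm_of_nonneg (Real.log_nonneg hN'), Real.norm_of_nonneg hy0.le] at a1
    exact a1
  have hB : 0 ≤ (3 + |Real.log K|) / c := by positivity
  have hy1 : 1 ≤ y := by linarith
  have hcy : 3 + |Real.log K| ≤ c * y := by
    have : (3 + |Real.log K|) / c ≤ y := by linarith
    rw [div_le_iff₀ hc] at this
    linarith
  have hN2 : ((N + 1 : ℕ) : ℝ) ≤ Real.exp (2 * y) := by
    have e1 : (N : ℝ) ≤ Real.exp y := by
      rw [← Real.log_le_iff_le_exp hN0']; exact hlog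
    have e2 : (1 : ℝ) + y ≤ Real.exp y := by linarith [Real.add_one_le_exp y]
    rw [two_mul, Real.exp_add]
    push_cast
    nlinarith [Real.exp_pos y]
  have hKe : K ≤ Real.exp (|Real.log K|) := by
    calc K = Real.exp (Real.log K) := (Real.exp_log hK).symm
      _ ≤ _ := Real.exp_le_exp.2 (le_abs_self _)
  calc ((N + 1 : ℕ) : ℝ) * (K * Real.exp (-(c * (N : ℝ) ^ e)))
      ≤ Real.exp (2 * y) * (Real.exp (|Real.log K|) * Real.exp (-(c * (N : ℝ) ^ e))) := by
        refine mul_le_mul hN2 (mul_le_mul_of_nonneg_right hKe (Real.exp_pos _).le) ?_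
          (Real.exp_pos _).le
        positivity
    _ = Real.exp (2 * y + |Real.log K| - c * (y * y)) := by
        rw [← Real.exp_add, ← Real.exp_add, hyy]; congr 1; ring
    _ ≤ Real.exp (-y) := by
        rw [Real.exp_le_exp]
        nlinarith [mul_le_mul_of_nonneg_right hcy hy0.le, abs_nonneg (Real.log K)]

theorem rng_huge (h0 : 0 < x) (h1 : x < 1) (up : Bool) (e : ℝ) (he : 0 < e) :
    ∃ c : ℝ, 0 < c ∧ ∃ N0 : ℕ, ∀ N : ℕ, N0 ≤ N →
      ZN x up N (fun t => (N : ℝ) ^ (1 / 4 + e) ≤ t.rng) ≤ Real.exp (-(N : ℝ) ^ c) := by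
  classical
  have ha := alc_pos h0 h1
  have hb := bec_pos h0 h1
  have hab := alc_bec h0 h1
  obtain ⟨K1, hK1, H1⟩ := kks_av_local h0 h1
  obtain ⟨c2, K2, hc2, hK2, H2⟩ := walk_dev ha hb hab
  obtain ⟨c3, K3, hc3, hK3, H3⟩ := kks_av_small h0 h1
  obtain ⟨K4, H4⟩ := walk_total ha hb hab
  have hK4 : 0 < max K4 1 := lt_max_of_lt_right one_pos
  set K : ℝ := K1 * K2 + K3 * max K4 1 with hK
  have hKp : 0 < K := by positivity
  set c : ℝ := min (c2 / 16) c3 with hc
  have hcp : 0 < c := lt_min (by positivity) hc3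
  obtain ⟨N0, hN0⟩ := growth c K hcp hKp e he
  refine ⟨e / 2, by linarith, N0 + 1, fun N hN => ?_⟩
  obtain ⟨g1, g2⟩ := hN0 N (by omega)
  refine le_trans ?_ g2
  have hN1 : 1 ≤ N := by omega
  have hN' : (0 : ℝ) < N := by exact_mod_cast hN1
  set Y : ℝ := (N : ℝ) ^ (1 / 4 + e) with hY
  set L : ℕ := ⌊Y / 2⌋₊ with hL
  have hL1 : Y / 4 ≤ L := by
    have := Nat.lt_floor_add_one (Y / 2)
    rw [← hL] at this
    linarith
  have hL2 : 1 ≤ L := by
    have : (1 : ℝ) ≤ L := by linarith
    exact_mod_cast this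
  have hL3 : (2 * L : ℝ) ≤ Y := by
    have : (L : ℝ) ≤ Y / 2 := Nat.floor_le (by linarith)
    linarith
  refine (ZN_le_sum h0 h1 up N L _ fun t _ hPt => ?_).trans ?_
  · have : (2 * L : ℝ) ≤ t.rng := hL3.trans hPt
    exact_mod_cast this
  rw [← Finset.card_range (N + 1), ← nsmul_eq_mul, ← Finset.sum_const]
  simp only [Finset.card_range]
  refine sum_le_sum fun h hh => ?_
  have hhN : h ≤ N := by have := mem_range.1 hh; omega
  have hexp0 := Real.exp_pos (-(c * (N : ℝ) ^ e))
  by_cases hcase : (h : ℝ) ≤ (N : ℝ) ^ (1 / 2 + e)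
  · -- small heights
    have s1 : ∑ p ∈ paths h, (if (L : ℤ) ≤ |psum p| then
        cv (cvL (kks x up p)) (av x (pst up p)) N else 0) ≤
        K1 * PW (alc x) (bec x) up h (fun p => (L : ℤ) ≤ |psum p|) := by
      unfold PW
      rw [Finset.mul_sum]
      refine sum_le_sum fun p _ => ?_
      by_cases hp : (L : ℤ) ≤ |psum p|
      · rw [if_pos hp, if_pos hp]
        refine (H1 up (pst up p) p N hN1).trans ?_
        have hpw := pw_pos' h0 h1 p up
        change pw x up p * (K1 / N) ≤ K1 * pw x up p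
        rw [mul_comm]
        refine mul_le_mul_of_nonneg_right ?_ hpw.le
        exact div_le_self hK1.le (by exact_mod_cast hN1)
      · rw [if_neg hp, if_neg hp, mul_zero]
    refine s1.trans ?_
    rcases Nat.eq_zero_or_pos h with rfl | hpos
    · have : PW (alc x) (bec x) up 0 (fun p => (L : ℤ) ≤ |psum p|) = 0 := by
        unfold PW
        refine sum_eq_zero fun p hp => ?_
        have hp' : p.length = 0 := mem_paths.1 hp
        have hp2 : p = [] := List.length_eq_zero_iff.1 hp'
        rw [if_neg]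
        rw [hp2]
        simp [psum]
        omega
      rw [this, mul_zero]
      positivity
    · have s2 := H2 up L h hpos
      have hh' : (0 : ℝ) < h := by exact_mod_cast hpos
      have s3 : (N : ℝ) ^ e / 16 ≤ (L : ℝ) ^ 2 / h := by
        rw [div_le_div_iff₀ (by norm_num) hh']
        have q1 : (Y / 4) ^ 2 ≤ (L : ℝ) ^ 2 := pow_le_pow_left₀ (by linarith) hL1 2
        have q2 : Y ^ 2 = (N : ℝ) ^ (1 / 2 + e) * (N : ℝ) ^ e := by
          rw [hY, ← Real.rpow_natCast, ← Real.rpow_mul hN'.le, ← Real.rpow_add hN']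
          congr 1
          push_cast
          ring
        have q3 : (N : ℝ) ^ e * h ≤ Y ^ 2 := by
          rw [q2, mul_comm]
          exact mul_le_mul_of_nonneg_right hcase (by positivity)
        nlinarith
      have s4 : Real.exp (-c2 * (L : ℝ) ^ 2 / h) ≤ Real.exp (-(c * (N : ℝ) ^ e)) := by
        rw [Real.exp_le_exp]
        have r1 : c * (N : ℝ) ^ e ≤ c2 / 16 * (N : ℝ) ^ e :=
          mul_le_mul_of_nonneg_right (min_le_left _ _) (by positivity)
        have r2 : c2 * ((N : ℝ) ^ e / 16) ≤ c2 * ((L : ℝ) ^ 2 / h) :=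
          mul_le_mul_of_nonneg_left s3 hc2.le
        have r3 : -c2 * (L : ℝ) ^ 2 / h = -(c2 * ((L : ℝ) ^ 2 / h)) := by ring
        rw [r3]
        linarith
      calc K1 * PW (alc x) (bec x) up h (fun p => (L : ℤ) ≤ |psum p|)
          ≤ K1 * (K2 * Real.exp (-(c * (N : ℝ) ^ e))) :=
            mul_le_mul_of_nonneg_left
              (s2.trans (mul_le_mul_of_nonneg_left s4 hK2.le)) hK1.le
        _ ≤ K * Real.exp (-(c * (N : ℝ) ^ e)) := by
            rw [← mul_assoc]
            refine mul_le_mul_of_nonneg_right ?_ hexp0.le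
            rw [hK]
            have : 0 < K3 * max K4 1 := by positivity
            linarith
  · -- large heights
    push Not at hcase
    have s1 : ∑ p ∈ paths h, (if (L : ℤ) ≤ |psum p| then
        cv (cvL (kks x up p)) (av x (pst up p)) N else 0) ≤
        K3 * Real.exp (-(c * (N : ℝ) ^ e)) * PW (alc x) (bec x) up h (fun _ => True) := by
      unfold PW
      rw [Finset.mul_sum]
      refine sum_le_sum fun p hp => ?_
      have hpl : p.length = h := mem_paths.1 hp
      have hpw := pw_pos' h0 h1 p up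
      rw [if_pos trivial]
      split_ifs with hp2
      · refine (H3 up (pst up p) p N hN1).trans ?_
        change _ ≤ K3 * Real.exp (-(c * (N : ℝ) ^ e)) * pw x up p
        rw [mul_comm]
        refine mul_le_mul_of_nonneg_right ?_ hpw.le
        refine mul_le_mul_of_nonneg_left ?_ hK3.le
        rw [Real.exp_le_exp, neg_le_neg_iff, hpl]
        have r1 : c * (N : ℝ) ^ e ≤ c3 * (N : ℝ) ^ e :=
          mul_le_mul_of_nonneg_right (min_le_right _ _) (by positivity)
        have r2 : (N : ℝ) ^ e ≤ h * (N : ℝ) ^ (-(1 / 2) : ℝ) := by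
          have : (N : ℝ) ^ e = (N : ℝ) ^ (1 / 2 + e) * (N : ℝ) ^ (-(1 / 2) : ℝ) := by
            rw [← Real.rpow_add hN']; congr 1; ring
          rw [this]
          exact mul_le_mul_of_nonneg_right hcase.le (by positivity)
        calc c * (N : ℝ) ^ e ≤ c3 * (N : ℝ) ^ e := r1
          _ ≤ c3 * (h * (N : ℝ) ^ (-(1 / 2) : ℝ)) := mul_le_mul_of_nonneg_left r2 hc3.le
          _ = _ := by ring
      · change 0 ≤ K3 * Real.exp (-(c * (N : ℝ) ^ e)) * pw x up p
        positivity
    refine s1.trans ?_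
    have s2 : PW (alc x) (bec x) up h (fun _ => True) ≤ max K4 1 := (H4 up h).trans (le_max_left _ _)
    calc K3 * Real.exp (-(c * (N : ℝ) ^ e)) * PW (alc x) (bec x) up h (fun _ => True)
        ≤ K3 * Real.exp (-(c * (N : ℝ) ^ e)) * max K4 1 :=
          mul_le_mul_of_nonneg_left s2 (by positivity)
      _ = K3 * max K4 1 * Real.exp (-(c * (N : ℝ) ^ e)) := by ring
      _ ≤ K * Real.exp (-(c * (N : ℝ) ^ e)) := by
          refine mul_le_mul_of_nonneg_right ?_ hexp0.le
          rw [hK]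
          have : 0 < K1 * K2 := by positivity
          linarith

end Dia
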