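import Pool.Agent.Dia.Crit
import Pool.Agent.DiaC.Bridge
import Pool.Agent.DiaC.DiamB
import Pool.Agent.DiaC.DiamS

/-!
# Module TauG: the weights `tauG` of the rigid maps at the point `(R0, D0)`

`x = R0` satisfies the hypotheses of chapters 3 - 5 (`R0_range`), `D0 = ecr (vc R0)` (`crit_point`).

`tauG_eq`: `g_sum` with `F v e' = if e' = e then ofReal (R0^v D0^e) else 0`, and `gP_zero` (`gP P v e = 0` unless
`v ≤ e`); `gP` is a natural number.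
`gdm_le`: `gdm c` is the supremum of the distances in `(bR c.rep.1).G`, which is `vG c.rep.1.aa c.rep.1.s` (both are
`SimpleGraph.fromRel` of the same relation; `RM.vx` and `vx` are both `Quotient.mk`).
The other statements are those of `DiaC/Bridge`, `DiaC/DiamB`, `DiaC/DiamS` in terms of `tauG`; the windows in
`tauS` are sums over all `e` in the window, so they bound the sum over every finite set `J` contained in the
window (`tauS_fin`); `2/3 - 5/2 = -11/6`.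
`tg_sum`: `∑ tauG PGT e ≤ D0` over every finite set: `Rg_gP`, and `Rg (ofReal R0) (ofReal D0) ≤ D0`: for example from
`sum_b`, `planar_low`, `bN_le_qN`; or from `Rg_top`-type values: `rig_le` in PGc; or simply `∑ < ∞` from the windows.
(only finiteness is needed: the statement is with some constant.)
-/

set_option linter.unusedSectionVars false

namespace Dia
open Finset PGr Pool.Agent.DiamP
open scoped ENNReal Classical

/-- window bound for a sequence, for the windows which begin between `a` and `b` -/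
def WinB (δ a b : ℝ) (t : ℕ → ℝ) : Prop := ∀ N : ℕ, 1 ≤ N → a ≤ N → (N : ℝ) ≤ b → ∀ J : Finset ℕ,
  (∀ e ∈ J, N ≤ e ∧ (e : ℝ) ≤ N + (N : ℝ) ^ (2 / 3 : ℝ)) →
    ∑ e ∈ J, t e ≤ δ * (N : ℝ) ^ (-(11 / 6) : ℝ)

/-- diameter at least `D` -/
def PBig (D : ℝ) : PG0 := fun _ G => ∃ x y, D ≤ (G.dist x y : ℝ)

/-- diameter at most `D` -/
def PSmall (D : ℝ) : PG0 := fun _ G => ∀ x y, (G.dist x y : ℝ) ≤ D

/-- the number of vertices of a core is about `alG` times the number of edges -/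
noncomputable def alG : ℝ := alpha (vc R0)

private theorem TauG_R0 : 0 < R0 := by linarith [R0_range.1]

private theorem TauG_R1 : R0 ≤ 1 / 10 := by linarith [R0_range.2]

private theorem TauG_D0 : 0 < D0 := by linarith [D0_range.1]

private theorem TauG_key (P : PG2) (A : ℕ → Prop) (e : ℕ) :
    ENNReal.ofReal (∑ v ∈ range (e + 1), (if A v then gP P v e * R0 ^ v * D0 ^ e else 0)) =
    tauS R0 (fun c => gE c = e ∧ A (nV c.rep.1.s - 2) ∧ P _ (vG c.rep.1.aa c.rep.1.s)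
      (vx c.rep.1.s (Sum.inr false)) (vx c.rep.1.s (Sum.inr true))) := by
  have hR := TauG_R0
  have hD := TauG_D0
  have h1 := g_sum P (fun v e' => if e' = e ∧ A v then ENNReal.ofReal (R0 ^ v * D0 ^ e) else 0)
  have hL : tauS R0 (fun c => gE c = e ∧ A (nV c.rep.1.s - 2) ∧ P _ (vG c.rep.1.aa c.rep.1.s)
      (vx c.rep.1.s (Sum.inr false)) (vx c.rep.1.s (Sum.inr true))) =
      ∑' c : GC, (if Rigid c.rep.1 ∧ P _ (vG c.rep.1.aa c.rep.1.s) (vx c.rep.1.s (Sum.inr false))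
        (vx c.rep.1.s (Sum.inr true)) then
        (if Fintype.card c.rep.1.D / 2 = e ∧ A (nV c.rep.1.s - 2) then
          ENNReal.ofReal (R0 ^ (nV c.rep.1.s - 2) * D0 ^ e) else 0) else 0) := by
    unfold tauS
    refine tsum_congr fun c => ?_
    rw [crit_point.2.2.2]
    by_cases hRP : Rigid c.rep.1 ∧ P _ (vG c.rep.1.aa c.rep.1.s) (vx c.rep.1.s (Sum.inr false))
        (vx c.rep.1.s (Sum.inr true))
    · rw [if_pos hRP]
      by_cases h2 : Fintype.card c.rep.1.D / 2 = e ∧ A (nV c.rep.1.s - 2)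
      · have h3 : gE c = e := h2.1
        rw [if_pos ⟨hRP.1, h3, h2.2, hRP.2⟩, if_pos h2, h3]
      · rw [if_neg (fun h => h2 ⟨h.2.1, h.2.2.1⟩), if_neg h2]
    · rw [if_neg hRP, if_neg (fun h => hRP ⟨h.1, h.2.2.2⟩)]
  rw [hL, h1]
  have h2 : ∀ v : ℕ, (∑' e' : ℕ, ENNReal.ofReal (gP P v e') *
      (if e' = e ∧ A v then ENNReal.ofReal (R0 ^ v * D0 ^ e) else 0)) =
      if A v then ENNReal.ofReal (gP P v e * R0 ^ v * D0 ^ e) else 0 := by
    intro v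
    rw [tsum_eq_single e]
    · by_cases hA : A v
      · rw [if_pos ⟨rfl, hA⟩, if_pos hA, ← ENNReal.ofReal_mul (gP_nonneg P v e), mul_assoc]
      · rw [if_neg (fun h => hA h.2), if_neg hA, mul_zero]
    · intro e' he'
      rw [if_neg (fun h => he' h.1), mul_zero]
  rw [tsum_congr h2]
  have h3 : ∀ v, 0 ≤ (if A v then gP P v e * R0 ^ v * D0 ^ e else 0) := by
    intro v
    split_ifs
    · exact mul_nonneg (mul_nonneg (gP_nonneg P v e) (pow_nonneg hR.le _)) (pow_nonneg hD.le _)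
    · exact le_rfl
  rw [ENNReal.ofReal_sum_of_nonneg fun v _ => h3 v, tsum_eq_sum (s := range (e + 1))]
  · refine sum_congr rfl fun v _ => ?_
    by_cases hA : A v
    · rw [if_pos hA, if_pos hA]
    · rw [if_neg hA, if_neg hA, ENNReal.ofReal_zero]
  · intro v hv
    rw [mem_range, not_lt] at hv
    have h4 : gP P v e = 0 := by
      by_contra h5
      have := gP_zero P h5
      omega
    rw [h4, zero_mul, zero_mul, ENNReal.ofReal_zero, ite_self]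

theorem tauG_eq (P : PG2) (e : ℕ) : ENNReal.ofReal (tauG P e) =
    tauS R0 (fun c => gE c = e ∧ P _ (vG c.rep.1.aa c.rep.1.s) (vx c.rep.1.s (Sum.inr false))
      (vx c.rep.1.s (Sum.inr true))) := by
  have h := TauG_key P (fun _ => True) e
  simp only [if_true, true_and] at h
  exact h

theorem tauG_nonneg (P : PG2) (e : ℕ) : 0 ≤ tauG P e := by
  exact sum_nonneg fun v _ => mul_nonneg (mul_nonneg (gP_nonneg P v e)
    (pow_nonneg TauG_R0.le _)) (pow_nonneg TauG_D0.le _)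

theorem tauG_mono {P Q : PG2} (h : ∀ V G x y, P V G x y → Q V G x y) (e : ℕ) :
    tauG P e ≤ tauG Q e := by
  exact sum_le_sum fun v _ => mul_le_mul_of_nonneg_right
    (mul_le_mul_of_nonneg_right (gP_mono h v e) (pow_nonneg TauG_R0.le _)) (pow_nonneg TauG_D0.le _)

theorem gdm_le (c : GC) (D : ℕ) : gdm c ≤ D ↔
    ∀ x y, (vG c.rep.1.aa c.rep.1.s).dist x y ≤ D := by
  constructor
  · intro h x y
    have h1 : (bR c.rep.1).ecc x ≤ gdm c := ecc_le_dm (M := bR c.rep.1) x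
    have h2 : (bR c.rep.1).G.dist x y ≤ (bR c.rep.1).ecc x :=
      Finset.le_sup (s := (univ : Finset (bR c.rep.1).V))
        (f := fun u => (bR c.rep.1).G.dist x u) (Finset.mem_univ (α := (bR c.rep.1).V) y)
    exact (h2.trans h1).trans h
  · intro h
    obtain ⟨t, t', ht⟩ := exists_dm (bR c.rep.1)
    have h1 : gdm c = (bR c.rep.1).dd t t' := ht.symm
    rw [h1]
    exact h ((bR c.rep.1).vx t) ((bR c.rep.1).vx t')

private theorem TauG_sum (J : Finset ℕ) (P : PG2) : ENNReal.ofReal (∑ e ∈ J, tauG P e) =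
    tauS R0 (fun c => gE c ∈ J ∧ P _ (vG c.rep.1.aa c.rep.1.s) (vx c.rep.1.s (Sum.inr false))
      (vx c.rep.1.s (Sum.inr true))) := by
  rw [ENNReal.ofReal_sum_of_nonneg fun e _ => tauG_nonneg P e, tauS_fin]
  exact sum_congr rfl fun e _ => tauG_eq P e

private theorem TauG_R (e : ℕ) : tauG PGT e = rhoS R0 e * ecr (vc R0) ^ e := by
  have h1 : ENNReal.ofReal (tauG PGT e) = ENNReal.ofReal (rhoS R0 e * ecr (vc R0) ^ e) := by
    rw [tauG_eq, ← tauS_E TauG_R0 (by linarith [TauG_R1]) e]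
    exact le_antisymm (tauS_mono fun c _ h => h.1) (tauS_mono fun c _ h => ⟨h, trivial⟩)
  refine (ENNReal.ofReal_eq_ofReal_iff (tauG_nonneg _ _) ?_).1 h1
  rw [crit_point.2.2.2]
  exact mul_nonneg (rhoS_nonneg _ _) (pow_nonneg TauG_D0.le _)

private theorem TauG_exp : (-(11 / 6) : ℝ) = 2 / 3 - 5 / 2 := by norm_num

/-- comparison of a window with a weight -/
private theorem TauG_win {P : PG2} {Q : GC → Prop} {J : Finset ℕ} {B : ℝ} (hB : 0 ≤ B)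
    (h : tauS R0 Q ≤ ENNReal.ofReal B)
    (hQ : ∀ c, Rigid c.rep.1 → gE c ∈ J → P _ (vG c.rep.1.aa c.rep.1.s)
      (vx c.rep.1.s (Sum.inr false)) (vx c.rep.1.s (Sum.inr true)) → Q c) :
    ∑ e ∈ J, tauG P e ≤ B := by
  rw [← ENNReal.ofReal_le_ofReal_iff hB, TauG_sum]
  exact (tauS_mono fun c hc h' => hQ c hc h'.1 h'.2).trans h

theorem tg_up : ∃ C : ℝ, 0 < C ∧ ∀ b : ℝ, WinB C 1 b (tauG PGT) := by
  obtain ⟨A, c', C, hA, hc', hC, hlow, hup⟩ := chap4 R0_range.1 R0_range.2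
  refine ⟨C, hC, fun b N hN _ _ J hJ => ?_⟩
  rw [sum_congr rfl fun e _ => TauG_R e]
  exact hup N hN J hJ

theorem tg_low : ∃ μ A c : ℝ, 0 < μ ∧ 0 < A ∧ 0 < c ∧ ∃ n0 : ℕ, ∀ n : ℕ, n0 ≤ n →
    ∃ J : Finset ℕ, (∀ e ∈ J, |μ * e - n| ≤ A * (n : ℝ) ^ (2 / 3 : ℝ)) ∧
      c * (n : ℝ) ^ (-(11 / 6) : ℝ) ≤ ∑ e ∈ J, tauG PGT e := by
  obtain ⟨A, c', C, hA, hc', hC, ⟨n0, hlow⟩, hup⟩ := chap4 R0_range.1 R0_range.2
  have hmu := yMu_ge TauG_R0 TauG_R1
  refine ⟨yMu R0, A, c', by linarith, hA, hc', n0, fun n hn =>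
    ⟨(range (n + 1)).filter (fun j : ℕ => |yMu R0 * j - n| ≤ A * (n : ℝ) ^ (2 / 3 : ℝ)),
      fun e he => (mem_filter.1 he).2, ?_⟩⟩
  rw [sum_congr rfl fun e _ => TauG_R e]
  exact hlow n hn

theorem tg_big (δ : ℝ) (hδ : 0 < δ) : ∃ C : ℝ, 0 < C ∧ ∀ n : ℕ, 1 ≤ n → ∀ J : Finset ℕ,
    (∀ e ∈ J, n ≤ e ∧ (e : ℝ) ≤ n + (n : ℝ) ^ (2 / 3 : ℝ)) →
      ∑ e ∈ J, tauG (PBig (C * (n : ℝ) ^ (1 / 4 : ℝ))).two e ≤ δ * (n : ℝ) ^ (-(11 / 6) : ℝ) := by
  obtain ⟨C, hC, h⟩ := diam_big TauG_R0 TauG_R1 δ hδ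
  refine ⟨C, hC, fun n hn J hJ => ?_⟩
  refine TauG_win (by positivity) (by rw [TauG_exp]; exact h n hn) ?_
  rintro c - hc ⟨x, y, hxy⟩
  obtain ⟨h1, h2⟩ := hJ _ hc
  refine ⟨h1, h2, hxy.trans ?_⟩
  exact_mod_cast (gdm_le c (gdm c)).1 le_rfl x y

theorem tg_small (δ : ℝ) (hδ : 0 < δ) : ∃ c : ℝ, 0 < c ∧ ∃ n0 : ℕ, ∀ n : ℕ, n0 ≤ n →
    ∀ J : Finset ℕ, (∀ e ∈ J, n ≤ e ∧ (e : ℝ) ≤ n + (n : ℝ) ^ (2 / 3 : ℝ)) →
      ∑ e ∈ J, tauG (PSmall (c * (n : ℝ) ^ (1 / 4 : ℝ))).two e ≤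
        δ * (n : ℝ) ^ (-(11 / 6) : ℝ) := by
  obtain ⟨c0, hc0, n0, h⟩ := diam_small TauG_R0 TauG_R1 δ hδ
  refine ⟨c0, hc0, n0, fun n hn J hJ => ?_⟩
  refine TauG_win (by positivity) (by rw [TauG_exp]; exact h n hn) ?_
  intro c _ hc hP
  obtain ⟨h1, h2⟩ := hJ _ hc
  refine ⟨h1, h2, ?_⟩
  obtain ⟨t, t', ht⟩ := exists_dm (bR c.rep.1)
  have h3 : gdm c = (bR c.rep.1).dd t t' := ht.symm
  rw [h3]
  exact hP ((bR c.rep.1).vx t) ((bR c.rep.1).vx t')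

theorem tg_huge : ∃ c0 : ℝ, 0 < c0 ∧ ∃ j0 : ℕ, ∀ j : ℕ, j0 ≤ j →
    tauG (PBig ((j : ℝ) ^ (3 / 10 : ℝ))).two j ≤ Real.exp (-(j : ℝ) ^ c0) := by
  obtain ⟨c0, hc0, j0, h⟩ := diam_huge TauG_R0 TauG_R1
  refine ⟨c0, hc0, j0, fun j hj => ?_⟩
  have h1 : ∑ e ∈ {j}, tauG (PBig ((j : ℝ) ^ (3 / 10 : ℝ))).two e ≤ Real.exp (-(j : ℝ) ^ c0) := by
    refine TauG_win (Real.exp_pos _).le (h j hj) ?_
    rintro c - hc ⟨x, y, hxy⟩
    refine ⟨mem_singleton.1 hc, hxy.trans ?_⟩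
    exact_mod_cast (gdm_le c (gdm c)).1 le_rfl x y
  rwa [sum_singleton] at h1

theorem tg_V : 0 < alG ∧ ∃ j0 : ℕ, ∀ e : ℕ, j0 ≤ e →
    ∑ v ∈ range (e + 1), (if (e : ℝ) ^ (3 / 5 : ℝ) ≤ |((v : ℝ) + 2) - alG * e| then
      gP PGT v e * R0 ^ v * D0 ^ e else 0) ≤ Real.exp (-(e : ℝ) ^ (1 / 10 : ℝ)) := by
  obtain ⟨h2, j0, h3⟩ := tau_V R0_range.1 R0_range.2
  refine ⟨h2, j0, fun e he => ?_⟩
  rw [← ENNReal.ofReal_le_ofReal_iff (Real.exp_pos _).le,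
    TauG_key PGT (fun v => (e : ℝ) ^ (3 / 5 : ℝ) ≤ |((v : ℝ) + 2) - alG * e|) e]
  refine (tauS_mono fun c _ h => ?_).trans (h3 e he)
  refine ⟨h.1, ?_⟩
  have h4 : 2 ≤ nV c.rep.1.s := Good.two_le_nV c.rep.2
  have h5 : (((nV c.rep.1.s - 2 : ℕ) : ℝ) + 2) = nV c.rep.1.s := by
    rw [Nat.cast_sub h4]
    push_cast
    ring
  have h6 := h.2.1
  rw [h5] at h6
  exact h6

theorem tg_sum : ∃ C : ℝ, 0 < C ∧ ∀ J : Finset ℕ, ∑ e ∈ J, tauG PGT e ≤ C := by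
  have hR := TauG_R0
  have hD := TauG_D0
  have h1 : tauS R0 (fun _ => True) ≤
      ENNReal.ofReal D0 * RgE (ENNReal.ofReal R0) (ENNReal.ofReal D0) := by
    unfold tauS RgE
    rw [← ENNReal.tsum_mul_left]
    refine ENNReal.tsum_le_tsum fun c => ?_
    rw [crit_point.2.2.2]
    by_cases hc : Rigid c.rep.1
    · rw [if_pos ⟨hc, trivial⟩, if_pos hc]
      have h3 : 3 ≤ gE c := rigid_gE hc
      obtain ⟨k, hk⟩ : ∃ k, gE c = k + 1 := ⟨gE c - 1, by omega⟩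
      have hk' : Fintype.card c.rep.1.D / 2 = k + 1 := hk
      rw [hk, hk', Nat.add_sub_cancel, ENNReal.ofReal_mul (by positivity), ENNReal.ofReal_pow hR.le,
        ENNReal.ofReal_pow hD.le, pow_succ]
      have h4 : (1 : ℝ≥0∞) ≤ ((k + 1 : ℕ) : ℝ≥0∞) := by
        exact_mod_cast Nat.succ_le_succ (Nat.zero_le k)
      calc ENNReal.ofReal R0 ^ (nV c.rep.1.s - 2) * (ENNReal.ofReal D0 ^ k * ENNReal.ofReal D0)
          = 1 * (ENNReal.ofReal D0 * (ENNReal.ofReal R0 ^ (nV c.rep.1.s - 2) *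
              ENNReal.ofReal D0 ^ k)) := by ring
        _ ≤ ((k + 1 : ℕ) : ℝ≥0∞) * (ENNReal.ofReal D0 * (ENNReal.ofReal R0 ^ (nV c.rep.1.s - 2) *
              ENNReal.ofReal D0 ^ k)) := mul_le_mul_left h4 _
        _ = _ := by ring
    · rw [if_neg (fun h => hc h.1)]
      exact bot_le
  have h2 : tauS R0 (fun _ => True) ≠ ⊤ := by
    refine ne_top_of_le_ne_top ?_ h1
    exact ENNReal.mul_ne_top ENNReal.ofReal_ne_top contr_num.2.2.1
  refine ⟨(tauS R0 (fun _ => True)).toReal + 1, by positivity, fun J => ?_⟩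
  have h3 : ∑ e ∈ J, tauG PGT e ≤ (tauS R0 (fun _ => True)).toReal := by
    refine TauG_win ENNReal.toReal_nonneg (Q := fun _ => True) ?_ fun c _ _ _ => trivial
    rw [ENNReal.ofReal_toReal h2]
  linarith

end Dia
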