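import Pool.Agent.Dia.TauG

/-!
# Module WinSum: sums over windows with heavy local bounds (pure analysis)

`win_sum`.  Let `h = ⌊(ε n)^(2/3)⌋ ≥ 1`, `N_i = ⌈ε n⌉ + i h`, `i = 0, 1, ..`: the sets `[N_i, N_i + h)` cover the range of
summation and are contained in the windows of `WinB` (`h ≤ N_i^(2/3)`, `N_i ≤ 3 n`), so
`∑_{e ∈ [N_i, N_i + h)} t e w e ≤ δ (ε n)^(-11/6) sup w`.
The supremum of `w` over the piece `i`: always `≤ K (ε n)^(-2/3)`; and if the piece has distance `≥ j h` from the point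
`m / μ`, `j ≥ j0` (where `μ j0 h / 2 ≥ C1 (3n)^(3/5)`; for `n ≥ n0` one can take `j0 = 1`), then with `s = μ j h / 2`:
`s + C1 e^(3/5) ≤ μ j h ≤ |m - μ e|`, so `w ≤ K (3n)^(1/3) (μ j h / 2)^(-3/2) ≤ K'' n^(-2/3) j^(-3/2)`.
For every `j` there are at most two pieces whose distance to `m / μ` is in `[j h, (j+1) h)`, and at most three pieces of
distance `< h`.  Sum: `∑_j j^(-3/2) < ∞`.
-/

set_option linter.unusedSectionVars false

namespace Dia
open Finset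

/-- local bounds with centre `m` -/
structure Wb (μ C1 K m : ℝ) (w : ℕ → ℝ) : Prop where
  nn : ∀ e, 0 ≤ w e
  sup : ∀ e : ℕ, 1 ≤ e → w e ≤ K * (e : ℝ) ^ (-(2 / 3) : ℝ)
  far : ∀ e : ℕ, 1 ≤ e → ∀ s : ℝ, 0 < s → s + C1 * (e : ℝ) ^ (3 / 5 : ℝ) ≤ |m - μ * e| →
    w e ≤ K * (e : ℝ) ^ (1 / 3 : ℝ) * s ^ (-(3 / 2) : ℝ)

theorem win_sum {ε μ C1 K : ℝ} (hε : 0 < ε) (hε1 : ε < 1) (hμ : 0 < μ) (hC : 0 ≤ C1)
    (hK : 0 ≤ K) : ∃ K' : ℝ, 0 < K' ∧ ∃ n0 : ℕ, ∀ n : ℕ, n0 ≤ n → ∀ (δ : ℝ) (t : ℕ → ℝ), 0 ≤ δ →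
      (∀ e, 0 ≤ t e) → WinB δ (ε * n) (4 * n) t → ∀ (m : ℝ) (w : ℕ → ℝ), Wb μ C1 K m w →
        ∑ e ∈ (range (3 * n + 1)).filter (fun e : ℕ => ε * n ≤ e), t e * w e ≤
          K' * δ * (n : ℝ) ^ (-(5 / 2) : ℝ) := by
  classical
  -- the weight of a piece
  set b : ℤ → ℝ := fun z => (if z = 0 then 1 else 0) + |(z : ℝ)| ^ (-(3 / 2) : ℝ) with hb
  have hbs : Summable b := by
    refine Summable.add ?_ (Real.summable_abs_int_rpow (b := 3 / 2) (by norm_num))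
    refine summable_of_ne_finset_zero (s := {0}) fun z hz => ?_
    rw [Finset.mem_singleton] at hz
    simp [hz]
  have hb0 : ∀ z, 0 ≤ b z := fun z => by
    have h1 : (0 : ℝ) ≤ |(z : ℝ)| ^ (-(3 / 2) : ℝ) := Real.rpow_nonneg (abs_nonneg _) _
    simp only [hb]
    split_ifs <;> linarith
  set S : ℝ := ∑' z, b z with hS
  have hS0 : 0 ≤ S := tsum_nonneg hb0
  set K3 : ℝ := K * ε ^ (-(2 / 3) : ℝ) + K * 3 ^ (1 / 3 : ℝ) * (μ / 8) ^ (-(3 / 2) : ℝ) * ε ^ (-1 : ℝ)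
    with hK3
  have hA : 0 ≤ K * ε ^ (-(2 / 3) : ℝ) := by positivity
  have hB : 0 ≤ K * 3 ^ (1 / 3 : ℝ) * (μ / 8) ^ (-(3 / 2) : ℝ) * ε ^ (-1 : ℝ) := by positivity
  have hK30 : 0 ≤ K3 := add_nonneg hA hB
  -- large n
  have hev1 : ∀ᶠ n : ℕ in Filter.atTop, (2 : ℝ) ≤ (ε * n) ^ (2 / 3 : ℝ) := by
    have h1 : Filter.Tendsto (fun n : ℕ => (ε * (n : ℝ)) ^ (2 / 3 : ℝ)) Filter.atTop Filter.atTop :=
      (tendsto_rpow_atTop (by norm_num)).comp
        (Filter.Tendsto.const_mul_atTop hε tendsto_natCast_atTop_atTop)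
    exact h1.eventually_ge_atTop 2
  have hev2 : ∀ᶠ n : ℕ in Filter.atTop,
      C1 * (3 * (n : ℝ)) ^ (3 / 5 : ℝ) ≤ μ * (ε * n) ^ (2 / 3 : ℝ) / 4 := by
    have h1 : Filter.Tendsto (fun n : ℕ => C1 * 3 ^ (3 / 5 : ℝ) * (n : ℝ) ^ (-(1 / 15) : ℝ))
        Filter.atTop (nhds (C1 * 3 ^ (3 / 5 : ℝ) * 0)) :=
      ((tendsto_rpow_neg_atTop (by norm_num)).comp tendsto_natCast_atTop_atTop).const_mul _
    rw [mul_zero] at h1
    have h2 : (0 : ℝ) < μ * ε ^ (2 / 3 : ℝ) / 4 := by positivity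
    filter_upwards [h1.eventually (gt_mem_nhds h2), Filter.eventually_gt_atTop 0] with n hn hn0
    have hn' : (0 : ℝ) < n := by exact_mod_cast hn0
    have e1 : (3 * (n : ℝ)) ^ (3 / 5 : ℝ) = 3 ^ (3 / 5 : ℝ) * ((n : ℝ) ^ (-(1 / 15) : ℝ) *
        (n : ℝ) ^ (2 / 3 : ℝ)) := by
      rw [Real.mul_rpow (by norm_num) hn'.le, ← Real.rpow_add hn']
      norm_num
    have e2 : (ε * (n : ℝ)) ^ (2 / 3 : ℝ) = ε ^ (2 / 3 : ℝ) * (n : ℝ) ^ (2 / 3 : ℝ) :=
      Real.mul_rpow hε.le hn'.le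
    rw [e1, e2]
    have h3 : (0 : ℝ) < (n : ℝ) ^ (2 / 3 : ℝ) := Real.rpow_pos_of_pos hn' _
    have h4 := mul_le_mul_of_nonneg_right hn.le h3.le
    calc C1 * (3 ^ (3 / 5 : ℝ) * ((n : ℝ) ^ (-(1 / 15) : ℝ) * (n : ℝ) ^ (2 / 3 : ℝ)))
        = C1 * 3 ^ (3 / 5 : ℝ) * (n : ℝ) ^ (-(1 / 15) : ℝ) * (n : ℝ) ^ (2 / 3 : ℝ) := by ring
      _ ≤ μ * ε ^ (2 / 3 : ℝ) / 4 * (n : ℝ) ^ (2 / 3 : ℝ) := h4
      _ = μ * (ε ^ (2 / 3 : ℝ) * (n : ℝ) ^ (2 / 3 : ℝ)) / 4 := by ring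
  obtain ⟨n0, hn0⟩ := ((hev1.and hev2).and (Filter.eventually_gt_atTop 0)).exists_forall_of_atTop
  refine ⟨K3 * S * ε ^ (-(11 / 6) : ℝ) + 1, by positivity, n0, ?_⟩
  intro n hn δ t hδ ht hW m w hw
  obtain ⟨⟨hx2, hC1⟩, hnp⟩ := hn0 n hn
  have hn' : (0 : ℝ) < n := by exact_mod_cast hnp
  have hεn : 0 < ε * n := mul_pos hε hn'
  set x : ℝ := (ε * n) ^ (2 / 3 : ℝ) with hx
  set h : ℕ := ⌊x⌋₊ with hh
  have hhx : (h : ℝ) ≤ x := Nat.floor_le (by linarith)
  have hxh : x / 2 ≤ h := by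
    have := Nat.lt_floor_add_one x
    linarith
  have hh1 : (0 : ℝ) < h := by linarith
  have hh0 : 0 < h := by exact_mod_cast hh1
  set a : ℕ := ⌈ε * n⌉₊ with ha
  have haε : ε * n ≤ a := Nat.le_ceil _
  set E : Finset ℕ := (range (3 * n + 1)).filter (fun e : ℕ => ε * n ≤ e) with hE
  have hEm : ∀ e ∈ E, e ≤ 3 * n ∧ ε * n ≤ e ∧ a ≤ e := by
    intro e he
    rw [hE, mem_filter, mem_range] at he
    exact ⟨by omega, he.2, Nat.ceil_le.2 he.2⟩
  set idx : ℕ → ℕ := fun e => (e - a) / h with hidx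
  have hi1 : ∀ e, a ≤ e → a + idx e * h ≤ e := by
    intro e he
    have := Nat.div_mul_le_self (e - a) h
    simp only [hidx]
    omega
  have hi2 : ∀ e, a ≤ e → e < a + idx e * h + h := by
    intro e he
    have h1 := Nat.div_add_mod (e - a) h
    have h2 := Nat.mod_lt (e - a) hh0
    have h3 : h * ((e - a) / h) = (e - a) / h * h := mul_comm _ _
    simp only [hidx]
    omega
  set i0 : ℤ := ⌊(m / μ - a) / h⌋ with hi0
  have hc1 : (a : ℝ) + i0 * h ≤ m / μ := by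
    have := Int.floor_le ((m / μ - a) / h)
    rw [le_div_iff₀ hh1] at this
    linarith
  have hc2 : m / μ < a + (i0 + 1) * h := by
    have := Int.lt_floor_add_one ((m / μ - a) / h)
    rw [div_lt_iff₀ hh1] at this
    linarith
  have hn23 : 0 < (n : ℝ) ^ (-(2 / 3) : ℝ) := Real.rpow_pos_of_pos hn' _
  -- the bound of the weights
  have key1 : ∀ e ∈ E, w e ≤ K3 * (n : ℝ) ^ (-(2 / 3) : ℝ) * b ((idx e : ℤ) - i0) := by
    intro e he
    obtain ⟨he1, he2, he3⟩ := hEm e he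
    have hepos : (0 : ℝ) < e := lt_of_lt_of_le hεn he2
    have he0 : 1 ≤ e := by
      have : 0 < e := by exact_mod_cast hepos
      omega
    set z : ℤ := (idx e : ℤ) - i0 with hz
    have hzr : (z : ℝ) = (idx e : ℝ) - i0 := by rw [hz]; push_cast; ring
    have hlow : (a : ℝ) + idx e * h ≤ e := by exact_mod_cast hi1 e he3
    have hhigh : (e : ℝ) < a + idx e * h + h := by exact_mod_cast hi2 e he3
    by_cases hsmall : |z| ≤ 1
    · have hbz : 1 ≤ b z := by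
        simp only [hb]
        by_cases h0 : z = 0
        · rw [if_pos h0, h0]
          have : (0 : ℝ) ≤ |((0 : ℤ) : ℝ)| ^ (-(3 / 2) : ℝ) := Real.rpow_nonneg (abs_nonneg _) _
          linarith
        · rw [if_neg h0]
          have h1 : |z| = 1 := le_antisymm hsmall (Int.one_le_abs h0)
          have h2 : |(z : ℝ)| = 1 := by exact_mod_cast h1
          rw [h2, Real.one_rpow]
          norm_num
      have h1 := hw.sup e he0
      have h2 : (e : ℝ) ^ (-(2 / 3) : ℝ) ≤ (ε * n) ^ (-(2 / 3) : ℝ) :=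
        Real.rpow_le_rpow_of_nonpos hεn he2 (by norm_num)
      have h3 : (ε * (n : ℝ)) ^ (-(2 / 3) : ℝ) = ε ^ (-(2 / 3) : ℝ) * (n : ℝ) ^ (-(2 / 3) : ℝ) :=
        Real.mul_rpow hε.le hn'.le
      calc w e ≤ K * (e : ℝ) ^ (-(2 / 3) : ℝ) := h1
        _ ≤ K * (ε ^ (-(2 / 3) : ℝ) * (n : ℝ) ^ (-(2 / 3) : ℝ)) := by
            rw [← h3]; exact mul_le_mul_of_nonneg_left h2 hK
        _ = K * ε ^ (-(2 / 3) : ℝ) * (n : ℝ) ^ (-(2 / 3) : ℝ) := by ring
        _ ≤ K3 * (n : ℝ) ^ (-(2 / 3) : ℝ) :=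
            mul_le_mul_of_nonneg_right (by rw [hK3]; linarith) hn23.le
        _ ≤ K3 * (n : ℝ) ^ (-(2 / 3) : ℝ) * b z := le_mul_of_one_le_right (by positivity) hbz
    · have hz2 : (2 : ℤ) ≤ |z| := by omega
      set J : ℝ := |(z : ℝ)| with hJ
      have hJ2 : (2 : ℝ) ≤ J := by rw [hJ]; exact_mod_cast hz2
      have hbz : J ^ (-(3 / 2) : ℝ) ≤ b z := by
        simp only [hb]
        have : z ≠ 0 := by
          rintro h0
          rw [h0] at hz2
          simp at hz2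
        rw [if_neg this, zero_add]
      -- distance
      have hdist : (J - 1) * h ≤ |m / μ - e| := by
        rcases le_or_gt 0 (z : ℝ) with h0 | h0
        · have h1 : J = z := abs_of_nonneg h0
          have h2 : (z - 1 : ℝ) * h ≤ e - m / μ := by
            rw [hzr]
            nlinarith
          rw [h1, abs_sub_comm]
          exact h2.trans (le_abs_self _)
        · have h1 : J = -z := abs_of_neg h0
          have h2 : (-z - 1 : ℝ) * h ≤ m / μ - e := by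
            rw [hzr]
            nlinarith
          rw [h1]
          exact h2.trans (le_abs_self _)
      have hmu : |m - μ * e| = μ * |m / μ - e| := by
        rw [← abs_of_pos hμ, ← abs_mul, abs_of_pos hμ]
        congr 1
        field_simp
      have hJh : J * h / 2 ≤ (J - 1) * h := by
        have : J / 2 ≤ J - 1 := by linarith
        calc J * h / 2 = J / 2 * h := by ring
          _ ≤ (J - 1) * h := mul_le_mul_of_nonneg_right this hh1.le
      have hd2 : μ * (J * h / 2) ≤ |m - μ * e| := by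
        rw [hmu]
        exact mul_le_mul_of_nonneg_left (hJh.trans hdist) hμ.le
      have hJpos : 0 < J := by linarith
      set s : ℝ := μ * J * h / 4 with hs
      have hs0 : 0 < s := by positivity
      have he35 : C1 * (e : ℝ) ^ (3 / 5 : ℝ) ≤ s := by
        have h1 : (e : ℝ) ^ (3 / 5 : ℝ) ≤ (3 * (n : ℝ)) ^ (3 / 5 : ℝ) :=
          Real.rpow_le_rpow hepos.le (by exact_mod_cast he1) (by norm_num)
        have h2 : μ * x / 4 ≤ s := by
          rw [hs]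
          have h3 : μ * x ≤ μ * J * h := by
            calc μ * x ≤ μ * (2 * h) := mul_le_mul_of_nonneg_left (by linarith) hμ.le
              _ ≤ μ * (J * h) := mul_le_mul_of_nonneg_left
                  (mul_le_mul_of_nonneg_right hJ2 hh1.le) hμ.le
              _ = μ * J * h := by ring
          linarith
        exact ((mul_le_mul_of_nonneg_left h1 hC).trans hC1).trans h2
      have hfar := hw.far e he0 s hs0 (by
        refine le_trans ?_ hd2
        have : μ * (J * h / 2) = s + s := by rw [hs]; ring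
        rw [this]
        linarith)
      have hs' : μ / 8 * J * x ≤ s := by
        rw [hs]
        have : μ * J * (x / 2) ≤ μ * J * h := mul_le_mul_of_nonneg_left hxh (by positivity)
        linarith
      have hx0 : 0 < x := by linarith
      have h1 : s ^ (-(3 / 2) : ℝ) ≤ (μ / 8 * J * x) ^ (-(3 / 2) : ℝ) :=
        Real.rpow_le_rpow_of_nonpos (by positivity) hs' (by norm_num)
      have h2 : (μ / 8 * J * x) ^ (-(3 / 2) : ℝ) =
          (μ / 8) ^ (-(3 / 2) : ℝ) * J ^ (-(3 / 2) : ℝ) * (ε ^ (-1 : ℝ) * (n : ℝ) ^ (-1 : ℝ)) := by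
        rw [Real.mul_rpow (by positivity) hx0.le, Real.mul_rpow (by positivity) hJpos.le, hx,
          ← Real.rpow_mul hεn.le, ← Real.mul_rpow hε.le hn'.le]
        norm_num
      have h3 : (e : ℝ) ^ (1 / 3 : ℝ) ≤ 3 ^ (1 / 3 : ℝ) * (n : ℝ) ^ (1 / 3 : ℝ) := by
        rw [← Real.mul_rpow (by norm_num) hn'.le]
        exact Real.rpow_le_rpow hepos.le (by exact_mod_cast he1) (by norm_num)
      have h4 : (n : ℝ) ^ (1 / 3 : ℝ) * (n : ℝ) ^ (-1 : ℝ) = (n : ℝ) ^ (-(2 / 3) : ℝ) := by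
        rw [← Real.rpow_add hn']
        norm_num
      calc w e ≤ K * (e : ℝ) ^ (1 / 3 : ℝ) * s ^ (-(3 / 2) : ℝ) := hfar
        _ ≤ K * (3 ^ (1 / 3 : ℝ) * (n : ℝ) ^ (1 / 3 : ℝ)) *
            ((μ / 8) ^ (-(3 / 2) : ℝ) * J ^ (-(3 / 2) : ℝ) * (ε ^ (-1 : ℝ) * (n : ℝ) ^ (-1 : ℝ))) := by
            rw [← h2]
            exact mul_le_mul (mul_le_mul_of_nonneg_left h3 hK) h1 (by positivity) (by positivity)
        _ = K * 3 ^ (1 / 3 : ℝ) * (μ / 8) ^ (-(3 / 2) : ℝ) * ε ^ (-1 : ℝ) *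
            ((n : ℝ) ^ (1 / 3 : ℝ) * (n : ℝ) ^ (-1 : ℝ)) * J ^ (-(3 / 2) : ℝ) := by ring
        _ ≤ K3 * (n : ℝ) ^ (-(2 / 3) : ℝ) * J ^ (-(3 / 2) : ℝ) := by
            rw [h4]
            refine mul_le_mul_of_nonneg_right (mul_le_mul_of_nonneg_right ?_ hn23.le) (by positivity)
            rw [hK3]
            linarith
        _ ≤ K3 * (n : ℝ) ^ (-(2 / 3) : ℝ) * b z := mul_le_mul_of_nonneg_left hbz (by positivity)
  -- the pieces
  have hε11 : 0 < (ε * (n : ℝ)) ^ (-(11 / 6) : ℝ) := Real.rpow_pos_of_pos hεn _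
  have key2 : ∀ i : ℕ, ∑ e ∈ E.filter (fun e => idx e = i), t e ≤
      δ * (ε * n) ^ (-(11 / 6) : ℝ) := by
    intro i
    rcases (E.filter (fun e => idx e = i)).eq_empty_or_nonempty with hemp | ⟨e0, he0⟩
    · rw [hemp, sum_empty]
      positivity
    · rw [mem_filter] at he0
      obtain ⟨g1, g2, g3⟩ := hEm e0 he0.1
      have g4 := hi1 e0 g3
      rw [he0.2] at g4
      have hNe : ((a + i * h : ℕ) : ℝ) ≤ e0 := by exact_mod_cast g4
      have hNa : ε * n ≤ ((a + i * h : ℕ) : ℝ) := by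
        refine haε.trans ?_
        push_cast
        have : (0 : ℝ) ≤ i * h := by positivity
        linarith
      have hN0 : (0 : ℝ) < ((a + i * h : ℕ) : ℝ) := lt_of_lt_of_le hεn hNa
      have hN1 : 1 ≤ a + i * h := by
        have : 0 < a + i * h := by exact_mod_cast hN0
        omega
      have hN4 : ((a + i * h : ℕ) : ℝ) ≤ 4 * n := by
        have h1 : ((e0 : ℕ) : ℝ) ≤ 3 * n := by exact_mod_cast g1
        linarith
      have h5 := hW (a + i * h) hN1 hNa hN4 (E.filter (fun e => idx e = i)) (by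
        intro e he
        rw [mem_filter] at he
        obtain ⟨k1, k2, k3⟩ := hEm e he.1
        have k4 := hi1 e k3
        have k5 := hi2 e k3
        rw [he.2] at k4 k5
        refine ⟨k4, ?_⟩
        have k6 : (e : ℝ) ≤ ((a + i * h : ℕ) : ℝ) + h := by exact_mod_cast k5.le
        have k7 : (h : ℝ) ≤ ((a + i * h : ℕ) : ℝ) ^ (2 / 3 : ℝ) :=
          hhx.trans (Real.rpow_le_rpow hεn.le hNa (by norm_num))
        linarith)
      refine h5.trans (mul_le_mul_of_nonneg_left ?_ hδ)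
      exact Real.rpow_le_rpow_of_nonpos hεn hNa (by norm_num)
  -- the sum
  have hmaps : ∀ e ∈ E, idx e ∈ range (3 * n + 1) := by
    intro e he
    obtain ⟨g1, g2, g3⟩ := hEm e he
    rw [mem_range]
    have : (e - a) / h ≤ e - a := Nat.div_le_self _ _
    simp only [hidx]
    omega
  have hsumb : ∑ i ∈ range (3 * n + 1), b ((i : ℤ) - i0) ≤ S := by
    have hinj : Set.InjOn (fun i : ℕ => (i : ℤ) - i0) (range (3 * n + 1) : Finset ℕ) := by
      intro i _ j _ hij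
      have : (i : ℤ) - i0 = (j : ℤ) - i0 := hij
      omega
    have h1 : ∑ z ∈ (range (3 * n + 1)).image (fun i : ℕ => (i : ℤ) - i0), b z =
        ∑ i ∈ range (3 * n + 1), b ((i : ℤ) - i0) := sum_image hinj
    rw [← h1]
    exact hbs.sum_le_tsum _ fun z _ => hb0 z
  calc ∑ e ∈ E, t e * w e
      ≤ ∑ e ∈ E, t e * (K3 * (n : ℝ) ^ (-(2 / 3) : ℝ) * b ((idx e : ℤ) - i0)) :=
        sum_le_sum fun e he => mul_le_mul_of_nonneg_left (key1 e he) (ht e)
    _ = ∑ i ∈ range (3 * n + 1), ∑ e ∈ E.filter (fun e => idx e = i),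
          t e * (K3 * (n : ℝ) ^ (-(2 / 3) : ℝ) * b ((idx e : ℤ) - i0)) :=
        (sum_fiberwise_of_maps_to hmaps _).symm
    _ ≤ ∑ i ∈ range (3 * n + 1), δ * (ε * n) ^ (-(11 / 6) : ℝ) *
          (K3 * (n : ℝ) ^ (-(2 / 3) : ℝ)) * b ((i : ℤ) - i0) := by
        refine sum_le_sum fun i _ => ?_
        have h1 : ∑ e ∈ E.filter (fun e => idx e = i),
            t e * (K3 * (n : ℝ) ^ (-(2 / 3) : ℝ) * b ((idx e : ℤ) - i0)) =
            (∑ e ∈ E.filter (fun e => idx e = i), t e) *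
              (K3 * (n : ℝ) ^ (-(2 / 3) : ℝ) * b ((i : ℤ) - i0)) := by
          rw [sum_mul]
          refine sum_congr rfl fun e he => ?_
          rw [(mem_filter.1 he).2]
        rw [h1]
        have h2 : 0 ≤ K3 * (n : ℝ) ^ (-(2 / 3) : ℝ) * b ((i : ℤ) - i0) :=
          mul_nonneg (by positivity) (hb0 _)
        calc (∑ e ∈ E.filter (fun e => idx e = i), t e) *
              (K3 * (n : ℝ) ^ (-(2 / 3) : ℝ) * b ((i : ℤ) - i0))
            ≤ δ * (ε * n) ^ (-(11 / 6) : ℝ) *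
              (K3 * (n : ℝ) ^ (-(2 / 3) : ℝ) * b ((i : ℤ) - i0)) :=
              mul_le_mul_of_nonneg_right (key2 i) h2
          _ = _ := by ring
    _ = δ * (ε * n) ^ (-(11 / 6) : ℝ) * (K3 * (n : ℝ) ^ (-(2 / 3) : ℝ)) *
          ∑ i ∈ range (3 * n + 1), b ((i : ℤ) - i0) := by rw [mul_sum]
    _ ≤ δ * (ε * n) ^ (-(11 / 6) : ℝ) * (K3 * (n : ℝ) ^ (-(2 / 3) : ℝ)) * S :=
        mul_le_mul_of_nonneg_left hsumb (by positivity)
    _ = K3 * S * ε ^ (-(11 / 6) : ℝ) * δ * (n : ℝ) ^ (-(5 / 2) : ℝ) := by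
        rw [Real.mul_rpow hε.le hn'.le]
        have : (n : ℝ) ^ (-(11 / 6) : ℝ) * (n : ℝ) ^ (-(2 / 3) : ℝ) = (n : ℝ) ^ (-(5 / 2) : ℝ) := by
          rw [← Real.rpow_add hn']
          norm_num
        rw [← this]
        ring
    _ ≤ (K3 * S * ε ^ (-(11 / 6) : ℝ) + 1) * δ * (n : ℝ) ^ (-(5 / 2) : ℝ) := by
        refine mul_le_mul_of_nonneg_right (mul_le_mul_of_nonneg_right ?_ hδ) (by positivity)
        linarith

end Dia
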