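import Pool.Agent.Dia.ClassUp
import Pool.Agent.Dia.Pairs

/-!
# Module ZLow: lower bound for the number of planar graphs

`class_low`: for `e ∈ J` (shift `e + 1` edges): `kg_low` at `e + 1` with `w v = cvL (SL rL dL gL v (e+1)) n`: at least
`R0^2 D0/(4 (e+1)) ∑_{v ≤ e} gP P.two v e R0^v D0^e w (v+2)`.  For `v` with `|v + 2 - alG e| < e^(3/5)`:
`|meanL - n| ≤ |muS e - n| + C e^(3/5) ≤ A' e^(2/3)` (`e` is between `c n` and `C n`), so `H3` gives
`w (v+2) ≥ c e^(-2/3)`.  The other `v` have total weight `≤ exp (-e^(1/10))` (`tg_V`), so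
`∑_{e ∈ J} ∑_{good v} .. ≥ η n^(-11/6) - |J| exp (..) ≥ η/2 n^(-11/6)` for `n ≥ n0`; `|J| ≤ 3 n`.
`v + 2 ≤ n` for the good `v`: `alG e + e^(3/5) ≤ n - 2`, because `n ≥ muS e - A n^(2/3)` and `muS > alG`
(`mean rL ≥ 1` as `rL 0 = 0`, `mean dL > 0` as all `dL k > 0`); `e + 1 ≤ 3 n`: if not then `w = 0`?  (for good `v`,
`v ≥ alG e - ..`; by `kP_small` `e ≤ 3 v`, and `gP` nonzero implies `e + 1 ≤ 3 (v+2)`; terms with `gP = 0` vanish.)
`e + 1 ≥ ε n` with `ε = 1/(2 muS)`.

`big_low`: the window of `tg_low` for `n' = ⌊n μ / muS⌋`.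

`Z_low`: by `pair_K` with `P = PGT0` and `SL_scale`, `sVE n ε (pairN n v e True) rho^n` is
`sVE n ε (kP PGT0 v e R0^v D0^e G0 cvL ..)`.  On the other hand the sum over `v, e` of `pairN n v e` is at most
`1/n!` times the number of pairs `(E, X)` with `ε n ≤ coreE`, which is at most `(6/ε + 1)` times the number of planar
graphs (`core_num`).  `gN ⊤ n` counts all planar graphs (`coreLt_top`).
-/

set_option linter.unusedSectionVars false

namespace Dia
open Finset PGr Pool.Agent.DiamP Pool.Agent.DiamP.Hv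

/-- a sum with more than `n` positive variables is larger than `n` -/
private theorem cvL_big {r : ℕ → ℝ} (hr : r 0 = 0) (l : List (ℕ → ℝ)) (v : ℕ) :
    ∀ n, n < v → cvL (List.replicate v r ++ l) n = 0 := by
  induction v with
  | zero => intro n hn; omega
  | succ v ih =>
    intro n hn
    rw [List.replicate_succ, List.cons_append, cvL_cons, cv_eq_range]
    refine Finset.sum_eq_zero fun j hj => ?_
    rcases Nat.eq_zero_or_pos j with rfl | hj0
    · rw [hr, zero_mul]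
    · rw [ih (n - j) (by have := Finset.mem_range.1 hj; omega), mul_zero]

private theorem rL_zero : rL 0 = 0 := by
  rw [rL, wt, rN_zero, zero_mul, zero_div]

private theorem exp_small' {κ C : ℝ} (hκ : 0 < κ) (hC : 0 < C) {η : ℝ} (hη : 0 < η) :
    ∃ n0 : ℕ, ∀ n : ℕ, n0 ≤ n →
      (C * n + 1) * Real.exp (-(κ * n) ^ (1 / 10 : ℝ)) ≤ η * (n : ℝ) ^ (-(11 / 6) : ℝ) := by
  have h1 : Filter.Tendsto (fun x : ℝ => x ^ 40 * Real.exp (-x)) Filter.atTop (nhds 0) :=
    Real.tendsto_pow_mul_exp_neg_atTop_nhds_zero 40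
  have h2 : Filter.Tendsto (fun n : ℕ => (κ * n) ^ (1 / 10 : ℝ)) Filter.atTop Filter.atTop := by
    refine (tendsto_rpow_atTop (by norm_num)).comp ?_
    exact tendsto_natCast_atTop_atTop.const_mul_atTop hκ
  have h3 := h1.comp h2
  have h4 := h3.eventually (gt_mem_nhds one_pos)
  have h5 : ∀ᶠ n : ℕ in Filter.atTop, (C + 1) / κ ^ 4 / η ≤ (n : ℝ) :=
    tendsto_natCast_atTop_atTop.eventually (Filter.eventually_ge_atTop _)
  obtain ⟨n0, hn0⟩ := Filter.eventually_atTop.1 (h4.and (h5.and (Filter.eventually_ge_atTop 1)))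
  refine ⟨n0, fun n hn => ?_⟩
  obtain ⟨ha, hb, hc⟩ := hn0 n hn
  have hn1 : (1 : ℝ) ≤ n := by exact_mod_cast hc
  have hnpos : (0 : ℝ) < n := by linarith
  set y : ℝ := (κ * n) ^ (1 / 10 : ℝ) with hy
  have hy60 : y ^ 40 = (κ * n) ^ 4 := by
    rw [hy, ← Real.rpow_natCast, ← Real.rpow_mul (by positivity)]
    norm_num
  simp only [Function.comp_apply] at ha
  rw [← hy, hy60] at ha
  have h6 : 0 < (κ * n) ^ 4 := by positivity
  have he : Real.exp (-y) ≤ 1 / (κ * n) ^ 4 := by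
    rw [le_div_iff₀ h6]
    linarith
  have h7 : 1 / (n : ℝ) ^ 2 ≤ (n : ℝ) ^ (-(11 / 6) : ℝ) := by
    rw [one_div, ← Real.rpow_natCast, ← Real.rpow_neg hnpos.le]
    exact Real.rpow_le_rpow_of_exponent_le hn1 (by norm_num)
  rw [div_le_iff₀ hη] at hb
  calc (C * n + 1) * Real.exp (-y) ≤ ((C + 1) * n) * (1 / (κ * n) ^ 4) := by
        refine mul_le_mul ?_ he (Real.exp_pos _).le (by positivity)
        nlinarith
    _ = ((C + 1) / κ ^ 4) * (1 / (n : ℝ) ^ 3) := by
      field_simp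
    _ ≤ (n * η) * (1 / (n : ℝ) ^ 3) := mul_le_mul_of_nonneg_right hb (by positivity)
    _ = η * (1 / (n : ℝ) ^ 2) := by
      field_simp
    _ ≤ _ := mul_le_mul_of_nonneg_left h7 hη.le

theorem class_low {A : ℝ} (hA : 0 < A) : ∃ c ε : ℝ, 0 < c ∧ 0 < ε ∧ ε < 1 ∧ ∀ η : ℝ, 0 < η →
    ∃ n0 : ℕ, ∀ n : ℕ, n0 ≤ n → ∀ P : PG0, InvPG0 P → ∀ J : Finset ℕ,
      (∀ e ∈ J, |muS * e - n| ≤ A * (n : ℝ) ^ (2 / 3 : ℝ)) →
      η * (n : ℝ) ^ (-(11 / 6) : ℝ) ≤ ∑ e ∈ J, tauG P.two e →
      c * η * (n : ℝ) ^ (-(7 / 2) : ℝ) ≤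
        sVE n ε (fun v e => kP P v e * R0 ^ v * D0 ^ e * cvL (SL rL dL gL v e) n) := by
  obtain ⟨K, hr, hd, hg⟩ := tails
  obtain ⟨hal, j0, htV⟩ := tg_V
  have hmu := muS_pos
  have hmr := hr.law.mean_nonneg
  have hmd := hd.law.mean_nonneg
  have hmg := hg.law.mean_nonneg
  have hR := R0_pos
  have hD : 0 < D0 := lt_of_lt_of_le (by norm_num) D0_range.1
  set A' : ℝ := mean rL + A * (2 * muS) ^ (2 / 3 : ℝ) + mean dL + mean gL with hA'
  obtain ⟨c3, hc3, e0, hH3⟩ := H3 hr hd hg dL_DL A' (alG + 1)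
  set C : ℝ := 2 / muS with hC
  have hCpos : 0 < C := by positivity
  set C2 : ℝ := C + 1 with hC2
  have hC2pos : 0 < C2 := by positivity
  set c4 : ℝ := R0 ^ 2 * D0 / 4 * c3 * C2 ^ (-(5 / 3) : ℝ) with hc4
  have hc4pos : 0 < c4 := by positivity
  set ε : ℝ := min (1 / 2) (1 / (2 * muS)) with hε
  have hεpos : 0 < ε := lt_min (by norm_num) (by positivity)
  refine ⟨c4 / 2, ε, by positivity, hεpos, lt_of_le_of_lt (min_le_left _ _) (by norm_num),
    fun η hη => ?_⟩
  obtain ⟨n1, hn1⟩ := exp_small' (show 0 < 1 / (2 * muS) by positivity) hCpos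
    (show 0 < η / 2 by positivity)
  -- size conditions
  obtain ⟨n2, hn2⟩ : ∃ n2 : ℕ, ∀ n : ℕ, n2 ≤ n → ((e0 : ℝ) + j0 + 2) ≤ 1 / (2 * muS) * n := by
    have h1 : Filter.Tendsto (fun n : ℕ => 1 / (2 * muS) * (n : ℝ)) Filter.atTop Filter.atTop :=
      tendsto_natCast_atTop_atTop.const_mul_atTop (by positivity)
    exact Filter.eventually_atTop.1 (h1.eventually (Filter.eventually_ge_atTop _))
  obtain ⟨n3, hn3⟩ : ∃ n3 : ℕ, ∀ n : ℕ, n3 ≤ n → A * (n : ℝ) ^ (2 / 3 : ℝ) ≤ n / 2 := by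
    have h1 := (tendsto_rpow_atTop (show (0 : ℝ) < 1 / 3 by norm_num)).comp
      tendsto_natCast_atTop_atTop
    obtain ⟨n3, hn3⟩ := Filter.eventually_atTop.1
      ((h1.eventually (Filter.eventually_ge_atTop (2 * A))).and (Filter.eventually_ge_atTop 1))
    refine ⟨n3, fun n hn => ?_⟩
    obtain ⟨h2, h3⟩ := hn3 n hn
    have hnpos : (0 : ℝ) < n := by exact_mod_cast h3
    have h2' : 2 * A ≤ (n : ℝ) ^ (1 / 3 : ℝ) := h2
    have h4 : (n : ℝ) = (n : ℝ) ^ (1 / 3 : ℝ) * (n : ℝ) ^ (2 / 3 : ℝ) := by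
      rw [← Real.rpow_add hnpos]; norm_num
    have h5 : 0 < (n : ℝ) ^ (2 / 3 : ℝ) := Real.rpow_pos_of_pos hnpos _
    have h6 := mul_le_mul_of_nonneg_right h2' h5.le
    rw [← h4] at h6
    linarith
  refine ⟨max (max n1 n2) (max n3 1), fun n hn P hP J hJ hsum => ?_⟩
  have hnn1 : n1 ≤ n := (le_max_left _ _).trans ((le_max_left _ _).trans hn)
  have hnn2 : n2 ≤ n := (le_max_right _ _).trans ((le_max_left _ _).trans hn)
  have hnn3 : n3 ≤ n := (le_max_left _ _).trans ((le_max_right _ _).trans hn)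
  have hn1' : 1 ≤ n := (le_max_right _ _).trans ((le_max_right _ _).trans hn)
  have hnpos : (0 : ℝ) < n := by exact_mod_cast hn1'
  have hbig := hn2 n hnn2
  have hhalf := hn3 n hnn3
  -- range of `e`
  have hrange : ∀ e ∈ J, 1 / (2 * muS) * n ≤ (e : ℝ) ∧ (e : ℝ) ≤ C * n := by
    intro e he
    have h1 := abs_le.1 (hJ e he)
    constructor
    · rw [one_div, ← div_eq_inv_mul, div_le_iff₀ (by positivity)]
      linarith [h1.1]
    · rw [hC, div_mul_eq_mul_div, le_div_iff₀ hmu]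
      linarith [h1.2]
  set F : ℕ → ℕ → ℝ := fun v e => kP P v e * R0 ^ v * D0 ^ e * cvL (SL rL dL gL v e) n with hF
  have hFn : ∀ v e, 0 ≤ F v e := by
    intro v e
    have h1 := kP_nonneg P v e
    have h2 := PS_nonneg hg.law v e n
    simp only [hF]
    positivity
  have hFz : ∀ v e, n < v → F v e = 0 := by
    intro v e hv
    simp only [hF]
    rw [SL, cvL_big rL_zero _ v n hv, mul_zero]
  set S : ℕ → ℝ := fun e => ∑ v ∈ range (n + 1), F v e with hS
  have hSn : ∀ e, 0 ≤ S e := fun e => Finset.sum_nonneg fun v _ => hFn v e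
  have hSz : ∀ e, 3 * n < e → S e = 0 := by
    intro e he
    refine Finset.sum_eq_zero fun v hv => ?_
    by_contra h0
    have h1 : kP P v e ≠ 0 := by
      intro h2
      apply h0
      simp only [hF]
      rw [h2]
      ring
    have h2 := (kP_small P h1).2.2.2
    have h3 := Finset.mem_range.1 hv
    omega
  -- the bound for one `e`
  have hone : ∀ e ∈ J, c4 * (n : ℝ) ^ (-(5 / 3) : ℝ) *
      (tauG P.two e - Real.exp (-(1 / (2 * muS) * n) ^ (1 / 10 : ℝ))) ≤ S (e + 1) := by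
    intro e he
    obtain ⟨hel, heu⟩ := hrange e he
    have heb : ((e0 : ℝ) + j0 + 2) ≤ e := hbig.trans hel
    have heb' : e0 + j0 + 2 ≤ e := by exact_mod_cast heb
    have hepos : (0 : ℝ) < e := lt_of_lt_of_le (by positivity) hel
    have he1 : (1 : ℝ) ≤ e := by
      have h1 : (0 : ℝ) ≤ e0 := Nat.cast_nonneg _
      have h2 : (0 : ℝ) ≤ j0 := Nat.cast_nonneg _
      linarith
    have hcast : ((e + 1 : ℕ) : ℝ) = e + 1 := by push_cast; ring
    rcases le_or_gt (tauG P.two e - Real.exp (-(1 / (2 * muS) * n) ^ (1 / 10 : ℝ))) 0 with hneg | hpos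
    · exact (mul_nonpos_of_nonneg_of_nonpos (by positivity) hneg).trans (hSn _)
    have hkg := kg_low hP (show 1 ≤ e + 1 by omega) (fun v => cvL (SL rL dL gL v (e + 1)) n)
      (fun v => PS_nonneg hg.law _ _ _)
    have hS1 : ∑ v ∈ range (e + 1 + 2), kP P v (e + 1) * R0 ^ v * D0 ^ (e + 1) *
        cvL (SL rL dL gL v (e + 1)) n ≤ S (e + 1) := by
      have h1 : ∑ v ∈ range (e + 1 + 2), F v (e + 1) =
          ∑ v ∈ (range (e + 1 + 2)).filter (fun v => v < n + 1), F v (e + 1) := by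
        rw [Finset.sum_filter]
        refine Finset.sum_congr rfl fun v _ => ?_
        split_ifs with h
        · rfl
        · exact hFz v (e + 1) (by omega)
      change ∑ v ∈ range (e + 1 + 2), F v (e + 1) ≤ ∑ v ∈ range (n + 1), F v (e + 1)
      rw [h1]
      refine Finset.sum_le_sum_of_subset_of_nonneg ?_ fun v _ _ => hFn v _
      intro v hv
      exact Finset.mem_range.2 (Finset.mem_filter.1 hv).2
    refine le_trans ?_ (hkg.trans hS1)
    -- the good terms
    have hterm : ∀ v ∈ range (e + 1), c3 * ((e : ℝ) + 1) ^ (-(2 / 3) : ℝ) *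
        (gP P.two v e * R0 ^ v * D0 ^ e -
          (if (e : ℝ) ^ (3 / 5 : ℝ) ≤ |((v : ℝ) + 2) - alG * e| then
            gP PGT v e * R0 ^ v * D0 ^ e else 0)) ≤
        gP P.two v (e + 1 - 1) * R0 ^ v * D0 ^ (e + 1 - 1) *
          cvL (SL rL dL gL (v + 2) (e + 1)) n := by
      intro v _
      rw [Nat.add_sub_cancel]
      have hgn := gP_nonneg P.two v e
      have hgm : gP P.two v e ≤ gP PGT v e := gP_mono (fun _ _ _ _ _ => trivial) v e
      have hc : 0 ≤ gP P.two v e * R0 ^ v * D0 ^ e := by positivity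
      have hcv := PS_nonneg hg.law (v + 2) (e + 1) n
      split_ifs with hv
      · have h1 : gP P.two v e * R0 ^ v * D0 ^ e ≤ gP PGT v e * R0 ^ v * D0 ^ e := by gcongr
        have h2 : c3 * ((e : ℝ) + 1) ^ (-(2 / 3) : ℝ) *
            (gP P.two v e * R0 ^ v * D0 ^ e - gP PGT v e * R0 ^ v * D0 ^ e) ≤ 0 :=
          mul_nonpos_of_nonneg_of_nonpos (by positivity) (by linarith)
        exact h2.trans (mul_nonneg hc hcv)
      · rw [sub_zero, mul_comm]
        refine mul_le_mul_of_nonneg_left ?_ hc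
        push Not at hv
        have hpw : (e : ℝ) ^ (3 / 5 : ℝ) ≤ e := by
          calc (e : ℝ) ^ (3 / 5 : ℝ) ≤ (e : ℝ) ^ (1 : ℝ) :=
                Real.rpow_le_rpow_of_exponent_le he1 (by norm_num)
            _ = e := Real.rpow_one _
        have h3 := abs_lt.1 hv
        have h5 := hH3 (v + 2) (e + 1) (by omega) (by
          push_cast
          nlinarith [h3.2]) n ?_
        · rw [hcast] at h5
          exact h5
        · rw [meanL_SL, hcast]
          have hew : (e : ℝ) ^ (3 / 5 : ℝ) ≤ ((e : ℝ) + 1) ^ (2 / 3 : ℝ) := by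
            calc (e : ℝ) ^ (3 / 5 : ℝ) ≤ (e : ℝ) ^ (2 / 3 : ℝ) :=
                  Real.rpow_le_rpow_of_exponent_le he1 (by norm_num)
              _ ≤ _ := Real.rpow_le_rpow (by positivity) (by linarith) (by norm_num)
          have hew1 : 1 ≤ ((e : ℝ) + 1) ^ (2 / 3 : ℝ) :=
            Real.one_le_rpow (by linarith) (by norm_num)
          have hnw : (n : ℝ) ^ (2 / 3 : ℝ) ≤ (2 * muS) ^ (2 / 3 : ℝ) * ((e : ℝ) + 1) ^ (2 / 3 : ℝ) := by
            rw [← Real.mul_rpow (by positivity) (by positivity)]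
            refine Real.rpow_le_rpow hnpos.le ?_ (by norm_num)
            have h6 : (n : ℝ) ≤ 2 * muS * e := by
              rw [one_div, ← div_eq_inv_mul, div_le_iff₀ (by positivity)] at hel
              linarith
            nlinarith
          have h6 := hJ e he
          have e1 : (n : ℝ) - (((v + 2 : ℕ) : ℝ) * mean rL + (((e : ℝ) + 1) * mean dL + mean gL)) =
              -(muS * e - n) - (((v : ℝ) + 2) - alG * e) * mean rL - (mean dL + mean gL) := by
            rw [muS]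
            push_cast
            ring
          rw [e1]
          calc _ ≤ |-(muS * e - n)| + |(((v : ℝ) + 2) - alG * e) * mean rL| +
                |mean dL + mean gL| := by
                refine (abs_sub _ _).trans ?_
                gcongr
                exact abs_sub _ _
            _ = |muS * e - n| + |((v : ℝ) + 2) - alG * e| * mean rL + (mean dL + mean gL) := by
                rw [abs_neg, abs_mul, abs_of_nonneg hmr,
                  abs_of_nonneg (show 0 ≤ mean dL + mean gL by linarith)]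
            _ ≤ A * ((2 * muS) ^ (2 / 3 : ℝ) * ((e : ℝ) + 1) ^ (2 / 3 : ℝ)) +
                ((e : ℝ) + 1) ^ (2 / 3 : ℝ) * mean rL +
                (mean dL + mean gL) * ((e : ℝ) + 1) ^ (2 / 3 : ℝ) := by
              have d1 := h6.trans (mul_le_mul_of_nonneg_left hnw hA.le)
              have d2 := mul_le_mul_of_nonneg_right (hv.le.trans hew) hmr
              have d3 := mul_le_mul_of_nonneg_left hew1 (show 0 ≤ mean dL + mean gL by linarith)
              linarith
            _ = _ := by rw [hA']; ring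
    have hts := Finset.sum_le_sum hterm
    rw [← Finset.mul_sum, Finset.sum_sub_distrib] at hts
    have htau : ∑ v ∈ range (e + 1), gP P.two v e * R0 ^ v * D0 ^ e = tauG P.two e := rfl
    rw [htau] at hts
    have hV := htV e (by omega)
    have hexp : Real.exp (-(e : ℝ) ^ (1 / 10 : ℝ)) ≤
        Real.exp (-(1 / (2 * muS) * n) ^ (1 / 10 : ℝ)) := by
      apply Real.exp_le_exp.2
      rw [neg_le_neg_iff]
      exact Real.rpow_le_rpow (by positivity) hel (by norm_num)
    have he1pos : (0 : ℝ) < (e : ℝ) + 1 := by positivity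
    have hpowe : (n : ℝ) ^ (-(5 / 3) : ℝ) * C2 ^ (-(5 / 3) : ℝ) ≤
        1 / ((e : ℝ) + 1) * ((e : ℝ) + 1) ^ (-(2 / 3) : ℝ) := by
      have h7 : 1 / ((e : ℝ) + 1) * ((e : ℝ) + 1) ^ (-(2 / 3) : ℝ) =
          ((e : ℝ) + 1) ^ (-(5 / 3) : ℝ) := by
        rw [one_div, ← Real.rpow_neg_one, ← Real.rpow_add he1pos]
        norm_num
      rw [h7, ← Real.mul_rpow hnpos.le hC2pos.le]
      refine Real.rpow_le_rpow_of_nonpos he1pos ?_ (by norm_num)
      rw [hC2]
      have : (1 : ℝ) ≤ n := by exact_mod_cast hn1'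
      nlinarith
    calc c4 * (n : ℝ) ^ (-(5 / 3) : ℝ) *
          (tauG P.two e - Real.exp (-(1 / (2 * muS) * n) ^ (1 / 10 : ℝ)))
        = R0 ^ 2 * D0 / 4 * c3 * ((n : ℝ) ^ (-(5 / 3) : ℝ) * C2 ^ (-(5 / 3) : ℝ)) *
          (tauG P.two e - Real.exp (-(1 / (2 * muS) * n) ^ (1 / 10 : ℝ))) := by
          rw [hc4]; ring
      _ ≤ R0 ^ 2 * D0 / 4 * c3 * (1 / ((e : ℝ) + 1) * ((e : ℝ) + 1) ^ (-(2 / 3) : ℝ)) *
          (tauG P.two e - ∑ v ∈ range (e + 1),
            (if (e : ℝ) ^ (3 / 5 : ℝ) ≤ |((v : ℝ) + 2) - alG * e| then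
              gP PGT v e * R0 ^ v * D0 ^ e else 0)) := by
          refine mul_le_mul (mul_le_mul_of_nonneg_left hpowe (by positivity)) ?_ hpos.le
            (by positivity)
          linarith
      _ = R0 ^ 2 * D0 / (4 * ((e : ℝ) + 1)) * (c3 * ((e : ℝ) + 1) ^ (-(2 / 3) : ℝ) *
          (tauG P.two e - ∑ v ∈ range (e + 1),
            (if (e : ℝ) ^ (3 / 5 : ℝ) ≤ |((v : ℝ) + 2) - alG * e| then
              gP PGT v e * R0 ^ v * D0 ^ e else 0))) := by
          have hq : R0 ^ 2 * D0 / (4 * ((e : ℝ) + 1)) = R0 ^ 2 * D0 / 4 * (1 / ((e : ℝ) + 1)) := by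
            field_simp
          rw [hq]
          ring
      _ ≤ _ := by
          rw [hcast]
          exact mul_le_mul_of_nonneg_left hts (by positivity)
  -- sum over `J`
  have hsumJ : ∑ e ∈ J, S (e + 1) ≤ sVE n ε F := by
    classical
    unfold sVE
    have h1 : ∑ e ∈ J, S (e + 1) = ∑ e ∈ J.image (fun e => e + 1), S e := by
      rw [Finset.sum_image (fun x _ y _ h => by simpa using h)]
    rw [h1]
    have h2 : ∑ e ∈ J.image (fun e => e + 1), S e =
        ∑ e ∈ (J.image (fun e => e + 1)).filter (fun e => e < 3 * n + 1), S e := by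
      rw [Finset.sum_filter]
      refine Finset.sum_congr rfl fun e _ => ?_
      split_ifs with h
      · rfl
      · exact hSz e (by omega)
    rw [h2]
    refine Finset.sum_le_sum_of_subset_of_nonneg ?_ fun e _ _ => hSn e
    intro e he
    obtain ⟨he1, he2⟩ := Finset.mem_filter.1 he
    obtain ⟨x, hx, rfl⟩ := Finset.mem_image.1 he1
    rw [Finset.mem_filter, Finset.mem_range]
    refine ⟨he2, ?_⟩
    have h3 := (hrange x hx).1
    have h4 : ε * n ≤ 1 / (2 * muS) * n := mul_le_mul_of_nonneg_right (min_le_right _ _) hnpos.le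
    push_cast
    linarith
  have hJcard : (J.card : ℝ) ≤ C * n + 1 := by
    have h1 : J ⊆ range (⌊C * n⌋₊ + 1) := by
      intro e he
      rw [Finset.mem_range]
      have := Nat.le_floor (hrange e he).2
      omega
    have h2 := Finset.card_le_card h1
    rw [Finset.card_range] at h2
    have h3 : (J.card : ℝ) ≤ ((⌊C * n⌋₊ + 1 : ℕ) : ℝ) := by exact_mod_cast h2
    push_cast at h3
    have h4 : (⌊C * n⌋₊ : ℝ) ≤ C * n := Nat.floor_le (by positivity)
    linarith
  have hfin := Finset.sum_le_sum hone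
  rw [← Finset.mul_sum, Finset.sum_sub_distrib, Finset.sum_const, nsmul_eq_mul] at hfin
  have hex : (J.card : ℝ) * Real.exp (-(1 / (2 * muS) * n) ^ (1 / 10 : ℝ)) ≤
      η / 2 * (n : ℝ) ^ (-(11 / 6) : ℝ) :=
    (mul_le_mul_of_nonneg_right hJcard (Real.exp_pos _).le).trans (hn1 n hnn1)
  have hpw : (n : ℝ) ^ (-(7 / 2) : ℝ) = (n : ℝ) ^ (-(5 / 3) : ℝ) * (n : ℝ) ^ (-(11 / 6) : ℝ) := by
    rw [← Real.rpow_add hnpos]; norm_num
  calc c4 / 2 * η * (n : ℝ) ^ (-(7 / 2) : ℝ)
      = c4 * (n : ℝ) ^ (-(5 / 3) : ℝ) * (η * (n : ℝ) ^ (-(11 / 6) : ℝ) -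
          η / 2 * (n : ℝ) ^ (-(11 / 6) : ℝ)) := by rw [hpw]; ring
    _ ≤ c4 * (n : ℝ) ^ (-(5 / 3) : ℝ) * (∑ e ∈ J, tauG P.two e -
          (J.card : ℝ) * Real.exp (-(1 / (2 * muS) * n) ^ (1 / 10 : ℝ))) := by
        refine mul_le_mul_of_nonneg_left ?_ (by positivity)
        linarith
    _ ≤ _ := hfin.trans hsumJ

theorem big_low : ∃ c ε : ℝ, 0 < c ∧ 0 < ε ∧ ε < 1 ∧ ∃ n0 : ℕ, ∀ n : ℕ, n0 ≤ n →
    c * (n : ℝ) ^ (-(7 / 2) : ℝ) ≤
      sVE n ε (fun v e => kP PGT0 v e * R0 ^ v * D0 ^ e * cvL (SL rL dL gL v e) n) := by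
  obtain ⟨μ, A, c, hμ, hA, hc, n0, hlow⟩ := tg_low
  have hmu := muS_pos
  set q : ℝ := μ / muS with hq
  have hqpos : 0 < q := by positivity
  set A2 : ℝ := muS / μ * (A * q ^ (2 / 3 : ℝ) + 1) with hA2
  have hA2pos : 0 < A2 := by positivity
  obtain ⟨c', ε, hc', hε, hε1, hcl⟩ := class_low hA2pos
  set η : ℝ := c * q ^ (-(11 / 6) : ℝ) with hη
  have hηpos : 0 < η := by positivity
  obtain ⟨n1, hn1⟩ := hcl η hηpos
  obtain ⟨n2, hn2⟩ : ∃ n2 : ℕ, ∀ n : ℕ, n2 ≤ n → ((n0 : ℝ) + 2) ≤ q * n := by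
    have h1 : Filter.Tendsto (fun n : ℕ => q * (n : ℝ)) Filter.atTop Filter.atTop :=
      tendsto_natCast_atTop_atTop.const_mul_atTop hqpos
    exact Filter.eventually_atTop.1 (h1.eventually (Filter.eventually_ge_atTop _))
  refine ⟨c' * η, ε, by positivity, hε, hε1, max (max n1 n2) 1, fun n hn => ?_⟩
  have hnn1 : n1 ≤ n := (le_max_left _ _).trans ((le_max_left _ _).trans hn)
  have hnn2 : n2 ≤ n := (le_max_right _ _).trans ((le_max_left _ _).trans hn)
  have hn1' : 1 ≤ n := (le_max_right _ _).trans hn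
  have hn1r : (1 : ℝ) ≤ n := by exact_mod_cast hn1'
  have hnpos : (0 : ℝ) < n := by linarith
  set n' : ℕ := ⌊q * n⌋₊ with hn'
  have hqn : 0 ≤ q * n := by positivity
  have hfl : (n' : ℝ) ≤ q * n := Nat.floor_le hqn
  have hfl2 : q * n < n' + 1 := Nat.lt_floor_add_one _
  have hn'0 : n0 ≤ n' := by
    apply Nat.le_floor
    have := hn2 n hnn2
    linarith
  have hn'pos : (0 : ℝ) < n' := by
    have := hn2 n hnn2
    have h0 : (0 : ℝ) ≤ n0 := Nat.cast_nonneg _
    linarith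
  obtain ⟨J, hJ1, hJ2⟩ := hlow n' hn'0
  have hinv : InvPG0 PGT0 := fun _ _ _ _ _ _ => trivial
  refine hn1 n hnn1 PGT0 hinv J ?_ ?_
  · intro e he
    have h1 := hJ1 e he
    have h2 : muS * e - n = muS / μ * (μ * e - q * n) := by
      rw [hq]
      field_simp
    have h3 : |μ * e - q * n| ≤ A * (n' : ℝ) ^ (2 / 3 : ℝ) + 1 := by
      have h4 : |μ * e - q * n| ≤ |μ * e - n'| + |(n' : ℝ) - q * n| := abs_sub_le _ _ _
      have h5 : |(n' : ℝ) - q * n| ≤ 1 := by
        rw [abs_le]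
        constructor <;> linarith
      linarith
    have h4 : (n' : ℝ) ^ (2 / 3 : ℝ) ≤ q ^ (2 / 3 : ℝ) * (n : ℝ) ^ (2 / 3 : ℝ) := by
      rw [← Real.mul_rpow hqpos.le hnpos.le]
      exact Real.rpow_le_rpow hn'pos.le hfl (by norm_num)
    have h5 : 1 ≤ (n : ℝ) ^ (2 / 3 : ℝ) := Real.one_le_rpow hn1r (by norm_num)
    rw [h2, abs_mul, abs_of_pos (show 0 < muS / μ by positivity), hA2]
    calc _ ≤ muS / μ * (A * (q ^ (2 / 3 : ℝ) * (n : ℝ) ^ (2 / 3 : ℝ)) + (n : ℝ) ^ (2 / 3 : ℝ)) := by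
          refine mul_le_mul_of_nonneg_left ?_ (by positivity)
          have h6 := mul_le_mul_of_nonneg_left h4 hA.le
          linarith
      _ = _ := by ring
  · have h1 : η * (n : ℝ) ^ (-(11 / 6) : ℝ) = c * (q * n) ^ (-(11 / 6) : ℝ) := by
      rw [Real.mul_rpow hqpos.le hnpos.le, hη]
      ring
    rw [h1]
    have h2 : (q * n) ^ (-(11 / 6) : ℝ) ≤ (n' : ℝ) ^ (-(11 / 6) : ℝ) :=
      Real.rpow_le_rpow_of_nonpos hn'pos hfl (by norm_num)
    exact (mul_le_mul_of_nonneg_left h2 hc.le).trans hJ2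

open Classical in
private theorem card_ind {α : Type*} [Fintype α] (Q : α → Prop) :
    (Nat.card {a // Q a} : ℝ) = ∑ a, if Q a then (1 : ℝ) else 0 := by
  rw [Nat.card_eq_fintype_card, Fintype.card_subtype, Finset.sum_boole]

theorem Z_low : ∃ c : ℝ, 0 < c ∧ ∃ n0 : ℕ, ∀ n : ℕ, n0 ≤ n →
    c * (n : ℝ) ^ (-(7 / 2) : ℝ) ≤ wt (gN ⊤) rho n := by
  classical
  obtain ⟨c, ε, hc, hε, hε1, n0, hlow⟩ := big_low
  obtain ⟨n1, hn1⟩ := core_num hε
  have hG := G0_pos
  have hrho : 0 < rho := lt_of_lt_of_le (by norm_num) rho_ge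
  have hinv : InvPG0 PGT0 := fun _ _ _ _ _ _ => trivial
  refine ⟨c * G0 / (6 / ε + 1), by positivity, max (max n0 n1) 1, fun n hn => ?_⟩
  have hnn0 : n0 ≤ n := (le_max_left _ _).trans ((le_max_left _ _).trans hn)
  have hnn1 : n1 ≤ n := (le_max_right _ _).trans ((le_max_left _ _).trans hn)
  have hn1' : 1 ≤ n := (le_max_right _ _).trans hn
  have hnpos : (0 : ℝ) < n := by exact_mod_cast hn1'
  have hfac : (0 : ℝ) < n.factorial := by exact_mod_cast Nat.factorial_pos n
  have h6 : 0 < 6 / ε + 1 := by positivity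
  -- the sum is a sum of numbers of pairs
  have h1 : G0 * sVE n ε (fun v e => kP PGT0 v e * R0 ^ v * D0 ^ e * cvL (SL rL dL gL v e) n) =
      sVE n ε (fun v e => pairN n v e (fun E X => PGT0 _ (torso E X))) * rho ^ n := by
    unfold sVE
    rw [Finset.mul_sum, Finset.sum_mul]
    refine Finset.sum_congr rfl fun e _ => ?_
    rw [Finset.mul_sum, Finset.sum_mul]
    refine Finset.sum_congr rfl fun v _ => ?_
    have h2 := SL_scale v e n
    have h3 := pair_K hinv n v e
    calc _ = kP PGT0 v e * (R0 ^ v * D0 ^ e * G0 * cvL (SL rL dL gL v e) n) := by ring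
      _ = kP PGT0 v e * cvL (SL (rN ⊤) (dN ⊤) (gN ⊤) v e) n * rho ^ n := by rw [← h2]; ring
      _ = pairN n v e (fun E X => PGT0 _ (torso E X)) * rho ^ n := by rw [h3]
  -- number of pairs
  have h2 : sVE n ε (fun v e => pairN n v e (fun E X => PGT0 _ (torso E X))) ≤
      (6 / ε + 1) * gN ⊤ n := by
    have hp : ∀ v e, pairN n v e (fun E X => PGT0 _ (torso E X)) =
        (∑ p : SimpleGraph (Fin n) × Set (Fin n), (if IsPlanar p.1 ∧ IsCore p.1 p.2 then (1 : ℝ) else 0) *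
          ((if Nat.card p.2 = v then 1 else 0) * (if coreE p.1 p.2 = e then 1 else 0))) /
            n.factorial := by
      intro v e
      unfold pairN
      rw [card_ind]
      congr 1
      refine Finset.sum_congr rfl fun p _ => ?_
      by_cases a1 : IsPlanar p.1 <;> by_cases a2 : IsCore p.1 p.2 <;>
        by_cases a3 : Nat.card p.2 = v <;> by_cases a4 : coreE p.1 p.2 = e <;>
        simp [a1, a2, a3, a4, PGT0]
    have hs : sVE n ε (fun v e => pairN n v e (fun E X => PGT0 _ (torso E X))) ≤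
        (∑ p : SimpleGraph (Fin n) × Set (Fin n), (if IsPlanar p.1 ∧ IsCore p.1 p.2 then (1 : ℝ) else 0) *
          (if ε * n ≤ coreE p.1 p.2 then 1 else 0)) / n.factorial := by
      unfold sVE
      simp only [hp]
      simp only [← Finset.sum_div]
      gcongr
      have hc1 : ∀ e : ℕ, ∑ v ∈ range (n + 1), ∑ p : SimpleGraph (Fin n) × Set (Fin n),
          (if IsPlanar p.1 ∧ IsCore p.1 p.2 then (1 : ℝ) else 0) *
          ((if Nat.card p.2 = v then 1 else 0) * (if coreE p.1 p.2 = e then 1 else 0)) ≤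
          ∑ p : SimpleGraph (Fin n) × Set (Fin n),
          (if IsPlanar p.1 ∧ IsCore p.1 p.2 then (1 : ℝ) else 0) *
            (if coreE p.1 p.2 = e then 1 else 0) := by
        intro e
        rw [Finset.sum_comm]
        refine Finset.sum_le_sum fun p _ => ?_
        rw [← Finset.mul_sum, ← Finset.sum_mul]
        refine mul_le_mul_of_nonneg_left ?_ (by split_ifs <;> norm_num)
        rw [Finset.sum_ite_eq]
        split_ifs <;> norm_num
      refine (Finset.sum_le_sum fun e _ => hc1 e).trans ?_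
      rw [Finset.sum_comm]
      refine Finset.sum_le_sum fun p _ => ?_
      rw [← Finset.mul_sum]
      refine mul_le_mul_of_nonneg_left ?_ (by split_ifs <;> norm_num)
      rw [Finset.sum_ite_eq]
      by_cases h3 : coreE p.1 p.2 ∈ (range (3 * n + 1)).filter (fun e : ℕ => ε * n ≤ e)
      · rw [if_pos h3, if_pos (Finset.mem_filter.1 h3).2]
      · rw [if_neg h3]
        split_ifs <;> norm_num
    refine hs.trans ?_
    rw [Fintype.sum_prod_type]
    have hE : ∀ E : SimpleGraph (Fin n), ∑ X : Set (Fin n),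
        (if IsPlanar E ∧ IsCore E X then (1 : ℝ) else 0) * (if ε * n ≤ coreE E X then 1 else 0) ≤
          (6 / ε + 1) * (if IsPlanar E then 1 else 0) := by
      intro E
      by_cases hEp : IsPlanar E
      · rw [if_pos hEp, mul_one]
        refine le_trans (le_of_eq ?_) (hn1 n hnn1 E hEp)
        rw [card_ind]
        refine Finset.sum_congr rfl fun X _ => ?_
        by_cases a2 : IsCore E X <;> by_cases a3 : ε * n ≤ coreE E X <;> simp [hEp, a2, a3]
      · rw [if_neg hEp, mul_zero]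
        refine le_of_eq (Finset.sum_eq_zero fun X _ => ?_)
        rw [if_neg (fun h => hEp h.1), zero_mul]
    have hsum := Finset.sum_le_sum fun (E : SimpleGraph (Fin n)) (_ : E ∈ Finset.univ) => hE E
    rw [← Finset.mul_sum, ← card_ind] at hsum
    have hgn : gN ⊤ n = (Nat.card {G : SimpleGraph (Fin n) // IsPlanar G} : ℝ) / n.factorial := by
      unfold gN
      congr 2
      exact Nat.card_congr (Equiv.subtypeEquivRight fun G => ⟨fun h => h.1, fun h => ⟨h, coreLt_top _⟩⟩)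
    rw [hgn, ← mul_div_assoc]
    gcongr
  have h3 := hlow n hnn0
  have h4 : 0 < rho ^ n := pow_pos hrho n
  have h5 := mul_le_mul_of_nonneg_left h3 hG.le
  rw [h1] at h5
  have h7 := mul_le_mul_of_nonneg_right h2 h4.le
  have h8 : G0 * (c * (n : ℝ) ^ (-(7 / 2) : ℝ)) ≤ (6 / ε + 1) * wt (gN ⊤) rho n := by
    refine (h5.trans h7).trans (le_of_eq ?_)
    rw [wt]
    ring
  rw [div_mul_eq_mul_div, div_le_iff₀ h6]
  linarith

end Dia
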